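import Pool.Agent.H98.MF.SBase

/-!
# The dihedral group of order 16 over a number field: row AH2, second part: Fourier analysis
-/

set_option autoImplicit false

open scoped BigOperators

namespace Pool.Agent.D8

open Pool.Agent.H98.MF
open Pool.Agent.H98.MK (sg)

theorem ct_char_sum {m : ℕ} (w : Fin m → ZMod 2) :
    ∑ c : Fin m → ZMod 2, ((sg (c ⬝ᵥ w) : ℤ) : ℝ) = if w = 0 then 2 ^ m else 0 := by
  have h1 : ∀ c : Fin m → ZMod 2, ((sg (c ⬝ᵥ w) : ℤ) : ℝ) = ∏ k, ((sg (c k * w k) : ℤ) : ℝ) := by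
    intro c
    unfold dotProduct
    rw [sg_sum, Int.cast_prod]
  have h2 : ∏ k, ∑ t : ZMod 2, ((sg (t * w k) : ℤ) : ℝ) =
      ∑ c : Fin m → ZMod 2, ∏ k, ((sg (c k * w k) : ℤ) : ℝ) := by
    rw [Finset.prod_univ_sum, Fintype.piFinset_univ]
  have h4 : ∀ t : ZMod 2, (∑ s : ZMod 2, ((sg (s * t) : ℤ) : ℝ)) = if t = 0 then 2 else 0 := by
    intro t
    have h5 : (∑ s : ZMod 2, (sg (s * t) : ℤ)) = if t = 0 then 2 else 0 := by
      revert t
      decide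
    rw [← Int.cast_sum, h5]
    split_ifs <;> norm_num
  rw [Finset.sum_congr rfl fun c _ => h1 c, ← h2]
  by_cases hw : w = 0
  · rw [if_pos hw, Finset.prod_congr rfl fun k _ => by rw [h4, hw, Pi.zero_apply, if_pos rfl],
      Finset.prod_const, Finset.card_univ, Fintype.card_fin]
  · rw [if_neg hw]
    obtain ⟨k, hk⟩ := Function.ne_iff.1 hw
    refine Finset.prod_eq_zero (Finset.mem_univ k) ?_
    rw [h4]
    exact if_neg hk

/-- the Fourier coefficients -/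
noncomputable def ctF {m : ℕ} (G : (Fin m → ZMod 2) → ℝ) (c : Fin m → ZMod 2) : ℝ :=
  (1 / 2) ^ m * ∑ u : Fin m → ZMod 2, G u * ((sg (c ⬝ᵥ u) : ℤ) : ℝ)

/-- Fourier inversion -/
theorem ct_fourier {m : ℕ} (G : (Fin m → ZMod 2) → ℝ) (u : Fin m → ZMod 2) :
    G u = ∑ c : Fin m → ZMod 2, ctF G c * ((sg (c ⬝ᵥ u) : ℤ) : ℝ) := by
  unfold ctF
  have h1 : ∀ c : Fin m → ZMod 2, (1 / 2 : ℝ) ^ m *
      (∑ v : Fin m → ZMod 2, G v * ((sg (c ⬝ᵥ v) : ℤ) : ℝ)) * ((sg (c ⬝ᵥ u) : ℤ) : ℝ) =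
      ∑ v : Fin m → ZMod 2, (1 / 2 : ℝ) ^ m * G v * ((sg (c ⬝ᵥ (v + u)) : ℤ) : ℝ) := by
    intro c
    rw [Finset.mul_sum, Finset.sum_mul]
    refine Finset.sum_congr rfl fun v _ => ?_
    rw [dotProduct_add, sg_add, Int.cast_mul]
    ring
  rw [Finset.sum_congr rfl fun c _ => h1 c, Finset.sum_comm]
  have h2 : ∀ v : Fin m → ZMod 2, (∑ c : Fin m → ZMod 2,
      (1 / 2 : ℝ) ^ m * G v * ((sg (c ⬝ᵥ (v + u)) : ℤ) : ℝ)) =
      if v = u then G u else 0 := by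
    intro v
    rw [← Finset.mul_sum, ct_char_sum]
    have h3 : v + u = 0 ↔ v = u := by
      rw [add_eq_zero_iff_eq_neg]
      have h4 : -u = u := by
        funext k
        rw [Pi.neg_apply]
        exact CharTwo.neg_eq _
      rw [h4]
    by_cases h : v = u
    · rw [if_pos (h3.2 h), if_pos h, h]
      have h5 : ((1 / 2 : ℝ)) ^ m * 2 ^ m = 1 := by
        rw [← mul_pow]
        norm_num
      calc (1 / 2 : ℝ) ^ m * G u * 2 ^ m = ((1 / 2 : ℝ) ^ m * 2 ^ m) * G u := by ring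
        _ = G u := by rw [h5, one_mul]
    · rw [if_neg (fun h' => h (h3.1 h')), if_neg h, mul_zero]
  rw [Finset.sum_congr rfl fun v _ => h2 v, Finset.sum_ite_eq' Finset.univ u fun _ => G u,
    if_pos (Finset.mem_univ u)]

/-- an expansion in characters -/
theorem ct_expand (F : Sys) (W : Finset F.P) (D : Finset (Finset F.P)) (g : F.T → ℝ) :
    ∑ r ∈ W.powerset, ∑ c ∈ D, g (F.tys r + F.tys c) =
      ∑ κ : F.T, ctF g κ * (∑ r ∈ W.powerset, (F.ps κ r : ℝ)) * ∑ c ∈ D, (F.ps κ c : ℝ) := by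
  have h1 : ∀ r c : Finset F.P, g (F.tys r + F.tys c) =
      ∑ κ : F.T, ctF g κ * ((F.ps κ r : ℝ) * (F.ps κ c : ℝ)) := by
    intro r c
    rw [ct_fourier g (F.tys r + F.tys c)]
    refine Finset.sum_congr rfl fun κ _ => ?_
    rw [dotProduct_add, sg_add, Int.cast_mul]
    rfl
  calc ∑ r ∈ W.powerset, ∑ c ∈ D, g (F.tys r + F.tys c)
      = ∑ r ∈ W.powerset, ∑ c ∈ D, ∑ κ : F.T, ctF g κ * ((F.ps κ r : ℝ) * (F.ps κ c : ℝ)) :=
        Finset.sum_congr rfl fun r _ => Finset.sum_congr rfl fun c _ => h1 r c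
    _ = ∑ r ∈ W.powerset, ∑ κ : F.T, ∑ c ∈ D, ctF g κ * ((F.ps κ r : ℝ) * (F.ps κ c : ℝ)) :=
        Finset.sum_congr rfl fun r _ => Finset.sum_comm
    _ = ∑ κ : F.T, ∑ r ∈ W.powerset, ∑ c ∈ D, ctF g κ * ((F.ps κ r : ℝ) * (F.ps κ c : ℝ)) :=
        Finset.sum_comm
    _ = _ := by
        refine Finset.sum_congr rfl fun κ _ => ?_
        rw [mul_assoc, Finset.sum_mul_sum, Finset.mul_sum]
        refine Finset.sum_congr rfl fun r _ => ?_
        rw [Finset.mul_sum]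

/-- the main term and the error term -/
theorem ct_four (F : Sys) (W : Finset F.P) (D : Finset (Finset F.P)) (g : F.T → ℝ)
    (h0 : ∀ z, 0 ≤ g z) (hm : ∀ z, g z ≤ 2 ^ F.m) :
    |∑ r ∈ W.powerset, ∑ c ∈ D, g (F.tys r + F.tys c) -
        2 ^ W.card * ((1 / 2) ^ F.m * ∑ z : F.T, g z) * (D.card : ℝ)| ≤
      2 ^ W.card * 2 ^ F.m * ∑ κ ∈ (Finset.univ : Finset F.T).erase 0,
        |∑ c ∈ D, (F.ps κ c : ℝ)| := by
  rw [ct_expand, ← Finset.add_sum_erase _ _ (Finset.mem_univ (0 : F.T))]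
  have h1 : ctF g (0 : F.T) = (1 / 2) ^ F.m * ∑ z : F.T, g z := by
    unfold ctF
    congr 1
    refine Finset.sum_congr rfl fun z _ => ?_
    rw [zero_dotProduct, sg_zero, Int.cast_one, mul_one]
  have h2 : ∑ r ∈ W.powerset, (F.ps 0 r : ℝ) = 2 ^ W.card := by
    rw [Finset.sum_congr rfl fun r _ => by rw [F.ps_zero, Int.cast_one], Finset.sum_const,
      Finset.card_powerset, nsmul_eq_mul, mul_one]
    push_cast
    rfl
  have h3 : ∑ c ∈ D, (F.ps 0 c : ℝ) = D.card := by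
    rw [Finset.sum_congr rfl fun r _ => by rw [F.ps_zero, Int.cast_one], Finset.sum_const,
      nsmul_eq_mul, mul_one]
  rw [h1, h2, h3]
  have h4 : (1 / 2) ^ F.m * (∑ z : F.T, g z) * 2 ^ W.card * (D.card : ℝ) +
      ∑ κ ∈ (Finset.univ : Finset F.T).erase 0,
        ctF g κ * (∑ r ∈ W.powerset, (F.ps κ r : ℝ)) * ∑ c ∈ D, (F.ps κ c : ℝ) -
      2 ^ W.card * ((1 / 2) ^ F.m * ∑ z : F.T, g z) * (D.card : ℝ) =
      ∑ κ ∈ (Finset.univ : Finset F.T).erase 0,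
        ctF g κ * (∑ r ∈ W.powerset, (F.ps κ r : ℝ)) * ∑ c ∈ D, (F.ps κ c : ℝ) := by
    ring
  rw [h4, Finset.mul_sum]
  refine (Finset.abs_sum_le_sum_abs _ _).trans (Finset.sum_le_sum fun κ _ => ?_)
  rw [abs_mul, abs_mul]
  have h5 : |ctF g κ| ≤ 2 ^ F.m := by
    unfold ctF
    rw [abs_mul, abs_of_nonneg (by positivity : (0 : ℝ) ≤ (1 / 2) ^ F.m)]
    have h6 : |∑ u : F.T, g u * ((sg (κ ⬝ᵥ u) : ℤ) : ℝ)| ≤ 2 ^ F.m * 2 ^ F.m := by
      refine (Finset.abs_sum_le_sum_abs _ _).trans ?_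
      calc ∑ u : F.T, |g u * ((sg (κ ⬝ᵥ u) : ℤ) : ℝ)| ≤ ∑ _u : F.T, (2 : ℝ) ^ F.m := by
            refine Finset.sum_le_sum fun u _ => ?_
            rw [abs_mul, abs_sgr, mul_one, abs_of_nonneg (h0 u)]
            exact hm u
        _ = 2 ^ F.m * 2 ^ F.m := by
            rw [Finset.sum_const, Finset.card_univ, Fintype.card_fun, Fintype.card_fin,
              ZMod.card, nsmul_eq_mul]
            push_cast
            rfl
    calc (1 / 2 : ℝ) ^ F.m * |∑ u : F.T, g u * ((sg (κ ⬝ᵥ u) : ℤ) : ℝ)|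
        ≤ (1 / 2) ^ F.m * (2 ^ F.m * 2 ^ F.m) := mul_le_mul_of_nonneg_left h6 (by positivity)
      _ = ((1 / 2) * 2) ^ F.m * 2 ^ F.m := by rw [mul_pow]; ring
      _ = 2 ^ F.m := by norm_num
  have h7 : |∑ r ∈ W.powerset, (F.ps κ r : ℝ)| ≤ 2 ^ W.card := by
    refine (Finset.abs_sum_le_sum_abs _ _).trans ?_
    rw [Finset.sum_congr rfl fun r _ => F.abs_ps κ r, Finset.sum_const, Finset.card_powerset,
      nsmul_eq_mul, mul_one]
    push_cast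
    rfl
  calc |ctF g κ| * |∑ r ∈ W.powerset, (F.ps κ r : ℝ)| * |∑ c ∈ D, (F.ps κ c : ℝ)|
      ≤ 2 ^ F.m * 2 ^ W.card * |∑ c ∈ D, (F.ps κ c : ℝ)| := by
        refine mul_le_mul_of_nonneg_right ?_ (abs_nonneg _)
        exact mul_le_mul h5 h7 (abs_nonneg _) (by positivity)
    _ = 2 ^ W.card * 2 ^ F.m * |∑ c ∈ D, (F.ps κ c : ℝ)| := by ring

end Pool.Agent.D8
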