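import Pool.Agent.D8.ACntA
import Pool.Agent.D8.ACntF

/-!
# The dihedral group of order 16 over a number field: row AH2: counting homomorphisms with a
fixed frame
-/

set_option autoImplicit false

open scoped BigOperators
open NumberField IsDedekindDomain

namespace Pool.Agent.D8

open Pool.Agent.H98.MF
open Pool.Agent.H98.MK (sg)
open Pool.Agent.H32.MQ (El rep co)

section

variable {k : Type} [Field k] [NumberField k] (Fr : Frm k) (Rk : RxF k)

open Classical in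
/-- the parametrisation of the homomorphisms -/
theorem ct_card {H : (Gm k →* E8) → Prop} (hH : HLoc Fr H) {a b : kˣ} (ha : ¬ IsSquare a)
    (hb : ¬ IsSquare b) (hab : ¬ IsSquare (a * b)) (W : Finset Fr.sys.P)
    (D : Finset (Finset Fr.sys.P)) (hD : ∀ c ∈ D, Disjoint c W) (I : Finset (El Fr.sys))
    (F : El Fr.sys → Gm k → ZMod 2) (L : El Fr.sys → Prop)
    (hF : ∀ i ∈ I, ∀ j ∈ I, F i = F j → i = j) (R : El Fr.sys → Gm k →* E8)
    (hR : ∀ i ∈ I, L i → IsLocallyConstant (R i) ∧ Ov a b (R i) ∧ (∀ σ, (R i σ).pf = F i σ) ∧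
      ∀ p, p ∉ W → R i (Rk.tau (Fr.pl p)) = 1)
    (C : Set (Gm k →* E8))
    (hC : ∀ ρ, ρ ∈ C ↔ ρ ∈ Hs k ∧ Ov a b ρ ∧ H ρ ∧ ∃ c ∈ D, ∀ p, p ∉ W →
      ((p ∈ c → ρ (Rk.tau (Fr.pl p)) = E8.zz 1) ∧ (p ∉ c → ρ (Rk.tau (Fr.pl p)) = 1)))
    (hI : ∀ ρ ∈ C, ∃ i ∈ I, L i ∧ ∀ σ, (ρ σ).pf = F i σ) :
    C.Finite ∧ C.ncard = ∑ i ∈ I, if L i then ∑ r ∈ W.powerset, ∑ c ∈ D, ∑ y : Fr.sys.T,
      (if H (tw (R i) (cl Fr y (Fr.sys.tys r + Fr.sys.tys c))) then 1 else 0) else 0 := by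
  have hHs : ∀ i ∈ I, L i → ∀ t, tw (R i) t ∈ Hs k := by
    intro i hi hL t
    obtain ⟨hl, ho, -, -⟩ := hR i hi hL
    exact ⟨ct_surj ha hb hab (ct_tw_ov ho t), ct_tw_lc hl t⟩
  let J : Finset (El Fr.sys × (Finset Fr.sys.P × (Finset Fr.sys.P × Fr.sys.T))) :=
    (I ×ˢ (W.powerset ×ˢ (D ×ˢ Finset.univ))).filter fun j =>
      L j.1 ∧ H (tw (R j.1) (cl Fr j.2.2.2 (Fr.sys.tys j.2.1 + Fr.sys.tys j.2.2.1)))
  let Φ : El Fr.sys × (Finset Fr.sys.P × (Finset Fr.sys.P × Fr.sys.T)) → (Gm k →* E8) :=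
    fun j => tw (R j.1) (rep Fr (j.2.2.2, j.2.1 ∪ j.2.2.1))
  have hmem : ∀ j, j ∈ J ↔ (j.1 ∈ I ∧ j.2.1 ⊆ W ∧ j.2.2.1 ∈ D) ∧ L j.1 ∧
      H (tw (R j.1) (cl Fr j.2.2.2 (Fr.sys.tys j.2.1 + Fr.sys.tys j.2.2.1))) := by
    intro j
    simp only [J, Finset.mem_filter, Finset.mem_product, Finset.mem_powerset, Finset.mem_univ,
      and_true]
  have hdis : ∀ r c : Finset Fr.sys.P, r ⊆ W → c ∈ D → Disjoint r c := fun r c hr hc =>
    (Finset.disjoint_of_subset_right hr (hD c hc)).symm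
  have htys : ∀ r c : Finset Fr.sys.P, r ⊆ W → c ∈ D →
      Fr.sys.tys (r ∪ c) = Fr.sys.tys r + Fr.sys.tys c := by
    intro r c hr hc
    unfold Sys.tys
    rw [Finset.sum_union (hdis r c hr hc)]
  have hCeq : C = Φ '' (J : Set (El Fr.sys × (Finset Fr.sys.P × (Finset Fr.sys.P × Fr.sys.T)))) := by
    ext ρ
    constructor
    · intro hρ
      obtain ⟨i, hi, hL, hpf⟩ := hI ρ hρ
      obtain ⟨⟨hs, hl⟩, ho, hHρ, c, hc, hcp⟩ := (hC ρ).1 hρ
      obtain ⟨hl', ho', hpf', htau⟩ := hR i hi hL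
      obtain ⟨⟨y, s⟩, hy⟩ := ct_diff' Fr hl' hl ho' ho fun σ => (hpf' σ).trans (hpf σ).symm
      have hval : ∀ p, p ∉ W → ρ (Rk.tau (Fr.pl p)) = E8.zz (if p ∈ s then 1 else 0) := by
        intro p hp
        rw [hy, tw_apply, ct_chi_tau, htau p hp, one_mul]
      have hs2 : s = (s ∩ W) ∪ c := by
        ext p
        rw [Finset.mem_union, Finset.mem_inter]
        by_cases hp : p ∈ W
        · have h1 : p ∉ c := fun h => Finset.disjoint_left.1 (hD c hc) h hp
          simp [hp, h1]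
        · have h1 := hval p hp
          by_cases h2 : p ∈ c
          · rw [(hcp p hp).1 h2] at h1
            have h3 := ct_zz_inj h1
            by_cases h4 : p ∈ s
            · simp [h4, h2]
            · rw [if_neg h4] at h3
              exact absurd h3 (by decide)
          · rw [(hcp p hp).2 h2, ← ct_zz_zero] at h1
            have h3 := ct_zz_inj h1
            by_cases h4 : p ∈ s
            · rw [if_pos h4] at h3
              exact absurd h3 (by decide)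
            · simp [h4, h2]
      refine ⟨(i, (s ∩ W, (c, y))), ?_, ?_⟩
      · rw [Finset.mem_coe, hmem]
        refine ⟨⟨hi, Finset.inter_subset_right, hc⟩, hL, ?_⟩
        show H (tw (R i) (cl Fr y (Fr.sys.tys (s ∩ W) + Fr.sys.tys c)))
        rw [← htys _ _ Finset.inter_subset_right hc, ← ct_H Fr hH (hHs i hi hL), ← hs2, ← hy]
        exact hHρ
      · show tw (R i) (rep Fr (y, (s ∩ W) ∪ c)) = ρ
        rw [← hs2, ← hy]
    · rintro ⟨⟨i, r, c, y⟩, hj, rfl⟩
      rw [Finset.mem_coe, hmem] at hj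
      obtain ⟨⟨hi, hr, hc⟩, hL, hHj⟩ := hj
      simp only at hi hr hc hL hHj
      obtain ⟨hl, ho, hpf, htau⟩ := hR i hi hL
      rw [hC]
      refine ⟨hHs i hi hL _, ct_tw_ov ho _, ?_, c, hc, fun p hp => ?_⟩
      · show H (tw (R i) (rep Fr (y, r ∪ c)))
        rw [ct_H Fr hH (hHs i hi hL), htys r c hr hc]
        exact hHj
      · have hval : (Φ (i, (r, (c, y)))) (Rk.tau (Fr.pl p)) =
            E8.zz (if p ∈ r ∪ c then 1 else 0) := by
          show tw (R i) (rep Fr (y, r ∪ c)) (Rk.tau (Fr.pl p)) = _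
          rw [tw_apply, ct_chi_tau, htau p hp, one_mul]
        constructor
        · intro h
          rw [hval, if_pos (Finset.mem_union_right _ h)]
        · intro h
          rw [hval, if_neg, ct_zz_zero]
          rw [Finset.mem_union, not_or]
          exact ⟨fun h2 => hp (hr h2), h⟩
  have hinj : Set.InjOn Φ
      (J : Set (El Fr.sys × (Finset Fr.sys.P × (Finset Fr.sys.P × Fr.sys.T)))) := by
    rintro ⟨i, r, c, y⟩ hj ⟨i', r', c', y'⟩ hj' he
    rw [Finset.mem_coe, hmem] at hj hj'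
    obtain ⟨⟨hi, hr, hc⟩, hL, -⟩ := hj
    obtain ⟨⟨hi', hr', hc'⟩, hL', -⟩ := hj'
    simp only at hi hr hc hL hi' hr' hc' hL'
    have he' : tw (R i) (rep Fr (y, r ∪ c)) = tw (R i') (rep Fr (y', r' ∪ c')) := he
    have h1 : i = i' := by
      apply hF i hi i' hi'
      funext σ
      rw [← (hR i hi hL).2.2.1 σ, ← (hR i' hi' hL').2.2.1 σ,
        ← ct_tw_pf (R i) (rep Fr (y, r ∪ c)) σ, he', ct_tw_pf]
    subst h1
    have h2 := ct_rep_inj Fr (ct_tw_inj (R i) he')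
    have h3 : y = y' := congrArg Prod.fst h2
    have h4 : r ∪ c = r' ∪ c' := congrArg Prod.snd h2
    have h5 : ∀ (s d : Finset Fr.sys.P), s ⊆ W → d ∈ D → (s ∪ d) ∩ W = s ∧ (s ∪ d) \ W = d := by
      intro s d hs hd
      have h6 := hD d hd
      constructor
      · ext p
        rw [Finset.mem_inter, Finset.mem_union]
        constructor
        · rintro ⟨h7 | h7, h8⟩
          · exact h7
          · exact absurd h8 (Finset.disjoint_left.1 h6 h7)
        · exact fun h7 => ⟨Or.inl h7, hs h7⟩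
      · ext p
        rw [Finset.mem_sdiff, Finset.mem_union]
        constructor
        · rintro ⟨h7 | h7, h8⟩
          · exact absurd (hs h7) h8
          · exact h7
        · exact fun h7 => ⟨Or.inr h7, Finset.disjoint_left.1 h6 h7⟩
    have h6 : r = r' := by
      rw [← (h5 r c hr hc).1, h4, (h5 r' c' hr' hc').1]
    have h7 : c = c' := by
      rw [← (h5 r c hr hc).2, h4, (h5 r' c' hr' hc').2]
    rw [h3, h6, h7]
  refine ⟨?_, ?_⟩
  · rw [hCeq]
    exact (Finset.finite_toSet J).image Φ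
  · rw [hCeq, hinj.ncard_image, Set.ncard_coe_finset, Finset.card_filter,
      Finset.sum_product]
    refine Finset.sum_congr rfl fun i _ => ?_
    by_cases hL : L i
    · rw [if_pos hL, Finset.sum_product]
      refine Finset.sum_congr rfl fun r _ => ?_
      rw [Finset.sum_product]
      refine Finset.sum_congr rfl fun c _ => Finset.sum_congr rfl fun y _ => ?_
      simp only [hL, true_and]
    · rw [if_neg hL]
      refine Finset.sum_eq_zero fun j _ => ?_
      rw [if_neg]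
      exact fun h => hL h.1

/-- AH2: counting homomorphisms with a fixed frame -/
theorem acnt (h1 : SaGH Fr) (h2 : SaGHv Fr) (h3 : SaTor Fr Rk) (h4 : SaNor Fr Rk) (h5 : SaSl k)
    (h6 : SaObG k) (h7 : SaObN k) : SaCnt Fr Rk := by
  classical
  intro H hH A B ua ub t hAB ha hb hab ht
  set a : kˣ := rep Fr (ua, A) with hadef
  set b : kˣ := rep Fr (ub, B) with hbdef
  set W : Finset Fr.sys.P := A ∪ B with hW
  have hIF : ∀ ρ ∈ Hs k, Ov a b ρ → IsF a b fun σ => (ρ σ).pf := by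
    rintro ρ ⟨hs, hl⟩ ho
    exact ⟨hl.comp E8.pf, fun σ τ => by rw [map_mul, E8.pf_mul, (ho σ).1, (ho τ).2]⟩
  by_cases hex : ∃ f, IsL Fr Rk a b ∅ f
  swap
  · have hC : Cs Fr Rk H A B ua ub t = ∅ := by
      rw [Set.eq_empty_iff_forall_notMem]
      rintro ρ ⟨hρ, ho, -, -⟩
      exact hex (h4 a b ((h5 a b).1 ⟨_, hIF ρ hρ ho⟩))
    have hN : ∀ G, NG Fr Rk G a b W = 0 := fun G => dif_neg hex
    rw [hC, hN, hN]
    simp
  have hf0 : IsL Fr Rk a b ∅ hex.choose := hex.choose_spec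
  have hNG : ∀ G, NG Fr Rk G a b W = 2 ^ W.card * ∑ y : Fr.sys.T, ∑ r ∈ W.powerset,
      (if ∀ p ∈ W, ob (Sum.inl (Fr.pl p)) a b
          (fun σ => hex.choose σ + chi (rep Fr (y, r) : k) σ) = 0
        then G (dat a b fun σ => hex.choose σ + chi (rep Fr (y, r) : k) σ) else 0) :=
    fun G => dif_pos hex
  set f0 : Gm k → ZMod 2 := hex.choose with hf0def
  let I : Finset (El Fr.sys) := Finset.univ ×ˢ W.powerset
  let F : El Fr.sys → Gm k → ZMod 2 := fun i σ => f0 σ + chi (rep Fr i : k) σ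
  let L : El Fr.sys → Prop := fun i => ∃ h, IsH ⊤ a b (F i) h
  have hIL : ∀ i ∈ I, IsL Fr Rk a b W (F i) := by
    intro i hi
    have hi2 : i.2 ⊆ W := Finset.mem_powerset.1 (Finset.mem_product.1 hi).2
    exact (h3 a b W f0 (F i) hf0).2 ⟨i.1, i.2, hi2, fun σ => rfl⟩
  have hchia : ∀ p, p ∉ W → chi (a : k) (Rk.tau (Fr.pl p)) = 0 := by
    intro p hp
    rw [hadef, ct_chi_tau, if_neg]
    exact fun h => hp (Finset.mem_union_left _ h)
  have hchib : ∀ p, p ∉ W → chi (b : k) (Rk.tau (Fr.pl p)) = 0 := by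
    intro p hp
    rw [hbdef, ct_chi_tau, if_neg]
    exact fun h => hp (Finset.mem_union_right _ h)
  have hG : ∀ G, LG Fr G → NG Fr Rk G a b W =
      2 ^ W.card * ∑ i ∈ I, if L i then G (dat a b (F i)) else 0 := by
    intro G hLG
    rw [hNG G]
    congr 1
    rw [show (∑ i ∈ I, if L i then G (dat a b (F i)) else 0) =
      ∑ y : Fr.sys.T, ∑ r ∈ W.powerset, if L (y, r) then G (dat a b (F (y, r))) else 0 from
      Finset.sum_product _ _ _]
    refine Finset.sum_congr rfl fun y _ => Finset.sum_congr rfl fun r hr => ?_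
    have hi : ((y, r) : El Fr.sys) ∈ I := Finset.mem_product.2 ⟨Finset.mem_univ _, hr⟩
    have hF1 := hIL _ hi
    show (if ∀ p ∈ W, ob (Sum.inl (Fr.pl p)) a b (F (y, r)) = 0 then
      G (dat a b (F (y, r))) else 0) = if L (y, r) then G (dat a b (F (y, r))) else 0
    by_cases hL : L (y, r)
    · rw [if_pos hL, if_pos]
      intro p _
      exact (h6 a b (F (y, r)) hF1.1).1 hL _
    · rw [if_neg hL]
      split_ifs with hob
      · by_contra hne
        apply hL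
        apply (h6 a b (F (y, r)) hF1.1).2
        have hS := hLG.sup a b (F (y, r)) hF1.1 hne
        rintro (P | φ)
        · by_cases hP : P ∈ Fr.S
          · apply hS
            unfold pls
            exact Finset.inl_mem_disjSum.2 hP
          · obtain ⟨p, rfl⟩ := (Fr.pl_iff P).2 hP
            by_cases hp : p ∈ W
            · exact hob p hp
            · refine h7 Fr Rk a b (F (y, r)) hF1.1 p ?_ ?_ (hF1.2 p hp)
              · rw [hadef, Pool.Agent.H32.MQ.h_repO Fr (ua, A) p, if_neg]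
                · exact Even.zero
                · exact fun h => hp (Finset.mem_union_left _ h)
              · rw [hbdef, Pool.Agent.H32.MQ.h_repO Fr (ub, B) p, if_neg]
                · exact Even.zero
                · exact fun h => hp (Finset.mem_union_right _ h)
        · apply hS
          unfold pls
          exact Finset.inr_mem_disjSum.2 (Finset.mem_univ φ)
      · rfl
  have hRex : ∀ i, ∃ ρ : Gm k →* E8, i ∈ I → L i → IsLocallyConstant ρ ∧ Ov a b ρ ∧
      (∀ σ, (ρ σ).pf = F i σ) ∧ ∀ p, p ∉ W → ρ (Rk.tau (Fr.pl p)) = 1 := by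
    intro i
    by_cases hi : i ∈ I ∧ L i
    · obtain ⟨ρ, hρ⟩ := ct_base Fr Rk W hchia hchib (hIL i hi.1) hi.2
      exact ⟨ρ, fun _ _ => hρ⟩
    · exact ⟨1, fun h1 h2 => absurd ⟨h1, h2⟩ hi⟩
  choose R hR using hRex
  have hF : ∀ i ∈ I, ∀ j ∈ I, F i = F j → i = j := by
    intro i _ j _ hij
    apply ct_rep_inj Fr
    intro σ
    exact add_left_cancel (congrFun hij σ)
  set D : Finset (Finset Fr.sys.P) := (Fr.sys.bx t).filter fun c => Disjoint c W with hDdef
  have hmemD : ∀ c, c ∈ D ↔ c ∈ Fr.sys.bx t ∧ Disjoint c W := fun c => Finset.mem_filter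
  obtain ⟨hfin, hcard⟩ := ct_card Fr Rk hH ha hb hab W D (fun c hc => ((hmemD c).1 hc).2) I F L
    hF R hR (Cs Fr Rk H A B ua ub t) (by
      intro ρ
      constructor
      · rintro ⟨hρ, ho, hHρ, c, hc, hcW, hcp⟩
        exact ⟨hρ, ho, hHρ, c, (hmemD c).2 ⟨hc, hcW⟩, hcp⟩
      · rintro ⟨hρ, ho, hHρ, c, hc, hcp⟩
        exact ⟨hρ, ho, hHρ, c, ((hmemD c).1 hc).1, ((hmemD c).1 hc).2, hcp⟩) (by
      rintro ρ ⟨hρ, ho, hHρ, c, hc, hcW, hcp⟩
      have hf := hIF ρ hρ ho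
      have hL1 : IsL Fr Rk a b W fun σ => (ρ σ).pf := by
        refine ⟨hf, fun p hp => ?_⟩
        show (ρ (Rk.tau (Fr.pl p))).pf = 0
        by_cases h : p ∈ c
        · rw [(hcp p hp).1 h, ct_zz_pf']
        · rw [(hcp p hp).2 h, ← ct_zz_zero, ct_zz_pf']
      obtain ⟨y, r, hr, hy⟩ := (h3 a b W f0 _ hf0).1 hL1
      refine ⟨(y, r), Finset.mem_product.2 ⟨Finset.mem_univ _, Finset.mem_powerset.2 hr⟩,
        ⟨fun σ => (ρ σ).ph, hρ.2.comp E8.ph, fun σ _ τ _ => ?_⟩, hy⟩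
      have e : ∀ σ : Gm k, E8.mk4 (chi (a : k) σ) (chi (b : k) σ) (F (y, r) σ) (ρ σ).ph = ρ σ := by
        intro σ
        have e1 : F (y, r) σ = (ρ σ).pf := (hy σ).symm
        rw [e1, ← (ho σ).1, ← (ho σ).2, E8.mk4_bits]
      rw [e, e, e, map_mul])
  refine ⟨hfin, ?_⟩
  have hGH := h1 H hH
  have hHT : HLoc Fr (fun _ : Gm k →* E8 => True) := fun _ _ _ _ _ => Iff.rfl
  have hGT := h1 (fun _ => True) hHT
  rw [hG _ hGH, hG _ hGT]
  let g : El Fr.sys → Fr.sys.T → ℝ := fun i z => ∑ y : Fr.sys.T,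
    if H (tw (R i) (cl Fr y z)) then 1 else 0
  have hcardR : ((Cs Fr Rk H A B ua ub t).ncard : ℝ) = ∑ i ∈ I, if L i then
      ∑ r ∈ W.powerset, ∑ c ∈ D, g i (Fr.sys.tys r + Fr.sys.tys c) else 0 := by
    rw [hcard]
    push_cast
    rfl
  have hv1 : ∀ i ∈ I, L i → GH Fr H (dat a b (F i)) =
      (1 / 4 ^ Fr.sys.m) * ∑ z : Fr.sys.T, g i z := by
    intro i hi hL
    obtain ⟨hl, ho, hpf, -⟩ := hR i hi hL
    have e := h2 H hH a b (R i) ⟨ct_surj ha hb hab ho, hl⟩ ho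
    rw [show (fun σ => (R i σ).pf) = F i from funext hpf] at e
    rw [e, Finset.sum_comm]
  have hT : (Fintype.card Fr.sys.T : ℝ) = 2 ^ Fr.sys.m := by
    rw [Fintype.card_fun, Fintype.card_fin, ZMod.card]
    push_cast
    rfl
  have hv2 : ∀ i ∈ I, L i → GH Fr (fun _ => True) (dat a b (F i)) = 1 := by
    intro i hi hL
    obtain ⟨hl, ho, hpf, -⟩ := hR i hi hL
    have e := h2 (fun _ => True) hHT a b (R i) ⟨ct_surj ha hb hab ho, hl⟩ ho
    rw [show (fun σ => (R i σ).pf) = F i from funext hpf] at e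
    rw [e]
    simp only [if_true, Finset.sum_const, Finset.card_univ, nsmul_eq_mul, mul_one]
    rw [hT, ← mul_pow, one_div, show (2 : ℝ) * 2 = 4 by norm_num]
    exact inv_mul_cancel₀ (by positivity)
  have hgz : ∀ i z, 0 ≤ g i z := by
    intro i z
    refine Finset.sum_nonneg fun y _ => ?_
    split_ifs <;> norm_num
  have hgm : ∀ i z, g i z ≤ 2 ^ Fr.sys.m := by
    intro i z
    calc g i z ≤ ∑ _y : Fr.sys.T, (1 : ℝ) := by
          refine Finset.sum_le_sum fun y _ => ?_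
          split_ifs <;> norm_num
      _ = 2 ^ Fr.sys.m := by rw [Finset.sum_const, Finset.card_univ, nsmul_eq_mul, mul_one, hT]
  set E : ℝ := ∑ κ ∈ (Finset.univ : Finset Fr.sys.T).erase 0,
        |∑ c ∈ D, (Fr.sys.ps κ c : ℝ)| with hE
  have hpow : (2 : ℝ) ^ Fr.sys.m * (1 / 4 ^ Fr.sys.m) = (1 / 2) ^ Fr.sys.m := by
    rw [show (4 : ℝ) = 2 * 2 by norm_num, mul_pow, one_div_pow]
    field_simp
  have hterm : ∀ i ∈ I, |(if L i then ∑ r ∈ W.powerset, ∑ c ∈ D,
      g i (Fr.sys.tys r + Fr.sys.tys c) else 0) - 2 ^ Fr.sys.m * (2 ^ W.card *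
        (if L i then GH Fr H (dat a b (F i)) else 0)) * (D.card : ℝ)| ≤
      2 ^ Fr.sys.m * (2 ^ W.card * (if L i then GH Fr (fun _ => True) (dat a b (F i)) else 0)) *
        E := by
    intro i hi
    by_cases hL : L i
    · rw [if_pos hL, if_pos hL, if_pos hL, hv1 i hi hL, hv2 i hi hL]
      have e := ct_four Fr.sys W D (g i) (hgz i) (hgm i)
      have e1 : (2 : ℝ) ^ Fr.sys.m * (2 ^ W.card * (1 / 4 ^ Fr.sys.m * ∑ z : Fr.sys.T, g i z)) =
          2 ^ W.card * ((1 / 2) ^ Fr.sys.m * ∑ z : Fr.sys.T, g i z) := by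
        rw [← hpow]
        ring
      rw [e1, mul_one, mul_comm ((2 : ℝ) ^ Fr.sys.m) (2 ^ W.card)]
      exact e
    · rw [if_neg hL, if_neg hL, if_neg hL]
      simp
  calc |((Cs Fr Rk H A B ua ub t).ncard : ℝ) - 2 ^ Fr.sys.m *
        (2 ^ W.card * ∑ i ∈ I, if L i then GH Fr H (dat a b (F i)) else 0) * (D.card : ℝ)|
      = |∑ i ∈ I, ((if L i then ∑ r ∈ W.powerset, ∑ c ∈ D,
          g i (Fr.sys.tys r + Fr.sys.tys c) else 0) - 2 ^ Fr.sys.m * (2 ^ W.card *
        (if L i then GH Fr H (dat a b (F i)) else 0)) * (D.card : ℝ))| := by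
        rw [hcardR, Finset.sum_sub_distrib, Finset.mul_sum, Finset.mul_sum, Finset.sum_mul]
    _ ≤ ∑ i ∈ I, |(if L i then ∑ r ∈ W.powerset, ∑ c ∈ D,
          g i (Fr.sys.tys r + Fr.sys.tys c) else 0) - 2 ^ Fr.sys.m * (2 ^ W.card *
        (if L i then GH Fr H (dat a b (F i)) else 0)) * (D.card : ℝ)| :=
        Finset.abs_sum_le_sum_abs _ _
    _ ≤ ∑ i ∈ I, 2 ^ Fr.sys.m * (2 ^ W.card *
          (if L i then GH Fr (fun _ => True) (dat a b (F i)) else 0)) * E :=
        Finset.sum_le_sum hterm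
    _ = 2 ^ Fr.sys.m * (2 ^ W.card *
          ∑ i ∈ I, if L i then GH Fr (fun _ => True) (dat a b (F i)) else 0) * E := by
        rw [← Finset.sum_mul, ← Finset.mul_sum, ← Finset.mul_sum]

end

end Pool.Agent.D8
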