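import Pool.Agent.D8.AStm
import Pool.Agent.H32.MQ.HBase
import Pool.Agent.H98.MF.ParK
import Pool.Agent.H98.MF.LhTauK
import Pool.Agent.H98.MF.ChiM
import Pool.Agent.H98.MF.L.KIn

/-!
# The dihedral group of order 16 over a number field: row AH2, first part: homomorphisms over
a given second bit
-/

set_option autoImplicit false

open scoped BigOperators
open NumberField IsDedekindDomain

namespace Pool.Agent.D8

open Pool.Agent.H98.MF
open Pool.Agent.H98.MK (sg)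
open Pool.Agent.H98.ML (norb)
open Pool.Agent.H32.MQ (El rep co)

/-! ### the group -/

theorem ct_mk_pa (a b f h : ZMod 2) : (E8.mk4 a b f h).pa = a := by
  revert a b f h; decide

theorem ct_mk_pb (a b f h : ZMod 2) : (E8.mk4 a b f h).pb = b := by
  revert a b f h; decide

theorem ct_mk_pf (a b f h : ZMod 2) : (E8.mk4 a b f h).pf = f := by
  revert a b f h; decide

theorem ct_mk_zz (a b f h x : ZMod 2) :
    E8.mk4 a b f h * E8.zz x = E8.mk4 a b f (h + x) := by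
  revert a b f h x; decide

theorem ct_zz_inj {x y : ZMod 2} (h : E8.zz x = E8.zz y) : x = y := by
  revert x y; decide

theorem ct_zz_zero : E8.zz 0 = 1 := by decide

theorem ct_zz_pa (g : E8) (x : ZMod 2) : (g * E8.zz x).pa = g.pa := by
  revert g x; decide

theorem ct_zz_pb (g : E8) (x : ZMod 2) : (g * E8.zz x).pb = g.pb := by
  revert g x; decide

theorem ct_zz_pf (g : E8) (x : ZMod 2) : (g * E8.zz x).pf = g.pf := by
  revert g x; decide

theorem ct_zz_mul (g g' : E8) (x y : ZMod 2) :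
    g * E8.zz x * (g' * E8.zz y) = g * g' * E8.zz (x + y) := by
  rw [E8.zz_add]
  calc g * E8.zz x * (g' * E8.zz y) = g * (E8.zz x * g') * E8.zz y := by simp only [mul_assoc]
    _ = g * (g' * E8.zz x) * E8.zz y := by rw [E8.zz_comm]
    _ = g * g' * (E8.zz x * E8.zz y) := by simp only [mul_assoc]

theorem ct_ker (g : E8) (h1 : g.pa = 0) (h2 : g.pb = 0) (h3 : g.pf = 0) :
    g = 1 ∨ g = E8.zz 1 := by
  revert g; decide

theorem ct_zz_pf' (x : ZMod 2) : (E8.zz x).pf = 0 := by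
  revert x; decide

theorem ct_odd (g : E8) (h1 : g.pa = 1) (h2 : g.pb = 1) : g.a = 0 ∧ g.b * g.b = 1 := by
  revert g; decide

theorem ct_refl (g : E8) (h1 : g.pa = 1) (h2 : g.pb = 0) : g.a = 1 := by
  revert g; decide

theorem ct_two (x : ZMod 2) : x = 0 ∨ x = 1 := by
  revert x; decide

/-- generation of the group -/
theorem ct_gen (K : Subgroup E8) {g g' : E8} (hg : g ∈ K) (hg' : g' ∈ K) (ha : g.pa = 1)
    (hb : g.pb = 1) (ha' : g'.pa = 1) (hb' : g'.pb = 0) (x : E8) : x ∈ K := by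
  obtain ⟨h1, h2⟩ := ct_odd g ha hb
  have hpm : pm 0 = 1 := by decide
  have hpow : ∀ n : ℕ, g ^ n = ⟨n * g.b, 0⟩ := by
    intro n
    induction n with
    | zero => rw [pow_zero, Nat.cast_zero, zero_mul]; rfl
    | succ n ih =>
      rw [pow_succ, ih]
      apply E8.ext
      · rw [E8.mul_b, hpm, Nat.cast_succ]; ring
      · rw [E8.mul_a, h1, add_zero]
  have hrot : ∀ y : E8, y.a = 0 → y ∈ K := by
    intro y hy
    have h3 := K.pow_mem hg (y.b * g.b).val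
    rw [hpow, ZMod.natCast_zmod_val, mul_assoc, h2, mul_one] at h3
    have h4 : y = ⟨y.b, 0⟩ := E8.ext rfl hy
    rw [h4]
    exact h3
  rcases ct_two x.a with h3 | h3
  · exact hrot x h3
  · have h4 : (x * g'⁻¹).a = 0 := by
      rw [E8.mul_a, E8.inv_a, h3, ct_refl g' ha' hb']; decide
    have h5 := K.mul_mem (hrot _ h4) hg'
    rwa [inv_mul_cancel_right] at h5

section

variable {k : Type} [Field k] [NumberField k]

/-- surjectivity -/
theorem ct_surj {a b : kˣ} (ha : ¬ IsSquare a) (hb : ¬ IsSquare b) (hab : ¬ IsSquare (a * b))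
    {ρ : Gm k →* E8} (ho : Ov a b ρ) : Function.Surjective ρ := by
  have hex : ∀ c : kˣ, ¬ IsSquare c → ∃ σ : Gm k, chi (c : k) σ = 1 := by
    intro c hc
    by_contra h
    push Not at h
    exact hc (ParK.isSquare_of_chu fun σ => (ct_two _).resolve_right (h σ))
  have h11 : ∃ σ : Gm k, chi (a : k) σ = 1 ∧ chi (b : k) σ = 1 := by
    obtain ⟨s, hs⟩ := hex a ha
    obtain ⟨t, ht⟩ := hex b hb
    rcases ct_two (chi (b : k) s) with h1 | h1
    · rcases ct_two (chi (a : k) t) with h2 | h2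
      · refine ⟨s * t, ?_, ?_⟩
        · rw [chiM_hom, hs, h2, add_zero]
        · rw [chiM_hom, h1, ht, zero_add]
      · exact ⟨t, h2, ht⟩
    · exact ⟨s, hs, h1⟩
  obtain ⟨s, hs1, hs2⟩ := h11
  have h10 : ∃ σ : Gm k, chi (a : k) σ = 1 ∧ chi (b : k) σ = 0 := by
    obtain ⟨t, ht⟩ := hex (a * b) hab
    rw [ParK.chu_mul] at ht
    rcases ct_two (chi (a : k) t) with h1 | h1 <;> rcases ct_two (chi (b : k) t) with h2 | h2
    · rw [h1, h2] at ht
      exact absurd ht (by decide)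
    · refine ⟨s * t, ?_, ?_⟩
      · rw [chiM_hom, hs1, h1, add_zero]
      · rw [chiM_hom, hs2, h2]; decide
    · exact ⟨t, h1, h2⟩
    · rw [h1, h2] at ht
      exact absurd ht (by decide)
  obtain ⟨t, ht1, ht2⟩ := h10
  intro x
  have h := ct_gen ρ.range ⟨s, rfl⟩ ⟨t, rfl⟩ (by rw [(ho s).1, hs1]) (by rw [(ho s).2, hs2])
    (by rw [(ho t).1, ht1]) (by rw [(ho t).2, ht2]) x
  exact h

/-- the homomorphism with given bits -/
theorem ct_lift {a b : kˣ} {f h : Gm k → ZMod 2} (hf : IsF a b f) (hh : IsH ⊤ a b f h) :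
    ∃ ρ : Gm k →* E8, IsLocallyConstant ρ ∧ Ov a b ρ ∧ ∀ σ, (ρ σ).pf = f σ := by
  refine ⟨MonoidHom.mk' (fun σ => E8.mk4 (chi (a : k) σ) (chi (b : k) σ) (f σ) (h σ))
    (fun σ τ => hh.2 σ trivial τ trivial), ?_, ?_, ?_⟩
  · exact (((chiM_lc (a : k)).prodMk (chiM_lc (b : k))).prodMk (hf.lc.prodMk hh.1)).comp
      fun x : (ZMod 2 × ZMod 2) × (ZMod 2 × ZMod 2) => E8.mk4 x.1.1 x.1.2 x.2.1 x.2.2
  · intro σ
    exact ⟨ct_mk_pa _ _ _ _, ct_mk_pb _ _ _ _⟩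
  · intro σ
    exact ct_mk_pf _ _ _ _

theorem ct_tw_lc {ρ : Gm k →* E8} (hl : IsLocallyConstant ρ) (t : kˣ) :
    IsLocallyConstant (tw ρ t) :=
  (hl.prodMk (chiM_lc (t : k))).comp fun x : E8 × ZMod 2 => x.1 * E8.zz x.2

theorem ct_tw_ov {a b : kˣ} {ρ : Gm k →* E8} (ho : Ov a b ρ) (t : kˣ) : Ov a b (tw ρ t) := by
  intro σ
  rw [tw_apply, ct_zz_pa, ct_zz_pb]
  exact ho σ

theorem ct_tw_pf (ρ : Gm k →* E8) (t : kˣ) (σ : Gm k) : (tw ρ t σ).pf = (ρ σ).pf := by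
  rw [tw_apply, ct_zz_pf]

theorem ct_tw_congr (ρ : Gm k →* E8) {t t' : kˣ} (h : ∀ σ : Gm k, chi (t : k) σ = chi (t' : k) σ) :
    tw ρ t = tw ρ t' := by
  ext σ : 1
  rw [tw_apply, tw_apply, h]

theorem ct_tw_inj (ρ : Gm k →* E8) {t t' : kˣ} (h : tw ρ t = tw ρ t') (σ : Gm k) :
    chi (t : k) σ = chi (t' : k) σ := by
  have h1 : tw ρ t σ = tw ρ t' σ := by rw [h]
  rw [tw_apply, tw_apply] at h1
  exact ct_zz_inj (mul_left_cancel h1)

/-- homomorphisms with the same first and second bits are twists of each other -/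
theorem ct_diff {a b : kˣ} {ρ ρ' : Gm k →* E8} (hl : IsLocallyConstant ρ)
    (hl' : IsLocallyConstant ρ') (ho : Ov a b ρ) (ho' : Ov a b ρ')
    (hf : ∀ σ, (ρ σ).pf = (ρ' σ).pf) : ∃ t : kˣ, ρ' = tw ρ t := by
  have hg : ∀ σ, ρ' σ = ρ σ * E8.zz ((ρ σ).ph + (ρ' σ).ph) := by
    intro σ
    have h1 : ρ σ = E8.mk4 (ρ σ).pa (ρ σ).pb (ρ σ).pf (ρ σ).ph := (E8.mk4_bits _).symm
    have h2 : ρ' σ = E8.mk4 (ρ' σ).pa (ρ' σ).pb (ρ' σ).pf (ρ' σ).ph := (E8.mk4_bits _).symm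
    have h3 : (ρ σ).ph + ((ρ σ).ph + (ρ' σ).ph) = (ρ' σ).ph := by
      rw [← add_assoc, CharTwo.add_self_eq_zero, zero_add]
    calc ρ' σ = E8.mk4 (ρ' σ).pa (ρ' σ).pb (ρ' σ).pf (ρ' σ).ph := h2
      _ = E8.mk4 (ρ σ).pa (ρ σ).pb (ρ σ).pf ((ρ σ).ph + ((ρ σ).ph + (ρ' σ).ph)) := by
        rw [h3, hf σ, (ho σ).1, (ho σ).2, (ho' σ).1, (ho' σ).2]
      _ = E8.mk4 (ρ σ).pa (ρ σ).pb (ρ σ).pf (ρ σ).ph * E8.zz ((ρ σ).ph + (ρ' σ).ph) :=
        (ct_mk_zz _ _ _ _ _).symm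
      _ = ρ σ * E8.zz ((ρ σ).ph + (ρ' σ).ph) := by rw [← h1]
  obtain ⟨t, ht⟩ := ParK.exists_chi1 (fun σ => (ρ σ).ph + (ρ' σ).ph)
    ((hl.prodMk hl').comp fun x : E8 × E8 => x.1.ph + x.2.ph) (by
      intro σ τ
      have h1 : ρ (σ * τ) * E8.zz ((ρ (σ * τ)).ph + (ρ' (σ * τ)).ph) =
          ρ (σ * τ) * E8.zz (((ρ σ).ph + (ρ' σ).ph) + ((ρ τ).ph + (ρ' τ).ph)) := by
        calc ρ (σ * τ) * E8.zz ((ρ (σ * τ)).ph + (ρ' (σ * τ)).ph) = ρ' (σ * τ) := (hg _).symm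
          _ = ρ' σ * ρ' τ := map_mul _ _ _
          _ = (ρ σ * E8.zz ((ρ σ).ph + (ρ' σ).ph)) * (ρ τ * E8.zz ((ρ τ).ph + (ρ' τ).ph)) := by
              rw [← hg σ, ← hg τ]
          _ = ρ σ * ρ τ * E8.zz (((ρ σ).ph + (ρ' σ).ph) + ((ρ τ).ph + (ρ' τ).ph)) :=
              ct_zz_mul _ _ _ _
          _ = _ := by rw [map_mul]
      exact ct_zz_inj (mul_left_cancel h1))
  refine ⟨t, ?_⟩
  ext σ : 1
  rw [tw_apply, ← ht σ]
  exact hg σ

end

section

variable {k : Type} [Field k] [NumberField k] (Fr : Frm k) (Rk : RxF k)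

/-- the same with the frame -/
theorem ct_diff' {a b : kˣ} {ρ ρ' : Gm k →* E8} (hl : IsLocallyConstant ρ)
    (hl' : IsLocallyConstant ρ') (ho : Ov a b ρ) (ho' : Ov a b ρ')
    (hf : ∀ σ, (ρ σ).pf = (ρ' σ).pf) : ∃ c : El Fr.sys, ρ' = tw ρ (rep Fr c) := by
  obtain ⟨t, ht⟩ := ct_diff hl hl' ho ho' hf
  refine ⟨co Fr t, ?_⟩
  rw [ht]
  apply ct_tw_congr
  intro σ
  obtain ⟨s, hs⟩ := Pool.Agent.H32.MQ.h_co Fr t
  have h1 : chi ((t * rep Fr (co Fr t) : kˣ) : k) σ = 0 := by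
    rw [hs, ParK.chu_mul, CharTwo.add_self_eq_zero]
  rw [ParK.chu_mul] at h1
  exact CharTwo.add_eq_zero.mp h1

/-- coordinates are determined by the character -/
theorem ct_rep_inj {c c' : El Fr.sys}
    (h : ∀ σ : Gm k, chi (rep Fr c : k) σ = chi (rep Fr c' : k) σ) : c = c' := by
  apply Pool.Agent.H32.MQ.h_coU Fr
  apply ParK.isSquare_of_chu
  intro σ
  rw [ParK.chu_mul, h σ, CharTwo.add_self_eq_zero]

open Classical in
/-- values at the tame generators -/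
theorem ct_chi_tau (c : El Fr.sys) (p : Fr.sys.P) :
    chi (rep Fr c : k) (Rk.tau (Fr.pl p)) = if p ∈ c.2 then 1 else 0 := by
  rw [Rk.chi (Fr.pl p) (Pool.Agent.H32.MQ.hb_two Fr p) (rep Fr c),
    Pool.Agent.H32.MQ.h_repO Fr c p]
  split_ifs <;> simp

/-- ramification is finite -/
theorem ct_tau_finite (ρ : Gm k →* E8) (hρ : IsLocallyConstant ρ) :
    {p : Fr.sys.P | ρ (Rk.tau (Fr.pl p)) ≠ 1}.Finite := by
  have hop : IsOpen (ρ.ker : Set (Gm k)) := by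
    have h := hρ.isOpen_fiber (1 : E8)
    have h2 : (ρ.ker : Set (Gm k)) = {x | ρ x = 1} := by
      ext x
      exact MonoidHom.mem_ker
    rw [h2]
    exact h
  have hidx : ∃ j, ρ.ker.index = 2 ^ j := by
    have h : ρ.ker.index ∣ 2 ^ 4 := by
      rw [Subgroup.index_ker]
      have h1 := Subgroup.card_subgroup_dvd_card ρ.range
      have h2 : Nat.card E8 = 2 ^ 4 := by
        rw [Nat.card_congr E8.equivProd, Nat.card_prod, Nat.card_zmod, Nat.card_zmod]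
        norm_num
      rwa [h2] at h1
    obtain ⟨j, -, hj⟩ := (Nat.dvd_prime_pow Nat.prime_two).1 h
    exact ⟨j, hj⟩
  refine Set.Finite.subset ((Rk.fin ρ.ker hop).preimage Fr.pl_inj.injOn) fun p hp => ?_
  have h2 := Rk.disc (Fr.pl p) (Fr.ltk_two p) ρ.ker hop hidx ρ.ker le_rfl
  have h3 : norb ρ.ker (Rk.tau (Fr.pl p)) < ρ.ker.index := by
    apply Pool.Agent.H98.ML.m3_norb_lt
    · obtain ⟨j, hj⟩ := hidx
      rw [hj]
      positivity
    · intro h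
      exact hp (MonoidHom.mem_ker.1 h)
  show Rk.rex (Fr.pl p) ρ.ker ≠ 0
  omega

/-- a base lift -/
theorem ct_base {a b : kˣ} (W : Finset Fr.sys.P)
    (ha : ∀ p, p ∉ W → chi (a : k) (Rk.tau (Fr.pl p)) = 0)
    (hb : ∀ p, p ∉ W → chi (b : k) (Rk.tau (Fr.pl p)) = 0) {f : Gm k → ZMod 2}
    (hf : IsL Fr Rk a b W f) (hh : ∃ h, IsH ⊤ a b f h) :
    ∃ ρ : Gm k →* E8, IsLocallyConstant ρ ∧ Ov a b ρ ∧ (∀ σ, (ρ σ).pf = f σ) ∧
      ∀ p, p ∉ W → ρ (Rk.tau (Fr.pl p)) = 1 := by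
  classical
  obtain ⟨h, hh⟩ := hh
  obtain ⟨ρ, hl, ho, hpf⟩ := ct_lift hf.1 hh
  let e0 : Finset Fr.sys.P := (ct_tau_finite Fr Rk ρ hl).toFinset.filter fun p => p ∉ W
  refine ⟨tw ρ (rep Fr (0, e0)), ct_tw_lc hl _, ct_tw_ov ho _, fun σ => ?_, fun p hp => ?_⟩
  · rw [ct_tw_pf, hpf]
  · rw [tw_apply, ct_chi_tau]
    have h1 := ct_ker (ρ (Rk.tau (Fr.pl p))) (by rw [(ho _).1, ha p hp])
      (by rw [(ho _).2, hb p hp]) (by rw [hpf, hf.2 p hp])
    by_cases h2 : ρ (Rk.tau (Fr.pl p)) = 1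
    · have h3 : p ∉ ((0, e0) : El Fr.sys).2 := by
        intro h4
        have h5 := (Finset.mem_filter.1 h4).1
        rw [Set.Finite.mem_toFinset] at h5
        exact h5 h2
      rw [if_neg h3, h2, ct_zz_zero, one_mul]
    · have h3 : p ∈ ((0, e0) : El Fr.sys).2 := by
        refine Finset.mem_filter.2 ⟨?_, hp⟩
        rw [Set.Finite.mem_toFinset]
        exact h2
      rw [if_pos h3, h1.resolve_left h2]
      decide

/-- local classes -/
theorem ct_loc (y : Fr.sys.T) (s : Finset Fr.sys.P) (v : Pl k) (hv : v ∈ pls Fr.S) (σ : Gm k)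
    (hσ : σ ∈ DecP v) :
    chi (rep Fr (y, s) : k) σ = chi (cl Fr y (Fr.sys.tys s) : k) σ := by
  unfold rep cl
  rw [M6a.chi_mul, M6a.chi_mul]
  congr 1
  rw [M6a.chi_prod, M6a.chi_prodv]
  have h1 : ∀ p ∈ s, chi (Fr.pi p : k) σ = ∑ j, Fr.sys.ty p j * chi (Fr.w j : k) σ := by
    intro p _
    have h2 := ((kin k).one v (Fr.pi p * ∏ j, Fr.w j ^ (Fr.sys.ty p j).val)).2
      (Fr.loc p v hv) σ hσ
    rw [M6a.chi_mul, M6a.chi_prodv] at h2
    exact CharTwo.add_eq_zero.mp h2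
  have h3 : ∀ j, Fr.sys.tys s j = ∑ p ∈ s, Fr.sys.ty p j := by
    intro j
    unfold Sys.tys
    rw [Finset.sum_apply]
  rw [Finset.sum_congr rfl h1, Finset.sum_comm]
  refine Finset.sum_congr rfl fun j _ => ?_
  rw [h3, Finset.sum_mul]

/-- predicates of the local restrictions -/
theorem ct_H {H : (Gm k →* E8) → Prop} (hH : HLoc Fr H) {ρ : Gm k →* E8}
    (hρ : ∀ t, tw ρ t ∈ Hs k) (y : Fr.sys.T) (s : Finset Fr.sys.P) :
    H (tw ρ (rep Fr (y, s))) ↔ H (tw ρ (cl Fr y (Fr.sys.tys s))) := by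
  refine hH _ (hρ _) _ (hρ _) fun v hv σ hσ => ?_
  rw [tw_apply, tw_apply, ct_loc Fr y s v hv σ hσ]

end

end Pool.Agent.D8
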