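import Pool.Agent.D8.ACocA

/-!
# D8 (MP_a9b340), AC2: the explicit cochain over a number field
-/

set_option autoImplicit false

open scoped BigOperators
open NumberField IsDedekindDomain

namespace Pool.Agent.D8

open Pool.Agent.H98.MF

section

variable {k : Type} [Field k] [NumberField k]

/-! ### the element of order four -/

theorem ac2_key (a b x : kˣ) (y : k) (f : Gm k → ZMod 2)
    (hab : (a : k) = (x : k) ^ 2 - b * y ^ 2) (hf : IsTh b (x : k) y f) :
    ∃ w ε : Om k, w ^ 4 = -1 ∧ ε ≠ 0 ∧ ∀ σ : Gm k, ∃ q : ZMod 8,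
      σ ε = ac2_zp w q * ac2_ep (chi (-1 : k) σ + chi (a : k) σ + chi (b : k) σ) ε ∧
      (q = ac2_m (chi (b : k) σ) (f σ + chi (2 * x : k) σ) (chi (-1 : k) σ + chi (a : k) σ) ∨
       q = ac2_m (chi (b : k) σ) (f σ + chi (2 * x : k) σ) (chi (-1 : k) σ + chi (a : k) σ) + 4) := by
  obtain ⟨θ, θ', hθ, hθ', h0, h1⟩ := hf
  obtain ⟨w, hw⟩ := IsAlgClosed.exists_pow_nat_eq (-1 : Om k) (n := 4) (by norm_num)
  have hi2 : (w ^ 2) ^ 2 = algebraMap k (Om k) (-1) := by
    rw [map_neg, map_one, ← pow_mul]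
    exact hw
  have hT : (2 * x : k) ≠ 0 := mul_ne_zero two_ne_zero x.ne_zero
  obtain ⟨r, hr2⟩ : ∃ r : Om k, r ^ 2 = algebraMap k (Om k) (2 * x) := ⟨_, sq_sq (2 * x : k)⟩
  set i : Om k := w ^ 2 with hi
  have hii : i * i = -1 := by
    have := hi2
    rw [map_neg, map_one] at this
    linear_combination this
  have hTO : algebraMap k (Om k) (2 * x) ≠ 0 := by
    rw [Ne, map_eq_zero]
    exact hT
  have hr0 : r ≠ 0 := by
    intro h
    rw [h] at hr2
    apply hTO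
    rw [← hr2]
    ring
  have hprod0 : (algebraMap k (Om k) x + algebraMap k (Om k) y * Pool.Agent.H98.MF.sq (b : k)) *
      (algebraMap k (Om k) x - algebraMap k (Om k) y * Pool.Agent.H98.MF.sq (b : k)) =
      algebraMap k (Om k) a := by
    rw [hab, map_sub, map_mul, map_pow, map_pow]
    linear_combination (-(algebraMap k (Om k) y) ^ 2) * sq_sq (b : k)
  have ha0 : algebraMap k (Om k) a ≠ 0 := by
    rw [Ne, map_eq_zero]
    exact a.ne_zero
  have hjb : algebraMap k (Om k) x + algebraMap k (Om k) y * Pool.Agent.H98.MF.sq (b : k) ≠ 0 := by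
    intro h
    rw [h, zero_mul] at hprod0
    exact ha0 hprod0.symm
  have hjb' : algebraMap k (Om k) x - algebraMap k (Om k) y * Pool.Agent.H98.MF.sq (b : k) ≠ 0 := by
    intro h
    rw [h, mul_zero] at hprod0
    exact ha0 hprod0.symm
  have hθ0 : θ ≠ 0 := by
    intro h
    rw [h] at hθ
    apply hjb
    rw [← hθ]
    ring
  have hθ'0 : θ' ≠ 0 := by
    intro h
    rw [h] at hθ'
    apply hjb'
    rw [← hθ']
    ring
  have hsum : θ ^ 2 + θ' ^ 2 = r ^ 2 := by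
    rw [hθ, hθ', hr2, map_mul, map_ofNat]
    ring
  have hprod : (θ * θ') ^ 2 = algebraMap k (Om k) a := by
    rw [mul_pow, hθ, hθ', hprod0]
  have hmul : (θ + i * θ') * (θ - i * θ') = r ^ 2 := by
    linear_combination hsum - θ' ^ 2 * hii
  have hnum : θ + i * θ' ≠ 0 := by
    intro h
    rw [h, zero_mul] at hmul
    exact (pow_ne_zero 2 hr0) hmul.symm
  have hζ0 : (θ + i * θ') / r ≠ 0 := div_ne_zero hnum hr0
  have hζi : ((θ + i * θ') / r)⁻¹ = (θ - i * θ') / r := by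
    apply inv_eq_of_mul_eq_one_right
    rw [div_mul_div_comm, hmul, pow_two, div_self (mul_ne_zero hr0 hr0)]
  have hep : ∀ y : ZMod 2, ac2_ep y ((θ + i * θ') / r) = (θ + so y * (i * θ')) / r := by
    intro y
    rcases ac2_z2 y with rfl | rfl
    · rw [ac2_ep_zero, ac2_so_zero, one_mul]
    · rw [ac2_ep_one, hζi, ac2_so_one]
      ring
  obtain ⟨ε, hε⟩ := IsAlgClosed.exists_pow_nat_eq ((θ + i * θ') / r) (n := 2) two_pos
  have hε0 : ε ≠ 0 := by
    intro h
    rw [h] at hε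
    apply hζ0
    rw [← hε]
    ring
  refine ⟨w, ε, hw, hε0, ?_⟩
  intro σ
  have hσi := ac2_root (-1) (neg_ne_zero.2 one_ne_zero) i hi2 σ
  have hσr := ac2_root (2 * x : k) hT r hr2 σ
  have hσp := ac2_root (a : k) a.ne_zero (θ * θ') hprod σ
  rw [map_mul] at hσp
  have hF := ac2_so_sq (k := k) (f σ)
  have hA1 := ac2_so_sq (k := k) (chi (-1 : k) σ)
  have hN1 := ac2_so_sq (k := k) (chi (a : k) σ)
  have hT1 := ac2_so_sq (k := k) (chi (2 * x : k) σ)
  have hF0 := ac2_so_ne (k := k) (f σ)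
  have hT0 := ac2_so_ne (k := k) (chi (2 * x : k) σ)
  have key : σ ((θ + i * θ') / r) =
      ac2_zp w (2 * ac2_m (chi (b : k) σ) (f σ + chi (2 * x : k) σ)
        (chi (-1 : k) σ + chi (a : k) σ)) *
      ac2_ep (chi (-1 : k) σ + chi (a : k) σ + chi (b : k) σ) ((θ + i * θ') / r) := by
    rw [map_div₀, map_add, map_mul, hσi, hσr, hep]
    rcases ac2_z2 (chi (b : k) σ) with hd | hd
    · have h2 := h0 σ hd
      have h3 : σ θ' = so (f σ) * so (chi (a : k) σ) * θ' := by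
        rw [h2] at hσp
        apply mul_left_cancel₀ (mul_ne_zero hF0 hθ0)
        rw [hσp]
        linear_combination (-(so (chi (a : k) σ) * θ * θ')) * hF
      rw [h2, h3, hd, ac2_zm0 hw, add_zero, ac2_so_add, ac2_so_add]
      rw [div_eq_iff (mul_ne_zero hT0 hr0), ac2_aux _ _ _ _ hr0]
      linear_combination (-(so (f σ) * (θ + so (chi (-1 : k) σ) * so (chi (a : k) σ) *
        (i * θ')))) * hT1
    · have h2 := h1 σ hd
      have h3 : σ θ' = so (f σ) * so (chi (a : k) σ) * θ := by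
        rw [h2] at hσp
        apply mul_left_cancel₀ (mul_ne_zero hF0 hθ'0)
        rw [hσp]
        linear_combination (-(so (chi (a : k) σ) * θ * θ')) * hF
      rw [h2, h3, hd, ac2_zm1 hw]
      simp only [ac2_so_add, ac2_so_one]
      rw [div_eq_iff (mul_ne_zero hT0 hr0), ← hi, ac2_aux _ _ _ _ hr0]
      linear_combination (-(so (f σ) * (so (chi (-1 : k) σ) * so (chi (a : k) σ) * i * θ -
        (so (chi (-1 : k) σ) * so (chi (a : k) σ)) ^ 2 * i ^ 2 * θ'))) * hT1 +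
        so (f σ) * θ' * so (chi (a : k) σ) ^ 2 * i ^ 2 * hA1 + so (f σ) * θ' * i ^ 2 * hN1 +
        so (f σ) * θ' * hii
  set m : ZMod 8 := ac2_m (chi (b : k) σ) (f σ + chi (2 * x : k) σ)
    (chi (-1 : k) σ + chi (a : k) σ) with hm
  set u : ZMod 2 := chi (-1 : k) σ + chi (a : k) σ + chi (b : k) σ with hu
  have hsq : (σ ε) ^ 2 = (ac2_zp w m * ac2_ep u ε) ^ 2 := by
    rw [← map_pow, hε, key, two_mul, ac2_zp_add hw, ← hε, pow_two ε, ac2_ep_mul]
    ring
  rcases sq_eq_sq_iff_eq_or_eq_neg.1 hsq with h | h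
  · exact ⟨m, h, Or.inl rfl⟩
  · refine ⟨m + 4, ?_, Or.inr rfl⟩
    rw [h, ac2_zp_add hw, ac2_zp_four hw]
    ring

end

theorem acoc (k : Type) [Field k] [NumberField k] : SaCoc k := by
  intro a b x y f hab hf
  obtain ⟨w, ε, hw, hε0, hk⟩ := ac2_key a b x y f hab hf
  choose q hk1 hk2 using hk
  have hcoc : ∀ σ τ : Gm k, q (σ * τ) = pm (chi (-1 : k) σ) * p5 (chi (2 : k) σ) * q τ +
      pm (chi (-1 : k) τ + chi (a : k) τ + chi (b : k) τ) * q σ := by
    intro σ τ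
    have h1 := hk1 (σ * τ)
    rw [AlgEquiv.mul_apply, hk1 τ, map_mul, ac2_map_zp hw, ac2_map_ep, hk1 σ, ac2_ep_mul,
      ac2_ep_zp hw, ac2_ep_ep, ← mul_assoc, ← ac2_zp_add hw] at h1
    have h2 : chi (-1 : k) (σ * τ) + chi (a : k) (σ * τ) + chi (b : k) (σ * τ) =
        (chi (-1 : k) τ + chi (a : k) τ + chi (b : k) τ) +
          (chi (-1 : k) σ + chi (a : k) σ + chi (b : k) σ) := by
      rw [B.chi_hom, B.chi_hom, B.chi_hom]
      ring
    rw [h2] at h1
    exact (ac2_zp_inj hw (mul_right_cancel₀ (ac2_ep_ne _ hε0) h1)).symm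
  set c : Gm k → ZMod 8 := fun σ =>
    -(pm (chi (-1 : k) σ + chi (a : k) σ + chi (b : k) σ) * q σ) with hc
  have hbit : ∀ σ : Gm k, bit3 (chi (b : k) σ) (f σ + chi (2 * x : k) σ) (ac2_B (c σ)) = c σ :=
    fun σ => ac2_bits _ _ _ _ (hk2 σ)
  refine ⟨fun σ => ac2_B (c σ), ?_, ?_⟩
  · classical
    apply IsLocallyConstant.comp (f := c) _ ac2_B
    apply B.loc_of_values {ε, Pool.Agent.H98.MF.sq (-1 : k), Pool.Agent.H98.MF.sq (a : k),
      Pool.Agent.H98.MF.sq (b : k)}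
    intro σ τ h
    have h1 : σ ε = τ ε := h _ (by simp)
    have h2 : chi (-1 : k) σ = chi (-1 : k) τ := by
      unfold chi
      rw [h (Pool.Agent.H98.MF.sq (-1 : k)) (by simp)]
    have h3 : chi (a : k) σ = chi (a : k) τ := by
      unfold chi
      rw [h (Pool.Agent.H98.MF.sq (a : k)) (by simp)]
    have h4 : chi (b : k) σ = chi (b : k) τ := by
      unfold chi
      rw [h (Pool.Agent.H98.MF.sq (b : k)) (by simp)]
    rw [hk1 σ, hk1 τ, h2, h3, h4] at h1
    have h5 := ac2_zp_inj hw (mul_right_cancel₀ (ac2_ep_ne _ hε0) h1)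
    simp only [hc, h2, h3, h4, h5]
  · intro σ τ
    rw [hbit, hbit, hbit]
    simp only [hc]
    rw [hcoc σ τ, B.chi_hom, B.chi_hom, B.chi_hom]
    simp only [ac2_pm_add]
    have e1 := ac2_pm_sq (chi (-1 : k) σ)
    have e2 := ac2_pm_sq (chi (-1 : k) τ)
    have e3 := ac2_pm_sq (chi (a : k) τ)
    have e4 := ac2_pm_sq (chi (b : k) τ)
    linear_combination (-(pm (chi (-1 : k) τ) * pm (chi (a : k) σ) * pm (chi (a : k) τ) *
      pm (chi (b : k) σ) * pm (chi (b : k) τ) * p5 (chi (2 : k) σ) * q τ)) *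
        (ac2_pm_sq (chi (-1 : k) σ)) -
      pm (chi (-1 : k) σ) * pm (chi (a : k) σ) * pm (chi (b : k) σ) * q σ *
        (pm (chi (a : k) τ) ^ 2 * pm (chi (b : k) τ) ^ 2 * e2 +
          pm (chi (b : k) τ) ^ 2 * e3 + e4)

end Pool.Agent.D8
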