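import Pool.Agent.H32.MQ.HDefs
import Pool.Agent.H98.MF.C.Stm
import Pool.Agent.H98.MF.MDefs
import Pool.Agent.H98.MF.D.Defs

/-!
# The dihedral group of order 16 over a number field: definitions for the algebraic part

Homomorphisms of the absolute Galois group to the dihedral group of order 16 over a pair of
quadratic characters, cochains, obstructions, and the local averages.
-/

set_option autoImplicit false

open scoped BigOperators
open NumberField IsDedekindDomain

namespace Pool.Agent.D8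

open Pool.Agent.H98.MF
open Pool.Agent.H98.MK (sg)
open Pool.Agent.H32.MQ (El rep co)

/-! ### the group -/

/-- `1` or `-1` -/
def pm (x : ZMod 2) : ZMod 8 := if x = 0 then 1 else -1

/-- `1` or `5` -/
def p5 (x : ZMod 2) : ZMod 8 := if x = 0 then 1 else 5

/-- the three bits of a residue modulo eight -/
def bit3 (x y z : ZMod 2) : ZMod 8 :=
  (if x = 0 then 0 else 1) + (if y = 0 then 0 else 2) + (if z = 0 then 0 else 4)

theorem pm_add (a a' : ZMod 2) : pm (a + a') = pm a * pm a' := by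
  revert a a'; decide

theorem pm_sq (a : ZMod 2) : pm a * pm a = 1 := by
  revert a; decide

/-- the maps `x ↦ (-1) ^ a x + b` of `ZMod 8`: the dihedral group of order 16 -/
@[ext] structure E8 where
  b : ZMod 8
  a : ZMod 2

namespace E8

instance : Mul E8 := ⟨fun x y => ⟨x.b + pm x.a * y.b, x.a + y.a⟩⟩
instance : One E8 := ⟨⟨0, 0⟩⟩
instance : Inv E8 := ⟨fun x => ⟨-(pm x.a * x.b), x.a⟩⟩

@[simp] theorem mul_b (x y : E8) : (x * y).b = x.b + pm x.a * y.b := rfl
@[simp] theorem mul_a (x y : E8) : (x * y).a = x.a + y.a := rfl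
@[simp] theorem one_b : (1 : E8).b = 0 := rfl
@[simp] theorem one_a : (1 : E8).a = 0 := rfl
@[simp] theorem inv_b (x : E8) : (x⁻¹).b = -(pm x.a * x.b) := rfl
@[simp] theorem inv_a (x : E8) : (x⁻¹).a = x.a := rfl

instance : Group E8 :=
  Group.ofLeftAxioms
    (fun x y z => by
      apply E8.ext
      · simp only [mul_b, mul_a, pm_add]; ring
      · simp only [mul_a]; ring)
    (fun x => by
      apply E8.ext
      · simp only [mul_b, one_b, one_a]
        have : pm 0 = 1 := by decide
        rw [this]; ring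
      · simp only [mul_a, one_a]; ring)
    (fun x => by
      apply E8.ext
      · simp only [mul_b, inv_b, inv_a, one_b]; ring
      · simp only [mul_a, inv_a, one_a]; exact CharTwo.add_self_eq_zero _)

/-- coordinates -/
def equivProd : E8 ≃ ZMod 8 × ZMod 2 where
  toFun x := (x.b, x.a)
  invFun y := ⟨y.1, y.2⟩
  left_inv _ := rfl
  right_inv _ := rfl

instance : Fintype E8 := Fintype.ofEquiv _ equivProd.symm

instance : DecidableEq E8 := equivProd.decidableEq

/-- the first bit: the value of the character `b` -/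
def pb (g : E8) : ZMod 2 := if g.b = 1 ∨ g.b = 3 ∨ g.b = 5 ∨ g.b = 7 then 1 else 0

/-- the second bit -/
def pf (g : E8) : ZMod 2 := if g.b = 2 ∨ g.b = 3 ∨ g.b = 6 ∨ g.b = 7 then 1 else 0

/-- the third bit -/
def ph (g : E8) : ZMod 2 := if g.b = 4 ∨ g.b = 5 ∨ g.b = 6 ∨ g.b = 7 then 1 else 0

/-- the value of the character `a` -/
def pa (g : E8) : ZMod 2 := g.a + g.pb

/-- the central elements -/
def zz (x : ZMod 2) : E8 := ⟨if x = 0 then 0 else 4, 0⟩

/-- the element with given bits -/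
def mk4 (a b f h : ZMod 2) : E8 := ⟨bit3 b f h, a + b⟩

theorem pb_mul (g g' : E8) : (g * g').pb = g.pb + g'.pb := by
  revert g g'; decide

theorem pa_mul (g g' : E8) : (g * g').pa = g.pa + g'.pa := by
  revert g g'; decide

theorem pf_mul (g g' : E8) : (g * g').pf = g.pf + g'.pf + g.pa * g'.pb := by
  revert g g'; decide

theorem mk4_bits (g : E8) : mk4 g.pa g.pb g.pf g.ph = g := by
  revert g; decide

theorem mk4_inj (a b f h a' b' f' h' : ZMod 2) :
    mk4 a b f h = mk4 a' b' f' h' ↔ a = a' ∧ b = b' ∧ f = f' ∧ h = h' := by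
  revert a b f h a' b' f' h'; decide

theorem zz_add (x y : ZMod 2) : zz (x + y) = zz x * zz y := by
  revert x y; decide

theorem zz_comm (x : ZMod 2) (g : E8) : zz x * g = g * zz x := by
  revert x g; decide

end E8

section

variable {k : Type} [Field k] [NumberField k]

/-- continuous surjective homomorphisms -/
def Hs (k : Type) [Field k] [NumberField k] : Set (Gm k →* E8) :=
  {ρ | Function.Surjective ρ ∧ IsLocallyConstant ρ}

/-- the homomorphisms over a pair of quadratic characters -/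
def Ov (a b : kˣ) (ρ : Gm k →* E8) : Prop :=
  ∀ σ, (ρ σ).pa = chi (a : k) σ ∧ (ρ σ).pb = chi (b : k) σ

/-- the second bits over a pair of quadratic characters -/
structure IsF (a b : kˣ) (f : Gm k → ZMod 2) : Prop where
  lc : IsLocallyConstant f
  hom : ∀ σ τ, f (σ * τ) = f σ + f τ + chi (a : k) σ * chi (b : k) τ

/-- third bits over the subgroup `D` -/
def IsH (D : Subgroup (Gm k)) (a b : kˣ) (f h : Gm k → ZMod 2) : Prop :=
  IsLocallyConstant h ∧ ∀ σ ∈ D, ∀ τ ∈ D,
    E8.mk4 (chi (a : k) (σ * τ)) (chi (b : k) (σ * τ)) (f (σ * τ)) (h (σ * τ)) =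
      E8.mk4 (chi (a : k) σ) (chi (b : k) σ) (f σ) (h σ) *
        E8.mk4 (chi (a : k) τ) (chi (b : k) τ) (f τ) (h τ)

open Classical in
/-- the obstruction at a place -/
noncomputable def ob (v : Pl k) (a b : kˣ) (f : Gm k → ZMod 2) : ZMod 2 :=
  if ∃ h, IsH (DecP v) a b f h then 0 else 1

/-- the twist by a quadratic character -/
noncomputable def tw (ρ : Gm k →* E8) (t : kˣ) : Gm k →* E8 :=
  MonoidHom.mk' (fun σ => ρ σ * E8.zz (chi (t : k) σ)) (fun σ τ => by
    rw [map_mul, chiM_hom t σ τ, E8.zz_add]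
    calc ρ σ * ρ τ * (E8.zz (chi (t : k) σ) * E8.zz (chi (t : k) τ))
        = ρ σ * (ρ τ * E8.zz (chi (t : k) σ)) * E8.zz (chi (t : k) τ) := by
          simp only [mul_assoc]
      _ = ρ σ * (E8.zz (chi (t : k) σ) * ρ τ) * E8.zz (chi (t : k) τ) := by rw [E8.zz_comm]
      _ = ρ σ * E8.zz (chi (t : k) σ) * (ρ τ * E8.zz (chi (t : k) τ)) := by
          simp only [mul_assoc])

theorem tw_apply (ρ : Gm k →* E8) (t : kˣ) (σ : Gm k) :
    tw ρ t σ = ρ σ * E8.zz (chi (t : k) σ) := rfl

end

section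

variable {k : Type} [Field k] [NumberField k]

/-- integers of the closure in a field of 2-power degree -/
def Two2 (x : 𝓞 (Om k)) : Prop :=
  ∃ U : Subgroup (Gm k), U.Normal ∧ IsOpen (U : Set (Gm k)) ∧ (∃ j, U.index = 2 ^ j) ∧
    ∀ σ ∈ U, σ • x = x

/-- a tame generator and a Frobenius element -/
structure TF (P : HeightOneSpectrum (𝓞 k)) (τ φ : Gm k) : Prop extends IsTauK P τ φ where
  ine : ∀ x : 𝓞 (Om k), Two2 x → τ • x - x ∈ top P
  fro : ∀ x : 𝓞 (Om k), Two2 x → φ • x - x ^ Ideal.absNorm P.asIdeal ∈ top P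

variable (k)

/-- exponents of relative discriminants, tame generators and Frobenius elements -/
structure RxF extends Rx k where
  /-- Frobenius elements -/
  phi : HeightOneSpectrum (𝓞 k) → Gm k
  tf : ∀ P, ord P (2 : k) = 0 → TF P (tau P) (phi P)

end

section

variable {k : Type} [Field k] [NumberField k] (Fr : Frm k) (Rk : RxF k)

/-- the elements representing the classes at the places of `S` -/
noncomputable def cl (y z : Fr.sys.T) : kˣ :=
  (∏ j, Fr.u j ^ (y j).val) * ∏ j, Fr.w j ^ (z j).val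

/-- the sum of the Hilbert symbols over the places of `S` and the real places -/
noncomputable def hS (x y : kˣ) : ZMod 2 := ∑ v ∈ pls Fr.S, hv v (x : k) (y : k)

/-- functions of local data at `S` -/
abbrev LDt (k : Type) [Field k] [NumberField k] : Type :=
  (Gm k → ZMod 2 × ZMod 2 × ZMod 2) → ℝ

/-- the data of a homomorphism to the quotient of order eight -/
noncomputable def dat (a b : kˣ) (f : Gm k → ZMod 2) : Gm k → ZMod 2 × ZMod 2 × ZMod 2 :=
  fun σ => (chi (a : k) σ, chi (b : k) σ, f σ)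

/-- functions of the restrictions to the decomposition groups at `S` -/
def SLoc (G : LDt k) : Prop :=
  ∀ d d', (∀ v ∈ pls Fr.S, ∀ σ ∈ DecP v, d σ = d' σ) → G d = G d'

/-- functions bounded by one, vanishing off the data with local lifts -/
structure LG (G : LDt k) : Prop where
  loc : SLoc Fr G
  nn : ∀ d, 0 ≤ G d
  le : ∀ d, G d ≤ 1
  sup : ∀ a b f, IsF a b f → G (dat a b f) ≠ 0 → ∀ v ∈ pls Fr.S, ob v a b f = 0

/-- the Fourier transform over the local twists -/
noncomputable def Gh (G : LDt k) (κ a b : kˣ) (f : Gm k → ZMod 2) : ℝ :=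
  (1 / 4 ^ Fr.sys.m) * ∑ y : Fr.sys.T, ∑ z : Fr.sys.T,
    G (dat a b fun σ => f σ + chi (cl Fr y z : k) σ) * ((sg (hS Fr (cl Fr y z) κ) : ℤ) : ℝ)

/-- second bits that vanish at the tame generators outside `S` and `W` -/
def IsL (a b : kˣ) (W : Finset Fr.sys.P) (f : Gm k → ZMod 2) : Prop :=
  IsF a b f ∧ ∀ p, p ∉ W → f (Rk.tau (Fr.pl p)) = 0

/-- all Hilbert symbols vanish -/
def Slv (a b : kˣ) : Prop := ∀ v : Pl k, hv v (a : k) (b : k) = 0

/-- configurations: the four classes of ramified primes and the three units -/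
@[ext]
structure Cg (S : Sys) where
  x1 : Finset S.P
  x2 : Finset S.P
  x3 : Finset S.P
  x4 : Finset S.P
  ua : S.T
  ub : S.T
  uv : S.T

namespace Cg

variable {Fr} (c : Cg Fr.sys)

/-- the element `a` -/
noncomputable def ea : kˣ := rep Fr (c.ua, c.x1 ∪ c.x2)

/-- the element `b` -/
noncomputable def eb : kˣ := rep Fr (c.ub, c.x3 ∪ c.x4)

/-- the element `e` -/
noncomputable def ee : kˣ := rep Fr (c.uv, c.x1 ∪ c.x3)

/-- the ramified primes -/
noncomputable def ram : Finset Fr.sys.P := c.x1 ∪ c.x2 ∪ (c.x3 ∪ c.x4)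

end Cg

namespace Cg

variable {S : Sys} (c : Cg S)

/-- the four classes are disjoint -/
def Dj : Prop := Disjoint c.x1 c.x2 ∧ Disjoint c.x3 c.x4 ∧ Disjoint (c.x1 ∪ c.x2) (c.x3 ∪ c.x4)

/-- the first conditions -/
def C1 : Prop := (∀ p ∈ c.x1 ∪ c.x2, S.ex (c.x3 ∪ c.x4) c.ub p = 0) ∧
  ∀ p ∈ c.x3 ∪ c.x4, S.ex (c.x1 ∪ c.x2) c.ua p = 0

/-- the second conditions -/
def C2 : Prop := (∀ p ∈ c.x1 ∪ c.x3, S.ex (c.x2 ∪ c.x4) (S.l + c.ua + c.ub + c.uv) p = 0) ∧
  ∀ p ∈ c.x2 ∪ c.x4, S.ex (c.x1 ∪ c.x3) c.uv p = 0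

end Cg

open Classical in
/-- the function `R` of a configuration -/
noncomputable def Rf (G : LDt k) (c : Cg Fr.sys) : ℝ :=
  if h : ∃ f, IsL Fr Rk c.ea c.eb ∅ f then
    Gh Fr G c.ee c.ea c.eb h.choose *
      ((sg (∑ p ∈ c.x1 ∪ c.x3, ob (Sum.inl (Fr.pl p)) c.ea c.eb h.choose) : ℤ) : ℝ)
  else 0

open Classical in
/-- the weighted number of second bits without local obstruction at the ramified primes -/
noncomputable def NG (G : LDt k) (a b : kˣ) (W : Finset Fr.sys.P) : ℝ :=
  if h : ∃ f, IsL Fr Rk a b ∅ f then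
    2 ^ W.card * ∑ y : Fr.sys.T, ∑ r ∈ W.powerset,
      (if ∀ p ∈ W, ob (Sum.inl (Fr.pl p)) a b
          (fun σ => h.choose σ + chi (rep Fr (y, r) : k) σ) = 0
        then G (dat a b fun σ => h.choose σ + chi (rep Fr (y, r) : k) σ) else 0)
  else 0

end

end Pool.Agent.D8
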