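import Pool.Agent.D8.AStm
import Pool.Agent.H98.MF.C.Lin
import Pool.Agent.H98.MF.L.KIn
import Pool.Agent.H98.MF.ChiM

/-!
# The dihedral group of order 16 over a number field, row AT2: Fourier transform over the local
twists
-/

set_option autoImplicit false

open scoped BigOperators
open NumberField IsDedekindDomain

namespace Pool.Agent.D8

open Pool.Agent.H98.MF
open Pool.Agent.H98.MK (sg)

theorem afo_sg_add (x y : ZMod 2) : sg (x + y) = sg x * sg y := by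
  revert x y; decide

theorem afo_sg_cases (x : ZMod 2) : sg x = 1 ∨ sg x = -1 := by
  revert x; decide

theorem afo_sg_abs (x : ZMod 2) : |((sg x : ℤ) : ℝ)| = 1 := by
  rcases afo_sg_cases x with h | h <;> rw [h] <;> norm_num

theorem afo_sg_sq (x : ZMod 2) : ((sg x : ℤ) : ℝ) * ((sg x : ℤ) : ℝ) = 1 := by
  rcases afo_sg_cases x with h | h <;> rw [h] <;> norm_num

theorem afo_x (x y : ZMod 2) (h : x + y = 0) : x = y := by
  revert x y; decide

theorem afo_ne (x : ZMod 2) (h : x ≠ 0) : x = 1 := by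
  revert x; decide

theorem afo_swap {A : Type} [Fintype A] (h : A → A → A → A → ℝ) :
    ∑ y, ∑ z, ∑ y', ∑ z', h y z y' z' = ∑ y', ∑ z', ∑ y, ∑ z, h y z y' z' := by
  calc ∑ y, ∑ z, ∑ y', ∑ z', h y z y' z'
      = ∑ y, ∑ y', ∑ z, ∑ z', h y z y' z' := Finset.sum_congr rfl fun y _ => Finset.sum_comm
    _ = ∑ y', ∑ y, ∑ z, ∑ z', h y z y' z' := Finset.sum_comm
    _ = ∑ y', ∑ y, ∑ z', ∑ z, h y z y' z' :=
        Finset.sum_congr rfl fun y' _ => Finset.sum_congr rfl fun y _ => Finset.sum_comm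
    _ = ∑ y', ∑ z', ∑ y, ∑ z, h y z y' z' := Finset.sum_congr rfl fun y' _ => Finset.sum_comm

section

variable {k : Type} [Field k] [NumberField k] (Fr : Frm k)

omit [NumberField k] in
theorem afo_one (F : kˣ → ZMod 2) (hF : ∀ a b, F (a * b) = F a + F b) : F 1 = 0 := by
  have h := hF 1 1
  rw [mul_one] at h
  exact left_eq_add.1 h

omit [NumberField k] in
theorem afo_pow (F : kˣ → ZMod 2) (hF : ∀ a b, F (a * b) = F a + F b) (a : kˣ) (n : ℕ) :
    F (a ^ n) = n * F a := by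
  induction n with
  | zero => rw [pow_zero, afo_one F hF, Nat.cast_zero, zero_mul]
  | succ n ih => rw [pow_succ, hF, ih, Nat.cast_succ, add_mul, one_mul]

omit [NumberField k] in
theorem afo_prod {ι : Type} (F : kˣ → ZMod 2) (hF : ∀ a b, F (a * b) = F a + F b)
    (s : Finset ι) (f : ι → kˣ) : F (∏ i ∈ s, f i) = ∑ i ∈ s, F (f i) := by
  classical
  induction s using Finset.induction_on with
  | empty => rw [Finset.prod_empty, Finset.sum_empty, afo_one F hF]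
  | insert i s hi ih => rw [Finset.prod_insert hi, Finset.sum_insert hi, hF, ih]

theorem afo_cl (F : kˣ → ZMod 2) (hF : ∀ a b, F (a * b) = F a + F b) (y z : Fr.sys.T) :
    F (cl Fr y z) = ∑ j, y j * F (Fr.u j) + ∑ j, z j * F (Fr.w j) := by
  have hv : ∀ c : ZMod 2, ((c.val : ℕ) : ZMod 2) = c := fun c => ZMod.natCast_zmod_val c
  unfold cl
  rw [hF, afo_prod F hF, afo_prod F hF]
  simp only [afo_pow F hF, hv]

theorem afo_cl_add (F : kˣ → ZMod 2) (hF : ∀ a b, F (a * b) = F a + F b)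
    (y z y' z' : Fr.sys.T) :
    F (cl Fr (y + y') (z + z')) = F (cl Fr y z) + F (cl Fr y' z') := by
  rw [afo_cl Fr F hF, afo_cl Fr F hF, afo_cl Fr F hF]
  simp only [Pi.add_apply, add_mul, Finset.sum_add_distrib]
  ring

theorem afo_hS_comm (a b : kˣ) : hS Fr a b = hS Fr b a := by
  unfold hS
  exact Finset.sum_congr rfl fun v _ => (B.lin k).symm v a b

theorem afo_hS_mul (κ a b : kˣ) : hS Fr (a * b) κ = hS Fr a κ + hS Fr b κ := by
  rw [afo_hS_comm, afo_hS_comm Fr a, afo_hS_comm Fr b]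
  unfold hS
  rw [← Finset.sum_add_distrib]
  exact Finset.sum_congr rfl fun v _ => (B.lin k).mulR v κ a b

theorem afo_hS_loc (t κ : kˣ) (h : ∀ v ∈ pls Fr.S, LocP v (t : k)) : hS Fr t κ = 0 :=
  Finset.sum_eq_zero fun v h0 => ((B.lin k).nd v t).2 (h v h0) κ

theorem afo_ex (t : kˣ) : ∃ y z : Fr.sys.T, ∀ v ∈ pls Fr.S,
    LocP v ((t * cl Fr y z : kˣ) : k) := by
  obtain ⟨y, z, h⟩ := Fr.gen fun _ => t
  refine ⟨y, z, fun v h0 => ?_⟩
  have h1 := h v h0
  rwa [mul_assoc] at h1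

variable {Fr}

theorem afo_hS_eq {t : kˣ} {y₀ z₀ : Fr.sys.T}
    (h : ∀ v ∈ pls Fr.S, LocP v ((t * cl Fr y₀ z₀ : kˣ) : k)) (κ : kˣ) :
    hS Fr t κ = hS Fr (cl Fr y₀ z₀) κ := by
  have h1 := afo_hS_loc Fr _ κ h
  rw [afo_hS_mul] at h1
  exact afo_x _ _ h1

theorem afo_chi_eq {t : kˣ} {y₀ z₀ : Fr.sys.T}
    (h : ∀ v ∈ pls Fr.S, LocP v ((t * cl Fr y₀ z₀ : kˣ) : k)) {v : Pl k} (h0 : v ∈ pls Fr.S)
    {σ : Gm k} (hσ : σ ∈ DecP v) : chi (t : k) σ = chi (cl Fr y₀ z₀ : k) σ := by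
  have h1 := ((kin k).one v (t * cl Fr y₀ z₀)).2 (h v h0) σ hσ
  rw [M6a.chi_mul] at h1
  exact afo_x _ _ h1

theorem afo_chi_add (y z y' z' : Fr.sys.T) (σ : Gm k) :
    chi (cl Fr (y + y') (z + z') : k) σ = chi (cl Fr y z : k) σ + chi (cl Fr y' z' : k) σ :=
  afo_cl_add Fr (fun a => chi (a : k) σ) (fun a b => M6a.chi_mul a b σ) y z y' z'

theorem afo_hS_add (y z y' z' : Fr.sys.T) (κ : kˣ) :
    hS Fr (cl Fr (y + y') (z + z')) κ = hS Fr (cl Fr y z) κ + hS Fr (cl Fr y' z') κ :=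
  afo_cl_add Fr (fun a => hS Fr a κ) (fun a b => afo_hS_mul Fr κ a b) y z y' z'

theorem afo_G {G : LDt k} (hG : SLoc Fr G) (a b : kˣ) (f g : Gm k → ZMod 2)
    (h : ∀ v ∈ pls Fr.S, ∀ σ ∈ DecP v, f σ = g σ) : G (dat a b f) = G (dat a b g) :=
  hG _ _ fun v h0 σ hσ => by
    unfold dat
    rw [h v h0 σ hσ]

variable (Fr)

theorem aghB : SaGhB Fr := by
  intro G hG κ a b f
  unfold Gh
  have h1 : |∑ y : Fr.sys.T, ∑ z : Fr.sys.T,
      G (dat a b fun σ => f σ + chi (cl Fr y z : k) σ) *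
        ((sg (hS Fr (cl Fr y z) κ) : ℤ) : ℝ)| ≤ 4 ^ Fr.sys.m := by
    calc _ ≤ ∑ y : Fr.sys.T, ∑ z : Fr.sys.T, (1 : ℝ) := by
          refine (Finset.abs_sum_le_sum_abs _ _).trans (Finset.sum_le_sum fun y _ => ?_)
          refine (Finset.abs_sum_le_sum_abs _ _).trans (Finset.sum_le_sum fun z _ => ?_)
          rw [abs_mul, afo_sg_abs, mul_one]
          exact hG _
      _ = 4 ^ Fr.sys.m := by
          simp only [Finset.sum_const, Finset.card_univ, Fintype.card_fun, ZMod.card,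
            Fintype.card_fin, nsmul_eq_mul, mul_one]
          push_cast
          rw [← mul_pow]
          norm_num
  rw [abs_mul, abs_of_nonneg (by positivity : (0 : ℝ) ≤ 1 / 4 ^ Fr.sys.m)]
  calc (1 : ℝ) / 4 ^ Fr.sys.m * _ ≤ 1 / 4 ^ Fr.sys.m * 4 ^ Fr.sys.m :=
        mul_le_mul_of_nonneg_left h1 (by positivity)
    _ = 1 := by
        rw [one_div]
        exact inv_mul_cancel₀ (by positivity)

theorem aghT : SaGhT Fr := by
  intro G hG κ a b t f
  obtain ⟨y₀, z₀, h0⟩ := afo_ex Fr t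
  unfold Gh
  rw [mul_assoc]
  congr 1
  rw [Finset.sum_mul, ← Equiv.sum_comp (Equiv.addLeft y₀) (fun y : Fr.sys.T => (∑ z : Fr.sys.T,
    G (dat a b fun σ => f σ + chi (cl Fr y z : k) σ) *
      ((sg (hS Fr (cl Fr y z) κ) : ℤ) : ℝ)) * ((sg (hS Fr t κ) : ℤ) : ℝ))]
  refine Finset.sum_congr rfl fun y _ => ?_
  rw [Finset.sum_mul, ← Equiv.sum_comp (Equiv.addLeft z₀) (fun z : Fr.sys.T =>
    G (dat a b fun σ => f σ + chi (cl Fr (Equiv.addLeft y₀ y) z : k) σ) *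
      ((sg (hS Fr (cl Fr (Equiv.addLeft y₀ y) z) κ) : ℤ) : ℝ) * ((sg (hS Fr t κ) : ℤ) : ℝ))]
  refine Finset.sum_congr rfl fun z _ => ?_
  simp only [Equiv.coe_addLeft]
  have e1 : G (dat a b fun σ => f σ + chi (t : k) σ + chi (cl Fr y z : k) σ) =
      G (dat a b fun σ => f σ + chi (cl Fr (y₀ + y) (z₀ + z) : k) σ) := by
    refine afo_G hG a b _ _ fun v hv σ hσ => ?_
    rw [afo_chi_add, afo_chi_eq h0 hv hσ, add_assoc]
  rw [e1, afo_hS_add, ← afo_hS_eq h0 κ, afo_sg_add]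
  push_cast
  have e2 := afo_sg_sq (hS Fr t κ)
  linear_combination (-(G (dat a b fun σ => f σ + chi (cl Fr (y₀ + y) (z₀ + z) : k) σ)) *
    ((sg (hS Fr (cl Fr y z) κ) : ℤ) : ℝ)) * e2

theorem afo_nd (y z : Fr.sys.T)
    (h : ∀ y' z' : Fr.sys.T, hS Fr (cl Fr y z) (cl Fr y' z') = 0) : y = 0 ∧ z = 0 := by
  classical
  refine Fr.ind y z fun v h0 => ?_
  show LocP v ((cl Fr y z : kˣ) : k)
  rw [← (B.lin k).nd]
  intro b
  obtain ⟨x, hx⟩ := (B.lin k).weak (pls Fr.S) (fun v' => if v' = v then b else 1)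
  have h1 : hS Fr (cl Fr y z) x = hv v (cl Fr y z : k) b := by
    unfold hS
    rw [Finset.sum_eq_single v]
    · have h1 := hx v h0
      rw [if_pos rfl] at h1
      have h2 := ((B.lin k).memLS v _).1 h1
      have h3 := ((B.lin k).nd v (x / b)).2 h2 (cl Fr y z)
      rw [(B.lin k).symm] at h3
      have h4 := (B.lin k).mulR v (cl Fr y z) (x / b) b
      rw [div_mul_cancel, h3, zero_add] at h4
      exact h4
    · intro v' hv' hne
      have h1 := hx v' hv'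
      rw [if_neg hne, div_one] at h1
      have h2 := ((B.lin k).memLS v' _).1 h1
      have h3 := ((B.lin k).nd v' x).2 h2 (cl Fr y z)
      rw [(B.lin k).symm] at h3
      exact h3
    · intro h2
      exact absurd h0 h2
  rw [← h1]
  obtain ⟨y', z', h'⟩ := afo_ex Fr x
  rw [afo_hS_comm, afo_hS_eq h', afo_hS_comm]
  exact h y' z'

theorem afo_orth (y z : Fr.sys.T) : ∑ y' : Fr.sys.T, ∑ z' : Fr.sys.T,
    ((sg (hS Fr (cl Fr y z) (cl Fr y' z')) : ℤ) : ℝ) =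
      if y = 0 ∧ z = 0 then 4 ^ Fr.sys.m else 0 := by
  by_cases h : y = 0 ∧ z = 0
  · rw [if_pos h, h.1, h.2]
    have h1 : ∀ κ : kˣ, hS Fr (cl Fr 0 0) κ = 0 := fun κ => by
      have h2 := afo_hS_add (Fr := Fr) 0 0 0 0 κ
      simp only [add_zero] at h2
      exact left_eq_add.1 h2
    have h3 : sg 0 = 1 := by decide
    simp only [h1, h3, Finset.sum_const, Finset.card_univ, Fintype.card_fun, ZMod.card,
      Fintype.card_fin, nsmul_eq_mul, Int.cast_one, mul_one]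
    push_cast
    rw [← mul_pow]
    norm_num
  · rw [if_neg h]
    have h1 : ∃ y₁ z₁ : Fr.sys.T, hS Fr (cl Fr y z) (cl Fr y₁ z₁) ≠ 0 := by
      by_contra h2
      push Not at h2
      exact h (afo_nd Fr y z h2)
    obtain ⟨y₁, z₁, h1⟩ := h1
    have h2 := afo_ne _ h1
    have h3 : ∀ y' z' : Fr.sys.T,
        ((sg (hS Fr (cl Fr y z) (cl Fr (y₁ + y') (z₁ + z'))) : ℤ) : ℝ) =
          -((sg (hS Fr (cl Fr y z) (cl Fr y' z')) : ℤ) : ℝ) := by
      intro y' z'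
      rw [afo_hS_comm, afo_hS_add, afo_hS_comm Fr (cl Fr y₁ z₁), afo_hS_comm Fr (cl Fr y' z'),
        h2, afo_sg_add]
      have h4 : sg 1 = -1 := by decide
      rw [h4]
      push_cast
      ring
    have h5 : ∑ y' : Fr.sys.T, ∑ z' : Fr.sys.T,
        ((sg (hS Fr (cl Fr y z) (cl Fr y' z')) : ℤ) : ℝ) =
        ∑ y' : Fr.sys.T, ∑ z' : Fr.sys.T,
          ((sg (hS Fr (cl Fr y z) (cl Fr (y₁ + y') (z₁ + z'))) : ℤ) : ℝ) := by
      rw [← Equiv.sum_comp (Equiv.addLeft y₁) (fun y' : Fr.sys.T => ∑ z' : Fr.sys.T,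
        ((sg (hS Fr (cl Fr y z) (cl Fr y' z')) : ℤ) : ℝ))]
      refine Finset.sum_congr rfl fun y' _ => ?_
      rw [← Equiv.sum_comp (Equiv.addLeft z₁) (fun z' : Fr.sys.T =>
        ((sg (hS Fr (cl Fr y z) (cl Fr (Equiv.addLeft y₁ y') z')) : ℤ) : ℝ))]
      rfl
    simp only [h3, Finset.sum_neg_distrib] at h5
    linarith

theorem afou : SaFou Fr := by
  intro G hG a b t f
  obtain ⟨y₀, z₀, h0⟩ := afo_ex Fr t
  set g : Fr.sys.T → Fr.sys.T → ℝ :=
    fun y z => G (dat a b fun σ => f σ + chi (cl Fr y z : k) σ) with hg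
  have hL : G (dat a b fun σ => f σ + chi (t : k) σ) = g y₀ z₀ :=
    afo_G hG a b _ _ fun v hv σ hσ => by rw [afo_chi_eq h0 hv hσ]
  have hR : ∀ y z : Fr.sys.T, Gh Fr G (cl Fr y z) a b f *
      ((sg (hS Fr t (cl Fr y z)) : ℤ) : ℝ) = (1 / 4 ^ Fr.sys.m) *
        ∑ y' : Fr.sys.T, ∑ z' : Fr.sys.T, g y' z' *
          ((sg (hS Fr (cl Fr (y' + y₀) (z' + z₀)) (cl Fr y z)) : ℤ) : ℝ) := by
    intro y z
    unfold Gh
    rw [mul_assoc, Finset.sum_mul]
    congr 1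
    refine Finset.sum_congr rfl fun y' _ => ?_
    rw [Finset.sum_mul]
    refine Finset.sum_congr rfl fun z' _ => ?_
    rw [afo_hS_add, afo_sg_add, ← afo_hS_eq h0 (cl Fr y z), hg]
    push_cast
    ring
  rw [hL]
  simp only [hR]
  simp only [← Finset.mul_sum]
  rw [afo_swap (fun y z y' z' : Fr.sys.T => g y' z' *
    ((sg (hS Fr (cl Fr (y' + y₀) (z' + z₀)) (cl Fr y z)) : ℤ) : ℝ))]
  simp only [← Finset.mul_sum, afo_orth Fr]
  have hz : ∀ u u₀ : Fr.sys.T, u + u₀ = 0 ↔ u = u₀ := by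
    intro u u₀
    constructor
    · intro h
      funext j
      exact afo_x _ _ (congrFun h j)
    · rintro rfl
      funext j
      exact CharTwo.add_self_eq_zero _
  simp only [hz]
  rw [Finset.sum_eq_single y₀, Finset.sum_eq_single z₀]
  · rw [if_pos ⟨rfl, rfl⟩, one_div, mul_comm (g y₀ z₀), ← mul_assoc,
      inv_mul_cancel₀ (by positivity), one_mul]
  · intro z _ hne
    rw [if_neg (fun h => hne h.2), mul_zero]
  · intro h
    exact absurd (Finset.mem_univ _) h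
  · intro y _ hne
    refine Finset.sum_eq_zero fun z _ => ?_
    rw [if_neg (fun h => hne h.1), mul_zero]
  · intro h
    exact absurd (Finset.mem_univ _) h

end

end Pool.Agent.D8
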