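import Pool.Agent.D8.AStm
import Pool.Agent.H98.MF.L.Odd
import Pool.Agent.H98.MF.L.KIn
import Pool.Agent.H98.MF.LocTriv

/-!
# The dihedral group of order 16 over a number field: the obstruction at unramified primes
(arithmetic of the base field and the action of a tame generator)
-/

set_option autoImplicit false

open scoped BigOperators
open NumberField IsDedekindDomain

namespace Pool.Agent.D8

open Pool.Agent.H98.MF

section

variable {k : Type} [Field k] [NumberField k] {P : HeightOneSpectrum (𝓞 k)}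

theorem obn_one_add (h2 : ord P (2 : k) = 0) {t : k} (ht : t = 0 ∨ 1 ≤ ord P t) :
    LocSq P (1 + t) := by
  refine locSq_one_add P ?_
  rw [h2]
  simpa using ht

/-- the exponent of `x` in a representation `a = x ^ 2 - b * y ^ 2` -/
theorem obn_ord (h2 : ord P (2 : k) = 0) {a b x y : k} (ha : a ≠ 0) (hb : b ≠ 0)
    (h : a = x ^ 2 - b * y ^ 2) (hnb : ¬ LocSq P b) (hnab : ¬ LocSq P (-(a * b))) :
    x ≠ 0 ∧ ord P a = 2 * ord P x := by
  by_cases hy : y = 0
  · have h1 : a = x ^ 2 := by rw [h, hy]; ring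
    have hx : x ≠ 0 := by
      rintro rfl
      exact ha (by rw [h1]; ring)
    refine ⟨hx, ?_⟩
    rw [h1, ord_pow]
    rfl
  have hu : b * y ^ 2 ≠ 0 := mul_ne_zero hb (pow_ne_zero _ hy)
  have h1 : ord P a ≤ ord P (b * y ^ 2) := by
    by_contra hlt
    have hlt' : ord P (b * y ^ 2) < ord P a := not_le.1 hlt
    have h3 : x ^ 2 = (1 + a / (b * y ^ 2)) * (b * y ^ 2) := by
      rw [add_mul, div_mul_cancel₀ _ hu, one_mul, h]
      ring
    have h4 : LocSq P (1 + a / (b * y ^ 2)) :=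
      obn_one_add h2 (Or.inr (by rw [ord_div P ha hu]; omega))
    have hx : x ≠ 0 := by
      rintro rfl
      have h5 : (1 + a / (b * y ^ 2)) * (b * y ^ 2) = 0 := by rw [← h3]; ring
      rcases mul_eq_zero.1 h5 with h6 | h6
      · exact h4.ne_zero h6
      · exact hu h6
    have h5 : LocSq P (x ^ 2) := locSq_sq P hx
    rw [h3] at h5
    have h6 := (h4.mul_iff (b * y ^ 2)).1 h5
    exact hnb ((locSq_mul_sq P hy b).1 h6)
  have hx : x ≠ 0 := by
    rintro rfl
    apply hnab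
    have h3 : -(a * b) = (b * y) ^ 2 := by rw [h]; ring
    rw [h3]
    exact locSq_sq P (mul_ne_zero hb hy)
  refine ⟨hx, ?_⟩
  have h7 : ord P (x ^ 2) = 2 * ord P x := by rw [ord_pow]; rfl
  have h8 : ord P a ≤ ord P (x ^ 2) := by
    have h9 := le_ord_add P (ord P a) (a := a) (b := b * y ^ 2) (Or.inr le_rfl) (Or.inr h1)
    have h10 : a + b * y ^ 2 = x ^ 2 := by rw [h]; ring
    rw [h10] at h9
    rcases h9 with h9 | h9
    · exact absurd h9 (pow_ne_zero _ hx)
    · exact h9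
  by_contra hne
  have h9 : ord P a < ord P (x ^ 2) := lt_of_le_of_ne h8 (by rw [h7]; exact hne)
  have h10 : LocSq P (1 + -(x ^ 2 / a)) :=
    obn_one_add h2 (Or.inr (by rw [ord_neg, ord_div P (pow_ne_zero _ hx) ha]; omega))
  apply hnab
  have h11 : -(a * b) * y ^ 2 = (1 + -(x ^ 2 / a)) * a ^ 2 := by
    have h12 : b * y ^ 2 = x ^ 2 - a := by rw [h]; ring
    have h13 : -(a * b) * y ^ 2 = -(a * (b * y ^ 2)) := by ring
    rw [h13, h12]
    field_simp
    ring
  rw [← locSq_mul_sq P hy, h11, locSq_mul_sq P ha]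
  exact h10

/-! ### a group of order 16 -/

/-- four bits with a twisted product -/
@[ext] structure T4 where
  a : ZMod 2
  b : ZMod 2
  f : ZMod 2
  x : ZMod 2

namespace T4

instance : Mul T4 := ⟨fun u v => ⟨u.a + v.a, u.b + v.b, u.f + v.f + u.a * v.b, u.x + v.x⟩⟩
instance : One T4 := ⟨⟨0, 0, 0, 0⟩⟩
instance : Inv T4 := ⟨fun u => ⟨u.a, u.b, u.f + u.a * u.b, u.x⟩⟩

theorem mul_def (u v : T4) :
    u * v = ⟨u.a + v.a, u.b + v.b, u.f + v.f + u.a * v.b, u.x + v.x⟩ := rfl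
theorem one_def : (1 : T4) = ⟨0, 0, 0, 0⟩ := rfl
theorem inv_def (u : T4) : u⁻¹ = ⟨u.a, u.b, u.f + u.a * u.b, u.x⟩ := rfl

instance : Group T4 :=
  Group.ofLeftAxioms
    (fun u v w => by
      simp only [mul_def, T4.mk.injEq]
      refine ⟨by ring, by ring, by ring, by ring⟩)
    (fun u => by
      simp only [mul_def, one_def, zero_add, zero_mul, add_zero])
    (fun u => by
      have h : ∀ s t : ZMod 2, s + t + s + t = 0 := by decide
      have h' : ∀ s : ZMod 2, s + s = 0 := by decide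
      simp only [mul_def, inv_def, one_def, T4.mk.injEq]
      exact ⟨h' _, h' _, h _ _, h' _⟩)

/-- coordinates -/
def eqv : T4 ≃ ZMod 2 × ZMod 2 × ZMod 2 × ZMod 2 where
  toFun u := (u.a, u.b, u.f, u.x)
  invFun y := ⟨y.1, y.2.1, y.2.2.1, y.2.2.2⟩
  left_inv _ := rfl
  right_inv _ := rfl

instance : Finite T4 := Finite.of_equiv _ eqv.symm

theorem card : Nat.card T4 = 2 ^ 4 := by
  rw [Nat.card_congr eqv, Nat.card_prod, Nat.card_prod, Nat.card_prod]
  simp

end T4

/-- the homomorphism of a second bit and a further quadratic character -/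
noncomputable def obnHom {a b : kˣ} {f : Gm k → ZMod 2} (hf : IsF a b f) (x : kˣ) :
    Gm k →* T4 :=
  MonoidHom.mk' (fun σ => ⟨chi (a : k) σ, chi (b : k) σ, f σ, chi (x : k) σ⟩) (fun σ τ => by
    rw [T4.mul_def]
    simp only [T4.mk.injEq]
    exact ⟨chiM_hom a σ τ, chiM_hom b σ τ, hf.hom σ τ, chiM_hom x σ τ⟩)

theorem obnHom_lc {a b : kˣ} {f : Gm k → ZMod 2} (hf : IsF a b f) (x : kˣ) :
    IsLocallyConstant (obnHom hf x) := by
  have h := ((chiM_lc (a : k)).prodMk ((chiM_lc (b : k)).prodMk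
    (hf.lc.prodMk (chiM_lc (x : k))))).comp T4.eqv.symm
  exact h

theorem obn_two2 {a b : kˣ} {f : Gm k → ZMod 2} (hf : IsF a b f) (x : kˣ) (E : 𝓞 (Om k))
    (hE : ∀ σ : Gm k, chi (b : k) σ = 0 → f σ = 0 → chi (x : k) σ = 0 → σ • E = E) :
    Two2 E := by
  refine ⟨(obnHom hf x).ker, inferInstance, ker_openK _ (obnHom_lc hf x), ?_, ?_⟩
  · rw [Subgroup.index_ker]
    have h1 : Nat.card (obnHom hf x).range ∣ 2 ^ 4 := by
      rw [← T4.card]
      exact Subgroup.card_subgroup_dvd_card _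
    obtain ⟨j, -, hj⟩ := (Nat.dvd_prime_pow Nat.prime_two).1 h1
    exact ⟨j, hj⟩
  · intro σ hσ
    have h1 : obnHom hf x σ = 1 := hσ
    have h2 : (⟨chi (a : k) σ, chi (b : k) σ, f σ, chi (x : k) σ⟩ : T4) = ⟨0, 0, 0, 0⟩ := h1
    rw [T4.mk.injEq] at h2
    exact hE σ h2.2.1 h2.2.2.1 h2.2.2.2

end

end Pool.Agent.D8
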