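import Pool.Agent.D8.AFroA
import Pool.Agent.D8.AObNa

/-!
# The dihedral group of order 16 over a number field: the differencing function over a quadratic
field (row AR1)
-/

set_option autoImplicit false
set_option linter.unusedSectionVars false

open scoped BigOperators
open NumberField IsDedekindDomain

namespace Pool.Agent.D8

open Pool.Agent.H98.MF
open Pool.Agent.H32.MQ (HX h_ord h_ordN hq_two)

section

variable {k : Type} [Field k] [NumberField k]

theorem afr_so_add (x y : ZMod 2) : (so (x + y) : Om k) = so x * so y := by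
  have h : ∀ x : ZMod 2, x = 0 ∨ x = 1 := by decide
  have h1 : (1 : ZMod 2) ≠ 0 := by decide
  unfold so
  rcases h x with rfl | rfl <;> rcases h y with rfl | rfl
  · simp
  · simp [h1]
  · simp [h1]
  · have h2 : (1 : ZMod 2) + 1 = 0 := by decide
    rw [h2, if_pos rfl, if_neg h1]
    ring

theorem afr_so_inj {x y : ZMod 2} {ρ : Om k} (hρ : ρ ≠ 0) (h : so x * ρ = so y * ρ) : x = y := by
  have h0 : ∀ x : ZMod 2, x = 0 ∨ x = 1 := by decide
  have h1 : (1 : ZMod 2) ≠ 0 := by decide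
  have h2 := mul_right_cancel₀ hρ h
  have h3 : (1 : Om k) ≠ -1 := by
    intro h4
    have h5 : (2 : Om k) = 0 := by
      calc (2 : Om k) = 1 + 1 := by norm_num
        _ = 1 + -1 := by rw [← h4]
        _ = 0 := by ring
    exact two_ne_zero h5
  unfold so at h2
  rcases h0 x with rfl | rfl <;> rcases h0 y with rfl | rfl
  · rfl
  · rw [if_pos rfl, if_neg h1] at h2
    exact absurd h2 h3
  · rw [if_pos rfl, if_neg h1] at h2
    exact absurd h2.symm h3
  · rfl

theorem afr_chi (a : kˣ) (σ : Gm k) :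
    σ (Pool.Agent.H98.MF.sq (a : k)) = so (chi (a : k) σ) * Pool.Agent.H98.MF.sq (a : k) := by
  have h2 : σ (Pool.Agent.H98.MF.sq (a : k)) ^ 2 = Pool.Agent.H98.MF.sq (a : k) ^ 2 := by
    rw [← map_pow, sq_sq, AlgEquiv.commutes]
  have h1 : (1 : ZMod 2) ≠ 0 := by decide
  by_cases h : σ (Pool.Agent.H98.MF.sq (a : k)) = Pool.Agent.H98.MF.sq (a : k)
  · have h3 : chi (a : k) σ = 0 := if_pos h
    rw [h3, h]
    unfold so
    rw [if_pos rfl, one_mul]
  · have h3 : chi (a : k) σ = 1 := if_neg h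
    rw [h3]
    unfold so
    rw [if_neg h1]
    rcases sq_eq_sq_iff_eq_or_eq_neg.1 h2 with h4 | h4
    · exact absurd h4 h
    · rw [h4]
      ring

theorem afr_swap {X b : kˣ} {g : Gm k → ZMod 2} (hg : IsF X b g) :
    IsF b X (fun σ => g σ + chi (X : k) σ * chi (b : k) σ) := by
  refine ⟨?_, fun σ τ => ?_⟩
  · have h := (hg.lc.prodMk ((chiM_lc (X : k)).prodMk (chiM_lc (b : k)))).comp
      (fun y : ZMod 2 × ZMod 2 × ZMod 2 => y.1 + y.2.1 * y.2.2)
    exact h
  · have h : ∀ x y z u v w : ZMod 2, x + y + z * w + (z + u) * (v + w) =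
        x + z * v + (y + u * w) + v * u := by decide
    show g (σ * τ) + chi (X : k) (σ * τ) * chi (b : k) (σ * τ) = _
    rw [hg.hom, chiM_hom X, chiM_hom b]
    exact h _ _ _ _ _ _

theorem afr_add {X b : kˣ} {g : Gm k → ZMod 2} (hg : IsF X b g) (t : kˣ) :
    IsF X b (fun σ => g σ + chi (t : k) σ) := by
  refine ⟨?_, fun σ τ => ?_⟩
  · have h := (hg.lc.prodMk (chiM_lc (t : k))).comp (fun y : ZMod 2 × ZMod 2 => y.1 + y.2)
    exact h
  · show g (σ * τ) + chi (t : k) (σ * τ) = _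
    rw [hg.hom, chiM_hom t]
    ring

end

section

variable {k : Type} [Field k] [NumberField k] {Fr : Frm k} {Rk : RxF k} {L : Type} [Field L]
  [NumberField L] [Algebra k L] (X : HX Fr L)

theorem afr_root (j : L →ₐ[k] Om k) : ∃ ε : k, ε ^ 2 = 1 ∧
    Pool.Agent.H98.MF.sq (X.a : k) = algebraMap k (Om k) ε * j X.α := by
  have h : (j X.α) ^ 2 = Pool.Agent.H98.MF.sq (X.a : k) ^ 2 := by
    rw [← map_pow, X.qe.sq, j.commutes, sq_sq]
  rcases sq_eq_sq_iff_eq_or_eq_neg.1 h with h1 | h1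
  · exact ⟨1, one_pow 2, by rw [h1, map_one, one_mul]⟩
  · refine ⟨-1, by ring, ?_⟩
    rw [h1, map_neg, map_one]
    ring

theorem afr_fix (j : L →ₐ[k] Om k) {σ : Gm k} (hσ : chi (X.a : k) σ = 0) (x : L) :
    σ (j x) = j x := by
  obtain ⟨ε, hε, h⟩ := afr_root X j
  have h1 : σ (Pool.Agent.H98.MF.sq (X.a : k)) = Pool.Agent.H98.MF.sq (X.a : k) := by
    rw [afr_chi, hσ]
    unfold so
    rw [if_pos rfl, one_mul]
  have h2 : j X.α = algebraMap k (Om k) ε * Pool.Agent.H98.MF.sq (X.a : k) := by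
    rw [h, ← mul_assoc, ← map_mul, ← pow_two, hε, map_one, one_mul]
  have h3 : σ (j X.α) = j X.α := by
    rw [h2, map_mul, AlgEquiv.commutes, h1]
  obtain ⟨u, v, rfl⟩ := Pool.Agent.H98.MF.B.qe_repr X.qe x
  rw [map_add, map_mul, j.commutes, j.commutes, map_add, map_mul, AlgEquiv.commutes,
    AlgEquiv.commutes, h3]

/-- the values at the tame generators and the Frobenius elements -/
theorem afr_vals (Rk : RxF k) (j : L →ₐ[k] Om k) {b : kˣ} {g : Gm k → ZMod 2} (hg : IsF X.a b g)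
    {γ : L} (hγ : γ ≠ 0) {ρ : Om k} (hρ : ρ ^ 2 = j γ)
    (hact : ∀ σ : Gm k, chi (X.a : k) σ = 0 → σ ρ = so (g σ) * ρ) {p : Fr.sys.P} (hp : p ∉ X.M)
    (he : Even (ord (afQ j (Fr.pl p)) γ)) :
    g (Rk.tau (Fr.pl p)) = 0 ∧ (cj X.sig (afQ j (Fr.pl p)) ≠ afQ j (Fr.pl p) →
      g (Rk.phi (Fr.pl p)) = qr γ (afQ j (Fr.pl p))) := by
  set P := Fr.pl p with hP
  have h2 : ord P (2 : k) = 0 := hq_two Fr p
  have hT : TF P (Rk.tau P) (Rk.phi P) := Rk.tf P h2
  have hOv : Over P (afQ j P) := afQ_over j P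
  have h0 := hT.chi0 (X.a : k) X.a.ne_zero (X.unr p hp)
  have hρ0 : ρ ≠ 0 := by
    intro h
    rw [h, zero_pow two_ne_zero] at hρ
    exact hγ ((map_eq_zero_iff j j.toRingHom.injective).1 hρ.symm)
  have hTw : ∀ (t : L) (E : 𝓞 (Om k)), (E : Om k) = j t * ρ → Two2 E := by
    intro t E hE
    refine obn_two2 hg X.a E fun σ _ hσg hσX => ?_
    apply RingOfIntegers.ext
    rw [afr_coe, hE, map_mul, afr_fix X j hσX, hact σ hσX, hσg]
    unfold so
    rw [if_pos rfl, one_mul]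
  have hso : ∀ {x : ZMod 2}, so x * ρ = ρ → x = 0 := by
    intro x hx
    apply afr_so_inj hρ0 (y := 0)
    rw [hx]
    unfold so
    rw [if_pos rfl, one_mul]
  constructor
  · have h3 := afr_tau j h2 hT hγ he hρ (fun x => afr_fix X j h0.1 x) hTw
    rw [hact _ h0.1] at h3
    exact hso h3
  · intro hsp
    have hl : LocSq P (X.a : k) :=
      (Pool.Agent.H98.MF.B.qe_split_iff X.qe X.sig X.sig_α hOv).2 hsp
    have hX0 : chi (X.a : k) (Rk.phi P) = 0 := by
      rw [h0.2]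
      exact (qr_eq_zero _).2 hl
    have hN : Ideal.absNorm (afQ j P).asIdeal = Ideal.absNorm P.asIdeal := by
      have h4 := (ef_of_split X.qe.deg hOv (hOv.cj X.sig) hsp).2
      rw [over_absNorm hOv, h4, pow_one]
    have h2Q : ord (afQ j P) (2 : L) = 0 := (h_ord X p (afQ j P) hp hOv).1
    have h3 := afr_phi j h2 hT hγ he hρ (fun x => afr_fix X j hX0 x) hTw h2Q hN
    by_cases hs : LocSq (afQ j P) γ
    · have h5 : qr γ (afQ j P) = 0 := (qr_eq_zero _).2 hs
      rw [h5]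
      have h6 := h3.1 hs
      rw [hact _ hX0] at h6
      exact hso h6
    · have h5 : qr γ (afQ j P) = 1 := by
        unfold qr
        rw [if_neg hs]
      rw [h5]
      have h6 := h3.2 hs
      rw [hact _ hX0] at h6
      apply afr_so_inj hρ0
      rw [h6]
      unfold so
      rw [if_neg (by decide)]
      ring

/-- the exponents at the chosen primes are even -/
theorem afr_even (Rk : RxF k) (j : L →ₐ[k] Om k) {b : kˣ} {g : Gm k → ZMod 2} (hg : IsF X.a b g)
    {γ : L} (hγ : γ ≠ 0) {ρ : Om k} (hρ : ρ ^ 2 = j γ)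
    (hact : ∀ σ : Gm k, chi (X.a : k) σ = 0 → σ ρ = so (g σ) * ρ) {p : Fr.sys.P} (hp : p ∉ X.M)
    (h0 : g (Rk.tau (Fr.pl p)) = 0) : Even (ord (afQ j (Fr.pl p)) γ) := by
  by_contra hodd
  rw [Int.not_even_iff_odd] at hodd
  have hOv : Over (Fr.pl p) (afQ j (Fr.pl p)) := afQ_over j _
  have h1 : ord (afQ j (Fr.pl p)) (algebraMap k L (Fr.pi p : k)) = 1 := by
    rw [(h_ord X p _ hp hOv).2, Fr.pi_self]
  have hpi : algebraMap k L (Fr.pi p : k) ≠ 0 := by
    rw [Ne, map_eq_zero_iff _ (algebraMap k L).injective]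
    exact (Fr.pi p).ne_zero
  have he : Even (ord (afQ j (Fr.pl p)) (γ * algebraMap k L (Fr.pi p : k))) := by
    rw [ord_mul _ hγ hpi, h1]
    exact hodd.add_one
  have hρ' : (ρ * Pool.Agent.H98.MF.sq (Fr.pi p : k)) ^ 2 =
      j (γ * algebraMap k L (Fr.pi p : k)) := by
    rw [mul_pow, hρ, sq_sq, map_mul, j.commutes]
  have h3 := (afr_vals X Rk j (afr_add hg (Fr.pi p)) (mul_ne_zero hγ hpi) hρ' (fun σ hσ => by
    rw [map_mul, hact σ hσ, afr_chi, afr_so_add]
    ring) hp he).1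
  have h4 : chi (Fr.pi p : k) (Rk.tau (Fr.pl p)) = 1 := by
    rw [Rk.chi (Fr.pl p) (hq_two Fr p) (Fr.pi p), Fr.pi_self]
    rfl
  have h5 : g (Rk.tau (Fr.pl p)) + chi (Fr.pi p : k) (Rk.tau (Fr.pl p)) = 0 := h3
  rw [h0, h4] at h5
  exact absurd h5 (by decide)

/-- the element attached to a second bit -/
theorem afr_elt (hT : SaTh k) (hK : SaKu k) (hS : SaSl k) (hR : SaRep k) (j : L →ₐ[k] Om k)
    {b : kˣ} {g : Gm k → ZMod 2} (hg : IsF X.a b g) :
    ∃ (γ : Lˣ) (ρ : Om k), (∃ s : kˣ, HX.nrX (k := k) γ = b * s ^ 2) ∧ ρ ^ 2 = j (γ : L) ∧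
      ∀ σ : Gm k, chi (X.a : k) σ = 0 → σ ρ = so (g σ) * ρ := by
  have hg' := afr_swap hg
  obtain ⟨x, y, hxy⟩ := hR b X.a ((hS b X.a).1 ⟨_, hg'⟩)
  obtain ⟨f0, ⟨θ, θ', hθ, hθ', h0, h1⟩, hf0⟩ := hT b X.a (x : k) y hxy
  obtain ⟨t, ht⟩ := (hK b X.a f0 _ hf0).1 hg'
  obtain ⟨ε, hε, hr⟩ := afr_root X j
  set z : L := algebraMap k L (x : k) + algebraMap k L (y * ε) * X.α with hz
  have hnz : Algebra.norm k z = (b : k) := by
    rw [hz, Pool.Agent.H98.MF.B.qe_norm_form X.qe, hxy, mul_pow, hε, mul_one]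
  have hz0 : z ≠ 0 := by
    intro h
    rw [h, Algebra.norm_zero] at hnz
    exact b.ne_zero hnz.symm
  have ht0 : algebraMap k L (t : k) ≠ 0 := by
    rw [Ne, map_eq_zero_iff _ (algebraMap k L).injective]
    exact t.ne_zero
  refine ⟨Units.mk0 (algebraMap k L (t : k) * z) (mul_ne_zero ht0 hz0),
    Pool.Agent.H98.MF.sq (t : k) * θ, ⟨t, ?_⟩, ?_, ?_⟩
  · apply Units.ext
    show Algebra.norm k (algebraMap k L (t : k) * z) = ((b * t ^ 2 : kˣ) : k)
    rw [map_mul, hnz, Algebra.norm_algebraMap, X.qe.deg]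
    push_cast
    ring
  · show (Pool.Agent.H98.MF.sq (t : k) * θ) ^ 2 = j (algebraMap k L (t : k) * z)
    rw [mul_pow, sq_sq, hθ, map_mul, j.commutes, hz, map_add, map_mul, j.commutes, j.commutes,
      hr, map_mul]
    ring
  · intro σ hσ
    have h2 := ht σ
    rw [hσ, zero_mul, add_zero] at h2
    rw [map_mul, afr_chi, h0 σ hσ, h2, afr_so_add]
    ring

end

/-- row AR1 -/
theorem afro {k : Type} [Field k] [NumberField k] (Fr : Frm k) (Rk : RxF k) (L : Type) [Field L]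
    [NumberField L] [Algebra k L] (hT : SaTh k) (hK : SaKu k) (hS : SaSl k) (hR : SaRep k) :
    SaFro Fr Rk L := by
  classical
  intro X _
  have : FiniteDimensional k L := FiniteDimensional.of_finrank_pos (by rw [X.qe.deg]; norm_num)
  have : Algebra.IsAlgebraic k L := Algebra.IsAlgebraic.of_finite k L
  let j : L →ₐ[k] Om k := IsAlgClosed.lift
  let pr : Fr.sys.P → Option X.PX := fun p =>
    if h : p ∉ X.M ∧ cj X.sig (afQ j (Fr.pl p)) ≠ afQ j (Fr.pl p) then
      some ⟨afQ j (Fr.pl p), ⟨p, h.1, afQ_over j _⟩, h.2⟩ else none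
  have hpr : ∀ p B, pr p = some B → p ∉ X.M ∧ B.1 = afQ j (Fr.pl p) := by
    intro p B h
    by_cases hc : p ∉ X.M ∧ cj X.sig (afQ j (Fr.pl p)) ≠ afQ j (Fr.pl p)
    · have h1 : pr p = some ⟨afQ j (Fr.pl p), ⟨p, hc.1, afQ_over j _⟩, hc.2⟩ := dif_pos hc
      rw [h1, Option.some.injEq] at h
      exact ⟨hc.1, by rw [← h]⟩
    · have h1 : pr p = none := dif_neg hc
      rw [h1] at h
      exact absurd h (by simp)
  refine ⟨pr, ?_, ?_, ?_⟩
  · intro p B h
    obtain ⟨h1, h2⟩ := hpr p B h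
    apply X.shX_eq
    rw [h2]
    exact afQ_over j _
  · intro p hp hl
    have h1 : cj X.sig (afQ j (Fr.pl p)) ≠ afQ j (Fr.pl p) :=
      (Pool.Agent.H98.MF.B.qe_split_iff X.qe X.sig X.sig_α (afQ_over j _)).1 hl
    exact ⟨_, dif_pos ⟨hp, h1⟩⟩
  · intro b g hg h0
    obtain ⟨γ, ρ, ⟨s, hs⟩, hρ, hact⟩ := afr_elt X hT hK hS hR j hg
    have hev : ∀ p, p ∉ X.M → Even (ord (afQ j (Fr.pl p)) (γ : L)) := fun p hp =>
      afr_even X Rk j hg γ.ne_zero hρ hact hp (h0 p)
    refine ⟨γ, ⟨s, hs⟩, ?_, ?_⟩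
    · rintro Q ⟨p, hp, hQ⟩
      have hOv : Over (Fr.pl p) (afQ j (Fr.pl p)) := afQ_over j _
      have hN := h_ordN X p _ hp hOv γ
      rw [hs] at hN
      have hN' : ord (Fr.pl p) ((b * s ^ 2 : kˣ) : k) =
          ord (Fr.pl p) (b : k) + 2 * ord (Fr.pl p) (s : k) := by
        push_cast
        rw [ord_mul _ b.ne_zero (pow_ne_zero 2 s.ne_zero), ord_pow]
        rfl
      rw [hN'] at hN
      have hR' : ∀ (p' : Fr.sys.P) (B : X.PX), pr p' = some B → Q = (X.cjX B).1 →
          p' = p ∧ B.1 = afQ j (Fr.pl p) := by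
        intro p' B hB hQB
        obtain ⟨h3, h4⟩ := hpr p' B hB
        have h5 : Over (Fr.pl p') Q := by
          rw [hQB]
          show Over (Fr.pl p') (cj X.sig B.1)
          rw [h4]
          exact (afQ_over j _).cj X.sig
        have h6 : p' = p := HX.over_inj h5 hQ
        subst h6
        exact ⟨rfl, h4⟩
      have hE := hev p hp
      rcases Pool.Agent.H98.MF.B.qe_over X.qe X.sig X.sig_α hOv hQ with h3 | h3
      · constructor
        · intro h4
          rw [h3] at h4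
          exact absurd hE (Int.not_even_iff_odd.2 h4)
        · rintro ⟨p', B, hB, -, hQB⟩
          obtain ⟨h5, h6⟩ := hR' p' B hB hQB
          exfalso
          have h7 : cj X.sig B.1 = B.1 := by
            have h8 : Q = cj X.sig B.1 := hQB
            rw [← h8, h3, h6]
          exact B.2.2 h7
      · by_cases hsp : cj X.sig (afQ j (Fr.pl p)) = afQ j (Fr.pl p)
        · constructor
          · intro h4
            rw [h3, hsp] at h4
            exact absurd hE (Int.not_even_iff_odd.2 h4)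
          · rintro ⟨p', B, hB, -, hQB⟩
            obtain ⟨h5, h6⟩ := hR' p' B hB hQB
            exfalso
            apply B.2.2
            rw [h6]
            exact hsp
        · have hpar : Odd (ord Q (γ : L)) ↔ Odd (ord (Fr.pl p) (b : k)) := by
            rw [h3]
            obtain ⟨e, he⟩ := hE
            constructor
            · rintro ⟨m, hm⟩
              exact ⟨e + m - ord (Fr.pl p) (s : k), by omega⟩
            · rintro ⟨m, hm⟩
              exact ⟨m + ord (Fr.pl p) (s : k) - e, by omega⟩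
          rw [hpar]
          constructor
          · intro h4
            refine ⟨p, ⟨afQ j (Fr.pl p), ⟨p, hp, afQ_over j _⟩, hsp⟩, dif_pos ⟨hp, hsp⟩, h4, ?_⟩
            rw [h3]
            rfl
          · rintro ⟨p', B, hB, h4, hQB⟩
            obtain ⟨h5, h6⟩ := hR' p' B hB hQB
            rw [← h5]
            exact h4
    · intro p B hB
      obtain ⟨h3, h4⟩ := hpr p B hB
      have h5 : cj X.sig (afQ j (Fr.pl p)) ≠ afQ j (Fr.pl p) := by
        rw [← h4]
        exact B.2.2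
      rw [h4]
      exact (afr_vals X Rk j hg γ.ne_zero hρ hact h3 (hev p h3)).2 h5

end Pool.Agent.D8
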