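import Pool.Agent.D8.AStm
import Pool.Agent.H98.MF.L.Top
import Pool.Agent.H98.MF.L.Odd
import Pool.Agent.H98.MF.L.QuadY
import Pool.Agent.H32.MQ.HQr

/-!
# The dihedral group of order 16 over a number field: square roots of elements of a quadratic
extension under a tame generator and a Frobenius element
-/

set_option autoImplicit false
set_option linter.unusedSectionVars false
set_option linter.unusedTactic false

open scoped BigOperators
open NumberField IsDedekindDomain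

namespace Pool.Agent.D8

open Pool.Agent.H98.MF
open Pool.Agent.H32.MQ (hq_red)

section

variable {k : Type} [Field k] [NumberField k] {L : Type} [Field L] [NumberField L] [Algebra k L]

theorem afr_two {P : HeightOneSpectrum (𝓞 k)} (h2 : ord P (2 : k) = 0) :
    (2 : 𝓞 k) ∉ P.asIdeal := by
  intro h
  have h1 := (le_ord_iff P (2 : 𝓞 k) 1).2 (by rw [pow_one]; exact h)
  rcases h1 with h1 | h1
  · exact two_ne_zero h1
  · have h3 : ((2 : 𝓞 k) : k) = 2 := by
      push_cast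
      rfl
    rw [h3, h2] at h1
    norm_num at h1

theorem afr_euler (P : HeightOneSpectrum (𝓞 k)) (h2 : ord P (2 : k) = 0) (b : 𝓞 k)
    (hb : b ∉ P.asIdeal) : ∃ n : ℕ, Ideal.absNorm P.asIdeal = 2 * n + 1 ∧
      (LocSq P (b : k) → b ^ n - 1 ∈ P.asIdeal) ∧ (¬ LocSq P (b : k) → b ^ n + 1 ∈ P.asIdeal) := by
  have hmax : P.asIdeal.IsMaximal := P.isMaximal
  let _ : Field (𝓞 k ⧸ P.asIdeal) := Ideal.Quotient.field P.asIdeal
  have hfin : Finite (𝓞 k ⧸ P.asIdeal) := Ideal.finiteQuotientOfFreeOfNeBot _ P.ne_bot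
  let _ : Fintype (𝓞 k ⧸ P.asIdeal) := Fintype.ofFinite _
  have hcard : Ideal.absNorm P.asIdeal = Fintype.card (𝓞 k ⧸ P.asIdeal) := by
    rw [Ideal.absNorm_apply, Submodule.cardQuot_apply, Nat.card_eq_fintype_card]
  have h2' : (2 : 𝓞 k ⧸ P.asIdeal) ≠ 0 := by
    intro h
    apply afr_two h2
    rw [← Ideal.Quotient.eq_zero_iff_mem, map_ofNat]
    exact h
  have hchar : ringChar (𝓞 k ⧸ P.asIdeal) ≠ 2 := by
    intro h
    apply h2'
    have h3 := ringChar.Nat.cast_ringChar (R := 𝓞 k ⧸ P.asIdeal)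
    rw [h] at h3
    exact_mod_cast h3
  have hodd := FiniteField.odd_card_of_char_ne_two hchar
  have hb0 : Ideal.Quotient.mk P.asIdeal b ≠ 0 := by
    rw [Ne, Ideal.Quotient.eq_zero_iff_mem]
    exact hb
  refine ⟨Fintype.card (𝓞 k ⧸ P.asIdeal) / 2, by rw [hcard]; omega, ?_, ?_⟩
  · intro h
    rw [← qr_eq_zero, qr_int h2 b hb] at h
    obtain ⟨c, hc⟩ := h
    rw [← Ideal.Quotient.eq, map_pow, map_one]
    rw [← FiniteField.isSquare_iff hchar hb0]
    refine ⟨Ideal.Quotient.mk P.asIdeal c, ?_⟩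
    rw [← map_mul, Ideal.Quotient.eq, ← pow_two]
    exact hc
  · intro h
    have h3 : ¬ IsSquare (Ideal.Quotient.mk P.asIdeal b) := by
      rintro ⟨x, hx⟩
      apply h
      rw [← qr_eq_zero, qr_int h2 b hb]
      obtain ⟨c, rfl⟩ := Ideal.Quotient.mk_surjective x
      refine ⟨c, ?_⟩
      rw [← Ideal.Quotient.eq, hx, pow_two, map_mul]
    have h4 := FiniteField.pow_dichotomy hchar hb0
    rw [FiniteField.isSquare_iff hchar hb0] at h3
    have h5 := h4.resolve_left h3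
    have h6 : b ^ (Fintype.card (𝓞 k ⧸ P.asIdeal) / 2) + 1 =
        b ^ (Fintype.card (𝓞 k ⧸ P.asIdeal) / 2) - (-1) := by ring
    rw [h6, ← Ideal.Quotient.eq, map_pow, map_neg, map_one]
    exact h5

/-- the map of the rings of integers -/
noncomputable def afJ (j : L →ₐ[k] Om k) : 𝓞 L →+* 𝓞 (Om k) :=
  RingOfIntegers.mapRingHom (j : L →+* Om k)

omit [NumberField k] [NumberField L] in
theorem afJ_coe (j : L →ₐ[k] Om k) (x : 𝓞 L) : ((afJ j x : 𝓞 (Om k)) : Om k) = j (x : L) := rfl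

omit [NumberField k] [NumberField L] in
theorem afJ_alg (j : L →ₐ[k] Om k) (x : 𝓞 k) :
    afJ j (algebraMap (𝓞 k) (𝓞 L) x) = algebraMap (𝓞 k) (𝓞 (Om k)) x := by
  apply RingOfIntegers.ext
  rw [afJ_coe]
  exact j.commutes (x : k)

/-- the prime of `L` below the chosen prime -/
noncomputable def afQ (j : L →ₐ[k] Om k) (P : HeightOneSpectrum (𝓞 k)) :
    HeightOneSpectrum (𝓞 L) where
  asIdeal := (top P).comap (afJ j)
  isPrime := by
    have := top_prime P
    exact Ideal.comap_isPrime _ _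
  ne_bot := by
    intro h
    obtain ⟨x, hx, hx0⟩ := Submodule.exists_mem_ne_zero_of_ne_bot P.ne_bot
    have h1 : algebraMap (𝓞 k) (𝓞 L) x ∈ (top P).comap (afJ j) := by
      rw [Ideal.mem_comap, afJ_alg, ← Ideal.mem_comap, top_comap]
      exact hx
    rw [h, Ideal.mem_bot] at h1
    exact hx0 (tp_inj k L (by rw [h1, map_zero]))

theorem afQ_mem (j : L →ₐ[k] Om k) (P : HeightOneSpectrum (𝓞 k)) (x : 𝓞 L) :
    x ∈ (afQ j P).asIdeal ↔ afJ j x ∈ top P := Iff.rfl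

theorem afQ_over (j : L →ₐ[k] Om k) (P : HeightOneSpectrum (𝓞 k)) : Over P (afQ j P) := by
  show (afQ j P).asIdeal.comap (algebraMap (𝓞 k) (𝓞 L)) = P.asIdeal
  ext x
  rw [Ideal.mem_comap, afQ_mem, afJ_alg, ← Ideal.mem_comap, top_comap]

/-- a unit model of a square root -/
theorem afr_unit (j : L →ₐ[k] Om k) {Q : HeightOneSpectrum (𝓞 L)} {γ : L} (hγ : γ ≠ 0)
    (he : Even (ord Q γ)) {ρ : Om k} (hρ : ρ ^ 2 = j γ) :
    ∃ (u : 𝓞 L) (t : L) (Y : 𝓞 (Om k)), u ∉ Q.asIdeal ∧ t ≠ 0 ∧ γ * t ^ 2 = (u : L) ∧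
      (Y : Om k) = j t * ρ ∧ Y ^ 2 = afJ j u := by
  obtain ⟨u, t, hu, ht, hut⟩ := hq_red hγ he
  have h1 : (j t * ρ) ^ 2 = ((afJ j u : 𝓞 (Om k)) : Om k) := by
    rw [mul_pow, hρ, afJ_coe, ← hut, map_mul, map_pow, mul_comm]
  have h2 : IsIntegral ℤ (j t * ρ) := by
    apply IsIntegral.of_pow two_pos
    rw [h1]
    exact RingOfIntegers.isIntegral_coe _
  refine ⟨u, t, ⟨j t * ρ, h2⟩, hu, ht, hut, rfl, ?_⟩
  apply RingOfIntegers.ext
  show (j t * ρ) ^ 2 = _
  exact h1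

omit [NumberField k] in
theorem afr_coe (τ : Gm k) (x : 𝓞 (Om k)) : ((τ • x : 𝓞 (Om k)) : Om k) = τ (x : Om k) := rfl

theorem afr_notMem (j : L →ₐ[k] Om k) {P : HeightOneSpectrum (𝓞 k)} (h2 : ord P (2 : k) = 0)
    {u : 𝓞 L} (hu : u ∉ (afQ j P).asIdeal) {Y : 𝓞 (Om k)} (hY : Y ^ 2 = afJ j u) :
    2 * Y ∉ top P := by
  have hpr := top_prime P
  intro h
  rcases hpr.mem_or_mem h with h3 | h3
  · apply afr_two h2
    rw [← top_comap P, Ideal.mem_comap, map_ofNat]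
    exact h3
  · apply hu
    rw [afQ_mem, ← hY]
    exact Ideal.pow_mem_of_mem _ h3 2 two_pos

theorem afr_pm {j : L →ₐ[k] Om k} {γ : L} {ρ : Om k} (hρ : ρ ^ 2 = j γ) {τ : Gm k}
    (hj : ∀ x : L, τ (j x) = j x) : τ ρ = ρ ∨ τ ρ = -ρ := by
  have h : (τ ρ) ^ 2 = ρ ^ 2 := by
    rw [← map_pow, hρ, hj]
  exact sq_eq_sq_iff_eq_or_eq_neg.1 h

/-- a tame generator fixes the square roots of elements with even exponent -/
theorem afr_tau (j : L →ₐ[k] Om k) {P : HeightOneSpectrum (𝓞 k)} (h2 : ord P (2 : k) = 0)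
    {τ φ : Gm k} (hT : TF P τ φ) {γ : L} (hγ : γ ≠ 0) (he : Even (ord (afQ j P) γ)) {ρ : Om k}
    (hρ : ρ ^ 2 = j γ) (hj : ∀ x : L, τ (j x) = j x)
    (hTw : ∀ (t : L) (E : 𝓞 (Om k)), (E : Om k) = j t * ρ → Two2 E) : τ ρ = ρ := by
  obtain ⟨u, t, Y, hu, ht, hut, hY1, hY2⟩ := afr_unit j hγ he hρ
  rcases afr_pm hρ hj with h | h
  · exact h
  · exfalso
    have h1 := hT.ine Y (hTw t Y hY1)
    have h3 : τ • Y = -Y := by
      apply RingOfIntegers.ext
      rw [afr_coe, hY1, map_mul, hj, h]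
      show _ = -(Y : Om k)
      rw [hY1]
      ring
    rw [h3] at h1
    apply afr_notMem j h2 hu hY2
    have h5 : 2 * Y = -(-Y - Y) := by ring
    rw [h5]
    exact (top P).neg_mem h1

/-- a Frobenius element at a prime of degree one -/
theorem afr_phi (j : L →ₐ[k] Om k) {P : HeightOneSpectrum (𝓞 k)} (h2 : ord P (2 : k) = 0)
    {τ φ : Gm k} (hT : TF P τ φ) {γ : L} (hγ : γ ≠ 0) (he : Even (ord (afQ j P) γ)) {ρ : Om k}
    (hρ : ρ ^ 2 = j γ) (hj : ∀ x : L, φ (j x) = j x)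
    (hTw : ∀ (t : L) (E : 𝓞 (Om k)), (E : Om k) = j t * ρ → Two2 E)
    (h2Q : ord (afQ j P) (2 : L) = 0)
    (hN : Ideal.absNorm (afQ j P).asIdeal = Ideal.absNorm P.asIdeal) :
    (LocSq (afQ j P) γ → φ ρ = ρ) ∧ (¬ LocSq (afQ j P) γ → φ ρ = -ρ) := by
  obtain ⟨u, t, Y, hu, ht, hut, hY1, hY2⟩ := afr_unit j hγ he hρ
  obtain ⟨n, hn, h3, h4⟩ := afr_euler (afQ j P) h2Q u hu
  have hiff : LocSq (afQ j P) (u : L) ↔ LocSq (afQ j P) γ := by
    rw [← hut]
    exact locSq_mul_sq (afQ j P) ht γ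
  have hφY := hT.fro Y (hTw t Y hY1)
  have hpow : Y ^ Ideal.absNorm P.asIdeal = afJ j (u ^ n) * Y := by
    rw [← hN, hn, pow_succ, pow_mul, hY2, map_pow]
  rw [hpow] at hφY
  constructor
  · intro hsq
    rcases afr_pm hρ hj with h | h
    · exact h
    · exfalso
      have h5 : φ • Y = -Y := by
        apply RingOfIntegers.ext
        rw [afr_coe, hY1, map_mul, hj, h]
        show _ = -(Y : Om k)
        rw [hY1]
        ring
      rw [h5] at hφY
      have h6 : afJ j (u ^ n - 1) ∈ top P := (afQ_mem j P _).1 (h3 (hiff.2 hsq))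
      apply afr_notMem j h2 hu hY2
      have h8 : 2 * Y = -(-Y - afJ j (u ^ n) * Y) - afJ j (u ^ n - 1) * Y := by
        rw [map_sub, map_one]
        ring
      rw [h8]
      exact (top P).sub_mem ((top P).neg_mem hφY) ((top P).mul_mem_right _ h6)
  · intro hsq
    rcases afr_pm hρ hj with h | h
    · exfalso
      have h5 : φ • Y = Y := by
        apply RingOfIntegers.ext
        rw [afr_coe, hY1, map_mul, hj, h]
      rw [h5] at hφY
      have h6 : afJ j (u ^ n + 1) ∈ top P := (afQ_mem j P _).1 (h4 (fun h => hsq (hiff.1 h)))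
      apply afr_notMem j h2 hu hY2
      have h8 : 2 * Y = (Y - afJ j (u ^ n) * Y) + afJ j (u ^ n + 1) * Y := by
        rw [map_add, map_one]
        ring
      rw [h8]
      exact (top P).add_mem hφY ((top P).mul_mem_right _ h6)
    · exact h

end

end Pool.Agent.D8
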