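import Pool.Agent.D8.AStm
import Pool.Agent.H98.MF.Crd
import Pool.Agent.H98.MF.L.KIn

/-!
# The dihedral group of order 16 over a number field: averages over local lifts (row AH1)
-/

set_option autoImplicit false

open scoped BigOperators
open NumberField IsDedekindDomain

namespace Pool.Agent.D8

open Pool.Agent.H98.MF
open Pool.Agent.H98.MK (sg)
open Pool.Agent.H32.MQ (El rep co)

namespace AGHAux

/-! ### elements of the group -/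

theorem e8_same (g g' : E8) (ha : g.pa = g'.pa) (hb : g.pb = g'.pb) (hf : g.pf = g'.pf) :
    g' = g * E8.zz (g.ph + g'.ph) := by
  revert g g'
  decide

theorem zz_inj (x y : ZMod 2) (h : E8.zz x = E8.zz y) : x = y := by
  revert x y
  decide

theorem zz_zero : E8.zz 0 = 1 := by decide

theorem zz_self (x : ZMod 2) : E8.zz x * E8.zz x = 1 := by
  revert x
  decide

theorem gen_pow (x : ZMod 2) :
    (((⟨1, 0⟩ : E8) * E8.zz x) * ((⟨1, 0⟩ : E8) * E8.zz x)) *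
      (((⟨1, 0⟩ : E8) * E8.zz x) * ((⟨1, 0⟩ : E8) * E8.zz x)) = E8.zz 1 := by
  revert x
  decide

theorem zmod2_cases (x : ZMod 2) : x = 0 ∨ x = 1 := by
  revert x
  decide

section

variable {k : Type} [Field k] [NumberField k]

/-- twists of surjective homomorphisms -/
theorem tw_mem {ρ : Gm k →* E8} (hρ : ρ ∈ Hs k) (t : kˣ) : tw ρ t ∈ Hs k := by
  obtain ⟨hs, hl⟩ := hρ
  refine ⟨?_, ?_⟩
  · have hz1 : ∃ σ, tw ρ t σ = E8.zz 1 := by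
      obtain ⟨σ, hσ⟩ := hs ⟨1, 0⟩
      refine ⟨(σ * σ) * (σ * σ), ?_⟩
      rw [map_mul, map_mul, tw_apply, hσ]
      exact gen_pow _
    obtain ⟨σ₁, h₁⟩ := hz1
    have hz : ∀ x : ZMod 2, ∃ σ, tw ρ t σ = E8.zz x := by
      intro x
      rcases zmod2_cases x with rfl | rfl
      · exact ⟨1, by rw [map_one, zz_zero]⟩
      · exact ⟨σ₁, h₁⟩
    intro g
    obtain ⟨σ, hσ⟩ := hs g
    obtain ⟨τ, hτ⟩ := hz (chi (t : k) σ)
    refine ⟨σ * τ, ?_⟩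
    rw [map_mul, hτ, tw_apply, hσ, mul_assoc, zz_self, mul_one]
  · have h2 : IsLocallyConstant (fun σ : Gm k => E8.zz (chi (t : k) σ)) :=
      (chiM_lc (t : k)).comp E8.zz
    exact hl.mul h2

/-- two homomorphisms that agree modulo the centre on a subgroup differ there by an additive
function -/
theorem diff_add (ρ ρ' : Gm k →* E8) (D : Subgroup (Gm k))
    (h : ∀ σ ∈ D, (ρ σ).pa = (ρ' σ).pa ∧ (ρ σ).pb = (ρ' σ).pb ∧ (ρ σ).pf = (ρ' σ).pf) :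
    ∀ σ ∈ D, ∀ τ ∈ D, (ρ (σ * τ)).ph + (ρ' (σ * τ)).ph =
      ((ρ σ).ph + (ρ' σ).ph) + ((ρ τ).ph + (ρ' τ).ph) := by
  have key : ∀ σ ∈ D, ρ' σ = ρ σ * E8.zz ((ρ σ).ph + (ρ' σ).ph) := fun σ hσ =>
    e8_same _ _ (h σ hσ).1 (h σ hσ).2.1 (h σ hσ).2.2
  intro σ hσ τ hτ
  apply zz_inj
  have h1 := key (σ * τ) (D.mul_mem hσ hτ)
  rw [map_mul ρ', map_mul ρ] at h1
  apply mul_left_cancel (a := ρ σ * ρ τ)
  have h2 : ρ' σ * ρ' τ = ρ σ * ρ τ *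
      (E8.zz ((ρ σ).ph + (ρ' σ).ph) * E8.zz ((ρ τ).ph + (ρ' τ).ph)) := by
    conv_lhs => rw [key σ hσ, key τ hτ]
    calc ρ σ * E8.zz ((ρ σ).ph + (ρ' σ).ph) * (ρ τ * E8.zz ((ρ τ).ph + (ρ' τ).ph))
        = ρ σ * (E8.zz ((ρ σ).ph + (ρ' σ).ph) * ρ τ) * E8.zz ((ρ τ).ph + (ρ' τ).ph) := by
          simp only [mul_assoc]
      _ = ρ σ * (ρ τ * E8.zz ((ρ σ).ph + (ρ' σ).ph)) * E8.zz ((ρ τ).ph + (ρ' τ).ph) := by
          rw [E8.zz_comm]
      _ = _ := by simp only [mul_assoc]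
  rw [E8.zz_add ((ρ σ).ph + (ρ' σ).ph), ← h2, map_mul ρ, map_mul ρ']
  exact h1.symm

end

section

variable {k : Type} [Field k] [NumberField k] (Fr : Frm k)

/-- the characters of the representatives are additive -/
theorem chi_cl (y z : Fr.sys.T) (σ : Gm k) :
    chi (cl Fr y z : k) σ = ∑ j, chi (Fr.u j : k) σ * y j + ∑ j, chi (Fr.w j : k) σ * z j := by
  unfold cl
  rw [CrdAux.chi_mul, CrdAux.chi_prod, CrdAux.chi_prod]

theorem chi_cl_add (y z y' z' : Fr.sys.T) (σ : Gm k) :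
    chi (cl Fr (y + y') (z + z') : k) σ = chi (cl Fr y z : k) σ + chi (cl Fr y' z' : k) σ := by
  rw [chi_cl, chi_cl, chi_cl]
  have h1 : ∑ j, chi (Fr.u j : k) σ * (y + y') j =
      ∑ j, chi (Fr.u j : k) σ * y j + ∑ j, chi (Fr.u j : k) σ * y' j := by
    rw [← Finset.sum_add_distrib]
    exact Finset.sum_congr rfl fun j _ => mul_add _ _ _
  have h2 : ∑ j, chi (Fr.w j : k) σ * (z + z') j =
      ∑ j, chi (Fr.w j : k) σ * z j + ∑ j, chi (Fr.w j : k) σ * z' j := by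
    rw [← Finset.sum_add_distrib]
    exact Finset.sum_congr rfl fun j _ => mul_add _ _ _
  rw [h1, h2]
  exact add_add_add_comm _ _ _ _

/-- the class by which two local lifts differ -/
theorem diff_cl {ρ ρ' : Gm k →* E8} (hρ : ρ ∈ Hs k) (hρ' : ρ' ∈ Hs k)
    (h : ∀ v ∈ pls Fr.S, ∀ σ ∈ DecP v,
      (ρ σ).pa = (ρ' σ).pa ∧ (ρ σ).pb = (ρ' σ).pb ∧ (ρ σ).pf = (ρ' σ).pf) :
    ∃ y z : Fr.sys.T, ∀ v ∈ pls Fr.S, ∀ σ ∈ DecP v,
      ρ' σ = ρ σ * E8.zz (chi (cl Fr y z : k) σ) := by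
  have hlc : IsLocallyConstant (fun σ : Gm k => (ρ σ).ph + (ρ' σ).ph) :=
    (hρ.2.comp E8.ph).add (hρ'.2.comp E8.ph)
  have h1 : ∀ v : Pl k, ∃ c : kˣ, v ∈ pls Fr.S →
      ∀ σ ∈ DecP v, (ρ σ).ph + (ρ' σ).ph = chi (c : k) σ := by
    intro v
    by_cases hv : v ∈ pls Fr.S
    · obtain ⟨c, hc⟩ := (kin k).two v (fun σ => (ρ σ).ph + (ρ' σ).ph) hlc
        (diff_add ρ ρ' (DecP v) (h v hv))
      exact ⟨c, fun _ => hc⟩
    · exact ⟨1, fun h => absurd h hv⟩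
  choose c hc using h1
  obtain ⟨y, z, hyz⟩ := Fr.gen c
  refine ⟨y, z, fun v hv σ hσ => ?_⟩
  have h3 := ((kin k).one v _).2 (hyz v hv) σ hσ
  have h4 : chi ((c v * (∏ j, Fr.u j ^ (y j).val) * ∏ j, Fr.w j ^ (z j).val : kˣ) : k) σ =
      chi (c v : k) σ + chi (cl Fr y z : k) σ := by
    rw [CrdAux.chi_mul, CrdAux.chi_mul]
    unfold cl
    rw [CrdAux.chi_mul, add_assoc]
  rw [h4] at h3
  have h5 : chi (c v : k) σ = chi (cl Fr y z : k) σ :=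
    add_right_cancel (h3.trans (CrdAux.add_self (chi (cl Fr y z : k) σ)).symm)
  rw [← h5, ← hc v hv σ hσ]
  exact e8_same _ _ (h v hv σ hσ).1 (h v hv σ hσ).2.1 (h v hv σ hσ).2.2

open Classical in
/-- the average over the twists of one homomorphism -/
noncomputable def av (H : (Gm k →* E8) → Prop) (ρ : Gm k →* E8) : ℝ :=
  (1 / 4 ^ Fr.sys.m) * ∑ y : Fr.sys.T, ∑ z : Fr.sys.T, (if H (tw ρ (cl Fr y z)) then 1 else 0)

/-- the average depends on the restrictions modulo the centre only -/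
theorem av_eq {H : (Gm k →* E8) → Prop} (hH : HLoc Fr H) {ρ ρ' : Gm k →* E8}
    (hρ : ρ ∈ Hs k) (hρ' : ρ' ∈ Hs k)
    (h : ∀ v ∈ pls Fr.S, ∀ σ ∈ DecP v,
      (ρ σ).pa = (ρ' σ).pa ∧ (ρ σ).pb = (ρ' σ).pb ∧ (ρ σ).pf = (ρ' σ).pf) :
    av Fr H ρ = av Fr H ρ' := by
  classical
  obtain ⟨y₀, z₀, h0⟩ := diff_cl Fr hρ hρ' h
  have h1 : ∀ y z : Fr.sys.T,
      (H (tw ρ' (cl Fr y z)) ↔ H (tw ρ (cl Fr (y₀ + y) (z₀ + z)))) := by
    intro y z
    refine hH _ (tw_mem hρ' _) _ (tw_mem hρ _) fun v hv σ hσ => ?_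
    rw [tw_apply, tw_apply, h0 v hv σ hσ, chi_cl_add, E8.zz_add, mul_assoc]
  unfold av
  congr 1
  rw [← Equiv.sum_comp (Equiv.addLeft y₀)
    (fun y => ∑ z : Fr.sys.T, (if H (tw ρ (cl Fr y z)) then (1 : ℝ) else 0))]
  refine Finset.sum_congr rfl fun y _ => ?_
  rw [← Equiv.sum_comp (Equiv.addLeft z₀)
    (fun z => (if H (tw ρ (cl Fr ((Equiv.addLeft y₀) y) z)) then (1 : ℝ) else 0))]
  refine Finset.sum_congr rfl fun z _ => ?_
  exact (if_congr (h1 y z) rfl rfl).symm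

open Classical in
/-- the value of the average at data with a lift -/
theorem gh_val {H : (Gm k →* E8) → Prop} (hH : HLoc Fr H) {ρ : Gm k →* E8} (hρ : ρ ∈ Hs k)
    {d : Gm k → ZMod 2 × ZMod 2 × ZMod 2}
    (hd : ∀ v ∈ pls Fr.S, ∀ σ ∈ DecP v, ((ρ σ).pa, (ρ σ).pb, (ρ σ).pf) = d σ) :
    GH Fr H d = av Fr H ρ := by
  have hex : ∃ ρ ∈ Hs k, ∀ v ∈ pls Fr.S, ∀ σ ∈ DecP v,
      ((ρ σ).pa, (ρ σ).pb, (ρ σ).pf) = d σ := ⟨ρ, hρ, hd⟩
  have h1 : GH Fr H d = av Fr H hex.choose := by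
    unfold GH
    rw [dif_pos hex]
    rfl
  rw [h1]
  refine av_eq Fr hH hex.choose_spec.1 hρ fun v hv σ hσ => ?_
  have h2 := (hex.choose_spec.2 v hv σ hσ).trans (hd v hv σ hσ).symm
  rw [Prod.mk.injEq, Prod.mk.injEq] at h2
  exact h2

/-- the value of the average at data without a lift -/
theorem gh_zero (H : (Gm k →* E8) → Prop) {d : Gm k → ZMod 2 × ZMod 2 × ZMod 2}
    (hd : ¬ ∃ ρ ∈ Hs k, ∀ v ∈ pls Fr.S, ∀ σ ∈ DecP v,
      ((ρ σ).pa, (ρ σ).pb, (ρ σ).pf) = d σ) : GH Fr H d = 0 := by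
  unfold GH
  rw [dif_neg hd]

theorem av_nonneg (H : (Gm k →* E8) → Prop) (ρ : Gm k →* E8) : 0 ≤ av Fr H ρ := by
  classical
  unfold av
  refine mul_nonneg (by positivity) (Finset.sum_nonneg fun y _ => Finset.sum_nonneg fun z _ => ?_)
  split_ifs
  · exact zero_le_one
  · exact le_refl _

theorem av_le (H : (Gm k →* E8) → Prop) (ρ : Gm k →* E8) : av Fr H ρ ≤ 1 := by
  classical
  unfold av
  have h1 : ∑ y : Fr.sys.T, ∑ z : Fr.sys.T, (if H (tw ρ (cl Fr y z)) then (1 : ℝ) else 0) ≤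
      ∑ _y : Fr.sys.T, ∑ _z : Fr.sys.T, (1 : ℝ) := by
    refine Finset.sum_le_sum fun y _ => Finset.sum_le_sum fun z _ => ?_
    split_ifs
    · exact le_refl _
    · exact zero_le_one
  have h2 : ∑ _y : Fr.sys.T, ∑ _z : Fr.sys.T, (1 : ℝ) = 4 ^ Fr.sys.m := by
    simp only [Finset.sum_const, Finset.card_univ, nsmul_eq_mul, mul_one, Fintype.card_fun,
      ZMod.card, Fintype.card_fin]
    push_cast
    rw [← mul_pow]
    norm_num
  rw [h2] at h1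
  have h4 : (0 : ℝ) < 4 ^ Fr.sys.m := by positivity
  rw [one_div, inv_mul_le_iff₀ h4, mul_one]
  exact h1

end

end AGHAux

section

variable {k : Type} [Field k] [NumberField k] (Fr : Frm k)

/-- AH1: the average is a local function -/
theorem aGH : SaGH Fr := by
  classical
  intro H hH
  refine ⟨?_, ?_, ?_, ?_⟩
  · intro d d' hdd
    by_cases hex : ∃ ρ ∈ Hs k, ∀ v ∈ pls Fr.S, ∀ σ ∈ DecP v,
      ((ρ σ).pa, (ρ σ).pb, (ρ σ).pf) = d σ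
    · obtain ⟨ρ, hρ, hd⟩ := hex
      rw [AGHAux.gh_val Fr hH hρ hd,
        AGHAux.gh_val Fr hH hρ fun v hv σ hσ => (hd v hv σ hσ).trans (hdd v hv σ hσ)]
    · have hex' : ¬ ∃ ρ ∈ Hs k, ∀ v ∈ pls Fr.S, ∀ σ ∈ DecP v,
          ((ρ σ).pa, (ρ σ).pb, (ρ σ).pf) = d' σ := by
        rintro ⟨ρ, hρ, hd⟩
        exact hex ⟨ρ, hρ, fun v hv σ hσ => (hd v hv σ hσ).trans (hdd v hv σ hσ).symm⟩
      rw [AGHAux.gh_zero Fr H hex, AGHAux.gh_zero Fr H hex']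
  · intro d
    by_cases hex : ∃ ρ ∈ Hs k, ∀ v ∈ pls Fr.S, ∀ σ ∈ DecP v,
      ((ρ σ).pa, (ρ σ).pb, (ρ σ).pf) = d σ
    · obtain ⟨ρ, hρ, hd⟩ := hex
      rw [AGHAux.gh_val Fr hH hρ hd]
      exact AGHAux.av_nonneg Fr H ρ
    · rw [AGHAux.gh_zero Fr H hex]
  · intro d
    by_cases hex : ∃ ρ ∈ Hs k, ∀ v ∈ pls Fr.S, ∀ σ ∈ DecP v,
      ((ρ σ).pa, (ρ σ).pb, (ρ σ).pf) = d σ
    · obtain ⟨ρ, hρ, hd⟩ := hex
      rw [AGHAux.gh_val Fr hH hρ hd]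
      exact AGHAux.av_le Fr H ρ
    · rw [AGHAux.gh_zero Fr H hex]
      exact zero_le_one
  · intro a b f _ hne v hv
    by_cases hex : ∃ ρ ∈ Hs k, ∀ v ∈ pls Fr.S, ∀ σ ∈ DecP v,
      ((ρ σ).pa, (ρ σ).pb, (ρ σ).pf) = dat a b f σ
    · obtain ⟨ρ, hρ, hd⟩ := hex
      have h1 : ∀ σ ∈ DecP v, E8.mk4 (chi (a : k) σ) (chi (b : k) σ) (f σ) (ρ σ).ph = ρ σ := by
        intro σ hσ
        have h2 := hd v hv σ hσ
        unfold dat at h2
        rw [Prod.mk.injEq, Prod.mk.injEq] at h2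
        rw [← h2.1, ← h2.2.1, ← h2.2.2]
        exact E8.mk4_bits _
      have h3 : ∃ h, IsH (DecP v) a b f h := by
        refine ⟨fun σ => (ρ σ).ph, hρ.2.comp E8.ph, fun σ hσ τ hτ => ?_⟩
        rw [h1 σ hσ, h1 τ hτ, h1 (σ * τ) ((DecP v).mul_mem hσ hτ), map_mul]
      unfold ob
      rw [if_pos h3]
    · exact absurd (AGHAux.gh_zero Fr H hex) hne

/-- AH1: the value of the average -/
theorem aGHv : SaGHv Fr := by
  classical
  intro H hH a b ρ hρ hov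
  have h1 := AGHAux.gh_val Fr hH hρ (d := dat a b fun σ => (ρ σ).pf) fun v _ σ _ => by
    unfold dat
    rw [(hov σ).1, (hov σ).2]
  rw [h1]
  unfold AGHAux.av
  congr! 1

end

end Pool.Agent.D8
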