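import Pool.Agent.D8.AStm
import Pool.Agent.H98.MF.ParK
import Pool.Agent.H98.MF.NNin
import Pool.Agent.H98.MF.C.Main

/-!
# The dihedral group of order 16 over a number field, row AC4: representations, Kummer theory,
solvability
-/

set_option autoImplicit false

open scoped BigOperators
open NumberField IsDedekindDomain

namespace Pool.Agent.D8

open Pool.Agent.H98.MF

theorem akum_two (x : ZMod 2) : x + x = 0 := CharTwo.add_self_eq_zero x

section

variable {k : Type} [Field k] [NumberField k]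

theorem akum_hv {a b : kˣ} (h : Slv a b) :
    ∃ x y : k, (a : k) = x ^ 2 - b * y ^ 2 := by
  refine B.hnSt (nin k) b a fun v => ?_
  rw [(B.lin k).symm v b a]
  exact h v

omit [NumberField k] in
theorem akum_shift {b w y : k} (h : 1 - b * w ^ 2 ≠ 0) :
    (2 * w * b * y / (1 - b * w ^ 2)) ^ 2 - b * (y * (1 + b * w ^ 2) / (1 - b * w ^ 2)) ^ 2 =
      -(b * y ^ 2) := by
  rw [div_pow, div_pow, ← mul_div_assoc, ← sub_div, div_eq_iff (pow_ne_zero 2 h)]
  ring

end

theorem arep (k : Type) [Field k] [NumberField k] : SaRep k := by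
  intro a b h
  obtain ⟨x, y, hxy⟩ := akum_hv h
  by_cases hx : x = 0
  · subst hx
    have ha : (a : k) = -((b : k) * y ^ 2) := by
      rw [hxy]
      ring
    have hy : y ≠ 0 := by
      rintro rfl
      apply a.ne_zero
      rw [ha]
      ring
    have hb : (b : k) ≠ 0 := b.ne_zero
    obtain ⟨w, hw0, hw⟩ : ∃ w : k, w ≠ 0 ∧ 1 - (b : k) * w ^ 2 ≠ 0 := by
      by_cases h1 : (b : k) = 1
      · refine ⟨2, two_ne_zero, ?_⟩
        rw [h1]
        norm_num
      · refine ⟨1, one_ne_zero, ?_⟩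
        rw [one_pow, mul_one]
        exact sub_ne_zero.2 (Ne.symm h1)
    have hx' : 2 * w * (b : k) * y / (1 - (b : k) * w ^ 2) ≠ 0 :=
      div_ne_zero (mul_ne_zero (mul_ne_zero (mul_ne_zero two_ne_zero hw0) hb) hy) hw
    refine ⟨Units.mk0 _ hx', y * (1 + (b : k) * w ^ 2) / (1 - (b : k) * w ^ 2), ?_⟩
    rw [Units.val_mk0, akum_shift hw]
    exact ha
  · exact ⟨Units.mk0 x hx, y, hxy⟩

theorem aku (k : Type) [Field k] [NumberField k] : SaKu k := by
  intro a b f f' hf
  constructor
  · intro hf'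
    have hlc : IsLocallyConstant fun σ => f' σ + f σ := hf'.lc.add hf.lc
    have hadd : ∀ σ τ, (fun σ => f' σ + f σ) (σ * τ) =
        (fun σ => f' σ + f σ) σ + (fun σ => f' σ + f σ) τ := by
      intro σ τ
      change f' (σ * τ) + f (σ * τ) = (f' σ + f σ) + (f' τ + f τ)
      rw [hf'.hom, hf.hom]
      have h1 := akum_two (chi (a : k) σ * chi (b : k) τ)
      linear_combination h1
    obtain ⟨t, ht⟩ := ParK.exists_chi1 (fun σ => f' σ + f σ) hlc hadd
    refine ⟨t, fun σ => ?_⟩
    rw [← ht σ]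
    have h1 := akum_two (f σ)
    linear_combination -h1
  · rintro ⟨t, ht⟩
    have h0 : f' = fun σ => f σ + chi (t : k) σ := funext ht
    rw [h0]
    refine ⟨hf.lc.add (chiM_lc (t : k)), fun σ τ => ?_⟩
    rw [hf.hom, chiM_hom]
    ring

theorem akui (k : Type) [Field k] [NumberField k] : SaKuI k := by
  intro t t' h
  refine ParK.isSquare_of_chu fun σ => ?_
  rw [ParK.chu_mul, h σ, akum_two]

theorem asl (k : Type) [Field k] [NumberField k] (hT : SaTh k) : SaSl k := by
  intro a b
  constructor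
  · rintro ⟨f, hf⟩
    have hD : ∀ D : Subgroup (Gm k), Triv D (fun _ : Fin 1 => (a : k)) (fun _ => (b : k)) :=
      fun D => ⟨f, hf.lc, fun σ _ τ _ => by rw [Fin.sum_univ_one]; exact hf.hom σ τ⟩
    intro v
    rcases v with P | φ
    · have h1 := ((B.lin k).triv P (fun _ : Fin 1 => a) (fun _ => b)).1 (hD _)
      rw [Fin.sum_univ_one] at h1
      exact h1
    · have h1 := ((B.lin k).trivR φ (fun _ : Fin 1 => a) (fun _ => b)).1 (hD _)
      rw [Fin.sum_univ_one] at h1
      exact h1
  · intro h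
    obtain ⟨x, y, hxy⟩ := akum_hv h
    obtain ⟨f, _, hf⟩ := hT a b x y hxy
    exact ⟨f, hf⟩

end Pool.Agent.D8
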