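import Pool.Agent.D8.ANGa

/-!
# The dihedral group of order 16 over a number field: the exact formula (row AT5)
-/

set_option autoImplicit false

open scoped BigOperators
open NumberField IsDedekindDomain

namespace Pool.Agent.D8

open Pool.Agent.H98.MF
open Pool.Agent.H98.MK (sg)
open Pool.Agent.H32.MQ (El rep co)

section

variable {k : Type} [Field k] [NumberField k] (Fr : Frm k) (Rk : RxF k)

/-! ### the function of a configuration -/

theorem ang_Rf (G : LDt k) (c : Cg Fr.sys) (a b : kˣ) (ha : c.ea = a) (hb : c.eb = b)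
    (h : ∃ f, IsL Fr Rk a b ∅ f) : Rf Fr Rk G c = Gh Fr G c.ee a b h.choose *
      ((sg (∑ p ∈ c.x1 ∪ c.x3, ob (Sum.inl (Fr.pl p)) a b h.choose) : ℤ) : ℝ) := by
  subst ha hb
  unfold Rf
  rw [dif_pos h]

theorem ang_Rf0 (G : LDt k) (c : Cg Fr.sys) (a b : kˣ) (ha : c.ea = a) (hb : c.eb = b)
    (h : ¬ ∃ f, IsL Fr Rk a b ∅ f) : Rf Fr Rk G c = 0 := by
  subst ha hb
  unfold Rf
  rw [dif_neg h]

open Classical in
/-- the configuration -/
noncomputable def angC (A B x1 x3 : Finset Fr.sys.P) (ua ub uv : Fr.sys.T) : Cg Fr.sys :=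
  ⟨x1, A \ x1, x3, B \ x3, ua, ub, uv⟩

theorem angC_ea {A B x1 x3 : Finset Fr.sys.P} (h : x1 ⊆ A) (ua ub uv : Fr.sys.T) :
    (angC Fr A B x1 x3 ua ub uv).ea = rep Fr (ua, A) := by
  classical
  unfold Cg.ea angC
  dsimp only
  rw [Finset.union_sdiff_of_subset h]

theorem angC_eb {A B x1 x3 : Finset Fr.sys.P} (h : x3 ⊆ B) (ua ub uv : Fr.sys.T) :
    (angC Fr A B x1 x3 ua ub uv).eb = rep Fr (ub, B) := by
  classical
  unfold Cg.eb angC
  dsimp only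
  rw [Finset.union_sdiff_of_subset h]

theorem angC_ram {A B x1 x3 : Finset Fr.sys.P} (h : x1 ⊆ A) (h' : x3 ⊆ B)
    (ua ub uv : Fr.sys.T) : (angC Fr A B x1 x3 ua ub uv).ram = A ∪ B := by
  classical
  unfold Cg.ram angC
  dsimp only
  rw [Finset.union_sdiff_of_subset h, Finset.union_sdiff_of_subset h']

theorem angC_dj {A B x1 x3 : Finset Fr.sys.P} (hAB : Disjoint A B) (h : x1 ⊆ A) (h' : x3 ⊆ B)
    (ua ub uv : Fr.sys.T) : (angC Fr A B x1 x3 ua ub uv).Dj := by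
  classical
  unfold Cg.Dj angC
  dsimp only
  rw [Finset.union_sdiff_of_subset h, Finset.union_sdiff_of_subset h']
  exact ⟨Finset.disjoint_sdiff, Finset.disjoint_sdiff, hAB⟩

/-- one of the first conditions -/
theorem ang_C1a {A B : Finset Fr.sys.P} (hAB : Disjoint A B) (ua ub : Fr.sys.T)
    (h : ∀ v : Pl k, hv v (rep Fr (ub, B) : k) (rep Fr (ua, A) : k) = 0) :
    ∀ p ∈ A, Fr.sys.ex B ub p = 0 := by
  classical
  intro p hp
  have hpB : p ∉ B := Finset.disjoint_left.1 hAB hp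
  have h0 : ord (Fr.pl p) (rep Fr (ub, B) : k) = 0 := by
    rw [Pool.Agent.H32.MQ.h_repO Fr (ub, B) p, if_neg hpB]
  have h1 : ord (Fr.pl p) (rep Fr (ua, A) : k) = 1 := by
    rw [Pool.Agent.H32.MQ.h_repO Fr (ua, A) p, if_pos hp]
  have h2 := (Pool.Agent.H98.MF.B.lin k).unt (Fr.pl p) (Pool.Agent.H32.MQ.hb_two Fr p)
    (rep Fr (ub, B)) (rep Fr (ua, A)) h0
  have h3 : hs (Fr.pl p) (rep Fr (ub, B) : k) (rep Fr (ua, A) : k) = 0 := h (Sum.inl (Fr.pl p))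
  rw [h1, Int.cast_one, one_mul, h3] at h2
  have h4 := Pool.Agent.H32.MQ.h_repQ Fr (ub, B) p hpB
  rw [← h2] at h4
  exact h4.symm

theorem angC_c1 {A B x1 x3 : Finset Fr.sys.P} (hAB : Disjoint A B) (h : x1 ⊆ A) (h' : x3 ⊆ B)
    (ua ub uv : Fr.sys.T) (hS : Slv (rep Fr (ua, A)) (rep Fr (ub, B))) :
    (angC Fr A B x1 x3 ua ub uv).C1 := by
  classical
  unfold Cg.C1 angC
  dsimp only
  rw [Finset.union_sdiff_of_subset h, Finset.union_sdiff_of_subset h']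
  refine ⟨ang_C1a Fr hAB ua ub fun v => ?_, ang_C1a Fr hAB.symm ub ua fun v => hS v⟩
  rw [ang_hvS]
  exact hS v

open Classical in
theorem angC_c2 {A B x1 x3 : Finset Fr.sys.P} (hAB : Disjoint A B) (h : x1 ⊆ A) (h' : x3 ⊆ B)
    (ua ub uv : Fr.sys.T) : (angC Fr A B x1 x3 ua ub uv).C2 ↔
    ∀ q ∈ A ∪ B, if q ∈ x1 ∪ x3 then
      Fr.sys.ex ((A \ x1) ∪ (B \ x3)) (Fr.sys.l + ua + ub + uv) q = 0
    else Fr.sys.ex (x1 ∪ x3) uv q = 0 := by
  unfold Cg.C2 angC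
  dsimp only
  constructor
  · rintro ⟨h1, h2⟩ q hq
    by_cases h3 : q ∈ x1 ∪ x3
    · rw [if_pos h3]
      exact h1 q h3
    · rw [if_neg h3]
      apply h2
      rw [Finset.mem_union] at hq h3 ⊢
      push Not at h3
      rcases hq with hq | hq
      · exact Or.inl (Finset.mem_sdiff.2 ⟨hq, h3.1⟩)
      · exact Or.inr (Finset.mem_sdiff.2 ⟨hq, h3.2⟩)
  · intro h1
    constructor
    · intro p hp
      have h2 := h1 p (Finset.union_subset_union h h' hp)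
      rw [if_pos hp] at h2
      exact h2
    · intro p hp
      have h2 := h1 p (Finset.union_subset_union Finset.sdiff_subset Finset.sdiff_subset hp)
      rw [if_neg] at h2
      · exact h2
      · intro h3
        rw [Finset.mem_union] at h3 hp
        rcases h3 with h3 | h3 <;> rcases hp with hp | hp
        · exact (Finset.mem_sdiff.1 hp).2 h3
        · exact Finset.disjoint_left.1 hAB (h h3) (Finset.mem_sdiff.1 hp).1
        · exact Finset.disjoint_left.1 hAB (Finset.mem_sdiff.1 hp).1 (h' h3)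
        · exact (Finset.mem_sdiff.1 hp).2 h3

/-- the exponent of `-ab` at a ramified prime -/
theorem ang_odd {A B : Finset Fr.sys.P} (hAB : Disjoint A B) (ua ub : Fr.sys.T) (p : Fr.sys.P)
    (hp : p ∈ A ∪ B) :
    Odd (ord (Fr.pl p) ((-(rep Fr (ua, A) * rep Fr (ub, B)) : kˣ) : k)) := by
  classical
  have e : (-(rep Fr (ua, A) * rep Fr (ub, B)) : kˣ) =
      (-1) * (rep Fr (ua, A) * rep Fr (ub, B)) := by
    rw [neg_one_mul]
  rw [e, Units.val_mul, Pool.Agent.H98.MF.B.ord_mul _ (Units.ne_zero _) (Units.ne_zero _),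
    Units.val_mul, Pool.Agent.H98.MF.B.ord_mul _ (Units.ne_zero _) (Units.ne_zero _),
    Pool.Agent.H32.MQ.h_repO Fr (ua, A) p, Pool.Agent.H32.MQ.h_repO Fr (ub, B) p, Units.val_neg,
    Units.val_one, Pool.Agent.H98.MF.B.ord_neg_one]
  rw [Finset.mem_union] at hp
  rcases hp with hp | hp
  · rw [if_pos hp, if_neg (Finset.disjoint_left.1 hAB hp)]
    decide
  · rw [if_pos hp, if_neg (Finset.disjoint_right.1 hAB hp)]
    decide

/-! ### the expansion -/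

/-- the character of the twists -/
noncomputable def angP (e : Finset Fr.sys.P) (N κ t : kˣ) : ZMod 2 :=
  hS Fr t κ + ∑ p ∈ e, hv (Sum.inl (Fr.pl p) : Pl k) (t : k) (N : k)

theorem angP_mul (e : Finset Fr.sys.P) (N κ t t' : kˣ) :
    angP Fr e N κ (t * t') = angP Fr e N κ t + angP Fr e N κ t' := by
  unfold angP
  rw [ang_hSL, Finset.sum_congr rfl fun p _ => ang_hvL _ t t' N, Finset.sum_add_distrib]
  ring

theorem ang_swap {α β γ : Type} (s : Finset α) (t : Finset β) (u : Finset γ)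
    (H : α → β → γ → ℝ) : ∑ i ∈ s, ∑ j ∈ t, ∑ l ∈ u, H i j l =
      ∑ l ∈ u, ∑ i ∈ s, ∑ j ∈ t, H i j l := by
  rw [Finset.sum_congr rfl fun i _ => Finset.sum_comm (s := t) (t := u)]
  exact Finset.sum_comm

open Classical in
/-- the term of a twist -/
theorem ang_term (hF : SaFou Fr) (hT : SaObT k) (G : LDt k) (hG : SLoc Fr G) (a b N : kˣ)
    (hN : (N : k) = -((a : k) * (b : k))) (f : Gm k → ZMod 2) (hf : IsF a b f)
    (W : Finset Fr.sys.P) (t : kˣ) :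
    2 ^ W.card * (if ∀ p ∈ W, ob (Sum.inl (Fr.pl p)) a b (fun σ => f σ + chi (t : k) σ) = 0
        then G (dat a b fun σ => f σ + chi (t : k) σ) else 0) =
      ∑ e ∈ W.powerset, ∑ y : Fr.sys.T, ∑ z : Fr.sys.T,
        (((sg (∑ p ∈ e, ob (Sum.inl (Fr.pl p)) a b f) : ℤ) : ℝ) * Gh Fr G (cl Fr y z) a b f) *
          ((sg (angP Fr e N (cl Fr y z) t) : ℤ) : ℝ) := by
  have h1 := cls_sum_y W
    (fun p => ob (Sum.inl (Fr.pl p)) a b (fun σ => f σ + chi (t : k) σ))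
  have h2 : ∑ e ∈ W.powerset, ((sg (∑ p ∈ e, ob (Sum.inl (Fr.pl p)) a b
      (fun σ => f σ + chi (t : k) σ)) : ℤ) : ℝ) =
      if ∀ p ∈ W, ob (Sum.inl (Fr.pl p)) a b (fun σ => f σ + chi (t : k) σ) = 0
        then 2 ^ W.card else 0 := by
    rw [← Int.cast_sum, h1]
    split_ifs
    · push_cast
      rfl
    · exact Int.cast_zero
  have h3 : 2 ^ W.card * (if ∀ p ∈ W, ob (Sum.inl (Fr.pl p)) a b
      (fun σ => f σ + chi (t : k) σ) = 0 then G (dat a b fun σ => f σ + chi (t : k) σ) else 0) =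
      (∑ e ∈ W.powerset, ((sg (∑ p ∈ e, ob (Sum.inl (Fr.pl p)) a b
        (fun σ => f σ + chi (t : k) σ)) : ℤ) : ℝ)) *
          G (dat a b fun σ => f σ + chi (t : k) σ) := by
    rw [h2]
    split_ifs
    · rfl
    · rw [mul_zero, zero_mul]
  rw [h3, Finset.sum_mul]
  refine Finset.sum_congr rfl fun e _ => ?_
  rw [hF G hG a b t f, Finset.mul_sum]
  refine Finset.sum_congr rfl fun y _ => ?_
  rw [Finset.mul_sum]
  refine Finset.sum_congr rfl fun z _ => ?_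
  have h4 : ∑ p ∈ e, ob (Sum.inl (Fr.pl p)) a b (fun σ => f σ + chi (t : k) σ) =
      ∑ p ∈ e, ob (Sum.inl (Fr.pl p)) a b f +
        ∑ p ∈ e, hv (Sum.inl (Fr.pl p) : Pl k) (t : k) (N : k) := by
    rw [← Finset.sum_add_distrib]
    refine Finset.sum_congr rfl fun p _ => ?_
    rw [hT a b t f hf, hN]
  unfold angP
  rw [h4, sg_add, sg_add]
  push_cast
  ring

open Classical in
theorem ang (hF : SaFou Fr) (hU : SaOrU Fr) (hP : SaOrP Fr) (hSl : SaSl k) (hT : SaObT k) :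
    SaNG Fr Rk := by
  intro G hG _ A B ua ub hAB
  have hR : ∀ uv : Fr.sys.T, ∀ x1 ∈ A.powerset, ∀ x3 ∈ B.powerset,
      (if (⟨x1, A \ x1, x3, B \ x3, ua, ub, uv⟩ : Cg Fr.sys).C2 then
        Rf Fr Rk G ⟨x1, A \ x1, x3, B \ x3, ua, ub, uv⟩ else 0) =
      if (angC Fr A B x1 x3 ua ub uv).C2 then Rf Fr Rk G (angC Fr A B x1 x3 ua ub uv) else 0 :=
    fun _ _ _ _ _ => rfl
  rw [Finset.sum_congr rfl fun uv _ => Finset.sum_congr rfl fun x1 h1 =>
    Finset.sum_congr rfl fun x3 h3 => hR uv x1 h1 x3 h3]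
  by_cases h : ∃ f, IsL Fr Rk (rep Fr (ua, A)) (rep Fr (ub, B)) ∅ f
  swap
  · have e1 : NG Fr Rk G (rep Fr (ua, A)) (rep Fr (ub, B)) (A ∪ B) = 0 := by
      unfold NG
      rw [dif_neg h]
    rw [e1]
    symm
    refine mul_eq_zero_of_right _ (Finset.sum_eq_zero fun uv _ => Finset.sum_eq_zero
      fun x1 h1 => Finset.sum_eq_zero fun x3 h3 => ?_)
    rw [Finset.mem_powerset] at h1 h3
    rw [ang_Rf0 Fr Rk G _ _ _ (angC_ea Fr h1 ua ub uv) (angC_eb Fr h3 ua ub uv) h, ite_self]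
  have hf := h.choose_spec
  have hslv := (hSl _ _).1 ⟨_, hf.1⟩
  obtain ⟨N, hN, hNo⟩ : ∃ N : kˣ,
      (N : k) = -((rep Fr (ua, A) : k) * (rep Fr (ub, B) : k)) ∧
      ∀ p ∈ A ∪ B, Odd (ord (Fr.pl p) (N : k)) :=
    ⟨-(rep Fr (ua, A) * rep Fr (ub, B)), by rw [Units.val_neg, Units.val_mul],
      ang_odd Fr hAB ua ub⟩
  have e1 : NG Fr Rk G (rep Fr (ua, A)) (rep Fr (ub, B)) (A ∪ B) =
      ∑ y : Fr.sys.T, ∑ r ∈ (A ∪ B).powerset, ∑ e ∈ (A ∪ B).powerset,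
        ∑ y' : Fr.sys.T, ∑ z : Fr.sys.T,
        (((sg (∑ p ∈ e, ob (Sum.inl (Fr.pl p)) (rep Fr (ua, A)) (rep Fr (ub, B)) h.choose) : ℤ)
            : ℝ) * Gh Fr G (cl Fr y' z) (rep Fr (ua, A)) (rep Fr (ub, B)) h.choose) *
          ((sg (angP Fr e N (cl Fr y' z) (rep Fr (y, r))) : ℤ) : ℝ) := by
    unfold NG
    rw [dif_pos h, Finset.mul_sum]
    refine Finset.sum_congr rfl fun y _ => ?_
    rw [Finset.mul_sum]
    refine Finset.sum_congr rfl fun r _ => ?_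
    exact ang_term Fr hF hT G hG _ _ N hN _ hf.1 (A ∪ B) (rep Fr (y, r))
  have e4 : ∀ uv : Fr.sys.T, ∀ x1 ∈ A.powerset, ∀ x3 ∈ B.powerset,
      (if (angC Fr A B x1 x3 ua ub uv).C2 then Rf Fr Rk G (angC Fr A B x1 x3 ua ub uv)
        else 0) =
      if ∀ q ∈ A ∪ B, angP Fr (x1 ∪ x3) N (rep Fr (uv, x1 ∪ x3)) (rep Fr (0, {q})) = 0 then
        Gh Fr G (rep Fr (uv, x1 ∪ x3)) (rep Fr (ua, A)) (rep Fr (ub, B)) h.choose *
          ((sg (∑ p ∈ x1 ∪ x3, ob (Sum.inl (Fr.pl p)) (rep Fr (ua, A)) (rep Fr (ub, B))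
            h.choose) : ℤ) : ℝ) else 0 := by
    intro uv x1 h1 x3 h3
    rw [Finset.mem_powerset] at h1 h3
    have h5 : (angC Fr A B x1 x3 ua ub uv).C2 ↔
        ∀ q ∈ A ∪ B, angP Fr (x1 ∪ x3) N (rep Fr (uv, x1 ∪ x3)) (rep Fr (0, {q})) = 0 := by
      rw [angC_c2 Fr hAB h1 h3]
      refine forall₂_congr fun q hq => ?_
      have h5 := hP (angC Fr A B x1 x3 ua ub uv) (angC_dj Fr hAB h1 h3 ua ub uv)
        (angC_c1 Fr hAB h1 h3 ua ub uv hslv)
        (by rw [angC_ea Fr h1, angC_eb Fr h3]; exact hslv) q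
        (by rw [angC_ram Fr h1 h3]; exact hq)
      rw [angC_ea Fr h1, angC_eb Fr h3, ← hN] at h5
      exact h5.symm
    rw [ang_Rf Fr Rk G _ _ _ (angC_ea Fr h1 ua ub uv) (angC_eb Fr h3 ua ub uv) h]
    by_cases h6 : (angC Fr A B x1 x3 ua ub uv).C2
    · rw [if_pos h6, if_pos (h5.1 h6)]
      rfl
    · rw [if_neg h6, if_neg fun h7 => h6 (h5.2 h7)]
  rw [e1, ang_swap, Finset.mul_sum]
  generalize h.choose = f at *
  -- the inner sums
  have e2 : ∀ e ∈ (A ∪ B).powerset, ∑ y : Fr.sys.T, ∑ r ∈ (A ∪ B).powerset,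
      ∑ y' : Fr.sys.T, ∑ z : Fr.sys.T,
        (((sg (∑ p ∈ e, ob (Sum.inl (Fr.pl p)) (rep Fr (ua, A)) (rep Fr (ub, B)) f) : ℤ)
            : ℝ) * Gh Fr G (cl Fr y' z) (rep Fr (ua, A)) (rep Fr (ub, B)) f) *
          ((sg (angP Fr e N (cl Fr y' z) (rep Fr (y, r))) : ℤ) : ℝ) =
      ∑ uv : Fr.sys.T, 2 ^ (Fr.sys.m + (A ∪ B).card) *
        (if ∀ q ∈ A ∪ B, angP Fr e N (rep Fr (uv, e)) (rep Fr (0, {q})) = 0 then
          Gh Fr G (rep Fr (uv, e)) (rep Fr (ua, A)) (rep Fr (ub, B)) f *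
            ((sg (∑ p ∈ e, ob (Sum.inl (Fr.pl p)) (rep Fr (ua, A)) (rep Fr (ub, B)) f) : ℤ)
              : ℝ) else 0) := by
    intro e he
    rw [Finset.mem_powerset] at he
    rw [ang_swap]
    have e3 : ∀ y' : Fr.sys.T, ∑ y : Fr.sys.T, ∑ r ∈ (A ∪ B).powerset, ∑ z : Fr.sys.T,
        (((sg (∑ p ∈ e, ob (Sum.inl (Fr.pl p)) (rep Fr (ua, A)) (rep Fr (ub, B)) f) : ℤ)
            : ℝ) * Gh Fr G (cl Fr y' z) (rep Fr (ua, A)) (rep Fr (ub, B)) f) *
          ((sg (angP Fr e N (cl Fr y' z) (rep Fr (y, r))) : ℤ) : ℝ) =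
        ∑ z : Fr.sys.T, (if ∃ uv : Fr.sys.T, ∀ v ∈ pls Fr.S,
            LocP v ((cl Fr y' z * rep Fr (uv, e) : kˣ) : k)
          then 2 ^ (Fr.sys.m + (A ∪ B).card) *
            (if ∀ q ∈ A ∪ B, angP Fr e N (cl Fr y' z) (rep Fr (0, {q})) = 0 then
              Gh Fr G (cl Fr y' z) (rep Fr (ua, A)) (rep Fr (ub, B)) f *
                ((sg (∑ p ∈ e, ob (Sum.inl (Fr.pl p)) (rep Fr (ua, A)) (rep Fr (ub, B)) f) : ℤ)
                  : ℝ) else 0) else 0) := by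
      intro y'
      rw [ang_swap]
      refine Finset.sum_congr rfl fun z _ => ?_
      have h4 := ang_T Fr (angP Fr e N (cl Fr y' z)) (angP_mul Fr e N (cl Fr y' z)) (A ∪ B)
      have h5 : ∑ y : Fr.sys.T, ∑ r ∈ (A ∪ B).powerset,
          (((sg (∑ p ∈ e, ob (Sum.inl (Fr.pl p)) (rep Fr (ua, A)) (rep Fr (ub, B)) f) : ℤ)
            : ℝ) * Gh Fr G (cl Fr y' z) (rep Fr (ua, A)) (rep Fr (ub, B)) f) *
          ((sg (angP Fr e N (cl Fr y' z) (rep Fr (y, r))) : ℤ) : ℝ) =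
          (((sg (∑ p ∈ e, ob (Sum.inl (Fr.pl p)) (rep Fr (ua, A)) (rep Fr (ub, B)) f) : ℤ)
            : ℝ) * Gh Fr G (cl Fr y' z) (rep Fr (ua, A)) (rep Fr (ub, B)) f) *
          ((∑ y : Fr.sys.T, ∑ r ∈ (A ∪ B).powerset,
            sg (angP Fr e N (cl Fr y' z) (rep Fr (y, r))) : ℤ) : ℝ) := by
        push_cast
        rw [Finset.mul_sum]
        refine Finset.sum_congr rfl fun y _ => ?_
        rw [Finset.mul_sum]
      have h6 : (∀ u : Fr.sys.T, angP Fr e N (cl Fr y' z) (rep Fr (u, ∅)) = 0) ↔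
          ∃ uv : Fr.sys.T, ∀ v ∈ pls Fr.S,
            LocP v ((cl Fr y' z * rep Fr (uv, e) : kˣ) : k) := by
        rw [← hU e y' z]
        refine forall_congr' fun u => ?_
        unfold angP
        rw [ang_two, Finset.sum_congr rfl fun p hp => ang_unit Fr p u N (hNo p (he hp))]
      rw [h5, h4]
      by_cases h7 : ∃ uv : Fr.sys.T, ∀ v ∈ pls Fr.S,
          LocP v ((cl Fr y' z * rep Fr (uv, e) : kˣ) : k)
      · rw [if_pos h7]
        by_cases h8 : ∀ q ∈ A ∪ B, angP Fr e N (cl Fr y' z) (rep Fr (0, {q})) = 0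
        · rw [if_pos h8, if_pos ⟨h6.2 h7, h8⟩]
          push_cast
          ring
        · rw [if_neg h8, if_neg fun h9 => h8 h9.2, Int.cast_zero, mul_zero, mul_zero]
      · rw [if_neg h7, if_neg fun h9 => h7 (h6.1 h9.1), Int.cast_zero, mul_zero]
    rw [Finset.sum_congr rfl fun y' _ => e3 y']
    refine ang_key Fr e (fun κ => 2 ^ (Fr.sys.m + (A ∪ B).card) *
            (if ∀ q ∈ A ∪ B, angP Fr e N κ (rep Fr (0, {q})) = 0 then
              Gh Fr G κ (rep Fr (ua, A)) (rep Fr (ub, B)) f *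
                ((sg (∑ p ∈ e, ob (Sum.inl (Fr.pl p)) (rep Fr (ua, A)) (rep Fr (ub, B)) f) : ℤ)
                  : ℝ) else 0)) fun κ κ' hκ => ?_
    have h4 : ∀ t, angP Fr e N κ t = angP Fr e N κ' t := by
      intro t
      unfold angP
      rw [ang_hS_loc Fr t κ κ' hκ]
    rw [ang_Gh_loc Fr G κ κ' _ _ f hκ]
    simp only [h4]
  rw [Finset.sum_congr rfl e2, ang_pow A B hAB]
  rw [ang_swap]
  refine Finset.sum_congr rfl fun uv _ => ?_
  rw [Finset.mul_sum]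
  refine Finset.sum_congr rfl fun x1 h1 => ?_
  rw [Finset.mul_sum]
  refine Finset.sum_congr rfl fun x3 h3 => ?_
  rw [e4 uv x1 h1 x3 h3]

end

end Pool.Agent.D8
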