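import Pool.Agent.D8.AStm
import Pool.Agent.H32.MQ.HBase
import Pool.Agent.H98.MF.C.Lin
import Pool.Agent.H98.MF.LocTriv
import Pool.Agent.H98.MF.SClassSum

/-!
# The dihedral group of order 16 over a number field: lemmas for the exact formula (row AT5)
-/

set_option autoImplicit false

open scoped BigOperators
open NumberField IsDedekindDomain

namespace Pool.Agent.D8

open Pool.Agent.H98.MF
open Pool.Agent.H98.MK (sg)
open Pool.Agent.H32.MQ (El rep co)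

section

variable {k : Type} [Field k] [NumberField k]

/-! ### symbols -/

theorem ang_two (x y : ZMod 2) : x + y = 0 ↔ x = y := by
  revert x y; decide

theorem ang_hvR (v : Pl k) (a b c : kˣ) :
    hv v (a : k) ((b * c : kˣ) : k) = hv v (a : k) (b : k) + hv v (a : k) (c : k) :=
  (Pool.Agent.H98.MF.B.lin k).mulR v a b c

theorem ang_hvS (v : Pl k) (a b : kˣ) : hv v (a : k) (b : k) = hv v (b : k) (a : k) :=
  (Pool.Agent.H98.MF.B.lin k).symm v a b

theorem ang_hvL (v : Pl k) (a b c : kˣ) :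
    hv v ((a * b : kˣ) : k) (c : k) = hv v (a : k) (c : k) + hv v (b : k) (c : k) := by
  rw [ang_hvS, ang_hvR, ang_hvS v c a, ang_hvS v c b]

theorem ang_loc (v : Pl k) (x a b : kˣ) (h : LocP v ((a * b : kˣ) : k)) :
    hv v (x : k) (a : k) = hv v (x : k) (b : k) := by
  have h1 := ((Pool.Agent.H98.MF.B.lin k).nd v (a * b)).2 h x
  rw [ang_hvS, ang_hvR] at h1
  exact (ang_two _ _).1 h1

theorem ang_loc_mul (v : Pl k) (a b : kˣ) (ha : LocP v (a : k)) (hb : LocP v (b : k)) :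
    LocP v ((a * b : kˣ) : k) := by
  have hL := Pool.Agent.H98.MF.B.lin k
  exact (hL.memLS v _).1 ((LS v).mul_mem ((hL.memLS v a).2 ha) ((hL.memLS v b).2 hb))

theorem ang_loc_sq (v : Pl k) (a : kˣ) : LocP v ((a ^ 2 : kˣ) : k) := by
  have hL := Pool.Agent.H98.MF.B.lin k
  refine (hL.nd v (a ^ 2)).1 fun b => ?_
  rw [pow_two, ang_hvL]
  exact CharTwo.add_self_eq_zero _

theorem ang_loc_div (v : Pl k) (a b : kˣ) (ha : LocP v ((a * b ^ 2 : kˣ) : k)) :
    LocP v (a : k) := by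
  have hL := Pool.Agent.H98.MF.B.lin k
  have h1 : a = (a * b ^ 2) * (b⁻¹) ^ 2 := by
    rw [inv_pow, mul_inv_cancel_right]
  rw [h1]
  exact ang_loc_mul v _ _ ha (ang_loc_sq v _)

variable (Fr : Frm k) (Rk : RxF k)

theorem ang_hSL (x y κ : kˣ) : hS Fr (x * y) κ = hS Fr x κ + hS Fr y κ := by
  unfold hS
  rw [← Finset.sum_add_distrib]
  exact Finset.sum_congr rfl fun v _ => ang_hvL v x y κ

theorem ang_hS_loc (x κ κ' : kˣ) (h : ∀ v ∈ pls Fr.S, LocP v ((κ * κ' : kˣ) : k)) :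
    hS Fr x κ = hS Fr x κ' := by
  unfold hS
  exact Finset.sum_congr rfl fun v hv => ang_loc v x κ κ' (h v hv)

theorem ang_Gh_loc (G : LDt k) (κ κ' a b : kˣ) (f : Gm k → ZMod 2)
    (h : ∀ v ∈ pls Fr.S, LocP v ((κ * κ' : kˣ) : k)) : Gh Fr G κ a b f = Gh Fr G κ' a b f := by
  unfold Gh
  congr 1
  refine Finset.sum_congr rfl fun y _ => Finset.sum_congr rfl fun z _ => ?_
  rw [ang_hS_loc Fr _ κ κ' h]

/-- the symbols of a unit at a prime outside `S` -/
theorem ang_unit (p : Fr.sys.P) (u : Fr.sys.T) (c : kˣ) (hc : Odd (ord (Fr.pl p) (c : k))) :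
    hv (Sum.inl (Fr.pl p) : Pl k) (rep Fr (u, ∅) : k) (c : k) =
      qr (rep Fr (u, ∅) : k) (Fr.pl p) := by
  classical
  have h0 : ord (Fr.pl p) (rep Fr (u, ∅) : k) = 0 := by
    rw [Pool.Agent.H32.MQ.h_repO Fr (u, ∅) p, if_neg (Finset.notMem_empty p)]
  have h1 := (Pool.Agent.H98.MF.B.lin k).unt (Fr.pl p) (Pool.Agent.H32.MQ.hb_two Fr p)
    (rep Fr (u, ∅)) c h0
  show hs (Fr.pl p) (rep Fr (u, ∅) : k) (c : k) = _
  rw [h1]
  have h2 : ((ord (Fr.pl p) (c : k) : ℤ) : ZMod 2) = 1 := by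
    obtain ⟨n, hn⟩ := hc
    rw [hn]
    push_cast
    have h3 : (2 : ZMod 2) = 0 := rfl
    rw [h3, zero_mul, zero_add]
  rw [h2, one_mul]

/-! ### the sum over the twists -/

theorem ang_rep (ψ : kˣ → ZMod 2) (hψ : ∀ a b, ψ (a * b) = ψ a + ψ b) (y : Fr.sys.T)
    (r : Finset Fr.sys.P) :
    ψ (rep Fr (y, r)) = y ⬝ᵥ (fun j => ψ (Fr.u j)) + ∑ p ∈ r, ψ (Fr.pi p) := by
  classical
  unfold rep
  rw [hψ]
  congr 1
  · exact Pool.Agent.H98.MF.LT.map_prod ψ hψ Finset.univ Fr.u y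
  · have h1 := Pool.Agent.H98.MF.LT.map_prod ψ hψ r Fr.pi (fun _ => 1)
    simp only [ZMod.val_one, pow_one, one_mul] at h1
    exact h1

open Classical in
theorem ang_T (ψ : kˣ → ZMod 2) (hψ : ∀ a b, ψ (a * b) = ψ a + ψ b) (W : Finset Fr.sys.P) :
    ∑ y : Fr.sys.T, ∑ r ∈ W.powerset, sg (ψ (rep Fr (y, r))) =
      if (∀ u : Fr.sys.T, ψ (rep Fr (u, ∅)) = 0) ∧ ∀ q ∈ W, ψ (rep Fr (0, {q})) = 0
        then 2 ^ (Fr.sys.m + W.card) else 0 := by
  have h1 : ∑ y : Fr.sys.T, ∑ r ∈ W.powerset, sg (ψ (rep Fr (y, r))) =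
      (∑ y : Fr.sys.T, sg (y ⬝ᵥ (fun j => ψ (Fr.u j)))) *
        ∑ r ∈ W.powerset, sg (∑ p ∈ r, ψ (Fr.pi p)) := by
    rw [Finset.sum_mul_sum]
    refine Finset.sum_congr rfl fun y _ => Finset.sum_congr rfl fun r _ => ?_
    rw [ang_rep Fr ψ hψ, sg_add]
  have h2 : (∀ u : Fr.sys.T, ψ (rep Fr (u, ∅)) = 0) ↔
      (fun j => ψ (Fr.u j)) = (0 : Fr.sys.T) := by
    constructor
    · intro h
      funext j
      have h3 := h (Pi.single j 1)
      rw [ang_rep Fr ψ hψ, Finset.sum_empty, add_zero, single_dotProduct, one_mul] at h3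
      exact h3
    · intro h u
      rw [ang_rep Fr ψ hψ, Finset.sum_empty, add_zero, h, dotProduct_zero]
  have h3 : (∀ q ∈ W, ψ (rep Fr (0, {q})) = 0) ↔ ∀ q ∈ W, ψ (Fr.pi q) = 0 := by
    refine forall₂_congr fun q _ => ?_
    rw [ang_rep Fr ψ hψ, zero_dotProduct, zero_add, Finset.sum_singleton]
  rw [h1, cls_sum_T, cls_sum_y]
  by_cases h4 : ∀ u : Fr.sys.T, ψ (rep Fr (u, ∅)) = 0
  · rw [if_pos (h2.1 h4)]
    by_cases h5 : ∀ q ∈ W, ψ (rep Fr (0, {q})) = 0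
    · rw [if_pos (h3.1 h5), if_pos ⟨h4, h5⟩, pow_add]
    · rw [if_neg fun h6 => h5 (h3.2 h6), if_neg fun h6 => h5 h6.2, mul_zero]
  · rw [if_neg fun h6 => h4 (h2.2 h6), zero_mul, if_neg fun h6 => h4 h6.1]

/-! ### local classes -/

theorem ang_comm {M : Type} [CommGroup M] (a b c d e : M) :
    a * b * e * (c * d * e) = a * c * (b * d) * (e * e) := by
  rw [mul_mul_mul_comm (a * b) e (c * d) e, mul_mul_mul_comm a b c d]

theorem ang_comm2 {M : Type} [CommGroup M] (a b s t e : M) :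
    a * t ^ 2 * (b * s ^ 2) * e ^ 2 = a * b * (t * s * e) ^ 2 := by
  rw [mul_mul_mul_comm a (t ^ 2) b (s ^ 2), mul_pow, mul_pow, mul_assoc (a * b)]

theorem ang_comm3 {M : Type} [CommGroup M] (a b c e : M) :
    e * (a * c) * (e * (b * c)) = a * b * (c * e * (c * e)) := by
  rw [mul_left_comm e a c, mul_left_comm e b c, mul_mul_mul_comm a (e * c) b (e * c),
    mul_comm e c]

theorem ang_cl_uniq (κ : kˣ) (y z y' z' : Fr.sys.T)
    (h : ∀ v ∈ pls Fr.S, LocP v ((cl Fr y z * κ : kˣ) : k))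
    (h' : ∀ v ∈ pls Fr.S, LocP v ((cl Fr y' z' * κ : kˣ) : k)) : y = y' ∧ z = z' := by
  obtain ⟨t, ht⟩ := NFrm_prod_add Fr.u y y'
  obtain ⟨s, hs⟩ := NFrm_prod_add Fr.w z z'
  have h1 := Fr.ind (y + y') (z + z') fun v hv => by
    have h2 := ang_loc_mul v _ _ (h v hv) (h' v hv)
    refine ang_loc_div v _ (t * s * κ) ?_
    have e : cl Fr y z * κ * (cl Fr y' z' * κ) =
        (∏ j, Fr.u j ^ ((y + y') j).val) * (∏ j, Fr.w j ^ ((z + z') j).val) *
          (t * s * κ) ^ 2 := by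
      have e1 : cl Fr y z * κ * (cl Fr y' z' * κ) =
          ((∏ j, Fr.u j ^ (y j).val) * ∏ j, Fr.u j ^ (y' j).val) *
            ((∏ j, Fr.w j ^ (z j).val) * ∏ j, Fr.w j ^ (z' j).val) * κ ^ 2 := by
        unfold cl
        rw [pow_two]
        exact ang_comm _ _ _ _ _
      rw [e1, ht, hs]
      exact ang_comm2 _ _ _ _ _
    rw [← e]
    exact h2
  have h3 : ∀ a b : ZMod 2, a + b = 0 → a = b := by decide
  refine ⟨funext fun j => h3 _ _ (congrFun h1.1 j), funext fun j => h3 _ _ (congrFun h1.2 j)⟩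

/-- the local class of `rep (uv, e)` -/
theorem ang_cl_ex (κ : kˣ) : ∃ y z : Fr.sys.T, ∀ v ∈ pls Fr.S, LocP v ((cl Fr y z * κ : kˣ) : k) := by
  obtain ⟨y, z, h⟩ := Fr.gen fun _ => κ
  refine ⟨y, z, fun v hv => ?_⟩
  have h1 := h v hv
  have e : cl Fr y z * κ = κ * (∏ j, Fr.u j ^ (y j).val) * ∏ j, Fr.w j ^ (z j).val := by
    unfold cl
    rw [mul_comm, mul_assoc]
  rw [e]
  exact h1

theorem ang_uv_uniq (κ : kˣ) (e : Finset Fr.sys.P) (u u' : Fr.sys.T)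
    (h : ∀ v ∈ pls Fr.S, LocP v ((κ * rep Fr (u, e) : kˣ) : k))
    (h' : ∀ v ∈ pls Fr.S, LocP v ((κ * rep Fr (u', e) : kˣ) : k)) : u = u' := by
  obtain ⟨t, ht⟩ := NFrm_prod_add Fr.u u u'
  have h1 := Fr.ind (u + u') 0 fun v hv => by
    have h2 := ang_loc_mul v _ _ (h v hv) (h' v hv)
    refine ang_loc_div v _ (t * (∏ p ∈ e, Fr.pi p) * κ) ?_
    have e0 : (∏ j, Fr.w j ^ ((0 : Fr.sys.T) j).val) = 1 := by
      refine Finset.prod_eq_one fun j _ => ?_
      rw [Pi.zero_apply, ZMod.val_zero, pow_zero]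
    have e2 : κ * rep Fr (u, e) * (κ * rep Fr (u', e)) =
        (∏ j, Fr.u j ^ ((u + u') j).val) * (∏ j, Fr.w j ^ ((0 : Fr.sys.T) j).val) *
          (t * (∏ p ∈ e, Fr.pi p) * κ) ^ 2 := by
      rw [e0, mul_one]
      unfold rep
      have e3 : κ * ((∏ j, Fr.u j ^ (u j).val) * ∏ p ∈ e, Fr.pi p) *
          (κ * ((∏ j, Fr.u j ^ (u' j).val) * ∏ p ∈ e, Fr.pi p)) =
          ((∏ j, Fr.u j ^ (u j).val) * ∏ j, Fr.u j ^ (u' j).val) *
            ((∏ p ∈ e, Fr.pi p) * κ) ^ 2 := by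
        rw [pow_two]
        exact ang_comm3 _ _ _ _
      show κ * ((∏ j, Fr.u j ^ (u j).val) * ∏ p ∈ e, Fr.pi p) *
          (κ * ((∏ j, Fr.u j ^ (u' j).val) * ∏ p ∈ e, Fr.pi p)) = _
      rw [e3, ht, mul_assoc _ (t ^ 2), ← mul_pow, mul_assoc t]
    rw [← e2]
    exact h2
  have h3 : ∀ a b : ZMod 2, a + b = 0 → a = b := by decide
  exact funext fun j => h3 _ _ (congrFun h1.1 j)

open Classical in
/-- the sum over the local classes which are classes of some `rep (uv, e)` -/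
theorem ang_key (e : Finset Fr.sys.P) (g : kˣ → ℝ)
    (hg : ∀ κ κ' : kˣ, (∀ v ∈ pls Fr.S, LocP v ((κ * κ' : kˣ) : k)) → g κ = g κ') :
    ∑ y : Fr.sys.T, ∑ z : Fr.sys.T,
      (if ∃ uv : Fr.sys.T, ∀ v ∈ pls Fr.S, LocP v ((cl Fr y z * rep Fr (uv, e) : kˣ) : k)
        then g (cl Fr y z) else 0) = ∑ uv : Fr.sys.T, g (rep Fr (uv, e)) := by
  choose Y Z hYZ using fun uv : Fr.sys.T => ang_cl_ex Fr (rep Fr (uv, e))
  have h1 : ∑ uv : Fr.sys.T, g (rep Fr (uv, e)) = ∑ t : Fr.sys.T × Fr.sys.T,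
      (if ∃ uv : Fr.sys.T, ∀ v ∈ pls Fr.S, LocP v ((cl Fr t.1 t.2 * rep Fr (uv, e) : kˣ) : k)
        then g (cl Fr t.1 t.2) else 0) := by
    refine Finset.sum_of_injOn (fun uv => (Y uv, Z uv)) ?_ (fun _ _ => Finset.mem_univ _) ?_ ?_
    · intro uv _ uv' _ h
      have hy : Y uv = Y uv' := congrArg Prod.fst h
      have hz : Z uv = Z uv' := congrArg Prod.snd h
      refine ang_uv_uniq Fr (cl Fr (Y uv) (Z uv)) e uv uv' (hYZ uv) ?_
      rw [hy, hz]
      exact hYZ uv'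
    · rintro ⟨y, z⟩ - hn
      rw [if_neg]
      rintro ⟨uv, huv⟩
      apply hn
      refine ⟨uv, Finset.mem_coe.2 (Finset.mem_univ _), ?_⟩
      obtain ⟨h2, h3⟩ := ang_cl_uniq Fr (rep Fr (uv, e)) (Y uv) (Z uv) y z (hYZ uv) huv
      exact Prod.ext h2 h3
    · intro uv _
      dsimp only
      rw [if_pos ⟨uv, hYZ uv⟩]
      refine (hg _ _ fun v hv => ?_).symm
      exact hYZ uv v hv
  rw [h1, Fintype.sum_prod_type]

/-- subsets of a disjoint union -/
theorem ang_pow {α : Type} [DecidableEq α] (A B : Finset α) (h : Disjoint A B)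
    (g : Finset α → ℝ) : ∑ e ∈ (A ∪ B).powerset, g e =
      ∑ x ∈ A.powerset, ∑ y ∈ B.powerset, g (x ∪ y) := by
  rw [← Finset.sum_product']
  refine Finset.sum_bij' (fun e _ => (e ∩ A, e ∩ B)) (fun t _ => t.1 ∪ t.2) ?_ ?_ ?_ ?_ ?_
  · intro e _
    rw [Finset.mem_product, Finset.mem_powerset, Finset.mem_powerset]
    exact ⟨Finset.inter_subset_right, Finset.inter_subset_right⟩
  · rintro ⟨x, y⟩ ht
    rw [Finset.mem_product, Finset.mem_powerset, Finset.mem_powerset] at ht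
    rw [Finset.mem_powerset]
    exact Finset.union_subset_union ht.1 ht.2
  · intro e he
    rw [Finset.mem_powerset] at he
    show e ∩ A ∪ e ∩ B = e
    rw [← Finset.inter_union_distrib_left]
    exact Finset.inter_eq_left.2 he
  · rintro ⟨x, y⟩ ht
    rw [Finset.mem_product, Finset.mem_powerset, Finset.mem_powerset] at ht
    obtain ⟨hx, hy⟩ := ht
    have e1 : (x ∪ y) ∩ A = x := by
      rw [Finset.union_inter_distrib_right, Finset.inter_eq_left.2 hx,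
        Finset.disjoint_iff_inter_eq_empty.1 (Finset.disjoint_of_subset_left hy h.symm),
        Finset.union_empty]
    have e2 : (x ∪ y) ∩ B = y := by
      rw [Finset.union_inter_distrib_right, Finset.inter_eq_left.2 hy,
        Finset.disjoint_iff_inter_eq_empty.1 (Finset.disjoint_of_subset_left hx h),
        Finset.empty_union]
    exact Prod.ext e1 e2
  · intro e he
    rw [Finset.mem_powerset] at he
    show g e = g (e ∩ A ∪ e ∩ B)
    rw [← Finset.inter_union_distrib_left, Finset.inter_eq_left.2 he]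

end

end Pool.Agent.D8
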