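import Pool.Agent.D8.AStm
import Pool.Agent.H32.MQ.HBase
import Pool.Agent.H98.MF.LhTauK
import Pool.Agent.H98.MF.C.H0

/-!
# The dihedral group of order 16 over a number field: normal second bits and twists (row AT1)
-/

set_option autoImplicit false

open scoped BigOperators
open NumberField IsDedekindDomain

namespace Pool.Agent.D8

open Pool.Agent.H98.MF
open Pool.Agent.H32.MQ (El rep co)
open Pool.Agent.H98.ML (Dt Ext)

/-- the extension of order eight -/
noncomputable def anD : Dt where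
  r := 2
  s := 1
  β := LinearMap.mk₂ (ZMod 2) (fun v w => fun _ => v 0 * w 1)
    (fun v v' w => by funext i; simp only [Pi.add_apply]; ring)
    (fun c v w => by funext i; simp only [Pi.smul_apply, smul_eq_mul]; ring)
    (fun v w w' => by funext i; simp only [Pi.add_apply]; ring)
    (fun c v w => by funext i; simp only [Pi.smul_apply, smul_eq_mul]; ring)
  spz := by
    rw [eq_top_iff]
    intro x _
    have h1 : x = x 0 • (fun _ : Fin 1 => (1 : ZMod 2)) := by
      funext i
      rw [Pi.smul_apply, smul_eq_mul, mul_one, Subsingleton.elim i 0]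
    rw [h1]
    refine Submodule.smul_mem _ _ (Submodule.subset_span ⟨fun _ => 1, ?_⟩)
    funext i
    simp

section

variable {k : Type} [Field k] [NumberField k]

/-- the homomorphism to the group of order eight -/
noncomputable def anRho {a b : kˣ} {f : Gm k → ZMod 2} (h : IsF a b f) : Gm k →* Ext anD :=
  MonoidHom.mk' (fun σ => ⟨(![chi (a : k) σ, chi (b : k) σ] : Fin 2 → ZMod 2),
    (fun _ : Fin 1 => f σ)⟩) (fun σ τ => by
    apply Ext.ext
    · show (![chi (a : k) (σ * τ), chi (b : k) (σ * τ)] : Fin 2 → ZMod 2) =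
        ![chi (a : k) σ, chi (b : k) σ] + ![chi (a : k) τ, chi (b : k) τ]
      rw [chiM_hom, chiM_hom]
      funext i
      fin_cases i <;> rfl
    · show (fun _ : Fin 1 => f (σ * τ)) = (fun _ : Fin 1 => f σ) + (fun _ : Fin 1 => f τ) +
        (fun _ : Fin 1 => chi (a : k) σ * chi (b : k) τ)
      rw [h.hom]
      rfl)

theorem anRho_lc {a b : kˣ} {f : Gm k → ZMod 2} (h : IsF a b f) :
    IsLocallyConstant (anRho h) := by
  have h1 : IsLocallyConstant fun σ : Gm k => ((chi (a : k) σ, chi (b : k) σ), f σ) :=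
    ((chiM_lc (a : k)).prodMk (chiM_lc (b : k))).prodMk h.lc
  exact h1.comp fun t => (⟨(![t.1.1, t.1.2] : Fin 2 → ZMod 2), (fun _ : Fin 1 => t.2)⟩ : Ext anD)

/-- only finitely many tame generators are charged -/
theorem an_fin (Fr : Frm k) (Rk : RxF k) {a b : kˣ} {f : Gm k → ZMod 2} (h : IsF a b f) :
    {p : Fr.sys.P | f (Rk.tau (Fr.pl p)) ≠ 0}.Finite := by
  refine (Fr.tau_finite Rk.toRx (anRho h) (anRho_lc h)).subset fun p hp hp1 => hp ?_
  have h1 := congrArg Ext.z hp1
  exact congrFun h1 (0 : Fin 1)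

theorem an_chi_rep (Fr : Frm k) (Rk : RxF k) (c : El Fr.sys) (p : Fr.sys.P) :
    chi (rep Fr c : k) (Rk.tau (Fr.pl p)) = (open Classical in if p ∈ c.2 then 1 else 0) := by
  classical
  rw [Rk.chi _ (Pool.Agent.H32.MQ.hb_two Fr p), Pool.Agent.H32.MQ.h_repO Fr c p]
  split_ifs
  · exact Int.cast_one
  · exact Int.cast_zero

/-- classes modulo squares determine the quadratic character -/
theorem an_chi_sq {x y : kˣ} (h : IsSquare (x * y)) (σ : Gm k) :
    chi (x : k) σ = chi (y : k) σ := by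
  obtain ⟨z, hz⟩ := h
  have h1 := Pool.Agent.H98.MF.B.chi_mul_units x y σ
  rw [hz] at h1
  have h2 : (((z * z : kˣ) : kˣ) : k) = (z : k) ^ 2 := by
    rw [Units.val_mul]
    ring
  rw [h2, Pool.Agent.H98.MF.B.chi_sq] at h1
  have h3 : ∀ s t : ZMod 2, 0 = s + t → s = t := by decide
  exact h3 _ _ h1

/-- Row AT1: normal second bits -/
theorem anor (Fr : Frm k) (Rk : RxF k) (hS : SaSl k) (hK : SaKu k) : SaNor Fr Rk := by
  classical
  intro a b hab
  obtain ⟨f0, hf0⟩ := (hS a b).2 hab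
  set s : Finset Fr.sys.P := (an_fin Fr Rk hf0).toFinset with hs
  refine ⟨fun σ => f0 σ + chi (rep Fr (0, s) : k) σ, (hK a b f0 _ hf0).2 ⟨_, fun σ => rfl⟩,
    fun p _ => ?_⟩
  show f0 (Rk.tau (Fr.pl p)) + chi (rep Fr (0, s) : k) (Rk.tau (Fr.pl p)) = 0
  rw [an_chi_rep]
  have h3 : ∀ t : ZMod 2, t ≠ 0 → t + 1 = 0 := by decide
  by_cases hp : p ∈ s
  · rw [if_pos hp]
    have h4 : f0 (Rk.tau (Fr.pl p)) ≠ 0 := by
      rw [hs, Set.Finite.mem_toFinset] at hp
      exact hp
    exact h3 _ h4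
  · rw [if_neg hp, add_zero]
    by_contra h4
    refine hp ?_
    rw [hs, Set.Finite.mem_toFinset]
    exact h4

/-- Row AT1: the second bits ramified only in a set -/
theorem ator (Fr : Frm k) (Rk : RxF k) (hK : SaKu k) (_hI : SaKuI k) : SaTor Fr Rk := by
  classical
  intro a b W f f' hf
  constructor
  · intro hf'
    obtain ⟨t, ht⟩ := (hK a b f f' hf.1).1 hf'.1
    have h1 : ∀ σ : Gm k, chi (t : k) σ = chi (rep Fr (co Fr t) : k) σ := fun σ =>
      an_chi_sq (Pool.Agent.H32.MQ.h_co Fr t) σ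
    refine ⟨(co Fr t).1, (co Fr t).2, fun p hp => ?_, fun σ => ?_⟩
    · by_contra hpW
      have h2 := ht (Rk.tau (Fr.pl p))
      rw [hf'.2 p hpW, hf.2 p (Finset.notMem_empty p), h1, an_chi_rep, if_pos hp,
        zero_add] at h2
      exact zero_ne_one h2
    · rw [ht σ, h1 σ]
  · rintro ⟨y, r, hr, hfr⟩
    refine ⟨(hK a b f f' hf.1).2 ⟨_, hfr⟩, fun p hp => ?_⟩
    rw [hfr, hf.2 p (Finset.notMem_empty p), an_chi_rep, if_neg fun h => hp (hr h), add_zero]

/-- Row AT1: uniqueness -/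
theorem atorU (Fr : Frm k) (hI : SaKuI k) : SaTorU Fr := by
  intro y y' r r' h
  have h1 := Pool.Agent.H32.MQ.h_coU Fr (y, r) (y', r') (hI _ _ h)
  exact ⟨congrArg Prod.fst h1, congrArg Prod.snd h1⟩

end

end Pool.Agent.D8
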