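import Pool.Agent.D8.AStm
import Pool.Agent.H98.MF.C.Main
import Pool.Agent.H98.MF.NNin
import Pool.Agent.H98.MF.ChiM

/-!
# The dihedral group of order 16 over a number field: the obstruction in terms of symbols
-/

set_option autoImplicit false

open scoped BigOperators
open NumberField IsDedekindDomain

namespace Pool.Agent.D8

open Pool.Agent.H98.MF

section

variable {k : Type} [Field k] [NumberField k]

/-- the unit `2` -/
private noncomputable def obU (k : Type) [Field k] [NumberField k] : kˣ :=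
  Units.mk0 (2 : k) two_ne_zero

private theorem obU_val : ((obU k : kˣ) : k) = 2 := rfl

private theorem ob_zm (z : ZMod 2) : z ≠ 0 → z = 1 := by
  revert z; decide

private theorem ob_v1 (x t : kˣ) : (![(2 : k), 2 * x * t] : Fin 2 → k) =
    fun i => ((![obU k, obU k * x * t] : Fin 2 → kˣ) i : k) := by
  funext i
  fin_cases i
  · simp [obU_val]
  · simp [obU_val]

private theorem ob_v2 (a b : kˣ) : (![(b : k), -(a * b)] : Fin 2 → k) =
    fun i => ((![b, -(a * b)] : Fin 2 → kˣ) i : k) := by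
  funext i
  fin_cases i
  · simp
  · simp

private theorem ob_triv (v : Pl k) {r : ℕ} (a b : Fin r → kˣ) :
    Triv (DecP v) (fun i => (a i : k)) (fun i => (b i : k)) ↔
      ∑ i, hv v (a i : k) (b i : k) = 0 := by
  rcases v with P | φ
  · exact (B.lin k).triv P a b
  · exact (B.lin k).trivR φ a b

private theorem ob_triv2 (v : Pl k) (a b x t : kˣ) :
    Triv (DecP v) ![(2 : k), 2 * x * t] ![(b : k), -(a * b)] ↔
      hv v (2 : k) (b : k) + hv v (2 * x * t : k) (-(a * b) : k) = 0 := by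
  rw [ob_v1, ob_v2, ob_triv, Fin.sum_univ_two]
  simp [obU_val]

private theorem ob_hvl (v : Pl k) (a b c : kˣ) :
    hv v ((a * b : kˣ) : k) (c : k) = hv v (a : k) (c : k) + hv v (b : k) (c : k) := by
  rw [(B.lin k).symm v (a * b) c, (B.lin k).mulR v c a b, (B.lin k).symm v c a,
    (B.lin k).symm v c b]

private theorem ob_iff (v : Pl k) (a b : kˣ) (f : Gm k → ZMod 2) :
    ob v a b f = 0 ↔ ∃ h, IsH (DecP v) a b f h := by
  unfold ob
  by_cases h : ∃ h, IsH (DecP v) a b f h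
  · rw [if_pos h]
    exact ⟨fun _ => h, fun _ => rfl⟩
  · rw [if_neg h]
    exact ⟨fun h1 => absurd h1 (by decide), fun h1 => absurd h1 h⟩

/-- AC7 -/
theorem aob (k : Type) [Field k] [NumberField k] (h3 : SaTriv k) : SaOb k := by
  intro a b x t y f ha hθ v
  have h1 := (ob_iff v a b (fun σ => f σ + chi (t : k) σ)).trans
    ((h3 a b x t y f ha hθ (DecP v)).trans (ob_triv2 v a b x t))
  by_cases h : hv v (2 : k) (b : k) + hv v (2 * x * t : k) (-(a * b) : k) = 0
  · rw [h]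
    exact h1.2 h
  · rw [ob_zm _ h]
    exact ob_zm _ fun h2 => h (h1.1 h2)

/-- normal form of the second bits -/
private theorem ob_nf (hT : SaTh k) (hR : SaRep k) (hK : SaKu k) (hS : SaSl k)
    {a b : kˣ} {f : Gm k → ZMod 2} (hf : IsF a b f) :
    ∃ (x t0 : kˣ) (y : k) (f0 : Gm k → ZMod 2), (a : k) = (x : k) ^ 2 - b * y ^ 2 ∧
      IsTh b (x : k) y f0 ∧ f = fun σ => f0 σ + chi (t0 : k) σ := by
  obtain ⟨x, y, ha⟩ := hR a b ((hS a b).1 ⟨f, hf⟩)
  obtain ⟨f0, hθ, hf0⟩ := hT a b x y ha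
  obtain ⟨t0, ht0⟩ := (hK a b f0 f hf0).1 hf
  exact ⟨x, t0, y, f0, ha, hθ, funext ht0⟩

/-- AC8 -/
theorem aobT (k : Type) [Field k] [NumberField k] (hT : SaTh k) (hR : SaRep k) (hK : SaKu k)
    (hS : SaSl k) (h : SaOb k) : SaObT k := by
  intro a b t f hf v
  obtain ⟨x, t0, y, f0, ha, hθ, rfl⟩ := ob_nf hT hR hK hS hf
  have e1 : (fun σ : Gm k => f0 σ + chi (t0 : k) σ + chi (t : k) σ) =
      fun σ => f0 σ + chi ((t0 * t : kˣ) : k) σ := by
    funext σ
    rw [M6a.chi_mul, add_assoc]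
  have h1 := h a b x (t0 * t) y f0 ha hθ v
  have h2 := h a b x t0 y f0 ha hθ v
  have e2 : hv v (2 * x * ((t0 * t : kˣ) : k) : k) (-(a * b) : k) =
      hv v (2 * x * t0 : k) (-(a * b) : k) + hv v (t : k) (-(a * b) : k) := by
    have h3 := ob_hvl v (obU k * x * t0) t (-(a * b))
    simp only [Units.val_mul, Units.val_neg, obU_val] at h3
    rw [Units.val_mul, ← h3]
    congr 1
    ring
  show ob v a b (fun σ : Gm k => f0 σ + chi (t0 : k) σ + chi (t : k) σ) = _
  rw [e1, h1, h2, e2, add_assoc]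

private theorem ob_mono {D D' : Subgroup (Gm k)} (h : D' ≤ D) {r : ℕ} {a b : Fin r → k}
    (hD : Triv D a b) : Triv D' a b := by
  obtain ⟨f, hf, h1⟩ := hD
  exact ⟨f, hf, fun σ hσ τ hτ => h1 σ (h hσ) τ (h hτ)⟩

/-- AC9 -/
theorem aobG (k : Type) [Field k] [NumberField k] (hT : SaTh k) (hR : SaRep k) (hK : SaKu k)
    (hS : SaSl k) (h3 : SaTriv k) : SaObG k := by
  intro a b f hf
  obtain ⟨x, t0, y, f0, ha, hθ, rfl⟩ := ob_nf hT hR hK hS hf
  have h4 := h3 a b x t0 y f0 ha hθ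
  rw [h4 ⊤]
  constructor
  · intro h5 v
    exact (ob_iff v a b _).2 ((h4 (DecP v)).2 (ob_mono le_top h5))
  · intro h5
    have h6 : ∀ v : Pl k, Triv (DecP v) ![(2 : k), 2 * x * t0] ![(b : k), -(a * b)] :=
      fun v => (h4 (DecP v)).1 ((ob_iff v a b _).1 (h5 v))
    rw [ob_v1, ob_v2] at h6 ⊢
    exact B.hpSt (nin k) 2 _ _ (fun P => h6 (Sum.inl P)) (fun φ => h6 (Sum.inr φ))

/-- AC10 -/
theorem aobS (k : Type) [Field k] [NumberField k] (hT : SaTh k) (hR : SaRep k) (hK : SaKu k)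
    (hS : SaSl k) (h : SaOb k) : SaObS k := by
  classical
  intro a b f hf T hTv
  obtain ⟨x, t0, y, f0, ha, hθ, rfl⟩ := ob_nf hT hR hK hS hf
  obtain ⟨S, hS2⟩ := B.ord_finite' ({obU k, b, obU k * x * t0, -(a * b)} : Finset kˣ)
  have hu : ∀ c ∈ ({obU k, b, obU k * x * t0, -(a * b)} : Finset kˣ), c ∈ US (T ∪ S) :=
    fun c hc => B.mem_US.2 fun Q hQ => hS2 Q (fun h' => hQ (Finset.mem_union_right _ h')) c hc
  have hsub : pls T ⊆ pls (T ∪ S) := B.pls_mono Finset.subset_union_left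
  rw [Finset.sum_subset hsub fun v _ hv => ?_]
  · have h2 : ∀ P : HeightOneSpectrum (𝓞 k), 0 < ord P (2 : k) → P ∈ T ∪ S := by
      intro P hP
      by_contra hc
      have h5 := hS2 P (fun h' => hc (Finset.mem_union_right _ h')) (obU k) (by simp)
      rw [obU_val] at h5
      omega
    have r1 := B.recSt (nin k) (T ∪ S) h2 (obU k) (hu _ (by simp)) b (hu _ (by simp))
    have r2 := B.recSt (nin k) (T ∪ S) h2 (obU k * x * t0) (hu _ (by simp)) (-(a * b))
      (hu _ (by simp))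
    have e : ∀ v : Pl k, ob v a b (fun σ => f0 σ + chi (t0 : k) σ) =
        hv v (obU k : k) (b : k) +
          hv v ((obU k * x * t0 : kˣ) : k) ((-(a * b) : kˣ) : k) := by
      intro v
      rw [h a b x t0 y f0 ha hθ v]
      simp [obU_val]
    rw [Finset.sum_congr rfl fun v _ => e v, Finset.sum_add_distrib, r1, r2, add_zero]
  · rcases v with P | φ
    · exact hTv P fun hP => hv (B.inl_mem_pls.2 hP)
    · exact absurd (B.inr_mem_pls T φ) hv

end

end Pool.Agent.D8
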