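import Pool.Agent.D8.AStm
import Pool.Agent.H98.MF.LocTriv
import Pool.Agent.H98.MF.L.KIn
import Pool.Agent.H98.MF.L.Sqr
import Pool.Agent.H98.MF.C.Lin

/-!
# Project D8, row AC6: the obstruction at ramified primes
-/

set_option autoImplicit false

open scoped BigOperators
open NumberField IsDedekindDomain

namespace Pool.Agent.D8

open Pool.Agent.H98.MF
open Pool.Agent.H98.MK (sg)

/-! ### bits -/

theorem aob_bitsB : ∀ a a' f f' h h' h'' : ZMod 2,
    (E8.mk4 (a + a') 0 (f + f') h'' = E8.mk4 a 0 f h * E8.mk4 a' 0 f' h') ↔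
      h'' = h + h' + (f * f' + a * f') := by
  decide

theorem aob_bitsA : ∀ b b' f f' h h' h'' : ZMod 2,
    (E8.mk4 0 (b + b') (f + f') h'' = E8.mk4 0 b f h * E8.mk4 0 b' f' h') ↔
      h'' = h + h' + (f * f' + b * f') := by
  decide

section

variable {k : Type} [Field k] [NumberField k]

theorem aob_ord_zpow (P : HeightOneSpectrum (𝓞 k)) (x : k) (m : ℤ) :
    ord P (x ^ m) = m * ord P x := by
  cases m with
  | ofNat n =>
    rw [Int.ofNat_eq_natCast, zpow_natCast, ord_pow]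
  | negSucc n =>
    rw [zpow_negSucc, ord_inv, ord_pow, Int.negSucc_eq]
    push_cast
    ring

theorem aob_chi_mul (a b : kˣ) (σ : Gm k) :
    chi ((a * b : kˣ) : k) σ = chi (a : k) σ + chi (b : k) σ := by
  rw [Units.val_mul]
  exact chi_mul a.ne_zero b.ne_zero σ

/-- one of the two characters vanishes on the decomposition group -/
theorem aob_loc {a b : kˣ} {v : Pl k} (h : LocP v (a : k) ∨ LocP v (b : k)) :
    (∀ σ ∈ DecP v, chi (a : k) σ = 0) ∨ ∀ σ ∈ DecP v, chi (b : k) σ = 0 := by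
  rcases h with h | h
  · exact Or.inl (((kin k).one v a).2 h)
  · exact Or.inr (((kin k).one v b).2 h)

theorem aob_add {a b : kˣ} {v : Pl k} {f : Gm k → ZMod 2} (hf : IsF a b f)
    (h : LocP v (a : k) ∨ LocP v (b : k)) : ∀ σ ∈ DecP v, ∀ τ ∈ DecP v,
      f (σ * τ) = f σ + f τ := by
  intro σ hσ τ hτ
  rw [hf.hom σ τ]
  rcases aob_loc h with h1 | h1
  · rw [h1 σ hσ, zero_mul, add_zero]
  · rw [h1 τ hτ, mul_zero, add_zero]

/-- the local condition for third bits -/
theorem aob_isH {a b c : kˣ} {v : Pl k} {f : Gm k → ZMod 2} (hf : IsF a b f)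
    (h : LocP v (a : k) ∨ LocP v (b : k)) (hc : ∀ σ ∈ DecP v, f σ = chi (c : k) σ)
    (g : Gm k → ZMod 2) : IsH (DecP v) a b f g ↔
      IsLocallyConstant g ∧ ∀ σ ∈ DecP v, ∀ τ ∈ DecP v, g (σ * τ) = g σ + g τ +
        (chi (c : k) σ * chi (c : k) τ + chi ((a * b : kˣ) : k) σ * chi (c : k) τ) := by
  unfold IsH
  refine and_congr_right fun _ => forall₂_congr fun σ hσ => forall₂_congr fun τ hτ => ?_
  have h1 := aob_add hf h σ hσ τ hτ
  rw [chi_hom, chi_hom, h1, aob_chi_mul, hc σ hσ, hc τ hτ]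
  rcases aob_loc h with h2 | h2
  · rw [h2 σ hσ, h2 τ hτ, zero_add, zero_add]
    exact aob_bitsA _ _ _ _ _ _ _
  · rw [h2 σ hσ, h2 τ hτ, add_zero, add_zero]
    exact aob_bitsB _ _ _ _ _ _ _

theorem aob_triv (v : Pl k) {r : ℕ} (a b : Fin r → kˣ) :
    Triv (DecP v) (fun i => (a i : k)) (fun i => (b i : k)) ↔
      ∑ i, hv v (a i : k) (b i : k) = 0 := by
  rcases v with P | φ
  · exact (B.lin k).triv P a b
  · exact (B.lin k).trivR φ a b

/-- the symbol of `c` with itself -/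
theorem aob_self (v : Pl k) (c : kˣ) : hv v (c : k) (c : k) = hv v (c : k) ((-1 : kˣ) : k) := by
  have h1 : hv v (c : k) ((-c : kˣ) : k) = 0 := by
    refine (B.lin k).nm v c (-c) 0 1 ?_
    rw [Units.val_neg]
    ring
  have h2 := (B.lin k).mulR v c (-1) (-c)
  have h3 : (-1 : kˣ) * (-c) = c := by rw [neg_mul_neg, one_mul]
  rw [h3, h1, add_zero] at h2
  exact h2

end

/-- the local character -/
theorem achr (k : Type) [Field k] [NumberField k] : SaChr k := by
  intro a b v f hf h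
  exact (kin k).two v f hf.lc (aob_add hf h)

/-- a hom on the decomposition group -/
theorem aobH (k : Type) [Field k] [NumberField k] : SaObH k := by
  intro a b c v f hf h hc
  have e1 : (∃ g, IsH (DecP v) a b f g) ↔ hv v (c : k) ((-(a * b) : kˣ) : k) = 0 := by
    have e2 : (∃ g, IsH (DecP v) a b f g) ↔ Triv (DecP v)
        (fun i => ((![c, a * b] : Fin 2 → kˣ) i : k)) (fun i => ((![c, c] : Fin 2 → kˣ) i : k)) := by
      unfold Triv
      refine exists_congr fun g => ?_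
      rw [aob_isH hf h hc]
      refine and_congr_right fun _ => forall₂_congr fun σ _ => forall₂_congr fun τ _ => ?_
      rw [Fin.sum_univ_two]
      rfl
    rw [e2, aob_triv, Fin.sum_univ_two]
    have e3 : hv v (c : k) ((-(a * b) : kˣ) : k) =
        hv v (c : k) (c : k) + hv v ((a * b : kˣ) : k) (c : k) := by
      have h2 := (B.lin k).mulR v c (-1) (a * b)
      have h3 : (-1 : kˣ) * (a * b) = -(a * b) := by rw [neg_mul, one_mul]
      rw [h3, ← aob_self, (B.lin k).symm v c (a * b)] at h2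
      exact h2
    rw [e3]
    exact Iff.rfl
  have e4 : (-((a : k) * b)) = ((-(a * b) : kˣ) : k) := by
    rw [Units.val_neg, Units.val_mul]
  rw [e4]
  unfold ob
  by_cases h0 : hv v (c : k) ((-(a * b) : kˣ) : k) = 0
  · rw [if_pos (e1.2 h0), h0]
  · rw [if_neg (fun hg => h0 (e1.1 hg))]
    have key : ∀ x : ZMod 2, x ≠ 0 → 1 = x := by decide
    exact key _ h0

section

variable {k : Type} [Field k] [NumberField k] (Fr : Frm k)

/-- the symbol of an even and an odd element -/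
theorem aob_hs (p : Fr.sys.P) (x y : kˣ) (hx : Even (ord (Fr.pl p) (x : k)))
    (hy : Odd (ord (Fr.pl p) (y : k))) :
    hs (Fr.pl p) (x : k) (y : k) = qr (x : k) (Fr.pl p) := by
  obtain ⟨m, hm⟩ := hx
  set s : kˣ := Fr.pi p ^ (-m) with hs'
  have hs1 : ord (Fr.pl p) ((s : kˣ) : k) = -m := by
    rw [hs', Units.val_zpow_eq_zpow_val, aob_ord_zpow, Fr.pi_self, mul_one]
  have h1 : ord (Fr.pl p) ((x * s ^ 2 : kˣ) : k) = 0 := by
    rw [Units.val_mul, Units.val_pow_eq_pow_val, ord_mul _ x.ne_zero (pow_ne_zero 2 s.ne_zero),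
      ord_pow, hs1, hm]
    push_cast
    ring
  have h2 := (B.lin k).unt (Fr.pl p) (Fr.ord_pl_two p) (x * s ^ 2) y h1
  have h3 : hs (Fr.pl p) ((x * s ^ 2 : kˣ) : k) (y : k) = hs (Fr.pl p) (x : k) (y : k) := by
    rw [Frm.hs_mulL (B.lin k), pow_two, Frm.hs_mulL (B.lin k)]
    have key : ∀ u v : ZMod 2, u + (v + v) = u := by decide
    exact key _ _
  have h4 : ((ord (Fr.pl p) (y : k) : ℤ) : ZMod 2) = 1 := by
    obtain ⟨n, hn⟩ := hy
    rw [hn]
    push_cast
    have h22 : (2 : ZMod 2) = 0 := by decide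
    rw [h22, zero_mul, zero_add]
  have h5 : qr ((x * s ^ 2 : kˣ) : k) (Fr.pl p) = qr (x : k) (Fr.pl p) := by
    have h6 : LocSq (Fr.pl p) ((x * s ^ 2 : kˣ) : k) ↔ LocSq (Fr.pl p) (x : k) := by
      rw [Units.val_mul, Units.val_pow_eq_pow_val]
      exact locSq_mul_sq _ s.ne_zero _
    unfold qr
    by_cases h7 : LocSq (Fr.pl p) (x : k)
    · rw [if_pos h7, if_pos (h6.2 h7)]
    · rw [if_neg h7, if_neg (fun h8 => h7 (h6.1 h8))]
  rw [← h3, h2, h4, one_mul, h5]

theorem aob_locSq {p : Fr.sys.P} {x y : kˣ} (hx : Even (ord (Fr.pl p) (x : k)))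
    (hy : Odd (ord (Fr.pl p) (y : k))) (h : hs (Fr.pl p) (x : k) (y : k) = 0) :
    LocSq (Fr.pl p) (x : k) := by
  rw [aob_hs Fr p x y hx hy] at h
  unfold qr at h
  by_contra hcon
  rw [if_neg hcon] at h
  exact one_ne_zero h

end

/-- the obstruction at a ramified prime -/
theorem aobF (k : Type) [Field k] [NumberField k] (h1 : SaChr k) (h2 : SaObH k) : SaObF k := by
  intro Fr Rk a b f hf p hodd hfτ
  have tf := Rk.tf (Fr.pl p) (Fr.ord_pl_two p)
  have hsab : hs (Fr.pl p) (a : k) (b : k) = 0 := by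
    have e1 := ((B.lin k).triv (Fr.pl p) (fun _ : Fin 1 => a) (fun _ : Fin 1 => b)).1
      ⟨f, hf.lc, fun σ _ τ _ => by
        rw [hf.hom σ τ, Fin.sum_univ_one]⟩
    rwa [Fin.sum_univ_one] at e1
  have hloc : LocP (Sum.inl (Fr.pl p) : Pl k) (a : k) ∨ LocP (Sum.inl (Fr.pl p) : Pl k) (b : k) := by
    rcases Int.even_or_odd (ord (Fr.pl p) (a : k)) with ha | ha
    · left
      exact aob_locSq Fr ha ((Int.odd_add'.1 hodd).2 ha) hsab
    · right
      rw [Frm.hs_symm (B.lin k)] at hsab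
      exact aob_locSq Fr ((Int.odd_add.1 hodd).1 ha) ha hsab
  obtain ⟨c, hc⟩ := h1 a b (Sum.inl (Fr.pl p)) f hf hloc
  have hceven : Even (ord (Fr.pl p) (c : k)) := by
    rcases Int.even_or_odd (ord (Fr.pl p) (c : k)) with he | he
    · exact he
    · have h3 := tf.chi1 (c : k) he
      rw [← hc _ tf.decτ, hfτ] at h3
      exact absurd h3 zero_ne_one
  have h4 := h2 a b c (Sum.inl (Fr.pl p)) f hf hloc hc
  rw [h4, hc _ tf.decφ, (tf.chi0 (c : k) c.ne_zero hceven).2]
  have e4 : (-((a : k) * b)) = ((-(a * b) : kˣ) : k) := by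
    rw [Units.val_neg, Units.val_mul]
  rw [e4]
  refine aob_hs Fr p c (-(a * b)) hceven ?_
  rw [Units.val_neg, ord_neg, Units.val_mul, ord_mul _ a.ne_zero b.ne_zero]
  exact hodd

end Pool.Agent.D8
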