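import Pool.Agent.D8.AObNa

/-!
# The dihedral group of order 16 over a number field: the obstruction at unramified primes
-/

set_option autoImplicit false

open scoped BigOperators
open NumberField IsDedekindDomain

namespace Pool.Agent.D8

open Pool.Agent.H98.MF

section

variable {k : Type} [Field k] [NumberField k] {P : HeightOneSpectrum (𝓞 k)}

theorem obn_so_mul (x y : ZMod 2) : (so (x + y) : Om k) = so x * so y := by
  have h : ∀ z : ZMod 2, z = 0 ∨ z = 1 := by decide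
  have h10 : ¬ ((1 : ZMod 2) = 0) := one_ne_zero
  have h11 : (1 : ZMod 2) + 1 = 0 := by decide
  rcases h x with rfl | rfl <;> rcases h y with rfl | rfl <;> simp [so, h11]

theorem obn_so_sq (x : ZMod 2) : (so x : Om k) * so x = 1 := by
  have h : ∀ z : ZMod 2, z + z = 0 := by decide
  rw [← obn_so_mul, h]
  exact if_pos rfl

theorem obn_chi_act (x : kˣ) (σ : Gm k) :
    σ (Pool.Agent.H98.MF.sq (x : k)) = so (chi (x : k) σ) * Pool.Agent.H98.MF.sq (x : k) := by
  have h : ∀ z : ZMod 2, z = 0 ∨ z = 1 := by decide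
  rcases h (chi (x : k) σ) with h1 | h1
  · rw [h1, (chi_eq_zero_iff (sq_sq (x : k)) σ).1 h1]
    simp [so]
  · rw [h1, (chi_eq_one_iff x.ne_zero (sq_sq (x : k)) σ).1 h1]
    simp [so]

theorem obn_mem_top (z : 𝓞 k) : algebraMap (𝓞 k) (𝓞 (Om k)) z ∈ top P ↔ z ∈ P.asIdeal := by
  rw [← top_comap P]
  exact Iff.rfl

theorem obn_two_notMem (h2 : ord P (2 : k) = 0) : (2 : 𝓞 (Om k)) ∉ top P := by
  intro h
  have h1 : algebraMap (𝓞 k) (𝓞 (Om k)) 2 ∈ top P := by rwa [map_ofNat]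
  rw [obn_mem_top] at h1
  have h3 := (le_ord_iff P (2 : 𝓞 k) 1).2 (by rwa [pow_one])
  have h4 : ((2 : 𝓞 k) : k) = 2 := map_ofNat (algebraMap (𝓞 k) k) 2
  rw [h4, h2] at h3
  rcases h3 with h3 | h3
  · exact two_ne_zero h3
  · exact absurd h3 (by decide)

/-- a tame generator acts on a square root of `x + y √b` as on the square root of `x` -/
theorem obn_tau {τ φ : Gm k} (hτ : TF P τ φ) (h2 : ord P (2 : k) = 0) {a b x : kˣ} {y : k}
    {f : Gm k → ZMod 2} (hab : (a : k) = (x : k) ^ 2 - b * y ^ 2) (hT : IsTh b (x : k) y f)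
    (hf : IsF a b f) (hord : ord P (a : k) = 2 * ord P (x : k)) (hb : chi (b : k) τ = 0) :
    f τ = chi (x : k) τ := by
  obtain ⟨θ, θ', e1, -, e3, -⟩ := hT
  set s : Om k := Pool.Agent.H98.MF.sq (x : k) with hs
  set β : Om k := Pool.Agent.H98.MF.sq (b : k) with hβ
  have hs2 : s ^ 2 = algebraMap k (Om k) (x : k) := sq_sq (x : k)
  have hβ2 : β ^ 2 = algebraMap k (Om k) (b : k) := sq_sq (b : k)
  have hX : algebraMap k (Om k) (x : k) ≠ 0 := sqd_map_ne x.ne_zero
  have hs0 : s ≠ 0 := by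
    intro h0
    rw [h0] at hs2
    exact hX (by rw [← hs2]; ring)
  have hr : ord P ((a : k) / (x : k) ^ 2) = 0 := by
    rw [ord_div P a.ne_zero (pow_ne_zero _ x.ne_zero), hord, ord_pow]
    push_cast
    ring
  obtain ⟨A, Y, hY, hA⟩ := (ord_nonneg_iff P _).1 hr.ge
  have hA' : A ∉ P.asIdeal := by
    intro hmem
    have h3 := (le_ord_iff P A 1).2 (by rwa [pow_one])
    have h4 : (Y : k) ≠ 0 := by
      intro h5
      apply hY
      have h6 : Y = 0 := RingOfIntegers.coe_injective (h5.trans iv_czero.symm)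
      rw [h6]
      exact P.asIdeal.zero_mem
    have h5 : (a : k) / (x : k) ^ 2 ≠ 0 := div_ne_zero a.ne_zero (pow_ne_zero _ x.ne_zero)
    rcases h3 with h3 | h3
    · have h6 : (A : k) = 0 := by rw [h3]; exact iv_czero
      rw [h6] at hA
      exact (mul_ne_zero h5 h4) hA
    · rw [← hA, ord_mul P h5 h4, hr, ord_unit P hY] at h3
      exact absurd h3 (by decide)
  set Y₁ : 𝓞 (Om k) := algebraMap (𝓞 k) (𝓞 (Om k)) Y with hY₁
  set A₁ : 𝓞 (Om k) := algebraMap (𝓞 k) (𝓞 (Om k)) A with hA₁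
  have cY : (Y₁ : Om k) = algebraMap k (Om k) (Y : k) := rfl
  have cA : (A₁ : Om k) = algebraMap k (Om k) (A : k) := rfl
  have hrel : ((θ / s) ^ 2 - 1) ^ 2 = 1 - algebraMap k (Om k) ((a : k) / (x : k) ^ 2) := by
    rw [div_pow, e1, hs2, map_div₀, map_pow, hab, map_sub, map_mul, map_pow, map_pow, ← hβ2]
    field_simp
    ring
  have hAY : algebraMap k (Om k) ((a : k) / (x : k) ^ 2) * (Y₁ : Om k) = (A₁ : Om k) := by
    rw [cY, cA, ← map_mul, hA]
  have key : ((((Y₁ : Om k) * (θ / s)) ^ 2 - (Y₁ : Om k) ^ 2) ^ 2 : Om k) =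
      (((Y₁ ^ 4 - Y₁ ^ 3 * A₁ : 𝓞 (Om k))) : Om k) := by
    have h3 : ((Y₁ ^ 4 - Y₁ ^ 3 * A₁ : 𝓞 (Om k)) : Om k) =
        (Y₁ : Om k) ^ 4 - (Y₁ : Om k) ^ 3 * (A₁ : Om k) := by
      push_cast
      rfl
    rw [h3, ← hAY]
    have h4 : ((((Y₁ : Om k) * (θ / s)) ^ 2 - (Y₁ : Om k) ^ 2) ^ 2 : Om k) =
        (Y₁ : Om k) ^ 4 * (((θ / s) ^ 2 - 1) ^ 2) := by ring
    rw [h4, hrel]
    ring
  have hint : IsIntegral ℤ ((Y₁ : Om k) * (θ / s)) := by
    have h3 : IsIntegral ℤ ((((Y₁ : Om k) * (θ / s)) ^ 2 - (Y₁ : Om k) ^ 2) ^ 2) := by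
      rw [key]
      exact RingOfIntegers.isIntegral_coe _
    have h4 := h3.of_pow two_pos
    have h5 : IsIntegral ℤ ((Y₁ : Om k) ^ 2) := (RingOfIntegers.isIntegral_coe Y₁).pow 2
    have h6 := h4.add h5
    rw [sub_add_cancel] at h6
    exact h6.of_pow two_pos
  set E : 𝓞 (Om k) := ⟨(Y₁ : Om k) * (θ / s), hint⟩ with hE
  have cE : (E : Om k) = (Y₁ : Om k) * (θ / s) := rfl
  have hact : ∀ σ : Gm k, chi (b : k) σ = 0 →
      σ (E : Om k) = so (f σ + chi (x : k) σ) * (E : Om k) := by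
    intro σ hσ
    have hne : (so (chi (x : k) σ) : Om k) ≠ 0 := by
      intro h0
      have := obn_so_sq (k := k) (chi (x : k) σ)
      rw [h0, zero_mul] at this
      exact zero_ne_one this
    rw [cE, map_mul, map_div₀, e3 σ hσ, obn_chi_act x σ, cY, AlgEquiv.commutes, obn_so_mul]
    have h3 : (so (f σ) * θ / (so (chi (x : k) σ) * s) : Om k) =
        so (f σ) * so (chi (x : k) σ) * (θ / s) := by
      rw [div_eq_iff (mul_ne_zero hne hs0)]
      have h4 := obn_so_sq (k := k) (chi (x : k) σ)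
      calc (so (f σ) * θ : Om k) = so (f σ) * (so (chi (x : k) σ) * so (chi (x : k) σ)) *
            (θ / s * s) := by rw [h4, div_mul_cancel₀ _ hs0, mul_one]
        _ = _ := by ring
    rw [h3]
    ring
  have hrelO : (E ^ 2 - Y₁ ^ 2) ^ 2 = Y₁ ^ 4 - Y₁ ^ 3 * A₁ := by
    apply RingOfIntegers.coe_injective
    refine Eq.trans ?_ key
    rw [map_pow, map_sub, map_pow, map_pow]
    rfl
  have hEtop : E ∉ top P := by
    intro hmem
    have h3 : Y₁ ^ 3 * A₁ ∈ top P := by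
      have h4 : Y₁ ^ 3 * A₁ = E * (E * (2 * Y₁ ^ 2 - E ^ 2)) := by linear_combination hrelO
      rw [h4]
      exact Ideal.mul_mem_right _ _ hmem
    rcases (top_prime P).mem_or_mem h3 with h4 | h4
    · have h5 := (top_prime P).mem_of_pow_mem _ h4
      exact hY ((obn_mem_top Y).1 h5)
    · exact hA' ((obn_mem_top A).1 h4)
  have hTwo : Two2 E := by
    refine obn_two2 hf x E fun σ h3 h4 h5 => ?_
    apply RingOfIntegers.coe_injective
    have h6 := hact σ h3
    rw [h4, h5] at h6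
    have h7 : (so (0 + 0) : Om k) = 1 := if_pos (add_zero 0)
    rw [h7, one_mul] at h6
    exact h6
  have hsub := hτ.ine E hTwo
  by_contra hne
  have h3 : f τ + chi (x : k) τ = 1 := by
    have h4 : ∀ u v : ZMod 2, u ≠ v → u + v = 1 := by decide
    exact h4 _ _ hne
  have h4 : τ • E = -E := by
    apply RingOfIntegers.coe_injective
    have h6 := hact τ hb
    rw [h3] at h6
    have h7 : (so 1 : Om k) = -1 := if_neg one_ne_zero
    rw [h7, neg_one_mul] at h6
    exact h6.trans (iv_cneg E).symm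
  rw [h4] at hsub
  have h5 : 2 * E ∈ top P := by
    have h6 : 2 * E = -(-E - E) := by ring
    rw [h6]
    exact (top P).neg_mem hsub
  rcases (top_prime P).mem_or_mem h5 with h6 | h6
  · exact obn_two_notMem h2 h6
  · exact hEtop h6

end

section

variable (k : Type) [Field k] [NumberField k]

theorem aobN (hT : SaTh k) (hR : SaRep k) (hK : SaKu k) (hS : SaSl k) (hO : SaOb k)
    (h1 : SaChr k) (h2 : SaObH k) : SaObN k := by
  intro Fr Rk a b f hf p hea heb hft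
  have hP2 : ord (Fr.pl p) (2 : k) = 0 := Fr.ord_pl_two p
  have htf : TF (Fr.pl p) (Rk.tau (Fr.pl p)) (Rk.phi (Fr.pl p)) := Rk.tf _ hP2
  have hz : ∀ n : ℤ, Even n → (n : ZMod 2) = 0 := fun n hn =>
    (ZMod.intCast_zmod_eq_zero_iff_dvd n 2).2 (by exact_mod_cast hn.two_dvd)
  have hab0 : (a : k) * (b : k) ≠ 0 := mul_ne_zero a.ne_zero b.ne_zero
  have heab : Even (ord (Fr.pl p) (-((a : k) * (b : k)))) := by
    rw [ord_neg, ord_mul _ a.ne_zero b.ne_zero]
    exact hea.add heb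
  have hev : ∀ c : kˣ, chi (c : k) (Rk.tau (Fr.pl p)) = 0 → Even (ord (Fr.pl p) (c : k)) := by
    intro c hc
    by_contra h
    have h3 := htf.chi1 (c : k) (Int.not_even_iff_odd.1 h)
    rw [hc] at h3
    exact zero_ne_one h3
  by_cases hloc : LocP (Sum.inl (Fr.pl p) : Pl k) (a : k) ∨ LocP (Sum.inl (Fr.pl p) : Pl k) (b : k)
  · obtain ⟨c, hc⟩ := h1 a b (Sum.inl (Fr.pl p)) f hf hloc
    rw [h2 a b c (Sum.inl (Fr.pl p)) f hf hloc hc]
    have hcτ : chi (c : k) (Rk.tau (Fr.pl p)) = 0 := (hc _ htf.decτ).symm.trans hft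
    show hs (Fr.pl p) (c : k) (-((a : k) * (b : k))) = 0
    rw [hs_even hP2 c.ne_zero (neg_ne_zero.2 hab0) (hev c hcτ), hz _ heab, zero_mul]
  · rw [not_or] at hloc
    have hna : ¬ LocSq (Fr.pl p) (a : k) := hloc.1
    have hnb : ¬ LocSq (Fr.pl p) (b : k) := hloc.2
    obtain ⟨x, y, hxy⟩ := hR a b ((hS a b).1 ⟨f, hf⟩)
    obtain ⟨g, hg, hgF⟩ := hT a b (x : k) y hxy
    obtain ⟨t, ht⟩ := (hK a b g f hgF).1 hf
    have hfe : f = fun σ => g σ + chi (t : k) σ := funext ht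
    rw [hfe, hO a b x t y g hxy hg]
    have hq : ∀ c : k, ¬ LocSq (Fr.pl p) c → qr c (Fr.pl p) = 1 := by
      intro c hc
      have h3 : ∀ z : ZMod 2, z ≠ 0 → z = 1 := by decide
      exact h3 _ fun h4 => hc ((qr_eq_zero c).1 h4)
    show hs (Fr.pl p) (2 : k) (b : k) +
      hs (Fr.pl p) (2 * (x : k) * (t : k)) (-((a : k) * (b : k))) = 0
    have h20 : (2 : k) ≠ 0 := two_ne_zero
    have hxt0 : 2 * (x : k) * (t : k) ≠ 0 := mul_ne_zero (mul_ne_zero h20 x.ne_zero) t.ne_zero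
    rw [hs_even hP2 h20 b.ne_zero (by rw [hP2]; exact Even.zero), hz _ heb, zero_mul, zero_add,
      hs_symm _ hxt0 (neg_ne_zero.2 hab0), hs_even hP2 (neg_ne_zero.2 hab0) hxt0 heab]
    by_cases hsq : LocSq (Fr.pl p) (-((a : k) * (b : k)))
    · rw [(qr_eq_zero _).2 hsq, mul_zero]
    · obtain ⟨-, hord⟩ := obn_ord hP2 a.ne_zero b.ne_zero hxy hnb hsq
      have h3 := obn_tau htf hP2 hxy hg hgF hord (htf.chi0 (b : k) b.ne_zero heb).1
      have h4 := ht (Rk.tau (Fr.pl p))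
      rw [hft, h3, ← chi_mul x.ne_zero t.ne_zero] at h4
      have h5 : Even (ord (Fr.pl p) ((x : k) * (t : k))) := by
        have := hev (x * t) (by rw [Units.val_mul]; exact h4.symm)
        rwa [Units.val_mul] at this
      rw [mul_assoc, ord_mul _ h20 (mul_ne_zero x.ne_zero t.ne_zero), hP2, zero_add, hz _ h5,
        zero_mul]

end

end Pool.Agent.D8
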