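import Pool.Agent.D8.AOrtB
import Pool.Agent.H32.MQ.HBase
import Pool.Agent.H98.MF.C.Main
import Pool.Agent.H98.MF.NNin

/-!
# The dihedral group of order 16 over a number field: orthogonality relations of the twists
-/

set_option autoImplicit false

open scoped BigOperators
open NumberField IsDedekindDomain

namespace Pool.Agent.D8

open Pool.Agent.H98.MF
open Pool.Agent.H32.MQ (h_repO h_repQ)

section

variable {k : Type} [Field k] [NumberField k] (Fr : Frm k)

/-- orthogonality over the units -/
theorem aortU : SaOrU Fr :=
  aortU_of Fr (B.lin k) (B.recSt (nin k)) (B.duSt (nin k)) (h_repO Fr)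

/-- the condition at a ramified prime, as a symbol -/
theorem aortP : SaOrP Fr :=
  aortP_of (B.lin k) (B.recSt (nin k)) (h_repO Fr) (h_repQ Fr)

end

end Pool.Agent.D8
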