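import Pool.Agent.D8.AStm
import Pool.Agent.H32.MQ.HStm
import Pool.Agent.H98.MF.C.C9

/-!
# The dihedral group of order 16 over a number field: orthogonality relations of the twists,
from the inputs on symbols
-/

set_option autoImplicit false

open scoped BigOperators
open NumberField IsDedekindDomain

namespace Pool.Agent.D8

open Pool.Agent.H98.MF
open Pool.Agent.H32.MQ (El rep co StRepO StRepQ)

section

variable {k : Type} [Field k] [NumberField k] (Fr : Frm k)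

theorem aort_mul (hL : LIn k) (a b c : kˣ) : hS Fr a (b * c) = hS Fr a b + hS Fr a c :=
  B.sy_mul hL Fr.S a b c

theorem aort_comm (hL : LIn k) (a b : kˣ) : hS Fr a b = hS Fr b a := B.sy_comm hL Fr.S a b

theorem aort_loc (hL : LIn k) (a b : kˣ) (h : ∀ v ∈ pls Fr.S, LocP v (b : k)) :
    hS Fr a b = 0 :=
  B.sy_of_KS hL Fr.S a b (B.mem_KS.2 fun v hv => (hL.memLS v b).2 (h v hv))

theorem aort_sq (hL : LIn k) (a b : kˣ) : hS Fr a (b ^ 2) = 0 :=
  aort_loc Fr hL a (b ^ 2) fun v _ => B.LocP_sq v b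

/-- the product formula -/
theorem aort_pf (hR : RecSt k) (A : Finset Fr.sys.P) (a b : kˣ)
    (ha : ∀ p, p ∉ A → ord (Fr.pl p) (a : k) = 0)
    (hb : ∀ p, p ∉ A → ord (Fr.pl p) (b : k) = 0) :
    hS Fr a b = ∑ p ∈ A, hs (Fr.pl p) (a : k) (b : k) := by
  classical
  have hd : Disjoint Fr.S (A.image Fr.pl) := by
    rw [Finset.disjoint_left]
    intro P hP hP'
    obtain ⟨p, -, rfl⟩ := Finset.mem_image.1 hP'
    exact (Fr.pl_iff _).1 ⟨p, rfl⟩ hP
  have hm : ∀ x : kˣ, (∀ p, p ∉ A → ord (Fr.pl p) (x : k) = 0) →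
      x ∈ US (Fr.S ∪ A.image Fr.pl) := by
    intro x hx
    refine B.mem_US.2 fun Q hQ => ?_
    rw [Finset.mem_union, not_or] at hQ
    obtain ⟨p, rfl⟩ := (Fr.pl_iff Q).2 hQ.1
    exact hx p fun h => hQ.2 (Finset.mem_image_of_mem _ h)
  have h1 := hR (Fr.S ∪ A.image Fr.pl)
    (fun P hP => Finset.mem_union_left _ (Fr.adm.two P hP)) a (hm a ha) b (hm b hb)
  have h2 : ∀ U : Finset (HeightOneSpectrum (𝓞 k)), ∑ v ∈ pls U, hv v (a : k) (b : k) =
      ∑ P ∈ U, hs P (a : k) (b : k) + ∑ φ : k →+* ℝ, hsR φ (a : k) (b : k) := by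
    intro U
    unfold pls
    rw [Finset.sum_disjSum]
    rfl
  rw [h2, Finset.sum_union hd, Finset.sum_image (fun x _ y _ h => Fr.pl_inj h)] at h1
  have h3 : hS Fr a b = ∑ P ∈ Fr.S, hs P (a : k) (b : k) +
      ∑ φ : k →+* ℝ, hsR φ (a : k) (b : k) := h2 Fr.S
  rw [h3]
  have h4 : ∀ x y z : ZMod 2, x + y + z = 0 → x + z = y := by decide
  exact h4 _ _ _ h1

/-- the symbol of a unit and an element of exponent one -/
theorem aort_hs (hL : LIn k) (p : Fr.sys.P) (a b : kˣ) (ha : ord (Fr.pl p) (a : k) = 0)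
    (hb : ord (Fr.pl p) (b : k) = 1) :
    hs (Fr.pl p) (a : k) (b : k) = qr (a : k) (Fr.pl p) := by
  rw [hL.unt (Fr.pl p) (B.ord_two_eq Fr.adm ((Fr.pl_iff _).1 ⟨p, rfl⟩)) a b ha, hb,
    Int.cast_one, one_mul]

theorem aort_hs' (hL : LIn k) (p : Fr.sys.P) (a b : kˣ) (ha : ord (Fr.pl p) (a : k) = 1)
    (hb : ord (Fr.pl p) (b : k) = 0) :
    hs (Fr.pl p) (a : k) (b : k) = qr (b : k) (Fr.pl p) := by
  rw [← aort_hs Fr hL p b a hb ha]
  exact hL.symm (Sum.inl (Fr.pl p)) a b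

theorem aort_hs_mul (hL : LIn k) (P : HeightOneSpectrum (𝓞 k)) (a b c : kˣ) :
    hs P (a : k) ((b * c : kˣ) : k) = hs P (a : k) (b : k) + hs P (a : k) (c : k) :=
  hL.mulR (Sum.inl P) a b c

theorem aort_hs_sq (hL : LIn k) (P : HeightOneSpectrum (𝓞 k)) (a b : kˣ) :
    hs P (a : k) ((b ^ 2 : kˣ) : k) = 0 := by
  have h : ∀ x : ZMod 2, x + x = 0 := by decide
  rw [pow_two, aort_hs_mul hL, h]

theorem aort_split (u : Fr.sys.T) (e : Finset Fr.sys.P) :
    rep Fr (u, e) = rep Fr (u, ∅) * rep Fr (0, e) := by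
  unfold rep
  simp

theorem aort_ord1 (hO : StRepO Fr) (u : Fr.sys.T) (e : Finset Fr.sys.P) (p : Fr.sys.P)
    (hp : p ∈ e) : ord (Fr.pl p) (rep Fr (u, e) : k) = 1 := by
  rw [hO (u, e) p, if_pos hp]

theorem aort_ord0 (hO : StRepO Fr) (u : Fr.sys.T) (e : Finset Fr.sys.P) (p : Fr.sys.P)
    (hp : p ∉ e) : ord (Fr.pl p) (rep Fr (u, e) : k) = 0 := by
  rw [hO (u, e) p, if_neg hp]

/-- the product formula for a unit and a representative -/
theorem aort_unit (hL : LIn k) (hR : RecSt k) (hO : StRepO Fr) (u v : Fr.sys.T)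
    (e : Finset Fr.sys.P) :
    hS Fr (rep Fr (u, ∅)) (rep Fr (v, e)) = ∑ p ∈ e, qr (rep Fr (u, ∅) : k) (Fr.pl p) := by
  rw [aort_pf Fr hR e _ _ (fun p _ => aort_ord0 Fr hO u ∅ p (Finset.notMem_empty p))
    (fun p hp => aort_ord0 Fr hO v e p hp)]
  exact Finset.sum_congr rfl fun p hp => aort_hs Fr hL p _ _
    (aort_ord0 Fr hO u ∅ p (Finset.notMem_empty p)) (aort_ord1 Fr hO v e p hp)

/-- units are representatives times squares -/
theorem aort_US (a : kˣ) (ha : a ∈ US Fr.S) : ∃ (c : Fr.sys.T) (b : kˣ),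
    a * rep Fr (c, ∅) = b ^ 2 := by
  obtain ⟨c, hc⟩ := Fr.u_gen a ha
  obtain ⟨b, -, hb⟩ := B.mem_sqr.1 hc
  refine ⟨c, b, ?_⟩
  rw [hb]
  unfold rep
  simp

/-- elements orthogonal to everything are local squares -/
theorem aort_nd (hL : LIn k) (x : kˣ) (hx : ∀ t : kˣ, hS Fr x t = 0) :
    ∀ v ∈ pls Fr.S, LocP v (x : k) := by
  classical
  intro v hv'
  refine (hL.nd v x).1 fun b => ?_
  obtain ⟨t, ht⟩ := hL.weak (pls Fr.S) (fun w => if w = v then b else 1)
  have h1 : hS Fr x t = hv v (x : k) (t : k) := by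
    unfold hS
    refine Finset.sum_eq_single_of_mem v hv' fun w hw hwv => ?_
    have h2 := ht w hw
    rw [if_neg hwv, div_one] at h2
    exact B.hv_of_loc hL w x t h2
  have h3 := ht v hv'
  rw [if_pos rfl] at h3
  have h4 : t = (t / b) * b := (div_mul_cancel t b).symm
  have h5 : hv v (x : k) (t : k) = hv v (x : k) (b : k) := by
    conv_lhs => rw [h4]
    rw [hL.mulR v x (t / b) b, B.hv_of_loc hL v x (t / b) h3, zero_add]
  rw [← h5, ← h1]
  exact hx t

theorem aortU_of (hL : LIn k) (hR : RecSt k) (hD : DuSt k) (hO : StRepO Fr) : SaOrU Fr := by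
  intro e y z
  have h2 : ∀ x y : ZMod 2, x + y = 0 ↔ x = y := by decide
  constructor
  · intro h
    have hx : ∀ u : Fr.sys.T, hS Fr (rep Fr (u, ∅)) (cl Fr y z * rep Fr (0, e)) = 0 := by
      intro u
      rw [aort_mul Fr hL, aort_unit Fr hL hR hO, h2]
      exact h u
    set x : kˣ := cl Fr y z * rep Fr (0, e) with hxd
    have hU : ∀ a ∈ US Fr.S, hS Fr x a = 0 := by
      intro a ha
      obtain ⟨c, b, hb⟩ := aort_US Fr a ha
      have h3 := aort_mul Fr hL x a (rep Fr (c, ∅))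
      rw [hb, aort_sq Fr hL, aort_comm Fr hL x (rep Fr (c, ∅)), hx, add_zero] at h3
      exact h3.symm
    have h1' : hS Fr x 1 = 0 := hU 1 (Subgroup.one_mem _)
    let ψ : kˣ →* Multiplicative (ZMod 2) :=
      { toFun := fun t => Multiplicative.ofAdd (hS Fr x t)
        map_one' := by rw [h1']; rfl
        map_mul' := fun a b => by rw [aort_mul Fr hL]; rfl }
    have hF : Fnl Fr.S ψ := by
      refine ⟨fun a ha => ?_, fun a ha => ?_⟩
      · show Multiplicative.ofAdd (hS Fr x a) = 1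
        rw [hU a ha]
        rfl
      · show Multiplicative.ofAdd (hS Fr x a) = 1
        rw [aort_loc Fr hL x a fun v hv' => (hL.memLS v a).1 (B.mem_KS.1 ha v hv')]
        rfl
    obtain ⟨a, ha, hψ⟩ := hD Fr.S Fr.adm ψ hF
    have h4 : ∀ t : kˣ, hS Fr x t = hS Fr a t := fun t => hψ t
    have h5 : ∀ v ∈ pls Fr.S, LocP v ((x * a : kˣ) : k) := by
      refine aort_nd Fr hL (x * a) fun t => ?_
      rw [aort_comm Fr hL, aort_mul Fr hL, aort_comm Fr hL t x, aort_comm Fr hL t a, h2]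
      exact h4 t
    obtain ⟨c, b, hb⟩ := aort_US Fr a ha
    refine ⟨c, fun v hv' => ?_⟩
    have h6 : cl Fr y z * rep Fr (c, e) = (x * a) * (b * a⁻¹) ^ 2 := by
      have ha0 : (a : k) ≠ 0 := a.ne_zero
      rw [mul_pow, ← hb, aort_split Fr c e, hxd]
      apply Units.ext
      simp only [Units.val_mul, Units.val_inv_eq_inv_val, Units.val_pow_eq_pow_val]
      field_simp
    rw [h6]
    exact (hL.memLS v _).1 (Subgroup.mul_mem _ ((hL.memLS v _).2 (h5 v hv'))
      (B.sq_mem_LS v _))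
  · rintro ⟨c, hc⟩ u
    have h3 := aort_loc Fr hL (rep Fr (u, ∅)) _ hc
    rw [aort_mul Fr hL, aort_unit Fr hL hR hO, h2] at h3
    exact h3

end

end Pool.Agent.D8
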