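import Pool.Agent.D8.AOrtA

/-!
# The dihedral group of order 16 over a number field: the condition at a ramified prime as a
symbol, from the inputs on symbols
-/

set_option autoImplicit false

open scoped BigOperators
open NumberField IsDedekindDomain

namespace Pool.Agent.D8

open Pool.Agent.H98.MF
open Pool.Agent.H32.MQ (El rep co StRepO StRepQ)

section

variable {k : Type} [Field k] [NumberField k] (Fr : Frm k)

omit [NumberField k] in
/-- exponents modulo two -/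
theorem aort_pow (a : kˣ) (x y : ZMod 2) :
    ∃ t : kˣ, a ^ x.val * a ^ y.val = a ^ (x + y).val * t ^ 2 := by
  have h : ∀ z : ZMod 2, z = 0 ∨ z = 1 := by decide
  have h1 : (1 : ZMod 2) + 1 = 0 := by decide
  rcases h x with rfl | rfl <;> rcases h y with rfl | rfl
  · exact ⟨1, by simp⟩
  · exact ⟨1, by simp⟩
  · exact ⟨1, by simp⟩
  · refine ⟨a, ?_⟩
    rw [h1, ZMod.val_zero, pow_zero, one_mul, ZMod.val_one, pow_one, pow_two]

theorem aort_prod_pow (x y : Fr.sys.T) : ∃ t : kˣ,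
    (∏ j, Fr.u j ^ (x j).val) * ∏ j, Fr.u j ^ (y j).val =
      (∏ j, Fr.u j ^ ((x + y) j).val) * t ^ 2 := by
  choose t ht using fun j => aort_pow (Fr.u j) (x j) (y j)
  refine ⟨∏ j, t j, ?_⟩
  rw [← Finset.prod_mul_distrib, ← Finset.prod_pow, ← Finset.prod_mul_distrib]
  exact Finset.prod_congr rfl fun j _ => ht j

variable {Fr}

/-- the product of the three elements of a configuration -/
theorem aort_abe (c : Cg Fr.sys) (hc : c.Dj) : ∃ s : kˣ,
    c.ea * c.eb * c.ee = rep Fr (c.ua + c.ub + c.uv, c.x2 ∪ c.x4) * s ^ 2 := by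
  obtain ⟨h12, h34, hd⟩ := hc
  have h13 : Disjoint c.x1 c.x3 := Finset.disjoint_of_subset_left Finset.subset_union_left
    (Finset.disjoint_of_subset_right Finset.subset_union_left hd)
  have h24 : Disjoint c.x2 c.x4 := Finset.disjoint_of_subset_left Finset.subset_union_right
    (Finset.disjoint_of_subset_right Finset.subset_union_right hd)
  obtain ⟨t1, ht1⟩ := aort_prod_pow Fr c.ua c.ub
  obtain ⟨t2, ht2⟩ := aort_prod_pow Fr (c.ua + c.ub) c.uv
  refine ⟨t1 * t2 * ((∏ p ∈ c.x1, Fr.pi p) * ∏ p ∈ c.x3, Fr.pi p), ?_⟩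
  unfold Cg.ea Cg.eb Cg.ee rep
  show ((∏ j, Fr.u j ^ (c.ua j).val) * ∏ p ∈ c.x1 ∪ c.x2, Fr.pi p) *
      ((∏ j, Fr.u j ^ (c.ub j).val) * ∏ p ∈ c.x3 ∪ c.x4, Fr.pi p) *
      ((∏ j, Fr.u j ^ (c.uv j).val) * ∏ p ∈ c.x1 ∪ c.x3, Fr.pi p) =
    ((∏ j, Fr.u j ^ ((c.ua + c.ub + c.uv) j).val) * ∏ p ∈ c.x2 ∪ c.x4, Fr.pi p) * _
  rw [Finset.prod_union h12, Finset.prod_union h34, Finset.prod_union h13,
    Finset.prod_union h24]
  generalize (∏ p ∈ c.x1, Fr.pi p) = P1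
  generalize (∏ p ∈ c.x2, Fr.pi p) = P2
  generalize (∏ p ∈ c.x3, Fr.pi p) = P3
  generalize (∏ p ∈ c.x4, Fr.pi p) = P4
  generalize (∏ j, Fr.u j ^ ((c.ua + c.ub + c.uv) j).val) = U at ht2 ⊢
  generalize (∏ j, Fr.u j ^ ((c.ua + c.ub) j).val) = U' at ht1 ht2
  generalize (∏ j, Fr.u j ^ (c.ua j).val) = Ua at ht1 ⊢
  generalize (∏ j, Fr.u j ^ (c.ub j).val) = Ub at ht1 ⊢
  generalize (∏ j, Fr.u j ^ (c.uv j).val) = Uv at ht2 ⊢
  have e1 := congrArg Units.val ht1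
  have e2 := congrArg Units.val ht2
  apply Units.ext
  simp only [Units.val_mul, Units.val_pow_eq_pow_val] at e1 e2 ⊢
  linear_combination (P1 * P2 * (P3 * P4) * (Uv * (P1 * P3)) : k) * e1 +
    (t1 ^ 2 * (P1 * P2 * (P3 * P4) * (P1 * P3)) : k) * e2

/-- the exponents of the product of the two elements at a prime of the third -/
theorem aort_ordab (hO : StRepO Fr) (c : Cg Fr.sys) (hc : c.Dj) (p : Fr.sys.P)
    (hp : p ∈ c.x1 ∪ c.x3) :
    ord (Fr.pl p) ((-(c.ea * c.eb) : kˣ) : k) = 1 := by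
  obtain ⟨h12, h34, hd⟩ := hc
  rw [Units.val_neg, B.ord_neg, Units.val_mul,
    B.ord_mul _ (Units.ne_zero _) (Units.ne_zero _)]
  unfold Cg.ea Cg.eb
  rcases Finset.mem_union.1 hp with h | h
  · have h1 : p ∈ c.x1 ∪ c.x2 := Finset.mem_union_left _ h
    rw [aort_ord1 Fr hO _ _ p h1, aort_ord0 Fr hO _ _ p (Finset.disjoint_left.1 hd h1),
      add_zero]
  · have h1 : p ∈ c.x3 ∪ c.x4 := Finset.mem_union_left _ h
    rw [aort_ord1 Fr hO _ _ p h1, aort_ord0 Fr hO _ _ p (Finset.disjoint_right.1 hd h1),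
      zero_add]

/-- the primes of the third element do not occur in the complement -/
theorem aort_not (c : Cg Fr.sys) (hc : c.Dj) (p : Fr.sys.P) (hp : p ∈ c.x1 ∪ c.x3) :
    p ∉ c.x2 ∪ c.x4 := by
  obtain ⟨h12, h34, hd⟩ := hc
  intro h
  rcases Finset.mem_union.1 hp with h1 | h1 <;> rcases Finset.mem_union.1 h with h2 | h2
  · exact Finset.disjoint_left.1 h12 h1 h2
  · exact Finset.disjoint_left.1 hd (Finset.mem_union_left _ h1) (Finset.mem_union_right _ h2)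
  · exact Finset.disjoint_left.1 hd (Finset.mem_union_right _ h2) (Finset.mem_union_left _ h1)
  · exact Finset.disjoint_left.1 h34 h1 h2

theorem aort_m1 (hL : LIn k) (q : Fr.sys.P) (a : kˣ) (ha : ord (Fr.pl q) (a : k) = 1) :
    hs (Fr.pl q) (a : k) ((-1 : kˣ) : k) = Fr.sys.lam q := by
  have h0 : ord (Fr.pl q) ((-1 : kˣ) : k) = 0 := by
    rw [Units.val_neg, Units.val_one]
    exact B.ord_neg_one _
  rw [aort_hs' Fr hL q a (-1) ha h0, Fr.lam_eq, Units.val_neg, Units.val_one]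

theorem aortP_of (hL : LIn k) (hR : RecSt k) (hO : StRepO Fr) (hQ : StRepQ Fr) :
    SaOrP Fr := by
  intro c hc _ _ q _
  have hqq : ord (Fr.pl q) (rep Fr (0, {q}) : k) = 1 :=
    aort_ord1 Fr hO 0 {q} q (Finset.mem_singleton_self q)
  have hpq : ∀ p, p ≠ q → ord (Fr.pl p) (rep Fr (0, {q}) : k) = 0 := fun p hp =>
    aort_ord0 Fr hO 0 {q} p (by rwa [Finset.mem_singleton])
  have he1 : ∀ p ∈ c.x1 ∪ c.x3, ord (Fr.pl p) ((c.ee : kˣ) : k) = 1 := fun p hp =>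
    aort_ord1 Fr hO _ _ p hp
  have he0 : ∀ p, p ∉ c.x1 ∪ c.x3 → ord (Fr.pl p) ((c.ee : kˣ) : k) = 0 := fun p hp =>
    aort_ord0 Fr hO _ _ p hp
  have h2 : ∀ x : ZMod 2, x + x = 0 := by decide
  have hcast : (-((c.ea : kˣ) * (c.eb : kˣ) : k)) = ((-(c.ea * c.eb) : kˣ) : k) := by
    rw [Units.val_neg, Units.val_mul]
  rw [hcast]
  have hz : ∀ p ∈ c.x1 ∪ c.x3, p ≠ q →
      hs (Fr.pl p) (rep Fr (0, {q}) : k) ((c.ee : kˣ) : k) +
        hs (Fr.pl p) (rep Fr (0, {q}) : k) ((-(c.ea * c.eb) : kˣ) : k) = 0 := by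
    intro p hp hne
    rw [aort_hs Fr hL p _ _ (hpq p hne) (he1 p hp),
      aort_hs Fr hL p _ _ (hpq p hne) (aort_ordab hO c hc p hp), h2]
  by_cases hq : q ∈ c.x1 ∪ c.x3
  · rw [if_pos hq]
    have hpf : hS Fr (rep Fr (0, {q})) c.ee =
        ∑ p ∈ c.x1 ∪ c.x3, hs (Fr.pl p) (rep Fr (0, {q}) : k) ((c.ee : kˣ) : k) :=
      aort_pf Fr hR _ _ _ (fun p hp => hpq p fun h => hp (h ▸ hq)) he0
    rw [hpf, ← Finset.sum_add_distrib, Finset.sum_eq_single_of_mem q hq hz]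
    obtain ⟨s, hs'⟩ := aort_abe c hc
    have h3 : c.ee * (-(c.ea * c.eb)) =
        (-1) * (rep Fr (c.ua + c.ub + c.uv, c.x2 ∪ c.x4) * s ^ 2) := by
      rw [← hs']
      apply Units.ext
      simp only [Units.val_mul, Units.val_neg, Units.val_one]
      ring
    rw [← aort_hs_mul hL (Fr.pl q) (rep Fr (0, {q})) c.ee (-(c.ea * c.eb)), h3,
      aort_hs_mul hL, aort_m1 hL q _ hqq, aort_hs_mul hL, aort_hs_sq hL, add_zero,
      aort_hs' Fr hL q _ _ hqq (aort_ord0 Fr hO _ _ q (aort_not c hc q hq)),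
      hQ (_, _) q (aort_not c hc q hq)]
    have h4 : Fr.sys.lam q + Fr.sys.ex (c.x2 ∪ c.x4) (c.ua + c.ub + c.uv) q =
        Fr.sys.ex (c.x2 ∪ c.x4) (Fr.sys.l + c.ua + c.ub + c.uv) q := by
      unfold Sys.ex Sys.lam
      simp only [add_dotProduct]
      ring
    rw [h4]
  · rw [if_neg hq]
    have hpf : hS Fr (rep Fr (0, {q})) c.ee =
        ∑ p ∈ insert q (c.x1 ∪ c.x3),
          hs (Fr.pl p) (rep Fr (0, {q}) : k) ((c.ee : kˣ) : k) :=
      aort_pf Fr hR _ _ _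
        (fun p hp => hpq p fun h => hp (by rw [h]; exact Finset.mem_insert_self q _))
        (fun p hp => he0 p fun h => hp (Finset.mem_insert_of_mem h))
    rw [hpf, Finset.sum_insert hq, add_assoc, ← Finset.sum_add_distrib,
      Finset.sum_eq_zero fun p hp => hz p hp fun h => hq (h ▸ hp), add_zero,
      aort_hs' Fr hL q _ _ hqq (he0 q hq)]
    unfold Cg.ee
    rw [hQ (_, _) q hq]

end

end Pool.Agent.D8
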