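import Pool.Agent.D8.AFou
import Pool.Agent.D8.AGH
import Pool.Agent.H32.MQ.HBase

/-!
# The dihedral group of order 16 over a number field: labels (row AT6 / AR1)
-/

set_option autoImplicit false

open scoped BigOperators
open NumberField IsDedekindDomain

namespace Pool.Agent.D8

open Pool.Agent.H98.MF
open Pool.Agent.H98.MK (sg)
open Pool.Agent.H32.MQ (El rep co)

section

variable {k : Type} [Field k] [NumberField k]

theorem ar1_swap {x y z : ZMod 2} (h : x + z = 0) (h' : y + z = 0) : x + y = 0 := by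
  revert x y z; decide

theorem ar1_lin : LIn k := B.lin k

/-- local classes -/
theorem ar1_locP {v : Pl k} {x y z : kˣ} (h : LocP v ((x * z : kˣ) : k))
    (h' : LocP v ((y * z : kˣ) : k)) : LocP v ((x * y : kˣ) : k) := by
  refine ((kin k).one v (x * y)).1 fun σ hσ => ?_
  have h1 := ((kin k).one v (x * z)).2 h σ hσ
  have h2 := ((kin k).one v (y * z)).2 h' σ hσ
  rw [CrdAux.chi_mul] at h1 h2 ⊢
  exact ar1_swap h1 h2

/-- characters on the decomposition group depend on the local class only -/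
theorem ar1_chi {v : Pl k} {x y : kˣ} (h : LocP v ((x * y : kˣ) : k)) {σ : Gm k}
    (hσ : σ ∈ DecP v) : chi (x : k) σ = chi (y : k) σ := by
  have h1 := ((kin k).one v (x * y)).2 h σ hσ
  rw [CrdAux.chi_mul] at h1
  exact afo_x _ _ h1

/-- symbols depend on the local classes only -/
theorem ar1_hv {v : Pl k} {x y x' y' : kˣ} (h : LocP v ((x * x' : kˣ) : k))
    (h' : LocP v ((y * y' : kˣ) : k)) : hv v (x : k) (y : k) = hv v (x' : k) (y' : k) := by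
  have h1 := (ar1_lin.nd v (x * x')).2 h y
  have h2 := (ar1_lin.nd v (y * y')).2 h' x'
  rw [ar1_lin.symm v (x * x') y, ar1_lin.mulR v y x x', ar1_lin.symm v y x,
    ar1_lin.symm v y x'] at h1
  rw [ar1_lin.symm v (y * y') x', ar1_lin.mulR v x' y y'] at h2
  exact (afo_x _ _ h1).trans (afo_x _ _ h2)

/-- two second bits over the same local classes -/
theorem ar1_diff {v : Pl k} {a b a' b' : kˣ} {f f' : Gm k → ZMod 2} (hf : IsF a b f)
    (hf' : IsF a' b' f') (ha : LocP v ((a * a' : kˣ) : k)) (hb : LocP v ((b * b' : kˣ) : k)) :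
    ∃ c : kˣ, ∀ σ ∈ DecP v, f' σ + f σ = chi (c : k) σ := by
  refine (kin k).two v (fun σ => f' σ + f σ) (hf'.lc.add hf.lc) fun σ hσ τ hτ => ?_
  show f' (σ * τ) + f (σ * τ) = (f' σ + f σ) + (f' τ + f τ)
  rw [hf.hom, hf'.hom, ar1_chi ha hσ, ar1_chi hb hτ]
  have h1 : ∀ x y z w t : ZMod 2, x + y + t + (z + w + t) = x + z + (y + w) := by decide
  exact h1 _ _ _ _ _

section

variable (Fr : Frm k)

/-- one class for all places of `S` -/
theorem ar1_one {g : Gm k → ZMod 2}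
    (h : ∀ v ∈ pls Fr.S, ∃ c : kˣ, ∀ σ ∈ DecP v, g σ = chi (c : k) σ) :
    ∃ y z : Fr.sys.T, ∀ v ∈ pls Fr.S, ∀ σ ∈ DecP v, g σ = chi (cl Fr y z : k) σ := by
  have h1 : ∀ v : Pl k, ∃ c : kˣ, v ∈ pls Fr.S → ∀ σ ∈ DecP v, g σ = chi (c : k) σ := by
    intro v
    by_cases hv : v ∈ pls Fr.S
    · obtain ⟨c, hc⟩ := h v hv
      exact ⟨c, fun _ => hc⟩
    · exact ⟨1, fun h => absurd h hv⟩
  choose c hc using h1
  obtain ⟨y, z, hyz⟩ := Fr.gen c
  refine ⟨y, z, fun v hv σ hσ => ?_⟩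
  rw [hc v hv σ hσ]
  refine ar1_chi ?_ hσ
  have h2 := hyz v hv
  rwa [mul_assoc] at h2

variable {Fr}

/-- the transform depends on the restrictions to the places of `S` only -/
theorem ar1_gh {G : LDt k} (hG : SLoc Fr G) (κ : kˣ) {a b a' b' : kˣ} {f f' : Gm k → ZMod 2}
    (ha : ∀ v ∈ pls Fr.S, LocP v ((a * a' : kˣ) : k))
    (hb : ∀ v ∈ pls Fr.S, LocP v ((b * b' : kˣ) : k))
    (h : ∀ v ∈ pls Fr.S, ∀ σ ∈ DecP v, f σ = f' σ) :
    Gh Fr G κ a b f = Gh Fr G κ a' b' f' := by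
  unfold Gh
  congr 1
  refine Finset.sum_congr rfl fun y _ => Finset.sum_congr rfl fun z _ => ?_
  congr 1
  refine hG _ _ fun v hv σ hσ => ?_
  show (chi (a : k) σ, chi (b : k) σ, f σ + chi (cl Fr y z : k) σ) =
    (chi (a' : k) σ, chi (b' : k) σ, f' σ + chi (cl Fr y z : k) σ)
  rw [ar1_chi (ha v hv) hσ, ar1_chi (hb v hv) hσ, h v hv σ hσ]

theorem ar1_hS {κ κ' : kˣ} (h : ∀ v ∈ pls Fr.S, LocP v ((κ * κ' : kˣ) : k)) (t : kˣ) :
    hS Fr t κ = hS Fr t κ' := by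
  have h1 := afo_hS_loc Fr _ t h
  rw [afo_hS_mul] at h1
  rw [afo_hS_comm Fr t, afo_hS_comm Fr t]
  exact afo_x _ _ h1

theorem ar1_self (v : Pl k) (x : kˣ) : LocP v ((x * x : kˣ) : k) := by
  refine ((kin k).one v (x * x)).1 fun σ _ => ?_
  rw [CrdAux.chi_mul]
  exact CrdAux.add_self _

/-- the transforms over the same local classes -/
theorem ar1_tr (hT : SaGhT Fr) {G : LDt k} (hG : SLoc Fr G) (κ : kˣ) {a b a' b' : kˣ}
    {f f' : Gm k → ZMod 2} (ha : ∀ v ∈ pls Fr.S, LocP v ((a * a' : kˣ) : k))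
    (hb : ∀ v ∈ pls Fr.S, LocP v ((b * b' : kˣ) : k)) (hf : IsF a b f) (hf' : IsF a' b' f') :
    ∃ c : kˣ, Gh Fr G κ a' b' f' = Gh Fr G κ a b f * ((sg (hS Fr c κ) : ℤ) : ℝ) := by
  obtain ⟨y, z, hc⟩ := ar1_one Fr (g := fun σ => f' σ + f σ)
    fun v hv => ar1_diff hf hf' (ha v hv) (hb v hv)
  refine ⟨cl Fr y z, ?_⟩
  rw [← hT G hG]
  refine (ar1_gh hG κ ha hb fun v hv σ hσ => ?_).symm
  have h1 := hc v hv σ hσ
  have h2 : ∀ x y z : ZMod 2, x + y = z → y + z = x := by decide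
  exact h2 _ _ _ h1

end

section

variable (Fr : Frm k)

/-- AR3: the square of the transform is a function of the labels -/
theorem agh2 (hG : SaGhT Fr) : SaGh2 Fr := by
  intro G hG1 κ κ' a b a' b' f f' hκ ha hb hf hf'
  obtain ⟨c, hc⟩ := ar1_tr hG hG1 κ' ha hb hf hf'
  have h1 : Gh Fr G κ a b f = Gh Fr G κ' a b f := by
    unfold Gh
    congr 1
    refine Finset.sum_congr rfl fun y _ => Finset.sum_congr rfl fun z _ => ?_
    rw [ar1_hS hκ]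
  rw [hc, h1, mul_pow]
  have h2 := afo_sg_sq (hS Fr c κ')
  rw [← pow_two] at h2
  rw [h2, mul_one]

/-- AR2: changing `a` by a local square at `S` -/
theorem atrS (hG : SaGhT Fr) : SaTrS Fr := by
  intro G hG1 a b X κ f g hf hg hX
  obtain ⟨y, z, hc⟩ := ar1_one Fr (g := g) fun v hv => by
    refine (kin k).two v g hg.lc fun σ hσ τ hτ => ?_
    rw [hg.hom, ((kin k).one v X).2 (hX v hv) σ hσ, zero_mul, add_zero]
  refine ⟨cl Fr y z, hc, ?_⟩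
  rw [← hG G hG1]
  refine ar1_gh hG1 κ (fun v hv => ?_) (fun v _ => ar1_self v b) fun v hv σ hσ => ?_
  · refine ((kin k).one v (a * X * a)).1 fun σ hσ => ?_
    rw [CrdAux.chi_mul, CrdAux.chi_mul, ((kin k).one v X).2 (hX v hv) σ hσ, add_zero]
    exact CrdAux.add_self _
  · rw [hc v hv σ hσ]

/-! ### the labels -/

/-- the local class of a representative -/
theorem ar1_rep (u : Fr.sys.T) (s : Finset Fr.sys.P) {v : Pl k} (hv : v ∈ pls Fr.S) :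
    LocP v ((rep Fr (u, s) * cl Fr u (Fr.sys.tys s) : kˣ) : k) := by
  classical
  refine ((kin k).one v _).1 fun σ hσ => ?_
  have hF : ∀ a b : kˣ, chi ((a * b : kˣ) : k) σ = chi (a : k) σ + chi (b : k) σ :=
    fun a b => CrdAux.chi_mul a b σ
  have hp : ∀ p : Fr.sys.P, chi (Fr.pi p : k) σ =
      ∑ j, Fr.sys.ty p j * chi (Fr.w j : k) σ := by
    intro p
    have h1 := ((kin k).one v _).2 (Fr.loc p v hv) σ hσ
    rw [CrdAux.chi_mul, CrdAux.chi_prod] at h1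
    rw [afo_x _ _ h1]
    exact Finset.sum_congr rfl fun j _ => mul_comm _ _
  have h2 : chi (rep Fr (u, s) : k) σ = ∑ j, u j * chi (Fr.u j : k) σ +
      ∑ p ∈ s, ∑ j, Fr.sys.ty p j * chi (Fr.w j : k) σ := by
    unfold rep
    rw [hF, CrdAux.chi_prod, afo_prod (fun a : kˣ => chi (a : k) σ) hF]
    congr 1
    · exact Finset.sum_congr rfl fun j _ => mul_comm _ _
    · exact Finset.sum_congr rfl fun p _ => hp p
  rw [hF, afo_cl Fr (fun a : kˣ => chi (a : k) σ) hF, h2]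
  have h3 : ∑ p ∈ s, ∑ j, Fr.sys.ty p j * chi (Fr.w j : k) σ =
      ∑ j, Fr.sys.tys s j * chi (Fr.w j : k) σ := by
    rw [Finset.sum_comm]
    refine Finset.sum_congr rfl fun j _ => ?_
    unfold Sys.tys
    rw [Finset.sum_apply, Finset.sum_mul]
  rw [h3]
  exact CrdAux.add_self _

/-- the symbols outside `S` -/
theorem ar1_out {A B : Finset Fr.sys.P} {ua ub : Fr.sys.T} (hAB : Disjoint A B)
    (hA : ∀ p ∈ A, Fr.sys.ex B ub p = 0) (hB : ∀ p ∈ B, Fr.sys.ex A ua p = 0) {v : Pl k}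
    (hv' : v ∉ pls Fr.S) : hv v (rep Fr (ua, A) : k) (rep Fr (ub, B) : k) = 0 := by
  classical
  rcases v with P | φ
  · have hP : P ∉ Fr.S := fun h => hv' (Finset.inl_mem_disjSum.2 h)
    obtain ⟨p, rfl⟩ := (Fr.pl_iff P).2 hP
    have h2 := Pool.Agent.H32.MQ.hb_two Fr p
    have oa := Pool.Agent.H32.MQ.h_repO Fr (ua, A) p
    have ob' := Pool.Agent.H32.MQ.h_repO Fr (ub, B) p
    by_cases h3 : p ∈ A
    · have h4 : p ∉ B := Finset.disjoint_left.1 hAB h3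
      rw [if_neg h4] at ob'
      have h5 := ar1_lin.symm (Sum.inl (Fr.pl p)) (rep Fr (ua, A)) (rep Fr (ub, B))
      rw [h5]
      show hs (Fr.pl p) (rep Fr (ub, B) : k) (rep Fr (ua, A) : k) = 0
      rw [ar1_lin.unt _ h2 _ _ ob', Pool.Agent.H32.MQ.h_repQ Fr (ub, B) p h4]
      show _ * Fr.sys.ex B ub p = 0
      rw [hA p h3, mul_zero]
    · rw [if_neg h3] at oa
      show hs (Fr.pl p) (rep Fr (ua, A) : k) (rep Fr (ub, B) : k) = 0
      rw [ar1_lin.unt _ h2 _ _ oa, Pool.Agent.H32.MQ.h_repQ Fr (ua, A) p h3]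
      by_cases h4 : p ∈ B
      · show _ * Fr.sys.ex A ua p = 0
        rw [hB p h4, mul_zero]
      · rw [ob', if_neg h4, Int.cast_zero, zero_mul]
  · exact absurd (Finset.inr_mem_disjSum.2 (Finset.mem_univ φ)) hv'

variable {Fr}

/-- the same label gives the same local classes -/
theorem ar1_lab {A A' : Finset Fr.sys.P} (u : Fr.sys.T) (h : Fr.sys.tys A = Fr.sys.tys A')
    {v : Pl k} (hv : v ∈ pls Fr.S) :
    LocP v ((rep Fr (u, A) * rep Fr (u, A') : kˣ) : k) := by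
  have h1 := ar1_rep Fr u A hv
  have h2 := ar1_rep Fr u A' hv
  rw [h] at h1
  exact ar1_locP h1 h2

/-- solvability depends on the labels only -/
theorem ar1_slv {A B A' B' : Finset Fr.sys.P} {ua ub : Fr.sys.T}
    (hA' : ∀ p ∈ A', Fr.sys.ex B' ub p = 0) (hB' : ∀ p ∈ B', Fr.sys.ex A' ua p = 0)
    (hAB' : Disjoint A' B') (h1 : Fr.sys.tys A = Fr.sys.tys A')
    (h2 : Fr.sys.tys B = Fr.sys.tys B') (h : Slv (rep Fr (ua, A)) (rep Fr (ub, B))) :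
    Slv (rep Fr (ua, A')) (rep Fr (ub, B')) := by
  intro v
  by_cases hv' : v ∈ pls Fr.S
  · rw [← ar1_hv (ar1_lab ua h1 hv') (ar1_lab ub h2 hv')]
    exact h v
  · exact ar1_out Fr hAB' hA' hB' hv'

/-- the transform at the trivial class -/
theorem ar1_tr1 (hT : SaGhT Fr) {G : LDt k} (hG : SLoc Fr G) {a b a' b' : kˣ}
    {f f' : Gm k → ZMod 2} (ha : ∀ v ∈ pls Fr.S, LocP v ((a * a' : kˣ) : k))
    (hb : ∀ v ∈ pls Fr.S, LocP v ((b * b' : kˣ) : k)) (hf : IsF a b f) (hf' : IsF a' b' f') :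
    Gh Fr G 1 a b f = Gh Fr G 1 a' b' f' := by
  obtain ⟨c, hc⟩ := ar1_tr hT hG 1 ha hb hf hf'
  have h1 : hS Fr c 1 = 0 := by
    rw [afo_hS_comm]
    refine afo_hS_loc Fr 1 c fun v _ => ?_
    have := ar1_self v (1 : kˣ)
    rwa [mul_one] at this
  rw [hc, h1]
  have h2 : sg 0 = 1 := by decide
  rw [h2, Int.cast_one, mul_one]

variable (Fr) in
theorem ar1_ee : (rep Fr ((0 : Fr.sys.T), (∅ : Finset Fr.sys.P))) = 1 := by
  unfold rep
  rw [Finset.prod_empty, mul_one]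
  refine Finset.prod_eq_one fun j _ => ?_
  show Fr.u j ^ ((0 : Fr.sys.T) j).val = 1
  rw [Pi.zero_apply, ZMod.val_zero, pow_zero]

/-- the value of `R` at the trivial class -/
theorem ar1_Rf (Rk : RxF k) (hT : SaGhT Fr) {G : LDt k} (hG : SLoc Fr G)
    (A B : Finset Fr.sys.P) (ua ub : Fr.sys.T) {f : Gm k → ZMod 2}
    (hf : IsL Fr Rk (rep Fr (ua, A)) (rep Fr (ub, B)) ∅ f) :
    Rf Fr Rk G ⟨∅, A, ∅, B, ua, ub, 0⟩ =
      Gh Fr G 1 (rep Fr (ua, A)) (rep Fr (ub, B)) f := by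
  classical
  have ea : (⟨∅, A, ∅, B, ua, ub, 0⟩ : Cg Fr.sys).ea (Fr := Fr) = rep Fr (ua, A) := by
    unfold Cg.ea
    rw [Finset.empty_union]
  have eb : (⟨∅, A, ∅, B, ua, ub, 0⟩ : Cg Fr.sys).eb (Fr := Fr) = rep Fr (ub, B) := by
    unfold Cg.eb
    rw [Finset.empty_union]
  have ee : (⟨∅, A, ∅, B, ua, ub, 0⟩ : Cg Fr.sys).ee (Fr := Fr) = 1 := by
    unfold Cg.ee
    rw [Finset.empty_union]
    exact ar1_ee Fr
  have hex : ∃ f, IsL Fr Rk (⟨∅, A, ∅, B, ua, ub, 0⟩ : Cg Fr.sys).ea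
      (⟨∅, A, ∅, B, ua, ub, 0⟩ : Cg Fr.sys).eb ∅ f := by
    rw [ea, eb]
    exact ⟨f, hf⟩
  have h0 := hex.choose_spec
  unfold Rf
  rw [dif_pos hex]
  generalize hex.choose = f0 at h0 ⊢
  rw [ea, eb] at h0 ⊢
  rw [ee, Finset.empty_union, Finset.sum_empty]
  have h2 : sg 0 = 1 := by decide
  rw [h2, Int.cast_one, mul_one]
  exact ar1_tr1 hT hG (fun v _ => ar1_self v _) (fun v _ => ar1_self v _) h0.1 hf.1

/-- the value of `R` at the trivial class without second bits -/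
theorem ar1_Rf0 (Rk : RxF k) (G : LDt k) (A B : Finset Fr.sys.P) (ua ub : Fr.sys.T)
    (hf : ¬ ∃ f, IsL Fr Rk (rep Fr (ua, A)) (rep Fr (ub, B)) ∅ f) :
    Rf Fr Rk G ⟨∅, A, ∅, B, ua, ub, 0⟩ = 0 := by
  classical
  have ea : (⟨∅, A, ∅, B, ua, ub, 0⟩ : Cg Fr.sys).ea (Fr := Fr) = rep Fr (ua, A) := by
    unfold Cg.ea
    rw [Finset.empty_union]
  have eb : (⟨∅, A, ∅, B, ua, ub, 0⟩ : Cg Fr.sys).eb (Fr := Fr) = rep Fr (ub, B) := by
    unfold Cg.eb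
    rw [Finset.empty_union]
  unfold Rf
  rw [dif_neg]
  rw [ea, eb]
  exact hf

/-- the first conditions at the trivial class -/
theorem ar1_C1 {A B : Finset Fr.sys.P} {ua ub : Fr.sys.T}
    (h : (⟨∅, A, ∅, B, ua, ub, 0⟩ : Cg Fr.sys).C1) :
    (∀ p ∈ A, Fr.sys.ex B ub p = 0) ∧ ∀ p ∈ B, Fr.sys.ex A ua p = 0 := by
  unfold Cg.C1 at h
  simp only [Finset.empty_union] at h
  exact h

/-- AT8: the term of the trivial class is a function of the labels -/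
theorem ar1 (Fr : Frm k) (Rk : RxF k) (hT : SaGhT Fr) (hN : SaNor Fr Rk) (hS' : SaSl k) :
    SaR1 Fr Rk := by
  classical
  intro G hG
  have key : ∀ (A B A' B' : Finset Fr.sys.P) (ua ub : Fr.sys.T), Disjoint A B →
      Disjoint A' B' → (⟨∅, A, ∅, B, ua, ub, 0⟩ : Cg Fr.sys).C1 →
      (⟨∅, A', ∅, B', ua, ub, 0⟩ : Cg Fr.sys).C1 → Fr.sys.tys A = Fr.sys.tys A' →
      Fr.sys.tys B = Fr.sys.tys B' →
      Rf Fr Rk G ⟨∅, A, ∅, B, ua, ub, 0⟩ = Rf Fr Rk G ⟨∅, A', ∅, B', ua, ub, 0⟩ := by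
    intro A B A' B' ua ub hd hd' hC hC' hA hB
    obtain ⟨c1, c2⟩ := ar1_C1 hC
    obtain ⟨c3, c4⟩ := ar1_C1 hC'
    by_cases hex : ∃ f, IsL Fr Rk (rep Fr (ua, A)) (rep Fr (ub, B)) ∅ f
    · obtain ⟨f, hf⟩ := hex
      have h1 : Slv (rep Fr (ua, A)) (rep Fr (ub, B)) := (hS' _ _).1 ⟨f, hf.1⟩
      obtain ⟨f', hf'⟩ := hN _ _ (ar1_slv c3 c4 hd' hA hB h1)
      rw [ar1_Rf Rk hT hG A B ua ub hf, ar1_Rf Rk hT hG A' B' ua ub hf']
      exact ar1_tr1 hT hG (fun v hv => ar1_lab ua hA hv) (fun v hv => ar1_lab ub hB hv)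
        hf.1 hf'.1
    · have hex' : ¬ ∃ f, IsL Fr Rk (rep Fr (ua, A')) (rep Fr (ub, B')) ∅ f := by
        rintro ⟨f', hf'⟩
        have h1 : Slv (rep Fr (ua, A')) (rep Fr (ub, B')) := (hS' _ _).1 ⟨f', hf'.1⟩
        exact hex (hN _ _ (ar1_slv c1 c2 hd hA.symm hB.symm h1))
      rw [ar1_Rf0 Rk G A B ua ub hex, ar1_Rf0 Rk G A' B' ua ub hex']
  refine ⟨fun ua ub s t => if h : ∃ AB : Finset Fr.sys.P × Finset Fr.sys.P,
    Disjoint AB.1 AB.2 ∧ (⟨∅, AB.1, ∅, AB.2, ua, ub, 0⟩ : Cg Fr.sys).C1 ∧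
      Fr.sys.tys AB.1 = s ∧ Fr.sys.tys AB.2 = t
    then Rf Fr Rk G ⟨∅, h.choose.1, ∅, h.choose.2, ua, ub, 0⟩ else 0, ?_⟩
  intro A B ua ub hd hC
  have hval : Rf Fr Rk G ⟨∅, A, ∅, B, ua, ub, 0⟩ =
      (if h : ∃ AB : Finset Fr.sys.P × Finset Fr.sys.P,
        Disjoint AB.1 AB.2 ∧ (⟨∅, AB.1, ∅, AB.2, ua, ub, 0⟩ : Cg Fr.sys).C1 ∧
          Fr.sys.tys AB.1 = Fr.sys.tys A ∧ Fr.sys.tys AB.2 = Fr.sys.tys B
        then Rf Fr Rk G ⟨∅, h.choose.1, ∅, h.choose.2, ua, ub, 0⟩ else 0) := by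
    have hex : ∃ AB : Finset Fr.sys.P × Finset Fr.sys.P,
        Disjoint AB.1 AB.2 ∧ (⟨∅, AB.1, ∅, AB.2, ua, ub, 0⟩ : Cg Fr.sys).C1 ∧
          Fr.sys.tys AB.1 = Fr.sys.tys A ∧ Fr.sys.tys AB.2 = Fr.sys.tys B :=
      ⟨(A, B), hd, hC, rfl, rfl⟩
    rw [dif_pos hex]
    obtain ⟨h1, h2, h3, h4⟩ := hex.choose_spec
    exact key A B _ _ ua ub hd h1 hC h2 h3.symm h4.symm
  refine ⟨hval, ?_⟩
  rintro ⟨f, hf, y₀, z₀, hne⟩ hnn
  show 0 < (if h : ∃ AB : Finset Fr.sys.P × Finset Fr.sys.P,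
        Disjoint AB.1 AB.2 ∧ (⟨∅, AB.1, ∅, AB.2, ua, ub, 0⟩ : Cg Fr.sys).C1 ∧
          Fr.sys.tys AB.1 = Fr.sys.tys A ∧ Fr.sys.tys AB.2 = Fr.sys.tys B
        then Rf Fr Rk G ⟨∅, h.choose.1, ∅, h.choose.2, ua, ub, 0⟩ else 0)
  rw [← hval, ar1_Rf Rk hT hG A B ua ub hf]
  unfold Gh
  have h1 : ∀ t : kˣ, hS Fr t 1 = 0 := by
    intro t
    rw [afo_hS_comm]
    refine afo_hS_loc Fr 1 t fun v _ => ?_
    have := ar1_self v (1 : kˣ)
    rwa [mul_one] at this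
  have h2 : sg 0 = 1 := by decide
  simp only [h1, h2, Int.cast_one, mul_one]
  refine mul_pos (by positivity) ?_
  refine Finset.sum_pos' (fun y _ => Finset.sum_nonneg fun z _ => hnn _)
    ⟨y₀, Finset.mem_univ _, ?_⟩
  exact Finset.sum_pos' (fun z _ => hnn _) ⟨z₀, Finset.mem_univ _,
    lt_of_le_of_ne (hnn _) (Ne.symm hne)⟩

end

end

end Pool.Agent.D8
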