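import Pool.Agent.D8.AStm
import Pool.Agent.H32.MQ.HBase

/-!
# The dihedral group of order 16 over a number field: the function `R` (rows SaRb, SaRi, SaRs)
-/

set_option autoImplicit false

open scoped BigOperators
open NumberField IsDedekindDomain

namespace Pool.Agent.D8

open Pool.Agent.H98.MF
open Pool.Agent.H98.MK (sg)
open Pool.Agent.H32.MQ (El rep co h_repO h_repQ hb_two hb_even hb_qr_sq hb_qr_U)

theorem arp_sg_add (x y : ZMod 2) : sg (x + y) = sg x * sg y := by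
  revert x y
  decide

theorem arp_sg_self (x : ZMod 2) : sg x * sg x = 1 := by
  revert x
  decide

theorem arp_sg_abs (x : ZMod 2) : |((sg x : ℤ) : ℝ)| = 1 := by
  have h : ∀ x : ZMod 2, sg x = 1 ∨ sg x = -1 := by decide
  rcases h x with h | h
  · rw [h]
    norm_num
  · rw [h]
    norm_num

theorem arp_add_self (x y : ZMod 2) (h : x + y = 0) : x = y := by
  revert x y
  decide

section

variable {k : Type} [Field k] [NumberField k] (Fr : Frm k) (Rk : RxF k)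

/-- AT6: the function `R` is bounded -/
theorem arb (hB : SaGhB Fr) : SaRb Fr Rk := by
  intro G hG c
  unfold Rf
  split_ifs with h
  · rw [abs_mul, arp_sg_abs, mul_one]
    exact hB G hG _ _ _ _
  · rw [abs_zero]
    exact zero_le_one

theorem arp_hv_mul (hk : LIn k) (v : Pl k) (x y z : kˣ) :
    hv v ((x * y : kˣ) : k) (z : k) = hv v (x : k) (z : k) + hv v (y : k) (z : k) := by
  rw [hk.symm v (x * y) z, hk.mulR v z x y, hk.symm v z x, hk.symm v z y]

theorem arp_hS_mul (hk : LIn k) (x y z : kˣ) :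
    hS Fr (x * y) z = hS Fr x z + hS Fr y z := by
  unfold hS
  rw [← Finset.sum_add_distrib]
  exact Finset.sum_congr rfl fun v _ => arp_hv_mul hk v x y z

theorem arp_hS_mulR (hk : LIn k) (x y z : kˣ) :
    hS Fr x (y * z) = hS Fr x y + hS Fr x z := by
  unfold hS
  rw [← Finset.sum_add_distrib]
  exact Finset.sum_congr rfl fun v _ => hk.mulR v x y z

theorem arp_hS_loc (hk : LIn k) (x y z : kˣ)
    (h : ∀ v ∈ pls Fr.S, LocP v ((y * z : kˣ) : k)) : hS Fr x y = hS Fr x z := by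
  unfold hS
  refine Finset.sum_congr rfl fun v hv' => ?_
  have h1 := (hk.nd v (y * z)).2 (h v hv') x
  rw [arp_hv_mul hk] at h1
  rw [hk.symm v x y, hk.symm v x z]
  exact arp_add_self _ _ h1

theorem arp_rep_mul (y : Fr.sys.T) (r : Finset Fr.sys.P) (q : Fr.sys.P) (hq : q ∉ r) :
    rep Fr (y, insert q r) = rep Fr (y, r) * rep Fr (0, {q}) := by
  unfold rep
  show (∏ j, Fr.u j ^ (y j).val) * ∏ p ∈ insert q r, Fr.pi p =
    ((∏ j, Fr.u j ^ (y j).val) * ∏ p ∈ r, Fr.pi p) *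
      ((∏ j, Fr.u j ^ ((0 : Fr.sys.T) j).val) * ∏ p ∈ {q}, Fr.pi p)
  rw [Finset.prod_insert hq, Finset.prod_singleton]
  have h : (∏ j, Fr.u j ^ ((0 : Fr.sys.T) j).val) = 1 := by
    refine Finset.prod_eq_one fun j _ => ?_
    rw [Pi.zero_apply, ZMod.val_zero, pow_zero]
  rw [h, one_mul, mul_assoc, mul_comm (Fr.pi q)]

variable {Fr}

/-- the total exponent of a twist -/
noncomputable def arpL (c : Cg Fr.sys) (t : kˣ) : ZMod 2 :=
  hS Fr t c.ee + ∑ p ∈ c.x1 ∪ c.x3, hs (Fr.pl p) (t : k) (-(c.ea * c.eb) : k)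

theorem arpL_mul (hk : LIn k) (c : Cg Fr.sys) (t t' : kˣ) :
    arpL c (t * t') = arpL c t + arpL c t' := by
  unfold arpL
  have h1 : ∀ p ∈ c.x1 ∪ c.x3, hs (Fr.pl p) ((t * t' : kˣ) : k) (-(c.ea * c.eb) : k) =
      hs (Fr.pl p) (t : k) (-(c.ea * c.eb) : k) +
        hs (Fr.pl p) (t' : k) (-(c.ea * c.eb) : k) := by
    intro p _
    have := arp_hv_mul hk (Sum.inl (Fr.pl p)) t t' (-(c.ea * c.eb))
    rw [Units.val_neg, Units.val_mul] at this
    exact this
  rw [arp_hS_mul Fr hk, Finset.sum_congr rfl h1, Finset.sum_add_distrib]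
  ring

theorem arp_ord (c : Cg Fr.sys) (hD : c.Dj) (p : Fr.sys.P) (hp : p ∈ c.x1 ∪ c.x3) :
    ord (Fr.pl p) ((-(c.ea * c.eb) : kˣ) : k) = 1 := by
  classical
  obtain ⟨h1, h2, h3⟩ := hD
  rw [Units.val_neg, Pool.Agent.H98.MF.B.ord_neg, Units.val_mul,
    Pool.Agent.H98.MF.B.ord_mul _ (Units.ne_zero _) (Units.ne_zero _)]
  unfold Cg.ea Cg.eb
  rw [h_repO Fr _ p, h_repO Fr _ p]
  rcases Finset.mem_union.1 hp with hp1 | hp3
  · have e1 : p ∈ c.x1 ∪ c.x2 := Finset.mem_union_left _ hp1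
    have e2 : p ∉ c.x3 ∪ c.x4 := Finset.disjoint_left.1 h3 e1
    rw [if_pos e1, if_neg e2]
    rfl
  · have e1 : p ∈ c.x3 ∪ c.x4 := Finset.mem_union_left _ hp3
    have e2 : p ∉ c.x1 ∪ c.x2 := Finset.disjoint_right.1 h3 e1
    rw [if_neg e2, if_pos e1]
    rfl

/-- the first conditions follow from solvability -/
theorem arp_C1 (hk : LIn k) (c : Cg Fr.sys) (hD : c.Dj) (hs1 : Slv (c.ea (Fr := Fr)) c.eb) :
    c.C1 := by
  classical
  obtain ⟨h1, h2, h3⟩ := hD
  have hoa := fun p => h_repO Fr (c.ua, c.x1 ∪ c.x2) p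
  have hob := fun p => h_repO Fr (c.ub, c.x3 ∪ c.x4) p
  constructor
  · intro p hp
    have hp' : p ∉ c.x3 ∪ c.x4 := Finset.disjoint_left.1 h3 hp
    rw [← h_repQ Fr (c.ub, c.x3 ∪ c.x4) p hp']
    have e1 := hs1 (Sum.inl (Fr.pl p))
    rw [hk.symm] at e1
    have e2 := hk.unt (Fr.pl p) (hb_two Fr p) c.eb c.ea (by
      have := hob p
      rw [if_neg hp'] at this
      exact this)
    have e3 : ord (Fr.pl p) (c.ea (Fr := Fr) : k) = 1 := by
      have := hoa p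
      rw [if_pos hp] at this
      exact this
    rw [e3, Int.cast_one, one_mul] at e2
    exact e2.symm.trans e1
  · intro p hp
    have hp' : p ∉ c.x1 ∪ c.x2 := Finset.disjoint_right.1 h3 hp
    rw [← h_repQ Fr (c.ua, c.x1 ∪ c.x2) p hp']
    have e1 := hs1 (Sum.inl (Fr.pl p))
    have e2 := hk.unt (Fr.pl p) (hb_two Fr p) c.ea c.eb (by
      have := hoa p
      rw [if_neg hp'] at this
      exact this)
    have e3 : ord (Fr.pl p) (c.eb (Fr := Fr) : k) = 1 := by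
      have := hob p
      rw [if_pos hp] at this
      exact this
    rw [e3, Int.cast_one, one_mul] at e2
    exact e2.symm.trans e1

/-- the units do not contribute -/
theorem arpL_unit (hk : LIn k) (hU : SaOrU Fr) (c : Cg Fr.sys) (hD : c.Dj) (y : Fr.sys.T) :
    arpL c (rep Fr (y, ∅)) = 0 := by
  classical
  obtain ⟨a, b, hab⟩ := Fr.gen fun _ => c.ee (Fr := Fr)
  have h1 : ∀ v ∈ pls Fr.S, LocP v ((cl Fr a b * rep Fr (c.uv, c.x1 ∪ c.x3) : kˣ) : k) := by
    intro v hv'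
    have := hab v hv'
    rw [mul_assoc, mul_comm] at this
    exact this
  have h2 := (hU (c.x1 ∪ c.x3) a b).2 ⟨c.uv, h1⟩ y
  have h3 : hS Fr (rep Fr (y, ∅)) c.ee = hS Fr (rep Fr (y, ∅)) (cl Fr a b) := by
    refine arp_hS_loc Fr hk _ _ _ fun v hv' => ?_
    have := h1 v hv'
    rw [mul_comm] at this
    exact this
  unfold arpL
  rw [h3, h2]
  have h4 : ∀ p ∈ c.x1 ∪ c.x3, hs (Fr.pl p) (rep Fr (y, ∅) : k) (-(c.ea * c.eb) : k) =
      qr (rep Fr (y, ∅) : k) (Fr.pl p) := by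
    intro p hp
    have e1 := hk.unt (Fr.pl p) (hb_two Fr p) (rep Fr (y, ∅)) (-(c.ea * c.eb)) (by
      rw [h_repO Fr _ p, if_neg (Finset.notMem_empty p)])
    rw [arp_ord c hD p hp, Int.cast_one, one_mul, Units.val_neg, Units.val_mul] at e1
    exact e1
  rw [Finset.sum_congr rfl h4]
  exact CharTwo.add_self_eq_zero _

/-- no twist of the group of second bits contributes -/
theorem arpL_zero (hk : LIn k) (hU : SaOrU Fr) (hP : SaOrP Fr) (c : Cg Fr.sys) (hD : c.Dj)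
    (hC1 : c.C1) (hC2 : c.C2) (hs1 : Slv (c.ea (Fr := Fr)) c.eb) (y : Fr.sys.T)
    (r : Finset Fr.sys.P) (hr : r ⊆ c.ram (Fr := Fr)) : arpL c (rep Fr (y, r)) = 0 := by
  classical
  induction r using Finset.induction_on with
  | empty => exact arpL_unit hk hU c hD y
  | insert q r hq ih =>
    rw [arp_rep_mul Fr y r q hq, arpL_mul hk,
      ih fun p hp => hr (Finset.mem_insert_of_mem hp), zero_add]
    have hqr : q ∈ c.ram (Fr := Fr) := hr (Finset.mem_insert_self q r)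
    refine (hP c hD hC1 hs1 q hqr).2 ?_
    split_ifs with h
    · exact hC2.1 q h
    · refine hC2.2 q ?_
      unfold Cg.ram at hqr
      simp only [Finset.mem_union] at h hqr ⊢
      tauto

variable (Fr)

/-- AT6: the function `R` may be computed with any second bit -/
theorem ari (hk : LIn k) (hSl : SaSl k) (hNor : SaNor Fr Rk) (hTor : SaTor Fr Rk)
    (hGT : SaGhT Fr) (hOT : SaObT k) (hU : SaOrU Fr) (hP : SaOrP Fr) : SaRi Fr Rk := by
  classical
  intro G hG c f hD hC2 hf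
  have hs1 : Slv (c.ea (Fr := Fr)) c.eb := (hSl _ _).1 ⟨f, hf.1⟩
  have hC1 := arp_C1 hk c hD hs1
  have hex : ∃ g, IsL Fr Rk (c.ea (Fr := Fr)) c.eb ∅ g := hNor _ _ hs1
  unfold Rf
  rw [dif_pos hex]
  have hg := hex.choose_spec
  obtain ⟨y, r, hr, hfr⟩ := (hTor _ _ _ _ f hg).1 hf
  have hf' : f = fun σ => hex.choose σ + chi (rep Fr (y, r) : k) σ := funext hfr
  have h1 := hGT G hG c.ee c.ea c.eb (rep Fr (y, r)) hex.choose
  have h2 : ∀ p ∈ c.x1 ∪ c.x3, ob (Sum.inl (Fr.pl p)) c.ea c.eb f =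
      ob (Sum.inl (Fr.pl p)) c.ea c.eb hex.choose +
        hs (Fr.pl p) (rep Fr (y, r) : k) (-(c.ea * c.eb) : k) := by
    intro p _
    have := hOT c.ea c.eb (rep Fr (y, r)) hex.choose hg.1 (Sum.inl (Fr.pl p))
    rw [← hf'] at this
    exact this
  rw [Finset.sum_congr rfl h2, Finset.sum_add_distrib]
  rw [← hf'] at h1
  rw [h1, arp_sg_add]
  have h3 := arpL_zero hk hU hP c hD hC1 hC2 hs1 y r hr
  unfold arpL at h3
  have h4 : sg (hS Fr (rep Fr (y, r)) c.ee) *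
      sg (∑ p ∈ c.x1 ∪ c.x3, hs (Fr.pl p) (rep Fr (y, r) : k) (-(c.ea * c.eb) : k)) = 1 := by
    rw [← arp_sg_add, h3]
    rfl
  have h5 : ((sg (hS Fr (rep Fr (y, r)) c.ee) : ℤ) : ℝ) *
      ((sg (∑ p ∈ c.x1 ∪ c.x3, hs (Fr.pl p) (rep Fr (y, r) : k) (-(c.ea * c.eb) : k)) : ℤ) : ℝ)
        = 1 := by
    rw [← Int.cast_mul, h4, Int.cast_one]
  rw [Int.cast_mul]
  linear_combination (-(Gh Fr G c.ee c.ea c.eb hex.choose *
    ((sg (∑ p ∈ c.x1 ∪ c.x3, ob (Sum.inl (Fr.pl p)) c.ea c.eb hex.choose) : ℤ) : ℝ))) * h5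

end

end Pool.Agent.D8
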