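import Pool.Agent.D8.ARp

/-!
# The dihedral group of order 16 over a number field: the symmetry of the function `R`
(row SaRs)
-/

set_option autoImplicit false

open scoped BigOperators
open NumberField IsDedekindDomain

namespace Pool.Agent.D8

open Pool.Agent.H98.MF
open Pool.Agent.H98.MK (sg)
open Pool.Agent.H32.MQ (El rep co h_repO h_repQ hb_two hb_even hb_qr_sq hb_qr_U)

section

variable {k : Type} [Field k] [NumberField k] (Fr : Frm k) (Rk : RxF k)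

/-! ### the symmetry -/

theorem arp_log (K : ℝ) (h : ∀ s : ℝ, 1 < s → s ≤ 2 → Real.log (1 / (s - 1)) ≤ K) : False := by
  have h0 : 0 < Real.exp (-(|K| + 1)) := Real.exp_pos _
  have h1 : Real.exp (-(|K| + 1)) ≤ 1 :=
    Real.exp_le_one_iff.2 (by linarith [abs_nonneg K])
  have h2 := h (1 + Real.exp (-(|K| + 1))) (by linarith) (by linarith)
  rw [add_sub_cancel_left, one_div, ← Real.exp_neg, neg_neg, Real.log_exp] at h2
  linarith [le_abs_self K]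

/-- a character of the system trivial on all primes -/
theorem arp_nd (S : Sys) (c : S.T) (h : ∀ p, c ⬝ᵥ S.ty p = 0) : c = 0 := by
  by_contra hc
  obtain ⟨K0, h0⟩ := S.prm0
  obtain ⟨K1, h1⟩ := S.prm ∅ c (Or.inr hc)
  refine arp_log (K0 + K1) fun s hs hs2 => ?_
  have h2 := h0 s hs hs2
  have h3 := h1 s hs hs2
  have h4 : ∀ p : S.P, ((S.toPre.chp ∅ (fun p => ∑ q ∈ (∅ : Finset S.P), S.J q p + c ⬝ᵥ S.ty p) p
      : ℤ) : ℝ) * (S.N p : ℝ) ^ (-s) = (S.N p : ℝ) ^ (-s) := by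
    intro p
    unfold Pre.chp
    rw [if_neg (Finset.notMem_empty p)]
    beta_reduce
    rw [Finset.sum_empty, h p, add_zero]
    have : sg 0 = 1 := rfl
    rw [this, Int.cast_one, one_mul]
  rw [tsum_congr h4] at h3
  have h5 := abs_le.1 h2
  have h6 := abs_le.1 h3
  linarith [h5.1, h6.2]

/-- the coordinates of `-1` -/
theorem arp_neg_one : IsSquare ((-1 : kˣ) * ∏ j, Fr.u j ^ (Fr.sys.l j).val) := by
  have h0 : ∀ p : Fr.sys.P, ord (Fr.pl p) ((-1 : kˣ) : k) = 0 := by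
    intro p
    rw [Units.val_neg, Units.val_one]
    exact Pool.Agent.H98.MF.B.ord_neg_one _
  obtain ⟨c, hc⟩ := hb_even Fr (-1) fun p => by
    rw [h0 p]
    exact Even.zero
  have h1 : c - Fr.sys.l = 0 := by
    refine arp_nd Fr.sys _ fun p => ?_
    have e1 := hb_qr_sq hc (Fr.pl p)
    rw [hb_qr_U, Units.val_neg, Units.val_one, ← Fr.lam_eq p] at e1
    have e2 : Fr.sys.l ⬝ᵥ Fr.sys.ty p = c ⬝ᵥ Fr.sys.ty p := e1
    rw [sub_dotProduct, e2, sub_self]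
  have h2 : c = Fr.sys.l := sub_eq_zero.1 h1
  rw [← h2]
  exact hc

omit [NumberField k] in
theorem arp_alg (P1 P2 P3 P4 Ua Ub Uv U4 Ul Uab Uabv t1 t2 t3 s : kˣ)
    (e1 : Ua * Ub = Uab * t1 ^ 2) (e2 : Uab * Uv = Uabv * t2 ^ 2)
    (e3 : Ul * Uabv = U4 * t3 ^ 2) (e4 : (-1) * Ul = s * s) :
    (U4 * (P2 * P4)) * (-((Ua * (P1 * P2)) * (Ub * (P3 * P4))) * (Uv * (P1 * P3))) =
      (s * (P1 * P2 * P3 * P4) * Uabv * t1 * t2 * t3⁻¹) ^ 2 := by
  have h1 : (Ua : k) * Ub = Uab * t1 ^ 2 := by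
    have := congrArg (Units.val (α := k)) e1
    simpa only [Units.val_mul, Units.val_pow_eq_pow_val] using this
  have h2 : (Uab : k) * Uv = Uabv * t2 ^ 2 := by
    have := congrArg (Units.val (α := k)) e2
    simpa only [Units.val_mul, Units.val_pow_eq_pow_val] using this
  have h3 : (Ul : k) * Uabv = U4 * t3 ^ 2 := by
    have := congrArg (Units.val (α := k)) e3
    simpa only [Units.val_mul, Units.val_pow_eq_pow_val] using this
  have h4 : (-1 : k) * Ul = s * s := by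
    have := congrArg (Units.val (α := k)) e4
    simpa only [Units.val_mul, Units.val_neg, Units.val_one] using this
  have ht3 : (t3 : k) ≠ 0 := t3.ne_zero
  apply Units.ext
  rw [Units.val_pow_eq_pow_val]
  simp only [Units.val_mul, Units.val_neg, Units.val_inv_eq_inv_val]
  have h5 : ((s : k) * (P1 * P2 * P3 * P4) * Uabv * t1 * t2 * (t3 : k)⁻¹) ^ 2 =
      ((s : k) * (P1 * P2 * P3 * P4) * Uabv * t1 * t2) ^ 2 / t3 ^ 2 := by
    rw [← div_eq_mul_inv, div_pow]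
  rw [h5, eq_div_iff (pow_ne_zero 2 ht3)]
  linear_combination ((P1 * P2 * P3 * P4 : k) ^ 2 * Ua * Ub * Uv) * h3 -
    (P1 * P2 * P3 * P4 : k) ^ 2 * Ul * Uabv * Uv * h1 -
    (P1 * P2 * P3 * P4 : k) ^ 2 * Ul * Uabv * t1 ^ 2 * h2 +
    (P1 * P2 * P3 * P4 : k) ^ 2 * Uabv ^ 2 * t1 ^ 2 * t2 ^ 2 * h4

theorem arp_sq_mir (c : Cg Fr.sys) (hD : c.Dj) :
    ∃ t : kˣ, rep Fr (Fr.sys.l + c.ua + c.ub + c.uv, c.x2 ∪ c.x4) *
      (-(c.ea * c.eb) * c.ee) = t ^ 2 := by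
  classical
  obtain ⟨h1, h2, h3⟩ := hD
  have d13 : Disjoint c.x1 c.x3 := h3.mono (Finset.subset_union_left) (Finset.subset_union_left)
  have d24 : Disjoint c.x2 c.x4 := h3.mono (Finset.subset_union_right) (Finset.subset_union_right)
  obtain ⟨s, hs1⟩ := arp_neg_one Fr
  obtain ⟨t1, ht1⟩ := NFrm_prod_add Fr.u c.ua c.ub
  obtain ⟨t2, ht2⟩ := NFrm_prod_add Fr.u (c.ua + c.ub) c.uv
  obtain ⟨t3, ht3⟩ := NFrm_prod_add Fr.u Fr.sys.l (c.ua + c.ub + c.uv)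
  have e : Fr.sys.l + (c.ua + c.ub + c.uv) = Fr.sys.l + c.ua + c.ub + c.uv := by
    rw [← add_assoc, ← add_assoc]
  rw [e] at ht3
  have key := arp_alg (∏ p ∈ c.x1, Fr.pi p) (∏ p ∈ c.x2, Fr.pi p) (∏ p ∈ c.x3, Fr.pi p)
    (∏ p ∈ c.x4, Fr.pi p) _ _ _ _ _ _ _ t1 t2 t3 s ht1 ht2 ht3 hs1
  rw [← Finset.prod_union h1, ← Finset.prod_union h2, ← Finset.prod_union d13,
    ← Finset.prod_union d24] at key
  exact ⟨_, key⟩

theorem arp_hS_mir (hk : LIn k) (c : Cg Fr.sys) (hD : c.Dj) (t : kˣ) :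
    hS Fr t (rep Fr (Fr.sys.l + c.ua + c.ub + c.uv, c.x2 ∪ c.x4)) =
      hS Fr t (-(c.ea * c.eb)) + hS Fr t c.ee := by
  rw [← arp_hS_mulR Fr hk]
  refine arp_hS_loc Fr hk _ _ _ fun v _ => ?_
  obtain ⟨w, hw⟩ := arp_sq_mir Fr c hD
  rw [hw]
  exact Pool.Agent.H98.MF.B.LocP_sq v w

theorem arp_twF {a b : kˣ} {f : Gm k → ZMod 2} (hf : IsF a b f) (t : kˣ) :
    IsF a b fun σ => f σ + chi (t : k) σ := by
  refine ⟨hf.lc.add (chiM_lc (t : k)), fun σ τ => ?_⟩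
  rw [hf.hom, chiM_hom]
  ring

open Classical in
/-- the function `R` in terms of elements -/
noncomputable def arpR (G : LDt k) (a b e : kˣ) (x : Finset Fr.sys.P) : ℝ :=
  if h : ∃ f, IsL Fr Rk a b ∅ f then
    Gh Fr G e a b h.choose *
      ((sg (∑ p ∈ x, ob (Sum.inl (Fr.pl p)) a b h.choose) : ℤ) : ℝ)
  else 0

/-- twisting the transform by the class of `-ab` -/
theorem arp_Gh (hk : LIn k) (hOT : SaObT k) (G : LDt k) (hG : LG Fr G) (c : Cg Fr.sys)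
    (hD : c.Dj) (f : Gm k → ZMod 2) (hf : IsF (c.ea (Fr := Fr)) c.eb f) :
    Gh Fr G (rep Fr (Fr.sys.l + c.ua + c.ub + c.uv, c.x2 ∪ c.x4)) c.ea c.eb f =
      Gh Fr G c.ee c.ea c.eb f *
        ((sg (∑ v ∈ pls Fr.S, ob v c.ea c.eb f) : ℤ) : ℝ) := by
  unfold Gh
  rw [mul_assoc, Finset.sum_mul]
  congr 1
  refine Finset.sum_congr rfl fun y _ => ?_
  rw [Finset.sum_mul]
  refine Finset.sum_congr rfl fun z _ => ?_
  by_cases h0 : G (dat c.ea c.eb fun σ => f σ + chi (cl Fr y z : k) σ) = 0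
  · rw [h0, zero_mul, zero_mul, zero_mul]
  · have h1 := hG.sup _ _ _ (arp_twF hf (cl Fr y z)) h0
    have h2 : hS Fr (cl Fr y z) (-(c.ea * c.eb)) = ∑ v ∈ pls Fr.S, ob v c.ea c.eb f := by
      unfold hS
      refine Finset.sum_congr rfl fun v hv' => ?_
      have e1 := hOT c.ea c.eb (cl Fr y z) f hf v
      rw [h1 v hv'] at e1
      rw [Units.val_neg, Units.val_mul]
      exact (arp_add_self _ _ e1.symm).symm
    rw [arp_hS_mir Fr hk c hD, h2, arp_sg_add, Int.cast_mul]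
    ring

/-- AT7: the symmetry of the function `R` -/
theorem ars (hk : LIn k) (hOT : SaObT k) (hON : SaObN k) (hOS : SaObS k) : SaRs Fr Rk := by
  classical
  intro G hG c hD _ _
  have ea' : (⟨c.x2, c.x1, c.x4, c.x3, c.ua, c.ub, Fr.sys.l + c.ua + c.ub + c.uv⟩ :
      Cg Fr.sys).ea (Fr := Fr) = c.ea := by
    unfold Cg.ea
    simp only [Finset.union_comm]
  have eb' : (⟨c.x2, c.x1, c.x4, c.x3, c.ua, c.ub, Fr.sys.l + c.ua + c.ub + c.uv⟩ :
      Cg Fr.sys).eb (Fr := Fr) = c.eb := by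
    unfold Cg.eb
    simp only [Finset.union_comm]
  show arpR Fr Rk G (Cg.ea ⟨c.x2, c.x1, c.x4, c.x3, c.ua, c.ub,
    Fr.sys.l + c.ua + c.ub + c.uv⟩) (Cg.eb ⟨c.x2, c.x1, c.x4, c.x3, c.ua, c.ub,
    Fr.sys.l + c.ua + c.ub + c.uv⟩) (rep Fr (Fr.sys.l + c.ua + c.ub + c.uv, c.x2 ∪ c.x4))
    (c.x2 ∪ c.x4) = arpR Fr Rk G c.ea c.eb c.ee (c.x1 ∪ c.x3)
  rw [ea', eb']
  unfold arpR
  by_cases h : ∃ f, IsL Fr Rk (c.ea (Fr := Fr)) c.eb ∅ f
  · rw [dif_pos h, dif_pos h]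
    have hf := h.choose_spec
    rw [arp_Gh Fr hk hOT G hG c hD _ hf.1]
    have hsum : ∑ v ∈ pls (Fr.S ∪ (c.ram (Fr := Fr)).image Fr.pl),
        ob v c.ea c.eb h.choose = 0 := by
      refine hOS _ _ _ hf.1 _ fun P hP => ?_
      rw [Finset.mem_union, not_or] at hP
      obtain ⟨p, rfl⟩ := (Fr.pl_iff P).2 hP.1
      have hp : p ∉ c.ram (Fr := Fr) := fun hp => hP.2 (Finset.mem_image_of_mem _ hp)
      unfold Cg.ram at hp
      rw [Finset.mem_union, not_or] at hp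
      refine hON Fr Rk _ _ _ hf.1 p ?_ ?_ (hf.2 p (Finset.notMem_empty p))
      · unfold Cg.ea
        rw [h_repO Fr _ p, if_neg hp.1]
        exact Even.zero
      · unfold Cg.eb
        rw [h_repO Fr _ p, if_neg hp.2]
        exact Even.zero
    have hdis : Disjoint Fr.S ((c.ram (Fr := Fr)).image Fr.pl) := by
      rw [Finset.disjoint_right]
      intro P hP
      obtain ⟨p, -, rfl⟩ := Finset.mem_image.1 hP
      exact (Fr.pl_iff _).1 ⟨p, rfl⟩
    have hsum2 : ∑ v ∈ pls (Fr.S ∪ (c.ram (Fr := Fr)).image Fr.pl), ob v c.ea c.eb h.choose =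
        ∑ v ∈ pls Fr.S, ob v c.ea c.eb h.choose +
          ∑ p ∈ c.ram (Fr := Fr), ob (Sum.inl (Fr.pl p)) c.ea c.eb h.choose := by
      unfold pls
      rw [Finset.sum_disjSum, Finset.sum_disjSum, Finset.sum_union hdis,
        Finset.sum_image fun p _ q _ hpq => Fr.pl_inj hpq]
      ring
    have hram : c.ram (Fr := Fr) = (c.x1 ∪ c.x3) ∪ (c.x2 ∪ c.x4) := by
      unfold Cg.ram
      ext p
      simp only [Finset.mem_union]
      tauto
    have hd2 : Disjoint (c.x1 ∪ c.x3) (c.x2 ∪ c.x4) := by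
      obtain ⟨h1, h2, h3⟩ := hD
      simp only [Finset.disjoint_union_left, Finset.disjoint_union_right] at h3 ⊢
      exact ⟨⟨h1, h3.1.2.symm⟩, ⟨h3.2.1, h2⟩⟩
    rw [hsum2, hram, Finset.sum_union hd2] at hsum
    set A := ∑ v ∈ pls Fr.S, ob v c.ea c.eb h.choose with hA
    set B := ∑ p ∈ c.x1 ∪ c.x3, ob (Sum.inl (Fr.pl p)) c.ea c.eb h.choose with hB
    set C := ∑ p ∈ c.x2 ∪ c.x4, ob (Sum.inl (Fr.pl p)) c.ea c.eb h.choose with hC
    have h6 : A + C = B := by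
      have : ∀ A B C : ZMod 2, A + (B + C) = 0 → A + C = B := by decide
      exact this A B C hsum
    rw [mul_assoc, ← Int.cast_mul, ← arp_sg_add, h6]
  · rw [dif_neg h, dif_neg h]

end

end Pool.Agent.D8
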