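import Pool.Agent.D8.AStm
import Pool.Agent.H98.MF.D.ExRx

/-!
# Project D8, row AC0: tame generators with inertia and Frobenius congruences
-/

set_option autoImplicit false

open scoped BigOperators Pointwise
open NumberField IsDedekindDomain

namespace Pool.Agent.D8

open Pool.Agent.H98.MF
open Pool.Agent.H98.ML (norb m3_norb)

section

variable {k : Type} [Field k] [NumberField k]

/-- the congruences at a finite layer -/
def arx_K (P : HeightOneSpectrum (𝓞 k)) (U : Subgroup (Gm k)) : Set (Gm k × Gm k) :=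
  {x | ∀ y : 𝓞 (Om k), (∀ σ ∈ U, σ • y = y) →
    x.1 • y - y ∈ top P ∧ x.2 • y - y ^ Ideal.absNorm P.asIdeal ∈ top P}

theorem arx_closed (P : HeightOneSpectrum (𝓞 k)) (U : Subgroup (Gm k)) :
    IsClosed (arx_K P U) := by
  let _ : TopologicalSpace (𝓞 (Om k)) := ⊥
  have _ : DiscreteTopology (𝓞 (Om k)) := ⟨rfl⟩
  have _ : ContinuousSMul (Gm k) (𝓞 (Om k)) := tp_cont k
  have h1 : arx_K P U = ⋂ (y : 𝓞 (Om k)) (_ : ∀ σ ∈ U, σ • y = y),
      ((fun x : Gm k × Gm k => x.1 • y) ⁻¹' {z | z - y ∈ top P}) ∩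
      ((fun x : Gm k × Gm k => x.2 • y) ⁻¹' {z | z - y ^ Ideal.absNorm P.asIdeal ∈ top P}) := by
    ext x
    simp only [Set.mem_iInter]
    exact Iff.rfl
  rw [h1]
  refine isClosed_iInter fun y => isClosed_iInter fun _ => ?_
  refine IsClosed.inter ?_ ?_
  · exact (isClosed_discrete _).preimage (continuous_fst.smul continuous_const)
  · exact (isClosed_discrete _).preimage (continuous_snd.smul continuous_const)

theorem arx_mono (P : HeightOneSpectrum (𝓞 k)) {U U' : Subgroup (Gm k)} (h : U' ≤ U) :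
    arx_K P U' ⊆ arx_K P U := fun _ hx y hy => hx y fun σ hσ => hy σ (h hσ)

/-- an integer of the closure fixed by `U` is an integer of the fixed field -/
theorem arx_low (U : Subgroup (Gm k)) (y : 𝓞 (Om k)) (hy : ∀ σ ∈ U, σ • y = y) :
    ∃ x : 𝓞 (fld k U), algebraMap (𝓞 (fld k U)) (𝓞 (Om k)) x = y := by
  have h1 : (y : Om k) ∈ fld k U := by
    refine (IntermediateField.mem_fixedField_iff U (y : Om k)).2 fun σ hσ => ?_
    have h2 : ((σ • y : 𝓞 (Om k)) : Om k) = y := by rw [hy σ hσ]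
    exact h2
  have h3 : IsIntegral ℤ (⟨(y : Om k), h1⟩ : fld k U) := by
    have h4 : IsIntegral ℤ (algebraMap (fld k U) (Om k) ⟨(y : Om k), h1⟩) := y.2
    exact (isIntegral_algebraMap_iff (algebraMap (fld k U) (Om k)).injective).1 h4
  exact ⟨⟨⟨(y : Om k), h1⟩, h3⟩, RingOfIntegers.coe_injective rfl⟩

theorem arx_fin (P : HeightOneSpectrum (𝓞 k)) (h2 : ord P (2 : k) = 0) (U : Subgroup (Gm k))
    [U.Normal] (hU : IsOpen (U : Set (Gm k))) (j : ℕ) (hj : U.index = 2 ^ j) :
    (d8_C P U ∩ arx_K P U).Nonempty := by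
  have hfin : Module.finrank k (fld k U) = 2 ^ j := (fldK_finrank U hU).trans hj
  have hFD : FiniteDimensional k (fld k U) := fldK_finite U hU
  have hNU : NumberField (fld k U) := fldK_nf U hU
  have hGal : IsGalois k (fld k U) := fldK_galois U hU
  have hQp : (low P (fld k U)).IsPrime := low_prime P (fld k U)
  have hQc := low_comap P (fld k U)
  obtain ⟨τ0, φ0, hz, hφ0, hφQ, hrel⟩ := rd_gen j hfin P h2 (low P (fld k U)) hQc
  have hin0 : τ0 ∈ (low P (fld k U)).inertia (fld k U ≃ₐ[k] fld k U) := by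
    rw [← hz]
    exact Subgroup.mem_zpowers _
  obtain ⟨π, hπs, hπk, hπ⟩ := exists_resK U hU
  obtain ⟨τ, hτD, hτ0⟩ := dec_surj P (fld k U) τ0 (Ideal.inertia_le_stabilizer _ hin0)
  obtain ⟨φ, hφD, hφ1⟩ := dec_surj P (fld k U) φ0 hφQ
  have hres : ∀ σ : Gm k, π σ = AlgEquiv.restrictNormal σ (fld k U) := by
    intro σ
    apply AlgEquiv.ext
    intro x
    apply Subtype.ext
    rw [hπ]
    exact (AlgEquiv.restrictNormal_commutes σ (fld k U) x).symm
  have hτ : π τ = τ0 := (hres τ).trans hτ0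
  have hφ : π φ = φ0 := (hres φ).trans hφ1
  subst hτ hφ
  have key : ∀ a : k, ∀ h : H98.MF.sq a ∈ fld k U,
      (⟨H98.MF.sq a, h⟩ : fld k U) ^ 2 = algebraMap k (fld k U) a := by
    intro a h
    apply Subtype.ext
    exact sq_sq a
  refine ⟨(τ, φ), ⟨hτD, hφD, ?_, ?_, ?_, ?_⟩, ?_⟩
  · rw [← hπk, MonoidHom.mem_ker, map_mul, map_mul, map_mul, map_inv, map_inv, map_pow, hrel,
      mul_inv_cancel]
  · intro W hUW
    have hWc : (W.map π).comap π = W := by
      rw [Subgroup.comap_map_eq, hπk, sup_eq_left.2 hUW]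
    have h1 := rd_orb j hfin P h2 (low P (fld k U)) hQc (π τ) hz (W.map π)
    have h2 : norb W τ = norb (W.map π) (π τ) := by
      conv_lhs => rw [← hWc]
      exact m3_norb π hπs (W.map π) τ
    have h3 : W.index = (W.map π).index := by
      conv_lhs => rw [← hWc]
      exact Subgroup.index_comap_of_surjective _ hπs
    change rexp P (fld k W) + norb W τ = W.index
    rw [fin_rexp_eq P U W hUW π hπ, h2, h3]
    exact h1
  · intro a ha hev hσ
    have hmem : H98.MF.sq a ∈ fld k U := fin_sq_mem hσ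
    have h1 := rd_quad_inertia P h2 (low P (fld k U)) hQc ha hev (key a hmem) (π τ) hin0
    have h3 := rd_quad_frob P h2 (low P (fld k U)) hQc ha hev (key a hmem) (π φ) hφ0
    have h1' : τ (H98.MF.sq a) = H98.MF.sq a := by
      have := congrArg (fun z : fld k U => (z : Om k)) h1
      simpa only [hπ] using this
    refine ⟨(chi_eq_zero_iff (sq_sq a) τ).2 h1', ?_⟩
    change chi a φ = qr a P
    unfold qr
    by_cases hl : LocSq P a
    · rw [if_pos hl]
      have h4 := h3.1 hl
      have h4' : φ (H98.MF.sq a) = H98.MF.sq a := by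
        have := congrArg (fun z : fld k U => (z : Om k)) h4
        simpa only [hπ] using this
      exact (chi_eq_zero_iff (sq_sq a) φ).2 h4'
    · rw [if_neg hl]
      have h4 := h3.2 hl
      have h4' : φ (H98.MF.sq a) = -H98.MF.sq a := by
        have := congrArg (fun z : fld k U => (z : Om k)) h4
        simp only [hπ] at this
        exact this
      exact (chi_eq_one_iff ha (sq_sq a) φ).2 h4'
  · intro a hod hσ
    have ha : a ≠ 0 := by
      rintro rfl
      unfold ord at hod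
      rw [FractionalIdeal.spanSingleton_zero, FractionalIdeal.count_zero] at hod
      exact absurd hod (by decide)
    have hmem : H98.MF.sq a ∈ fld k U := fin_sq_mem hσ
    have h1 := rd_quad_ram P (low P (fld k U)) hQc hod (key a hmem) (π τ) hz
    have h1' : τ (H98.MF.sq a) = -H98.MF.sq a := by
      have := congrArg (fun z : fld k U => (z : Om k)) h1
      simp only [hπ] at this
      exact this
    exact (chi_eq_one_iff ha (sq_sq a) τ).2 h1'
  · intro y hy
    obtain ⟨x, rfl⟩ := arx_low U y hy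
    constructor
    · have h1 : π τ • x - x ∈ low P (fld k U) := hin0 x
      rw [tp_mem_low, map_sub, hres τ, tp_res] at h1
      exact h1
    · have h1 : π φ • x - x ^ Ideal.absNorm P.asIdeal ∈ low P (fld k U) := hφ0 x
      rw [tp_mem_low, map_sub, map_pow, hres φ, tp_res] at h1
      exact h1

theorem arx_ex (P : HeightOneSpectrum (𝓞 k)) (h2 : ord P (2 : k) = 0) :
    ∃ τ φ : Gm k, TF P τ φ := by
  have : CompactSpace (Gm k) := gm_compact
  have : Nonempty (D8I k) := ⟨⟨⊤, inferInstance, isOpen_univ, 0, by simp⟩⟩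
  have key : (⋂ i : D8I k, (d8_C P i.1 ∩ arx_K P i.1)).Nonempty := by
    refine IsCompact.nonempty_iInter_of_directed_nonempty_isCompact_isClosed
      (fun i : D8I k => d8_C P i.1 ∩ arx_K P i.1) ?_ ?_ ?_ ?_
    · intro U V
      obtain ⟨T, h1, h2⟩ := d8_inf U V
      exact ⟨T, Set.inter_subset_inter (d8_mono P h1) (arx_mono P h1),
        Set.inter_subset_inter (d8_mono P h2) (arx_mono P h2)⟩
    · rintro ⟨U, hU1, hU2, j, hj⟩
      exact @arx_fin k _ _ P h2 U hU1 hU2 j hj
    · rintro ⟨U, hU1, hU2, j, hj⟩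
      exact ((d8_closed P hU2).inter (arx_closed P U)).isCompact
    · rintro ⟨U, hU1, hU2, j, hj⟩
      exact (d8_closed P hU2).inter (arx_closed P U)
  obtain ⟨⟨τ, φ⟩, hx⟩ := key
  rw [Set.mem_iInter] at hx
  refine ⟨τ, φ, ⟨⟨(hx (d8_kI 1)).1.1, (hx (d8_kI 1)).1.2.1, ?_, ?_, ?_, ?_⟩, ?_, ?_⟩⟩
  · intro U hU1 hU2 hk
    exact (hx ⟨U, hU1, hU2, hk⟩).1.2.2.1
  · intro U hU1 hU2 hk W hW
    exact (hx ⟨U, hU1, hU2, hk⟩).1.2.2.2.1 W hW
  · intro a ha hev
    exact (hx (d8_kI a)).1.2.2.2.2.1 a ha hev fun σ hσ => hσ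
  · intro a ha
    exact (hx (d8_kI a)).1.2.2.2.2.2 a ha fun σ hσ => hσ
  · rintro x ⟨U, hU1, hU2, hU3, hU4⟩
    exact ((hx ⟨U, hU1, hU2, hU3⟩).2 x hU4).1
  · rintro x ⟨U, hU1, hU2, hU3, hU4⟩
    exact ((hx ⟨U, hU1, hU2, hU3⟩).2 x hU4).2

open Classical in
/-- a universal tame generator and a Frobenius element with the congruences -/
noncomputable def arx_pair (P : HeightOneSpectrum (𝓞 k)) : Gm k × Gm k :=
  if h : ∃ x : Gm k × Gm k, TF P x.1 x.2 then h.choose else 1

theorem arx_pair_spec (P : HeightOneSpectrum (𝓞 k)) (h2 : ord P (2 : k) = 0) :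
    TF P (arx_pair P).1 (arx_pair P).2 := by
  have h : ∃ x : Gm k × Gm k, TF P x.1 x.2 := by
    obtain ⟨τ, φ, h⟩ := arx_ex P h2
    exact ⟨(τ, φ), h⟩
  have h1 : arx_pair P = h.choose := dif_pos h
  rw [h1]
  exact h.choose_spec

end

/-- AC0: tame generators and Frobenius elements exist -/
theorem arx (k : Type) [Field k] [NumberField k] : SaRx k := by
  refine ⟨{
    rex := fun P U => rexp P (fld k U)
    tau := fun P => (arx_pair P).1
    fin := fun U _ => rexp_finite (fld k U)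
    prod := fun U hU => ?_
    loc := fun G _ _ ρ ρ' H hc hc' hs hs' P h => ?_
    disc := fun P h2 U hn hU hj W hUW => ?_
    chi := fun P h2 a => ?_
    phi := fun P => (arx_pair P).2
    tf := fun P h2 => arx_pair_spec P h2 }⟩
  · have := fldK_finite U hU
    exact rdN_eq (fld k U)
  · refine rexp_dec P H ρ ρ' (ker_openK ρ hc) (ker_openK ρ' hc') hs hs' 1 fun σ hσ => ?_
    rw [h σ hσ, one_mul, inv_one, mul_one]
  · exact (arx_pair_spec P h2).disc U hn hU hj W hUW
  · have hφ := arx_pair_spec P h2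
    rcases Int.even_or_odd (ord P (a : k)) with he | ho
    · rw [(hφ.chi0 (a : k) a.ne_zero he).1]
      exact ((ZMod.intCast_eq_zero_iff_even).2 he).symm
    · rw [hφ.chi1 (a : k) ho]
      exact ((ZMod.intCast_eq_one_iff_odd).2 ho).symm

end Pool.Agent.D8
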