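import Pool.Agent.D8.ADefs

/-!
# The dihedral group of order 16 over a number field: statements of the algebraic rows
-/

set_option autoImplicit false

open scoped BigOperators
open NumberField IsDedekindDomain

namespace Pool.Agent.D8

open Pool.Agent.H98.MF
open Pool.Agent.H98.MK (sg)
open Pool.Agent.H32.MQ (El rep co)

/-- the sign in the closure -/
noncomputable def so {k : Type} [Field k] [NumberField k] (x : ZMod 2) : Om k :=
  if x = 0 then 1 else -1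

section

variable {k : Type} [Field k] [NumberField k]

/-- the action on a square root of `x + y √b` -/
def IsTh (b : kˣ) (x y : k) (f : Gm k → ZMod 2) : Prop :=
  ∃ θ θ' : Om k, θ ^ 2 = algebraMap k (Om k) x + algebraMap k (Om k) y * Pool.Agent.H98.MF.sq (b : k) ∧
    θ' ^ 2 = algebraMap k (Om k) x - algebraMap k (Om k) y * Pool.Agent.H98.MF.sq (b : k) ∧
    (∀ σ : Gm k, chi (b : k) σ = 0 → σ θ = so (f σ) * θ) ∧
    (∀ σ : Gm k, chi (b : k) σ = 1 → σ θ = so (f σ) * θ')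

variable (k)

/-! ### rows AC: cochains and obstructions -/

/-- AC1: existence of the second bit attached to `x + y √b` -/
def SaTh : Prop := ∀ (a b : kˣ) (x y : k), (a : k) = x ^ 2 - b * y ^ 2 →
  ∃ f : Gm k → ZMod 2, IsTh b x y f ∧ IsF a b f

/-- AC2: the explicit cochain -/
def SaCoc : Prop := ∀ (a b x : kˣ) (y : k) (f : Gm k → ZMod 2),
  (a : k) = (x : k) ^ 2 - b * y ^ 2 → IsTh b (x : k) y f →
  ∃ h : Gm k → ZMod 2, IsLocallyConstant h ∧ ∀ σ τ,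
    bit3 (chi (b : k) (σ * τ)) (f (σ * τ) + chi (2 * x : k) (σ * τ)) (h (σ * τ)) =
      bit3 (chi (b : k) σ) (f σ + chi (2 * x : k) σ) (h σ) +
      pm (chi (a : k) σ + chi (b : k) σ) * p5 (chi (2 : k) σ) *
        bit3 (chi (b : k) τ) (f τ + chi (2 * x : k) τ) (h τ)

/-- AC3: third bits and cup products -/
def SaTriv : Prop := ∀ (a b x t : kˣ) (y : k) (f : Gm k → ZMod 2),
  (a : k) = (x : k) ^ 2 - b * y ^ 2 → IsTh b (x : k) y f → ∀ D : Subgroup (Gm k),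
  ((∃ h, IsH D a b (fun σ => f σ + chi (t : k) σ) h) ↔
    Triv D ![(2 : k), 2 * x * t] ![(b : k), -(a * b)])

/-- AC4: representations with a nonzero first coordinate -/
def SaRep : Prop := ∀ a b : kˣ, Slv a b → ∃ (x : kˣ) (y : k), (a : k) = (x : k) ^ 2 - b * y ^ 2

/-- AC5: all second bits over a pair -/
def SaKu : Prop := ∀ (a b : kˣ) (f f' : Gm k → ZMod 2), IsF a b f →
  (IsF a b f' ↔ ∃ t : kˣ, ∀ σ, f' σ = f σ + chi (t : k) σ)

/-- AC5: quadratic characters determine the class -/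
def SaKuI : Prop := ∀ t t' : kˣ, (∀ σ : Gm k, chi (t : k) σ = chi (t' : k) σ) →
  IsSquare (t * t')

/-- AC6: solvability -/
def SaSl : Prop := ∀ a b : kˣ, (∃ f, IsF a b f) ↔ Slv a b

/-- AC7: the obstruction in terms of symbols -/
def SaOb : Prop := ∀ (a b x t : kˣ) (y : k) (f : Gm k → ZMod 2),
  (a : k) = (x : k) ^ 2 - b * y ^ 2 → IsTh b (x : k) y f → ∀ v : Pl k,
    ob v a b (fun σ => f σ + chi (t : k) σ) =
      hv v (2 : k) (b : k) + hv v (2 * x * t : k) (-(a * b) : k)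

/-- AC8: twists -/
def SaObT : Prop := ∀ (a b t : kˣ) (f : Gm k → ZMod 2), IsF a b f → ∀ v : Pl k,
  ob v a b (fun σ => f σ + chi (t : k) σ) = ob v a b f + hv v (t : k) (-(a * b) : k)

/-- AC9: the local-global principle -/
def SaObG : Prop := ∀ (a b : kˣ) (f : Gm k → ZMod 2), IsF a b f →
  ((∃ h, IsH ⊤ a b f h) ↔ ∀ v : Pl k, ob v a b f = 0)

/-- AC10: the product formula -/
def SaObS : Prop := ∀ (a b : kˣ) (f : Gm k → ZMod 2), IsF a b f →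
  ∀ T : Finset (HeightOneSpectrum (𝓞 k)),
    (∀ P, P ∉ T → ob (Sum.inl P : Pl k) a b f = 0) → ∑ v ∈ pls T, ob v a b f = 0

/-- AC11: primes where nothing is ramified -/
def SaObN : Prop := ∀ (Fr : Frm k) (Rk : RxF k) (a b : kˣ) (f : Gm k → ZMod 2), IsF a b f →
  ∀ p, Even (ord (Fr.pl p) (a : k)) → Even (ord (Fr.pl p) (b : k)) →
    f (Rk.tau (Fr.pl p)) = 0 → ob (Sum.inl (Fr.pl p) : Pl k) a b f = 0

/-- AC12: a hom on the decomposition group -/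
def SaObH : Prop := ∀ (a b c : kˣ) (v : Pl k) (f : Gm k → ZMod 2), IsF a b f →
  (LocP v (a : k) ∨ LocP v (b : k)) → (∀ σ ∈ DecP v, f σ = chi (c : k) σ) →
    ob v a b f = hv v (c : k) (-(a * b) : k)

/-- AC12: existence of the local character -/
def SaChr : Prop := ∀ (a b : kˣ) (v : Pl k) (f : Gm k → ZMod 2), IsF a b f →
  (LocP v (a : k) ∨ LocP v (b : k)) → ∃ c : kˣ, ∀ σ ∈ DecP v, f σ = chi (c : k) σ

/-- AC13: the obstruction at a ramified prime -/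
def SaObF : Prop := ∀ (Fr : Frm k) (Rk : RxF k) (a b : kˣ) (f : Gm k → ZMod 2), IsF a b f →
  ∀ p, Odd (ord (Fr.pl p) (a : k) + ord (Fr.pl p) (b : k)) → f (Rk.tau (Fr.pl p)) = 0 →
    ob (Sum.inl (Fr.pl p) : Pl k) a b f = f (Rk.phi (Fr.pl p))

/-- AC0: tame generators and Frobenius elements exist -/
def SaRx : Prop := Nonempty (RxF k)

end

section

variable {k : Type} [Field k] [NumberField k] (Fr : Frm k) (Rk : RxF k)

/-! ### rows AT: the group of twists -/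

/-- AT1: normal second bits -/
def SaNor : Prop := ∀ a b : kˣ, Slv a b → ∃ f, IsL Fr Rk a b ∅ f

/-- AT1: the second bits ramified only in `W` -/
def SaTor : Prop := ∀ (a b : kˣ) (W : Finset Fr.sys.P) (f f' : Gm k → ZMod 2),
  IsL Fr Rk a b ∅ f → (IsL Fr Rk a b W f' ↔
    ∃ (y : Fr.sys.T) (r : Finset Fr.sys.P), r ⊆ W ∧ ∀ σ, f' σ = f σ + chi (rep Fr (y, r) : k) σ)

/-- AT1: uniqueness -/
def SaTorU : Prop := ∀ (y y' : Fr.sys.T) (r r' : Finset Fr.sys.P),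
  (∀ σ : Gm k, chi (rep Fr (y, r) : k) σ = chi (rep Fr (y', r') : k) σ) → y = y' ∧ r = r'

/-- AT2: Fourier inversion over the local twists -/
def SaFou : Prop := ∀ (G : LDt k), SLoc Fr G → ∀ (a b t : kˣ) (f : Gm k → ZMod 2),
  G (dat a b fun σ => f σ + chi (t : k) σ) =
    ∑ y : Fr.sys.T, ∑ z : Fr.sys.T, Gh Fr G (cl Fr y z) a b f *
      ((sg (hS Fr t (cl Fr y z)) : ℤ) : ℝ)

/-- AT2: twisting the transform -/
def SaGhT : Prop := ∀ (G : LDt k), SLoc Fr G → ∀ (κ a b t : kˣ) (f : Gm k → ZMod 2),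
  Gh Fr G κ a b (fun σ => f σ + chi (t : k) σ) =
    Gh Fr G κ a b f * ((sg (hS Fr t κ) : ℤ) : ℝ)

/-- AT2: the transform is bounded -/
def SaGhB : Prop := ∀ (G : LDt k), (∀ d, |G d| ≤ 1) → ∀ (κ a b : kˣ) (f : Gm k → ZMod 2),
  |Gh Fr G κ a b f| ≤ 1

/-- AT3: orthogonality over the units -/
def SaOrU : Prop := ∀ (e : Finset Fr.sys.P) (y z : Fr.sys.T),
  (∀ u : Fr.sys.T, hS Fr (rep Fr (u, ∅)) (cl Fr y z) =
    ∑ p ∈ e, qr (rep Fr (u, ∅) : k) (Fr.pl p)) ↔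
  ∃ uv : Fr.sys.T, ∀ v ∈ pls Fr.S, LocP v ((cl Fr y z * rep Fr (uv, e) : kˣ) : k)

/-- AT4: the condition at a ramified prime, as a symbol -/
def SaOrP : Prop := ∀ (c : Cg Fr.sys), c.Dj → c.C1 → Slv (c.ea (Fr := Fr)) c.eb →
  ∀ q ∈ c.ram (Fr := Fr),
    (hS Fr (rep Fr (0, {q})) c.ee + ∑ p ∈ c.x1 ∪ c.x3,
      hs (Fr.pl p) (rep Fr (0, {q}) : k) (-(c.ea * c.eb) : k) = 0) ↔
    if q ∈ c.x1 ∪ c.x3 then Fr.sys.ex (c.x2 ∪ c.x4) (Fr.sys.l + c.ua + c.ub + c.uv) q = 0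
    else Fr.sys.ex (c.x1 ∪ c.x3) c.uv q = 0

open Classical in
/-- AT5: the exact formula -/
def SaNG : Prop := ∀ (G : LDt k), SLoc Fr G → (∀ d, |G d| ≤ 1) → ∀ (A B : Finset Fr.sys.P)
  (ua ub : Fr.sys.T), Disjoint A B →
  NG Fr Rk G (rep Fr (ua, A)) (rep Fr (ub, B)) (A ∪ B) =
    2 ^ (Fr.sys.m + (A ∪ B).card) * ∑ uv : Fr.sys.T, ∑ x1 ∈ A.powerset, ∑ x3 ∈ B.powerset,
      (if (⟨x1, A \ x1, x3, B \ x3, ua, ub, uv⟩ : Cg Fr.sys).C2 then
        Rf Fr Rk G ⟨x1, A \ x1, x3, B \ x3, ua, ub, uv⟩ else 0)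

/-- AT6: the function `R` is bounded -/
def SaRb : Prop := ∀ (G : LDt k), (∀ d, |G d| ≤ 1) → ∀ c : Cg Fr.sys, |Rf Fr Rk G c| ≤ 1

/-- AT6: the function `R` may be computed with any second bit ramified only in the primes
of `a` and `b` -/
def SaRi : Prop := ∀ (G : LDt k), SLoc Fr G → ∀ (c : Cg Fr.sys) (f : Gm k → ZMod 2), c.Dj →
  c.C2 → IsL Fr Rk c.ea c.eb (c.ram (Fr := Fr)) f →
  Rf Fr Rk G c = Gh Fr G c.ee c.ea c.eb f *
    ((sg (∑ p ∈ c.x1 ∪ c.x3, ob (Sum.inl (Fr.pl p)) c.ea c.eb f) : ℤ) : ℝ)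

/-- AT7: the symmetry of the function `R` -/
def SaRs : Prop := ∀ (G : LDt k), LG Fr G → ∀ c : Cg Fr.sys, c.Dj → c.C1 → c.C2 →
  Rf Fr Rk G ⟨c.x2, c.x1, c.x4, c.x3, c.ua, c.ub, Fr.sys.l + c.ua + c.ub + c.uv⟩ =
    Rf Fr Rk G c

/-- AT8: the term of the trivial class is a function of the labels -/
def SaR1 : Prop := ∀ (G : LDt k), SLoc Fr G → ∃ θ : Fr.sys.T → Fr.sys.T → Fr.sys.T → Fr.sys.T → ℝ,
  ∀ (A B : Finset Fr.sys.P) (ua ub : Fr.sys.T), Disjoint A B →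
    (⟨∅, A, ∅, B, ua, ub, 0⟩ : Cg Fr.sys).C1 →
    Rf Fr Rk G ⟨∅, A, ∅, B, ua, ub, 0⟩ = θ ua ub (Fr.sys.tys A) (Fr.sys.tys B) ∧
      ((∃ f, IsL Fr Rk (rep Fr (ua, A)) (rep Fr (ub, B)) ∅ f ∧
        ∃ y z : Fr.sys.T, G (dat (rep Fr (ua, A)) (rep Fr (ub, B))
          fun σ => f σ + chi (cl Fr y z : k) σ) ≠ 0) → (∀ d, 0 ≤ G d) →
        0 < θ ua ub (Fr.sys.tys A) (Fr.sys.tys B))

/-! ### rows AH: lifts and counting with a fixed frame -/

/-- predicates that depend on the restrictions to the decomposition groups at `S` only -/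
def HLoc (H : (Gm k →* E8) → Prop) : Prop := ∀ ρ ∈ Hs k, ∀ ρ' ∈ Hs k,
  (∀ v ∈ pls Fr.S, ∀ σ ∈ DecP v, ρ σ = ρ' σ) → (H ρ ↔ H ρ')

open Classical in
/-- the average of a predicate over the local lifts -/
noncomputable def GH (H : (Gm k →* E8) → Prop) : LDt k := fun d =>
  if h : ∃ ρ ∈ Hs k, ∀ v ∈ pls Fr.S, ∀ σ ∈ DecP v, ((ρ σ).pa, (ρ σ).pb, (ρ σ).pf) = d σ then
    (1 / 4 ^ Fr.sys.m) * ∑ y : Fr.sys.T, ∑ z : Fr.sys.T,
      (if H (tw h.choose (cl Fr y z)) then 1 else 0)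
  else 0

/-- AH1: the average is a local function -/
def SaGH : Prop := ∀ H : (Gm k →* E8) → Prop, HLoc Fr H → LG Fr (GH Fr H)

open Classical in
/-- AH1: the value of the average -/
def SaGHv : Prop := ∀ H : (Gm k →* E8) → Prop, HLoc Fr H → ∀ (a b : kˣ), ∀ ρ ∈ Hs k, Ov a b ρ →
  GH Fr H (dat a b fun σ => (ρ σ).pf) = (1 / 4 ^ Fr.sys.m) * ∑ y : Fr.sys.T, ∑ z : Fr.sys.T,
    (if H (tw ρ (cl Fr y z)) then 1 else 0)

/-- the homomorphisms with given ramification outside `S` -/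
def Cs (H : (Gm k →* E8) → Prop) (A B : Finset Fr.sys.P) (ua ub : Fr.sys.T) (t : ℝ) :
    Set (Gm k →* E8) :=
  {ρ | ρ ∈ Hs k ∧ Ov (rep Fr (ua, A)) (rep Fr (ub, B)) ρ ∧ H ρ ∧ ∃ c ∈ Fr.sys.bx t,
    Disjoint c (A ∪ B) ∧ ∀ p, p ∉ A ∪ B → ((p ∈ c → ρ (Rk.tau (Fr.pl p)) = E8.zz 1) ∧
      (p ∉ c → ρ (Rk.tau (Fr.pl p)) = 1))}

open Classical in
/-- AH2: the number of homomorphisms with given ramification outside `S` -/
def SaCnt : Prop := ∀ H : (Gm k →* E8) → Prop, HLoc Fr H → ∀ (A B : Finset Fr.sys.P)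
  (ua ub : Fr.sys.T) (t : ℝ), Disjoint A B → ¬ IsSquare (rep Fr (ua, A)) →
  ¬ IsSquare (rep Fr (ub, B)) → ¬ IsSquare (rep Fr (ua, A) * rep Fr (ub, B)) → 1 ≤ t →
  (Cs Fr Rk H A B ua ub t).Finite ∧
  |((Cs Fr Rk H A B ua ub t).ncard : ℝ) - 2 ^ Fr.sys.m *
      NG Fr Rk (GH Fr H) (rep Fr (ua, A)) (rep Fr (ub, B)) (A ∪ B) *
        (((Fr.sys.bx t).filter fun c => Disjoint c (A ∪ B)).card : ℝ)| ≤
    2 ^ Fr.sys.m * NG Fr Rk (GH Fr fun _ => True) (rep Fr (ua, A)) (rep Fr (ub, B)) (A ∪ B) *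
      ∑ κ ∈ (Finset.univ : Finset Fr.sys.T).erase 0,
        |∑ c ∈ (Fr.sys.bx t).filter fun c => Disjoint c (A ∪ B), (Fr.sys.ps κ c : ℝ)|

/-! ### rows AR: the differencing identity -/

end

section

variable {k : Type} [Field k] [NumberField k] (Fr : Frm k) (Rk : RxF k)

/-- AR1: second bits over `(X, b)` that vanish at the tame generators: their values at the
Frobenius elements are the symbols of an element of the field of the square root of `X` -/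
def SaFro (L : Type) [Field L] [NumberField L] [Algebra k L] : Prop :=
  ∀ (X : Pool.Agent.H32.MQ.HX Fr L), ¬ IsSquare X.a →
  ∃ pr : Fr.sys.P → Option X.PX, (∀ p b, pr p = some b → X.shX b = p) ∧
    (∀ p, p ∉ X.M → LocSq (Fr.pl p) (X.a : k) → ∃ b, pr p = some b) ∧
    ∀ (b : kˣ) (g : Gm k → ZMod 2), IsF X.a b g → (∀ p, g (Rk.tau (Fr.pl p)) = 0) →
      ∃ γ : Lˣ, (∃ s : kˣ, Pool.Agent.H32.MQ.HX.nrX (k := k) γ = b * s ^ 2) ∧
        (∀ Q : HeightOneSpectrum (𝓞 L), X.Out Q →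
          (Odd (ord Q (γ : L)) ↔ ∃ (p : Fr.sys.P) (P : X.PX), pr p = some P ∧
            Odd (ord (Fr.pl p) (b : k)) ∧ Q = (X.cjX P).1)) ∧
        ∀ p P, pr p = some P → g (Rk.phi (Fr.pl p)) = qr (γ : L) P.1

/-- AR2: changing `a` by a local square at `S` -/
def SaTrS : Prop := ∀ (G : LDt k), SLoc Fr G → ∀ (a b X κ : kˣ) (f g : Gm k → ZMod 2),
  IsF a b f → IsF X b g → (∀ v ∈ pls Fr.S, LocP v (X : k)) →
  ∃ c : kˣ, (∀ v ∈ pls Fr.S, ∀ σ ∈ DecP v, g σ = chi (c : k) σ) ∧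
    Gh Fr G κ (a * X) b (fun σ => f σ + g σ) =
      Gh Fr G κ a b f * ((sg (hS Fr c κ) : ℤ) : ℝ)

/-- AR3: the square of the transform is a function of the labels -/
def SaGh2 : Prop := ∀ (G : LDt k), SLoc Fr G → ∀ (κ κ' a b a' b' : kˣ) (f f' : Gm k → ZMod 2),
  (∀ v ∈ pls Fr.S, LocP v (κ * κ' : k)) → (∀ v ∈ pls Fr.S, LocP v (a * a' : k)) →
  (∀ v ∈ pls Fr.S, LocP v (b * b' : k)) → IsF a b f → IsF a' b' f' →
  Gh Fr G κ a b f ^ 2 = Gh Fr G κ' a' b' f' ^ 2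

end

end Pool.Agent.D8
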