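import Pool.Agent.D8.AStm

/-!
# The dihedral group of order 16 over a number field, row AC1: the second bit attached to
`x + y √b`
-/

set_option autoImplicit false
set_option linter.unusedSectionVars false

open scoped BigOperators Pointwise
open NumberField IsDedekindDomain

namespace Pool.Agent.D8

open Pool.Agent.H98.MF

section

variable {k : Type} [Field k] [NumberField k]

theorem ath_z2 (x : ZMod 2) : x = 0 ∨ x = 1 := by
  revert x; decide

theorem ath_so_zero : (so 0 : Om k) = 1 := if_pos rfl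

theorem ath_so_one : (so 1 : Om k) = -1 := if_neg (by decide)

theorem ath_so_add (x y : ZMod 2) : (so (x + y) : Om k) = so x * so y := by
  have h2 : (1 : ZMod 2) + 1 = 0 := by decide
  rcases ath_z2 x with rfl | rfl <;> rcases ath_z2 y with rfl | rfl
  · rw [add_zero, ath_so_zero, mul_one]
  · rw [zero_add, ath_so_zero, one_mul]
  · rw [add_zero, ath_so_zero, mul_one]
  · rw [h2, ath_so_zero, ath_so_one]
    ring

theorem ath_so_sq (x : ZMod 2) : (so x : Om k) * so x = 1 := by
  rw [← ath_so_add, CharTwo.add_self_eq_zero, ath_so_zero]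

theorem ath_so_inj {x y : ZMod 2} (h : (so x : Om k) = so y) : x = y := by
  have hne : (1 : Om k) ≠ -1 := fun h4 => one_ne_zero (self_eq_neg.1 h4)
  rcases ath_z2 x with rfl | rfl <;> rcases ath_z2 y with rfl | rfl
  · rfl
  · rw [ath_so_zero, ath_so_one] at h
    exact absurd h hne
  · rw [ath_so_zero, ath_so_one] at h
    exact absurd h.symm hne
  · rfl

theorem ath_map_so (σ : Gm k) (x : ZMod 2) : σ (so x : Om k) = so x := by
  rcases ath_z2 x with rfl | rfl
  · rw [ath_so_zero, map_one]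
  · rw [ath_so_one, map_neg, map_one]

theorem ath_sq_ne (a : kˣ) : Pool.Agent.H98.MF.sq (a : k) ≠ 0 := by
  intro h0
  have hs := sq_sq (a : k)
  rw [h0] at hs
  have h1 : algebraMap k (Om k) (a : k) ≠ 0 := by
    rw [Ne, map_eq_zero_iff _ (algebraMap k (Om k)).injective]
    exact a.ne_zero
  apply h1
  rw [← hs]
  ring

/-- the action on the chosen square root -/
theorem ath_apply_sq (a : kˣ) (σ : Gm k) :
    σ (Pool.Agent.H98.MF.sq (a : k)) =
      so (chi (a : k) σ) * Pool.Agent.H98.MF.sq (a : k) := by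
  have h2 : σ (Pool.Agent.H98.MF.sq (a : k)) ^ 2 = Pool.Agent.H98.MF.sq (a : k) ^ 2 := by
    rw [← map_pow, sq_sq, AlgEquiv.commutes]
  rcases sq_eq_sq_iff_eq_or_eq_neg.1 h2 with h | h
  · have h3 : chi (a : k) σ = 0 := if_pos h
    rw [h3, ath_so_zero, one_mul, h]
  · have h3 : chi (a : k) σ = 1 := if_neg (by
      rw [h]
      intro h4
      exact ath_sq_ne a (self_eq_neg.1 h4.symm))
    rw [h3, ath_so_one, h, neg_mul, one_mul]

/-- the action on any square root -/
theorem ath_root (a : kˣ) (s : Om k) (hs : s ^ 2 = algebraMap k (Om k) (a : k)) (σ : Gm k) :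
    σ s = so (chi (a : k) σ) * s := by
  have h0 : (s = Pool.Agent.H98.MF.sq (a : k)) ∨ (s = - Pool.Agent.H98.MF.sq (a : k)) := by
    rw [← sq_eq_sq_iff_eq_or_eq_neg, hs, sq_sq]
  rcases h0 with rfl | rfl
  · exact ath_apply_sq a σ
  · rw [map_neg, ath_apply_sq, mul_neg]

/-- values at finitely many points are locally constant -/
theorem ath_loc {β : Type} (s : Finset (Om k)) (f : Gm k → β)
    (hf : ∀ σ τ : Gm k, (∀ x ∈ s, σ x = τ x) → f σ = f τ) : IsLocallyConstant f := by
  rw [IsLocallyConstant.iff_exists_open]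
  intro σ
  have hfin : FiniteDimensional k (IntermediateField.adjoin k (s : Set (Om k))) := by
    apply IntermediateField.finiteDimensional_adjoin
    intro x _
    exact Algebra.IsIntegral.isIntegral x
  refine ⟨σ • ((IntermediateField.adjoin k (s : Set (Om k))).fixingSubgroup : Set (Gm k)),
    ?_, ?_, ?_⟩
  · exact (IntermediateField.fixingSubgroup_isOpen _).smul σ
  · exact ⟨1, Subgroup.one_mem _, by simp⟩
  · rintro _ ⟨τ, hτ, rfl⟩
    apply hf
    intro x hx
    have h2 : τ x = x := (IntermediateField.mem_fixingSubgroup_iff _ τ).1 hτ x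
      (IntermediateField.subset_adjoin k _ hx)
    show (σ * τ) x = σ x
    rw [AlgEquiv.mul_apply, h2]

end

theorem ath (k : Type) [Field k] [NumberField k] : SaTh k := by
  classical
  intro a b x y hab
  obtain ⟨s, hs⟩ : ∃ s : Om k, s = Pool.Agent.H98.MF.sq (b : k) := ⟨_, rfl⟩
  obtain ⟨A, hA⟩ : ∃ A : Om k, A = algebraMap k (Om k) x + algebraMap k (Om k) y * s := ⟨_, rfl⟩
  obtain ⟨A', hA'⟩ : ∃ A : Om k, A = algebraMap k (Om k) x - algebraMap k (Om k) y * s :=
    ⟨_, rfl⟩
  have hs2 : s ^ 2 = algebraMap k (Om k) (b : k) := by rw [hs, sq_sq]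
  have hAA : A * A' = algebraMap k (Om k) (a : k) := by
    rw [hA, hA', hab, map_sub, map_mul, map_pow, map_pow, ← hs2]
    ring
  have ha0 : algebraMap k (Om k) (a : k) ≠ 0 := by
    rw [Ne, map_eq_zero_iff _ (algebraMap k (Om k)).injective]
    exact a.ne_zero
  obtain ⟨θ, hθ⟩ := IsAlgClosed.exists_pow_nat_eq A (n := 2) two_pos
  obtain ⟨θ', hθ'⟩ := IsAlgClosed.exists_pow_nat_eq A' (n := 2) two_pos
  have hprod : (θ * θ') ^ 2 = algebraMap k (Om k) (a : k) := by rw [mul_pow, hθ, hθ', hAA]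
  have hne : θ * θ' ≠ 0 := by
    intro h
    rw [h] at hprod
    apply ha0
    rw [← hprod]
    ring
  have hθ0 : θ ≠ 0 := left_ne_zero_of_mul hne
  have hθ'0 : θ' ≠ 0 := right_ne_zero_of_mul hne
  -- the action on `A`
  have hσs : ∀ σ : Gm k, σ s = so (chi (b : k) σ) * s := fun σ => by rw [hs]; exact ath_apply_sq b σ
  have hA0 : ∀ σ : Gm k, chi (b : k) σ = 0 → σ A = A := by
    intro σ h
    rw [hA, map_add, map_mul, AlgEquiv.commutes, AlgEquiv.commutes, hσs, h, ath_so_zero, one_mul]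
  have hA1 : ∀ σ : Gm k, chi (b : k) σ = 1 → σ A = A' := by
    intro σ h
    rw [hA, hA', map_add, map_mul, AlgEquiv.commutes, AlgEquiv.commutes, hσs, h, ath_so_one]
    ring
  -- the function
  obtain ⟨T, hT⟩ : ∃ T : ZMod 2 → Om k, T = fun c => if c = 0 then θ else θ' := ⟨_, rfl⟩
  have hT0 : T 0 = θ := by rw [hT]; exact if_pos rfl
  have hT1 : T 1 = θ' := by rw [hT]; exact if_neg (by decide)
  have hTne : ∀ c, T c ≠ 0 := by
    intro c
    rcases ath_z2 c with rfl | rfl
    · rw [hT0]; exact hθ0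
    · rw [hT1]; exact hθ'0
  obtain ⟨f, hf⟩ : ∃ f : Gm k → ZMod 2, f = fun σ => if σ θ = T (chi (b : k) σ) then 0 else 1 :=
    ⟨_, rfl⟩
  have hfT : ∀ σ : Gm k, σ θ = so (f σ) * T (chi (b : k) σ) := by
    intro σ
    have h1 : (σ θ) ^ 2 = T (chi (b : k) σ) ^ 2 := by
      rw [← map_pow, hθ]
      rcases ath_z2 (chi (b : k) σ) with h | h
      · rw [h, hT0, hA0 σ h, hθ]
      · rw [h, hT1, hA1 σ h, hθ']
    by_cases h2 : σ θ = T (chi (b : k) σ)
    · have h3 : f σ = 0 := by rw [hf]; exact if_pos h2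
      rw [h3, ath_so_zero, one_mul, h2]
    · have h3 : f σ = 1 := by rw [hf]; exact if_neg h2
      rcases sq_eq_sq_iff_eq_or_eq_neg.1 h1 with h4 | h4
      · exact absurd h4 h2
      · rw [h3, ath_so_one, neg_mul, one_mul, h4]
  have hfT' : ∀ σ : Gm k, σ θ' = so (chi (a : k) σ + f σ) * T (chi (b : k) σ + 1) := by
    intro σ
    have h1 := ath_root a (θ * θ') hprod σ
    rw [map_mul, hfT σ] at h1
    have h2 : T (chi (b : k) σ) * T (chi (b : k) σ + 1) = θ * θ' := by
      have h11 : (1 : ZMod 2) + 1 = 0 := by decide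
      rcases ath_z2 (chi (b : k) σ) with h | h
      · rw [h, zero_add, hT0, hT1]
      · rw [h, h11, hT0, hT1, mul_comm]
    apply mul_left_cancel₀ (hTne (chi (b : k) σ))
    have h3 : T (chi (b : k) σ) * σ θ' = so (f σ) * (so (f σ) * T (chi (b : k) σ) * σ θ') := by
      rw [← mul_assoc, ← mul_assoc, ath_so_sq, one_mul]
    rw [h3, h1, ath_so_add, ← h2]
    ring
  refine ⟨f, ⟨θ, θ', ?_, ?_, ?_, ?_⟩, ?_, ?_⟩
  · rw [hθ, hA, hs]
  · rw [hθ', hA', hs]
  · intro σ h
    have := hfT σ
    rwa [h, hT0] at this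
  · intro σ h
    have := hfT σ
    rwa [h, hT1] at this
  · apply ath_loc {θ, s}
    intro σ τ h
    have h1 : σ θ = τ θ := h _ (by simp)
    have h2 : σ s = τ s := h _ (by simp)
    have h3 : chi (b : k) σ = chi (b : k) τ := by
      rw [hs] at h2
      unfold chi
      rw [h2]
    rw [hf]
    simp only [h1, h3]
  · intro σ τ
    have h0 := hfT (σ * τ)
    rw [AlgEquiv.mul_apply, hfT τ, map_mul, ath_map_so, chiM_hom] at h0
    rcases ath_z2 (chi (b : k) τ) with h | h
    · rw [h, hT0, hfT σ, add_zero, ← mul_assoc, ← ath_so_add] at h0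
      rw [h, mul_zero, add_zero, ← ath_so_inj (mul_right_cancel₀ (hTne _) h0), add_comm]
    · rw [h, hT1, hfT' σ, ← mul_assoc, ← ath_so_add] at h0
      rw [h, mul_one, ← ath_so_inj (mul_right_cancel₀ (hTne _) h0)]
      ring

end Pool.Agent.D8
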