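import Pool.Agent.D8.AStm
import Pool.Agent.H98.MF.Crd

/-!
# The dihedral group of order 16 over a number field, row AC3: third bits and cup products
-/

set_option autoImplicit false

open scoped BigOperators Pointwise
open NumberField IsDedekindDomain

namespace Pool.Agent.D8

open Pool.Agent.H98.MF
open Pool.Agent.H98.MK (sg)
open Pool.Agent.H32.MQ (El rep co)

/-! ### finite checks -/

/-- the lift to `ZMod 8` -/
def atriv_bt (x : ZMod 2) : ZMod 8 := if x = 0 then 0 else 1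

theorem atriv_bit3 : ∀ y f x h g : ZMod 2,
    bit3 y (f + x) (h + f * x + g) = bit3 y f h + 2 * atriv_bt x + 4 * atriv_bt g := by
  decide

theorem atriv_key : ∀ A c x1 x2 g1 g2 g12 y f h : ZMod 2,
    (pm A * p5 c * bit3 y f h + 2 * atriv_bt (x1 + x2) + 4 * atriv_bt g12 =
      2 * atriv_bt x1 + 4 * atriv_bt g1 +
        pm A * (bit3 y f h + 2 * atriv_bt x2 + 4 * atriv_bt g2)) ↔
    g12 = g1 + g2 + (c * y + x1 * x2 + A * x2) := by
  decide +kernel

theorem atriv_two (x : ZMod 2) : x + x = 0 := CharTwo.add_self_eq_zero x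

section

variable {k : Type} [Field k] [NumberField k]

/-- the second bit attached to a square root is locally constant -/
theorem atriv_lc {b : kˣ} {x y : k} {f : Gm k → ZMod 2} (hn : x ^ 2 - b * y ^ 2 ≠ 0)
    (h : IsTh b x y f) : IsLocallyConstant f := by
  obtain ⟨θ, θ', h1, h2, h3, h4⟩ := h
  have hprod : (θ * θ') ^ 2 = algebraMap k (Om k) (x ^ 2 - b * y ^ 2) := by
    rw [mul_pow, h1, h2, map_sub, map_pow, map_mul, map_pow, ← sq_sq (b : k)]
    ring
  have hne : θ * θ' ≠ 0 := by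
    intro h0
    rw [h0] at hprod
    apply hn
    have h5 : algebraMap k (Om k) (x ^ 2 - b * y ^ 2) = 0 := by rw [← hprod]; ring
    exact (map_eq_zero_iff _ (algebraMap k (Om k)).injective).1 h5
  have hθ : θ ≠ 0 := left_ne_zero_of_mul hne
  have hθ' : θ' ≠ 0 := right_ne_zero_of_mul hne
  have hso : ∀ (u v : ZMod 2) (z : Om k), z ≠ 0 → (so u : Om k) * z = so v * z → u = v := by
    intro u v z hz he
    have he' := mul_right_cancel₀ hz he
    have h1 : (1 : Om k) ≠ -1 := fun h0 => by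
      have : (2 : Om k) = 0 := by linear_combination h0
      exact two_ne_zero this
    have hz2 : ∀ w : ZMod 2, w = 0 ∨ w = 1 := by decide
    unfold so at he'
    rcases hz2 u with rfl | rfl <;> rcases hz2 v with rfl | rfl
    · rfl
    · rw [if_pos rfl, if_neg one_ne_zero] at he'
      exact absurd he' h1
    · rw [if_pos rfl, if_neg one_ne_zero] at he'
      exact absurd he'.symm h1
    · rfl
  rw [IsLocallyConstant.iff_exists_open]
  intro σ
  have hfd : FiniteDimensional k (IntermediateField.adjoin k {θ}) :=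
    IntermediateField.adjoin.finiteDimensional (Algebra.IsIntegral.isIntegral _)
  obtain ⟨V, hV, hσV, hVc⟩ := (IsLocallyConstant.iff_exists_open _).1 (chiM_lc (b : k)) σ
  refine ⟨(σ • ((IntermediateField.adjoin k {θ}).fixingSubgroup : Set (Gm k))) ∩ V, ?_, ?_, ?_⟩
  · exact ((IntermediateField.fixingSubgroup_isOpen _).smul σ).inter hV
  · exact ⟨⟨1, Subgroup.one_mem _, by simp⟩, hσV⟩
  · rintro _ ⟨⟨τ, hτ, rfl⟩, hτV⟩
    have h5 : τ θ = θ := (IntermediateField.mem_fixingSubgroup_iff _ τ).1 hτ θ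
        (IntermediateField.mem_adjoin_simple_self k θ)
    have h6 : (σ * τ) θ = σ θ := by rw [AlgEquiv.mul_apply, h5]
    have h7 : chi (b : k) (σ * τ) = chi (b : k) σ := hVc _ hτV
    show f (σ * τ) = f σ
    have hz2 : ∀ w : ZMod 2, w = 0 ∨ w = 1 := by decide
    rcases hz2 (chi (b : k) σ) with h8 | h8
    · have h9 := h3 σ h8
      have h10 := h3 (σ * τ) (h7.trans h8)
      rw [h6, h9] at h10
      exact (hso _ _ θ hθ h10).symm
    · have h9 := h4 σ h8
      have h10 := h4 (σ * τ) (h7.trans h8)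
      rw [h6, h9] at h10
      exact (hso _ _ θ' hθ' h10).symm

/-- AC3: third bits and cup products -/
theorem atriv (k : Type) [Field k] [NumberField k] (hT : SaTh k) (hC : SaCoc k) : SaTriv k := by
  intro a b x t y f hab hf D
  obtain ⟨h0, hh0, hB0⟩ := hC a b x y f hab hf
  have hflc : IsLocallyConstant f := atriv_lc (x := (x : k)) (y := y) (b := b)
    (by rw [← hab]; exact a.ne_zero) hf
  -- the units
  have h2 : (2 : k) ≠ 0 := two_ne_zero
  obtain ⟨u2, hu2⟩ : ∃ u : kˣ, (u : k) = 2 := ⟨Units.mk0 2 h2, rfl⟩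
  obtain ⟨c, hc⟩ : ∃ c : kˣ, c = u2 * x * t := ⟨_, rfl⟩
  have hck : (c : k) = 2 * x * t := by rw [hc, Units.val_mul, Units.val_mul, hu2]
  obtain ⟨m1, hm1⟩ : ∃ u : kˣ, u = (-1 : kˣ) := ⟨_, rfl⟩
  have hX : ∀ σ : Gm k, chi (c : k) σ = chi (2 * x : k) σ + chi (t : k) σ := by
    intro σ
    rw [hc, CrdAux.chi_mul (u2 * x) t σ, Units.val_mul, hu2]
  have hmc : ∀ σ : Gm k, chi ((-c : kˣ) : k) σ = chi (m1 : k) σ + chi (c : k) σ := by
    intro σ
    rw [← CrdAux.chi_mul m1 c σ, hm1, neg_one_mul]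
  have hab' : ∀ σ : Gm k, chi (-(a * b) : k) σ =
      chi (m1 : k) σ + (chi (a : k) σ + chi (b : k) σ) := by
    intro σ
    rw [← CrdAux.chi_mul a b σ, ← CrdAux.chi_mul m1 (a * b) σ, hm1, neg_one_mul, Units.val_neg,
      Units.val_mul]
  -- the cochain for `c`
  obtain ⟨fc, _, hfc⟩ := hT (-c) c 0 1 (by rw [Units.val_neg]; ring)
  have hfc2 : ∀ σ τ, fc (σ * τ) = fc σ + fc τ +
      (chi (m1 : k) σ + chi (c : k) σ) * chi (c : k) τ := by
    intro σ τ
    rw [hfc.hom σ τ, hmc]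
  -- abbreviations
  obtain ⟨X, hXd⟩ : ∃ X : Gm k → ZMod 2, X = chi (c : k) := ⟨_, rfl⟩
  obtain ⟨f', hf'⟩ : ∃ f' : Gm k → ZMod 2, f' = fun σ => f σ + chi (2 * x : k) σ := ⟨_, rfl⟩
  have hXh : ∀ σ τ, X (σ * τ) = X σ + X τ := by rw [hXd]; exact chiM_hom c
  have hXlc : IsLocallyConstant X := by rw [hXd]; exact chiM_lc _
  have h2xlc : IsLocallyConstant (chi (2 * x : k)) := chiM_lc _
  have hf'lc : IsLocallyConstant f' := by rw [hf']; exact hflc.add h2xlc
  have hff : ∀ σ, f σ + chi (t : k) σ = f' σ + X σ := by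
    intro σ
    rw [hf', hXd]
    beta_reduce
    rw [hX]
    linear_combination - atriv_two (chi (2 * x : k) σ)
  obtain ⟨Q, hQ⟩ : ∃ Q : Gm k → ZMod 8, Q = fun σ => bit3 (chi (b : k) σ) (f' σ) (h0 σ) :=
    ⟨_, rfl⟩
  have hQm : ∀ σ τ, Q (σ * τ) = Q σ + pm (chi (a : k) σ + chi (b : k) σ) *
      p5 (chi (2 : k) σ) * Q τ := by
    intro σ τ
    rw [hQ, hf']
    exact hB0 σ τ
  -- third bits in terms of `g`
  have key : ∀ (g : Gm k → ZMod 2) (σ τ : Gm k),
      (E8.mk4 (chi (a : k) (σ * τ)) (chi (b : k) (σ * τ)) (f (σ * τ) + chi (t : k) (σ * τ))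
        (h0 (σ * τ) + f' (σ * τ) * X (σ * τ) + g (σ * τ)) =
      E8.mk4 (chi (a : k) σ) (chi (b : k) σ) (f σ + chi (t : k) σ) (h0 σ + f' σ * X σ + g σ) *
        E8.mk4 (chi (a : k) τ) (chi (b : k) τ) (f τ + chi (t : k) τ)
          (h0 τ + f' τ * X τ + g τ)) ↔
      g (σ * τ) = g σ + g τ + (chi (2 : k) σ * chi (b : k) τ + X σ * X τ +
        (chi (a : k) σ + chi (b : k) σ) * X τ) := by
    intro g σ τ
    have hb : ∀ ρ : Gm k, bit3 (chi (b : k) ρ) (f ρ + chi (t : k) ρ)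
        (h0 ρ + f' ρ * X ρ + g ρ) = Q ρ + 2 * atriv_bt (X ρ) + 4 * atriv_bt (g ρ) := by
      intro ρ
      rw [hff, hQ]
      exact atriv_bit3 _ _ _ _ _
    have hk := atriv_key (chi (a : k) σ + chi (b : k) σ) (chi (2 : k) σ) (X σ) (X τ) (g σ) (g τ)
      (g (σ * τ)) (chi (b : k) τ) (f' τ) (h0 τ)
    have hQτ : bit3 (chi (b : k) τ) (f' τ) (h0 τ) = Q τ := by rw [hQ]
    rw [hQτ] at hk
    rw [← hk, E8.ext_iff]
    show (bit3 (chi (b : k) (σ * τ)) (f (σ * τ) + chi (t : k) (σ * τ))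
        (h0 (σ * τ) + f' (σ * τ) * X (σ * τ) + g (σ * τ)) =
        bit3 (chi (b : k) σ) (f σ + chi (t : k) σ) (h0 σ + f' σ * X σ + g σ) +
          pm (chi (a : k) σ + chi (b : k) σ) *
            bit3 (chi (b : k) τ) (f τ + chi (t : k) τ) (h0 τ + f' τ * X τ + g τ) ∧
        chi (a : k) (σ * τ) + chi (b : k) (σ * τ) =
          (chi (a : k) σ + chi (b : k) σ) + (chi (a : k) τ + chi (b : k) τ)) ↔ _
    rw [hb, hb, hb, hQm, hXh, chiM_hom a, chiM_hom b]
    constructor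
    · rintro ⟨h1, _⟩
      linear_combination h1
    · intro h1
      exact ⟨by linear_combination h1, by ring⟩
  -- the correction
  obtain ⟨w, hw⟩ : ∃ w : Gm k → ZMod 2, w = fun σ =>
      X σ * (chi (a : k) σ + chi (b : k) σ) + fc σ + chi (m1 : k) σ * X σ := ⟨_, rfl⟩
  have hwlc : IsLocallyConstant w := by
    rw [hw]
    exact ((hXlc.mul ((chiM_lc _).add (chiM_lc _))).add hfc.lc).add ((chiM_lc _).mul hXlc)
  have hwh : ∀ σ τ, w (σ * τ) = w σ + w τ + (X σ * X τ +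
      (chi (a : k) σ + chi (b : k) σ) * X τ) + X σ * chi (-(a * b) : k) τ := by
    intro σ τ
    rw [hw]
    beta_reduce
    rw [hXh, chiM_hom a, chiM_hom b, chiM_hom m1, hfc2, hab', ← hXd]
    linear_combination (chi (m1 : k) σ * X τ) * (CharTwo.two_eq_zero : (2 : ZMod 2) = 0)
  have hsum : ∀ σ τ : Gm k, ∑ i, chi ((![(2 : k), 2 * x * t] : Fin 2 → k) i) σ *
      chi ((![(b : k), -(a * b)] : Fin 2 → k) i) τ =
      chi (2 : k) σ * chi (b : k) τ + X σ * chi (-(a * b) : k) τ := by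
    intro σ τ
    rw [Fin.sum_univ_two, hXd, hck]
    rfl
  constructor
  · rintro ⟨h, hhlc, hh⟩
    obtain ⟨g, hg⟩ : ∃ g : Gm k → ZMod 2, g = fun σ => h σ + h0 σ + f' σ * X σ := ⟨_, rfl⟩
    have hhg : ∀ σ, h σ = h0 σ + f' σ * X σ + g σ := by
      intro σ
      rw [hg]
      beta_reduce
      linear_combination - atriv_two (h0 σ) - atriv_two (f' σ * X σ)
    have hglc : IsLocallyConstant g := by
      rw [hg]
      exact (hhlc.add hh0).add (hf'lc.mul hXlc)
    refine ⟨fun σ => g σ + w σ, hglc.add hwlc, fun σ hσ τ hτ => ?_⟩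
    have h1 := hh σ hσ τ hτ
    beta_reduce at h1
    rw [hhg (σ * τ), hhg σ, hhg τ, key g σ τ] at h1
    rw [hsum]
    beta_reduce
    rw [h1, hwh]
    linear_combination atriv_two (X σ * X τ) +
      atriv_two ((chi (a : k) σ + chi (b : k) σ) * X τ)
  · rintro ⟨F, hFlc, hF⟩
    obtain ⟨g, hg⟩ : ∃ g : Gm k → ZMod 2, g = fun σ => F σ + w σ := ⟨_, rfl⟩
    have hglc : IsLocallyConstant g := by
      rw [hg]
      exact hFlc.add hwlc
    refine ⟨fun σ => h0 σ + f' σ * X σ + g σ, (hh0.add (hf'lc.mul hXlc)).add hglc,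
      fun σ hσ τ hτ => ?_⟩
    beta_reduce
    rw [key g σ τ]
    have h1 := hF σ hσ τ hτ
    rw [hsum] at h1
    rw [hg]
    beta_reduce
    rw [h1, hwh]
    linear_combination atriv_two (X σ * chi (-(a * b) : k) τ)

end

end Pool.Agent.D8
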