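import Pool.Agent.D8.BFb
import Pool.Agent.H98.MF.SCount

/-!
# Malle's conjecture for the dihedral group of order 16 over number fields, row B2: the expansion
in sixteen types
-/

set_option autoImplicit false

open scoped BigOperators Topology
open Filter

namespace Pool.Agent.D8

open Pool.Agent.H98.MK (sg)
open Pool.Agent.H98.MF
open Pool.Agent.H32.MQ (El pw)

section

variable {S : Sys}

/-! ### characters -/

theorem b16_symmDiff {P : Type} [DecidableEq P] (A B : Finset P) (f : P → ZMod 2) :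
    ∑ q ∈ symmDiff A B, f q = ∑ q ∈ A, f q + ∑ q ∈ B, f q := by
  have h1 : ∑ q ∈ A, f q = ∑ q ∈ A \ B, f q + ∑ q ∈ A ∩ B, f q := by
    rw [add_comm]
    exact (Finset.sum_inter_add_sum_sdiff A B f).symm
  have h2 : ∑ q ∈ B, f q = ∑ q ∈ B \ A, f q + ∑ q ∈ A ∩ B, f q := by
    rw [Finset.inter_comm, add_comm]
    exact (Finset.sum_inter_add_sum_sdiff B A f).symm
  have h3 : ∑ q ∈ symmDiff A B, f q = ∑ q ∈ A \ B, f q + ∑ q ∈ B \ A, f q := by
    have : symmDiff A B = (A \ B) ∪ (B \ A) := rfl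
    rw [this]
    exact Finset.sum_union (Finset.disjoint_left.2 fun q hq hq' =>
      (Finset.mem_sdiff.1 hq').2 (Finset.mem_sdiff.1 hq).1)
  rw [h1, h2, h3]
  have h4 : ∀ a b z : ZMod 2, a + b = a + z + (b + z) := by decide
  exact h4 _ _ _

theorem b16_ad (a b : El S) (p : S.P) :
    S.ex (ad a b).2 (ad a b).1 p = S.ex a.2 a.1 p + S.ex b.2 b.1 p := by
  unfold Sys.ex ad
  rw [b16_symmDiff, add_dotProduct]
  ring

theorem b16_sm (t : ZMod 2) (c : El S) (p : S.P) :
    S.ex (sm t c).2 (sm t c).1 p = t * S.ex c.2 c.1 p := by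
  rcases zm2 t with rfl | rfl
  · unfold sm
    rw [if_pos rfl, zero_mul]
    unfold Sys.ex
    rw [Finset.sum_empty, zero_dotProduct, add_zero]
  · unfold sm
    rw [if_neg one_ne_zero, one_mul]

/-! ### the two characters at a prime -/

/-- the condition of the side -/
noncomputable def b16_a (c : Co S) (x : V → Finset S.P) (u : V) (p : S.P) : ZMod 2 :=
  S.ex (sid x (u.1 + 1) ∪ (c.f (u.1 + 1)).2) (c.f (u.1 + 1)).1 p

/-- the condition of the kind -/
noncomputable def b16_b (c : Co S) (x : V → Finset S.P) (u : V) (p : S.P) : ZMod 2 :=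
  S.ex (knd x (u.2 + 1) ∪ (c.g (u.2 + 1)).2) (c.g (u.2 + 1)).1 p

theorem b16_mem_mrg {y : V × V → Finset S.P} {u : V} {p : S.P} :
    p ∈ mrg Prod.fst y u ↔ ∃ t : V × V, t.1 = u ∧ p ∈ y t := by
  unfold mrg
  simp only [Finset.mem_biUnion, Finset.mem_filter, Finset.mem_univ, true_and]

theorem b16_sid {y : V × V → Finset S.P} (hy : S.Dj y) (i : ZMod 2) (f : S.P → ZMod 2) :
    ∑ q ∈ sid (mrg Prod.fst y) i, f q = ∑ v : V × V, (i + 1 + v.1.1) * ∑ q ∈ y v, f q := by
  classical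
  have h1 : sid (mrg Prod.fst y) i =
      (Finset.univ.filter fun v : V × V => v.1.1 = i).biUnion y := by
    ext q
    unfold sid
    rw [Finset.mem_union, b16_mem_mrg, b16_mem_mrg, Finset.mem_biUnion]
    constructor
    · rintro (⟨t, ht, hq⟩ | ⟨t, ht, hq⟩)
      · exact ⟨t, Finset.mem_filter.2 ⟨Finset.mem_univ _, by rw [ht]⟩, hq⟩
      · exact ⟨t, Finset.mem_filter.2 ⟨Finset.mem_univ _, by rw [ht]⟩, hq⟩
    · rintro ⟨t, ht, hq⟩
      have h2 := (Finset.mem_filter.1 ht).2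
      rcases zm2 t.1.2 with h3 | h3
      · exact Or.inl ⟨t, Prod.ext h2 h3, hq⟩
      · exact Or.inr ⟨t, Prod.ext h2 h3, hq⟩
  rw [h1, Finset.sum_biUnion fun a _ b _ hab => hy a b hab, Finset.sum_filter]
  refine Finset.sum_congr rfl fun v _ => ?_
  split_ifs with h
  · rw [h]
    have : ∀ i z : ZMod 2, z = (i + 1 + i) * z := by decide
    exact this _ _
  · have : ∀ i j : ZMod 2, j ≠ i → i + 1 + j = 0 := by decide
    rw [this _ _ h, zero_mul]

theorem b16_knd {y : V × V → Finset S.P} (hy : S.Dj y) (i : ZMod 2) (f : S.P → ZMod 2) :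
    ∑ q ∈ knd (mrg Prod.fst y) i, f q = ∑ v : V × V, (i + 1 + v.1.2) * ∑ q ∈ y v, f q := by
  classical
  have h1 : knd (mrg Prod.fst y) i =
      (Finset.univ.filter fun v : V × V => v.1.2 = i).biUnion y := by
    ext q
    unfold knd
    rw [Finset.mem_union, b16_mem_mrg, b16_mem_mrg, Finset.mem_biUnion]
    constructor
    · rintro (⟨t, ht, hq⟩ | ⟨t, ht, hq⟩)
      · exact ⟨t, Finset.mem_filter.2 ⟨Finset.mem_univ _, by rw [ht]⟩, hq⟩
      · exact ⟨t, Finset.mem_filter.2 ⟨Finset.mem_univ _, by rw [ht]⟩, hq⟩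
    · rintro ⟨t, ht, hq⟩
      have h2 := (Finset.mem_filter.1 ht).2
      rcases zm2 t.1.1 with h3 | h3
      · exact Or.inl ⟨t, Prod.ext h3 h2, hq⟩
      · exact Or.inr ⟨t, Prod.ext h3 h2, hq⟩
  rw [h1, Finset.sum_biUnion fun a _ b _ hab => hy a b hab, Finset.sum_filter]
  refine Finset.sum_congr rfl fun v _ => ?_
  split_ifs with h
  · rw [h]
    have : ∀ i z : ZMod 2, z = (i + 1 + i) * z := by decide
    exact this _ _
  · have : ∀ i j : ZMod 2, j ≠ i → i + 1 + j = 0 := by decide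
    rw [this _ _ h, zero_mul]

theorem b16_a_eq {M : Finset S.P} {c : Co S} (hc : c.Ok M) {y : V × V → Finset S.P}
    (hy : S.Dj y) (hM : ∀ t, Disjoint (y t) M) (u : V) (p : S.P) :
    b16_a c (mrg Prod.fst y) u p = ∑ v : V × V, (u.1 + v.1.1) * ∑ q ∈ y v, S.J q p +
      S.ex (c.f (u.1 + 1)).2 (c.f (u.1 + 1)).1 p := by
  have hd : Disjoint (sid (mrg Prod.fst y) (u.1 + 1)) (c.f (u.1 + 1)).2 := by
    rw [Finset.disjoint_left]
    intro q hq hq'
    have h1 : ∃ t, q ∈ y t := by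
      unfold sid at hq
      rw [Finset.mem_union, b16_mem_mrg, b16_mem_mrg] at hq
      rcases hq with ⟨t, _, h⟩ | ⟨t, _, h⟩
      · exact ⟨t, h⟩
      · exact ⟨t, h⟩
    obtain ⟨t, ht⟩ := h1
    exact Finset.disjoint_left.1 (hM t) ht (hc.f_sub _ hq')
  unfold b16_a Sys.ex
  rw [Finset.sum_union hd, b16_sid hy, add_assoc]
  congr 1
  refine Finset.sum_congr rfl fun v _ => ?_
  have : ∀ a b : ZMod 2, a + 1 + 1 + b = a + b := by decide
  rw [this]

theorem b16_b_eq {M : Finset S.P} {c : Co S} (hc : c.Ok M) {y : V × V → Finset S.P}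
    (hy : S.Dj y) (hM : ∀ t, Disjoint (y t) M) (u : V) (p : S.P) :
    b16_b c (mrg Prod.fst y) u p = ∑ v : V × V, (u.2 + v.1.2) * ∑ q ∈ y v, S.J q p +
      S.ex (c.g (u.2 + 1)).2 (c.g (u.2 + 1)).1 p := by
  have hd : Disjoint (knd (mrg Prod.fst y) (u.2 + 1)) (c.g (u.2 + 1)).2 := by
    rw [Finset.disjoint_left]
    intro q hq hq'
    have h1 : ∃ t, q ∈ y t := by
      unfold knd at hq
      rw [Finset.mem_union, b16_mem_mrg, b16_mem_mrg] at hq
      rcases hq with ⟨t, _, h⟩ | ⟨t, _, h⟩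
      · exact ⟨t, h⟩
      · exact ⟨t, h⟩
    obtain ⟨t, ht⟩ := h1
    exact Finset.disjoint_left.1 (hM t) ht (hc.g_sub _ hq')
  unfold b16_b Sys.ex
  rw [Finset.sum_union hd, b16_knd hy, add_assoc]
  congr 1
  refine Finset.sum_congr rfl fun v _ => ?_
  have : ∀ a b : ZMod 2, a + 1 + 1 + b = a + b := by decide
  rw [this]

/-- the exponent of the sign -/
theorem b16_KE {M : Finset S.P} {c : Co S} (hc : c.Ok M) (w : V → Finset S.P)
    {y : V × V → Finset S.P} (hy : S.Dj y) (hM : ∀ t, Disjoint (y t) M) :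
    ∑ t : V × V, ∑ p ∈ y t, (t.2.1 * b16_a c (mrg Prod.fst y) t.1 p +
      t.2.2 * b16_b c (mrg Prod.fst y) t.1 p) = KE φ16 (D16 M c w) y := by
  unfold KE
  rw [← Finset.sum_add_distrib]
  refine Finset.sum_congr rfl fun t _ => ?_
  have h1 : ∀ p, t.2.1 * b16_a c (mrg Prod.fst y) t.1 p +
      t.2.2 * b16_b c (mrg Prod.fst y) t.1 p =
      ∑ v : V × V, φ16 t v * ∑ q ∈ y v, S.J q p +
        S.ex ((D16 M c w).c t).2 ((D16 M c w).c t).1 p := by
    intro p
    rw [b16_a_eq hc hy hM, b16_b_eq hc hy hM]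
    show _ = _ + S.ex (ad (sm t.2.1 (c.f (t.1.1 + 1))) (sm t.2.2 (c.g (t.1.2 + 1)))).2
      (ad (sm t.2.1 (c.f (t.1.1 + 1))) (sm t.2.2 (c.g (t.1.2 + 1)))).1 p
    rw [b16_ad, b16_sm, b16_sm]
    have h2 : ∑ v : V × V, φ16 t v * ∑ q ∈ y v, S.J q p =
        t.2.1 * ∑ v : V × V, (t.1.1 + v.1.1) * ∑ q ∈ y v, S.J q p +
        t.2.2 * ∑ v : V × V, (t.1.2 + v.1.2) * ∑ q ∈ y v, S.J q p := by
      rw [Finset.mul_sum, Finset.mul_sum, ← Finset.sum_add_distrib]
      refine Finset.sum_congr rfl fun v _ => ?_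
      unfold φ16
      ring
    rw [h2]
    ring
  rw [Finset.sum_congr rfl fun p _ => h1 p, Finset.sum_add_distrib, Finset.sum_comm]
  congr 1
  refine Finset.sum_congr rfl fun v _ => ?_
  unfold Sys.JJ
  rw [Finset.mul_sum]

theorem b16_pat (y : V × V → Finset S.P) : pat (mrg Prod.fst y) = (pat y).image Prod.fst := by
  ext u
  unfold pat
  rw [Finset.mem_filter, Finset.mem_image]
  constructor
  · rintro ⟨_, p, hp⟩
    obtain ⟨t, ht, hpt⟩ := b16_mem_mrg.1 hp
    exact ⟨t, Finset.mem_filter.2 ⟨Finset.mem_univ _, p, hpt⟩, ht⟩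
  · rintro ⟨t, ht, htu⟩
    obtain ⟨p, hp⟩ := (Finset.mem_filter.1 ht).2
    exact ⟨Finset.mem_univ _, p, b16_mem_mrg.2 ⟨t, htu, hp⟩⟩

/-- the weights -/
noncomputable def b16_w (τ : S.P → ℝ) (s : ℝ) (c : Co S) (w : V → Finset S.P) (t : V × V)
    (x : V → Finset S.P) (p : S.P) : ℝ :=
  hh S τ (1 / 2) (0, ∅) (w t.1) p * (S.N p : ℝ) ^ (-s) *
    ((sg (t.2.1 * b16_a c x t.1 p + t.2.2 * b16_b c x t.1 p) : ℤ) : ℝ)

theorem b16_hh (τ : S.P → ℝ) (w : Finset S.P) (p : S.P) :
    hh S τ (1 / 2) (0, ∅) w p = if p ∈ w then 0 else 1 / 2 * τ p := by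
  have h : S.ex (∅ : Finset S.P) 0 p = 0 := by
    unfold Sys.ex
    rw [Finset.sum_empty, zero_dotProduct, add_zero]
  unfold hh
  by_cases hp : p ∈ w
  · rw [if_pos hp, if_pos hp]
  · rw [if_neg hp, if_neg hp, h, sg_zero]
    norm_num

theorem b16_zsum {A : Type} [AddCommMonoid A] (f : ZMod 2 → A) : ∑ i : ZMod 2, f i = f 0 + f 1 :=
  Fin.sum_univ_two f

open Classical in
theorem b16_fib (τ : S.P → ℝ) (s : ℝ) (c : Co S) (w : V → Finset S.P) (x : V → Finset S.P)
    (k : V) (p : S.P) (dec : DecidablePred fun t : V × V => t.1 = k) :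
    ∑ t ∈ @Finset.filter (V × V) (fun t => t.1 = k) dec Finset.univ, b16_w τ s c w t x p =
      if p ∉ w k ∧ b16_a c x k p = 0 ∧ b16_b c x k p = 0 then 2 * τ p * (S.N p : ℝ) ^ (-s)
      else 0 := by
  have h1 : ∑ t ∈ @Finset.filter (V × V) (fun t => t.1 = k) dec Finset.univ,
      b16_w τ s c w t x p = ∑ j : V, b16_w τ s c w (k, j) x p := by
    rw [Finset.sum_filter, Fintype.sum_prod_type, Finset.sum_eq_single k]
    · exact Finset.sum_congr rfl fun j _ => if_pos rfl
    · intro b _ hb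
      exact Finset.sum_eq_zero fun j _ => if_neg hb
    · intro h
      exact absurd (Finset.mem_univ _) h
  rw [h1, Fintype.sum_prod_type, b16_zsum, b16_zsum, b16_zsum]
  unfold b16_w
  rw [b16_hh]
  simp only [zero_mul, one_mul, add_zero, zero_add]
  by_cases hp : p ∈ w k
  · rw [if_pos hp, if_neg fun h => h.1 hp]
    ring
  · rw [if_neg hp]
    rcases zm2 (b16_a c x k p) with ha | ha <;> rcases zm2 (b16_b c x k p) with hb | hb
    · rw [if_pos ⟨hp, ha, hb⟩, ha, hb, add_zero, sg_zero]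
      push_cast
      ring
    · rw [if_neg fun h => by rw [hb] at h; exact one_ne_zero h.2.2, ha, hb, zero_add, sg_zero,
        sg_one]
      push_cast
      ring
    · rw [if_neg fun h => by rw [ha] at h; exact one_ne_zero h.2.1, ha, hb, add_zero, sg_zero,
        sg_one]
      push_cast
      ring
    · rw [if_neg fun h => by rw [ha] at h; exact one_ne_zero h.2.1, ha, hb]
      have : (1 : ZMod 2) + 1 = 0 := by decide
      rw [this, sg_zero, sg_one]
      push_cast
      ring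

/-- the left side -/
theorem b16_left {τ : S.P → ℝ} {s : ℝ} {M : Finset S.P} {c : Co S} (hc : c.Ok M)
    {w : V → Finset S.P} (hw : ∀ u, M ⊆ w u) (Φ : Finset V → ℝ) (y : V × V → Finset S.P)
    (hy : DjP y) :
    Φ (pat (mrg Prod.fst y)) * ∏ t, ∏ p ∈ y t, b16_w τ s c w t (mrg Prod.fst y) p =
      Φ ((pat y).image Prod.fst) * ((sg (KE φ16 (D16 M c w) y) : ℤ) : ℝ) *
        ∏ t, ∏ p ∈ y t, (hh S τ (1 / 2) ((D16 M c w).e t) ((D16 M c w).w t) p *
          (S.N p : ℝ) ^ (-s)) := by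
  rw [b16_pat]
  by_cases hd : ∀ t, Disjoint (y t) (w t.1)
  · have hM : ∀ t, Disjoint (y t) M := fun t =>
      Finset.disjoint_of_subset_right (hw t.1) (hd t)
    rw [← b16_KE hc w hy hM, sg_sum, Finset.prod_congr rfl fun t _ => sg_sum (y t) _]
    push_cast
    have h1 : ∏ t : V × V, ∏ p ∈ y t, b16_w τ s c w t (mrg Prod.fst y) p =
        (∏ t : V × V, ∏ p ∈ y t, (hh S τ (1 / 2) ((D16 M c w).e t) ((D16 M c w).w t) p *
          (S.N p : ℝ) ^ (-s))) * ∏ t : V × V, ∏ p ∈ y t,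
          ((sg (t.2.1 * b16_a c (mrg Prod.fst y) t.1 p +
            t.2.2 * b16_b c (mrg Prod.fst y) t.1 p) : ℤ) : ℝ) := by
      rw [← Finset.prod_mul_distrib]
      refine Finset.prod_congr rfl fun t _ => ?_
      rw [← Finset.prod_mul_distrib]
      rfl
    rw [h1]
    ring
  · push Not at hd
    obtain ⟨t, ht⟩ := hd
    rw [Finset.not_disjoint_iff] at ht
    obtain ⟨p, hp, hpw⟩ := ht
    have h0 : hh S τ (1 / 2) (0, ∅) (w t.1) p = 0 := by
      rw [b16_hh, if_pos hpw]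
    rw [Finset.prod_eq_zero (Finset.mem_univ t), Finset.prod_eq_zero (Finset.mem_univ t)]
    · rw [mul_zero, mul_zero]
    · refine Finset.prod_eq_zero hp ?_
      show hh S τ (1 / 2) (0, ∅) (w t.1) p * _ = 0
      rw [h0, zero_mul]
    · refine Finset.prod_eq_zero hp ?_
      unfold b16_w
      rw [h0, zero_mul, zero_mul]

open Classical in
/-- the right side -/
theorem b16_right {τ : S.P → ℝ} {s : ℝ} {M : Finset S.P} {c : Co S}
    {w : V → Finset S.P} (hw : ∀ u, M ⊆ w u) (Φ : Finset V → ℝ) (x : V → Finset S.P) :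
    (if DjP x then Φ (pat x) * ∏ k, ∏ p ∈ x k,
      (if p ∉ w k ∧ b16_a c x k p = 0 ∧ b16_b c x k p = 0 then 2 * τ p * (S.N p : ℝ) ^ (-s)
      else 0) else 0) =
      if ∀ u, Disjoint (x u) (w u) then Φ (pat x) * ms τ M c s x else 0 := by
  by_cases hx : DjP x
  · rw [if_pos hx]
    by_cases hd : ∀ u, Disjoint (x u) (w u)
    · rw [if_pos hd]
      unfold ms
      by_cases hC : Cnd c x
      · rw [if_pos ⟨hx, fun u => Finset.disjoint_of_subset_right (hw u) (hd u), hC⟩]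
        congr 1
        refine Finset.prod_congr rfl fun u _ => Finset.prod_congr rfl fun p hp => ?_
        exact if_pos ⟨Finset.disjoint_left.1 (hd u) hp, (hC u p hp).1, (hC u p hp).2⟩
      · rw [if_neg fun h => hC h.cnd, mul_zero]
        unfold Cnd at hC
        push Not at hC
        obtain ⟨u, p, hp, hup⟩ := hC
        rw [Finset.prod_eq_zero (Finset.mem_univ u), mul_zero]
        refine Finset.prod_eq_zero hp (if_neg fun h => ?_)
        exact hup h.2.1 h.2.2
    · rw [if_neg hd]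
      push Not at hd
      obtain ⟨u, hu⟩ := hd
      rw [Finset.not_disjoint_iff] at hu
      obtain ⟨p, hp, hpw⟩ := hu
      rw [Finset.prod_eq_zero (Finset.mem_univ u), mul_zero]
      exact Finset.prod_eq_zero hp (if_neg fun h => h.1 hpw)
  · rw [if_neg hx]
    by_cases hd : ∀ u, Disjoint (x u) (w u)
    · rw [if_pos hd]
      unfold ms
      rw [if_neg fun h => hx h.dj, mul_zero]
    · rw [if_neg hd]

/-- summability of the masses -/
theorem b16_sum {B : ℝ} {τ : S.P → ℝ} (hτ : Tk S B τ) {s : ℝ} (hs : 1 < s) :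
    Summable fun x : V → Finset S.P => ∏ u, ∏ p ∈ x u, (2 * τ p * (S.N p : ℝ) ^ (-s)) := by
  have h1 : Summable fun p : S.P => 2 * τ p * (S.N p : ℝ) ^ (-s) := by
    have h2 := (summable_N S s hs).mul_left (2 * (1 + |B|))
    refine Summable.of_nonneg_of_le (fun p => ?_) (fun p => ?_) h2
    · exact mul_nonneg (mul_nonneg zero_le_two (hτ p).1) (Real.rpow_nonneg (Nat.cast_nonneg _) _)
    · refine mul_le_mul_of_nonneg_right ?_ (Real.rpow_nonneg (Nat.cast_nonneg _) _)
      have h3 := (abs_le.1 (hτ p).2).2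
      have h4 : (S.N p : ℝ) ^ (-(1 / 2) : ℝ) ≤ 1 :=
        Real.rpow_le_one_of_one_le_of_nonpos (by exact_mod_cast S.one_le_N p) (by norm_num)
      have h5 : 0 ≤ (S.N p : ℝ) ^ (-(1 / 2) : ℝ) := Real.rpow_nonneg (Nat.cast_nonneg _) _
      have h6 : B * (S.N p : ℝ) ^ (-(1 / 2) : ℝ) ≤ |B| := by
        calc B * (S.N p : ℝ) ^ (-(1 / 2) : ℝ) ≤ |B| * (S.N p : ℝ) ^ (-(1 / 2) : ℝ) :=
              mul_le_mul_of_nonneg_right (le_abs_self B) h5
          _ ≤ |B| * 1 := mul_le_mul_of_nonneg_left h4 (abs_nonneg _)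
          _ = |B| := mul_one _
      linarith
  refine prod_pi_summable (fun _ : V => fun x : Finset S.P =>
    ∏ p ∈ x, (2 * τ p * (S.N p : ℝ) ^ (-s))) (fun _ x => Finset.prod_nonneg fun p _ =>
      mul_nonneg (mul_nonneg zero_le_two (hτ p).1) (Real.rpow_nonneg (Nat.cast_nonneg _) _))
      fun _ => ?_
  exact summable_finsetProd_of_summable_norm h1.norm

end

open Classical in
/-- B2: the expansion in sixteen types -/
theorem s16 (h : SMrg) (h1 : SFb) : S16 := by
  intro S B τ M c w Φ s hτ hc hw hΦ hs hs2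
  have hms : ∀ x : V → Finset S.P, 0 ≤ ∏ u, ∏ p ∈ x u, (2 * τ p * (S.N p : ℝ) ^ (-s)) :=
    fun x => Finset.prod_nonneg fun u _ => Finset.prod_nonneg fun p _ =>
      mul_nonneg (mul_nonneg zero_le_two (hτ p).1) (Real.rpow_nonneg (Nat.cast_nonneg _) _)
  refine ⟨?_, ?_⟩
  · refine Summable.of_norm_bounded (b16_sum hτ hs) fun x => ?_
    rw [Real.norm_eq_abs]
    split_ifs with hd
    · rw [abs_mul]
      refine (mul_le_of_le_one_left (abs_nonneg _) (hΦ _)).trans ?_
      unfold ms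
      split_ifs
      · exact (abs_of_nonneg (hms x)).le
      · rw [abs_zero]
        exact hms x
    · rw [abs_zero]
      exact hms x
  · obtain ⟨C, _, hC⟩ := h1 S (V × V) B (1 / 2) (by norm_num) (by norm_num)
    have hsum := (hC τ φ16 (D16 M c w) (fun U => Φ (U.image Prod.fst)) hτ (fun U => hΦ _)
      (s - 1) (by linarith) (by linarith)).1
    have hs' : 1 + (s - 1) = s := by ring
    rw [hs'] at hsum
    have hL : ∀ y : V × V → Finset S.P, (if DjP y then
        (fun x => Φ (pat x)) (mrg Prod.fst y) *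
          ∏ t, ∏ p ∈ y t, b16_w τ s c w t (mrg Prod.fst y) p else 0) =
        Kt τ (1 / 2) s φ16 (D16 M c w) (fun U => Φ (U.image Prod.fst)) y := by
      intro y
      unfold Kt
      by_cases hy : DjP y
      · rw [if_pos hy, if_pos (show S.Dj y from hy)]
        exact b16_left hc hw Φ y hy
      · rw [if_neg hy, if_neg (show ¬ S.Dj y from hy)]
    have h2 := h S.P (V × V) V Prod.fst (fun x => Φ (pat x)) (b16_w τ s c w) (by
      refine hsum.congr fun y => ?_
      exact (hL y).symm)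
    unfold MS FK
    rw [← tsum_congr hL, h2]
    refine tsum_congr fun x => ?_
    rw [← b16_right hw Φ x]
    by_cases hx : DjP x
    · rw [if_pos hx, if_pos hx]
      congr 1
      exact Finset.prod_congr rfl fun k _ => Finset.prod_congr rfl fun p _ =>
        (b16_fib τ s c w x k p _).symm
    · rw [if_neg hx, if_neg hx]

end Pool.Agent.D8
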