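import Pool.Agent.D8.Stm

/-!
# Project D8 (MP_a9b340), row B7: the mass of the configurations with at most one class
-/

set_option autoImplicit false

open scoped BigOperators Topology
open Filter

namespace Pool.Agent.D8

open Pool.Agent.H98.MK (sg)
open Pool.Agent.H98.MF
open Pool.Agent.H32.MQ (El pw)

section

variable {S : Sys}

theorem b7_pat_empty {x : V → Finset S.P} (h : pat x = ∅) : x = fun _ => ∅ := by
  classical
  funext u
  by_contra hu
  have h1 : u ∈ pat x := by
    unfold pat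
    rw [Finset.mem_filter]
    exact ⟨Finset.mem_univ _, Finset.nonempty_iff_ne_empty.2 hu⟩
  rw [h] at h1
  exact absurd h1 (Finset.notMem_empty _)

open Classical in
/-- one class -/
noncomputable def b7_one (S : Sys) (u : V) (X : Finset S.P) : V → Finset S.P :=
  fun v => if v = u then X else ∅

theorem b7_one_same (u : V) (X : Finset S.P) : b7_one S u X u = X := if_pos rfl

theorem b7_one_ne {u v : V} (h : v ≠ u) (X : Finset S.P) : b7_one S u X v = ∅ := if_neg h

theorem b7_one_inj (u : V) : Function.Injective (b7_one S u) := by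
  intro X Y h
  have h1 := congrFun h u
  rwa [b7_one_same, b7_one_same] at h1

theorem b7_pat_single {x : V → Finset S.P} {u : V} (h : pat x = {u}) : x = b7_one S u (x u) := by
  classical
  funext v
  by_cases hv : v = u
  · rw [hv, b7_one_same]
  · rw [b7_one_ne hv]
    by_contra hu
    have h1 : v ∈ pat x := by
      unfold pat
      rw [Finset.mem_filter]
      exact ⟨Finset.mem_univ _, Finset.nonempty_iff_ne_empty.2 hu⟩
    rw [h, Finset.mem_singleton] at h1
    exact hv h1

theorem b7_ne (a : ZMod 2) : a + 1 ≠ a := by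
  revert a
  decide

theorem b7_sid (u : V) (X : Finset S.P) : sid (b7_one S u X) (u.1 + 1) = ∅ := by
  unfold sid
  rw [b7_one_ne, b7_one_ne, Finset.union_empty]
  · exact fun h => b7_ne u.1 (congrArg Prod.fst h)
  · exact fun h => b7_ne u.1 (congrArg Prod.fst h)

theorem b7_knd (u : V) (X : Finset S.P) : knd (b7_one S u X) (u.2 + 1) = ∅ := by
  unfold knd
  rw [b7_one_ne, b7_one_ne, Finset.union_empty]
  · exact fun h => b7_ne u.2 (congrArg Prod.snd h)
  · exact fun h => b7_ne u.2 (congrArg Prod.snd h)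

theorem b7_hh_nonneg {B : ℝ} {τ : S.P → ℝ} (hτ : Tk S B τ) (e : El S) (w : Finset S.P)
    (p : S.P) : 0 ≤ hh S τ 2 e w p := by
  unfold hh
  split_ifs
  · exact le_rfl
  · have h1 := (hτ p).1
    have h2 : -1 ≤ ((sg (S.ex e.2 e.1 p) : ℤ) : ℝ) := by
      have := abs_sgr (S.ex e.2 e.1 p)
      exact (abs_le.1 this.le).1
    have h3 : 0 ≤ (1 + ((sg (S.ex e.2 e.1 p) : ℤ) : ℝ)) / 2 := by linarith
    positivity

theorem b7_term_nonneg {B : ℝ} {τ : S.P → ℝ} (hτ : Tk S B τ) (e : El S) (w : Finset S.P)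
    (s : ℝ) (p : S.P) : 0 ≤ hh S τ 2 e w p * (S.N p : ℝ) ^ (-s) :=
  mul_nonneg (b7_hh_nonneg hτ e w p) (Real.rpow_nonneg (Nat.cast_nonneg _) _)

theorem b7_ms_nonneg {B : ℝ} {τ : S.P → ℝ} (hτ : Tk S B τ) (M : Finset S.P) (c : Co S)
    (s : ℝ) (x : V → Finset S.P) : 0 ≤ ms τ M c s x := by
  unfold ms
  split_ifs
  · refine Finset.prod_nonneg fun u _ => Finset.prod_nonneg fun p _ => ?_
    exact mul_nonneg (mul_nonneg zero_le_two (hτ p).1) (Real.rpow_nonneg (Nat.cast_nonneg _) _)
  · exact le_rfl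

theorem b7_prod (u : V) (X : Finset S.P) (f : S.P → ℝ) :
    ∏ v, ∏ p ∈ b7_one S u X v, f p = ∏ p ∈ X, f p := by
  classical
  rw [Finset.prod_eq_single u]
  · rw [b7_one_same]
  · intro v _ hv
    rw [b7_one_ne hv, Finset.prod_empty]
  · intro h
    exact absurd (Finset.mem_univ u) h

/-- the conditions that may be used -/
def b7_good (c : Co S) (u : V) (e : El S) : Prop :=
  e = (0, ∅) ∨ e = c.f (u.1 + 1) ∨ e = c.g (u.2 + 1)

theorem b7_ms_le {B : ℝ} {τ : S.P → ℝ} (hτ : Tk S B τ) {M : Finset S.P} {c : Co S}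
    {u : V} {e : El S} (he : b7_good c u e) (s : ℝ) (X : Finset S.P) :
    ms τ M c s (b7_one S u X) ≤ ∏ p ∈ X, (hh S τ 2 e M p * (S.N p : ℝ) ^ (-s)) := by
  unfold ms
  split_ifs with h
  · rw [b7_prod]
    refine le_of_eq (Finset.prod_congr rfl fun p hp => ?_)
    have hpM : p ∉ M := by
      have h1 := h.dM u
      rw [b7_one_same] at h1
      exact Finset.disjoint_left.1 h1 hp
    have hp' : p ∈ b7_one S u X u := by
      rw [b7_one_same]
      exact hp
    have h2 := h.cnd u p hp'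
    rw [b7_sid, b7_knd, Finset.empty_union, Finset.empty_union] at h2
    have h3 : S.ex e.2 e.1 p = 0 := by
      rcases he with rfl | rfl | rfl
      · unfold Sys.ex
        simp
      · exact h2.1
      · exact h2.2
    unfold hh
    rw [if_neg hpM, h3, sg_zero]
    norm_num
  · exact Finset.prod_nonneg fun p _ => b7_term_nonneg hτ e M s p

theorem b7_MS_le (h : SExp) {B : ℝ} {τ : S.P → ℝ} (hτ : Tk S B τ) {M : Finset S.P} {c : Co S}
    {u : V} {e : El S} (he : b7_good c u e) {s : ℝ}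
    (hs : Summable fun p : S.P => hh S τ 2 e M p * (S.N p : ℝ) ^ (-s))
    (Φ : Finset V → ℝ) (hΦ : ∀ U, U ≠ {u} → Φ U = 0) (hΦ0 : ∀ U, 0 ≤ Φ U) (hΦ1 : ∀ U, Φ U ≤ 1) :
    MS τ M c (fun _ => M) Φ s ≤
      Real.exp (∑' p : S.P, hh S τ 2 e M p * (S.N p : ℝ) ^ (-s)) := by
  classical
  obtain ⟨h1, -, h2, -⟩ := h S.P _ hs
  have h3 := h2 (fun p => b7_term_nonneg hτ e M s p)
  refine le_trans ?_ h3
  unfold MS
  have hsup : Function.support (fun x : V → Finset S.P =>
      if ∀ u, Disjoint (x u) M then Φ (pat x) * ms τ M c s x else 0) ⊆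
      Set.range (b7_one S u) := by
    intro x hx
    rw [Function.mem_support] at hx
    have h4 : pat x = {u} := by
      by_contra h5
      rw [hΦ _ h5] at hx
      simp at hx
    exact ⟨x u, (b7_pat_single h4).symm⟩
  rw [← (b7_one_inj (S := S) u).tsum_eq hsup]
  have hle : ∀ X : Finset S.P, (if ∀ v, Disjoint (b7_one S u X v) M then
      Φ (pat (b7_one S u X)) * ms τ M c s (b7_one S u X) else 0) ≤
      ∏ p ∈ X, (hh S τ 2 e M p * (S.N p : ℝ) ^ (-s)) := by
    intro X
    have h5 := b7_ms_nonneg hτ M c s (b7_one S u X)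
    have h6 := b7_ms_le hτ (M := M) he s X
    split_ifs with h4
    · calc Φ (pat (b7_one S u X)) * ms τ M c s (b7_one S u X) ≤ 1 * ms τ M c s (b7_one S u X) :=
            mul_le_mul_of_nonneg_right (hΦ1 _) h5
        _ ≤ _ := by rw [one_mul]; exact h6
    · exact h5.trans h6
  have hnn : ∀ X : Finset S.P, 0 ≤ (if ∀ v, Disjoint (b7_one S u X v) M then
      Φ (pat (b7_one S u X)) * ms τ M c s (b7_one S u X) else 0) := by
    intro X
    split_ifs with h4
    · exact mul_nonneg (hΦ0 _) (b7_ms_nonneg hτ M c s _)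
    · exact le_rfl
  exact (Summable.of_nonneg_of_le hnn hle h1).tsum_le_tsum hle h1

end

theorem s1B (h : SExp) (h1 : STh) : S1B := by
  classical
  intro S B
  obtain ⟨K, hK, h2⟩ := h1 S B
  refine ⟨Real.exp (2 * K), (Real.exp_pos _).le, ?_⟩
  intro τ M c hτ hc σ hσ hσ1
  have hs1 : 1 < 1 + σ := by linarith
  have hs2 : 1 + σ ≤ 2 := by linarith
  have hK1 : (1 : ℝ) ≤ Real.exp (2 * K) := Real.one_le_exp (by linarith)
  have hK2 : Real.exp K ≤ Real.exp (2 * K) := Real.exp_le_exp.2 (by linarith)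
  have hlog : Real.log (1 / (1 + σ - 1)) = Real.log (σ⁻¹) := by
    rw [add_sub_cancel_left, one_div]
  refine ⟨?_, fun u => ?_⟩
  · refine le_trans ?_ hK1
    unfold MS
    rw [tsum_eq_single (fun _ => (∅ : Finset S.P))]
    · have h3 : ms τ M c (1 + σ) (fun _ => (∅ : Finset S.P)) ≤ 1 := by
        unfold ms
        split_ifs
        · simp
        · exact zero_le_one
      beta_reduce
      split_ifs
      · rw [one_mul]
        exact h3
      · rw [zero_mul]
        exact zero_le_one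
      · exact zero_le_one
    · intro x hx
      have h3 : pat x ≠ ∅ := fun h4 => hx (b7_pat_empty h4)
      beta_reduce
      rw [if_neg h3, zero_mul, ite_self]
  · have hP1 : ∀ U : Finset V, U ≠ {u} → (if U = {u} then (1 : ℝ) else 0) = 0 :=
      fun U hU => if_neg hU
    have hP2 : ∀ U : Finset V, 0 ≤ (if U = {u} then (1 : ℝ) else 0) := by
      intro U
      split_ifs <;> norm_num
    have hP3 : ∀ U : Finset V, (if U = {u} then (1 : ℝ) else 0) ≤ 1 := by
      intro U
      split_ifs <;> norm_num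
    have hn : 0 ≤ Real.log (S.nm M) := Real.log_nonneg (S.one_le_nmr M)
    constructor
    · obtain ⟨h3, h4, -⟩ := h2 τ hτ 2 (0, ∅) M (1 + σ) zero_le_two le_rfl hs1 hs2
      refine (b7_MS_le h hτ (Or.inl rfl) h3 _ hP1 hP2 hP3).trans ?_
      have h5 : 0 ≤ ∑ p ∈ M, (S.N p : ℝ) ^ (-(1 + σ)) :=
        Finset.sum_nonneg fun p _ => Real.rpow_nonneg (Nat.cast_nonneg _) _
      rw [hlog] at h4
      calc Real.exp (∑' p : S.P, hh S τ 2 (0, ∅) M p * (S.N p : ℝ) ^ (-(1 + σ)))
          ≤ Real.exp (2 * K + 2 * Real.log σ⁻¹) := Real.exp_le_exp.2 (by linarith)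
        _ = Real.exp (2 * K) * σ ^ (-(2 : ℝ)) := by
          rw [Real.exp_add, Real.log_inv, Real.rpow_def_of_pos hσ]
          congr 2
          ring
    · intro h3
      obtain ⟨e, he, he0, heM⟩ : ∃ e, b7_good c u e ∧ e ≠ (0, ∅) ∧ e.2 ⊆ M := by
        rcases h3 with h3 | h3
        · exact ⟨_, Or.inr (Or.inl rfl), h3, hc.f_sub _⟩
        · exact ⟨_, Or.inr (Or.inr rfl), h3, hc.g_sub _⟩
      obtain ⟨h4, -, h5⟩ := h2 τ hτ 2 e M (1 + σ) zero_le_two le_rfl hs1 hs2
      refine (b7_MS_le h hτ he h4 _ hP1 hP2 hP3).trans ?_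
      have h6 := h5 he0 heM
      rw [hlog] at h6
      have hne : 0 ≤ Real.log (S.nm e.2) := Real.log_nonneg (S.one_le_nmr e.2)
      have hle : Real.log (S.nm e.2) ≤ Real.log (S.nm M) := by
        refine Real.log_le_log (S.nm_posr _) ?_
        exact_mod_cast S.nm_mono heM
      calc Real.exp (∑' p : S.P, hh S τ 2 e M p * (S.N p : ℝ) ^ (-(1 + σ)))
          ≤ Real.exp (K + Real.log (1 + Real.log (S.nm e.2)) + Real.log σ⁻¹) :=
            Real.exp_le_exp.2 (by linarith)
        _ = Real.exp K * (1 + Real.log (S.nm e.2)) * σ ^ (-(1 : ℝ)) := by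
          rw [Real.exp_add, Real.exp_add, Real.exp_log (by linarith), Real.exp_log (inv_pos.2 hσ),
            Real.rpow_neg_one]
        _ ≤ Real.exp (2 * K) * (1 + Real.log (S.nm M)) * σ ^ (-(1 : ℝ)) := by
          refine mul_le_mul_of_nonneg_right ?_ (Real.rpow_nonneg hσ.le _)
          exact mul_le_mul hK2 (by linarith) (by linarith) (Real.exp_pos _).le

end Pool.Agent.D8
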