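import Pool.Agent.D8.Stm

/-!
# Malle's conjecture for the dihedral group of order 16, row B6: the mass of the configurations
with exactly two classes
-/

set_option autoImplicit false

open scoped BigOperators Topology
open Filter

namespace Pool.Agent.D8

open Pool.Agent.H98.MK (sg)
open Pool.Agent.H98.MF
open Pool.Agent.H32.MQ (El pw)

theorem b2b_phi (u : V) : φ4 u u = 0 := by
  unfold φ4
  rw [CharTwo.add_self_eq_zero, mul_zero]

theorem b2b_sm {S : Sys} {M : Finset S.P} (t : ZMod 2) (c : El S) (h : c.2 ⊆ M) :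
    (sm t c).2 ⊆ M := by
  unfold sm
  split_ifs
  · exact Finset.empty_subset _
  · exact h

theorem b2b_ad {S : Sys} {M : Finset S.P} (c d : El S) (h : c.2 ⊆ M) (h' : d.2 ⊆ M) :
    (ad c d).2 ⊆ M := by
  intro p hp
  have hp2 : p ∈ symmDiff c.2 d.2 := hp
  rcases Finset.mem_symmDiff.1 hp2 with h1 | h1
  · exact h h1.1
  · exact h' h1.1

theorem b2b_lkc {S : Sys} {M : Finset S.P} {c : Co S} (hc : c.Ok M) (u v : V) :
    (lkc c u v).2 ⊆ M := by
  unfold lkc
  split_ifs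
  · exact hc.g_sub _
  · exact hc.f_sub _

theorem b2b_exc {S : Sys} {M : Finset S.P} {c : Co S} (hc : c.Ok M) (u v : V) :
    (exc c u v).2 ⊆ M := by
  unfold exc
  split_ifs
  · exact hc.f_sub _
  · exact hc.g_sub _
  · exact b2b_ad _ _ (hc.f_sub _) (hc.g_sub _)

theorem b2b_ok {S : Sys} (M : Finset S.P) (c : Co S) (w : V → Finset S.P) (hc : c.Ok M)
    (hM : ∀ u, M ⊆ w u) (u v : V) (ψ : ZMod 2 → El S) (hψ : ∀ i, (ψ i).2 ⊆ M) :
    (D4 M c w u v ψ).Ok where
  c_sub t := by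
    refine b2b_ad _ _ (b2b_sm _ _ ?_) (hψ _)
    split_ifs
    · exact b2b_lkc hc u v
    · exact b2b_lkc hc v u
  e_sub t := by
    show (if t.1 = 0 then exc c u v else exc c v u).2 ⊆ M
    split_ifs
    · exact b2b_exc hc u v
    · exact b2b_exc hc v u
  M_sub t := by
    show M ⊆ (if t.1 = 0 then w u else w v)
    split_ifs
    · exact hM u
    · exact hM v

theorem b2b_M2 {S : Sys} (τ : S.P → ℝ) (M : Finset S.P) (c : Co S) (w : V → Finset S.P)
    (u v : V) (s : ℝ) (Φ : Finset V → ℝ) (h1 : Φ {u, v} = 1) (h0 : ∀ U, U ≠ {u, v} → Φ U = 0) :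
    MS τ M c w Φ s = M2 τ M c w u v (fun _ => (0, ∅)) s := by
  classical
  unfold MS M2
  refine tsum_congr fun x => ?_
  have hex : ∀ p : S.P, S.ex ∅ 0 p = 0 := by
    intro p
    unfold Sys.ex
    simp
  have hs : ((sg (∑ p ∈ x u, S.ex ((fun _ => ((0, ∅) : El S)) (0 : ZMod 2)).2
      ((fun _ => ((0, ∅) : El S)) (0 : ZMod 2)).1 p +
      ∑ p ∈ x v, S.ex ((fun _ => ((0, ∅) : El S)) (1 : ZMod 2)).2
      ((fun _ => ((0, ∅) : El S)) (1 : ZMod 2)).1 p) : ℤ) : ℝ) = 1 := by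
    have e1 : ∑ p ∈ x u, S.ex ∅ 0 p = 0 := Finset.sum_eq_zero fun p _ => hex p
    have e2 : ∑ p ∈ x v, S.ex ∅ 0 p = 0 := Finset.sum_eq_zero fun p _ => hex p
    beta_reduce
    rw [e1, e2, add_zero, sg_zero, Int.cast_one]
  by_cases h2 : ∀ t, Disjoint (x t) (w t)
  · by_cases h3 : pat x = {u, v}
    · rw [if_pos h2, if_pos ⟨h2, h3⟩, hs, h3, h1]
    · rw [if_pos h2, if_neg (fun h => h3 h.2), h0 _ h3, zero_mul]
  · rw [if_neg h2, if_neg (fun h => h2 h.1)]

theorem s2B (h1 : SFK) (h2 : SZU) (h3 : STh) (h4 : S4) (h5 : SC16) : S2B := by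
  classical
  intro S B
  obtain ⟨-, -, c3, c4, -, -⟩ := h5
  obtain ⟨C1, E1, hC1, hE1, hF⟩ := h1 S V φ4 2 B 1 b2b_phi (by norm_num)
    (by norm_num) (by norm_num) c3
  obtain ⟨K, hK, hT⟩ := h3 S B
  refine ⟨(Fintype.card (Finset V) : ℝ) * Real.exp (2 * K) + C1, E1, by positivity, hE1, ?_⟩
  intro τ M c w u v hτ hc hM huv σ h0 hσ
  have hs1 : (1 : ℝ) < 1 + σ := by linarith
  have hs2 : 1 + σ ≤ 2 := by linarith
  have hψ : ∀ i : ZMod 2, ((fun _ => ((0, ∅) : El S)) i).2 ⊆ M := fun _ => Finset.empty_subset _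
  rw [b2b_M2 τ M c w u v (1 + σ) _ (if_pos rfl) (fun U hU => if_neg hU),
    h4 S B τ M c w u v (fun _ => (0, ∅)) (1 + σ) hτ hc hM huv hψ hs1 hs2]
  have hok := b2b_ok M c w hc hM u v _ hψ
  have hΦ : ∀ U : Finset V, |Φ4 U| ≤ 1 := by
    intro U
    unfold Φ4
    split_ifs
    · rw [abs_one]
    · rw [abs_zero]
      exact zero_le_one
  have e2 := hF τ (D4 M c w u v (fun _ => (0, ∅))) Φ4 hτ hok hΦ σ h0 hσ
  set D : Vd S V := D4 M c w u v (fun _ => (0, ∅)) with hD
  have hlog : 0 ≤ Real.log (1 / σ) := Real.log_nonneg (one_le_one_div h0 hσ)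
  have hnm : 0 ≤ Real.log (S.nm M) := Real.log_nonneg (S.one_le_nmr M)
  -- the main terms
  set X : ℝ := ∑ p ∈ w u, (S.N p : ℝ) ^ (-(1 + σ)) + ∑ p ∈ w v, (S.N p : ℝ) ^ (-(1 + σ)) with hX
  set A : ℝ := if exc c u v = (0, ∅) ∧ exc c v u = (0, ∅) then
    σ ^ (-(2 : ℝ)) * Real.exp (-X) else 0 with hA
  have hA0 : 0 ≤ A := by
    rw [hA]
    split_ifs
    · exact mul_nonneg (Real.rpow_nonneg h0.le _) (Real.exp_pos _).le
    · exact le_rfl
  set Q : ℝ := (1 + Real.log (S.nm M)) * σ ^ (-(3 / 2 : ℝ)) with hQ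
  have hQ0 : 0 ≤ Q := mul_nonneg (by linarith) (Real.rpow_nonneg h0.le _)
  -- the sums
  have hsub : (1 + σ - 1 : ℝ) = σ := by ring
  have hTr : ∀ (a b : V), ∑' p : S.P, hh S τ 1 (exc c a b) (w a) p * (S.N p : ℝ) ^ (-(1 + σ)) ≤
      Real.log (1 / σ) + K - ∑ p ∈ w a, (S.N p : ℝ) ^ (-(1 + σ)) := by
    intro a b
    have h7 := (hT τ hτ 1 (exc c a b) (w a) (1 + σ) (by norm_num) (by norm_num) hs1 hs2).2.1
    rw [hsub, one_mul] at h7
    exact h7
  have hTr' : ∀ (a b : V), ∑' p : S.P, hh S τ 1 (exc c a b) (w a) p * (S.N p : ℝ) ^ (-(1 + σ)) ≤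
      Real.log (1 / σ) + K := by
    intro a b
    have h7 : 0 ≤ ∑ p ∈ w a, (S.N p : ℝ) ^ (-(1 + σ)) :=
      Finset.sum_nonneg fun p _ => Real.rpow_nonneg (Nat.cast_nonneg _) _
    have h8 := hTr a b
    linarith
  have hTn : ∀ (a b : V), exc c a b ≠ (0, ∅) →
      ∑' p : S.P, hh S τ 1 (exc c a b) (w a) p * (S.N p : ℝ) ^ (-(1 + σ)) ≤
      1 / 2 * Real.log (1 / σ) + Real.log (1 + Real.log (S.nm M)) + K := by
    intro a b hab
    have hsb := b2b_exc hc a b
    have h7 := (hT τ hτ 1 (exc c a b) (w a) (1 + σ) (by norm_num) (by norm_num) hs1 hs2).2.2 hab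
      (hsb.trans (hM a))
    rw [hsub] at h7
    have h8 : 0 ≤ Real.log (S.nm (exc c a b).2) := Real.log_nonneg (S.one_le_nmr _)
    have h9 : Real.log (S.nm (exc c a b).2) ≤ Real.log (S.nm M) := by
      refine Real.log_le_log (S.nm_posr _) ?_
      exact_mod_cast S.nm_mono hsb
    have h10 : Real.log (1 + Real.log (S.nm (exc c a b).2)) ≤
        Real.log (1 + Real.log (S.nm M)) := Real.log_le_log (by linarith) (by linarith)
    have h11 : 0 ≤ Real.log (1 + Real.log (S.nm M)) := Real.log_nonneg (by linarith)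
    linarith
  have hprodAB : Real.exp (∑' p : S.P, hh S τ 1 (exc c u v) (w u) p * (S.N p : ℝ) ^ (-(1 + σ))) *
      Real.exp (∑' p : S.P, hh S τ 1 (exc c v u) (w v) p * (S.N p : ℝ) ^ (-(1 + σ))) ≤
      Real.exp (2 * K) * (A + Q) := by
    rw [← Real.exp_add]
    by_cases hb : exc c u v = (0, ∅) ∧ exc c v u = (0, ∅)
    · have h7 : A = σ ^ (-(2 : ℝ)) * Real.exp (-X) := by rw [hA, if_pos hb]
      have h8 := hTr u v
      have h9 := hTr v u
      have h10 : Real.exp (2 * Real.log (1 / σ)) = σ ^ (-(2 : ℝ)) := by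
        rw [Real.rpow_def_of_pos h0, one_div, Real.log_inv]
        congr 1
        ring
      calc Real.exp (∑' p : S.P, hh S τ 1 (exc c u v) (w u) p * (S.N p : ℝ) ^ (-(1 + σ)) +
            ∑' p : S.P, hh S τ 1 (exc c v u) (w v) p * (S.N p : ℝ) ^ (-(1 + σ)))
          ≤ Real.exp (2 * K + (2 * Real.log (1 / σ) + -X)) := by
            refine Real.exp_le_exp.2 ?_
            rw [hX]
            linarith
        _ = Real.exp (2 * K) * A := by rw [Real.exp_add, Real.exp_add, h10, h7]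
        _ ≤ Real.exp (2 * K) * (A + Q) :=
          mul_le_mul_of_nonneg_left (by linarith) (Real.exp_pos _).le
    · have h10 : Real.exp (3 / 2 * Real.log (1 / σ)) = σ ^ (-(3 / 2 : ℝ)) := by
        rw [Real.rpow_def_of_pos h0, one_div, Real.log_inv]
        congr 1
        ring
      have h11 : Real.exp (Real.log (1 + Real.log (S.nm M))) = 1 + Real.log (S.nm M) :=
        Real.exp_log (by linarith)
      have h12 : ∑' p : S.P, hh S τ 1 (exc c u v) (w u) p * (S.N p : ℝ) ^ (-(1 + σ)) +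
            ∑' p : S.P, hh S τ 1 (exc c v u) (w v) p * (S.N p : ℝ) ^ (-(1 + σ)) ≤
          2 * K + (Real.log (1 + Real.log (S.nm M)) + 3 / 2 * Real.log (1 / σ)) := by
        by_cases hu : exc c u v = (0, ∅)
        · have hv : exc c v u ≠ (0, ∅) := fun h => hb ⟨hu, h⟩
          have h8 := hTr' u v
          have h9 := hTn v u hv
          linarith
        · have h8 := hTn u v hu
          have h9 := hTr' v u
          linarith
      calc Real.exp (∑' p : S.P, hh S τ 1 (exc c u v) (w u) p * (S.N p : ℝ) ^ (-(1 + σ)) +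
            ∑' p : S.P, hh S τ 1 (exc c v u) (w v) p * (S.N p : ℝ) ^ (-(1 + σ)))
          ≤ Real.exp (2 * K + (Real.log (1 + Real.log (S.nm M)) + 3 / 2 * Real.log (1 / σ))) :=
            Real.exp_le_exp.2 h12
        _ = Real.exp (2 * K) * Q := by rw [Real.exp_add, Real.exp_add, h10, h11]
        _ ≤ Real.exp (2 * K) * (A + Q) :=
          mul_le_mul_of_nonneg_left (by linarith) (Real.exp_pos _).le
  have hmain : ∀ U : Finset V, Ind φ4 U → U.card = 2 → U.image Prod.fst = Finset.univ →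
      ∀ Ψ : Finset V → ℝ, (∀ P, P = U → Ψ P = 1) → (∀ P, P ≠ U → Ψ P = 0) →
      |FK τ 1 (1 + σ) φ4 D Ψ| ≤ Real.exp (2 * K) * (A + Q) := by
    intro U hU hU2 hU3 Ψ hΨ1 hΨ0
    have h5 := h2 S V φ4 B 1 τ D hτ (by norm_num) (by norm_num) U (1 + σ) hs1 hs2
    refine (le_of_eq (congrArg (fun Ψ => |FK τ 1 (1 + σ) φ4 D Ψ|)
      (funext fun P => ?_))).trans (h5.trans ?_)
    · by_cases hP : P = U
      · rw [if_pos hP, hΨ1 P hP]
      · rw [if_neg hP, hΨ0 P hP]
    refine le_trans (le_of_eq ?_) hprodAB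
    have hne : (1 : ZMod 2) ≠ 0 := by decide
    have k0 : ∀ j : ZMod 2, D.e (0, j) = exc c u v := by
      intro j
      show (if (0 : ZMod 2) = 0 then exc c u v else exc c v u) = _
      exact if_pos rfl
    have k1 : ∀ j : ZMod 2, D.e (1, j) = exc c v u := by
      intro j
      show (if (1 : ZMod 2) = 0 then exc c u v else exc c v u) = _
      exact if_neg hne
    have l0 : ∀ j : ZMod 2, D.w (0, j) = w u := by
      intro j
      show (if (0 : ZMod 2) = 0 then w u else w v) = _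
      exact if_pos rfl
    have l1 : ∀ j : ZMod 2, D.w (1, j) = w v := by
      intro j
      show (if (1 : ZMod 2) = 0 then w u else w v) = _
      exact if_neg hne
    rcases c4 U hU hU2 hU3 with hU4 | hU4
    · rw [hU4, Finset.prod_pair (by decide), k0, k1, l0, l1]
    · rw [hU4, Finset.prod_pair (by decide), k0, k1, l0, l1]
  -- the error term
  have hls : ∀ y : Finset S.P, 1 ≤ ls S y := by
    intro y
    unfold ls
    exact Real.one_le_exp (Finset.sum_nonneg fun p _ => div_nonneg zero_le_two (Nat.cast_nonneg _))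
  have hprod : ∏ t : V, ls S (D.w t) = (ls S (w u) * ls S (w v)) ^ 2 := by
    rw [Fintype.prod_prod_type]
    have h6 : ∀ i : ZMod 2, ∏ j : ZMod 2, ls S (D.w (i, j)) =
        ls S (if i = 0 then w u else w v) ^ 2 := by
      intro i
      have h7 : ∀ j : ZMod 2, ls S (D.w (i, j)) = ls S (if i = 0 then w u else w v) := fun j => rfl
      rw [Finset.prod_congr rfl fun j _ => h7 j, Finset.prod_const, Finset.card_univ]
      rfl
    rw [Finset.prod_congr rfl fun i _ => h6 i, Finset.prod_pow]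
    congr 1
    have h8 : (Finset.univ : Finset (ZMod 2)) = {0, 1} := by decide
    rw [h8, Finset.prod_pair (by decide), if_pos rfl, if_neg (by decide : (1 : ZMod 2) ≠ 0)]
  have hexp : -(1 * (((2 : ℕ) : ℝ) - 1)) = (-(1 : ℝ)) := by norm_num
  rw [hprod, hexp] at e2
  have hDM : D.M = M := rfl
  rw [hDM] at e2
  set Rr : ℝ := (1 + Real.log (1 / σ)) ^ E1 * (1 + Real.log (S.nm M)) *
    (ls S (w u) * ls S (w v)) ^ 2 * σ ^ (-(3 / 2 : ℝ)) with hRr
  have hl1 : (1 : ℝ) ≤ (1 + Real.log (1 / σ)) ^ E1 := Real.one_le_rpow (by linarith) hE1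
  have hl2 : (1 : ℝ) ≤ (ls S (w u) * ls S (w v)) ^ 2 :=
    one_le_pow₀ (one_le_mul_of_one_le_of_one_le (hls _) (hls _))
  have hQR : Q ≤ Rr := by
    have h6 : Rr = ((1 + Real.log (1 / σ)) ^ E1 * (ls S (w u) * ls S (w v)) ^ 2) * Q := by
      rw [hRr, hQ]
      ring
    rw [h6]
    exact le_mul_of_one_le_left hQ0 (one_le_mul_of_one_le_of_one_le hl1 hl2)
  have hR0 : 0 ≤ Rr := hQ0.trans hQR
  have hsig : σ ^ (-(1 : ℝ)) ≤ σ ^ (-(3 / 2 : ℝ)) :=
    Real.rpow_le_rpow_of_exponent_ge h0 hσ (by norm_num)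
  have e4 : C1 * (1 + Real.log (1 / σ)) ^ E1 * (1 + Real.log (S.nm M)) *
    (ls S (w u) * ls S (w v)) ^ 2 * σ ^ (-(1 : ℝ)) ≤ C1 * Rr := by
    have h6 : 0 ≤ C1 * (1 + Real.log (1 / σ)) ^ E1 * (1 + Real.log (S.nm M)) *
        (ls S (w u) * ls S (w v)) ^ 2 := by
      refine mul_nonneg (mul_nonneg (mul_nonneg hC1 ?_) ?_) ?_
      · linarith
      · linarith
      · linarith
    refine (mul_le_mul_of_nonneg_left hsig h6).trans (le_of_eq ?_)
    rw [hRr]
    ring
  have e3 := sub_le_iff_le_add.1 ((abs_le.1 e2).2.trans e4)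
  have h10 : C1 * Rr + (Fintype.card (Finset V) : ℝ) * (Real.exp (2 * K) * (A + Q)) ≤
      ((Fintype.card (Finset V) : ℝ) * Real.exp (2 * K) + C1) * (A + Rr) := by
    have h11 : 0 ≤ (Fintype.card (Finset V) : ℝ) * Real.exp (2 * K) := by positivity
    have h12 : (Fintype.card (Finset V) : ℝ) * Real.exp (2 * K) * (A + Q) ≤
        (Fintype.card (Finset V) : ℝ) * Real.exp (2 * K) * (A + Rr) :=
      mul_le_mul_of_nonneg_left (by linarith) h11
    have h13 : C1 * Rr ≤ C1 * (A + Rr) := mul_le_mul_of_nonneg_left (by linarith) hC1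
    linarith
  have hEA : 0 ≤ Real.exp (2 * K) * (A + Q) := mul_nonneg (Real.exp_pos _).le (by linarith)
  refine e3.trans ((add_le_add le_rfl ((Finset.sum_le_card_nsmul _ _
    (Real.exp (2 * K) * (A + Q)) fun U hU => ?_).trans ?_)).trans h10)
  · have hU2 := (Finset.mem_filter.1 hU).2
    by_cases h3c : U.image Prod.fst = Finset.univ
    · have h14 : Φ4 U = 1 := by
        unfold Φ4
        convert if_pos h3c
      rw [h14, one_mul]
      exact (le_abs_self _).trans (hmain U hU2.1 hU2.2 h3c _ (fun P hP => if_pos hP)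
        fun P hP => if_neg hP)
    · have h14 : Φ4 U = 0 := by
        unfold Φ4
        convert if_neg h3c
      rw [h14, zero_mul]
      exact hEA
  · rw [nsmul_eq_mul]
    refine mul_le_mul_of_nonneg_right ?_ hEA
    exact_mod_cast Finset.card_le_univ _

end Pool.Agent.D8
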