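import Pool.Agent.D8.Stm

/-!
# Malle's conjecture for the dihedral group of order 16 over number fields: extraction of two
primes (note 5262, part B)
-/

set_option autoImplicit false

open scoped BigOperators Topology
open Filter

namespace Pool.Agent.D8

open Pool.Agent.H98.MK (sg)
open Pool.Agent.H98.MF
open Pool.Agent.H32.MQ (El pw)

/-- the sum over the possible minima -/
private theorem q2_min {P : Type} (enc : P → ℕ) (henc : Function.Injective enc)
    (W y : Finset P) [DecidablePred fun p => p ∈ y ∧ ∀ r ∈ y, r ∈ W → enc p ≤ enc r]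
    [Decidable (∃ p ∈ y, p ∈ W)] :
    ∑ p ∈ W, (if p ∈ y ∧ ∀ r ∈ y, r ∈ W → enc p ≤ enc r then (1 : ℝ) else 0) =
      if ∃ p ∈ y, p ∈ W then 1 else 0 := by
  classical
  by_cases hex : ∃ p ∈ y, p ∈ W
  · rw [if_pos hex]
    obtain ⟨p1, hp1, hp1'⟩ := hex
    obtain ⟨p0, hp0, hmin⟩ := Finset.exists_min_image (y ∩ W) enc
      ⟨p1, Finset.mem_inter.2 ⟨hp1, hp1'⟩⟩
    rw [Finset.mem_inter] at hp0
    rw [Finset.sum_eq_single p0]
    · rw [if_pos]
      exact ⟨hp0.1, fun r hr hr' => hmin r (Finset.mem_inter.2 ⟨hr, hr'⟩)⟩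
    · intro p hp hne
      rw [if_neg]
      rintro ⟨h1, h2⟩
      exact hne (henc (le_antisymm (h2 p0 hp0.1 hp0.2) (hmin p (Finset.mem_inter.2 ⟨h1, hp⟩))))
    · intro hn
      exact absurd hp0.2 hn
  · rw [if_neg hex]
    refine Finset.sum_eq_zero fun p hp => ?_
    rw [if_neg]
    rintro ⟨h1, _⟩
    exact hex ⟨p, h1, hp⟩

open Classical in
/-- the indicator of the minimum -/
private noncomputable def q2_m {P : Type} (enc : P → ℕ) (W y : Finset P) (p : P) : ℝ :=
  if p ∈ y ∧ ∀ r ∈ y, r ∈ W → enc p ≤ enc r then 1 else 0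

open Classical in
private noncomputable def q2_al {P : Type} (enc : P → ℕ) (τ : P → ℝ) (K : ℝ) (W y : Finset P)
    (p : P) : ℝ :=
  if ∀ r ∈ y, r ∈ W → enc p ≤ enc r then τ p / K else 0

private theorem q2_m_le {P : Type} (enc : P → ℕ) (W y : Finset P) (p : P) :
    |q2_m enc W y p| ≤ 1 := by
  unfold q2_m
  split_ifs <;> simp

private theorem q2_al_le {P : Type} (enc : P → ℕ) (τ : P → ℝ) (K : ℝ) (hK : 0 < K)
    (W y : Finset P) (p : P) (h0 : 0 ≤ τ p) (h1 : τ p ≤ K) :
    |q2_al enc τ K W y p| ≤ 1 := by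
  unfold q2_al
  split_ifs
  · rw [abs_of_nonneg (div_nonneg h0 hK.le), div_le_one hK]
    exact h1
  · simp

private theorem q2_m_al {P : Type} [DecidableEq P] (enc : P → ℕ) (τ : P → ℝ) (K : ℝ)
    (hK : 0 < K) (W y x : Finset P) (p : P) (hx : x = insert p y) (n : ℝ) :
    q2_m enc W x p * (2 * τ p * n) = 2 * K * (q2_al enc τ K W y p * n) := by
  unfold q2_m q2_al
  by_cases hmin : ∀ r ∈ y, r ∈ W → enc p ≤ enc r
  · rw [if_pos hmin, if_pos]
    · field_simp
    · refine ⟨by rw [hx]; exact Finset.mem_insert_self _ _, ?_⟩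
      intro r hr hr'
      rw [hx, Finset.mem_insert] at hr
      rcases hr with rfl | hr
      · exact le_rfl
      · exact hmin r hr hr'
  · rw [if_neg hmin, if_neg]
    · ring
    · rintro ⟨_, h5⟩
      refine hmin fun r hr hr' => h5 r ?_ hr'
      rw [hx]
      exact Finset.mem_insert_of_mem hr

private theorem q2_swap {E P : Type} (W W' : Finset P) (f : P → P → E → ℝ)
    (T : P → P → Equiv.Perm E) (hfs : ∀ p q, Summable (f p q)) :
    ∑' x, ∑ p ∈ W, ∑ q ∈ W', f p q x = ∑' w, ∑ p ∈ W, ∑ q ∈ W', f p q (T p q w) := by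
  have hfs' : ∀ p q, Summable fun w => f p q (T p q w) := fun p q =>
    (T p q).summable_iff.2 (hfs p q)
  rw [Summable.tsum_finsetSum fun p _ => summable_sum fun q _ => hfs p q,
    Summable.tsum_finsetSum fun p _ => summable_sum fun q _ => hfs' p q]
  refine Finset.sum_congr rfl fun p _ => ?_
  rw [Summable.tsum_finsetSum fun q _ => hfs p q,
    Summable.tsum_finsetSum fun q _ => hfs' p q]
  refine Finset.sum_congr rfl fun q _ => ?_
  exact ((T p q).tsum_eq (f p q)).symm

section

variable {S : Sys}

/-- toggle a prime in two classes -/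
private noncomputable def q2_T (u v : V) (p q : S.P) (w : V → Finset S.P) : V → Finset S.P :=
  Function.update (Function.update w v (symmDiff (w v) {q})) u (symmDiff (w u) {p})

private theorem q2_T_u (u v : V) (p q : S.P) (w : V → Finset S.P) :
    q2_T u v p q w u = symmDiff (w u) {p} := by
  unfold q2_T
  rw [Function.update_self]

private theorem q2_T_v {u v : V} (huv : u ≠ v) (p q : S.P) (w : V → Finset S.P) :
    q2_T u v p q w v = symmDiff (w v) {q} := by
  unfold q2_T
  rw [Function.update_of_ne huv.symm, Function.update_self]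

private theorem q2_T_o {u v t : V} (h1 : t ≠ u) (h2 : t ≠ v) (p q : S.P)
    (w : V → Finset S.P) : q2_T u v p q w t = w t := by
  unfold q2_T
  rw [Function.update_of_ne h1, Function.update_of_ne h2]

private theorem q2_T_inv {u v : V} (huv : u ≠ v) (p q : S.P) :
    Function.Involutive (q2_T (S := S) u v p q) := by
  intro w
  funext t
  by_cases h1 : t = u
  · subst h1
    rw [q2_T_u, q2_T_u, symmDiff_symmDiff_cancel_right]
  · by_cases h2 : t = v
    · subst h2
      rw [q2_T_v huv, q2_T_v huv, symmDiff_symmDiff_cancel_right]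
    · rw [q2_T_o h1 h2, q2_T_o h1 h2]

private theorem q2_T_ins {u v : V} (huv : u ≠ v) {p q : S.P} {w : V → Finset S.P}
    (hp : p ∉ w u) (hq : q ∉ w v) : q2_T u v p q w = ins u p (ins v q w) := by
  have h1 : ∀ (x : Finset S.P) (r : S.P), r ∉ x → symmDiff x {r} = insert r x := by
    intro x r hr
    ext a
    rw [Finset.mem_symmDiff, Finset.mem_insert, Finset.mem_singleton]
    constructor
    · rintro (⟨h, _⟩ | ⟨h, _⟩)
      · exact Or.inr h
      · exact Or.inl h
    · rintro (h | h)
      · exact Or.inr ⟨h, by rw [h]; exact hr⟩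
      · exact Or.inl ⟨h, fun h2 => hr (h2 ▸ h)⟩
  unfold q2_T ins
  rw [h1 _ _ hp, h1 _ _ hq, Function.update_of_ne huv]

/-- the product over a family concentrated on two classes -/
private theorem q2_prod {u v : V} (huv : u ≠ v) (x : V → Finset S.P)
    (hx : ∀ t, t ≠ u → t ≠ v → x t = ∅) (h : S.P → ℝ) :
    ∏ t, ∏ p ∈ x t, h p = (∏ p ∈ x u, h p) * ∏ p ∈ x v, h p := by
  refine Fintype.prod_eq_mul u v huv fun t ht => ?_
  rw [hx t ht.1 ht.2, Finset.prod_empty]

open Classical in
/-- the majorant -/
private noncomputable def q2_A (u v : V) (g : Finset S.P → ℝ) (x : V → Finset S.P) : ℝ :=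
  if ∀ t, t ≠ u → t ≠ v → x t = ∅ then g (x u) * g (x v) else 0

private theorem q2_hasSum {u v : V} (huv : u ≠ v) (g : Finset S.P → ℝ) (hg0 : ∀ y, 0 ≤ g y)
    (hg : Summable g) : HasSum (q2_A (S := S) u v g) ((∑' y, g y) * ∑' y, g y) := by
  have h1 : HasSum (fun z : Finset S.P × Finset S.P => g z.1 * g z.2)
      ((∑' y, g y) * ∑' y, g y) := by
    have h2 : Summable fun z : Finset S.P × Finset S.P => g z.1 * g z.2 :=
      hg.mul_of_nonneg hg hg0 hg0
    rw [hg.tsum_mul_tsum hg h2]
    exact h2.hasSum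
  let i : Finset S.P × Finset S.P → (V → Finset S.P) := fun z =>
    Function.update (Function.update (fun _ : V => (∅ : Finset S.P)) v z.2) u z.1
  have hiu : ∀ z, i z u = z.1 := fun z => Function.update_self _ _ _
  have hiv : ∀ z, i z v = z.2 := fun z => by
    change Function.update (Function.update (fun _ : V => (∅ : Finset S.P)) v z.2) u z.1 v = z.2
    rw [Function.update_of_ne huv.symm, Function.update_self]
  have hio : ∀ z t, t ≠ u → t ≠ v → i z t = ∅ := fun z t h1 h2 => by
    change Function.update (Function.update (fun _ : V => (∅ : Finset S.P)) v z.2) u z.1 t = ∅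
    rw [Function.update_of_ne h1, Function.update_of_ne h2]
  have hi : Function.Injective i := by
    intro z z' hz
    refine Prod.ext ?_ ?_
    · rw [← hiu z, ← hiu z', hz]
    · rw [← hiv z, ← hiv z', hz]
  have h0 : ∀ x, x ∉ Set.range i → q2_A (S := S) u v g x = 0 := by
    intro x hx
    unfold q2_A
    rw [if_neg]
    intro h2
    refine hx ⟨(x u, x v), ?_⟩
    funext t
    by_cases ht : t = u
    · subst ht; rw [hiu]
    · by_cases ht' : t = v
      · subst ht'; rw [hiv]
      · rw [hio _ t ht ht', h2 t ht ht']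
  rw [← hi.hasSum_iff h0]
  convert h1 using 1
  funext z
  change q2_A u v g (i z) = g z.1 * g z.2
  unfold q2_A
  rw [if_pos (hio z), hiu, hiv]

end

/-- extraction of two primes -/
theorem s2X (h : ST1) : S2X := by
  classical
  intro S B
  obtain ⟨C1, hC1, h1⟩ := h S B 2 0 (by norm_num) le_rfl
  refine ⟨C1 ^ 2 * (4 * (1 + |B|) ^ 2), by positivity, ?_⟩
  intro τ c R u v hτ huv hR σ hσ hσ1 b hb
  have hb0 : 0 ≤ b := (abs_nonneg _).trans
    (hb (fun _ => ∅) (fun _ => 0) (fun _ => 0) (fun _ => by simp) (fun _ => by simp)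
      (fun _ _ _ => rfl))
  -- the encoding
  have hcount : Countable S.P := by
    rw [← Set.countable_univ_iff]
    have h2 : (Set.univ : Set S.P) = ⋃ X : ℕ, {p | S.N p ≤ X} := by
      ext p
      simp only [Set.mem_univ, Set.mem_iUnion, Set.mem_ofPred_eq, true_iff]
      exact ⟨S.N p, le_rfl⟩
    rw [h2]
    exact Set.countable_iUnion fun X => (S.fin X).countable
  obtain ⟨enc, henc⟩ := exists_injective_nat S.P
  -- the weights
  set hw : S.P → ℝ := fun p => 2 * τ p * (S.N p : ℝ) ^ (-(1 + σ)) with hhw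
  have hw0 : ∀ p, 0 ≤ hw p := fun p => mul_nonneg (mul_nonneg zero_le_two (hτ p).1)
    (Real.rpow_nonneg (Nat.cast_nonneg _) _)
  set g : Finset S.P → ℝ := fun y => ∏ p ∈ y, hw p with hg
  have hg0 : ∀ y, 0 ≤ g y := fun y => Finset.prod_nonneg fun p _ => hw0 p
  obtain ⟨hs1, hs2, _⟩ := h1 τ hτ σ hσ hσ1
  have hgeq : (fun x : Finset S.P => (∏ p ∈ x, 2 * τ p) * ls S x ^ 0 * pw (1 + σ) x) = g := by
    funext x
    rw [pow_zero, mul_one, hg]
    unfold pw Pre.nm
    rw [Nat.cast_prod, ← Real.finsetProd_rpow _ _ fun i _ => Nat.cast_nonneg _,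
      ← Finset.prod_mul_distrib]
  rw [hgeq] at hs1 hs2
  have hA := q2_hasSum huv g hg0 hs1
  have hA0 : ∀ x, 0 ≤ q2_A (S := S) u v g x := by
    intro x
    unfold q2_A
    split_ifs
    · exact mul_nonneg (hg0 _) (hg0 _)
    · exact le_rfl
  -- the terms
  set G : (V → Finset S.P) → ℝ := fun x =>
    if pat x = {u, v} then ms τ ∅ c (1 + σ) x * R x else 0 with hG
  have hpat : ∀ x : V → Finset S.P, pat x = {u, v} → ∀ t, t ≠ u → t ≠ v → x t = ∅ := by
    intro x hx t h2 h3
    by_contra h4
    have h5 : t ∈ pat x := by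
      unfold pat
      rw [Finset.mem_filter]
      exact ⟨Finset.mem_univ _, Finset.nonempty_iff_ne_empty.2 h4⟩
    rw [hx, Finset.mem_insert, Finset.mem_singleton] at h5
    rcases h5 with h5 | h5
    · exact h2 h5
    · exact h3 h5
  have hGA : ∀ x, |G x| ≤ q2_A (S := S) u v g x := by
    intro x
    by_cases hx : pat x = {u, v}
    · have hx' := hpat x hx
      simp only [hG]
      rw [if_pos hx]
      unfold q2_A
      rw [if_pos hx']
      unfold ms
      split_ifs with hadm
      · rw [q2_prod huv x hx' (fun p => 2 * τ p * (S.N p : ℝ) ^ (-(1 + σ))), abs_mul]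
        have h2 : |(∏ p ∈ x u, 2 * τ p * (S.N p : ℝ) ^ (-(1 + σ))) *
            ∏ p ∈ x v, 2 * τ p * (S.N p : ℝ) ^ (-(1 + σ))| = g (x u) * g (x v) :=
          abs_of_nonneg (mul_nonneg (hg0 _) (hg0 _))
        rw [h2]
        exact mul_le_of_le_one_right (mul_nonneg (hg0 _) (hg0 _)) (hR x)
      · rw [zero_mul, abs_zero]
        exact mul_nonneg (hg0 _) (hg0 _)
    · simp only [hG]
      rw [if_neg hx, abs_zero]
      exact hA0 x
  obtain ⟨f, hf⟩ : ∃ f : S.P → S.P → (V → Finset S.P) → ℝ, ∀ p q x,
      f p q x = q2_m enc (W1 S σ) (x u) p * q2_m enc (W2 S σ) (x v) q * G x :=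
    ⟨_, fun _ _ _ => rfl⟩
  have hfA : ∀ p q x, ‖f p q x‖ ≤ q2_A (S := S) u v g x := by
    intro p q x
    rw [Real.norm_eq_abs, hf, abs_mul, abs_mul]
    refine le_trans (mul_le_of_le_one_left (abs_nonneg _) ?_) (hGA x)
    exact mul_le_one₀ (q2_m_le _ _ _ _) (abs_nonneg _) (q2_m_le _ _ _ _)
  have hfs : ∀ p q, Summable (f p q) := fun p q =>
    Summable.of_norm_bounded hA.summable (hfA p q)
  -- the partition
  have hF : ∀ x : V → Finset S.P, (if pat x = {u, v} ∧ (∃ p ∈ x u, p ∈ W1 S σ) ∧
      (∃ p ∈ x v, p ∈ W2 S σ) then ms τ ∅ c (1 + σ) x * R x else 0) =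
      ∑ p ∈ W1 S σ, ∑ q ∈ W2 S σ, f p q x := by
    intro x
    have h2 : ∑ p ∈ W1 S σ, ∑ q ∈ W2 S σ, f p q x =
        (∑ p ∈ W1 S σ, q2_m enc (W1 S σ) (x u) p) *
          (∑ q ∈ W2 S σ, q2_m enc (W2 S σ) (x v) q) * G x := by
      rw [Finset.sum_mul_sum, Finset.sum_mul]
      refine Finset.sum_congr rfl fun p _ => ?_
      rw [Finset.sum_mul]
      exact Finset.sum_congr rfl fun q _ => hf p q x
    rw [h2]
    have h3 : ∑ p ∈ W1 S σ, q2_m enc (W1 S σ) (x u) p = if ∃ p ∈ x u, p ∈ W1 S σ then 1 else 0 :=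
      q2_min enc henc (W1 S σ) (x u)
    have h4 : ∑ p ∈ W2 S σ, q2_m enc (W2 S σ) (x v) p = if ∃ p ∈ x v, p ∈ W2 S σ then 1 else 0 :=
      q2_min enc henc (W2 S σ) (x v)
    rw [h3, h4]
    simp only [hG]
    by_cases h5 : pat x = {u, v}
    · by_cases h6 : ∃ p ∈ x u, p ∈ W1 S σ
      · by_cases h7 : ∃ p ∈ x v, p ∈ W2 S σ
        · rw [if_pos ⟨h5, h6, h7⟩, if_pos h6, if_pos h7, if_pos h5]
          ring
        · rw [if_neg (fun hh => h7 hh.2.2), if_neg h7]
          ring
      · rw [if_neg (fun hh => h6 hh.2.1), if_neg h6]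
        ring
    · rw [if_neg (fun hh => h5 hh.1), if_neg h5]
      ring
  rw [tsum_congr hF]
  rw [q2_swap (W1 S σ) (W2 S σ) f (fun p q => (q2_T_inv huv p q).toPerm) hfs]
  -- the bound of a term
  have hwin : ∀ a b' : ℝ, ∀ p ∈ win S a b' σ, S.ty p = 0 := by
    intro a b' p hp
    unfold win at hp
    rw [Finset.mem_filter] at hp
    exact hp.2.1
  have hτB : ∀ p, τ p ≤ 1 + |B| := by
    intro p
    have h4 := (hτ p).2
    have h5 : B * (S.N p : ℝ) ^ (-(1 / 2) : ℝ) ≤ |B| := by
      have h6 : (S.N p : ℝ) ^ (-(1 / 2) : ℝ) ≤ 1 :=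
        Real.rpow_le_one_of_one_le_of_nonpos (by exact_mod_cast S.one_le_N p) (by norm_num)
      have h7 : 0 ≤ (S.N p : ℝ) ^ (-(1 / 2) : ℝ) := Real.rpow_nonneg (Nat.cast_nonneg _) _
      calc B * (S.N p : ℝ) ^ (-(1 / 2) : ℝ) ≤ |B| * (S.N p : ℝ) ^ (-(1 / 2) : ℝ) :=
            mul_le_mul_of_nonneg_right (le_abs_self B) h7
        _ ≤ |B| * 1 := mul_le_mul_of_nonneg_left h6 (abs_nonneg _)
        _ = |B| := mul_one _
    have h8 := (abs_le.1 h4).2
    linarith
  have hB1 : 0 < 1 + |B| := by positivity
  have hterm : ∀ w : V → Finset S.P,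
      ‖∑ p ∈ W1 S σ, ∑ q ∈ W2 S σ, f p q (q2_T u v p q w)‖ ≤
        q2_A (S := S) u v g w * (4 * (1 + |B|) ^ 2 * b) := by
    intro w
    by_cases hw' : ∀ t, t ≠ u → t ≠ v → w t = ∅
    · -- the main case
      obtain ⟨α, hαd⟩ : ∃ α, α = q2_al enc τ (1 + |B|) (W1 S σ) (w u) := ⟨_, rfl⟩
      obtain ⟨β, hβd⟩ : ∃ β, β = q2_al enc τ (1 + |B|) (W2 S σ) (w v) := ⟨_, rfl⟩
      have hα : ∀ p, |α p| ≤ 1 := by
        intro p
        rw [hαd]
        exact q2_al_le enc τ _ hB1 _ _ p (hτ p).1 (hτB p)
      have hβ : ∀ p, |β p| ≤ 1 := by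
        intro p
        rw [hβd]
        exact q2_al_le enc τ _ hB1 _ _ p (hτ p).1 (hτB p)
      have hkey : ∀ p ∈ W1 S σ, ∀ q ∈ W2 S σ, f p q (q2_T u v p q w) =
          q2_A (S := S) u v g w * (4 * (1 + |B|) ^ 2) * (α p * β q *
            ((S.N p : ℝ) * S.N q) ^ (-(1 + σ)) * t2 c R u v w p q) := by
        intro p hp q hq
        by_cases hpu : p ∈ w u
        · have h4 : t2 c R u v w p q = 0 := by
            unfold t2
            rw [if_neg]
            rintro ⟨_, _, _, hn, _⟩
            exact hn u hpu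
          have h5 : q2_m enc (W1 S σ) (q2_T u v p q w u) p = 0 := by
            unfold q2_m
            rw [if_neg]
            rintro ⟨h6, _⟩
            rw [q2_T_u, Finset.mem_symmDiff] at h6
            rcases h6 with ⟨_, h6⟩ | ⟨_, h6⟩
            · exact h6 (Finset.mem_singleton_self _)
            · exact h6 hpu
          rw [hf, h4, h5]
          ring
        by_cases hqv : q ∈ w v
        · have h4 : t2 c R u v w p q = 0 := by
            unfold t2
            rw [if_neg]
            rintro ⟨_, _, _, _, hn, _⟩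
            exact hn v hqv
          have h5 : q2_m enc (W2 S σ) (q2_T u v p q w v) q = 0 := by
            unfold q2_m
            rw [if_neg]
            rintro ⟨h6, _⟩
            rw [q2_T_v huv, Finset.mem_symmDiff] at h6
            rcases h6 with ⟨_, h6⟩ | ⟨_, h6⟩
            · exact h6 (Finset.mem_singleton_self _)
            · exact h6 hqv
          rw [hf, h4, h5]
          ring
        rw [q2_T_ins huv hpu hqv]
        set x := ins u p (ins v q w) with hx
        have hxu : x u = insert p (w u) := by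
          rw [hx]
          unfold ins
          rw [Function.update_self, Function.update_of_ne huv]
        have hxv : x v = insert q (w v) := by
          rw [hx]
          unfold ins
          rw [Function.update_of_ne huv.symm, Function.update_self]
        have hxo : ∀ t, t ≠ u → t ≠ v → x t = w t := by
          intro t ht ht'
          rw [hx]
          unfold ins
          rw [Function.update_of_ne ht, Function.update_of_ne ht']
        by_cases hadm : Adm ∅ c x
        · -- admissible
          have hpq : p ≠ q := by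
            intro hh
            have h4 := hadm.dj u v huv
            rw [hxu, hxv, Finset.disjoint_left] at h4
            exact h4 (Finset.mem_insert_self _ _) (hh ▸ Finset.mem_insert_self _ _)
          have hNp : New p w := by
            intro t ht
            by_cases htu : t = u
            · exact hpu (htu ▸ ht)
            · have h4 := hadm.dj u t (Ne.symm htu)
              rw [hxu, Finset.disjoint_left] at h4
              refine h4 (Finset.mem_insert_self _ _) ?_
              by_cases htv : t = v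
              · subst htv
                rw [hxv]
                exact Finset.mem_insert_of_mem ht
              · rw [hxo t htu htv]
                exact ht
          have hNq : New q w := by
            intro t ht
            by_cases htv : t = v
            · exact hqv (htv ▸ ht)
            · have h4 := hadm.dj v t (Ne.symm htv)
              rw [hxv, Finset.disjoint_left] at h4
              refine h4 (Finset.mem_insert_self _ _) ?_
              by_cases htu : t = u
              · subst htu
                rw [hxu]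
                exact Finset.mem_insert_of_mem ht
              · rw [hxo t htu htv]
                exact ht
          have ht2 : t2 c R u v w p q = R x := by
            unfold t2
            rw [if_pos]
            exact ⟨hwin _ _ p hp, hwin _ _ q hq, hpq, hNp, hNq, hadm⟩
          have hpx : pat x = {u, v} := by
            ext t
            unfold pat
            rw [Finset.mem_filter, Finset.mem_insert, Finset.mem_singleton]
            constructor
            · rintro ⟨_, h4⟩
              by_contra h5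
              rw [not_or] at h5
              rw [hxo t h5.1 h5.2, hw' t h5.1 h5.2] at h4
              exact Finset.not_nonempty_empty h4
            · intro h4
              refine ⟨Finset.mem_univ _, ?_⟩
              rcases h4 with rfl | rfl
              · rw [hxu]; exact Finset.insert_nonempty _ _
              · rw [hxv]; exact Finset.insert_nonempty _ _
          have hGx : G x = hw p * hw q * (g (w u) * g (w v)) * R x := by
            simp only [hG]
            rw [if_pos hpx]
            unfold ms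
            rw [if_pos hadm, q2_prod huv x (fun t ht ht' => by rw [hxo t ht ht', hw' t ht ht'])
              (fun p => 2 * τ p * (S.N p : ℝ) ^ (-(1 + σ))), hxu, hxv,
              Finset.prod_insert hpu, Finset.prod_insert hqv]
            change (hw p * g (w u)) * (hw q * g (w v)) * R x = _
            ring
          have hAw : q2_A (S := S) u v g w = g (w u) * g (w v) := by
            unfold q2_A
            rw [if_pos hw']
          have hm1x : q2_m enc (W1 S σ) (x u) p * hw p =
              2 * (1 + |B|) * (α p * (S.N p : ℝ) ^ (-(1 + σ))) := by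
            rw [hαd]
            exact q2_m_al enc τ _ hB1 _ _ _ p hxu _
          have hm2x : q2_m enc (W2 S σ) (x v) q * hw q =
              2 * (1 + |B|) * (β q * (S.N q : ℝ) ^ (-(1 + σ))) := by
            rw [hβd]
            exact q2_m_al enc τ _ hB1 _ _ _ q hxv _
          rw [hf, hGx, ht2, hAw, Real.mul_rpow (Nat.cast_nonneg _) (Nat.cast_nonneg _)]
          calc q2_m enc (W1 S σ) (x u) p * q2_m enc (W2 S σ) (x v) q *
                (hw p * hw q * (g (w u) * g (w v)) * R x) =
              (q2_m enc (W1 S σ) (x u) p * hw p) * (q2_m enc (W2 S σ) (x v) q * hw q) *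
                (g (w u) * g (w v)) * R x := by ring
            _ = _ := by rw [hm1x, hm2x]; ring
        · -- not admissible
          have ht2 : t2 c R u v w p q = 0 := by
            unfold t2
            rw [if_neg]
            rintro ⟨_, _, _, _, _, h4⟩
            exact hadm h4
          have hGx : G x = 0 := by
            simp only [hG]
            unfold ms
            rw [if_neg hadm, zero_mul, ite_self]
          rw [hf, hGx, ht2]
          ring
      have h4 : ∑ p ∈ W1 S σ, ∑ q ∈ W2 S σ, f p q (q2_T u v p q w) =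
          q2_A (S := S) u v g w * (4 * (1 + |B|) ^ 2) * WS2 c R u v w α β σ := by
        unfold WS2
        rw [Finset.mul_sum]
        refine Finset.sum_congr rfl fun p hp => ?_
        rw [Finset.mul_sum]
        exact Finset.sum_congr rfl fun q hq => hkey p hp q hq
      rw [h4, Real.norm_eq_abs, abs_mul]
      have h5 : |q2_A (S := S) u v g w * (4 * (1 + |B|) ^ 2)| =
          q2_A (S := S) u v g w * (4 * (1 + |B|) ^ 2) :=
        abs_of_nonneg (mul_nonneg (hA0 w) (by positivity))
      rw [h5, ← mul_assoc (q2_A (S := S) u v g w) (4 * (1 + |B|) ^ 2) b]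
      exact mul_le_mul_of_nonneg_left (hb w α β hα hβ hw')
        (mul_nonneg (hA0 w) (by positivity))
    · -- another class occurs
      have h4 : ∑ p ∈ W1 S σ, ∑ q ∈ W2 S σ, f p q (q2_T u v p q w) = 0 := by
        refine Finset.sum_eq_zero fun p _ => Finset.sum_eq_zero fun q _ => ?_
        have h5 : G (q2_T u v p q w) = 0 := by
          simp only [hG]
          rw [if_neg]
          intro h6
          refine hw' fun t ht ht' => ?_
          rw [← q2_T_o ht ht' p q w]
          exact hpat _ h6 t ht ht'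
        rw [hf, h5, mul_zero]
      rw [h4, norm_zero]
      exact mul_nonneg (hA0 w) (by positivity)
  have h4 := tsum_of_norm_bounded (hA.mul_right (4 * (1 + |B|) ^ 2 * b)) hterm
  rw [Real.norm_eq_abs] at h4
  refine h4.trans ?_
  have h5 : 0 ≤ ∑' y, g y := tsum_nonneg hg0
  have h6 : (∑' y, g y) * ∑' y, g y ≤ (C1 * σ ^ (-(2 : ℝ))) * (C1 * σ ^ (-(2 : ℝ))) :=
    mul_le_mul hs2 hs2 h5 (mul_nonneg hC1 (Real.rpow_nonneg hσ.le _))
  have h7 : σ ^ (-(2 : ℝ)) * σ ^ (-(2 : ℝ)) = σ ^ (-(4 : ℝ)) := by
    rw [← Real.rpow_add hσ]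
    norm_num
  calc ((∑' y, g y) * ∑' y, g y) * (4 * (1 + |B|) ^ 2 * b) ≤
      ((C1 * σ ^ (-(2 : ℝ))) * (C1 * σ ^ (-(2 : ℝ)))) * (4 * (1 + |B|) ^ 2 * b) :=
        mul_le_mul_of_nonneg_right h6 (by positivity)
    _ = C1 ^ 2 * (4 * (1 + |B|) ^ 2) * (σ ^ (-(2 : ℝ)) * σ ^ (-(2 : ℝ))) * b := by ring
    _ = _ := by rw [h7]

end Pool.Agent.D8
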