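import Pool.Agent.D8.Stm

/-!
# Project D8, row W3: dyadic decomposition of the windows
-/

set_option autoImplicit false

open scoped BigOperators Topology
open Filter

namespace Pool.Agent.D8

open Pool.Agent.H98.MF

section

variable {S : Sys}

theorem b3w_le (p : S.P) : (S.N p : ℝ) ≤ 2 ^ Nat.clog 2 (S.N p) := by
  exact_mod_cast Nat.le_pow_clog one_lt_two (S.N p)

theorem b3w_ge (p : S.P) : (2 : ℝ) ^ Nat.clog 2 (S.N p) / 2 ≤ S.N p := by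
  have h2 : 1 < S.N p := S.two_le p
  have h1 := Nat.pow_pred_clog_lt_self one_lt_two h2
  have h3 : 0 < Nat.clog 2 (S.N p) := Nat.clog_pos one_lt_two h2
  obtain ⟨m, hm⟩ : ∃ m, Nat.clog 2 (S.N p) = m + 1 := ⟨Nat.clog 2 (S.N p) - 1, by omega⟩
  rw [hm] at h1 ⊢
  rw [Nat.pred_succ] at h1
  have h4 : (2 : ℝ) ^ m ≤ S.N p := by exact_mod_cast h1.le
  rw [pow_succ]
  linarith

/-- the normalised weights are bounded by one -/
theorem b3w_wt (σ : ℝ) (hσ : 0 < σ) (a : ℝ) (ha : |a| ≤ 1) (p : S.P) (i : ℕ)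
    (hi : Nat.clog 2 (S.N p) = i) :
    |a * (S.N p : ℝ) ^ (-(1 + σ)) * (2 ^ i / 2)| ≤ 1 := by
  have h1 : (1 : ℝ) ≤ S.N p := by exact_mod_cast S.one_le_N p
  have h2 : (S.N p : ℝ) ^ (-(1 + σ)) ≤ (S.N p : ℝ)⁻¹ := by
    rw [← Real.rpow_neg_one]
    exact Real.rpow_le_rpow_of_exponent_le h1 (by linarith)
  have h3 : (0 : ℝ) ≤ (S.N p : ℝ) ^ (-(1 + σ)) := Real.rpow_nonneg (by linarith) _
  have h4 : (0 : ℝ) ≤ 2 ^ i / 2 := by positivity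
  have h5 : (2 : ℝ) ^ i / 2 ≤ S.N p := by
    rw [← hi]
    exact b3w_ge p
  rw [abs_mul, abs_mul, abs_of_nonneg h3, abs_of_nonneg h4]
  calc |a| * (S.N p : ℝ) ^ (-(1 + σ)) * (2 ^ i / 2)
      ≤ 1 * (S.N p : ℝ)⁻¹ * (S.N p : ℝ) := by
        refine mul_le_mul (mul_le_mul ha h2 h3 zero_le_one) h5 h4 (by positivity)
    _ = 1 := by
        rw [one_mul, inv_mul_cancel₀ (by linarith)]

theorem b3w_ext3 {P : Type} [DecidableEq P] (U V W A B C : Finset P) (hU : U ⊆ A) (hV : V ⊆ B)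
    (hW : W ⊆ C) (f g h : P → ℝ) (T : P → P → P → ℝ) :
    ∑ x ∈ A, ∑ y ∈ B, ∑ z ∈ C, (if x ∈ U then f x else 0) * (if y ∈ V then g y else 0) *
      (if z ∈ W then h z else 0) * T x y z =
    ∑ x ∈ U, ∑ y ∈ V, ∑ z ∈ W, f x * g y * h z * T x y z := by
  symm
  have e1 : ∑ x ∈ U, ∑ y ∈ B, ∑ z ∈ C, (if x ∈ U then f x else 0) *
      (if y ∈ V then g y else 0) * (if z ∈ W then h z else 0) * T x y z =
      ∑ x ∈ A, ∑ y ∈ B, ∑ z ∈ C, (if x ∈ U then f x else 0) * (if y ∈ V then g y else 0) *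
      (if z ∈ W then h z else 0) * T x y z := by
    refine Finset.sum_subset hU fun x _ hx => ?_
    refine Finset.sum_eq_zero fun y _ => Finset.sum_eq_zero fun z _ => ?_
    rw [if_neg hx]
    ring
  rw [← e1]
  refine Finset.sum_congr rfl fun x hx => ?_
  have e2 : ∑ y ∈ V, ∑ z ∈ C, (if x ∈ U then f x else 0) *
      (if y ∈ V then g y else 0) * (if z ∈ W then h z else 0) * T x y z =
      ∑ y ∈ B, ∑ z ∈ C, (if x ∈ U then f x else 0) * (if y ∈ V then g y else 0) *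
      (if z ∈ W then h z else 0) * T x y z := by
    refine Finset.sum_subset hV fun y _ hy => ?_
    refine Finset.sum_eq_zero fun z _ => ?_
    rw [if_neg hy]
    ring
  rw [← e2]
  refine Finset.sum_congr rfl fun y hy => ?_
  have e3 : ∑ z ∈ W, (if x ∈ U then f x else 0) *
      (if y ∈ V then g y else 0) * (if z ∈ W then h z else 0) * T x y z =
      ∑ z ∈ C, (if x ∈ U then f x else 0) * (if y ∈ V then g y else 0) *
      (if z ∈ W then h z else 0) * T x y z := by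
    refine Finset.sum_subset hW fun z _ hz => ?_
    rw [if_neg hz]
    ring
  rw [← e3]
  refine Finset.sum_congr rfl fun z hz => ?_
  rw [if_pos hx, if_pos hy, if_pos hz]

theorem b3w_ext2 {P : Type} [DecidableEq P] (U V A B : Finset P) (hU : U ⊆ A) (hV : V ⊆ B)
    (f g : P → ℝ) (T : P → P → ℝ) :
    ∑ x ∈ A, ∑ y ∈ B, (if x ∈ U then f x else 0) * (if y ∈ V then g y else 0) * T x y =
    ∑ x ∈ U, ∑ y ∈ V, f x * g y * T x y := by
  symm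
  have e1 : ∑ x ∈ U, ∑ y ∈ B, (if x ∈ U then f x else 0) *
      (if y ∈ V then g y else 0) * T x y =
      ∑ x ∈ A, ∑ y ∈ B, (if x ∈ U then f x else 0) * (if y ∈ V then g y else 0) * T x y := by
    refine Finset.sum_subset hU fun x _ hx => ?_
    refine Finset.sum_eq_zero fun y _ => ?_
    rw [if_neg hx]
    ring
  rw [← e1]
  refine Finset.sum_congr rfl fun x hx => ?_
  have e2 : ∑ y ∈ V, (if x ∈ U then f x else 0) *
      (if y ∈ V then g y else 0) * T x y =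
      ∑ y ∈ B, (if x ∈ U then f x else 0) * (if y ∈ V then g y else 0) * T x y := by
    refine Finset.sum_subset hV fun y _ hy => ?_
    rw [if_neg hy]
    ring
  rw [← e2]
  refine Finset.sum_congr rfl fun y hy => ?_
  rw [if_pos hx, if_pos hy]

theorem b3w_dec2 {P : Type} [DecidableEq P] (U V : Finset P) (cl : P → ℕ) (K : ℕ)
    (l1 : ∀ p ∈ U, cl p ∈ Finset.range K) (l2 : ∀ p ∈ V, cl p ∈ Finset.range K)
    (F : P → P → ℝ) :
    ∑ x ∈ U, ∑ y ∈ V, F x y = ∑ i ∈ Finset.range K, ∑ j ∈ Finset.range K,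
      ∑ x ∈ U.filter (fun p => cl p = i), ∑ y ∈ V.filter (fun p => cl p = j), F x y := by
  have e1 : ∀ x, ∑ y ∈ V, F x y =
      ∑ j ∈ Finset.range K, ∑ y ∈ V.filter (fun p => cl p = j), F x y := fun x =>
    (Finset.sum_fiberwise_of_maps_to l2 (F x)).symm
  calc ∑ x ∈ U, ∑ y ∈ V, F x y = ∑ i ∈ Finset.range K, ∑ x ∈ U.filter (fun p => cl p = i),
        ∑ y ∈ V, F x y := (Finset.sum_fiberwise_of_maps_to l1 (fun x => ∑ y ∈ V, F x y)).symm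
    _ = ∑ i ∈ Finset.range K, ∑ x ∈ U.filter (fun p => cl p = i),
        ∑ j ∈ Finset.range K, ∑ y ∈ V.filter (fun p => cl p = j), F x y :=
        Finset.sum_congr rfl fun i _ => Finset.sum_congr rfl fun x _ => e1 x
    _ = _ := Finset.sum_congr rfl fun i _ => Finset.sum_comm

theorem b3w_dec3 {P : Type} [DecidableEq P] (U V : Finset P) (cl : P → ℕ) (K : ℕ)
    (l1 : ∀ p ∈ U, cl p ∈ Finset.range K) (l2 : ∀ p ∈ V, cl p ∈ Finset.range K)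
    (F : P → P → P → ℝ) :
    ∑ x ∈ U, ∑ y ∈ V, ∑ z ∈ V, F x y z = ∑ i ∈ Finset.range K, ∑ j ∈ Finset.range K,
      ∑ k ∈ Finset.range K, ∑ x ∈ U.filter (fun p => cl p = i),
        ∑ y ∈ V.filter (fun p => cl p = j), ∑ z ∈ V.filter (fun p => cl p = k), F x y z := by
  have e1 : ∀ x, ∑ y ∈ V, ∑ z ∈ V, F x y z =
      ∑ j ∈ Finset.range K, ∑ k ∈ Finset.range K, ∑ y ∈ V.filter (fun p => cl p = j),
        ∑ z ∈ V.filter (fun p => cl p = k), F x y z := fun x =>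
    b3w_dec2 V V cl K l2 l2 (F x)
  calc ∑ x ∈ U, ∑ y ∈ V, ∑ z ∈ V, F x y z
      = ∑ i ∈ Finset.range K, ∑ x ∈ U.filter (fun p => cl p = i),
        ∑ y ∈ V, ∑ z ∈ V, F x y z :=
        (Finset.sum_fiberwise_of_maps_to l1 (fun x => ∑ y ∈ V, ∑ z ∈ V, F x y z)).symm
    _ = ∑ i ∈ Finset.range K, ∑ x ∈ U.filter (fun p => cl p = i),
        ∑ j ∈ Finset.range K, ∑ k ∈ Finset.range K, ∑ y ∈ V.filter (fun p => cl p = j),
        ∑ z ∈ V.filter (fun p => cl p = k), F x y z :=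
        Finset.sum_congr rfl fun i _ => Finset.sum_congr rfl fun x _ => e1 x
    _ = ∑ i ∈ Finset.range K, ∑ j ∈ Finset.range K, ∑ x ∈ U.filter (fun p => cl p = i),
        ∑ k ∈ Finset.range K, ∑ y ∈ V.filter (fun p => cl p = j),
        ∑ z ∈ V.filter (fun p => cl p = k), F x y z :=
        Finset.sum_congr rfl fun i _ => Finset.sum_comm
    _ = _ := Finset.sum_congr rfl fun i _ => Finset.sum_congr rfl fun j _ => Finset.sum_comm

/-- the size of the error in a box -/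
theorem b3w_size (A η a b c : ℝ) (hA : 0 ≤ A) (hη : 0 < η) (i : ℕ) (Y : ℝ) (p : S.P)
    (hi : Nat.clog 2 (S.N p) = i) (h1 : Real.exp a < S.N p) (h2 : (S.N p : ℝ) ≤ Real.exp b)
    (hY : Real.exp c ≤ Y) :
    ((2 : ℝ) ^ i) ^ (-(1 / 2) : ℝ) + ((2 : ℝ) ^ i) ^ A * Y ^ (-η) ≤
      Real.exp (-(a / 2)) + (2 * Real.exp b) ^ A * Real.exp (-(η * c)) := by
  have e1 : Real.exp a ≤ (2 : ℝ) ^ i := by
    rw [← hi]
    exact h1.le.trans (b3w_le p)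
  have e2 : (2 : ℝ) ^ i ≤ 2 * Real.exp b := by
    have := b3w_ge p
    rw [hi] at this
    linarith
  have e3 : ((2 : ℝ) ^ i) ^ (-(1 / 2) : ℝ) ≤ Real.exp (-(a / 2)) := by
    have := Real.rpow_le_rpow_of_nonpos (Real.exp_pos a) e1
      (by norm_num : (-(1 / 2) : ℝ) ≤ 0)
    refine this.trans (le_of_eq ?_)
    rw [← Real.exp_mul]
    congr 1
    ring
  have e4 : ((2 : ℝ) ^ i) ^ A ≤ (2 * Real.exp b) ^ A :=
    Real.rpow_le_rpow (by positivity) e2 hA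
  have e5 : Y ^ (-η) ≤ Real.exp (-(η * c)) := by
    have := Real.rpow_le_rpow_of_nonpos (Real.exp_pos c) hY (by linarith : -η ≤ 0)
    refine this.trans (le_of_eq ?_)
    rw [← Real.exp_mul]
    congr 1
    ring
  have e6 : (0 : ℝ) ≤ Y ^ (-η) := Real.rpow_nonneg ((Real.exp_pos c).le.trans hY) _
  have e7 : (0 : ℝ) ≤ (2 * Real.exp b) ^ A := Real.rpow_nonneg (by positivity) _
  exact add_le_add e3 (mul_le_mul e4 e5 e6 e7)

open Classical in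
/-- a box, three variables -/
theorem b3w_box3 (T : S.P → S.P → S.P → ℝ) (C A η : ℝ) (hA : 0 ≤ A) (hη : 0 < η)
    (hT : ∀ α β γ : S.P → ℝ, (∀ p, |α p| ≤ 1) → (∀ p, |β p| ≤ 1) → (∀ p, |γ p| ≤ 1) →
      ∀ X Y Z : ℝ, 1 ≤ X → 1 ≤ Y → 1 ≤ Z →
      |∑ x ∈ S.pr X, ∑ y ∈ S.pr Y, ∑ z ∈ S.pr Z, α x * β y * γ z * T x y z| ≤
        C * (X * Y * Z) * (X ^ (-(1 / 2) : ℝ) + X ^ A * min Y Z ^ (-η)))
    (σ : ℝ) (hσ : 0 < σ) (U V : Finset S.P) (a b c : ℝ)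
    (hU : ∀ p ∈ U, Real.exp a < S.N p ∧ (S.N p : ℝ) ≤ Real.exp b)
    (hV : ∀ p ∈ V, Real.exp c < S.N p) (α β γ : S.P → ℝ) (hα : ∀ p, |α p| ≤ 1)
    (hβ : ∀ p, |β p| ≤ 1) (hγ : ∀ p, |γ p| ≤ 1) (i j k : ℕ) :
    |∑ x ∈ U.filter (fun p => Nat.clog 2 (S.N p) = i),
      ∑ y ∈ V.filter (fun p => Nat.clog 2 (S.N p) = j),
      ∑ z ∈ V.filter (fun p => Nat.clog 2 (S.N p) = k), α x * β y * γ z *
        ((S.N x : ℝ) * S.N y * S.N z) ^ (-(1 + σ)) * T x y z| ≤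
      8 * |C| * (Real.exp (-(a / 2)) + (2 * Real.exp b) ^ A * Real.exp (-(η * c))) := by
  have hpos : (0 : ℝ) ≤ 8 * |C| * (Real.exp (-(a / 2)) +
      (2 * Real.exp b) ^ A * Real.exp (-(η * c))) := by
    have : (0 : ℝ) ≤ (2 * Real.exp b) ^ A := Real.rpow_nonneg (by positivity) _
    positivity
  obtain ⟨Ui, hUi⟩ : ∃ Ui, Ui = U.filter (fun p => Nat.clog 2 (S.N p) = i) := ⟨_, rfl⟩
  obtain ⟨Vj, hVj⟩ : ∃ Vj, Vj = V.filter (fun p => Nat.clog 2 (S.N p) = j) := ⟨_, rfl⟩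
  obtain ⟨Vk, hVk⟩ : ∃ Vk, Vk = V.filter (fun p => Nat.clog 2 (S.N p) = k) := ⟨_, rfl⟩
  rw [← hUi, ← hVj, ← hVk]
  rcases Ui.eq_empty_or_nonempty with h0 | ⟨x0, hx0⟩
  · rw [h0, Finset.sum_empty, abs_zero]
    exact hpos
  rcases Vj.eq_empty_or_nonempty with h0 | ⟨y0, hy0⟩
  · rw [h0]
    simp only [Finset.sum_empty, Finset.sum_const_zero, abs_zero]
    exact hpos
  rcases Vk.eq_empty_or_nonempty with h0 | ⟨z0, hz0⟩
  · rw [h0]
    simp only [Finset.sum_empty, Finset.sum_const_zero, abs_zero]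
    exact hpos
  have mU : ∀ p ∈ Ui, p ∈ U ∧ Nat.clog 2 (S.N p) = i := fun p hp => by
    rw [hUi] at hp
    exact Finset.mem_filter.1 hp
  have mVj : ∀ p ∈ Vj, p ∈ V ∧ Nat.clog 2 (S.N p) = j := fun p hp => by
    rw [hVj] at hp
    exact Finset.mem_filter.1 hp
  have mVk : ∀ p ∈ Vk, p ∈ V ∧ Nat.clog 2 (S.N p) = k := fun p hp => by
    rw [hVk] at hp
    exact Finset.mem_filter.1 hp
  have sub : ∀ (W : Finset S.P) (l : ℕ), (∀ p ∈ W, Nat.clog 2 (S.N p) = l) →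
      W ⊆ S.pr ((2 : ℝ) ^ l) := by
    intro W l h p hp
    rw [S.mem_pr (by positivity), ← h p hp]
    exact b3w_le p
  have key := b3w_ext3 Ui Vj Vk (S.pr ((2 : ℝ) ^ i)) (S.pr ((2 : ℝ) ^ j)) (S.pr ((2 : ℝ) ^ k))
    (sub Ui i fun p hp => (mU p hp).2) (sub Vj j fun p hp => (mVj p hp).2)
    (sub Vk k fun p hp => (mVk p hp).2)
    (fun p => α p * (S.N p : ℝ) ^ (-(1 + σ)) * (2 ^ i / 2))
    (fun p => β p * (S.N p : ℝ) ^ (-(1 + σ)) * (2 ^ j / 2))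
    (fun p => γ p * (S.N p : ℝ) ^ (-(1 + σ)) * (2 ^ k / 2)) T
  have bnd : ∀ (δ : S.P → ℝ), (∀ p, |δ p| ≤ 1) → ∀ (W : Finset S.P) (l : ℕ),
      (∀ p ∈ W, Nat.clog 2 (S.N p) = l) → ∀ p,
      |if p ∈ W then δ p * (S.N p : ℝ) ^ (-(1 + σ)) * (2 ^ l / 2) else 0| ≤ 1 := by
    intro δ hδ W l h p
    by_cases hp : p ∈ W
    · rw [if_pos hp]
      exact b3w_wt σ hσ (δ p) (hδ p) p l (h p hp)
    · rw [if_neg hp, abs_zero]
      exact zero_le_one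
  have one : ∀ l : ℕ, (1 : ℝ) ≤ 2 ^ l := fun l => one_le_pow₀ (by norm_num)
  have main := hT _ _ _ (bnd α hα Ui i fun p hp => (mU p hp).2)
    (bnd β hβ Vj j fun p hp => (mVj p hp).2) (bnd γ hγ Vk k fun p hp => (mVk p hp).2)
    (2 ^ i) (2 ^ j) (2 ^ k) (one i) (one j) (one k)
  rw [key] at main
  have fac : ∑ x ∈ Ui, ∑ y ∈ Vj, ∑ z ∈ Vk, α x * (S.N x : ℝ) ^ (-(1 + σ)) * (2 ^ i / 2) *
      (β y * (S.N y : ℝ) ^ (-(1 + σ)) * (2 ^ j / 2)) *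
      (γ z * (S.N z : ℝ) ^ (-(1 + σ)) * (2 ^ k / 2)) * T x y z =
      ((2 ^ i * 2 ^ j * 2 ^ k) / 8) * ∑ x ∈ Ui, ∑ y ∈ Vj, ∑ z ∈ Vk, α x * β y * γ z *
        ((S.N x : ℝ) * S.N y * S.N z) ^ (-(1 + σ)) * T x y z := by
    rw [Finset.mul_sum]
    refine Finset.sum_congr rfl fun x _ => ?_
    rw [Finset.mul_sum]
    refine Finset.sum_congr rfl fun y _ => ?_
    rw [Finset.mul_sum]
    refine Finset.sum_congr rfl fun z _ => ?_
    have g1 : (0 : ℝ) ≤ S.N x := Nat.cast_nonneg _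
    have g2 : (0 : ℝ) ≤ S.N y := Nat.cast_nonneg _
    have g3 : (0 : ℝ) ≤ S.N z := Nat.cast_nonneg _
    rw [Real.mul_rpow (mul_nonneg g1 g2) g3, Real.mul_rpow g1 g2]
    ring
  rw [fac, abs_mul] at main
  have q0 : (0 : ℝ) < 2 ^ i * 2 ^ j * 2 ^ k := by positivity
  rw [abs_of_pos (by positivity : (0 : ℝ) < 2 ^ i * 2 ^ j * 2 ^ k / 8)] at main
  obtain ⟨G, hG⟩ : ∃ G, G = |∑ x ∈ Ui, ∑ y ∈ Vj, ∑ z ∈ Vk, α x * β y * γ z *
        ((S.N x : ℝ) * S.N y * S.N z) ^ (-(1 + σ)) * T x y z| := ⟨_, rfl⟩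
  rw [← hG] at main ⊢
  have hY : Real.exp c ≤ min ((2 : ℝ) ^ j) (2 ^ k) := by
    refine le_min ?_ ?_
    · rw [← (mVj y0 hy0).2]
      exact (hV y0 (mVj y0 hy0).1).le.trans (b3w_le y0)
    · rw [← (mVk z0 hz0).2]
      exact (hV z0 (mVk z0 hz0).1).le.trans (b3w_le z0)
  have sz := b3w_size A η a b c hA hη i (min ((2 : ℝ) ^ j) (2 ^ k)) x0 (mU x0 hx0).2
    (hU x0 (mU x0 hx0).1).1 (hU x0 (mU x0 hx0).1).2 hY
  obtain ⟨E, hE⟩ : ∃ E, E = ((2 : ℝ) ^ i) ^ (-(1 / 2) : ℝ) +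
    ((2 : ℝ) ^ i) ^ A * min ((2 : ℝ) ^ j) (2 ^ k) ^ (-η) := ⟨_, rfl⟩
  rw [← hE] at main sz
  have hE0 : 0 ≤ E := by
    rw [hE]
    have : (0 : ℝ) ≤ min ((2 : ℝ) ^ j) (2 ^ k) := le_min (by positivity) (by positivity)
    positivity
  have m2 : C * (2 ^ i * 2 ^ j * 2 ^ k) * E ≤ |C| * (2 ^ i * 2 ^ j * 2 ^ k) * E := by
    refine mul_le_mul_of_nonneg_right (mul_le_mul_of_nonneg_right (le_abs_self C) q0.le) hE0
  have m3 : G ≤ 8 * |C| * E := by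
    have m4 : (2 ^ i * 2 ^ j * 2 ^ k) * G ≤ (2 ^ i * 2 ^ j * 2 ^ k) * (8 * |C| * E) := by
      linarith
    exact le_of_mul_le_mul_left m4 q0
  exact m3.trans (mul_le_mul_of_nonneg_left sz (by positivity))

open Classical in
/-- a box, two variables -/
theorem b3w_box2 (T : S.P → S.P → ℝ) (C A η : ℝ) (hA : 0 ≤ A) (hη : 0 < η)
    (hT : ∀ α β : S.P → ℝ, (∀ p, |α p| ≤ 1) → (∀ p, |β p| ≤ 1) →
      ∀ X Y : ℝ, 1 ≤ X → 1 ≤ Y →
      |∑ x ∈ S.pr X, ∑ y ∈ S.pr Y, α x * β y * T x y| ≤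
        C * (X * Y) * (X ^ (-(1 / 2) : ℝ) + X ^ A * Y ^ (-η)))
    (σ : ℝ) (hσ : 0 < σ) (U V : Finset S.P) (a b c : ℝ)
    (hU : ∀ p ∈ U, Real.exp a < S.N p ∧ (S.N p : ℝ) ≤ Real.exp b)
    (hV : ∀ p ∈ V, Real.exp c < S.N p) (α β : S.P → ℝ) (hα : ∀ p, |α p| ≤ 1)
    (hβ : ∀ p, |β p| ≤ 1) (i j : ℕ) :
    |∑ x ∈ U.filter (fun p => Nat.clog 2 (S.N p) = i),
      ∑ y ∈ V.filter (fun p => Nat.clog 2 (S.N p) = j), α x * β y *
        ((S.N x : ℝ) * S.N y) ^ (-(1 + σ)) * T x y| ≤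
      8 * |C| * (Real.exp (-(a / 2)) + (2 * Real.exp b) ^ A * Real.exp (-(η * c))) := by
  have hpos : (0 : ℝ) ≤ 8 * |C| * (Real.exp (-(a / 2)) +
      (2 * Real.exp b) ^ A * Real.exp (-(η * c))) := by
    have : (0 : ℝ) ≤ (2 * Real.exp b) ^ A := Real.rpow_nonneg (by positivity) _
    positivity
  obtain ⟨Ui, hUi⟩ : ∃ Ui, Ui = U.filter (fun p => Nat.clog 2 (S.N p) = i) := ⟨_, rfl⟩
  obtain ⟨Vj, hVj⟩ : ∃ Vj, Vj = V.filter (fun p => Nat.clog 2 (S.N p) = j) := ⟨_, rfl⟩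
  rw [← hUi, ← hVj]
  rcases Ui.eq_empty_or_nonempty with h0 | ⟨x0, hx0⟩
  · rw [h0, Finset.sum_empty, abs_zero]
    exact hpos
  rcases Vj.eq_empty_or_nonempty with h0 | ⟨y0, hy0⟩
  · rw [h0]
    simp only [Finset.sum_empty, Finset.sum_const_zero, abs_zero]
    exact hpos
  have mU : ∀ p ∈ Ui, p ∈ U ∧ Nat.clog 2 (S.N p) = i := fun p hp => by
    rw [hUi] at hp
    exact Finset.mem_filter.1 hp
  have mVj : ∀ p ∈ Vj, p ∈ V ∧ Nat.clog 2 (S.N p) = j := fun p hp => by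
    rw [hVj] at hp
    exact Finset.mem_filter.1 hp
  have sub : ∀ (W : Finset S.P) (l : ℕ), (∀ p ∈ W, Nat.clog 2 (S.N p) = l) →
      W ⊆ S.pr ((2 : ℝ) ^ l) := by
    intro W l h p hp
    rw [S.mem_pr (by positivity), ← h p hp]
    exact b3w_le p
  have key := b3w_ext2 Ui Vj (S.pr ((2 : ℝ) ^ i)) (S.pr ((2 : ℝ) ^ j))
    (sub Ui i fun p hp => (mU p hp).2) (sub Vj j fun p hp => (mVj p hp).2)
    (fun p => α p * (S.N p : ℝ) ^ (-(1 + σ)) * (2 ^ i / 2))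
    (fun p => β p * (S.N p : ℝ) ^ (-(1 + σ)) * (2 ^ j / 2)) T
  have bnd : ∀ (δ : S.P → ℝ), (∀ p, |δ p| ≤ 1) → ∀ (W : Finset S.P) (l : ℕ),
      (∀ p ∈ W, Nat.clog 2 (S.N p) = l) → ∀ p,
      |if p ∈ W then δ p * (S.N p : ℝ) ^ (-(1 + σ)) * (2 ^ l / 2) else 0| ≤ 1 := by
    intro δ hδ W l h p
    by_cases hp : p ∈ W
    · rw [if_pos hp]
      exact b3w_wt σ hσ (δ p) (hδ p) p l (h p hp)
    · rw [if_neg hp, abs_zero]
      exact zero_le_one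
  have one : ∀ l : ℕ, (1 : ℝ) ≤ 2 ^ l := fun l => one_le_pow₀ (by norm_num)
  have main := hT _ _ (bnd α hα Ui i fun p hp => (mU p hp).2)
    (bnd β hβ Vj j fun p hp => (mVj p hp).2) (2 ^ i) (2 ^ j) (one i) (one j)
  rw [key] at main
  have fac : ∑ x ∈ Ui, ∑ y ∈ Vj, α x * (S.N x : ℝ) ^ (-(1 + σ)) * (2 ^ i / 2) *
      (β y * (S.N y : ℝ) ^ (-(1 + σ)) * (2 ^ j / 2)) * T x y =
      ((2 ^ i * 2 ^ j) / 4) * ∑ x ∈ Ui, ∑ y ∈ Vj, α x * β y *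
        ((S.N x : ℝ) * S.N y) ^ (-(1 + σ)) * T x y := by
    rw [Finset.mul_sum]
    refine Finset.sum_congr rfl fun x _ => ?_
    rw [Finset.mul_sum]
    refine Finset.sum_congr rfl fun y _ => ?_
    have g1 : (0 : ℝ) ≤ S.N x := Nat.cast_nonneg _
    have g2 : (0 : ℝ) ≤ S.N y := Nat.cast_nonneg _
    rw [Real.mul_rpow g1 g2]
    ring
  rw [fac, abs_mul] at main
  have q0 : (0 : ℝ) < 2 ^ i * 2 ^ j := by positivity
  rw [abs_of_pos (by positivity : (0 : ℝ) < 2 ^ i * 2 ^ j / 4)] at main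
  obtain ⟨G, hG⟩ : ∃ G, G = |∑ x ∈ Ui, ∑ y ∈ Vj, α x * β y *
        ((S.N x : ℝ) * S.N y) ^ (-(1 + σ)) * T x y| := ⟨_, rfl⟩
  rw [← hG] at main ⊢
  have hY : Real.exp c ≤ (2 : ℝ) ^ j := by
    rw [← (mVj y0 hy0).2]
    exact (hV y0 (mVj y0 hy0).1).le.trans (b3w_le y0)
  have sz := b3w_size A η a b c hA hη i ((2 : ℝ) ^ j) x0 (mU x0 hx0).2
    (hU x0 (mU x0 hx0).1).1 (hU x0 (mU x0 hx0).1).2 hY
  obtain ⟨E, hE⟩ : ∃ E, E = ((2 : ℝ) ^ i) ^ (-(1 / 2) : ℝ) +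
    ((2 : ℝ) ^ i) ^ A * ((2 : ℝ) ^ j) ^ (-η) := ⟨_, rfl⟩
  rw [← hE] at main sz
  have hE0 : 0 ≤ E := by
    rw [hE]
    positivity
  have m2 : C * (2 ^ i * 2 ^ j) * E ≤ |C| * (2 ^ i * 2 ^ j) * E := by
    refine mul_le_mul_of_nonneg_right (mul_le_mul_of_nonneg_right (le_abs_self C) q0.le) hE0
  have m3 : G ≤ 4 * |C| * E := by
    have m4 : (2 ^ i * 2 ^ j) * G ≤ (2 ^ i * 2 ^ j) * (4 * |C| * E) := by
      linarith
    exact le_of_mul_le_mul_left m4 q0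
  have m5 : 4 * |C| * E ≤ 8 * |C| * E := by
    refine mul_le_mul_of_nonneg_right ?_ hE0
    linarith [abs_nonneg C]
  exact (m3.trans m5).trans (mul_le_mul_of_nonneg_left sz (by positivity))

/-- the numbers -/
theorem b3w_num (C A η : ℝ) (hη : 0 < η) : ∃ t0 : ℝ, 1 ≤ t0 ∧ ∀ t : ℝ, t0 ≤ t →
    (4 * t ^ 1000) ^ 3 * (8 * |C| * (Real.exp (-(t / 2)) +
      (2 * Real.exp (t ^ 10)) ^ A * Real.exp (-(η * t ^ 100)))) ≤ Real.exp (-t / 4) := by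
  obtain ⟨D, hD⟩ : ∃ D : ℝ, D = 512 * |C| * (1 + 2 ^ A) + 1 := ⟨_, rfl⟩
  have h2A : (0 : ℝ) ≤ 2 ^ A := Real.rpow_nonneg (by norm_num) _
  have hD0 : 0 < D := by
    rw [hD]
    positivity
  have h1 := (isLittleO_pow_exp_pos_mul_atTop (k := 3000) (by norm_num : (0 : ℝ) < 1 / 4)).bound
    (by positivity : (0 : ℝ) < 1 / D)
  obtain ⟨x0, hx0⟩ := Filter.eventually_atTop.1 h1
  refine ⟨max (max 1 x0) ((A + 1) / η), (le_max_left 1 x0).trans (le_max_left _ _),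
    fun t ht => ?_⟩
  have t1 : 1 ≤ t := ((le_max_left 1 x0).trans (le_max_left _ _)).trans ht
  have t2 : x0 ≤ t := ((le_max_right 1 x0).trans (le_max_left _ _)).trans ht
  have t3' : (A + 1) / η ≤ t := (le_max_right _ _).trans ht
  have t4 : A + 1 ≤ η * t := by
    rw [div_le_iff₀ hη] at t3'
    linarith
  have h2 := hx0 t t2
  rw [Real.norm_eq_abs, Real.norm_eq_abs, abs_of_pos (Real.exp_pos _),
    abs_of_nonneg (by positivity : (0 : ℝ) ≤ t ^ 3000)] at h2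
  have h3 : D * t ^ 3000 ≤ Real.exp (1 / 4 * t) := by
    have : D * t ^ 3000 ≤ D * (1 / D * Real.exp (1 / 4 * t)) :=
      mul_le_mul_of_nonneg_left h2 hD0.le
    refine this.trans (le_of_eq ?_)
    field_simp
  -- the second exponential
  have h4 : (2 * Real.exp (t ^ 10)) ^ A * Real.exp (-(η * t ^ 100)) ≤
      2 ^ A * Real.exp (-(t / 2)) := by
    rw [Real.mul_rpow (by norm_num) (Real.exp_pos _).le, ← Real.exp_mul, mul_assoc,
      ← Real.exp_add]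
    refine mul_le_mul_of_nonneg_left (Real.exp_le_exp.2 ?_) h2A
    have p1 : t ≤ t ^ 10 := le_self_pow₀ t1 (by norm_num)
    have p2 : t * t ^ 10 ≤ t ^ 100 := by
      rw [← pow_succ']
      exact pow_le_pow_right₀ t1 (by norm_num)
    have p3 : (A + 1) * t ^ 10 ≤ η * t ^ 100 := by
      calc (A + 1) * t ^ 10 ≤ η * t * t ^ 10 := mul_le_mul_of_nonneg_right t4 (by positivity)
        _ = η * (t * t ^ 10) := by ring
        _ ≤ η * t ^ 100 := mul_le_mul_of_nonneg_left p2 hη.le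
    linarith
  have h5 : Real.exp (-(t / 2)) + (2 * Real.exp (t ^ 10)) ^ A * Real.exp (-(η * t ^ 100)) ≤
      (1 + 2 ^ A) * Real.exp (-(t / 2)) := by
    linarith
  have h6 : (4 * t ^ 1000) ^ 3 = 64 * t ^ 3000 := by
    rw [mul_pow, ← pow_mul]
    norm_num
  rw [h6]
  calc 64 * t ^ 3000 * (8 * |C| * (Real.exp (-(t / 2)) +
      (2 * Real.exp (t ^ 10)) ^ A * Real.exp (-(η * t ^ 100))))
      ≤ 64 * t ^ 3000 * (8 * |C| * ((1 + 2 ^ A) * Real.exp (-(t / 2)))) :=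
        mul_le_mul_of_nonneg_left (mul_le_mul_of_nonneg_left h5 (by positivity)) (by positivity)
    _ = ((D - 1) * t ^ 3000) * Real.exp (-(t / 2)) := by
        rw [hD]
        ring
    _ ≤ (D * t ^ 3000) * Real.exp (-(t / 2)) := by
        refine mul_le_mul_of_nonneg_right ?_ (Real.exp_pos _).le
        refine mul_le_mul_of_nonneg_right (by linarith) (by positivity)
    _ ≤ Real.exp (1 / 4 * t) * Real.exp (-(t / 2)) :=
        mul_le_mul_of_nonneg_right h3 (Real.exp_pos _).le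
    _ = Real.exp (-t / 4) := by
        rw [← Real.exp_add]
        congr 1
        ring

/-- the levels of the primes of a window -/
theorem b3w_lev (b : ℝ) (hb : 1 ≤ b) : ∃ K : ℕ, (K : ℝ) ≤ 4 * b ∧
    ∀ p : S.P, (S.N p : ℝ) ≤ Real.exp b → Nat.clog 2 (S.N p) ∈ Finset.range K := by
  refine ⟨⌊1 + 2 * b⌋₊ + 1, ?_, fun p hp => ?_⟩
  · have := Nat.floor_le (by linarith : (0 : ℝ) ≤ 1 + 2 * b)
    push_cast
    linarith
  · rw [Finset.mem_range, Nat.lt_succ_iff]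
    refine Nat.le_floor ?_
    have h1 := b3w_ge p
    have h2 : (2 : ℝ) ^ Nat.clog 2 (S.N p) ≤ 2 * Real.exp b := by linarith
    have h3 := Real.log_le_log (by positivity) h2
    rw [Real.log_pow, Real.log_mul (by norm_num) (Real.exp_pos _).ne', Real.log_exp] at h3
    have h4 : (1 : ℝ) / 2 < Real.log 2 := by
      have := Real.log_two_gt_d9
      linarith
    have h5 : (0 : ℝ) ≤ (Nat.clog 2 (S.N p) : ℝ) := Nat.cast_nonneg _
    by_contra hc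
    push Not at hc
    nlinarith

/-- the powers of `σ` -/
theorem b3w_pow (σ : ℝ) (hσ : 0 < σ) (t : ℝ) (ht : t = σ ^ (-(1 / 100000) : ℝ)) :
    σ ^ (-(1 / 10000) : ℝ) = t ^ 10 ∧ σ ^ (-(1 / 1000) : ℝ) = t ^ 100 ∧
      σ ^ (-(1 / 100) : ℝ) = t ^ 1000 := by
  rw [ht]
  refine ⟨?_, ?_, ?_⟩
  · rw [← Real.rpow_natCast, ← Real.rpow_mul hσ.le]
    norm_num
  · rw [← Real.rpow_natCast, ← Real.rpow_mul hσ.le]
    norm_num
  · rw [← Real.rpow_natCast, ← Real.rpow_mul hσ.le]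
    norm_num

theorem b3w_sig (t0 : ℝ) (h0 : 1 ≤ t0) : ∃ σ0 : ℝ, 0 < σ0 ∧ σ0 ≤ 1 ∧ ∀ σ : ℝ, 0 < σ → σ ≤ σ0 →
    t0 ≤ σ ^ (-(1 / 100000) : ℝ) := by
  have h1 : 0 < t0 := by linarith
  refine ⟨t0 ^ (-100000 : ℝ), Real.rpow_pos_of_pos h1 _,
    Real.rpow_le_one_of_one_le_of_nonpos h0 (by norm_num), fun σ hσ hσ0 => ?_⟩
  have h2 := Real.rpow_le_rpow_of_nonpos hσ hσ0 (by norm_num : (-(1 / 100000) : ℝ) ≤ 0)
  rw [← Real.rpow_mul h1.le] at h2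
  have h3 : (-100000 : ℝ) * -(1 / 100000) = 1 := by norm_num
  rw [h3, Real.rpow_one] at h2
  exact h2

theorem b3w_win {a b σ : ℝ} {p : S.P} (h : p ∈ win S a b σ) :
    Real.exp (σ ^ (-a)) < S.N p ∧ (S.N p : ℝ) ≤ Real.exp (σ ^ (-b)) := by
  unfold win at h
  rw [Finset.mem_filter, S.mem_pr (Real.exp_pos _).le] at h
  exact ⟨h.2.2, h.1⟩

end

theorem s3W : S3W := by
  classical
  intro S c R hTR
  obtain ⟨C, A, η, hA, hη, hT⟩ := hTR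
  obtain ⟨t0, ht0, hnum⟩ := b3w_num C A η hη
  obtain ⟨σ0, hσ0, hσ1, hsig⟩ := b3w_sig t0 ht0
  refine ⟨σ0, hσ0, hσ1, fun σ hσ hσσ w α β γ hα hβ hγ => ?_⟩
  obtain ⟨t, ht⟩ : ∃ t, t = σ ^ (-(1 / 100000) : ℝ) := ⟨_, rfl⟩
  have htt : t0 ≤ t := by
    rw [ht]
    exact hsig σ hσ hσσ
  have t1 : 1 ≤ t := ht0.trans htt
  obtain ⟨q1, q2, q3⟩ := b3w_pow σ hσ t ht
  have hW1 : ∀ p ∈ W1 S σ, Real.exp t < S.N p ∧ (S.N p : ℝ) ≤ Real.exp (t ^ 10) := by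
    intro p hp
    have h := b3w_win hp
    rw [q1, ← ht] at h
    exact h
  have hW2 : ∀ p ∈ W2 S σ, Real.exp (t ^ 100) < S.N p ∧ (S.N p : ℝ) ≤ Real.exp (t ^ 1000) := by
    intro p hp
    have h := b3w_win hp
    rw [q2, q3] at h
    exact h
  obtain ⟨K, hK, hlev⟩ := b3w_lev (S := S) (t ^ 1000) (one_le_pow₀ t1)
  have l1 : ∀ p ∈ W1 S σ, Nat.clog 2 (S.N p) ∈ Finset.range K := fun p hp => hlev p
    ((hW1 p hp).2.trans (Real.exp_le_exp.2 (pow_le_pow_right₀ t1 (by norm_num))))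
  have l2 : ∀ p ∈ W2 S σ, Nat.clog 2 (S.N p) ∈ Finset.range K := fun p hp => hlev p (hW2 p hp).2
  have hbox := fun i j k => b3w_box3 (t3 c R w) C A η hA hη
    (fun α β γ hα hβ hγ X Y Z hX hY hZ => hT w α β γ hα hβ hγ X Y Z hX hY hZ) σ hσ
    (W1 S σ) (W2 S σ) t (t ^ 10) (t ^ 100) hW1 (fun p hp => (hW2 p hp).1) α β γ hα hβ hγ i j k
  have hdec : WS3 c R w α β γ σ = ∑ i ∈ Finset.range K, ∑ j ∈ Finset.range K,
      ∑ k ∈ Finset.range K,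
      ∑ x ∈ (W1 S σ).filter (fun p => Nat.clog 2 (S.N p) = i),
      ∑ y ∈ (W2 S σ).filter (fun p => Nat.clog 2 (S.N p) = j),
      ∑ z ∈ (W2 S σ).filter (fun p => Nat.clog 2 (S.N p) = k), α x * β y * γ z *
        ((S.N x : ℝ) * S.N y * S.N z) ^ (-(1 + σ)) * t3 c R w x y z := by
    unfold WS3
    exact b3w_dec3 (W1 S σ) (W2 S σ) (fun p => Nat.clog 2 (S.N p)) K l1 l2
      (fun x y z => α x * β y * γ z *
        ((S.N x : ℝ) * S.N y * S.N z) ^ (-(1 + σ)) * t3 c R w x y z)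
  rw [hdec]
  obtain ⟨E, hE⟩ : ∃ E, E = 8 * |C| * (Real.exp (-(t / 2)) +
    (2 * Real.exp (t ^ 10)) ^ A * Real.exp (-(η * t ^ 100))) := ⟨_, rfl⟩
  have hE0 : 0 ≤ E := by
    rw [hE]
    have : (0 : ℝ) ≤ (2 * Real.exp (t ^ 10)) ^ A := Real.rpow_nonneg (by positivity) _
    positivity
  have hfin := hnum t htt
  rw [← hE] at hfin
  rw [← hE] at hbox
  have hK0 : (0 : ℝ) ≤ K := Nat.cast_nonneg _
  calc |∑ i ∈ Finset.range K, ∑ j ∈ Finset.range K, ∑ k ∈ Finset.range K,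
      ∑ x ∈ (W1 S σ).filter (fun p => Nat.clog 2 (S.N p) = i),
      ∑ y ∈ (W2 S σ).filter (fun p => Nat.clog 2 (S.N p) = j),
      ∑ z ∈ (W2 S σ).filter (fun p => Nat.clog 2 (S.N p) = k), α x * β y * γ z *
        ((S.N x : ℝ) * S.N y * S.N z) ^ (-(1 + σ)) * t3 c R w x y z|
      ≤ ∑ i ∈ Finset.range K, ∑ j ∈ Finset.range K, ∑ k ∈ Finset.range K, E := by
        refine (Finset.abs_sum_le_sum_abs _ _).trans (Finset.sum_le_sum fun i _ => ?_)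
        refine (Finset.abs_sum_le_sum_abs _ _).trans (Finset.sum_le_sum fun j _ => ?_)
        refine (Finset.abs_sum_le_sum_abs _ _).trans (Finset.sum_le_sum fun k _ => ?_)
        exact hbox i j k
    _ = (K : ℝ) ^ 3 * E := by
        simp only [Finset.sum_const, Finset.card_range, nsmul_eq_mul]
        ring
    _ ≤ (4 * t ^ 1000) ^ 3 * E :=
        mul_le_mul_of_nonneg_right (pow_le_pow_left₀ hK0 hK 3) hE0
    _ ≤ Real.exp (-t / 4) := hfin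
    _ = Real.exp (-(σ ^ (-(1 / 100000) : ℝ)) / 4) := by rw [ht]

theorem s2W : S2W := by
  classical
  intro S c R u v hBQ
  obtain ⟨C, A, η, hA, hη, hT⟩ := hBQ
  obtain ⟨t0, ht0, hnum⟩ := b3w_num C A η hη
  obtain ⟨σ0, hσ0, hσ1, hsig⟩ := b3w_sig t0 ht0
  refine ⟨σ0, hσ0, hσ1, fun σ hσ hσσ w α β hα hβ hw => ?_⟩
  obtain ⟨t, ht⟩ : ∃ t, t = σ ^ (-(1 / 100000) : ℝ) := ⟨_, rfl⟩
  have htt : t0 ≤ t := by
    rw [ht]
    exact hsig σ hσ hσσ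
  have t1 : 1 ≤ t := ht0.trans htt
  obtain ⟨q1, q2, q3⟩ := b3w_pow σ hσ t ht
  have hW1 : ∀ p ∈ W1 S σ, Real.exp t < S.N p ∧ (S.N p : ℝ) ≤ Real.exp (t ^ 10) := by
    intro p hp
    have h := b3w_win hp
    rw [q1, ← ht] at h
    exact h
  have hW2 : ∀ p ∈ W2 S σ, Real.exp (t ^ 100) < S.N p ∧ (S.N p : ℝ) ≤ Real.exp (t ^ 1000) := by
    intro p hp
    have h := b3w_win hp
    rw [q2, q3] at h
    exact h
  obtain ⟨K, hK, hlev⟩ := b3w_lev (S := S) (t ^ 1000) (one_le_pow₀ t1)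
  have l1 : ∀ p ∈ W1 S σ, Nat.clog 2 (S.N p) ∈ Finset.range K := fun p hp => hlev p
    ((hW1 p hp).2.trans (Real.exp_le_exp.2 (pow_le_pow_right₀ t1 (by norm_num))))
  have l2 : ∀ p ∈ W2 S σ, Nat.clog 2 (S.N p) ∈ Finset.range K := fun p hp => hlev p (hW2 p hp).2
  have hbox := fun i j => b3w_box2 (t2 c R u v w) C A η hA hη
    (fun α β hα hβ X Y hX hY => hT w α β hα hβ hw X Y hX hY) σ hσ
    (W1 S σ) (W2 S σ) t (t ^ 10) (t ^ 100) hW1 (fun p hp => (hW2 p hp).1) α β hα hβ i j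
  have hdec : WS2 c R u v w α β σ = ∑ i ∈ Finset.range K, ∑ j ∈ Finset.range K,
      ∑ x ∈ (W1 S σ).filter (fun p => Nat.clog 2 (S.N p) = i),
      ∑ y ∈ (W2 S σ).filter (fun p => Nat.clog 2 (S.N p) = j), α x * β y *
        ((S.N x : ℝ) * S.N y) ^ (-(1 + σ)) * t2 c R u v w x y := by
    unfold WS2
    exact b3w_dec2 (W1 S σ) (W2 S σ) (fun p => Nat.clog 2 (S.N p)) K l1 l2
      (fun x y => α x * β y *
        ((S.N x : ℝ) * S.N y) ^ (-(1 + σ)) * t2 c R u v w x y)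
  rw [hdec]
  obtain ⟨E, hE⟩ : ∃ E, E = 8 * |C| * (Real.exp (-(t / 2)) +
    (2 * Real.exp (t ^ 10)) ^ A * Real.exp (-(η * t ^ 100))) := ⟨_, rfl⟩
  have hE0 : 0 ≤ E := by
    rw [hE]
    have : (0 : ℝ) ≤ (2 * Real.exp (t ^ 10)) ^ A := Real.rpow_nonneg (by positivity) _
    positivity
  have hfin := hnum t htt
  rw [← hE] at hfin
  rw [← hE] at hbox
  have hK0 : (0 : ℝ) ≤ K := Nat.cast_nonneg _
  have hone : (1 : ℝ) ≤ 4 * t ^ 1000 := by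
    have : (1 : ℝ) ≤ t ^ 1000 := one_le_pow₀ t1
    linarith
  calc |∑ i ∈ Finset.range K, ∑ j ∈ Finset.range K,
      ∑ x ∈ (W1 S σ).filter (fun p => Nat.clog 2 (S.N p) = i),
      ∑ y ∈ (W2 S σ).filter (fun p => Nat.clog 2 (S.N p) = j), α x * β y *
        ((S.N x : ℝ) * S.N y) ^ (-(1 + σ)) * t2 c R u v w x y|
      ≤ ∑ i ∈ Finset.range K, ∑ j ∈ Finset.range K, E := by
        refine (Finset.abs_sum_le_sum_abs _ _).trans (Finset.sum_le_sum fun i _ => ?_)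
        refine (Finset.abs_sum_le_sum_abs _ _).trans (Finset.sum_le_sum fun j _ => ?_)
        exact hbox i j
    _ = (K : ℝ) ^ 2 * E := by
        simp only [Finset.sum_const, Finset.card_range, nsmul_eq_mul]
        ring
    _ ≤ (4 * t ^ 1000) ^ 2 * E :=
        mul_le_mul_of_nonneg_right (pow_le_pow_left₀ hK0 hK 2) hE0
    _ ≤ (4 * t ^ 1000) ^ 3 * E :=
        mul_le_mul_of_nonneg_right (pow_le_pow_right₀ hone (by norm_num)) hE0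
    _ ≤ Real.exp (-t / 4) := hfin
    _ = Real.exp (-(σ ^ (-(1 / 100000) : ℝ)) / 4) := by rw [ht]

end Pool.Agent.D8
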