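import Pool.Agent.D8.BFb

/-!
# Malle's conjecture for the dihedral group of order 16 over number fields, row W4: extraction of
three primes
-/

set_option autoImplicit false

open scoped BigOperators Topology
open Filter

namespace Pool.Agent.D8

open Pool.Agent.H98.MK (sg)
open Pool.Agent.H98.MF
open Pool.Agent.H32.MQ (El pw)

/-! ### toggling a prime -/

section Toggle

variable {P ι : Type} [DecidableEq P] [DecidableEq ι]

/-- toggle a prime in a class -/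
def b3t (u : ι) (p : P) (x : ι → Finset P) : ι → Finset P :=
  Function.update x u (symmDiff (x u) {p})

theorem b3t_invol (u : ι) (p : P) : Function.Involutive (b3t (P := P) u p) := by
  intro x
  unfold b3t
  rw [Function.update_self, symmDiff_symmDiff_cancel_right, Function.update_idem,
    Function.update_eq_self]

theorem b3t_same (u : ι) (p : P) (x : ι → Finset P) : b3t u p x u = symmDiff (x u) {p} :=
  Function.update_self _ _ _

theorem b3t_ne {u v : ι} (h : v ≠ u) (p : P) (x : ι → Finset P) : b3t u p x v = x v :=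
  Function.update_of_ne h _ _

theorem b3_mem (s : Finset P) (p : P) : p ∈ symmDiff s {p} ↔ p ∉ s := by
  rw [Finset.mem_symmDiff]
  simp

theorem b3_ins {s : Finset P} {p : P} (h : p ∉ s) : symmDiff s {p} = insert p s := by
  ext q
  rw [Finset.mem_symmDiff, Finset.mem_insert, Finset.mem_singleton]
  constructor
  · rintro (⟨h1, -⟩ | ⟨h1, -⟩)
    · exact Or.inr h1
    · exact Or.inl h1
  · rintro (rfl | h1)
    · exact Or.inr ⟨rfl, h⟩
    · exact Or.inl ⟨h1, fun h2 => h (h2 ▸ h1)⟩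

theorem b3_tsum (F : (ι → Finset P) → ℝ) (u v t : ι) (p q r : P) :
    ∑' x, F x = ∑' w, F (b3t u p (b3t v q (b3t t r w))) :=
  ((((b3t_invol t r).toPerm _).trans ((b3t_invol v q).toPerm _)).trans
    ((b3t_invol u p).toPerm _)).tsum_eq F |>.symm

theorem b3_summable {F : (ι → Finset P) → ℝ} (u v t : ι) (p q r : P) (h : Summable F) :
    Summable fun w => F (b3t u p (b3t v q (b3t t r w))) :=
  ((((b3t_invol t r).toPerm _).trans ((b3t_invol v q).toPerm _)).trans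
    ((b3t_invol u p).toPerm _)).summable_iff.2 h

end Toggle

section

variable {S : Sys}

/-- the mass without conditions -/
noncomputable def b3m (τ : S.P → ℝ) (s : ℝ) (w : V → Finset S.P) : ℝ :=
  ∏ u, ∏ p ∈ w u, (2 * τ p * (S.N p : ℝ) ^ (-s))

theorem b3m_nonneg {τ : S.P → ℝ} (hτ : ∀ p, 0 ≤ τ p) (s : ℝ) (w : V → Finset S.P) :
    0 ≤ b3m τ s w :=
  Finset.prod_nonneg fun _ _ => Finset.prod_nonneg fun p _ =>
    mul_nonneg (mul_nonneg zero_le_two (hτ p)) (Real.rpow_nonneg (Nat.cast_nonneg _) _)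

theorem b3_sum (h : ST1) (S : Sys) (B : ℝ) : ∃ C : ℝ, 0 ≤ C ∧ ∀ τ : S.P → ℝ, Tk S B τ →
    ∀ σ : ℝ, 0 < σ → σ ≤ 1 → Summable (b3m τ (1 + σ)) ∧
      ∑' w, b3m τ (1 + σ) w ≤ C * σ ^ (-(8 : ℝ)) := by
  obtain ⟨C, hC, hh⟩ := h S B 2 0 zero_le_two le_rfl
  refine ⟨C ^ 4, by positivity, fun τ hτ σ h0 h1 => ?_⟩
  obtain ⟨k1, k2, -⟩ := hh τ hτ σ h0 h1
  have e1 : ∀ x : Finset S.P, (∏ p ∈ x, 2 * τ p) * ls S x ^ 0 * pw (1 + σ) x =
      ∏ p ∈ x, (2 * τ p * (S.N p : ℝ) ^ (-(1 + σ))) := fun x => by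
    rw [pow_zero, mul_one, bfb_pw_eq, ← Finset.prod_mul_distrib]
  simp only [e1] at k1 k2
  have k0 : ∀ x : Finset S.P, 0 ≤ ∏ p ∈ x, (2 * τ p * (S.N p : ℝ) ^ (-(1 + σ))) := fun x =>
    Finset.prod_nonneg fun p _ =>
      mul_nonneg (mul_nonneg zero_le_two (hτ p).1) (Real.rpow_nonneg (Nat.cast_nonneg _) _)
  obtain ⟨k3, k4⟩ := prod_pi (ι := V)
    (fun _ x => ∏ p ∈ x, (2 * τ p * (S.N p : ℝ) ^ (-(1 + σ)))) (fun _ x => k0 x)
    (fun _ => k1)
  refine ⟨k3, ?_⟩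
  have k5 : ∑' w, b3m τ (1 + σ) w =
      ∏ _u : V, ∑' x : Finset S.P, ∏ p ∈ x, (2 * τ p * (S.N p : ℝ) ^ (-(1 + σ))) := k4
  rw [k5, Finset.prod_const]
  have k6 : (Finset.univ : Finset V).card = 4 := rfl
  rw [k6]
  calc (∑' x : Finset S.P, ∏ p ∈ x, (2 * τ p * (S.N p : ℝ) ^ (-(1 + σ)))) ^ 4
      ≤ (C * σ ^ (-(2 : ℝ))) ^ 4 := by
        exact pow_le_pow_left₀ (tsum_nonneg k0) k2 4
    _ = C ^ 4 * σ ^ (-(8 : ℝ)) := by
        rw [mul_pow, ← Real.rpow_natCast (σ ^ (-(2 : ℝ))) 4, ← Real.rpow_mul h0.le]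
        norm_num

theorem b3m_ins {τ : S.P → ℝ} (s : ℝ) {w : V → Finset S.P} {u : V} {p : S.P} (h : p ∉ w u) :
    b3m τ s (ins u p w) = 2 * τ p * (S.N p : ℝ) ^ (-s) * b3m τ s w := by
  unfold b3m
  rw [← Finset.mul_prod_erase Finset.univ _ (Finset.mem_univ u),
    ← Finset.mul_prod_erase Finset.univ (fun u => ∏ p ∈ w u, (2 * τ p * (S.N p : ℝ) ^ (-s)))
      (Finset.mem_univ u)]
  have h1 : ins u p w u = insert p (w u) := Function.update_self _ _ _
  rw [h1, Finset.prod_insert h, mul_assoc]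
  congr 2
  refine Finset.prod_congr rfl fun v hv => ?_
  have h2 : ins u p w v = w v := Function.update_of_ne (Finset.ne_of_mem_erase hv) _ _
  rw [h2]

theorem b3_f {τ : S.P → ℝ} (hτ : ∀ p, 0 ≤ τ p) (c : Co S) (s : ℝ)
    {R : (V → Finset S.P) → ℝ} (hR : ∀ x, |R x| ≤ 1) (x : V → Finset S.P) :
    |ms τ ∅ c s x * R x| ≤ b3m τ s x := by
  have h0 := b3m_nonneg hτ s x
  rw [abs_mul]
  have h1 : |ms τ ∅ c s x| ≤ b3m τ s x := by
    unfold ms
    split_ifs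
    · exact (abs_of_nonneg h0).le
    · rw [abs_zero]
      exact h0
  calc |ms τ ∅ c s x| * |R x| ≤ b3m τ s x * 1 :=
        mul_le_mul h1 (hR x) (abs_nonneg _) h0
    _ = b3m τ s x := mul_one _

/-- the number of triples of primes in the windows -/
noncomputable def b3n (σ : ℝ) (x : V → Finset S.P) : ℕ :=
  (x (0, 0) ∩ W1 S σ).card * (x (1, 0) ∩ W2 S σ).card * (x (0, 1) ∩ W2 S σ).card

/-- the number of triples of primes after the extraction -/
noncomputable def b3k (σ : ℝ) (x : V → Finset S.P) : ℕ :=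
  ((x (0, 0) ∩ W1 S σ).card + 1) * ((x (1, 0) ∩ W2 S σ).card + 1) *
    ((x (0, 1) ∩ W2 S σ).card + 1)

theorem b3_div (y : ℝ) (n : ℕ) : |y / n| ≤ |y| := by
  rw [abs_div, Nat.abs_cast]
  rcases Nat.eq_zero_or_pos n with rfl | hn
  · simp
  · exact div_le_self (abs_nonneg y) (by exact_mod_cast hn)

theorem b3_prod {X Y : Type} (s : Finset X) (t : Finset Y) (f : X → ℝ) (g : Y → ℝ) :
    ∑ z ∈ s ×ˢ t, f z.1 * g z.2 = (∑ x ∈ s, f x) * ∑ y ∈ t, g y := by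
  rw [Finset.sum_product, Finset.sum_mul_sum]

open Classical in
theorem b3_id (σ : ℝ) (x : V → Finset S.P) (y : ℝ) :
    (if Full σ x then y else 0) = ∑ t ∈ W1 S σ ×ˢ (W2 S σ ×ˢ W2 S σ),
      (if t.1 ∈ x (0, 0) ∧ t.2.1 ∈ x (1, 0) ∧ t.2.2 ∈ x (0, 1) then y / b3n σ x else 0) := by
  have e1 : ∀ t : S.P × S.P × S.P,
      (if t.1 ∈ x (0, 0) ∧ t.2.1 ∈ x (1, 0) ∧ t.2.2 ∈ x (0, 1) then y / b3n σ x else 0) =
      (if t.1 ∈ x (0, 0) then 1 else 0) * ((if t.2.1 ∈ x (1, 0) then 1 else 0) *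
        (if t.2.2 ∈ x (0, 1) then 1 else 0)) * (y / b3n σ x) := fun t => by
    by_cases h1 : t.1 ∈ x (0, 0) <;> by_cases h2 : t.2.1 ∈ x (1, 0) <;>
      by_cases h3 : t.2.2 ∈ x (0, 1) <;> simp [h1, h2, h3]
  have e2 : ∀ (W s : Finset S.P), ∑ p ∈ W, (if p ∈ s then (1 : ℝ) else 0) = (s ∩ W).card :=
    fun W s => by
      rw [Finset.sum_boole, Finset.filter_mem_eq_inter, Finset.inter_comm]
  rw [Finset.sum_congr rfl fun t _ => e1 t, ← Finset.sum_mul,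
    b3_prod (W1 S σ) (W2 S σ ×ˢ W2 S σ) (fun p => if p ∈ x (0, 0) then (1 : ℝ) else 0)
      (fun t => (if t.1 ∈ x (1, 0) then (1 : ℝ) else 0) * (if t.2 ∈ x (0, 1) then 1 else 0)),
    b3_prod (W2 S σ) (W2 S σ) (fun p => if p ∈ x (1, 0) then (1 : ℝ) else 0)
      (fun p => if p ∈ x (0, 1) then (1 : ℝ) else 0), e2, e2, e2]
  by_cases hF : Full σ x
  · rw [if_pos hF]
    obtain ⟨⟨p, hp, hp'⟩, ⟨q, hq, hq'⟩, ⟨r, hr, hr'⟩⟩ := hF
    have c1 : (x (0, 0) ∩ W1 S σ).card ≠ 0 :=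
      Finset.card_ne_zero_of_mem (Finset.mem_inter.2 ⟨hp, hp'⟩)
    have c2 : (x (1, 0) ∩ W2 S σ).card ≠ 0 :=
      Finset.card_ne_zero_of_mem (Finset.mem_inter.2 ⟨hq, hq'⟩)
    have c3 : (x (0, 1) ∩ W2 S σ).card ≠ 0 :=
      Finset.card_ne_zero_of_mem (Finset.mem_inter.2 ⟨hr, hr'⟩)
    have c1' : ((x (0, 0) ∩ W1 S σ).card : ℝ) ≠ 0 := by exact_mod_cast c1
    have c2' : ((x (1, 0) ∩ W2 S σ).card : ℝ) ≠ 0 := by exact_mod_cast c2
    have c3' : ((x (0, 1) ∩ W2 S σ).card : ℝ) ≠ 0 := by exact_mod_cast c3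
    unfold b3n
    push_cast
    field_simp
  · rw [if_neg hF]
    have h0 : b3n σ x = 0 := by
      by_contra h
      unfold b3n at h
      have h1 : (x (0, 0) ∩ W1 S σ).card ≠ 0 := fun h' => h (by rw [h', zero_mul, zero_mul])
      have h2 : (x (1, 0) ∩ W2 S σ).card ≠ 0 := fun h' => h (by rw [h', mul_zero, zero_mul])
      have h3 : (x (0, 1) ∩ W2 S σ).card ≠ 0 := fun h' => h (by rw [h', mul_zero])
      obtain ⟨p, hp⟩ := Finset.card_pos.1 (Nat.pos_of_ne_zero h1)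
      obtain ⟨q, hq⟩ := Finset.card_pos.1 (Nat.pos_of_ne_zero h2)
      obtain ⟨r, hr⟩ := Finset.card_pos.1 (Nat.pos_of_ne_zero h3)
      rw [Finset.mem_inter] at hp hq hr
      exact hF ⟨⟨p, hp.1, hp.2⟩, ⟨q, hq.1, hq.2⟩, ⟨r, hr.1, hr.2⟩⟩
    rw [h0, Nat.cast_zero, div_zero, mul_zero]

theorem b3_W1 {σ : ℝ} {p : S.P} (h : p ∈ W1 S σ) : S.ty p = 0 :=
  (Finset.mem_filter.1 h).2.1

theorem b3_W2 {σ : ℝ} {p : S.P} (h : p ∈ W2 S σ) : S.ty p = 0 :=
  (Finset.mem_filter.1 h).2.1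

theorem b3_card {s W : Finset S.P} {p : S.P} (h : p ∉ s) (hW : p ∈ W) :
    (insert p s ∩ W).card = (s ∩ W).card + 1 := by
  rw [Finset.insert_inter_of_mem hW, Finset.card_insert_of_notMem]
  intro h1
  exact h (Finset.mem_inter.1 h1).1

open Classical in
theorem b3_key {τ : S.P → ℝ} (c : Co S) (s σ : ℝ) (R : (V → Finset S.P) → ℝ)
    {p q r : S.P} (hp : p ∈ W1 S σ) (hq : q ∈ W2 S σ) (hr : r ∈ W2 S σ)
    (w X : V → Finset S.P) (hX : X = b3t (0, 0) p (b3t (1, 0) q (b3t (0, 1) r w))) :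
    (if p ∈ X (0, 0) ∧ q ∈ X (1, 0) ∧ r ∈ X (0, 1) then ms τ ∅ c s X * R X / b3n σ X else 0) =
      8 * b3m τ s w / b3k σ w * (τ p * τ q * τ r * ((S.N p : ℝ) * S.N q * S.N r) ^ (-s) *
        t3 c R w p q r) := by
  have n1 : ((0, 0) : V) ≠ (1, 0) := by decide
  have n2 : ((0, 0) : V) ≠ (0, 1) := by decide
  have n3 : ((1, 0) : V) ≠ (0, 1) := by decide
  have x1 : X (0, 0) = symmDiff (w (0, 0)) {p} := by
    rw [hX, b3t_same, b3t_ne n1, b3t_ne n2]
  have x2 : X (1, 0) = symmDiff (w (1, 0)) {q} := by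
    rw [hX, b3t_ne n1.symm, b3t_same, b3t_ne n3]
  have x3 : X (0, 1) = symmDiff (w (0, 1)) {r} := by
    rw [hX, b3t_ne n2.symm, b3t_ne n3.symm, b3t_same]
  have x4 : ∀ u, u ≠ (0, 0) → u ≠ (1, 0) → u ≠ (0, 1) → X u = w u := fun u h1 h2 h3 => by
    rw [hX, b3t_ne h1, b3t_ne h2, b3t_ne h3]
  have hiff : (p ∈ X (0, 0) ∧ q ∈ X (1, 0) ∧ r ∈ X (0, 1)) ↔
      (p ∉ w (0, 0) ∧ q ∉ w (1, 0) ∧ r ∉ w (0, 1)) := by
    rw [x1, x2, x3, b3_mem, b3_mem, b3_mem]
  by_cases hc : p ∉ w (0, 0) ∧ q ∉ w (1, 0) ∧ r ∉ w (0, 1)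
  · rw [if_pos (hiff.2 hc)]
    obtain ⟨h1, h2, h3⟩ := hc
    have hX' : X = ins (0, 0) p (ins (1, 0) q (ins (0, 1) r w)) := by
      rw [hX]
      unfold b3t ins
      rw [b3_ins h3, Function.update_of_ne n3, b3_ins h2, Function.update_of_ne n1,
        Function.update_of_ne n2, b3_ins h1]
    have hn : b3n σ X = b3k σ w := by
      unfold b3n b3k
      rw [x1, x2, x3, b3_ins h1, b3_ins h2, b3_ins h3, b3_card h1 hp, b3_card h2 hq,
        b3_card h3 hr]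
    have hm : b3m τ s X = 8 * (τ p * τ q * τ r *
        ((S.N p : ℝ) * S.N q * S.N r) ^ (-s)) * b3m τ s w := by
      have i3 : ins (0, 1) r w (1, 0) = w (1, 0) := Function.update_of_ne n3 _ _
      have i2 : ins (1, 0) q (ins (0, 1) r w) (0, 0) = w (0, 0) := by
        unfold ins
        rw [Function.update_of_ne n1, Function.update_of_ne n2]
      rw [hX', b3m_ins s (by rw [i2]; exact h1), b3m_ins s (by rw [i3]; exact h2),
        b3m_ins s h3, Real.mul_rpow (by positivity) (by positivity),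
        Real.mul_rpow (by positivity) (by positivity)]
      ring
    rw [hn]
    by_cases hA : Adm ∅ c X
    · have hms : ms τ ∅ c s X = b3m τ s X := by
        unfold ms
        rw [if_pos hA]
        rfl
      have m1 : p ∈ X (0, 0) := by rw [x1, b3_mem]; exact h1
      have m2 : q ∈ X (1, 0) := by rw [x2, b3_mem]; exact h2
      have m3 : r ∈ X (0, 1) := by rw [x3, b3_mem]; exact h3
      have sub : ∀ u, w u ⊆ X u := fun u => by
        by_cases u1 : u = (0, 0)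
        · rw [u1, x1, b3_ins h1]; exact Finset.subset_insert _ _
        by_cases u2 : u = (1, 0)
        · rw [u2, x2, b3_ins h2]; exact Finset.subset_insert _ _
        by_cases u3 : u = (0, 1)
        · rw [u3, x3, b3_ins h3]; exact Finset.subset_insert _ _
        rw [x4 u u1 u2 u3]
      have dj : ∀ u v, u ≠ v → ∀ a, a ∈ X u → a ∈ X v → False := fun u v huv a ha hb =>
        Finset.disjoint_left.1 (hA.dj u v huv) ha hb
      have new : ∀ (u : V) (a : S.P), a ∈ X u → a ∉ w u → New a w := fun u a ha hb v hv => by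
        by_cases huv : u = v
        · exact hb (huv ▸ hv)
        · exact dj u v huv a ha (sub v hv)
      have ht : t3 c R w p q r = R X := by
        unfold t3
        rw [← hX', if_pos]
        exact ⟨b3_W1 hp, b3_W2 hq, b3_W2 hr, fun h => dj _ _ n1 p m1 (h ▸ m2),
          fun h => dj _ _ n2 p m1 (h ▸ m3), fun h => dj _ _ n3 q m2 (h ▸ m3),
          new _ p m1 h1, new _ q m2 h2, new _ r m3 h3, hA⟩
      rw [hms, hm, ht]
      ring
    · have hms : ms τ ∅ c s X = 0 := by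
        unfold ms
        rw [if_neg hA]
      have ht : t3 c R w p q r = 0 := by
        unfold t3
        rw [← hX', if_neg]
        exact fun h => hA h.2.2.2.2.2.2.2.2.2
      rw [hms, ht]
      ring
  · rw [if_neg fun h => hc (hiff.1 h)]
    have ht : t3 c R w p q r = 0 := by
      unfold t3
      rw [if_neg]
      intro h
      exact hc ⟨h.2.2.2.2.2.2.1 _, h.2.2.2.2.2.2.2.1 _, h.2.2.2.2.2.2.2.2.1 _⟩
    rw [ht]
    ring

theorem b3_tau {B : ℝ} {τ : S.P → ℝ} (hτ : Tk S B τ) (p : S.P) :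
    |τ p / (1 + |B|)| ≤ 1 := by
  have h0 : 0 ≤ |B| := abs_nonneg B
  have h1 := (hτ p).1
  have h2 := (abs_le.1 (hτ p).2).2
  have hN : (1 : ℝ) ≤ S.N p := by exact_mod_cast S.one_le_N p
  have h3 : (S.N p : ℝ) ^ (-(1 / 2) : ℝ) ≤ 1 := Real.rpow_le_one_of_one_le_of_nonpos hN
    (by norm_num)
  have h4 : 0 ≤ (S.N p : ℝ) ^ (-(1 / 2) : ℝ) := Real.rpow_nonneg (by linarith) _
  have h5 : B * (S.N p : ℝ) ^ (-(1 / 2) : ℝ) ≤ |B| := by
    calc B * (S.N p : ℝ) ^ (-(1 / 2) : ℝ) ≤ |B| * 1 :=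
          mul_le_mul (le_abs_self B) h3 h4 h0
      _ = |B| := mul_one _
  rw [abs_of_nonneg (div_nonneg h1 (by linarith)), div_le_one (by linarith)]
  linarith

end

open Classical in
theorem s3X (h : ST1) : S3X := by
  intro S B
  obtain ⟨C, hC, hh⟩ := b3_sum h S B
  refine ⟨8 * (1 + |B|) ^ 3 * C, by positivity, fun τ c R hτ hR σ h0 h1 b hb => ?_⟩
  obtain ⟨hs, hle⟩ := hh τ hτ σ h0 h1
  have hτ0 : ∀ p, 0 ≤ τ p := fun p => (hτ p).1
  have hB : 0 < 1 + |B| := by positivity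
  have hb0 : 0 ≤ b := by
    have := hb (fun _ => ∅) (fun _ => 0) (fun _ => 0) (fun _ => 0) (by simp) (by simp) (by simp)
    exact le_trans (abs_nonneg _) this
  obtain ⟨W, hW⟩ : ∃ W, W = W1 S σ ×ˢ (W2 S σ ×ˢ W2 S σ) := ⟨_, rfl⟩
  obtain ⟨H, hH⟩ : ∃ H : S.P × S.P × S.P → (V → Finset S.P) → ℝ, H = fun t x =>
      if t.1 ∈ x (0, 0) ∧ t.2.1 ∈ x (1, 0) ∧ t.2.2 ∈ x (0, 1)
        then ms τ ∅ c (1 + σ) x * R x / b3n σ x else 0 := ⟨_, rfl⟩
  have e1 : ∀ x : V → Finset S.P, (if Full σ x then ms τ ∅ c (1 + σ) x * R x else 0) =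
      ∑ t ∈ W, H t x := fun x => by
    rw [hW, hH]
    exact b3_id σ x _
  have hHs : ∀ t, Summable (H t) := fun t => by
    refine Summable.of_norm_bounded hs fun x => ?_
    rw [Real.norm_eq_abs, hH]
    show |ite _ _ _| ≤ _
    split_ifs
    · exact (b3_div _ _).trans (b3_f hτ0 c _ hR x)
    · rw [abs_zero]
      exact b3m_nonneg hτ0 _ _
  have e2 : ∑' x : V → Finset S.P, (if Full σ x then ms τ ∅ c (1 + σ) x * R x else 0) =
      ∑' w : V → Finset S.P, ∑ t ∈ W,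
        H t (b3t (0, 0) t.1 (b3t (1, 0) t.2.1 (b3t (0, 1) t.2.2 w))) := by
    rw [tsum_congr e1, Summable.tsum_finsetSum fun t _ => hHs t,
      Summable.tsum_finsetSum fun t _ => b3_summable _ _ _ _ _ _ (hHs t)]
    exact Finset.sum_congr rfl fun t _ => b3_tsum (H t) _ _ _ _ _ _
  have e3 : ∀ w : V → Finset S.P, ∑ t ∈ W,
      H t (b3t (0, 0) t.1 (b3t (1, 0) t.2.1 (b3t (0, 1) t.2.2 w))) =
      8 * b3m τ (1 + σ) w / b3k σ w * ((1 + |B|) ^ 3 *
        WS3 c R w (fun p => τ p / (1 + |B|)) (fun p => τ p / (1 + |B|))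
          (fun p => τ p / (1 + |B|)) σ) := fun w => by
    have e4 : ∀ t ∈ W, H t (b3t (0, 0) t.1 (b3t (1, 0) t.2.1 (b3t (0, 1) t.2.2 w))) =
        8 * b3m τ (1 + σ) w / b3k σ w * (τ t.1 * τ t.2.1 * τ t.2.2 *
          ((S.N t.1 : ℝ) * S.N t.2.1 * S.N t.2.2) ^ (-(1 + σ)) *
          t3 c R w t.1 t.2.1 t.2.2) := fun t ht => by
      rw [hW, Finset.mem_product, Finset.mem_product] at ht
      rw [hH]
      exact b3_key c (1 + σ) σ R ht.1 ht.2.1 ht.2.2 w _ rfl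
    rw [Finset.sum_congr rfl e4, ← Finset.mul_sum]
    congr 1
    unfold WS3
    rw [hW, Finset.sum_product, Finset.mul_sum]
    refine Finset.sum_congr rfl fun p _ => ?_
    rw [Finset.sum_product, Finset.mul_sum]
    refine Finset.sum_congr rfl fun q _ => ?_
    rw [Finset.mul_sum]
    refine Finset.sum_congr rfl fun r _ => ?_
    field_simp
  have e5 : ∀ w : V → Finset S.P, |∑ t ∈ W,
      H t (b3t (0, 0) t.1 (b3t (1, 0) t.2.1 (b3t (0, 1) t.2.2 w)))| ≤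
      8 * (1 + |B|) ^ 3 * b * b3m τ (1 + σ) w := fun w => by
    rw [e3, abs_mul, abs_mul]
    have g1 : |8 * b3m τ (1 + σ) w / b3k σ w| ≤ 8 * b3m τ (1 + σ) w := by
      have g2 := b3_div (8 * b3m τ (1 + σ) w) (b3k σ w)
      rwa [abs_of_nonneg (a := 8 * b3m τ (1 + σ) w)
        (mul_nonneg (by norm_num) (b3m_nonneg hτ0 _ _))] at g2
    have g3 := hb w (fun p => τ p / (1 + |B|)) (fun p => τ p / (1 + |B|))
      (fun p => τ p / (1 + |B|)) (b3_tau hτ) (b3_tau hτ) (b3_tau hτ)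
    have g4 : |(1 + |B|) ^ 3| = (1 + |B|) ^ 3 := abs_of_nonneg (by positivity)
    rw [g4]
    calc _ ≤ 8 * b3m τ (1 + σ) w * ((1 + |B|) ^ 3 * b) := by
          refine mul_le_mul g1 (mul_le_mul_of_nonneg_left g3 (by positivity)) (by positivity) ?_
          exact mul_nonneg (by norm_num) (b3m_nonneg hτ0 _ _)
      _ = _ := by ring
  rw [e2]
  have hs2 : Summable fun w => 8 * (1 + |B|) ^ 3 * b * b3m τ (1 + σ) w := hs.mul_left _
  have hs3 : Summable fun w : V → Finset S.P => |∑ t ∈ W,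
      H t (b3t (0, 0) t.1 (b3t (1, 0) t.2.1 (b3t (0, 1) t.2.2 w)))| :=
    Summable.of_nonneg_of_le (fun w => abs_nonneg _) e5 hs2
  calc _ ≤ ∑' w : V → Finset S.P, |∑ t ∈ W,
        H t (b3t (0, 0) t.1 (b3t (1, 0) t.2.1 (b3t (0, 1) t.2.2 w)))| := by
        have := norm_tsum_le_tsum_norm (f := fun w : V → Finset S.P => ∑ t ∈ W,
          H t (b3t (0, 0) t.1 (b3t (1, 0) t.2.1 (b3t (0, 1) t.2.2 w)))) hs3
        simpa only [Real.norm_eq_abs] using this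
    _ ≤ ∑' w, 8 * (1 + |B|) ^ 3 * b * b3m τ (1 + σ) w := hs3.tsum_le_tsum e5 hs2
    _ = 8 * (1 + |B|) ^ 3 * b * ∑' w, b3m τ (1 + σ) w := tsum_mul_left
    _ ≤ 8 * (1 + |B|) ^ 3 * b * (C * σ ^ (-(8 : ℝ))) :=
        mul_le_mul_of_nonneg_left hle (by positivity)
    _ = 8 * (1 + |B|) ^ 3 * C * σ ^ (-(8 : ℝ)) * b := by ring

end Pool.Agent.D8
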