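import Pool.Agent.D8.Stm

/-!
# Project D8, row B5: the expansion for two classes
-/

set_option autoImplicit false

open scoped BigOperators Topology
open Filter

namespace Pool.Agent.D8

open Pool.Agent.H98.MK (sg)
open Pool.Agent.H98.MF
open Pool.Agent.H32.MQ (El pw)

section B4

variable {S : Sys}

/-! ### characters -/

theorem b4_sum_symm {α : Type} [DecidableEq α] (y y' : Finset α) (f : α → ZMod 2) :
    ∑ q ∈ symmDiff y y', f q = ∑ q ∈ y, f q + ∑ q ∈ y', f q := by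
  have h : ∀ z : Finset α, z ⊆ y ∪ y' →
      ∑ q ∈ z, f q = ∑ q ∈ y ∪ y', if q ∈ z then f q else 0 := by
    intro z hz
    rw [← Finset.sum_filter]
    congr 1
    ext q
    simp only [Finset.mem_filter]
    exact ⟨fun hq => ⟨hz hq, hq⟩, fun hq => hq.2⟩
  rw [h _ (by
    intro q hq
    rw [Finset.mem_symmDiff] at hq
    rw [Finset.mem_union]
    tauto), h y Finset.subset_union_left, h y' Finset.subset_union_right,
    ← Finset.sum_add_distrib]
  refine Finset.sum_congr rfl fun q _ => ?_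
  have h2 : f q + f q = 0 := CharTwo.add_self_eq_zero _
  by_cases h3 : q ∈ y <;> by_cases h4 : q ∈ y' <;> simp [Finset.mem_symmDiff, h3, h4, h2]

theorem b4_ex_ad (c d : El S) (p : S.P) :
    S.ex (ad c d).2 (ad c d).1 p = S.ex c.2 c.1 p + S.ex d.2 d.1 p := by
  classical
  unfold ad Sys.ex
  have h : ∑ q ∈ symmDiff c.2 d.2, S.J q p = ∑ q ∈ c.2, S.J q p + ∑ q ∈ d.2, S.J q p := by
    convert b4_sum_symm c.2 d.2 (fun q => S.J q p)
  dsimp only
  rw [h, add_dotProduct]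
  ring

theorem b4_ex_zero (p : S.P) : S.ex ((0, ∅) : El S).2 ((0, ∅) : El S).1 p = 0 := by
  unfold Sys.ex
  simp

theorem b4_ex_sm (t : ZMod 2) (c : El S) (p : S.P) :
    S.ex (sm t c).2 (sm t c).1 p = t * S.ex c.2 c.1 p := by
  unfold sm
  rcases zm2 t with rfl | rfl
  · rw [if_pos rfl, b4_ex_zero, zero_mul]
  · rw [if_neg (by decide), one_mul]

theorem b4_ex_union {y y' : Finset S.P} (h : Disjoint y y') (c : S.T) (p : S.P) :
    S.ex (y ∪ y') c p = ∑ q ∈ y, S.J q p + S.ex y' c p := by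
  unfold Sys.ex
  rw [Finset.sum_union h, add_assoc]

/-! ### merged families -/

theorem b4_mem_mrg {P : Type} {y : V → Finset P} {k : ZMod 2} {p : P} :
    p ∈ mrg (Prod.fst : V → ZMod 2) y k ↔ ∃ t : V, t.1 = k ∧ p ∈ y t := by
  classical
  unfold mrg
  simp only [Finset.mem_biUnion, Finset.mem_filter, Finset.mem_univ, true_and]

theorem b4_sum_mrg {P : Type} {y : V → Finset P} (hy : DjP y) (k : ZMod 2) (g : P → ZMod 2) :
    ∑ q ∈ mrg (Prod.fst : V → ZMod 2) y k, g q =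
      ∑ t : V, if t.1 = k then ∑ q ∈ y t, g q else 0 := by
  classical
  unfold mrg
  rw [Finset.sum_biUnion (fun i _ j _ hij => hy i j hij), Finset.sum_filter]
  exact Finset.sum_congr rfl fun t _ => by by_cases h : t.1 = k <;> simp [h]

theorem b4_pat_mrg {P : Type} (y : V → Finset P) :
    (Φ4 (pat y)) = if (mrg (Prod.fst : V → ZMod 2) y 0).Nonempty ∧
      (mrg (Prod.fst : V → ZMod 2) y 1).Nonempty then 1 else 0 := by
  classical
  have h1 : ∀ k : ZMod 2, (mrg (Prod.fst : V → ZMod 2) y k).Nonempty ↔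
      ∃ t : V, t.1 = k ∧ (y t).Nonempty := by
    intro k
    constructor
    · rintro ⟨p, hp⟩
      obtain ⟨t, ht, hpt⟩ := b4_mem_mrg.mp hp
      exact ⟨t, ht, p, hpt⟩
    · rintro ⟨t, ht, p, hpt⟩
      exact ⟨p, b4_mem_mrg.mpr ⟨t, ht, hpt⟩⟩
  have h2 : (Finset.image Prod.fst (pat y) = Finset.univ) ↔
      ((mrg (Prod.fst : V → ZMod 2) y 0).Nonempty ∧
        (mrg (Prod.fst : V → ZMod 2) y 1).Nonempty) := by
    rw [h1, h1, Finset.eq_univ_iff_forall]
    constructor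
    · intro h
      have h3 : ∀ k : ZMod 2, ∃ t : V, t.1 = k ∧ (y t).Nonempty := by
        intro k
        obtain ⟨t, ht, ht2⟩ := Finset.mem_image.mp (h k)
        unfold pat at ht
        exact ⟨t, ht2, (Finset.mem_filter.mp ht).2⟩
      exact ⟨h3 0, h3 1⟩
    · intro h k
      have h3 : ∃ t : V, t.1 = k ∧ (y t).Nonempty := by
        rcases zm2 k with rfl | rfl
        · exact h.1
        · exact h.2
      obtain ⟨t, ht, ht2⟩ := h3
      refine Finset.mem_image.mpr ⟨t, ?_, ht⟩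
      unfold pat
      exact Finset.mem_filter.mpr ⟨Finset.mem_univ _, ht2⟩
  unfold Φ4
  by_cases h : (Finset.image Prod.fst (pat y) = Finset.univ)
  · rw [if_pos (by convert h), if_pos (h2.mp h)]
  · rw [if_neg (fun h' => h (by convert h')), if_neg (fun h' => h (h2.mpr h'))]

theorem b4_KE {D : Vd S V} {x : V → Finset S.P} (hx : DjP x) :
    KE φ4 D x = ∑ t : V, ∑ p ∈ x t, (t.2 *
      ∑ q ∈ mrg (Prod.fst : V → ZMod 2) x (t.1 + 1), S.J q p + S.ex (D.c t).2 (D.c t).1 p) := by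
  classical
  unfold KE
  rw [← Finset.sum_add_distrib]
  refine Finset.sum_congr rfl fun u _ => ?_
  rw [Finset.sum_add_distrib]
  congr 1
  have h1 : ∀ a b : ZMod 2, a + b = if b = a + 1 then 1 else 0 := by decide
  have h2 : ∀ v : V, φ4 u v * S.JJ (x u) (x v) =
      ∑ p ∈ x u, u.2 * (if v.1 = u.1 + 1 then ∑ q ∈ x v, S.J q p else 0) := by
    intro v
    unfold φ4 Sys.JJ
    rw [h1]
    by_cases h : v.1 = u.1 + 1
    · simp only [if_pos h, mul_one]
      rw [Finset.mul_sum]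
    · simp only [if_neg h, mul_zero, zero_mul, Finset.sum_const_zero]
  rw [Finset.sum_congr rfl fun v _ => h2 v, Finset.sum_comm]
  refine Finset.sum_congr rfl fun p _ => ?_
  rw [b4_sum_mrg hx, Finset.mul_sum]

/-- the factor of a type -/
noncomputable def b4W (τ : S.P → ℝ) (s : ℝ) (D : Vd S V) (t : V) (y : ZMod 2 → Finset S.P)
    (p : S.P) : ℝ :=
  ((sg (t.2 * ∑ q ∈ y (t.1 + 1), S.J q p + S.ex (D.c t).2 (D.c t).1 p) : ℤ) : ℝ) *
    (hh S τ 1 (D.e t) (D.w t) p * (S.N p : ℝ) ^ (-s))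

open Classical in
/-- both are nonempty -/
noncomputable def b4F {P : Type} (y : ZMod 2 → Finset P) : ℝ :=
  if (y 0).Nonempty ∧ (y 1).Nonempty then 1 else 0

open Classical in
theorem b4_Kt (τ : S.P → ℝ) (s : ℝ) (D : Vd S V) (x : V → Finset S.P) :
    Kt τ 1 s φ4 D Φ4 x = if DjP x then b4F (mrg (Prod.fst : V → ZMod 2) x) *
      ∏ t, ∏ p ∈ x t, b4W τ s D t (mrg (Prod.fst : V → ZMod 2) x) p else 0 := by
  unfold Kt
  by_cases hx : DjP x
  · rw [if_pos hx, if_pos (show S.Dj x from hx), b4_KE hx, b4_pat_mrg, sg_sum]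
    unfold b4F b4W
    simp only [sg_sum, Int.cast_prod, Finset.prod_mul_distrib]
    rw [mul_assoc]
  · rw [if_neg hx, if_neg (show ¬ S.Dj x from hx)]

/-! ### the factors -/

theorem b4_sum_fst (k : ZMod 2) (g : V → ℝ) [DecidablePred fun t : V => t.1 = k] :
    ∑ t ∈ Finset.univ.filter (fun t : V => t.1 = k), g t = g (k, 0) + g (k, 1) := by
  rw [Finset.sum_filter, Fintype.sum_prod_type]
  have h1 : ∀ i : ZMod 2, (∑ j : ZMod 2, if ((i, j) : V).1 = k then g (i, j) else 0) =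
      if i = k then g (k, 0) + g (k, 1) else 0 := by
    intro i
    by_cases h : i = k
    · subst h
      rw [if_pos rfl]
      have h2 : ∀ j : ZMod 2, (if ((i, j) : V).1 = i then g (i, j) else 0) = g (i, j) :=
        fun j => if_pos rfl
      rw [Finset.sum_congr rfl fun j _ => h2 j]
      exact Fin.sum_univ_two (fun j : Fin 2 => g (i, j))
    · rw [if_neg h]
      exact Finset.sum_eq_zero fun j _ => if_neg h
  rw [Finset.sum_congr rfl fun i _ => h1 i, Finset.sum_ite_eq' Finset.univ k,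
    if_pos (Finset.mem_univ _)]

theorem b4_sgL (L : ZMod 2) : (1 + ((sg L : ℤ) : ℝ)) = if L = 0 then 2 else 0 := by
  rcases zm2 L with rfl | rfl
  · rw [sg_zero, if_pos rfl]
    norm_num
  · rw [sg_one, if_neg (by decide)]
    norm_num

open Classical in
/-- the value of the factor of a variable -/
noncomputable def b4Z (τ : S.P → ℝ) (s : ℝ) (lk ex' ps : El S) (w y : Finset S.P) (p : S.P) :
    ℝ :=
  if p ∉ w ∧ S.ex ex'.2 ex'.1 p = 0 ∧ ∑ q ∈ y, S.J q p + S.ex lk.2 lk.1 p = 0 then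
    ((sg (S.ex ps.2 ps.1 p) : ℤ) : ℝ) * (2 * τ p * (S.N p : ℝ) ^ (-s)) else 0

theorem b4_factor (τ : S.P → ℝ) (s : ℝ) (D : Vd S V) (k : ZMod 2) (lk ex' ps : El S)
    (w : Finset S.P) (y : ZMod 2 → Finset S.P) (p : S.P)
    (hc : ∀ j, D.c (k, j) = ad (sm j lk) ps) (he : ∀ j, D.e (k, j) = ex')
    (hw : ∀ j, D.w (k, j) = w) :
    b4W τ s D (k, 0) y p + b4W τ s D (k, 1) y p = b4Z τ s lk ex' ps w (y (k + 1)) p := by
  unfold b4W b4Z
  simp only [hc, he, hw, b4_ex_ad, b4_ex_sm, zero_mul, zero_add, one_mul]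
  rw [← add_assoc, sg_add, Int.cast_mul]
  set L := ∑ q ∈ y (k + 1), S.J q p + S.ex lk.2 lk.1 p with hL
  have h1 := b4_sgL L
  have h2 := b4_sgL (S.ex ex'.2 ex'.1 p)
  unfold hh
  by_cases hp : p ∈ w
  · rw [if_pos hp, if_neg (fun h => h.1 hp)]
    ring
  · rw [if_neg hp, h2]
    by_cases h3 : S.ex ex'.2 ex'.1 p = 0
    · by_cases h4 : L = 0
      · rw [if_pos h3, if_pos ⟨hp, h3, h4⟩]
        rw [if_pos h4] at h1
        have h5 : ((sg L : ℤ) : ℝ) = 1 := by linarith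
        rw [h5]
        ring
      · rw [if_pos h3, if_neg (fun h => h4 h.2.2)]
        rw [if_neg h4] at h1
        have h5 : ((sg L : ℤ) : ℝ) = -1 := by linarith
        rw [h5]
        ring
    · rw [if_neg h3, if_neg (fun h => h3 h.2.1)]
      ring

open Classical in
theorem b4_prodZ (τ : S.P → ℝ) (s : ℝ) (lk ex' ps : El S) (w y x : Finset S.P) :
    ∏ p ∈ x, b4Z τ s lk ex' ps w y p =
      if (∀ p ∈ x, p ∉ w ∧ S.ex ex'.2 ex'.1 p = 0 ∧ ∑ q ∈ y, S.J q p + S.ex lk.2 lk.1 p = 0)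
      then ((sg (∑ p ∈ x, S.ex ps.2 ps.1 p) : ℤ) : ℝ) * ∏ p ∈ x, (2 * τ p * (S.N p : ℝ) ^ (-s))
      else 0 := by
  unfold b4Z
  rw [Finset.prod_ite_zero, Finset.prod_mul_distrib, sg_sum, Int.cast_prod]

/-! ### the conditions -/

theorem b4_mem_sid {x : V → Finset S.P} {i : ZMod 2} {p : S.P} :
    p ∈ sid x i ↔ ∃ j, p ∈ x (i, j) := by
  unfold sid
  rw [Finset.mem_union]
  constructor
  · rintro (h | h)
    · exact ⟨0, h⟩
    · exact ⟨1, h⟩
  · rintro ⟨j, h⟩
    rcases zm2 j with rfl | rfl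
    · exact Or.inl h
    · exact Or.inr h

theorem b4_mem_knd {x : V → Finset S.P} {j : ZMod 2} {p : S.P} :
    p ∈ knd x j ↔ ∃ i, p ∈ x (i, j) := by
  unfold knd
  rw [Finset.mem_union]
  constructor
  · rintro (h | h)
    · exact ⟨0, h⟩
    · exact ⟨1, h⟩
  · rintro ⟨j, h⟩
    rcases zm2 j with rfl | rfl
    · exact Or.inl h
    · exact Or.inr h

theorem b4_ne_add (a : ZMod 2) : a + 1 ≠ a := by
  revert a
  decide

theorem b4_sid {x : V → Finset S.P} {u v : V} (hx : ∀ t, t ≠ u → t ≠ v → x t = ∅) :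
    sid x (u.1 + 1) = if v.1 = u.1 + 1 then x v else ∅ := by
  ext p
  rw [b4_mem_sid]
  constructor
  · rintro ⟨j, hj⟩
    have h1 : ((u.1 + 1, j) : V) ≠ u := fun h => b4_ne_add u.1 (congrArg Prod.fst h)
    by_cases h2 : ((u.1 + 1, j) : V) = v
    · rw [if_pos (congrArg Prod.fst h2).symm, ← h2]
      exact hj
    · rw [hx _ h1 h2] at hj
      exact absurd hj (Finset.notMem_empty _)
  · intro h
    by_cases h1 : v.1 = u.1 + 1
    · rw [if_pos h1] at h
      refine ⟨v.2, ?_⟩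
      rw [← h1]
      exact h
    · rw [if_neg h1] at h
      exact absurd h (Finset.notMem_empty _)

theorem b4_knd {x : V → Finset S.P} {u v : V} (hx : ∀ t, t ≠ u → t ≠ v → x t = ∅) :
    knd x (u.2 + 1) = if v.2 = u.2 + 1 then x v else ∅ := by
  ext p
  rw [b4_mem_knd]
  constructor
  · rintro ⟨j, hj⟩
    have h1 : ((j, u.2 + 1) : V) ≠ u := fun h => b4_ne_add u.2 (congrArg Prod.snd h)
    by_cases h2 : ((j, u.2 + 1) : V) = v
    · rw [if_pos (congrArg Prod.snd h2).symm, ← h2]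
      exact hj
    · rw [hx _ h1 h2] at hj
      exact absurd hj (Finset.notMem_empty _)
  · intro h
    by_cases h1 : v.2 = u.2 + 1
    · rw [if_pos h1] at h
      refine ⟨v.1, ?_⟩
      rw [← h1]
      exact h
    · rw [if_neg h1] at h
      exact absurd h (Finset.notMem_empty _)

theorem b4_cnd {M : Finset S.P} {c : Co S} (hc : c.Ok M) {x : V → Finset S.P} {u v : V}
    (huv : u ≠ v) (hx : ∀ t, t ≠ u → t ≠ v → x t = ∅) (hd : Disjoint (x v) M) (p : S.P) :
    (S.ex (sid x (u.1 + 1) ∪ (c.f (u.1 + 1)).2) (c.f (u.1 + 1)).1 p = 0 ∧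
      S.ex (knd x (u.2 + 1) ∪ (c.g (u.2 + 1)).2) (c.g (u.2 + 1)).1 p = 0) ↔
    (S.ex (exc c u v).2 (exc c u v).1 p = 0 ∧
      ∑ q ∈ x v, S.J q p + S.ex (lkc c u v).2 (lkc c u v).1 p = 0) := by
  have hz : ∀ a b : ZMod 2, b ≠ a → b = a + 1 := by decide
  have hf : Disjoint (x v) (c.f (u.1 + 1)).2 := Finset.disjoint_of_subset_right (hc.f_sub _) hd
  have hg : Disjoint (x v) (c.g (u.2 + 1)).2 := Finset.disjoint_of_subset_right (hc.g_sub _) hd
  rw [b4_sid hx, b4_knd hx]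
  unfold exc lkc
  by_cases h1 : v.1 = u.1
  · have h2 : v.2 ≠ u.2 := fun h => huv (Prod.ext h1.symm h.symm)
    have h3 : ¬ v.1 = u.1 + 1 := fun h => b4_ne_add u.1 (h.symm.trans h1)
    rw [if_neg h3, if_pos (hz _ _ h2), if_pos h1, if_pos h1, Finset.empty_union,
      b4_ex_union hg]
  · rw [if_pos (hz _ _ h1), if_neg h1, if_neg h1, b4_ex_union hf]
    by_cases h2 : v.2 = u.2
    · have h3 : ¬ v.2 = u.2 + 1 := fun h => b4_ne_add u.2 (h.symm.trans h2)
      rw [if_neg h3, if_pos h2, Finset.empty_union]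
      exact and_comm
    · rw [if_pos (hz _ _ h2), if_neg h2, b4_ex_union hg, b4_ex_ad]
      have h4 : ∀ j f g : ZMod 2, (j + f = 0 ∧ j + g = 0) ↔ (f + g = 0 ∧ j + f = 0) := by decide
      exact h4 _ _ _

/-! ### the embedding -/

open Classical in
/-- the family with `y 0` at `u`, `y 1` at `v` -/
noncomputable def b4E {P : Type} (u v : V) (y : ZMod 2 → Finset P) (t : V) : Finset P :=
  if t = u then y 0 else if t = v then y 1 else ∅

theorem b4E_u {P : Type} (u v : V) (y : ZMod 2 → Finset P) : b4E u v y u = y 0 := if_pos rfl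

theorem b4E_v {P : Type} {u v : V} (h : u ≠ v) (y : ZMod 2 → Finset P) : b4E u v y v = y 1 := by
  unfold b4E
  rw [if_neg h.symm, if_pos rfl]

theorem b4E_ne {P : Type} {u v t : V} (h : t ≠ u) (h' : t ≠ v) (y : ZMod 2 → Finset P) :
    b4E u v y t = ∅ := by
  unfold b4E
  rw [if_neg h, if_neg h']

theorem b4E_inj {P : Type} {u v : V} (h : u ≠ v) :
    Function.Injective (b4E u v : (ZMod 2 → Finset P) → V → Finset P) := by
  intro y y' hy
  funext k
  rcases zm2 k with rfl | rfl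
  · have := congrFun hy u
    rwa [b4E_u, b4E_u] at this
  · have := congrFun hy v
    rwa [b4E_v h, b4E_v h] at this

theorem b4_pat_eq {P : Type} {u v : V} {x : V → Finset P}
    (hx : ∀ t, t ≠ u → t ≠ v → x t = ∅) :
    (∀ t, t ∈ pat x ↔ t ∈ ({u, v} : Set V)) ↔ (x u).Nonempty ∧ (x v).Nonempty := by
  classical
  have hm : ∀ t, t ∈ pat x ↔ (x t).Nonempty := fun t => by
    unfold pat
    rw [Finset.mem_filter]
    exact ⟨fun h => h.2, fun h => ⟨Finset.mem_univ _, h⟩⟩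
  constructor
  · intro h1
    exact ⟨(hm u).mp ((h1 u).mpr (Or.inl rfl)), (hm v).mp ((h1 v).mpr (Or.inr rfl))⟩
  · rintro ⟨h1, h2⟩ t
    rw [hm]
    constructor
    · intro h3
      by_contra h4
      have h5 : t ≠ u := fun h => h4 (Or.inl h)
      have h6 : t ≠ v := fun h => h4 (Or.inr h)
      rw [hx t h5 h6] at h3
      exact Finset.not_nonempty_empty h3
    · rintro (h3 | h3)
      · rw [h3]; exact h1
      · rw [h3]; exact h2

theorem b4_pat_iff {P : Type} {u v : V} [DecidableEq V] (x : V → Finset P) :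
    pat x = {u, v} ↔ ∀ t, t ∈ pat x ↔ t ∈ ({u, v} : Set V) := by
  rw [Finset.ext_iff]
  simp

end B4

open Classical in
theorem s4 (h : SMrg) (h1 : SFb) : S4 := by
  intro S B τ M c w u v ψ s hT hc hM huv hψ hs1 hs2
  set D := D4 M c w u v ψ with hD
  have hΦ : ∀ U, |Φ4 U| ≤ 1 := by
    intro U
    unfold Φ4
    split_ifs
    · rw [abs_one]
    · rw [abs_zero]; exact zero_le_one
  have hsum : Summable fun x : V → Finset S.P => Kt τ 1 s φ4 D Φ4 x := by
    obtain ⟨C, -, hC⟩ := h1 S V B 1 one_pos le_rfl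
    have h2 := (hC τ φ4 D Φ4 hT hΦ (s - 1) (by linarith) (by linarith)).1
    have h3 : 1 + (s - 1) = s := by ring
    rwa [h3] at h2
  have hKt : (fun x : V → Finset S.P => Kt τ 1 s φ4 D Φ4 x) = fun x => if DjP x then
      b4F (mrg (Prod.fst : V → ZMod 2) x) *
        ∏ t, ∏ p ∈ x t, b4W τ s D t (mrg (Prod.fst : V → ZMod 2) x) p else 0 :=
    funext fun x => b4_Kt τ s D x
  have hm := h S.P V (ZMod 2) Prod.fst b4F (b4W τ s D) (by rw [← hKt]; exact hsum)
  unfold FK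
  rw [hKt, hm]
  unfold M2
  have hsupp : Function.support (fun x : V → Finset S.P =>
      if (∀ t, Disjoint (x t) (w t)) ∧ pat x = {u, v} then
        ((sg (∑ p ∈ x u, S.ex (ψ 0).2 (ψ 0).1 p + ∑ p ∈ x v, S.ex (ψ 1).2 (ψ 1).1 p) : ℤ) : ℝ) *
          ms τ M c s x else 0) ⊆ Set.range (b4E u v) := by
    intro x hx
    rw [Function.mem_support] at hx
    have h2 : pat x = {u, v} := by
      by_contra h3
      exact hx (if_neg fun h4 => h3 h4.2)
    have h3 := (b4_pat_iff x).mp h2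
    refine ⟨fun k => if k = 0 then x u else x v, ?_⟩
    funext t
    by_cases h4 : t = u
    · rw [h4, b4E_u, if_pos rfl]
    · by_cases h5 : t = v
      · rw [h5, b4E_v huv, if_neg (by decide)]
      · rw [b4E_ne h4 h5]
        by_contra h6
        have h7 : t ∈ pat x := by
          unfold pat
          exact Finset.mem_filter.mpr ⟨Finset.mem_univ _,
            Finset.nonempty_iff_ne_empty.mpr fun h => h6 h.symm⟩
        rcases (h3 t).mp h7 with h8 | h8
        · exact h4 h8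
        · exact h5 h8
  rw [← (b4E_inj huv).tsum_eq hsupp]
  refine tsum_congr fun y => ?_
  have hy0 := b4E_u u v y
  have hy1 := b4E_v huv y
  have hyn : ∀ t, t ≠ u → t ≠ v → b4E u v y t = ∅ := fun t h2 h3 => b4E_ne h2 h3 y
  have hpat : pat (b4E u v y) = {u, v} ↔ (y 0).Nonempty ∧ (y 1).Nonempty := by
    rw [b4_pat_iff, b4_pat_eq hyn, hy0, hy1]
  have hdj : DjP (b4E u v y) ↔ DjP y := by
    constructor
    · intro h2 i j hij
      have h3 := h2 u v huv
      rw [hy0, hy1] at h3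
      rcases zm2 i with rfl | rfl <;> rcases zm2 j with rfl | rfl
      · exact absurd rfl hij
      · exact h3
      · exact h3.symm
      · exact absurd rfl hij
    · intro h2 i j hij
      have h3 := h2 0 1 (by decide)
      by_cases hi : i = u
      · by_cases hj : j = v
        · rw [hi, hj, hy0, hy1]; exact h3
        · rw [hyn j (fun h => hij (hi.trans h.symm)) hj]
          exact Finset.disjoint_empty_right _
      · by_cases hi' : i = v
        · by_cases hj : j = u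
          · rw [hi', hj, hy0, hy1]; exact h3.symm
          · rw [hyn j hj (fun h => hij (hi'.trans h.symm))]
            exact Finset.disjoint_empty_right _
        · rw [hyn i hi hi']
          exact Finset.disjoint_empty_left _
  by_cases hne : (y 0).Nonempty ∧ (y 1).Nonempty
  swap
  · rw [if_neg (fun h2 => hne (hpat.mp h2.2))]
    unfold b4F
    rw [if_neg hne, zero_mul, ite_self]
  by_cases hdy : DjP y
  swap
  · rw [if_neg hdy]
    have h2 : ms τ M c s (b4E u v y) = 0 := by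
      unfold ms
      exact if_neg fun h3 => hdy (hdj.mp h3.dj)
    rw [h2, mul_zero, ite_self]
  rw [if_pos hdy]
  unfold b4F
  rw [if_pos hne, one_mul]
  have hR : ∀ k : ZMod 2, ∀ p, ∑ t ∈ Finset.univ.filter (fun t : V => Prod.fst t = k),
      b4W τ s D t y p = b4W τ s D (k, 0) y p + b4W τ s D (k, 1) y p :=
    fun k p => b4_sum_fst k fun t => b4W τ s D t y p
  have hR0 : ∀ p, b4W τ s D (0, 0) y p + b4W τ s D (0, 1) y p =
      b4Z τ s (lkc c u v) (exc c u v) (ψ 0) (w u) (y (0 + 1)) p :=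
    fun p => b4_factor τ s D 0 _ _ _ _ y p (fun j => by rw [hD]; simp [D4])
      (fun j => by rw [hD]; simp [D4]) (fun j => by rw [hD]; simp [D4])
  have hR1 : ∀ p, b4W τ s D (1, 0) y p + b4W τ s D (1, 1) y p =
      b4Z τ s (lkc c v u) (exc c v u) (ψ 1) (w v) (y (1 + 1)) p :=
    fun p => b4_factor τ s D 1 _ _ _ _ y p (fun j => by rw [hD]; simp [D4])
      (fun j => by rw [hD]; simp [D4]) (fun j => by rw [hD]; simp [D4])
  have hprod : ∏ k : ZMod 2, ∏ p ∈ y k, ∑ t ∈ Finset.univ.filter (fun t : V => Prod.fst t = k),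
      b4W τ s D t y p = (∏ p ∈ y 0, b4Z τ s (lkc c u v) (exc c u v) (ψ 0) (w u) (y 1) p) *
        ∏ p ∈ y 1, b4Z τ s (lkc c v u) (exc c v u) (ψ 1) (w v) (y 0) p := by
    simp only [hR]
    have h2 : ∏ k : ZMod 2, ∏ p ∈ y k, (b4W τ s D (k, 0) y p + b4W τ s D (k, 1) y p) =
        (∏ p ∈ y 0, (b4W τ s D (0, 0) y p + b4W τ s D (0, 1) y p)) *
          ∏ p ∈ y 1, (b4W τ s D (1, 0) y p + b4W τ s D (1, 1) y p) :=
      Fin.prod_univ_two (fun k : Fin 2 =>
        ∏ p ∈ y k, (b4W τ s D (k, 0) y p + b4W τ s D (k, 1) y p))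
    rw [h2]
    simp only [hR0, hR1]
    rfl
  refine Eq.trans ?_ (hprod.symm.trans (by congr!))
  rw [b4_prodZ, b4_prodZ]
  have hd1 : (∀ t, Disjoint (b4E u v y t) (w t)) ↔ Disjoint (y 0) (w u) ∧ Disjoint (y 1) (w v) := by
    constructor
    · intro h2
      have h3 := h2 u
      have h4 := h2 v
      rw [hy0] at h3
      rw [hy1] at h4
      exact ⟨h3, h4⟩
    · rintro ⟨h2, h3⟩ t
      by_cases h4 : t = u
      · rw [h4, hy0]; exact h2
      · by_cases h5 : t = v
        · rw [h5, hy1]; exact h3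
        · rw [hyn t h4 h5]
          exact Finset.disjoint_empty_left _
  by_cases hdw : Disjoint (y 0) (w u) ∧ Disjoint (y 1) (w v)
  swap
  · rw [if_neg (fun h2 => hdw (hd1.mp h2.1))]
    by_cases h2 : Disjoint (y 0) (w u)
    · have h3 : ¬ Disjoint (y 1) (w v) := fun h3 => hdw ⟨h2, h3⟩
      have h4 : ¬ ∀ p ∈ y 1, p ∉ w v ∧ S.ex (exc c v u).2 (exc c v u).1 p = 0 ∧
          ∑ q ∈ y 0, S.J q p + S.ex (lkc c v u).2 (lkc c v u).1 p = 0 :=
        fun h4 => h3 (Finset.disjoint_left.mpr fun p hp => (h4 p hp).1)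
      rw [if_neg h4, mul_zero]
    · have h4 : ¬ ∀ p ∈ y 0, p ∉ w u ∧ S.ex (exc c u v).2 (exc c u v).1 p = 0 ∧
          ∑ q ∈ y 1, S.J q p + S.ex (lkc c u v).2 (lkc c u v).1 p = 0 :=
        fun h4 => h2 (Finset.disjoint_left.mpr fun p hp => (h4 p hp).1)
      rw [if_neg h4, zero_mul]
  rw [if_pos ⟨hd1.mpr hdw, hpat.mpr hne⟩, hy0, hy1]
  have hdM : ∀ t, Disjoint (b4E u v y t) M := fun t =>
    Finset.disjoint_of_subset_right (hM t) (hd1.mpr hdw t)
  have hcu := b4_cnd hc huv hyn (hdM v)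
  have hcv := b4_cnd hc huv.symm (fun t h2 h3 => hyn t h3 h2) (hdM u)
  rw [hy1] at hcu
  rw [hy0] at hcv
  have hA : Adm M c (b4E u v y) ↔
      ((∀ p ∈ y 0, p ∉ w u ∧ S.ex (exc c u v).2 (exc c u v).1 p = 0 ∧
          ∑ q ∈ y 1, S.J q p + S.ex (lkc c u v).2 (lkc c u v).1 p = 0) ∧
        ∀ p ∈ y 1, p ∉ w v ∧ S.ex (exc c v u).2 (exc c v u).1 p = 0 ∧
          ∑ q ∈ y 0, S.J q p + S.ex (lkc c v u).2 (lkc c v u).1 p = 0) := by
    constructor
    · intro h2
      refine ⟨fun p hp => ⟨Finset.disjoint_left.mp hdw.1 hp, ?_⟩,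
        fun p hp => ⟨Finset.disjoint_left.mp hdw.2 hp, ?_⟩⟩
      · exact (hcu p).mp (h2.cnd u p (by rw [hy0]; exact hp))
      · exact (hcv p).mp (h2.cnd v p (by rw [hy1]; exact hp))
    · rintro ⟨h2, h3⟩
      refine ⟨hdj.mpr hdy, hdM, fun t p hp => ?_⟩
      by_cases h4 : t = u
      · subst h4
        rw [hy0] at hp
        exact (hcu p).mpr (h2 p hp).2
      · by_cases h5 : t = v
        · subst h5
          rw [hy1] at hp
          exact (hcv p).mpr (h3 p hp).2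
        · rw [hyn t h4 h5] at hp
          exact absurd hp (Finset.notMem_empty _)
  have hpr : ∏ t, ∏ p ∈ b4E u v y t, (2 * τ p * (S.N p : ℝ) ^ (-s)) =
      (∏ p ∈ y 0, (2 * τ p * (S.N p : ℝ) ^ (-s))) * ∏ p ∈ y 1, (2 * τ p * (S.N p : ℝ) ^ (-s)) := by
    rw [Fintype.prod_eq_mul u v huv (fun t ht => by rw [hyn t ht.1 ht.2, Finset.prod_empty]),
      hy0, hy1]
  unfold ms
  by_cases hAd : Adm M c (b4E u v y)
  · rw [if_pos hAd, hpr, if_pos (hA.mp hAd).1, if_pos (hA.mp hAd).2, sg_add, Int.cast_mul]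
    ring
  · rw [if_neg hAd, mul_zero]
    by_cases h2 : ∀ p ∈ y 0, p ∉ w u ∧ S.ex (exc c u v).2 (exc c u v).1 p = 0 ∧
        ∑ q ∈ y 1, S.J q p + S.ex (lkc c u v).2 (lkc c u v).1 p = 0
    · rw [if_neg (fun h3 => hAd (hA.mpr ⟨h2, h3⟩)), mul_zero]
    · rw [if_neg h2, zero_mul]

end Pool.Agent.D8
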