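import Pool.Agent.D8.Stm

/-!
# Malle's conjecture for the dihedral group of order 16, row A3: two large linked variables with
weights bounded by products of `τ`
-/

set_option autoImplicit false

open scoped BigOperators Topology
open Filter

namespace Pool.Agent.D8

open Pool.Agent.H98.MK (sg)
open Pool.Agent.H98.MF
open Pool.Agent.H32.MQ (El pw)

namespace BBxA

open Classical in
/-- the term of the double sum -/
noncomputable def tm (S : Sys) (s : ℝ) (J : ℕ) (a b : Finset S.P → ℝ)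
    (z : Finset S.P × Finset S.P) : ℝ :=
  if Disjoint z.1 z.2 ∧ 2 ^ J < S.nm z.1 ∧ 2 ^ J < S.nm z.2
    then a z.1 * b z.2 * (S.jj z.1 z.2 : ℝ) * (pw s z.1 * pw s z.2) else 0

theorem bx_eq (S : Sys) (s : ℝ) (J : ℕ) (a b : Finset S.P → ℝ) :
    BX S a b s J = ∑' z, tm S s J a b z := rfl

theorem pw0 (S : Sys) (s : ℝ) (x : Finset S.P) : 0 ≤ pw s x :=
  Real.rpow_nonneg (Nat.cast_nonneg _) _

theorem tm_abs (S : Sys) (s : ℝ) (J : ℕ) (a b u v : Finset S.P → ℝ) (ha : ∀ x, |a x| ≤ u x)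
    (hb : ∀ x, |b x| ≤ v x) (z : Finset S.P × Finset S.P) :
    |tm S s J a b z| ≤ (u z.1 * pw s z.1) * (v z.2 * pw s z.2) := by
  have hu : 0 ≤ u z.1 := (abs_nonneg _).trans (ha _)
  have hv : 0 ≤ v z.2 := (abs_nonneg _).trans (hb _)
  have h0 : 0 ≤ (u z.1 * pw s z.1) * (v z.2 * pw s z.2) :=
    mul_nonneg (mul_nonneg hu (pw0 S s _)) (mul_nonneg hv (pw0 S s _))
  unfold tm
  split_ifs
  · rw [abs_mul, abs_mul, abs_mul, Sys.abs_jj, mul_one, abs_of_nonneg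
      (mul_nonneg (pw0 S s z.1) (pw0 S s z.2))]
    calc |a z.1| * |b z.2| * (pw s z.1 * pw s z.2)
        ≤ u z.1 * v z.2 * (pw s z.1 * pw s z.2) :=
          mul_le_mul_of_nonneg_right (mul_le_mul (ha _) (hb _) (abs_nonneg _) hu)
            (mul_nonneg (pw0 S s _) (pw0 S s _))
      _ = _ := by ring
  · rw [abs_zero]
    exact h0

theorem tm_sum (S : Sys) (s : ℝ) (J : ℕ) (a b u v : Finset S.P → ℝ) (ha : ∀ x, |a x| ≤ u x)
    (hb : ∀ x, |b x| ≤ v x) (h1 : Summable fun x => u x * pw s x)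
    (h2 : Summable fun x => v x * pw s x) :
    (Summable fun z => tm S s J a b z) ∧
    |BX S a b s J| ≤ (∑' x, u x * pw s x) * ∑' x, v x * pw s x := by
  have hu : ∀ x, 0 ≤ u x * pw s x := fun x => mul_nonneg ((abs_nonneg _).trans (ha _)) (pw0 S s _)
  have hv : ∀ x, 0 ≤ v x * pw s x := fun x => mul_nonneg ((abs_nonneg _).trans (hb _)) (pw0 S s _)
  have h3 : Summable fun z : Finset S.P × Finset S.P =>
      (u z.1 * pw s z.1) * (v z.2 * pw s z.2) := h1.mul_of_nonneg h2 hu hv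
  have h4 : Summable fun z => |tm S s J a b z| :=
    Summable.of_nonneg_of_le (fun z => abs_nonneg _) (tm_abs S s J a b u v ha hb) h3
  refine ⟨h4.of_abs, ?_⟩
  rw [bx_eq, h1.tsum_mul_tsum h2 h3]
  calc |∑' z, tm S s J a b z| ≤ ∑' z, |tm S s J a b z| := by
        have := norm_tsum_le_tsum_norm (f := fun z => tm S s J a b z) h4
        simpa [Real.norm_eq_abs] using this
    _ ≤ _ := h4.tsum_le_tsum (tm_abs S s J a b u v ha hb) h3

theorem bx_add_left (S : Sys) (s : ℝ) (J : ℕ) (a a' b : Finset S.P → ℝ)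
    (h1 : Summable fun z => tm S s J a b z) (h2 : Summable fun z => tm S s J a' b z) :
    BX S (fun x => a x + a' x) b s J = BX S a b s J + BX S a' b s J := by
  rw [bx_eq, bx_eq, bx_eq, ← h1.tsum_add h2]
  refine tsum_congr fun z => ?_
  unfold tm
  split_ifs <;> ring

theorem bx_add_right (S : Sys) (s : ℝ) (J : ℕ) (a b b' : Finset S.P → ℝ)
    (h1 : Summable fun z => tm S s J a b z) (h2 : Summable fun z => tm S s J a b' z) :
    BX S a (fun x => b x + b' x) s J = BX S a b s J + BX S a b' s J := by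
  rw [bx_eq, bx_eq, bx_eq, ← h1.tsum_add h2]
  refine tsum_congr fun z => ?_
  unfold tm
  split_ifs <;> ring

theorem bx_scale (S : Sys) (s : ℝ) (J : ℕ) (a b : Finset S.P → ℝ) (T : ℝ) (hT : T ≠ 0) :
    BX S a b s J = T ^ 2 * BX S (fun x => a x / T) (fun x => b x / T) s J := by
  rw [bx_eq, bx_eq, ← tsum_mul_left]
  refine tsum_congr fun z => ?_
  unfold tm
  split_ifs
  · field_simp
  · ring

/-- the squares of the weights -/
theorem tk_sq (S : Sys) (B : ℝ) (τ : S.P → ℝ) (h : Tk S B τ) :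
    Tk S (B * (2 + B)) fun p => τ p ^ 2 := by
  intro p
  obtain ⟨h0, h1⟩ := h p
  refine ⟨by positivity, ?_⟩
  have hN : (1 : ℝ) ≤ S.N p := by exact_mod_cast S.one_le_N p
  have hn0 : 0 < (S.N p : ℝ) ^ (-(1 / 2) : ℝ) := Real.rpow_pos_of_pos (by linarith) _
  have hn1 : (S.N p : ℝ) ^ (-(1 / 2) : ℝ) ≤ 1 :=
    Real.rpow_le_one_of_one_le_of_nonpos hN (by norm_num)
  have hB : 0 ≤ B := by
    by_contra hB
    have := mul_neg_of_neg_of_pos (not_le.1 hB) hn0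
    linarith [abs_nonneg (τ p - 1)]
  have h2 : |τ p + 1| ≤ 2 + B := by
    have e : τ p + 1 = (τ p - 1) + 2 := by ring
    rw [e]
    refine (abs_add_le _ _).trans ?_
    rw [abs_of_pos (two_pos : (0 : ℝ) < 2)]
    nlinarith
  have e : τ p ^ 2 - 1 = (τ p - 1) * (τ p + 1) := by ring
  show |τ p ^ 2 - 1| ≤ _
  rw [e, abs_mul]
  calc |τ p - 1| * |τ p + 1| ≤ (B * (S.N p : ℝ) ^ (-(1 / 2) : ℝ)) * (2 + B) :=
        mul_le_mul h1 h2 (abs_nonneg _) (mul_nonneg hB hn0.le)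
    _ = _ := by ring

end BBxA

open BBxA in
/-- two large linked variables, weights bounded by products of `τ` -/
theorem sBx (h : SBx0) (h1 : ST1) : SBx := by
  classical
  intro S B
  obtain ⟨C0, E0, c0, hC0, hE0, hc0, H⟩ := h S
  obtain ⟨C1, hC1, H1⟩ := h1 S (B * (2 + B)) 1 0 zero_le_one one_le_two
  obtain ⟨C2, hC2, H2⟩ := h1 S B 1 0 zero_le_one one_le_two
  refine ⟨C0 + 2 * (C1 * C2), E0 + 2, c0 / 4, by positivity, by positivity, by positivity, ?_⟩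
  intro τ hτ a b ha hb σ J hσ hσ1
  have K1 := H1 _ (tk_sq S B τ hτ) σ hσ hσ1
  have K2 := H2 τ hτ σ hσ hσ1
  set t : Finset S.P → ℝ := fun x => ∏ p ∈ x, τ p with ht
  have ht0 : ∀ x, 0 ≤ t x := fun x => Finset.prod_nonneg fun p _ => (hτ p).1
  have e1 : ∀ x : Finset S.P, (∏ p ∈ x, 1 * τ p ^ 2) * ls S x ^ 0 * pw (1 + σ) x =
      t x ^ 2 * pw (1 + σ) x := by
    intro x
    simp only [one_mul, pow_zero, mul_one, ht, Finset.prod_pow]
  have e2 : ∀ x : Finset S.P, (∏ p ∈ x, 1 * τ p) * ls S x ^ 0 * pw (1 + σ) x =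
      t x * pw (1 + σ) x := by
    intro x
    simp only [one_mul, pow_zero, mul_one, ht]
  simp only [e1] at K1
  simp only [e2] at K2
  obtain ⟨s1, b1, -⟩ := K1
  obtain ⟨s2, b2, -⟩ := K2
  set T : ℝ := (2 : ℝ) ^ (c0 * J / 4) with hT
  have hT0 : 0 < T := Real.rpow_pos_of_pos two_pos _
  have hTi : T⁻¹ = (2 : ℝ) ^ (-(c0 / 4 * J)) := by
    rw [hT, ← Real.rpow_neg two_pos.le]
    congr 1
    ring
  -- truncation
  set tr : (Finset S.P → ℝ) → Finset S.P → ℝ := fun f x => if t x ≤ T then f x else 0 with htr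
  set tl : (Finset S.P → ℝ) → Finset S.P → ℝ := fun f x => if t x ≤ T then 0 else f x with htl
  have hsp : ∀ f : Finset S.P → ℝ, f = fun x => tr f x + tl f x := by
    intro f
    funext x
    simp only [htr, htl]
    split_ifs <;> ring
  have htr1 : ∀ f : Finset S.P → ℝ, (∀ x, |f x| ≤ t x) → ∀ x, |tr f x| ≤ t x := by
    intro f hf x
    simp only [htr]
    split_ifs
    · exact hf x
    · rw [abs_zero]
      exact ht0 x
  have htr2 : ∀ f : Finset S.P → ℝ, (∀ x, |f x| ≤ t x) → ∀ x, |tr f x / T| ≤ 1 := by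
    intro f hf x
    simp only [htr]
    rw [abs_div, abs_of_pos hT0, div_le_one hT0]
    split_ifs with hx
    · exact (hf x).trans hx
    · rw [abs_zero]
      exact hT0.le
  have htl1 : ∀ f : Finset S.P → ℝ, (∀ x, |f x| ≤ t x) → ∀ x, |tl f x| ≤ T⁻¹ * t x ^ 2 := by
    intro f hf x
    simp only [htl]
    split_ifs with hx
    · rw [abs_zero]
      exact mul_nonneg (inv_nonneg.2 hT0.le) (sq_nonneg _)
    · have hx' : T ≤ t x := (not_le.1 hx).le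
      refine (hf x).trans ?_
      rw [inv_mul_eq_div, le_div_iff₀ hT0, sq]
      exact mul_le_mul_of_nonneg_left hx' (ht0 x)
  have s1' : Summable fun x => (T⁻¹ * t x ^ 2) * pw (1 + σ) x := by
    have := s1.mul_left T⁻¹
    simpa only [mul_assoc] using this
  have b1' : ∑' x, (T⁻¹ * t x ^ 2) * pw (1 + σ) x ≤ T⁻¹ * (C1 * σ ^ (-(1 : ℝ))) := by
    simp only [mul_assoc]
    rw [tsum_mul_left]
    exact mul_le_mul_of_nonneg_left b1 (inv_nonneg.2 hT0.le)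
  have n1 : 0 ≤ ∑' x, (T⁻¹ * t x ^ 2) * pw (1 + σ) x := tsum_nonneg fun x =>
    mul_nonneg (mul_nonneg (inv_nonneg.2 hT0.le) (sq_nonneg _)) (pw0 S _ _)
  have n2 : 0 ≤ ∑' x, t x * pw (1 + σ) x := tsum_nonneg fun x =>
    mul_nonneg (ht0 x) (pw0 S _ _)
  -- the three parts
  have m1 : Summable fun z => tm S (1 + σ) J (tr a) b z :=
    (tm_sum S (1 + σ) J (tr a) b t t (htr1 a ha) hb s2 s2).1
  have m2 := tm_sum S (1 + σ) J (tl a) b (fun x => T⁻¹ * t x ^ 2) t (htl1 a ha) hb s1' s2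
  have m3 : Summable fun z => tm S (1 + σ) J (tr a) (tr b) z :=
    (tm_sum S (1 + σ) J (tr a) (tr b) t t (htr1 a ha) (htr1 b hb) s2 s2).1
  have m4 := tm_sum S (1 + σ) J (tr a) (tl b) t (fun x => T⁻¹ * t x ^ 2) (htr1 a ha)
    (htl1 b hb) s2 s1'
  have f1 : BX S a b (1 + σ) J = BX S (tr a) (tr b) (1 + σ) J + BX S (tr a) (tl b) (1 + σ) J +
      BX S (tl a) b (1 + σ) J := by
    have g1 := bx_add_left S (1 + σ) J (tr a) (tl a) b m1 m2.1
    have g2 := bx_add_right S (1 + σ) J (tr a) (tr b) (tl b) m3 m4.1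
    rw [← hsp a] at g1
    rw [← hsp b] at g2
    rw [g1, g2]
  have hσi : (0 : ℝ) ≤ σ ^ (-(1 : ℝ)) := Real.rpow_nonneg hσ.le _
  have r1 : |BX S (tr a) (tr b) (1 + σ) J| ≤ T ^ 2 * (C0 * σ ^ (-E0) * (2 : ℝ) ^ (-(c0 * J))) := by
    rw [bx_scale S (1 + σ) J (tr a) (tr b) T hT0.ne', abs_mul, abs_of_pos (pow_pos hT0 2)]
    exact mul_le_mul_of_nonneg_left (H _ _ (htr2 a ha) (htr2 b hb) σ J hσ hσ1)
      (pow_pos hT0 2).le
  have r2 : |BX S (tr a) (tl b) (1 + σ) J| ≤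
      (C2 * σ ^ (-(1 : ℝ))) * (T⁻¹ * (C1 * σ ^ (-(1 : ℝ)))) :=
    m4.2.trans (mul_le_mul b2 b1' n1 (mul_nonneg hC2 hσi))
  have r3 : |BX S (tl a) b (1 + σ) J| ≤
      (T⁻¹ * (C1 * σ ^ (-(1 : ℝ)))) * (C2 * σ ^ (-(1 : ℝ))) :=
    m2.2.trans (mul_le_mul b1' b2 n2
      (mul_nonneg (inv_nonneg.2 hT0.le) (mul_nonneg hC1 hσi)))
  have q1 : T ^ 2 * (2 : ℝ) ^ (-(c0 * J)) = T⁻¹ ^ 2 := by
    have e3 : T ^ 2 = (2 : ℝ) ^ (c0 * J / 2) := by
      rw [hT, ← Real.rpow_natCast, ← Real.rpow_mul two_pos.le]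
      congr 1
      push_cast
      ring
    rw [inv_pow, e3, ← Real.rpow_add two_pos, ← Real.rpow_neg two_pos.le]
    congr 1
    ring
  have hT1 : T⁻¹ ≤ 1 := by
    rw [hTi]
    exact Real.rpow_le_one_of_one_le_of_nonpos one_le_two
      (neg_nonpos.2 (by positivity))
  have q2 : T⁻¹ ^ 2 ≤ T⁻¹ := by
    rw [sq]
    exact mul_le_of_le_one_right (inv_nonneg.2 hT0.le) hT1
  have q3 : σ ^ (-(1 : ℝ)) * σ ^ (-(1 : ℝ)) = σ ^ (-(2 : ℝ)) := by
    rw [← Real.rpow_add hσ]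
    norm_num
  have q4 : σ ^ (-E0) ≤ σ ^ (-(E0 + 2)) :=
    Real.rpow_le_rpow_of_exponent_ge hσ hσ1 (by linarith)
  have q5 : σ ^ (-(2 : ℝ)) ≤ σ ^ (-(E0 + 2)) :=
    Real.rpow_le_rpow_of_exponent_ge hσ hσ1 (by linarith)
  have hσE : (0 : ℝ) ≤ σ ^ (-E0) := Real.rpow_nonneg hσ.le _
  have hTn : (0 : ℝ) ≤ T⁻¹ := inv_nonneg.2 hT0.le
  rw [f1, ← hTi]
  calc |BX S (tr a) (tr b) (1 + σ) J + BX S (tr a) (tl b) (1 + σ) J +
        BX S (tl a) b (1 + σ) J|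
      ≤ |BX S (tr a) (tr b) (1 + σ) J| + |BX S (tr a) (tl b) (1 + σ) J| +
        |BX S (tl a) b (1 + σ) J| := abs_add_three _ _ _
    _ ≤ T ^ 2 * (C0 * σ ^ (-E0) * (2 : ℝ) ^ (-(c0 * J))) +
        (C2 * σ ^ (-(1 : ℝ))) * (T⁻¹ * (C1 * σ ^ (-(1 : ℝ)))) +
        (T⁻¹ * (C1 * σ ^ (-(1 : ℝ)))) * (C2 * σ ^ (-(1 : ℝ))) :=
        add_le_add (add_le_add r1 r2) r3
    _ = C0 * σ ^ (-E0) * (T ^ 2 * (2 : ℝ) ^ (-(c0 * J))) +
        2 * (C1 * C2) * (σ ^ (-(1 : ℝ)) * σ ^ (-(1 : ℝ))) * T⁻¹ := by ring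
    _ = C0 * σ ^ (-E0) * T⁻¹ ^ 2 + 2 * (C1 * C2) * σ ^ (-(2 : ℝ)) * T⁻¹ := by rw [q1, q3]
    _ ≤ C0 * σ ^ (-(E0 + 2)) * T⁻¹ + 2 * (C1 * C2) * σ ^ (-(E0 + 2)) * T⁻¹ := by
        refine add_le_add ?_ ?_
        · exact mul_le_mul (mul_le_mul_of_nonneg_left q4 hC0) q2 (by positivity)
            (mul_nonneg hC0 (Real.rpow_nonneg hσ.le _))
        · exact mul_le_mul_of_nonneg_right (mul_le_mul_of_nonneg_left q5 (by positivity)) hTn
    _ = _ := by ring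

end Pool.Agent.D8
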