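import Pool.Agent.D8.Stm
import Pool.Agent.H98.MF.SCount

/-!
# Malle's conjecture for the dihedral group of order 16, row A3a: two large linked variables with
bounded weights
-/

set_option autoImplicit false

open scoped BigOperators Topology
open Filter

namespace Pool.Agent.D8

open Pool.Agent.H98.MK (sg)
open Pool.Agent.H98.MF
open Pool.Agent.H32.MQ (El pw)

/-- powers of the norm as products -/
theorem bbx_pw (S : Sys) (s : ℝ) (x : Finset S.P) : pw s x = ∏ p ∈ x, (S.N p : ℝ) ^ (-s) := by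
  unfold pw Pre.nm
  rw [Nat.cast_prod]
  exact (Real.finsetProd_rpow x _ (fun _ _ => Nat.cast_nonneg _) _).symm

theorem bbx_pw_nonneg (S : Sys) (s : ℝ) (x : Finset S.P) : 0 ≤ pw s x :=
  Real.rpow_nonneg (Nat.cast_nonneg _) _

/-- the sum of the powers of the norms converges -/
theorem bbx_summable (S : Sys) (s : ℝ) (hs : 1 < s) :
    Summable fun x : Finset S.P => pw s x := by
  classical
  have h1 := summable_N S s hs
  have h0 : ∀ p : S.P, 0 ≤ (S.N p : ℝ) ^ (-s) := fun p =>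
    Real.rpow_nonneg (Nat.cast_nonneg _) _
  refine summable_of_sum_le (c := Real.exp (∑' p : S.P, (S.N p : ℝ) ^ (-s)))
    (fun x => bbx_pw_nonneg S s x) fun A => ?_
  calc ∑ x ∈ A, pw s x ≤ ∑ x ∈ (A.biUnion id).powerset, pw s x := by
        refine Finset.sum_le_sum_of_subset_of_nonneg (fun x hx => ?_)
          fun x _ _ => bbx_pw_nonneg S s x
        exact Finset.mem_powerset.2 (Finset.subset_biUnion_of_mem id hx)
    _ = ∏ p ∈ A.biUnion id, (1 + (S.N p : ℝ) ^ (-s)) := by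
        rw [Finset.prod_one_add]
        exact Finset.sum_congr rfl fun x _ => bbx_pw S s x
    _ ≤ Real.exp (∑ p ∈ A.biUnion id, (S.N p : ℝ) ^ (-s)) := by
        rw [Real.exp_sum]
        refine Finset.prod_le_prod (fun p _ => ?_) fun p _ => ?_
        · linarith [h0 p]
        · linarith [Real.add_one_le_exp ((S.N p : ℝ) ^ (-s))]
    _ ≤ _ := Real.exp_le_exp.2 (h1.sum_le_tsum _ fun p _ => h0 p)

/-- a polynomial times a geometric sequence -/
theorem bbx_geo (E : ℕ) (σ : ℝ) (h0 : 0 < σ) (h1 : σ ≤ 1) (n : ℕ) :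
    ∑ i ∈ Finset.range n, (1 + (i : ℝ)) ^ E * (2 : ℝ) ^ (-(σ * i)) ≤
      (E.factorial : ℝ) * (2 / σ) ^ (E + 1) := by
  have hq0 : (0 : ℝ) < (2 : ℝ) ^ (-σ) := Real.rpow_pos_of_pos two_pos _
  have hq1 : (2 : ℝ) ^ (-σ) ≤ 1 - σ / 2 := by
    have h := rpow_one_add_le_one_add_mul_self (s := -(1 / 2)) (p := σ) (by norm_num) h0.le h1
    have e : (2 : ℝ) ^ (-σ) = (1 + -(1 / 2)) ^ σ := by
      rw [Real.rpow_neg two_pos.le, ← Real.inv_rpow two_pos.le]
      norm_num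
    rw [e]
    linarith
  have hq2 : ‖(2 : ℝ) ^ (-σ)‖ < 1 := by
    rw [Real.norm_of_nonneg hq0.le]
    linarith
  have e1 : ∀ i : ℕ, (2 : ℝ) ^ (-(σ * i)) = ((2 : ℝ) ^ (-σ)) ^ i := by
    intro i
    rw [← Real.rpow_natCast, ← Real.rpow_mul two_pos.le, neg_mul]
  have e2 : ∀ i : ℕ, (1 + (i : ℝ)) ^ E ≤ (E.factorial : ℝ) * ((i + E).choose E : ℝ) := by
    intro i
    have h := Nat.pow_succ_le_ascFactorial (i + 1) E
    rw [Nat.ascFactorial_eq_factorial_mul_choose] at h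
    have h2 : (((i + 1) ^ E : ℕ) : ℝ) ≤ ((E.factorial * (i + E).choose E : ℕ) : ℝ) := by
      exact_mod_cast h
    push_cast at h2
    rw [add_comm (1 : ℝ)]
    exact h2
  have hsum := summable_choose_mul_geometric_of_norm_lt_one E hq2
  calc ∑ i ∈ Finset.range n, (1 + (i : ℝ)) ^ E * (2 : ℝ) ^ (-(σ * i))
      ≤ ∑ i ∈ Finset.range n, (E.factorial : ℝ) *
          (((i + E).choose E : ℝ) * ((2 : ℝ) ^ (-σ)) ^ i) := by
        refine Finset.sum_le_sum fun i _ => ?_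
        rw [e1, ← mul_assoc]
        exact mul_le_mul_of_nonneg_right (e2 i) (pow_nonneg hq0.le i)
    _ = (E.factorial : ℝ) * ∑ i ∈ Finset.range n,
          (((i + E).choose E : ℝ) * ((2 : ℝ) ^ (-σ)) ^ i) := by rw [Finset.mul_sum]
    _ ≤ (E.factorial : ℝ) * (1 / (1 - (2 : ℝ) ^ (-σ)) ^ (E + 1)) := by
        refine mul_le_mul_of_nonneg_left ?_ (Nat.cast_nonneg _)
        rw [← tsum_choose_mul_geometric_of_norm_lt_one E hq2]
        exact hsum.sum_le_tsum _ fun i _ => mul_nonneg (Nat.cast_nonneg _) (pow_nonneg hq0.le i)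
    _ ≤ _ := by
        refine mul_le_mul_of_nonneg_left ?_ (Nat.cast_nonneg _)
        rw [← one_div_pow]
        refine pow_le_pow_left₀ ?_ ?_ _
        · apply div_nonneg zero_le_one
          linarith
        · rw [div_le_div_iff₀ (by linarith) h0]
          linarith

section

variable (S : Sys)

/-- the dyadic level -/
noncomputable def bbx_lv (x : Finset S.P) : ℕ := Nat.clog 2 (S.nm x)

theorem bbx_lv_le {x : Finset S.P} {i : ℕ} : bbx_lv S x ≤ i ↔ S.nm x ≤ 2 ^ i :=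
  Nat.clog_le_iff_le_pow (by norm_num)

theorem bbx_lv_lt {x : Finset S.P} {i : ℕ} : i < bbx_lv S x ↔ 2 ^ i < S.nm x :=
  Nat.lt_clog_iff_pow_lt (by norm_num)

theorem bbx_mem {x : Finset S.P} {i : ℕ} : x ∈ S.bx ((2 : ℝ) ^ i) ↔ bbx_lv S x ≤ i := by
  rw [S.mem_bx, bbx_lv_le]
  exact_mod_cast Iff.rfl

open Classical in
/-- the term -/
noncomputable def bbx_t (a b : Finset S.P → ℝ) (s : ℝ) (J : ℕ) (x y : Finset S.P) : ℝ :=
  if Disjoint x y ∧ 2 ^ J < S.nm x ∧ 2 ^ J < S.nm y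
    then a x * b y * (S.jj x y : ℝ) * (pw s x * pw s y) else 0

theorem bbx_t_abs {a b : Finset S.P → ℝ} (ha : ∀ x, |a x| ≤ 1) (hb : ∀ x, |b x| ≤ 1) (s : ℝ)
    (J : ℕ) (x y : Finset S.P) : |bbx_t S a b s J x y| ≤ pw s x * pw s y := by
  unfold bbx_t
  have h0 : 0 ≤ pw s x * pw s y := mul_nonneg (bbx_pw_nonneg S s x) (bbx_pw_nonneg S s y)
  split_ifs with h
  · rw [abs_mul, abs_of_nonneg h0, abs_mul, abs_mul]
    have h1 : |((S.jj x y : ℤ) : ℝ)| = 1 := abs_sgr _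
    rw [h1, mul_one]
    have h2 : |a x| * |b y| ≤ 1 := mul_le_one₀ (ha x) (abs_nonneg _) (hb y)
    exact mul_le_of_le_one_left h0 h2
  · rw [abs_zero]
    exact h0

open Classical in
/-- the weights of a box -/
noncomputable def bbx_w (a : Finset S.P → ℝ) (s : ℝ) (i : ℕ) (x : Finset S.P) : ℝ :=
  if bbx_lv S x = i + 1 then a x * (pw s x * (2 : ℝ) ^ (s * i)) else 0

theorem bbx_w_abs {a : Finset S.P → ℝ} (ha : ∀ x, |a x| ≤ 1) {s : ℝ} (hs : 0 ≤ s) (i : ℕ)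
    (x : Finset S.P) : |bbx_w S a s i x| ≤ 1 := by
  unfold bbx_w
  split_ifs with h
  · have h0 : 0 ≤ pw s x * (2 : ℝ) ^ (s * i) :=
      mul_nonneg (bbx_pw_nonneg S s x) (Real.rpow_nonneg two_pos.le _)
    rw [abs_mul, abs_of_nonneg h0]
    refine mul_le_one₀ (ha x) h0 ?_
    have h1 : 2 ^ i < S.nm x := (bbx_lv_lt S).1 (by rw [h]; exact Nat.lt_succ_self i)
    have h2 : (2 : ℝ) ^ i ≤ S.nm x := by exact_mod_cast h1.le
    unfold pw
    rw [Real.rpow_neg (Nat.cast_nonneg _), mul_comm s, Real.rpow_mul two_pos.le,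
      Real.rpow_natCast, ← div_eq_inv_mul]
    have h3 : ((2 : ℝ) ^ i) ^ s ≤ (S.nm x : ℝ) ^ s := Real.rpow_le_rpow (by positivity) h2 hs
    have h4 : (0 : ℝ) < (S.nm x : ℝ) ^ s := Real.rpow_pos_of_pos (S.nm_posr x) _
    rw [div_le_one h4]
    exact h3
  · rw [abs_zero]
    exact zero_le_one

open Classical in
/-- the sum over a pair of levels -/
theorem bbx_level (a b : Finset S.P → ℝ) (s : ℝ) (J n i j : ℕ) (hi : J ≤ i) (hj : J ≤ j)
    (hin : i + 1 ≤ n) (hjn : j + 1 ≤ n) :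
    ∑ x ∈ (S.bx ((2 : ℝ) ^ n)).filter (fun x => bbx_lv S x = i + 1),
      ∑ y ∈ (S.bx ((2 : ℝ) ^ n)).filter (fun y => bbx_lv S y = j + 1), bbx_t S a b s J x y =
    (2 : ℝ) ^ (-(s * i)) * (2 : ℝ) ^ (-(s * j)) *
      ∑ x ∈ S.bx ((2 : ℝ) ^ (i + 1)), ∑ y ∈ S.bx ((2 : ℝ) ^ (j + 1)),
        (if Disjoint x y then bbx_w S a s i x * bbx_w S b s j y * (S.jj x y : ℝ) else 0) := by
  have e1 : ∀ {i : ℕ}, i + 1 ≤ n → (S.bx ((2 : ℝ) ^ n)).filter (fun x => bbx_lv S x = i + 1) =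
      (S.bx ((2 : ℝ) ^ (i + 1))).filter (fun x => bbx_lv S x = i + 1) := by
    intro i hi
    ext x
    rw [Finset.mem_filter, Finset.mem_filter, bbx_mem, bbx_mem]
    constructor
    · rintro ⟨-, h⟩
      exact ⟨h.le, h⟩
    · rintro ⟨-, h⟩
      exact ⟨h.le.trans hi, h⟩
  rw [e1 hin, e1 hjn, Finset.sum_filter, Finset.mul_sum]
  refine Finset.sum_congr rfl fun x _ => ?_
  by_cases hx : bbx_lv S x = i + 1
  · rw [if_pos hx, Finset.sum_filter, Finset.mul_sum]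
    refine Finset.sum_congr rfl fun y _ => ?_
    by_cases hy : bbx_lv S y = j + 1
    · rw [if_pos hy]
      unfold bbx_t bbx_w
      rw [if_pos hx, if_pos hy]
      by_cases hd : Disjoint x y
      · have hx2 : 2 ^ J < S.nm x := (bbx_lv_lt S).1 (by rw [hx]; exact Nat.lt_succ_of_le hi)
        have hy2 : 2 ^ J < S.nm y := (bbx_lv_lt S).1 (by rw [hy]; exact Nat.lt_succ_of_le hj)
        rw [if_pos ⟨hd, hx2, hy2⟩, if_pos hd]
        have p1 : (2 : ℝ) ^ (-(s * i)) * (2 : ℝ) ^ (s * i) = 1 := by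
          rw [← Real.rpow_add two_pos, neg_add_cancel, Real.rpow_zero]
        have p2 : (2 : ℝ) ^ (-(s * j)) * (2 : ℝ) ^ (s * j) = 1 := by
          rw [← Real.rpow_add two_pos, neg_add_cancel, Real.rpow_zero]
        calc a x * b y * (S.jj x y : ℝ) * (pw s x * pw s y)
            = (a x * b y * (S.jj x y : ℝ) * (pw s x * pw s y)) * 1 * 1 := by ring
          _ = (a x * b y * (S.jj x y : ℝ) * (pw s x * pw s y)) *
              ((2 : ℝ) ^ (-(s * i)) * (2 : ℝ) ^ (s * i)) *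
              ((2 : ℝ) ^ (-(s * j)) * (2 : ℝ) ^ (s * j)) := by rw [p1, p2]
          _ = _ := by ring
      · rw [if_neg hd, if_neg fun h => hd h.1, mul_zero]
    · rw [if_neg hy]
      have h0 : bbx_w S b s j y = 0 := by
        unfold bbx_w
        rw [if_neg hy]
      rw [h0, mul_zero, zero_mul, ite_self, mul_zero]
  · rw [if_neg hx]
    have h0 : bbx_w S a s i x = 0 := by
      unfold bbx_w
      rw [if_neg hx]
    symm
    apply mul_eq_zero_of_right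
    refine Finset.sum_eq_zero fun y _ => ?_
    rw [h0, zero_mul, zero_mul, ite_self]

open Classical in
/-- the bound for a pair of levels -/
theorem bbx_bound {C : ℝ} {E : ℕ} (hC : 0 ≤ C)
    (hbox : ∀ (M K P : ℝ) (a b : Finset S.P → ℝ), 1 ≤ P → P ≤ M → P ≤ K → (∀ x, |a x| ≤ 1) →
      (∀ y, |b y| ≤ 1) →
      |∑ x ∈ S.bx M, ∑ y ∈ S.bx K, (if Disjoint x y then a x * b y * (S.jj x y : ℝ) else 0)| ≤
        C * (M * K) * P ^ (-(2 * S.c0)) * (1 + Real.log (M * K)) ^ E)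
    {a b : Finset S.P → ℝ} (ha : ∀ x, |a x| ≤ 1) (hb : ∀ x, |b x| ≤ 1) {σ : ℝ} (h0 : 0 < σ)
    (J n i j : ℕ) (hin : i ≤ n) (hjn : j ≤ n) :
    |∑ x ∈ (S.bx ((2 : ℝ) ^ n)).filter (fun x => bbx_lv S x = i),
      ∑ y ∈ (S.bx ((2 : ℝ) ^ n)).filter (fun y => bbx_lv S y = j),
        bbx_t S a b (1 + σ) J x y| ≤
    16 * 4 ^ σ * C * (2 : ℝ) ^ (-(2 * S.c0 * J)) * (((1 + (i : ℝ)) ^ E * (2 : ℝ) ^ (-(σ * i))) *
      ((1 + (j : ℝ)) ^ E * (2 : ℝ) ^ (-(σ * j)))) := by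
  have hR : 0 ≤ 16 * 4 ^ σ * C * (2 : ℝ) ^ (-(2 * S.c0 * J)) *
      (((1 + (i : ℝ)) ^ E * (2 : ℝ) ^ (-(σ * i))) *
      ((1 + (j : ℝ)) ^ E * (2 : ℝ) ^ (-(σ * j)))) := by positivity
  rcases Nat.lt_or_ge J i with hi | hi
  · rcases Nat.lt_or_ge J j with hj | hj
    · obtain ⟨i, rfl⟩ : ∃ i', i = i' + 1 := ⟨i - 1, by omega⟩
      obtain ⟨j, rfl⟩ : ∃ j', j = j' + 1 := ⟨j - 1, by omega⟩
      rw [bbx_level S a b (1 + σ) J n i j (by omega) (by omega) hin hjn]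
      have hP1 : (1 : ℝ) ≤ (2 : ℝ) ^ J := one_le_pow₀ (by norm_num)
      have hPi : (2 : ℝ) ^ J ≤ (2 : ℝ) ^ (i + 1) := pow_le_pow_right₀ (by norm_num) hi.le
      have hPj : (2 : ℝ) ^ J ≤ (2 : ℝ) ^ (j + 1) := pow_le_pow_right₀ (by norm_num) hj.le
      have h1 := hbox ((2 : ℝ) ^ (i + 1)) ((2 : ℝ) ^ (j + 1)) ((2 : ℝ) ^ J)
        (bbx_w S a (1 + σ) i) (bbx_w S b (1 + σ) j) hP1 hPi hPj
        (bbx_w_abs S ha (by linarith) i) (bbx_w_abs S hb (by linarith) j)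
      have q0 : 0 ≤ (2 : ℝ) ^ (-((1 + σ) * i)) * (2 : ℝ) ^ (-((1 + σ) * j)) := by positivity
      rw [abs_mul, abs_of_nonneg q0]
      refine (mul_le_mul_of_nonneg_left h1 q0).trans ?_
      have e1 : ((2 : ℝ) ^ J) ^ (-(2 * S.c0)) = (2 : ℝ) ^ (-(2 * S.c0 * J)) := by
        rw [← Real.rpow_natCast, ← Real.rpow_mul two_pos.le]
        congr 1
        ring
      have e2 : Real.log ((2 : ℝ) ^ (i + 1) * (2 : ℝ) ^ (j + 1)) ≤
          ((i + 1 : ℕ) : ℝ) + ((j + 1 : ℕ) : ℝ) := by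
        rw [← pow_add, Real.log_pow]
        have h2 : Real.log 2 ≤ 1 := by linarith [Real.log_two_lt_d9]
        have h3 : (0 : ℝ) ≤ ((i + 1 + (j + 1) : ℕ) : ℝ) := Nat.cast_nonneg _
        calc ((i + 1 + (j + 1) : ℕ) : ℝ) * Real.log 2 ≤ ((i + 1 + (j + 1) : ℕ) : ℝ) * 1 :=
              mul_le_mul_of_nonneg_left h2 h3
          _ = _ := by push_cast; ring
      have e3 : (1 + Real.log ((2 : ℝ) ^ (i + 1) * (2 : ℝ) ^ (j + 1))) ^ E ≤
          (1 + ((i + 1 : ℕ) : ℝ)) ^ E * (1 + ((j + 1 : ℕ) : ℝ)) ^ E := by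
        rw [← mul_pow]
        have h4 : 0 ≤ Real.log ((2 : ℝ) ^ (i + 1) * (2 : ℝ) ^ (j + 1)) := by
          apply Real.log_nonneg
          exact one_le_mul_of_one_le_of_one_le (hP1.trans hPi) (hP1.trans hPj)
        refine pow_le_pow_left₀ (by linarith) ?_ E
        have h5 : (0 : ℝ) ≤ ((i + 1 : ℕ) : ℝ) := Nat.cast_nonneg _
        have h6 : (0 : ℝ) ≤ ((j + 1 : ℕ) : ℝ) := Nat.cast_nonneg _
        nlinarith
      have e4 : ∀ l : ℕ, (2 : ℝ) ^ (-((1 + σ) * l)) * (2 : ℝ) ^ (l + 1) =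
          4 * 2 ^ σ / 2 * (2 : ℝ) ^ (-(σ * ((l + 1 : ℕ) : ℝ))) := by
        intro l
        have h7 : (2 : ℝ) ^ (l + 1) = (2 : ℝ) ^ ((l + 1 : ℕ) : ℝ) := (Real.rpow_natCast _ _).symm
        have h8 : (4 * 2 ^ σ / 2 : ℝ) = (2 : ℝ) ^ (1 + σ) := by
          rw [Real.rpow_add two_pos, Real.rpow_one]
          ring
        rw [h7, h8, ← Real.rpow_add two_pos, ← Real.rpow_add two_pos]
        congr 1
        push_cast
        ring
      have e5 : (4 : ℝ) ^ σ = 2 ^ σ * 2 ^ σ := by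
        rw [← Real.mul_rpow two_pos.le two_pos.le]
        norm_num
      rw [e1]
      calc (2 : ℝ) ^ (-((1 + σ) * i)) * (2 : ℝ) ^ (-((1 + σ) * j)) *
            (C * ((2 : ℝ) ^ (i + 1) * (2 : ℝ) ^ (j + 1)) * (2 : ℝ) ^ (-(2 * S.c0 * J)) *
              (1 + Real.log ((2 : ℝ) ^ (i + 1) * (2 : ℝ) ^ (j + 1))) ^ E)
          = C * (((2 : ℝ) ^ (-((1 + σ) * i)) * (2 : ℝ) ^ (i + 1)) *
              ((2 : ℝ) ^ (-((1 + σ) * j)) * (2 : ℝ) ^ (j + 1))) * (2 : ℝ) ^ (-(2 * S.c0 * J)) *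
              (1 + Real.log ((2 : ℝ) ^ (i + 1) * (2 : ℝ) ^ (j + 1))) ^ E := by ring
        _ ≤ C * (((2 : ℝ) ^ (-((1 + σ) * i)) * (2 : ℝ) ^ (i + 1)) *
              ((2 : ℝ) ^ (-((1 + σ) * j)) * (2 : ℝ) ^ (j + 1))) * (2 : ℝ) ^ (-(2 * S.c0 * J)) *
              ((1 + ((i + 1 : ℕ) : ℝ)) ^ E * (1 + ((j + 1 : ℕ) : ℝ)) ^ E) :=
            mul_le_mul_of_nonneg_left e3 (by positivity)
        _ = 4 * 4 ^ σ * C * (2 : ℝ) ^ (-(2 * S.c0 * J)) *
            (((1 + ((i + 1 : ℕ) : ℝ)) ^ E * (2 : ℝ) ^ (-(σ * ((i + 1 : ℕ) : ℝ)))) *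
            ((1 + ((j + 1 : ℕ) : ℝ)) ^ E * (2 : ℝ) ^ (-(σ * ((j + 1 : ℕ) : ℝ))))) := by
            rw [e4, e4, e5]
            ring
        _ ≤ _ := by
            refine mul_le_mul_of_nonneg_right ?_ (by positivity)
            refine mul_le_mul_of_nonneg_right ?_ (by positivity)
            refine mul_le_mul_of_nonneg_right ?_ hC
            refine mul_le_mul_of_nonneg_right (by norm_num) (by positivity)
    · rw [Finset.sum_eq_zero, abs_zero]
      · exact hR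
      · intro x _
        refine Finset.sum_eq_zero fun y hy => ?_
        unfold bbx_t
        rw [if_neg]
        rintro ⟨-, -, h⟩
        rw [← bbx_lv_lt, (Finset.mem_filter.1 hy).2] at h
        omega
  · rw [Finset.sum_eq_zero, abs_zero]
    · exact hR
    · intro x hx
      refine Finset.sum_eq_zero fun y _ => ?_
      unfold bbx_t
      rw [if_neg]
      rintro ⟨-, h, -⟩
      rw [← bbx_lv_lt, (Finset.mem_filter.1 hx).2] at h
      omega

end

/-- A3a: two large linked variables, bounded weights -/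
theorem sBx0 : SBx0 := by
  classical
  intro S
  obtain ⟨C0, E, hbox0⟩ := box_sym S
  have hbox : ∀ (M K P : ℝ) (a b : Finset S.P → ℝ), 1 ≤ P → P ≤ M → P ≤ K → (∀ x, |a x| ≤ 1) →
      (∀ y, |b y| ≤ 1) →
      |∑ x ∈ S.bx M, ∑ y ∈ S.bx K, (if Disjoint x y then a x * b y * (S.jj x y : ℝ) else 0)| ≤
        |C0| * (M * K) * P ^ (-(2 * S.c0)) * (1 + Real.log (M * K)) ^ E := by
    intro M K P a b hP hM hK ha hb
    refine (hbox0 M K P a b hP hM hK ha hb).trans ?_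
    have hM1 : 1 ≤ M := hP.trans hM
    have hK1 : 1 ≤ K := hP.trans hK
    have h1 : 0 ≤ Real.log (M * K) := Real.log_nonneg (one_le_mul_of_one_le_of_one_le hM1 hK1)
    refine mul_le_mul_of_nonneg_right ?_ (pow_nonneg (by linarith) E)
    refine mul_le_mul_of_nonneg_right ?_ (Real.rpow_nonneg (by linarith) _)
    exact mul_le_mul_of_nonneg_right (le_abs_self C0) (mul_nonneg (by linarith) (by linarith))
  refine ⟨64 * |C0| * ((E.factorial : ℝ) * 2 ^ (E + 1)) ^ 2, 2 * ((E : ℝ) + 1), 2 * S.c0,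
    by positivity, by positivity, by have := S.c0_pos; positivity, ?_⟩
  intro a b ha hb σ J h0 h1
  have hsum : Summable fun z : Finset S.P × Finset S.P => bbx_t S a b (1 + σ) J z.1 z.2 := by
    have h2 := bbx_summable S (1 + σ) (by linarith)
    have h3 := h2.mul_of_nonneg h2 (fun x => bbx_pw_nonneg S _ x) (fun x => bbx_pw_nonneg S _ x)
    refine Summable.of_norm_bounded h3 fun z => ?_
    rw [Real.norm_eq_abs]
    exact bbx_t_abs S ha hb _ J z.1 z.2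
  have hBX : BX S a b (1 + σ) J = ∑' z : Finset S.P × Finset S.P,
      bbx_t S a b (1 + σ) J z.1 z.2 := rfl
  have hlim : Tendsto (fun n : ℕ => S.bx ((2 : ℝ) ^ n) ×ˢ S.bx ((2 : ℝ) ^ n)) atTop atTop := by
    refine tendsto_atTop_finset_of_monotone ?_ ?_
    · intro m n hmn
      have h4 : S.bx ((2 : ℝ) ^ m) ⊆ S.bx ((2 : ℝ) ^ n) :=
        S.bx_mono (pow_le_pow_right₀ (by norm_num) hmn)
      exact Finset.product_subset_product h4 h4
    · intro z
      refine ⟨max (bbx_lv S z.1) (bbx_lv S z.2), Finset.mem_product.2 ⟨?_, ?_⟩⟩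
      · rw [bbx_mem]
        exact le_max_left _ _
      · rw [bbx_mem]
        exact le_max_right _ _
  have hT := (hsum.hasSum.comp hlim).abs
  rw [hBX]
  refine le_of_tendsto' hT fun n => ?_
  show |∑ z ∈ S.bx ((2 : ℝ) ^ n) ×ˢ S.bx ((2 : ℝ) ^ n), bbx_t S a b (1 + σ) J z.1 z.2| ≤ _
  rw [Finset.sum_product]
  have hmap : ∀ x ∈ S.bx ((2 : ℝ) ^ n), bbx_lv S x ∈ Finset.range (n + 1) := fun x hx =>
    Finset.mem_range.2 (Nat.lt_succ_of_le ((bbx_mem S).1 hx))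
  have e1 : ∑ x ∈ S.bx ((2 : ℝ) ^ n), ∑ y ∈ S.bx ((2 : ℝ) ^ n), bbx_t S a b (1 + σ) J x y =
      ∑ i ∈ Finset.range (n + 1), ∑ j ∈ Finset.range (n + 1),
        ∑ x ∈ (S.bx ((2 : ℝ) ^ n)).filter (fun x => bbx_lv S x = i),
          ∑ y ∈ (S.bx ((2 : ℝ) ^ n)).filter (fun y => bbx_lv S y = j),
            bbx_t S a b (1 + σ) J x y := by
    rw [← Finset.sum_fiberwise_of_maps_to hmap
      (fun x => ∑ y ∈ S.bx ((2 : ℝ) ^ n), bbx_t S a b (1 + σ) J x y)]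
    refine Finset.sum_congr rfl fun i _ => ?_
    refine Eq.trans ?_ Finset.sum_comm
    refine Finset.sum_congr rfl fun x _ => ?_
    exact (Finset.sum_fiberwise_of_maps_to hmap (fun y => bbx_t S a b (1 + σ) J x y)).symm
  rw [e1]
  refine (Finset.abs_sum_le_sum_abs _ _).trans ?_
  calc ∑ i ∈ Finset.range (n + 1), |∑ j ∈ Finset.range (n + 1),
        ∑ x ∈ (S.bx ((2 : ℝ) ^ n)).filter (fun x => bbx_lv S x = i),
          ∑ y ∈ (S.bx ((2 : ℝ) ^ n)).filter (fun y => bbx_lv S y = j),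
            bbx_t S a b (1 + σ) J x y|
      ≤ ∑ i ∈ Finset.range (n + 1), ∑ j ∈ Finset.range (n + 1),
          16 * 4 ^ σ * |C0| * (2 : ℝ) ^ (-(2 * S.c0 * J)) *
            (((1 + (i : ℝ)) ^ E * (2 : ℝ) ^ (-(σ * i))) *
              ((1 + (j : ℝ)) ^ E * (2 : ℝ) ^ (-(σ * j)))) := by
        refine Finset.sum_le_sum fun i hi => ?_
        refine (Finset.abs_sum_le_sum_abs _ _).trans (Finset.sum_le_sum fun j hj => ?_)
        exact bbx_bound S (abs_nonneg C0) hbox ha hb h0 J n i j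
          (Nat.lt_succ_iff.1 (Finset.mem_range.1 hi)) (Nat.lt_succ_iff.1 (Finset.mem_range.1 hj))
    _ = 16 * 4 ^ σ * |C0| * (2 : ℝ) ^ (-(2 * S.c0 * J)) *
          (∑ i ∈ Finset.range (n + 1), (1 + (i : ℝ)) ^ E * (2 : ℝ) ^ (-(σ * i))) ^ 2 := by
        rw [pow_two (∑ i ∈ Finset.range (n + 1), (1 + (i : ℝ)) ^ E * (2 : ℝ) ^ (-(σ * i))),
          Finset.sum_mul_sum, Finset.mul_sum]
        refine Finset.sum_congr rfl fun i _ => ?_
        rw [Finset.mul_sum]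
    _ ≤ 64 * |C0| * (2 : ℝ) ^ (-(2 * S.c0 * J)) *
          ((E.factorial : ℝ) * (2 / σ) ^ (E + 1)) ^ 2 := by
        have g1 := bbx_geo E σ h0 h1 (n + 1)
        have g2 : 0 ≤ ∑ i ∈ Finset.range (n + 1), (1 + (i : ℝ)) ^ E * (2 : ℝ) ^ (-(σ * i)) :=
          Finset.sum_nonneg fun i _ => by positivity
        have g3 : (4 : ℝ) ^ σ ≤ 4 := by
          calc (4 : ℝ) ^ σ ≤ (4 : ℝ) ^ (1 : ℝ) :=
                Real.rpow_le_rpow_of_exponent_le (by norm_num) h1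
            _ = 4 := Real.rpow_one 4
        refine mul_le_mul ?_ (pow_le_pow_left₀ g2 g1 2) (by positivity) (by positivity)
        refine mul_le_mul_of_nonneg_right ?_ (by positivity)
        refine mul_le_mul_of_nonneg_right ?_ (abs_nonneg C0)
        linarith
    _ = _ := by
        have g4 : σ ^ (-(2 * ((E : ℝ) + 1))) = ((σ ^ (E + 1)) ^ 2)⁻¹ := by
          rw [Real.rpow_neg h0.le, ← pow_mul, ← Real.rpow_natCast σ ((E + 1) * 2)]
          congr 2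
          push_cast
          ring
        rw [g4, div_pow]
        field_simp

end Pool.Agent.D8
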