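import Pool.Agent.D8.Stm

/-!
# Malle's conjecture for the dihedral group of order 16, row B3: sets of unlinked types

Linked types are the points in one row or one column of a `4 × 4` grid, with rows
`(i + j + k, j + l)` and columns `(i + j + l, j + k + l)`.
-/

set_option autoImplicit false

open scoped BigOperators

namespace Pool.Agent.D8

namespace BC16

/-- the row of a type -/
def rw' (s : V × V) : V := (s.1.1 + s.1.2 + s.2.1, s.1.2 + s.2.2)

/-- the column of a type -/
def cl' (s : V × V) : V := (s.1.1 + s.1.2 + s.2.2, s.1.2 + s.2.1 + s.2.2)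

/-- the class of the point with given row and column -/
def cls (r c : V) : V := (c.1 + r.2, r.1 + c.1 + c.2)

theorem row_lk : ∀ s t : V × V, rw' s = rw' t → ¬ (φ16 s t + φ16 t s = 1) → s = t := by
  decide

theorem col_lk : ∀ s t : V × V, cl' s = cl' t → ¬ (φ16 s t + φ16 t s = 1) → s = t := by
  decide

theorem fst_eq : ∀ s : V × V, s.1 = cls (rw' s) (cl' s) := by
  decide

/-- the four classes -/
def st (a b c d : V) : Finset V := {cls (0, 0) a, cls (0, 1) b, cls (1, 0) c, cls (1, 1) d}

/-- pairwise different -/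
def df (a b c d : V) : Prop := a ≠ b ∧ a ≠ c ∧ a ≠ d ∧ b ≠ c ∧ b ≠ d ∧ c ≠ d

instance (a b c d : V) : Decidable (df a b c d) := by
  unfold df
  infer_instance

theorem perm : ∀ a b c d : V, df a b c d → 3 ≤ (st a b c d).card →
    st a b c d = Finset.univ := by
  decide

theorem row_inj {U : Finset (V × V)} (h : Ind φ16 U) : Set.InjOn rw' (U : Set (V × V)) :=
  fun s hs t ht e => row_lk s t e (h s hs t ht)

theorem col_inj {U : Finset (V × V)} (h : Ind φ16 U) : Set.InjOn cl' (U : Set (V × V)) :=
  fun s hs t ht e => col_lk s t e (h s hs t ht)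

theorem card_le {U : Finset (V × V)} (h : Ind φ16 U) : U.card ≤ 4 := by
  have h1 := Finset.card_le_card_of_injOn (t := (Finset.univ : Finset V)) rw'
    (fun _ _ => Finset.mem_coe.2 (Finset.mem_univ _)) (row_inj h)
  exact h1.trans (le_of_eq (by decide))

theorem four {U : Finset (V × V)} (h : Ind φ16 U) (h4 : U.card = 4)
    (h3 : 3 ≤ (U.image Prod.fst).card) :
    U.image Prod.fst = Finset.univ ∧ Set.InjOn Prod.fst (U : Set (V × V)) := by
  have h5 : U.image rw' = Finset.univ := by
    apply Finset.eq_univ_of_card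
    rw [Finset.card_image_iff.2 (row_inj h), h4]
    decide
  have h6 : ∀ r : V, ∃ u ∈ U, rw' u = r := fun r => by
    have : r ∈ U.image rw' := by rw [h5]; exact Finset.mem_univ r
    exact Finset.mem_image.1 this
  choose u hu hr using h6
  have hne : ∀ r r' : V, r ≠ r' → cl' (u r) ≠ cl' (u r') := by
    intro r r' hrr e
    have := col_inj h (hu r) (hu r') e
    apply hrr
    rw [← hr r, ← hr r', this]
  have hI : U.image Prod.fst = ({cls (0, 0) (cl' (u (0, 0))), cls (0, 1) (cl' (u (0, 1))),
      cls (1, 0) (cl' (u (1, 0))), cls (1, 1) (cl' (u (1, 1)))} : Finset V) := by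
    have hV : ∀ r : V, r = (0, 0) ∨ r = (0, 1) ∨ r = (1, 0) ∨ r = (1, 1) := by decide
    have hf : ∀ r : V, (u r).1 = cls r (cl' (u r)) := fun r => by
      have := fst_eq (u r)
      rwa [hr r] at this
    ext x
    rw [Finset.mem_image]
    simp only [Finset.mem_insert, Finset.mem_singleton]
    constructor
    · rintro ⟨s, hs, rfl⟩
      have h7 : s = u (rw' s) := row_inj h hs (hu _) (hr _).symm
      rcases hV (rw' s) with e | e | e | e
      · rw [e] at h7; rw [h7]; exact Or.inl (hf _)
      · rw [e] at h7; rw [h7]; exact Or.inr (Or.inl (hf _))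
      · rw [e] at h7; rw [h7]; exact Or.inr (Or.inr (Or.inl (hf _)))
      · rw [e] at h7; rw [h7]; exact Or.inr (Or.inr (Or.inr (hf _)))
    · rintro (e | e | e | e)
      · exact ⟨u (0, 0), hu _, (hf _).trans e.symm⟩
      · exact ⟨u (0, 1), hu _, (hf _).trans e.symm⟩
      · exact ⟨u (1, 0), hu _, (hf _).trans e.symm⟩
      · exact ⟨u (1, 1), hu _, (hf _).trans e.symm⟩
  have hU : U.image Prod.fst = Finset.univ := by
    rw [hI]
    rw [hI] at h3
    exact perm _ _ _ _ ⟨hne _ _ (by decide), hne _ _ (by decide), hne _ _ (by decide),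
      hne _ _ (by decide), hne _ _ (by decide), hne _ _ (by decide)⟩ h3
  refine ⟨hU, Finset.card_image_iff.1 ?_⟩
  rw [hU, h4]
  decide

theorem p4 : ∀ U : Finset V, (∀ u ∈ U, ∀ v ∈ U, ¬ (φ4 u v + φ4 v u = 1)) → U.card ≤ 2 ∧
    (U.card = 2 → U.image Prod.fst = Finset.univ →
      U = {(0, 0), (1, 0)} ∨ U = {(0, 1), (1, 1)}) := by
  decide

end BC16

theorem sC16 : SC16 := by
  refine ⟨fun U h => BC16.card_le h, fun U h h4 h3 => ?_, fun U h => (BC16.p4 U h).1,
    fun U h h2 h1 => ?_, ?_, ?_⟩
  · convert BC16.four h h4 (by convert h3)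
  · have := (BC16.p4 U h).2 h2 (by convert h1)
    convert this
  · intro u hu v hv
    have key : ∀ u v : V, (u = (0, 0) ∨ u = (1, 0)) → (v = (0, 0) ∨ v = (1, 0)) →
        ¬ (φ4 u v + φ4 v u = 1) := by decide
    simp only [Finset.mem_insert, Finset.mem_singleton] at hu hv
    exact key u v hu hv
  · intro u hu v hv
    have key : ∀ u v : V, (u = (0, 1) ∨ u = (1, 1)) → (v = (0, 1) ∨ v = (1, 1)) →
        ¬ (φ4 u v + φ4 v u = 1) := by decide
    simp only [Finset.mem_insert, Finset.mem_singleton] at hu hv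
    exact key u v hu hv

end Pool.Agent.D8
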