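import Pool.Agent.D8.Stm
import Pool.Agent.H98.MF.SCount

/-!
# Malle's conjecture for the dihedral group of order 16, row W2: Cauchy and Schwarz
-/

set_option autoImplicit false

open scoped BigOperators Topology
open Filter

namespace Pool.Agent.D8

open Pool.Agent.H98.MK (sg)
open Pool.Agent.H98.MF

namespace CS

/-- the number of primes -/
theorem card_pr_le (S : Sys) : ∃ C : ℝ, 1 ≤ C ∧ ∀ X : ℝ, 1 ≤ X →
    ((S.pr X).card : ℝ) ≤ C * X := by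
  obtain ⟨C, hC⟩ := card_bx_le S
  refine ⟨max C 1, le_max_right _ _, fun X hX => ?_⟩
  have h1 : (S.pr X).card ≤ (S.bx X).card := by
    refine Finset.card_le_card_of_injOn (fun p => {p}) (fun p hp => ?_)
      (fun p _ q _ h => Finset.singleton_injective h)
    have hp1 : p ∈ S.pr X := hp
    rw [S.mem_pr (by linarith)] at hp1
    rw [Finset.mem_coe, S.mem_bx]
    unfold Pre.nm
    rw [Finset.prod_singleton]
    exact hp1
  have h2 : ((S.pr X).card : ℝ) ≤ ((S.bx X).card : ℝ) := by exact_mod_cast h1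
  exact (h2.trans (hC X hX)).trans (mul_le_mul_of_nonneg_right (le_max_left _ _) (by linarith))

theorem abs_t3 {S : Sys} (c : Co S) (R : (V → Finset S.P) → ℝ) (hR : ∀ x, |R x| ≤ 1)
    (w : V → Finset S.P) (x y z : S.P) : |t3 c R w x y z| ≤ 1 := by
  unfold t3
  split_ifs
  · exact hR _
  · rw [abs_zero]
    exact zero_le_one

/-- the inequality for bounded functions of three variables -/
theorem core {P : Type} [DecidableEq P] (PX PY PZ : Finset P) (T : P → P → P → ℝ)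
    (hT : ∀ x y z, |T x y z| ≤ 1) (α β γ : P → ℝ) (hα : ∀ p, |α p| ≤ 1) (hβ : ∀ p, |β p| ≤ 1)
    (hγ : ∀ p, |γ p| ≤ 1) (b : ℝ) (hb : 0 ≤ b)
    (hB : ∀ x ∈ PX, ∀ x' ∈ PX, x ≠ x' → |∑ y ∈ PY, ∑ z ∈ PZ, T x y z * T x' y z| ≤ b) :
    (∑ x ∈ PX, ∑ y ∈ PY, ∑ z ∈ PZ, α x * β y * γ z * T x y z) ^ 2 ≤
      (PY.card * PZ.card : ℝ) * (PX.card * (PY.card * PZ.card) + (PX.card : ℝ) ^ 2 * b) := by
  have h1 : ∑ x ∈ PX, ∑ y ∈ PY, ∑ z ∈ PZ, α x * β y * γ z * T x y z =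
      ∑ q ∈ PY ×ˢ PZ, (β q.1 * γ q.2) * ∑ x ∈ PX, α x * T x q.1 q.2 := by
    have h2 : ∀ x ∈ PX, ∑ y ∈ PY, ∑ z ∈ PZ, α x * β y * γ z * T x y z =
        ∑ q ∈ PY ×ˢ PZ, (β q.1 * γ q.2) * (α x * T x q.1 q.2) := by
      intro x _
      rw [Finset.sum_product]
      refine Finset.sum_congr rfl fun y _ => Finset.sum_congr rfl fun z _ => ?_
      ring
    rw [Finset.sum_congr rfl h2, Finset.sum_comm]
    refine Finset.sum_congr rfl fun q _ => ?_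
    rw [Finset.mul_sum]
  rw [h1]
  refine (Finset.sum_mul_sq_le_sq_mul_sq _ _ _).trans ?_
  have hQ : ((PY ×ˢ PZ).card : ℝ) = PY.card * PZ.card := by
    rw [Finset.card_product]
    push_cast
    rfl
  have h3 : ∑ q ∈ PY ×ˢ PZ, (β q.1 * γ q.2) ^ 2 ≤ (PY.card * PZ.card : ℝ) := by
    rw [← hQ]
    refine (Finset.sum_le_card_nsmul _ _ 1 fun q _ => ?_).trans ?_
    · rw [← sq_abs, abs_mul]
      have h4 : |β q.1| * |γ q.2| ≤ 1 := mul_le_one₀ (hβ _) (abs_nonneg _) (hγ _)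
      exact pow_le_one₀ (mul_nonneg (abs_nonneg _) (abs_nonneg _)) h4
    · rw [nsmul_eq_mul, mul_one]
  have h4 : ∑ q ∈ PY ×ˢ PZ, (∑ x ∈ PX, α x * T x q.1 q.2) ^ 2 =
      ∑ x ∈ PX, ∑ x' ∈ PX, α x * α x' * ∑ y ∈ PY, ∑ z ∈ PZ, T x y z * T x' y z := by
    have h5 : ∀ q ∈ PY ×ˢ PZ, (∑ x ∈ PX, α x * T x q.1 q.2) ^ 2 =
        ∑ x ∈ PX, ∑ x' ∈ PX, α x * α x' * (T x q.1 q.2 * T x' q.1 q.2) := by
      intro q _
      rw [sq, Finset.sum_mul_sum]
      refine Finset.sum_congr rfl fun x _ => Finset.sum_congr rfl fun x' _ => ?_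
      ring
    rw [Finset.sum_congr rfl h5, Finset.sum_comm]
    refine Finset.sum_congr rfl fun x _ => ?_
    rw [Finset.sum_comm]
    refine Finset.sum_congr rfl fun x' _ => ?_
    rw [← Finset.sum_product', Finset.mul_sum]
  have h6 : ∀ x ∈ PX, ∀ x' ∈ PX, α x * α x' * ∑ y ∈ PY, ∑ z ∈ PZ, T x y z * T x' y z ≤
      (if x = x' then (PY.card * PZ.card : ℝ) else 0) + b := by
    intro x hx x' hx'
    have ha : |α x * α x'| ≤ 1 := by
      rw [abs_mul]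
      exact mul_le_one₀ (hα _) (abs_nonneg _) (hα _)
    have hle : α x * α x' * ∑ y ∈ PY, ∑ z ∈ PZ, T x y z * T x' y z ≤
        |∑ y ∈ PY, ∑ z ∈ PZ, T x y z * T x' y z| := by
      refine (le_abs_self _).trans ?_
      rw [abs_mul]
      exact mul_le_of_le_one_left (abs_nonneg _) ha
    by_cases h : x = x'
    · rw [if_pos h]
      refine hle.trans ?_
      have h7 : |∑ y ∈ PY, ∑ z ∈ PZ, T x y z * T x' y z| ≤ (PY.card * PZ.card : ℝ) := by
        rw [← Finset.sum_product', ← hQ]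
        refine (Finset.abs_sum_le_sum_abs _ _).trans ?_
        refine (Finset.sum_le_card_nsmul _ _ 1 fun q _ => ?_).trans ?_
        · rw [abs_mul]
          exact mul_le_one₀ (hT _ _ _) (abs_nonneg _) (hT _ _ _)
        · rw [nsmul_eq_mul, mul_one]
      linarith
    · rw [if_neg h, zero_add]
      exact hle.trans (hB x hx x' hx' h)
  have h8 : ∑ x ∈ PX, ∑ x' ∈ PX, α x * α x' * ∑ y ∈ PY, ∑ z ∈ PZ, T x y z * T x' y z ≤
      PX.card * (PY.card * PZ.card) + (PX.card : ℝ) ^ 2 * b := by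
    calc _ ≤ ∑ x ∈ PX, ∑ x' ∈ PX, ((if x = x' then (PY.card * PZ.card : ℝ) else 0) + b) :=
          Finset.sum_le_sum fun x hx => Finset.sum_le_sum fun x' hx' => h6 x hx x' hx'
      _ = ∑ x ∈ PX, ((PY.card * PZ.card : ℝ) + PX.card * b) := by
          refine Finset.sum_congr rfl fun x hx => ?_
          rw [Finset.sum_add_distrib, Finset.sum_ite_eq, if_pos hx, Finset.sum_const,
            nsmul_eq_mul]
      _ = _ := by
          rw [Finset.sum_const, nsmul_eq_mul]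
          ring
  rw [h4]
  have h9 : (0 : ℝ) ≤ PX.card * (PY.card * PZ.card) + (PX.card : ℝ) ^ 2 * b := by positivity
  calc _ ≤ (∑ q ∈ PY ×ˢ PZ, (β q.1 * γ q.2) ^ 2) *
        (PX.card * (PY.card * PZ.card) + (PX.card : ℝ) ^ 2 * b) :=
        mul_le_mul_of_nonneg_left h8 (Finset.sum_nonneg fun _ _ => sq_nonneg _)
    _ ≤ _ := mul_le_mul_of_nonneg_right h3 h9

end CS

/-- row W2: the inequality of Cauchy and Schwarz -/
theorem sCS : SCS := by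
  classical
  rintro S c R hR ⟨C, A, η, hA, hη, hB⟩
  obtain ⟨C1, hC1, hpr⟩ := CS.card_pr_le S
  have hC0 : 0 < C1 := lt_of_lt_of_le one_pos hC1
  refine ⟨1 + C1 ^ 5 + C1 ^ 4 * |C|, A, η / 2, hA, by positivity,
    fun w α β γ hα hβ hγ X Y Z hX hY hZ => ?_⟩
  have hX0 : 0 < X := by linarith
  have hY0 : 0 < Y := by linarith
  have hZ0 : 0 < Z := by linarith
  obtain ⟨m, hm⟩ : ∃ m, m = min Y Z := ⟨_, rfl⟩
  have hm1 : 1 ≤ m := by
    rw [hm]
    exact le_min hY hZ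
  have hm0 : 0 < m := by linarith
  obtain ⟨b, hb⟩ : ∃ b, b = |C| * X ^ (2 * A) * (Y * Z) * m ^ (-η) := ⟨_, rfl⟩
  have hb0 : 0 ≤ b := by
    rw [hb]
    positivity
  have hcore := CS.core (S.pr X) (S.pr Y) (S.pr Z) (fun x y z => t3 c R w x y z)
    (fun x y z => CS.abs_t3 c R hR w x y z) α β γ hα hβ hγ b hb0 (by
      intro x hx x' hx' hne
      have h1 := hB w x x' hne (fun _ => 1) (fun _ => 1) (fun _ => by simp) (fun _ => by simp)
        Y Z hY hZ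
      simp only [one_mul] at h1
      refine h1.trans ?_
      rw [S.mem_pr hX0.le] at hx hx'
      have h2 : ((S.N x : ℝ) * S.N x') ^ A ≤ X ^ (2 * A) := by
        rw [Real.rpow_mul hX0.le]
        refine Real.rpow_le_rpow (by positivity) ?_ hA
        have h3 : X ^ (2 : ℝ) = X * X := by
          rw [Real.rpow_two, sq]
        rw [h3]
        exact mul_le_mul hx hx' (Nat.cast_nonneg _) hX0.le
      rw [hb, hm]
      gcongr
      exact le_abs_self _)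
  have hx1 : ((S.pr X).card : ℝ) ≤ C1 * X := hpr X hX
  have hy1 : ((S.pr Y).card : ℝ) ≤ C1 * Y := hpr Y hY
  have hz1 : ((S.pr Z).card : ℝ) ≤ C1 * Z := hpr Z hZ
  obtain ⟨K, hK⟩ : ∃ K, K = 1 + C1 ^ 5 + C1 ^ 4 * |C| := ⟨_, rfl⟩
  have hK1 : 1 ≤ K := by
    rw [hK]
    have : 0 ≤ C1 ^ 5 + C1 ^ 4 * |C| := by positivity
    linarith
  rw [← hK]
  have hu0 : 0 ≤ X ^ (-(1 / 2) : ℝ) := Real.rpow_nonneg hX0.le _
  have hv0 : 0 ≤ X ^ A * min Y Z ^ (-(η / 2)) := by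
    rw [← hm]
    positivity
  have hrhs : 0 ≤ K * (X * Y * Z) * (X ^ (-(1 / 2) : ℝ) + X ^ A * min Y Z ^ (-(η / 2))) :=
    mul_nonneg (by positivity) (add_nonneg hu0 hv0)
  refine abs_le_of_sq_le_sq ?_ hrhs
  have hup : (∑ x ∈ S.pr X, ∑ y ∈ S.pr Y, ∑ z ∈ S.pr Z, α x * β y * γ z * t3 c R w x y z) ^ 2 ≤
      (C1 * Y * (C1 * Z)) * (C1 * X * (C1 * Y * (C1 * Z)) + (C1 * X) ^ 2 * b) := by
    refine hcore.trans ?_
    gcongr
  refine hup.trans ?_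
  have e1 : X * X ^ (-(1 : ℝ)) = 1 := by
    rw [Real.rpow_neg hX0.le, Real.rpow_one]
    exact mul_inv_cancel₀ hX0.ne'
  have e2 : (X ^ (-(1 / 2) : ℝ)) ^ 2 = X ^ (-(1 : ℝ)) := by
    rw [← Real.rpow_natCast, ← Real.rpow_mul hX0.le]
    norm_num
  have e3 : (X ^ A * min Y Z ^ (-(η / 2))) ^ 2 = X ^ (2 * A) * m ^ (-η) := by
    rw [← hm, mul_pow, ← Real.rpow_natCast, ← Real.rpow_natCast, ← Real.rpow_mul hX0.le,
      ← Real.rpow_mul hm0.le]
    congr 2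
    · push_cast
      ring
    · push_cast
      ring
  have hlow : K ^ 2 * (X * Y * Z) ^ 2 * (X ^ (-(1 : ℝ)) + X ^ (2 * A) * m ^ (-η)) ≤
      (K * (X * Y * Z) * (X ^ (-(1 / 2) : ℝ) + X ^ A * min Y Z ^ (-(η / 2)))) ^ 2 := by
    have e4 : (K * (X * Y * Z) * (X ^ (-(1 / 2) : ℝ) + X ^ A * min Y Z ^ (-(η / 2)))) ^ 2 =
        K ^ 2 * (X * Y * Z) ^ 2 * (X ^ (-(1 / 2) : ℝ) + X ^ A * min Y Z ^ (-(η / 2))) ^ 2 := by
      ring
    rw [e4]
    have e5 : (0 : ℝ) ≤ K ^ 2 * (X * Y * Z) ^ 2 := by positivity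
    refine mul_le_mul_of_nonneg_left ?_ e5
    rw [← e2, ← e3]
    nlinarith [mul_nonneg hu0 hv0]
  refine le_trans ?_ hlow
  have hKK : K ≤ K ^ 2 := by nlinarith
  have h10 : (C1 * Y * (C1 * Z)) * (C1 * X * (C1 * Y * (C1 * Z)) + (C1 * X) ^ 2 * b) =
      (X * Y * Z) ^ 2 * (C1 ^ 5 * X ^ (-(1 : ℝ)) + C1 ^ 4 * |C| * (X ^ (2 * A) * m ^ (-η))) := by
    rw [hb]
    have h11 : (X * Y * Z) ^ 2 * (C1 ^ 5 * X ^ (-(1 : ℝ))) =
        C1 ^ 5 * (X * X ^ (-(1 : ℝ))) * X * (Y * Z) ^ 2 := by ring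
    rw [mul_add, mul_add, h11, e1]
    ring
  rw [h10]
  have h12 : C1 ^ 5 * X ^ (-(1 : ℝ)) + C1 ^ 4 * |C| * (X ^ (2 * A) * m ^ (-η)) ≤
      K ^ 2 * (X ^ (-(1 : ℝ)) + X ^ (2 * A) * m ^ (-η)) := by
    have h13 : 0 ≤ X ^ (-(1 : ℝ)) := Real.rpow_nonneg hX0.le _
    have h14 : 0 ≤ X ^ (2 * A) * m ^ (-η) := by positivity
    have h15 : C1 ^ 5 ≤ K ^ 2 := by
      refine le_trans ?_ hKK
      rw [hK]
      have : 0 ≤ C1 ^ 4 * |C| := by positivity
      linarith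
    have h16 : C1 ^ 4 * |C| ≤ K ^ 2 := by
      refine le_trans ?_ hKK
      rw [hK]
      have : 0 ≤ C1 ^ 5 := by positivity
      linarith
    rw [mul_add]
    exact add_le_add (mul_le_mul_of_nonneg_right h15 h13) (mul_le_mul_of_nonneg_right h16 h14)
  calc _ ≤ (X * Y * Z) ^ 2 * (K ^ 2 * (X ^ (-(1 : ℝ)) + X ^ (2 * A) * m ^ (-η))) :=
        mul_le_mul_of_nonneg_left h12 (by positivity)
    _ = _ := by ring

end Pool.Agent.D8
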