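import Pool.Agent.D8.BDb0

/-!
# The dihedral group of order 16 over number fields, row M2: the limits of the double sums
-/

set_option autoImplicit false

open scoped BigOperators Topology
open Filter

namespace Pool.Agent.D8

open Pool.Agent.H98.MK (sg)
open Pool.Agent.H98.MF
open Pool.Agent.H32.MQ (El pw)

namespace BDb

section

variable {S : Sys} {B : ℝ} {τ : S.P → ℝ}

/-- the value of a character at a prime -/
noncomputable def ch (c : S.T) (p : S.P) : ℝ := ((sg (c ⬝ᵥ S.ty p) : ℤ) : ℝ)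

theorem ch_cases (c : S.T) (p : S.P) : ch c p = 1 ∨ ch c p = -1 := by
  unfold ch
  have h : ∀ t : ZMod 2, t = 0 ∨ t = 1 := by decide
  rcases h (c ⬝ᵥ S.ty p) with h | h
  · left
    rw [h, sg_zero]
    norm_num
  · right
    rw [h, sg_one]
    norm_num

theorem ch_abs (c : S.T) (p : S.P) : |ch c p| = 1 := by
  rcases ch_cases c p with h | h <;> rw [h] <;> norm_num

theorem ch_zero (p : S.P) : ch (0 : S.T) p = 1 := by
  unfold ch
  rw [zero_dotProduct, sg_zero]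
  norm_num

/-- the weighted character -/
noncomputable def uu (τ : S.P → ℝ) (c : S.T) (σ : ℝ) (p : S.P) : ℝ := ch c p * τ p * xx S p σ

theorem uu_norm (hτ : Tk S B τ) (c : S.T) (σ : ℝ) (hσ : 0 < σ) :
    Summable fun p : S.P => ‖uu τ c σ p‖ := by
  refine wt_norm (fun p => ch c p * τ p) (1 + |B|) (fun p => ?_) σ hσ
  rw [abs_mul, ch_abs, one_mul]
  exact tk_abs hτ p

theorem sg_tys (c : S.T) (x : Finset S.P) :
    ((sg (c ⬝ᵥ S.tys x) : ℤ) : ℝ) = ∏ p ∈ x, ch c p := by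
  rw [S.dot_tys, sg_sum, Int.cast_prod]
  rfl

/-- the double sum in terms of sums over sets -/
theorem ds_eq (hτ : Tk S B τ) (c d : S.T) (σ : ℝ) (hσ : 0 < σ) :
    DS τ c d (1 + σ) = E1 (fun p => uu τ c σ p + uu τ d σ p) - E1 (uu τ c σ) -
      E1 (uu τ d σ) + 1 := by
  classical
  rw [← pairs_eq (uu τ c σ) (uu τ d σ) (uu_norm hτ c σ hσ) (uu_norm hτ d σ hσ)]
  unfold DS
  refine tsum_congr fun z => ?_
  refine if_congr Iff.rfl ?_ rfl
  rw [sg_add, Int.cast_mul, sg_tys, sg_tys]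
  have h1 : ∀ (e : S.T) (x : Finset S.P), ∏ p ∈ x, uu τ e σ p =
      (∏ p ∈ x, ch e p) * ∏ p ∈ x, τ p * (S.N p : ℝ) ^ (-(1 + σ)) := by
    intro e x
    rw [← Finset.prod_mul_distrib]
    refine Finset.prod_congr rfl fun p _ => ?_
    unfold uu xx
    ring
  rw [h1, h1]
  ring

/-- sums over sets with one character are small -/
theorem e1_le (h2 : ST1) (hτ : Tk S B τ) : ∃ C : ℝ, ∀ (c : S.T) (σ : ℝ), 0 < σ → σ ≤ 1 →
    |E1 (uu τ c σ)| ≤ C * σ ^ (-(1 : ℝ)) := by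
  obtain ⟨C, _, hC⟩ := h2 S B 1 0 zero_le_one one_le_two
  refine ⟨C, fun c σ hσ hσ1 => ?_⟩
  obtain ⟨h3, h4, _⟩ := hC τ hτ σ hσ hσ1
  have h5 : ∀ x : Finset S.P, ‖∏ p ∈ x, uu τ c σ p‖ =
      (∏ p ∈ x, 1 * τ p) * ls S x ^ 0 * pw (1 + σ) x := by
    intro x
    rw [pow_zero, mul_one, norm_prod]
    unfold pw
    rw [Pool.Agent.H32.MQ.eq1_nm_rpow S.toPre x, ← Finset.prod_mul_distrib]
    refine Finset.prod_congr rfl fun p _ => ?_
    unfold uu
    rw [Real.norm_eq_abs, abs_mul, abs_mul, ch_abs, one_mul, one_mul, abs_of_nonneg (hτ p).1,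
      abs_of_nonneg (xx_nonneg p σ)]
    rfl
  have h6 : Summable fun x : Finset S.P => ‖∏ p ∈ x, uu τ c σ p‖ :=
    h3.congr fun x => (h5 x).symm
  have h7 := norm_tsum_le_tsum_norm h6
  rw [Real.norm_eq_abs, tsum_congr h5] at h7
  exact h7.trans h4

/-- the prime sums of the characters -/
theorem ch_sum (c : S.T) : ∃ K : ℝ, ∀ σ : ℝ, 0 < σ → σ ≤ 1 →
    ∑' p : S.P, ch c p * xx S p σ ≤ (if c = 0 then Real.log (1 / σ) else 0) + K := by
  by_cases hc : c = 0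
  · subst hc
    obtain ⟨K, hK⟩ := S.prm0
    refine ⟨K, fun σ hσ hσ1 => ?_⟩
    rw [if_pos rfl]
    have h1 := (abs_le.1 (hK (1 + σ) (by linarith) (by linarith))).2
    have h2 : ∑' p : S.P, ch (0 : S.T) p * xx S p σ = ∑' p : S.P, (S.N p : ℝ) ^ (-(1 + σ)) :=
      tsum_congr fun p => by rw [ch_zero, one_mul]; rfl
    rw [h2]
    have h3 : 1 + σ - 1 = σ := by ring
    rw [h3] at h1
    linarith
  · obtain ⟨K, hK⟩ := S.prm ∅ c (Or.inr hc)
    refine ⟨K, fun σ hσ hσ1 => ?_⟩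
    rw [if_neg hc, zero_add]
    have h1 := (abs_le.1 (hK (1 + σ) (by linarith) (by linarith))).2
    refine le_trans (le_of_eq (tsum_congr fun p => ?_)) h1
    unfold ch xx Pre.chp
    rw [if_neg (Finset.notMem_empty p)]
    simp only [Finset.sum_empty, zero_add]

/-- sums over sets with two characters, not both trivial, are small -/
theorem e2_le (h : SExp) (hτ : Tk S B τ) (c d : S.T) (hcd : c ≠ 0 ∨ d ≠ 0) : ∃ C : ℝ,
    ∀ σ : ℝ, 0 < σ → σ ≤ 1 →
    |E1 (fun p => uu τ c σ p + uu τ d σ p)| ≤ C * σ ^ (-(1 : ℝ)) := by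
  obtain ⟨K1, hK1⟩ := ch_sum c
  obtain ⟨K2, hK2⟩ := ch_sum d
  have s1 := summable_N S (3 / 2) (by norm_num)
  have s2 := summable_N S 2 (by norm_num)
  set D1 : ℝ := 2 * |B| * ∑' p : S.P, (S.N p : ℝ) ^ (-(3 / 2) : ℝ) with hD1
  set D2 : ℝ := 4 * (1 + |B|) ^ 2 * ∑' p : S.P, (S.N p : ℝ) ^ (-(2 : ℝ)) with hD2
  refine ⟨Real.exp (K1 + K2 + D1 + D2), fun σ hσ hσ1 => ?_⟩
  have n1 := uu_norm hτ c σ hσ
  have n2 := uu_norm hτ d σ hσ
  have hu : Summable fun p => uu τ c σ p + uu τ d σ p := n1.of_norm.add n2.of_norm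
  obtain ⟨_, h2, _, _⟩ := h S.P (fun p => uu τ c σ p + uu τ d σ p) hu
  refine (show |E1 (fun p => uu τ c σ p + uu τ d σ p)| ≤ _ from h2).trans ?_
  -- the pieces
  have c1 : Summable fun p : S.P => ch c p * xx S p σ :=
    (wt_norm (ch c) 1 (fun p => (ch_abs c p).le) σ hσ).of_norm
  have c2 : Summable fun p : S.P => ch d p * xx S p σ :=
    (wt_norm (ch d) 1 (fun p => (ch_abs d p).le) σ hσ).of_norm
  have e1 : Summable fun p : S.P => 2 * |B| * (S.N p : ℝ) ^ (-(3 / 2) : ℝ) := s1.mul_left _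
  have e2 : Summable fun p : S.P => 4 * (1 + |B|) ^ 2 * (S.N p : ℝ) ^ (-(2 : ℝ)) := s2.mul_left _
  have hcd2 : ∀ p, |ch c p + ch d p| ≤ 2 := by
    intro p
    refine (abs_add_le _ _).trans ?_
    rw [ch_abs, ch_abs]
    norm_num
  have b2 : ∀ p, (uu τ c σ p + uu τ d σ p) ^ 2 ≤
      4 * (1 + |B|) ^ 2 * (S.N p : ℝ) ^ (-(2 : ℝ)) := by
    intro p
    have h3 : uu τ c σ p + uu τ d σ p = (ch c p + ch d p) * τ p * xx S p σ := by
      unfold uu
      ring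
    rw [h3, mul_pow, mul_pow]
    have h4 : (ch c p + ch d p) ^ 2 ≤ 4 := by
      have := abs_le.1 (hcd2 p)
      nlinarith
    have h5 : τ p ^ 2 ≤ (1 + |B|) ^ 2 := by
      have h6 := tk_abs hτ p
      rw [← sq_abs (τ p)]
      exact pow_le_pow_left₀ (abs_nonneg _) h6 2
    exact mul_le_mul (mul_le_mul h4 h5 (sq_nonneg _) (by norm_num)) (xx_sq p σ hσ.le)
      (sq_nonneg _) (by positivity)
  have sq1 : Summable fun p => (uu τ c σ p + uu τ d σ p) ^ 2 :=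
    Summable.of_nonneg_of_le (fun _ => sq_nonneg _) b2 e2
  have b1 : ∀ p, uu τ c σ p + uu τ d σ p ≤ ch c p * xx S p σ + ch d p * xx S p σ +
      2 * |B| * (S.N p : ℝ) ^ (-(3 / 2) : ℝ) := by
    intro p
    have h3 : uu τ c σ p + uu τ d σ p = ch c p * xx S p σ + ch d p * xx S p σ +
        (ch c p + ch d p) * ((τ p - 1) * xx S p σ) := by
      unfold uu
      ring
    rw [h3]
    have h4 : (ch c p + ch d p) * ((τ p - 1) * xx S p σ) ≤ 2 * (|τ p - 1| * xx S p σ) := by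
      refine (le_abs_self _).trans ?_
      rw [abs_mul, abs_mul, abs_of_nonneg (xx_nonneg p σ)]
      exact mul_le_mul_of_nonneg_right (hcd2 p) (mul_nonneg (abs_nonneg _) (xx_nonneg p σ))
    have h5 := tk_dev hτ p σ hσ.le
    linarith
  have h3 : ∑' p, (uu τ c σ p + uu τ d σ p + (uu τ c σ p + uu τ d σ p) ^ 2) ≤
      Real.log (1 / σ) + (K1 + K2 + D1 + D2) := by
    rw [hu.tsum_add sq1]
    have h4 : ∑' p, (uu τ c σ p + uu τ d σ p) ^ 2 ≤ D2 := by
      rw [hD2, ← tsum_mul_left]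
      exact sq1.tsum_le_tsum b2 e2
    have h5 : ∑' p, (uu τ c σ p + uu τ d σ p) ≤ ∑' p : S.P, ch c p * xx S p σ +
        ∑' p : S.P, ch d p * xx S p σ + D1 := by
      rw [hD1, ← tsum_mul_left, ← c1.tsum_add c2, ← (c1.add c2).tsum_add e1]
      exact hu.tsum_le_tsum b1 ((c1.add c2).add e1)
    have h6 := hK1 σ hσ hσ1
    have h7 := hK2 σ hσ hσ1
    have h8 : 0 ≤ Real.log (1 / σ) := Real.log_nonneg (by
      rw [le_div_iff₀ hσ, one_mul]
      exact hσ1)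
    have h9 : (if c = 0 then Real.log (1 / σ) else 0) + (if d = 0 then Real.log (1 / σ) else 0) ≤
        Real.log (1 / σ) := by
      rcases hcd with hc | hd
      · rw [if_neg hc, zero_add]
        split_ifs
        · exact le_refl _
        · exact h8
      · rw [if_neg hd, add_zero]
        split_ifs
        · exact le_refl _
        · exact h8
    linarith
  refine (Real.exp_le_exp.2 h3).trans (le_of_eq ?_)
  rw [Real.exp_add, Real.exp_log (by positivity), Real.rpow_neg_one, one_div]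
  ring

/-- a function `O(1/σ)` times `σ ^ 2` tends to zero -/
theorem small {f : ℝ → ℝ} {C : ℝ} (hf : ∀ σ : ℝ, 0 < σ → σ ≤ 1 → |f σ| ≤ C * σ ^ (-(1 : ℝ))) :
    Tendsto (fun σ : ℝ => σ ^ 2 * f σ) (𝓝[>] 0) (𝓝 0) := by
  have h0 : Tendsto (fun σ : ℝ => C * σ) (𝓝[>] 0) (𝓝 0) := by
    have h1 : Tendsto (fun σ : ℝ => C * σ) (𝓝 0) (𝓝 (C * 0)) :=
      (continuous_const.mul continuous_id).tendsto 0
    rw [mul_zero] at h1
    exact h1.mono_left nhdsWithin_le_nhds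
  refine squeeze_zero_norm' ?_ h0
  have e1 : ∀ᶠ σ : ℝ in 𝓝[>] 0, 0 < σ := eventually_mem_nhdsWithin
  have e2 : ∀ᶠ σ : ℝ in 𝓝[>] 0, σ ≤ 1 :=
    mem_nhdsWithin_of_mem_nhds (Iic_mem_nhds one_pos)
  filter_upwards [e1, e2] with σ s1 s2
  rw [norm_mul, Real.norm_eq_abs, Real.norm_eq_abs, abs_of_nonneg (sq_nonneg σ)]
  calc σ ^ 2 * |f σ| ≤ σ ^ 2 * (C * σ ^ (-(1 : ℝ))) :=
        mul_le_mul_of_nonneg_left (hf σ s1 s2) (sq_nonneg σ)
    _ = C * σ := by
        rw [Real.rpow_neg_one]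
        field_simp

theorem sq_lim : Tendsto (fun σ : ℝ => σ ^ 2 * 1) (𝓝[>] 0) (𝓝 0) := by
  have h1 : Tendsto (fun σ : ℝ => σ ^ 2 * 1) (𝓝 0) (𝓝 ((0 : ℝ) ^ 2 * 1)) :=
    ((continuous_id.pow 2).mul continuous_const).tendsto 0
  rw [zero_pow (by norm_num), zero_mul] at h1
  exact h1.mono_left nhdsWithin_le_nhds

end

end BDb

/-- M2: the limits of the double sums -/
theorem sDb (h : SExp) (_h1 : SLup) (h2 : ST1) : SDb := by
  intro S B τ hτ
  obtain ⟨C1, hC1⟩ := BDb.e1_le h2 hτ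
  have t1 : ∀ c : S.T, Tendsto (fun σ : ℝ => σ ^ 2 * BDb.E1 (BDb.uu τ c σ)) (𝓝[>] 0) (𝓝 0) :=
    fun c => BDb.small (hC1 c)
  have key : ∀ (c d : S.T) (l : ℝ),
      Tendsto (fun σ : ℝ => σ ^ 2 * BDb.E1 (fun p => BDb.uu τ c σ p + BDb.uu τ d σ p))
        (𝓝[>] 0) (𝓝 l) →
      Tendsto (fun σ : ℝ => σ ^ 2 * DS τ c d (1 + σ)) (𝓝[>] 0) (𝓝 l) := by
    intro c d l hl
    have h3 := ((hl.sub (t1 c)).sub (t1 d)).add BDb.sq_lim
    rw [sub_zero, sub_zero, add_zero] at h3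
    refine h3.congr' ?_
    refine eventually_nhdsWithin_of_forall fun σ hσ => ?_
    show _ = σ ^ 2 * DS τ c d (1 + σ)
    rw [BDb.ds_eq hτ c d σ hσ]
    ring
  constructor
  · obtain ⟨c0, hc0, hlim⟩ := BDb.main_lim hτ
    refine ⟨c0, hc0, key 0 0 c0 (hlim.congr fun σ => ?_)⟩
    congr 2
    funext p
    unfold BDb.uu
    rw [BDb.ch_zero]
    ring
  · intro c d hcd
    obtain ⟨C2, hC2⟩ := BDb.e2_le h hτ c d hcd
    exact key c d 0 (BDb.small hC2)

end Pool.Agent.D8
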