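import Pool.Agent.D8.Stm
import Pool.Agent.H32.MQ.EQ1
import Mathlib.Analysis.Normed.Ring.InfiniteProd

/-!
# The dihedral group of order 16 over number fields, row M2: the double sums as sums over sets
of primes, and the Euler product of the main term
-/

set_option autoImplicit false

open scoped BigOperators Topology
open Filter

namespace Pool.Agent.D8

open Pool.Agent.H98.MK (sg)
open Pool.Agent.H98.MF
open Pool.Agent.H32.MQ (El pw)

namespace BDb

/-! ### pairs of disjoint sets -/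

section pairs

variable {P : Type}

open Classical in
/-- sums over disjoint pairs are sums over sets and their subsets -/
theorem fib (f : Finset P × Finset P → ℝ) (hf : Summable f)
    (h0 : ∀ z : Finset P × Finset P, ¬ Disjoint z.1 z.2 → f z = 0) :
    ∑' z, f z = ∑' x : Finset P, ∑ y ∈ x.powerset, f (y, x \ y) := by
  have h1 := hf.hasSum.tsum_fiberwise (fun z : Finset P × Finset P => z.1 ∪ z.2)
  rw [← h1.tsum_eq]
  refine tsum_congr fun x => ?_
  rw [tsum_subtype ((fun z : Finset P × Finset P => z.1 ∪ z.2) ⁻¹' {x}) f]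
  rw [tsum_eq_sum (s := x.powerset.image fun y => (y, x \ y))]
  · rw [Finset.sum_image fun y _ y' _ h => congrArg Prod.fst h]
    refine Finset.sum_congr rfl fun y hy => ?_
    rw [Set.indicator_of_mem]
    exact Finset.union_sdiff_of_subset (Finset.mem_powerset.1 hy)
  · intro z hz
    by_cases h2 : z ∈ ((fun z : Finset P × Finset P => z.1 ∪ z.2) ⁻¹' {x})
    · rw [Set.indicator_of_mem h2]
      refine h0 z fun hd => hz ?_
      have h3 : z.1 ∪ z.2 = x := h2
      refine Finset.mem_image.2 ⟨z.1, Finset.mem_powerset.2 (h3 ▸ Finset.subset_union_left), ?_⟩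
      refine Prod.ext rfl ?_
      show x \ z.1 = z.2
      rw [← h3, Finset.union_sdiff_left, Finset.sdiff_eq_self_iff_disjoint]
      exact hd.symm
    · rw [Set.indicator_of_notMem h2]

open Classical in
/-- the sum over the proper nonempty subsets -/
theorem inner (u v : P → ℝ) (x : Finset P) :
    ∑ y ∈ x.powerset, (if y.Nonempty ∧ (x \ y).Nonempty
      then (∏ p ∈ y, u p) * ∏ p ∈ x \ y, v p else 0) =
      ∏ p ∈ x, (u p + v p) - ∏ p ∈ x, u p - ∏ p ∈ x, v p + (if x = ∅ then 1 else 0) := by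
  rcases Finset.eq_empty_or_nonempty x with rfl | hx
  · simp
  · rw [if_neg hx.ne_empty, add_zero, Finset.prod_add]
    have h1 : ∑ y ∈ x.powerset, (if y = x then ∏ p ∈ x, u p else 0) = ∏ p ∈ x, u p := by
      rw [Finset.sum_ite_eq' x.powerset x, if_pos (Finset.mem_powerset.2 (Finset.Subset.refl _))]
    have h2 : ∑ y ∈ x.powerset, (if y = ∅ then ∏ p ∈ x, v p else 0) = ∏ p ∈ x, v p := by
      rw [Finset.sum_ite_eq' x.powerset ∅, if_pos (Finset.mem_powerset.2 (Finset.empty_subset _))]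
    conv_rhs => rw [← h1, ← h2]
    rw [← Finset.sum_sub_distrib, ← Finset.sum_sub_distrib]
    refine Finset.sum_congr rfl fun y hy => ?_
    have hyx := Finset.mem_powerset.1 hy
    rcases Finset.eq_empty_or_nonempty y with rfl | hy0
    · have h3 : ¬ ((∅ : Finset P).Nonempty ∧ (x \ ∅).Nonempty) := fun h => by
        exact Finset.not_nonempty_empty h.1
      rw [if_neg h3, if_neg (fun h => hx.ne_empty h.symm), if_pos rfl, Finset.prod_empty,
        Finset.sdiff_empty]
      ring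
    · by_cases h4 : y = x
      · subst h4
        rw [if_pos rfl, if_neg hy0.ne_empty, Finset.sdiff_self, if_neg, Finset.prod_empty]
        · ring
        · exact fun h => Finset.not_nonempty_empty h.2
      · have h5 : (x \ y).Nonempty := Finset.sdiff_nonempty.2 fun h =>
          h4 (Finset.Subset.antisymm hyx h)
        rw [if_pos ⟨hy0, h5⟩, if_neg h4, if_neg hy0.ne_empty]
        ring

/-- the sum over all finite sets -/
noncomputable def E1 (u : P → ℝ) : ℝ := ∑' x : Finset P, ∏ p ∈ x, u p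

theorem e1_summable (u : P → ℝ) (hu : Summable fun p => ‖u p‖) :
    Summable fun x : Finset P => ∏ p ∈ x, u p := summable_finsetProd_of_summable_norm hu

open Classical in
theorem pairs_eq (u v : P → ℝ) (hu : Summable fun p => ‖u p‖) (hv : Summable fun p => ‖v p‖) :
    ∑' z : Finset P × Finset P, (if Disjoint z.1 z.2 ∧ z.1.Nonempty ∧ z.2.Nonempty
      then (∏ p ∈ z.1, u p) * ∏ p ∈ z.2, v p else 0) =
      E1 (fun p => u p + v p) - E1 u - E1 v + 1 := by
  have hsu : Summable fun x : Finset P => ‖∏ p ∈ x, u p‖ := by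
    refine (summable_finsetProd_of_summable_norm (f := fun p => ‖u p‖)
      (by simpa only [norm_norm] using hu)).congr fun x => ?_
    exact (norm_prod x u).symm
  have hsv : Summable fun x : Finset P => ‖∏ p ∈ x, v p‖ := by
    refine (summable_finsetProd_of_summable_norm (f := fun p => ‖v p‖)
      (by simpa only [norm_norm] using hv)).congr fun x => ?_
    exact (norm_prod x v).symm
  have hsum : Summable fun z : Finset P × Finset P =>
      (if Disjoint z.1 z.2 ∧ z.1.Nonempty ∧ z.2.Nonempty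
      then (∏ p ∈ z.1, u p) * ∏ p ∈ z.2, v p else 0) := by
    refine Summable.of_norm_bounded (hsu.mul_of_nonneg hsv (fun _ => norm_nonneg _)
      (fun _ => norm_nonneg _)) fun z => ?_
    split_ifs
    · rw [norm_mul]
    · rw [norm_zero]
      exact mul_nonneg (norm_nonneg _) (norm_nonneg _)
  rw [fib _ hsum fun z hz => if_neg fun h => hz h.1]
  have huv : Summable fun p => ‖u p + v p‖ :=
    Summable.of_nonneg_of_le (fun _ => norm_nonneg _) (fun p => norm_add_le _ _) (hu.add hv)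
  have s0 : Summable fun x : Finset P => (if x = ∅ then (1 : ℝ) else 0) :=
    summable_of_ne_finset_zero (s := {∅}) fun x hx => if_neg fun h => hx (by
      rw [h]; exact Finset.mem_singleton_self _)
  have h1 : ∀ x : Finset P, ∑ y ∈ x.powerset,
      (if Disjoint y (x \ y) ∧ y.Nonempty ∧ (x \ y).Nonempty
        then (∏ p ∈ y, u p) * ∏ p ∈ x \ y, v p else 0) =
      ∏ p ∈ x, (u p + v p) - ∏ p ∈ x, u p - ∏ p ∈ x, v p + (if x = ∅ then 1 else 0) := by
    intro x
    rw [← inner u v x]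
    refine Finset.sum_congr rfl fun y _ => ?_
    refine if_congr ?_ rfl rfl
    exact and_iff_right Finset.disjoint_sdiff
  have h2 : ∑' x : Finset P, (if x = ∅ then (1 : ℝ) else 0) = 1 := tsum_ite_eq ∅ _
  have t1 := e1_summable _ huv
  have t2 := e1_summable _ hu
  have t3 := e1_summable _ hv
  rw [tsum_congr h1, ((t1.sub t2).sub t3).tsum_add s0, (t1.sub t2).tsum_sub t3,
    t1.tsum_sub t2, h2]
  rfl

end pairs

/-! ### the Euler product -/

section euler

variable {S : Sys}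

/-- the variable of a prime -/
noncomputable def xx (S : Sys) (p : S.P) (σ : ℝ) : ℝ := (S.N p : ℝ) ^ (-(1 + σ))

theorem two_le (p : S.P) : (2 : ℝ) ≤ S.N p := by exact_mod_cast S.two_le p

theorem xx_nonneg (p : S.P) (σ : ℝ) : 0 ≤ xx S p σ := Real.rpow_nonneg (Nat.cast_nonneg _) _

theorem xx_le (p : S.P) (σ : ℝ) (hσ : 0 ≤ σ) : xx S p σ ≤ (S.N p : ℝ) ^ (-1 : ℝ) := by
  have h2 := two_le p
  unfold xx
  exact Real.rpow_le_rpow_of_exponent_le (by linarith) (by linarith)

theorem xx_sq (p : S.P) (σ : ℝ) (hσ : 0 ≤ σ) : xx S p σ ^ 2 ≤ (S.N p : ℝ) ^ (-(2 : ℝ)) := by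
  have h2 := two_le p
  unfold xx
  rw [← Real.rpow_natCast, ← Real.rpow_mul (by linarith)]
  refine Real.rpow_le_rpow_of_exponent_le (by linarith) ?_
  push_cast
  linarith

variable {B : ℝ} {τ : S.P → ℝ}

theorem tk_le (hτ : Tk S B τ) (p : S.P) : |τ p - 1| ≤ |B| := by
  refine (hτ p).2.trans ?_
  have h2 := two_le p
  have h3 : (S.N p : ℝ) ^ (-(1 / 2) : ℝ) ≤ 1 :=
    Real.rpow_le_one_of_one_le_of_nonpos (by linarith) (by norm_num)
  have h4 : 0 ≤ (S.N p : ℝ) ^ (-(1 / 2) : ℝ) := Real.rpow_nonneg (by linarith) _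
  calc B * (S.N p : ℝ) ^ (-(1 / 2) : ℝ) ≤ |B| * (S.N p : ℝ) ^ (-(1 / 2) : ℝ) :=
        mul_le_mul_of_nonneg_right (le_abs_self B) h4
    _ ≤ |B| * 1 := mul_le_mul_of_nonneg_left h3 (abs_nonneg _)
    _ = |B| := mul_one _

theorem tk_abs (hτ : Tk S B τ) (p : S.P) : |τ p| ≤ 1 + |B| := by
  have h1 := tk_le hτ p
  have h2 : τ p = 1 + (τ p - 1) := by ring
  calc |τ p| = |1 + (τ p - 1)| := by rw [← h2]
    _ ≤ |(1 : ℝ)| + |τ p - 1| := abs_add_le _ _
    _ ≤ 1 + |B| := by rw [abs_one]; linarith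

/-- the deviation of the weights -/
theorem tk_dev (hτ : Tk S B τ) (p : S.P) (σ : ℝ) (hσ : 0 ≤ σ) :
    |τ p - 1| * xx S p σ ≤ |B| * (S.N p : ℝ) ^ (-(3 / 2) : ℝ) := by
  have h2 := two_le p
  have h4 : 0 ≤ (S.N p : ℝ) ^ (-(1 / 2) : ℝ) := Real.rpow_nonneg (by linarith) _
  have h5 : |τ p - 1| ≤ |B| * (S.N p : ℝ) ^ (-(1 / 2) : ℝ) :=
    (hτ p).2.trans (mul_le_mul_of_nonneg_right (le_abs_self B) h4)
  calc |τ p - 1| * xx S p σ
      ≤ |B| * (S.N p : ℝ) ^ (-(1 / 2) : ℝ) * (S.N p : ℝ) ^ (-1 : ℝ) :=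
        mul_le_mul h5 (xx_le p σ hσ) (xx_nonneg p σ) (mul_nonneg (abs_nonneg _) h4)
    _ = |B| * (S.N p : ℝ) ^ (-(3 / 2) : ℝ) := by
        rw [mul_assoc, ← Real.rpow_add (by linarith)]
        norm_num

/-- the local factor of the quotient -/
noncomputable def qq (τ : S.P → ℝ) (p : S.P) (x : ℝ) : ℝ := (1 + 2 * τ p * x) / ((1 + x) * (1 + x))

theorem qq_pos (hτ : Tk S B τ) (p : S.P) (x : ℝ) (h0 : 0 ≤ x) : 0 < qq τ p x := by
  unfold qq
  have h3 := (hτ p).1
  positivity

theorem qq_bound (p : S.P) (x : ℝ) (h0 : 0 ≤ x) :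
    |qq τ p x - 1| ≤ 2 * (|τ p - 1| * x) + x ^ 2 := by
  have h1 : (0 : ℝ) < (1 + x) * (1 + x) := by positivity
  have h2 : qq τ p x - 1 = (2 * ((τ p - 1) * x) - x ^ 2) / ((1 + x) * (1 + x)) := by
    unfold qq
    rw [div_sub_one h1.ne']
    congr 1
    ring
  rw [h2, abs_div, abs_of_pos h1, div_le_iff₀ h1]
  have h3 : |2 * ((τ p - 1) * x) - x ^ 2| ≤ 2 * (|τ p - 1| * x) + x ^ 2 := by
    refine (abs_sub _ _).trans ?_
    rw [abs_mul, abs_mul, abs_of_nonneg h0, abs_of_nonneg (sq_nonneg x), abs_two]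
  refine h3.trans (le_mul_of_one_le_right (by positivity) ?_)
  nlinarith [mul_nonneg h0 h0]

theorem qq_cont (p : S.P) (x : ℝ) (h0 : 0 ≤ x) : ContinuousAt (qq τ p) x := by
  unfold qq
  refine ContinuousAt.div (by fun_prop) (by fun_prop) ?_
  positivity

/-- the dominating sequence -/
noncomputable def dm (S : Sys) (B : ℝ) (p : S.P) : ℝ :=
  2 * |B| * (S.N p : ℝ) ^ (-(3 / 2) : ℝ) + (S.N p : ℝ) ^ (-(2 : ℝ))

theorem dm_sum (B : ℝ) : Summable (dm S B) := by
  unfold dm
  have h1 := summable_N S (3 / 2) (by norm_num)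
  have h2 := summable_N S 2 (by norm_num)
  exact (h1.mul_left (2 * |B|)).add h2

theorem qq_le (hτ : Tk S B τ) (p : S.P) (σ : ℝ) (hσ : 0 ≤ σ) :
    ‖qq τ p (xx S p σ) - 1‖ ≤ dm S B p := by
  rw [Real.norm_eq_abs]
  refine (qq_bound p _ (xx_nonneg p σ)).trans ?_
  unfold dm
  have h1 := tk_dev hτ p σ hσ
  have h2 := xx_sq p σ hσ
  linarith

theorem qq_sum (hτ : Tk S B τ) (σ : ℝ) (hσ : 0 ≤ σ) :
    Summable fun p => ‖qq τ p (xx S p σ) - 1‖ :=
  Summable.of_nonneg_of_le (fun _ => norm_nonneg _) (fun p => qq_le hτ p σ hσ) (dm_sum B)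

theorem xx_norm (S : Sys) (σ : ℝ) (hσ : 0 < σ) : Summable fun p : S.P => ‖xx S p σ‖ :=
  (summable_N S (1 + σ) (by linarith)).norm

/-- weighted variables are summable -/
theorem wt_norm (u : S.P → ℝ) (K : ℝ) (hu : ∀ p, |u p| ≤ K) (σ : ℝ) (hσ : 0 < σ) :
    Summable fun p : S.P => ‖u p * xx S p σ‖ := by
  refine Summable.of_nonneg_of_le (fun _ => norm_nonneg _) (fun p => ?_)
    ((summable_N S (1 + σ) (by linarith)).mul_left K)
  rw [norm_mul, Real.norm_eq_abs, Real.norm_eq_abs, abs_of_nonneg (xx_nonneg p σ)]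
  exact mul_le_mul_of_nonneg_right (hu p) (xx_nonneg p σ)

/-- the quotient of the Euler products -/
theorem quot (hτ : Tk S B τ) (σ : ℝ) (hσ : 0 < σ) :
    E1 (fun p : S.P => 2 * τ p * xx S p σ) =
      (∏' p : S.P, (1 + (qq τ p (xx S p σ) - 1))) *
        (∑' x : Finset S.P, (S.nm x : ℝ) ^ (-(1 + σ))) ^ 2 := by
  have s1 := xx_norm S σ hσ
  have s3 : Summable fun p : S.P => ‖2 * τ p * xx S p σ‖ := by
    refine wt_norm (fun p => 2 * τ p) (2 * (1 + |B|)) (fun p => ?_) σ hσ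
    rw [abs_mul, abs_two]
    exact mul_le_mul_of_nonneg_left (tk_abs hτ p) (by norm_num)
  have s4 := qq_sum hτ σ hσ.le
  have e1 : ∑' x : Finset S.P, (S.nm x : ℝ) ^ (-(1 + σ)) = ∏' p : S.P, (1 + xx S p σ) := by
    rw [tprod_one_add (summable_finsetProd_of_summable_norm s1)]
    refine tsum_congr fun x => ?_
    exact Pool.Agent.H32.MQ.eq1_nm_rpow S.toPre x _
  have e3 := tprod_one_add (summable_finsetProd_of_summable_norm s3)
  have m1 := multipliable_one_add_of_summable s1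
  have m4 := multipliable_one_add_of_summable s4
  unfold E1
  rw [e1, ← e3, pow_two, ← m1.tprod_mul m1, ← m4.tprod_mul (m1.mul m1)]
  refine tprod_congr fun p => ?_
  unfold qq
  have h1 := xx_nonneg p σ
  have h3 : (1 + xx S p σ) * (1 + xx S p σ) ≠ 0 := by positivity
  rw [add_sub_cancel, div_mul_cancel₀ _ h3]

theorem qq_tendsto (hτ : Tk S B τ) :
    Tendsto (fun σ : ℝ => ∏' p : S.P, (1 + (qq τ p (xx S p σ) - 1))) (𝓝[>] 0)
      (𝓝 (∏' p : S.P, (1 + (qq τ p (xx S p 0) - 1)))) := by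
  refine tendsto_tprod_one_add_of_dominated_convergence (dm_sum B) (fun p => ?_) ?_
  · have h1 : Continuous fun σ : ℝ => xx S p σ := by
      unfold xx
      have h2 := two_le p
      exact Continuous.rpow continuous_const (by fun_prop) fun _ => Or.inl (by linarith)
    have h2 : ContinuousAt (fun σ : ℝ => qq τ p (xx S p σ)) 0 :=
      ContinuousAt.comp (f := fun σ : ℝ => xx S p σ) (g := qq τ p)
        (qq_cont p _ (xx_nonneg p 0)) h1.continuousAt
    exact (h2.tendsto.mono_left nhdsWithin_le_nhds).sub_const 1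
  · refine eventually_nhdsWithin_of_forall fun σ hσ p => ?_
    exact qq_le hτ p σ (le_of_lt hσ)

theorem lim_pos (hτ : Tk S B τ) : 0 < ∏' p : S.P, (1 + (qq τ p (xx S p 0) - 1)) := by
  have hq : ∀ p : S.P, 0 < 1 + (qq τ p (xx S p 0) - 1) := by
    intro p
    rw [add_sub_cancel]
    exact qq_pos hτ p _ (xx_nonneg p 0)
  have s4 := qq_sum hτ 0 le_rfl
  have h1 := tprod_one_add_ne_zero_of_summable (fun p => (hq p).ne') s4
  have h2 := (multipliable_one_add_of_summable s4).norm_tprod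
  have h3 : ∏' p : S.P, ‖1 + (qq τ p (xx S p 0) - 1)‖ =
      ∏' p : S.P, (1 + (qq τ p (xx S p 0) - 1)) :=
    tprod_congr fun p => by rw [Real.norm_eq_abs, abs_of_pos (hq p)]
  rw [h3] at h2
  refine lt_of_le_of_ne ?_ h1.symm
  rw [← h2]
  exact norm_nonneg _

/-- the main term -/
theorem main_lim (hτ : Tk S B τ) : ∃ c0 : ℝ, 0 < c0 ∧
    Tendsto (fun σ : ℝ => σ ^ 2 * E1 (fun p : S.P => 2 * τ p * xx S p σ)) (𝓝[>] 0) (𝓝 c0) := by
  obtain ⟨κ, hκ, hlim⟩ := Pool.Agent.H32.MQ.eQ1 S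
  refine ⟨_, mul_pos (lim_pos hτ) (pow_pos hκ 2), ?_⟩
  refine ((qq_tendsto hτ).mul (hlim.pow 2)).congr' ?_
  refine eventually_nhdsWithin_of_forall fun σ hσ => ?_
  show _ = σ ^ 2 * E1 (fun p : S.P => 2 * τ p * xx S p σ)
  rw [quot hτ σ hσ]
  ring

end euler

end BDb

end Pool.Agent.D8
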