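import Pool.Agent.D8.Stm

/-!
# Sums over finite sets of primes
-/

set_option autoImplicit false

open scoped BigOperators Topology
open Filter

namespace Pool.Agent.D8

theorem bexp_up (t : ℝ) : |1 + t| ≤ Real.exp (t + t ^ 2) := by
  rcases le_or_gt (-1) t with h | h
  · rw [abs_of_nonneg (by linarith)]
    have h1 : t + 1 ≤ Real.exp t := Real.add_one_le_exp t
    have h2 : Real.exp t ≤ Real.exp (t + t ^ 2) := Real.exp_le_exp.2 (by nlinarith [sq_nonneg t])
    linarith
  · rw [abs_of_nonpos (by linarith)]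
    have h1 : (-t - 2) + 1 ≤ Real.exp (-t - 2) := Real.add_one_le_exp _
    have h2 : Real.exp (-t - 2) ≤ Real.exp (t + t ^ 2) :=
      Real.exp_le_exp.2 (by nlinarith [sq_nonneg (t + 1)])
    linarith

theorem bexp_low {t : ℝ} (ht : -(1 / 2) ≤ t) : Real.exp (t - t ^ 2) ≤ 1 + t := by
  rcases le_or_gt 0 t with h | h
  · have h1 : (t ^ 2 - t) + 1 ≤ Real.exp (t ^ 2 - t) := Real.add_one_le_exp _
    have h2 : Real.exp (t - t ^ 2) * Real.exp (t ^ 2 - t) = 1 := by
      rw [← Real.exp_add]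
      have : t - t ^ 2 + (t ^ 2 - t) = 0 := by ring
      rw [this, Real.exp_zero]
    have h3 : 1 ≤ (1 + t) * Real.exp (t ^ 2 - t) := by
      have h4 : (1 + t) * ((t ^ 2 - t) + 1) ≤ (1 + t) * Real.exp (t ^ 2 - t) :=
        mul_le_mul_of_nonneg_left h1 (by linarith)
      have h5 : (1 + t) * ((t ^ 2 - t) + 1) = 1 + t ^ 3 := by ring
      have h6 : 0 ≤ t ^ 3 := pow_nonneg h 3
      linarith
    have h4 : Real.exp (t - t ^ 2) * 1 ≤
        Real.exp (t - t ^ 2) * ((1 + t) * Real.exp (t ^ 2 - t)) :=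
      mul_le_mul_of_nonneg_left h3 (Real.exp_pos _).le
    calc Real.exp (t - t ^ 2) = Real.exp (t - t ^ 2) * 1 := by ring
      _ ≤ Real.exp (t - t ^ 2) * ((1 + t) * Real.exp (t ^ 2 - t)) := h4
      _ = (1 + t) * (Real.exp (t - t ^ 2) * Real.exp (t ^ 2 - t)) := by ring
      _ = 1 + t := by rw [h2, mul_one]
  · obtain ⟨x, hx⟩ : ∃ x, x = -t := ⟨_, rfl⟩
    have hx0 : 0 < x := by rw [hx]; linarith
    have hx1 : x ≤ 1 / 2 := by rw [hx]; linarith
    have ht' : t = -x := by rw [hx]; ring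
    have h1 : 1 + (x + x ^ 2) + (x + x ^ 2) ^ 2 / 2 ≤ Real.exp (x + x ^ 2) :=
      Real.quadratic_le_exp_of_nonneg (by positivity)
    have h2 : Real.exp (-x - x ^ 2) * Real.exp (x + x ^ 2) = 1 := by
      rw [← Real.exp_add]
      have : -x - x ^ 2 + (x + x ^ 2) = 0 := by ring
      rw [this, Real.exp_zero]
    have h3 : 1 ≤ (1 - x) * Real.exp (x + x ^ 2) := by
      have h4 : (1 - x) * (1 + (x + x ^ 2) + (x + x ^ 2) ^ 2 / 2) ≤
          (1 - x) * Real.exp (x + x ^ 2) :=
        mul_le_mul_of_nonneg_left h1 (by linarith)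
      have h5 : (1 - x) * (1 + (x + x ^ 2) + (x + x ^ 2) ^ 2 / 2) =
          1 + x ^ 2 / 2 * (1 - x - x ^ 2 - x ^ 3) := by ring
      have h6 : x ^ 2 ≤ 1 / 4 := by nlinarith
      have h7 : x ^ 3 ≤ 1 / 8 := by
        calc x ^ 3 = x * x ^ 2 := by ring
          _ ≤ 1 / 2 * (1 / 4) := mul_le_mul hx1 h6 (by positivity) (by norm_num)
          _ = 1 / 8 := by norm_num
      have h8 : 0 ≤ x ^ 2 / 2 * (1 - x - x ^ 2 - x ^ 3) :=
        mul_nonneg (by positivity) (by linarith)
      linarith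
    have h4 : Real.exp (-x - x ^ 2) * 1 ≤
        Real.exp (-x - x ^ 2) * ((1 - x) * Real.exp (x + x ^ 2)) :=
      mul_le_mul_of_nonneg_left h3 (Real.exp_pos _).le
    have h5 : t - t ^ 2 = -x - x ^ 2 := by rw [ht']; ring
    rw [h5]
    calc Real.exp (-x - x ^ 2) = Real.exp (-x - x ^ 2) * 1 := by ring
      _ ≤ Real.exp (-x - x ^ 2) * ((1 - x) * Real.exp (x + x ^ 2)) := h4
      _ = (1 - x) * (Real.exp (-x - x ^ 2) * Real.exp (x + x ^ 2)) := by ring
      _ = 1 + t := by rw [h2, mul_one, ht']; ring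

/-- the partial products converge to the sum -/
theorem bexp_tendsto {P : Type} {u : P → ℝ} (hu : Summable u) :
    (Summable fun x : Finset P => ∏ p ∈ x, u p) ∧
    Tendsto (fun F : Finset P => ∏ p ∈ F, (1 + u p)) atTop
      (𝓝 (∑' x : Finset P, ∏ p ∈ x, u p)) := by
  have h1 : Summable fun x : Finset P => ∏ p ∈ x, u p :=
    summable_finsetProd_of_summable_norm hu.norm
  refine ⟨h1, ?_⟩
  have h2 : Tendsto (fun F : Finset P => F.powerset) atTop atTop :=
    Filter.tendsto_finset_powerset_atTop_atTop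
  have h3 := h1.hasSum.comp h2
  refine h3.congr fun F => ?_
  show ∑ x ∈ F.powerset, ∏ p ∈ x, u p = _
  rw [Finset.prod_one_add]

theorem bexp_sq {P : Type} {u : P → ℝ} (hu : Summable u) : Summable fun p => u p ^ 2 := by
  have h1 : Tendsto (fun p => |u p|) cofinite (𝓝 0) := by
    have := hu.tendsto_cofinite_zero.abs
    rwa [abs_zero] at this
  have h2 : ∀ᶠ p in cofinite, |u p| ≤ 1 :=
    (h1.eventually (ge_mem_nhds (by norm_num : (0 : ℝ) < 1)))
  refine Summable.of_norm_bounded_eventually hu.norm ?_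
  filter_upwards [h2] with p hp
  rw [Real.norm_eq_abs, Real.norm_eq_abs, abs_pow, pow_two]
  calc |u p| * |u p| ≤ 1 * |u p| := mul_le_mul_of_nonneg_right hp (abs_nonneg _)
    _ = |u p| := one_mul _

theorem sExp : SExp := by
  intro P u hu
  obtain ⟨h1, h2⟩ := bexp_tendsto hu
  have h3 := bexp_sq hu
  refine ⟨h1, ?_, ?_, ?_⟩
  · have h4 : Tendsto (fun F : Finset P => Real.exp (∑ p ∈ F, (u p + u p ^ 2))) atTop
        (𝓝 (Real.exp (∑' p, (u p + u p ^ 2)))) :=
      (Real.continuous_exp.tendsto _).comp (hu.add h3).hasSum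
    refine le_of_tendsto_of_tendsto' h2.abs h4 fun F => ?_
    rw [Finset.abs_prod, Real.exp_sum]
    exact Finset.prod_le_prod (fun _ _ => abs_nonneg _) fun p _ => bexp_up (u p)
  · intro hu0
    have h4 : Tendsto (fun F : Finset P => Real.exp (∑ p ∈ F, u p)) atTop
        (𝓝 (Real.exp (∑' p, u p))) :=
      (Real.continuous_exp.tendsto _).comp hu.hasSum
    refine le_of_tendsto_of_tendsto' h2 h4 fun F => ?_
    rw [Real.exp_sum]
    refine Finset.prod_le_prod (fun p _ => by linarith [hu0 p]) fun p _ => ?_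
    linarith [Real.add_one_le_exp (u p)]
  · intro hu0
    have h4 : Tendsto (fun F : Finset P => Real.exp (∑ p ∈ F, (u p - u p ^ 2))) atTop
        (𝓝 (Real.exp (∑' p, (u p - u p ^ 2)))) :=
      (Real.continuous_exp.tendsto _).comp (hu.sub h3).hasSum
    refine le_of_tendsto_of_tendsto' h4 h2 fun F => ?_
    rw [Real.exp_sum]
    exact Finset.prod_le_prod (fun _ _ => (Real.exp_pos _).le) fun p _ => bexp_low (hu0 p)

end Pool.Agent.D8
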