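import Pool.Agent.D8.Stm

/-!
# The theorem on kernels (note 5262, A10)
-/

set_option autoImplicit false

open scoped BigOperators Topology
open Filter

namespace Pool.Agent.D8

open Pool.Agent.H98.MK (sg)
open Pool.Agent.H98.MF
open Pool.Agent.H32.MQ (El pw)

theorem bfk_nm_pos {S : Sys} (x : Finset S.P) : 1 ≤ S.nm x := by
  unfold Pre.nm
  exact Nat.succ_le_of_lt (Finset.prod_pos fun p _ => S.one_le_N p)

theorem bfk_ls {S : Sys} (x : Finset S.P) : 1 ≤ ls S x := by
  unfold ls
  rw [← Real.exp_zero]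
  exact Real.exp_le_exp.2 (Finset.sum_nonneg fun p _ => by positivity)

/-- large variables are nonempty -/
theorem bfk_sub {S : Sys} {ι : Type} [Fintype ι] (J : ℕ) (x : ι → Finset S.P) :
    lrg S J x ⊆ pat x := by
  intro u hu
  unfold lrg at hu
  unfold pat
  rw [Finset.mem_filter] at hu ⊢
  refine ⟨Finset.mem_univ _, ?_⟩
  rw [Finset.nonempty_iff_ne_empty]
  intro h
  have h1 := hu.2
  rw [h] at h1
  have h2 : S.nm ∅ = 1 := by simp [Pre.nm]
  rw [h2] at h1
  have h3 : 1 ≤ 2 ^ J := Nat.one_le_two_pow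
  omega

open Classical in
theorem bfk_lin {S : Sys} {ι : Type} [Fintype ι] (τ : S.P → ℝ) (κ s : ℝ)
    (φ : ι → ι → ZMod 2) (D : Vd S ι) (Φ : Finset ι → ℝ) (A : Finset (Finset ι))
    (x : ι → Finset S.P) :
    Kt τ κ s φ D Φ x - ∑ U ∈ A, Φ U * Kt τ κ s φ D (fun P => if P = U then 1 else 0) x =
      Kt τ κ s φ D (fun P => if P ∈ A then 0 else Φ P) x := by
  unfold Kt
  by_cases h : S.Dj x
  · simp only [if_pos h]
    obtain ⟨g, hg⟩ : ∃ g : ℝ, g = ((sg (KE φ D x) : ℤ) : ℝ) := ⟨_, rfl⟩
    obtain ⟨q, hq⟩ : ∃ q : ℝ, q = ∏ u, ∏ p ∈ x u, (hh S τ κ (D.e u) (D.w u) p *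
      (S.N p : ℝ) ^ (-s)) := ⟨_, rfl⟩
    rw [← hg, ← hq]
    have h1 : ∑ U ∈ A, Φ U * ((if pat x = U then (1 : ℝ) else 0) * g * q) =
        ∑ U ∈ A, if pat x = U then Φ U * g * q else 0 := by
      refine Finset.sum_congr rfl fun U _ => ?_
      split_ifs
      · ring
      · ring
    rw [h1, Finset.sum_ite_eq]
    split_ifs
    · ring
    · ring
  · simp only [if_neg h, mul_zero, Finset.sum_const_zero, sub_zero]

/-- sums over a finite partition -/
theorem bfk_part {X α : Type} [Fintype α] (f : X → ℝ) (hf : Summable f) (g : X → α)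
    [∀ a x, Decidable (g x = a)] :
    ∑' x, f x = ∑ a, ∑' x, (if g x = a then f x else 0) := by
  have h1 : ∀ a, Summable fun x => if g x = a then f x else 0 := by
    intro a
    have h := hf.indicator {x | g x = a}
    refine h.congr fun x => ?_
    simp [Set.indicator_apply]
  rw [← Summable.tsum_finsetSum fun a _ => h1 a]
  refine tsum_congr fun x => ?_
  classical
  have h2 : ∑ a, (if g x = a then f x else 0) = ∑ a, (if a = g x then f x else 0) := by
    refine Finset.sum_congr rfl fun a _ => ?_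
    by_cases h : g x = a
    · rw [if_pos h, if_pos h.symm]
    · rw [if_neg h, if_neg fun h' => h h'.symm]
  rw [h2, Finset.sum_ite_eq']
  simp

/-- the choice of `J` -/
theorem bfk_J (E c σ : ℝ) (hE : 0 ≤ E) (hc : 0 < c) (h0 : 0 < σ) (h1 : σ ≤ 1) :
    ∃ J : ℕ, σ ^ (-E) * (2 : ℝ) ^ (-(c * J)) ≤ 1 ∧
      1 + (J : ℝ) ≤ (2 + E / (c * Real.log 2)) * (1 + Real.log (1 / σ)) := by
  have hl2 : 0 < Real.log 2 := Real.log_pos (by norm_num)
  have hL : 0 ≤ Real.log (1 / σ) := Real.log_nonneg (by
    rw [le_div_iff₀ h0]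
    linarith)
  obtain ⟨L, hLd⟩ : ∃ L : ℝ, L = Real.log (1 / σ) := ⟨_, rfl⟩
  rw [← hLd] at hL ⊢
  have hlog : Real.log σ = -L := by
    rw [hLd, one_div, Real.log_inv, neg_neg]
  obtain ⟨t, ht⟩ : ∃ t : ℝ, t = E / (c * Real.log 2) := ⟨_, rfl⟩
  have ht0 : 0 ≤ t := by
    rw [ht]
    positivity
  refine ⟨⌈t * L⌉₊, ?_, ?_⟩
  · have hJ : t * L ≤ (⌈t * L⌉₊ : ℝ) := Nat.le_ceil _
    obtain ⟨j, hj⟩ : ∃ j : ℝ, j = (⌈t * L⌉₊ : ℝ) := ⟨_, rfl⟩
    rw [← hj] at hJ ⊢
    rw [Real.rpow_def_of_pos h0, Real.rpow_def_of_pos (by norm_num : (0 : ℝ) < 2), ← Real.exp_add,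
      hlog, ← Real.exp_zero]
    apply Real.exp_le_exp.2
    have h2 : E * L = c * Real.log 2 * (t * L) := by
      rw [ht]
      field_simp
    have h3 : c * Real.log 2 * (t * L) ≤ c * Real.log 2 * j :=
      mul_le_mul_of_nonneg_left hJ (by positivity)
    nlinarith
  · have hJ : (⌈t * L⌉₊ : ℝ) < t * L + 1 := Nat.ceil_lt_add_one (by positivity)
    rw [← ht]
    nlinarith

open Classical in
theorem sFK (h1 : SFa) (h2 : SFb) (h3 : SFc) : SFK := by
  intro S ι _ φ r B κ hφ hκ0 hκ1 hr hmax
  obtain ⟨Ca, Ea, ca, hCa, hEa, hca, Ha⟩ := h1 S ι φ B κ hκ0 hκ1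
  obtain ⟨Cb, hCb, Hb⟩ := h2 S ι B κ hκ0 hκ1
  obtain ⟨Cc, Ec, hCc, hEc, Hc⟩ := h3 S ι φ B κ hφ hκ0 hκ1
  obtain ⟨n, hn⟩ : ∃ n : ℕ, n = Fintype.card ι := ⟨_, rfl⟩
  obtain ⟨N, hN⟩ : ∃ N : ℝ, N = ((Finset.univ : Finset (Finset ι)).card : ℝ) := ⟨_, rfl⟩
  have hN0 : 0 ≤ N := by rw [hN]; positivity
  obtain ⟨K, hK⟩ : ∃ K : ℝ, K = 2 + Ea / (ca * Real.log 2) := ⟨_, rfl⟩
  have hl2 : 0 < Real.log 2 := Real.log_pos (by norm_num)
  have hK0 : 0 ≤ K := by rw [hK]; positivity
  refine ⟨N * (Ca + Cb + N * Cc) * K ^ ((n : ℝ) + Ec), (n : ℝ) + Ec, by positivity,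
    by positivity, ?_⟩
  intro τ D Φ hτ hD hΦ σ hσ0 hσ1
  have hL : 0 ≤ Real.log (1 / σ) := Real.log_nonneg (by
    rw [le_div_iff₀ hσ0]
    linarith)
  obtain ⟨A, hA⟩ : ∃ A : Finset (Finset ι), A =
    Finset.univ.filter (fun U : Finset ι => Ind φ U ∧ U.card = r) := ⟨_, rfl⟩
  rw [← hA]
  -- the remaining function of the pattern
  obtain ⟨Ψ, hΨ⟩ : ∃ Ψ : Finset ι → ℝ, Ψ = fun P => if P ∈ A then 0 else Φ P := ⟨_, rfl⟩
  have hΨ1 : ∀ U, |Ψ U| ≤ 1 := by
    intro U
    rw [hΨ]
    simp only
    split_ifs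
    · simp
    · exact hΦ U
  have h1U : ∀ U : Finset ι, ∀ P : Finset ι, |(if P = U then (1 : ℝ) else 0)| ≤ 1 := by
    intro U P
    split_ifs <;> simp
  have hsΦ := (Hb τ φ D Φ hτ hΦ σ hσ0 hσ1).1
  have hsU := fun U : Finset ι =>
    (Hb τ φ D (fun P => if P = U then 1 else 0) hτ (h1U U) σ hσ0 hσ1).1
  obtain ⟨hsΨ, HbΨ⟩ := Hb τ φ D Ψ hτ hΨ1 σ hσ0 hσ1
  have hlin : FK τ κ (1 + σ) φ D Φ -
      ∑ U ∈ A, Φ U * FK τ κ (1 + σ) φ D (fun P => if P = U then 1 else 0) =
      ∑' x : ι → Finset S.P, Kt τ κ (1 + σ) φ D Ψ x := by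
    unfold FK
    simp only [← tsum_mul_left]
    rw [← Summable.tsum_finsetSum fun U _ => (hsU U).mul_left (Φ U),
      ← hsΦ.tsum_sub (summable_sum fun U _ => (hsU U).mul_left (Φ U)), hΨ]
    exact tsum_congr fun x => bfk_lin τ κ (1 + σ) φ D Φ A x
  rw [hlin]
  obtain ⟨J, hJ1, hJ2⟩ := bfk_J Ea ca σ hEa hca hσ0 hσ1
  rw [← hK] at hJ2
  rw [bfk_part _ hsΨ (fun x => lrg S J x)]
  -- the factors
  have hM : 1 ≤ 1 + Real.log (S.nm D.M) := by
    have : 0 ≤ Real.log (S.nm D.M) := Real.log_nonneg (by exact_mod_cast bfk_nm_pos D.M)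
    linarith
  have hw : 1 ≤ ∏ t, ls S (D.w t) := by
    have : ∀ t ∈ (Finset.univ : Finset ι), 1 ≤ ls S (D.w t) := fun t _ => bfk_ls _
    calc (1 : ℝ) = ∏ t : ι, (1 : ℝ) := by simp
      _ ≤ ∏ t, ls S (D.w t) := Finset.prod_le_prod (fun _ _ => zero_le_one) this
  have hr1 : (1 : ℝ) ≤ r := by exact_mod_cast hr
  have hσr : 1 ≤ σ ^ (-(κ * ((r : ℝ) - 1))) :=
    Real.one_le_rpow_of_pos_of_le_one_of_nonpos hσ0 hσ1 (by
      have : 0 ≤ κ * ((r : ℝ) - 1) := mul_nonneg hκ0.le (by linarith)
      linarith)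
  obtain ⟨m, hm⟩ : ∃ m : ℝ, m = 1 + Real.log (S.nm D.M) := ⟨_, rfl⟩
  obtain ⟨w, hwd⟩ : ∃ w : ℝ, w = ∏ t, ls S (D.w t) := ⟨_, rfl⟩
  obtain ⟨z, hz⟩ : ∃ z : ℝ, z = σ ^ (-(κ * ((r : ℝ) - 1))) := ⟨_, rfl⟩
  rw [← hm] at hM ⊢
  rw [← hwd] at hw ⊢
  rw [← hz] at hσr ⊢
  obtain ⟨j, hj⟩ : ∃ j : ℝ, j = 1 + (J : ℝ) := ⟨_, rfl⟩
  have hj1 : 1 ≤ j := by
    rw [hj]
    have : (0 : ℝ) ≤ J := Nat.cast_nonneg J
    linarith
  obtain ⟨q, hq⟩ : ∃ q : ℝ, q = j ^ ((n : ℝ) + Ec) := ⟨_, rfl⟩
  have hq1 : 1 ≤ q := by
    rw [hq]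
    exact Real.one_le_rpow hj1 (by positivity)
  have hqn : j ^ n ≤ q := by
    rw [hq, ← Real.rpow_natCast]
    exact Real.rpow_le_rpow_of_exponent_le hj1 (by linarith)
  have hqE : j ^ Ec ≤ q := by
    rw [hq]
    exact Real.rpow_le_rpow_of_exponent_le hj1 (by
      have : (0 : ℝ) ≤ n := Nat.cast_nonneg n
      linarith)
  have hmw : 1 ≤ m * w := one_le_mul_of_one_le_of_one_le hM hw
  have hmwz : 1 ≤ m * w * z := one_le_mul_of_one_le_of_one_le hmw hσr
  have hqmwz : 1 ≤ q * (m * w * z) := one_le_mul_of_one_le_of_one_le hq1 hmwz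
  -- the bound for one set of large variables
  have key : ∀ I : Finset ι,
      |∑' x : ι → Finset S.P, (if lrg S J x = I then Kt τ κ (1 + σ) φ D Ψ x else 0)| ≤
        (Ca + Cb + N * Cc) * (q * (m * w * z)) := by
    intro I
    by_cases hI : Ind φ I
    · rcases (hmax I hI).lt_or_eq with hlt | heq
      · -- few large variables
        have h4 := HbΨ J I
        have h5 : |∑' x : ι → Finset S.P,
            (if lrg S J x = I then Kt τ κ (1 + σ) φ D Ψ x else 0)| ≤
            ∑' x : ι → Finset S.P,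
              (if lrg S J x = I then |Kt τ κ (1 + σ) φ D Ψ x| else 0) := by
          have h6 : Summable fun x : ι → Finset S.P =>
              ‖(if lrg S J x = I then Kt τ κ (1 + σ) φ D Ψ x else 0)‖ := by
            have h := hsΨ.indicator {x | lrg S J x = I}
            refine (h.norm).congr fun x => ?_
            simp [Set.indicator_apply]
          have h7 := norm_tsum_le_tsum_norm h6
          rw [Real.norm_eq_abs] at h7
          refine h7.trans (le_of_eq (tsum_congr fun x => ?_))
          split_ifs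
          · exact Real.norm_eq_abs _
          · exact norm_zero
        have h8 : σ ^ (-(κ * (I.card : ℝ))) ≤ z := by
          rw [hz]
          apply Real.rpow_le_rpow_of_exponent_ge hσ0 hσ1
          have h9 : (I.card : ℝ) ≤ (r : ℝ) - 1 := by
            have : (I.card : ℝ) + 1 ≤ r := by exact_mod_cast hlt
            linarith
          have := mul_le_mul_of_nonneg_left h9 hκ0.le
          linarith
        have h10 : (1 + (J : ℝ)) ^ Fintype.card ι ≤ q := by
          rw [← hj, ← hn]
          exact hqn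
        calc _ ≤ _ := h5
          _ ≤ Cb * (1 + (J : ℝ)) ^ Fintype.card ι * σ ^ (-(κ * I.card)) := h4
          _ ≤ Cb * q * z := by
            apply mul_le_mul (mul_le_mul_of_nonneg_left h10 hCb) h8 (by positivity)
              (by positivity)
          _ ≤ Cb * (q * (m * w * z)) := by
            have h11 : q * z ≤ q * (m * w * z) :=
              mul_le_mul_of_nonneg_left (le_mul_of_one_le_left (by linarith) hmw) (by linarith)
            calc Cb * q * z = Cb * (q * z) := by ring
              _ ≤ _ := mul_le_mul_of_nonneg_left h11 hCb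
          _ ≤ (Ca + Cb + N * Cc) * (q * (m * w * z)) := by
            apply mul_le_mul_of_nonneg_right _ (by linarith)
            have : 0 ≤ N * Cc := mul_nonneg hN0 hCc
            linarith
      · -- a maximal set of large variables
        have hsI : Summable fun x : ι → Finset S.P =>
            (if lrg S J x = I then Kt τ κ (1 + σ) φ D Ψ x else 0) := by
          have h := hsΨ.indicator {x | lrg S J x = I}
          refine h.congr fun x => ?_
          simp [Set.indicator_apply]
        rw [bfk_part _ hsI (fun x => pat x)]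
        have hP : ∀ P : Finset ι, |∑' x : ι → Finset S.P, (if pat x = P then
            (if lrg S J x = I then Kt τ κ (1 + σ) φ D Ψ x else 0) else 0)| ≤
            Cc * (q * (m * w * z)) := by
          intro P
          have hcc : 0 ≤ Cc * (q * (m * w * z)) := mul_nonneg hCc (by linarith)
          have hzero : (∀ x : ι → Finset S.P, (if pat x = P then
            (if lrg S J x = I then Kt τ κ (1 + σ) φ D Ψ x else 0) else 0) = 0) →
            |∑' x : ι → Finset S.P, (if pat x = P then
            (if lrg S J x = I then Kt τ κ (1 + σ) φ D Ψ x else 0) else 0)| ≤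
            Cc * (q * (m * w * z)) := by
            intro h
            have h4 : ∑' x : ι → Finset S.P, (if pat x = P then
              (if lrg S J x = I then Kt τ κ (1 + σ) φ D Ψ x else 0) else 0) = 0 := by
              rw [tsum_congr h, tsum_zero]
            rw [h4, abs_zero]
            exact hcc
          by_cases hIP : I ⊆ P
          · by_cases hPI : P = I
            · -- the pattern is the set itself
              apply hzero
              intro x
              split_ifs with g1 g2
              · unfold Kt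
                have g3 : Ψ (pat x) = 0 := by
                  rw [hΨ, g1, hPI]
                  simp only
                  rw [if_pos]
                  rw [hA, Finset.mem_filter]
                  exact ⟨Finset.mem_univ _, hI, heq⟩
                rw [g3]
                simp
              · rfl
              · rfl
            · obtain ⟨v, hvP, hvI⟩ : ∃ v ∈ P, v ∉ I := by
                by_contra hcon
                push Not at hcon
                exact hPI (Finset.Subset.antisymm hcon hIP)
              have hni : ¬ Ind φ (insert v I) := by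
                intro hind
                have h5 := hmax _ hind
                rw [Finset.card_insert_of_notMem hvI, heq] at h5
                omega
              obtain ⟨u, huI, huv⟩ : ∃ u ∈ I, Lk φ u v := by
                by_contra hcon
                push Not at hcon
                apply hni
                intro a ha b hb hab
                rw [Finset.mem_insert] at ha hb
                rcases ha with rfl | ha
                · rcases hb with rfl | hb
                  · unfold Lk at hab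
                    rw [hφ, add_zero] at hab
                    exact zero_ne_one hab
                  · apply hcon b hb
                    unfold Lk at hab ⊢
                    rw [add_comm]
                    exact hab
                · rcases hb with rfl | hb
                  · exact hcon a ha hab
                  · exact hI a ha b hb hab
              have h6 := Hc τ D Ψ hτ hD hΨ1 I P u v huI hvP hvI huv
                (fun t ht => hI u huI t ht) σ J hσ0 hσ1
              have h7 : ∑' x : ι → Finset S.P, (if pat x = P then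
                  (if lrg S J x = I then Kt τ κ (1 + σ) φ D Ψ x else 0) else 0) =
                  ∑' x : ι → Finset S.P,
                  (if lrg S J x = I ∧ pat x = P then Kt τ κ (1 + σ) φ D Ψ x else 0) := by
                refine tsum_congr fun x => ?_
                by_cases g1 : pat x = P <;> by_cases g2 : lrg S J x = I <;> simp [g1, g2]
              rw [h7]
              refine h6.trans ?_
              rw [← hm, ← hwd, ← hj, heq, ← hz]
              calc Cc * j ^ Ec * m * w * z = Cc * (j ^ Ec * (m * w * z)) := by ring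
                _ ≤ Cc * (q * (m * w * z)) := by
                  apply mul_le_mul_of_nonneg_left _ hCc
                  exact mul_le_mul_of_nonneg_right hqE (by linarith)
          · apply hzero
            intro x
            split_ifs with g1 g2
            · exfalso
              apply hIP
              rw [← g1, ← g2]
              exact bfk_sub J x
            · rfl
            · rfl
        calc |∑ P : Finset ι, ∑' x : ι → Finset S.P, (if pat x = P then
              (if lrg S J x = I then Kt τ κ (1 + σ) φ D Ψ x else 0) else 0)|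
            ≤ ∑ P : Finset ι, Cc * (q * (m * w * z)) :=
              (Finset.abs_sum_le_sum_abs _ _).trans (Finset.sum_le_sum fun P _ => hP P)
          _ = N * Cc * (q * (m * w * z)) := by
              rw [Finset.sum_const, nsmul_eq_mul, hN]
              ring
          _ ≤ (Ca + Cb + N * Cc) * (q * (m * w * z)) := by
              apply mul_le_mul_of_nonneg_right _ (by linarith)
              linarith
    · -- two linked large variables
      obtain ⟨u, hu, v, hv, huv⟩ : ∃ u ∈ I, ∃ v ∈ I, Lk φ u v := by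
        by_contra hcon
        push Not at hcon
        exact hI fun u hu v hv => hcon u hu v hv
      have h4 := Ha τ D Ψ hτ hΨ1 I u v hu hv huv σ J hσ0 hσ1
      calc _ ≤ _ := h4
        _ = Ca * (σ ^ (-Ea) * (2 : ℝ) ^ (-(ca * J))) := by ring
        _ ≤ Ca * 1 := mul_le_mul_of_nonneg_left hJ1 hCa
        _ ≤ Ca * (q * (m * w * z)) := mul_le_mul_of_nonneg_left hqmwz hCa
        _ ≤ (Ca + Cb + N * Cc) * (q * (m * w * z)) := by
          apply mul_le_mul_of_nonneg_right _ (by linarith)
          have : 0 ≤ N * Cc := mul_nonneg hN0 hCc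
          linarith
  have hqK : q ≤ K ^ ((n : ℝ) + Ec) * (1 + Real.log (1 / σ)) ^ ((n : ℝ) + Ec) := by
    rw [hq, ← Real.mul_rpow hK0 (by linarith)]
    apply Real.rpow_le_rpow (by linarith) _ (by positivity)
    rw [hj]
    exact hJ2
  calc |∑ I : Finset ι, ∑' x : ι → Finset S.P,
        (if lrg S J x = I then Kt τ κ (1 + σ) φ D Ψ x else 0)|
      ≤ ∑ I : Finset ι, (Ca + Cb + N * Cc) * (q * (m * w * z)) :=
        (Finset.abs_sum_le_sum_abs _ _).trans (Finset.sum_le_sum fun I _ => key I)
    _ = N * (Ca + Cb + N * Cc) * (q * (m * w * z)) := by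
        rw [Finset.sum_const, nsmul_eq_mul, hN]
        ring
    _ ≤ N * (Ca + Cb + N * Cc) *
        ((K ^ ((n : ℝ) + Ec) * (1 + Real.log (1 / σ)) ^ ((n : ℝ) + Ec)) * (m * w * z)) := by
        apply mul_le_mul_of_nonneg_left _ (by positivity)
        exact mul_le_mul_of_nonneg_right hqK (by linarith)
    _ = N * (Ca + Cb + N * Cc) * K ^ ((n : ℝ) + Ec) *
        (1 + Real.log (1 / σ)) ^ ((n : ℝ) + Ec) * m * w * z := by ring

end Pool.Agent.D8
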