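import Pool.Agent.D8.Stm

/-!
# Malle's conjecture for the dihedral group of order 16 over number fields, row A7: two large
linked variables among many
-/

set_option autoImplicit false

open scoped BigOperators Topology
open Filter

namespace Pool.Agent.D8

open Pool.Agent.H98.MK (sg)
open Pool.Agent.H98.MF
open Pool.Agent.H32.MQ (El pw)

/-! ### products over finite families -/

theorem bfa_pi {T X : Type} [Fintype T] (g : X → ℝ) (hg : ∀ x, 0 ≤ g x) (hs : Summable g) :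
    (Summable fun r : T → X => ∏ t, g (r t)) ∧
      ∑' r : T → X, ∏ t, g (r t) ≤ (∑' x, g x) ^ Fintype.card T := by
  classical
  have h1 : ∀ F : Finset (T → X), ∑ r ∈ F, ∏ t, g (r t) ≤ (∑' x, g x) ^ Fintype.card T := by
    intro F
    have h2 : F ⊆ Fintype.piFinset fun t => F.image fun r => r t := by
      intro r hr
      rw [Fintype.mem_piFinset]
      exact fun t => Finset.mem_image_of_mem _ hr
    refine (Finset.sum_le_sum_of_subset_of_nonneg h2 fun r _ _ =>
      Finset.prod_nonneg fun t _ => hg _).trans ?_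
    rw [← Finset.prod_univ_sum]
    refine (Finset.prod_le_prod (fun t _ => Finset.sum_nonneg fun x _ => hg x)
      fun t _ => hs.sum_le_tsum _ fun x _ => hg x).trans (le_of_eq ?_)
    rw [Finset.prod_const, Finset.card_univ]
  have h2 : Summable fun r : T → X => ∏ t, g (r t) :=
    summable_of_sum_le (fun r => Finset.prod_nonneg fun t _ => hg _) h1
  exact ⟨h2, h2.tsum_le_of_sum_le h1⟩

section glue

variable {S : Sys} {ι : Type}

/-- the other variables -/
abbrev Rs (u v : ι) : Type := {t : ι // t ≠ u ∧ t ≠ v}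

noncomputable instance rsFt [Fintype ι] (u v : ι) : Fintype (Rs u v) := Fintype.ofFinite _

open Classical in
/-- a tuple from two variables and the others -/
noncomputable def glu (u v : ι) (r : Rs u v → Finset S.P) (z : Finset S.P × Finset S.P) :
    ι → Finset S.P := fun t =>
  if hu : t = u then z.1 else if hv : t = v then z.2 else r ⟨t, hu, hv⟩

theorem glu_u (u v : ι) (r : Rs u v → Finset S.P) (z : Finset S.P × Finset S.P) :
    glu u v r z u = z.1 := dif_pos rfl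

theorem glu_v {u v : ι} (h : u ≠ v) (r : Rs u v → Finset S.P) (z : Finset S.P × Finset S.P) :
    glu u v r z v = z.2 := by
  unfold glu
  rw [dif_neg h.symm, dif_pos rfl]

theorem glu_r {u v : ι} (r : Rs u v → Finset S.P) (z : Finset S.P × Finset S.P) (t : Rs u v) :
    glu u v r z t.1 = r t := by
  unfold glu
  rw [dif_neg t.2.1, dif_neg t.2.2]

/-- the equivalence -/
noncomputable def glE {u v : ι} (h : u ≠ v) :
    (Rs u v → Finset S.P) × (Finset S.P × Finset S.P) ≃ (ι → Finset S.P) where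
  toFun p := glu u v p.1 p.2
  invFun x := (fun t => x t.1, (x u, x v))
  left_inv p := by
    refine Prod.ext ?_ (Prod.ext ?_ ?_)
    · funext t
      exact glu_r p.1 p.2 t
    · exact glu_u u v p.1 p.2
    · exact glu_v h p.1 p.2
  right_inv x := by
    funext t
    by_cases hu : t = u
    · subst hu
      exact glu_u _ _ _ _
    · by_cases hv : t = v
      · subst hv
        exact glu_v h _ _
      · exact glu_r (u := u) (v := v) _ _ ⟨t, hu, hv⟩

theorem gl_sum [Fintype ι] {M : Type*} [AddCommMonoid M] {u v : ι} (h : u ≠ v) (f : ι → M) :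
    ∑ t, f t = f u + (f v + ∑ t : Rs u v, f t.1) := by
  classical
  have h1 : (Finset.univ : Finset ι) =
      insert u (insert v (Finset.univ.filter fun t => t ≠ u ∧ t ≠ v)) := by
    ext t
    simp only [Finset.mem_univ, Finset.mem_insert, Finset.mem_filter, true_and, true_iff]
    tauto
  have h2 : u ∉ insert v (Finset.univ.filter fun t => t ≠ u ∧ t ≠ v) := by
    simp only [Finset.mem_insert, Finset.mem_filter, Finset.mem_univ, true_and, not_or]
    exact ⟨h, fun h3 => h3.1 rfl⟩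
  have h3 : v ∉ (Finset.univ.filter fun t => t ≠ u ∧ t ≠ v) := by
    simp only [Finset.mem_filter, Finset.mem_univ, true_and]
    exact fun h3 => h3.2 rfl
  rw [h1, Finset.sum_insert h2, Finset.sum_insert h3]
  congr 2
  refine Finset.sum_subtype _ (fun t => ?_) _
  simp only [Finset.mem_filter, Finset.mem_univ, true_and]

theorem gl_prod [Fintype ι] {M : Type*} [CommMonoid M] {u v : ι} (h : u ≠ v) (f : ι → M) :
    ∏ t, f t = f u * (f v * ∏ t : Rs u v, f t.1) := by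
  have h1 := gl_sum (M := Additive M) h (fun t => Additive.ofMul (f t))
  exact h1

theorem gl_all {u v : ι} {p : ι → Prop} : (∀ t, p t) ↔ (p u ∧ p v ∧ ∀ t : Rs u v, p t.1) := by
  refine ⟨fun h => ⟨h u, h v, fun t => h t.1⟩, fun h t => ?_⟩
  by_cases hu : t = u
  · rw [hu]; exact h.1
  · by_cases hv : t = v
    · rw [hv]; exact h.2.1
    · exact h.2.2 ⟨t, hu, hv⟩

theorem gl_Dj {u v : ι} (h : u ≠ v) (r : Rs u v → Finset S.P) (z : Finset S.P × Finset S.P) :
    S.Dj (glu u v r z) ↔ Disjoint z.1 z.2 ∧ (∀ t, Disjoint z.1 (r t)) ∧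
      (∀ t, Disjoint z.2 (r t)) ∧ S.Dj r := by
  constructor
  · intro hd
    refine ⟨?_, fun t => ?_, fun t => ?_, fun i j hij => ?_⟩
    · have := hd u v h
      rwa [glu_u, glu_v h] at this
    · have := hd u t.1 (Ne.symm t.2.1)
      rwa [glu_u, glu_r] at this
    · have := hd v t.1 (Ne.symm t.2.2)
      rwa [glu_v h, glu_r] at this
    · have := hd i.1 j.1 (fun e => hij (Subtype.ext e))
      rwa [glu_r, glu_r] at this
  · rintro ⟨h1, h2, h3, h4⟩
    have key : ∀ i : ι, ∀ j : ι, i ≠ j →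
        Disjoint (glu u v r z i) (glu u v r z j) := by
      intro i j hij
      by_cases iu : i = u
      · subst iu
        by_cases jv : j = v
        · subst jv
          rw [glu_u, glu_v h]
          exact h1
        · have := h2 ⟨j, Ne.symm hij, jv⟩
          rw [glu_u, glu_r r z ⟨j, Ne.symm hij, jv⟩]
          exact this
      · by_cases iv : i = v
        · subst iv
          by_cases ju : j = u
          · subst ju
            rw [glu_u, glu_v h]
            exact h1.symm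
          · rw [glu_v h, glu_r r z ⟨j, ju, Ne.symm hij⟩]
            exact h3 _
        · by_cases ju : j = u
          · subst ju
            rw [glu_u, glu_r r z ⟨i, iu, iv⟩]
            exact (h2 _).symm
          · by_cases jv : j = v
            · subst jv
              rw [glu_v h, glu_r r z ⟨i, iu, iv⟩]
              exact (h3 _).symm
            · rw [glu_r r z ⟨i, iu, iv⟩, glu_r r z ⟨j, ju, jv⟩]
              exact h4 _ _ (fun e => hij (congrArg Subtype.val e))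
    exact key

open Classical in
/-- the pattern on the others -/
noncomputable def glI (u v : ι) [Fintype ι] (I : Finset ι) : Finset (Rs u v) :=
  Finset.univ.filter fun t => t.1 ∈ I

theorem lrg_iff [Fintype ι] (J : ℕ) (x : ι → Finset S.P) (I : Finset ι) :
    lrg S J x = I ↔ ∀ t, (2 ^ J < S.nm (x t) ↔ t ∈ I) := by
  unfold lrg
  rw [Finset.ext_iff]
  refine forall_congr' fun t => ?_
  rw [Finset.mem_filter]
  simp only [Finset.mem_univ, true_and]

theorem gl_lrg [Fintype ι] {u v : ι} (h : u ≠ v) {I : Finset ι} (hu : u ∈ I) (hv : v ∈ I) (J : ℕ)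
    (r : Rs u v → Finset S.P) (z : Finset S.P × Finset S.P) :
    lrg S J (glu u v r z) = I ↔
      (2 ^ J < S.nm z.1 ∧ 2 ^ J < S.nm z.2) ∧ lrg S J r = glI u v I := by
  classical
  rw [lrg_iff, lrg_iff, gl_all (u := u) (v := v), glu_u, glu_v h]
  have h1 : (∀ t : Rs u v, (2 ^ J < S.nm (glu u v r z t.1) ↔ t.1 ∈ I)) ↔
      ∀ t : Rs u v, (2 ^ J < S.nm (r t) ↔ t ∈ glI u v I) := by
    refine forall_congr' fun t => ?_
    rw [glu_r]
    unfold glI
    simp only [Finset.mem_filter, Finset.mem_univ, true_and]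
  rw [h1]
  constructor
  · rintro ⟨a, b, c⟩
    exact ⟨⟨a.2 hu, b.2 hv⟩, c⟩
  · rintro ⟨⟨a, b⟩, c⟩
    exact ⟨⟨fun _ => hu, fun _ => a⟩, ⟨fun _ => hv, fun _ => b⟩, c⟩

theorem big_ne {J : ℕ} {x : Finset S.P} (h : 2 ^ J < S.nm x) : x.Nonempty := by
  rcases x.eq_empty_or_nonempty with h1 | h1
  · rw [h1, S.nm_empty] at h
    have := Nat.one_le_two_pow (n := J)
    omega
  · exact h1

open Classical in
/-- the pattern of a tuple with two nonempty variables -/
noncomputable def glP [Fintype ι] (u v : ι) (r : Rs u v → Finset S.P) : Finset ι :=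
  insert u (insert v ((pat r).image Subtype.val))

theorem gl_pat [Fintype ι] {u v : ι} (h : u ≠ v) (r : Rs u v → Finset S.P)
    (z : Finset S.P × Finset S.P) (h1 : z.1.Nonempty) (h2 : z.2.Nonempty) :
    pat (glu u v r z) = glP u v r := by
  classical
  ext t
  unfold glP pat
  simp only [Finset.mem_filter, Finset.mem_univ, true_and, Finset.mem_insert, Finset.mem_image]
  by_cases hu : t = u
  · subst hu
    rw [glu_u]
    exact ⟨fun _ => Or.inl rfl, fun _ => h1⟩
  · by_cases hv : t = v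
    · subst hv
      rw [glu_v h]
      exact ⟨fun _ => Or.inr (Or.inl rfl), fun _ => h2⟩
    · have e : glu u v r z t = r ⟨t, hu, hv⟩ := glu_r r z ⟨t, hu, hv⟩
      rw [e]
      constructor
      · intro h3
        exact Or.inr (Or.inr ⟨⟨t, hu, hv⟩, h3, rfl⟩)
      · rintro (h3 | h3 | ⟨t', h3, rfl⟩)
        · exact absurd h3 hu
        · exact absurd h3 hv
        · exact h3

/-- the exponent of one variable -/
noncomputable def glX [Fintype ι] (φ : ι → ι → ZMod 2) (D : Vd S ι) (u v w : ι)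
    (r : Rs u v → Finset S.P) (a : Finset S.P) : ZMod 2 :=
  φ w w * S.JJ a a + ∑ t : Rs u v, φ w t.1 * S.JJ a (r t) +
    ∑ t : Rs u v, φ t.1 w * S.JJ (r t) a + ∑ p ∈ a, S.ex (D.c w).2 (D.c w).1 p

/-- the exponent of the others -/
noncomputable def glR [Fintype ι] (φ : ι → ι → ZMod 2) (D : Vd S ι) (u v : ι)
    (r : Rs u v → Finset S.P) : ZMod 2 :=
  ∑ t : Rs u v, ∑ t' : Rs u v, φ t.1 t'.1 * S.JJ (r t) (r t') +
    ∑ t : Rs u v, ∑ p ∈ r t, S.ex (D.c t.1).2 (D.c t.1).1 p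

theorem gl_KE [Fintype ι] (φ : ι → ι → ZMod 2) (D : Vd S ι) {u v : ι} (h : u ≠ v)
    (r : Rs u v → Finset S.P) (z : Finset S.P × Finset S.P) :
    KE φ D (glu u v r z) = φ u v * S.JJ z.1 z.2 + φ v u * S.JJ z.2 z.1 + glX φ D u v u r z.1 +
      glX φ D u v v r z.2 + glR φ D u v r := by
  have h1 : ∀ s, ∑ t, φ s t * S.JJ (glu u v r z s) (glu u v r z t) =
      φ s u * S.JJ (glu u v r z s) z.1 + (φ s v * S.JJ (glu u v r z s) z.2 +
        ∑ t : Rs u v, φ s t.1 * S.JJ (glu u v r z s) (r t)) := by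
    intro s
    rw [gl_sum h, glu_u, glu_v h]
    simp only [glu_r]
  unfold KE glX glR
  rw [Finset.sum_congr rfl fun s _ => h1 s, gl_sum h, gl_sum h (fun s => ∑ p ∈ glu u v r z s,
    S.ex (D.c s).2 (D.c s).1 p), glu_u, glu_v h]
  simp only [glu_r, Finset.sum_add_distrib]
  ring

end glue

section bound

variable {S : Sys}

theorem hh_nonneg {B : ℝ} {τ : S.P → ℝ} (hτ : Tk S B τ) {κ : ℝ} (h0 : 0 ≤ κ) (e : El S)
    (w : Finset S.P) (p : S.P) : 0 ≤ hh S τ κ e w p := by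
  unfold hh
  split_ifs
  · exact le_rfl
  · have h1 := (abs_le.1 (abs_sgr (S.ex e.2 e.1 p)).le).1
    exact mul_nonneg (mul_nonneg h0 (hτ p).1) (by linarith)

theorem hh_le {B : ℝ} {τ : S.P → ℝ} (hτ : Tk S B τ) {κ : ℝ} (h0 : 0 ≤ κ) (e : El S)
    (w : Finset S.P) (p : S.P) : hh S τ κ e w p ≤ κ * τ p := by
  unfold hh
  have h2 : 0 ≤ κ * τ p := mul_nonneg h0 (hτ p).1
  split_ifs
  · exact h2
  · have h1 := (abs_le.1 (abs_sgr (S.ex e.2 e.1 p)).le).2
    exact mul_le_of_le_one_right h2 (by linarith)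

theorem pw_prod (s : ℝ) (f : S.P → ℝ) (x : Finset S.P) :
    ∏ p ∈ x, (f p * (S.N p : ℝ) ^ (-s)) = (∏ p ∈ x, f p) * pw s x := by
  unfold pw Pre.nm
  rw [Finset.prod_mul_distrib, Nat.cast_prod,
    Real.finsetProd_rpow _ _ (fun p _ => Nat.cast_nonneg _)]

theorem pw_nonneg' (s : ℝ) (x : Finset S.P) : 0 ≤ pw s x :=
  Real.rpow_nonneg (Nat.cast_nonneg _) _

/-- the trivial weight of one variable -/
noncomputable def g1 (τ : S.P → ℝ) (κ s : ℝ) (x : Finset S.P) : ℝ :=
  (∏ p ∈ x, κ * τ p) * ls S x ^ 0 * pw s x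

theorem g1_nonneg {B : ℝ} {τ : S.P → ℝ} (hτ : Tk S B τ) {κ : ℝ} (h0 : 0 ≤ κ) (s : ℝ)
    (x : Finset S.P) : 0 ≤ g1 τ κ s x := by
  unfold g1
  rw [pow_zero, mul_one]
  exact mul_nonneg (Finset.prod_nonneg fun p _ => mul_nonneg h0 (hτ p).1) (pw_nonneg' s x)

theorem hprod_abs {B : ℝ} {τ : S.P → ℝ} (hτ : Tk S B τ) {κ : ℝ} (h0 : 0 ≤ κ) (s : ℝ)
    (e : El S) (w x : Finset S.P) :
    |∏ p ∈ x, (hh S τ κ e w p * (S.N p : ℝ) ^ (-s))| ≤ g1 τ κ s x := by
  rw [pw_prod, abs_mul, abs_of_nonneg (pw_nonneg' s x), abs_of_nonneg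
    (Finset.prod_nonneg fun p _ => hh_nonneg hτ h0 e w p)]
  unfold g1
  rw [pow_zero, mul_one]
  exact mul_le_mul_of_nonneg_right (Finset.prod_le_prod (fun p _ => hh_nonneg hτ h0 e w p)
    fun p _ => hh_le hτ h0 e w p) (pw_nonneg' s x)

theorem Kt_abs {ι : Type} [Fintype ι] {B : ℝ} {τ : S.P → ℝ} (hτ : Tk S B τ) {κ : ℝ}
    (h0 : 0 ≤ κ) (s : ℝ) (φ : ι → ι → ZMod 2) (D : Vd S ι) {Φ : Finset ι → ℝ}
    (hΦ : ∀ U, |Φ U| ≤ 1) (x : ι → Finset S.P) :
    |Kt τ κ s φ D Φ x| ≤ ∏ t, g1 τ κ s (x t) := by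
  unfold Kt
  split_ifs
  · rw [abs_mul, abs_mul, abs_sgr, mul_one, Finset.abs_prod]
    calc |Φ (pat x)| * ∏ t, |∏ p ∈ x t, (hh S τ κ (D.e t) (D.w t) p * (S.N p : ℝ) ^ (-s))|
        ≤ 1 * ∏ t, g1 τ κ s (x t) := by
          refine mul_le_mul (hΦ _) (Finset.prod_le_prod (fun t _ => abs_nonneg _)
            fun t _ => hprod_abs hτ h0 s _ _ _) (Finset.prod_nonneg fun t _ => abs_nonneg _)
            zero_le_one
      _ = _ := one_mul _
  · rw [abs_zero]
    exact Finset.prod_nonneg fun t _ => g1_nonneg hτ h0 s _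

open Classical in
/-- the weight of one of the two variables -/
noncomputable def glA {ι : Type} [Fintype ι] (τ : S.P → ℝ) (κ : ℝ) (φ : ι → ι → ZMod 2)
    (D : Vd S ι) (u v w : ι) (r : Rs u v → Finset S.P) (a : Finset S.P) : ℝ :=
  if ∀ t, Disjoint a (r t) then ((sg (glX φ D u v w r a) : ℤ) : ℝ) *
    ∏ p ∈ a, hh S τ κ (D.e w) (D.w w) p else 0

theorem glA_abs {ι : Type} [Fintype ι] {B : ℝ} {τ : S.P → ℝ} (hτ : Tk S B τ) {κ : ℝ}
    (h0 : 0 ≤ κ) (h1 : κ ≤ 1) (φ : ι → ι → ZMod 2) (D : Vd S ι) (u v w : ι)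
    (r : Rs u v → Finset S.P) (a : Finset S.P) :
    |glA τ κ φ D u v w r a| ≤ ∏ p ∈ a, τ p := by
  unfold glA
  split_ifs
  · rw [abs_mul, abs_sgr, one_mul, abs_of_nonneg
      (Finset.prod_nonneg fun p _ => hh_nonneg hτ h0 _ _ p)]
    refine Finset.prod_le_prod (fun p _ => hh_nonneg hτ h0 _ _ p) fun p _ => ?_
    refine (hh_le hτ h0 _ _ p).trans ?_
    exact mul_le_of_le_one_left (hτ p).1 h1
  · rw [abs_zero]
    exact Finset.prod_nonneg fun p _ => (hτ p).1

open Classical in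
/-- the coefficient of the others -/
noncomputable def glC {ι : Type} [Fintype ι] (τ : S.P → ℝ) (κ s : ℝ) (φ : ι → ι → ZMod 2)
    (D : Vd S ι) (Φ : Finset ι → ℝ) (u v : ι) (I : Finset ι) (J : ℕ)
    (r : Rs u v → Finset S.P) : ℝ :=
  if S.Dj r ∧ lrg S J r = glI u v I then Φ (glP u v r) * ((sg (glR φ D u v r) : ℤ) : ℝ) *
    ∏ t : Rs u v, ∏ p ∈ r t, (hh S τ κ (D.e t.1) (D.w t.1) p * (S.N p : ℝ) ^ (-s)) else 0

theorem glC_abs {ι : Type} [Fintype ι] {B : ℝ} {τ : S.P → ℝ} (hτ : Tk S B τ) {κ : ℝ}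
    (h0 : 0 ≤ κ) (s : ℝ) (φ : ι → ι → ZMod 2) (D : Vd S ι) {Φ : Finset ι → ℝ}
    (hΦ : ∀ U, |Φ U| ≤ 1) (u v : ι) (I : Finset ι) (J : ℕ) (r : Rs u v → Finset S.P) :
    |glC τ κ s φ D Φ u v I J r| ≤ ∏ t, g1 τ κ s (r t) := by
  unfold glC
  split_ifs
  · rw [abs_mul, abs_mul, abs_sgr, mul_one, Finset.abs_prod]
    calc |Φ (glP u v r)| * ∏ t : Rs u v, |∏ p ∈ r t, (hh S τ κ (D.e t.1) (D.w t.1) p *
          (S.N p : ℝ) ^ (-s))| ≤ 1 * ∏ t, g1 τ κ s (r t) := by
          refine mul_le_mul (hΦ _) (Finset.prod_le_prod (fun t _ => abs_nonneg _)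
            fun t _ => hprod_abs hτ h0 s _ _ _) (Finset.prod_nonneg fun t _ => abs_nonneg _)
            zero_le_one
      _ = _ := one_mul _
  · rw [abs_zero]
    exact Finset.prod_nonneg fun t _ => g1_nonneg hτ h0 s _

open Classical in
/-- the term for fixed others -/
theorem gl_term {ι : Type} [Fintype ι] (τ : S.P → ℝ) (κ s : ℝ) (φ : ι → ι → ZMod 2)
    (D : Vd S ι) (Φ : Finset ι → ℝ) {u v : ι} (h : u ≠ v) (huv : φ u v = 1) (hvu : φ v u = 0)
    {I : Finset ι} (hu : u ∈ I) (hv : v ∈ I) (J : ℕ) (r : Rs u v → Finset S.P)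
    (z : Finset S.P × Finset S.P) :
    (if lrg S J (glu u v r z) = I then Kt τ κ s φ D Φ (glu u v r z) else 0) =
      glC τ κ s φ D Φ u v I J r *
        (if Disjoint z.1 z.2 ∧ 2 ^ J < S.nm z.1 ∧ 2 ^ J < S.nm z.2
          then glA τ κ φ D u v u r z.1 * glA τ κ φ D u v v r z.2 * (S.jj z.1 z.2 : ℝ) *
            (pw s z.1 * pw s z.2) else 0) := by
  by_cases hz : 2 ^ J < S.nm z.1 ∧ 2 ^ J < S.nm z.2
  swap
  · rw [if_neg (fun hc => hz ((gl_lrg h hu hv J r z).1 hc).1), if_neg (fun hc => hz hc.2),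
      mul_zero]
  by_cases hr : lrg S J r = glI u v I
  swap
  · have h1 : glC τ κ s φ D Φ u v I J r = 0 := if_neg (fun hc => hr hc.2)
    rw [if_neg (fun hc => hr ((gl_lrg h hu hv J r z).1 hc).2), h1, zero_mul]
  rw [if_pos ((gl_lrg h hu hv J r z).2 ⟨hz, hr⟩)]
  by_cases hd : S.Dj (glu u v r z)
  swap
  · have e0 : Kt τ κ s φ D Φ (glu u v r z) = 0 := if_neg hd
    rw [e0]
    rw [gl_Dj h] at hd
    symm
    by_cases d1 : Disjoint z.1 z.2
    · by_cases d2 : ∀ t, Disjoint z.1 (r t)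
      · by_cases d3 : ∀ t, Disjoint z.2 (r t)
        · have h1 : glC τ κ s φ D Φ u v I J r = 0 :=
            if_neg (fun hc => hd ⟨d1, d2, d3, hc.1⟩)
          rw [h1, zero_mul]
        · have h1 : glA τ κ φ D u v v r z.2 = 0 := if_neg d3
          rw [h1]
          simp
      · have h1 : glA τ κ φ D u v u r z.1 = 0 := if_neg d2
        rw [h1]
        simp
    · rw [if_neg (fun hc => d1 hc.1), mul_zero]
  · obtain ⟨d1, d2, d3, d4⟩ := (gl_Dj h r z).1 hd
    have e0 : Kt τ κ s φ D Φ (glu u v r z) = Φ (pat (glu u v r z)) *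
        ((sg (KE φ D (glu u v r z)) : ℤ) : ℝ) * ∏ t, ∏ p ∈ glu u v r z t,
          (hh S τ κ (D.e t) (D.w t) p * (S.N p : ℝ) ^ (-s)) := if_pos hd
    have e1 : glC τ κ s φ D Φ u v I J r = Φ (glP u v r) * ((sg (glR φ D u v r) : ℤ) : ℝ) *
      ∏ t : Rs u v, ∏ p ∈ r t, (hh S τ κ (D.e t.1) (D.w t.1) p * (S.N p : ℝ) ^ (-s)) :=
      if_pos ⟨d4, hr⟩
    have e2 : glA τ κ φ D u v u r z.1 = ((sg (glX φ D u v u r z.1) : ℤ) : ℝ) *
      ∏ p ∈ z.1, hh S τ κ (D.e u) (D.w u) p := if_pos d2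
    have e3 : glA τ κ φ D u v v r z.2 = ((sg (glX φ D u v v r z.2) : ℤ) : ℝ) *
      ∏ p ∈ z.2, hh S τ κ (D.e v) (D.w v) p := if_pos d3
    rw [e0, e1, if_pos ⟨d1, hz⟩, e2, e3, gl_pat h r z (big_ne hz.1) (big_ne hz.2), gl_KE φ D h,
      huv, hvu, one_mul, zero_mul, add_zero, gl_prod h, glu_u, glu_v h]
    simp only [glu_r, sg_add]
    rw [pw_prod s _ z.1, pw_prod s _ z.2]
    unfold Sys.jj
    push_cast
    ring

end bound

theorem sFa (h : SBx) (h1 : ST1) : SFa := by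
  classical
  intro S ι _ φ B κ hκ0 hκ1
  obtain ⟨C, E, c, hC, hE, hc, hB⟩ := h S B
  obtain ⟨C1, hC1, hT⟩ := h1 S B κ 0 hκ0.le (by linarith)
  set m : ℕ := Fintype.card ι with hm
  refine ⟨(max C1 1) ^ m * C, m + E, c, mul_nonneg (pow_nonneg (le_trans hC1 (le_max_left _ _)) _)
    hC, by positivity, hc, ?_⟩
  intro τ D Φ hτ hΦ I u v hu hv hl σ J hσ0 hσ1
  obtain ⟨hs, ht, -⟩ := hT τ hτ σ hσ0 hσ1
  have hs' : Summable (g1 τ κ (1 + σ)) := hs
  have ht' : ∑' x, g1 τ κ (1 + σ) x ≤ C1 * σ ^ (-κ) := ht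
  have hg0 : ∀ x, 0 ≤ g1 τ κ (1 + σ) x := g1_nonneg hτ hκ0.le (1 + σ)
  set b : ℝ := C * σ ^ (-E) * (2 : ℝ) ^ (-(c * J)) with hb
  have hb0 : 0 ≤ b := by positivity
  -- the main estimate
  have key : ∀ u v : ι, u ∈ I → v ∈ I → u ≠ v → φ u v = 1 → φ v u = 0 →
      |∑' x : ι → Finset S.P, (if lrg S J x = I then Kt τ κ (1 + σ) φ D Φ x else 0)| ≤
        (∑' x, g1 τ κ (1 + σ) x) ^ Fintype.card (Rs u v) * b := by
    intro u v hu hv hne huv hvu
    obtain ⟨q1, q2⟩ := bfa_pi (T := Rs u v) _ hg0 hs'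
    obtain ⟨F, hF⟩ : ∃ F : (ι → Finset S.P) → ℝ,
        F = fun x => (if lrg S J x = I then Kt τ κ (1 + σ) φ D Φ x else 0) := ⟨_, rfl⟩
    have hsum : Summable F := by
      refine Summable.of_norm_bounded (bfa_pi (T := ι) _ hg0 hs').1 fun x => ?_
      rw [Real.norm_eq_abs, hF]
      beta_reduce
      split_ifs
      · exact Kt_abs hτ hκ0.le _ φ D hΦ x
      · rw [abs_zero]
        exact Finset.prod_nonneg fun t _ => hg0 _
    have hsum' : Summable fun p => F (glE (S := S) hne p) :=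
      (glE (S := S) hne).summable_iff.2 hsum
    have e1 : ∀ (r : Rs u v → Finset S.P) (z : Finset S.P × Finset S.P),
        F (glE (S := S) hne (r, z)) = glC τ κ (1 + σ) φ D Φ u v I J r *
        (if Disjoint z.1 z.2 ∧ 2 ^ J < S.nm z.1 ∧ 2 ^ J < S.nm z.2
          then glA τ κ φ D u v u r z.1 * glA τ κ φ D u v v r z.2 * (S.jj z.1 z.2 : ℝ) *
            (pw (1 + σ) z.1 * pw (1 + σ) z.2) else 0) := by
      intro r z
      have e2 : glE (S := S) hne (r, z) = glu u v r z := rfl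
      rw [e2, hF]
      exact gl_term τ κ (1 + σ) φ D Φ hne huv hvu hu hv J r z
    have e3 : ∑' x : ι → Finset S.P, (if lrg S J x = I then Kt τ κ (1 + σ) φ D Φ x else 0) =
        ∑' (r : Rs u v → Finset S.P) (z : Finset S.P × Finset S.P),
          F (glE (S := S) hne (r, z)) := by
      rw [← hsum'.tsum_prod, (glE (S := S) hne).tsum_eq F, hF]
    rw [e3]
    have q3 : HasSum (fun r : Rs u v → Finset S.P => (∏ t, g1 τ κ (1 + σ) (r t)) * b)
        ((∑' r : Rs u v → Finset S.P, ∏ t, g1 τ κ (1 + σ) (r t)) * b) := q1.hasSum.mul_right b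
    have q4 : ∀ r : Rs u v → Finset S.P, ‖∑' z : Finset S.P × Finset S.P,
        F (glE (S := S) hne (r, z))‖ ≤ (∏ t, g1 τ κ (1 + σ) (r t)) * b := by
      intro r
      rw [tsum_congr fun z => e1 r z, tsum_mul_left, norm_mul, Real.norm_eq_abs,
        Real.norm_eq_abs]
      refine mul_le_mul (glC_abs hτ hκ0.le _ φ D hΦ u v I J r) ?_ (abs_nonneg _)
        (Finset.prod_nonneg fun t _ => hg0 _)
      exact hB τ hτ (glA τ κ φ D u v u r) (glA τ κ φ D u v v r)
        (glA_abs hτ hκ0.le hκ1 φ D u v u r) (glA_abs hτ hκ0.le hκ1 φ D u v v r) σ J hσ0 hσ1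
    have q5 := tsum_of_norm_bounded q3 q4
    rw [Real.norm_eq_abs] at q5
    exact q5.trans (mul_le_mul_of_nonneg_right q2 hb0)
  -- constants
  have hcard : ∀ u v : ι, Fintype.card (Rs u v) ≤ m := fun u v =>
    Fintype.card_subtype_le _
  have hfin : ∀ u v : ι, (∑' x, g1 τ κ (1 + σ) x) ^ Fintype.card (Rs u v) * b ≤
      (max C1 1) ^ m * C * σ ^ (-((m : ℝ) + E)) * (2 : ℝ) ^ (-(c * J)) := by
    intro u v
    have a1 : 1 ≤ max C1 1 * σ⁻¹ := by
      have a2 : 1 ≤ σ⁻¹ := (one_le_inv₀ hσ0).2 hσ1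
      exact one_le_mul_of_one_le_of_one_le (le_max_right _ _) a2
    have a2 : ∑' x, g1 τ κ (1 + σ) x ≤ max C1 1 * σ⁻¹ := by
      refine ht'.trans (mul_le_mul (le_max_left _ _) ?_ (Real.rpow_nonneg hσ0.le _)
        (le_trans hC1 (le_max_left _ _)))
      rw [← Real.rpow_neg_one]
      exact Real.rpow_le_rpow_of_exponent_ge hσ0 hσ1 (by linarith)
    have a3 : (∑' x, g1 τ κ (1 + σ) x) ^ Fintype.card (Rs u v) ≤ (max C1 1 * σ⁻¹) ^ m :=
      (pow_le_pow_left₀ (tsum_nonneg hg0) a2 _).trans (pow_le_pow_right₀ a1 (hcard u v))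
    refine (mul_le_mul_of_nonneg_right a3 hb0).trans (le_of_eq ?_)
    rw [hb, mul_pow, neg_add, Real.rpow_add hσ0, Real.rpow_neg hσ0.le (m : ℝ),
      Real.rpow_natCast, inv_pow]
    ring
  -- the two cases
  have hne : u ≠ v := by
    intro e
    unfold Lk at hl
    rw [e] at hl
    rcases zm2 (φ v v) with h2 | h2
    · rw [h2] at hl
      exact absurd hl (by decide)
    · rw [h2] at hl
      exact absurd hl (by decide)
  have hcases : (φ u v = 1 ∧ φ v u = 0) ∨ (φ v u = 1 ∧ φ u v = 0) := by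
    unfold Lk at hl
    rcases zm2 (φ u v) with h2 | h2
    · rw [h2, zero_add] at hl
      exact Or.inr ⟨hl, h2⟩
    · rw [h2] at hl
      refine Or.inl ⟨h2, ?_⟩
      rcases zm2 (φ v u) with h3 | h3
      · exact h3
      · rw [h3] at hl
        exact absurd hl (by decide)
  rcases hcases with h2 | h2
  · exact (key u v hu hv hne h2.1 h2.2).trans (hfin u v)
  · exact (key v u hv hu hne.symm h2.1 h2.2).trans (hfin v u)

end Pool.Agent.D8
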