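import Pool.Agent.D8.Stm

/-!
# Malle's conjecture for the dihedral group of order 16 over number fields, row A8: the trivial
bound
-/

set_option autoImplicit false

open scoped BigOperators Topology
open Filter

namespace Pool.Agent.D8

open Pool.Agent.H98.MK (sg)
open Pool.Agent.H98.MF
open Pool.Agent.H32.MQ (El pw)

/-! ### products of sums -/

/-- the partial sums over boxes -/
theorem prod_pi_box {ι X : Type} [Fintype ι] [DecidableEq ι] (f : ι → X → ℝ)
    (s : ι → Finset X) :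
    ∑ x ∈ Fintype.piFinset s, ∏ u, f u (x u) = ∏ u, ∑ t ∈ s u, f u t :=
  (Finset.prod_univ_sum s f).symm

theorem prod_pi_summable {ι X : Type} [Fintype ι] (f : ι → X → ℝ) (h0 : ∀ u t, 0 ≤ f u t)
    (hf : ∀ u, Summable (f u)) : Summable fun x : ι → X => ∏ u, f u (x u) := by
  classical
  refine summable_of_sum_le (c := ∏ u, ∑' t, f u t)
    (fun x => Finset.prod_nonneg fun u _ => h0 u (x u)) fun T => ?_
  have hsub : T ⊆ Fintype.piFinset fun u => T.image fun x => x u := by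
    intro x hx
    rw [Fintype.mem_piFinset]
    exact fun u => Finset.mem_image_of_mem (fun x : ι → X => x u) hx
  calc ∑ x ∈ T, ∏ u, f u (x u)
      ≤ ∑ x ∈ Fintype.piFinset fun u => T.image fun x => x u, ∏ u, f u (x u) :=
        Finset.sum_le_sum_of_subset_of_nonneg hsub fun x _ _ =>
          Finset.prod_nonneg fun u _ => h0 u (x u)
    _ = ∏ u, ∑ t ∈ T.image fun x => x u, f u t := prod_pi_box f _
    _ ≤ ∏ u, ∑' t, f u t := Finset.prod_le_prod
        (fun u _ => Finset.sum_nonneg fun t _ => h0 u t)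
        fun u _ => (hf u).sum_le_tsum _ fun t _ => h0 u t

/-- the product lemma: sums over families are products of sums -/
theorem prod_pi {ι X : Type} [Fintype ι] (f : ι → X → ℝ) (h0 : ∀ u t, 0 ≤ f u t)
    (hf : ∀ u, Summable (f u)) : (Summable fun x : ι → X => ∏ u, f u (x u)) ∧
    ∑' x : ι → X, ∏ u, f u (x u) = ∏ u, ∑' t, f u t := by
  classical
  have hs := prod_pi_summable f h0 hf
  refine ⟨hs, le_antisymm ?_ ?_⟩
  · refine Real.tsum_le_of_sum_le (fun x => Finset.prod_nonneg fun u _ => h0 u (x u)) fun T => ?_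
    have hsub : T ⊆ Fintype.piFinset fun u => T.image fun x => x u := by
      intro x hx
      rw [Fintype.mem_piFinset]
      exact fun u => Finset.mem_image_of_mem (fun x : ι → X => x u) hx
    calc ∑ x ∈ T, ∏ u, f u (x u)
        ≤ ∑ x ∈ Fintype.piFinset fun u => T.image fun x => x u, ∏ u, f u (x u) :=
          Finset.sum_le_sum_of_subset_of_nonneg hsub fun x _ _ =>
            Finset.prod_nonneg fun u _ => h0 u (x u)
      _ = ∏ u, ∑ t ∈ T.image fun x => x u, f u t := prod_pi_box f _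
      _ ≤ ∏ u, ∑' t, f u t := Finset.prod_le_prod
          (fun u _ => Finset.sum_nonneg fun t _ => h0 u t)
          fun u _ => (hf u).sum_le_tsum _ fun t _ => h0 u t
  · have ht : Tendsto (fun s : Finset X => ∏ u, ∑ t ∈ s, f u t) atTop
        (𝓝 (∏ u, ∑' t, f u t)) := tendsto_finsetProd _ fun u _ => (hf u).hasSum
    refine le_of_tendsto' ht fun s => ?_
    rw [← prod_pi_box f fun _ => s]
    exact hs.sum_le_tsum _ fun x _ => Finset.prod_nonneg fun u _ => h0 u (x u)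

/-! ### the terms -/

section

variable {S : Sys} {ι : Type}

theorem bfb_pw_eq (s : ℝ) (x : Finset S.P) : pw s x = ∏ p ∈ x, (S.N p : ℝ) ^ (-s) := by
  unfold pw Pre.nm
  rw [Nat.cast_prod, Real.finsetProd_rpow _ _ fun p _ => Nat.cast_nonneg _]

theorem bfb_hh_nonneg {τ : S.P → ℝ} {κ : ℝ} (hτ : ∀ p, 0 ≤ τ p) (hκ : 0 ≤ κ) (e : El S)
    (w : Finset S.P) (p : S.P) : 0 ≤ hh S τ κ e w p := by
  unfold hh
  split_ifs
  · exact le_refl 0
  · have h := abs_sgr (S.ex e.2 e.1 p)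
    have h1 := (abs_le.1 h.le).1
    exact mul_nonneg (mul_nonneg hκ (hτ p)) (by linarith)

theorem bfb_hh_le {τ : S.P → ℝ} {κ : ℝ} (hτ : ∀ p, 0 ≤ τ p) (hκ : 0 ≤ κ) (e : El S)
    (w : Finset S.P) (p : S.P) : hh S τ κ e w p ≤ κ * τ p := by
  have h0 : 0 ≤ κ * τ p := mul_nonneg hκ (hτ p)
  unfold hh
  split_ifs
  · exact h0
  · have h := abs_sgr (S.ex e.2 e.1 p)
    have h1 := (abs_le.1 h.le).2
    exact mul_le_of_le_one_right h0 (by linarith)

/-- the majorant of one variable -/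
noncomputable def bfF (τ : S.P → ℝ) (κ s : ℝ) (x : Finset S.P) : ℝ :=
  (∏ p ∈ x, κ * τ p) * pw s x

theorem bfF_nonneg {τ : S.P → ℝ} {κ : ℝ} (hτ : ∀ p, 0 ≤ τ p) (hκ : 0 ≤ κ) (s : ℝ)
    (x : Finset S.P) : 0 ≤ bfF τ κ s x :=
  mul_nonneg (Finset.prod_nonneg fun p _ => mul_nonneg hκ (hτ p))
    (Real.rpow_nonneg (Nat.cast_nonneg _) _)

/-- the terms are bounded by products -/
theorem bfb_Kt_le [Fintype ι] {τ : S.P → ℝ} {κ : ℝ} (hτ : ∀ p, 0 ≤ τ p) (hκ : 0 ≤ κ) (s : ℝ)
    (φ : ι → ι → ZMod 2) (D : Vd S ι) (Φ : Finset ι → ℝ) (hΦ : ∀ U, |Φ U| ≤ 1)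
    (x : ι → Finset S.P) : |Kt τ κ s φ D Φ x| ≤ ∏ u, bfF τ κ s (x u) := by
  have hr : 0 ≤ ∏ u, bfF τ κ s (x u) := Finset.prod_nonneg fun u _ => bfF_nonneg hτ hκ s _
  unfold Kt
  split_ifs
  · rw [abs_mul, abs_mul, abs_sgr, mul_one]
    have h1 : 0 ≤ ∏ u, ∏ p ∈ x u, (hh S τ κ (D.e u) (D.w u) p * (S.N p : ℝ) ^ (-s)) :=
      Finset.prod_nonneg fun u _ => Finset.prod_nonneg fun p _ =>
        mul_nonneg (bfb_hh_nonneg hτ hκ _ _ _) (Real.rpow_nonneg (Nat.cast_nonneg _) _)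
    rw [abs_of_nonneg h1]
    refine (mul_le_of_le_one_left h1 (hΦ _)).trans ?_
    refine Finset.prod_le_prod (fun u _ => Finset.prod_nonneg fun p _ =>
      mul_nonneg (bfb_hh_nonneg hτ hκ _ _ _) (Real.rpow_nonneg (Nat.cast_nonneg _) _))
      fun u _ => ?_
    unfold bfF
    rw [bfb_pw_eq, ← Finset.prod_mul_distrib]
    exact Finset.prod_le_prod (fun p _ =>
      mul_nonneg (bfb_hh_nonneg hτ hκ _ _ _) (Real.rpow_nonneg (Nat.cast_nonneg _) _))
      fun p _ => mul_le_mul_of_nonneg_right (bfb_hh_le hτ hκ _ _ _)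
        (Real.rpow_nonneg (Nat.cast_nonneg _) _)
  · rw [abs_zero]
    exact hr

end

open Classical in
/-- A8: the trivial bound -/
theorem sFb (h : ST1) : SFb := by
  intro S ι _ B κ hκ hκ1
  obtain ⟨C1, hC1, hT⟩ := h S B κ 0 hκ.le (by linarith)
  refine ⟨(C1 + 1) ^ Fintype.card ι, by positivity, ?_⟩
  intro τ φ D Φ hτ hΦ σ hσ hσ1
  obtain ⟨hsum, hle, hbx⟩ := hT τ hτ σ hσ hσ1
  have hτ0 : ∀ p, 0 ≤ τ p := fun p => (hτ p).1
  have hFeq : ∀ (s : ℝ) (x : Finset S.P),
      (∏ p ∈ x, κ * τ p) * ls S x ^ 0 * pw s x = bfF τ κ s x := by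
    intro s x
    rw [pow_zero, mul_one]
    rfl
  simp only [hFeq] at hsum hle hbx
  have hF0 : ∀ x : Finset S.P, 0 ≤ bfF τ κ (1 + σ) x := bfF_nonneg hτ0 hκ.le _
  have hpi := prod_pi (ι := ι) (fun _ => bfF τ κ (1 + σ)) (fun _ => hF0) (fun _ => hsum)
  have hKle := fun x : ι → Finset S.P => bfb_Kt_le hτ0 hκ.le (1 + σ) φ D Φ hΦ x
  have hKs : Summable fun x : ι → Finset S.P => |Kt τ κ (1 + σ) φ D Φ x| :=
    Summable.of_nonneg_of_le (fun x => abs_nonneg _) hKle hpi.1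
  refine ⟨hKs.of_abs, fun J I => ?_⟩
  -- the majorant
  set G : ι → Finset S.P → ℝ := fun u t =>
    if u ∈ I then bfF τ κ (1 + σ) t else if t ∈ S.bx (2 ^ J) then bfF τ κ (1 + σ) t else 0
    with hG
  have hG0 : ∀ u t, 0 ≤ G u t := by
    intro u t
    simp only [hG]
    split_ifs
    · exact hF0 t
    · exact hF0 t
    · exact le_refl 0
  have hGs : ∀ u, Summable (G u) := by
    intro u
    refine Summable.of_nonneg_of_le (hG0 u) (fun t => ?_) hsum
    simp only [hG]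
    split_ifs
    · exact le_refl _
    · exact le_refl _
    · exact hF0 t
  have hGp := prod_pi G hG0 hGs
  have h1 : ∀ x : ι → Finset S.P, (if lrg S J x = I then |Kt τ κ (1 + σ) φ D Φ x| else 0) ≤
      ∏ u, G u (x u) := by
    intro x
    split_ifs with hI
    · refine (hKle x).trans (le_of_eq (Finset.prod_congr rfl fun u _ => ?_))
      simp only [hG]
      by_cases hu : u ∈ I
      · rw [if_pos hu]
      · rw [if_neg hu, if_pos]
        rw [S.mem_bx]
        rw [← hI] at hu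
        unfold lrg at hu
        rw [Finset.mem_filter] at hu
        have h2 : ¬ 2 ^ J < S.nm (x u) := fun h3 => hu ⟨Finset.mem_univ _, h3⟩
        exact_mod_cast not_lt.1 h2
    · exact Finset.prod_nonneg fun u _ => hG0 u (x u)
  have h2 : ∑' x : ι → Finset S.P, (if lrg S J x = I then |Kt τ κ (1 + σ) φ D Φ x| else 0) ≤
      ∏ u, ∑' t, G u t := by
    rw [← hGp.2]
    refine Summable.tsum_le_tsum h1 ?_ hGp.1
    refine Summable.of_nonneg_of_le (fun x => ?_) h1 hGp.1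
    split_ifs
    · exact abs_nonneg _
    · exact le_refl 0
  have hJ : (1 : ℝ) ≤ 1 + J := by linarith [(Nat.cast_nonneg J : (0 : ℝ) ≤ J)]
  have hσκ : 0 ≤ σ ^ (-κ) := Real.rpow_nonneg hσ.le _
  have h3 : ∀ u, ∑' t, G u t ≤ ((C1 + 1) * (1 + J)) * (if u ∈ I then σ ^ (-κ) else 1) := by
    intro u
    by_cases hu : u ∈ I
    · have h4 : G u = bfF τ κ (1 + σ) := by
        funext t
        simp only [hG]
        rw [if_pos hu]
      rw [h4, if_pos hu]
      refine hle.trans (mul_le_mul_of_nonneg_right ?_ hσκ)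
      nlinarith
    · have h4 : G u = fun t => if t ∈ S.bx (2 ^ J) then bfF τ κ (1 + σ) t else 0 := by
        funext t
        simp only [hG]
        rw [if_neg hu]
      rw [h4, if_neg hu, mul_one, tsum_eq_sum (s := S.bx (2 ^ J)) (fun t ht => if_neg ht)]
      have h5 : ∑ t ∈ S.bx (2 ^ J), (if t ∈ S.bx (2 ^ J) then bfF τ κ (1 + σ) t else 0) ≤
          ∑ t ∈ S.bx (2 ^ J), bfF τ κ 1 t := by
        refine Finset.sum_le_sum fun t ht => ?_
        rw [if_pos ht]
        unfold bfF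
        refine mul_le_mul_of_nonneg_left ?_
          (Finset.prod_nonneg fun p _ => mul_nonneg hκ.le (hτ0 p))
        unfold pw
        exact Real.rpow_le_rpow_of_exponent_le (S.one_le_nmr t) (by linarith)
      refine h5.trans ((hbx J).trans ?_)
      have h6 : (1 + (J : ℝ)) ^ κ ≤ 1 + J := by
        calc (1 + (J : ℝ)) ^ κ ≤ (1 + (J : ℝ)) ^ (1 : ℝ) :=
              Real.rpow_le_rpow_of_exponent_le hJ hκ1
          _ = 1 + J := Real.rpow_one _
      calc C1 * (1 + (J : ℝ)) ^ κ ≤ C1 * (1 + J) := mul_le_mul_of_nonneg_left h6 hC1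
        _ ≤ (C1 + 1) * (1 + J) := by nlinarith
  refine h2.trans ?_
  calc ∏ u, ∑' t, G u t
      ≤ ∏ u, ((C1 + 1) * (1 + J)) * (if u ∈ I then σ ^ (-κ) else 1) :=
        Finset.prod_le_prod (fun u _ => tsum_nonneg (hG0 u)) fun u _ => h3 u
    _ = ((C1 + 1) * (1 + J)) ^ Fintype.card ι * (σ ^ (-κ)) ^ I.card := by
        rw [Finset.prod_mul_distrib, Finset.prod_const, Finset.card_univ]
        congr 1
        rw [Finset.prod_ite_mem, Finset.univ_inter, Finset.prod_const]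
    _ = (C1 + 1) ^ Fintype.card ι * (1 + (J : ℝ)) ^ Fintype.card ι * σ ^ (-(κ * I.card)) := by
        rw [mul_pow, ← Real.rpow_natCast (σ ^ (-κ)), ← Real.rpow_mul hσ.le, neg_mul]

end Pool.Agent.D8
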