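import Pool.Agent.D8.Stm

/-!
# Malle's conjecture for the dihedral group of order 16 over number fields, block A: a large
variable linked to a small one
-/

set_option autoImplicit false

open scoped BigOperators Topology
open Filter

namespace Pool.Agent.D8

open Pool.Agent.H98.MK (sg)
open Pool.Agent.H98.MF
open Pool.Agent.H32.MQ (El pw)

/-! ### losses and weights -/

section

variable {S : Sys}

theorem bfc_one_le_ls (x : Finset S.P) : 1 ≤ ls S x := by
  unfold ls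
  exact Real.one_le_exp (Finset.sum_nonneg fun p _ => by positivity)

theorem bfc_ls_pos (x : Finset S.P) : 0 < ls S x := lt_of_lt_of_le one_pos (bfc_one_le_ls x)

theorem bfc_ls_mono {x y : Finset S.P} (h : x ⊆ y) : ls S x ≤ ls S y := by
  unfold ls
  exact Real.exp_le_exp.2 (Finset.sum_le_sum_of_subset_of_nonneg h fun p _ _ => by positivity)

theorem bfc_ls_union (x y : Finset S.P) : ls S (x ∪ y) ≤ ls S x * ls S y := by
  unfold ls
  rw [← Real.exp_add, ← Finset.sum_union_inter]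
  refine Real.exp_le_exp.2 (le_add_of_nonneg_right ?_)
  exact Finset.sum_nonneg fun p _ => by positivity

theorem bfc_ls_biUnion {ι : Type} (s : Finset ι) (f : ι → Finset S.P) :
    ls S (s.biUnion f) ≤ ∏ t ∈ s, ls S (f t) := by
  classical
  induction s using Finset.induction_on with
  | empty =>
    rw [Finset.biUnion_empty, Finset.prod_empty]
    unfold ls
    rw [Finset.sum_empty, Real.exp_zero]
  | insert a s ha ih =>
    rw [Finset.biUnion_insert, Finset.prod_insert ha]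
    refine (bfc_ls_union _ _).trans ?_
    exact mul_le_mul_of_nonneg_left ih (bfc_ls_pos _).le

theorem bfc_hh {τ : S.P → ℝ} (hτ : ∀ p, 0 ≤ τ p) {κ : ℝ} (hκ : 0 ≤ κ) (e : El S)
    (w : Finset S.P) (p : S.P) : 0 ≤ hh S τ κ e w p ∧ hh S τ κ e w p ≤ κ * τ p := by
  have h1 : 0 ≤ κ * τ p := mul_nonneg hκ (hτ p)
  unfold hh
  split_ifs with h
  · exact ⟨le_rfl, h1⟩
  · rcases zm2 (S.ex e.2 e.1 p) with h2 | h2
    · rw [h2, sg_zero]
      norm_num
      exact h1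
    · rw [h2, sg_one]
      norm_num
      exact h1

theorem bfc_hh_zero {τ : S.P → ℝ} {κ : ℝ} {e : El S} {w : Finset S.P} {p : S.P} (h : p ∈ w) :
    hh S τ κ e w p = 0 := by
  unfold hh
  rw [if_pos h]

theorem bfc_pw (s : ℝ) (x : Finset S.P) : ∏ p ∈ x, (S.N p : ℝ) ^ (-s) = pw (S := S) s x := by
  unfold pw Pre.nm
  rw [Nat.cast_prod]
  exact Real.finsetProd_rpow _ _ (fun p _ => Nat.cast_nonneg _) _

theorem bfc_pw_nonneg (s : ℝ) (x : Finset S.P) : 0 ≤ pw (S := S) s x :=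
  Real.rpow_nonneg (Nat.cast_nonneg _) _

theorem bfc_pw_le {s t : ℝ} (h : s ≤ t) (x : Finset S.P) : pw (S := S) t x ≤ pw (S := S) s x :=
  Real.rpow_le_rpow_of_exponent_le (S.one_le_nmr x) (by linarith)

theorem bfc_pwt {τ : S.P → ℝ} (hτ : ∀ p, 0 ≤ τ p) {κ : ℝ} (hκ : 0 ≤ κ) (e : El S)
    (w : Finset S.P) (s : ℝ) (x : Finset S.P) :
    0 ≤ ∏ p ∈ x, (hh S τ κ e w p * (S.N p : ℝ) ^ (-s)) ∧
    ∏ p ∈ x, (hh S τ κ e w p * (S.N p : ℝ) ^ (-s)) ≤ (∏ p ∈ x, κ * τ p) * pw (S := S) s x := by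
  constructor
  · exact Finset.prod_nonneg fun p _ => mul_nonneg (bfc_hh hτ hκ e w p).1
      (Real.rpow_nonneg (Nat.cast_nonneg _) _)
  · rw [← bfc_pw, ← Finset.prod_mul_distrib]
    refine Finset.prod_le_prod (fun p _ => mul_nonneg (bfc_hh hτ hκ e w p).1
      (Real.rpow_nonneg (Nat.cast_nonneg _) _)) fun p _ => ?_
    exact mul_le_mul_of_nonneg_right (bfc_hh hτ hκ e w p).2
      (Real.rpow_nonneg (Nat.cast_nonneg _) _)

end

/-! ### splitting off one variable -/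

open Classical in
/-- insert a set at `u` -/
noncomputable def bfcX {P ι : Type} (u : ι) (y : {t : ι // t ≠ u} → Finset P) (d : Finset P)
    (t : ι) : Finset P :=
  if h : t = u then d else y ⟨t, h⟩

theorem bfcX_self {P ι : Type} (u : ι) (y : {t : ι // t ≠ u} → Finset P) (d : Finset P) :
    bfcX u y d u = d := by
  unfold bfcX
  rw [dif_pos rfl]

theorem bfcX_ne {P ι : Type} (u : ι) (y : {t : ι // t ≠ u} → Finset P) (d : Finset P)
    (t : {t : ι // t ≠ u}) : bfcX u y d t.1 = y t := by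
  unfold bfcX
  rw [dif_neg t.2]

/-- the splitting -/
noncomputable def bfcE {P ι : Type} (u : ι) :
    (({t : ι // t ≠ u} → Finset P) × Finset P) ≃ (ι → Finset P) where
  toFun z := bfcX u z.1 z.2
  invFun x := (fun t => x t.1, x u)
  left_inv z := by
    refine Prod.ext ?_ ?_
    · funext t
      exact bfcX_ne u z.1 z.2 t
    · exact bfcX_self u z.1 z.2
  right_inv x := by
    funext t
    by_cases h : t = u
    · subst h
      exact bfcX_self _ _ _
    · exact bfcX_ne u _ _ ⟨t, h⟩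

/-- products of sums -/
theorem bfc_prod {P κ : Type} [Fintype κ] (A : κ → Finset P → ℝ) (b : κ → ℝ)
    (hA : ∀ t x, 0 ≤ A t x) (hb : ∀ t (F : Finset (Finset P)), ∑ x ∈ F, A t x ≤ b t) :
    (Summable fun y : κ → Finset P => ∏ t, A t (y t)) ∧
    ∑' y : κ → Finset P, ∏ t, A t (y t) ≤ ∏ t, b t := by
  classical
  have h0 : ∀ y : κ → Finset P, 0 ≤ ∏ t, A t (y t) := fun y =>
    Finset.prod_nonneg fun t _ => hA t _
  have h1 : ∀ F : Finset (κ → Finset P), ∑ y ∈ F, ∏ t, A t (y t) ≤ ∏ t, b t := by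
    intro F
    have h2 : F ⊆ Fintype.piFinset (fun t => F.image fun y => y t) := by
      intro y hy
      rw [Fintype.mem_piFinset]
      exact fun t => Finset.mem_image_of_mem _ hy
    refine (Finset.sum_le_sum_of_subset_of_nonneg h2 fun y _ _ => h0 y).trans ?_
    rw [← Finset.prod_univ_sum]
    exact Finset.prod_le_prod (fun t _ => Finset.sum_nonneg fun x _ => hA t x)
      fun t _ => hb t _
  exact ⟨summable_of_sum_le h0 h1, Real.tsum_le_of_sum_le h0 h1⟩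

section

variable {S : Sys} {ι : Type} [Fintype ι]

open Classical in
/-- the linked variables -/
noncomputable def bfcY (φ : ι → ι → ZMod 2) (u : ι) (y : {t : ι // t ≠ u} → Finset S.P) :
    Finset S.P := (Finset.univ.filter fun t : {t : ι // t ≠ u} => Lk φ u t.1).biUnion y

open Classical in
/-- all the other variables -/
noncomputable def bfcZ (u : ι) (y : {t : ι // t ≠ u} → Finset S.P) : Finset S.P :=
  Finset.univ.biUnion y

open Classical in
/-- the constant part of the exponent -/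
noncomputable def bfcG (φ : ι → ι → ZMod 2) (D : Vd S ι) (u : ι)
    (y : {t : ι // t ≠ u} → Finset S.P) : ZMod 2 :=
  ∑ s : {t : ι // t ≠ u}, ∑ t : {t : ι // t ≠ u}, φ s.1 t.1 * S.JJ (y s) (y t) +
    ∑ s : {t : ι // t ≠ u}, ∑ p ∈ y s, S.ex (D.c s.1).2 (D.c s.1).1 p

open Classical in
/-- the change of the character -/
noncomputable def bfcA (φ : ι → ι → ZMod 2) (u : ι)
    (y : {t : ι // t ≠ u} → Finset S.P) : ZMod 2 :=
  ∑ t : {t : ι // t ≠ u}, φ t.1 u * (S.l ⬝ᵥ S.tys (y t))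

theorem bfc_KE (φ : ι → ι → ZMod 2) (D : Vd S ι) (u : ι) (hφ : φ u u = 0)
    (y : {t : ι // t ≠ u} → Finset S.P) (hy : ∀ s t, s ≠ t → Disjoint (y s) (y t))
    (hc : Disjoint (bfcY φ u y) (D.c u).2) (d : Finset S.P) (hd : ∀ t, Disjoint d (y t)) :
    KE φ D (bfcX u y d) = bfcG φ D u y +
      ∑ p ∈ d, S.ex (bfcY φ u y ∪ (D.c u).2) ((D.c u).1 + bfcA φ u y • S.l) p := by
  classical
  have e1 : KE φ D (bfcX u y d) = bfcG φ D u y +
      (∑ t : {t : ι // t ≠ u}, (φ u t.1 * S.JJ d (y t) + φ t.1 u * S.JJ (y t) d) +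
        ∑ p ∈ d, S.ex (D.c u).2 (D.c u).1 p) := by
    unfold KE bfcG
    rw [Fintype.sum_eq_add_sum_subtype_ne _ u,
      Fintype.sum_eq_add_sum_subtype_ne
        (fun s => ∑ p ∈ bfcX u y d s, S.ex (D.c s).2 (D.c s).1 p) u]
    have h1 : ∀ s : {t : ι // t ≠ u}, ∑ v, φ s.1 v * S.JJ (bfcX u y d s.1) (bfcX u y d v) =
        φ s.1 u * S.JJ (y s) d + ∑ t : {t : ι // t ≠ u}, φ s.1 t.1 * S.JJ (y s) (y t) := by
      intro s
      rw [Fintype.sum_eq_add_sum_subtype_ne _ u, bfcX_self, bfcX_ne]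
      congr 1
      exact Finset.sum_congr rfl fun t _ => by rw [bfcX_ne]
    have h2 : ∑ v, φ u v * S.JJ (bfcX u y d u) (bfcX u y d v) =
        ∑ t : {t : ι // t ≠ u}, φ u t.1 * S.JJ d (y t) := by
      rw [Fintype.sum_eq_add_sum_subtype_ne _ u, hφ, zero_mul, zero_add]
      exact Finset.sum_congr rfl fun t _ => by rw [bfcX_ne, bfcX_self]
    have h3 : ∑ s : {t : ι // t ≠ u}, ∑ p ∈ bfcX u y d s.1, S.ex (D.c s.1).2 (D.c s.1).1 p =
        ∑ s : {t : ι // t ≠ u}, ∑ p ∈ y s, S.ex (D.c s.1).2 (D.c s.1).1 p :=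
      Finset.sum_congr rfl fun t _ => by rw [bfcX_ne]
    rw [h2, h3, bfcX_self, Finset.sum_congr rfl fun s _ => h1 s, Finset.sum_add_distrib,
      Finset.sum_add_distrib]
    ring
  have e2 : ∀ t : {t : ι // t ≠ u}, φ u t.1 * S.JJ d (y t) + φ t.1 u * S.JJ (y t) d =
      (if Lk φ u t.1 then S.JJ d (y t) else 0) +
        φ t.1 u * (S.l ⬝ᵥ S.tys (y t)) * (S.l ⬝ᵥ S.tys d) := by
    intro t
    have h1 : S.JJ (y t) d = S.JJ d (y t) + (S.l ⬝ᵥ S.tys (y t)) * (S.l ⬝ᵥ S.tys d) := by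
      have h2 := S.JJ_recip (hd t).symm
      rw [← h2]
      have h3 : S.JJ d (y t) + (S.JJ (y t) d + S.JJ d (y t)) =
          S.JJ (y t) d + (S.JJ d (y t) + S.JJ d (y t)) := by ring
      rw [h3, CharTwo.add_self_eq_zero, add_zero]
    have h4 : (if Lk φ u t.1 then S.JJ d (y t) else 0) = (φ u t.1 + φ t.1 u) * S.JJ d (y t) := by
      unfold Lk
      rcases zm2 (φ u t.1 + φ t.1 u) with h | h
      · rw [if_neg (by rw [h]; decide), h, zero_mul]
      · rw [if_pos h, h, one_mul]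
    rw [h4, h1]
    ring
  have e3 : S.JJ d (bfcY φ u y) = ∑ t : {t : ι // t ≠ u}, (if Lk φ u t.1 then S.JJ d (y t) else 0) := by
    unfold bfcY
    rw [S.JJ_biUnion_right d _ y fun i _ j _ hij => hy i j hij, Finset.sum_filter]
  rw [e1, Finset.sum_congr rfl fun t _ => e2 t, Finset.sum_add_distrib, ← e3, S.sum_ex, S.sum_ex,
    S.JJ_union_right d hc, add_dotProduct, smul_dotProduct, smul_eq_mul]
  unfold bfcA
  rw [Finset.sum_mul]
  ring

/-- the condition on the other variables -/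
def bfcC (u : ι) (I P : Finset ι) (J : ℕ) (y : {t : ι // t ≠ u} → Finset S.P) : Prop :=
  u ∈ P ∧ (∀ s t, s ≠ t → Disjoint (y s) (y t)) ∧ (∀ t, 2 ^ J < S.nm (y t) ↔ t.1 ∈ I) ∧
    ∀ t, (y t).Nonempty ↔ t.1 ∈ P

theorem bfc_mem_lrg {J : ℕ} {x : ι → Finset S.P} {t : ι} :
    t ∈ lrg S J x ↔ 2 ^ J < S.nm (x t) := by
  unfold lrg
  rw [Finset.mem_filter]
  exact ⟨fun h => h.2, fun h => ⟨Finset.mem_univ _, h⟩⟩

theorem bfc_mem_pat {x : ι → Finset S.P} {t : ι} : t ∈ pat x ↔ (x t).Nonempty := by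
  unfold pat
  rw [Finset.mem_filter]
  exact ⟨fun h => h.2, fun h => ⟨Finset.mem_univ _, h⟩⟩

theorem bfc_disj (φ : ι → ι → ZMod 2) (u : ι) (y : {t : ι // t ≠ u} → Finset S.P)
    (d : Finset S.P) : Disjoint d (bfcY φ u y ∪ bfcZ u y) ↔ ∀ t, Disjoint d (y t) := by
  classical
  rw [Finset.disjoint_union_right]
  unfold bfcY bfcZ
  rw [Finset.disjoint_biUnion_right, Finset.disjoint_biUnion_right]
  exact ⟨fun h t => h.2 t (Finset.mem_univ _), fun h => ⟨fun t _ => h t, fun t _ => h t⟩⟩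

theorem bfc_iff (φ : ι → ι → ZMod 2) (u : ι) (I P : Finset ι) (hu : u ∈ I) (J : ℕ)
    (y : {t : ι // t ≠ u} → Finset S.P) (d : Finset S.P) :
    ((lrg S J (bfcX u y d) = I ∧ pat (bfcX u y d) = P) ∧ S.Dj (bfcX u y d)) ↔
      bfcC u I P J y ∧ Disjoint d (bfcY φ u y ∪ bfcZ u y) ∧ 2 ^ J < S.nm d := by
  rw [bfc_disj]
  have hne : 2 ^ J < S.nm d → d.Nonempty := by
    intro h
    rw [Finset.nonempty_iff_ne_empty]
    rintro rfl
    rw [S.nm_empty] at h
    exact absurd h (not_lt.2 Nat.one_le_two_pow)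
  constructor
  · rintro ⟨⟨rfl, rfl⟩, h3⟩
    have h4 : 2 ^ J < S.nm d := by
      have h5 := bfc_mem_lrg.1 hu
      rwa [bfcX_self] at h5
    refine ⟨⟨?_, ?_, ?_, ?_⟩, ?_, h4⟩
    · rw [bfc_mem_pat, bfcX_self]
      exact hne h4
    · intro s t hst
      have h5 := h3 s.1 t.1 fun h => hst (Subtype.ext h)
      rwa [bfcX_ne, bfcX_ne] at h5
    · intro t
      rw [bfc_mem_lrg, bfcX_ne]
    · intro t
      rw [bfc_mem_pat, bfcX_ne]
    · intro t
      have h5 := h3 u t.1 t.2.symm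
      rwa [bfcX_self, bfcX_ne] at h5
  · rintro ⟨⟨h1, h2, h3, h4⟩, h5, h6⟩
    refine ⟨⟨?_, ?_⟩, ?_⟩
    · ext t
      rw [bfc_mem_lrg]
      by_cases ht : t = u
      · subst ht
        rw [bfcX_self]
        exact ⟨fun _ => hu, fun _ => h6⟩
      · have h7 := h3 ⟨t, ht⟩
        rw [bfcX_ne u y d ⟨t, ht⟩]
        exact h7
    · ext t
      rw [bfc_mem_pat]
      by_cases ht : t = u
      · subst ht
        rw [bfcX_self]
        exact ⟨fun _ => h1, fun _ => hne h6⟩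
      · have h7 := h4 ⟨t, ht⟩
        rw [bfcX_ne u y d ⟨t, ht⟩]
        exact h7
    · intro s t hst
      by_cases hs : s = u
      · subst hs
        have ht : t ≠ s := hst.symm
        rw [bfcX_self, bfcX_ne s y d ⟨t, ht⟩]
        exact h5 _
      · by_cases ht : t = u
        · subst ht
          rw [bfcX_self, bfcX_ne t y d ⟨s, hs⟩]
          exact (h5 _).symm
        · rw [bfcX_ne u y d ⟨s, hs⟩, bfcX_ne u y d ⟨t, ht⟩]
          exact h2 _ _ fun h => hst (congrArg Subtype.val h)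

open Classical in
/-- the coefficient of the inner sum -/
noncomputable def bfcK (τ : S.P → ℝ) (κ s : ℝ) (φ : ι → ι → ZMod 2) (D : Vd S ι)
    (Φ : Finset ι → ℝ) (I P : Finset ι) (J : ℕ) (u : ι)
    (y : {t : ι // t ≠ u} → Finset S.P) : ℝ :=
  if bfcC u I P J y then Φ P * ((sg (bfcG φ D u y) : ℤ) : ℝ) *
    ∏ t : {t : ι // t ≠ u}, ∏ p ∈ y t, (hh S τ κ (D.e t.1) (D.w t.1) p * (S.N p : ℝ) ^ (-s))
  else 0

/-- the terms with the other variables fixed -/
theorem bfc_term (τ : S.P → ℝ) (κ s : ℝ) (φ : ι → ι → ZMod 2) (D : Vd S ι)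
    (Φ : Finset ι → ℝ) (I P : Finset ι) (J : ℕ) (u : ι) (hu : u ∈ I) (hφ : φ u u = 0)
    (y : {t : ι // t ≠ u} → Finset S.P) (hc : Disjoint (bfcY φ u y) (D.c u).2)
    (F : (ι → Finset S.P) → ℝ)
    (h1 : ∀ x, lrg S J x = I ∧ pat x = P → F x = Kt τ κ s φ D Φ x)
    (h0 : ∀ x, ¬ (lrg S J x = I ∧ pat x = P) → F x = 0) (d : Finset S.P) :
    (Disjoint d (bfcY φ u y ∪ bfcZ u y) ∧ 2 ^ J < S.nm d →
      F (bfcX u y d) = bfcK τ κ s φ D Φ I P J u y *
        (((sg (∑ p ∈ d, S.ex (bfcY φ u y ∪ (D.c u).2)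
          ((D.c u).1 + bfcA φ u y • S.l) p) : ℤ) : ℝ) *
          ∏ p ∈ d, (hh S τ κ (D.e u) (D.w u) p * (S.N p : ℝ) ^ (-s)))) ∧
    (¬ (Disjoint d (bfcY φ u y ∪ bfcZ u y) ∧ 2 ^ J < S.nm d) → F (bfcX u y d) = 0) := by
  classical
  have hi := bfc_iff φ u I P hu J y d
  have hz : ¬ (bfcC u I P J y ∧ Disjoint d (bfcY φ u y ∪ bfcZ u y) ∧ 2 ^ J < S.nm d) →
      F (bfcX u y d) = 0 := by
    intro h
    by_cases h2 : lrg S J (bfcX u y d) = I ∧ pat (bfcX u y d) = P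
    · rw [h1 _ h2]
      unfold Kt
      rw [if_neg fun h3 => h (hi.1 ⟨h2, h3⟩)]
    · exact h0 _ h2
  constructor
  · intro hd
    by_cases hC : bfcC u I P J y
    · obtain ⟨h2, h3⟩ := hi.2 ⟨hC, hd⟩
      rw [h1 _ h2]
      unfold Kt bfcK
      rw [if_pos h3, if_pos hC, h2.2, bfc_KE φ D u hφ y hC.2.1 hc d ((bfc_disj φ u y d).1 hd.1),
        sg_add, Fintype.prod_eq_mul_prod_subtype_ne _ u, bfcX_self]
      have h4 : ∏ t : {t : ι // t ≠ u}, ∏ p ∈ bfcX u y d t.1,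
          (hh S τ κ (D.e t.1) (D.w t.1) p * (S.N p : ℝ) ^ (-s)) =
          ∏ t : {t : ι // t ≠ u}, ∏ p ∈ y t,
          (hh S τ κ (D.e t.1) (D.w t.1) p * (S.N p : ℝ) ^ (-s)) :=
        Finset.prod_congr rfl fun t _ => by rw [bfcX_ne]
      rw [h4, Int.cast_mul]
      ring
    · rw [hz fun h => hC h.1]
      unfold bfcK
      rw [if_neg hC, zero_mul]
  · intro hd
    exact hz fun h => hd h.2

/-- if a variable meets its excluded primes, the terms vanish -/
theorem bfc_term0 (τ : S.P → ℝ) (κ s : ℝ) (φ : ι → ι → ZMod 2) (D : Vd S ι)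
    (Φ : Finset ι → ℝ) (I P : Finset ι) (J : ℕ) (u : ι)
    (y : {t : ι // t ≠ u} → Finset S.P) (t : {t : ι // t ≠ u})
    (ht : ¬ Disjoint (y t) (D.w t.1)) (F : (ι → Finset S.P) → ℝ)
    (h1 : ∀ x, lrg S J x = I ∧ pat x = P → F x = Kt τ κ s φ D Φ x)
    (h0 : ∀ x, ¬ (lrg S J x = I ∧ pat x = P) → F x = 0) (d : Finset S.P) :
    F (bfcX u y d) = 0 := by
  classical
  by_cases h2 : lrg S J (bfcX u y d) = I ∧ pat (bfcX u y d) = P
  · rw [h1 _ h2]
    unfold Kt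
    split_ifs with h3
    · rw [Finset.not_disjoint_iff] at ht
      obtain ⟨p, hp, hp'⟩ := ht
      have h4 : ∏ v, ∏ p ∈ bfcX u y d v,
          (hh S τ κ (D.e v) (D.w v) p * (S.N p : ℝ) ^ (-s)) = 0 := by
        refine Finset.prod_eq_zero (Finset.mem_univ t.1) ?_
        refine Finset.prod_eq_zero (i := p) ?_ ?_
        · rw [bfcX_ne]
          exact hp
        · rw [bfc_hh_zero hp', zero_mul]
      rw [h4, mul_zero]
    · rfl
  · exact h0 _ h2

theorem bfc_nmY (φ : ι → ι → ZMod 2) (u : ι) (I P : Finset ι) (J : ℕ)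
    (hI : ∀ t ∈ I, ¬ Lk φ u t) (y : {t : ι // t ≠ u} → Finset S.P) (hC : bfcC u I P J y) :
    Real.log (S.nm (bfcY φ u y)) ≤ Fintype.card ι * J := by
  classical
  have h1 : S.nm (bfcY φ u y) ≤ (2 ^ J) ^ Fintype.card ι := by
    unfold bfcY
    rw [S.nm_biUnion _ _ fun i _ j _ hij => hC.2.1 i j hij]
    have h2 : ∏ t ∈ Finset.univ.filter (fun t : {t : ι // t ≠ u} => Lk φ u t.1), S.nm (y t) ≤
        ∏ t ∈ Finset.univ.filter (fun t : {t : ι // t ≠ u} => Lk φ u t.1), 2 ^ J := by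
      refine Finset.prod_le_prod' fun t ht => ?_
      have h3 := (Finset.mem_filter.1 ht).2
      have h4 : t.1 ∉ I := fun h => hI _ h h3
      exact not_lt.1 fun h => h4 ((hC.2.2.1 t).1 h)
    refine h2.trans ?_
    rw [Finset.prod_const]
    refine Nat.pow_le_pow_right (Nat.pow_pos two_pos) ?_
    refine (Finset.card_le_univ _).trans ?_
    exact Fintype.card_subtype_le _
  have h2 : (S.nm (bfcY φ u y) : ℝ) ≤ ((2 : ℝ) ^ J) ^ Fintype.card ι := by exact_mod_cast h1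
  refine (Real.log_le_log (S.nm_posr _) h2).trans ?_
  rw [Real.log_pow, Real.log_pow]
  refine mul_le_mul_of_nonneg_left ?_ (Nat.cast_nonneg _)
  have h3 : Real.log 2 ≤ 1 := by
    have := Real.log_two_lt_d9
    linarith
  exact mul_le_of_le_one_right (Nat.cast_nonneg _) h3

open Classical in
/-- the bound for one of the other variables -/
noncomputable def bfcB (τ : S.P → ℝ) (κ s : ℝ) (I : Finset ι) (J : ℕ) (t : ι)
    (x : Finset S.P) : ℝ :=
  if t ∉ I ∧ 2 ^ J < S.nm x then 0 else (∏ p ∈ x, κ * τ p) * ls S x ^ 2 * pw (S := S) s x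

omit [Fintype ι] in
theorem bfcB_nonneg {τ : S.P → ℝ} (hτ : ∀ p, 0 ≤ τ p) {κ : ℝ} (hκ : 0 ≤ κ) (s : ℝ)
    (I : Finset ι) (J : ℕ) (t : ι) (x : Finset S.P) : 0 ≤ bfcB τ κ s I J t x := by
  unfold bfcB
  split_ifs
  · exact le_rfl
  · exact mul_nonneg (mul_nonneg (Finset.prod_nonneg fun p _ => mul_nonneg hκ (hτ p))
      (pow_nonneg (bfc_ls_pos x).le 2)) (bfc_pw_nonneg s x)

open Classical in
/-- the bound for the inner sum -/
theorem bfc_inner (h : SLin) (B κ : ℝ) (hκ : 0 < κ) (hκ1 : κ ≤ 1) (φ : ι → ι → ZMod 2)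
    (hφ : ∀ u, φ u u = 0) : ∃ C : ℝ, 0 ≤ C ∧ ∀ (τ : S.P → ℝ) (D : Vd S ι) (Φ : Finset ι → ℝ),
    Tk S B τ → D.Ok → (∀ U, |Φ U| ≤ 1) → ∀ (I P : Finset ι) (u v : ι), u ∈ I → v ∈ P → v ∉ I →
    Lk φ u v → (∀ t ∈ I, ¬ Lk φ u t) → ∀ (σ : ℝ) (J : ℕ), 0 < σ → σ ≤ 1 →
    ∀ F : (ι → Finset S.P) → ℝ,
    (∀ x, lrg S J x = I ∧ pat x = P → F x = Kt τ κ (1 + σ) φ D Φ x) →
    (∀ x, ¬ (lrg S J x = I ∧ pat x = P) → F x = 0) → ∀ y : {t : ι // t ≠ u} → Finset S.P,
    |∑' d, F (bfcX u y d)| ≤ C * (1 + (J : ℝ)) ^ 2 * (1 + Real.log (S.nm D.M)) * ls S (D.w u) *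
      ∏ t : {t : ι // t ≠ u}, bfcB τ κ (1 + σ) I J t.1 (y t) := by
  classical
  obtain ⟨C, hC0, hL⟩ := h S B κ hκ hκ1
  refine ⟨C * (1 + Fintype.card ι), mul_nonneg hC0 (by positivity), ?_⟩
  intro τ D Φ hτ hD hΦ I P u v hu hv hvI huv hI σ J hσ hσ1 F hF1 hF0 y
  have hτ0 : ∀ p, 0 ≤ τ p := fun p => (hτ p).1
  have hM0 : 0 ≤ Real.log (S.nm D.M) := Real.log_nonneg (S.one_le_nmr _)
  have hB0 : 0 ≤ ∏ t : {t : ι // t ≠ u}, bfcB τ κ (1 + σ) I J t.1 (y t) :=
    Finset.prod_nonneg fun t _ => bfcB_nonneg hτ0 hκ.le _ _ _ _ _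
  have hR0 : 0 ≤ C * (1 + (Fintype.card ι : ℝ)) * (1 + (J : ℝ)) ^ 2 *
      (1 + Real.log (S.nm D.M)) * ls S (D.w u) *
      ∏ t : {t : ι // t ≠ u}, bfcB τ κ (1 + σ) I J t.1 (y t) := by
    have := (bfc_ls_pos (D.w u)).le
    positivity
  have hzero : (∀ d, F (bfcX u y d) = 0) → |∑' d, F (bfcX u y d)| ≤
      C * (1 + (Fintype.card ι : ℝ)) * (1 + (J : ℝ)) ^ 2 *
      (1 + Real.log (S.nm D.M)) * ls S (D.w u) *
      ∏ t : {t : ι // t ≠ u}, bfcB τ κ (1 + σ) I J t.1 (y t) := by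
    intro h0
    rw [tsum_congr h0, tsum_zero, abs_zero]
    exact hR0
  by_cases hw : ∀ t : {t : ι // t ≠ u}, Disjoint (y t) (D.w t.1)
  swap
  · push Not at hw
    obtain ⟨t, ht⟩ := hw
    exact hzero fun d => bfc_term0 τ κ (1 + σ) φ D Φ I P J u y t ht F hF1 hF0 d
  have hYM : Disjoint (bfcY φ u y) D.M := by
    unfold bfcY
    rw [Finset.disjoint_biUnion_left]
    exact fun t _ => Finset.disjoint_of_subset_right (hD.M_sub t.1) (hw t)
  have hc : Disjoint (bfcY φ u y) (D.c u).2 := Finset.disjoint_of_subset_right (hD.c_sub u) hYM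
  have hT := bfc_term τ κ (1 + σ) φ D Φ I P J u hu (hφ u) y hc F hF1 hF0
  by_cases hC : bfcC u I P J y
  swap
  · refine hzero fun d => ?_
    by_cases hd : Disjoint d (bfcY φ u y ∪ bfcZ u y) ∧ 2 ^ J < S.nm d
    · rw [(hT d).1 hd]
      unfold bfcK
      rw [if_neg hC, zero_mul]
    · exact (hT d).2 hd
  have hvu : v ≠ u := fun h => hvI (h ▸ hu)
  have hYne : (bfcY φ u y).Nonempty := by
    obtain ⟨p, hp⟩ := (hC.2.2.2 ⟨v, hvu⟩).2 hv
    refine ⟨p, ?_⟩
    unfold bfcY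
    rw [Finset.mem_biUnion]
    exact ⟨⟨v, hvu⟩, Finset.mem_filter.2 ⟨Finset.mem_univ _, huv⟩, hp⟩
  have h1 := hL τ hτ D.M (D.w u) (bfcY φ u y) (bfcZ u y)
    ((D.c u).1 + bfcA φ u y • S.l, (D.c u).2) (D.e u) hYne hYM (hD.c_sub u) (hD.e_sub u)
    (hD.M_sub u) σ J hσ hσ1
  have h2 := mul_le_mul_of_nonneg_left h1 (abs_nonneg (bfcK τ κ (1 + σ) φ D Φ I P J u y))
  refine le_trans (le_of_eq ?_) (h2.trans ?_)
  · rw [← abs_mul, ← tsum_mul_left]
    congr 1
    refine tsum_congr fun d => ?_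
    by_cases hd : Disjoint d (bfcY φ u y ∪ bfcZ u y) ∧ 2 ^ J < S.nm d
    · rw [(hT d).1 hd, if_pos hd]
    · rw [(hT d).2 hd, if_neg hd, mul_zero]
  · have hlog := bfc_nmY φ u I P J hI y hC
    have hlog0 : 0 ≤ Real.log (S.nm (bfcY φ u y)) := Real.log_nonneg (S.one_le_nmr _)
    have hJ0 : (0 : ℝ) ≤ J := Nat.cast_nonneg _
    have hn0 : (0 : ℝ) ≤ Fintype.card ι := Nat.cast_nonneg _
    have h3 : 1 + Real.log (S.nm (bfcY φ u y)) ≤ (1 + (Fintype.card ι : ℝ)) * (1 + J) := by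
      nlinarith
    have hZ : ls S (bfcZ u y) ≤ ∏ t : {t : ι // t ≠ u}, ls S (y t) := by
      unfold bfcZ
      exact bfc_ls_biUnion _ _
    have hY : ls S (bfcY φ u y) ≤ ∏ t : {t : ι // t ≠ u}, ls S (y t) := by
      refine le_trans (bfc_ls_mono ?_) hZ
      unfold bfcY bfcZ
      exact Finset.biUnion_subset_biUnion_of_subset_left _ (Finset.filter_subset _ _)
    have hP0 : 0 ≤ ∏ t : {t : ι // t ≠ u}, ls S (y t) :=
      Finset.prod_nonneg fun t _ => (bfc_ls_pos _).le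
    have hK : |bfcK τ κ (1 + σ) φ D Φ I P J u y| ≤
        ∏ t : {t : ι // t ≠ u}, ((∏ p ∈ y t, κ * τ p) * pw (S := S) (1 + σ) (y t)) := by
      unfold bfcK
      rw [if_pos hC, abs_mul, abs_mul, abs_sgr, mul_one, Finset.abs_prod]
      have h4 : ∏ t : {t : ι // t ≠ u}, |∏ p ∈ y t,
          (hh S τ κ (D.e t.1) (D.w t.1) p * (S.N p : ℝ) ^ (-(1 + σ)))| ≤
          ∏ t : {t : ι // t ≠ u}, ((∏ p ∈ y t, κ * τ p) * pw (S := S) (1 + σ) (y t)) := by
        refine Finset.prod_le_prod (fun t _ => abs_nonneg _) fun t _ => ?_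
        have h5 := bfc_pwt hτ0 hκ.le (D.e t.1) (D.w t.1) (1 + σ) (y t)
        rw [abs_of_nonneg h5.1]
        exact h5.2
      refine le_trans (mul_le_of_le_one_left (Finset.prod_nonneg fun t _ => abs_nonneg _)
        (hΦ P)) h4
    have hA : ∏ t : {t : ι // t ≠ u}, bfcB τ κ (1 + σ) I J t.1 (y t) =
        (∏ t : {t : ι // t ≠ u}, ((∏ p ∈ y t, κ * τ p) * pw (S := S) (1 + σ) (y t))) *
          ((∏ t : {t : ι // t ≠ u}, ls S (y t)) * ∏ t : {t : ι // t ≠ u}, ls S (y t)) := by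
      rw [← Finset.prod_mul_distrib, ← Finset.prod_mul_distrib]
      refine Finset.prod_congr rfl fun t _ => ?_
      unfold bfcB
      rw [if_neg fun h => h.1 ((hC.2.2.1 t).1 h.2)]
      ring
    rw [hA]
    have hQ0 : 0 ≤ ∏ t : {t : ι // t ≠ u}, ((∏ p ∈ y t, κ * τ p) *
        pw (S := S) (1 + σ) (y t)) := le_trans (abs_nonneg _) hK
    have hls : ls S (bfcY φ u y) * ls S (bfcZ u y) * ls S (D.w u) ≤
        (∏ t : {t : ι // t ≠ u}, ls S (y t)) * (∏ t : {t : ι // t ≠ u}, ls S (y t)) *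
          ls S (D.w u) :=
      mul_le_mul_of_nonneg_right (mul_le_mul hY hZ (bfc_ls_pos _).le hP0) (bfc_ls_pos _).le
    have hw0 := (bfc_ls_pos (D.w u)).le
    have h4 : C * (1 + (J : ℝ)) * (1 + Real.log (S.nm (bfcY φ u y))) *
        (1 + Real.log (S.nm D.M)) *
        (ls S (bfcY φ u y) * ls S (bfcZ u y) * ls S (D.w u)) ≤
        C * (1 + (J : ℝ)) * ((1 + (Fintype.card ι : ℝ)) * (1 + J)) *
        (1 + Real.log (S.nm D.M)) *
        ((∏ t : {t : ι // t ≠ u}, ls S (y t)) * (∏ t : {t : ι // t ≠ u}, ls S (y t)) *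
          ls S (D.w u)) := by
      refine mul_le_mul ?_ hls ?_ ?_
      · exact mul_le_mul_of_nonneg_right (mul_le_mul_of_nonneg_left h3 (by positivity))
          (by positivity)
      · exact mul_nonneg (mul_nonneg (bfc_ls_pos _).le (bfc_ls_pos _).le) (bfc_ls_pos _).le
      · positivity
    refine (mul_le_mul hK h4 ?_ hQ0).trans (le_of_eq ?_)
    · have := (bfc_ls_pos (bfcY φ u y)).le
      have := (bfc_ls_pos (bfcZ u y)).le
      positivity
    · ring

end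

theorem sFc (h : SLin) (h1 : ST1) (h2 : SFb) : SFc := by
  classical
  intro S ι _ φ B κ hφ hκ hκ1
  obtain ⟨C, hC0, hin⟩ := bfc_inner (S := S) h B κ hκ hκ1 φ hφ
  obtain ⟨C1, hC10, hT1⟩ := h1 S B κ 2 hκ.le (by linarith)
  obtain ⟨C2, _, hFb⟩ := h2 S ι B κ hκ hκ1
  have hn : (0 : ℝ) ≤ (C1 + 1) ^ Fintype.card ι := pow_nonneg (by linarith) _
  refine ⟨C * ((C1 + 1) ^ Fintype.card ι * (C1 + 1) ^ Fintype.card ι),
    ((Fintype.card ι + 2 : ℕ) : ℝ), mul_nonneg hC0 (mul_nonneg hn hn), Nat.cast_nonneg _, ?_⟩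
  intro τ D Φ hτ hD hΦ I P u v hu hv hvI huv hI σ J hσ hσ1
  have hτ0 : ∀ p, 0 ≤ τ p := fun p => (hτ p).1
  obtain ⟨F, hF⟩ : ∃ F : (ι → Finset S.P) → ℝ, F = fun x =>
    (if lrg S J x = I ∧ pat x = P then Kt τ κ (1 + σ) φ D Φ x else 0) := ⟨_, rfl⟩
  have hF1 : ∀ x, lrg S J x = I ∧ pat x = P → F x = Kt τ κ (1 + σ) φ D Φ x := by
    intro x hx
    rw [hF]
    exact if_pos hx
  have hF0 : ∀ x, ¬ (lrg S J x = I ∧ pat x = P) → F x = 0 := by
    intro x hx
    rw [hF]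
    exact if_neg hx
  have hgoal : |∑' x, F x| ≤ C * ((C1 + 1) ^ Fintype.card ι * (C1 + 1) ^ Fintype.card ι) *
      (1 + (J : ℝ)) ^ (((Fintype.card ι + 2 : ℕ) : ℝ)) * (1 + Real.log (S.nm D.M)) *
      (∏ t, ls S (D.w t)) * σ ^ (-(κ * ((I.card : ℝ) - 1))) := by
    have hFs : Summable F := by
      refine Summable.of_norm_bounded (hFb τ φ D Φ hτ hΦ σ hσ hσ1).1.abs fun x => ?_
      rw [Real.norm_eq_abs]
      by_cases hx : lrg S J x = I ∧ pat x = P
      · rw [hF1 x hx]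
      · rw [hF0 x hx, abs_zero]
        exact abs_nonneg _
    have hG : Summable fun z => F (bfcE u z) := (bfcE u).summable_iff.2 hFs
    have e1 : ∑' x, F x = ∑' y : {t : ι // t ≠ u} → Finset S.P, ∑' d, F (bfcX u y d) := by
      rw [← (bfcE u).tsum_eq F, hG.tsum_prod]
      rfl
    have hJ1 : (1 : ℝ) ≤ 1 + J := by
      have : (0 : ℝ) ≤ J := Nat.cast_nonneg _
      linarith
    have hT := hT1 τ hτ σ hσ hσ1
    have hσκ : 1 ≤ σ ^ (-κ) := Real.one_le_rpow_of_pos_of_le_one_of_nonpos hσ hσ1 (by linarith)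
    obtain ⟨b, hb⟩ : ∃ b : ι → ℝ, b = fun t => if t ∈ I then (C1 + 1) * σ ^ (-κ)
      else (C1 + 1) * (1 + J) := ⟨_, rfl⟩
    have hbI : ∀ t, t ∈ I → b t = (C1 + 1) * σ ^ (-κ) := fun t ht => by
      rw [hb]
      exact if_pos ht
    have hbN : ∀ t, t ∉ I → b t = (C1 + 1) * (1 + J) := fun t ht => by
      rw [hb]
      exact if_neg ht
    have hAb : ∀ (t : {t : ι // t ≠ u}) (G : Finset (Finset S.P)),
        ∑ x ∈ G, bfcB τ κ (1 + σ) I J t.1 x ≤ b t.1 := by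
      intro t G
      have hnn : ∀ (s : ℝ) (x : Finset S.P),
          0 ≤ (∏ p ∈ x, κ * τ p) * ls S x ^ 2 * pw (S := S) s x := fun s x =>
        mul_nonneg (mul_nonneg (Finset.prod_nonneg fun p _ => mul_nonneg hκ.le (hτ0 p))
          (pow_nonneg (bfc_ls_pos x).le 2)) (bfc_pw_nonneg s x)
      by_cases ht : t.1 ∈ I
      · rw [hbI _ ht]
        have h3 : ∑ x ∈ G, bfcB τ κ (1 + σ) I J t.1 x ≤
            ∑ x ∈ G, (∏ p ∈ x, κ * τ p) * ls S x ^ 2 * pw (S := S) (1 + σ) x := by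
          refine Finset.sum_le_sum fun x _ => ?_
          unfold bfcB
          rw [if_neg fun h => h.1 ht]
        refine h3.trans ((hT.1.sum_le_tsum G fun x _ => hnn _ x).trans (hT.2.1.trans ?_))
        exact mul_le_mul_of_nonneg_right (by linarith) (by linarith)
      · rw [hbN _ ht]
        have h3 : ∑ x ∈ G, bfcB τ κ (1 + σ) I J t.1 x ≤
            ∑ x ∈ S.bx (2 ^ J), (∏ p ∈ x, κ * τ p) * ls S x ^ 2 * pw (S := S) 1 x := by
          have h4 : ∑ x ∈ G, bfcB τ κ (1 + σ) I J t.1 x ≤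
              ∑ x ∈ G.filter (fun x => S.nm x ≤ 2 ^ J),
                (∏ p ∈ x, κ * τ p) * ls S x ^ 2 * pw (S := S) 1 x := by
            rw [Finset.sum_filter]
            refine Finset.sum_le_sum fun x _ => ?_
            unfold bfcB
            by_cases hx : S.nm x ≤ 2 ^ J
            · rw [if_neg fun h => absurd hx (not_le.2 h.2), if_pos hx]
              refine mul_le_mul_of_nonneg_left (bfc_pw_le (by linarith) x) ?_
              exact mul_nonneg (Finset.prod_nonneg fun p _ => mul_nonneg hκ.le (hτ0 p))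
                (pow_nonneg (bfc_ls_pos x).le 2)
            · rw [if_pos ⟨ht, not_le.1 hx⟩, if_neg hx]
          refine h4.trans (Finset.sum_le_sum_of_subset_of_nonneg ?_ fun x _ _ => hnn _ x)
          intro x hx
          rw [S.mem_bx]
          exact_mod_cast (Finset.mem_filter.1 hx).2
        refine h3.trans ((hT.2.2 J).trans ?_)
        have h5 : (1 + (J : ℝ)) ^ κ ≤ 1 + J := by
          have h6 := Real.rpow_le_rpow_of_exponent_le hJ1 hκ1
          rwa [Real.rpow_one] at h6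
        exact mul_le_mul (by linarith) h5 (Real.rpow_nonneg (by linarith) _) (by linarith)
    obtain ⟨hs1, hs2⟩ := bfc_prod (fun (t : {t : ι // t ≠ u}) x =>
      bfcB τ κ (1 + σ) I J t.1 x) (fun t => b t.1)
      (fun t x => bfcB_nonneg hτ0 hκ.le _ _ _ _ _) hAb
    have hbnd : |∑' y : {t : ι // t ≠ u} → Finset S.P, ∑' d, F (bfcX u y d)| ≤
        C * (1 + (J : ℝ)) ^ 2 * (1 + Real.log (S.nm D.M)) * ls S (D.w u) *
          ∑' y : {t : ι // t ≠ u} → Finset S.P,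
            ∏ t : {t : ι // t ≠ u}, bfcB τ κ (1 + σ) I J t.1 (y t) := by
      rw [← Real.norm_eq_abs, ← tsum_mul_left]
      refine tsum_of_norm_bounded (hs1.mul_left _).hasSum fun y => ?_
      rw [Real.norm_eq_abs]
      exact hin τ D Φ hτ hD hΦ I P u v hu hv hvI huv hI σ J hσ hσ1 F hF1 hF0 y
    -- the product of the bounds
    obtain ⟨k, hk⟩ : ∃ k : ℕ, I.card = k + 1 :=
      ⟨I.card - 1, by have := Finset.card_pos.2 ⟨u, hu⟩; omega⟩
    have hcpos : 0 < (C1 + 1) * σ ^ (-κ) := mul_pos (by linarith) (by linarith)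
    have hprod : ∏ t : {t : ι // t ≠ u}, b t.1 = ((C1 + 1) * σ ^ (-κ)) ^ k *
        ((C1 + 1) * (1 + (J : ℝ))) ^ (Finset.univ.filter fun t => t ∉ I).card := by
      have h3 : ∏ t, b t = ((C1 + 1) * σ ^ (-κ)) ^ (k + 1) *
          ((C1 + 1) * (1 + (J : ℝ))) ^ (Finset.univ.filter fun t => t ∉ I).card := by
        rw [← Finset.prod_filter_mul_prod_filter_not Finset.univ (fun t => t ∈ I) b,
          Finset.prod_congr rfl fun t ht => hbI t (Finset.mem_filter.1 ht).2,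
          Finset.prod_congr (s₁ := Finset.univ.filter fun t => ¬ t ∈ I) rfl
            fun t ht => hbN t (Finset.mem_filter.1 ht).2, Finset.prod_const,
          Finset.prod_const, ← hk]
        congr 3
        ext t
        rw [Finset.mem_filter]
        exact ⟨fun h => h.2, fun h => ⟨Finset.mem_univ _, h⟩⟩
      rw [Fintype.prod_eq_mul_prod_subtype_ne _ u, hbI u hu, pow_succ] at h3
      have h4 : ((C1 + 1) * σ ^ (-κ)) * ∏ t : {t : ι // t ≠ u}, b t.1 =
          ((C1 + 1) * σ ^ (-κ)) * (((C1 + 1) * σ ^ (-κ)) ^ k *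
            ((C1 + 1) * (1 + (J : ℝ))) ^ (Finset.univ.filter fun t => t ∉ I).card) := by
        rw [h3]
        ring
      exact mul_left_cancel₀ hcpos.ne' h4
    have hkn : k ≤ Fintype.card ι := by
      have := Finset.card_le_univ I
      omega
    have hmn : (Finset.univ.filter fun t => t ∉ I).card ≤ Fintype.card ι :=
      Finset.card_le_univ _
    have hC11 : (1 : ℝ) ≤ C1 + 1 := by linarith
    have hprod2 : ∏ t : {t : ι // t ≠ u}, b t.1 ≤
        ((C1 + 1) ^ Fintype.card ι * (C1 + 1) ^ Fintype.card ι) * (1 + (J : ℝ)) ^ Fintype.card ι *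
          σ ^ (-(κ * ((I.card : ℝ) - 1))) := by
      rw [hprod, mul_pow, mul_pow]
      have h3 : (σ ^ (-κ)) ^ k = σ ^ (-(κ * ((I.card : ℝ) - 1))) := by
        rw [← Real.rpow_natCast, ← Real.rpow_mul hσ.le, hk]
        congr 1
        push_cast
        ring
      rw [h3]
      have h4 : (C1 + 1) ^ k ≤ (C1 + 1) ^ Fintype.card ι := pow_le_pow_right₀ hC11 hkn
      have h5 : (C1 + 1) ^ (Finset.univ.filter fun t => t ∉ I).card ≤
          (C1 + 1) ^ Fintype.card ι := pow_le_pow_right₀ hC11 hmn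
      have h6 : (1 + (J : ℝ)) ^ (Finset.univ.filter fun t => t ∉ I).card ≤
          (1 + (J : ℝ)) ^ Fintype.card ι := pow_le_pow_right₀ hJ1 hmn
      have h7 : 0 ≤ σ ^ (-(κ * ((I.card : ℝ) - 1))) := Real.rpow_nonneg hσ.le _
      have h8 : (C1 + 1) ^ k * ((C1 + 1) ^ (Finset.univ.filter fun t => t ∉ I).card *
          (1 + (J : ℝ)) ^ (Finset.univ.filter fun t => t ∉ I).card) ≤
          (C1 + 1) ^ Fintype.card ι * ((C1 + 1) ^ Fintype.card ι *
            (1 + (J : ℝ)) ^ Fintype.card ι) := by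
        refine mul_le_mul h4 (mul_le_mul h5 h6 (by positivity) hn) (by positivity) hn
      calc (C1 + 1) ^ k * σ ^ (-(κ * ((I.card : ℝ) - 1))) *
            ((C1 + 1) ^ (Finset.univ.filter fun t => t ∉ I).card *
            (1 + (J : ℝ)) ^ (Finset.univ.filter fun t => t ∉ I).card)
          = (C1 + 1) ^ k * ((C1 + 1) ^ (Finset.univ.filter fun t => t ∉ I).card *
          (1 + (J : ℝ)) ^ (Finset.univ.filter fun t => t ∉ I).card) *
            σ ^ (-(κ * ((I.card : ℝ) - 1))) := by ring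
        _ ≤ (C1 + 1) ^ Fintype.card ι * ((C1 + 1) ^ Fintype.card ι *
            (1 + (J : ℝ)) ^ Fintype.card ι) * σ ^ (-(κ * ((I.card : ℝ) - 1))) :=
            mul_le_mul_of_nonneg_right h8 h7
        _ = _ := by ring
    have hM0 : 0 ≤ Real.log (S.nm D.M) := Real.log_nonneg (S.one_le_nmr _)
    have hlsw : ls S (D.w u) ≤ ∏ t, ls S (D.w t) := by
      rw [Fintype.prod_eq_mul_prod_subtype_ne _ u]
      refine le_mul_of_one_le_right (bfc_ls_pos _).le ?_
      exact Finset.one_le_prod fun t _ => bfc_one_le_ls _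
    have hlsw0 := (bfc_ls_pos (D.w u)).le
    rw [e1]
    refine hbnd.trans ?_
    rw [Real.rpow_natCast]
    have h7 : 0 ≤ σ ^ (-(κ * ((I.card : ℝ) - 1))) := Real.rpow_nonneg hσ.le _
    calc C * (1 + (J : ℝ)) ^ 2 * (1 + Real.log (S.nm D.M)) * ls S (D.w u) *
          ∑' y : {t : ι // t ≠ u} → Finset S.P,
            ∏ t : {t : ι // t ≠ u}, bfcB τ κ (1 + σ) I J t.1 (y t)
        ≤ C * (1 + (J : ℝ)) ^ 2 * (1 + Real.log (S.nm D.M)) * (∏ t, ls S (D.w t)) *
          (((C1 + 1) ^ Fintype.card ι * (C1 + 1) ^ Fintype.card ι) *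
            (1 + (J : ℝ)) ^ Fintype.card ι * σ ^ (-(κ * ((I.card : ℝ) - 1)))) := by
          refine mul_le_mul ?_ (hs2.trans hprod2) ?_ ?_
          · exact mul_le_mul_of_nonneg_left hlsw (by positivity)
          · exact tsum_nonneg fun y => Finset.prod_nonneg fun t _ =>
              bfcB_nonneg hτ0 hκ.le _ _ _ _ _
          · have := le_trans hlsw0 hlsw
            positivity
      _ = _ := by ring
  rw [hF] at hgoal
  exact hgoal

end Pool.Agent.D8
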