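import Pool.Agent.D8.Stm

/-!
# Malle's conjecture for the dihedral group of order 16: the limit (row Z1)
-/

set_option autoImplicit false

open scoped BigOperators Topology
open Filter

namespace Pool.Agent.D8

open Pool.Agent.H98.MK (sg)
open Pool.Agent.H98.MF
open Pool.Agent.H32.MQ (El pw)

/-! ### limits -/

theorem z1_lim (E : ℝ) : Tendsto (fun σ : ℝ => σ ^ 2 * ((1 + Real.log (1 / σ)) ^ E *
    σ ^ (-(3 / 2 : ℝ)))) (𝓝[>] 0) (𝓝 0) := by
  have h1 : Tendsto (fun y : ℝ => Real.log y ^ E / y ^ (1 / 2 : ℝ)) atTop (𝓝 0) :=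
    (isLittleO_log_rpow_rpow_atTop E (by norm_num)).tendsto_div_nhds_zero
  have h2 : Tendsto (fun σ : ℝ => Real.exp 1 * σ⁻¹) (𝓝[>] 0) atTop :=
    (tendsto_inv_nhdsGT_zero).const_mul_atTop (Real.exp_pos 1)
  have h3 := (h1.comp h2).const_mul ((Real.exp 1) ^ (1 / 2 : ℝ))
  rw [mul_zero] at h3
  refine h3.congr' ?_
  filter_upwards [self_mem_nhdsWithin] with σ hσ
  have hσ0 : (0 : ℝ) < σ := hσ
  have e1 : Real.log (Real.exp 1 * σ⁻¹) = 1 + Real.log (1 / σ) := by
    rw [Real.log_mul (Real.exp_pos 1).ne' (inv_pos.2 hσ0).ne', Real.log_exp, one_div]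
  have e2 : (Real.exp 1 * σ⁻¹) ^ (1 / 2 : ℝ) =
      (Real.exp 1) ^ (1 / 2 : ℝ) * (σ ^ (1 / 2 : ℝ))⁻¹ := by
    rw [Real.mul_rpow (Real.exp_pos 1).le (inv_pos.2 hσ0).le, Real.inv_rpow hσ0.le]
  have e3 : σ ^ 2 * σ ^ (-(3 / 2 : ℝ)) = σ ^ (1 / 2 : ℝ) := by
    rw [← Real.rpow_natCast, ← Real.rpow_add hσ0]
    norm_num
  have h4 : (0 : ℝ) < (Real.exp 1) ^ (1 / 2 : ℝ) := Real.rpow_pos_of_pos (Real.exp_pos 1) _
  have h5 : (0 : ℝ) < σ ^ (1 / 2 : ℝ) := Real.rpow_pos_of_pos hσ0 _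
  simp only [Function.comp_apply]
  rw [e1, e2]
  calc (Real.exp 1) ^ (1 / 2 : ℝ) * ((1 + Real.log (1 / σ)) ^ E /
        ((Real.exp 1) ^ (1 / 2 : ℝ) * (σ ^ (1 / 2 : ℝ))⁻¹))
      = (1 + Real.log (1 / σ)) ^ E * σ ^ (1 / 2 : ℝ) := by
        field_simp
    _ = σ ^ 2 * ((1 + Real.log (1 / σ)) ^ E * σ ^ (-(3 / 2 : ℝ))) := by
        rw [← e3]
        ring

theorem z1_lim1 : Tendsto (fun σ : ℝ => σ ^ 2 * σ ^ (-(1 : ℝ))) (𝓝[>] 0) (𝓝 0) := by
  have h : Tendsto (fun σ : ℝ => σ) (𝓝[>] 0) (𝓝 0) := tendsto_nhdsWithin_of_tendsto_nhds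
    tendsto_id
  refine h.congr' ?_
  filter_upwards [self_mem_nhdsWithin] with σ hσ
  have hσ0 : (0 : ℝ) < σ := hσ
  rw [Real.rpow_neg_one, sq, mul_assoc, mul_inv_cancel₀ hσ0.ne', mul_one]

theorem z1_lim0 : Tendsto (fun σ : ℝ => σ ^ 2) (𝓝[>] 0) (𝓝 0) := by
  have h : Tendsto (fun σ : ℝ => σ ^ 2) (𝓝 0) (𝓝 (0 ^ 2)) := (continuous_pow 2).tendsto 0
  rw [zero_pow two_ne_zero] at h
  exact tendsto_nhdsWithin_of_tendsto_nhds h

/-- Squeeze. -/
theorem z1_sq {F G : ℝ → ℝ} {C : ℝ} (hG : Tendsto (fun σ : ℝ => σ ^ 2 * G σ) (𝓝[>] 0) (𝓝 0))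
    (h : ∀ σ : ℝ, 0 < σ → σ ≤ 1 → |F σ| ≤ C * G σ) :
    Tendsto (fun σ : ℝ => σ ^ 2 * F σ) (𝓝[>] 0) (𝓝 0) := by
  have h1 := hG.const_mul C
  rw [mul_zero] at h1
  refine squeeze_zero_norm' ?_ h1
  filter_upwards [Ioc_mem_nhdsGT (zero_lt_one' ℝ)] with σ hσ
  rw [Real.norm_eq_abs, abs_mul, abs_of_nonneg (sq_nonneg σ)]
  calc σ ^ 2 * |F σ| ≤ σ ^ 2 * (C * G σ) :=
        mul_le_mul_of_nonneg_left (h σ hσ.1 hσ.2) (sq_nonneg σ)
    _ = C * (σ ^ 2 * G σ) := by ring

/-! ### the terms -/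

section

variable {S : Sys} {B : ℝ} {τ : S.P → ℝ}

theorem z1_nonneg (hτ : Tk S B τ) (M : Finset S.P) (c : Co S) (s : ℝ) (x : V → Finset S.P) :
    0 ≤ ms τ M c s x := by
  classical
  unfold ms
  split_ifs
  · refine Finset.prod_nonneg fun u _ => Finset.prod_nonneg fun p _ => ?_
    have h1 := (hτ p).1
    have h2 : (0 : ℝ) ≤ (S.N p : ℝ) ^ (-s) := Real.rpow_nonneg (Nat.cast_nonneg _) _
    positivity
  · exact le_rfl

theorem z1_sum (h7 : S16) (hτ : Tk S B τ) {c : Co S} (hc : c.Ok ∅) {s : ℝ} (h1 : 1 < s)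
    (h2 : s ≤ 2) : Summable fun x : V → Finset S.P => ms τ ∅ c s x := by
  have h := (h7 S B τ ∅ c (fun _ => ∅) (fun _ => 1) s hτ hc (fun _ => subset_rfl)
    (fun _ => by rw [abs_one]) h1 h2).1
  refine h.congr fun x => ?_
  rw [if_pos (fun u => Finset.disjoint_empty_right _), one_mul]

open Classical in
/-- the part of a pattern -/
noncomputable def z1_F (τ : S.P → ℝ) (c : Co S) (R : (V → Finset S.P) → ℝ) (P : Finset V)
    (s : ℝ) : ℝ :=
  ∑' x : V → Finset S.P, (if pat x = P then ms τ ∅ c s x * R x else 0)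

theorem z1_abs (hτ : Tk S B τ) (c : Co S) {R : (V → Finset S.P) → ℝ}
    (hR : ∀ x, |R x| ≤ 1) (s : ℝ) (x : V → Finset S.P) :
    ‖ms τ ∅ c s x * R x‖ ≤ ms τ ∅ c s x := by
  rw [Real.norm_eq_abs, abs_mul, abs_of_nonneg (z1_nonneg hτ ∅ c s x)]
  exact mul_le_of_le_one_right (z1_nonneg hτ ∅ c s x) (hR x)

theorem z1_summ (h7 : S16) (hτ : Tk S B τ) {c : Co S} (hc : c.Ok ∅)
    {R : (V → Finset S.P) → ℝ} (hR : ∀ x, |R x| ≤ 1) {s : ℝ} (h1 : 1 < s) (h2 : s ≤ 2)
    (q : (V → Finset S.P) → Prop) [DecidablePred q] :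
    Summable fun x : V → Finset S.P => if q x then ms τ ∅ c s x * R x else 0 := by
  refine Summable.of_norm_bounded (z1_sum h7 hτ hc h1 h2) fun x => ?_
  split_ifs
  · exact z1_abs hτ c hR s x
  · rw [norm_zero]
    exact z1_nonneg hτ ∅ c s x

open Classical in
theorem z1_le (h7 : S16) (hτ : Tk S B τ) {c : Co S} (hc : c.Ok ∅)
    {R : (V → Finset S.P) → ℝ} (hR : ∀ x, |R x| ≤ 1) (P : Finset V) {s : ℝ} (h1 : 1 < s)
    (h2 : s ≤ 2) : |z1_F τ c R P s| ≤
      MS τ ∅ c (fun _ => ∅) (fun U => if U = P then 1 else 0) s := by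
  have h3 := (h7 S B τ ∅ c (fun _ => ∅) (fun U => if U = P then 1 else 0) s hτ hc
    (fun _ => subset_rfl) (fun U => by split_ifs <;> simp) h1 h2).1
  have h4 : ∀ x : V → Finset S.P, ‖(if pat x = P then ms τ ∅ c s x * R x else 0 : ℝ)‖ ≤
      if ∀ u, Disjoint (x u) (∅ : Finset S.P)
        then (if pat x = P then (1 : ℝ) else 0) * ms τ ∅ c s x else 0 := by
    intro x
    rw [if_pos (fun u => Finset.disjoint_empty_right _)]
    split_ifs
    · rw [one_mul]
      exact z1_abs hτ c hR s x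
    · rw [norm_zero, zero_mul]
  have h5 := tsum_of_norm_bounded h3.hasSum h4
  rw [Real.norm_eq_abs] at h5
  exact h5


theorem z1_zero (c : Co S) {R : (V → Finset S.P) → ℝ} {P : Finset V}
    (h : ∀ x, pat x = P → R x = 0) (s : ℝ) : z1_F τ c R P s = 0 := by
  classical
  unfold z1_F
  have e : (fun x : V → Finset S.P => (if pat x = P then ms τ ∅ c s x * R x else 0 : ℝ)) =
      fun _ => 0 := by
    funext x
    by_cases hx : pat x = P
    · rw [if_pos hx, h x hx, mul_zero]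
    · rw [if_neg hx]
  rw [e]
  exact tsum_zero

theorem z1_tzero (c : Co S) {R : (V → Finset S.P) → ℝ} {P : Finset V}
    (h : ∀ x, pat x = P → R x = 0) :
    Tendsto (fun σ : ℝ => σ ^ 2 * z1_F τ c R P (1 + σ)) (𝓝[>] 0) (𝓝 0) := by
  simp only [z1_zero c h, mul_zero]
  exact tendsto_const_nhds

theorem z1_ls : ls S (∅ : Finset S.P) = 1 := by
  unfold ls
  rw [Finset.sum_empty, Real.exp_zero]

theorem z1_nm : 1 + Real.log (S.nm (∅ : Finset S.P)) = 1 := by
  rw [Pre.nm_empty, Nat.cast_one, Real.log_one, add_zero]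

/-- two classes without the two conditions -/
theorem z1_two (h7 : S16) (h3 : S2B) (hτ : Tk S B τ) {c : Co S} (hc : c.Ok ∅)
    {R : (V → Finset S.P) → ℝ} (hR : ∀ x, |R x| ≤ 1) {u v : V} (huv : u ≠ v)
    (he : ¬ (exc c u v = (0, ∅) ∧ exc c v u = (0, ∅))) :
    Tendsto (fun σ : ℝ => σ ^ 2 * z1_F τ c R {u, v} (1 + σ)) (𝓝[>] 0) (𝓝 0) := by
  obtain ⟨C, E, hC, hE, h⟩ := h3 S B
  refine z1_sq (C := C) (z1_lim E) fun σ h0 h1 => ?_
  refine (z1_le h7 hτ hc hR {u, v} (by linarith) (by linarith)).trans ?_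
  refine (h τ ∅ c (fun _ => ∅) u v hτ hc (fun _ => subset_rfl) huv σ h0 h1).trans ?_
  rw [if_neg he, z1_ls, z1_nm]
  refine le_of_eq ?_
  ring

/-- one class without the two conditions -/
theorem z1_one (h7 : S16) (h4 : S1B) (hτ : Tk S B τ) {c : Co S} (hc : c.Ok ∅)
    {R : (V → Finset S.P) → ℝ} (hR : ∀ x, |R x| ≤ 1) {u : V}
    (he : c.f (u.1 + 1) ≠ (0, ∅)) :
    Tendsto (fun σ : ℝ => σ ^ 2 * z1_F τ c R {u} (1 + σ)) (𝓝[>] 0) (𝓝 0) := by
  obtain ⟨C, hC, h⟩ := h4 S B
  refine z1_sq (C := C) z1_lim1 fun σ h0 h1 => ?_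
  refine (z1_le h7 hτ hc hR {u} (by linarith) (by linarith)).trans ?_
  refine (((h τ ∅ c hτ hc σ h0 h1).2 u).2 (Or.inl he)).trans ?_
  rw [z1_nm, mul_one]

/-- no class -/
theorem z1_none (h7 : S16) (h4 : S1B) (hτ : Tk S B τ) {c : Co S} (hc : c.Ok ∅)
    {R : (V → Finset S.P) → ℝ} (hR : ∀ x, |R x| ≤ 1) :
    Tendsto (fun σ : ℝ => σ ^ 2 * z1_F τ c R ∅ (1 + σ)) (𝓝[>] 0) (𝓝 0) := by
  obtain ⟨C, hC, h⟩ := h4 S B
  refine z1_sq (C := C) (G := fun _ => 1) (by simpa using z1_lim0) fun σ h0 h1 => ?_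
  rw [mul_one]
  exact (z1_le h7 hτ hc hR ∅ (by linarith) (by linarith)).trans (h τ ∅ c hτ hc σ h0 h1).1

theorem z1_sid {x : V → Finset S.P} {P : Finset V} (hx : pat x = P) {i : ZMod 2}
    (h : ∀ j, (i, j) ∉ P) : sid x i = ∅ := by
  classical
  have h1 : ∀ j, x (i, j) = ∅ := by
    intro j
    by_contra h2
    apply h j
    rw [← hx]
    unfold pat
    rw [Finset.mem_filter]
    exact ⟨Finset.mem_univ _, Finset.nonempty_iff_ne_empty.2 h2⟩
  unfold sid
  rw [h1, h1, Finset.union_empty]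

theorem z1_f0 (a b v : S.T) : (mkc a b v).f 0 = (a, ∅) := by
  simp [mkc]

theorem z1_f1 (a b v : S.T) : (mkc a b v).f 1 = (b, ∅) := by
  simp [mkc]

theorem z1_g0 (a b v : S.T) : (mkc a b v).g 0 = (S.l + a + b + v, ∅) := by
  simp [mkc]

theorem z1_g1 (a b v : S.T) : (mkc a b v).g 1 = (v, ∅) := by
  simp [mkc]

theorem z1_ok (a b v : S.T) : (mkc a b v).Ok ∅ where
  f_sub i := by
    unfold mkc
    dsimp only
    split_ifs <;> exact subset_rfl
  g_sub i := by
    unfold mkc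
    dsimp only
    split_ifs <;> exact subset_rfl
  rel := by
    rw [z1_f0, z1_f1, z1_g0, z1_g1]
    unfold ad
    dsimp only
    refine Prod.ext ?_ ?_
    · dsimp only
      funext i
      simp only [Pi.add_apply]
      have h : ∀ p q r t : ZMod 2, p + q + (r + p + q + t + t) = r := by decide
      exact h _ _ _ _
    · dsimp only
      rw [symmDiff_self, Finset.bot_eq_empty]

end

/-- the patterns with at most two classes -/
theorem z1_pat : ∀ P : Finset V, P.card ≤ 2 → P = ∅ ∨ (∃ u, P = {u}) ∨ P = {(0, 0), (1, 0)} ∨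
    P = {(0, 1), (1, 1)} ∨ P = {(0, 0), (0, 1)} ∨ P = {(1, 0), (1, 1)} ∨
    P = {(0, 0), (1, 1)} ∨ P = {(0, 1), (1, 0)} := by
  intro P hP
  have h : P.card = 0 ∨ P.card = 1 ∨ P.card = 2 := by omega
  rcases h with h | h | h
  · exact Or.inl (Finset.card_eq_zero.1 h)
  · exact Or.inr (Or.inl (Finset.card_eq_one.1 h))
  · right
    right
    obtain ⟨u, v, huv, rfl⟩ := Finset.card_eq_two.1 h
    clear h hP
    revert u v
    decide

theorem z1_p1 : ∀ u : V, ({u} : Finset V) ≠ {(0, 0), (1, 0)} ∧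
    ({u} : Finset V) ≠ {(0, 1), (1, 1)} := by
  decide

theorem z1_neg {S : Sys} (x y : S.T) : x + y = 0 ↔ x = y := by
  constructor
  · intro h
    funext i
    have h1 := congrFun h i
    rw [Pi.add_apply, Pi.zero_apply] at h1
    have h2 : ∀ p q : ZMod 2, p + q = 0 → p = q := by decide
    exact h2 _ _ h1
  · rintro rfl
    funext i
    rw [Pi.add_apply, Pi.zero_apply]
    have h2 : ∀ p : ZMod 2, p + p = 0 := by decide
    exact h2 _

theorem z1_el {S : Sys} (x : S.T) : ((x, ∅) : El S) = (0, ∅) ↔ x = 0 := by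
  constructor
  · intro h
    exact congrArg Prod.fst h
  · rintro rfl
    rfl

section

variable {S : Sys} {B : ℝ} {τ : S.P → ℝ}

/-- the value of the limit for one pattern -/
noncomputable def z1_L (Θ : S.T → S.T → S.T → S.T → ℝ) (c0 : ℝ) (a b : S.T) : ℝ :=
  c0 * ((1 / (2 : ℝ) ^ (2 * S.m)) * ∑ k : S.T, ∑ m : S.T,
    Θ a b k m * (1 + ((sg (hq a b k m) : ℤ) : ℝ)))

theorem z1_case (h2 : SQL) (h3 : S2B) (h4 : S1B) (h5 : SMn) (h7 : S16) (hτ : Tk S B τ)
    {c0 : ℝ} (hc0 : Tendsto (fun σ : ℝ => σ ^ 2 * DS τ 0 0 (1 + σ)) (𝓝[>] 0) (𝓝 c0))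
    {R : S.T → S.T → S.T → (V → Finset S.P) → ℝ} {Θ : S.T → S.T → S.T → S.T → ℝ}
    (hL : Law R Θ) (a b v : S.T) {P : Finset V} (hP : P.card ≤ 2) :
    Tendsto (fun σ : ℝ => σ ^ 2 * z1_F τ (mkc a b v) (R a b v) P (1 + σ)) (𝓝[>] 0)
      (𝓝 ((if P = {(0, 0), (1, 0)} then (if v = 0 then z1_L Θ c0 a b else 0) else 0) +
        (if P = {(0, 1), (1, 1)} then (if v = S.l + a + b then z1_L Θ c0 a b else 0)
          else 0))) := by
  have hok := z1_ok a b v
  have hR : ∀ x, |R a b v x| ≤ 1 := hL.bd a b v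
  rcases z1_pat P hP with rfl | ⟨u, rfl⟩ | rfl | rfl | rfl | rfl | rfl | rfl
  · rw [if_neg (by decide), if_neg (by decide), add_zero]
    exact z1_none h7 h4 hτ hok hR
  · rw [if_neg (z1_p1 u).1, if_neg (z1_p1 u).2, add_zero]
    by_cases he : (mkc a b v).f (u.1 + 1) = (0, ∅)
    · refine z1_tzero _ fun x hx => ?_
      have h8 : ∀ w : V, ∀ j : ZMod 2, (w.1 + 1, j) ∉ ({w} : Finset V) := by decide
      have h9 : sid x (u.1 + 1) = ∅ := z1_sid hx (h8 u)
      rcases zm2 u.1 with h10 | h10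
      · rw [h10, zero_add] at he h9
        rw [z1_f1, z1_el] at he
        subst he
        exact hL.deg1 a v x h9
      · have h11 : (1 : ZMod 2) + 1 = 0 := by decide
        rw [h10, h11] at he h9
        rw [z1_f0, z1_el] at he
        subst he
        exact hL.deg0 b v x h9
    · exact z1_one h7 h4 hτ hok hR he
  · have h01 : ({(0, 0), (1, 0)} : Finset V) ≠ {(0, 1), (1, 1)} := by decide
    rw [if_pos rfl, if_neg h01, add_zero]
    by_cases hv : v = 0
    · subst hv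
      rw [if_pos rfl]
      have h8 := h5 S B τ c0 hτ hc0 (mkc a b 0) a b 0 (Θ a b) hok (z1_f0 a b 0) (z1_f1 a b 0)
        (by rw [zero_add, z1_g1]) (hL.th a b)
      refine h8.congr fun σ => ?_
      congr 1
      unfold z1_F
      refine tsum_congr fun x => ?_
      by_cases hx : pat x = {(0, 0), (1, 0)}
      · rw [if_pos hx, if_pos hx]
        by_cases ha : Adm ∅ (mkc a b 0) x
        · rw [hL.main0 a b x ha hx]
        · have h9 : ms τ ∅ (mkc a b 0) (1 + σ) x = 0 := by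
            unfold ms
            exact if_neg ha
          rw [h9, zero_mul, zero_mul]
      · rw [if_neg hx, if_neg hx]
    · rw [if_neg hv]
      refine z1_two h7 h3 hτ hok hR (by decide) fun h => ?_
      have h8 : exc (mkc a b v) (0, 0) (1, 0) = (mkc a b v).g 1 := by
        unfold exc
        rw [if_neg (by decide), if_pos rfl]
        rfl
      rw [h8, z1_g1, z1_el] at h
      exact hv h.1
  · rw [if_neg (by decide), if_pos rfl, zero_add]
    by_cases hv : v = S.l + a + b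
    · subst hv
      rw [if_pos rfl]
      have h9 : (1 : ZMod 2) + 1 = 0 := by decide
      have h8 := h5 S B τ c0 hτ hc0 (mkc a b (S.l + a + b)) a b 1 (Θ a b) hok (z1_f0 _ _ _)
        (z1_f1 _ _ _) (by rw [h9, z1_g0, z1_el, z1_neg]) (hL.th a b)
      refine h8.congr fun σ => ?_
      congr 1
      unfold z1_F
      refine tsum_congr fun x => ?_
      by_cases hx : pat x = {(0, 1), (1, 1)}
      · rw [if_pos hx, if_pos hx]
        by_cases ha : Adm ∅ (mkc a b (S.l + a + b)) x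
        · rw [hL.main1 a b x ha hx]
        · have h9 : ms τ ∅ (mkc a b (S.l + a + b)) (1 + σ) x = 0 := by
            unfold ms
            exact if_neg ha
          rw [h9, zero_mul, zero_mul]
      · rw [if_neg hx, if_neg hx]
    · rw [if_neg hv]
      refine z1_two h7 h3 hτ hok hR (by decide) fun h => ?_
      have h8 : exc (mkc a b v) (0, 1) (1, 1) = (mkc a b v).g 0 := by
        unfold exc
        rw [if_neg (by decide), if_pos rfl]
        rfl
      rw [h8, z1_g0, z1_el, z1_neg] at h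
      exact hv h.1.symm
  · rw [if_neg (by decide), if_neg (by decide), add_zero]
    by_cases he : b = 0
    · subst he
      refine z1_tzero _ fun x hx => ?_
      exact hL.deg1 a v x (z1_sid hx (by decide))
    · refine z1_two h7 h3 hτ hok hR (by decide) fun h => ?_
      have h8 : exc (mkc a b v) (0, 0) (0, 1) = (mkc a b v).f 1 := by
        unfold exc
        rw [if_pos rfl]
        rfl
      rw [h8, z1_f1, z1_el] at h
      exact he h.1
  · rw [if_neg (by decide), if_neg (by decide), add_zero]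
    by_cases he : a = 0
    · subst he
      refine z1_tzero _ fun x hx => ?_
      exact hL.deg0 b v x (z1_sid hx (by decide))
    · refine z1_two h7 h3 hτ hok hR (by decide) fun h => ?_
      have h8 : exc (mkc a b v) (1, 0) (1, 1) = (mkc a b v).f 0 := by
        unfold exc
        rw [if_pos rfl]
        rfl
      rw [h8, z1_f0, z1_el] at h
      exact he h.1
  · rw [if_neg (by decide), if_neg (by decide), add_zero]
    by_cases he : exc (mkc a b v) (0, 0) (1, 1) = (0, ∅) ∧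
        exc (mkc a b v) (1, 1) (0, 0) = (0, ∅)
    · have h8 : exc (mkc a b v) (0, 0) (1, 1) = (b + v, ∅) := by
        unfold exc
        rw [if_neg (by decide), if_neg (by decide)]
        show ad ((mkc a b v).f 1) ((mkc a b v).g 1) = _
        rw [z1_f1, z1_g1]
        unfold ad
        rw [symmDiff_self, Finset.bot_eq_empty]
      have h9 : exc (mkc a b v) (1, 1) (0, 0) = (a + (S.l + a + b + v), ∅) := by
        unfold exc
        rw [if_neg (by decide), if_neg (by decide)]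
        show ad ((mkc a b v).f 0) ((mkc a b v).g 0) = _
        rw [z1_f0, z1_g0]
        unfold ad
        rw [symmDiff_self, Finset.bot_eq_empty]
      rw [h8, h9, z1_el, z1_neg, z1_el] at he
      obtain ⟨h10, h11⟩ := he
      subst h10
      have hl : S.l = 0 := by
        funext i
        have h12 := congrFun h11 i
        simp only [Pi.add_apply, Pi.zero_apply] at h12
        have h13 : ∀ p q r : ZMod 2, p + (r + p + q + q) = 0 → r = 0 := by decide
        exact h13 _ _ _ h12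
      rcases hL.bq0 hl a b with h12 | h12
      · exact h2 S B τ _ _ (0, 0) (1, 1) hτ hok (by decide) hR h12
      · rw [show ({(0, 0), (1, 1)} : Finset V) = {(1, 1), (0, 0)} by decide]
        exact h2 S B τ _ _ (1, 1) (0, 0) hτ hok (by decide) hR h12
    · exact z1_two h7 h3 hτ hok hR (by decide) he
  · rw [if_neg (by decide), if_neg (by decide), add_zero]
    by_cases he : exc (mkc a b v) (0, 1) (1, 0) = (0, ∅) ∧
        exc (mkc a b v) (1, 0) (0, 1) = (0, ∅)
    · have h8 : exc (mkc a b v) (0, 1) (1, 0) = (b + (S.l + a + b + v), ∅) := by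
        unfold exc
        rw [if_neg (by decide), if_neg (by decide)]
        show ad ((mkc a b v).f 1) ((mkc a b v).g 0) = _
        rw [z1_f1, z1_g0]
        unfold ad
        rw [symmDiff_self, Finset.bot_eq_empty]
      have h9 : exc (mkc a b v) (1, 0) (0, 1) = (a + v, ∅) := by
        unfold exc
        rw [if_neg (by decide), if_neg (by decide)]
        show ad ((mkc a b v).f 0) ((mkc a b v).g 1) = _
        rw [z1_f0, z1_g1]
        unfold ad
        rw [symmDiff_self, Finset.bot_eq_empty]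
      rw [h8, h9, z1_el, z1_el, z1_neg a v] at he
      obtain ⟨h11, h10⟩ := he
      subst h10
      have hl : S.l = 0 := by
        funext i
        have h12 := congrFun h11 i
        simp only [Pi.add_apply, Pi.zero_apply] at h12
        have h13 : ∀ p q r : ZMod 2, p + (r + q + p + q) = 0 → r = 0 := by decide
        exact h13 _ _ _ h12
      rcases hL.bq1 hl a b with h12 | h12
      · exact h2 S B τ _ _ (0, 1) (1, 0) hτ hok (by decide) hR h12
      · rw [show ({(0, 1), (1, 0)} : Finset V) = {(1, 0), (0, 1)} by decide]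
        exact h2 S B τ _ _ (1, 0) (0, 1) hτ hok (by decide) hR h12
    · exact z1_two h7 h3 hτ hok hR (by decide) he

/-- the decomposition by patterns -/
theorem z1_dec (h7 : S16) (hτ : Tk S B τ) {c : Co S} (hc : c.Ok ∅)
    {R : (V → Finset S.P) → ℝ} (hR : ∀ x, |R x| ≤ 1) {s : ℝ} (h1 : 1 < s) (h2 : s ≤ 2) :
    ∑' x : V → Finset S.P, ms τ ∅ c s x * R x =
      ∑' x : V → Finset S.P, (if 3 ≤ (pat x).card then ms τ ∅ c s x * R x else 0) +
      ∑ P ∈ Finset.univ.filter (fun P : Finset V => P.card ≤ 2), z1_F τ c R P s := by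
  have hP : ∀ P : Finset V, Summable fun x : V → Finset S.P =>
      if pat x = P then ms τ ∅ c s x * R x else 0 := fun P =>
    z1_summ h7 hτ hc hR h1 h2 (fun x => pat x = P)
  have h3 : Summable fun x : V → Finset S.P =>
      if 3 ≤ (pat x).card then ms τ ∅ c s x * R x else 0 :=
    z1_summ h7 hτ hc hR h1 h2 (fun x => 3 ≤ (pat x).card)
  unfold z1_F
  rw [← Summable.tsum_finsetSum (fun P _ => hP P),
    ← Summable.tsum_add h3 (summable_sum fun P _ => hP P)]
  refine tsum_congr fun x => ?_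
  by_cases hx : 3 ≤ (pat x).card
  · rw [if_pos hx, Finset.sum_eq_zero, add_zero]
    intro P hP
    rw [Finset.mem_filter] at hP
    refine if_neg fun h => ?_
    rw [h] at hx
    omega
  · rw [if_neg hx, zero_add, Finset.sum_ite_eq, if_pos]
    rw [Finset.mem_filter]
    exact ⟨Finset.mem_univ _, by omega⟩

end

/-- Z1: the limit of the Dirichlet series. -/
theorem sD8L (h1 : SGL) (h2 : SQL) (h3 : S2B) (h4 : S1B) (h5 : SMn) (h6 : SDb) (h7 : S16) :
    SD8L := by
  classical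
  intro S B τ hτ
  obtain ⟨⟨c0, hc0, hlim⟩, -⟩ := h6 S B τ hτ
  have hp : (0 : ℝ) < 1 / (2 : ℝ) ^ (2 * S.m) := by positivity
  refine ⟨2 * (c0 * (1 / (2 : ℝ) ^ (2 * S.m))), by positivity, fun R Θ hL => ?_⟩
  have key : ∀ a b v : S.T, Tendsto (fun σ : ℝ => σ ^ 2 * ∑' x : V → Finset S.P,
      ms τ ∅ (mkc a b v) (1 + σ) x * R a b v x) (𝓝[>] 0)
      (𝓝 ((if v = 0 then z1_L Θ c0 a b else 0) +
        (if v = S.l + a + b then z1_L Θ c0 a b else 0))) := by
    intro a b v
    have hok := z1_ok a b v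
    have hR : ∀ x, |R a b v x| ≤ 1 := hL.bd a b v
    have k1 := h1 S B τ (mkc a b v) (R a b v) hτ hok hR (hL.bt a b v)
    have k2 := tendsto_finsetSum (Finset.univ.filter (fun P : Finset V => P.card ≤ 2))
      (fun P hP => z1_case h2 h3 h4 h5 h7 hτ hlim hL a b v (Finset.mem_filter.1 hP).2)
    have k3 := k1.add k2
    have m0 : ({(0, 0), (1, 0)} : Finset V) ∈
        Finset.univ.filter (fun P : Finset V => P.card ≤ 2) :=
      Finset.mem_filter.2 ⟨Finset.mem_univ _, by decide⟩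
    have m1 : ({(0, 1), (1, 1)} : Finset V) ∈
        Finset.univ.filter (fun P : Finset V => P.card ≤ 2) :=
      Finset.mem_filter.2 ⟨Finset.mem_univ _, by decide⟩
    have e1 : (0 : ℝ) + ∑ P ∈ Finset.univ.filter (fun P : Finset V => P.card ≤ 2),
        ((if P = {(0, 0), (1, 0)} then (if v = 0 then z1_L Θ c0 a b else 0) else 0) +
        (if P = {(0, 1), (1, 1)} then (if v = S.l + a + b then z1_L Θ c0 a b else 0)
          else 0)) = (if v = 0 then z1_L Θ c0 a b else 0) +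
        (if v = S.l + a + b then z1_L Θ c0 a b else 0) := by
      rw [zero_add, Finset.sum_add_distrib, Finset.sum_ite_eq', Finset.sum_ite_eq',
        if_pos m0, if_pos m1]
    rw [e1] at k3
    refine k3.congr' ?_
    filter_upwards [Ioc_mem_nhdsGT (zero_lt_one' ℝ)] with σ hσ
    have hσ0 := hσ.1
    have hσ1 := hσ.2
    rw [z1_dec h7 hτ hok hR (by linarith : (1 : ℝ) < 1 + σ) (by linarith), mul_add,
      Finset.mul_sum]
  have h8 : Tendsto (fun σ : ℝ => ∑ a : S.T, ∑ b : S.T, ∑ v : S.T, σ ^ 2 *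
      ∑' x : V → Finset S.P, ms τ ∅ (mkc a b v) (1 + σ) x * R a b v x) (𝓝[>] 0)
      (𝓝 (∑ a : S.T, ∑ b : S.T, ∑ v : S.T, ((if v = 0 then z1_L Θ c0 a b else 0) +
        (if v = S.l + a + b then z1_L Θ c0 a b else 0)))) :=
    tendsto_finsetSum _ fun a _ => tendsto_finsetSum _ fun b _ =>
      tendsto_finsetSum _ fun v _ => key a b v
  have e2 : ∑ a : S.T, ∑ b : S.T, ∑ v : S.T, ((if v = 0 then z1_L Θ c0 a b else 0) +
        (if v = S.l + a + b then z1_L Θ c0 a b else 0)) =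
      2 * (c0 * (1 / (2 : ℝ) ^ (2 * S.m))) * ∑ a : S.T, ∑ b : S.T, ∑ k : S.T, ∑ m : S.T,
        Θ a b k m * (1 + ((sg (hq a b k m) : ℤ) : ℝ)) := by
    rw [Finset.mul_sum]
    refine Finset.sum_congr rfl fun a _ => ?_
    rw [Finset.mul_sum]
    refine Finset.sum_congr rfl fun b _ => ?_
    rw [Finset.sum_add_distrib, Finset.sum_ite_eq', Finset.sum_ite_eq',
      if_pos (Finset.mem_univ _), if_pos (Finset.mem_univ _)]
    unfold z1_L
    ring
  rw [e2] at h8
  refine h8.congr fun σ => ?_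
  unfold FD
  rw [Finset.mul_sum]
  refine Finset.sum_congr rfl fun a _ => ?_
  rw [Finset.mul_sum]
  refine Finset.sum_congr rfl fun b _ => ?_
  rw [Finset.mul_sum]

end Pool.Agent.D8
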