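import Pool.Agent.D8.Stm

/-!
# Malle's conjecture for the dihedral group of order 16, row B4: the mass of the configurations
with at least three classes
-/

set_option autoImplicit false

open scoped BigOperators Topology
open Filter

namespace Pool.Agent.D8

open Pool.Agent.H98.MK (sg)
open Pool.Agent.H98.MF
open Pool.Agent.H32.MQ (El pw)

theorem bgb_phi (u : V × V) : φ16 u u = 0 := by
  unfold φ16
  rw [CharTwo.add_self_eq_zero, CharTwo.add_self_eq_zero, mul_zero, mul_zero, add_zero]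

theorem bgb_sm {S : Sys} {M : Finset S.P} (t : ZMod 2) (c : El S) (h : c.2 ⊆ M) :
    (sm t c).2 ⊆ M := by
  unfold sm
  split_ifs
  · exact Finset.empty_subset _
  · exact h

theorem bgb_ad {S : Sys} {M : Finset S.P} (c d : El S) (h : c.2 ⊆ M) (h' : d.2 ⊆ M) :
    (ad c d).2 ⊆ M := by
  intro p hp
  have hp2 : p ∈ symmDiff c.2 d.2 := hp
  rcases Finset.mem_symmDiff.1 hp2 with h1 | h1
  · exact h h1.1
  · exact h' h1.1

theorem bgb_ok {S : Sys} (M : Finset S.P) (c : Co S) (w : V → Finset S.P) (hc : c.Ok M)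
    (hM : ∀ u, M ⊆ w u) : (D16 M c w).Ok where
  c_sub _ := bgb_ad _ _ (bgb_sm _ _ (hc.f_sub _)) (bgb_sm _ _ (hc.g_sub _))
  e_sub _ := Finset.empty_subset _
  M_sub u := hM u.1

theorem sGB (h1 : SFK) (h2 : SZU) (h3 : STh) (h4 : S16) (h5 : SC16) : SGB := by
  classical
  intro S B
  obtain ⟨c1, c2, -⟩ := h5
  obtain ⟨C1, E1, hC1, hE1, hF⟩ := h1 S (V × V) φ16 4 B (1 / 2) bgb_phi (by norm_num)
    (by norm_num) (by norm_num) c1
  obtain ⟨K, hK, hT⟩ := h3 S B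
  refine ⟨(Fintype.card (Finset (V × V)) : ℝ) * Real.exp (2 * K) + C1, E1, by positivity, hE1, ?_⟩
  intro τ M c w hτ hc hM σ h0 hσ
  have hs1 : (1 : ℝ) < 1 + σ := by linarith
  have hs2 : 1 + σ ≤ 2 := by linarith
  have hΦ : ∀ U : Finset V, |(if 3 ≤ U.card then (1 : ℝ) else 0)| ≤ 1 := by
    intro U
    split_ifs
    · rw [abs_one]
    · rw [abs_zero]
      exact zero_le_one
  have e1 := (h4 S B τ M c w (fun U => if 3 ≤ U.card then 1 else 0) (1 + σ) hτ hc hM hΦ hs1 hs2).2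
  have hok := bgb_ok M c w hc hM
  have e2 := hF τ (D16 M c w) (fun U => if 3 ≤ (U.image Prod.fst).card then 1 else 0) hτ hok
    (fun U => hΦ _) σ h0 hσ
  rw [e1]
  -- the main terms
  set X : ℝ := ∑ u, ∑ p ∈ w u, (S.N p : ℝ) ^ (-(1 + σ)) with hX
  set A : ℝ := σ ^ (-(2 : ℝ)) * Real.exp (-(1 / 2) * X) with hA
  have hA0 : 0 ≤ A := mul_nonneg (Real.rpow_nonneg h0.le _) (Real.exp_pos _).le
  have hmain : ∀ U : Finset (V × V), Ind φ16 U → U.card = 4 → 3 ≤ (U.image Prod.fst).card →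
      ∀ Ψ : Finset (V × V) → ℝ, (∀ P, P = U → Ψ P = 1) → (∀ P, P ≠ U → Ψ P = 0) →
      |FK τ (1 / 2) (1 + σ) φ16 (D16 M c w) Ψ| ≤ Real.exp (2 * K) * A := by
    intro U hU hU4 hU3 Ψ hΨ1 hΨ0
    obtain ⟨hu, hinj⟩ := c2 U hU hU4 hU3
    have h5 := h2 S (V × V) φ16 B (1 / 2) τ (D16 M c w) hτ (by norm_num) (by norm_num) U (1 + σ)
      hs1 hs2
    refine (le_of_eq (congrArg (fun Ψ => |FK τ (1 / 2) (1 + σ) φ16 (D16 M c w) Ψ|)
      (funext fun P => ?_))).trans (h5.trans ?_)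
    · by_cases hP : P = U
      · rw [if_pos hP, hΨ1 P hP]
      · rw [if_neg hP, hΨ0 P hP]
    rw [← Real.exp_sum]
    have h6 : ∀ u ∈ U, ∑' p : S.P, hh S τ (1 / 2) ((D16 M c w).e u) ((D16 M c w).w u) p *
        (S.N p : ℝ) ^ (-(1 + σ)) ≤
        1 / 2 * (Real.log (1 / σ) + K - ∑ p ∈ w u.1, (S.N p : ℝ) ^ (-(1 + σ))) := by
      intro u _
      have h7 := (hT τ hτ (1 / 2) ((D16 M c w).e u) ((D16 M c w).w u) (1 + σ) (by norm_num)
        (by norm_num) hs1 hs2).2.1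
      have h8 : (1 + σ - 1 : ℝ) = σ := by ring
      rw [h8] at h7
      exact h7
    have h7 : ∑ u ∈ U, (1 / 2 * (Real.log (1 / σ) + K -
        ∑ p ∈ w u.1, (S.N p : ℝ) ^ (-(1 + σ)))) =
        2 * Real.log (1 / σ) + 2 * K - 1 / 2 * X := by
      have h8 : ∑ u ∈ U, ∑ p ∈ w u.1, (S.N p : ℝ) ^ (-(1 + σ)) = X := by
        rw [hX, ← hu, Finset.sum_image hinj]
      rw [← Finset.mul_sum, Finset.sum_sub_distrib, h8, Finset.sum_const, hU4, nsmul_eq_mul]
      push_cast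
      ring
    refine (Real.exp_le_exp.2 ((Finset.sum_le_sum h6).trans_eq h7)).trans (le_of_eq ?_)
    have h8 : Real.exp (2 * Real.log (1 / σ)) = σ ^ (-(2 : ℝ)) := by
      rw [Real.rpow_def_of_pos h0, one_div, Real.log_inv]
      congr 1
      ring
    rw [show 2 * Real.log (1 / σ) + 2 * K - 1 / 2 * X =
      2 * K + (2 * Real.log (1 / σ) + -(1 / 2) * X) by ring, Real.exp_add, Real.exp_add, h8]
  -- the error term
  have hprod : ∏ t : V × V, ls S ((D16 M c w).w t) = (∏ u, ls S (w u)) ^ 4 := by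
    rw [Fintype.prod_prod_type]
    have h6 : ∀ u : V, ∏ v : V, ls S ((D16 M c w).w (u, v)) = ls S (w u) ^ 4 := by
      intro u
      have h7 : ∀ v : V, ls S ((D16 M c w).w (u, v)) = ls S (w u) := fun v => rfl
      rw [Finset.prod_congr rfl fun v _ => h7 v, Finset.prod_const, Finset.card_univ]
      rfl
    rw [Finset.prod_congr rfl fun u _ => h6 u, Finset.prod_pow]
  have hexp : -(1 / 2 * (((4 : ℕ) : ℝ) - 1)) = (-(3 / 2 : ℝ)) := by norm_num
  rw [hprod, hexp] at e2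
  have hDM : (D16 M c w).M = M := rfl
  rw [hDM] at e2
  set Rr : ℝ := (1 + Real.log (1 / σ)) ^ E1 * (1 + Real.log (S.nm M)) *
    (∏ u, ls S (w u)) ^ 4 * σ ^ (-(3 / 2 : ℝ)) with hRr
  have hR0 : 0 ≤ Rr := by
    have h6 : 0 ≤ 1 + Real.log (1 / σ) := by
      have : 0 ≤ Real.log (1 / σ) := Real.log_nonneg (one_le_one_div h0 hσ)
      linarith
    have h7 : 0 ≤ 1 + Real.log (S.nm M) := by
      have : 0 ≤ Real.log (S.nm M) := Real.log_nonneg (S.one_le_nmr M)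
      linarith
    have h8 : 0 ≤ ∏ u, ls S (w u) := Finset.prod_nonneg fun u _ => (Real.exp_pos _).le
    have h9 : 0 ≤ σ ^ (-(3 / 2 : ℝ)) := Real.rpow_nonneg h0.le _
    rw [hRr]
    exact mul_nonneg (mul_nonneg (mul_nonneg (Real.rpow_nonneg h6 _) h7) (pow_nonneg h8 _)) h9
  have e4 : C1 * (1 + Real.log (1 / σ)) ^ E1 * (1 + Real.log (S.nm M)) *
    (∏ u, ls S (w u)) ^ 4 * σ ^ (-(3 / 2 : ℝ)) = C1 * Rr := by
    rw [hRr]
    ring
  rw [e4] at e2
  have e3 := sub_le_iff_le_add.1 (abs_le.1 e2).2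
  have h10 : C1 * Rr + (Fintype.card (Finset (V × V)) : ℝ) * (Real.exp (2 * K) * A) ≤
      ((Fintype.card (Finset (V × V)) : ℝ) * Real.exp (2 * K) + C1) * (A + Rr) := by
    have h11 : 0 ≤ (Fintype.card (Finset (V × V)) : ℝ) * Real.exp (2 * K) := by positivity
    nlinarith [mul_nonneg h11 hR0, mul_nonneg hC1 hA0]
  have hEA : 0 ≤ Real.exp (2 * K) * A := mul_nonneg (Real.exp_pos _).le hA0
  refine e3.trans ((add_le_add le_rfl ((Finset.sum_le_card_nsmul _ _ (Real.exp (2 * K) * A)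
    fun U hU => ?_).trans ?_)).trans h10)
  · have hU2 := (Finset.mem_filter.1 hU).2
    by_cases h3c : 3 ≤ (U.image Prod.fst).card
    · rw [if_pos h3c, one_mul]
      exact (le_abs_self _).trans (hmain U hU2.1 hU2.2 h3c _ (fun P hP => if_pos hP)
        fun P hP => if_neg hP)
    · rw [if_neg h3c, zero_mul]
      exact hEA
  · rw [nsmul_eq_mul]
    refine mul_le_mul_of_nonneg_right ?_ hEA
    exact_mod_cast Finset.card_le_univ _

end Pool.Agent.D8
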