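import Pool.Agent.D8.Stm

/-!
# The dihedral group of order 16 over a number field: the generic part is negligible
-/

set_option autoImplicit false

open scoped BigOperators Topology
open Filter

namespace Pool.Agent.D8

open Pool.Agent.H98.MK (sg)
open Pool.Agent.H98.MF
open Pool.Agent.H32.MQ (El pw)

/-! ### limits -/

theorem bgl_pos : ∀ᶠ σ : ℝ in 𝓝[>] 0, 0 < σ ∧ σ ≤ 1 := by
  have h1 : ∀ᶠ σ : ℝ in 𝓝[>] 0, 0 < σ := self_mem_nhdsWithin
  have h2 : ∀ᶠ σ : ℝ in 𝓝[>] 0, σ ≤ 1 :=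
    nhdsWithin_le_nhds (Iic_mem_nhds one_pos)
  exact h1.and h2

theorem bgl_sq {σ : ℝ} (h : 0 < σ) : σ ^ 2 * σ ^ (-(2 : ℝ)) = 1 := by
  rw [← Real.rpow_natCast σ 2, ← Real.rpow_add h]
  norm_num

/-- powers of `σ` against the exponential -/
theorem bgl_exp (C : ℝ) : Tendsto (fun σ : ℝ => σ ^ 2 * (C * σ ^ (-(8 : ℝ)) *
    Real.exp (-(σ ^ (-(1 / 100000) : ℝ)) / 4))) (𝓝[>] 0) (𝓝 0) := by
  have h1 : Tendsto (fun σ : ℝ => σ ^ (-(1 / 100000) : ℝ)) (𝓝[>] 0) atTop :=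
    tendsto_rpow_neg_nhdsGT_zero (by norm_num)
  have h2 := (tendsto_rpow_mul_exp_neg_mul_atTop_nhds_zero 600000 (1 / 4) (by norm_num)).comp h1
  have h3 := h2.const_mul C
  rw [mul_zero] at h3
  refine h3.congr' ?_
  filter_upwards [bgl_pos] with σ hσ
  have h4 : (σ ^ (-(1 / 100000) : ℝ)) ^ (600000 : ℝ) = σ ^ 2 * σ ^ (-(8 : ℝ)) := by
    rw [← Real.rpow_mul hσ.1.le, ← Real.rpow_natCast σ 2, ← Real.rpow_add hσ.1]
    norm_num
  show C * ((σ ^ (-(1 / 100000) : ℝ)) ^ (600000 : ℝ) *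
    Real.exp (-(1 / 4) * σ ^ (-(1 / 100000) : ℝ))) = _
  rw [h4]
  have h5 : -(1 / 4) * σ ^ (-(1 / 100000) : ℝ) = -(σ ^ (-(1 / 100000) : ℝ)) / 4 := by ring
  rw [h5]
  ring

/-- powers of logarithms against powers -/
theorem bgl_log (E : ℝ) {e : ℝ} (he : 0 < e) :
    Tendsto (fun σ : ℝ => (1 + Real.log (1 / σ)) ^ E * σ ^ e) (𝓝[>] 0) (𝓝 0) := by
  have h1 : Tendsto (fun σ : ℝ => 1 + Real.log (1 / σ)) (𝓝[>] 0) atTop := by
    have h2 : Tendsto (fun σ : ℝ => 1 / σ) (𝓝[>] 0) atTop := by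
      simpa [one_div] using (tendsto_inv_nhdsGT_zero (𝕜 := ℝ))
    exact tendsto_atTop_add_const_left _ 1 (Real.tendsto_log_atTop.comp h2)
  have h2 := (tendsto_rpow_mul_exp_neg_mul_atTop_nhds_zero E e he).comp h1
  have h3 := h2.const_mul (Real.exp e)
  rw [mul_zero] at h3
  refine h3.congr' ?_
  filter_upwards [bgl_pos] with σ hσ
  show Real.exp e * ((1 + Real.log (1 / σ)) ^ E * Real.exp (-e * (1 + Real.log (1 / σ)))) = _
  have h4 : σ ^ e = Real.exp (e * Real.log σ) := by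
    rw [Real.rpow_def_of_pos hσ.1, mul_comm]
  have h5 : Real.exp e * Real.exp (-e * (1 + Real.log (1 / σ))) = σ ^ e := by
    rw [← Real.exp_add, h4, one_div, Real.log_inv]
    congr 1
    ring
  rw [← h5]
  ring

variable {S : Sys}

theorem bgl_ls_empty : ls S (∅ : Finset S.P) = 1 := by
  unfold ls
  simp

theorem bgl_ls_nonneg (x : Finset S.P) : 0 ≤ ls S x := (Real.exp_pos _).le

/-- the bound for one window -/
theorem bgl_win (h2 : SWin) (h3 : SWls) (C E a b : ℝ) (ha : 0 < a) (hab : 10 * a ≤ b)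
    (hb : b ≤ 1 / 100) : Tendsto (fun σ : ℝ => σ ^ 2 * (C * (σ ^ (-(2 : ℝ)) *
      Real.exp (-(1 / 2) * ∑ p ∈ win S a b σ, (S.N p : ℝ) ^ (-(1 + σ))) +
      (1 + Real.log (1 / σ)) ^ E * (ls S (win S a b σ)) ^ 4 * σ ^ (-(3 / 2 : ℝ)))))
      (𝓝[>] 0) (𝓝 0) := by
  obtain ⟨K, hK, hls⟩ := h3 S
  have t1 : Tendsto (fun σ : ℝ =>
      Real.exp (-(1 / 2) * ∑ p ∈ win S a b σ, (S.N p : ℝ) ^ (-(1 + σ)))) (𝓝[>] 0) (𝓝 0) := by
    have h4 := h2 S a b ha hab (by linarith)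
    have h5 : Tendsto (fun σ : ℝ => (1 / 2 : ℝ) *
        ∑ p ∈ win S a b σ, (S.N p : ℝ) ^ (-(1 + σ))) (𝓝[>] 0) atTop :=
      h4.const_mul_atTop (by norm_num)
    have h6 := Real.tendsto_exp_neg_atTop_nhds_zero.comp h5
    refine h6.congr fun σ => ?_
    show Real.exp (-((1 / 2 : ℝ) * _)) = _
    rw [neg_mul]
  have t2 : Tendsto (fun σ : ℝ => (1 + Real.log (1 / σ)) ^ E * σ ^ (26 / 100 : ℝ) * K ^ 4)
      (𝓝[>] 0) (𝓝 0) := by
    have := (bgl_log E (e := 26 / 100) (by norm_num)).mul_const (K ^ 4)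
    rwa [zero_mul] at this
  have t3 : Tendsto (fun σ : ℝ => σ ^ 2 * ((1 + Real.log (1 / σ)) ^ E *
      (ls S (win S a b σ)) ^ 4 * σ ^ (-(3 / 2 : ℝ)))) (𝓝[>] 0) (𝓝 0) := by
    refine squeeze_zero' ?_ ?_ t2
    · filter_upwards [bgl_pos] with σ hσ
      have h4 : 0 ≤ Real.log (1 / σ) := Real.log_nonneg (by
        rw [le_div_iff₀ hσ.1]
        linarith [hσ.2])
      have h5 := bgl_ls_nonneg (win S a b σ)
      have h6 := hσ.1
      positivity
    · filter_upwards [bgl_pos] with σ hσ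
      have h4 : 0 ≤ Real.log (1 / σ) := Real.log_nonneg (by
        rw [le_div_iff₀ hσ.1]
        linarith [hσ.2])
      have hlog : 0 ≤ (1 + Real.log (1 / σ)) ^ E := by positivity
      have h5 : (ls S (win S a b σ)) ^ 4 ≤ (K * σ ^ (-(6 * b))) ^ 4 :=
        pow_le_pow_left₀ (bgl_ls_nonneg _) (hls a b σ ha (by linarith) (by linarith) hσ.1 hσ.2) 4
      have h6 : (K * σ ^ (-(6 * b))) ^ 4 = K ^ 4 * σ ^ (-(24 * b)) := by
        rw [mul_pow, ← Real.rpow_natCast (σ ^ (-(6 * b))) 4, ← Real.rpow_mul hσ.1.le]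
        congr 2
        push_cast
        ring
      have h7 : σ ^ (-(24 * b)) ≤ σ ^ (-(24 / 100) : ℝ) :=
        Real.rpow_le_rpow_of_exponent_ge hσ.1 hσ.2 (by linarith)
      have h8 : (ls S (win S a b σ)) ^ 4 ≤ K ^ 4 * σ ^ (-(24 / 100) : ℝ) := by
        refine h5.trans ?_
        rw [h6]
        exact mul_le_mul_of_nonneg_left h7 (by positivity)
      have h9 : σ ^ 2 * (σ ^ (-(24 / 100) : ℝ) * σ ^ (-(3 / 2 : ℝ))) = σ ^ (26 / 100 : ℝ) := by
        rw [← Real.rpow_natCast σ 2, ← Real.rpow_add hσ.1, ← Real.rpow_add hσ.1]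
        norm_num
      have h10 : 0 ≤ σ ^ (-(3 / 2 : ℝ)) := Real.rpow_nonneg hσ.1.le _
      calc σ ^ 2 * ((1 + Real.log (1 / σ)) ^ E * (ls S (win S a b σ)) ^ 4 * σ ^ (-(3 / 2 : ℝ)))
          ≤ σ ^ 2 * ((1 + Real.log (1 / σ)) ^ E * (K ^ 4 * σ ^ (-(24 / 100) : ℝ)) *
            σ ^ (-(3 / 2 : ℝ))) := by
            refine mul_le_mul_of_nonneg_left ?_ (by positivity)
            refine mul_le_mul_of_nonneg_right ?_ h10
            exact mul_le_mul_of_nonneg_left h8 hlog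
        _ = (1 + Real.log (1 / σ)) ^ E *
            (σ ^ 2 * (σ ^ (-(24 / 100) : ℝ) * σ ^ (-(3 / 2 : ℝ)))) * K ^ 4 := by ring
        _ = _ := by rw [h9]
  have t4 := (t1.add t3).const_mul C
  rw [add_zero, mul_zero] at t4
  refine t4.congr' ?_
  filter_upwards [bgl_pos] with σ hσ
  have h4 := bgl_sq hσ.1
  calc C * (Real.exp (-(1 / 2) * ∑ p ∈ win S a b σ, (S.N p : ℝ) ^ (-(1 + σ))) +
        σ ^ 2 * ((1 + Real.log (1 / σ)) ^ E * (ls S (win S a b σ)) ^ 4 * σ ^ (-(3 / 2 : ℝ))))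
      = C * (σ ^ 2 * σ ^ (-(2 : ℝ)) *
          Real.exp (-(1 / 2) * ∑ p ∈ win S a b σ, (S.N p : ℝ) ^ (-(1 + σ))) +
        σ ^ 2 * ((1 + Real.log (1 / σ)) ^ E * (ls S (win S a b σ)) ^ 4 *
          σ ^ (-(3 / 2 : ℝ)))) := by rw [h4, one_mul]
    _ = _ := by ring

/-! ### masses -/

theorem bgl_ms_nonneg {B : ℝ} {τ : S.P → ℝ} (hτ : Tk S B τ) (M : Finset S.P) (c : Co S)
    (s : ℝ) (x : V → Finset S.P) : 0 ≤ ms τ M c s x := by
  unfold ms
  split_ifs
  · refine Finset.prod_nonneg fun u _ => Finset.prod_nonneg fun p _ => ?_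
    have h1 := (hτ p).1
    positivity
  · exact le_rfl

open Classical in
/-- the indicator of patterns with three classes -/
noncomputable def bglΦ (U : Finset V) : ℝ := if 3 ≤ U.card then 1 else 0

theorem bglΦ_le (U : Finset V) : |bglΦ U| ≤ 1 := by
  unfold bglΦ
  split_ifs <;> simp

open Classical in
/-- one window at one class -/
noncomputable def bglw (u : V) (W : Finset S.P) : V → Finset S.P := fun t => if t = u then W else ∅

theorem bglw_sum (u : V) (W : Finset S.P) (f : S.P → ℝ) :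
    ∑ t, ∑ p ∈ bglw u W t, f p = ∑ p ∈ W, f p := by
  rw [Finset.sum_eq_single u]
  · rw [bglw, if_pos rfl]
  · intro t _ ht
    rw [bglw, if_neg ht, Finset.sum_empty]
  · intro h
    exact absurd (Finset.mem_univ u) h

theorem bglw_prod (u : V) (W : Finset S.P) : ∏ t, ls S (bglw u W t) = ls S W := by
  rw [Finset.prod_eq_single u]
  · rw [bglw, if_pos rfl]
  · intro t _ ht
    rw [bglw, if_neg ht, bgl_ls_empty]
  · intro h
    exact absurd (Finset.mem_univ u) h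

theorem bgl_pat {x : V → Finset S.P} {σ : ℝ} (h : Full σ x) : 3 ≤ (pat x).card := by
  classical
  obtain ⟨⟨p, hp, -⟩, ⟨q, hq, -⟩, r, hr, -⟩ := h
  have h1 : ({(0, 0), (1, 0), (0, 1)} : Finset V) ⊆ pat x := by
    intro u hu
    unfold pat
    rw [Finset.mem_filter]
    refine ⟨Finset.mem_univ _, ?_⟩
    simp only [Finset.mem_insert, Finset.mem_singleton] at hu
    rcases hu with rfl | rfl | rfl
    · exact ⟨p, hp⟩
    · exact ⟨q, hq⟩
    · exact ⟨r, hr⟩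
  have h2 := Finset.card_le_card h1
  have h3 : ({(0, 0), (1, 0), (0, 1)} : Finset V).card = 3 := by decide
  rwa [h3] at h2

open Classical in
/-- the bound for one class without primes of the window -/
theorem bgl_MS (C E : ℝ) (u : V) (W : Finset S.P) (σ m : ℝ)
    (h : m ≤ C * (σ ^ (-(2 : ℝ)) *
          Real.exp (-(1 / 2) * ∑ t, ∑ p ∈ bglw u W t, (S.N p : ℝ) ^ (-(1 + σ))) +
        (1 + Real.log (1 / σ)) ^ E * (1 + Real.log (S.nm ∅)) * (∏ t, ls S (bglw u W t)) ^ 4 *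
          σ ^ (-(3 / 2 : ℝ)))) :
    m ≤ C * (σ ^ (-(2 : ℝ)) *
          Real.exp (-(1 / 2) * ∑ p ∈ W, (S.N p : ℝ) ^ (-(1 + σ))) +
        (1 + Real.log (1 / σ)) ^ E * (ls S W) ^ 4 * σ ^ (-(3 / 2 : ℝ))) := by
  rw [bglw_sum, bglw_prod, S.nm_empty, Nat.cast_one, Real.log_one, add_zero, mul_one] at h
  exact h

open Classical in
/-- the decomposition of the sum -/
theorem bgl_split (h7 : S16) {B : ℝ} {τ : S.P → ℝ} {c : Co S} {R : (V → Finset S.P) → ℝ}
    (hτ : Tk S B τ) (hc : c.Ok ∅) (hR : ∀ x, |R x| ≤ 1) {σ : ℝ} (h0 : 0 < σ) (h1 : σ ≤ 1) :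
    |∑' x : V → Finset S.P, (if 3 ≤ (pat x).card then ms τ ∅ c (1 + σ) x * R x else 0)| ≤
      |∑' x : V → Finset S.P, (if Full σ x then ms τ ∅ c (1 + σ) x * R x else 0)| +
      (MS τ ∅ c (bglw (0, 0) (W1 S σ)) (fun U => if 3 ≤ U.card then 1 else 0) (1 + σ) +
        MS τ ∅ c (bglw (1, 0) (W2 S σ)) (fun U => if 3 ≤ U.card then 1 else 0) (1 + σ) +
        MS τ ∅ c (bglw (0, 1) (W2 S σ)) (fun U => if 3 ≤ U.card then 1 else 0) (1 + σ)) := by
  have hm := fun x => bgl_ms_nonneg hτ ∅ c (1 + σ) x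
  have hΦ : ∀ U : Finset V, |(if 3 ≤ U.card then (1 : ℝ) else 0)| ≤ 1 := by
    intro U
    split_ifs <;> simp
  have hsum : ∀ w : V → Finset S.P, Summable fun x : V → Finset S.P =>
      if ∀ u, Disjoint (x u) (w u) then
        (if 3 ≤ (pat x).card then (1 : ℝ) else 0) * ms τ ∅ c (1 + σ) x else 0 := fun w =>
    (h7 S B τ ∅ c w (fun U => if 3 ≤ U.card then 1 else 0) (1 + σ) hτ hc
      (fun u => Finset.empty_subset _) hΦ (by linarith) (by linarith)).1
  have hg : Summable fun x : V → Finset S.P =>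
      if 3 ≤ (pat x).card then ms τ ∅ c (1 + σ) x else 0 := by
    refine (hsum fun _ => ∅).congr fun x => ?_
    rw [if_pos fun u => Finset.disjoint_empty_right _]
    split_ifs <;> simp
  have habs : ∀ x, |ms τ ∅ c (1 + σ) x * R x| ≤ ms τ ∅ c (1 + σ) x := by
    intro x
    rw [abs_mul, abs_of_nonneg (hm x)]
    exact mul_le_of_le_one_right (hm x) (hR x)
  have s1 : Summable fun x : V → Finset S.P =>
      (if Full σ x then ms τ ∅ c (1 + σ) x * R x else 0) := by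
    refine Summable.of_norm_bounded hg fun x => ?_
    rw [Real.norm_eq_abs]
    by_cases hf : Full σ x
    · rw [if_pos hf, if_pos (bgl_pat hf)]
      exact habs x
    · rw [if_neg hf, abs_zero]
      split_ifs
      · exact hm x
      · exact le_rfl
  have s2 : Summable fun x : V → Finset S.P =>
      (if 3 ≤ (pat x).card ∧ ¬ Full σ x then ms τ ∅ c (1 + σ) x * R x else 0) := by
    refine Summable.of_norm_bounded hg fun x => ?_
    rw [Real.norm_eq_abs]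
    by_cases hf : 3 ≤ (pat x).card ∧ ¬ Full σ x
    · rw [if_pos hf, if_pos hf.1]
      exact habs x
    · rw [if_neg hf, abs_zero]
      split_ifs
      · exact hm x
      · exact le_rfl
  have e1 : ∑' x : V → Finset S.P, (if 3 ≤ (pat x).card then ms τ ∅ c (1 + σ) x * R x else 0) =
      ∑' x : V → Finset S.P, (if Full σ x then ms τ ∅ c (1 + σ) x * R x else 0) +
      ∑' x : V → Finset S.P,
        (if 3 ≤ (pat x).card ∧ ¬ Full σ x then ms τ ∅ c (1 + σ) x * R x else 0) := by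
    rw [← s1.tsum_add s2]
    refine tsum_congr fun x => ?_
    by_cases hf : Full σ x
    · rw [if_pos (bgl_pat hf), if_pos hf, if_neg fun h => h.2 hf, add_zero]
    · rw [if_neg hf, zero_add]
      by_cases h3 : 3 ≤ (pat x).card
      · rw [if_pos h3, if_pos ⟨h3, hf⟩]
      · rw [if_neg h3, if_neg fun h => h3 h.1]
  rw [e1]
  refine (abs_add_le _ _).trans (add_le_add_right ?_ _)
  have e2 : MS τ ∅ c (bglw (0, 0) (W1 S σ)) (fun U => if 3 ≤ U.card then 1 else 0) (1 + σ) +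
      MS τ ∅ c (bglw (1, 0) (W2 S σ)) (fun U => if 3 ≤ U.card then 1 else 0) (1 + σ) +
      MS τ ∅ c (bglw (0, 1) (W2 S σ)) (fun U => if 3 ≤ U.card then 1 else 0) (1 + σ) =
      ∑' x : V → Finset S.P,
        ((if ∀ u, Disjoint (x u) (bglw (0, 0) (W1 S σ) u) then
            (if 3 ≤ (pat x).card then (1 : ℝ) else 0) * ms τ ∅ c (1 + σ) x else 0) +
          (if ∀ u, Disjoint (x u) (bglw (1, 0) (W2 S σ) u) then
            (if 3 ≤ (pat x).card then (1 : ℝ) else 0) * ms τ ∅ c (1 + σ) x else 0) +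
          (if ∀ u, Disjoint (x u) (bglw (0, 1) (W2 S σ) u) then
            (if 3 ≤ (pat x).card then (1 : ℝ) else 0) * ms τ ∅ c (1 + σ) x else 0)) := by
    rw [((hsum _).add (hsum _)).tsum_add (hsum _), (hsum _).tsum_add (hsum _)]
    rfl
  rw [e2]
  refine (Real.norm_eq_abs _).symm.le.trans (tsum_of_norm_bounded
    (((hsum _).add (hsum _)).add (hsum _)).hasSum fun x => ?_)
  rw [Real.norm_eq_abs]
  have hnn : ∀ w : V → Finset S.P, 0 ≤ (if ∀ u, Disjoint (x u) (w u) then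
      (if 3 ≤ (pat x).card then (1 : ℝ) else 0) * ms τ ∅ c (1 + σ) x else 0) := by
    intro w
    split_ifs
    · rw [one_mul]
      exact hm x
    · rw [zero_mul]
    · exact le_rfl
  by_cases hf : 3 ≤ (pat x).card ∧ ¬ Full σ x
  · rw [if_pos hf]
    have key : ∀ (u : V) (W : Finset S.P), (∀ p ∈ x u, p ∉ W) →
        |ms τ ∅ c (1 + σ) x * R x| ≤ (if ∀ t, Disjoint (x t) (bglw u W t) then
          (if 3 ≤ (pat x).card then (1 : ℝ) else 0) * ms τ ∅ c (1 + σ) x else 0) := by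
      intro u W huW
      have h5 : ∀ t, Disjoint (x t) (bglw u W t) := by
        intro t
        unfold bglw
        split_ifs with ht
        · rw [ht]
          exact Finset.disjoint_left.2 huW
        · exact Finset.disjoint_empty_right _
      rw [if_pos h5, if_pos hf.1, one_mul]
      exact habs x
    have h6 : (∀ p ∈ x (0, 0), p ∉ W1 S σ) ∨ (∀ p ∈ x (1, 0), p ∉ W2 S σ) ∨
        ∀ p ∈ x (0, 1), p ∉ W2 S σ := by
      by_contra hcon
      rw [not_or, not_or] at hcon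
      obtain ⟨ha, hb, hd⟩ := hcon
      push Not at ha hb hd
      exact hf.2 ⟨ha, hb, hd⟩
    have g7 := hnn (bglw (0, 0) (W1 S σ))
    have g8 := hnn (bglw (1, 0) (W2 S σ))
    have g9 := hnn (bglw (0, 1) (W2 S σ))
    rcases h6 with h6 | h6 | h6
    · exact (key _ _ h6).trans (by linarith)
    · exact (key _ _ h6).trans (by linarith)
    · exact (key _ _ h6).trans (by linarith)
  · rw [if_neg hf, abs_zero]
    have h7 := hnn (bglw (0, 0) (W1 S σ))
    have h8 := hnn (bglw (1, 0) (W2 S σ))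
    have h9 := hnn (bglw (0, 1) (W2 S σ))
    linarith

theorem sGL (h1 : SGB) (h2 : SWin) (h3 : SWls) (h4 : SCS) (h5 : S3W) (h6 : S3X) (h7 : S16) :
    SGL := by
  intro S B τ c R hτ hc hR hBT
  obtain ⟨C, E, hC, hE, hGB⟩ := h1 S B
  obtain ⟨K, hK, h3X⟩ := h6 S B
  obtain ⟨σ0, hσ0, hσ1, h3W⟩ := h5 S c R (h4 S c R hR hBT)
  have hwin1 := bgl_win (S := S) h2 h3 C E (1 / 100000) (1 / 10000) (by norm_num) (by norm_num)
    (by norm_num)
  have hwin2 := bgl_win (S := S) h2 h3 C E (1 / 1000) (1 / 100) (by norm_num) (by norm_num)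
    (by norm_num)
  have hlim := (bgl_exp K).add ((hwin1.add hwin2).add hwin2)
  rw [add_zero, add_zero, add_zero] at hlim
  refine squeeze_zero_norm' ?_ hlim
  have hsmall : ∀ᶠ σ : ℝ in 𝓝[>] 0, σ ≤ σ0 := nhdsWithin_le_nhds (Iic_mem_nhds hσ0)
  filter_upwards [bgl_pos, hsmall] with σ hσ hs
  have hS := bgl_split (S := S) h7 hτ hc hR hσ.1 hσ.2
  have hA := h3X τ c R hτ hR σ hσ.1 hσ.2 _ (h3W σ hσ.1 hs)
  have hB1 := bgl_MS C E (0, 0) (W1 S σ) σ _ (hGB τ ∅ c (bglw (0, 0) (W1 S σ)) hτ hc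
    (fun u => Finset.empty_subset _) σ hσ.1 hσ.2)
  have hB2 := bgl_MS C E (1, 0) (W2 S σ) σ _ (hGB τ ∅ c (bglw (1, 0) (W2 S σ)) hτ hc
    (fun u => Finset.empty_subset _) σ hσ.1 hσ.2)
  have hB3 := bgl_MS C E (0, 1) (W2 S σ) σ _ (hGB τ ∅ c (bglw (0, 1) (W2 S σ)) hτ hc
    (fun u => Finset.empty_subset _) σ hσ.1 hσ.2)
  rw [Real.norm_eq_abs, abs_mul, abs_of_nonneg (sq_nonneg σ)]
  refine (mul_le_mul_of_nonneg_left (hS.trans (add_le_add hA
    (add_le_add (add_le_add hB1 hB2) hB3))) (sq_nonneg σ)).trans (le_of_eq ?_)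
  unfold W1 W2
  ring

end Pool.Agent.D8
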