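import Pool.Agent.D8.Stm

/-!
# Malle's conjecture for the dihedral group of order 16 over number fields: one large variable
with a nontrivial character (row A6)
-/

set_option autoImplicit false

open scoped BigOperators Topology
open Filter

namespace Pool.Agent.D8

open Pool.Agent.H98.MK (sg)
open Pool.Agent.H98.MF
open Pool.Agent.H32.MQ (El pw)

section

variable {S : Sys}

theorem blin_two (p : S.P) : (2 : ℝ) ≤ S.N p := by exact_mod_cast S.two_le p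

theorem blin_nn (p : S.P) (s : ℝ) : 0 ≤ (S.N p : ℝ) ^ s := Real.rpow_nonneg (Nat.cast_nonneg _) _

theorem blin_sgabs (t : ZMod 2) : |((sg t : ℤ) : ℝ)| ≤ 1 := le_of_eq (abs_sgr t)

theorem blin_half (t : ZMod 2) : 0 ≤ (1 + ((sg t : ℤ) : ℝ)) / 2 ∧
    (1 + ((sg t : ℤ) : ℝ)) / 2 ≤ 1 := by
  have h := abs_le.1 (blin_sgabs t)
  constructor
  · linarith [h.1]
  · linarith [h.2]

theorem blin_tau {B : ℝ} {τ : S.P → ℝ} (hτ : Tk S B τ) (p : S.P) :
    0 ≤ τ p ∧ τ p ≤ 1 + |B| ∧ |τ p - 1| ≤ |B| * (S.N p : ℝ) ^ (-(1 / 2) : ℝ) := by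
  obtain ⟨h1, h2⟩ := hτ p
  have h3 : |τ p - 1| ≤ |B| * (S.N p : ℝ) ^ (-(1 / 2) : ℝ) :=
    h2.trans (mul_le_mul_of_nonneg_right (le_abs_self B) (blin_nn p _))
  have h4 : (S.N p : ℝ) ^ (-(1 / 2) : ℝ) ≤ 1 :=
    Real.rpow_le_one_of_one_le_of_nonpos (by linarith [blin_two p]) (by norm_num)
  have h5 : |B| * (S.N p : ℝ) ^ (-(1 / 2) : ℝ) ≤ |B| := mul_le_of_le_one_right (abs_nonneg B) h4
  refine ⟨h1, ?_, h3⟩
  linarith [(abs_le.1 h3).2]

theorem blin_hh {B κ : ℝ} {τ : S.P → ℝ} (hτ : Tk S B τ) (hκ : 0 ≤ κ) (e : El S)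
    (w : Finset S.P) (p : S.P) :
    0 ≤ hh S τ κ e w p ∧ hh S τ κ e w p ≤ κ * τ p := by
  have h1 := (blin_tau hτ p).1
  have h2 := blin_half (S.ex e.2 e.1 p)
  unfold hh
  split_ifs
  · exact ⟨le_rfl, mul_nonneg hκ h1⟩
  · exact ⟨mul_nonneg (mul_nonneg hκ h1) h2.1, mul_le_of_le_one_right (mul_nonneg hκ h1) h2.2⟩

/-- the product of the two characters -/
theorem blin_ex (M y : Finset S.P) (c e : El S) (hy : Disjoint y M) (hc : c.2 ⊆ M)
    (he : e.2 ⊆ M) (p : S.P) : S.ex (y ∪ c.2) c.1 p + S.ex e.2 e.1 p =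
      S.ex (y ∪ symmDiff c.2 e.2) (c.1 + e.1) p := by
  classical
  have hyc : Disjoint y c.2 := Finset.disjoint_of_subset_right hc hy
  have hye : Disjoint y e.2 := Finset.disjoint_of_subset_right he hy
  have hsd : symmDiff c.2 e.2 ⊆ M := by
    intro q hq
    rcases Finset.mem_symmDiff.1 hq with h | h
    · exact hc h.1
    · exact he h.1
  have hys : Disjoint y (symmDiff c.2 e.2) := Finset.disjoint_of_subset_right hsd hy
  have hsum : ∑ q ∈ symmDiff c.2 e.2, S.J q p = ∑ q ∈ c.2, S.J q p + ∑ q ∈ e.2, S.J q p := by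
    have h1 : symmDiff c.2 e.2 = (c.2 \ e.2) ∪ (e.2 \ c.2) := rfl
    have h2 : Disjoint (c.2 \ e.2) (e.2 \ c.2) := disjoint_sdiff_sdiff
    have h3 : ∑ q ∈ c.2, S.J q p = ∑ q ∈ c.2 \ e.2, S.J q p + ∑ q ∈ c.2 ∩ e.2, S.J q p := by
      rw [add_comm]
      exact (Finset.sum_inter_add_sum_sdiff c.2 e.2 _).symm
    have h4 : ∑ q ∈ e.2, S.J q p = ∑ q ∈ e.2 \ c.2, S.J q p + ∑ q ∈ c.2 ∩ e.2, S.J q p := by
      rw [Finset.inter_comm, add_comm]
      exact (Finset.sum_inter_add_sum_sdiff e.2 c.2 _).symm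
    rw [h1, Finset.sum_union h2, h3, h4]
    have h5 : ∀ t : ZMod 2, t + t = 0 := CharTwo.add_self_eq_zero
    linear_combination -h5 (∑ q ∈ c.2 ∩ e.2, S.J q p)
  unfold Sys.ex
  rw [Finset.sum_union hyc, Finset.sum_union hys, hsum, add_dotProduct]
  ring

open Classical in
/-- the values of the function of one prime -/
noncomputable def blin_u (τ : S.P → ℝ) (κ : ℝ) (c e : El S) (w y z : Finset S.P) (s : ℝ)
    (p : S.P) : ℝ :=
  if p ∈ y ∪ z then 0 else ((sg (S.ex (y ∪ c.2) c.1 p) : ℤ) : ℝ) *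
    (hh S τ κ e w p * (S.N p : ℝ) ^ (-s))

open Classical in
/-- the term of a set of primes -/
theorem blin_prod (τ : S.P → ℝ) (κ : ℝ) (c e : El S) (w y z : Finset S.P) (s : ℝ)
    (x : Finset S.P) : (if Disjoint x (y ∪ z) then
      ((sg (∑ p ∈ x, S.ex (y ∪ c.2) c.1 p) : ℤ) : ℝ) *
        ∏ p ∈ x, (hh S τ κ e w p * (S.N p : ℝ) ^ (-s)) else 0) =
      ∏ p ∈ x, blin_u τ κ c e w y z s p := by
  split_ifs with h
  · rw [sg_sum, Int.cast_prod, ← Finset.prod_mul_distrib]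
    refine Finset.prod_congr rfl fun p hp => ?_
    unfold blin_u
    rw [if_neg (Finset.disjoint_left.1 h hp)]
  · rw [Finset.not_disjoint_iff] at h
    obtain ⟨p, hp, hp'⟩ := h
    refine (Finset.prod_eq_zero hp ?_).symm
    unfold blin_u
    rw [if_pos hp']

theorem blin_u_abs {B κ : ℝ} {τ : S.P → ℝ} (hτ : Tk S B τ) (hκ : 0 ≤ κ) (c e : El S)
    (w y z : Finset S.P) (s : ℝ) (p : S.P) :
    |blin_u τ κ c e w y z s p| ≤ κ * τ p * (S.N p : ℝ) ^ (-s) := by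
  have h1 := blin_hh hτ hκ e w p
  have h2 := (blin_tau hτ p).1
  have h3 := blin_nn p (-s)
  unfold blin_u
  split_ifs
  · rw [abs_zero]
    positivity
  · rw [abs_mul, abs_sgr, one_mul, abs_of_nonneg (mul_nonneg h1.1 h3)]
    exact mul_le_mul_of_nonneg_right h1.2 h3

theorem blin_u_le {B κ : ℝ} {τ : S.P → ℝ} (hτ : Tk S B τ) (hκ : 0 ≤ κ) (hκ1 : κ ≤ 1)
    (c e : El S) (w y z : Finset S.P) (s : ℝ) (p : S.P) :
    |blin_u τ κ c e w y z s p| ≤ (1 + |B|) * (S.N p : ℝ) ^ (-s) := by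
  refine (blin_u_abs hτ hκ c e w y z s p).trans ?_
  refine mul_le_mul_of_nonneg_right ?_ (blin_nn p _)
  have h2 := blin_tau hτ p
  calc κ * τ p ≤ 1 * τ p := mul_le_mul_of_nonneg_right hκ1 h2.1
    _ ≤ 1 + |B| := by rw [one_mul]; exact h2.2.1

theorem blin_sum {B κ : ℝ} {τ : S.P → ℝ} (hτ : Tk S B τ) (hκ : 0 ≤ κ) (hκ1 : κ ≤ 1)
    (c e : El S) (w y z : Finset S.P) (s : ℝ) (hs : 1 < s) :
    Summable (blin_u τ κ c e w y z s) :=
  Summable.of_norm_bounded ((summable_N S s hs).mul_left (1 + |B|))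
    fun p => blin_u_le hτ hκ hκ1 c e w y z s p

theorem blin_sq {B κ : ℝ} {τ : S.P → ℝ} (hτ : Tk S B τ) (hκ : 0 ≤ κ) (hκ1 : κ ≤ 1)
    (c e : El S) (w y z : Finset S.P) (s : ℝ) (hs : 1 < s) (p : S.P) :
    blin_u τ κ c e w y z s p ^ 2 ≤ (1 + |B|) ^ 2 * (S.N p : ℝ) ^ (-(2 : ℝ)) := by
  have h1 := blin_u_le hτ hκ hκ1 c e w y z s p
  have h2 : blin_u τ κ c e w y z s p ^ 2 ≤ ((1 + |B|) * (S.N p : ℝ) ^ (-s)) ^ 2 := by
    rw [← sq_abs]
    exact pow_le_pow_left₀ (abs_nonneg _) h1 2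
  refine h2.trans ?_
  rw [mul_pow]
  refine mul_le_mul_of_nonneg_left ?_ (by positivity)
  rw [← Real.rpow_natCast, ← Real.rpow_mul (by linarith [blin_two p])]
  refine Real.rpow_le_rpow_of_exponent_le (by linarith [blin_two p]) ?_
  push_cast
  linarith

open Classical in
/-- a character with values zero at its primes -/
noncomputable def blin_f (y : Finset S.P) (c : S.T) (s : ℝ) (p : S.P) : ℝ :=
  (if p ∈ y then 0 else ((sg (S.ex y c p) : ℤ) : ℝ)) * (S.N p : ℝ) ^ (-s)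

theorem blin_f_sum (y : Finset S.P) (c : S.T) (s : ℝ) (hs : 1 < s) :
    Summable (blin_f y c s) := by
  refine Summable.of_norm_bounded (summable_N S s hs) fun p => ?_
  unfold blin_f
  rw [Real.norm_eq_abs, abs_mul, abs_of_nonneg (blin_nn p (-s))]
  refine mul_le_of_le_one_left (blin_nn p _) ?_
  split_ifs
  · rw [abs_zero]
    norm_num
  · exact blin_sgabs _

open Classical in
/-- the primes of `W` -/
noncomputable def blin_g (W : Finset S.P) (p : S.P) : ℝ := if p ∈ W then 1 / (S.N p : ℝ) else 0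

/-- removing the primes of `W` -/
theorem blin_rem (y W : Finset S.P) (hyW : y ⊆ W) (c : S.T) (s : ℝ) (hs : 1 < s) (p : S.P) :
    (if p ∈ W then 0 else ((sg (S.ex y c p) : ℤ) : ℝ)) * (S.N p : ℝ) ^ (-s) ≤
      blin_f y c s p + blin_g W p := by
  classical
  have h0 := blin_nn p (-s)
  unfold blin_f blin_g
  by_cases hp : p ∈ W
  · rw [if_pos hp, if_pos hp, zero_mul]
    have h1 : (S.N p : ℝ) ^ (-s) ≤ 1 / (S.N p : ℝ) := by
      have h2 : (S.N p : ℝ) ^ (-s) ≤ (S.N p : ℝ) ^ (-1 : ℝ) :=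
        Real.rpow_le_rpow_of_exponent_le (by linarith [blin_two p]) (by linarith)
      rwa [Real.rpow_neg_one, ← one_div] at h2
    have h3 : -(S.N p : ℝ) ^ (-s) ≤
        (if p ∈ y then 0 else ((sg (S.ex y c p) : ℤ) : ℝ)) * (S.N p : ℝ) ^ (-s) := by
      split_ifs
      · rw [zero_mul]
        linarith
      · have h4 := (abs_le.1 (blin_sgabs (S.ex y c p))).1
        nlinarith
    linarith
  · have hpy : p ∉ y := fun h => hp (hyW h)
    rw [if_neg hp, if_neg hp, if_neg hpy, add_zero]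

open Classical in
/-- the bound at a prime -/
theorem blin_point {B κ : ℝ} {τ : S.P → ℝ} (hτ : Tk S B τ) (hκ : 0 ≤ κ) (hκ1 : κ ≤ 1)
    (M w y z : Finset S.P) (c e : El S) (hy : Disjoint y M) (hc : c.2 ⊆ M) (he : e.2 ⊆ M)
    (hw : M ⊆ w) (s : ℝ) (hs : 1 < s) (p : S.P) :
    blin_u τ κ c e w y z s p ≤
      κ / 2 * (blin_f (y ∪ c.2) c.1 s p + blin_f (y ∪ symmDiff c.2 e.2) (c.1 + e.1) s p) +
        κ * blin_g (w ∪ y ∪ z) p + |B| * (S.N p : ℝ) ^ (-(3 / 2) : ℝ) := by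
  have h0 := blin_nn p (-s)
  have hN := blin_two p
  have hsd : symmDiff c.2 e.2 ⊆ M := by
    intro q hq
    rcases Finset.mem_symmDiff.1 hq with h | h
    · exact hc h.1
    · exact he h.1
  have hyW : y ⊆ w ∪ y ∪ z := fun q hq =>
    Finset.mem_union_left _ (Finset.mem_union_right _ hq)
  have hMW : M ⊆ w ∪ y ∪ z := fun q hq =>
    Finset.mem_union_left _ (Finset.mem_union_left _ (hw hq))
  have r1 := blin_rem (y ∪ c.2) (w ∪ y ∪ z) (Finset.union_subset hyW (hc.trans hMW)) c.1 s hs p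
  have r2 := blin_rem (y ∪ symmDiff c.2 e.2) (w ∪ y ∪ z)
    (Finset.union_subset hyW (hsd.trans hMW)) (c.1 + e.1) s hs p
  have h4 : |B| * (S.N p : ℝ) ^ (-(1 / 2) : ℝ) * (S.N p : ℝ) ^ (-s) ≤
      |B| * (S.N p : ℝ) ^ (-(3 / 2) : ℝ) := by
    rw [mul_assoc, ← Real.rpow_add (by linarith)]
    refine mul_le_mul_of_nonneg_left ?_ (abs_nonneg B)
    exact Real.rpow_le_rpow_of_exponent_le (by linarith) (by linarith)
  have h5 : 0 ≤ |B| * (S.N p : ℝ) ^ (-(3 / 2) : ℝ) := mul_nonneg (abs_nonneg _) (blin_nn p _)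
  by_cases hp : p ∈ w ∪ y ∪ z
  · -- the function vanishes
    have hu : blin_u τ κ c e w y z s p = 0 := by
      unfold blin_u
      by_cases h : p ∈ y ∪ z
      · rw [if_pos h]
      · rw [if_neg h]
        have hpw : p ∈ w := by
          rcases Finset.mem_union.1 hp with h1 | h1
          · rcases Finset.mem_union.1 h1 with h2 | h2
            · exact h2
            · exact absurd (Finset.mem_union_left _ h2) h
          · exact absurd (Finset.mem_union_right _ h1) h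
        unfold hh
        rw [if_pos hpw, zero_mul, mul_zero]
    rw [if_pos hp, zero_mul] at r1 r2
    rw [hu]
    nlinarith [mul_nonneg hκ (add_nonneg r1 r2)]
  · have hpyz : p ∉ y ∪ z := by
      intro h
      apply hp
      rcases Finset.mem_union.1 h with h1 | h1
      · exact hyW h1
      · exact Finset.mem_union_right _ h1
    have hpw : p ∉ w := fun h => hp (Finset.mem_union_left _ (Finset.mem_union_left _ h))
    rw [if_neg hp] at r1 r2
    have hu : blin_u τ κ c e w y z s p = κ / 2 * τ p *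
        (((sg (S.ex (y ∪ c.2) c.1 p) : ℤ) : ℝ) +
          ((sg (S.ex (y ∪ symmDiff c.2 e.2) (c.1 + e.1) p) : ℤ) : ℝ)) * (S.N p : ℝ) ^ (-s) := by
      unfold blin_u hh
      rw [if_neg hpyz, if_neg hpw, ← blin_ex M y c e hy hc he p, sg_add]
      push_cast
      ring
    obtain ⟨a, ha⟩ : ∃ a, a = ((sg (S.ex (y ∪ c.2) c.1 p) : ℤ) : ℝ) := ⟨_, rfl⟩
    obtain ⟨b, hb⟩ : ∃ b, b = ((sg (S.ex (y ∪ symmDiff c.2 e.2) (c.1 + e.1) p) : ℤ) : ℝ) :=
      ⟨_, rfl⟩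
    have ha1 : |a| ≤ 1 := by rw [ha]; exact blin_sgabs _
    have hb1 : |b| ≤ 1 := by rw [hb]; exact blin_sgabs _
    rw [← ha] at r1
    rw [← hb] at r2
    rw [hu, ← ha, ← hb]
    have ht := (blin_tau hτ p).2.2
    -- replace the weight by one
    have h6 : κ / 2 * τ p * (a + b) * (S.N p : ℝ) ^ (-s) ≤
        κ / 2 * (a + b) * (S.N p : ℝ) ^ (-s) +
          |B| * (S.N p : ℝ) ^ (-(1 / 2) : ℝ) * (S.N p : ℝ) ^ (-s) := by
      have h7 : κ / 2 * (τ p - 1) * (a + b) ≤ |B| * (S.N p : ℝ) ^ (-(1 / 2) : ℝ) := by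
        have h8 : |κ / 2 * (τ p - 1) * (a + b)| ≤ 1 / 2 * |τ p - 1| * 2 := by
          rw [abs_mul, abs_mul]
          have h9 : |a + b| ≤ 2 := (abs_add_le a b).trans (by linarith)
          have h10 : |κ / 2| ≤ 1 / 2 := by
            rw [abs_of_nonneg (by linarith)]
            linarith
          exact mul_le_mul (mul_le_mul_of_nonneg_right h10 (abs_nonneg _)) h9 (abs_nonneg _)
            (by positivity)
        have h9 := le_abs_self (κ / 2 * (τ p - 1) * (a + b))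
        linarith
      have h8 := mul_le_mul_of_nonneg_right h7 h0
      nlinarith
    have h7 : κ / 2 * (a + b) * (S.N p : ℝ) ^ (-s) ≤ κ / 2 *
        (blin_f (y ∪ c.2) c.1 s p + blin_f (y ∪ symmDiff c.2 e.2) (c.1 + e.1) s p) +
          κ * blin_g (w ∪ y ∪ z) p := by
      have h8 : a * (S.N p : ℝ) ^ (-s) + b * (S.N p : ℝ) ^ (-s) ≤
          blin_f (y ∪ c.2) c.1 s p + blin_f (y ∪ symmDiff c.2 e.2) (c.1 + e.1) s p +
            2 * blin_g (w ∪ y ∪ z) p := by linarith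
      have h9 := mul_le_mul_of_nonneg_left h8 (by linarith : (0 : ℝ) ≤ κ / 2)
      nlinarith
    linarith

theorem blin_g_sum (W : Finset S.P) : Summable (blin_g W) := by
  classical
  refine summable_of_ne_finset_zero (s := W) fun p hp => ?_
  unfold blin_g
  rw [if_neg hp]

theorem blin_g_tsum (W : Finset S.P) : ∑' p, blin_g W p = ∑ p ∈ W, 1 / (S.N p : ℝ) := by
  classical
  rw [tsum_eq_sum (s := W) fun p hp => by
    unfold blin_g
    rw [if_neg hp]]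
  refine Finset.sum_congr rfl fun p hp => ?_
  unfold blin_g
  rw [if_pos hp]

theorem blin_ls (x : Finset S.P) : Real.exp (∑ p ∈ x, 1 / (S.N p : ℝ)) ≤ ls S x ∧ 1 ≤ ls S x := by
  have h1 : ∀ p ∈ x, 0 ≤ 1 / (S.N p : ℝ) := fun p _ => by positivity
  have h2 : 0 ≤ ∑ p ∈ x, 1 / (S.N p : ℝ) := Finset.sum_nonneg h1
  have h3 : ∑ p ∈ x, 2 / (S.N p : ℝ) = 2 * ∑ p ∈ x, 1 / (S.N p : ℝ) := by
    rw [Finset.mul_sum]
    refine Finset.sum_congr rfl fun p _ => ?_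
    ring
  unfold ls
  rw [h3]
  constructor
  · exact Real.exp_le_exp.2 (by linarith)
  · exact Real.one_le_exp (by linarith)

open Classical in
theorem blin_gW (w y z : Finset S.P) : Real.exp (∑ p ∈ w ∪ y ∪ z, 1 / (S.N p : ℝ)) ≤
    ls S y * ls S z * ls S w := by
  have h1 : ∀ x x' : Finset S.P, ∑ p ∈ x ∪ x', 1 / (S.N p : ℝ) ≤
      ∑ p ∈ x, 1 / (S.N p : ℝ) + ∑ p ∈ x', 1 / (S.N p : ℝ) := by
    intro x x'
    rw [← Finset.sum_union_inter]
    have : 0 ≤ ∑ p ∈ x ∩ x', 1 / (S.N p : ℝ) := Finset.sum_nonneg fun p _ => by positivity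
    linarith
  have h2 := h1 (w ∪ y) z
  have h3 := h1 w y
  have h4 : Real.exp (∑ p ∈ w ∪ y ∪ z, 1 / (S.N p : ℝ)) ≤
      Real.exp (∑ p ∈ y, 1 / (S.N p : ℝ)) * Real.exp (∑ p ∈ z, 1 / (S.N p : ℝ)) *
        Real.exp (∑ p ∈ w, 1 / (S.N p : ℝ)) := by
    rw [← Real.exp_add, ← Real.exp_add]
    exact Real.exp_le_exp.2 (by linarith)
  refine h4.trans ?_
  have hy := blin_ls y
  have hz := blin_ls z
  have hw := blin_ls w
  exact mul_le_mul (mul_le_mul hy.1 hz.1 (Real.exp_pos _).le (by linarith)) hw.1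
    (Real.exp_pos _).le (mul_nonneg (by linarith) (by linarith))

theorem blin_lognm (x : Finset S.P) : 0 ≤ Real.log (S.nm x) :=
  Real.log_nonneg (S.one_le_nmr x)

/-- the logarithm of the norm of a union -/
theorem blin_log (y m M : Finset S.P) (hm : m ⊆ M) (U : Finset S.P)
    (hU : S.nm U ≤ S.nm y * S.nm m) : Real.log (1 + Real.log (S.nm U)) ≤
      Real.log ((1 + Real.log (S.nm y)) * (1 + Real.log (S.nm M))) := by
  have h1 := blin_lognm y
  have h2 := blin_lognm M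
  have h3 := blin_lognm U
  refine Real.log_le_log (by linarith) ?_
  have h4 : (S.nm U : ℝ) ≤ S.nm y * S.nm M := by
    have h5 : S.nm U ≤ S.nm y * S.nm M := hU.trans (Nat.mul_le_mul_left _ (S.nm_mono hm))
    exact_mod_cast h5
  have h5 : Real.log (S.nm U) ≤ Real.log (S.nm y) + Real.log (S.nm M) := by
    rw [← Real.log_mul (S.nm_posr y).ne' (S.nm_posr M).ne']
    exact Real.log_le_log (S.nm_posr U) h4
  nlinarith [mul_nonneg h1 h2]

end

/-- one large variable with a nontrivial character -/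
theorem sLin (h : SExp) (h1 : SLup) (h2 : ST1) : SLin := by
  classical
  intro S B κ hκ hκ1
  obtain ⟨C1, hC1, hL⟩ := h1 S
  obtain ⟨C2, hC2, hT⟩ := h2 S B κ 0 hκ.le (by linarith)
  obtain ⟨K2, hK2⟩ : ∃ K2, K2 = ∑' p : S.P, (1 + |B|) ^ 2 * (S.N p : ℝ) ^ (-(2 : ℝ)) := ⟨_, rfl⟩
  obtain ⟨K3, hK3⟩ : ∃ K3, K3 = ∑' p : S.P, |B| * (S.N p : ℝ) ^ (-(3 / 2) : ℝ) := ⟨_, rfl⟩
  refine ⟨Real.exp (C1 + K3 + K2) + C2, by positivity, ?_⟩
  intro τ hτ M w y z c e hyne hy hc he hw σ J hσ hσ1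
  have hs : 1 < 1 + σ := by linarith
  have hsd : symmDiff c.2 e.2 ⊆ M := by
    intro q hq
    rcases Finset.mem_symmDiff.1 hq with h | h
    · exact hc h.1
    · exact he h.1
  -- the whole sum
  have hu := blin_sum hτ hκ.le hκ1 c e w y z (1 + σ) hs
  obtain ⟨hsm, hE, -, -⟩ := h S.P (blin_u τ κ c e w y z (1 + σ)) hu
  have husq : Summable fun p => blin_u τ κ c e w y z (1 + σ) p ^ 2 :=
    Summable.of_nonneg_of_le (fun p => sq_nonneg _)
      (fun p => blin_sq hτ hκ.le hκ1 c e w y z (1 + σ) hs p)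
      ((summable_N S 2 (by norm_num)).mul_left _)
  have hb2 : ∑' p, blin_u τ κ c e w y z (1 + σ) p ^ 2 ≤ K2 := by
    rw [hK2]
    exact husq.tsum_le_tsum (fun p => blin_sq hτ hκ.le hκ1 c e w y z (1 + σ) hs p)
      ((summable_N S 2 (by norm_num)).mul_left _)
  have hN3 : Summable fun p : S.P => |B| * (S.N p : ℝ) ^ (-(3 / 2) : ℝ) :=
    (summable_N S (3 / 2) (by norm_num)).mul_left _
  have f1 := blin_f_sum (y ∪ c.2) c.1 (1 + σ) hs
  have f2 := blin_f_sum (y ∪ symmDiff c.2 e.2) (c.1 + e.1) (1 + σ) hs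
  have f3 := blin_g_sum (w ∪ y ∪ z)
  have hb1 : ∑' p, blin_u τ κ c e w y z (1 + σ) p ≤
      κ / 2 * (∑' p, blin_f (y ∪ c.2) c.1 (1 + σ) p +
        ∑' p, blin_f (y ∪ symmDiff c.2 e.2) (c.1 + e.1) (1 + σ) p) +
        κ * ∑ p ∈ w ∪ y ∪ z, 1 / (S.N p : ℝ) + K3 := by
    rw [← blin_g_tsum, hK3, ← f1.tsum_add f2, ← tsum_mul_left, ← tsum_mul_left,
      ← ((f1.add f2).mul_left (κ / 2)).tsum_add (f3.mul_left κ),
      ← (((f1.add f2).mul_left (κ / 2)).add (f3.mul_left κ)).tsum_add hN3]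
    exact hu.tsum_le_tsum
      (fun p => blin_point hτ hκ.le hκ1 M w y z c e hy hc he hw (1 + σ) hs p)
      ((((f1.add f2).mul_left (κ / 2)).add (f3.mul_left κ)).add hN3)
  have ly := blin_lognm y
  have lM := blin_lognm M
  obtain ⟨Lg, hLg⟩ : ∃ Lg, Lg = Real.log ((1 + Real.log (S.nm y)) * (1 + Real.log (S.nm M))) :=
    ⟨_, rfl⟩
  have hLg0 : 0 ≤ Lg := by
    rw [hLg]
    refine Real.log_nonneg ?_
    nlinarith [mul_nonneg ly lM]
  have g1 : ∑' p, blin_f (y ∪ c.2) c.1 (1 + σ) p ≤ Lg + C1 := by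
    have h3 := hL (y ∪ c.2) c.1 (Or.inl (hyne.mono Finset.subset_union_left)) (1 + σ) hs
      (by linarith)
    have h4 := blin_log y c.2 M hc (y ∪ c.2) (S.nm_union_le _ _)
    rw [← hLg] at h4
    refine le_trans ?_ (h3.trans (by linarith))
    exact le_of_eq (tsum_congr fun p => rfl)
  have g2 : ∑' p, blin_f (y ∪ symmDiff c.2 e.2) (c.1 + e.1) (1 + σ) p ≤ Lg + C1 := by
    have h3 := hL (y ∪ symmDiff c.2 e.2) (c.1 + e.1)
      (Or.inl (hyne.mono Finset.subset_union_left)) (1 + σ) hs (by linarith)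
    have h4 := blin_log y (symmDiff c.2 e.2) M hsd (y ∪ symmDiff c.2 e.2) (S.nm_union_le _ _)
    rw [← hLg] at h4
    refine le_trans ?_ (h3.trans (by linarith))
    exact le_of_eq (tsum_congr fun p => rfl)
  obtain ⟨G, hG⟩ : ∃ G, G = ∑ p ∈ w ∪ y ∪ z, 1 / (S.N p : ℝ) := ⟨_, rfl⟩
  have hG0 : 0 ≤ G := by
    rw [hG]
    exact Finset.sum_nonneg fun p _ => by positivity
  have hb3 : ∑' p, blin_u τ κ c e w y z (1 + σ) p ≤ Lg + C1 + G + K3 := by
    rw [← hG] at hb1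
    have h3 : κ / 2 * (∑' p, blin_f (y ∪ c.2) c.1 (1 + σ) p +
        ∑' p, blin_f (y ∪ symmDiff c.2 e.2) (c.1 + e.1) (1 + σ) p) ≤ Lg + C1 := by
      have h4 : κ / 2 * (∑' p, blin_f (y ∪ c.2) c.1 (1 + σ) p +
          ∑' p, blin_f (y ∪ symmDiff c.2 e.2) (c.1 + e.1) (1 + σ) p) ≤
          κ / 2 * (2 * (Lg + C1)) := mul_le_mul_of_nonneg_left (by linarith) (by linarith)
      nlinarith
    nlinarith
  have hexp : |∑' x : Finset S.P, ∏ p ∈ x, blin_u τ κ c e w y z (1 + σ) p| ≤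
      Real.exp (C1 + K3 + K2) * ((1 + Real.log (S.nm y)) * (1 + Real.log (S.nm M))) *
        (ls S y * ls S z * ls S w) := by
    refine hE.trans ?_
    rw [hu.tsum_add husq]
    have h3 : Real.exp (∑' p, blin_u τ κ c e w y z (1 + σ) p +
        ∑' p, blin_u τ κ c e w y z (1 + σ) p ^ 2) ≤
        Real.exp ((C1 + K3 + K2) + Lg + G) := Real.exp_le_exp.2 (by linarith)
    refine h3.trans ?_
    rw [Real.exp_add, Real.exp_add, hLg, Real.exp_log (by positivity)]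
    refine mul_le_mul_of_nonneg_left ?_ (by positivity)
    rw [hG]
    exact blin_gW w y z
  -- the small part
  have hsmall : |∑ x ∈ S.bx (2 ^ J), ∏ p ∈ x, blin_u τ κ c e w y z (1 + σ) p| ≤
      C2 * (1 + (J : ℝ)) := by
    obtain ⟨-, -, h3⟩ := hT τ hτ σ hσ hσ1
    refine (Finset.abs_sum_le_sum_abs _ _).trans ?_
    have h4 : ∀ x ∈ S.bx (2 ^ J), |∏ p ∈ x, blin_u τ κ c e w y z (1 + σ) p| ≤
        (∏ p ∈ x, κ * τ p) * ls S x ^ 0 * pw 1 x := by
      intro x _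
      rw [pow_zero, mul_one, Finset.abs_prod]
      have h5 : pw 1 x = ∏ p ∈ x, (S.N p : ℝ) ^ (-1 : ℝ) := by
        unfold pw Pre.nm
        rw [Nat.cast_prod]
        exact (Real.finsetProd_rpow x (fun p => (S.N p : ℝ)) (fun p _ => Nat.cast_nonneg _) _).symm
      rw [h5, ← Finset.prod_mul_distrib]
      refine Finset.prod_le_prod (fun p _ => abs_nonneg _) fun p _ => ?_
      refine (blin_u_abs hτ hκ.le c e w y z (1 + σ) p).trans ?_
      refine mul_le_mul_of_nonneg_left ?_ (mul_nonneg hκ.le (blin_tau hτ p).1)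
      exact Real.rpow_le_rpow_of_exponent_le (by linarith [blin_two p]) (by linarith)
    refine (Finset.sum_le_sum h4).trans ((h3 J).trans ?_)
    refine mul_le_mul_of_nonneg_left ?_ hC2
    have hJ : (1 : ℝ) ≤ 1 + (J : ℝ) := by
      have : (0 : ℝ) ≤ (J : ℝ) := Nat.cast_nonneg _
      linarith
    calc (1 + (J : ℝ)) ^ κ ≤ (1 + (J : ℝ)) ^ (1 : ℝ) :=
          Real.rpow_le_rpow_of_exponent_le hJ hκ1
      _ = 1 + (J : ℝ) := Real.rpow_one _
  -- splitting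
  have hsplit : ∑' x : Finset S.P, (if Disjoint x (y ∪ z) ∧ 2 ^ J < S.nm x
      then ((sg (∑ p ∈ x, S.ex (y ∪ c.2) c.1 p) : ℤ) : ℝ) *
        ∏ p ∈ x, (hh S τ κ e w p * (S.N p : ℝ) ^ (-(1 + σ))) else 0) =
      ∑' x : Finset S.P, ∏ p ∈ x, blin_u τ κ c e w y z (1 + σ) p -
        ∑ x ∈ S.bx (2 ^ J), ∏ p ∈ x, blin_u τ κ c e w y z (1 + σ) p := by
    have h3 : ∑ x ∈ S.bx (2 ^ J), ∏ p ∈ x, blin_u τ κ c e w y z (1 + σ) p =
        ∑' x : Finset S.P, (if x ∈ S.bx (2 ^ J) then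
          ∏ p ∈ x, blin_u τ κ c e w y z (1 + σ) p else 0) := by
      rw [tsum_eq_sum (s := S.bx (2 ^ J)) fun x hx => if_neg hx]
      exact Finset.sum_congr rfl fun x hx => (if_pos hx).symm
    have h4 : Summable fun x : Finset S.P => (if x ∈ S.bx (2 ^ J) then
          ∏ p ∈ x, blin_u τ κ c e w y z (1 + σ) p else 0) :=
      summable_of_ne_finset_zero (s := S.bx (2 ^ J)) fun x hx => if_neg hx
    rw [h3, ← hsm.tsum_sub h4]
    refine tsum_congr fun x => ?_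
    have h5 : x ∈ S.bx (2 ^ J) ↔ ¬ 2 ^ J < S.nm x := by
      rw [S.mem_bx, not_lt]
      constructor
      · intro h6
        exact_mod_cast h6
      · intro h6
        exact_mod_cast h6
    rw [← blin_prod]
    by_cases h6 : 2 ^ J < S.nm x
    · rw [if_neg (fun h7 => (h5.1 h7) h6), sub_zero]
      by_cases h7 : Disjoint x (y ∪ z)
      · rw [if_pos ⟨h7, h6⟩, if_pos h7]
      · rw [if_neg (fun h8 => h7 h8.1), if_neg h7]
    · rw [if_neg (fun h8 => h6 h8.2), if_pos (h5.2 h6), sub_self]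
  rw [hsplit]
  obtain ⟨T, hT'⟩ : ∃ T, T = ∑' x : Finset S.P, ∏ p ∈ x, blin_u τ κ c e w y z (1 + σ) p :=
    ⟨_, rfl⟩
  obtain ⟨T', hT''⟩ : ∃ T', T' = ∑ x ∈ S.bx (2 ^ J),
    ∏ p ∈ x, blin_u τ κ c e w y z (1 + σ) p := ⟨_, rfl⟩
  rw [← hT'] at hexp
  rw [← hT''] at hsmall
  rw [← hT', ← hT'']
  obtain ⟨Y, hY⟩ : ∃ Y, Y = (1 + Real.log (S.nm y)) * (1 + Real.log (S.nm M)) := ⟨_, rfl⟩
  obtain ⟨Z, hZ⟩ : ∃ Z, Z = ls S y * ls S z * ls S w := ⟨_, rfl⟩
  have hY1 : 1 ≤ Y := by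
    rw [hY]
    nlinarith [mul_nonneg ly lM]
  have hZ1 : 1 ≤ Z := by
    rw [hZ]
    exact one_le_mul_of_one_le_of_one_le (one_le_mul_of_one_le_of_one_le (blin_ls y).2
      (blin_ls z).2) (blin_ls w).2
  have hJ : (1 : ℝ) ≤ 1 + (J : ℝ) := by
    have : (0 : ℝ) ≤ (J : ℝ) := Nat.cast_nonneg _
    linarith
  rw [← hY, ← hZ] at hexp
  have hfin : |T - T'| ≤ |T| + |T'| := by
    have h3 := abs_add_le T (-T')
    rwa [abs_neg, ← sub_eq_add_neg] at h3
  have hYZ : 1 ≤ Y * Z := one_le_mul_of_one_le_of_one_le hY1 hZ1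
  have hE0 : 0 < Real.exp (C1 + K3 + K2) := Real.exp_pos _
  have e1 : Real.exp (C1 + K3 + K2) * Y * Z ≤ Real.exp (C1 + K3 + K2) * (1 + (J : ℝ)) * (Y * Z) := by
    rw [mul_assoc]
    refine mul_le_mul_of_nonneg_right ?_ (by linarith)
    exact le_mul_of_one_le_right hE0.le hJ
  have e2 : C2 * (1 + (J : ℝ)) ≤ C2 * (1 + (J : ℝ)) * (Y * Z) :=
    le_mul_of_one_le_right (mul_nonneg hC2 (by linarith)) hYZ
  have e3 : (Real.exp (C1 + K3 + K2) + C2) * (1 + (J : ℝ)) * (1 + Real.log (S.nm y)) *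
      (1 + Real.log (S.nm M)) * (ls S y * ls S z * ls S w) =
      Real.exp (C1 + K3 + K2) * (1 + (J : ℝ)) * (Y * Z) + C2 * (1 + (J : ℝ)) * (Y * Z) := by
    rw [hY, hZ]
    ring
  rw [e3]
  linarith

end Pool.Agent.D8
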