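import Pool.Agent.D8.Stm
import Pool.Agent.H32.MQ.KLin
import Pool.Agent.H98.MF.SCount

/-!
# Project D8, row A2: prime sums of characters, uniform upper bound (helper15)
-/

set_option autoImplicit false

open scoped BigOperators Topology
open Filter

namespace Pool.Agent.D8

open Pool.Agent.H98.MK (sg)
open Pool.Agent.H98.MF
open Pool.Agent.H32.MQ (El pw sklin)

open Classical in
/-- the function of the primes -/
noncomputable def lupU (S : Sys) (y : Finset S.P) (c : S.T) (s : ℝ) (p : S.P) : ℝ :=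
  (if p ∈ y then 0 else ((sg (S.ex y c p) : ℤ) : ℝ)) * (S.N p : ℝ) ^ (-s)

theorem lup_abs (S : Sys) (y : Finset S.P) (c : S.T) (s : ℝ) (p : S.P) :
    |lupU S y c s p| ≤ (S.N p : ℝ) ^ (-s) := by
  unfold lupU
  have h0 : (0 : ℝ) ≤ (S.N p : ℝ) ^ (-s) := Real.rpow_nonneg (Nat.cast_nonneg _) _
  rw [abs_mul, abs_of_nonneg h0]
  refine mul_le_of_le_one_left h0 ?_
  split_ifs
  · rw [abs_zero]
    exact zero_le_one
  · rw [abs_sgr]

open Classical in
theorem lup_prod (S : Sys) (y : Finset S.P) (c : S.T) (s : ℝ) (x : Finset S.P) :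
    ∏ p ∈ x, lupU S y c s p = if Disjoint x (y ∪ ∅)
      then ((sg (S.JJ x y + c ⬝ᵥ S.tys x) : ℤ) : ℝ) * (S.nm x : ℝ) ^ (-s) else 0 := by
  rw [Finset.union_empty]
  split_ifs with h
  · rw [← S.sum_ex, sg_sum]
    unfold lupU Pre.nm
    rw [Finset.prod_mul_distrib, Int.cast_prod, Nat.cast_prod,
      Real.finsetProd_rpow _ _ (fun p _ => Nat.cast_nonneg _)]
    congr 1
    refine Finset.prod_congr rfl fun p hp => ?_
    rw [if_neg (Finset.disjoint_left.1 h hp)]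
  · rw [Finset.not_disjoint_iff] at h
    obtain ⟨p, hp, hpy⟩ := h
    refine Finset.prod_eq_zero hp ?_
    unfold lupU
    rw [if_pos hpy, zero_mul]

theorem lup_geo {r : ℝ} (hr0 : 0 < r) (hr1 : r < 1) (n : ℕ) :
    ∑ i ∈ Finset.range n, r ^ i ≤ (1 - r)⁻¹ := by
  have h1 := (summable_geometric_of_lt_one hr0.le hr1).sum_le_tsum (Finset.range n)
    (fun k _ => pow_nonneg hr0.le k)
  rwa [tsum_geometric_of_lt_one hr0.le hr1] at h1

theorem lup_split (B : ℕ → ℝ) (a b r : ℝ) (j₀ J : ℕ) (ha : 0 ≤ a) (hb : 0 ≤ b) (hr0 : 0 < r)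
    (hr1 : r < 1) (h1 : ∀ j, B j ≤ a) (h2 : ∀ i, B (j₀ + i) ≤ b * r ^ i) :
    ∑ j ∈ Finset.range J, B j ≤ a * j₀ + b * (1 - r)⁻¹ := by
  rcases le_total J j₀ with h | h
  · have h3 : ∑ j ∈ Finset.range J, B j ≤ (Finset.range J).card • a :=
      Finset.sum_le_card_nsmul _ _ _ fun j _ => h1 j
    rw [Finset.card_range, nsmul_eq_mul] at h3
    have h4 : (J : ℝ) * a ≤ j₀ * a := mul_le_mul_of_nonneg_right (by exact_mod_cast h) ha
    have h5 : 0 ≤ b * (1 - r)⁻¹ := mul_nonneg hb (inv_nonneg.2 (by linarith))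
    linarith
  · obtain ⟨k, rfl⟩ := Nat.exists_eq_add_of_le h
    rw [Finset.sum_range_add]
    have h3 : ∑ j ∈ Finset.range j₀, B j ≤ (Finset.range j₀).card • a :=
      Finset.sum_le_card_nsmul _ _ _ fun j _ => h1 j
    rw [Finset.card_range, nsmul_eq_mul] at h3
    have h4 : ∑ i ∈ Finset.range k, B (j₀ + i) ≤ b * ∑ i ∈ Finset.range k, r ^ i := by
      rw [Finset.mul_sum]
      exact Finset.sum_le_sum fun i _ => h2 i
    have h5 := mul_le_mul_of_nonneg_left (lup_geo hr0 hr1 k) hb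
    linarith

open Classical in
/-- a dyadic block -/
noncomputable def lupB (S : Sys) (y : Finset S.P) (c : S.T) (s : ℝ) (j : ℕ) : ℝ :=
  ∑ x ∈ S.bx (2 ^ j), (if Nat.clog 2 (S.nm x) = j then ∏ p ∈ x, lupU S y c s p else 0)

theorem lup_B1 (S : Sys) (C : ℝ) (hC0 : 0 ≤ C)
    (hC : ∀ t : ℝ, 1 ≤ t → ((S.bx t).card : ℝ) ≤ C * t) (y : Finset S.P) (c : S.T) (s : ℝ)
    (hs : 1 ≤ s) (j : ℕ) : lupB S y c s j ≤ 2 * C := by
  unfold lupB
  have hterm : ∀ x ∈ S.bx (2 ^ j),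
      (if Nat.clog 2 (S.nm x) = j then ∏ p ∈ x, lupU S y c s p else 0) ≤ 2 * ((2 : ℝ) ^ j)⁻¹ := by
    intro x _
    have h2j : (0 : ℝ) < 2 ^ j := by positivity
    split_ifs with hx
    · have h1 : (2 : ℝ) ^ j ≤ 2 * S.nm x := by
        rcases Nat.eq_zero_or_pos j with hj | hj
        · rw [hj, pow_zero]
          have := S.one_le_nmr x
          linarith
        · have h4 := (Nat.lt_clog_iff_pow_lt (b := 2) (by norm_num) (x := S.nm x)
            (y := j - 1)).1 (by omega)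
          have h5 : (2 : ℝ) ^ (j - 1) ≤ S.nm x := by exact_mod_cast h4.le
          have h6 : (2 : ℝ) ^ j = 2 * 2 ^ (j - 1) := by
            rw [← pow_succ']
            congr 1
            omega
          rw [h6]
          linarith
      have h3 : ∏ p ∈ x, lupU S y c s p ≤ (S.nm x : ℝ) ^ (-s) := by
        refine le_trans (le_abs_self _) ?_
        rw [Finset.abs_prod]
        refine le_trans (Finset.prod_le_prod (fun p _ => abs_nonneg _)
          fun p _ => lup_abs S y c s p) ?_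
        unfold Pre.nm
        rw [Nat.cast_prod, Real.finsetProd_rpow _ _ (fun p _ => Nat.cast_nonneg _)]
      have h4 : (S.nm x : ℝ) ^ (-s) ≤ (S.nm x : ℝ)⁻¹ := by
        rw [← Real.rpow_neg_one]
        exact Real.rpow_le_rpow_of_exponent_le (S.one_le_nmr x) (by linarith)
      have h5 : (S.nm x : ℝ)⁻¹ ≤ 2 * ((2 : ℝ) ^ j)⁻¹ := by
        rw [inv_le_comm₀ (S.nm_posr x) (by positivity), mul_inv, inv_inv]
        linarith
      exact h3.trans (h4.trans h5)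
    · positivity
  have h1 := Finset.sum_le_card_nsmul _ _ _ hterm
  rw [nsmul_eq_mul] at h1
  have h2 := hC (2 ^ j) (one_le_pow₀ (by norm_num))
  have h3 : (0 : ℝ) ≤ 2 * ((2 : ℝ) ^ j)⁻¹ := by positivity
  have h4 := mul_le_mul_of_nonneg_right h2 h3
  have h5 : C * (2 : ℝ) ^ j * (2 * ((2 : ℝ) ^ j)⁻¹) = 2 * C := by
    have : (2 : ℝ) ^ j ≠ 0 := by positivity
    field_simp
  linarith

theorem lup_B2 (S : Sys) (C : ℝ)
    (hC : ∀ (y z : Finset S.P) (c : S.T), (y.Nonempty ∨ c ≠ 0) → ∀ (j : ℕ) (s : ℝ), 1 ≤ s →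
      s ≤ 2 → |∑ x ∈ S.bx (2 ^ j), (open Classical in
        if Nat.clog 2 (S.nm x) = j ∧ Disjoint x (y ∪ z)
        then ((sg (S.JJ x y + c ⬝ᵥ S.tys x) : ℤ) : ℝ) * (S.nm x : ℝ) ^ (-s) else 0)| ≤
        C * (S.nm y : ℝ) ^ S.A * S.hs z * (2 : ℝ) ^ ((1 - s - S.dl) * j))
    (y : Finset S.P) (c : S.T) (hyc : y.Nonempty ∨ c ≠ 0) (s : ℝ)
    (hs : 1 ≤ s) (hs2 : s ≤ 2) (j : ℕ) :
    lupB S y c s j ≤ |C| * (S.nm y : ℝ) ^ S.A * (2 : ℝ) ^ (-(S.dl * j)) := by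
  classical
  have h1 := hC y ∅ c hyc j s hs hs2
  have h2 : S.hs ∅ = 1 := by
    unfold Pre.hs
    exact Finset.prod_empty
  rw [h2, mul_one] at h1
  have h3 : lupB S y c s j = ∑ x ∈ S.bx (2 ^ j),
      (if Nat.clog 2 (S.nm x) = j ∧ Disjoint x (y ∪ ∅)
        then ((sg (S.JJ x y + c ⬝ᵥ S.tys x) : ℤ) : ℝ) * (S.nm x : ℝ) ^ (-s) else 0) := by
    unfold lupB
    refine Finset.sum_congr rfl fun x _ => ?_
    rw [lup_prod]
    by_cases h5 : Nat.clog 2 (S.nm x) = j <;> by_cases h6 : Disjoint x (y ∪ ∅) <;>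
      simp [h5, h6]
  rw [h3]
  have hA : (0 : ℝ) ≤ (S.nm y : ℝ) ^ S.A := Real.rpow_nonneg (Nat.cast_nonneg _) _
  have h4 : (2 : ℝ) ^ ((1 - s - S.dl) * j) ≤ (2 : ℝ) ^ (-(S.dl * j)) := by
    refine Real.rpow_le_rpow_of_exponent_le (by norm_num) ?_
    have h5 : (0 : ℝ) ≤ j := Nat.cast_nonneg _
    nlinarith
  have h5 : (0 : ℝ) ≤ (2 : ℝ) ^ ((1 - s - S.dl) * j) := Real.rpow_nonneg (by norm_num) _
  refine (le_abs_self _).trans (h1.trans ?_)
  refine le_trans (mul_le_mul_of_nonneg_right (mul_le_mul_of_nonneg_right (le_abs_self C) hA)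
    h5) ?_
  exact mul_le_mul_of_nonneg_left h4 (mul_nonneg (abs_nonneg _) hA)

theorem lup_sum (S : Sys) (y : Finset S.P) (c : S.T) (s : ℝ) (J : ℕ) :
    ∑ x ∈ S.bx (2 ^ J), ∏ p ∈ x, lupU S y c s p =
      ∑ j ∈ Finset.range (J + 1), lupB S y c s j := by
  classical
  have hmap : ∀ x ∈ S.bx ((2 : ℝ) ^ J), Nat.clog 2 (S.nm x) ∈ Finset.range (J + 1) := by
    intro x hx
    have h1 := S.mem_bx.1 hx
    have h2 : S.nm x ≤ 2 ^ J := by exact_mod_cast h1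
    exact Finset.mem_range.2 (Nat.lt_succ_of_le ((Nat.clog_le_iff_le_pow (by norm_num)).2 h2))
  rw [← Finset.sum_fiberwise_of_maps_to hmap]
  refine Finset.sum_congr rfl fun j hj => ?_
  unfold lupB
  rw [← Finset.sum_filter]
  refine Finset.sum_congr ?_ fun _ _ => rfl
  ext x
  rw [Finset.mem_filter, Finset.mem_filter, S.mem_bx, S.mem_bx]
  constructor
  · rintro ⟨_, h2⟩
    refine ⟨?_, h2⟩
    have h3 : S.nm x ≤ 2 ^ j := by
      rw [← h2]
      exact Nat.le_pow_clog one_lt_two _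
    exact_mod_cast h3
  · rintro ⟨h1, h2⟩
    refine ⟨h1.trans ?_, h2⟩
    exact pow_le_pow_right₀ (by norm_num) (Nat.lt_succ_iff.1 (Finset.mem_range.1 hj))

theorem lup_tsum (S : Sys) (f : Finset S.P → ℝ) (hf : Summable f) (K : ℝ)
    (h : ∀ J : ℕ, ∑ x ∈ S.bx (2 ^ J), f x ≤ K) : ∑' x, f x ≤ K := by
  have h1 : Tendsto (fun J : ℕ => S.bx ((2 : ℝ) ^ J)) atTop atTop := by
    refine tendsto_atTop_finset_of_monotone (fun i j hij => ?_) fun x => ?_
    · exact S.bx_mono (pow_le_pow_right₀ (by norm_num) hij)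
    · refine ⟨S.nm x, S.mem_bx.2 ?_⟩
      have h2 : S.nm x < 2 ^ S.nm x := Nat.lt_two_pow_self
      exact_mod_cast h2.le
  exact le_of_tendsto (hf.hasSum.comp h1) (Eventually.of_forall h)

theorem sLup (h : SExp) : SLup := by
  classical
  intro S
  obtain ⟨C₁, h1⟩ := sklin S
  obtain ⟨C₂, h2⟩ := card_bx_le S
  have hC₂ : 0 ≤ C₂ := by
    have h3 := h2 1 le_rfl
    have h4 : (0 : ℝ) ≤ ((S.bx 1).card : ℝ) := Nat.cast_nonneg _
    linarith
  have hdl := S.dl_pos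
  obtain ⟨r, hr⟩ : ∃ r : ℝ, r = (2 : ℝ) ^ (-S.dl) := ⟨_, rfl⟩
  have hr0 : 0 < r := by
    rw [hr]
    exact Real.rpow_pos_of_pos two_pos _
  have hr1 : r < 1 := by
    rw [hr]
    exact Real.rpow_lt_one_of_one_lt_of_neg one_lt_two (by linarith)
  have hl2 : 0 < Real.log 2 := Real.log_pos one_lt_two
  have hA := S.A_nonneg
  obtain ⟨a, ha⟩ : ∃ a : ℝ, a = S.A / (S.dl * Real.log 2) := ⟨_, rfl⟩
  have ha0 : 0 ≤ a := by
    rw [ha]
    positivity
  obtain ⟨K, hK⟩ : ∃ K : ℝ, K = 2 * C₂ * (a + 1) + |C₁| * (1 - r)⁻¹ + 1 := ⟨_, rfl⟩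
  have hr2 : 0 ≤ (1 - r)⁻¹ := inv_nonneg.2 (by linarith)
  have hK0 : 0 < K := by
    rw [hK]
    have : 0 ≤ 2 * C₂ * (a + 1) := by positivity
    have : 0 ≤ |C₁| * (1 - r)⁻¹ := mul_nonneg (abs_nonneg _) hr2
    linarith
  have hsq := summable_N S 2 one_lt_two
  have hsq0 : 0 ≤ ∑' p : S.P, (S.N p : ℝ) ^ (-(2 : ℝ)) :=
    tsum_nonneg fun p => Real.rpow_nonneg (Nat.cast_nonneg _) _
  refine ⟨|Real.log K| + ∑' p : S.P, (S.N p : ℝ) ^ (-(2 : ℝ)),
    add_nonneg (abs_nonneg _) hsq0, ?_⟩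
  intro y c hyc s hs hs2
  have hN2 : ∀ p : S.P, (2 : ℝ) ≤ S.N p := fun p => by exact_mod_cast S.two_le p
  have hN1 : ∀ p : S.P, (1 : ℝ) ≤ S.N p := fun p => by linarith [hN2 p]
  have hhalf : ∀ p : S.P, (S.N p : ℝ) ^ (-s) ≤ 1 / 2 := by
    intro p
    have h3 : (S.N p : ℝ) ^ (-s) ≤ (S.N p : ℝ) ^ (-(1 : ℝ)) :=
      Real.rpow_le_rpow_of_exponent_le (hN1 p) (by linarith)
    rw [Real.rpow_neg_one] at h3
    have h4 : (S.N p : ℝ)⁻¹ ≤ 2⁻¹ := inv_anti₀ two_pos (hN2 p)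
    linarith
  have habs : ∀ p, |lupU S y c s p| ≤ 1 / 2 := fun p => (lup_abs S y c s p).trans (hhalf p)
  have hsum : Summable (lupU S y c s) :=
    Summable.of_norm_bounded (summable_N S s hs) fun p => lup_abs S y c s p
  have hsq1 : ∀ p, lupU S y c s p ^ 2 ≤ (S.N p : ℝ) ^ (-(2 : ℝ)) := by
    intro p
    have h3 : lupU S y c s p ^ 2 ≤ ((S.N p : ℝ) ^ (-s)) ^ 2 := by
      rw [← sq_abs]
      exact pow_le_pow_left₀ (abs_nonneg _) (lup_abs S y c s p) 2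
    have h4 : ((S.N p : ℝ) ^ (-s)) ^ 2 = (S.N p : ℝ) ^ (-s * 2) := by
      rw [← Real.rpow_natCast, ← Real.rpow_mul (by linarith [hN1 p])]
      norm_num
    rw [h4] at h3
    exact h3.trans (Real.rpow_le_rpow_of_exponent_le (hN1 p) (by linarith))
  have hsq2 : Summable fun p => lupU S y c s p ^ 2 :=
    Summable.of_nonneg_of_le (fun p => sq_nonneg _) hsq1 hsq
  obtain ⟨E1, -, -, E4⟩ := h S.P (lupU S y c s) hsum
  have h3 := E4 fun p => (abs_le.1 (habs p)).1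
  obtain ⟨l, hl⟩ : ∃ l : ℝ, l = Real.log (S.nm y) := ⟨_, rfl⟩
  have hl0 : 0 ≤ l := by
    rw [hl]
    exact Real.log_nonneg (S.one_le_nmr y)
  obtain ⟨j₀, hj₀⟩ : ∃ j₀ : ℕ, j₀ = ⌈a * l⌉₊ := ⟨_, rfl⟩
  have hj1 : a * l ≤ j₀ := by
    rw [hj₀]
    exact Nat.le_ceil _
  have hj2 : (j₀ : ℝ) ≤ a * l + 1 := by
    rw [hj₀]
    exact (Nat.ceil_lt_add_one (by positivity)).le
  have h4 : ∑' x : Finset S.P, ∏ p ∈ x, lupU S y c s p ≤ K * (1 + l) := by
    refine lup_tsum S _ E1 _ fun J => ?_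
    rw [lup_sum]
    have hb2 : ∀ i, lupB S y c s (j₀ + i) ≤ |C₁| * r ^ i := by
      intro i
      refine (lup_B2 S C₁ (fun y z c hyc j s hs hs2 => by
        have := h1 y z c hyc j s hs hs2
        convert this using 4) y c hyc s hs.le hs2 (j₀ + i)).trans ?_
      rw [mul_assoc]
      refine mul_le_mul_of_nonneg_left ?_ (abs_nonneg _)
      have e1 : (2 : ℝ) ^ (-(S.dl * ((j₀ + i : ℕ) : ℝ))) =
          (2 : ℝ) ^ (-(S.dl * j₀)) * r ^ i := by
        rw [hr, ← Real.rpow_natCast, ← Real.rpow_mul two_pos.le, ← Real.rpow_add two_pos]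
        congr 1
        push_cast
        ring
      rw [e1, ← mul_assoc]
      refine mul_le_of_le_one_left (pow_nonneg hr0.le i) ?_
      have e2 : (S.nm y : ℝ) ^ S.A = Real.exp (S.A * l) := by
        rw [Real.rpow_def_of_pos (S.nm_posr y), hl, mul_comm]
      have e3 : (2 : ℝ) ^ (-(S.dl * j₀)) = Real.exp (-(S.dl * Real.log 2 * j₀)) := by
        rw [Real.rpow_def_of_pos two_pos]
        congr 1
        ring
      rw [e2, e3, ← Real.exp_add, ← Real.exp_zero]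
      refine Real.exp_le_exp.2 ?_
      have e4 : S.A * l = S.dl * Real.log 2 * (a * l) := by
        rw [ha]
        field_simp
      have e5 : 0 < S.dl * Real.log 2 := mul_pos hdl hl2
      rw [e4]
      have e6 := mul_le_mul_of_nonneg_left hj1 e5.le
      linarith
    have h5 := lup_split (lupB S y c s) (2 * C₂) |C₁| r j₀ (J + 1) (by linarith)
      (abs_nonneg _) hr0 hr1 (fun j => lup_B1 S C₂ hC₂ h2 y c s hs.le j) hb2
    refine h5.trans ?_
    have e1 : 2 * C₂ * (j₀ : ℝ) ≤ 2 * C₂ * (a * l + 1) :=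
      mul_le_mul_of_nonneg_left hj2 (by linarith)
    have e2 : 0 ≤ |C₁| * (1 - r)⁻¹ := mul_nonneg (abs_nonneg _) hr2
    have e3 : 0 ≤ |C₁| * (1 - r)⁻¹ * l := mul_nonneg e2 hl0
    have e4 : 0 ≤ 2 * C₂ * l := by positivity
    have e5 : 0 ≤ 2 * C₂ * a := by positivity
    rw [hK]
    nlinarith
  have h5 : ∑' p, (lupU S y c s p - lupU S y c s p ^ 2) ≤ Real.log K + Real.log (1 + l) := by
    rw [← Real.log_mul hK0.ne' (by linarith), ← Real.exp_le_exp,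
      Real.exp_log (mul_pos hK0 (by linarith))]
    exact h3.trans h4
  have h6 : ∑' p, (lupU S y c s p - lupU S y c s p ^ 2) =
      ∑' p, lupU S y c s p - ∑' p, lupU S y c s p ^ 2 := hsum.tsum_sub hsq2
  have h7 : ∑' p, lupU S y c s p ^ 2 ≤ ∑' p : S.P, (S.N p : ℝ) ^ (-(2 : ℝ)) :=
    hsq2.tsum_le_tsum hsq1 hsq
  have h8 := le_abs_self (Real.log K)
  have h9 : ∑' p : S.P, (if p ∈ y then 0 else ((sg (S.ex y c p) : ℤ) : ℝ)) *
      (S.N p : ℝ) ^ (-s) = ∑' p, lupU S y c s p := by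
    refine tsum_congr fun p => ?_
    unfold lupU
    congr 2
  rw [← hl]
  convert (by linarith : ∑' p, lupU S y c s p ≤ Real.log (1 + l) + (|Real.log K| +
    ∑' p : S.P, (S.N p : ℝ) ^ (-(2 : ℝ)))) using 1

end Pool.Agent.D8
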