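import Pool.Agent.D8.BMn_a

/-!
# Malle's conjecture for the dihedral group of order 16, row D8-M3: the main term (helper61)
-/

set_option autoImplicit false

open scoped BigOperators Topology
open Filter

namespace Pool.Agent.D8

open Pool.Agent.H98.MK (sg)
open Pool.Agent.H98.MF
open Pool.Agent.H32.MQ (El pw)

section

variable {S : Sys}

/-- the coefficients of a function of the types -/
noncomputable def bmnC (θ : S.T → S.T → ℝ) (q : S.T × S.T) : ℝ :=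
  (1 / (2 : ℝ) ^ (2 * S.m)) * ∑ k' : S.T, ∑ m' : S.T,
    θ k' m' * ((sg (q.1 ⬝ᵥ k' + q.2 ⬝ᵥ m') : ℤ) : ℝ)

theorem bmn_lb (h4 : SLb) (θ : S.T → S.T → ℝ) (k m : S.T) :
    θ k m = ∑ q : S.T × S.T, bmnC θ q * ((sg (q.1 ⬝ᵥ k + q.2 ⬝ᵥ m) : ℤ) : ℝ) := by
  rw [h4 S θ k m, Fintype.sum_prod_type]
  rfl

/-- the characters of the pair -/
def bmnP (q : S.T × S.T) : ZMod 2 → El S := fun i => if i = 0 then (q.1, ∅) else (q.2, ∅)

/-- the data of the pair -/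
noncomputable def bmnD (c : Co S) (j : ZMod 2) (q : S.T × S.T) : Vd S V :=
  D4 ∅ c (fun _ => ∅) (0, j) (1, j) (bmnP q)

theorem bmn_f2 {c : Co S} (hc : c.Ok ∅) (i : ZMod 2) : (c.f i).2 = ∅ :=
  Finset.subset_empty.1 (hc.f_sub i)

theorem bmn_g2 {c : Co S} (hc : c.Ok ∅) (i : ZMod 2) : (c.g i).2 = ∅ :=
  Finset.subset_empty.1 (hc.g_sub i)

theorem bmn_ad (γ δ : S.T) : ad ((γ, ∅) : El S) (δ, ∅) = (γ + δ, ∅) := by
  unfold ad
  refine Prod.ext rfl ?_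
  show symmDiff (∅ : Finset S.P) ∅ = ∅
  rw [symmDiff_self]
  rfl

theorem bmn_lk0 (c : Co S) (j : ZMod 2) : lkc c (0, j) (1, j) = c.f 1 := by
  unfold lkc
  rw [if_neg (one_ne_zero : (1 : ZMod 2) ≠ 0), zero_add]

theorem bmn_lk1 (c : Co S) (j : ZMod 2) : lkc c (1, j) (0, j) = c.f 0 := by
  unfold lkc
  rw [if_neg (zero_ne_one : (0 : ZMod 2) ≠ 1)]
  rfl

theorem bmn_exc0 (c : Co S) (j : ZMod 2) : exc c (0, j) (1, j) = c.g (j + 1) := by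
  unfold exc
  rw [if_neg (one_ne_zero : (1 : ZMod 2) ≠ 0), if_pos rfl]

theorem bmn_exc1 (c : Co S) (j : ZMod 2) : exc c (1, j) (0, j) = c.g (j + 1) := by
  unfold exc
  rw [if_neg (zero_ne_one : (0 : ZMod 2) ≠ 1), if_pos rfl]

theorem bmn_D0 {c : Co S} {j : ZMod 2} {a b : S.T} (ha : c.f 0 = (a, ∅)) (hb : c.f 1 = (b, ∅))
    (q : S.T × S.T) (i : ZMod 2) :
    (bmnD c j q).c (0, i) = ((if i = 0 then 0 else b) + q.1, ∅) ∧
    (bmnD c j q).c (1, i) = ((if i = 0 then 0 else a) + q.2, ∅) := by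
  have h1 : (bmnD c j q).c (0, i) = ad (sm i (lkc c (0, j) (1, j))) ((q.1, ∅) : El S) := rfl
  have h2 : (bmnD c j q).c (1, i) = ad (sm i (lkc c (1, j) (0, j))) ((q.2, ∅) : El S) := rfl
  rw [h1, h2, bmn_lk0, bmn_lk1, ha, hb]
  unfold sm
  by_cases hi : i = 0
  · rw [if_pos hi, if_pos hi, if_pos hi, if_pos hi, bmn_ad, bmn_ad]
    exact ⟨rfl, rfl⟩
  · rw [if_neg hi, if_neg hi, if_neg hi, if_neg hi, bmn_ad, bmn_ad]
    exact ⟨rfl, rfl⟩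

theorem bmn_De {c : Co S} {j : ZMod 2} (hg : c.g (j + 1) = (0, ∅)) (q : S.T × S.T) (t : V) :
    (bmnD c j q).e t = (0, ∅) := by
  show (if t.1 = 0 then exc c (0, j) (1, j) else exc c (1, j) (0, j)) = (0, ∅)
  rw [bmn_exc0, bmn_exc1, hg, ite_self]

theorem bmn_Dw {c : Co S} {j : ZMod 2} (q : S.T × S.T) (t : V) : (bmnD c j q).w t = ∅ := by
  show (if t.1 = 0 then (∅ : Finset S.P) else ∅) = ∅
  rw [ite_self]

theorem bmn_DOk {c : Co S} {j : ZMod 2} {a b : S.T} (ha : c.f 0 = (a, ∅)) (hb : c.f 1 = (b, ∅))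
    (hg : c.g (j + 1) = (0, ∅)) (q : S.T × S.T) : (bmnD c j q).Ok where
  c_sub := by
    rintro ⟨t1, t2⟩
    have h1 := bmn_D0 (j := j) ha hb q t2
    rcases zm2 t1 with h | h
    · rw [h, h1.1]
      exact Finset.empty_subset _
    · rw [h, h1.2]
      exact Finset.empty_subset _
  e_sub := fun t => by
    rw [bmn_De hg q t]
    exact Finset.empty_subset _
  M_sub := fun t => Finset.empty_subset _

/-- the product of the two symbols -/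
theorem bmn_sgadd (x y : ZMod 2) : ((sg (x + y) : ℤ) : ℝ) =
    ((sg x : ℤ) : ℝ) * ((sg y : ℤ) : ℝ) := by
  rw [sg_add]
  push_cast
  rfl

theorem bmn_abssg (x : ZMod 2) : |((sg x : ℤ) : ℝ)| ≤ 1 := (abs_sgr x).le

open Classical in
/-- the kernel sums with the patterns -/
theorem bmn_FK0 {τ : S.P → ℝ} {s : ℝ} {c : Co S} {j : ZMod 2} {a b : S.T}
    (ha : c.f 0 = (a, ∅)) (hb : c.f 1 = (b, ∅)) (hg : c.g (j + 1) = (0, ∅)) (q : S.T × S.T)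
    (Φ : Finset V → ℝ) (h1 : Φ {(0, 0), (1, 0)} = 1) (h0 : ∀ U, U ≠ {(0, 0), (1, 0)} → Φ U = 0) :
    FK τ 1 s φ4 (bmnD c j q) Φ =
      bmnG τ (fun k m => ((sg (q.1 ⬝ᵥ k + q.2 ⬝ᵥ m) : ℤ) : ℝ)) s := by
  refine bmn_FK 0 τ s _ (bmn_Dw q) (bmn_De hg q) Φ h1 h0 _ fun z hd => ?_
  obtain ⟨h2, h3⟩ := bmn_D0 (j := j) ha hb q 0
  rw [if_pos rfl, zero_add] at h2 h3
  rw [bmn_KE 0 _ _ _ h2 h3 z hd, zero_mul, zero_add]

open Classical in
theorem bmn_FK1 {τ : S.P → ℝ} {s : ℝ} {c : Co S} {j : ZMod 2} {a b : S.T}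
    (ha : c.f 0 = (a, ∅)) (hb : c.f 1 = (b, ∅)) (hg : c.g (j + 1) = (0, ∅)) (q : S.T × S.T)
    (Φ : Finset V → ℝ) (h1 : Φ {(0, 1), (1, 1)} = 1) (h0 : ∀ U, U ≠ {(0, 1), (1, 1)} → Φ U = 0) :
    FK τ 1 s φ4 (bmnD c j q) Φ =
      bmnG τ (fun k m => ((sg (q.1 ⬝ᵥ k + q.2 ⬝ᵥ m) : ℤ) : ℝ) *
        ((sg (hq a b k m) : ℤ) : ℝ)) s := by
  refine bmn_FK 1 τ s _ (bmn_Dw q) (bmn_De hg q) Φ h1 h0 _ fun z hd => ?_
  obtain ⟨h2, h3⟩ := bmn_D0 (j := j) ha hb q 1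
  rw [if_neg (one_ne_zero : (1 : ZMod 2) ≠ 0)] at h2 h3
  rw [bmn_KE 1 _ _ _ h2 h3 z hd, one_mul, add_dotProduct, add_dotProduct, ← bmn_sgadd]
  congr 2
  unfold hq
  ring

/-! ### the error term -/

theorem bmn_err (E : ℝ) (hE : 0 ≤ E) :
    Tendsto (fun σ : ℝ => σ * (1 + Real.log (1 / σ)) ^ E) (𝓝[>] 0) (𝓝 0) := by
  obtain ⟨ε, hε⟩ : ∃ ε : ℝ, ε = 1 / (2 * (E + 1)) := ⟨_, rfl⟩
  have hε0 : 0 < ε := by
    rw [hε]
    positivity
  have hεE : ε * E ≤ 1 / 2 := by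
    rw [hε, div_mul_eq_mul_div, one_mul, div_le_div_iff₀ (by positivity) (by norm_num)]
    linarith
  have hlim : Tendsto (fun σ : ℝ => (1 + 1 / ε) ^ E * σ ^ (1 / 2 : ℝ)) (𝓝[>] 0) (𝓝 0) := by
    have h1 : Tendsto (fun σ : ℝ => σ ^ (1 / 2 : ℝ)) (𝓝[>] 0) (𝓝 0) := by
      have h2 : ContinuousAt (fun σ : ℝ => σ ^ (1 / 2 : ℝ)) 0 :=
        Real.continuousAt_rpow_const 0 (1 / 2) (Or.inr (by norm_num))
      have h3 := h2.tendsto
      rw [Real.zero_rpow (by norm_num)] at h3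
      exact h3.mono_left nhdsWithin_le_nhds
    have h4 := h1.const_mul ((1 + 1 / ε) ^ E)
    rwa [mul_zero] at h4
  have hev : ∀ᶠ σ : ℝ in 𝓝[>] 0, 0 < σ ∧ σ ≤ 1 := by
    have h1 : Set.Ioc (0 : ℝ) 1 ∈ 𝓝[>] (0 : ℝ) := Ioc_mem_nhdsGT one_pos
    filter_upwards [h1] with σ hσ
    exact hσ
  refine squeeze_zero' (hev.mono fun σ hσ => ?_) (hev.mono fun σ hσ => ?_) hlim
  · have h1 : 0 ≤ Real.log (1 / σ) := Real.log_nonneg ((one_le_div hσ.1).2 hσ.2)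
    exact mul_nonneg hσ.1.le (Real.rpow_nonneg (by linarith) _)
  · have hσ0 := hσ.1
    have h1 : 1 ≤ 1 / σ := (one_le_div hσ.1).2 hσ.2
    have h2 : 0 ≤ Real.log (1 / σ) := Real.log_nonneg h1
    have h3 : Real.log (1 / σ) ≤ (1 / σ) ^ ε / ε := Real.log_le_rpow_div (by positivity) hε0
    have h4 : (1 : ℝ) ≤ (1 / σ) ^ ε := Real.one_le_rpow h1 hε0.le
    have h5 : 1 + Real.log (1 / σ) ≤ (1 + 1 / ε) * (1 / σ) ^ ε := by
      have h6 : (1 + 1 / ε) * (1 / σ) ^ ε = (1 / σ) ^ ε + (1 / σ) ^ ε / ε := by ring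
      linarith
    have h6 : (1 + Real.log (1 / σ)) ^ E ≤ ((1 + 1 / ε) * (1 / σ) ^ ε) ^ E :=
      Real.rpow_le_rpow (by linarith) h5 hE
    have h7 : ((1 + 1 / ε) * (1 / σ) ^ ε) ^ E = (1 + 1 / ε) ^ E * (1 / σ) ^ (ε * E) := by
      rw [Real.mul_rpow (by positivity) (by positivity), ← Real.rpow_mul (by positivity)]
    have h8 : (1 / σ) ^ (ε * E) ≤ (1 / σ) ^ (1 / 2 : ℝ) :=
      Real.rpow_le_rpow_of_exponent_le h1 hεE
    have h9 : σ * (1 / σ) ^ (1 / 2 : ℝ) = σ ^ (1 / 2 : ℝ) := by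
      rw [one_div, Real.inv_rpow hσ0.le, ← div_eq_mul_inv]
      nth_rewrite 1 [← Real.rpow_one σ]
      rw [← Real.rpow_sub hσ0]
      norm_num
    have h10 : 0 ≤ (1 + 1 / ε) ^ E := Real.rpow_nonneg (by positivity) _
    calc σ * (1 + Real.log (1 / σ)) ^ E
        ≤ σ * ((1 + 1 / ε) ^ E * (1 / σ) ^ (1 / 2 : ℝ)) := by
          refine mul_le_mul_of_nonneg_left ?_ hσ0.le
          rw [h7] at h6
          exact h6.trans (mul_le_mul_of_nonneg_left h8 h10)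
      _ = (1 + 1 / ε) ^ E * (σ * (1 / σ) ^ (1 / 2 : ℝ)) := by ring
      _ = (1 + 1 / ε) ^ E * σ ^ (1 / 2 : ℝ) := by rw [h9]

/-! ### the expansion -/

theorem bmn_ms_sum (h6 : S16) {B : ℝ} {τ : S.P → ℝ} (hτ : Tk S B τ) {c : Co S} (hc : c.Ok ∅)
    (j : ZMod 2) {s : ℝ} (hs : 1 < s) (hs2 : s ≤ 2) (ε : (V → Finset S.P) → ℝ)
    (hε : ∀ x, |ε x| ≤ 1) (dec : ∀ x : V → Finset S.P,
      Decidable (pat x = {((0, j) : V), (1, j)})) :
    Summable fun x : V → Finset S.P =>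
      @ite _ (pat x = {((0, j) : V), (1, j)}) (dec x) (ε x * ms τ ∅ c s x) 0 := by
  classical
  have h1 := (h6 S B τ ∅ c (fun _ => ∅) (fun U => if U = {((0, j) : V), (1, j)} then 1 else 0) s
    hτ hc (fun _ => Finset.empty_subset _) (fun U => by
      split_ifs <;> norm_num) hs hs2).1
  refine Summable.of_norm_bounded h1.norm fun x => ?_
  have h2 : ∀ u, Disjoint (x u) ((fun _ : V => (∅ : Finset S.P)) u) := fun u =>
    Finset.disjoint_empty_right _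
  rw [if_pos h2]
  by_cases hx : pat x = {((0, j) : V), (1, j)}
  · rw [if_pos hx, if_pos hx, one_mul, norm_mul, Real.norm_eq_abs]
    exact mul_le_of_le_one_left (norm_nonneg _) (hε x)
  · rw [if_neg hx, if_neg hx, zero_mul]

theorem bmn_M2 {τ : S.P → ℝ} {c : Co S} {j : ZMod 2} {s : ℝ} (q : S.T × S.T)
    (dec : ∀ x : V → Finset S.P, Decidable (pat x = {((0, j) : V), (1, j)})) :
    M2 τ ∅ c (fun _ => ∅) (0, j) (1, j) (bmnP q) s = ∑' x : V → Finset S.P,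
      @ite _ (pat x = {((0, j) : V), (1, j)}) (dec x)
        (((sg (q.1 ⬝ᵥ S.tys (x (0, j)) + q.2 ⬝ᵥ S.tys (x (1, j))) : ℤ) : ℝ) * ms τ ∅ c s x)
        0 := by
  unfold M2
  refine tsum_congr fun x => ?_
  have h2 : ∀ u, Disjoint (x u) ((fun _ : V => (∅ : Finset S.P)) u) := fun u =>
    Finset.disjoint_empty_right _
  by_cases hx : pat x = {((0, j) : V), (1, j)}
  · rw [if_pos ⟨h2, hx⟩, if_pos hx]
    congr 3
    show ∑ p ∈ x (0, j), S.ex ∅ q.1 p + ∑ p ∈ x (1, j), S.ex ∅ q.2 p = _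
    rw [bmn_ex, bmn_ex]
  · rw [if_neg (fun h => hx h.2), if_neg hx]

theorem bmn_expand (h2 : S4) (h4 : SLb) (h6 : S16) {B : ℝ} {τ : S.P → ℝ} (hτ : Tk S B τ)
    {c : Co S} (hc : c.Ok ∅) (j : ZMod 2) {s : ℝ} (hs : 1 < s) (hs2 : s ≤ 2)
    (θ : S.T → S.T → ℝ) (dec : ∀ x : V → Finset S.P,
      Decidable (pat x = {((0, j) : V), (1, j)})) :
    ∑' x : V → Finset S.P, @ite _ (pat x = {((0, j) : V), (1, j)}) (dec x)
      (ms τ ∅ c s x * θ (S.tys (x (0, j))) (S.tys (x (1, j)))) 0 =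
      ∑ q : S.T × S.T, bmnC θ q * FK τ 1 s φ4 (bmnD c j q) Φ4 := by
  have h7 : ∀ q ∈ (Finset.univ : Finset (S.T × S.T)), Summable fun x : V → Finset S.P =>
      bmnC θ q * @ite _ (pat x = {((0, j) : V), (1, j)}) (dec x)
        (((sg (q.1 ⬝ᵥ S.tys (x (0, j)) + q.2 ⬝ᵥ S.tys (x (1, j))) : ℤ) : ℝ) * ms τ ∅ c s x)
        0 := fun q _ =>
    (bmn_ms_sum h6 hτ hc j hs hs2 (fun x =>
      ((sg (q.1 ⬝ᵥ S.tys (x (0, j)) + q.2 ⬝ᵥ S.tys (x (1, j))) : ℤ) : ℝ))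
      (fun x => bmn_abssg _) dec).mul_left _
  have h8 : ∀ q : S.T × S.T, bmnC θ q * FK τ 1 s φ4 (bmnD c j q) Φ4 =
      ∑' x : V → Finset S.P, bmnC θ q * @ite _ (pat x = {((0, j) : V), (1, j)}) (dec x)
        (((sg (q.1 ⬝ᵥ S.tys (x (0, j)) + q.2 ⬝ᵥ S.tys (x (1, j))) : ℤ) : ℝ) * ms τ ∅ c s x)
        0 := by
    intro q
    rw [tsum_mul_left, ← bmn_M2 q dec]
    congr 1
    refine (h2 S B τ ∅ c (fun _ => ∅) (0, j) (1, j) (bmnP q) s hτ hc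
      (fun _ => Finset.empty_subset _) (bmn_ne j) (fun i => ?_) hs hs2).symm
    unfold bmnP
    split_ifs
    · exact Finset.empty_subset _
    · exact Finset.empty_subset _
  rw [Finset.sum_congr rfl fun q _ => h8 q, ← Summable.tsum_finsetSum h7]
  refine tsum_congr fun x => ?_
  by_cases hx : pat x = {((0, j) : V), (1, j)}
  · rw [if_pos hx, bmn_lb h4 θ, Finset.mul_sum]
    refine Finset.sum_congr rfl fun q _ => ?_
    rw [if_pos hx]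
    ring
  · rw [if_neg hx]
    refine (Finset.sum_eq_zero fun q _ => ?_).symm
    rw [if_neg hx, mul_zero]

/-! ### the two patterns -/

theorem bmn_phi0 (u : V) : φ4 u u = 0 := by
  revert u
  decide

theorem bmn_Phi1 (i : ZMod 2) : Φ4 {((0, i) : V), (1, i)} = 1 := by
  unfold Φ4
  refine if_pos ?_
  ext t
  rw [Finset.mem_image]
  refine ⟨fun _ => Finset.mem_univ _, fun _ => ⟨(t, i), ?_, rfl⟩⟩
  rw [Finset.mem_insert, Finset.mem_singleton]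
  rcases zm2 t with h | h
  · exact Or.inl (by rw [h])
  · exact Or.inr (by rw [h])

theorem bmn_Phi_le (U : Finset V) : |Φ4 U| ≤ 1 := by
  unfold Φ4
  split_ifs <;> norm_num

theorem bmn_U01 : ({((0, 0) : V), (1, 0)} : Finset V) ≠ {(0, 1), (1, 1)} := by
  intro h
  have h1 : ((0, 0) : V) ∈ ({(0, 1), (1, 1)} : Finset V) := by
    rw [← h]
    exact Finset.mem_insert_self _ _
  rw [Finset.mem_insert, Finset.mem_singleton] at h1
  rcases h1 with h1 | h1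
  · exact zero_ne_one (congrArg Prod.snd h1)
  · exact zero_ne_one (congrArg Prod.snd h1)

theorem bmn_card (i : ZMod 2) : ({((0, i) : V), (1, i)} : Finset V).card = 2 :=
  Finset.card_pair (bmn_ne i)

theorem bmn_two (h3 : SC16) (f : Finset V → ℝ) (s : Finset (Finset V))
    (hs : ∀ U, U ∈ s ↔ Ind φ4 U ∧ U.card = 2) (x y : ℝ) (hx : f {(0, 0), (1, 0)} = x)
    (hy : f {(0, 1), (1, 1)} = y) : ∑ U ∈ s, Φ4 U * f U = x + y := by
  obtain ⟨-, -, -, h4, h5, h6⟩ := h3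
  rw [← hx, ← hy]
  rw [Finset.sum_eq_add (({((0, 0) : V), (1, 0)} : Finset V)) ({(0, 1), (1, 1)}) bmn_U01]
  · rw [bmn_Phi1, bmn_Phi1, one_mul, one_mul]
  · intro U hU hne
    have h7 := (hs U).1 hU
    have h8 : Φ4 U = 0 := by
      unfold Φ4
      refine if_neg fun h9 => ?_
      rcases h4 U h7.1 h7.2 h9 with h | h
      · exact hne.1 h
      · exact hne.2 h
    rw [h8, zero_mul]
  · intro h
    exact absurd ((hs _).2 ⟨h5, bmn_card 0⟩) h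
  · intro h
    exact absurd ((hs _).2 ⟨h6, bmn_card 1⟩) h

theorem bmn_ls : ls S ∅ = 1 := by
  unfold ls
  rw [Finset.sum_empty, Real.exp_zero]

/-- the theorem on kernels for two classes -/
theorem bmn_kernel (h1 : SFK) (h3 : SC16) (B : ℝ) : ∃ C E : ℝ, 0 ≤ C ∧ 0 ≤ E ∧
    ∀ (τ : S.P → ℝ) (c : Co S) (j : ZMod 2) (a b : S.T) (q : S.T × S.T), Tk S B τ →
      c.f 0 = (a, ∅) → c.f 1 = (b, ∅) → c.g (j + 1) = (0, ∅) → ∀ σ : ℝ, 0 < σ → σ ≤ 1 →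
      |FK τ 1 (1 + σ) φ4 (bmnD c j q) Φ4 -
        (bmnG τ (fun k m => ((sg (q.1 ⬝ᵥ k + q.2 ⬝ᵥ m) : ℤ) : ℝ)) (1 + σ) +
          bmnG τ (fun k m => ((sg (q.1 ⬝ᵥ k + q.2 ⬝ᵥ m) : ℤ) : ℝ) *
            ((sg (hq a b k m) : ℤ) : ℝ)) (1 + σ))| ≤
      C * ((1 + Real.log (1 / σ)) ^ E * σ⁻¹) := by
  classical
  obtain ⟨C, E, hC, hE, hK⟩ := h1 S V φ4 2 B 1 bmn_phi0 one_pos le_rfl (by norm_num)
    (fun U hU => h3.2.2.1 U hU)
  refine ⟨C, E, hC, hE, fun τ c j a b q hτ ha hb hg σ hσ hσ1 => ?_⟩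
  have h7 := hK τ (bmnD c j q) Φ4 hτ (bmn_DOk ha hb hg q) bmn_Phi_le σ hσ hσ1
  rw [bmn_two h3 _ _ ?_ (bmnG τ (fun k m => ((sg (q.1 ⬝ᵥ k + q.2 ⬝ᵥ m) : ℤ) : ℝ)) (1 + σ))
    (bmnG τ (fun k m => ((sg (q.1 ⬝ᵥ k + q.2 ⬝ᵥ m) : ℤ) : ℝ) *
      ((sg (hq a b k m) : ℤ) : ℝ)) (1 + σ)) ?_ ?_] at h7
  rotate_left
  · intro U
    rw [Finset.mem_filter]
    exact ⟨fun h => h.2, fun h => ⟨Finset.mem_univ _, h⟩⟩
  · exact bmn_FK0 ha hb hg q _ (if_pos rfl) (fun U hU => if_neg hU)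
  · exact bmn_FK1 ha hb hg q _ (if_pos rfl) (fun U hU => if_neg hU)
  refine h7.trans (le_of_eq ?_)
  have h8 : (bmnD c j q).M = ∅ := rfl
  have h9 : ∏ t, ls S ((bmnD c j q).w t) = 1 :=
    Finset.prod_eq_one fun t _ => by rw [bmn_Dw, bmn_ls]
  rw [h8, h9, S.nm_empty, Nat.cast_one, Real.log_one, add_zero, mul_one, mul_one]
  have h10 : -((1 : ℝ) * (((2 : ℕ) : ℝ) - 1)) = -1 := by norm_num
  rw [h10, Real.rpow_neg_one, mul_assoc]

end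

theorem sMn (h1 : SFK) (h2 : S4) (h3 : SC16) (h4 : SLb) (h5 : SDb) (h6 : S16) : SMn := by
  intro S B τ c0 hτ hc0 c a b j θ hc ha hb hg hθ
  obtain ⟨C, E, hC, hE, hK⟩ := bmn_kernel (S := S) h1 h3 B
  obtain ⟨θ', hθ'⟩ : ∃ θ' : S.T → S.T → ℝ, θ' = fun k m =>
    θ k m * ((sg (hq a b k m) : ℤ) : ℝ) := ⟨_, rfl⟩
  -- the main part
  have hmain : ∀ σ : ℝ, 0 < σ → ∑ q : S.T × S.T, bmnC θ q *
      (bmnG τ (fun k m => ((sg (q.1 ⬝ᵥ k + q.2 ⬝ᵥ m) : ℤ) : ℝ)) (1 + σ) +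
        bmnG τ (fun k m => ((sg (q.1 ⬝ᵥ k + q.2 ⬝ᵥ m) : ℤ) : ℝ) *
          ((sg (hq a b k m) : ℤ) : ℝ)) (1 + σ)) =
      ∑ q : S.T × S.T, (bmnC θ q + bmnC θ' q) * DS τ q.1 q.2 (1 + σ) := by
    intro σ hσ
    have hs : 1 < 1 + σ := by linarith
    simp only [mul_add, add_mul, Finset.sum_add_distrib]
    congr 1
    rw [bmn_linG hτ hs (bmnC θ) (fun q k m => ((sg (q.1 ⬝ᵥ k + q.2 ⬝ᵥ m) : ℤ) : ℝ) *
        ((sg (hq a b k m) : ℤ) : ℝ)) 1 (fun q k m => by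
          rw [← bmn_sgadd]
          exact bmn_abssg _)]
    have h7 : ∑ q : S.T × S.T, bmnC θ' q * DS τ q.1 q.2 (1 + σ) =
        ∑ q : S.T × S.T, bmnC θ' q *
          bmnG τ (fun k m => ((sg (q.1 ⬝ᵥ k + q.2 ⬝ᵥ m) : ℤ) : ℝ)) (1 + σ) := rfl
    rw [h7, bmn_linG hτ hs (bmnC θ') (fun q k m => ((sg (q.1 ⬝ᵥ k + q.2 ⬝ᵥ m) : ℤ) : ℝ)) 1
      (fun q k m => bmn_abssg _)]
    congr 1
    funext k m
    rw [← bmn_lb h4 θ' k m, hθ']
    dsimp only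
    rw [bmn_lb h4 θ k m, Finset.sum_mul]
    exact Finset.sum_congr rfl fun q _ => by ring
  -- the limit of the main part
  have hlim1 : Tendsto (fun σ : ℝ => σ ^ 2 * ∑ q : S.T × S.T, (bmnC θ q + bmnC θ' q) *
      DS τ q.1 q.2 (1 + σ)) (𝓝[>] 0) (𝓝 ((bmnC θ 0 + bmnC θ' 0) * c0)) := by
    have h7 : ∀ q : S.T × S.T, Tendsto (fun σ : ℝ => (bmnC θ q + bmnC θ' q) *
        (σ ^ 2 * DS τ q.1 q.2 (1 + σ))) (𝓝[>] 0)
        (𝓝 ((bmnC θ q + bmnC θ' q) * (if q = 0 then c0 else 0))) := by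
      intro q
      refine Tendsto.const_mul _ ?_
      by_cases hq : q = 0
      · rw [if_pos hq, hq]
        exact hc0
      · rw [if_neg hq]
        refine (h5 S B τ hτ).2 q.1 q.2 ?_
        by_contra hn
        push Not at hn
        exact hq (Prod.ext hn.1 hn.2)
    have h8 := tendsto_finsetSum Finset.univ fun q (_ : q ∈ (Finset.univ : Finset (S.T × S.T))) =>
      h7 q
    have h9 : ∑ q : S.T × S.T, (bmnC θ q + bmnC θ' q) * (if q = 0 then c0 else 0) =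
        (bmnC θ 0 + bmnC θ' 0) * c0 := by
      rw [Finset.sum_eq_single 0]
      · rw [if_pos rfl]
      · intro q _ hq
        rw [if_neg hq, mul_zero]
      · intro h
        exact absurd (Finset.mem_univ _) h
    rw [h9] at h8
    refine h8.congr fun σ => ?_
    rw [Finset.mul_sum]
    exact Finset.sum_congr rfl fun q _ => by ring
  -- the error
  obtain ⟨K, hKd⟩ : ∃ K : ℝ, K = ∑ q : S.T × S.T, |bmnC θ q| := ⟨_, rfl⟩
  have hev : ∀ᶠ σ : ℝ in 𝓝[>] 0, 0 < σ ∧ σ ≤ 1 := by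
    have h7 : Set.Ioc (0 : ℝ) 1 ∈ 𝓝[>] (0 : ℝ) := Ioc_mem_nhdsGT one_pos
    filter_upwards [h7] with σ hσ
    exact hσ
  have hlim2 : Tendsto (fun σ : ℝ => σ ^ 2 * (∑' x : V → Finset S.P,
      (if pat x = {(0, j), (1, j)}
        then ms τ ∅ c (1 + σ) x * θ (S.tys (x (0, j))) (S.tys (x (1, j))) else 0) -
      ∑ q : S.T × S.T, (bmnC θ q + bmnC θ' q) * DS τ q.1 q.2 (1 + σ))) (𝓝[>] 0) (𝓝 0) := by
    have h7 := (bmn_err E hE).const_mul (K * C)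
    rw [mul_zero] at h7
    refine squeeze_zero_norm' (hev.mono fun σ hσ => ?_) h7
    rw [bmn_expand h2 h4 h6 hτ hc j (by linarith [hσ.1]) (by linarith [hσ.2]) θ _,
      ← hmain σ hσ.1, ← Finset.sum_sub_distrib, Real.norm_eq_abs, abs_mul,
      abs_of_nonneg (sq_nonneg σ)]
    have h8 : |∑ q : S.T × S.T, (bmnC θ q * FK τ 1 (1 + σ) φ4 (bmnD c j q) Φ4 - bmnC θ q *
        (bmnG τ (fun k m => ((sg (q.1 ⬝ᵥ k + q.2 ⬝ᵥ m) : ℤ) : ℝ)) (1 + σ) +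
          bmnG τ (fun k m => ((sg (q.1 ⬝ᵥ k + q.2 ⬝ᵥ m) : ℤ) : ℝ) *
            ((sg (hq a b k m) : ℤ) : ℝ)) (1 + σ)))| ≤
        K * (C * ((1 + Real.log (1 / σ)) ^ E * σ⁻¹)) := by
      refine (Finset.abs_sum_le_sum_abs _ _).trans ?_
      rw [hKd, Finset.sum_mul]
      refine Finset.sum_le_sum fun q _ => ?_
      rw [← mul_sub, abs_mul]
      exact mul_le_mul_of_nonneg_left (hK τ c j a b q hτ ha hb hg σ hσ.1 hσ.2) (abs_nonneg _)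
    refine (mul_le_mul_of_nonneg_left h8 (sq_nonneg σ)).trans (le_of_eq ?_)
    have hσ0 : σ ≠ 0 := hσ.1.ne'
    field_simp
  have hfin := hlim1.add hlim2
  rw [add_zero] at hfin
  have hval : (bmnC θ 0 + bmnC θ' 0) * c0 = c0 * ((1 / (2 : ℝ) ^ (2 * S.m)) *
      ∑ k : S.T, ∑ m : S.T, θ k m * (1 + ((sg (hq a b k m) : ℤ) : ℝ))) := by
    have h7 : ∀ η : S.T → S.T → ℝ, bmnC η 0 = (1 / (2 : ℝ) ^ (2 * S.m)) *
        ∑ k : S.T, ∑ m : S.T, η k m := by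
      intro η
      unfold bmnC
      congr 1
      refine Finset.sum_congr rfl fun k _ => Finset.sum_congr rfl fun m _ => ?_
      have h8 : ((0 : S.T × S.T).1 ⬝ᵥ k + (0 : S.T × S.T).2 ⬝ᵥ m) = 0 := by
        rw [Prod.fst_zero, Prod.snd_zero, zero_dotProduct, zero_dotProduct, add_zero]
      rw [h8, sg_zero]
      push_cast
      rw [mul_one]
    rw [h7, h7, ← mul_add, ← Finset.sum_add_distrib, hθ']
    have h9 : ∑ k : S.T, (∑ m : S.T, θ k m + ∑ m : S.T, θ k m * ((sg (hq a b k m) : ℤ) : ℝ)) =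
        ∑ k : S.T, ∑ m : S.T, θ k m * (1 + ((sg (hq a b k m) : ℤ) : ℝ)) := by
      refine Finset.sum_congr rfl fun k _ => ?_
      rw [← Finset.sum_add_distrib]
      exact Finset.sum_congr rfl fun m _ => by ring
    rw [h9]
    ring
  rw [hval] at hfin
  refine hfin.congr fun σ => ?_
  ring

end Pool.Agent.D8
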