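import Pool.Agent.D8.Stm

/-!
# Malle's conjecture for the dihedral group of order 16 over number fields, row B1: merging
families of sets of primes
-/

set_option autoImplicit false

open scoped BigOperators Topology
open Filter

namespace Pool.Agent.D8

open Classical in
theorem mrg_mem {P ι κ : Type} [Fintype ι] (π : ι → κ) (y : ι → Finset P) (k : κ) (p : P) :
    p ∈ mrg π y k ↔ ∃ t, π t = k ∧ p ∈ y t := by
  unfold mrg
  rw [Finset.mem_biUnion]
  simp only [Finset.mem_filter, Finset.mem_univ, true_and]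

theorem mrg_djP {P ι κ : Type} [Fintype ι] (π : ι → κ) {y : ι → Finset P} (h : DjP y) :
    DjP (mrg π y) := by
  intro k k' hk
  rw [Finset.disjoint_left]
  intro p hp hp'
  rw [mrg_mem] at hp hp'
  obtain ⟨t, ht, hpt⟩ := hp
  obtain ⟨t', ht', hpt'⟩ := hp'
  have hne : t ≠ t' := by
    rintro rfl
    exact hk (ht.symm.trans ht')
  exact (Finset.disjoint_left.1 (h t t' hne)) hpt hpt'

/-- a product over a family of sets -/
theorem mrg_prod {P κ : Type} [Fintype κ] (U : Finset P) (x : κ → Finset P) (kk : U → κ)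
    (hx : ∀ k p, p ∈ x k ↔ ∃ h : p ∈ U, kk ⟨p, h⟩ = k) (G : κ → P → ℝ) :
    ∏ k, ∏ p ∈ x k, G k p = ∏ p : U, G (kk p) p.1 := by
  classical
  rw [← Finset.prod_fiberwise (Finset.univ : Finset U) kk]
  refine Finset.prod_congr rfl fun k _ => ?_
  have h1 : x k = (Finset.univ.filter fun p : U => kk p = k).map
      (Function.Embedding.subtype fun p => p ∈ U) := by
    ext p
    rw [hx, Finset.mem_map]
    constructor
    · rintro ⟨h, hk⟩
      exact ⟨⟨p, h⟩, by rw [Finset.mem_filter]; exact ⟨Finset.mem_univ _, hk⟩, rfl⟩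
    · rintro ⟨q, hq, rfl⟩
      exact ⟨q.2, (Finset.mem_filter.1 hq).2⟩
  rw [h1, Finset.prod_map]
  refine Finset.prod_congr rfl fun p hp => ?_
  rw [(Finset.mem_filter.1 hp).2]
  rfl

/-- the family with types `τ` -/
noncomputable def mrgY {P ι : Type} (U : Finset P) (τ : U → ι) (t : ι) : Finset P := by
  classical
  exact (Finset.univ.filter fun p : U => τ p = t).map (Function.Embedding.subtype fun p => p ∈ U)

theorem mrgY_mem {P ι : Type} (U : Finset P) (τ : U → ι) (t : ι) (p : P) :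
    p ∈ mrgY U τ t ↔ ∃ h : p ∈ U, τ ⟨p, h⟩ = t := by
  classical
  unfold mrgY
  rw [Finset.mem_map]
  constructor
  · rintro ⟨q, hq, rfl⟩
    exact ⟨q.2, (Finset.mem_filter.1 hq).2⟩
  · rintro ⟨h, hk⟩
    exact ⟨⟨p, h⟩, by rw [Finset.mem_filter]; exact ⟨Finset.mem_univ _, hk⟩, rfl⟩

theorem mrgY_inj {P ι : Type} (U : Finset P) : Function.Injective (mrgY (ι := ι) U) := by
  intro τ τ' h
  funext p
  have h1 : p.1 ∈ mrgY U τ (τ p) := (mrgY_mem U τ (τ p) p.1).2 ⟨p.2, rfl⟩
  rw [h, mrgY_mem] at h1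
  obtain ⟨_, h2⟩ := h1
  exact h2.symm

open Classical in
theorem mrg_fibre {P ι κ : Type} [Fintype ι] [Fintype κ] (π : ι → κ)
    (F : (κ → Finset P) → ℝ) (w : ι → (κ → Finset P) → P → ℝ) (x : κ → Finset P) :
    ∑' y : (mrg π) ⁻¹' {x}, (if DjP (y : ι → Finset P) then
      F (mrg π y) * ∏ t, ∏ p ∈ (y : ι → Finset P) t, w t (mrg π y) p else 0) =
    if DjP x then F x * ∏ k, ∏ p ∈ x k, ∑ t ∈ Finset.univ.filter (fun t => π t = k), w t x p
      else 0 := by
  by_cases hx : DjP x
  · rw [if_pos hx]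
    set U : Finset P := Finset.univ.biUnion x with hU
    have hmU : ∀ k p, p ∈ x k → p ∈ U := by
      intro k p hp
      rw [hU, Finset.mem_biUnion]
      exact ⟨k, Finset.mem_univ _, hp⟩
    have hk : ∀ p : U, ∃ k, p.1 ∈ x k := by
      rintro ⟨p, hp⟩
      rw [hU, Finset.mem_biUnion] at hp
      obtain ⟨k, _, hk⟩ := hp
      exact ⟨k, hk⟩
    choose kk hkk using hk
    have huniq : ∀ (p : U) (k : κ), p.1 ∈ x k → kk p = k := by
      intro p k hp
      by_contra hne
      exact (Finset.disjoint_left.1 (hx _ _ hne)) (hkk p) hp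
    have hxk : ∀ k p, p ∈ x k ↔ ∃ h : p ∈ U, kk ⟨p, h⟩ = k := by
      intro k p
      constructor
      · intro hp
        exact ⟨hmU k p hp, huniq _ _ hp⟩
      · rintro ⟨h, hk⟩
        have h2 := hkk ⟨p, h⟩
        rw [hk] at h2
        exact h2
    set A : U → Finset ι := fun p => Finset.univ.filter (fun t => π t = kk p) with hA
    have hmA : ∀ τ : U → ι, τ ∈ Fintype.piFinset A ↔ ∀ p, π (τ p) = kk p := by
      intro τ
      rw [Fintype.mem_piFinset]
      refine forall_congr' fun p => ?_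
      rw [hA]
      simp only [Finset.mem_filter, Finset.mem_univ, true_and]
    have hD : ∀ τ : U → ι, DjP (mrgY U τ) := by
      intro τ i j hij
      rw [Finset.disjoint_left]
      intro p hp hp'
      rw [mrgY_mem] at hp hp'
      obtain ⟨h1, h2⟩ := hp
      obtain ⟨_, h4⟩ := hp'
      exact hij (h2.symm.trans h4)
    have hM : ∀ τ : U → ι, (∀ p, π (τ p) = kk p) → mrg π (mrgY U τ) = x := by
      intro τ hτ
      funext k
      ext p
      rw [mrg_mem, hxk]
      constructor
      · rintro ⟨t, ht, hp⟩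
        rw [mrgY_mem] at hp
        obtain ⟨h, h2⟩ := hp
        refine ⟨h, ?_⟩
        rw [← hτ, h2, ht]
      · rintro ⟨h, h2⟩
        refine ⟨τ ⟨p, h⟩, ?_, (mrgY_mem U τ _ p).2 ⟨h, rfl⟩⟩
        rw [hτ, h2]
    have hS : ∀ y : ι → Finset P, DjP y → mrg π y = x →
        ∃ τ : U → ι, (∀ p, π (τ p) = kk p) ∧ mrgY U τ = y := by
      intro y hy hyx
      have h1 : ∀ p : U, ∃ t, π t = kk p ∧ p.1 ∈ y t := by
        intro p
        have h2 := hkk p
        rw [← mrg_mem, hyx]
        exact h2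
      choose τ hτ1 hτ2 using h1
      refine ⟨τ, hτ1, ?_⟩
      funext t
      ext p
      rw [mrgY_mem]
      constructor
      · rintro ⟨h, h2⟩
        rw [← h2]
        exact hτ2 ⟨p, h⟩
      · intro hp
        have h3 : p ∈ x (π t) := by
          rw [← hyx, mrg_mem]
          exact ⟨t, rfl, hp⟩
        refine ⟨hmU _ _ h3, ?_⟩
        by_contra hne
        exact (Finset.disjoint_left.1 (hy _ _ hne)) (hτ2 ⟨p, hmU _ _ h3⟩) hp
    have e1 : ∏ k, ∏ p ∈ x k, ∑ t ∈ Finset.univ.filter (fun t => π t = k), w t x p =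
        ∑ τ ∈ Fintype.piFinset A, ∏ p : U, w (τ p) x p.1 := by
      rw [mrg_prod U x kk hxk
        (fun k p => ∑ t ∈ Finset.univ.filter (fun t => π t = k), w t x p)]
      rw [← Finset.prod_univ_sum A (fun p t => w t x p.1)]
    rw [tsum_subtype ((mrg π) ⁻¹' {x}) (fun y : ι → Finset P => if DjP y then
      F (mrg π y) * ∏ t, ∏ p ∈ y t, w t (mrg π y) p else 0)]
    rw [tsum_eq_sum (s := (Fintype.piFinset A).image (mrgY U))]
    · rw [Finset.sum_image (fun a _ b _ h => mrgY_inj U h), e1, Finset.mul_sum]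
      refine Finset.sum_congr rfl fun τ hτ => ?_
      rw [hmA] at hτ
      have h2 : mrgY U τ ∈ (mrg π) ⁻¹' {x} := hM τ hτ
      rw [Set.indicator_of_mem h2, if_pos (hD τ), hM τ hτ]
      congr 1
      exact mrg_prod U (mrgY U τ) τ (fun t p => mrgY_mem U τ t p) (fun t p => w t x p)
    · intro y hy
      by_cases h1 : y ∈ (mrg π) ⁻¹' {x}
      · rw [Set.indicator_of_mem h1]
        rw [if_neg]
        intro h2
        apply hy
        obtain ⟨τ, hτ, hτy⟩ := hS y h2 h1
        rw [Finset.mem_image]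
        exact ⟨τ, (hmA τ).2 hτ, hτy⟩
      · rw [Set.indicator_of_notMem h1]
  · rw [if_neg hx]
    rw [show (fun y : (mrg π) ⁻¹' {x} => (if DjP (y : ι → Finset P) then
      F (mrg π y) * ∏ t, ∏ p ∈ (y : ι → Finset P) t, w t (mrg π y) p else 0)) =
        fun _ => (0 : ℝ) from ?_, tsum_zero]
    funext y
    rw [if_neg]
    intro hy
    apply hx
    have h1 : mrg π (y : ι → Finset P) = x := y.2
    rw [← h1]
    exact mrg_djP π hy

theorem sMrg : SMrg := by
  intro P ι κ _ _ π F w hs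
  classical
  have h1 := (hs.hasSum.tsum_fiberwise (mrg π)).tsum_eq
  rw [← h1]
  exact tsum_congr fun x => mrg_fibre π F w x

end Pool.Agent.D8
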