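import Pool.Agent.D8.Stm

/-!
# Malle's conjecture for the dihedral group of order 16 over number fields, row Q3: the part with
two opposite classes is negligible
-/

set_option autoImplicit false

open scoped BigOperators Topology
open Filter

namespace Pool.Agent.D8

open Pool.Agent.H98.MK (sg)
open Pool.Agent.H98.MF
open Pool.Agent.H32.MQ (El pw)

/-! ### limits -/

/-- powers of `σ` tend to infinity -/
theorem bql_atTop {δ : ℝ} (hδ : 0 < δ) : Tendsto (fun σ : ℝ => σ ^ (-δ)) (𝓝[>] 0) atTop := by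
  have h1 : Tendsto (fun σ : ℝ => (σ⁻¹) ^ δ) (𝓝[>] 0) atTop :=
    (tendsto_rpow_atTop hδ).comp tendsto_inv_nhdsGT_zero
  refine h1.congr' ?_
  filter_upwards [self_mem_nhdsWithin] with σ hσ
  rw [Real.inv_rpow (le_of_lt hσ), Real.rpow_neg (le_of_lt hσ)]

/-- a positive power of `σ` tends to zero -/
theorem bql_zero {δ : ℝ} (hδ : 0 < δ) : Tendsto (fun σ : ℝ => σ ^ δ) (𝓝[>] 0) (𝓝 0) := by
  have h1 : Tendsto (fun σ : ℝ => σ ^ δ) (𝓝 0) (𝓝 (0 ^ δ)) :=
    (Real.continuousAt_rpow_const 0 δ (Or.inr hδ.le)).tendsto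
  rw [Real.zero_rpow hδ.ne'] at h1
  exact h1.mono_left nhdsWithin_le_nhds

/-- the exponential of a negative power beats every power -/
theorem bql_exp {δ A c : ℝ} (hδ : 0 < δ) (hc : 0 < c) :
    Tendsto (fun σ : ℝ => σ ^ (-A) * Real.exp (-(c * σ ^ (-δ)))) (𝓝[>] 0) (𝓝 0) := by
  have h1 := (tendsto_rpow_mul_exp_neg_mul_atTop_nhds_zero (A / δ) c hc).comp (bql_atTop hδ)
  refine h1.congr' ?_
  filter_upwards [self_mem_nhdsWithin] with σ hσ
  have hσ0 : (0 : ℝ) ≤ σ := le_of_lt hσ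
  simp only [Function.comp]
  rw [← Real.rpow_mul hσ0, show -δ * (A / δ) = -A by field_simp, neg_mul]

/-- the logarithm is bounded by small powers -/
theorem bql_log {E : ℝ} (hE : 0 ≤ E) : ∃ C : ℝ, 0 ≤ C ∧ ∀ σ : ℝ, 0 < σ → σ ≤ 1 →
    (1 + Real.log (1 / σ)) ^ E ≤ C * σ ^ (-(1 / 10 : ℝ)) := by
  set ε : ℝ := 1 / (10 * (E + 1)) with hε
  have hE1 : 0 < E + 1 := by linarith
  have hεp : 0 < ε := by positivity
  refine ⟨(1 + 1 / ε) ^ E, Real.rpow_nonneg (by positivity) _, fun σ hσ hσ1 => ?_⟩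
  have h1s : 1 ≤ 1 / σ := by rw [le_div_iff₀ hσ]; linarith
  have hlog : 0 ≤ Real.log (1 / σ) := Real.log_nonneg h1s
  have h2 : Real.log (1 / σ) ≤ (1 / σ) ^ ε / ε := Real.log_le_rpow_div (by positivity) hεp
  have h3 : (1 : ℝ) ≤ (1 / σ) ^ ε := Real.one_le_rpow h1s hεp.le
  have h4 : 1 + Real.log (1 / σ) ≤ (1 + 1 / ε) * (1 / σ) ^ ε := by
    calc 1 + Real.log (1 / σ) ≤ (1 / σ) ^ ε + (1 / σ) ^ ε / ε := add_le_add h3 h2
      _ = (1 + 1 / ε) * (1 / σ) ^ ε := by ring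
  calc (1 + Real.log (1 / σ)) ^ E ≤ ((1 + 1 / ε) * (1 / σ) ^ ε) ^ E :=
        Real.rpow_le_rpow (by linarith) h4 hE
    _ = (1 + 1 / ε) ^ E * (1 / σ) ^ (ε * E) := by
        rw [Real.mul_rpow (by positivity) (by positivity), ← Real.rpow_mul (by positivity)]
    _ ≤ (1 + 1 / ε) ^ E * (1 / σ) ^ (1 / 10 : ℝ) := by
        refine mul_le_mul_of_nonneg_left ?_ (Real.rpow_nonneg (by positivity) _)
        refine Real.rpow_le_rpow_of_exponent_le h1s ?_
        rw [hε, div_mul_eq_mul_div, one_mul, div_le_div_iff₀ (by positivity) (by norm_num)]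
        linarith
    _ = (1 + 1 / ε) ^ E * σ ^ (-(1 / 10 : ℝ)) := by
        have h5 : (1 / σ) ^ (1 / 10 : ℝ) = σ ^ (-(1 / 10 : ℝ)) := by
          rw [one_div σ, Real.inv_rpow hσ.le, Real.rpow_neg hσ.le]
        rw [h5]

/-! ### masses -/

section

variable {S : Sys}

theorem bql_ms_nonneg {B : ℝ} {τ : S.P → ℝ} (hτ : Tk S B τ) (M : Finset S.P) (c : Co S) (s : ℝ)
    (x : V → Finset S.P) : 0 ≤ ms τ M c s x := by
  unfold ms
  split_ifs
  · exact Finset.prod_nonneg fun u _ => Finset.prod_nonneg fun p _ =>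
      mul_nonneg (mul_nonneg (by norm_num) (hτ p).1) (Real.rpow_nonneg (Nat.cast_nonneg _) _)
  · exact le_refl 0

theorem bql_ls_empty : ls S (∅ : Finset S.P) = 1 := by
  unfold ls
  rw [Finset.sum_empty, Real.exp_zero]

theorem bql_ls_nonneg (x : Finset S.P) : 0 ≤ ls S x := (Real.exp_pos _).le

open Classical in
/-- the pattern function -/
noncomputable def bqlP (u v : V) (U : Finset V) : ℝ := if U = {u, v} then 1 else 0

/-- the excluded primes: a window at one class -/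
noncomputable def bqlw (u : V) (W : Finset S.P) : V → Finset S.P := by
  classical
  exact fun t => if t = u then W else ∅

theorem bqlw_self (u : V) (W : Finset S.P) : bqlw u W u = W := by
  unfold bqlw
  rw [if_pos rfl]

theorem bqlw_ne {u t : V} (h : t ≠ u) (W : Finset S.P) : bqlw u W t = ∅ := by
  unfold bqlw
  rw [if_neg h]

/-- the mass of the configurations avoiding a window -/
theorem bql_mass (h1 : S2B) (h3 : SWls) {B : ℝ} : ∃ C : ℝ, 0 ≤ C ∧ ∀ (τ : S.P → ℝ) (c : Co S)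
    (u v : V), Tk S B τ → c.Ok ∅ → u ≠ v → ∀ (t t' : V), t ≠ t' → (({t, t'} : Finset V) = {u, v}) →
    ∀ a b σ : ℝ, 0 < a → a ≤ b → b ≤ 1 / 100 → 0 < σ → σ ≤ 1 →
    σ ^ 2 * MS τ ∅ c (bqlw t (win S a b σ)) (bqlP u v) (1 + σ) ≤
      C * (Real.exp (-∑ p ∈ win S a b σ, (S.N p : ℝ) ^ (-(1 + σ))) + σ ^ (28 / 100 : ℝ)) := by
  classical
  obtain ⟨C2, E, hC2, hE, hB⟩ := h1 S B
  obtain ⟨C3, hC3, hl⟩ := h3 S
  obtain ⟨C4, hC4, hlog⟩ := bql_log hE
  refine ⟨C2 * (1 + C4 * C3 ^ 2), by positivity, ?_⟩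
  intro τ c u v hτ hc huv t t' htt hset a b σ ha hab hb hσ hσ1
  set W := win S a b σ with hW
  have h := hB τ ∅ c (bqlw t W) t t' hτ hc (fun _ => Finset.empty_subset _) htt σ hσ hσ1
  rw [bqlw_self, bqlw_ne htt.symm, bql_ls_empty, mul_one, Finset.sum_empty, add_zero,
    S.nm_empty, Nat.cast_one, Real.log_one, add_zero, mul_one] at h
  have hΦ : (fun U : Finset V => if U = {t, t'} then (1 : ℝ) else 0) = bqlP u v := by
    funext U
    unfold bqlP
    rw [hset]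
  rw [hΦ] at h
  have hσ2 : 0 ≤ σ ^ 2 := by positivity
  have hexp : 0 ≤ Real.exp (-∑ p ∈ W, (S.N p : ℝ) ^ (-(1 + σ))) := (Real.exp_pos _).le
  have hlW := hl a b σ ha hab (by linarith) hσ hσ1
  rw [← hW] at hlW
  have hlW2 : ls S W ^ 2 ≤ C3 ^ 2 * σ ^ (-(12 / 100 : ℝ)) := by
    have h5 : ls S W ≤ C3 * σ ^ (-(6 / 100 : ℝ)) := by
      refine hlW.trans (mul_le_mul_of_nonneg_left ?_ hC3)
      exact Real.rpow_le_rpow_of_exponent_ge hσ hσ1 (by linarith)
    calc ls S W ^ 2 ≤ (C3 * σ ^ (-(6 / 100 : ℝ))) ^ 2 := pow_le_pow_left₀ (bql_ls_nonneg W) h5 2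
      _ = C3 ^ 2 * σ ^ (-(12 / 100 : ℝ)) := by
          rw [mul_pow, ← Real.rpow_natCast (σ ^ (-(6 / 100 : ℝ))) 2, ← Real.rpow_mul hσ.le]
          norm_num
  have hif : (if exc c t t' = (0, ∅) ∧ exc c t' t = (0, ∅) then
      σ ^ (-(2 : ℝ)) * Real.exp (-∑ p ∈ W, (S.N p : ℝ) ^ (-(1 + σ))) else 0) ≤
      σ ^ (-(2 : ℝ)) * Real.exp (-∑ p ∈ W, (S.N p : ℝ) ^ (-(1 + σ))) := by
    split_ifs
    · exact le_refl _
    · exact mul_nonneg (Real.rpow_nonneg hσ.le _) hexp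
  have hterm : (1 + Real.log (1 / σ)) ^ E * ls S W ^ 2 * σ ^ (-(3 / 2 : ℝ)) ≤
      C4 * C3 ^ 2 * σ ^ (-(172 / 100 : ℝ)) := by
    calc (1 + Real.log (1 / σ)) ^ E * ls S W ^ 2 * σ ^ (-(3 / 2 : ℝ))
        ≤ (C4 * σ ^ (-(1 / 10 : ℝ))) * (C3 ^ 2 * σ ^ (-(12 / 100 : ℝ))) * σ ^ (-(3 / 2 : ℝ)) := by
          refine mul_le_mul_of_nonneg_right ?_ (Real.rpow_nonneg hσ.le _)
          exact mul_le_mul (hlog σ hσ hσ1) hlW2 (sq_nonneg _)
            (mul_nonneg hC4 (Real.rpow_nonneg hσ.le _))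
      _ = C4 * C3 ^ 2 * (σ ^ (-(1 / 10 : ℝ)) * σ ^ (-(12 / 100 : ℝ)) * σ ^ (-(3 / 2 : ℝ))) := by
          ring
      _ = C4 * C3 ^ 2 * σ ^ (-(172 / 100 : ℝ)) := by
          rw [← Real.rpow_add hσ, ← Real.rpow_add hσ]
          norm_num
  have h6 : MS τ ∅ c (bqlw t W) (bqlP u v) (1 + σ) ≤
      C2 * (σ ^ (-(2 : ℝ)) * Real.exp (-∑ p ∈ W, (S.N p : ℝ) ^ (-(1 + σ))) +
        C4 * C3 ^ 2 * σ ^ (-(172 / 100 : ℝ))) :=
    h.trans (mul_le_mul_of_nonneg_left (add_le_add hif hterm) hC2)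
  have h7 : σ ^ 2 * σ ^ (-(2 : ℝ)) = 1 := by
    rw [← Real.rpow_natCast σ 2, ← Real.rpow_add hσ]
    norm_num
  have h8 : σ ^ 2 * σ ^ (-(172 / 100 : ℝ)) = σ ^ (28 / 100 : ℝ) := by
    rw [← Real.rpow_natCast σ 2, ← Real.rpow_add hσ]
    norm_num
  have h9 : 0 ≤ σ ^ (28 / 100 : ℝ) := Real.rpow_nonneg hσ.le _
  have hC43 : 0 ≤ C4 * C3 ^ 2 := by positivity
  calc σ ^ 2 * MS τ ∅ c (bqlw t W) (bqlP u v) (1 + σ)
      ≤ σ ^ 2 * (C2 * (σ ^ (-(2 : ℝ)) * Real.exp (-∑ p ∈ W, (S.N p : ℝ) ^ (-(1 + σ))) +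
        C4 * C3 ^ 2 * σ ^ (-(172 / 100 : ℝ)))) := mul_le_mul_of_nonneg_left h6 hσ2
    _ = C2 * ((σ ^ 2 * σ ^ (-(2 : ℝ))) * Real.exp (-∑ p ∈ W, (S.N p : ℝ) ^ (-(1 + σ))) +
        C4 * C3 ^ 2 * (σ ^ 2 * σ ^ (-(172 / 100 : ℝ)))) := by ring
    _ = C2 * (Real.exp (-∑ p ∈ W, (S.N p : ℝ) ^ (-(1 + σ))) +
        C4 * C3 ^ 2 * σ ^ (28 / 100 : ℝ)) := by rw [h7, h8, one_mul]
    _ ≤ C2 * ((1 + C4 * C3 ^ 2) *
          (Real.exp (-∑ p ∈ W, (S.N p : ℝ) ^ (-(1 + σ))) + σ ^ (28 / 100 : ℝ))) := by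
        refine mul_le_mul_of_nonneg_left ?_ hC2
        nlinarith [mul_nonneg hC43 hexp]
    _ = _ := by ring

end

open Classical in
/-- Q3: the part with two opposite classes is negligible -/
theorem sQL (h1 : S2B) (h2 : SWin) (h3 : SWls) (h5 : S2W) (h6 : S2X) (h7 : S16) : SQL := by
  intro S B τ c R u v hτ hc huv hR hQ
  obtain ⟨σ0, hσ0, hσ01, hW⟩ := h5 S c R u v hQ
  obtain ⟨C6, hC6, hX⟩ := h6 S B
  obtain ⟨C, hC, hm⟩ := bql_mass (S := S) (B := B) h1 h3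
  have hΦ1 : ∀ U, |bqlP u v U| ≤ 1 := by
    intro U
    unfold bqlP
    split_ifs <;> simp
  -- the pointwise inequality
  have main : ∀ σ : ℝ, 0 < σ → σ ≤ σ0 →
      |σ ^ 2 * ∑' x : V → Finset S.P,
        (if pat x = {u, v} then ms τ ∅ c (1 + σ) x * R x else 0)| ≤
      C6 * (σ ^ (-(2 : ℝ)) * Real.exp (-(1 / 4 * σ ^ (-(1 / 100000) : ℝ)))) +
      (C * (Real.exp (-∑ p ∈ W1 S σ, (S.N p : ℝ) ^ (-(1 + σ))) + σ ^ (28 / 100 : ℝ)) +
        C * (Real.exp (-∑ p ∈ W2 S σ, (S.N p : ℝ) ^ (-(1 + σ))) + σ ^ (28 / 100 : ℝ))) := by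
    intro σ hσ hσs
    have hσ1 : σ ≤ 1 := hσs.trans hσ01
    have hms := bql_ms_nonneg hτ ∅ c (1 + σ)
    -- the mass functions
    have hsum : ∀ w : V → Finset S.P, Summable fun x : V → Finset S.P =>
        if ∀ t, Disjoint (x t) (w t) then bqlP u v (pat x) * ms τ ∅ c (1 + σ) x else 0 :=
      fun w => (h7 S B τ ∅ c w (bqlP u v) (1 + σ) hτ hc (fun _ => Finset.empty_subset _) hΦ1
        (by linarith) (by linarith)).1
    set g : (V → Finset S.P) → (V → Finset S.P) → ℝ := fun w x =>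
      if ∀ t, Disjoint (x t) (w t) then bqlP u v (pat x) * ms τ ∅ c (1 + σ) x else 0 with hg
    have hg0 : ∀ w x, 0 ≤ g w x := by
      intro w x
      simp only [hg]
      split_ifs
      · refine mul_nonneg ?_ (hms x)
        unfold bqlP
        split_ifs
        · exact zero_le_one
        · exact le_refl 0
      · exact le_refl 0
    set f : (V → Finset S.P) → ℝ := fun x =>
      if pat x = {u, v} then ms τ ∅ c (1 + σ) x * R x else 0 with hf
    set a : (V → Finset S.P) → ℝ := fun x =>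
      if pat x = {u, v} ∧ (∃ p ∈ x u, p ∈ W1 S σ) ∧ (∃ p ∈ x v, p ∈ W2 S σ)
        then ms τ ∅ c (1 + σ) x * R x else 0 with ha
    have habs : ∀ x, |ms τ ∅ c (1 + σ) x * R x| ≤ ms τ ∅ c (1 + σ) x := by
      intro x
      rw [abs_mul, abs_of_nonneg (hms x)]
      exact mul_le_of_le_one_right (hms x) (hR x)
    have hgE : ∀ x, pat x = {u, v} → g (fun _ => ∅) x = ms τ ∅ c (1 + σ) x := by
      intro x hx
      simp only [hg]
      rw [if_pos fun t => Finset.disjoint_empty_right _]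
      unfold bqlP
      rw [if_pos hx, one_mul]
    have hfa : ∀ x, |f x| ≤ g (fun _ => ∅) x := by
      intro x
      simp only [hf]
      split_ifs with h
      · rw [hgE x h]
        exact habs x
      · rw [abs_zero]
        exact hg0 _ _
    have haa : ∀ x, |a x| ≤ g (fun _ => ∅) x := by
      intro x
      simp only [ha]
      split_ifs with h
      · rw [hgE x h.1]
        exact habs x
      · rw [abs_zero]
        exact hg0 _ _
    have hfs : Summable f := (Summable.of_nonneg_of_le (fun x => abs_nonneg _) hfa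
      (hsum fun _ => ∅)).of_abs
    have has : Summable a := (Summable.of_nonneg_of_le (fun x => abs_nonneg _) haa
      (hsum fun _ => ∅)).of_abs
    -- the rest
    have hr : ∀ x, |f x - a x| ≤ g (bqlw u (W1 S σ)) x + g (bqlw v (W2 S σ)) x := by
      intro x
      simp only [hf, ha]
      by_cases hp : pat x = {u, v}
      · rw [if_pos hp]
        by_cases hu : ∃ p ∈ x u, p ∈ W1 S σ
        · by_cases hv : ∃ p ∈ x v, p ∈ W2 S σ
          · rw [if_pos ⟨hp, hu, hv⟩, sub_self, abs_zero]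
            exact add_nonneg (hg0 _ _) (hg0 _ _)
          · rw [if_neg fun h => hv h.2.2, sub_zero]
            have h8 : g (bqlw v (W2 S σ)) x = ms τ ∅ c (1 + σ) x := by
              simp only [hg]
              rw [if_pos]
              · unfold bqlP
                rw [if_pos hp, one_mul]
              · intro t
                by_cases ht : t = v
                · rw [ht, bqlw_self, Finset.disjoint_left]
                  exact fun p hp1 hp2 => hv ⟨p, hp1, hp2⟩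
                · rw [bqlw_ne ht]
                  exact Finset.disjoint_empty_right _
            rw [h8]
            linarith [habs x, hg0 (bqlw u (W1 S σ)) x]
        · rw [if_neg fun h => hu h.2.1, sub_zero]
          have h8 : g (bqlw u (W1 S σ)) x = ms τ ∅ c (1 + σ) x := by
            simp only [hg]
            rw [if_pos]
            · unfold bqlP
              rw [if_pos hp, one_mul]
            · intro t
              by_cases ht : t = u
              · rw [ht, bqlw_self, Finset.disjoint_left]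
                exact fun p hp1 hp2 => hu ⟨p, hp1, hp2⟩
              · rw [bqlw_ne ht]
                exact Finset.disjoint_empty_right _
          rw [h8]
          linarith [habs x, hg0 (bqlw v (W2 S σ)) x]
      · rw [if_neg hp, if_neg fun h => hp h.1, sub_zero, abs_zero]
        exact add_nonneg (hg0 _ _) (hg0 _ _)
    have hrs : Summable fun x => |f x - a x| := (hfs.sub has).abs
    have hrest : |∑' x, f x - ∑' x, a x| ≤
        MS τ ∅ c (bqlw u (W1 S σ)) (bqlP u v) (1 + σ) +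
          MS τ ∅ c (bqlw v (W2 S σ)) (bqlP u v) (1 + σ) := by
      rw [← hfs.tsum_sub has]
      have h9 : |∑' x, (f x - a x)| ≤ ∑' x, |f x - a x| := by
        have := norm_tsum_le_tsum_norm (f := fun x => f x - a x) hrs
        simpa [Real.norm_eq_abs] using this
      refine h9.trans ?_
      unfold MS
      rw [← (hsum (bqlw u (W1 S σ))).tsum_add (hsum (bqlw v (W2 S σ)))]
      exact hrs.tsum_le_tsum hr ((hsum _).add (hsum _))
    have hfull := hX τ c R u v hτ huv hR σ hσ hσ1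
      (Real.exp (-(σ ^ (-(1 / 100000) : ℝ)) / 4)) (fun w α β hα hβ hw => hW σ hσ hσs w α β hα hβ hw)
    have hσ2 : 0 ≤ σ ^ 2 := by positivity
    have hm1 := hm τ c u v hτ hc huv u v huv rfl (1 / 100000) (1 / 10000) σ (by norm_num)
      (by norm_num) (by norm_num) hσ hσ1
    have hm2 := hm τ c u v hτ hc huv v u huv.symm (Finset.pair_comm v u) (1 / 1000) (1 / 100) σ
      (by norm_num) (by norm_num) (by norm_num) hσ hσ1
    have hfin : |∑' x, f x| ≤ C6 * σ ^ (-(4 : ℝ)) * Real.exp (-(σ ^ (-(1 / 100000) : ℝ)) / 4) +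
        (MS τ ∅ c (bqlw u (W1 S σ)) (bqlP u v) (1 + σ) +
          MS τ ∅ c (bqlw v (W2 S σ)) (bqlP u v) (1 + σ)) := by
      have h10 : |∑' x, f x| ≤ |∑' x, a x| + |∑' x, f x - ∑' x, a x| := by
        have := abs_add_le (∑' x, a x) (∑' x, f x - ∑' x, a x)
        rwa [add_sub_cancel] at this
      exact h10.trans (add_le_add hfull hrest)
    have h11 : σ ^ 2 * σ ^ (-(4 : ℝ)) = σ ^ (-(2 : ℝ)) := by
      rw [← Real.rpow_natCast σ 2, ← Real.rpow_add hσ]
      norm_num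
    have h12 : -(σ ^ (-(1 / 100000) : ℝ)) / 4 = -(1 / 4 * σ ^ (-(1 / 100000) : ℝ)) := by ring
    rw [abs_mul, abs_of_nonneg hσ2]
    calc σ ^ 2 * |∑' x, f x|
        ≤ σ ^ 2 * (C6 * σ ^ (-(4 : ℝ)) * Real.exp (-(σ ^ (-(1 / 100000) : ℝ)) / 4) +
          (MS τ ∅ c (bqlw u (W1 S σ)) (bqlP u v) (1 + σ) +
            MS τ ∅ c (bqlw v (W2 S σ)) (bqlP u v) (1 + σ))) :=
          mul_le_mul_of_nonneg_left hfin hσ2
      _ = C6 * ((σ ^ 2 * σ ^ (-(4 : ℝ))) * Real.exp (-(σ ^ (-(1 / 100000) : ℝ)) / 4)) +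
          (σ ^ 2 * MS τ ∅ c (bqlw u (W1 S σ)) (bqlP u v) (1 + σ) +
            σ ^ 2 * MS τ ∅ c (bqlw v (W2 S σ)) (bqlP u v) (1 + σ)) := by ring
      _ ≤ _ := by
          rw [h11, h12]
          exact add_le_add (le_refl _) (add_le_add hm1 hm2)
  -- the limit
  have hL1 : Tendsto (fun σ : ℝ => C6 * (σ ^ (-(2 : ℝ)) *
      Real.exp (-(1 / 4 * σ ^ (-(1 / 100000) : ℝ))))) (𝓝[>] 0) (𝓝 0) := by
    have := (bql_exp (δ := 1 / 100000) (A := 2) (c := 1 / 4) (by norm_num) (by norm_num)).const_mul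
      C6
    rwa [mul_zero] at this
  have hz : Tendsto (fun σ : ℝ => σ ^ (28 / 100 : ℝ)) (𝓝[>] 0) (𝓝 0) := bql_zero (by norm_num)
  have hL2 : ∀ a b : ℝ, 0 < a → 10 * a ≤ b → b ≤ 1 → Tendsto (fun σ : ℝ =>
      C * (Real.exp (-∑ p ∈ win S a b σ, (S.N p : ℝ) ^ (-(1 + σ))) + σ ^ (28 / 100 : ℝ)))
      (𝓝[>] 0) (𝓝 0) := by
    intro a b ha hab hb
    have h13 : Tendsto (fun σ : ℝ => Real.exp (-∑ p ∈ win S a b σ, (S.N p : ℝ) ^ (-(1 + σ))))
        (𝓝[>] 0) (𝓝 0) :=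
      Real.tendsto_exp_neg_atTop_nhds_zero.comp (h2 S a b ha hab hb)
    have := (h13.add hz).const_mul C
    rwa [add_zero, mul_zero] at this
  have hL := hL1.add ((hL2 (1 / 100000) (1 / 10000) (by norm_num) (by norm_num) (by norm_num)).add
    (hL2 (1 / 1000) (1 / 100) (by norm_num) (by norm_num) (by norm_num)))
  rw [add_zero, add_zero] at hL
  refine squeeze_zero_norm' ?_ hL
  have hmem : Set.Ioc (0 : ℝ) σ0 ∈ 𝓝[>] (0 : ℝ) := Ioc_mem_nhdsGT hσ0
  filter_upwards [hmem] with σ hσ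
  rw [Real.norm_eq_abs]
  exact main σ hσ.1 hσ.2

end Pool.Agent.D8
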