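import Pool.Agent.D8.Stm

/-!
# D8, row A5: the prime sums of the weights
-/

set_option autoImplicit false

open scoped BigOperators Topology
open Filter

namespace Pool.Agent.D8

open Pool.Agent.H98.MK (sg)
open Pool.Agent.H98.MF
open Pool.Agent.H32.MQ (El pw)

theorem th_sgr (t : ZMod 2) : ((sg t : ℤ) : ℝ) = 1 ∨ ((sg t : ℤ) : ℝ) = -1 := by
  rcases zm2 t with h | h
  · left
    rw [h, sg_zero]
    norm_num
  · right
    rw [h, sg_one]
    norm_num

open Classical in
/-- the indicator part of the weight -/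
noncomputable def thu (S : Sys) (e : El S) (w : Finset S.P) (p : S.P) : ℝ :=
  if p ∈ w then 0 else (1 + ((sg (S.ex e.2 e.1 p) : ℤ) : ℝ)) / 2

theorem thu_nonneg (S : Sys) (e : El S) (w : Finset S.P) (p : S.P) : 0 ≤ thu S e w p := by
  unfold thu
  split_ifs
  · exact le_refl _
  · rcases th_sgr (S.ex e.2 e.1 p) with h | h <;> rw [h] <;> norm_num

theorem thu_le (S : Sys) (e : El S) (w : Finset S.P) (p : S.P) : thu S e w p ≤ 1 := by
  unfold thu
  split_ifs
  · exact zero_le_one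
  · rcases th_sgr (S.ex e.2 e.1 p) with h | h <;> rw [h] <;> norm_num

theorem hh_eq (S : Sys) (τ : S.P → ℝ) (κ : ℝ) (e : El S) (w : Finset S.P) (p : S.P) :
    hh S τ κ e w p = κ * τ p * thu S e w p := by
  unfold hh thu
  split_ifs
  · rw [mul_zero]
  · rfl

theorem sTh (h : SLup) : STh := by
  classical
  intro S B
  obtain ⟨C, hC0, hC⟩ := h S
  obtain ⟨K0, hK0⟩ := S.prm0
  have hZ0 : Summable fun p : S.P => (S.N p : ℝ) ^ (-(3 / 2 : ℝ)) := summable_N S (3 / 2) (by norm_num)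
  set Z : ℝ := ∑' p : S.P, (S.N p : ℝ) ^ (-(3 / 2 : ℝ)) with hZ
  have hZnn : 0 ≤ Z := tsum_nonneg fun p => Real.rpow_nonneg (Nat.cast_nonneg _) _
  refine ⟨|K0| + C + 2 * (|B| * Z), by positivity, ?_⟩
  intro τ hτ κ e w s hκ hκ2 hs hs2
  have hN1 : ∀ p : S.P, (1 : ℝ) ≤ S.N p := fun p => by exact_mod_cast S.one_le_N p
  have hN0 : ∀ p : S.P, (0 : ℝ) < S.N p := fun p => lt_of_lt_of_le one_pos (hN1 p)
  have hNs : ∀ p : S.P, 0 ≤ (S.N p : ℝ) ^ (-s) := fun p => Real.rpow_nonneg (hN0 p).le _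
  have hS : Summable fun p : S.P => (S.N p : ℝ) ^ (-s) := summable_N S s hs
  -- the weight is at most the indicator part plus a small term
  have hle : ∀ p : S.P, hh S τ κ e w p * (S.N p : ℝ) ^ (-s) ≤
      κ * (thu S e w p * (S.N p : ℝ) ^ (-s) + |B| * (S.N p : ℝ) ^ (-(3 / 2 : ℝ))) := by
    intro p
    rw [hh_eq]
    obtain ⟨h1, h2⟩ := hτ p
    have h3 : τ p ≤ 1 + |B| * (S.N p : ℝ) ^ (-(1 / 2) : ℝ) := by
      have h4 := (abs_le.1 h2).2
      have h5 : B * (S.N p : ℝ) ^ (-(1 / 2) : ℝ) ≤ |B| * (S.N p : ℝ) ^ (-(1 / 2) : ℝ) :=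
        mul_le_mul_of_nonneg_right (le_abs_self B) (Real.rpow_nonneg (hN0 p).le _)
      linarith
    have h6 : (S.N p : ℝ) ^ (-(1 / 2) : ℝ) * (S.N p : ℝ) ^ (-s) ≤
        (S.N p : ℝ) ^ (-(3 / 2 : ℝ)) := by
      rw [← Real.rpow_add (hN0 p)]
      exact Real.rpow_le_rpow_of_exponent_le (hN1 p) (by linarith)
    have h7 : τ p * thu S e w p * (S.N p : ℝ) ^ (-s) ≤
        thu S e w p * (S.N p : ℝ) ^ (-s) + |B| * (S.N p : ℝ) ^ (-(3 / 2 : ℝ)) := by
      have h8 : τ p * (thu S e w p * (S.N p : ℝ) ^ (-s)) ≤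
          (1 + |B| * (S.N p : ℝ) ^ (-(1 / 2) : ℝ)) * (thu S e w p * (S.N p : ℝ) ^ (-s)) :=
        mul_le_mul_of_nonneg_right h3 (mul_nonneg (thu_nonneg _ _ _ _) (hNs p))
      have h9 : |B| * (S.N p : ℝ) ^ (-(1 / 2) : ℝ) * (thu S e w p * (S.N p : ℝ) ^ (-s)) ≤
          |B| * (S.N p : ℝ) ^ (-(3 / 2 : ℝ)) := by
        have h10 : (S.N p : ℝ) ^ (-(1 / 2) : ℝ) * (thu S e w p * (S.N p : ℝ) ^ (-s)) ≤
            (S.N p : ℝ) ^ (-(3 / 2 : ℝ)) := by
          calc (S.N p : ℝ) ^ (-(1 / 2) : ℝ) * (thu S e w p * (S.N p : ℝ) ^ (-s))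
              = thu S e w p * ((S.N p : ℝ) ^ (-(1 / 2) : ℝ) * (S.N p : ℝ) ^ (-s)) := by ring
            _ ≤ 1 * ((S.N p : ℝ) ^ (-(1 / 2) : ℝ) * (S.N p : ℝ) ^ (-s)) :=
                mul_le_mul_of_nonneg_right (thu_le _ _ _ _)
                  (mul_nonneg (Real.rpow_nonneg (hN0 p).le _) (hNs p))
            _ ≤ _ := by rw [one_mul]; exact h6
        calc |B| * (S.N p : ℝ) ^ (-(1 / 2) : ℝ) * (thu S e w p * (S.N p : ℝ) ^ (-s))
            = |B| * ((S.N p : ℝ) ^ (-(1 / 2) : ℝ) * (thu S e w p * (S.N p : ℝ) ^ (-s))) := by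
              ring
          _ ≤ _ := mul_le_mul_of_nonneg_left h10 (abs_nonneg B)
      calc τ p * thu S e w p * (S.N p : ℝ) ^ (-s)
          = τ p * (thu S e w p * (S.N p : ℝ) ^ (-s)) := by ring
        _ ≤ _ := h8
        _ = thu S e w p * (S.N p : ℝ) ^ (-s) +
            |B| * (S.N p : ℝ) ^ (-(1 / 2) : ℝ) * (thu S e w p * (S.N p : ℝ) ^ (-s)) := by ring
        _ ≤ _ := by linarith
    calc κ * τ p * thu S e w p * (S.N p : ℝ) ^ (-s)
        = κ * (τ p * thu S e w p * (S.N p : ℝ) ^ (-s)) := by ring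
      _ ≤ _ := mul_le_mul_of_nonneg_left h7 hκ
  have hnn : ∀ p : S.P, 0 ≤ hh S τ κ e w p * (S.N p : ℝ) ^ (-s) := by
    intro p
    rw [hh_eq]
    exact mul_nonneg (mul_nonneg (mul_nonneg hκ (hτ p).1) (thu_nonneg _ _ _ _)) (hNs p)
  have hUs : Summable fun p : S.P => thu S e w p * (S.N p : ℝ) ^ (-s) := by
    refine Summable.of_nonneg_of_le (fun p => mul_nonneg (thu_nonneg _ _ _ _) (hNs p))
      (fun p => ?_) hS
    calc thu S e w p * (S.N p : ℝ) ^ (-s) ≤ 1 * (S.N p : ℝ) ^ (-s) :=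
          mul_le_mul_of_nonneg_right (thu_le _ _ _ _) (hNs p)
      _ = _ := one_mul _
  have hRs : Summable fun p : S.P =>
      κ * (thu S e w p * (S.N p : ℝ) ^ (-s) + |B| * (S.N p : ℝ) ^ (-(3 / 2 : ℝ))) :=
    (hUs.add (hZ0.mul_left |B|)).mul_left κ
  have hHs : Summable fun p : S.P => hh S τ κ e w p * (S.N p : ℝ) ^ (-s) :=
    Summable.of_nonneg_of_le hnn hle hRs
  have hmain : ∑' p : S.P, hh S τ κ e w p * (S.N p : ℝ) ^ (-s) ≤
      κ * (∑' p : S.P, thu S e w p * (S.N p : ℝ) ^ (-s) + |B| * Z) := by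
    refine (hHs.tsum_le_tsum hle hRs).trans (le_of_eq ?_)
    rw [tsum_mul_left, hUs.tsum_add (hZ0.mul_left |B|), tsum_mul_left]
  -- the sum over all primes
  have hall : ∑' p : S.P, (S.N p : ℝ) ^ (-s) ≤ Real.log (1 / (s - 1)) + |K0| := by
    have h1 := (abs_le.1 (hK0 s hs hs2)).2
    have h2 := le_abs_self K0
    linarith
  have hsplit : ∀ g : S.P → ℝ, Summable g → ∑' p : S.P, (if p ∈ w then 0 else g p) =
      ∑' p : S.P, g p - ∑ p ∈ w, g p := by
    intro g hg
    have h1 : ∀ p : S.P, (if p ∈ w then 0 else g p) = g p - (if p ∈ w then g p else 0) := by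
      intro p
      split_ifs <;> ring
    have h2 : Summable fun p : S.P => (if p ∈ w then g p else 0) :=
      summable_of_ne_finset_zero (s := w) fun p hp => if_neg hp
    rw [tsum_congr h1, hg.tsum_sub h2]
    congr 1
    rw [tsum_eq_sum (s := w) fun p hp => if_neg hp]
    exact Finset.sum_congr rfl fun p hp => if_pos hp
  refine ⟨hHs, ?_, ?_⟩
  · refine hmain.trans (mul_le_mul_of_nonneg_left ?_ hκ)
    have h1 : ∑' p : S.P, thu S e w p * (S.N p : ℝ) ^ (-s) ≤
        ∑' p : S.P, (if p ∈ w then 0 else (S.N p : ℝ) ^ (-s)) := by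
      refine hUs.tsum_le_tsum (fun p => ?_) ?_
      · by_cases hp : p ∈ w
        · rw [if_pos hp]
          unfold thu
          rw [if_pos hp, zero_mul]
        · rw [if_neg hp]
          calc thu S e w p * (S.N p : ℝ) ^ (-s) ≤ 1 * (S.N p : ℝ) ^ (-s) :=
                mul_le_mul_of_nonneg_right (thu_le _ _ _ _) (hNs p)
            _ = _ := one_mul _
      · refine Summable.of_nonneg_of_le (fun p => ?_) (fun p => ?_) hS
        · split_ifs
          · exact le_refl _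
          · exact hNs p
        · split_ifs
          · exact hNs p
          · exact le_refl _
    rw [hsplit _ hS] at h1
    have h2 : 0 ≤ |B| * Z := by positivity
    linarith
  · intro he hew
    have hc : e.2.Nonempty ∨ e.1 ≠ 0 := by
      by_contra hcon
      push Not at hcon
      obtain ⟨h1, h2⟩ := hcon
      exact he (Prod.ext h2 h1)
    have h1 := hC e.2 e.1 hc s hs hs2
    set χ : S.P → ℝ := fun p => ((sg (S.ex e.2 e.1 p) : ℤ) : ℝ) with hχ
    have hχs : ∀ p, |χ p| ≤ 1 := fun p => by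
      simp only [hχ]
      exact (abs_sgr _).le
    have hG : Summable fun p : S.P => (if p ∈ e.2 then 0 else χ p) * (S.N p : ℝ) ^ (-s) := by
      refine Summable.of_norm_bounded hS fun p => ?_
      rw [Real.norm_eq_abs, abs_mul, abs_of_nonneg (hNs p)]
      calc |if p ∈ e.2 then 0 else χ p| * (S.N p : ℝ) ^ (-s) ≤ 1 * (S.N p : ℝ) ^ (-s) := by
            apply mul_le_mul_of_nonneg_right _ (hNs p)
            split_ifs
            · rw [abs_zero]
              exact zero_le_one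
            · exact hχs p
        _ = _ := one_mul _
    have h2 : ∀ p : S.P, 2 * (thu S e w p * (S.N p : ℝ) ^ (-s)) =
        (if p ∈ w then 0 else (S.N p : ℝ) ^ (-s)) +
        (if p ∈ w then 0 else (if p ∈ e.2 then 0 else χ p) * (S.N p : ℝ) ^ (-s)) := by
      intro p
      by_cases hp : p ∈ w
      · unfold thu
        rw [if_pos hp, if_pos hp, if_pos hp]
        ring
      · unfold thu
        rw [if_neg hp, if_neg hp, if_neg hp, if_neg (fun h5 => hp (hew h5))]
        simp only [hχ]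
        ring
    have hw1 : Summable fun p : S.P => (if p ∈ w then 0 else (S.N p : ℝ) ^ (-s)) := by
      refine Summable.of_nonneg_of_le (fun p => ?_) (fun p => ?_) hS
      · split_ifs
        · exact le_refl _
        · exact hNs p
      · split_ifs
        · exact hNs p
        · exact le_refl _
    have hw2 : Summable fun p : S.P =>
        (if p ∈ w then 0 else (if p ∈ e.2 then 0 else χ p) * (S.N p : ℝ) ^ (-s)) := by
      refine Summable.of_norm_bounded hG.norm fun p => ?_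
      by_cases hp : p ∈ w
      · rw [if_pos hp, norm_zero]
        exact norm_nonneg _
      · rw [if_neg hp]
    have h3 : 2 * ∑' p : S.P, thu S e w p * (S.N p : ℝ) ^ (-s) =
        (∑' p : S.P, (S.N p : ℝ) ^ (-s) - ∑ p ∈ w, (S.N p : ℝ) ^ (-s)) +
        (∑' p : S.P, (if p ∈ e.2 then 0 else χ p) * (S.N p : ℝ) ^ (-s) -
          ∑ p ∈ w, (if p ∈ e.2 then 0 else χ p) * (S.N p : ℝ) ^ (-s)) := by
      rw [← hsplit _ hS, ← hsplit _ hG, ← hw1.tsum_add hw2, ← tsum_mul_left]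
      exact tsum_congr h2
    have h4 : -∑ p ∈ w, (if p ∈ e.2 then 0 else χ p) * (S.N p : ℝ) ^ (-s) ≤
        ∑ p ∈ w, (S.N p : ℝ) ^ (-s) := by
      rw [← Finset.sum_neg_distrib]
      apply Finset.sum_le_sum
      intro p _
      have h5 : -(if p ∈ e.2 then 0 else χ p) ≤ 1 := by
        split_ifs
        · norm_num
        · have := (abs_le.1 (hχs p)).1
          linarith
      calc -((if p ∈ e.2 then 0 else χ p) * (S.N p : ℝ) ^ (-s))
          = (-(if p ∈ e.2 then 0 else χ p)) * (S.N p : ℝ) ^ (-s) := by ring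
        _ ≤ 1 * (S.N p : ℝ) ^ (-s) := mul_le_mul_of_nonneg_right h5 (hNs p)
        _ = _ := one_mul _
    have h6 : ∑' p : S.P, (if p ∈ e.2 then 0 else χ p) * (S.N p : ℝ) ^ (-s) ≤
        Real.log (1 + Real.log (S.nm e.2)) + C := h1
    have h7 : ∑' p : S.P, thu S e w p * (S.N p : ℝ) ^ (-s) + |B| * Z ≤
        (1 / 2) * (Real.log (1 / (s - 1)) + Real.log (1 + Real.log (S.nm e.2)) +
          (|K0| + C + 2 * (|B| * Z))) := by
      linarith
    refine hmain.trans ((mul_le_mul_of_nonneg_left h7 hκ).trans (le_of_eq ?_))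
    ring

end Pool.Agent.D8
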