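import Pool.Agent.D8.Stm

/-!
# The uniform bound
-/

set_option autoImplicit false

open scoped BigOperators Topology
open Filter

namespace Pool.Agent.D8

open Pool.Agent.H98.MK (sg)
open Pool.Agent.H98.MF
open Pool.Agent.H32.MQ (El pw)

theorem bud_log {a t : ℝ} (ha : 0 < a) (ht : 1 ≤ t) : 1 + Real.log t ≤ (1 + 1 / a) * t ^ a := by
  have h1 : Real.log t ≤ t ^ a / a := Real.log_le_rpow_div (by linarith) ha
  have h2 : (1 : ℝ) ≤ t ^ a := Real.one_le_rpow ht ha.le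
  calc 1 + Real.log t ≤ t ^ a + t ^ a / a := by linarith
    _ = (1 + 1 / a) * t ^ a := by ring

theorem bud_logE {E : ℝ} (hE : 0 ≤ E) : ∃ C : ℝ, 0 ≤ C ∧ ∀ σ : ℝ, 0 < σ → σ ≤ 1 →
    (1 + Real.log (1 / σ)) ^ E * σ ^ (-(3 / 2 : ℝ)) ≤ C * σ ^ (-(2 : ℝ)) := by
  have hE1 : (0 : ℝ) < E + 1 := by linarith
  obtain ⟨a, ha⟩ : ∃ a : ℝ, a = 1 / (2 * (E + 1)) := ⟨_, rfl⟩
  have ha0 : 0 < a := by rw [ha]; positivity
  have haE : a * E ≤ 1 / 2 := by
    rw [ha, div_mul_eq_mul_div, one_mul, div_le_div_iff₀ (by positivity) (by norm_num)]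
    linarith
  refine ⟨(1 + 1 / a) ^ E, by positivity, fun σ h0 h1 => ?_⟩
  have ht : 1 ≤ 1 / σ := by
    rw [le_div_iff₀ h0]
    linarith
  have hlog : 0 ≤ Real.log (1 / σ) := Real.log_nonneg ht
  have e1 : (1 + Real.log (1 / σ)) ^ E ≤ (1 + 1 / a) ^ E * σ ^ (-(1 / 2 : ℝ)) := by
    have e2 : (1 + Real.log (1 / σ)) ^ E ≤ ((1 + 1 / a) * (1 / σ) ^ a) ^ E :=
      Real.rpow_le_rpow (by linarith) (bud_log ha0 ht) hE
    have e3 : ((1 + 1 / a) * (1 / σ) ^ a) ^ E = (1 + 1 / a) ^ E * (1 / σ) ^ (a * E) := by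
      rw [Real.mul_rpow (by positivity) (by positivity), ← Real.rpow_mul (by positivity)]
    have e4 : (1 / σ) ^ (a * E) ≤ (1 / σ) ^ (1 / 2 : ℝ) := Real.rpow_le_rpow_of_exponent_le ht haE
    have e5 : (1 / σ) ^ (1 / 2 : ℝ) = σ ^ (-(1 / 2 : ℝ)) := by
      rw [one_div, Real.inv_rpow h0.le, Real.rpow_neg h0.le]
    rw [e3] at e2
    rw [← e5]
    exact e2.trans (mul_le_mul_of_nonneg_left e4 (by positivity))
  have e6 : σ ^ (-(2 : ℝ)) = σ ^ (-(1 / 2 : ℝ)) * σ ^ (-(3 / 2 : ℝ)) := by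
    rw [← Real.rpow_add h0]
    norm_num
  rw [e6, ← mul_assoc]
  exact mul_le_mul_of_nonneg_right e1 (Real.rpow_nonneg h0.le _)

theorem bud_nm_one (S : Sys) (M : Finset S.P) : (1 : ℝ) ≤ (S.nm M : ℝ) := by
  have h : 1 ≤ S.nm M := by
    unfold Pre.nm
    exact Finset.one_le_prod' fun p _ => S.one_le_N p
  exact_mod_cast h

/-- the loss of the exceptional primes -/
theorem bud_ls (S : Sys) (A : ℕ) {ε : ℝ} (hε : 0 < ε) : ∃ C : ℝ, 1 ≤ C ∧ ∀ M : Finset S.P,
    (1 + Real.log (S.nm M)) * ls S M ^ A ≤ C * (S.nm M : ℝ) ^ ε := by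
  classical
  obtain ⟨δ, hδ⟩ : ∃ δ : ℝ, δ = ε / 2 := ⟨_, rfl⟩
  have hδ0 : 0 < δ := by rw [hδ]; linarith
  have hl2 : 0 < Real.log 2 := Real.log_pos (by norm_num)
  -- the threshold
  obtain ⟨X, hX⟩ : ∃ X : ℝ, X = 1 + 2 * A / (δ * Real.log 2) := ⟨_, rfl⟩
  have hX0 : 0 < X := by rw [hX]; positivity
  have key : ∀ p : S.P, Real.exp (2 * A / (S.N p : ℝ)) ≤
      (S.N p : ℝ) ^ δ * (if p ∈ S.pr X then Real.exp A else 1) := by
    intro p
    have hN : (2 : ℝ) ≤ (S.N p : ℝ) := by exact_mod_cast S.two_le p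
    have hN1 : (1 : ℝ) ≤ (S.N p : ℝ) ^ δ := Real.one_le_rpow (by linarith) hδ0.le
    have hA0 : (0 : ℝ) ≤ A := Nat.cast_nonneg _
    by_cases hp : p ∈ S.pr X
    · rw [if_pos hp]
      have h1 : 2 * (A : ℝ) / (S.N p : ℝ) ≤ A := by
        rw [div_le_iff₀ (by linarith)]
        nlinarith
      have h2 : Real.exp (2 * A / (S.N p : ℝ)) ≤ Real.exp A := Real.exp_le_exp.2 h1
      calc Real.exp (2 * A / (S.N p : ℝ)) ≤ 1 * Real.exp A := by rw [one_mul]; exact h2
        _ ≤ (S.N p : ℝ) ^ δ * Real.exp A :=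
          mul_le_mul_of_nonneg_right hN1 (Real.exp_pos _).le
    · rw [if_neg hp, mul_one]
      rw [S.mem_pr hX0.le, not_le] at hp
      have h1 : 2 * (A : ℝ) / (S.N p : ℝ) ≤ δ * Real.log 2 := by
        have h3 : 2 * (A : ℝ) ≤ δ * Real.log 2 * X := by
          rw [hX]
          have h4 : δ * Real.log 2 * (1 + 2 * A / (δ * Real.log 2)) =
              δ * Real.log 2 + 2 * A := by
            field_simp
          rw [h4]
          have : 0 < δ * Real.log 2 := mul_pos hδ0 hl2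
          linarith
        rw [div_le_iff₀ (by linarith)]
        exact h3.trans (mul_le_mul_of_nonneg_left hp.le (mul_pos hδ0 hl2).le)
      have h2 : δ * Real.log 2 ≤ Real.log (S.N p) * δ := by
        rw [mul_comm]
        exact mul_le_mul_of_nonneg_right (Real.log_le_log (by norm_num) hN) hδ0.le
      rw [Real.rpow_def_of_pos (by linarith : (0 : ℝ) < (S.N p : ℝ))]
      exact Real.exp_le_exp.2 (h1.trans h2)
  obtain ⟨K, hK⟩ : ∃ K : ℝ, K = Real.exp A ^ (S.pr X).card := ⟨_, rfl⟩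
  have hK1 : 1 ≤ K := by
    rw [hK]
    exact one_le_pow₀ (Real.one_le_exp (Nat.cast_nonneg _))
  have h3 : ∀ M : Finset S.P, ls S M ^ A ≤ K * (S.nm M : ℝ) ^ δ := by
    intro M
    have e1 : ls S M ^ A = ∏ p ∈ M, Real.exp (2 * A / (S.N p : ℝ)) := by
      unfold ls
      rw [← Real.exp_nat_mul, ← Real.exp_sum, Finset.mul_sum]
      congr 1
      refine Finset.sum_congr rfl fun p _ => ?_
      ring
    have e2 : (S.nm M : ℝ) ^ δ = ∏ p ∈ M, (S.N p : ℝ) ^ δ := by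
      unfold Pre.nm
      rw [Nat.cast_prod, Real.finset_prod_rpow _ _ fun p _ => Nat.cast_nonneg _]
    have e3 : ∏ p ∈ M, (if p ∈ S.pr X then Real.exp A else 1) ≤ K := by
      rw [← Finset.prod_filter, Finset.prod_const, hK]
      refine pow_le_pow_right₀ (Real.one_le_exp (Nat.cast_nonneg _)) ?_
      exact Finset.card_le_card fun p hp => (Finset.mem_filter.1 hp).2
    rw [e1, e2]
    calc ∏ p ∈ M, Real.exp (2 * A / (S.N p : ℝ))
        ≤ ∏ p ∈ M, ((S.N p : ℝ) ^ δ * (if p ∈ S.pr X then Real.exp A else 1)) :=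
          Finset.prod_le_prod (fun p _ => (Real.exp_pos _).le) fun p _ => key p
      _ = (∏ p ∈ M, (S.N p : ℝ) ^ δ) * ∏ p ∈ M, (if p ∈ S.pr X then Real.exp A else 1) :=
          Finset.prod_mul_distrib
      _ ≤ (∏ p ∈ M, (S.N p : ℝ) ^ δ) * K :=
          mul_le_mul_of_nonneg_left e3 (Finset.prod_nonneg fun p _ =>
            Real.rpow_nonneg (Nat.cast_nonneg _) _)
      _ = K * ∏ p ∈ M, (S.N p : ℝ) ^ δ := by ring
  have hδi : 0 < 1 / δ := by positivity
  refine ⟨(1 + 1 / δ) * K, ?_, fun M => ?_⟩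
  · calc (1 : ℝ) = 1 * 1 := by ring
      _ ≤ (1 + 1 / δ) * K := mul_le_mul (by linarith) hK1 (by norm_num) (by linarith)
  · have hn := bud_nm_one S M
    have hlog : 0 ≤ Real.log (S.nm M) := Real.log_nonneg hn
    have e1 := bud_log hδ0 hn
    have e2 := h3 M
    have e3 : (S.nm M : ℝ) ^ ε = (S.nm M : ℝ) ^ δ * (S.nm M : ℝ) ^ δ := by
      rw [← Real.rpow_add (by linarith), hδ]
      congr 1
      ring
    have hls : 0 ≤ ls S M ^ A := pow_nonneg (Real.exp_pos _).le _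
    calc (1 + Real.log (S.nm M)) * ls S M ^ A
        ≤ ((1 + 1 / δ) * (S.nm M : ℝ) ^ δ) * (K * (S.nm M : ℝ) ^ δ) :=
          mul_le_mul e1 e2 hls (by positivity)
      _ = (1 + 1 / δ) * K * (S.nm M : ℝ) ^ ε := by rw [e3]; ring

theorem bud_ls_one (S : Sys) (M : Finset S.P) : 1 ≤ ls S M := by
  unfold ls
  exact Real.one_le_exp (Finset.sum_nonneg fun p _ => by positivity)

theorem bud_ms_nonneg {S : Sys} {B : ℝ} {τ : S.P → ℝ} (hτ : Tk S B τ) (M : Finset S.P) (c : Co S)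
    (s : ℝ) (x : V → Finset S.P) : 0 ≤ ms τ M c s x := by
  unfold ms
  split_ifs
  · exact Finset.prod_nonneg fun u _ => Finset.prod_nonneg fun p _ =>
      mul_nonneg (mul_nonneg (by norm_num) (hτ p).1) (Real.rpow_nonneg (Nat.cast_nonneg _) _)
  · exact le_refl _

open Classical in
theorem bud_eq {S : Sys} (τ : S.P → ℝ) (M : Finset S.P) (c : Co S) (s : ℝ)
    (x : V → Finset S.P) (r : ℝ) :
    (if ∀ u, Disjoint (x u) M then r * ms τ M c s x else 0) = r * ms τ M c s x := by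
  by_cases h : ∀ u, Disjoint (x u) M
  · rw [if_pos h]
  · rw [if_neg h]
    have h1 : ¬ Adm M c x := fun ha => h ha.dM
    unfold ms
    rw [if_neg h1, mul_zero]

open Classical in
/-- every pattern has at most one element, is a pair, or has at least three elements -/
theorem bud_cases (U : Finset V) : (1 : ℝ) ≤ (if 3 ≤ U.card then 1 else 0) +
    (∑ z : V × V, if z.1 ≠ z.2 ∧ U = {z.1, z.2} then 1 else 0) +
    (∑ u : V, if U = {u} then 1 else 0) + (if U = ∅ then 1 else 0) := by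
  have p1 : (0 : ℝ) ≤ (if 3 ≤ U.card then 1 else 0) := by split_ifs <;> norm_num
  have p2 : (0 : ℝ) ≤ ∑ z : V × V, (if z.1 ≠ z.2 ∧ U = {z.1, z.2} then (1 : ℝ) else 0) :=
    Finset.sum_nonneg fun z _ => by split_ifs <;> norm_num
  have p3 : (0 : ℝ) ≤ ∑ u : V, (if U = {u} then (1 : ℝ) else 0) :=
    Finset.sum_nonneg fun z _ => by split_ifs <;> norm_num
  have p4 : (0 : ℝ) ≤ (if U = ∅ then 1 else 0) := by split_ifs <;> norm_num
  rcases Nat.lt_or_ge U.card 3 with h | h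
  · have h' : U.card = 0 ∨ U.card = 1 ∨ U.card = 2 := by omega
    rcases h' with h | h | h
    · have e : U = ∅ := Finset.card_eq_zero.1 h
      have p5 : (1 : ℝ) ≤ (if U = ∅ then 1 else 0) := by rw [if_pos e]
      linarith
    · obtain ⟨u, hu⟩ := Finset.card_eq_one.1 h
      have p5 := Finset.single_le_sum (f := fun u : V => if U = {u} then (1 : ℝ) else 0)
        (fun z _ => by
          show (0 : ℝ) ≤ (if U = {z} then (1 : ℝ) else 0)
          split_ifs <;> norm_num) (Finset.mem_univ u)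
      have e : (if U = {u} then (1 : ℝ) else 0) = 1 := if_pos hu
      rw [e] at p5
      linarith
    · obtain ⟨u, v, huv, hu⟩ := Finset.card_eq_two.1 h
      have p5 := Finset.single_le_sum
        (f := fun z : V × V => if z.1 ≠ z.2 ∧ U = {z.1, z.2} then (1 : ℝ) else 0)
        (fun z _ => by
          show (0 : ℝ) ≤ (if z.1 ≠ z.2 ∧ U = {z.1, z.2} then (1 : ℝ) else 0)
          split_ifs <;> norm_num) (Finset.mem_univ (u, v))
      have e : (if ((u, v) : V × V).1 ≠ ((u, v) : V × V).2 ∧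
          U = {((u, v) : V × V).1, ((u, v) : V × V).2} then (1 : ℝ) else 0) = 1 :=
        if_pos ⟨huv, hu⟩
      rw [e] at p5
      linarith
  · have p5 : (1 : ℝ) ≤ (if 3 ≤ U.card then 1 else 0) := by rw [if_pos h]
    linarith

open Classical in
theorem bud_split (h1 : S16) {S : Sys} {B : ℝ} {τ : S.P → ℝ} {M : Finset S.P} {c : Co S}
    (hτ : Tk S B τ) (hc : c.Ok M) {s : ℝ} (hs1 : 1 < s) (hs2 : s ≤ 2) :
    (Summable fun x : V → Finset S.P => ms τ M c s x) ∧
    ∑' x : V → Finset S.P, ms τ M c s x ≤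
      MS τ M c (fun _ => M) (fun U => if 3 ≤ U.card then 1 else 0) s +
      (∑ z : V × V, if z.1 ≠ z.2 then
        MS τ M c (fun _ => M) (fun U => if U = {z.1, z.2} then 1 else 0) s else 0) +
      (∑ u : V, MS τ M c (fun _ => M) (fun U => if U = {u} then 1 else 0) s) +
      MS τ M c (fun _ => M) (fun U => if U = ∅ then 1 else 0) s := by
  have hsm : ∀ Φ : Finset V → ℝ, (∀ U, |Φ U| ≤ 1) →
      (Summable fun x : V → Finset S.P => Φ (pat x) * ms τ M c s x) ∧
      MS τ M c (fun _ => M) Φ s = ∑' x : V → Finset S.P, Φ (pat x) * ms τ M c s x := by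
    intro Φ hΦ
    have e := (h1 S B τ M c (fun _ => M) Φ s hτ hc (fun _ => Finset.Subset.refl _) hΦ hs1 hs2).1
    have e1 : (fun x : V → Finset S.P =>
        if ∀ u, Disjoint (x u) ((fun _ => M) u) then Φ (pat x) * ms τ M c s x else 0) =
        fun x => Φ (pat x) * ms τ M c s x := by
      funext x
      exact bud_eq τ M c s x (Φ (pat x))
    refine ⟨?_, ?_⟩
    · rw [← e1]
      exact e
    · unfold MS
      rw [e1]
  have hi : ∀ (q : Finset V → Prop) [DecidablePred q] (U : Finset V),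
      |(if q U then (1 : ℝ) else 0)| ≤ 1 := by
    intro q _ U
    split_ifs <;> norm_num
  have hs : Summable fun x : V → Finset S.P => ms τ M c s x := by
    have e := (hsm (fun _ => 1) (fun _ => by norm_num)).1
    simpa using e
  refine ⟨hs, ?_⟩
  obtain ⟨a1, b1⟩ := hsm (fun U => if 3 ≤ U.card then 1 else 0) (hi _)
  have a2 : ∀ z : V × V, Summable fun x : V → Finset S.P =>
      (if z.1 ≠ z.2 ∧ pat x = {z.1, z.2} then (1 : ℝ) else 0) * ms τ M c s x := fun z =>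
    (hsm (fun U => if z.1 ≠ z.2 ∧ U = {z.1, z.2} then 1 else 0) (hi _)).1
  have b2 : ∀ z : V × V, (if z.1 ≠ z.2 then
        MS τ M c (fun _ => M) (fun U => if U = {z.1, z.2} then 1 else 0) s else 0) =
      ∑' x : V → Finset S.P,
        (if z.1 ≠ z.2 ∧ pat x = {z.1, z.2} then (1 : ℝ) else 0) * ms τ M c s x := by
    intro z
    by_cases hz : z.1 ≠ z.2
    · rw [if_pos hz, (hsm (fun U => if U = {z.1, z.2} then 1 else 0) (hi _)).2]
      refine tsum_congr fun x => ?_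
      by_cases hp : pat x = {z.1, z.2}
      · rw [if_pos hp, if_pos ⟨hz, hp⟩]
      · rw [if_neg hp, if_neg (fun h => hp h.2)]
    · rw [if_neg hz]
      have e : (fun x : V → Finset S.P =>
          (if z.1 ≠ z.2 ∧ pat x = {z.1, z.2} then (1 : ℝ) else 0) * ms τ M c s x) =
          fun _ => 0 := by
        funext x
        rw [if_neg (fun h => hz h.1), zero_mul]
      rw [e, tsum_zero]
  have a3 : ∀ u : V, Summable fun x : V → Finset S.P =>
      (if pat x = {u} then (1 : ℝ) else 0) * ms τ M c s x := fun u =>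
    (hsm (fun U => if U = {u} then 1 else 0) (hi _)).1
  have b3 : ∀ u : V, MS τ M c (fun _ => M) (fun U => if U = {u} then 1 else 0) s =
      ∑' x : V → Finset S.P, (if pat x = {u} then (1 : ℝ) else 0) * ms τ M c s x := fun u =>
    (hsm (fun U => if U = {u} then 1 else 0) (hi _)).2
  obtain ⟨a4, b4⟩ := hsm (fun U => if U = ∅ then 1 else 0) (hi _)
  have s2 := summable_sum (s := (Finset.univ : Finset (V × V))) (fun z _ => a2 z)
  have s3 := summable_sum (s := (Finset.univ : Finset V)) (fun z _ => a3 z)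
  rw [b1, b4]
  simp only [b2, b3]
  rw [← Summable.tsum_finsetSum (fun z _ => a2 z), ← Summable.tsum_finsetSum (fun z _ => a3 z),
    ← a1.tsum_add s2, ← (a1.add s2).tsum_add s3, ← ((a1.add s2).add s3).tsum_add a4]
  refine hs.tsum_le_tsum (fun x => ?_) (((a1.add s2).add s3).add a4)
  have e1 := bud_cases (pat x)
  have e2 := mul_le_mul_of_nonneg_right e1 (bud_ms_nonneg hτ M c s x)
  rw [one_mul] at e2
  refine e2.trans (le_of_eq ?_)
  rw [add_mul, add_mul, add_mul, Finset.sum_mul, Finset.sum_mul]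

open Classical in
theorem sUD (h1 : S16) (h2 : SGB) (h3 : S2B) (h4 : S1B) : SUD := by
  intro S B ε hε
  obtain ⟨C1, E1, hC1, hE1, g1⟩ := h2 S B
  obtain ⟨C2, E2, hC2, hE2, g2⟩ := h3 S B
  obtain ⟨C3, hC3, g3⟩ := h4 S B
  obtain ⟨L1, hL1, l1⟩ := bud_logE hE1
  obtain ⟨L2, hL2, l2⟩ := bud_logE hE2
  obtain ⟨K, hK, k1⟩ := bud_ls S 16 hε
  obtain ⟨C, hC⟩ : ∃ C : ℝ, C = C1 * (1 + L1 * K) + 16 * (C2 * (1 + L2 * K)) + 5 * C3 :=
    ⟨_, rfl⟩
  have hK0 : 0 ≤ K := by linarith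
  refine ⟨C, by rw [hC]; positivity, fun τ M c hτ hc σ hσ0 hσ1 => ?_⟩
  obtain ⟨s1, s2⟩ := bud_split h1 hτ hc (by linarith : 1 < 1 + σ) (by linarith : 1 + σ ≤ 2)
  refine ⟨s1, s2.trans ?_⟩
  obtain ⟨Q, hQ⟩ : ∃ Q : ℝ, Q = (S.nm M : ℝ) ^ ε := ⟨_, rfl⟩
  obtain ⟨R, hR⟩ : ∃ R : ℝ, R = σ ^ (-(2 : ℝ)) := ⟨_, rfl⟩
  have hQ1 : 1 ≤ Q := by
    rw [hQ]
    exact Real.one_le_rpow (bud_nm_one S M) hε.le
  have hR1 : 1 ≤ R := by
    rw [hR, Real.rpow_neg hσ0.le]
    refine (one_le_inv₀ (Real.rpow_pos_of_pos hσ0 _)).2 ?_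
    exact Real.rpow_le_one hσ0.le hσ1 (by norm_num)
  have hQR : 1 ≤ Q * R := by
    calc (1 : ℝ) = 1 * 1 := by ring
      _ ≤ Q * R := mul_le_mul hQ1 hR1 (by norm_num) (by linarith)
  have hRQ : R ≤ Q * R := by
    calc R = 1 * R := by ring
      _ ≤ Q * R := mul_le_mul_of_nonneg_right hQ1 (by linarith)
  have hlog : 0 ≤ Real.log (S.nm M) := Real.log_nonneg (bud_nm_one S M)
  have hls := bud_ls_one S M
  have hk := k1 M
  rw [← hQ] at hk
  -- the general term
  have gen : ∀ (L : ℝ) (T : ℝ) (a : ℕ), 0 ≤ L → T ≤ L * R → 0 ≤ T → a ≤ 16 →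
      T * ((1 + Real.log (S.nm M)) * ls S M ^ a) ≤ L * K * (Q * R) := by
    intro L T a hL hT hT0 ha
    have e1 : (1 + Real.log (S.nm M)) * ls S M ^ a ≤ K * Q :=
      (mul_le_mul_of_nonneg_left (pow_le_pow_right₀ hls ha) (by linarith)).trans hk
    have e0 : 0 ≤ (1 + Real.log (S.nm M)) * ls S M ^ a :=
      mul_nonneg (by linarith) (pow_nonneg (by linarith) _)
    calc T * ((1 + Real.log (S.nm M)) * ls S M ^ a) ≤ (L * R) * (K * Q) :=
          mul_le_mul hT e1 e0 (mul_nonneg hL (by linarith))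
      _ = L * K * (Q * R) := by ring
  have hexp : ∀ t : ℝ, 0 ≤ t → Real.exp (-t) ≤ 1 := fun t ht =>
    Real.exp_le_one_iff.2 (by linarith)
  have hsn : 0 ≤ ∑ p ∈ M, (S.N p : ℝ) ^ (-(1 + σ)) :=
    Finset.sum_nonneg fun p _ => Real.rpow_nonneg (Nat.cast_nonneg _) _
  have hpw : ∀ E : ℝ, 0 ≤ (1 + Real.log (1 / σ)) ^ E * σ ^ (-(3 / 2 : ℝ)) := fun E => by
    have : 0 ≤ Real.log (1 / σ) := Real.log_nonneg (by rw [le_div_iff₀ hσ0]; linarith)
    exact mul_nonneg (Real.rpow_nonneg (by linarith) _) (Real.rpow_nonneg hσ0.le _)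
  have hcardV : (Finset.univ : Finset V).card = 4 := by
    rw [Finset.card_univ, Fintype.card_prod, ZMod.card]
  -- at least three classes
  have t1 : MS τ M c (fun _ => M) (fun U => if 3 ≤ U.card then 1 else 0) (1 + σ) ≤
      C1 * (1 + L1 * K) * (Q * R) := by
    have e := g1 τ M c (fun _ => M) hτ hc (fun _ => Finset.Subset.refl _) σ hσ0 hσ1
    refine e.trans ?_
    rw [mul_assoc C1]
    refine mul_le_mul_of_nonneg_left ?_ hC1
    rw [add_mul, one_mul]
    refine add_le_add ?_ ?_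
    · rw [← hR]
      have e1 : Real.exp (-(1 / 2) * ∑ _u : V, ∑ p ∈ M, (S.N p : ℝ) ^ (-(1 + σ))) ≤ 1 := by
        rw [neg_mul]
        exact hexp _ (mul_nonneg (by norm_num) (Finset.sum_nonneg fun _ _ => hsn))
      calc R * Real.exp (-(1 / 2) * ∑ _u : V, ∑ p ∈ M, (S.N p : ℝ) ^ (-(1 + σ)))
          ≤ R * 1 := mul_le_mul_of_nonneg_left e1 (by linarith)
        _ = R := mul_one _
        _ ≤ Q * R := hRQ
    · have e1 : (∏ _u : V, ls S M) ^ 4 = ls S M ^ 16 := by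
        rw [Finset.prod_const, hcardV, ← pow_mul]
      rw [e1]
      have e2 := gen L1 ((1 + Real.log (1 / σ)) ^ E1 * σ ^ (-(3 / 2 : ℝ))) 16 hL1
        (by rw [hR]; exact l1 σ hσ0 hσ1) (hpw E1) le_rfl
      calc (1 + Real.log (1 / σ)) ^ E1 * (1 + Real.log (S.nm M)) * ls S M ^ 16 *
            σ ^ (-(3 / 2 : ℝ))
          = (1 + Real.log (1 / σ)) ^ E1 * σ ^ (-(3 / 2 : ℝ)) *
            ((1 + Real.log (S.nm M)) * ls S M ^ 16) := by ring
        _ ≤ _ := e2
  -- two classes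
  have t2 : ∀ z : V × V, (if z.1 ≠ z.2 then
        MS τ M c (fun _ => M) (fun U => if U = {z.1, z.2} then 1 else 0) (1 + σ) else 0) ≤
      C2 * (1 + L2 * K) * (Q * R) := by
    intro z
    by_cases hz : z.1 ≠ z.2
    · rw [if_pos hz]
      have e := g2 τ M c (fun _ => M) z.1 z.2 hτ hc (fun _ => Finset.Subset.refl _) hz σ hσ0 hσ1
      refine e.trans ?_
      rw [mul_assoc C2]
      refine mul_le_mul_of_nonneg_left ?_ hC2
      rw [add_mul, one_mul]
      refine add_le_add ?_ ?_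
      · split_ifs
        · rw [← hR]
          have e1 := hexp (∑ p ∈ M, (S.N p : ℝ) ^ (-(1 + σ)) + ∑ p ∈ M, (S.N p : ℝ) ^ (-(1 + σ)))
            (add_nonneg hsn hsn)
          exact (mul_le_mul_of_nonneg_left e1 (by linarith)).trans (by rw [mul_one]; exact hRQ)
        · linarith
      · have e1 : (ls S M * ls S M) ^ 2 = ls S M ^ 4 := by ring
        rw [e1]
        have e2 := gen L2 ((1 + Real.log (1 / σ)) ^ E2 * σ ^ (-(3 / 2 : ℝ))) 4 hL2
          (by rw [hR]; exact l2 σ hσ0 hσ1) (hpw E2) (by norm_num)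
        calc (1 + Real.log (1 / σ)) ^ E2 * (1 + Real.log (S.nm M)) * ls S M ^ 4 *
              σ ^ (-(3 / 2 : ℝ))
            = (1 + Real.log (1 / σ)) ^ E2 * σ ^ (-(3 / 2 : ℝ)) *
              ((1 + Real.log (S.nm M)) * ls S M ^ 4) := by ring
          _ ≤ _ := e2
    · rw [if_neg hz]
      positivity
  have t3 : ∀ u : V, MS τ M c (fun _ => M) (fun U => if U = {u} then 1 else 0) (1 + σ) ≤
      C3 * (Q * R) := by
    intro u
    have e := ((g3 τ M c hτ hc σ hσ0 hσ1).2 u).1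
    rw [← hR] at e
    exact e.trans (mul_le_mul_of_nonneg_left hRQ hC3)
  have t4 : MS τ M c (fun _ => M) (fun U => if U = ∅ then 1 else 0) (1 + σ) ≤
      C3 * (Q * R) := by
    have e := (g3 τ M c hτ hc σ hσ0 hσ1).1
    calc MS τ M c (fun _ => M) (fun U => if U = ∅ then 1 else 0) (1 + σ) ≤ C3 := e
      _ = C3 * 1 := by ring
      _ ≤ C3 * (Q * R) := mul_le_mul_of_nonneg_left hQR hC3
  have u2 : (∑ z : V × V, if z.1 ≠ z.2 then
        MS τ M c (fun _ => M) (fun U => if U = {z.1, z.2} then 1 else 0) (1 + σ) else 0) ≤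
      16 * (C2 * (1 + L2 * K) * (Q * R)) := by
    refine (Finset.sum_le_sum fun z _ => t2 z).trans (le_of_eq ?_)
    rw [Finset.sum_const, Finset.card_univ, Fintype.card_prod, ← Finset.card_univ, hcardV,
      nsmul_eq_mul]
    norm_num
  have u3 : (∑ u : V, MS τ M c (fun _ => M) (fun U => if U = {u} then 1 else 0) (1 + σ)) ≤
      4 * (C3 * (Q * R)) := by
    refine (Finset.sum_le_sum fun u _ => t3 u).trans (le_of_eq ?_)
    rw [Finset.sum_const, hcardV, nsmul_eq_mul]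
    norm_num
  have fin : C * (S.nm M : ℝ) ^ ε * σ ^ (-(2 : ℝ)) = C1 * (1 + L1 * K) * (Q * R) +
      16 * (C2 * (1 + L2 * K) * (Q * R)) + 4 * (C3 * (Q * R)) + C3 * (Q * R) := by
    rw [← hQ, ← hR, hC]
    ring
  rw [fin]
  exact add_le_add (add_le_add (add_le_add t1 u2) u3) t4

end Pool.Agent.D8
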