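import Pool.Agent.D8.Stm

/-!
# Malle's conjecture for the dihedral group of order 16, row W1: the windows
-/

set_option autoImplicit false

open scoped BigOperators Topology
open Filter

namespace Pool.Agent.D8

open Pool.Agent.H98.MF

open Classical in
/-- the sum over the primes with trivial label -/
private noncomputable def bwinF (S : Sys) (s : ℝ) : ℝ :=
  ∑' p : S.P, (if S.ty p = 0 then (S.N p : ℝ) ^ (-s) else 0)

private theorem bwin_K (S : Sys) : ∃ K : ℝ, 0 ≤ K ∧ ∀ s : ℝ, 1 < s → s ≤ 2 →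
    |bwinF S s - (1 / 2 ^ S.m) * Real.log (1 / (s - 1))| ≤ K := by
  classical
  obtain ⟨K, hK⟩ := class_sum S ∅ (fun _ => 0) 0
  have h : ∀ s : ℝ, 1 < s → s ≤ 2 →
      |bwinF S s - (1 / 2 ^ S.m) * Real.log (1 / (s - 1))| ≤ K := by
    intro s h1 h2
    have h3 := hK s h1 h2
    have h4 : bwinF S s = ∑' p : S.P, (if p ∉ (∅ : Finset S.P) ∧ S.ty p = 0 ∧
        ∀ q ∈ (∅ : Finset S.P), S.J q p = (fun _ => (0 : ZMod 2)) q
          then (S.N p : ℝ) ^ (-s) else 0) := by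
      unfold bwinF
      refine tsum_congr fun p => ?_
      by_cases hp : S.ty p = 0
      · simp [hp]
      · simp [hp]
    rw [h4]
    convert h3 using 5
    simp
  exact ⟨K, (abs_nonneg _).trans (h 2 (by norm_num) le_rfl), h⟩

private theorem bwin_pos (S : Sys) (p : S.P) : (0 : ℝ) < S.N p := by
  have := S.two_le p
  exact_mod_cast (by omega : 0 < S.N p)

private theorem bwin_split (S : Sys) (p : S.P) (w : ℝ) :
    (S.N p : ℝ) ^ (-(1 + w)) = (S.N p : ℝ)⁻¹ * Real.exp (-(Real.log (S.N p) * w)) := by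
  have h := bwin_pos S p
  rw [show -(1 + w) = -1 + -w by ring, Real.rpow_add h, Real.rpow_neg_one,
    Real.rpow_def_of_pos h (-w)]
  congr 2
  ring

private theorem bwin_log (S : Sys) (p : S.P) {X : ℝ} (h : (S.N p : ℝ) ≤ Real.exp X) :
    Real.log (S.N p) ≤ X := by
  rw [← Real.log_exp X]
  exact Real.log_le_log (bwin_pos S p) h

private theorem bwin_up (S : Sys) (p : S.P) {w : ℝ} (hw : 0 < w)
    (h : (S.N p : ℝ) ≤ Real.exp (1 / w)) :
    (S.N p : ℝ)⁻¹ ≤ Real.exp 1 * (S.N p : ℝ) ^ (-(1 + w)) := by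
  rw [bwin_split]
  have h1 := bwin_log S p h
  have h2 : Real.log (S.N p) * w ≤ 1 := by
    rw [le_div_iff₀ hw] at h1
    exact h1
  have h3 : 1 ≤ Real.exp 1 * Real.exp (-(Real.log (S.N p) * w)) := by
    rw [← Real.exp_add]
    exact Real.one_le_exp (by linarith)
  have h4 : 0 < (S.N p : ℝ)⁻¹ := inv_pos.2 (bwin_pos S p)
  nlinarith

private theorem bwin_nn (S : Sys) (p : S.P) (s : ℝ) : 0 ≤ (S.N p : ℝ) ^ s :=
  Real.rpow_nonneg (bwin_pos S p).le _

private theorem bwin_pow {σ b : ℝ} (hσ : 0 < σ) : 1 / σ ^ b = σ ^ (-b) := by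
  rw [Real.rpow_neg hσ.le, one_div]

theorem sWls : SWls := by
  intro S
  obtain ⟨K, hK⟩ := S.prm0
  have hK0 : 0 ≤ K := (abs_nonneg _).trans (hK 2 (by norm_num) le_rfl)
  refine ⟨Real.exp (2 * Real.exp 1 * K), (Real.exp_pos _).le, ?_⟩
  intro a b σ ha hab hb hσ hσ1
  have hw : 0 < σ ^ b := Real.rpow_pos_of_pos hσ b
  have hb0 : 0 < b := lt_of_lt_of_le ha hab
  have hw1 : σ ^ b ≤ 1 := Real.rpow_le_one hσ.le hσ1 hb0.le
  have h1 : ∑ p ∈ win S a b σ, 2 / (S.N p : ℝ) ≤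
      2 * Real.exp 1 * ∑ p ∈ win S a b σ, (S.N p : ℝ) ^ (-(1 + σ ^ b)) := by
    rw [Finset.mul_sum]
    refine Finset.sum_le_sum fun p hp => ?_
    have hp1 : (S.N p : ℝ) ≤ Real.exp (σ ^ (-b)) := by
      unfold win at hp
      exact (S.mem_pr (Real.exp_pos _).le).1 (Finset.mem_filter.1 hp).1
    have := bwin_up S p hw (by rw [bwin_pow hσ]; exact hp1)
    rw [div_eq_mul_inv]
    nlinarith
  have h2 : ∑ p ∈ win S a b σ, (S.N p : ℝ) ^ (-(1 + σ ^ b)) ≤
      ∑' p : S.P, (S.N p : ℝ) ^ (-(1 + σ ^ b)) :=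
    (summable_N S (1 + σ ^ b) (by linarith)).sum_le_tsum _ fun p _ => bwin_nn S p _
  have h3 := (abs_le.1 (hK (1 + σ ^ b) (by linarith) (by linarith))).2
  have h4 : Real.log (1 / (1 + σ ^ b - 1)) = -(b * Real.log σ) := by
    rw [show 1 + σ ^ b - 1 = σ ^ b by ring, one_div, Real.log_inv, Real.log_rpow hσ]
  rw [h4] at h3
  have hl : Real.log σ ≤ 0 := Real.log_nonpos hσ.le hσ1
  have he := Real.exp_one_lt_d9
  have he0 := Real.exp_pos 1
  unfold ls
  have h5 : Real.exp (2 * Real.exp 1 * K) * σ ^ (-(6 * b)) =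
      Real.exp (2 * Real.exp 1 * K + Real.log σ * (-(6 * b))) := by
    rw [Real.exp_add, Real.rpow_def_of_pos hσ]
  rw [h5]
  refine Real.exp_le_exp.2 (h1.trans ?_)
  have h6 : ∑ p ∈ win S a b σ, (S.N p : ℝ) ^ (-(1 + σ ^ b)) ≤ K + -(b * Real.log σ) := by
    linarith
  have h7 : 2 * Real.exp 1 * ∑ p ∈ win S a b σ, (S.N p : ℝ) ^ (-(1 + σ ^ b)) ≤
      2 * Real.exp 1 * (K + -(b * Real.log σ)) :=
    mul_le_mul_of_nonneg_left h6 (by positivity)
  refine h7.trans ?_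
  have h8 : 0 ≤ b * -Real.log σ := mul_nonneg hb0.le (by linarith)
  nlinarith

/-- the tail -/
private theorem bwin_tail (S : Sys) {v : ℝ} (hv : 0 < v) :
    bwinF S (1 + 3 * v) ≤ ∑ p ∈ (S.pr (Real.exp (1 / v))).filter (fun p => S.ty p = 0),
      (S.N p : ℝ)⁻¹ + Real.exp (-(3 / 2)) * bwinF S (1 + 3 * v / 2) := by
  classical
  set F := (S.pr (Real.exp (1 / v))).filter (fun p => S.ty p = 0) with hF
  have hs1 : Summable fun p : S.P => (if S.ty p = 0 then (S.N p : ℝ) ^ (-(1 + 3 * v)) else 0) :=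
    Summable.of_nonneg_of_le (fun p => by split_ifs; exacts [bwin_nn S p _, le_rfl])
      (fun p => by split_ifs; exacts [le_rfl, bwin_nn S p _]) (summable_N S (1 + 3 * v) (by linarith))
  have hs2 : Summable fun p : S.P =>
      (if S.ty p = 0 then (S.N p : ℝ) ^ (-(1 + 3 * v / 2)) else 0) :=
    Summable.of_nonneg_of_le (fun p => by split_ifs; exacts [bwin_nn S p _, le_rfl])
      (fun p => by split_ifs; exacts [le_rfl, bwin_nn S p _])
      (summable_N S (1 + 3 * v / 2) (by linarith))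
  have hs3 : Summable fun p : S.P => (if p ∈ F then (S.N p : ℝ)⁻¹ else 0) :=
    summable_of_ne_finset_zero (s := F) fun p hp => if_neg hp
  have h3 : ∑' p : S.P, (if p ∈ F then (S.N p : ℝ)⁻¹ else 0) = ∑ p ∈ F, (S.N p : ℝ)⁻¹ := by
    rw [tsum_eq_sum (s := F) fun p hp => if_neg hp]
    exact Finset.sum_congr rfl fun p hp => if_pos hp
  rw [← h3]
  unfold bwinF
  rw [← tsum_mul_left, ← hs3.tsum_add (hs2.mul_left _)]
  refine hs1.tsum_le_tsum (fun p => ?_) (hs3.add (hs2.mul_left _))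
  have hN := bwin_pos S p
  by_cases ht : S.ty p = 0
  · rw [if_pos ht, if_pos ht]
    by_cases hp : (S.N p : ℝ) ≤ Real.exp (1 / v)
    · have hpF : p ∈ F := Finset.mem_filter.2 ⟨(S.mem_pr (Real.exp_pos _).le).2 hp, ht⟩
      rw [if_pos hpF]
      have h4 : (S.N p : ℝ) ^ (-(1 + 3 * v)) ≤ (S.N p : ℝ)⁻¹ := by
        rw [bwin_split]
        refine mul_le_of_le_one_right (inv_pos.2 hN).le (Real.exp_le_one_iff.2 ?_)
        have : 0 ≤ Real.log (S.N p) := Real.log_nonneg (by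
          have := S.two_le p
          exact_mod_cast (by omega : 1 ≤ S.N p))
        have : 0 ≤ Real.log (S.N p) * (3 * v) := mul_nonneg this (by linarith)
        linarith
      have h5 : 0 ≤ Real.exp (-(3 / 2)) * (S.N p : ℝ) ^ (-(1 + 3 * v / 2)) :=
        mul_nonneg (Real.exp_pos _).le (bwin_nn S p _)
      linarith
    · have hpF : p ∉ F := fun h => hp ((S.mem_pr (Real.exp_pos _).le).1 (Finset.mem_filter.1 h).1)
      have h7 : Real.exp (-(3 / 2)) * ((S.N p : ℝ)⁻¹ *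
          Real.exp (-(Real.log (S.N p) * (3 * v / 2)))) =
          (S.N p : ℝ)⁻¹ * Real.exp (-(3 / 2) + -(Real.log (S.N p) * (3 * v / 2))) := by
        rw [Real.exp_add]
        ring
      rw [if_neg hpF, zero_add, bwin_split, bwin_split, h7]
      refine mul_le_mul_of_nonneg_left (Real.exp_le_exp.2 ?_) (inv_pos.2 hN).le
      have h6 : 1 / v ≤ Real.log (S.N p) := by
        rw [← Real.log_exp (1 / v)]
        exact Real.log_le_log (Real.exp_pos _) (not_le.1 hp).le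
      rw [div_le_iff₀ hv] at h6
      linarith
  · rw [if_neg ht, if_neg ht, mul_zero, add_zero]
    split_ifs
    · exact (inv_pos.2 hN).le
    · exact le_rfl

theorem sWin : SWin := by
  classical
  intro S a b ha hab hb
  obtain ⟨K, hK0, hK⟩ := bwin_K S
  set ρ : ℝ := 1 / 2 ^ S.m with hρ
  have hρ0 : 0 < ρ := by positivity
  have hb0 : 0 < b := by linarith
  have hL : Tendsto (fun σ : ℝ => -Real.log σ) (𝓝[>] 0) atTop :=
    tendsto_neg_atBot_atTop.comp Real.tendsto_log_nhdsGT_zero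
  set C : ℝ := ρ * Real.log 3 + 2 * K + Real.exp 1 * K with hC
  have hT : Tendsto (fun σ : ℝ => Real.exp (-1) * (ρ * (b / 4) * -Real.log σ + -C))
      (𝓝[>] 0) atTop := by
    refine Tendsto.const_mul_atTop (Real.exp_pos _) ?_
    exact tendsto_atTop_add_const_right _ _ (hL.const_mul_atTop (by positivity))
  refine tendsto_atTop_mono' _ ?_ hT
  have hv : Tendsto (fun σ : ℝ => σ ^ b) (𝓝[>] 0) (𝓝 0) := by
    have h := (Real.continuousAt_rpow_const (0 : ℝ) b (Or.inr hb0.le)).tendsto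
    rw [Real.zero_rpow hb0.ne'] at h
    exact h.mono_left nhdsWithin_le_nhds
  have hv1 : ∀ᶠ σ : ℝ in 𝓝[>] 0, σ ^ b < 1 / 3 := hv.eventually_lt_const (by norm_num)
  have hσ1 : ∀ᶠ σ : ℝ in 𝓝[>] 0, σ < 1 :=
    (tendsto_nhdsWithin_of_tendsto_nhds tendsto_id).eventually_lt_const (by norm_num)
  filter_upwards [hv1, hσ1, self_mem_nhdsWithin] with σ h1 h2 h3
  have hσ : 0 < σ := h3
  have hw : 0 < σ ^ b := Real.rpow_pos_of_pos hσ b
  have hwa : 0 < σ ^ a := Real.rpow_pos_of_pos hσ a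
  have hwa1 : σ ^ a ≤ 1 := Real.rpow_le_one hσ.le h2.le ha.le
  have hl : 0 < -Real.log σ := by
    have := Real.log_neg hσ h2
    linarith
  -- the window sum
  set G := (S.pr (Real.exp (1 / σ ^ b))).filter (fun p => S.ty p = 0) with hG
  set G1 := (S.pr (Real.exp (1 / σ ^ a))).filter (fun p => S.ty p = 0) with hG1
  have hsub : G ⊆ win S a b σ ∪ G1 := by
    intro p hp
    obtain ⟨hp1, hp2⟩ := Finset.mem_filter.1 hp
    rw [bwin_pow hσ] at hp1
    by_cases h : Real.exp (σ ^ (-a)) < S.N p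
    · exact Finset.mem_union_left _ (Finset.mem_filter.2 ⟨hp1, hp2, h⟩)
    · refine Finset.mem_union_right _ (Finset.mem_filter.2 ⟨?_, hp2⟩)
      rw [S.mem_pr (Real.exp_pos _).le, bwin_pow hσ]
      exact not_lt.1 h
  have e1 : ∑ p ∈ G, (S.N p : ℝ)⁻¹ ≤ ∑ p ∈ win S a b σ, (S.N p : ℝ)⁻¹ +
      ∑ p ∈ G1, (S.N p : ℝ)⁻¹ := by
    refine (Finset.sum_le_sum_of_subset_of_nonneg hsub fun p _ _ =>
      (inv_pos.2 (bwin_pos S p)).le).trans ?_
    rw [← Finset.sum_union_inter]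
    have : 0 ≤ ∑ p ∈ win S a b σ ∩ G1, (S.N p : ℝ)⁻¹ :=
      Finset.sum_nonneg fun p _ => (inv_pos.2 (bwin_pos S p)).le
    linarith
  have e2 : ∑ p ∈ G1, (S.N p : ℝ)⁻¹ ≤ Real.exp 1 * bwinF S (1 + σ ^ a) := by
    have hs : Summable fun p : S.P =>
        (if S.ty p = 0 then (S.N p : ℝ) ^ (-(1 + σ ^ a)) else 0) :=
      Summable.of_nonneg_of_le (fun p => by split_ifs; exacts [bwin_nn S p _, le_rfl])
        (fun p => by split_ifs; exacts [le_rfl, bwin_nn S p _])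
        (summable_N S (1 + σ ^ a) (by linarith))
    have h4 := hs.sum_le_tsum G1 fun p _ => by split_ifs; exacts [bwin_nn S p _, le_rfl]
    have h5 : ∑ p ∈ G1, (S.N p : ℝ)⁻¹ ≤ Real.exp 1 * ∑ p ∈ G1,
        (if S.ty p = 0 then (S.N p : ℝ) ^ (-(1 + σ ^ a)) else 0) := by
      rw [Finset.mul_sum]
      refine Finset.sum_le_sum fun p hp => ?_
      obtain ⟨hp1, hp2⟩ := Finset.mem_filter.1 hp
      rw [if_pos hp2]
      exact bwin_up S p hwa ((S.mem_pr (Real.exp_pos _).le).1 hp1)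
    exact h5.trans (mul_le_mul_of_nonneg_left h4 (Real.exp_pos _).le)
  have e3 := bwin_tail S hw
  have k1 := abs_le.1 (hK (1 + 3 * σ ^ b) (by linarith) (by linarith))
  have k2 := abs_le.1 (hK (1 + 3 * σ ^ b / 2) (by linarith) (by linarith))
  have k3 := abs_le.1 (hK (1 + σ ^ a) (by linarith) (by linarith))
  have l1 : Real.log (1 / (1 + 3 * σ ^ b - 1)) = b * -Real.log σ - Real.log 3 := by
    rw [show 1 + 3 * σ ^ b - 1 = 3 * σ ^ b by ring, one_div, Real.log_inv,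
      Real.log_mul (by norm_num) hw.ne', Real.log_rpow hσ]
    ring
  have l2 : Real.log (1 / (1 + 3 * σ ^ b / 2 - 1)) ≤ b * -Real.log σ := by
    rw [show 1 + 3 * σ ^ b / 2 - 1 = (3 / 2) * σ ^ b by ring, one_div, Real.log_inv,
      Real.log_mul (by norm_num) hw.ne', Real.log_rpow hσ]
    have : 0 < Real.log (3 / 2) := Real.log_pos (by norm_num)
    linarith
  have l3 : Real.log (1 / (1 + σ ^ a - 1)) = a * -Real.log σ := by
    rw [show 1 + σ ^ a - 1 = σ ^ a by ring, one_div, Real.log_inv, Real.log_rpow hσ]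
    ring
  rw [l1] at k1
  rw [l3] at k3
  have he := Real.exp_one_lt_d9
  have he' := Real.exp_one_gt_d9
  have hq : Real.exp (-(3 / 2)) ≤ 1 / 4 := by
    have h4 : Real.exp (-(3 / 2)) * Real.exp (3 / 2) = 1 := by
      rw [← Real.exp_add]
      norm_num
    have h5 : (4 : ℝ) ≤ Real.exp (3 / 2) := by
      have h6 : Real.exp (3 / 2) * Real.exp (3 / 2) = Real.exp 1 ^ 3 := by
        rw [← Real.exp_add, ← Real.exp_nat_mul]
        norm_num
      have h7 : (16 : ℝ) ≤ Real.exp 1 ^ 3 := by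
        have : (2.7 : ℝ) ^ 3 ≤ Real.exp 1 ^ 3 := pow_le_pow_left₀ (by norm_num) (by linarith) 3
        norm_num at this ⊢
        linarith
      nlinarith [Real.exp_pos (3 / 2 : ℝ)]
    nlinarith [Real.exp_pos (-(3 / 2) : ℝ)]
  have hq0 := Real.exp_pos (-(3 / 2) : ℝ)
  have f1 : ρ * (b * -Real.log σ - Real.log 3) - K ≤ bwinF S (1 + 3 * σ ^ b) := by linarith [k1.1]
  have f2 : bwinF S (1 + 3 * σ ^ b / 2) ≤ ρ * (b * -Real.log σ) + K := by
    have := mul_le_mul_of_nonneg_left l2 hρ0.le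
    linarith [k2.2]
  have f3 : bwinF S (1 + σ ^ a) ≤ ρ * (a * -Real.log σ) + K := by linarith [k3.2]
  have hx0 : 0 ≤ ρ * (b * -Real.log σ) := by positivity
  have f4 : Real.exp (-(3 / 2)) * bwinF S (1 + 3 * σ ^ b / 2) ≤
      1 / 4 * (ρ * (b * -Real.log σ)) + K := by
    refine (mul_le_mul_of_nonneg_left f2 hq0.le).trans ?_
    nlinarith
  have f5 : Real.exp 1 * bwinF S (1 + σ ^ a) ≤
      1 / 2 * (ρ * (b * -Real.log σ)) + Real.exp 1 * K := by
    refine (mul_le_mul_of_nonneg_left f3 (Real.exp_pos _).le).trans ?_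
    have h4 : Real.exp 1 * a ≤ b / 2 := by nlinarith
    have h5 : 0 ≤ ρ * -Real.log σ := by positivity
    nlinarith
  have e4 : ρ * (b / 4) * -Real.log σ + -C ≤ ∑ p ∈ win S a b σ, (S.N p : ℝ)⁻¹ := by
    rw [hC]
    nlinarith
  -- the weight
  have e5 : Real.exp (-1) * ∑ p ∈ win S a b σ, (S.N p : ℝ)⁻¹ ≤
      ∑ p ∈ win S a b σ, (S.N p : ℝ) ^ (-(1 + σ)) := by
    rw [Finset.mul_sum]
    refine Finset.sum_le_sum fun p hp => ?_
    have hp1 : (S.N p : ℝ) ≤ Real.exp (σ ^ (-b)) := by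
      unfold win at hp
      exact (S.mem_pr (Real.exp_pos _).le).1 (Finset.mem_filter.1 hp).1
    rw [bwin_split, mul_comm]
    refine mul_le_mul_of_nonneg_left (Real.exp_le_exp.2 ?_) (inv_pos.2 (bwin_pos S p)).le
    have h4 := bwin_log S p hp1
    have h5 : Real.log (S.N p) * σ ≤ σ ^ (-b) * σ := mul_le_mul_of_nonneg_right h4 hσ.le
    have h6 : σ ^ (-b) * σ = σ ^ (1 - b) := by
      rw [show (1 - b) = -b + 1 by ring, Real.rpow_add hσ, Real.rpow_one]
    have h7 : σ ^ (1 - b) ≤ 1 := Real.rpow_le_one hσ.le h2.le (by linarith)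
    linarith
  exact (mul_le_mul_of_nonneg_left e4 (Real.exp_pos _).le).trans e5

end Pool.Agent.D8
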