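import Pool.Agent.D8.Stm

/-!
# The dihedral group of order 16 over number fields, row A11: tuples with a given pattern
-/

set_option autoImplicit false

open scoped BigOperators Topology
open Filter

namespace Pool.Agent.D8

open Pool.Agent.H98.MK (sg)
open Pool.Agent.H98.MF
open Pool.Agent.H32.MQ (El pw)

/-- finite sums of products -/
theorem bzu_pi {A ι : Type} [Fintype ι] (G : ι → A → ℝ) (hG : ∀ u a, 0 ≤ G u a) (C : ι → ℝ)
    (hC : ∀ u (T : Finset A), ∑ a ∈ T, G u a ≤ C u) (T : Finset (ι → A)) :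
    ∑ x ∈ T, ∏ u, G u (x u) ≤ ∏ u, C u := by
  classical
  have h1 : T ⊆ Fintype.piFinset fun u => T.image fun x => x u := by
    intro x hx
    rw [Fintype.mem_piFinset]
    intro u
    exact Finset.mem_image_of_mem (fun x : ι → A => x u) hx
  calc ∑ x ∈ T, ∏ u, G u (x u)
      ≤ ∑ x ∈ Fintype.piFinset fun u => T.image fun x => x u, ∏ u, G u (x u) :=
        Finset.sum_le_sum_of_subset_of_nonneg h1 fun x _ _ =>
          Finset.prod_nonneg fun u _ => hG u _
    _ = ∏ u, ∑ a ∈ T.image fun x => x u, G u a := (Finset.prod_univ_sum _ _).symm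
    _ ≤ ∏ u, C u := Finset.prod_le_prod
        (fun u _ => Finset.sum_nonneg fun a _ => hG u a) fun u _ => hC u _

/-- the absolute value of a sum -/
theorem bzu_abs {A : Type} (f : A → ℝ) (C : ℝ) (h : ∀ T : Finset A, ∑ x ∈ T, |f x| ≤ C) :
    |∑' x, f x| ≤ C := by
  have sm : Summable fun x => |f x| := summable_of_sum_le (fun x => abs_nonneg _) h
  have h1 : Summable fun x => ‖f x‖ := by simpa only [Real.norm_eq_abs] using sm
  have h2 := norm_tsum_le_tsum_norm h1
  simp only [Real.norm_eq_abs] at h2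
  exact h2.trans (sm.tsum_le_of_sum_le h)

theorem bzu_sg (x : ZMod 2) : |((sg x : ℤ) : ℝ)| = 1 := by
  rcases (by revert x; decide : sg x = 1 ∨ sg x = -1) with h | h <;> rw [h] <;> norm_num

theorem bzu_sg2 (x : ZMod 2) : 0 ≤ (1 + ((sg x : ℤ) : ℝ)) / 2 ∧
    (1 + ((sg x : ℤ) : ℝ)) / 2 ≤ 1 := by
  rcases (by revert x; decide : sg x = 1 ∨ sg x = -1) with h | h <;> rw [h] <;> norm_num

section

variable (S : Sys)

theorem bzu_hh0 {B κ : ℝ} {τ : S.P → ℝ} (hτ : Tk S B τ) (hκ : 0 ≤ κ) (e : El S)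
    (w : Finset S.P) (p : S.P) : 0 ≤ hh S τ κ e w p := by
  unfold hh
  split_ifs
  · exact le_rfl
  · exact mul_nonneg (mul_nonneg hκ (hτ p).1) (bzu_sg2 _).1

theorem bzu_hh1 {B κ : ℝ} {τ : S.P → ℝ} (hτ : Tk S B τ) (hκ : 0 ≤ κ) (e : El S)
    (w : Finset S.P) (p : S.P) : hh S τ κ e w p ≤ κ * τ p := by
  unfold hh
  split_ifs
  · exact mul_nonneg hκ (hτ p).1
  · exact mul_le_of_le_one_right (mul_nonneg hκ (hτ p).1) (bzu_sg2 _).2

/-- the prime sums converge -/
theorem bzu_sum (h1 : ST1) {B κ : ℝ} {τ : S.P → ℝ} (hτ : Tk S B τ) (hκ : 0 ≤ κ) (hκ2 : κ ≤ 2)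
    (e : El S) (w : Finset S.P) {s : ℝ} (hs : 1 < s) (hs2 : s ≤ 2) :
    Summable fun p : S.P => hh S τ κ e w p * (S.N p : ℝ) ^ (-s) := by
  obtain ⟨C, -, hC⟩ := h1 S B κ 0 hκ hκ2
  have h2 := (hC τ hτ (s - 1) (by linarith) (by linarith)).1
  have h3 := h2.comp_injective (i := fun p : S.P => ({p} : Finset S.P))
    fun p q h => Finset.singleton_injective h
  have h4 : ∀ p : S.P, (fun x : Finset S.P => (∏ p ∈ x, κ * τ p) * ls S x ^ 0 *
      pw (1 + (s - 1)) x) ({p} : Finset S.P) = κ * τ p * (S.N p : ℝ) ^ (-s) := by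
    intro p
    simp only [Finset.prod_singleton, pow_zero, mul_one]
    have h5 : S.nm ({p} : Finset S.P) = S.N p := Finset.prod_singleton _ _
    unfold pw
    rw [h5, add_sub_cancel]
  have h5 : Summable fun p : S.P => κ * τ p * (S.N p : ℝ) ^ (-s) := by
    refine h3.congr fun p => ?_
    exact h4 p
  refine Summable.of_nonneg_of_le (fun p => mul_nonneg (bzu_hh0 S hτ hκ e w p)
    (Real.rpow_nonneg (Nat.cast_nonneg _) _)) (fun p => ?_) h5
  exact mul_le_mul_of_nonneg_right (bzu_hh1 S hτ hκ e w p)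
    (Real.rpow_nonneg (Nat.cast_nonneg _) _)

end

/-- Row A11: tuples with a given pattern. -/
theorem sZU (h : SExp) (h1 : ST1) : SZU := by
  classical
  intro S ι _ φ B κ τ D hτ hκ hκ1 U s hs hs2
  set H : ι → S.P → ℝ := fun u p => hh S τ κ (D.e u) (D.w u) p * (S.N p : ℝ) ^ (-s) with hH
  have H0 : ∀ u p, 0 ≤ H u p := fun u p => mul_nonneg (bzu_hh0 S hτ hκ.le _ _ p)
    (Real.rpow_nonneg (Nat.cast_nonneg _) _)
  have Hs : ∀ u, Summable (H u) := fun u =>
    bzu_sum S h1 hτ hκ.le (by linarith) (D.e u) (D.w u) hs hs2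
  set G : ι → Finset S.P → ℝ := fun u a =>
    if u ∈ U then ∏ p ∈ a, H u p else if a = ∅ then 1 else 0 with hG
  have G0 : ∀ u a, 0 ≤ G u a := by
    intro u a
    simp only [hG]
    split_ifs
    · exact Finset.prod_nonneg fun p _ => H0 u p
    · exact zero_le_one
    · exact le_rfl
  set C : ι → ℝ := fun u => if u ∈ U then Real.exp (∑' p, H u p) else 1 with hC
  have GC : ∀ u (T : Finset (Finset S.P)), ∑ a ∈ T, G u a ≤ C u := by
    intro u T
    simp only [hG, hC]
    by_cases hu : u ∈ U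
    · simp only [hu, if_true]
      obtain ⟨e1, -, e2, -⟩ := h S.P (H u) (Hs u)
      exact (e1.sum_le_tsum T fun a _ => Finset.prod_nonneg fun p _ => H0 u p).trans
        (e2 (H0 u))
    · simp only [hu, if_false]
      rw [Finset.sum_ite_eq' T ∅ fun _ => (1 : ℝ)]
      split_ifs <;> norm_num
  have key : ∀ x : ι → Finset S.P,
      |Kt τ κ s φ D (fun P => if P = U then 1 else 0) x| ≤ ∏ u, G u (x u) := by
    intro x
    have hp : 0 ≤ ∏ u, G u (x u) := Finset.prod_nonneg fun u _ => G0 u _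
    unfold Kt
    by_cases g1 : S.Dj x
    · rw [if_pos g1]
      by_cases g2 : pat x = U
      swap
      · show |(if pat x = U then (1 : ℝ) else 0) * _ * _| ≤ _
        rw [if_neg g2, zero_mul, zero_mul, abs_zero]
        exact hp
      show |(if pat x = U then (1 : ℝ) else 0) * _ * _| ≤ _
      rw [if_pos g2, one_mul, abs_mul, bzu_sg, one_mul]
      have g3 : ∀ u, G u (x u) = ∏ p ∈ x u, H u p := by
        intro u
        simp only [hG]
        by_cases hu : u ∈ U
        · rw [if_pos hu]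
        · have g4 : x u = ∅ := by
            by_contra hne
            refine hu ?_
            rw [← g2]
            unfold pat
            exact Finset.mem_filter.2 ⟨Finset.mem_univ _, Finset.nonempty_iff_ne_empty.2 hne⟩
          rw [if_neg hu, if_pos g4, g4, Finset.prod_empty]
      rw [Finset.prod_congr rfl fun u _ => g3 u]
      exact (abs_of_nonneg (Finset.prod_nonneg fun u _ => Finset.prod_nonneg fun p _ =>
        H0 u p)).le
    · rw [if_neg g1, abs_zero]
      exact hp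
  have fin : ∀ T : Finset (ι → Finset S.P),
      ∑ x ∈ T, |Kt τ κ s φ D (fun P => if P = U then 1 else 0) x| ≤ ∏ u, C u := fun T =>
    (Finset.sum_le_sum fun x _ => key x).trans (bzu_pi G G0 C GC T)
  have CU : ∏ u, C u = ∏ u ∈ U, Real.exp (∑' p, H u p) := by
    simp only [hC]
    rw [Finset.prod_ite_mem, Finset.univ_inter]
  unfold FK
  rw [← CU]
  exact bzu_abs _ _ fin

end Pool.Agent.D8
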