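import Pool.Agent.D8.B16
import Pool.Agent.D8.B1B
import Pool.Agent.D8.B2B
import Pool.Agent.D8.B2X
import Pool.Agent.D8.B3W
import Pool.Agent.D8.B3X
import Pool.Agent.D8.B4
import Pool.Agent.D8.BBx
import Pool.Agent.D8.BBx0
import Pool.Agent.D8.BC16
import Pool.Agent.D8.BCS
import Pool.Agent.D8.BDb
import Pool.Agent.D8.BExp
import Pool.Agent.D8.BFK
import Pool.Agent.D8.BFa
import Pool.Agent.D8.BFb
import Pool.Agent.D8.BFc
import Pool.Agent.D8.BFin
import Pool.Agent.D8.BGB
import Pool.Agent.D8.BGL
import Pool.Agent.D8.BLb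
import Pool.Agent.D8.BLin
import Pool.Agent.D8.BLup
import Pool.Agent.D8.BMn
import Pool.Agent.D8.BMrg
import Pool.Agent.D8.BQL
import Pool.Agent.D8.BT1
import Pool.Agent.D8.BTh
import Pool.Agent.D8.BUD
import Pool.Agent.D8.BWin
import Pool.Agent.D8.BZU

/-!
# The dihedral group of order 16 over a number field: the analytic part without hypotheses
-/

set_option autoImplicit false

namespace Pool.Agent.D8

theorem end_T1 : ST1 := sT1 sExp

theorem end_Th : STh := sTh (sLup sExp)

theorem end_Fb : SFb := sFb end_T1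

theorem end_Fa : SFa := sFa (sBx sBx0 end_T1) end_T1

theorem end_Fc : SFc := sFc (sLin sExp (sLup sExp) end_T1) end_T1 end_Fb

theorem end_FK : SFK := sFK end_Fa end_Fb end_Fc

theorem end_ZU : SZU := sZU sExp end_T1

theorem end_16 : S16 := s16 sMrg end_Fb

theorem end_4 : S4 := s4 sMrg end_Fb

theorem end_2B : S2B := s2B end_FK end_ZU end_Th end_4 sC16

theorem end_1B : S1B := s1B sExp end_Th

theorem end_GB : SGB := sGB end_FK end_ZU end_Th end_16 sC16

/-- the uniform mass bound -/
theorem end_UD : SUD := sUD end_16 end_GB end_2B end_1B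

theorem end_Db : SDb := sDb sExp (sLup sExp) end_T1

theorem end_Mn : SMn := sMn end_FK end_4 sC16 sLb end_Db end_16

theorem end_GL : SGL := sGL end_GB sWin sWls sCS s3W (s3X end_T1) end_16

theorem end_QL : SQL := sQL end_2B sWin sWls s2W (s2X end_T1) end_16

/-- the double pole -/
theorem end_D8L : SD8L := sD8L end_GL end_QL end_2B end_1B end_Mn end_Db end_16

end Pool.Agent.D8
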