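import Pool.Agent.D8.Stm
import Pool.Agent.H98.MF.SClassSum

/-!
# The dihedral group of order 16 over a number field: types and characters (Fourier expansion)
-/

set_option autoImplicit false

open scoped BigOperators

namespace Pool.Agent.D8

open Pool.Agent.H98.MK (sg)
open Pool.Agent.H98.MF

theorem lb_orth {m : ℕ} (k k' : Fin m → ZMod 2) :
    ∑ c : Fin m → ZMod 2, ((sg (c ⬝ᵥ k') : ℤ) : ℝ) * ((sg (c ⬝ᵥ k) : ℤ) : ℝ) =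
      if k' = k then 2 ^ m else 0 := by
  have h1 : ∀ c : Fin m → ZMod 2, ((sg (c ⬝ᵥ k') : ℤ) : ℝ) * ((sg (c ⬝ᵥ k) : ℤ) : ℝ) =
      ((sg (c ⬝ᵥ (k' + k)) : ℤ) : ℝ) := by
    intro c
    rw [dotProduct_add, sg_add]
    push_cast
    rfl
  rw [Finset.sum_congr rfl fun c _ => h1 c, ← Int.cast_sum, cls_sum_T]
  have h2 : k' + k = 0 ↔ k' = k := by
    constructor
    · intro h
      funext i
      exact CharTwo.add_eq_zero.1 (congrFun h i)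
    · rintro rfl
      funext i
      exact CharTwo.add_self_eq_zero _
  by_cases h : k' = k
  · rw [if_pos h, if_pos (h2.2 h)]
    push_cast
    rfl
  · rw [if_neg h, if_neg fun h3 => h (h2.1 h3)]
    push_cast
    rfl

theorem sLb : SLb := by
  intro S θ k m
  have hsg : ∀ a b : ZMod 2, ((sg (a + b) : ℤ) : ℝ) = ((sg a : ℤ) : ℝ) * ((sg b : ℤ) : ℝ) := by
    intro a b
    rw [sg_add]
    push_cast
    rfl
  have h0 : (2 : ℝ) ^ (2 * S.m) ≠ 0 := by positivity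
  have h1 : ∀ c d : S.T, ((1 / (2 : ℝ) ^ (2 * S.m)) * ∑ k' : S.T, ∑ m' : S.T,
      θ k' m' * ((sg (c ⬝ᵥ k' + d ⬝ᵥ m') : ℤ) : ℝ)) * ((sg (c ⬝ᵥ k + d ⬝ᵥ m) : ℤ) : ℝ) =
      ∑ k' : S.T, ∑ m' : S.T, (1 / (2 : ℝ) ^ (2 * S.m)) * θ k' m' *
        ((((sg (c ⬝ᵥ k') : ℤ) : ℝ) * ((sg (c ⬝ᵥ k) : ℤ) : ℝ)) *
          (((sg (d ⬝ᵥ m') : ℤ) : ℝ) * ((sg (d ⬝ᵥ m) : ℤ) : ℝ))) := by
    intro c d
    rw [Finset.mul_sum, Finset.sum_mul]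
    refine Finset.sum_congr rfl fun k' _ => ?_
    rw [Finset.mul_sum, Finset.sum_mul]
    refine Finset.sum_congr rfl fun m' _ => ?_
    rw [hsg, hsg]
    ring
  have h2 : ∀ k' m' : S.T, ∑ c : S.T, ∑ d : S.T, (1 / (2 : ℝ) ^ (2 * S.m)) * θ k' m' *
        ((((sg (c ⬝ᵥ k') : ℤ) : ℝ) * ((sg (c ⬝ᵥ k) : ℤ) : ℝ)) *
          (((sg (d ⬝ᵥ m') : ℤ) : ℝ) * ((sg (d ⬝ᵥ m) : ℤ) : ℝ))) =
      if k' = k then (if m' = m then θ k' m' else 0) else 0 := by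
    intro k' m'
    have h3 : ∑ c : S.T, ∑ d : S.T, (1 / (2 : ℝ) ^ (2 * S.m)) * θ k' m' *
        ((((sg (c ⬝ᵥ k') : ℤ) : ℝ) * ((sg (c ⬝ᵥ k) : ℤ) : ℝ)) *
          (((sg (d ⬝ᵥ m') : ℤ) : ℝ) * ((sg (d ⬝ᵥ m) : ℤ) : ℝ))) =
        (1 / (2 : ℝ) ^ (2 * S.m)) * θ k' m' *
          ((∑ c : S.T, ((sg (c ⬝ᵥ k') : ℤ) : ℝ) * ((sg (c ⬝ᵥ k) : ℤ) : ℝ)) *
            ∑ d : S.T, ((sg (d ⬝ᵥ m') : ℤ) : ℝ) * ((sg (d ⬝ᵥ m) : ℤ) : ℝ)) := by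
      rw [Finset.sum_mul_sum, Finset.mul_sum]
      refine Finset.sum_congr rfl fun c _ => ?_
      rw [Finset.mul_sum]
    rw [h3]
    have h4 := lb_orth (m := S.m) k k'
    have h5 := lb_orth (m := S.m) m m'
    rw [h4, h5]
    by_cases hk : k' = k
    · rw [if_pos hk, if_pos hk]
      by_cases hm : m' = m
      · rw [if_pos hm, if_pos hm]
        have h6 : (2 : ℝ) ^ (2 * S.m) = 2 ^ S.m * 2 ^ S.m := by
          rw [two_mul, pow_add]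
        rw [h6]
        field_simp
      · rw [if_neg hm, if_neg hm, mul_zero, mul_zero]
    · rw [if_neg hk, if_neg hk, zero_mul, mul_zero]
  have h7 : ∑ c : S.T, ∑ d : S.T, ((1 / (2 : ℝ) ^ (2 * S.m)) * ∑ k' : S.T, ∑ m' : S.T,
      θ k' m' * ((sg (c ⬝ᵥ k' + d ⬝ᵥ m') : ℤ) : ℝ)) * ((sg (c ⬝ᵥ k + d ⬝ᵥ m) : ℤ) : ℝ) =
      ∑ k' : S.T, ∑ m' : S.T, ∑ c : S.T, ∑ d : S.T, (1 / (2 : ℝ) ^ (2 * S.m)) * θ k' m' *
        ((((sg (c ⬝ᵥ k') : ℤ) : ℝ) * ((sg (c ⬝ᵥ k) : ℤ) : ℝ)) *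
          (((sg (d ⬝ᵥ m') : ℤ) : ℝ) * ((sg (d ⬝ᵥ m) : ℤ) : ℝ))) := by
    rw [Finset.sum_congr rfl fun c _ => Finset.sum_congr rfl fun d _ => h1 c d]
    rw [Finset.sum_congr rfl fun c _ => Finset.sum_comm]
    rw [Finset.sum_comm]
    refine Finset.sum_congr rfl fun k' _ => ?_
    rw [Finset.sum_congr rfl fun c _ => Finset.sum_comm]
    rw [Finset.sum_comm]
  rw [h7, Finset.sum_congr rfl fun k' _ => Finset.sum_congr rfl fun m' _ => h2 k' m']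
  simp

end Pool.Agent.D8
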