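import Pool.Agent.D8.Stm
import Pool.Agent.H98.MF.SCount

/-!
# Malle's conjecture for the dihedral group of order 16, row D8-M3, part a: double sums over two
classes (helper61)
-/

set_option autoImplicit false

open scoped BigOperators Topology
open Filter

namespace Pool.Agent.D8

open Pool.Agent.H98.MK (sg)
open Pool.Agent.H98.MF
open Pool.Agent.H32.MQ (El pw)

/-! ### families supported on one kind -/

/-- the family with the sets `z` at `(0, i)` and `(1, i)` -/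
def bmnE {P : Type} (i : ZMod 2) (z : Finset P × Finset P) : V → Finset P :=
  fun t => if t.2 = i then (if t.1 = 0 then z.1 else z.2) else ∅

theorem bmnE_zero {P : Type} (i : ZMod 2) (z : Finset P × Finset P) :
    bmnE i z (0, i) = z.1 := by
  unfold bmnE
  rw [if_pos rfl, if_pos rfl]

theorem bmnE_one {P : Type} (i : ZMod 2) (z : Finset P × Finset P) :
    bmnE i z (1, i) = z.2 := by
  unfold bmnE
  rw [if_pos rfl, if_neg (one_ne_zero : (1 : ZMod 2) ≠ 0)]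

theorem bmnE_ne {P : Type} {i : ZMod 2} (z : Finset P × Finset P) {t : V} (h : t.2 ≠ i) :
    bmnE i z t = ∅ := by
  unfold bmnE
  rw [if_neg h]

theorem bmn_cases {i : ZMod 2} {t : V} (h : t.2 = i) : t = (0, i) ∨ t = (1, i) := by
  rcases t with ⟨t1, t2⟩
  have h1 : t2 = i := h
  rw [h1]
  rcases zm2 t1 with h2 | h2
  · exact Or.inl (by rw [h2])
  · exact Or.inr (by rw [h2])

theorem bmn_ne (i : ZMod 2) : ((0, i) : V) ≠ (1, i) := by
  intro h
  exact zero_ne_one (congrArg Prod.fst h)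

theorem bmn_prod {M : Type} [CommMonoid M] (i : ZMod 2) (f : V → M)
    (h : ∀ t : V, t.2 ≠ i → f t = 1) : ∏ t, f t = f (0, i) * f (1, i) := by
  refine Finset.prod_eq_mul (0, i) (1, i) (bmn_ne i) (fun t _ ht => h t fun h1 => ?_)
    (fun h1 => absurd (Finset.mem_univ _) h1) (fun h1 => absurd (Finset.mem_univ _) h1)
  rcases bmn_cases h1 with h2 | h2
  · exact ht.1 h2
  · exact ht.2 h2

theorem bmn_sum {M : Type} [AddCommMonoid M] (i : ZMod 2) (f : V → M)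
    (h : ∀ t : V, t.2 ≠ i → f t = 0) : ∑ t, f t = f (0, i) + f (1, i) := by
  refine Finset.sum_eq_add (0, i) (1, i) (bmn_ne i) (fun t _ ht => h t fun h1 => ?_)
    (fun h1 => absurd (Finset.mem_univ _) h1) (fun h1 => absurd (Finset.mem_univ _) h1)
  rcases bmn_cases h1 with h2 | h2
  · exact ht.1 h2
  · exact ht.2 h2

theorem bmnE_inj {P : Type} (i : ZMod 2) : Function.Injective (bmnE (P := P) i) := by
  intro z z' h
  have h0 := congrFun h (0, i)
  have h1 := congrFun h (1, i)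
  rw [bmnE_zero, bmnE_zero] at h0
  rw [bmnE_one, bmnE_one] at h1
  exact Prod.ext h0 h1

theorem bmn_mem_pat {P : Type} {x : V → Finset P} {t : V} : t ∈ pat x ↔ (x t).Nonempty := by
  classical
  unfold pat
  rw [Finset.mem_filter]
  exact ⟨fun h => h.2, fun h => ⟨Finset.mem_univ _, h⟩⟩

theorem bmn_pat {P : Type} {x : V → Finset P} {i : ZMod 2} :
    pat x = {(0, i), (1, i)} ↔ ∀ t : V, (x t).Nonempty ↔ t.2 = i := by
  constructor
  · intro h t
    rw [← bmn_mem_pat, h, Finset.mem_insert, Finset.mem_singleton]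
    constructor
    · rintro (h1 | h1)
      · rw [h1]
      · rw [h1]
    · exact bmn_cases
  · intro h
    ext t
    rw [bmn_mem_pat, h t, Finset.mem_insert, Finset.mem_singleton]
    constructor
    · exact bmn_cases
    · rintro (h1 | h1)
      · rw [h1]
      · rw [h1]

theorem bmn_range {P : Type} {x : V → Finset P} {i : ZMod 2} (h : pat x = {(0, i), (1, i)}) :
    x ∈ Set.range (bmnE (P := P) i) := by
  refine ⟨(x (0, i), x (1, i)), ?_⟩
  rw [bmn_pat] at h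
  funext t
  by_cases ht : t.2 = i
  · rcases bmn_cases ht with h1 | h1
    · rw [h1, bmnE_zero]
    · rw [h1, bmnE_one]
  · rw [bmnE_ne _ ht]
    exact (Finset.not_nonempty_iff_eq_empty.1 fun h1 => ht ((h t).1 h1)).symm

theorem bmn_patE {P : Type} {z : Finset P × Finset P} {i : ZMod 2} :
    pat (bmnE i z) = {(0, i), (1, i)} ↔ z.1.Nonempty ∧ z.2.Nonempty := by
  rw [bmn_pat]
  constructor
  · intro h
    have h0 := (h (0, i)).2 rfl
    have h1 := (h (1, i)).2 rfl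
    rw [bmnE_zero] at h0
    rw [bmnE_one] at h1
    exact ⟨h0, h1⟩
  · intro h t
    by_cases ht : t.2 = i
    · rcases bmn_cases ht with h1 | h1
      · rw [h1, bmnE_zero]
        exact ⟨fun _ => rfl, fun _ => h.1⟩
      · rw [h1, bmnE_one]
        exact ⟨fun _ => rfl, fun _ => h.2⟩
    · rw [bmnE_ne _ ht]
      exact ⟨fun h1 => absurd h1 Finset.not_nonempty_empty, fun h1 => absurd h1 ht⟩

/-! ### double sums with a function of the types -/

section

variable {S : Sys}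

theorem bmn_dj {i : ZMod 2} {z : Finset S.P × Finset S.P} :
    S.Dj (bmnE i z) ↔ Disjoint z.1 z.2 := by
  constructor
  · intro h
    have h1 := h (0, i) (1, i) (bmn_ne i)
    rwa [bmnE_zero, bmnE_one] at h1
  · intro h t t' htt
    by_cases ht : t.2 = i
    · by_cases ht' : t'.2 = i
      · rcases bmn_cases ht with h1 | h1 <;> rcases bmn_cases ht' with h2 | h2
        · exact absurd (h1.trans h2.symm) htt
        · rw [h1, h2, bmnE_zero, bmnE_one]
          exact h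
        · rw [h1, h2, bmnE_zero, bmnE_one]
          exact h.symm
        · exact absurd (h1.trans h2.symm) htt
      · rw [bmnE_ne _ ht']
        exact Finset.disjoint_empty_right _
    · rw [bmnE_ne _ ht]
      exact Finset.disjoint_empty_left _

/-- the weight of a pair of sets -/
noncomputable def bmnW (τ : S.P → ℝ) (s : ℝ) (z : Finset S.P × Finset S.P) : ℝ :=
  (∏ p ∈ z.1, τ p * (S.N p : ℝ) ^ (-s)) * ∏ p ∈ z.2, τ p * (S.N p : ℝ) ^ (-s)

open Classical in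
/-- double sums with a function of the types -/
noncomputable def bmnG (τ : S.P → ℝ) (g : S.T → S.T → ℝ) (s : ℝ) : ℝ :=
  ∑' z : Finset S.P × Finset S.P, if Disjoint z.1 z.2 ∧ z.1.Nonempty ∧ z.2.Nonempty
    then g (S.tys z.1) (S.tys z.2) * bmnW τ s z else 0

theorem bmn_DS (τ : S.P → ℝ) (c d : S.T) (s : ℝ) :
    DS τ c d s = bmnG τ (fun k m => ((sg (c ⬝ᵥ k + d ⬝ᵥ m) : ℤ) : ℝ)) s := rfl

theorem bmn_tau0 {B : ℝ} {τ : S.P → ℝ} (hτ : Tk S B τ) (s : ℝ) (p : S.P) :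
    0 ≤ τ p * (S.N p : ℝ) ^ (-s) :=
  mul_nonneg (hτ p).1 (Real.rpow_nonneg (Nat.cast_nonneg _) _)

theorem bmn_tau1 {B : ℝ} {τ : S.P → ℝ} (hτ : Tk S B τ) (p : S.P) : τ p ≤ 1 + |B| := by
  have h1 := (abs_le.1 (hτ p).2).2
  have h2 : (S.N p : ℝ) ^ (-(1 / 2) : ℝ) ≤ 1 := by
    refine Real.rpow_le_one_of_one_le_of_nonpos ?_ (by norm_num)
    exact_mod_cast S.one_le_N p
  have h3 : 0 ≤ (S.N p : ℝ) ^ (-(1 / 2) : ℝ) := Real.rpow_nonneg (Nat.cast_nonneg _) _
  have h4 : B * (S.N p : ℝ) ^ (-(1 / 2) : ℝ) ≤ |B| * 1 :=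
    mul_le_mul (le_abs_self B) h2 h3 (abs_nonneg B)
  linarith

theorem bmn_sumW {B : ℝ} {τ : S.P → ℝ} (hτ : Tk S B τ) {s : ℝ} (hs : 1 < s) :
    Summable (bmnW (S := S) τ s) := by
  have h1 : Summable fun p : S.P => τ p * (S.N p : ℝ) ^ (-s) := by
    refine Summable.of_nonneg_of_le (bmn_tau0 hτ s) (fun p => ?_)
      ((summable_N S s hs).mul_left (1 + |B|))
    exact mul_le_mul_of_nonneg_right (bmn_tau1 hτ p) (Real.rpow_nonneg (Nat.cast_nonneg _) _)
  have h2 : Summable fun x : Finset S.P => ∏ p ∈ x, τ p * (S.N p : ℝ) ^ (-s) :=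
    summable_finsetProd_of_summable_nonneg (bmn_tau0 hτ s) h1
  have h3 : ∀ x : Finset S.P, 0 ≤ ∏ p ∈ x, τ p * (S.N p : ℝ) ^ (-s) := fun x =>
    Finset.prod_nonneg fun p _ => bmn_tau0 hτ s p
  exact h2.mul_of_nonneg h2 h3 h3

theorem bmn_W0 {B : ℝ} {τ : S.P → ℝ} (hτ : Tk S B τ) (s : ℝ) (z : Finset S.P × Finset S.P) :
    0 ≤ bmnW τ s z :=
  mul_nonneg (Finset.prod_nonneg fun p _ => bmn_tau0 hτ s p)
    (Finset.prod_nonneg fun p _ => bmn_tau0 hτ s p)

open Classical in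
theorem bmn_sumG {B : ℝ} {τ : S.P → ℝ} (hτ : Tk S B τ) {s : ℝ} (hs : 1 < s)
    (g : S.T → S.T → ℝ) (K : ℝ) (hg : ∀ k m, |g k m| ≤ K) :
    Summable fun z : Finset S.P × Finset S.P =>
      if Disjoint z.1 z.2 ∧ z.1.Nonempty ∧ z.2.Nonempty
        then g (S.tys z.1) (S.tys z.2) * bmnW τ s z else 0 := by
  refine Summable.of_norm_bounded ((bmn_sumW hτ hs).mul_left K) fun z => ?_
  have hK : 0 ≤ K := (abs_nonneg _).trans (hg 0 0)
  split_ifs with h
  · rw [Real.norm_eq_abs, abs_mul, abs_of_nonneg (bmn_W0 hτ s z)]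
    exact mul_le_mul_of_nonneg_right (hg _ _) (bmn_W0 hτ s z)
  · rw [norm_zero]
    exact mul_nonneg hK (bmn_W0 hτ s z)

theorem bmn_linG {B : ℝ} {τ : S.P → ℝ} (hτ : Tk S B τ) {s : ℝ} (hs : 1 < s) {ι : Type}
    [Fintype ι] (a : ι → ℝ) (g : ι → S.T → S.T → ℝ) (K : ℝ) (hg : ∀ i k m, |g i k m| ≤ K) :
    ∑ i, a i * bmnG τ (g i) s = bmnG τ (fun k m => ∑ i, a i * g i k m) s := by
  classical
  have h1 : ∀ i ∈ (Finset.univ : Finset ι), Summable fun z : Finset S.P × Finset S.P =>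
      a i * (if Disjoint z.1 z.2 ∧ z.1.Nonempty ∧ z.2.Nonempty
        then g i (S.tys z.1) (S.tys z.2) * bmnW τ s z else 0) := fun i _ =>
    (bmn_sumG hτ hs (g i) K (hg i)).mul_left (a i)
  have h2 := Summable.tsum_finsetSum h1
  have h3 : ∑ i, a i * bmnG τ (g i) s = ∑ i, ∑' z : Finset S.P × Finset S.P,
      a i * (if Disjoint z.1 z.2 ∧ z.1.Nonempty ∧ z.2.Nonempty
        then g i (S.tys z.1) (S.tys z.2) * bmnW τ s z else 0) := by
    refine Finset.sum_congr rfl fun i _ => ?_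
    unfold bmnG
    rw [tsum_mul_left]
  rw [h3, ← h2]
  unfold bmnG
  refine tsum_congr fun z => ?_
  split_ifs with h
  · rw [Finset.sum_mul]
    exact Finset.sum_congr rfl fun i _ => by ring
  · exact Finset.sum_eq_zero fun i _ => mul_zero _

/-! ### the two patterns -/

theorem bmn_hh (τ : S.P → ℝ) (p : S.P) : hh S τ 1 ((0, ∅) : El S) ∅ p = τ p := by
  unfold hh
  rw [if_neg (Finset.notMem_empty p)]
  have h1 : S.ex ∅ 0 p = 0 := by
    unfold Sys.ex
    rw [Finset.sum_empty, zero_dotProduct, add_zero]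
  have h2 : ((sg (S.ex (((0, ∅) : El S)).2 (((0, ∅) : El S)).1 p) : ℤ) : ℝ) = 1 := by
    show ((sg (S.ex ∅ 0 p) : ℤ) : ℝ) = 1
    rw [h1, sg_zero]
    norm_num
  rw [h2]
  norm_num

/-- a kernel sum with a given pattern of one kind -/
theorem bmn_FK (i : ZMod 2) (τ : S.P → ℝ) (s : ℝ) (D : Vd S V) (hw : ∀ t, D.w t = ∅)
    (he : ∀ t, D.e t = (0, ∅)) (Φ : Finset V → ℝ) (h1 : Φ {(0, i), (1, i)} = 1)
    (h0 : ∀ U, U ≠ {(0, i), (1, i)} → Φ U = 0) (g : S.T → S.T → ℝ)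
    (hg : ∀ z : Finset S.P × Finset S.P, Disjoint z.1 z.2 →
      ((sg (KE φ4 D (bmnE i z)) : ℤ) : ℝ) = g (S.tys z.1) (S.tys z.2)) :
    FK τ 1 s φ4 D Φ = bmnG τ g s := by
  classical
  unfold FK bmnG
  rw [← (bmnE_inj (P := S.P) i).tsum_eq]
  · refine tsum_congr fun z => ?_
    unfold Kt
    by_cases hd : Disjoint z.1 z.2
    · rw [if_pos (bmn_dj.2 hd)]
      by_cases hn : z.1.Nonempty ∧ z.2.Nonempty
      · rw [if_pos ⟨hd, hn⟩, bmn_patE.2 hn, h1, one_mul, hg z hd,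
          bmn_prod i _ (fun t ht => by rw [bmnE_ne _ ht, Finset.prod_empty]), bmnE_zero, bmnE_one]
        unfold bmnW
        congr 2
        · refine Finset.prod_congr rfl fun p _ => ?_
          rw [hw, he, bmn_hh]
        · refine Finset.prod_congr rfl fun p _ => ?_
          rw [hw, he, bmn_hh]
      · rw [if_neg (fun h => hn h.2), h0 _ (fun h => hn (bmn_patE.1 h)), zero_mul, zero_mul]
    · rw [if_neg (fun h => hd (bmn_dj.1 h)), if_neg (fun h => hd h.1)]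
  · intro x hx
    by_contra hr
    apply hx
    unfold Kt
    split_ifs with hdj
    · rw [h0 _ (fun h => hr (bmn_range h)), zero_mul, zero_mul]
    · rfl

theorem bmn_JJ (x : Finset S.P) : S.JJ x ∅ = 0 := by
  unfold Sys.JJ
  exact Finset.sum_eq_zero fun p _ => Finset.sum_empty

theorem bmn_JJ' (x : Finset S.P) : S.JJ ∅ x = 0 := Finset.sum_empty

theorem bmn_ex (γ : S.T) (x : Finset S.P) : ∑ p ∈ x, S.ex ∅ γ p = γ ⬝ᵥ S.tys x := by
  rw [S.sum_ex, bmn_JJ, zero_add]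

theorem bmn_phi (i : ZMod 2) : φ4 (0, i) (0, i) = 0 ∧ φ4 (1, i) (1, i) = 0 ∧
    φ4 (0, i) (1, i) = i ∧ φ4 (1, i) (0, i) = i := by
  revert i
  decide

/-- the exponent at a pair -/
theorem bmn_KE (i : ZMod 2) (D : Vd S V) (γ0 γ1 : S.T) (h0 : D.c (0, i) = (γ0, ∅))
    (h1 : D.c (1, i) = (γ1, ∅)) (z : Finset S.P × Finset S.P) (hd : Disjoint z.1 z.2) :
    KE φ4 D (bmnE i z) = i * ((S.l ⬝ᵥ S.tys z.1) * (S.l ⬝ᵥ S.tys z.2)) +
      (γ0 ⬝ᵥ S.tys z.1 + γ1 ⬝ᵥ S.tys z.2) := by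
  unfold KE
  rw [bmn_sum i (fun u => ∑ v, φ4 u v * S.JJ (bmnE i z u) (bmnE i z v)) (fun t ht => by
      rw [bmnE_ne _ ht]
      exact Finset.sum_eq_zero fun v _ => by rw [bmn_JJ', mul_zero]),
    bmn_sum i (fun v => φ4 (0, i) v * S.JJ (bmnE i z (0, i)) (bmnE i z v)) (fun t ht => by
      rw [bmnE_ne _ ht, bmn_JJ, mul_zero]),
    bmn_sum i (fun v => φ4 (1, i) v * S.JJ (bmnE i z (1, i)) (bmnE i z v)) (fun t ht => by
      rw [bmnE_ne _ ht, bmn_JJ, mul_zero]),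
    bmn_sum i (fun u => ∑ p ∈ bmnE i z u, S.ex (D.c u).2 (D.c u).1 p) (fun t ht => by
      rw [bmnE_ne _ ht, Finset.sum_empty]), bmnE_zero, bmnE_one, h0, h1]
  show φ4 (0, i) (0, i) * S.JJ z.1 z.1 + φ4 (0, i) (1, i) * S.JJ z.1 z.2 +
      (φ4 (1, i) (0, i) * S.JJ z.2 z.1 + φ4 (1, i) (1, i) * S.JJ z.2 z.2) +
      (∑ p ∈ z.1, S.ex ∅ γ0 p + ∑ p ∈ z.2, S.ex ∅ γ1 p) = _
  rw [bmn_ex, bmn_ex, ← S.JJ_recip hd]
  obtain ⟨h2, h3, h4, h5⟩ := bmn_phi i
  rw [h2, h3, h4, h5]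
  ring

end

end Pool.Agent.D8
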