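import Pool.Agent.D8.CDefs
import Pool.Agent.H32.MQ.HBase

/-!
# Malle's conjecture for the dihedral group of order 16 over number fields, row C12: a frame
adapted to a set of primes
-/

set_option autoImplicit false

open scoped BigOperators
open NumberField IsDedekindDomain

namespace Pool.Agent.D8

open Pool.Agent.H98.MF

section

variable {k : Type} [Field k] [NumberField k] (Fr : Frm k) (Rk : RxF k)

/-- the condition at the primes of the larger frame -/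
def carH (Fr' : Frm k) (R : Finset Fr.sys.P) (ρ : Gm k →* E8) : Prop :=
  ∀ p : Fr.sys.P, Fr.pl p ∈ Fr'.S → (ρ (Rk.tau (Fr.pl p)) ^ 2 ≠ 1 ↔ p ∈ R)

theorem car_iff (Fr' : Frm k) (R : Finset Fr.sys.P) (hS : Fr.S ⊆ Fr'.S)
    (hR : ∀ p ∈ R, Fr.pl p ∈ Fr'.S) (ρ : Gm k →* E8) :
    Rw Fr Rk ρ = (R : Set Fr.sys.P) ↔ carH Fr Rk Fr' R ρ ∧ Tm Fr' Rk ρ := by
  constructor
  · intro h
    have h1 : ∀ p : Fr.sys.P, ρ (Rk.tau (Fr.pl p)) ^ 2 ≠ 1 ↔ p ∈ R := by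
      intro p
      have h2 : p ∈ Rw Fr Rk ρ ↔ p ∈ (R : Set Fr.sys.P) := by rw [h]
      rw [Finset.mem_coe] at h2
      exact h2
    refine ⟨fun p _ => h1 p, fun q => ?_⟩
    have hq : Fr'.pl q ∉ Fr'.S := (Fr'.pl_iff _).1 ⟨q, rfl⟩
    obtain ⟨p, hp⟩ := (Fr.pl_iff (Fr'.pl q)).2 fun h' => hq (hS h')
    rw [← hp]
    by_contra hc
    apply hq
    rw [← hp]
    exact hR p ((h1 p).1 hc)
  · rintro ⟨h1, h2⟩
    ext p
    rw [Finset.mem_coe]
    show ρ (Rk.tau (Fr.pl p)) ^ 2 ≠ 1 ↔ p ∈ R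
    by_cases h3 : Fr.pl p ∈ Fr'.S
    · exact h1 p h3
    · obtain ⟨q, hq⟩ := (Fr'.pl_iff (Fr.pl p)).2 h3
      constructor
      · intro h4
        have h5 := h2 q
        rw [hq] at h5
        exact absurd h5 h4
      · intro h4
        exact absurd (hR p h4) h3

theorem cAR : ScAR Fr Rk := by
  intro Fr' R hS hR
  have hiff := car_iff Fr Rk Fr' R hS hR
  refine ⟨carH Fr Rk Fr' R, ?_, ?_, ?_⟩
  · intro ρ _ ρ' _ h
    have key : ∀ p : Fr.sys.P, Fr.pl p ∈ Fr'.S →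
        ρ (Rk.tau (Fr.pl p)) = ρ' (Rk.tau (Fr.pl p)) := by
      intro p hp
      refine h (Sum.inl (Fr.pl p)) ?_ _ ?_
      · unfold pls
        simp [hp]
      · exact (Rk.tf (Fr.pl p) (Pool.Agent.H32.MQ.hb_two Fr p)).decτ
    unfold carH
    refine forall_congr' fun p => forall_congr' fun hp => ?_
    rw [key p hp]
  · intro X
    ext ρ
    constructor
    · rintro ⟨h1, h2, h3⟩
      exact ⟨h1, ((hiff ρ).1 h2).1, ((hiff ρ).1 h2).2, h3⟩
    · rintro ⟨h1, h2, h3, h4⟩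
      exact ⟨h1, (hiff ρ).2 ⟨h2, h3⟩, h4⟩
  · rintro ⟨ρ, h1, h2⟩
    exact ⟨ρ, h1, (hiff ρ).1 h2⟩

end

end Pool.Agent.D8
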