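import Pool.Agent.D8.CDefs
import Pool.Agent.H32.MQ.KPt

/-!
# Malle's conjecture for the dihedral group of order 16 over number fields, row C13: the uniform
bound
-/

set_option autoImplicit false

open scoped BigOperators Topology
open NumberField IsDedekindDomain Filter

namespace Pool.Agent.D8

open Pool.Agent.H98.MK (sg)
open Pool.Agent.H98.MF
open Pool.Agent.H32.MQ (El rep DPole fsz)

section

variable {S : Sys}

private theorem cbd_Tk : Tk S 0 (fun _ => 1) := by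
  intro p
  refine ⟨zero_le_one, ?_⟩
  rw [sub_self, abs_zero, zero_mul]

private theorem cbd_mem {M : Finset S.P} {c : El S} (h : c ∈ elM M) : c.2 ⊆ M := by
  unfold elM at h
  exact Finset.mem_powerset.1 (Finset.mem_product.1 h).2

private theorem cbd_ad {M : Finset S.P} {c d : El S} (hc : c.2 ⊆ M) (hd : d.2 ⊆ M) :
    (ad c d).2 ⊆ M := by
  intro p hp
  have hp1 : p ∈ symmDiff c.2 d.2 := hp
  rw [Finset.mem_symmDiff] at hp1
  rcases hp1 with h | h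
  · exact hc h.1
  · exact hd h.1

private theorem cbd_ok (M : Finset S.P) {ca cb cv : El S} (ha : ca.2 ⊆ M) (hb : cb.2 ⊆ M)
    (hv : cv.2 ⊆ M) : (mkC ca cb cv).Ok M where
  f_sub i := by
    show (if i = 0 then ca else cb).2 ⊆ M
    split_ifs
    · exact ha
    · exact hb
  g_sub j := by
    show (if j = 0 then ad (S.l, ∅) (ad ca (ad cb cv)) else cv).2 ⊆ M
    split_ifs
    · exact cbd_ad (Finset.empty_subset _) (cbd_ad ha (cbd_ad hb hv))
    · exact hv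
  rel := by
    show ad (ad (if (0 : ZMod 2) = 0 then ca else cb) (if (1 : ZMod 2) = 0 then ca else cb))
      (ad (if (0 : ZMod 2) = 0 then ad (S.l, ∅) (ad ca (ad cb cv)) else cv)
        (if (1 : ZMod 2) = 0 then ad (S.l, ∅) (ad ca (ad cb cv)) else cv)) = (S.l, ∅)
    have h1 : ¬ (1 : ZMod 2) = 0 := by decide
    simp only [if_true, if_neg h1]
    unfold ad
    refine Prod.ext ?_ ?_
    · show ca.1 + cb.1 + (S.l + (ca.1 + (cb.1 + cv.1)) + cv.1) = S.l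
      funext j
      show ca.1 j + cb.1 j + (S.l j + (ca.1 j + (cb.1 j + cv.1 j)) + cv.1 j) = S.l j
      have h2 : ∀ a b c l : ZMod 2, a + b + (l + (a + (b + c)) + c) = l := by decide
      exact h2 _ _ _ _
    · show symmDiff (symmDiff ca.2 cb.2)
        (symmDiff (symmDiff ∅ (symmDiff ca.2 (symmDiff cb.2 cv.2))) cv.2) = ∅
      ext p
      simp only [Finset.mem_symmDiff, Finset.notMem_empty]
      tauto

private theorem cbd_card (M : Finset S.P) :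
    ((elM M : Finset (El S)).card : ℝ) = 2 ^ S.m * 2 ^ M.card := by
  unfold elM
  rw [Finset.card_product, Finset.card_powerset, Finset.card_univ]
  have h1 : Fintype.card S.T = 2 ^ S.m := by
    have h2 : Fintype.card (Fin S.m → ZMod 2) = 2 ^ S.m := by
      rw [Fintype.card_fun, ZMod.card, Fintype.card_fin]
    exact h2
  rw [h1]
  push_cast
  ring

private theorem cbd_nx_one (x : V → Finset S.P) : (1 : ℝ) ≤ (nx x : ℝ) := by
  unfold nx
  have h : 1 ≤ ∏ u, S.nm (x u) := Finset.one_le_prod' fun u _ => S.one_le_nm (x u)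
  exact_mod_cast h

/-- the mass at `1 + σ` and at `1` -/
private theorem cbd_ms (M : Finset S.P) (c : Co S) (σ : ℝ) (x : V → Finset S.P) :
    ms (fun _ => 1) M c 1 x = (nx x : ℝ) ^ σ * ms (fun _ => 1) M c (1 + σ) x := by
  classical
  unfold ms
  by_cases h : Adm M c x
  · rw [if_pos h, if_pos h]
    have h1 : (nx x : ℝ) ^ σ = ∏ u, ∏ p ∈ x u, (S.N p : ℝ) ^ σ := by
      unfold nx
      rw [Nat.cast_prod, ← Real.finsetProd_rpow _ _ (fun u _ => Nat.cast_nonneg _)]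
      refine Finset.prod_congr rfl fun u _ => ?_
      unfold Pre.nm
      rw [Nat.cast_prod, ← Real.finsetProd_rpow _ _ (fun p _ => Nat.cast_nonneg _)]
    rw [h1, ← Finset.prod_mul_distrib]
    refine Finset.prod_congr rfl fun u _ => ?_
    rw [← Finset.prod_mul_distrib]
    refine Finset.prod_congr rfl fun p _ => ?_
    have hN : (0 : ℝ) < S.N p := by
      have := S.two_le p
      have h2 : 0 < S.N p := by omega
      exact_mod_cast h2
    have h3 : -(1 + σ) = -1 - σ := by ring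
    rw [h3, Real.rpow_sub hN]
    have h4 : (S.N p : ℝ) ^ σ ≠ 0 := (Real.rpow_pos_of_pos hN _).ne'
    field_simp
  · rw [if_neg h, if_neg h, mul_zero]

private theorem cbd_ms_nn (M : Finset S.P) (c : Co S) (s : ℝ) (x : V → Finset S.P) :
    0 ≤ ms (fun _ => 1) M c s x := by
  unfold ms
  split_ifs
  · exact Finset.prod_nonneg fun u _ => Finset.prod_nonneg fun p _ =>
      mul_nonneg (by norm_num) (Real.rpow_nonneg (Nat.cast_nonneg _) _)
  · exact le_rfl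

private theorem cbd_num (n Y : ℝ) (hn : 1 ≤ n) (hnY : n ≤ Y) :
    n ^ (1 / max 1 (Real.log Y)) ≤ Real.exp 1 := by
  have hn0 : 0 < n := by linarith
  have hm : 0 < max 1 (Real.log Y) := lt_of_lt_of_le one_pos (le_max_left _ _)
  have h2 : Real.log n ≤ max 1 (Real.log Y) :=
    (Real.log_le_log hn0 hnY).trans (le_max_right _ _)
  rw [Real.rpow_def_of_pos hn0]
  refine Real.exp_le_exp.2 ?_
  rw [mul_one_div]
  exact (div_le_one hm).2 h2

open Classical in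
/-- the truncated mass -/
private theorem cbd_tr (M : Finset S.P) (c : Co S) (Y : ℝ)
    (hs : Summable fun x : V → Finset S.P =>
      ms (fun _ => 1) M c (1 + 1 / max 1 (Real.log Y)) x) :
    ∑' x : V → Finset S.P, (if (nx x : ℝ) ≤ Y then ms (fun _ => 1) M c 1 x else 0) ≤
      Real.exp 1 * ∑' x : V → Finset S.P, ms (fun _ => 1) M c (1 + 1 / max 1 (Real.log Y)) x := by
  have h1 : ∀ x : V → Finset S.P, (if (nx x : ℝ) ≤ Y then ms (fun _ => 1) M c 1 x else 0) ≤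
      Real.exp 1 * ms (fun _ => 1) M c (1 + 1 / max 1 (Real.log Y)) x := by
    intro x
    split_ifs with h
    · rw [cbd_ms M c (1 / max 1 (Real.log Y)) x]
      exact mul_le_mul_of_nonneg_right (cbd_num _ _ (cbd_nx_one x) h) (cbd_ms_nn _ _ _ _)
    · exact mul_nonneg (Real.exp_pos 1).le (cbd_ms_nn _ _ _ _)
  have h0 : ∀ x : V → Finset S.P,
      0 ≤ (if (nx x : ℝ) ≤ Y then ms (fun _ => 1) M c 1 x else 0) := by
    intro x
    split_ifs
    · exact cbd_ms_nn _ _ _ _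
    · exact le_rfl
  have h2 := hs.mul_left (Real.exp 1)
  rw [← tsum_mul_left]
  exact Summable.tsum_le_tsum h1 (Summable.of_nonneg_of_le h0 h1 h2) h2

private theorem cbd_log (X : ℝ) (hX : 2 ≤ X) :
    (1 / max 1 (Real.log (X ^ (1 / 8 : ℝ)))) ^ (-(2 : ℝ)) ≤ 4 * Real.log X ^ 2 := by
  have hX0 : 0 < X := by linarith
  have hl2 : 0.6931471803 < Real.log 2 := Real.log_two_gt_d9
  have hlX : Real.log 2 ≤ Real.log X := Real.log_le_log (by norm_num) hX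
  have hl : Real.log (X ^ (1 / 8 : ℝ)) = 1 / 8 * Real.log X := Real.log_rpow hX0 _
  have hm : 0 < max 1 (Real.log (X ^ (1 / 8 : ℝ))) := lt_of_lt_of_le one_pos (le_max_left _ _)
  have h1 : (1 / max 1 (Real.log (X ^ (1 / 8 : ℝ)))) ^ (-(2 : ℝ)) =
      (max 1 (Real.log (X ^ (1 / 8 : ℝ)))) ^ 2 := by
    rw [one_div (max 1 (Real.log (X ^ (1 / 8 : ℝ)))), Real.rpow_neg (inv_nonneg.2 hm.le),
      Real.inv_rpow hm.le, inv_inv]
    exact_mod_cast Real.rpow_natCast (max 1 (Real.log (X ^ (1 / 8 : ℝ)))) 2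
  rw [h1]
  have h2 : max 1 (Real.log (X ^ (1 / 8 : ℝ))) ≤ 2 * Real.log X := by
    rw [hl]
    exact max_le (by linarith) (by linarith)
  calc (max 1 (Real.log (X ^ (1 / 8 : ℝ)))) ^ 2 ≤ (2 * Real.log X) ^ 2 :=
        pow_le_pow_left₀ hm.le h2 2
    _ = 4 * Real.log X ^ 2 := by ring

end

/-- C13: the uniform bound -/
theorem cBd {k : Type} [Field k] [NumberField k] (Fr : Frm k) (Rk : RxF k) (h1 : ScU0 Fr Rk)
    (h2 : SUD) : ScBd Fr Rk := by
  classical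
  obtain ⟨C0, hC0, hU⟩ := h1
  obtain ⟨C1, hC1, hD⟩ := h2 Fr.sys 0 (1 / 8) (by norm_num)
  obtain ⟨C2, hC2⟩ := Pool.Agent.H32.MQ.kpt_sixteen Fr.sys (1 / 16) (by norm_num)
  have hC2' : 0 ≤ C2 := by
    have h := hC2 ∅
    have h3 : (16 : ℝ) ^ (∅ : Finset Fr.sys.P).card = 1 := by rw [Finset.card_empty, pow_zero]
    rw [h3] at h
    by_contra h4
    push Not at h4
    have h5 : C2 * (Fr.sys.nm ∅ : ℝ) ^ (1 / 16 : ℝ) ≤ 0 :=
      mul_nonpos_of_nonpos_of_nonneg h4.le (Real.rpow_nonneg (Nat.cast_nonneg _) _)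
    linarith
  refine ⟨C0 * (2 ^ Fr.sys.m) ^ 3 * (Real.exp 1 * C1) * 4 * C2 ^ 2, by positivity, ?_⟩
  intro R X hX
  obtain ⟨hfin, hle⟩ := hU R X (by linarith)
  refine ⟨hfin, hle.trans ?_⟩
  have hX0 : 0 < X := by linarith
  set Y : ℝ := X ^ (1 / 8 : ℝ) with hY
  set σ : ℝ := 1 / max 1 (Real.log Y) with hσ
  have hm : 0 < max 1 (Real.log Y) := lt_of_lt_of_le one_pos (le_max_left _ _)
  have hσ0 : 0 < σ := by positivity
  have hσ1 : σ ≤ 1 := by
    rw [hσ, div_le_one hm]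
    exact le_max_left _ _
  have hn1 : (1 : ℝ) ≤ Fr.sys.nm R := Fr.sys.one_le_nmr R
  have hn0 : (0 : ℝ) < Fr.sys.nm R := by linarith
  have hY0 : 0 ≤ Y := Real.rpow_nonneg hX0.le _
  set T : ℝ := Real.exp 1 * (C1 * (Fr.sys.nm R : ℝ) ^ (1 / 8 : ℝ) * (4 * Real.log X ^ 2)) with hT
  have hterm : ∀ ca ∈ elM R, ∀ cb ∈ elM R, ∀ cv ∈ elM R, ∑' x : V → Finset Fr.sys.P,
      (if (nx x : ℝ) ≤ Y then ms (fun _ => 1) R (mkC ca cb cv) 1 x else 0) ≤ T := by
    intro ca hca cb hcb cv hcv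
    obtain ⟨e1, e2⟩ := hD (fun _ => 1) R (mkC ca cb cv) cbd_Tk
      (cbd_ok R (cbd_mem hca) (cbd_mem hcb) (cbd_mem hcv)) σ hσ0 hσ1
    refine (cbd_tr R (mkC ca cb cv) Y e1).trans ?_
    refine mul_le_mul_of_nonneg_left (e2.trans ?_) (Real.exp_pos 1).le
    exact mul_le_mul_of_nonneg_left (cbd_log X hX)
      (mul_nonneg hC1 (Real.rpow_nonneg hn0.le _))
  have hsum : ∑ ca ∈ elM R, ∑ cb ∈ elM R, ∑ cv ∈ elM R, ∑' x : V → Finset Fr.sys.P,
      (if (nx x : ℝ) ≤ Y then ms (fun _ => 1) R (mkC ca cb cv) 1 x else 0) ≤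
        (2 ^ Fr.sys.m * 2 ^ R.card) ^ 3 * T := by
    have e3 : ∀ ca ∈ elM R, ∀ cb ∈ elM R, ∑ cv ∈ elM R, ∑' x : V → Finset Fr.sys.P,
        (if (nx x : ℝ) ≤ Y then ms (fun _ => 1) R (mkC ca cb cv) 1 x else 0) ≤
          (2 ^ Fr.sys.m * 2 ^ R.card) * T := by
      intro ca hca cb hcb
      refine (Finset.sum_le_card_nsmul _ _ T fun cv hcv => hterm ca hca cb hcb cv hcv).trans ?_
      rw [nsmul_eq_mul, cbd_card]
    have e4 : ∀ ca ∈ elM R, ∑ cb ∈ elM R, ∑ cv ∈ elM R, ∑' x : V → Finset Fr.sys.P,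
        (if (nx x : ℝ) ≤ Y then ms (fun _ => 1) R (mkC ca cb cv) 1 x else 0) ≤
          (2 ^ Fr.sys.m * 2 ^ R.card) * ((2 ^ Fr.sys.m * 2 ^ R.card) * T) := by
      intro ca hca
      refine (Finset.sum_le_card_nsmul _ _ _ fun cb hcb => e3 ca hca cb hcb).trans ?_
      rw [nsmul_eq_mul, cbd_card]
    refine (Finset.sum_le_card_nsmul _ _ _ fun ca hca => e4 ca hca).trans ?_
    rw [nsmul_eq_mul, cbd_card]
    exact le_of_eq (by ring)
  have hpre : 0 ≤ C0 * 16 ^ R.card * (Fr.sys.nm R : ℝ) ^ (-(3 / 2) : ℝ) * Y := by positivity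
  refine (mul_le_mul_of_nonneg_left hsum hpre).trans ?_
  have hcard : (16 : ℝ) ^ R.card * (2 ^ R.card) ^ 3 ≤ C2 ^ 2 * (Fr.sys.nm R : ℝ) ^ (1 / 8 : ℝ) := by
    have e5 : (16 : ℝ) ^ R.card * (2 ^ R.card) ^ 3 ≤ (16 ^ R.card) ^ 2 := by
      have e6 : ((2 : ℝ) ^ R.card) ^ 3 = 8 ^ R.card := by
        rw [← pow_mul, mul_comm R.card 3, pow_mul]
        norm_num
      rw [e6, pow_two]
      exact mul_le_mul_of_nonneg_left (pow_le_pow_left₀ (by norm_num) (by norm_num) _)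
        (by positivity)
    refine e5.trans ?_
    have e7 := hC2 R
    calc ((16 : ℝ) ^ R.card) ^ 2 ≤ (C2 * (Fr.sys.nm R : ℝ) ^ (1 / 16 : ℝ)) ^ 2 :=
          pow_le_pow_left₀ (by positivity) e7 2
      _ = C2 ^ 2 * (Fr.sys.nm R : ℝ) ^ (1 / 8 : ℝ) := by
          rw [mul_pow, ← Real.rpow_natCast ((Fr.sys.nm R : ℝ) ^ (1 / 16 : ℝ)) 2,
            ← Real.rpow_mul hn0.le]
          norm_num
  have hexp : (Fr.sys.nm R : ℝ) ^ (-(5 / 4) : ℝ) = (Fr.sys.nm R : ℝ) ^ (-(3 / 2) : ℝ) *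
      (Fr.sys.nm R : ℝ) ^ (1 / 8 : ℝ) * (Fr.sys.nm R : ℝ) ^ (1 / 8 : ℝ) := by
    rw [← Real.rpow_add hn0, ← Real.rpow_add hn0]
    norm_num
  have hfac : 0 ≤ C0 * (2 ^ Fr.sys.m) ^ 3 * (Real.exp 1 * C1) * 4 *
      (Fr.sys.nm R : ℝ) ^ (-(3 / 2) : ℝ) * (Fr.sys.nm R : ℝ) ^ (1 / 8 : ℝ) *
      (Y * Real.log X ^ 2) := by positivity
  calc C0 * 16 ^ R.card * (Fr.sys.nm R : ℝ) ^ (-(3 / 2) : ℝ) * Y *
        ((2 ^ Fr.sys.m * 2 ^ R.card) ^ 3 * T)
      = (C0 * (2 ^ Fr.sys.m) ^ 3 * (Real.exp 1 * C1) * 4 *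
          (Fr.sys.nm R : ℝ) ^ (-(3 / 2) : ℝ) * (Fr.sys.nm R : ℝ) ^ (1 / 8 : ℝ) *
          (Y * Real.log X ^ 2)) * (16 ^ R.card * (2 ^ R.card) ^ 3) := by
        rw [hT]
        ring
    _ ≤ (C0 * (2 ^ Fr.sys.m) ^ 3 * (Real.exp 1 * C1) * 4 *
          (Fr.sys.nm R : ℝ) ^ (-(3 / 2) : ℝ) * (Fr.sys.nm R : ℝ) ^ (1 / 8 : ℝ) *
          (Y * Real.log X ^ 2)) * (C2 ^ 2 * (Fr.sys.nm R : ℝ) ^ (1 / 8 : ℝ)) :=
        mul_le_mul_of_nonneg_left hcard hfac
    _ = _ := by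
        rw [hexp]
        ring

end Pool.Agent.D8
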