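import Pool.Agent.D8.CDefs
import Pool.Agent.D8.ARp
import Pool.Agent.H98.MF.C.Main

/-!
# Malle's conjecture for the dihedral group of order 16: vanishing of the function `R`
-/

set_option autoImplicit false

open scoped BigOperators Topology
open NumberField IsDedekindDomain Filter

namespace Pool.Agent.D8

open Pool.Agent.H98.MK (sg)
open Pool.Agent.H98.MF
open Pool.Agent.H32.MQ (El rep DPole fsz)

/-- the function `R` vanishes unless the first conditions hold -/
theorem cC1 {k : Type} [Field k] [NumberField k] (Fr : Frm k) (Rk : RxF k) (h : SaSl k) :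
    ScC1 Fr Rk := by
  intro G c hD hR
  unfold Rf at hR
  by_cases hex : ∃ f, IsL Fr Rk (c.ea (Fr := Fr)) c.eb ∅ f
  · obtain ⟨f, hf⟩ := hex
    exact arp_C1 (B.lin k) c hD ((h _ _).1 ⟨f, hf.1⟩)
  · rw [dif_neg hex] at hR
    exact absurd rfl hR

end Pool.Agent.D8
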