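import Pool.Agent.D8.CDefs
import Pool.Agent.D8.AKum
import Pool.Agent.H98.MF.ChiM
import Pool.Agent.H32.MQ.HBase

/-!
# Malle's conjecture for the dihedral group of order 16 over number fields, row C4: the
decomposition of the count
-/

set_option autoImplicit false

open scoped BigOperators Topology
open NumberField IsDedekindDomain Filter

namespace Pool.Agent.D8

open Pool.Agent.H98.MK (sg)
open Pool.Agent.H98.MF
open Pool.Agent.H32.MQ (El rep fsz h_coU)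

/-- the cardinality of a disjoint union -/
theorem cdec_card {α ι : Type} (I : Finset ι) (s : ι → Set α) (S : Set α)
    (hs : ∀ i ∈ I, (s i).Finite) (hd : ∀ i ∈ I, ∀ j ∈ I, ∀ x, x ∈ s i → x ∈ s j → i = j)
    (hS : ∀ x, x ∈ S ↔ ∃ i ∈ I, x ∈ s i) :
    S.Finite ∧ (S.ncard : ℝ) = ∑ i ∈ I, ((s i).ncard : ℝ) := by
  classical
  have h1 : S = ⋃ i ∈ (I : Set ι), s i := by
    ext x
    rw [hS, Set.mem_iUnion₂]
    simp only [Finset.mem_coe, exists_prop]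
  refine ⟨?_, ?_⟩
  · rw [h1]
    exact I.finite_toSet.biUnion hs
  · have h2 : (I : Set ι).PairwiseDisjoint s := by
      intro i hi j hj hij
      rw [Function.onFun, Set.disjoint_left]
      exact fun x hx hx' => hij (hd i hi j hj x hx hx')
    rw [h1, Set.Finite.ncard_biUnion I.finite_toSet hs h2, finsum_mem_coe_finset, Nat.cast_sum]

theorem cdec_rt {X q N : ℝ} (hX : 0 ≤ X) (hq : 1 ≤ q) (hN : 0 ≤ N) :
    q * N ^ 8 ≤ X ↔ N ≤ (X / q) ^ (1 / 8 : ℝ) := by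
  have hq0 : 0 < q := by linarith
  have h0 : 0 ≤ X / q := by positivity
  have h1 : ((X / q) ^ (1 / 8 : ℝ)) ^ 8 = X / q := by
    rw [← Real.rpow_natCast, ← Real.rpow_mul h0]
    norm_num
  have h2 : q * N ^ 8 ≤ X ↔ N ^ 8 ≤ X / q := by
    rw [le_div_iff₀ hq0, mul_comm]
  rw [h2]
  conv_lhs => rw [← h1]
  exact pow_le_pow_iff_left₀ hN (by positivity) (by norm_num)

theorem cdec_fsz {X : Type} {n : X → ℕ} (hf : ∀ N : ℕ, {x | n x ≤ N}.Finite) {u : ℝ}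
    (hu : 0 ≤ u) {x : X} : x ∈ fsz hf u ↔ (n x : ℝ) ≤ u := by
  unfold fsz
  rw [Set.Finite.mem_toFinset, Set.mem_setOf_eq]
  exact Nat.le_floor_iff hu

section

variable {k : Type} [Field k] [NumberField k]

theorem cdec_sq {x : kˣ} (h : IsSquare x) (σ : Gm k) : chi (x : k) σ = 0 := by
  obtain ⟨r, rfl⟩ := h
  rw [M6a.chi_mul]
  exact CharTwo.add_self_eq_zero _

variable {Fr : Frm k}

theorem cdec_uniq {z z' : Pq Fr.sys} {ρ : Gm k →* E8} (h : Ov (pe z) (pf z) ρ)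
    (h' : Ov (pe z') (pf z') ρ) : z = z' := by
  have h1 : IsSquare (pe z * pe z') := akui k _ _ fun σ => by rw [← (h σ).1, (h' σ).1]
  have h2 : IsSquare (pf z * pf z') := akui k _ _ fun σ => by rw [← (h σ).2, (h' σ).2]
  have e1 := h_coU Fr _ _ h1
  have e2 := h_coU Fr _ _ h2
  rw [Prod.mk.injEq] at e1 e2
  exact Prod.ext (Prod.ext e1.2 e2.2) (Prod.ext e1.1 e2.1)

theorem cdec_nd {z : Pq Fr.sys} {ρ : Gm k →* E8} (hρ : ρ ∈ Hs k) (h : Ov (pe z) (pf z) ρ)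
    (hd : Disjoint z.1.1 z.1.2) : Nd z := by
  refine ⟨hd, fun hs => ?_, fun hs => ?_, fun hs => ?_⟩
  · obtain ⟨σ, hσ⟩ := hρ.1 (E8.mk4 1 0 0 0)
    have h1 := (h σ).1
    rw [hσ, cdec_sq hs σ] at h1
    exact absurd h1 (by decide)
  · obtain ⟨σ, hσ⟩ := hρ.1 (E8.mk4 0 1 0 0)
    have h1 := (h σ).2
    rw [hσ, cdec_sq hs σ] at h1
    exact absurd h1 (by decide)
  · obtain ⟨σ, hσ⟩ := hρ.1 (E8.mk4 1 0 0 0)
    have h1 := cdec_sq hs σ
    rw [M6a.chi_mul, ← (h σ).1, ← (h σ).2, hσ] at h1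
    exact absurd h1 (by decide)

end

theorem cDec {k : Type} [Field k] [NumberField k] (Fr : Frm k) (Rk : RxF k)
    (h1 : ScDis Fr Rk) (h2 : ScQ1 Fr Rk) (h3 : SaCnt Fr Rk) (h4 : ScQf Fr Rk) :
    ScDec Fr Rk := by
  classical
  intro H hH Q hQ X hX
  have hX0 : 0 ≤ X := by linarith
  have hY0 : ∀ q : ℕ, 0 ≤ (X / q) ^ (1 / 8 : ℝ) := fun q => by positivity
  have hn1 : ∀ z : Pq Fr.sys, (1 : ℝ) ≤ nq z := fun z => by
    have h5 := Fr.sys.one_le_nm z.1.1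
    have h6 := Fr.sys.one_le_nm z.1.2
    have h7 : 1 ≤ nq z := Nat.mul_pos h5 h6
    exact_mod_cast h7
  have key := cdec_card (Q.sigma fun q => fsz (fin_nq Fr) ((X / q) ^ (1 / 8 : ℝ)))
    (fun x => {ρ | Nd x.2 ∧ ρ ∈ Cs Fr Rk (fun ρ => H ρ ∧ qE Fr Rk ρ = x.1) x.2.1.1 x.2.1.2
      x.2.2.1 x.2.2.2 ((X / x.1) ^ (1 / 8 : ℝ) / (nq x.2 : ℝ))})
    (HH Fr Rk H X) ?_ ?_ ?_
  · refine ⟨key.1, key.2.trans ?_⟩
    rw [Finset.sum_sigma]
    refine Finset.sum_congr rfl fun q _ => Finset.sum_congr rfl fun z _ => ?_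
    by_cases hz : Nd z
    · rw [if_pos hz]
      simp only [hz, true_and, Set.setOf_mem_eq]
    · rw [if_neg hz]
      simp only [hz, false_and, Set.setOf_false, Set.ncard_empty, Nat.cast_zero]
  · rintro ⟨q, z⟩ hi
    rw [Finset.mem_sigma] at hi
    have hz : (nq z : ℝ) ≤ (X / q) ^ (1 / 8 : ℝ) := (cdec_fsz _ (hY0 q)).1 hi.2
    by_cases hnd : Nd z
    · refine Set.Finite.subset (h3 _ (h4.2 H hH q) z.1.1 z.1.2 z.2.1 z.2.2
        ((X / q) ^ (1 / 8 : ℝ) / (nq z : ℝ)) hnd.dj hnd.na hnd.nb hnd.nab ?_).1 fun ρ hρ => hρ.2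
      rw [one_le_div (by linarith [hn1 z])]
      exact hz
    · refine Set.Finite.subset Set.finite_empty fun ρ hρ => ?_
      exact absurd hρ.1 hnd
  · rintro ⟨q, z⟩ - ⟨q', z'⟩ - ρ ⟨-, -, ho, hq, -⟩ ⟨-, -, ho', hq', -⟩
    have e1 : z = z' := cdec_uniq ho ho'
    have e2 : q = q' := hq.2.symm.trans hq'.2
    rw [e1, e2]
  · intro ρ
    have hq1 : (1 : ℝ) ≤ qE Fr Rk ρ := by exact_mod_cast h2 ρ
    constructor
    · rintro ⟨hρ, hHρ, hT, hXρ⟩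
      obtain ⟨A, B, c, ua, ub, hov, hAB, hc, hin⟩ := h1.2 ρ hρ hT
      obtain ⟨-, hd⟩ := h1.1 ρ hρ A B c ua ub hov hAB hc hin
      have hN : (Fr.sys.nm A * Fr.sys.nm B * Fr.sys.nm c : ℝ) ≤
          (X / qE Fr Rk ρ) ^ (1 / 8 : ℝ) := by
        refine (cdec_rt hX0 hq1 (by positivity)).1 ?_
        rw [hd] at hXρ
        push_cast at hXρ
        exact hXρ
      have hc1 : (1 : ℝ) ≤ Fr.sys.nm c := Fr.sys.one_le_nmr c
      have hz1 : (1 : ℝ) ≤ nq (S := Fr.sys) ((A, B), (ua, ub)) := hn1 _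
      have hz2 : (nq (S := Fr.sys) ((A, B), (ua, ub)) : ℝ) = Fr.sys.nm A * Fr.sys.nm B := by
        unfold nq
        push_cast
        rfl
      refine ⟨⟨qE Fr Rk ρ, ((A, B), (ua, ub))⟩, ?_, ?_, hρ, hov, ⟨hHρ, rfl⟩, c, ?_, hc, hin⟩
      · rw [Finset.mem_sigma]
        refine ⟨hQ ρ hρ, (cdec_fsz _ (hY0 _)).2 (le_trans ?_ hN)⟩
        rw [← hz2]
        exact le_mul_of_one_le_right (by linarith) hc1
      · exact cdec_nd hρ hov hAB
      · rw [Fr.sys.mem_bx, le_div_iff₀ (by linarith), hz2]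
        linarith
    · rintro ⟨⟨q, z⟩, -, hnd, hρ, hov, ⟨hHρ, hq⟩, c, hc, hcd, hin⟩
      obtain ⟨hT, hd⟩ := h1.1 ρ hρ z.1.1 z.1.2 c z.2.1 z.2.2 hov hnd.dj hcd hin
      refine ⟨hρ, hHρ, hT, ?_⟩
      have hq' : qE Fr Rk ρ = q := hq
      rw [Fr.sys.mem_bx] at hc
      have hc' : (Fr.sys.nm c : ℝ) ≤ (X / q) ^ (1 / 8 : ℝ) / (nq z : ℝ) := hc
      rw [le_div_iff₀ (by linarith [hn1 z]), ← hq'] at hc'
      have hz2 : (nq z : ℝ) = Fr.sys.nm z.1.1 * Fr.sys.nm z.1.2 := by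
        unfold nq
        push_cast
        rfl
      rw [hd]
      push_cast
      refine (cdec_rt hX0 hq1 (by positivity)).2 ?_
      rw [hz2] at hc'
      linarith

end Pool.Agent.D8
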