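import Pool.Agent.D8.Stm
import Pool.Agent.D8.AStm
import Pool.Agent.H32.MQ.TStm
import Pool.Agent.H32.MZ.KDefs

/-!
# Malle's conjecture for the dihedral group of order 16 over number fields: definitions and
statements of the assembly (part C)
-/

set_option autoImplicit false

open scoped BigOperators Topology
open NumberField IsDedekindDomain Filter

namespace Pool.Agent.D8

open Pool.Agent.H98.MK (sg)
open Pool.Agent.H98.MF
open Pool.Agent.H32.MQ (El rep DPole fsz)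
open Pool.Agent.H32.MA (pind mInd bM)
open Pool.Agent.H32.MZ (NK MalleK)

/-! ### the theorem -/

/-- the dihedral group of order 16 in its regular representation: the points are
`x + 8 e` for the maps `y ↦ (-1) ^ e y + x` of `ZMod 8`; generators: left multiplication by
`y ↦ y + 1` and by `y ↦ -y` -/
def R8 : Subgroup (Equiv.Perm (Fin 16)) :=
  Subgroup.closure {
    (Equiv.swap 0 1 * Equiv.swap 1 2 * Equiv.swap 2 3 * Equiv.swap 3 4 * Equiv.swap 4 5 *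
      Equiv.swap 5 6 * Equiv.swap 6 7) *
    (Equiv.swap 8 9 * Equiv.swap 9 10 * Equiv.swap 10 11 * Equiv.swap 11 12 * Equiv.swap 12 13 *
      Equiv.swap 13 14 * Equiv.swap 14 15),
    Equiv.swap 0 8 * Equiv.swap 1 15 * Equiv.swap 2 14 * Equiv.swap 3 13 * Equiv.swap 4 12 *
      Equiv.swap 5 11 * Equiv.swap 6 10 * Equiv.swap 7 9}

section

variable {k : Type} [Field k] [NumberField k]

/-- the norm of the relative discriminant of the fixed field of the kernel -/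
noncomputable def dN (ρ : Gm k →* E8) : ℕ := rdN (fld k ρ.ker)

variable (Fr : Frm k) (Rk : RxF k)

/-- the part at the primes of `S` -/
noncomputable def qE (ρ : Gm k →* E8) : ℕ := ∏ P ∈ Fr.S, nrm P ^ Rk.rex P ρ.ker

/-- the inertia outside `S` has order at most two -/
def Tm (ρ : Gm k →* E8) : Prop := ∀ p : Fr.sys.P, ρ (Rk.tau (Fr.pl p)) ^ 2 = 1

/-- the homomorphisms satisfying `H` with inertia of order at most two outside `S` and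
discriminant of norm at most `X` -/
def HH (H : (Gm k →* E8) → Prop) (X : ℝ) : Set (Gm k →* E8) :=
  {ρ | ρ ∈ Hs k ∧ H ρ ∧ Tm Fr Rk ρ ∧ (dN ρ : ℝ) ≤ X}

/-- pairs: the primes and the unit coordinates of `a` and `b` -/
abbrev Pq (S : Sys) : Type := (Finset S.P × Finset S.P) × (S.T × S.T)

/-- the norm of a pair -/
noncomputable def nq {S : Sys} (z : Pq S) : ℕ := S.nm z.1.1 * S.nm z.1.2

variable {Fr}

/-- the element `a` of a pair -/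
noncomputable def pe (z : Pq Fr.sys) : kˣ := rep Fr (z.2.1, z.1.1)

/-- the element `b` of a pair -/
noncomputable def pf (z : Pq Fr.sys) : kˣ := rep Fr (z.2.2, z.1.2)

/-- disjoint sets of primes, `a`, `b`, `ab` not squares -/
structure Nd (z : Pq Fr.sys) : Prop where
  dj : Disjoint z.1.1 z.1.2
  na : ¬ IsSquare (pe z)
  nb : ¬ IsSquare (pf z)
  nab : ¬ IsSquare (pe z * pf z)

variable (Fr)

/-- pairs of bounded norm are finitely many -/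
theorem fin_nq (N : ℕ) : {z : Pq Fr.sys | nq z ≤ N}.Finite := by
  classical
  refine Set.Finite.subset (Finset.finite_toSet
    ((Fr.sys.bx N ×ˢ Fr.sys.bx N) ×ˢ (Finset.univ : Finset (Fr.sys.T × Fr.sys.T)))) ?_
  intro z hz
  have hz1 : Fr.sys.nm z.1.1 * Fr.sys.nm z.1.2 ≤ N := hz
  have h1 := Fr.sys.one_le_nm z.1.1
  have h2 := Fr.sys.one_le_nm z.1.2
  rw [Finset.mem_coe, Finset.mem_product, Finset.mem_product]
  refine ⟨⟨Fr.sys.mem_bx.2 ?_, Fr.sys.mem_bx.2 ?_⟩, Finset.mem_univ _⟩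
  · exact_mod_cast (Nat.le_mul_of_pos_right _ h2).trans hz1
  · exact_mod_cast (Nat.le_mul_of_pos_left _ h1).trans hz1

/-- the weight of a pair -/
noncomputable def NGz (G : LDt k) (z : Pq Fr.sys) : ℝ :=
  NG Fr Rk G (pe z) (pf z) (z.1.1 ∪ z.1.2)

open Classical in
/-- the coefficients of the Dirichlet series with weight `τ` -/
noncomputable def bz (τ : Fr.sys.P → ℝ) (G : LDt k) (z : Pq Fr.sys) : ℝ :=
  if Nd z then NGz Fr Rk G z * (∏ p ∈ z.1.1 ∪ z.1.2, τ p) / (nq z : ℝ) else 0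

/-- the weight `(1 + 1/N)⁻¹` -/
noncomputable def tg (p : Fr.sys.P) : ℝ := (1 + 1 / (Fr.sys.N p : ℝ))⁻¹

/-- the weight of the loss function `hs` -/
noncomputable def th (p : Fr.sys.P) : ℝ := (1 - (Fr.sys.N p : ℝ) ^ (-(1 / 2) : ℝ))⁻¹

open Classical in
/-- the coefficient function for the analytic part -/
noncomputable def RG (G : LDt k) (a b v : Fr.sys.T) (x : V → Finset Fr.sys.P) : ℝ :=
  if (a = 0 ∧ sid x 0 = ∅) ∨ (b = 0 ∧ sid x 1 = ∅) then 0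
  else Rf Fr Rk G ⟨x (0, 1), x (0, 0), x (1, 1), x (1, 0), a, b, v⟩

/-- solvable pairs with a local twist where `G` does not vanish -/
def PosG (G : LDt k) (A B : Finset Fr.sys.P) (ua ub : Fr.sys.T) : Prop :=
  Disjoint A B ∧ ∃ f, IsL Fr Rk (rep Fr (ua, A)) (rep Fr (ub, B)) ∅ f ∧
    ∃ y z : Fr.sys.T, G (dat (rep Fr (ua, A)) (rep Fr (ub, B))
      fun σ => f σ + chi (cl Fr y z : k) σ) ≠ 0

/-- the classes supported on `M` -/
noncomputable def elM {S : Sys} (M : Finset S.P) : Finset (El S) := Finset.univ ×ˢ M.powerset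

/-- the coefficients with given classes of `a`, `b`, `v` -/
noncomputable def mkC {S : Sys} (ca cb cv : El S) : Co S where
  f := fun i => if i = 0 then ca else cb
  g := fun j => if j = 0 then ad (S.l, ∅) (ad ca (ad cb cv)) else cv

/-- the norm of a configuration -/
noncomputable def nx {S : Sys} (x : V → Finset S.P) : ℕ := ∏ u, S.nm (x u)

/-- the primes outside `S` with inertia of order larger than two -/
def Rw (ρ : Gm k →* E8) : Set Fr.sys.P := {p | ρ (Rk.tau (Fr.pl p)) ^ 2 ≠ 1}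

/-- the homomorphisms with given `Rw` and bounded discriminant -/
def AR (R : Finset Fr.sys.P) (X : ℝ) : Set (Gm k →* E8) :=
  {ρ | ρ ∈ Hs k ∧ Rw Fr Rk ρ = (R : Set Fr.sys.P) ∧ (dN ρ : ℝ) ≤ X}

end

/-! ### statements -/

section

variable (k : Type) [Field k] [NumberField k]

/-- C1: frames containing given primes -/
def ScFrm : Prop := ∀ T : Finset (HeightOneSpectrum (𝓞 k)), ∃ Fr : Frm k, T ⊆ Fr.S

end

section

variable {k : Type} [Field k] [NumberField k] (Fr : Frm k) (Rk : RxF k)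

/-- C2: the discriminant -/
def ScDis : Prop := (∀ ρ ∈ Hs k, ∀ (A B c : Finset Fr.sys.P) (ua ub : Fr.sys.T),
    Ov (rep Fr (ua, A)) (rep Fr (ub, B)) ρ → Disjoint A B → Disjoint c (A ∪ B) →
    (∀ p, p ∉ A ∪ B → ((p ∈ c → ρ (Rk.tau (Fr.pl p)) = E8.zz 1) ∧
      (p ∉ c → ρ (Rk.tau (Fr.pl p)) = 1))) →
    Tm Fr Rk ρ ∧ dN ρ = qE Fr Rk ρ * (Fr.sys.nm A * Fr.sys.nm B * Fr.sys.nm c) ^ 8) ∧
  (∀ ρ ∈ Hs k, Tm Fr Rk ρ → ∃ (A B c : Finset Fr.sys.P) (ua ub : Fr.sys.T),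
    Ov (rep Fr (ua, A)) (rep Fr (ub, B)) ρ ∧ Disjoint A B ∧ Disjoint c (A ∪ B) ∧
    (∀ p, p ∉ A ∪ B → ((p ∈ c → ρ (Rk.tau (Fr.pl p)) = E8.zz 1) ∧
      (p ∉ c → ρ (Rk.tau (Fr.pl p)) = 1))))

/-- C2: the part at `S` is at least one -/
def ScQ1 : Prop := ∀ ρ : Gm k →* E8, 1 ≤ qE Fr Rk ρ

/-- C3: finitely many values of the part at `S`, and it is a local function -/
def ScQf : Prop := {q | ∃ ρ ∈ Hs k, qE Fr Rk ρ = q}.Finite ∧
  ∀ H : (Gm k →* E8) → Prop, HLoc Fr H → ∀ q : ℕ, HLoc Fr fun ρ => H ρ ∧ qE Fr Rk ρ = q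

open Classical in
/-- C4: decomposition of the count -/
def ScDec : Prop := ∀ H : (Gm k →* E8) → Prop, HLoc Fr H → ∀ Q : Finset ℕ,
  (∀ ρ ∈ Hs k, qE Fr Rk ρ ∈ Q) → ∀ X : ℝ, 1 ≤ X → (HH Fr Rk H X).Finite ∧
  ((HH Fr Rk H X).ncard : ℝ) = ∑ q ∈ Q, ∑ z ∈ fsz (fin_nq Fr) ((X / q) ^ (1 / 8 : ℝ)),
    (if Nd z then ((Cs Fr Rk (fun ρ => H ρ ∧ qE Fr Rk ρ = q) z.1.1 z.1.2 z.2.1 z.2.2
      ((X / q) ^ (1 / 8 : ℝ) / (nq z : ℝ))).ncard : ℝ) else 0)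

/-- C5: the count for one pair -/
def ScPer : Prop := ∃ κ C : ℝ, 0 < κ ∧ 0 ≤ C ∧ ∀ H : (Gm k →* E8) → Prop, HLoc Fr H →
  ∀ z : Pq Fr.sys, Nd z → ∀ t : ℝ, 1 ≤ t →
    |((Cs Fr Rk H z.1.1 z.1.2 z.2.1 z.2.2 t).ncard : ℝ) -
      κ * (NGz Fr Rk (GH Fr H) z * ∏ p ∈ z.1.1 ∪ z.1.2, tg Fr p) * t| ≤
      C * (NGz Fr Rk (GH Fr fun _ => True) z * ∏ p ∈ z.1.1 ∪ z.1.2, th Fr p) *
        t ^ (1 - Fr.sys.dl)

/-- C6: the laws of the coefficient function (number field side) -/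
def ScLaw : Prop := ∀ G : LDt k, LG Fr G → ∃ Θ : Fr.sys.T → Fr.sys.T → Fr.sys.T → Fr.sys.T → ℝ,
  Law (RG Fr Rk G) Θ ∧ (∀ a b x y, 0 ≤ Θ a b x y) ∧
  ∀ (A B : Finset Fr.sys.P) (ua ub : Fr.sys.T), PosG Fr Rk G A B ua ub →
    0 < Θ ua ub (Fr.sys.tys A) (Fr.sys.tys B) ∧
      hq ua ub (Fr.sys.tys A) (Fr.sys.tys B) = 0

/-- C6: vanishing of the function `R` -/
def ScC1 : Prop := ∀ (G : LDt k) (c : Cg Fr.sys), c.Dj → Rf Fr Rk G c ≠ 0 → c.C1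

/-- C7: the Dirichlet series of the pairs -/
def ScSer : Prop := ∀ (B : ℝ) (τ : Fr.sys.P → ℝ), Tk Fr.sys B τ → ∀ G : LDt k, LG Fr G →
  ∀ σ : ℝ, 0 < σ → σ ≤ 1 →
    (Summable fun z : Pq Fr.sys => bz Fr Rk τ G z * (nq z : ℝ) ^ (-σ)) ∧
    |∑' z : Pq Fr.sys, bz Fr Rk τ G z * (nq z : ℝ) ^ (-σ) -
      2 ^ Fr.sys.m * FD τ (RG Fr Rk G) (1 + σ)| ≤ 16 ^ (Fr.sys.m + 1)

/-- C8: the double pole -/
def ScPol : Prop := ∀ (B : ℝ) (τ : Fr.sys.P → ℝ), Tk Fr.sys B τ → ∀ G : LDt k, LG Fr G →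
  ∃ L : ℝ, DPole (nq (S := Fr.sys)) (bz Fr Rk τ G) L ∧
    ((∃ A B ua ub, PosG Fr Rk G A B ua ub) → 0 < L)

end

open Classical in
/-- C9: Karamata's theorem with the twists (abstract) -/
def ScKar : Prop := ∀ (X : Type) (n : X → ℕ) (b b' : X → ℝ) (L L' : ℝ), (∀ x, 1 ≤ n x) →
  ∀ hf : (∀ N : ℕ, {x | n x ≤ N}.Finite), DPole n b L → DPole n b' L' →
  ∀ κ C d : ℝ, 0 < κ → 0 ≤ C → 0 < d → d ≤ 1 → ∀ f : X → ℝ → ℝ,
    (∀ x t, 1 ≤ t → |f x t - κ * (b x * n x) * t| ≤ C * (b' x * n x) * t ^ (1 - d)) →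
    Tendsto (fun Y : ℝ => (∑ x ∈ fsz hf Y, f x (Y / n x)) / (Y * Real.log Y ^ 2)) atTop
      (𝓝 (κ * L / 2))

section

variable {k : Type} [Field k] [NumberField k] (Fr : Frm k) (Rk : RxF k)

/-- C9a: a homomorphism gives a solvable pair -/
def ScPG : Prop := ∀ H : (Gm k →* E8) → Prop, HLoc Fr H → ∀ ρ ∈ Hs k, H ρ → Tm Fr Rk ρ →
  ∃ A B ua ub, PosG Fr Rk (GH Fr H) A B ua ub

/-- C10: the asymptotic formula for a fixed frame -/
def ScFix : Prop := ∀ H : (Gm k →* E8) → Prop, HLoc Fr H → ∃ L : ℝ, 0 ≤ L ∧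
  Tendsto (fun X : ℝ => ((HH Fr Rk H X).ncard : ℝ) / (X ^ (1 / 8 : ℝ) * Real.log X ^ 2)) atTop
    (𝓝 L) ∧ ((∃ ρ ∈ Hs k, H ρ ∧ Tm Fr Rk ρ) → 0 < L)

/-- C11: there is a homomorphism with inertia of order at most two outside `S` -/
def ScEx : Prop := ∃ ρ ∈ Hs k, Tm Fr Rk ρ

/-- C12: a frame adapted to `R` -/
def ScAR : Prop := ∀ (Fr' : Frm k) (R : Finset Fr.sys.P), Fr.S ⊆ Fr'.S →
  (∀ p ∈ R, Fr.pl p ∈ Fr'.S) → ∃ H : (Gm k →* E8) → Prop, HLoc Fr' H ∧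
    (∀ X : ℝ, AR Fr Rk R X = HH Fr' Rk H X) ∧
    ((∃ ρ ∈ Hs k, Rw Fr Rk ρ = (R : Set Fr.sys.P)) → ∃ ρ ∈ Hs k, H ρ ∧ Tm Fr' Rk ρ)

open Classical in
/-- C13a: the uniform bound in terms of the mass (number field side, (U0) of note 5264) -/
def ScU0 : Prop := ∃ C : ℝ, 0 ≤ C ∧ ∀ (R : Finset Fr.sys.P) (X : ℝ), 1 ≤ X →
  (AR Fr Rk R X).Finite ∧ ((AR Fr Rk R X).ncard : ℝ) ≤
    C * 16 ^ R.card * (Fr.sys.nm R : ℝ) ^ (-(3 / 2) : ℝ) * X ^ (1 / 8 : ℝ) *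
      ∑ ca ∈ elM R, ∑ cb ∈ elM R, ∑ cv ∈ elM R, ∑' x : V → Finset Fr.sys.P,
        (if (nx x : ℝ) ≤ X ^ (1 / 8 : ℝ) then ms (fun _ => 1) R (mkC ca cb cv) 1 x else 0)

/-- C13: the uniform bound -/
def ScBd : Prop := ∃ C : ℝ, 0 ≤ C ∧ ∀ (R : Finset Fr.sys.P) (X : ℝ), 2 ≤ X →
  (AR Fr Rk R X).Finite ∧ ((AR Fr Rk R X).ncard : ℝ) ≤
    C * (Fr.sys.nm R : ℝ) ^ (-(5 / 4) : ℝ) * (X ^ (1 / 8 : ℝ) * Real.log X ^ 2)

end

section

variable (k : Type) [Field k] [NumberField k]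

/-- C14: the number of homomorphisms -/
def ScHom : Prop := ∃ L : ℝ, 0 < L ∧
  Tendsto (fun X : ℝ => ({ρ : Gm k →* E8 | ρ ∈ Hs k ∧ (dN ρ : ℝ) ≤ X}.ncard : ℝ) /
    (X ^ (1 / 8 : ℝ) * Real.log X ^ 2)) atTop (𝓝 L)

/-- C15: from fields to homomorphisms -/
def ScFld : Prop := ∃ c : ℝ, 0 < c ∧ ∀ X : ℝ, (NK k R8 X : ℝ) * c =
  ({ρ : Gm k →* E8 | ρ ∈ Hs k ∧ (dN ρ : ℝ) ≤ X}.ncard : ℝ)

/-- C16: the constants -/
def ScGrp : Prop := MulAction.IsPretransitive R8 (Fin 16) ∧ mInd R8 = 8 ∧ bM k R8 = 3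

/-- C15: the same for the group of `MZ/KDefs` -/
def ScFldD : Prop := ∃ c : ℝ, 0 < c ∧ ∀ X : ℝ, (NK k Pool.Agent.H32.MZ.D8 X : ℝ) * c =
  ({ρ : Gm k →* E8 | ρ ∈ Hs k ∧ (dN ρ : ℝ) ≤ X}.ncard : ℝ)

/-- C16: the constants for the group of `MZ/KDefs` -/
def ScGrpD : Prop := MulAction.IsPretransitive Pool.Agent.H32.MZ.D8 (Fin 16) ∧
  mInd Pool.Agent.H32.MZ.D8 = 8 ∧ bM k Pool.Agent.H32.MZ.D8 = 3 ∧
  Nat.card Pool.Agent.H32.MZ.D8 = 16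

/-- the result -/
def ScEnd : Prop := MulAction.IsPretransitive R8 (Fin 16) ∧ mInd R8 = 8 ∧ bM k R8 = 3 ∧
  Nat.card R8 = 16 ∧ MalleK k R8

end

end Pool.Agent.D8
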