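import Pool.Agent.D8.CDefs
import Pool.Agent.D8.ACntA

/-!
# Malle's conjecture for the dihedral group of order 16 over number fields, row C2: discriminants
-/

set_option autoImplicit false

open scoped BigOperators
open NumberField IsDedekindDomain

namespace Pool.Agent.D8

open Pool.Agent.H98.MF
open Pool.Agent.H98.ML (norb)
open Pool.Agent.H32.MQ (El rep co)

/-! ### orbits -/

theorem cd_norb {G : Type} [Group G] (g : G) :
    norb (⊥ : Subgroup G) g = (Subgroup.zpowers g).index := by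
  unfold norb
  have hbij : Function.Bijective (fun x : G => (x : G ⧸ (⊥ : Subgroup G))) := by
    constructor
    · intro x y h
      have h1 := QuotientGroup.eq.1 h
      rw [Subgroup.mem_bot] at h1
      exact inv_mul_eq_one.1 h1
    · exact Quotient.mk''_surjective
  have e1 : MulAction.orbitRel.Quotient (Subgroup.zpowers g) G ≃
      MulAction.orbitRel.Quotient (Subgroup.zpowers g) (G ⧸ (⊥ : Subgroup G)) := by
    refine Quotient.congr (Equiv.ofBijective _ hbij) fun a b => ?_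
    change (MulAction.orbitRel (Subgroup.zpowers g) G) a b ↔
      (MulAction.orbitRel (Subgroup.zpowers g) (G ⧸ (⊥ : Subgroup G))) (a : G ⧸ (⊥ : Subgroup G))
        (b : G ⧸ (⊥ : Subgroup G))
    rw [MulAction.orbitRel_apply, MulAction.orbitRel_apply, MulAction.mem_orbit_iff,
      MulAction.mem_orbit_iff]
    refine exists_congr fun x => ?_
    constructor
    · intro h
      rw [← h]
      rfl
    · intro h
      exact hbij.1 h
  rw [← Nat.card_congr e1]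
  exact Nat.card_congr
    (QuotientGroup.quotientRightRelEquivQuotientLeftRel (Subgroup.zpowers g))

theorem cd_card : Nat.card E8 = 16 := by
  rw [Nat.card_congr E8.equivProd, Nat.card_prod, Nat.card_zmod, Nat.card_zmod]

theorem cd_norb_one : norb (⊥ : Subgroup E8) 1 = 16 := by
  rw [cd_norb, Subgroup.zpowers_one_eq_bot, Subgroup.index_bot, cd_card]

theorem cd_norb_two (g : E8) (h1 : g ≠ 1) (h2 : g ^ 2 = 1) : norb (⊥ : Subgroup E8) g = 8 := by
  rw [cd_norb]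
  have h3 := (Subgroup.zpowers g).card_mul_index
  rw [Nat.card_zpowers, orderOf_eq_prime h2 h1, cd_card] at h3
  omega

/-! ### the group -/

theorem cd_refl (g : E8) (h : (g.pa = 1 ∧ g.pb = 0) ∨ (g.pa = 0 ∧ g.pb = 1)) :
    g ≠ 1 ∧ g ^ 2 = 1 := by
  rw [pow_two]
  revert g
  decide

theorem cd_rot (g : E8) (h : g.pa = 1) (h' : g.pb = 1) : g ^ 2 ≠ 1 := by
  rw [pow_two]
  revert g
  decide

theorem cd_cen (g : E8) (h : g.pa = 0) (h' : g.pb = 0) (h2 : g ^ 2 = 1) : g = 1 ∨ g = E8.zz 1 := by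
  rw [pow_two] at h2
  revert g
  decide

theorem cd_zz : E8.zz 1 ≠ 1 ∧ E8.zz 1 ^ 2 = 1 := by
  rw [pow_two]
  decide

theorem cd_zz_pa : (E8.zz 1).pa = 0 ∧ (E8.zz 1).pb = 0 := by decide

section

variable {k : Type} [Field k] [NumberField k] (Fr : Frm k) (Rk : RxF k)

omit [NumberField k] in
theorem cd_open {ρ : Gm k →* E8} (hρ : IsLocallyConstant ρ) :
    IsOpen (ρ.ker : Set (Gm k)) := by
  have h := hρ.isOpen_fiber (1 : E8)
  have h2 : (ρ.ker : Set (Gm k)) = {x | ρ x = 1} := by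
    ext x
    exact MonoidHom.mem_ker
  rw [h2]
  exact h

omit [NumberField k] in
theorem cd_index {ρ : Gm k →* E8} (hs : Function.Surjective ρ) : ρ.ker.index = 16 := by
  rw [Subgroup.index_ker, MonoidHom.range_eq_top.2 hs, Subgroup.card_top, cd_card]

theorem cd_rex {ρ : Gm k →* E8} (hρ : ρ ∈ Hs k) (p : Fr.sys.P) :
    Rk.rex (Fr.pl p) ρ.ker + norb (⊥ : Subgroup E8) (ρ (Rk.tau (Fr.pl p))) = 16 := by
  have h1 := Rk.disc (Fr.pl p) (Pool.Agent.H32.MQ.hb_two Fr p) ρ.ker (cd_open hρ.2)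
    ⟨4, by rw [cd_index hρ.1]; norm_num⟩ ρ.ker le_rfl
  have h2 := Pool.Agent.H98.ML.m3_norb ρ hρ.1 (⊥ : Subgroup E8) (Rk.tau (Fr.pl p))
  rw [MonoidHom.comap_bot] at h2
  rw [← h2, h1, cd_index hρ.1]

theorem cd_rex0 {ρ : Gm k →* E8} (hρ : ρ ∈ Hs k) (p : Fr.sys.P)
    (h : ρ (Rk.tau (Fr.pl p)) = 1) : Rk.rex (Fr.pl p) ρ.ker = 0 := by
  have h1 := cd_rex Fr Rk hρ p
  rw [h, cd_norb_one] at h1
  omega

theorem cd_rex8 {ρ : Gm k →* E8} (hρ : ρ ∈ Hs k) (p : Fr.sys.P)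
    (h : ρ (Rk.tau (Fr.pl p)) ≠ 1 ∧ ρ (Rk.tau (Fr.pl p)) ^ 2 = 1) :
    Rk.rex (Fr.pl p) ρ.ker = 8 := by
  have h1 := cd_rex Fr Rk hρ p
  rw [cd_norb_two _ h.1 h.2] at h1
  omega

open Classical in
/-- the discriminant if the inertia outside `S` is of order at most two -/
theorem cd_dN {ρ : Gm k →* E8} (hρ : ρ ∈ Hs k) (D : Finset Fr.sys.P)
    (h1 : ∀ p ∈ D, ρ (Rk.tau (Fr.pl p)) ≠ 1 ∧ ρ (Rk.tau (Fr.pl p)) ^ 2 = 1)
    (h0 : ∀ p, p ∉ D → ρ (Rk.tau (Fr.pl p)) = 1) :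
    dN ρ = qE Fr Rk ρ * Fr.sys.nm D ^ 8 := by
  unfold dN
  rw [Rk.prod ρ.ker (cd_open hρ.2)]
  have hsub : (Function.mulSupport fun P => nrm P ^ Rk.rex P ρ.ker) ⊆
      ((Fr.S ∪ D.image Fr.pl : Finset (HeightOneSpectrum (𝓞 k))) :
        Set (HeightOneSpectrum (𝓞 k))) := by
    intro P hP
    rw [Function.mem_mulSupport] at hP
    rw [Finset.mem_coe, Finset.mem_union]
    by_contra hc
    push Not at hc
    obtain ⟨p, rfl⟩ := (Fr.pl_iff P).2 hc.1
    have hp : p ∉ D := fun h => hc.2 (Finset.mem_image_of_mem _ h)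
    apply hP
    rw [cd_rex0 Fr Rk hρ p (h0 p hp), pow_zero]
  rw [finprod_eq_prod_of_mulSupport_subset _ hsub]
  have hdj : Disjoint Fr.S (D.image Fr.pl) := by
    rw [Finset.disjoint_left]
    intro P hP hP'
    obtain ⟨p, -, rfl⟩ := Finset.mem_image.1 hP'
    exact Pool.Agent.H32.MQ.hb_notMem Fr p hP
  rw [Finset.prod_union hdj, Finset.prod_image fun x _ y _ h => Fr.pl_inj h]
  unfold qE
  congr 1
  unfold Pre.nm
  rw [← Finset.prod_pow]
  refine Finset.prod_congr rfl fun p hp => ?_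
  rw [cd_rex8 Fr Rk hρ p (h1 p hp), Fr.N_eq]

theorem cd_exists {f : E8 → ZMod 2} (hf : ∀ g g', f (g * g') = f g + f g') {ρ : Gm k →* E8}
    (hl : IsLocallyConstant ρ) : ∃ c : El Fr.sys, ∀ σ, f (ρ σ) = chi (rep Fr c : k) σ := by
  obtain ⟨t, ht⟩ := ParK.exists_chi1 (fun σ => f (ρ σ)) (hl.comp f) (by
    intro σ τ
    show f (ρ (σ * τ)) = f (ρ σ) + f (ρ τ)
    rw [map_mul, hf])
  refine ⟨co Fr t, fun σ => ?_⟩
  obtain ⟨s, hs⟩ := Pool.Agent.H32.MQ.h_co Fr t
  have h1 : chi ((t * rep Fr (co Fr t) : kˣ) : k) σ = 0 := by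
    rw [hs, ParK.chu_mul, CharTwo.add_self_eq_zero]
  rw [ParK.chu_mul] at h1
  rw [← CharTwo.add_eq_zero.mp h1]
  exact ht σ

theorem cDis : ScDis Fr Rk := by
  classical
  refine ⟨?_, ?_⟩
  · intro ρ hρ A B c ua ub hov hAB hc hp
    have hA : ∀ p ∈ A, ρ (Rk.tau (Fr.pl p)) ≠ 1 ∧ ρ (Rk.tau (Fr.pl p)) ^ 2 = 1 := by
      intro p hpA
      apply cd_refl
      left
      have h1 := hov (Rk.tau (Fr.pl p))
      rw [ct_chi_tau, ct_chi_tau, if_pos hpA, if_neg (Finset.disjoint_left.1 hAB hpA)] at h1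
      exact h1
    have hB : ∀ p ∈ B, ρ (Rk.tau (Fr.pl p)) ≠ 1 ∧ ρ (Rk.tau (Fr.pl p)) ^ 2 = 1 := by
      intro p hpB
      apply cd_refl
      right
      have h1 := hov (Rk.tau (Fr.pl p))
      rw [ct_chi_tau, ct_chi_tau, if_pos hpB, if_neg (Finset.disjoint_right.1 hAB hpB)] at h1
      exact h1
    have hcc : ∀ p ∈ c, ρ (Rk.tau (Fr.pl p)) ≠ 1 ∧ ρ (Rk.tau (Fr.pl p)) ^ 2 = 1 := by
      intro p hpc
      rw [(hp p (Finset.disjoint_left.1 hc hpc)).1 hpc]
      exact cd_zz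
    have hD : ∀ p ∈ (A ∪ B) ∪ c, ρ (Rk.tau (Fr.pl p)) ≠ 1 ∧ ρ (Rk.tau (Fr.pl p)) ^ 2 = 1 := by
      intro p hpD
      rcases Finset.mem_union.1 hpD with h | h
      · rcases Finset.mem_union.1 h with h | h
        · exact hA p h
        · exact hB p h
      · exact hcc p h
    have h0 : ∀ p, p ∉ (A ∪ B) ∪ c → ρ (Rk.tau (Fr.pl p)) = 1 := by
      intro p hpD
      rw [Finset.mem_union] at hpD
      push Not at hpD
      exact (hp p hpD.1).2 hpD.2
    refine ⟨?_, ?_⟩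
    · intro p
      by_cases hpD : p ∈ (A ∪ B) ∪ c
      · exact (hD p hpD).2
      · rw [h0 p hpD, one_pow]
    · rw [cd_dN Fr Rk hρ _ hD h0, Fr.sys.nm_union hc.symm, Fr.sys.nm_union hAB]
  · intro ρ hρ ht
    obtain ⟨ca, hca⟩ := cd_exists Fr E8.pa_mul hρ.2
    obtain ⟨cb, hcb⟩ := cd_exists Fr E8.pb_mul hρ.2
    have hfin : {p : Fr.sys.P | ρ (Rk.tau (Fr.pl p)) = E8.zz 1}.Finite := by
      refine (ct_tau_finite Fr Rk ρ hρ.2).subset fun p hp => ?_
      have hp' : ρ (Rk.tau (Fr.pl p)) = E8.zz 1 := hp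
      show ρ (Rk.tau (Fr.pl p)) ≠ 1
      rw [hp']
      exact cd_zz.1
    have hpa : ∀ p, (ρ (Rk.tau (Fr.pl p))).pa = if p ∈ ca.2 then 1 else 0 := by
      intro p
      rw [hca, ct_chi_tau]
    have hpb : ∀ p, (ρ (Rk.tau (Fr.pl p))).pb = if p ∈ cb.2 then 1 else 0 := by
      intro p
      rw [hcb, ct_chi_tau]
    refine ⟨ca.2, cb.2, hfin.toFinset, ca.1, cb.1, fun σ => ⟨hca σ, hcb σ⟩, ?_, ?_, ?_⟩
    · rw [Finset.disjoint_left]
      intro p h1 h2
      have h3 := hpa p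
      have h4 := hpb p
      rw [if_pos h1] at h3
      rw [if_pos h2] at h4
      exact cd_rot _ h3 h4 (ht p)
    · rw [Finset.disjoint_left]
      intro p h1 h2
      rw [Set.Finite.mem_toFinset] at h1
      have h1' : ρ (Rk.tau (Fr.pl p)) = E8.zz 1 := h1
      have h3 := hpa p
      have h4 := hpb p
      rw [h1', cd_zz_pa.1] at h3
      rw [h1', cd_zz_pa.2] at h4
      rcases Finset.mem_union.1 h2 with h | h
      · rw [if_pos h] at h3
        exact absurd h3 (by decide)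
      · rw [if_pos h] at h4
        exact absurd h4 (by decide)
    · intro p hp
      rw [Finset.mem_union] at hp
      push Not at hp
      rw [Set.Finite.mem_toFinset]
      have h3 := hpa p
      have h4 := hpb p
      rw [if_neg hp.1] at h3
      rw [if_neg hp.2] at h4
      exact ⟨fun h => h, fun h => (cd_cen _ h3 h4 (ht p)).resolve_right h⟩

theorem cQ1 : ScQ1 Fr Rk := by
  intro ρ
  unfold qE
  refine Finset.one_le_prod' fun P _ => ?_
  refine Nat.one_le_pow _ _ ?_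
  unfold nrm
  rw [Nat.pos_iff_ne_zero, Ne, Ideal.absNorm_eq_zero_iff]
  exact P.ne_bot

end

end Pool.Agent.D8
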