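import Pool.Agent.D8.CDefs

/-!
# Malle's conjecture for the dihedral group of order 16 over number fields, row C17: assembly
-/

set_option autoImplicit false

open scoped BigOperators Topology
open NumberField IsDedekindDomain Filter

namespace Pool.Agent.D8

open Pool.Agent.H98.MF
open Pool.Agent.H32.MA (pind mInd bM)

/-- C17 -/
theorem cEnd (k : Type) [Field k] [NumberField k] (h1 : ScHom k) (h2 : ScFld k) (h3 : ScGrp k)
    (h4 : Nat.card R8 = 16) : ScEnd k := by
  obtain ⟨L, hL, hT⟩ := h1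
  obtain ⟨c, hc, hN⟩ := h2
  obtain ⟨g1, g2, g3⟩ := h3
  refine ⟨g1, g2, g3, h4, L / c, div_pos hL hc, ?_⟩
  have h5 := hT.div_const c
  refine h5.congr fun X => ?_
  rw [← hN X, g2, g3]
  have h6 : (c : ℝ) ≠ 0 := hc.ne'
  have e1 : ((8 : ℕ) : ℝ) = 8 := by norm_num
  rw [e1, div_right_comm, mul_div_assoc, div_self h6, mul_one]

end Pool.Agent.D8
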