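import Pool.Agent.D8.CDefs
import Pool.Agent.D8.ANor

/-!
# The dihedral group of order 16 over a number field: existence of one homomorphism (row C11)
-/

set_option autoImplicit false

open scoped BigOperators Topology
open NumberField IsDedekindDomain Filter

namespace Pool.Agent.D8

open Pool.Agent.H98.MK (sg)
open Pool.Agent.H98.MF
open Pool.Agent.H32.MQ (El rep DPole fsz)

/-! ### the group -/

theorem cex_pow (b : ZMod 8) (n : ℕ) : (⟨b, 0⟩ : E8) ^ n = ⟨n * b, 0⟩ := by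
  induction n with
  | zero =>
    rw [pow_zero]
    apply E8.ext
    · show (0 : ZMod 8) = _
      push_cast
      ring
    · rfl
  | succ n ih =>
    rw [pow_succ, ih]
    apply E8.ext
    · rw [E8.mul_b]
      have h1 : pm 0 = 1 := by decide
      show (n : ZMod 8) * b + pm 0 * b = _
      rw [h1]
      push_cast
      ring
    · rw [E8.mul_a]
      show (0 : ZMod 2) + 0 = 0
      decide

theorem cex_a1 (g : E8) (h : g.pa = 1) (h' : g.pb = 0) : g.a = 1 := by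
  revert g; decide

theorem cex_a2 (g : E8) (h : g.pa = 0) (h' : g.pb = 1) : g.a = 1 := by
  revert g; decide

theorem cex_odd (g : E8) (h : g.pb = 1) : (g.b.val : ZMod 8) * g.b = 1 := by
  revert g; decide

theorem cex_a3 (g g' : E8) (h : g.a = 1) (h' : g'.a = 1) : (g * g').a = 0 := by
  rw [E8.mul_a, h, h']
  decide

theorem cex_gen (R : Subgroup E8) (g g' : E8) (hg : g ∈ R) (hg' : g' ∈ R) (h1 : g.pa = 1)
    (h2 : g.pb = 0) (h3 : g'.pa = 0) (h4 : g'.pb = 1) : R = ⊤ := by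
  have ha := cex_a1 g h1 h2
  have ha' := cex_a2 g' h3 h4
  have hr : g * g' ∈ R := R.mul_mem hg hg'
  have hra : (g * g').a = 0 := cex_a3 g g' ha ha'
  have hrb : (g * g').pb = 1 := by
    rw [E8.pb_mul, h2, h4]
    decide
  have he : g * g' = ⟨(g * g').b, 0⟩ := by
    apply E8.ext
    · rfl
    · exact hra
  have h5 : (⟨1, 0⟩ : E8) ∈ R := by
    have h6 := R.pow_mem hr (g * g').b.val
    rw [he, cex_pow] at h6
    have h7 : ((((⟨(g * g').b, 0⟩ : E8)).b.val : ℕ) : ZMod 8) * (g * g').b = 1 :=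
      cex_odd (g * g') hrb
    rw [h7] at h6
    exact h6
  have h8 : ∀ c : ZMod 8, (⟨c, 0⟩ : E8) ∈ R := by
    intro c
    have h9 := R.pow_mem h5 c.val
    rw [cex_pow, ZMod.natCast_val, ZMod.cast_id, mul_one] at h9
    exact h9
  rw [Subgroup.eq_top_iff']
  intro x
  have h10 : ∀ t : ZMod 2, t = 0 ∨ t = 1 := by decide
  rcases h10 x.a with h | h
  · have h11 : x = ⟨x.b, 0⟩ := by
      apply E8.ext
      · rfl
      · exact h
    rw [h11]
    exact h8 _
  · have h11 : x = ⟨x.b - g.b, 0⟩ * g := by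
      apply E8.ext
      · rw [E8.mul_b]
        have h1 : pm 0 = 1 := by decide
        show x.b = x.b - g.b + pm 0 * g.b
        rw [h1]
        ring
      · rw [E8.mul_a, ha, h]
        show (1 : ZMod 2) = 0 + 1
        decide
    rw [h11]
    exact R.mul_mem (h8 _) hg

theorem cex_sq (a b f h : ZMod 2) (hh : (a = 1 ∧ b = 0) ∨ (a = 0 ∧ b = 1) ∨
    (a = 0 ∧ b = 0 ∧ f = 0)) : E8.mk4 a b f h ^ 2 = 1 := by
  rw [pow_two]
  revert a b f h
  decide

theorem cex_pa (a b f h : ZMod 2) : (E8.mk4 a b f h).pa = a ∧ (E8.mk4 a b f h).pb = b := by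
  revert a b f h
  decide

section

variable {k : Type} [Field k] [NumberField k]

/-- independence of two quadratic characters -/
theorem cex_ind {a b : kˣ} (ha : ¬ IsSquare a) (hb : ¬ IsSquare b) (hab : ¬ IsSquare (a * b)) :
    (∃ σ : Gm k, chi (a : k) σ = 1 ∧ chi (b : k) σ = 0) ∧
    ∃ σ : Gm k, chi (a : k) σ = 0 ∧ chi (b : k) σ = 1 := by
  have key : ∀ x : kˣ, ¬ IsSquare x → ∃ σ : Gm k, chi (x : k) σ ≠ 0 := by
    intro x hx
    by_contra hc
    push Not at hc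
    obtain ⟨q, hq⟩ := Pool.Agent.H98.MF.B.chi_isSquare (x : k) hc
    refine hx ?_
    have hq0 : q ≠ 0 := by
      rintro rfl
      rw [mul_zero] at hq
      exact x.ne_zero hq
    refine ⟨Units.mk0 q hq0, ?_⟩
    apply Units.ext
    rw [Units.val_mul]
    exact hq
  have h2 : ∀ t : ZMod 2, t = 0 ∨ t = 1 := by decide
  have h11 : (1 : ZMod 2) + 1 = 0 := by decide
  obtain ⟨σ, hσ⟩ := key a ha
  obtain ⟨τ, hτ⟩ := key b hb
  obtain ⟨μ, hμ⟩ := key (a * b) hab
  rw [Pool.Agent.H98.MF.B.chi_mul_units] at hμ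
  have hσ1 : chi (a : k) σ = 1 := (h2 _).resolve_left hσ
  have hτ1 : chi (b : k) τ = 1 := (h2 _).resolve_left hτ
  -- a third element with exactly one nonzero value
  rcases h2 (chi (b : k) σ) with h3 | h3
  · refine ⟨⟨σ, hσ1, h3⟩, ?_⟩
    rcases h2 (chi (a : k) τ) with h4 | h4
    · exact ⟨τ, h4, hτ1⟩
    · refine ⟨σ * τ, ?_, ?_⟩
      · rw [chiM_hom, hσ1, h4, h11]
      · rw [chiM_hom, h3, hτ1, zero_add]
  · -- `σ` has both values one
    rcases h2 (chi (a : k) τ) with h4 | h4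
    · refine ⟨⟨σ * τ, ?_, ?_⟩, ⟨τ, h4, hτ1⟩⟩
      · rw [chiM_hom, hσ1, h4, add_zero]
      · rw [chiM_hom, h3, hτ1, h11]
    · rcases h2 (chi (a : k) μ) with h5 | h5
      · have h6 : chi (b : k) μ = 1 := by
          rcases h2 (chi (b : k) μ) with h6 | h6
          · rw [h5, h6, add_zero] at hμ
            exact absurd rfl hμ
          · exact h6
        refine ⟨⟨σ * μ, ?_, ?_⟩, ⟨μ, h5, h6⟩⟩
        · rw [chiM_hom, hσ1, h5, add_zero]
        · rw [chiM_hom, h3, h6, h11]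
      · have h6 : chi (b : k) μ = 0 := by
          rcases h2 (chi (b : k) μ) with h6 | h6
          · exact h6
          · rw [h5, h6, h11] at hμ
            exact absurd rfl hμ
        refine ⟨⟨μ, h5, h6⟩, ⟨σ * μ, ?_, ?_⟩⟩
        · rw [chiM_hom, hσ1, h5, h11]
        · rw [chiM_hom, h3, h6, add_zero]

variable (Fr : Frm k) (Rk : RxF k)

open Classical in
/-- the indicator of trivial local data -/
noncomputable def cexG : LDt k := fun d =>
  if ∀ v ∈ pls Fr.S, ∀ σ ∈ DecP v, d σ = (0, 0, 0) then 1 else 0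

theorem cexG_iff (d : Gm k → ZMod 2 × ZMod 2 × ZMod 2) :
    cexG Fr d ≠ 0 ↔ ∀ v ∈ pls Fr.S, ∀ σ ∈ DecP v, d σ = (0, 0, 0) := by
  unfold cexG
  split_ifs with h
  · exact ⟨fun _ => h, fun _ => one_ne_zero⟩
  · exact ⟨fun h' => absurd rfl h', fun h' => absurd h' h⟩

theorem cex_ob {a b : kˣ} {f : Gm k → ZMod 2} (v : Pl k)
    (h : ∀ σ ∈ DecP v, dat a b f σ = (0, 0, 0)) : ob v a b f = 0 := by
  unfold ob
  rw [if_pos]
  refine ⟨fun _ => 0, IsLocallyConstant.const 0, ?_⟩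
  have h1 : ∀ σ ∈ DecP v, chi (a : k) σ = 0 ∧ chi (b : k) σ = 0 ∧ f σ = 0 := by
    intro σ hσ
    have h2 := h σ hσ
    unfold dat at h2
    exact ⟨congrArg Prod.fst h2, congrArg (fun t => t.2.1) h2, congrArg (fun t => t.2.2) h2⟩
  intro σ hσ τ hτ
  obtain ⟨a1, a2, a3⟩ := h1 σ hσ
  obtain ⟨b1, b2, b3⟩ := h1 τ hτ
  obtain ⟨c1, c2, c3⟩ := h1 (σ * τ) (Subgroup.mul_mem _ hσ hτ)
  rw [a1, a2, a3, b1, b2, b3, c1, c2, c3]
  show E8.mk4 0 0 0 0 = E8.mk4 0 0 0 0 * E8.mk4 0 0 0 0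
  decide

theorem cexG_LG : LG Fr (cexG Fr) where
  loc := by
    intro d d' h
    unfold cexG
    have h1 : (∀ v ∈ pls Fr.S, ∀ σ ∈ DecP v, d σ = (0, 0, 0)) ↔
        ∀ v ∈ pls Fr.S, ∀ σ ∈ DecP v, d' σ = (0, 0, 0) := by
      refine forall₂_congr fun v hv => forall₂_congr fun σ hσ => ?_
      rw [h v hv σ hσ]
    by_cases h2 : ∀ v ∈ pls Fr.S, ∀ σ ∈ DecP v, d σ = (0, 0, 0)
    · rw [if_pos h2, if_pos (h1.1 h2)]
    · rw [if_neg h2, if_neg fun h3 => h2 (h1.2 h3)]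
  nn := by
    intro d
    unfold cexG
    split_ifs <;> norm_num
  le := by
    intro d
    unfold cexG
    split_ifs <;> norm_num
  sup := by
    intro a b f _ h v hv
    exact cex_ob v ((cexG_iff Fr _).1 h v hv)

theorem cex_rep : rep Fr (0, ∅) = 1 := by
  unfold rep
  rw [Finset.prod_empty, mul_one]
  refine Finset.prod_eq_one fun j _ => ?_
  show Fr.u j ^ ((0 : ZMod 2)).val = 1
  rw [ZMod.val_zero, pow_zero]

theorem cex_cl : cl Fr 0 0 = 1 := by
  unfold cl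
  have h1 : (∏ j, Fr.u j ^ ((0 : Fr.sys.T) j).val) = 1 := by
    refine Finset.prod_eq_one fun j _ => ?_
    show Fr.u j ^ ((0 : ZMod 2)).val = 1
    rw [ZMod.val_zero, pow_zero]
  have h2 : (∏ j, Fr.w j ^ ((0 : Fr.sys.T) j).val) = 1 := by
    refine Finset.prod_eq_one fun j _ => ?_
    show Fr.w j ^ ((0 : ZMod 2)).val = 1
    rw [ZMod.val_zero, pow_zero]
  rw [h1, h2, mul_one]

theorem cex_chi1 (σ : Gm k) : chi ((1 : kˣ) : k) σ = 0 := by
  have h := Pool.Agent.H98.MF.B.chi_sq (1 : k) σ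
  rw [one_pow] at h
  rw [Units.val_one]
  exact h

theorem cex_pos : PosG Fr Rk (cexG Fr) ∅ ∅ 0 0 := by
  refine ⟨Finset.disjoint_empty_left _, fun _ => 0, ⟨⟨IsLocallyConstant.const 0, ?_⟩, ?_⟩,
    0, 0, ?_⟩
  · intro σ τ
    rw [cex_rep, cex_chi1, zero_mul]
    decide
  · intro p _
    rfl
  · rw [cexG_iff, cex_rep, cex_cl]
    intro v _ σ _
    unfold dat
    show (chi ((1 : kˣ) : k) σ, chi ((1 : kˣ) : k) σ, (0 : ZMod 2) + chi ((1 : kˣ) : k) σ) =
      (0, 0, 0)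
    rw [cex_chi1, add_zero]

/-- Row C11: there is a homomorphism with inertia of order at most two outside `S` -/
theorem cEx (h1 : ScPol Fr Rk) (h2 : SaObG k) (h3 : SaObN k) : ScEx Fr Rk := by
  classical
  have hTk : Tk Fr.sys 0 (fun _ => 1) := by
    intro p
    refine ⟨zero_le_one, ?_⟩
    rw [sub_self, abs_zero, zero_mul]
  obtain ⟨L, hL, hL'⟩ := h1 0 (fun _ => 1) hTk (cexG Fr) (cexG_LG Fr)
  have hL0 : 0 < L := hL' ⟨∅, ∅, 0, 0, cex_pos Fr Rk⟩
  -- a pair with a nonzero coefficient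
  have hz : ∃ z : Pq Fr.sys, bz Fr Rk (fun _ => 1) (cexG Fr) z ≠ 0 := by
    by_contra hc
    push Not at hc
    have h4 := hL.lim
    have h5 : (fun σ : ℝ => σ ^ 2 * ∑' x, bz Fr Rk (fun _ => 1) (cexG Fr) x *
        (nq x : ℝ) ^ (-σ)) = fun _ => 0 := by
      funext σ
      have h6 : (fun x : Pq Fr.sys => bz Fr Rk (fun _ => 1) (cexG Fr) x *
          (nq x : ℝ) ^ (-σ)) = fun _ => 0 := by
        funext x
        rw [hc x, zero_mul]
      rw [h6, tsum_zero, mul_zero]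
    rw [h5] at h4
    have h7 := tendsto_nhds_unique h4 tendsto_const_nhds
    exact absurd h7 hL0.ne'
  obtain ⟨z, hz⟩ := hz
  unfold bz at hz
  have hNd : Nd z := by
    by_contra hc
    rw [if_neg hc] at hz
    exact hz rfl
  rw [if_pos hNd] at hz
  have hNG : NGz Fr Rk (cexG Fr) z ≠ 0 := by
    intro hc
    rw [hc, zero_mul, zero_div] at hz
    exact hz rfl
  unfold NGz NG at hNG
  have hex : ∃ f, IsL Fr Rk (pe z) (pf z) ∅ f := by
    by_contra hc
    rw [dif_neg hc] at hNG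
    exact hNG rfl
  rw [dif_pos hex] at hNG
  set f0 := hex.choose with hf0
  have hf0' : IsL Fr Rk (pe z) (pf z) ∅ f0 := hex.choose_spec
  have hsum := right_ne_zero_of_mul hNG
  obtain ⟨y, -, hy⟩ := Finset.exists_ne_zero_of_sum_ne_zero hsum
  obtain ⟨r, hr, hyr⟩ := Finset.exists_ne_zero_of_sum_ne_zero hy
  have hW : ∀ p ∈ z.1.1 ∪ z.1.2, ob (Sum.inl (Fr.pl p)) (pe z) (pf z)
      (fun σ => f0 σ + chi (rep Fr (y, r) : k) σ) = 0 := by
    by_contra hc
    rw [if_neg hc] at hyr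
    exact hyr rfl
  rw [if_pos hW, cexG_iff] at hyr
  rw [Finset.mem_powerset] at hr
  set f : Gm k → ZMod 2 := fun σ => f0 σ + chi (rep Fr (y, r) : k) σ with hf
  have hF : IsF (pe z) (pf z) f := by
    refine ⟨hf0'.1.lc.add (chiM_lc (rep Fr (y, r) : k)), ?_⟩
    intro σ τ
    show f0 (σ * τ) + chi (rep Fr (y, r) : k) (σ * τ) = _
    rw [hf0'.1.hom, chiM_hom]
    ring
  have hft : ∀ p, p ∉ z.1.1 ∪ z.1.2 → f (Rk.tau (Fr.pl p)) = 0 := by
    intro p hp
    show f0 (Rk.tau (Fr.pl p)) + chi (rep Fr (y, r) : k) (Rk.tau (Fr.pl p)) = 0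
    rw [hf0'.2 p (Finset.notMem_empty p), an_chi_rep, if_neg fun h => hp (hr h), add_zero]
  have hpe : ∀ p, chi (pe z : k) (Rk.tau (Fr.pl p)) = if p ∈ z.1.1 then 1 else 0 := by
    intro p
    unfold pe
    rw [an_chi_rep]
  have hpf : ∀ p, chi (pf z : k) (Rk.tau (Fr.pl p)) = if p ∈ z.1.2 then 1 else 0 := by
    intro p
    unfold pf
    rw [an_chi_rep]
  -- all obstructions vanish
  have hob : ∀ v : Pl k, ob v (pe z) (pf z) f = 0 := by
    intro v
    by_cases hv : v ∈ pls Fr.S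
    · exact cex_ob v (hyr v hv)
    · rcases v with P | φ
      · have hP : P ∉ Fr.S := fun h => hv (Finset.inl_mem_disjSum.2 h)
        obtain ⟨p, rfl⟩ := (Fr.pl_iff P).2 hP
        by_cases hp : p ∈ z.1.1 ∪ z.1.2
        · exact hW p hp
        · have hp1 : p ∉ z.1.1 := fun h => hp (Finset.mem_union_left _ h)
          have hp2 : p ∉ z.1.2 := fun h => hp (Finset.mem_union_right _ h)
          refine h3 Fr Rk (pe z) (pf z) f hF p ?_ ?_ (hft p hp)
          · unfold pe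
            rw [Pool.Agent.H32.MQ.h_repO Fr _ p, if_neg hp1]
            exact Even.zero
          · unfold pf
            rw [Pool.Agent.H32.MQ.h_repO Fr _ p, if_neg hp2]
            exact Even.zero
      · exact absurd (Finset.inr_mem_disjSum.2 (Finset.mem_univ φ)) hv
  obtain ⟨h, hh⟩ := (h2 (pe z) (pf z) f hF).2 hob
  let ρ : Gm k →* E8 := MonoidHom.mk' (fun σ =>
    E8.mk4 (chi (pe z : k) σ) (chi (pf z : k) σ) (f σ) (h σ)) (fun σ τ =>
      hh.2 σ (Subgroup.mem_top σ) τ (Subgroup.mem_top τ))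
  have hρ : ∀ σ, ρ σ = E8.mk4 (chi (pe z : k) σ) (chi (pf z : k) σ) (f σ) (h σ) := fun σ => rfl
  refine ⟨ρ, ⟨?_, ?_⟩, ?_⟩
  · obtain ⟨⟨σ, s1, s2⟩, ⟨τ, t1, t2⟩⟩ := cex_ind hNd.na hNd.nb hNd.nab
    have h5 : ρ.range = ⊤ := by
      refine cex_gen ρ.range (ρ σ) (ρ τ) ⟨σ, rfl⟩ ⟨τ, rfl⟩ ?_ ?_ ?_ ?_
      · rw [hρ, (cex_pa _ _ _ _).1, s1]
      · rw [hρ, (cex_pa _ _ _ _).2, s2]
      · rw [hρ, (cex_pa _ _ _ _).1, t1]
      · rw [hρ, (cex_pa _ _ _ _).2, t2]
    exact MonoidHom.range_eq_top.1 h5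
  · have h5 : IsLocallyConstant fun σ : Gm k =>
        ((chi (pe z : k) σ, chi (pf z : k) σ), (f σ, h σ)) :=
      ((chiM_lc (pe z : k)).prodMk (chiM_lc (pf z : k))).prodMk (hF.lc.prodMk hh.1)
    exact h5.comp fun t => E8.mk4 t.1.1 t.1.2 t.2.1 t.2.2
  · intro p
    rw [hρ]
    refine cex_sq _ _ _ _ ?_
    rw [hpe, hpf]
    by_cases hp1 : p ∈ z.1.1
    · have hp2 : p ∉ z.1.2 := Finset.disjoint_left.1 hNd.dj hp1
      rw [if_pos hp1, if_neg hp2]
      exact Or.inl ⟨rfl, rfl⟩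
    · by_cases hp2 : p ∈ z.1.2
      · rw [if_neg hp1, if_pos hp2]
        exact Or.inr (Or.inl ⟨rfl, rfl⟩)
      · rw [if_neg hp1, if_neg hp2]
        refine Or.inr (Or.inr ⟨rfl, rfl, hft p ?_⟩)
        rw [Finset.mem_union]
        rintro (h | h)
        · exact hp1 h
        · exact hp2 h

end

end Pool.Agent.D8
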