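import Pool.Agent.D8.CDefs

/-!
# Malle's conjecture for the dihedral group of order 16 over number fields: row C10: the
asymptotic formula for a fixed frame
-/

set_option autoImplicit false

open scoped BigOperators Topology
open NumberField IsDedekindDomain Filter

namespace Pool.Agent.D8

open Pool.Agent.H98.MF
open Pool.Agent.H32.MQ (El rep DPole fsz)

/-! ### limits -/

/-- the change of variable -/
theorem cx_ratio (q : ℝ) (hq : 1 ≤ q) :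
    Tendsto (fun X : ℝ => ((X / q) ^ (1 / 8 : ℝ) * Real.log ((X / q) ^ (1 / 8 : ℝ)) ^ 2) /
      (X ^ (1 / 8 : ℝ) * Real.log X ^ 2)) atTop (𝓝 (q ^ (-(1 / 8) : ℝ) / 64)) := by
  have hq0 : 0 < q := by linarith
  have h1 : Tendsto (fun X : ℝ => (1 - Real.log q / Real.log X) ^ 2) atTop (𝓝 ((1 - 0) ^ 2)) :=
    ((Real.tendsto_log_atTop.const_div_atTop (Real.log q)).const_sub 1).pow 2
  have h2 := h1.const_mul (q ^ (-(1 / 8) : ℝ) / 64)
  rw [sub_zero, one_pow, mul_one] at h2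
  refine h2.congr' ?_
  filter_upwards [eventually_gt_atTop (1 : ℝ)] with X hX
  have hX0 : 0 < X := by linarith
  have hlog : Real.log X ≠ 0 := (Real.log_pos hX).ne'
  have hpow : X ^ (1 / 8 : ℝ) ≠ 0 := (Real.rpow_pos_of_pos hX0 _).ne'
  have hqp : q ^ (1 / 8 : ℝ) ≠ 0 := (Real.rpow_pos_of_pos hq0 _).ne'
  rw [Real.log_rpow (div_pos hX0 hq0), Real.log_div hX0.ne' hq0.ne',
    Real.div_rpow hX0.le hq0.le, Real.rpow_neg hq0.le]
  field_simp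
  ring

/-- the limit along the change of variable -/
theorem cx_comp (q : ℝ) (hq : 1 ≤ q) (S : ℝ → ℝ) (l : ℝ)
    (hS : Tendsto (fun Y : ℝ => S Y / (Y * Real.log Y ^ 2)) atTop (𝓝 l)) :
    Tendsto (fun X : ℝ => S ((X / q) ^ (1 / 8 : ℝ)) / (X ^ (1 / 8 : ℝ) * Real.log X ^ 2)) atTop
      (𝓝 (l * (q ^ (-(1 / 8) : ℝ) / 64))) := by
  have hq0 : 0 < q := by linarith
  have hY : Tendsto (fun X : ℝ => (X / q) ^ (1 / 8 : ℝ)) atTop atTop :=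
    (tendsto_rpow_atTop (by norm_num)).comp (tendsto_id.atTop_div_const hq0)
  refine ((hS.comp hY).mul (cx_ratio q hq)).congr' ?_
  filter_upwards [hY.eventually (eventually_gt_atTop (1 : ℝ))] with X hX
  have h1 : (X / q) ^ (1 / 8 : ℝ) * Real.log ((X / q) ^ (1 / 8 : ℝ)) ^ 2 ≠ 0 :=
    mul_ne_zero (by linarith) (pow_ne_zero 2 (Real.log_pos hX).ne')
  simp only [Function.comp_apply]
  rw [div_mul_div_cancel₀ h1]

/-- the limit of a double pole is nonnegative -/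
theorem cx_pole {X : Type} {n : X → ℕ} {b : X → ℝ} {L : ℝ} (h : DPole n b L) : 0 ≤ L := by
  refine ge_of_tendsto h.lim ?_
  filter_upwards [self_mem_nhdsWithin] with σ hσ
  refine mul_nonneg (sq_nonneg σ) (tsum_nonneg fun x => ?_)
  exact mul_nonneg (h.nonneg x) (Real.rpow_nonneg (Nat.cast_nonneg _) _)

section

variable {k : Type} [Field k] [NumberField k] (Fr : Frm k) (Rk : RxF k)

/-! ### the weights -/

theorem cx_N (p : Fr.sys.P) : (2 : ℝ) ≤ Fr.sys.N p := by exact_mod_cast Fr.sys.two_le p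

theorem cx_tg : Tk Fr.sys 1 (tg Fr) := by
  intro p
  have h2 := cx_N Fr p
  have h0 : (0 : ℝ) < Fr.sys.N p := by linarith
  unfold tg
  constructor
  · positivity
  · have h3 : (1 + 1 / (Fr.sys.N p : ℝ))⁻¹ - 1 = -(1 / ((Fr.sys.N p : ℝ) + 1)) := by
      field_simp
      ring
    rw [h3, abs_neg, abs_of_nonneg (by positivity), one_mul, Real.rpow_neg h0.le, one_div]
    apply inv_anti₀ (Real.rpow_pos_of_pos h0 _)
    have h4 : (Fr.sys.N p : ℝ) ^ (1 / 2 : ℝ) ≤ (Fr.sys.N p : ℝ) ^ (1 : ℝ) :=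
      Real.rpow_le_rpow_of_exponent_le (by linarith) (by norm_num)
    rw [Real.rpow_one] at h4
    linarith

theorem cx_th : Tk Fr.sys 4 (th Fr) := by
  intro p
  have h2 := cx_N Fr p
  have h0 : (0 : ℝ) < Fr.sys.N p := by linarith
  set x : ℝ := (Fr.sys.N p : ℝ) ^ (-(1 / 2) : ℝ) with hx
  have hx0 : 0 < x := Real.rpow_pos_of_pos h0 _
  have hx2 : x ^ 2 ≤ 1 / 2 := by
    have h3 : x ^ 2 = (Fr.sys.N p : ℝ)⁻¹ := by
      rw [hx, ← Real.rpow_natCast, ← Real.rpow_mul h0.le]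
      norm_num
      exact Real.rpow_neg_one _
    rw [h3, one_div]
    exact inv_anti₀ (by norm_num) h2
  have hx1 : x ≤ 3 / 4 := by nlinarith
  have h4 : th Fr p = (1 - x)⁻¹ := rfl
  have h5 : 0 < 1 - x := by linarith
  rw [h4]
  constructor
  · exact (inv_pos.2 h5).le
  · have h6 : (1 - x)⁻¹ - 1 = x / (1 - x) := by
      field_simp
      ring
    rw [h6, abs_of_nonneg (by positivity), div_le_iff₀ h5]
    nlinarith

theorem cx_one (z : Pq Fr.sys) : 1 ≤ nq z := by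
  unfold nq
  exact Nat.mul_pos (Fr.sys.one_le_nm _) (Fr.sys.one_le_nm _)

/-- the coefficients times the norm -/
theorem cx_bz (τ : Fr.sys.P → ℝ) (G : LDt k) {z : Pq Fr.sys} (hz : Nd z) :
    bz Fr Rk τ G z * (nq z : ℝ) = NGz Fr Rk G z * ∏ p ∈ z.1.1 ∪ z.1.2, τ p := by
  unfold bz
  rw [if_pos hz]
  have h : (nq z : ℝ) ≠ 0 := by
    have := cx_one Fr z
    positivity
  exact div_mul_cancel₀ _ h

/-- C10 -/
theorem cFix (h1 : ScDec Fr Rk) (h2 : ScPer Fr Rk) (h3 : ScPol Fr Rk) (h4 : ScKar)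
    (h5 : ScQf Fr Rk) (h6 : SaGH Fr) (h7 : ScPG Fr Rk) (h8 : ScQ1 Fr Rk) : ScFix Fr Rk := by
  classical
  intro H hH
  obtain ⟨κ, C, hκ, hC, hper⟩ := h2
  have hHT : HLoc Fr (fun _ : Gm k →* E8 => True) := fun _ _ _ _ _ => Iff.rfl
  obtain ⟨L', hL', -⟩ := h3 4 (th Fr) (cx_th Fr) (GH Fr fun _ => True) (h6 _ hHT)
  let Hq : ℕ → (Gm k →* E8) → Prop := fun q ρ => H ρ ∧ qE Fr Rk ρ = q
  have hHq : ∀ q, HLoc Fr (Hq q) := fun q => h5.2 H hH q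
  choose Lq hLq hLp using fun q : ℕ => h3 1 (tg Fr) (cx_tg Fr) (GH Fr (Hq q)) (h6 _ (hHq q))
  let f : ℕ → Pq Fr.sys → ℝ → ℝ := fun q z t =>
    if Nd z then ((Cs Fr Rk (Hq q) z.1.1 z.1.2 z.2.1 z.2.2 t).ncard : ℝ) else 0
  have hkar : ∀ q, Tendsto (fun Y : ℝ => (∑ z ∈ fsz (fin_nq Fr) Y, f q z (Y / nq z)) /
      (Y * Real.log Y ^ 2)) atTop (𝓝 (κ * Lq q / 2)) := by
    intro q
    refine h4 (Pq Fr.sys) nq (bz Fr Rk (tg Fr) (GH Fr (Hq q)))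
      (bz Fr Rk (th Fr) (GH Fr fun _ => True)) (Lq q) L' (cx_one Fr) (fin_nq Fr) (hLq q) hL'
      κ C Fr.sys.dl hκ hC Fr.sys.dl_pos (Fr.sys.dl_le.trans (by norm_num)) (f q) ?_
    intro z t ht
    by_cases hz : Nd z
    · rw [cx_bz Fr Rk _ _ hz, cx_bz Fr Rk _ _ hz]
      show |(if Nd z then ((Cs Fr Rk (Hq q) z.1.1 z.1.2 z.2.1 z.2.2 t).ncard : ℝ) else 0) -
        κ * (NGz Fr Rk (GH Fr (Hq q)) z * ∏ p ∈ z.1.1 ∪ z.1.2, tg Fr p) * t| ≤ _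
      rw [if_pos hz]
      exact hper (Hq q) (hHq q) z hz t ht
    · have e1 : ∀ (τ : Fr.sys.P → ℝ) (G : LDt k), bz Fr Rk τ G z = 0 := fun τ G => if_neg hz
      rw [e1, e1]
      show |(if Nd z then ((Cs Fr Rk (Hq q) z.1.1 z.1.2 z.2.1 z.2.2 t).ncard : ℝ) else 0) -
        κ * (0 * (nq z : ℝ)) * t| ≤ _
      rw [if_neg hz]
      simp
  let Q : Finset ℕ := h5.1.toFinset
  have hQ : ∀ ρ ∈ Hs k, qE Fr Rk ρ ∈ Q := by
    intro ρ hρ
    rw [Set.Finite.mem_toFinset]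
    exact ⟨ρ, hρ, rfl⟩
  have hQ1 : ∀ q ∈ Q, (1 : ℝ) ≤ q := by
    intro q hq
    rw [Set.Finite.mem_toFinset] at hq
    obtain ⟨ρ, -, rfl⟩ := hq
    exact_mod_cast h8 ρ
  have hnn : ∀ q ∈ Q, 0 ≤ κ * Lq q / 2 * ((q : ℝ) ^ (-(1 / 8) : ℝ) / 64) := by
    intro q _
    have e1 := cx_pole (hLq q)
    positivity
  refine ⟨∑ q ∈ Q, κ * Lq q / 2 * ((q : ℝ) ^ (-(1 / 8) : ℝ) / 64), Finset.sum_nonneg hnn, ?_, ?_⟩
  · have hlim : Tendsto (fun X : ℝ => ∑ q ∈ Q, (∑ z ∈ fsz (fin_nq Fr) ((X / q) ^ (1 / 8 : ℝ)),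
        f q z ((X / q) ^ (1 / 8 : ℝ) / nq z)) / (X ^ (1 / 8 : ℝ) * Real.log X ^ 2)) atTop
        (𝓝 (∑ q ∈ Q, κ * Lq q / 2 * ((q : ℝ) ^ (-(1 / 8) : ℝ) / 64))) :=
      tendsto_finsetSum Q fun q hq => cx_comp (q : ℝ) (hQ1 q hq)
        (fun Y => ∑ z ∈ fsz (fin_nq Fr) Y, f q z (Y / nq z)) _ (hkar q)
    refine hlim.congr' ?_
    filter_upwards [eventually_ge_atTop (1 : ℝ)] with X hX
    rw [(h1 H hH Q hQ X hX).2, Finset.sum_div]
  · rintro ⟨ρ, hρ, hHρ, hT⟩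
    refine Finset.sum_pos' hnn ⟨qE Fr Rk ρ, hQ ρ hρ, ?_⟩
    have e1 : 0 < Lq (qE Fr Rk ρ) :=
      hLp _ (h7 (Hq (qE Fr Rk ρ)) (hHq _) ρ hρ ⟨hHρ, rfl⟩ hT)
    have e2 : (0 : ℝ) < qE Fr Rk ρ := by
      have := h8 ρ
      positivity
    have e3 : (0 : ℝ) < (qE Fr Rk ρ : ℝ) ^ (-(1 / 8) : ℝ) := Real.rpow_pos_of_pos e2 _
    positivity

end

end Pool.Agent.D8
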