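import Pool.Agent.D8.CDefs
import Pool.Agent.H32.MQ.G3

/-!
# Malle's conjecture for the dihedral group of order 16 over number fields: from fields to
homomorphisms
-/

set_option autoImplicit false

open scoped BigOperators Topology
open NumberField IsDedekindDomain Filter

namespace Pool.Agent.D8

open Pool.Agent.H98.MF
open Pool.Agent.H32.MZ (NK)

/-- a regular action of the group is transitive -/
private theorem cfld_trans (pr : E8 →* Equiv.Perm (Fin 16)) (hr : pr.range = G16)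
    (h1 : (MulAction.stabilizer (Equiv.Perm (Fin 16)) (0 : Fin 16)).comap pr = ⊥) :
    MulAction.IsPretransitive G16 (Fin 16) := by
  have hinj : Function.Injective fun g : E8 => pr g 0 := by
    intro g h hgh
    have hgh' : pr g 0 = pr h 0 := hgh
    have h2 : h⁻¹ * g ∈ (MulAction.stabilizer (Equiv.Perm (Fin 16)) (0 : Fin 16)).comap pr := by
      rw [Subgroup.mem_comap, MulAction.mem_stabilizer_iff, map_mul, map_inv]
      show (pr h)⁻¹ (pr g 0) = 0
      rw [hgh']
      exact Equiv.symm_apply_apply _ _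
    rw [h1, Subgroup.mem_bot] at h2
    exact (inv_mul_eq_one.1 h2).symm
  have hc : Nat.card E8 = Nat.card (Fin 16) := by
    rw [Nat.card_eq_fintype_card, Nat.card_eq_fintype_card, Fintype.card_fin]
    decide +kernel
  have hsurj : Function.Surjective fun g : E8 => pr g 0 :=
    ((Nat.bijective_iff_injective_and_card _).2 ⟨hinj, hc⟩).2
  have hmem : ∀ g : E8, pr g ∈ G16 := fun g => hr ▸ ⟨g, rfl⟩
  refine ⟨fun x y => ?_⟩
  obtain ⟨g, hg⟩ := hsurj x
  obtain ⟨h, hh⟩ := hsurj y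
  refine ⟨⟨pr h * (pr g)⁻¹, G16.mul_mem (hmem h) (G16.inv_mem (hmem g))⟩, ?_⟩
  show pr h ((pr g)⁻¹ x) = y
  have hg' : pr g 0 = x := hg
  have e : (pr g)⁻¹ x = 0 := by
    rw [← hg']
    exact Equiv.symm_apply_apply _ _
  rw [e]
  exact hh

/-- from fields to homomorphisms -/
theorem cFld (k : Type) [Field k] [NumberField k] (h : Pool.Agent.H32.MQ.G.StNK)
    (hg : ∃ pr : E8 →* Equiv.Perm (Fin 16), Function.Injective pr ∧ pr.range = G16 ∧
      (MulAction.stabilizer (Equiv.Perm (Fin 16)) (0 : Fin 16)).comap pr = ⊥) : ScFld k := by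
  obtain ⟨pr, hpr, hr, hs⟩ := hg
  obtain ⟨κ, hκ, h⟩ := h 16 G16 (cfld_trans pr hr hs) 0 E8 pr hpr hr
  refine ⟨κ⁻¹, inv_pos.2 hκ, fun X => ?_⟩
  have h4 := h k X
  have h6 : {ρ : Gm k →* E8 | ρ ∈ Hs k ∧ (dN ρ : ℝ) ≤ X} =
      {ρ : Gm k →* E8 | Function.Surjective ρ ∧ IsLocallyConstant ρ ∧
        (rdN (fld k (((MulAction.stabilizer (Equiv.Perm (Fin 16)) (0 : Fin 16)).comap
          pr).comap ρ)) : ℝ) ≤ X} := by
    ext ρ
    show ((Function.Surjective ρ ∧ IsLocallyConstant ρ) ∧ (rdN (fld k ρ.ker) : ℝ) ≤ X) ↔ _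
    rw [Set.mem_ofPred_eq, hs, and_assoc]
    rfl
  rw [h6, h4]
  field_simp

/-- from fields to homomorphisms -/
theorem cFld' (k : Type) [Field k] [NumberField k]
    (hg : ∃ pr : E8 →* Equiv.Perm (Fin 16), Function.Injective pr ∧ pr.range = G16 ∧
      (MulAction.stabilizer (Equiv.Perm (Fin 16)) (0 : Fin 16)).comap pr = ⊥) : ScFld k :=
  cFld k Pool.Agent.H32.MQ.G.stNK hg

end Pool.Agent.D8
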