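import Pool.Agent.D8.CDefs
import Pool.Agent.H98.MF.NEnd

/-!
# Malle's conjecture for the dihedral group of order 16: frames containing given primes
-/

set_option autoImplicit false

open scoped BigOperators Pointwise nonZeroDivisors
open NumberField IsDedekindDomain

namespace Pool.Agent.D8

open Pool.Agent.H98.MK (sg)
open Pool.Agent.H98.MF

/-- frames with a given admissible set exist -/
theorem cfrm_of {k : Type} [Field k] [NumberField k] (hL : LIn k) (hi : CISt k) (hr : RecSt k)
    (hf : FrSt k) (S : Finset (HeightOneSpectrum (𝓞 k))) (hS : Pool.Agent.H98.MF.Adm S) :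
    ∃ F : Frm k, F.S = S := by
  classical
  obtain ⟨F⟩ := hf S hS
  obtain ⟨κ, C, A, δ, a1, a2, a3, a4, a5, a6, a7⟩ := exists_sysK hL hr hS F
  have hinj : Function.Injective
      (fun p : (mkSys hL hr hS F κ C A δ a1 a2 a3 a4 a5 a6 a7).P =>
        (p.1 : HeightOneSpectrum (𝓞 k))) := fun p q h => Subtype.ext h
  refine ⟨{ S := S, adm := hS, sys := mkSys hL hr hS F κ C A δ a1 a2 a3 a4 a5 a6 a7,
            pl := fun p => p.1, pl_inj := hinj, pl_iff := ?_, N_eq := fun p => rfl,
            u := F.u, w := F.w, pi := F.ppi, u_mem := F.u_mem, u_gen := F.u_gen,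
            u_ind := F.u_ind, pi_self := F.ord_self,
            pi_other := fun p q hne => F.ord_other p q.1 q.2 fun h => hne (Subtype.ext h),
            ty_eq := fun p j => rfl, J_eq := fun p q _ => rfl,
            lam_eq := fun p => (B.qr_neg_one hL hS F p).symm,
            loc := ?_, gen := ?_, ind := ?_, hch := ?_ }, rfl⟩
  · intro P
    constructor
    · rintro ⟨p, rfl⟩
      exact p.2
    · intro hP
      exact ⟨⟨P, hP⟩, rfl⟩
  · intro p v hv
    rw [← hL.memLS v]
    have e1 : F.ppi p * ∏ j, F.w j ^ (B.tyF F p j).val =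
        (F.ppi p / ∏ j, F.w j ^ (B.tyF F p j).val) * (∏ j, F.w j ^ (B.tyF F p j).val) ^ 2 := by
      rw [pow_two, ← mul_assoc, div_mul_cancel]
    have e2 : F.ppi p * ∏ j, F.w j ^ (B.tyF F p j).val ∈ LS v := by
      rw [e1]
      exact mul_mem (F.loc p v hv) (B.sq_mem_LS v _)
    exact e2
  · intro c
    obtain ⟨x, hx⟩ := hL.weak (pls S) c
    obtain ⟨y, z, hyz⟩ := gen_of hL hi hr hS F x
    refine ⟨y, z, fun v hv => ?_⟩
    rw [← hL.memLS v]
    have e1 : c v * (∏ j, F.u j ^ (y j).val) * ∏ j, F.w j ^ (z j).val =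
        (x / c v)⁻¹ * (x * clF F y z) := by
      unfold clF
      have e0 : ∀ c x A B : kˣ, c * A * B = (x / c)⁻¹ * (x * (A * B)) := by
        intro c x A B
        rw [inv_div, div_eq_mul_inv, mul_assoc, mul_assoc, inv_mul_cancel_left]
      exact e0 _ _ _ _
    have e2 : c v * (∏ j, F.u j ^ (y j).val) * ∏ j, F.w j ^ (z j).val ∈ LS v := by
      rw [e1]
      exact mul_mem (inv_mem (hx v hv)) (B.mem_KS.1 hyz v hv)
    exact e2
  · intro y z h
    refine ind_of hL hr hS F y z (B.mem_KS.2 fun v hv => ?_)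
    rw [hL.memLS v]
    exact h v hv
  · exact B.cheb _ _ hinj fun p => rfl

theorem cfrm_at (k : Type) [Field k] [NumberField k] (S : Finset (HeightOneSpectrum (𝓞 k)))
    (hS : Pool.Agent.H98.MF.Adm S) : ∃ F : Frm k, F.S = S :=
  cfrm_of (B.lin k) (B.ci k (B.lin k)) (B.recSt (nin k)) (B.frSt (nin k)) S hS

/-- frames containing given primes -/
theorem cFrm (k : Type) [Field k] [NumberField k] : ScFrm k := by
  intro T
  obtain ⟨S, hT, hS⟩ := Pool.Agent.H98.MF.B.c1 k T
  obtain ⟨F, hF⟩ := cfrm_at k S hS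
  refine ⟨F, ?_⟩
  rw [hF]
  exact hT

end Pool.Agent.D8
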