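import Pool.Agent.D8.CDefs

/-!
# Malle's conjecture for the dihedral group of order 16 over number fields, row C16: the regular
representation, its index and the number of classes of least index
-/

set_option autoImplicit false

open scoped BigOperators
open NumberField IsDedekindDomain Filter

namespace Pool.Agent.D8

open Pool.Agent.H98.MF
open Pool.Agent.H32.MA (pind mInd bM MinCl cycRel)

/-! ### the regular representation -/

/-- the points of the regular representation -/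
def c16e : E8 ≃ Fin 16 where
  toFun g := ⟨g.b.val + 8 * g.a.val, by rcases g with ⟨b, a⟩; revert b a; decide⟩
  invFun i := ⟨(i.val : ZMod 8), ((i.val / 8 : ℕ) : ZMod 2)⟩
  left_inv := by
    rintro ⟨b, a⟩
    revert b a
    decide
  right_inv := by decide

/-- the regular representation -/
def c16p : E8 →* Equiv.Perm (Fin 16) where
  toFun g := ⟨fun x => c16e (g * c16e.symm x), fun x => c16e (g⁻¹ * c16e.symm x),
    fun x => by
      show c16e (g⁻¹ * c16e.symm (c16e (g * c16e.symm x))) = x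
      rw [Equiv.symm_apply_apply, inv_mul_cancel_left, Equiv.apply_symm_apply],
    fun x => by
      show c16e (g * c16e.symm (c16e (g⁻¹ * c16e.symm x))) = x
      rw [Equiv.symm_apply_apply, mul_inv_cancel_left, Equiv.apply_symm_apply]⟩
  map_one' := by
    refine Equiv.ext fun x => ?_
    show c16e (1 * c16e.symm x) = x
    rw [one_mul, Equiv.apply_symm_apply]
  map_mul' g h := by
    refine Equiv.ext fun x => ?_
    show c16e (g * h * c16e.symm x) = c16e (g * c16e.symm (c16e (h * c16e.symm x)))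
    rw [Equiv.symm_apply_apply, mul_assoc]

theorem c16_apply (g : E8) (x : Fin 16) : c16p g x = c16e (g * c16e.symm x) := rfl

/-- only the identity has a fixed point -/
theorem c16_fix (g : E8) (x : Fin 16) (h : c16p g x = x) : g = 1 := by
  rw [c16_apply, ← Equiv.eq_symm_apply] at h
  exact mul_eq_right.1 h

theorem c16_inj : Function.Injective c16p := by
  rw [injective_iff_map_eq_one]
  intro g h
  refine c16_fix g 0 ?_
  rw [h]
  rfl

theorem c16_rot : (Equiv.swap 0 1 * Equiv.swap 1 2 * Equiv.swap 2 3 * Equiv.swap 3 4 *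
      Equiv.swap 4 5 * Equiv.swap 5 6 * Equiv.swap 6 7) *
    (Equiv.swap 8 9 * Equiv.swap 9 10 * Equiv.swap 10 11 * Equiv.swap 11 12 * Equiv.swap 12 13 *
      Equiv.swap 13 14 * Equiv.swap 14 15 : Equiv.Perm (Fin 16)) = c16p ⟨1, 0⟩ := by
  refine Equiv.ext fun x => ?_
  revert x
  decide

theorem c16_swp : (Equiv.swap 0 8 * Equiv.swap 1 15 * Equiv.swap 2 14 * Equiv.swap 3 13 *
      Equiv.swap 4 12 * Equiv.swap 5 11 * Equiv.swap 6 10 * Equiv.swap 7 9 :
      Equiv.Perm (Fin 16)) = c16p ⟨0, 1⟩ := by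
  refine Equiv.ext fun x => ?_
  revert x
  decide

theorem c16_gen (g : E8) : g = (⟨1, 0⟩ : E8) ^ g.b.val * (⟨0, 1⟩ : E8) ^ g.a.val := by
  rcases g with ⟨b, a⟩
  revert b a
  decide

theorem c16_range : c16p.range = R8 := by
  apply le_antisymm
  · rintro _ ⟨g, rfl⟩
    rw [c16_gen g, map_mul, map_pow, map_pow, ← c16_rot, ← c16_swp]
    exact R8.mul_mem (R8.pow_mem (Subgroup.subset_closure (Or.inl rfl)) _)
      (R8.pow_mem (Subgroup.subset_closure (Or.inr rfl)) _)
  · unfold R8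
    rw [Subgroup.closure_le]
    rintro x (rfl | rfl)
    · rw [c16_rot]
      exact ⟨_, rfl⟩
    · rw [c16_swp]
      exact ⟨_, rfl⟩

theorem c16_mem (g : E8) : c16p g ∈ R8 := c16_range ▸ ⟨g, rfl⟩

/-- the isomorphism with the dihedral group -/
noncomputable def c16iso : E8 ≃* R8 :=
  (MonoidHom.ofInjective c16_inj).trans (MulEquiv.subgroupCongr c16_range)

theorem c16iso_coe (g : E8) : ((c16iso g : R8) : Equiv.Perm (Fin 16)) = c16p g := rfl

theorem c16_card : Nat.card E8 = 16 := by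
  rw [Nat.card_congr c16e, Nat.card_eq_fintype_card, Fintype.card_fin]

theorem c16_cardR : Nat.card R8 = 16 := by
  rw [← Nat.card_congr c16iso.toEquiv, c16_card]

theorem c16_free (g : Equiv.Perm (Fin 16)) (hg : g ∈ R8) (h1 : g ≠ 1) (i : Fin 16) : g i ≠ i := by
  rw [← c16_range] at hg
  obtain ⟨s, rfl⟩ := hg
  intro h
  apply h1
  rw [c16_fix s i h, map_one]

/-- the regular representation -/
theorem cR8 : Nonempty (E8 ≃* R8) ∧ (∀ g ∈ R8, g ≠ 1 → ∀ i : Fin 16, g i ≠ i) ∧
    Nat.card R8 = 16 :=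
  ⟨⟨c16iso⟩, c16_free, c16_cardR⟩

theorem c16_trans : MulAction.IsPretransitive R8 (Fin 16) := by
  constructor
  intro x y
  refine ⟨⟨_, c16_mem (c16e.symm y * (c16e.symm x)⁻¹)⟩, ?_⟩
  show c16e (c16e.symm y * (c16e.symm x)⁻¹ * c16e.symm x) = y
  rw [inv_mul_cancel_right, Equiv.apply_symm_apply]

/-! ### the index -/

/-- the orbit relation -/
private def c16r (s : E8) (x y : Fin 16) : Prop := ∃ k : Fin 8, c16e (s ^ (k : ℕ) * c16e.symm y) = x

private theorem c16_pow8 : ∀ s : E8, s ^ 8 = 1 := by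
  rintro ⟨b, a⟩
  revert b a
  decide +kernel

private theorem c16_rel (s : E8) (x y : Fin 16) :
    (MulAction.orbitRel (Subgroup.zpowers (c16p s)) (Fin 16)) x y ↔ c16r s x y := by
  rw [MulAction.orbitRel_apply]
  constructor
  · rintro ⟨⟨h, hh⟩, h2⟩
    obtain ⟨k, hk⟩ := Subgroup.mem_zpowers_iff.mp hh
    have h3 : s ^ k = s ^ (k % 8).toNat := by
      have h4 : ((k % 8).toNat : ℤ) = k % 8 := Int.toNat_of_nonneg (Int.emod_nonneg _ (by norm_num))
      rw [← zpow_natCast, h4]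
      have h5 : k = 8 * (k / 8) + k % 8 := (Int.mul_ediv_add_emod k 8).symm
      have h6 : (s ^ (8 : ℤ)) = 1 := by exact_mod_cast c16_pow8 s
      calc s ^ k = s ^ (8 * (k / 8) + k % 8) := by rw [← h5]
        _ = s ^ (k % 8) := by rw [zpow_add, zpow_mul, h6, one_zpow, one_mul]
    have h7 : (k % 8).toNat < 8 := by
      have := Int.emod_lt_of_pos k (show (0 : ℤ) < 8 by norm_num)
      omega
    refine ⟨⟨(k % 8).toNat, h7⟩, ?_⟩
    have h8 : h y = x := h2
    rw [← c16_apply, ← h8, ← hk, ← map_zpow, h3]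
  · rintro ⟨k, hk⟩
    refine ⟨⟨c16p s ^ (k : ℕ), Subgroup.npow_mem_zpowers _ _⟩, ?_⟩
    show (c16p s ^ (k : ℕ)) y = x
    rw [← map_pow, c16_apply, hk]

/-- the number of orbits -/
private def c16c (s : E8) : ℕ :=
  (Finset.univ.filter
    (fun x : Fin 16 => ∀ k : Fin 8, x ≤ c16e (s ^ (k : ℕ) * c16e.symm x))).card

private theorem c16_pind (s : E8) : pind (c16p s) = 16 - c16c s := by
  unfold pind c16c
  congr 1
  rw [← Fintype.card_subtype, ← Nat.card_eq_fintype_card]
  symm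
  refine Nat.card_congr (Equiv.ofBijective (fun x => (Quotient.mk _ x.1 :
    MulAction.orbitRel.Quotient (Subgroup.zpowers (c16p s)) (Fin 16))) ⟨?_, ?_⟩)
  · rintro ⟨x, hx⟩ ⟨y, hy⟩ h
    apply Subtype.ext
    have h1 := Quotient.exact h
    obtain ⟨k, hk⟩ := (c16_rel s x y).mp h1
    obtain ⟨l, hl⟩ := (c16_rel s y x).mp
      ((MulAction.orbitRel (Subgroup.zpowers (c16p s)) (Fin 16)).iseqv.symm h1)
    exact le_antisymm ((hx l).trans_eq hl) ((hy k).trans_eq hk)
  · intro q
    induction q using Quotient.inductionOn with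
    | h x =>
      obtain ⟨k, -, hk⟩ := Finset.exists_min_image (Finset.univ : Finset (Fin 8))
        (fun k : Fin 8 => c16e (s ^ (k : ℕ) * c16e.symm x)) ⟨0, Finset.mem_univ _⟩
      have h1 : (MulAction.orbitRel (Subgroup.zpowers (c16p s)) (Fin 16))
        (c16e (s ^ (k : ℕ) * c16e.symm x)) x := (c16_rel s _ _).mpr ⟨k, rfl⟩
      refine ⟨⟨c16e (s ^ (k : ℕ) * c16e.symm x), fun j => ?_⟩, Quotient.sound h1⟩
      have h2 : (MulAction.orbitRel (Subgroup.zpowers (c16p s)) (Fin 16))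
        (c16e (s ^ (j : ℕ) * c16e.symm (c16e (s ^ (k : ℕ) * c16e.symm x))))
        (c16e (s ^ (k : ℕ) * c16e.symm x)) := (c16_rel s _ _).mpr ⟨j, rfl⟩
      obtain ⟨l, hl⟩ := (c16_rel s _ _).mp
        ((MulAction.orbitRel (Subgroup.zpowers (c16p s)) (Fin 16)).iseqv.trans h2 h1)
      exact (hk l (Finset.mem_univ _)).trans_eq hl

/-- the involutions -/
private def c16i (s : E8) : Prop := s = ⟨4, 0⟩ ∨ s.a = 1

private instance (s : E8) : Decidable (c16i s) := inferInstanceAs (Decidable (_ ∨ _))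

private theorem c16_ge : ∀ s : E8, s ≠ 1 → 8 ≤ 16 - c16c s := by
  rintro ⟨b, a⟩
  revert b a
  decide +kernel

private theorem c16_eight : ∀ s : E8, s ≠ 1 → 16 - c16c s = 8 → c16i s := by
  rintro ⟨b, a⟩
  revert b a
  decide +kernel

private theorem c16_invol : ∀ s : E8, c16i s → s * s = 1 ∧ s ≠ 1 ∧ 16 - c16c s = 8 := by
  rintro ⟨b, a⟩
  revert b a
  decide +kernel

theorem c16_mInd : mInd R8 = 8 := by
  have h4 : c16i ⟨4, 0⟩ := Or.inl rfl
  have h0 := c16_invol _ h4
  unfold mInd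
  have h1 : 8 ∈ {j | ∃ g ∈ R8, g ≠ 1 ∧ pind g = j} := by
    refine ⟨c16p ⟨4, 0⟩, c16_mem _, ?_, ?_⟩
    · intro h
      exact h0.2.1 (c16_inj (h.trans (map_one c16p).symm))
    · rw [c16_pind, h0.2.2]
  refine le_antisymm (Nat.sInf_le h1) ?_
  refine le_csInf ⟨8, h1⟩ ?_
  rintro j ⟨g, hg, hg1, rfl⟩
  rw [← c16_range] at hg
  obtain ⟨s, rfl⟩ := hg
  rw [c16_pind]
  refine c16_ge s ?_
  rintro rfl
  exact hg1 (map_one c16p)

/-! ### the classes of least index -/

/-- representatives of the classes of involutions -/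
private def c16s (i : Fin 3) : E8 := if i = 0 then ⟨4, 0⟩ else if i = 1 then ⟨0, 1⟩ else ⟨1, 1⟩

private theorem c16s_i : ∀ i : Fin 3, c16i (c16s i) := by decide +kernel

private theorem c16_rep : ∀ s : E8, c16i s → ∃ i : Fin 3, ∃ u : E8, u * c16s i * u⁻¹ = s := by
  have h : ∀ b : ZMod 8, ∀ a : ZMod 2, c16i ⟨b, a⟩ →
      ∃ i : Fin 3, ∃ b' : ZMod 8, ∃ a' : ZMod 2,
        (⟨b', a'⟩ : E8) * c16s i * (⟨b', a'⟩ : E8)⁻¹ = ⟨b, a⟩ := by decide +kernel
  rintro ⟨b, a⟩ hs
  obtain ⟨i, b', a', h'⟩ := h b a hs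
  exact ⟨i, ⟨b', a'⟩, h'⟩

private theorem c16_ncj : ∀ i j : Fin 3, ∀ u : E8, u * c16s i * u⁻¹ = c16s j → i = j := by
  have h : ∀ i j : Fin 3, ∀ b : ZMod 8, ∀ a : ZMod 2,
      (⟨b, a⟩ : E8) * c16s i * (⟨b, a⟩ : E8)⁻¹ = c16s j → i = j := by decide +kernel
  rintro i j ⟨b, a⟩
  exact h i j b a

private theorem c16_odd {k : Type} [Field k] [NumberField k]
    (σ : AlgebraicClosure k ≃ₐ[k] AlgebraicClosure k) (j : ℕ)
    (h : ∀ ζ : AlgebraicClosure k, ζ ^ Nat.card R8 = 1 → σ ζ = ζ ^ j) : Odd j := by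
  have h1 := h (-1) (by rw [c16_cardR]; exact Even.neg_one_pow (by decide))
  rw [map_neg, map_one] at h1
  rcases Nat.even_or_odd j with h2 | h2
  · rw [h2.neg_one_pow] at h1
    exfalso
    have h3 : (2 : AlgebraicClosure k) = 0 := by
      have : (1 : AlgebraicClosure k) + 1 = 0 := by
        nth_rewrite 2 [← h1]
        exact add_neg_cancel 1
      rw [← this]
      norm_num
    exact two_ne_zero h3
  · exact h2

private theorem c16_le (g : R8) (h : pind (g : Equiv.Perm (Fin 16)) = mInd R8) (h1 : g ≠ 1) :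
    ∃ s : E8, c16i s ∧ c16iso s = g := by
  obtain ⟨s, rfl⟩ := c16iso.surjective g
  refine ⟨s, ?_, rfl⟩
  have h2 : pind (c16p s) = 8 := by
    rw [← c16_mInd, ← h]
    rfl
  rw [c16_pind] at h2
  refine c16_eight s ?_ h2
  rintro rfl
  exact h1 (map_one _)

private theorem c16_rel_eq {k : Type} [Field k] [NumberField k] (c c' : MinCl R8)
    (h : cycRel k R8 c c') : c = c' := by
  obtain ⟨σ, j, hj, g, hg, hg'⟩ := h
  have h1 := c16_odd σ j hj
  obtain ⟨g0, hg0, hne, hp⟩ := c.2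
  obtain ⟨s, hs, hsg⟩ := c16_le g0 hp hne
  have h2 : g0 * g0 = 1 := by
    rw [← hsg, ← map_mul, (c16_invol s hs).1, map_one]
  have h3 : g * g = 1 := by
    have h4 : IsConj g0 g := by
      rw [← ConjClasses.mk_eq_mk_iff_isConj, hg0, hg]
    obtain ⟨u, hu⟩ := isConj_iff.1 h4
    rw [← hu]
    calc u * g0 * u⁻¹ * (u * g0 * u⁻¹) = u * (g0 * g0) * u⁻¹ := by group
      _ = 1 := by rw [h2, mul_one, mul_inv_cancel]
  have h5 : g ^ j = g := by
    obtain ⟨m, rfl⟩ := h1
    rw [pow_succ, pow_mul, pow_two, h3, one_pow, one_mul]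
  apply Subtype.ext
  rw [← hg, ← hg', h5]

/-- the class of a representative -/
private noncomputable def c16q (i : Fin 3) : MinCl R8 :=
  ⟨ConjClasses.mk (c16iso (c16s i)), c16iso (c16s i), rfl, by
    intro h
    exact (c16_invol _ (c16s_i i)).2.1 (c16iso.injective (h.trans (map_one _).symm)), by
    rw [c16iso_coe, c16_pind, (c16_invol _ (c16s_i i)).2.2, c16_mInd]⟩

theorem c16_bM (k : Type) [Field k] [NumberField k] : bM k R8 = 3 := by
  have hb : Function.Bijective (fun i : Fin 3 => (Quot.mk (cycRel k R8) (c16q i))) := by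
    constructor
    · intro i j hij
      have h1 : c16q i = c16q j := congrArg (Quot.lift id (fun a b => c16_rel_eq a b)) hij
      have h2 : ConjClasses.mk (c16iso (c16s i)) = ConjClasses.mk (c16iso (c16s j)) :=
        congrArg Subtype.val h1
      rw [ConjClasses.mk_eq_mk_iff_isConj, isConj_iff] at h2
      obtain ⟨u, hu⟩ := h2
      obtain ⟨v, rfl⟩ := c16iso.surjective u
      rw [← map_inv, ← map_mul, ← map_mul] at hu
      exact c16_ncj i j v (c16iso.injective hu)
    · intro q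
      induction q using Quot.ind with
      | mk c =>
        obtain ⟨g, hg, hne, hp⟩ := c.2
        obtain ⟨s, hs, hsg⟩ := c16_le g hp hne
        obtain ⟨i, u, hu⟩ := c16_rep s hs
        refine ⟨i, congrArg (Quot.mk _) ?_⟩
        apply Subtype.ext
        rw [← hg]
        show ConjClasses.mk (c16iso (c16s i)) = ConjClasses.mk g
        rw [ConjClasses.mk_eq_mk_iff_isConj, isConj_iff]
        refine ⟨c16iso u, ?_⟩
        rw [← map_inv, ← map_mul, ← map_mul, hu, hsg]
  unfold bM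
  rw [← Nat.card_congr (Equiv.ofBijective _ hb), Nat.card_eq_fintype_card, Fintype.card_fin]

theorem cGrp (k : Type) [Field k] [NumberField k] : ScGrp k :=
  ⟨c16_trans, c16_mInd, c16_bM k⟩

end Pool.Agent.D8
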