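import Pool.Agent.D8.CDefs

/-!
# Malle's conjecture for the dihedral group of order 16 over number fields, row C16: the regular
representation, its index and the number of classes of least index
-/

set_option autoImplicit false

open scoped BigOperators
open NumberField IsDedekindDomain Filter

namespace Pool.Agent.D8

open Pool.Agent.H98.MF
open Pool.Agent.H32.MA (pind mInd bM MinCl cycRel)

/-- the group of `MZ/KDefs` -/
abbrev GD : Subgroup (Equiv.Perm (Fin 16)) := Pool.Agent.H32.MZ.D8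

/-! ### the regular representation -/

/-- the points of the regular representation -/
def d16e : E8 ≃ Fin 16 where
  toFun g := ⟨2 * g.b.val + g.a.val, by rcases g with ⟨b, a⟩; revert b a; decide⟩
  invFun i := ⟨((i.val / 2 : ℕ) : ZMod 8), (i.val : ZMod 2)⟩
  left_inv := by
    rintro ⟨b, a⟩
    revert b a
    decide
  right_inv := by decide

/-- the regular representation -/
def d16p : E8 →* Equiv.Perm (Fin 16) where
  toFun g := ⟨fun x => d16e (g * d16e.symm x), fun x => d16e (g⁻¹ * d16e.symm x),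
    fun x => by
      show d16e (g⁻¹ * d16e.symm (d16e (g * d16e.symm x))) = x
      rw [Equiv.symm_apply_apply, inv_mul_cancel_left, Equiv.apply_symm_apply],
    fun x => by
      show d16e (g * d16e.symm (d16e (g⁻¹ * d16e.symm x))) = x
      rw [Equiv.symm_apply_apply, mul_inv_cancel_left, Equiv.apply_symm_apply]⟩
  map_one' := by
    refine Equiv.ext fun x => ?_
    show d16e (1 * d16e.symm x) = x
    rw [one_mul, Equiv.apply_symm_apply]
  map_mul' g h := by
    refine Equiv.ext fun x => ?_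
    show d16e (g * h * d16e.symm x) = d16e (g * d16e.symm (d16e (h * d16e.symm x)))
    rw [Equiv.symm_apply_apply, mul_assoc]

theorem d16_apply (g : E8) (x : Fin 16) : d16p g x = d16e (g * d16e.symm x) := rfl

/-- only the identity has a fixed point -/
theorem d16_fix (g : E8) (x : Fin 16) (h : d16p g x = x) : g = 1 := by
  rw [d16_apply, ← Equiv.eq_symm_apply] at h
  exact mul_eq_right.1 h

theorem d16_inj : Function.Injective d16p := by
  rw [injective_iff_map_eq_one]
  intro g h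
  refine d16_fix g 0 ?_
  rw [h]
  rfl

theorem d16_rot : (finRotate 16 ^ 2 : Equiv.Perm (Fin 16)) = d16p ⟨1, 0⟩ := by
  refine Equiv.ext fun x => ?_
  revert x
  decide

theorem d16_swp : (Equiv.subLeft 1 : Equiv.Perm (Fin 16)) = d16p ⟨0, 1⟩ := by
  refine Equiv.ext fun x => ?_
  revert x
  decide

theorem d16_gen (g : E8) : g = (⟨1, 0⟩ : E8) ^ g.b.val * (⟨0, 1⟩ : E8) ^ g.a.val := by
  rcases g with ⟨b, a⟩
  revert b a
  decide

theorem d16_range : d16p.range = GD := by
  apply le_antisymm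
  · rintro _ ⟨g, rfl⟩
    rw [d16_gen g, map_mul, map_pow, map_pow, ← d16_rot, ← d16_swp]
    exact GD.mul_mem (GD.pow_mem (Subgroup.subset_closure (Or.inl rfl)) _)
      (GD.pow_mem (Subgroup.subset_closure (Or.inr rfl)) _)
  · unfold GD Pool.Agent.H32.MZ.D8
    rw [Subgroup.closure_le]
    rintro x (rfl | rfl)
    · rw [d16_rot]
      exact ⟨_, rfl⟩
    · rw [d16_swp]
      exact ⟨_, rfl⟩

theorem d16_mem (g : E8) : d16p g ∈ GD := d16_range ▸ ⟨g, rfl⟩

/-- the isomorphism with the dihedral group -/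
noncomputable def d16iso : E8 ≃* GD :=
  (MonoidHom.ofInjective d16_inj).trans (MulEquiv.subgroupCongr d16_range)

theorem d16iso_coe (g : E8) : ((d16iso g : GD) : Equiv.Perm (Fin 16)) = d16p g := rfl

theorem d16_card : Nat.card E8 = 16 := by
  rw [Nat.card_congr d16e, Nat.card_eq_fintype_card, Fintype.card_fin]

theorem d16_cardR : Nat.card GD = 16 := by
  rw [← Nat.card_congr d16iso.toEquiv, d16_card]

theorem d16_free (g : Equiv.Perm (Fin 16)) (hg : g ∈ GD) (h1 : g ≠ 1) (i : Fin 16) : g i ≠ i := by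
  rw [← d16_range] at hg
  obtain ⟨s, rfl⟩ := hg
  intro h
  apply h1
  rw [d16_fix s i h, map_one]

/-- the regular representation -/
theorem cGDn : Nonempty (E8 ≃* GD) ∧ (∀ g ∈ GD, g ≠ 1 → ∀ i : Fin 16, g i ≠ i) ∧
    Nat.card GD = 16 :=
  ⟨⟨d16iso⟩, d16_free, d16_cardR⟩

theorem d16_trans : MulAction.IsPretransitive GD (Fin 16) := by
  constructor
  intro x y
  refine ⟨⟨_, d16_mem (d16e.symm y * (d16e.symm x)⁻¹)⟩, ?_⟩
  show d16e (d16e.symm y * (d16e.symm x)⁻¹ * d16e.symm x) = y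
  rw [inv_mul_cancel_right, Equiv.apply_symm_apply]

/-! ### the index -/

/-- the orbit relation -/
private def d16r (s : E8) (x y : Fin 16) : Prop := ∃ k : Fin 8, d16e (s ^ (k : ℕ) * d16e.symm y) = x

private theorem d16_pow8 : ∀ s : E8, s ^ 8 = 1 := by
  rintro ⟨b, a⟩
  revert b a
  decide +kernel

private theorem d16_rel (s : E8) (x y : Fin 16) :
    (MulAction.orbitRel (Subgroup.zpowers (d16p s)) (Fin 16)) x y ↔ d16r s x y := by
  rw [MulAction.orbitRel_apply]
  constructor
  · rintro ⟨⟨h, hh⟩, h2⟩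
    obtain ⟨k, hk⟩ := Subgroup.mem_zpowers_iff.mp hh
    have h3 : s ^ k = s ^ (k % 8).toNat := by
      have h4 : ((k % 8).toNat : ℤ) = k % 8 := Int.toNat_of_nonneg (Int.emod_nonneg _ (by norm_num))
      rw [← zpow_natCast, h4]
      have h5 : k = 8 * (k / 8) + k % 8 := (Int.mul_ediv_add_emod k 8).symm
      have h6 : (s ^ (8 : ℤ)) = 1 := by exact_mod_cast d16_pow8 s
      calc s ^ k = s ^ (8 * (k / 8) + k % 8) := by rw [← h5]
        _ = s ^ (k % 8) := by rw [zpow_add, zpow_mul, h6, one_zpow, one_mul]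
    have h7 : (k % 8).toNat < 8 := by
      have := Int.emod_lt_of_pos k (show (0 : ℤ) < 8 by norm_num)
      omega
    refine ⟨⟨(k % 8).toNat, h7⟩, ?_⟩
    have h8 : h y = x := h2
    rw [← d16_apply, ← h8, ← hk, ← map_zpow, h3]
  · rintro ⟨k, hk⟩
    refine ⟨⟨d16p s ^ (k : ℕ), Subgroup.npow_mem_zpowers _ _⟩, ?_⟩
    show (d16p s ^ (k : ℕ)) y = x
    rw [← map_pow, d16_apply, hk]

/-- the number of orbits -/
private def d16c (s : E8) : ℕ :=
  (Finset.univ.filter
    (fun x : Fin 16 => ∀ k : Fin 8, x ≤ d16e (s ^ (k : ℕ) * d16e.symm x))).card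

private theorem d16_pind (s : E8) : pind (d16p s) = 16 - d16c s := by
  unfold pind d16c
  congr 1
  rw [← Fintype.card_subtype, ← Nat.card_eq_fintype_card]
  symm
  refine Nat.card_congr (Equiv.ofBijective (fun x => (Quotient.mk _ x.1 :
    MulAction.orbitRel.Quotient (Subgroup.zpowers (d16p s)) (Fin 16))) ⟨?_, ?_⟩)
  · rintro ⟨x, hx⟩ ⟨y, hy⟩ h
    apply Subtype.ext
    have h1 := Quotient.exact h
    obtain ⟨k, hk⟩ := (d16_rel s x y).mp h1
    obtain ⟨l, hl⟩ := (d16_rel s y x).mp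
      ((MulAction.orbitRel (Subgroup.zpowers (d16p s)) (Fin 16)).iseqv.symm h1)
    exact le_antisymm ((hx l).trans_eq hl) ((hy k).trans_eq hk)
  · intro q
    induction q using Quotient.inductionOn with
    | h x =>
      obtain ⟨k, -, hk⟩ := Finset.exists_min_image (Finset.univ : Finset (Fin 8))
        (fun k : Fin 8 => d16e (s ^ (k : ℕ) * d16e.symm x)) ⟨0, Finset.mem_univ _⟩
      have h1 : (MulAction.orbitRel (Subgroup.zpowers (d16p s)) (Fin 16))
        (d16e (s ^ (k : ℕ) * d16e.symm x)) x := (d16_rel s _ _).mpr ⟨k, rfl⟩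
      refine ⟨⟨d16e (s ^ (k : ℕ) * d16e.symm x), fun j => ?_⟩, Quotient.sound h1⟩
      have h2 : (MulAction.orbitRel (Subgroup.zpowers (d16p s)) (Fin 16))
        (d16e (s ^ (j : ℕ) * d16e.symm (d16e (s ^ (k : ℕ) * d16e.symm x))))
        (d16e (s ^ (k : ℕ) * d16e.symm x)) := (d16_rel s _ _).mpr ⟨j, rfl⟩
      obtain ⟨l, hl⟩ := (d16_rel s _ _).mp
        ((MulAction.orbitRel (Subgroup.zpowers (d16p s)) (Fin 16)).iseqv.trans h2 h1)
      exact (hk l (Finset.mem_univ _)).trans_eq hl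

/-- the involutions -/
private def d16i (s : E8) : Prop := s = ⟨4, 0⟩ ∨ s.a = 1

private instance (s : E8) : Decidable (d16i s) := inferInstanceAs (Decidable (_ ∨ _))

private theorem d16_ge : ∀ s : E8, s ≠ 1 → 8 ≤ 16 - d16c s := by
  rintro ⟨b, a⟩
  revert b a
  decide +kernel

private theorem d16_eight : ∀ s : E8, s ≠ 1 → 16 - d16c s = 8 → d16i s := by
  rintro ⟨b, a⟩
  revert b a
  decide +kernel

private theorem d16_invol : ∀ s : E8, d16i s → s * s = 1 ∧ s ≠ 1 ∧ 16 - d16c s = 8 := by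
  rintro ⟨b, a⟩
  revert b a
  decide +kernel

theorem d16_mInd : mInd GD = 8 := by
  have h4 : d16i ⟨4, 0⟩ := Or.inl rfl
  have h0 := d16_invol _ h4
  unfold mInd
  have h1 : 8 ∈ {j | ∃ g ∈ GD, g ≠ 1 ∧ pind g = j} := by
    refine ⟨d16p ⟨4, 0⟩, d16_mem _, ?_, ?_⟩
    · intro h
      exact h0.2.1 (d16_inj (h.trans (map_one d16p).symm))
    · rw [d16_pind, h0.2.2]
  refine le_antisymm (Nat.sInf_le h1) ?_
  refine le_csInf ⟨8, h1⟩ ?_
  rintro j ⟨g, hg, hg1, rfl⟩
  rw [← d16_range] at hg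
  obtain ⟨s, rfl⟩ := hg
  rw [d16_pind]
  refine d16_ge s ?_
  rintro rfl
  exact hg1 (map_one d16p)

/-! ### the classes of least index -/

/-- representatives of the classes of involutions -/
private def d16s (i : Fin 3) : E8 := if i = 0 then ⟨4, 0⟩ else if i = 1 then ⟨0, 1⟩ else ⟨1, 1⟩

private theorem d16s_i : ∀ i : Fin 3, d16i (d16s i) := by decide +kernel

private theorem d16_rep : ∀ s : E8, d16i s → ∃ i : Fin 3, ∃ u : E8, u * d16s i * u⁻¹ = s := by
  have h : ∀ b : ZMod 8, ∀ a : ZMod 2, d16i ⟨b, a⟩ →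
      ∃ i : Fin 3, ∃ b' : ZMod 8, ∃ a' : ZMod 2,
        (⟨b', a'⟩ : E8) * d16s i * (⟨b', a'⟩ : E8)⁻¹ = ⟨b, a⟩ := by decide +kernel
  rintro ⟨b, a⟩ hs
  obtain ⟨i, b', a', h'⟩ := h b a hs
  exact ⟨i, ⟨b', a'⟩, h'⟩

private theorem d16_ncj : ∀ i j : Fin 3, ∀ u : E8, u * d16s i * u⁻¹ = d16s j → i = j := by
  have h : ∀ i j : Fin 3, ∀ b : ZMod 8, ∀ a : ZMod 2,
      (⟨b, a⟩ : E8) * d16s i * (⟨b, a⟩ : E8)⁻¹ = d16s j → i = j := by decide +kernel
  rintro i j ⟨b, a⟩
  exact h i j b a

private theorem d16_odd {k : Type} [Field k] [NumberField k]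
    (σ : AlgebraicClosure k ≃ₐ[k] AlgebraicClosure k) (j : ℕ)
    (h : ∀ ζ : AlgebraicClosure k, ζ ^ Nat.card GD = 1 → σ ζ = ζ ^ j) : Odd j := by
  have h1 := h (-1) (by rw [d16_cardR]; exact Even.neg_one_pow (by decide))
  rw [map_neg, map_one] at h1
  rcases Nat.even_or_odd j with h2 | h2
  · rw [h2.neg_one_pow] at h1
    exfalso
    have h3 : (2 : AlgebraicClosure k) = 0 := by
      have : (1 : AlgebraicClosure k) + 1 = 0 := by
        nth_rewrite 2 [← h1]
        exact add_neg_cancel 1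
      rw [← this]
      norm_num
    exact two_ne_zero h3
  · exact h2

private theorem d16_le (g : GD) (h : pind (g : Equiv.Perm (Fin 16)) = mInd GD) (h1 : g ≠ 1) :
    ∃ s : E8, d16i s ∧ d16iso s = g := by
  obtain ⟨s, rfl⟩ := d16iso.surjective g
  refine ⟨s, ?_, rfl⟩
  have h2 : pind (d16p s) = 8 := by
    rw [← d16_mInd, ← h]
    rfl
  rw [d16_pind] at h2
  refine d16_eight s ?_ h2
  rintro rfl
  exact h1 (map_one _)

private theorem d16_rel_eq {k : Type} [Field k] [NumberField k] (c c' : MinCl GD)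
    (h : cycRel k GD c c') : c = c' := by
  obtain ⟨σ, j, hj, g, hg, hg'⟩ := h
  have h1 := d16_odd σ j hj
  obtain ⟨g0, hg0, hne, hp⟩ := c.2
  obtain ⟨s, hs, hsg⟩ := d16_le g0 hp hne
  have h2 : g0 * g0 = 1 := by
    rw [← hsg, ← map_mul, (d16_invol s hs).1, map_one]
  have h3 : g * g = 1 := by
    have h4 : IsConj g0 g := by
      rw [← ConjClasses.mk_eq_mk_iff_isConj, hg0, hg]
    obtain ⟨u, hu⟩ := isConj_iff.1 h4
    rw [← hu]
    calc u * g0 * u⁻¹ * (u * g0 * u⁻¹) = u * (g0 * g0) * u⁻¹ := by group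
      _ = 1 := by rw [h2, mul_one, mul_inv_cancel]
  have h5 : g ^ j = g := by
    obtain ⟨m, rfl⟩ := h1
    rw [pow_succ, pow_mul, pow_two, h3, one_pow, one_mul]
  apply Subtype.ext
  rw [← hg, ← hg', h5]

/-- the class of a representative -/
private noncomputable def d16q (i : Fin 3) : MinCl GD :=
  ⟨ConjClasses.mk (d16iso (d16s i)), d16iso (d16s i), rfl, by
    intro h
    exact (d16_invol _ (d16s_i i)).2.1 (d16iso.injective (h.trans (map_one _).symm)), by
    rw [d16iso_coe, d16_pind, (d16_invol _ (d16s_i i)).2.2, d16_mInd]⟩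

theorem d16_bM (k : Type) [Field k] [NumberField k] : bM k GD = 3 := by
  have hb : Function.Bijective (fun i : Fin 3 => (Quot.mk (cycRel k GD) (d16q i))) := by
    constructor
    · intro i j hij
      have h1 : d16q i = d16q j := congrArg (Quot.lift id (fun a b => d16_rel_eq a b)) hij
      have h2 : ConjClasses.mk (d16iso (d16s i)) = ConjClasses.mk (d16iso (d16s j)) :=
        congrArg Subtype.val h1
      rw [ConjClasses.mk_eq_mk_iff_isConj, isConj_iff] at h2
      obtain ⟨u, hu⟩ := h2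
      obtain ⟨v, rfl⟩ := d16iso.surjective u
      rw [← map_inv, ← map_mul, ← map_mul] at hu
      exact d16_ncj i j v (d16iso.injective hu)
    · intro q
      induction q using Quot.ind with
      | mk c =>
        obtain ⟨g, hg, hne, hp⟩ := c.2
        obtain ⟨s, hs, hsg⟩ := d16_le g hp hne
        obtain ⟨i, u, hu⟩ := d16_rep s hs
        refine ⟨i, congrArg (Quot.mk _) ?_⟩
        apply Subtype.ext
        rw [← hg]
        show ConjClasses.mk (d16iso (d16s i)) = ConjClasses.mk g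
        rw [ConjClasses.mk_eq_mk_iff_isConj, isConj_iff]
        refine ⟨d16iso u, ?_⟩
        rw [← map_inv, ← map_mul, ← map_mul, hu, hsg]
  unfold bM
  rw [← Nat.card_congr (Equiv.ofBijective _ hb), Nat.card_eq_fintype_card, Fintype.card_fin]

theorem cGrpD (k : Type) [Field k] [NumberField k] : ScGrpD k :=
  ⟨d16_trans, d16_mInd, d16_bM k, d16_cardR⟩

/-- the regular representation as a homomorphism -/
theorem cGDhom : ∃ pr : E8 →* Equiv.Perm (Fin 16), Function.Injective pr ∧ pr.range = GD ∧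
    (MulAction.stabilizer (Equiv.Perm (Fin 16)) (0 : Fin 16)).comap pr = ⊥ := by
  refine ⟨d16p, d16_inj, d16_range, ?_⟩
  rw [eq_bot_iff]
  intro g hg
  rw [Subgroup.mem_comap, MulAction.mem_stabilizer_iff] at hg
  exact d16_fix g 0 hg

end Pool.Agent.D8
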