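import Pool.Agent.D8.CDefs
import Pool.Agent.D8.BBx0
import Pool.Agent.D8.ACntA

/-!
# The dihedral group of order 16 over a number field: row C14, the number of homomorphisms
-/

set_option autoImplicit false

open scoped BigOperators Topology
open NumberField IsDedekindDomain Filter

namespace Pool.Agent.D8

open Pool.Agent.H98.MF

section

variable {k : Type} [Field k] [NumberField k] (Fr : Frm k) (Rk : RxF k)

theorem chom_fin (ρ : Gm k →* E8) (h : ρ ∈ Hs k) : (Rw Fr Rk ρ).Finite := by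
  refine (ct_tau_finite Fr Rk ρ h.2).subset fun p hp h1 => hp ?_
  rw [h1, one_pow]

open Classical in
/-- the exceptional primes of a homomorphism -/
noncomputable def chomR (ρ : Gm k →* E8) : Finset Fr.sys.P :=
  if h : (Rw Fr Rk ρ).Finite then h.toFinset else ∅

theorem chomR_coe (ρ : Gm k →* E8) (h : ρ ∈ Hs k) :
    (chomR Fr Rk ρ : Set Fr.sys.P) = Rw Fr Rk ρ := by
  unfold chomR
  rw [dif_pos (chom_fin Fr Rk ρ h), Set.Finite.coe_toFinset]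

/-- the homomorphisms of bounded discriminant -/
def chomZ (k : Type) [Field k] [NumberField k] (X : ℝ) : Set (Gm k →* E8) :=
  {ρ | ρ ∈ Hs k ∧ (dN ρ : ℝ) ≤ X}

theorem chom_AR (R : Finset Fr.sys.P) (X : ℝ) (ρ : Gm k →* E8) :
    ρ ∈ AR Fr Rk R X ↔ ρ ∈ chomZ k X ∧ chomR Fr Rk ρ = R := by
  constructor
  · rintro ⟨h1, h2, h3⟩
    refine ⟨⟨h1, h3⟩, ?_⟩
    rw [← chomR_coe Fr Rk ρ h1] at h2
    exact Finset.coe_injective h2
  · rintro ⟨⟨h1, h3⟩, h2⟩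
    refine ⟨h1, ?_, h3⟩
    rw [← h2, chomR_coe Fr Rk ρ h1]

theorem chom_nm (R : Finset Fr.sys.P) : (1 : ℝ) ≤ (Fr.sys.nm R : ℝ) := by
  exact_mod_cast Fr.sys.one_le_nm R

/-- only finitely many sets of exceptional primes occur -/
theorem chom_T {C : ℝ} (hC : 0 ≤ C) {X : ℝ} (hX : 2 ≤ X)
    (hb : ∀ R : Finset Fr.sys.P, (AR Fr Rk R X).Finite ∧ ((AR Fr Rk R X).ncard : ℝ) ≤
      C * (Fr.sys.nm R : ℝ) ^ (-(5 / 4) : ℝ) * (X ^ (1 / 8 : ℝ) * Real.log X ^ 2))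
    (R : Finset Fr.sys.P) (hR : R ∉ Fr.sys.bx (C * (X ^ (1 / 8 : ℝ) * Real.log X ^ 2))) :
    AR Fr Rk R X = ∅ := by
  by_contra hne
  apply hR
  rw [Fr.sys.mem_bx]
  have h1 : (AR Fr Rk R X).Nonempty := Set.nonempty_iff_ne_empty.2 hne
  have h2 : 1 ≤ (AR Fr Rk R X).ncard :=
    Nat.one_le_iff_ne_zero.2 (Set.ncard_ne_zero_of_mem h1.some_mem (hb R).1)
  have h3 : (1 : ℝ) ≤ ((AR Fr Rk R X).ncard : ℝ) := by exact_mod_cast h2
  have h4 := h3.trans (hb R).2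
  have hn := chom_nm Fr R
  have h0 : (0 : ℝ) ≤ X ^ (1 / 8 : ℝ) * Real.log X ^ 2 :=
    mul_nonneg (Real.rpow_nonneg (by linarith) _) (sq_nonneg _)
  have h5 : (Fr.sys.nm R : ℝ) ^ (-(5 / 4) : ℝ) ≤ (Fr.sys.nm R : ℝ) ^ (-1 : ℝ) :=
    Real.rpow_le_rpow_of_exponent_le hn (by norm_num)
  have h6 : (Fr.sys.nm R : ℝ) ^ (-1 : ℝ) = (Fr.sys.nm R : ℝ)⁻¹ := Real.rpow_neg_one _
  have hpos : (0 : ℝ) < (Fr.sys.nm R : ℝ) := by linarith
  have h7 : 1 ≤ C * (X ^ (1 / 8 : ℝ) * Real.log X ^ 2) * (Fr.sys.nm R : ℝ)⁻¹ := by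
    refine h4.trans ?_
    have h8 := mul_le_mul_of_nonneg_left (h5.trans h6.le) (mul_nonneg hC h0)
    calc C * (Fr.sys.nm R : ℝ) ^ (-(5 / 4) : ℝ) * (X ^ (1 / 8 : ℝ) * Real.log X ^ 2)
        = C * (X ^ (1 / 8 : ℝ) * Real.log X ^ 2) * (Fr.sys.nm R : ℝ) ^ (-(5 / 4) : ℝ) := by ring
      _ ≤ _ := h8
  have h9 := mul_le_mul_of_nonneg_right h7 hpos.le
  rw [one_mul, mul_assoc, inv_mul_cancel₀ hpos.ne', mul_one] at h9
  exact h9

/-- the number of homomorphisms is the sum over the sets of exceptional primes -/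
theorem chom_sum {X : ℝ} (T : Finset (Finset Fr.sys.P))
    (hb : ∀ R : Finset Fr.sys.P, (AR Fr Rk R X).Finite)
    (hT : ∀ R : Finset Fr.sys.P, R ∉ T → AR Fr Rk R X = ∅) :
    (chomZ k X).ncard = ∑ R ∈ T, (AR Fr Rk R X).ncard := by
  classical
  have hmem : ∀ ρ ∈ chomZ k X, chomR Fr Rk ρ ∈ T := by
    intro ρ hρ
    by_contra h
    have h1 := (chom_AR Fr Rk _ X ρ).2 ⟨hρ, rfl⟩
    rw [hT _ h] at h1
    exact h1
  have hZ : (chomZ k X).Finite := by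
    refine (T.finite_toSet.biUnion fun R _ => hb R).subset fun ρ hρ => ?_
    rw [Set.mem_iUnion₂]
    exact ⟨_, Finset.mem_coe.2 (hmem ρ hρ), (chom_AR Fr Rk _ X ρ).2 ⟨hρ, rfl⟩⟩
  rw [Set.ncard_eq_toFinset_card _ hZ, Finset.card_eq_sum_card_fiberwise
    (f := fun ρ => chomR Fr Rk ρ) (t := T) fun ρ hρ => hmem ρ (by
      rw [Finset.mem_coe, Set.Finite.mem_toFinset] at hρ
      exact hρ)]
  refine Finset.sum_congr rfl fun R _ => ?_
  rw [← Set.ncard_coe_finset]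
  congr 1
  ext ρ
  rw [Finset.coe_filter, Set.mem_ofPred_eq, Set.Finite.mem_toFinset, chom_AR]

end

/-- C14: the number of homomorphisms -/
theorem cHom (k : Type) [Field k] [NumberField k] (Fr : Frm k) (Rk : RxF k) (h1 : ScFrm k)
    (h2 : ∀ Fr : Frm k, ScFix Fr Rk) (h3 : ScEx Fr Rk) (h4 : ScAR Fr Rk) (h5 : ScBd Fr Rk) :
    ScHom k := by
  classical
  obtain ⟨C, hC, hbd⟩ := h5
  -- the limit for every set of exceptional primes
  have hlim : ∀ R : Finset Fr.sys.P, ∃ L : ℝ, 0 ≤ L ∧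
      Tendsto (fun X : ℝ => ((AR Fr Rk R X).ncard : ℝ) / (X ^ (1 / 8 : ℝ) * Real.log X ^ 2))
        atTop (𝓝 L) ∧ ((∃ ρ ∈ Hs k, Rw Fr Rk ρ = (R : Set Fr.sys.P)) → 0 < L) := by
    intro R
    obtain ⟨Fr', hF⟩ := h1 (Fr.S ∪ R.image Fr.pl)
    obtain ⟨H, hH, hA, hE⟩ := h4 Fr' R (fun P hP => hF (Finset.mem_union_left _ hP))
      fun p hp => hF (Finset.mem_union_right _ (Finset.mem_image_of_mem _ hp))
    obtain ⟨L, hL0, hL, hLp⟩ := h2 Fr' H hH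
    refine ⟨L, hL0, ?_, fun h => hLp (hE h)⟩
    refine hL.congr fun X => ?_
    rw [hA X]
  choose L hL0 hL hLp using hlim
  -- domination
  set bound : Finset Fr.sys.P → ℝ := fun R => C * (Fr.sys.nm R : ℝ) ^ (-(5 / 4) : ℝ) with hbound
  have hsum : Summable bound := (bbx_summable Fr.sys (5 / 4) (by norm_num)).mul_left C
  have hD : ∀ X : ℝ, 2 ≤ X → 0 < X ^ (1 / 8 : ℝ) * Real.log X ^ 2 := fun X hX =>
    mul_pos (Real.rpow_pos_of_pos (by linarith) _) (pow_pos (Real.log_pos (by linarith)) 2)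
  have hle : ∀ X : ℝ, 2 ≤ X → ∀ R : Finset Fr.sys.P,
      ((AR Fr Rk R X).ncard : ℝ) / (X ^ (1 / 8 : ℝ) * Real.log X ^ 2) ≤ bound R := by
    intro X hX R
    rw [div_le_iff₀ (hD X hX)]
    exact (hbd R X hX).2
  have hev : ∀ᶠ X : ℝ in atTop, (2 : ℝ) ≤ X := eventually_ge_atTop 2
  have hT := tendsto_tsum_of_dominated_convergence (𝓕 := (atTop : Filter ℝ))
    (f := fun (X : ℝ) (R : Finset Fr.sys.P) =>
      ((AR Fr Rk R X).ncard : ℝ) / (X ^ (1 / 8 : ℝ) * Real.log X ^ 2)) (g := L)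
    (bound := bound) hsum hL (hev.mono fun X hX R => by
      rw [Real.norm_of_nonneg (div_nonneg (Nat.cast_nonneg _) (hD X hX).le)]
      exact hle X hX R)
  have hLb : ∀ R, L R ≤ bound R := fun R => le_of_tendsto (hL R) (hev.mono fun X hX => hle X hX R)
  have hLs : Summable L := Summable.of_nonneg_of_le hL0 hLb hsum
  refine ⟨∑' R, L R, ?_, ?_⟩
  · refine hLs.tsum_pos hL0 ∅ (hLp ∅ ?_)
    obtain ⟨ρ, hρ, ht⟩ := h3
    refine ⟨ρ, hρ, ?_⟩
    rw [Finset.coe_empty, Set.eq_empty_iff_forall_notMem]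
    exact fun p hp => hp (ht p)
  · refine hT.congr' (hev.mono fun X hX => ?_)
    have hT1 := chom_T Fr Rk hC hX fun R => hbd R X hX
    have hS := chom_sum Fr Rk (X := X) _ (fun R => (hbd R X hX).1) hT1
    show (∑' R : Finset Fr.sys.P, ((AR Fr Rk R X).ncard : ℝ) /
      (X ^ (1 / 8 : ℝ) * Real.log X ^ 2)) =
      ((chomZ k X).ncard : ℝ) / (X ^ (1 / 8 : ℝ) * Real.log X ^ 2)
    rw [hS, Nat.cast_sum, Finset.sum_div]
    refine tsum_eq_sum fun R hR => ?_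
    show ((AR Fr Rk R X).ncard : ℝ) / (X ^ (1 / 8 : ℝ) * Real.log X ^ 2) = 0
    rw [hT1 R hR, Set.ncard_empty, Nat.cast_zero, zero_div]

end Pool.Agent.D8
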