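import Pool.Agent.D8.CDefs

/-!
Project D8, row C9: Karamata's theorem with the twists (abstract).
-/

set_option autoImplicit false

namespace Pool.Agent.D8

open Filter Topology Pool.Agent.H32.MQ

variable {X : Type} {n : X → ℕ}

theorem kw_mem (hf : ∀ N : ℕ, {x | n x ≤ N}.Finite) {u : ℝ} (hu : 0 ≤ u) {x : X} :
    x ∈ fsz hf u ↔ (n x : ℝ) ≤ u := by
  unfold fsz
  rw [Set.Finite.mem_toFinset, Set.mem_setOf_eq, Nat.le_floor_iff hu]

theorem kw_err (hf : ∀ N : ℕ, {x | n x ≤ N}.Finite) {b : X → ℝ} (hb : ∀ x, 0 ≤ b x) {d : ℝ}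
    (hd : 0 < d) {T Y : ℝ} (hT : 1 ≤ T) (hY : 0 < Y) :
    ∑ x ∈ fsz hf Y, b x * ((n x : ℝ) / Y) ^ d ≤
      (∑ x ∈ fsz hf Y, b x) - (1 - T ^ (-d)) * ∑ x ∈ fsz hf (Y / T), b x := by
  have hT0 : 0 < T := by linarith
  have hYT : 0 < Y / T := div_pos hY hT0
  have hsub : fsz hf (Y / T) ⊆ fsz hf Y := by
    intro x hx
    rw [kw_mem hf hYT.le] at hx
    rw [kw_mem hf hY.le]
    exact hx.trans (div_le_self hY.le hT)
  have h1 : ∑ x ∈ fsz hf (Y / T), b x * (1 - ((n x : ℝ) / Y) ^ d) ≤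
      ∑ x ∈ fsz hf Y, b x * (1 - ((n x : ℝ) / Y) ^ d) := by
    refine Finset.sum_le_sum_of_subset_of_nonneg hsub fun x hx _ => ?_
    rw [kw_mem hf hY.le] at hx
    have h2 : ((n x : ℝ) / Y) ^ d ≤ 1 :=
      Real.rpow_le_one (div_nonneg (Nat.cast_nonneg _) hY.le) ((div_le_one hY).2 hx) hd.le
    exact mul_nonneg (hb x) (by linarith)
  have h3 : (1 - T ^ (-d)) * ∑ x ∈ fsz hf (Y / T), b x ≤
      ∑ x ∈ fsz hf (Y / T), b x * (1 - ((n x : ℝ) / Y) ^ d) := by
    rw [Finset.mul_sum]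
    refine Finset.sum_le_sum fun x hx => ?_
    rw [kw_mem hf hYT.le] at hx
    have h4 : ((n x : ℝ) / Y) ^ d ≤ T ^ (-d) := by
      rw [Real.rpow_neg hT0.le, ← Real.inv_rpow hT0.le]
      refine Real.rpow_le_rpow (div_nonneg (Nat.cast_nonneg _) hY.le) ?_ hd.le
      rw [div_le_iff₀ hY, inv_mul_eq_div]
      exact hx
    rw [mul_comm]
    exact mul_le_mul_of_nonneg_left (by linarith) (hb x)
  have h5 : ∑ x ∈ fsz hf Y, b x * (1 - ((n x : ℝ) / Y) ^ d) =
      (∑ x ∈ fsz hf Y, b x) - ∑ x ∈ fsz hf Y, b x * ((n x : ℝ) / Y) ^ d := by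
    rw [← Finset.sum_sub_distrib]
    exact Finset.sum_congr rfl fun x _ => by ring
  rw [h5] at h1
  linarith

theorem kw_log (T : ℝ) (hT : 0 < T) :
    Tendsto (fun Y : ℝ => Real.log (Y / T) / Real.log Y) atTop (𝓝 1) := by
  have h1 : Tendsto (fun Y : ℝ => 1 - Real.log T / Real.log Y) atTop (𝓝 (1 - 0)) :=
    tendsto_const_nhds.sub (Real.tendsto_log_atTop.const_div_atTop _)
  rw [sub_zero] at h1
  refine h1.congr' ?_
  filter_upwards [eventually_gt_atTop (1 : ℝ)] with Y hY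
  have h2 : 0 < Real.log Y := Real.log_pos hY
  rw [Real.log_div (by linarith) hT.ne', sub_div, div_self h2.ne']

theorem kw_shift (hK : STKar) (h1 : ∀ x, 1 ≤ n x) (hf : ∀ N : ℕ, {x | n x ≤ N}.Finite)
    {b : X → ℝ} {L : ℝ} (hb : DPole n b L) (T : ℝ) (hT : 0 < T) :
    Tendsto (fun Y : ℝ => (∑ x ∈ fsz hf (Y / T), b x) / Real.log Y ^ 2) atTop (𝓝 (L / 2)) := by
  have h2 := hK X n b L h1 hf hb
  have h3 : Tendsto (fun Y : ℝ => Y / T) atTop atTop := tendsto_id.atTop_div_const hT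
  have h4 := (h2.comp h3).mul ((kw_log T hT).pow 2)
  rw [one_pow, mul_one] at h4
  refine h4.congr' ?_
  filter_upwards [eventually_gt_atTop (max 1 T)] with Y hY
  have h5 : 1 < Y := lt_of_le_of_lt (le_max_left _ _) hY
  have h6 : T < Y := lt_of_le_of_lt (le_max_right _ _) hY
  have h7 : 0 < Real.log (Y / T) := Real.log_pos ((one_lt_div hT).2 h6)
  have h8 : 0 < Real.log Y := Real.log_pos h5
  rw [Function.comp_apply, div_pow]
  field_simp

theorem kw_zero (hK : STKar) (h1 : ∀ x, 1 ≤ n x) (hf : ∀ N : ℕ, {x | n x ≤ N}.Finite)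
    {b : X → ℝ} {L : ℝ} (hb : DPole n b L) {d : ℝ} (hd : 0 < d) :
    Tendsto (fun Y : ℝ => (∑ x ∈ fsz hf Y, b x * ((n x : ℝ) / Y) ^ d) / Real.log Y ^ 2) atTop
      (𝓝 0) := by
  rw [tendsto_order]
  constructor
  · intro a ha
    filter_upwards [eventually_gt_atTop (1 : ℝ)] with Y hY
    refine lt_of_lt_of_le ha (div_nonneg (Finset.sum_nonneg fun x _ => ?_) (sq_nonneg _))
    exact mul_nonneg (hb.nonneg x)
      (Real.rpow_nonneg (div_nonneg (Nat.cast_nonneg _) (by linarith)) _)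
  · intro ε hε
    have h2 : Tendsto (fun T : ℝ => T ^ (-d) * (L / 2)) atTop (𝓝 (0 * (L / 2))) :=
      (tendsto_rpow_neg_atTop hd).mul_const _
    rw [zero_mul] at h2
    obtain ⟨T, hT, hT1⟩ := ((h2.eventually (gt_mem_nhds hε)).and
      (eventually_ge_atTop (1 : ℝ))).exists
    have hT0 : 0 < T := by linarith
    have h3 : Tendsto (fun Y : ℝ => (∑ x ∈ fsz hf Y, b x) / Real.log Y ^ 2 -
        (1 - T ^ (-d)) * ((∑ x ∈ fsz hf (Y / T), b x) / Real.log Y ^ 2)) atTop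
        (𝓝 (L / 2 - (1 - T ^ (-d)) * (L / 2))) :=
      (hK X n b L h1 hf hb).sub ((kw_shift hK h1 hf hb T hT0).const_mul _)
    have h4 : L / 2 - (1 - T ^ (-d)) * (L / 2) < ε := by
      have : L / 2 - (1 - T ^ (-d)) * (L / 2) = T ^ (-d) * (L / 2) := by ring
      rw [this]; exact hT
    filter_upwards [h3.eventually (gt_mem_nhds h4), eventually_gt_atTop (1 : ℝ)] with Y h5 hY
    refine lt_of_le_of_lt ?_ h5
    have h6 := kw_err hf hb.nonneg hd hT1 (show 0 < Y by linarith)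
    have h7 : 0 < Real.log Y ^ 2 := by
      have := Real.log_pos hY
      positivity
    have h8 : (∑ x ∈ fsz hf Y, b x) / Real.log Y ^ 2 -
        (1 - T ^ (-d)) * ((∑ x ∈ fsz hf (Y / T), b x) / Real.log Y ^ 2) =
        ((∑ x ∈ fsz hf Y, b x) - (1 - T ^ (-d)) * ∑ x ∈ fsz hf (Y / T), b x) /
          Real.log Y ^ 2 := by ring
    rw [h8]
    exact div_le_div_of_nonneg_right h6 h7.le

theorem cKar (hK : Pool.Agent.H32.MQ.STKar) : ScKar := by
  intro X n b b' L L' h1 hf hb hb' κ C d hκ hC hd hd1 f hfx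
  have h2 : Tendsto (fun Y : ℝ => κ * ((∑ x ∈ fsz hf Y, b x) / Real.log Y ^ 2)) atTop
      (𝓝 (κ * (L / 2))) := (hK X n b L h1 hf hb).const_mul κ
  have h3 : Tendsto (fun Y : ℝ => C * ((∑ x ∈ fsz hf Y, b' x * ((n x : ℝ) / Y) ^ d) /
      Real.log Y ^ 2)) atTop (𝓝 (C * 0)) := (kw_zero hK h1 hf hb' hd).const_mul C
  rw [mul_zero] at h3
  have h4 : Tendsto (fun Y : ℝ => (∑ x ∈ fsz hf Y, f x (Y / n x)) / (Y * Real.log Y ^ 2) -
      κ * ((∑ x ∈ fsz hf Y, b x) / Real.log Y ^ 2)) atTop (𝓝 0) := by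
    refine squeeze_zero_norm' ?_ h3
    filter_upwards [eventually_gt_atTop (1 : ℝ)] with Y hY
    have hY0 : 0 < Y := by linarith
    have h7 : 0 < Real.log Y ^ 2 := by
      have := Real.log_pos hY
      positivity
    have h8 : (∑ x ∈ fsz hf Y, f x (Y / n x)) / (Y * Real.log Y ^ 2) -
        κ * ((∑ x ∈ fsz hf Y, b x) / Real.log Y ^ 2) =
        (∑ x ∈ fsz hf Y, (f x (Y / n x) - κ * b x * Y)) / (Y * Real.log Y ^ 2) := by
      rw [Finset.sum_sub_distrib, sub_div]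
      congr 1
      have h9 : ∑ x ∈ fsz hf Y, κ * b x * Y = κ * Y * ∑ x ∈ fsz hf Y, b x := by
        rw [Finset.mul_sum]
        exact Finset.sum_congr rfl fun x _ => by ring
      rw [h9]
      field_simp
    rw [h8, Real.norm_eq_abs, abs_div, abs_of_pos (mul_pos hY0 h7)]
    have h9 : C * ((∑ x ∈ fsz hf Y, b' x * ((n x : ℝ) / Y) ^ d) / Real.log Y ^ 2) =
        (C * Y * ∑ x ∈ fsz hf Y, b' x * ((n x : ℝ) / Y) ^ d) / (Y * Real.log Y ^ 2) := by
      field_simp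
    rw [h9]
    refine div_le_div_of_nonneg_right ?_ (mul_pos hY0 h7).le
    refine (Finset.abs_sum_le_sum_abs _ _).trans ?_
    rw [Finset.mul_sum]
    refine Finset.sum_le_sum fun x hx => ?_
    rw [kw_mem hf hY0.le] at hx
    have hn : (0 : ℝ) < n x := by
      have := h1 x
      exact_mod_cast this
    have h10 := hfx x (Y / n x) ((one_le_div hn).2 hx)
    have h11 : κ * (b x * n x) * (Y / n x) = κ * b x * Y := by field_simp
    rw [h11] at h10
    refine h10.trans (le_of_eq ?_)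
    have h12 : (Y / (n x : ℝ)) ^ (1 - d) = (Y / n x) * ((n x : ℝ) / Y) ^ d := by
      have h13 : 0 < Y / (n x : ℝ) := div_pos hY0 hn
      rw [Real.rpow_sub h13, Real.rpow_one, div_eq_mul_inv (Y / (n x : ℝ)),
        ← Real.inv_rpow h13.le, inv_div]
    rw [h12]
    field_simp
  have h5 := h4.add h2
  rw [zero_add] at h5
  have h6 : κ * L / 2 = κ * (L / 2) := by ring
  rw [h6]
  refine h5.congr fun Y => ?_
  ring

end Pool.Agent.D8
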