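import Pool.Agent.D8.Defs

/-!
# Malle's conjecture for the dihedral group of order 16 over number fields: statements of the
analytic part (note 5262, part B)
-/

set_option autoImplicit false

open scoped BigOperators Topology
open Filter

namespace Pool.Agent.D8

open Pool.Agent.H98.MK (sg)
open Pool.Agent.H98.MF
open Pool.Agent.H32.MQ (El pw)

/-! ### block A: the theorem on kernels -/

/-- A1: sums over finite sets of primes -/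
def SExp : Prop := ∀ (P : Type) (u : P → ℝ), Summable u →
  (Summable fun x : Finset P => ∏ p ∈ x, u p) ∧
  |∑' x : Finset P, ∏ p ∈ x, u p| ≤ Real.exp (∑' p, (u p + u p ^ 2)) ∧
  ((∀ p, 0 ≤ u p) → ∑' x : Finset P, ∏ p ∈ x, u p ≤ Real.exp (∑' p, u p)) ∧
  ((∀ p, -(1 / 2) ≤ u p) →
    Real.exp (∑' p, (u p - u p ^ 2)) ≤ ∑' x : Finset P, ∏ p ∈ x, u p)

open Classical in
/-- A2: upper bound for the prime sums of characters -/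
def SLup : Prop := ∀ S : Sys, ∃ C : ℝ, 0 ≤ C ∧ ∀ (y : Finset S.P) (c : S.T),
  (y.Nonempty ∨ c ≠ 0) → ∀ s : ℝ, 1 < s → s ≤ 2 →
    ∑' p : S.P, (if p ∈ y then 0 else ((sg (S.ex y c p) : ℤ) : ℝ)) * (S.N p : ℝ) ^ (-s) ≤
      Real.log (1 + Real.log (S.nm y)) + C

open Classical in
/-- the double sum of A3 -/
noncomputable def BX (S : Sys) (a b : Finset S.P → ℝ) (s : ℝ) (J : ℕ) : ℝ :=
  ∑' z : Finset S.P × Finset S.P,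
    (if Disjoint z.1 z.2 ∧ 2 ^ J < S.nm z.1 ∧ 2 ^ J < S.nm z.2
      then a z.1 * b z.2 * (S.jj z.1 z.2 : ℝ) * (pw s z.1 * pw s z.2) else 0)

/-- A3a: two large linked variables, bounded weights -/
def SBx0 : Prop := ∀ S : Sys, ∃ C E c : ℝ, 0 ≤ C ∧ 0 ≤ E ∧ 0 < c ∧
  ∀ a b : Finset S.P → ℝ, (∀ x, |a x| ≤ 1) → (∀ x, |b x| ≤ 1) → ∀ (σ : ℝ) (J : ℕ),
    0 < σ → σ ≤ 1 → |BX S a b (1 + σ) J| ≤ C * σ ^ (-E) * (2 : ℝ) ^ (-(c * J))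

/-- A3: two large linked variables, weights bounded by products of `τ` -/
def SBx : Prop := ∀ (S : Sys) (B : ℝ), ∃ C E c : ℝ, 0 ≤ C ∧ 0 ≤ E ∧ 0 < c ∧
  ∀ τ : S.P → ℝ, Tk S B τ → ∀ a b : Finset S.P → ℝ, (∀ x, |a x| ≤ ∏ p ∈ x, τ p) →
    (∀ x, |b x| ≤ ∏ p ∈ x, τ p) → ∀ (σ : ℝ) (J : ℕ), 0 < σ → σ ≤ 1 →
    |BX S a b (1 + σ) J| ≤ C * σ ^ (-E) * (2 : ℝ) ^ (-(c * J))

/-- A4: one variable, trivial bounds -/
def ST1 : Prop := ∀ (S : Sys) (B κ : ℝ) (a : ℕ), 0 ≤ κ → κ ≤ 2 → ∃ C : ℝ, 0 ≤ C ∧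
  ∀ τ : S.P → ℝ, Tk S B τ → ∀ σ : ℝ, 0 < σ → σ ≤ 1 →
  (Summable fun x : Finset S.P => (∏ p ∈ x, κ * τ p) * ls S x ^ a * pw (1 + σ) x) ∧
  ∑' x : Finset S.P, (∏ p ∈ x, κ * τ p) * ls S x ^ a * pw (1 + σ) x ≤ C * σ ^ (-κ) ∧
  ∀ J : ℕ, ∑ x ∈ S.bx (2 ^ J), (∏ p ∈ x, κ * τ p) * ls S x ^ a * pw 1 x ≤
    C * (1 + (J : ℝ)) ^ κ

/-- A5: the prime sums of the weights -/
def STh : Prop := ∀ (S : Sys) (B : ℝ), ∃ K : ℝ, 0 ≤ K ∧ ∀ τ : S.P → ℝ, Tk S B τ →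
  ∀ (κ : ℝ) (e : El S) (w : Finset S.P) (s : ℝ), 0 ≤ κ → κ ≤ 2 → 1 < s → s ≤ 2 →
  (Summable fun p : S.P => hh S τ κ e w p * (S.N p : ℝ) ^ (-s)) ∧
  ∑' p : S.P, hh S τ κ e w p * (S.N p : ℝ) ^ (-s) ≤
    κ * (Real.log (1 / (s - 1)) + K - ∑ p ∈ w, (S.N p : ℝ) ^ (-s)) ∧
  (e ≠ (0, ∅) → e.2 ⊆ w → ∑' p : S.P, hh S τ κ e w p * (S.N p : ℝ) ^ (-s) ≤
    κ / 2 * (Real.log (1 / (s - 1)) + Real.log (1 + Real.log (S.nm e.2)) + K))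

open Classical in
/-- A6: one large variable with a nontrivial character -/
def SLin : Prop := ∀ (S : Sys) (B κ : ℝ), 0 < κ → κ ≤ 1 → ∃ C : ℝ, 0 ≤ C ∧
  ∀ τ : S.P → ℝ, Tk S B τ →
  ∀ (M w y z : Finset S.P) (c e : El S), y.Nonempty → Disjoint y M → c.2 ⊆ M → e.2 ⊆ M →
    M ⊆ w → ∀ (σ : ℝ) (J : ℕ), 0 < σ → σ ≤ 1 →
    |∑' x : Finset S.P, (if Disjoint x (y ∪ z) ∧ 2 ^ J < S.nm x
      then ((sg (∑ p ∈ x, S.ex (y ∪ c.2) c.1 p) : ℤ) : ℝ) *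
        ∏ p ∈ x, (hh S τ κ e w p * (S.N p : ℝ) ^ (-(1 + σ))) else 0)| ≤
      C * (1 + (J : ℝ)) * (1 + Real.log (S.nm y)) * (1 + Real.log (S.nm M)) *
        (ls S y * ls S z * ls S w)

open Classical in
/-- A7: two large linked variables -/
def SFa : Prop := ∀ (S : Sys) (ι : Type) [Fintype ι] (φ : ι → ι → ZMod 2) (B κ : ℝ),
  0 < κ → κ ≤ 1 → ∃ C E c : ℝ, 0 ≤ C ∧ 0 ≤ E ∧ 0 < c ∧ ∀ (τ : S.P → ℝ) (D : Vd S ι)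
    (Φ : Finset ι → ℝ), Tk S B τ → (∀ U, |Φ U| ≤ 1) → ∀ (I : Finset ι) (u v : ι),
    u ∈ I → v ∈ I → Lk φ u v → ∀ (σ : ℝ) (J : ℕ), 0 < σ → σ ≤ 1 →
    |∑' x : ι → Finset S.P, (if lrg S J x = I then Kt τ κ (1 + σ) φ D Φ x else 0)| ≤
      C * σ ^ (-E) * (2 : ℝ) ^ (-(c * J))

open Classical in
/-- A8: the trivial bound -/
def SFb : Prop := ∀ (S : Sys) (ι : Type) [Fintype ι] (B κ : ℝ), 0 < κ → κ ≤ 1 →
  ∃ C : ℝ, 0 ≤ C ∧ ∀ (τ : S.P → ℝ) (φ : ι → ι → ZMod 2) (D : Vd S ι) (Φ : Finset ι → ℝ),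
    Tk S B τ → (∀ U, |Φ U| ≤ 1) → ∀ σ : ℝ, 0 < σ → σ ≤ 1 →
      (Summable fun x : ι → Finset S.P => Kt τ κ (1 + σ) φ D Φ x) ∧
      ∀ (J : ℕ) (I : Finset ι),
        ∑' x : ι → Finset S.P, (if lrg S J x = I then |Kt τ κ (1 + σ) φ D Φ x| else 0) ≤
          C * (1 + (J : ℝ)) ^ Fintype.card ι * σ ^ (-(κ * I.card))

open Classical in
/-- A9: a large variable linked to a small one -/
def SFc : Prop := ∀ (S : Sys) (ι : Type) [Fintype ι] (φ : ι → ι → ZMod 2) (B κ : ℝ),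
  (∀ u, φ u u = 0) → 0 < κ → κ ≤ 1 → ∃ C E : ℝ, 0 ≤ C ∧ 0 ≤ E ∧ ∀ (τ : S.P → ℝ)
    (D : Vd S ι) (Φ : Finset ι → ℝ), Tk S B τ → D.Ok → (∀ U, |Φ U| ≤ 1) →
    ∀ (I P : Finset ι) (u v : ι), u ∈ I → v ∈ P → v ∉ I → Lk φ u v →
    (∀ t ∈ I, ¬ Lk φ u t) → ∀ (σ : ℝ) (J : ℕ), 0 < σ → σ ≤ 1 →
    |∑' x : ι → Finset S.P,
      (if lrg S J x = I ∧ pat x = P then Kt τ κ (1 + σ) φ D Φ x else 0)| ≤
      C * (1 + (J : ℝ)) ^ E * (1 + Real.log (S.nm D.M)) * (∏ t, ls S (D.w t)) *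
        σ ^ (-(κ * ((I.card : ℝ) - 1)))

open Classical in
/-- A10: the theorem on kernels -/
def SFK : Prop := ∀ (S : Sys) (ι : Type) [Fintype ι] (φ : ι → ι → ZMod 2) (r : ℕ) (B κ : ℝ),
  (∀ u, φ u u = 0) → 0 < κ → κ ≤ 1 → 1 ≤ r → (∀ U : Finset ι, Ind φ U → U.card ≤ r) →
  ∃ C E : ℝ, 0 ≤ C ∧ 0 ≤ E ∧ ∀ (τ : S.P → ℝ) (D : Vd S ι) (Φ : Finset ι → ℝ), Tk S B τ →
    D.Ok → (∀ U, |Φ U| ≤ 1) → ∀ σ : ℝ, 0 < σ → σ ≤ 1 →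
    |FK τ κ (1 + σ) φ D Φ -
      ∑ U ∈ Finset.univ.filter (fun U : Finset ι => Ind φ U ∧ U.card = r),
        Φ U * FK τ κ (1 + σ) φ D (fun P => if P = U then 1 else 0)| ≤
      C * (1 + Real.log (1 / σ)) ^ E * (1 + Real.log (S.nm D.M)) * (∏ t, ls S (D.w t)) *
        σ ^ (-(κ * ((r : ℝ) - 1)))

open Classical in
/-- A11: tuples with a given pattern -/
def SZU : Prop := ∀ (S : Sys) (ι : Type) [Fintype ι] (φ : ι → ι → ZMod 2) (B κ : ℝ)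
  (τ : S.P → ℝ) (D : Vd S ι), Tk S B τ → 0 < κ → κ ≤ 1 → ∀ (U : Finset ι) (s : ℝ), 1 < s →
    s ≤ 2 → |FK τ κ s φ D (fun P => if P = U then 1 else 0)| ≤
      ∏ u ∈ U, Real.exp (∑' p : S.P, hh S τ κ (D.e u) (D.w u) p * (S.N p : ℝ) ^ (-s))

/-! ### block B: the configurations -/

open Classical in
/-- B1: merging families -/
def SMrg : Prop := ∀ (P ι κ : Type) [Fintype ι] [Fintype κ] (π : ι → κ)
  (F : (κ → Finset P) → ℝ) (w : ι → (κ → Finset P) → P → ℝ),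
  (Summable fun y : ι → Finset P => if DjP y then
    F (mrg π y) * ∏ t, ∏ p ∈ y t, w t (mrg π y) p else 0) →
  ∑' y : ι → Finset P, (if DjP y then F (mrg π y) * ∏ t, ∏ p ∈ y t, w t (mrg π y) p else 0) =
    ∑' x : κ → Finset P, (if DjP x then
      F x * ∏ k, ∏ p ∈ x k, ∑ t ∈ Finset.univ.filter (fun t => π t = k), w t x p else 0)

open Classical in
/-- B2: the expansion in sixteen types -/
def S16 : Prop := ∀ (S : Sys) (B : ℝ) (τ : S.P → ℝ) (M : Finset S.P) (c : Co S)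
  (w : V → Finset S.P) (Φ : Finset V → ℝ) (s : ℝ), Tk S B τ → c.Ok M → (∀ u, M ⊆ w u) →
  (∀ U, |Φ U| ≤ 1) → 1 < s → s ≤ 2 →
  (Summable fun x : V → Finset S.P =>
    if ∀ u, Disjoint (x u) (w u) then Φ (pat x) * ms τ M c s x else 0) ∧
  MS τ M c w Φ s = FK τ (1 / 2) s φ16 (D16 M c w) (fun U => Φ (U.image Prod.fst))

open Classical in
/-- B3: sets of unlinked types -/
def SC16 : Prop := (∀ U : Finset (V × V), Ind φ16 U → U.card ≤ 4) ∧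
  (∀ U : Finset (V × V), Ind φ16 U → U.card = 4 → 3 ≤ (U.image Prod.fst).card →
    U.image Prod.fst = Finset.univ ∧ Set.InjOn Prod.fst (U : Set (V × V))) ∧
  (∀ U : Finset V, Ind φ4 U → U.card ≤ 2) ∧
  (∀ U : Finset V, Ind φ4 U → U.card = 2 → U.image Prod.fst = Finset.univ →
    U = {(0, 0), (1, 0)} ∨ U = {(0, 1), (1, 1)}) ∧
  Ind φ4 {(0, 0), (1, 0)} ∧ Ind φ4 {(0, 1), (1, 1)}

open Classical in
/-- B4: the mass of the configurations with at least three classes -/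
def SGB : Prop := ∀ (S : Sys) (B : ℝ), ∃ C E : ℝ, 0 ≤ C ∧ 0 ≤ E ∧ ∀ (τ : S.P → ℝ)
  (M : Finset S.P) (c : Co S) (w : V → Finset S.P), Tk S B τ → c.Ok M → (∀ u, M ⊆ w u) →
  ∀ σ : ℝ, 0 < σ → σ ≤ 1 →
    MS τ M c w (fun U => if 3 ≤ U.card then 1 else 0) (1 + σ) ≤
      C * (σ ^ (-(2 : ℝ)) *
          Real.exp (-(1 / 2) * ∑ u, ∑ p ∈ w u, (S.N p : ℝ) ^ (-(1 + σ))) +
        (1 + Real.log (1 / σ)) ^ E * (1 + Real.log (S.nm M)) * (∏ u, ls S (w u)) ^ 4 *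
          σ ^ (-(3 / 2 : ℝ)))

open Classical in
/-- the configurations with exactly the classes `u`, `v`, with characters -/
noncomputable def M2 {S : Sys} (τ : S.P → ℝ) (M : Finset S.P) (c : Co S)
    (w : V → Finset S.P) (u v : V) (ψ : ZMod 2 → El S) (s : ℝ) : ℝ :=
  ∑' x : V → Finset S.P, if (∀ t, Disjoint (x t) (w t)) ∧ pat x = {u, v}
    then ((sg (∑ p ∈ x u, S.ex (ψ 0).2 (ψ 0).1 p + ∑ p ∈ x v, S.ex (ψ 1).2 (ψ 1).1 p) : ℤ) : ℝ) *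
      ms τ M c s x else 0

/-- B5: the expansion for two classes -/
def S4 : Prop := ∀ (S : Sys) (B : ℝ) (τ : S.P → ℝ) (M : Finset S.P) (c : Co S)
  (w : V → Finset S.P) (u v : V) (ψ : ZMod 2 → El S) (s : ℝ), Tk S B τ → c.Ok M →
    (∀ t, M ⊆ w t) → u ≠ v → (∀ i, (ψ i).2 ⊆ M) → 1 < s → s ≤ 2 →
    M2 τ M c w u v ψ s = FK τ 1 s φ4 (D4 M c w u v ψ) Φ4

open Classical in
/-- B6: the mass of the configurations with exactly two classes -/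
def S2B : Prop := ∀ (S : Sys) (B : ℝ), ∃ C E : ℝ, 0 ≤ C ∧ 0 ≤ E ∧ ∀ (τ : S.P → ℝ)
  (M : Finset S.P) (c : Co S) (w : V → Finset S.P) (u v : V), Tk S B τ → c.Ok M →
  (∀ t, M ⊆ w t) → u ≠ v → ∀ σ : ℝ, 0 < σ → σ ≤ 1 →
    MS τ M c w (fun U => if U = {u, v} then 1 else 0) (1 + σ) ≤
      C * ((if exc c u v = (0, ∅) ∧ exc c v u = (0, ∅) then
          σ ^ (-(2 : ℝ)) * Real.exp (-(∑ p ∈ w u, (S.N p : ℝ) ^ (-(1 + σ)) +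
            ∑ p ∈ w v, (S.N p : ℝ) ^ (-(1 + σ)))) else 0) +
        (1 + Real.log (1 / σ)) ^ E * (1 + Real.log (S.nm M)) * (ls S (w u) * ls S (w v)) ^ 2 *
          σ ^ (-(3 / 2 : ℝ)))

open Classical in
/-- B7: the mass of the configurations with at most one class -/
def S1B : Prop := ∀ (S : Sys) (B : ℝ), ∃ C : ℝ, 0 ≤ C ∧ ∀ (τ : S.P → ℝ) (M : Finset S.P)
  (c : Co S), Tk S B τ → c.Ok M → ∀ σ : ℝ, 0 < σ → σ ≤ 1 →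
    MS τ M c (fun _ => M) (fun U => if U = ∅ then 1 else 0) (1 + σ) ≤ C ∧
    ∀ u : V, MS τ M c (fun _ => M) (fun U => if U = {u} then 1 else 0) (1 + σ) ≤
        C * σ ^ (-(2 : ℝ)) ∧
      ((c.f (u.1 + 1) ≠ (0, ∅) ∨ c.g (u.2 + 1) ≠ (0, ∅)) →
        MS τ M c (fun _ => M) (fun U => if U = {u} then 1 else 0) (1 + σ) ≤
          C * (1 + Real.log (S.nm M)) * σ ^ (-(1 : ℝ)))

/-- B8: the uniform bound (U_D) -/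
def SUD : Prop := ∀ (S : Sys) (B ε : ℝ), 0 < ε → ∃ C : ℝ, 0 ≤ C ∧ ∀ (τ : S.P → ℝ)
  (M : Finset S.P) (c : Co S), Tk S B τ → c.Ok M → ∀ σ : ℝ, 0 < σ → σ ≤ 1 →
    (Summable fun x : V → Finset S.P => ms τ M c (1 + σ) x) ∧
    ∑' x : V → Finset S.P, ms τ M c (1 + σ) x ≤ C * (S.nm M : ℝ) ^ ε * σ ^ (-(2 : ℝ))

/-! ### block W: windows and the generic part -/

/-- W1: the windows are rich -/
def SWin : Prop := ∀ (S : Sys) (a b : ℝ), 0 < a → 10 * a ≤ b → b ≤ 1 →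
  Tendsto (fun σ : ℝ => ∑ p ∈ win S a b σ, (S.N p : ℝ) ^ (-(1 + σ))) (𝓝[>] 0) atTop

/-- W1: the loss of the windows -/
def SWls : Prop := ∀ S : Sys, ∃ C : ℝ, 0 ≤ C ∧ ∀ a b σ : ℝ, 0 < a → a ≤ b →
  b ≤ 1 → 0 < σ → σ ≤ 1 → ls S (win S a b σ) ≤ C * σ ^ (-(6 * b))

/-- W2: the inequality of Cauchy and Schwarz -/
def SCS : Prop := ∀ (S : Sys) (c : Co S) (R : (V → Finset S.P) → ℝ),
  (∀ x, |R x| ≤ 1) → BT c R → TR c R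

/-- the sum over the windows -/
noncomputable def WS3 {S : Sys} (c : Co S) (R : (V → Finset S.P) → ℝ)
    (w : V → Finset S.P) (α β γ : S.P → ℝ) (σ : ℝ) : ℝ :=
  ∑ x ∈ W1 S σ, ∑ y ∈ W2 S σ, ∑ z ∈ W2 S σ, α x * β y * γ z *
    ((S.N x : ℝ) * S.N y * S.N z) ^ (-(1 + σ)) * t3 c R w x y z

/-- W3: dyadic decomposition of the windows -/
def S3W : Prop := ∀ (S : Sys) (c : Co S) (R : (V → Finset S.P) → ℝ),
  TR c R → ∃ σ0 : ℝ, 0 < σ0 ∧ σ0 ≤ 1 ∧ ∀ σ : ℝ, 0 < σ → σ ≤ σ0 →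
    ∀ (w : V → Finset S.P) (α β γ : S.P → ℝ), (∀ p, |α p| ≤ 1) → (∀ p, |β p| ≤ 1) →
    (∀ p, |γ p| ≤ 1) → |WS3 c R w α β γ σ| ≤ Real.exp (-(σ ^ (-(1 / 100000) : ℝ)) / 4)

/-- configurations with primes in the windows -/
def Full {S : Sys} (σ : ℝ) (x : V → Finset S.P) : Prop :=
  (∃ p ∈ x (0, 0), p ∈ W1 S σ) ∧ (∃ p ∈ x (1, 0), p ∈ W2 S σ) ∧ ∃ p ∈ x (0, 1), p ∈ W2 S σ

open Classical in
/-- W4: extraction of three primes -/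
def S3X : Prop := ∀ (S : Sys) (B : ℝ), ∃ C : ℝ, 0 ≤ C ∧ ∀ (τ : S.P → ℝ) (c : Co S)
  (R : (V → Finset S.P) → ℝ), Tk S B τ → (∀ x, |R x| ≤ 1) → ∀ σ : ℝ, 0 < σ → σ ≤ 1 →
  ∀ b : ℝ,
    (∀ (w : V → Finset S.P) (α β γ : S.P → ℝ), (∀ p, |α p| ≤ 1) → (∀ p, |β p| ≤ 1) →
      (∀ p, |γ p| ≤ 1) → |WS3 c R w α β γ σ| ≤ b) →
    |∑' x : V → Finset S.P, (if Full σ x then ms τ ∅ c (1 + σ) x * R x else 0)| ≤
      C * σ ^ (-(8 : ℝ)) * b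

open Classical in
/-- W5: the generic part is negligible -/
def SGL : Prop := ∀ (S : Sys) (B : ℝ) (τ : S.P → ℝ) (c : Co S) (R : (V → Finset S.P) → ℝ),
  Tk S B τ → c.Ok ∅ → (∀ x, |R x| ≤ 1) → BT c R → Tendsto (fun σ : ℝ => σ ^ 2 *
    ∑' x : V → Finset S.P, (if 3 ≤ (pat x).card then ms τ ∅ c (1 + σ) x * R x else 0))
    (𝓝[>] 0) (𝓝 0)

/-! ### block Q: the quartic part -/

/-- the sum over the windows -/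
noncomputable def WS2 {S : Sys} (c : Co S) (R : (V → Finset S.P) → ℝ) (u v : V)
    (w : V → Finset S.P) (α β : S.P → ℝ) (σ : ℝ) : ℝ :=
  ∑ x ∈ W1 S σ, ∑ y ∈ W2 S σ, α x * β y * ((S.N x : ℝ) * S.N y) ^ (-(1 + σ)) *
    t2 c R u v w x y

/-- Q1: dyadic decomposition of the windows -/
def S2W : Prop := ∀ (S : Sys) (c : Co S) (R : (V → Finset S.P) → ℝ) (u v : V),
  BQ c R u v → ∃ σ0 : ℝ, 0 < σ0 ∧ σ0 ≤ 1 ∧ ∀ σ : ℝ, 0 < σ → σ ≤ σ0 →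
    ∀ (w : V → Finset S.P) (α β : S.P → ℝ), (∀ p, |α p| ≤ 1) → (∀ p, |β p| ≤ 1) →
    (∀ t, t ≠ u → t ≠ v → w t = ∅) →
    |WS2 c R u v w α β σ| ≤ Real.exp (-(σ ^ (-(1 / 100000) : ℝ)) / 4)

open Classical in
/-- Q2: extraction of two primes -/
def S2X : Prop := ∀ (S : Sys) (B : ℝ), ∃ C : ℝ, 0 ≤ C ∧ ∀ (τ : S.P → ℝ) (c : Co S)
  (R : (V → Finset S.P) → ℝ) (u v : V), Tk S B τ → u ≠ v → (∀ x, |R x| ≤ 1) → ∀ σ : ℝ,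
  0 < σ → σ ≤ 1 → ∀ b : ℝ, (∀ (w : V → Finset S.P) (α β : S.P → ℝ), (∀ p, |α p| ≤ 1) →
      (∀ p, |β p| ≤ 1) → (∀ t, t ≠ u → t ≠ v → w t = ∅) → |WS2 c R u v w α β σ| ≤ b) →
    |∑' x : V → Finset S.P, (if pat x = {u, v} ∧ (∃ p ∈ x u, p ∈ W1 S σ) ∧
      (∃ p ∈ x v, p ∈ W2 S σ) then ms τ ∅ c (1 + σ) x * R x else 0)| ≤
      C * σ ^ (-(4 : ℝ)) * b

open Classical in
/-- Q3: the part with two opposite classes is negligible -/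
def SQL : Prop := ∀ (S : Sys) (B : ℝ) (τ : S.P → ℝ) (c : Co S) (R : (V → Finset S.P) → ℝ)
  (u v : V), Tk S B τ → c.Ok ∅ → u ≠ v → (∀ x, |R x| ≤ 1) → BQ c R u v →
  Tendsto (fun σ : ℝ => σ ^ 2 *
    ∑' x : V → Finset S.P, (if pat x = {u, v} then ms τ ∅ c (1 + σ) x * R x else 0))
    (𝓝[>] 0) (𝓝 0)

/-! ### block M: the main term -/

/-- M1: types and characters -/
def SLb : Prop := ∀ (S : Sys) (θ : S.T → S.T → ℝ) (k m : S.T),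
  θ k m = ∑ c : S.T, ∑ d : S.T,
    ((1 / (2 : ℝ) ^ (2 * S.m)) * ∑ k' : S.T, ∑ m' : S.T,
      θ k' m' * ((sg (c ⬝ᵥ k' + d ⬝ᵥ m') : ℤ) : ℝ)) * ((sg (c ⬝ᵥ k + d ⬝ᵥ m) : ℤ) : ℝ)

open Classical in
/-- the double sum with characters -/
noncomputable def DS {S : Sys} (τ : S.P → ℝ) (c d : S.T) (s : ℝ) : ℝ :=
  ∑' z : Finset S.P × Finset S.P, if Disjoint z.1 z.2 ∧ z.1.Nonempty ∧ z.2.Nonempty
    then ((sg (c ⬝ᵥ S.tys z.1 + d ⬝ᵥ S.tys z.2) : ℤ) : ℝ) *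
      ((∏ p ∈ z.1, τ p * (S.N p : ℝ) ^ (-s)) * ∏ p ∈ z.2, τ p * (S.N p : ℝ) ^ (-s)) else 0

/-- M2: the limits of the double sums -/
def SDb : Prop := ∀ (S : Sys) (B : ℝ) (τ : S.P → ℝ), Tk S B τ →
  (∃ c0 : ℝ, 0 < c0 ∧ Tendsto (fun σ : ℝ => σ ^ 2 * DS τ 0 0 (1 + σ)) (𝓝[>] 0) (𝓝 c0)) ∧
  ∀ c d : S.T, (c ≠ 0 ∨ d ≠ 0) →
    Tendsto (fun σ : ℝ => σ ^ 2 * DS τ c d (1 + σ)) (𝓝[>] 0) (𝓝 0)

open Classical in
/-- M3: the main term -/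
def SMn : Prop := ∀ (S : Sys) (B : ℝ) (τ : S.P → ℝ) (c0 : ℝ), Tk S B τ →
  Tendsto (fun σ : ℝ => σ ^ 2 * DS τ 0 0 (1 + σ)) (𝓝[>] 0) (𝓝 c0) →
  ∀ (c : Co S) (a b : S.T) (j : ZMod 2) (θ : S.T → S.T → ℝ), c.Ok ∅ → c.f 0 = (a, ∅) →
    c.f 1 = (b, ∅) → c.g (j + 1) = (0, ∅) → (∀ k m, |θ k m| ≤ 1) →
    Tendsto (fun σ : ℝ => σ ^ 2 * ∑' x : V → Finset S.P,
      (if pat x = {(0, j), (1, j)}
        then ms τ ∅ c (1 + σ) x * θ (S.tys (x (0, j))) (S.tys (x (1, j))) else 0)) (𝓝[>] 0)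
      (𝓝 (c0 * ((1 / (2 : ℝ) ^ (2 * S.m)) * ∑ k : S.T, ∑ m : S.T,
        θ k m * (1 + ((sg (hq a b k m) : ℤ) : ℝ)))))

/-! ### the result -/

/-- Z1: the limit of the Dirichlet series -/
def SD8L : Prop := ∀ (S : Sys) (B : ℝ) (τ : S.P → ℝ), Tk S B τ → ∃ c0 : ℝ, 0 < c0 ∧
  ∀ (R : S.T → S.T → S.T → (V → Finset S.P) → ℝ) (Θ : S.T → S.T → S.T → S.T → ℝ), Law R Θ →
    Tendsto (fun σ : ℝ => σ ^ 2 * FD τ R (1 + σ)) (𝓝[>] 0)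
      (𝓝 (c0 * ∑ a : S.T, ∑ b : S.T, ∑ k : S.T, ∑ m : S.T,
        Θ a b k m * (1 + ((sg (hq a b k m) : ℤ) : ℝ))))

end Pool.Agent.D8
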