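import Pool.Agent.D8.AStm
import Pool.Agent.D8.Stm
import Pool.Agent.H32.MQ.BFInst

/-!
# The dihedral group of order 16 over a number field: the laws of the coefficient function
(statements)

The configurations of the algebraic part are written in the notation of the analytic part; the
statements lead to the structure `Law`.
-/

set_option autoImplicit false

open scoped BigOperators
open NumberField IsDedekindDomain

namespace Pool.Agent.D8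

open Pool.Agent.H98.MF
open Pool.Agent.H98.MK (sg)
open Pool.Agent.H32.MQ (El rep co HX Qof BFMain)
open Pool.Agent.H32.MA.AB (Lat cube bxA)

/-- the configuration with given classes of primes -/
def toCg {S : Sys} (a b v : S.T) (x : V → Finset S.P) : Cg S :=
  ⟨x (0, 1), x (0, 0), x (1, 1), x (1, 0), a, b, v⟩

/-- the conditions of the triple value -/
def Ad3 {S : Sys} (c : Co S) (w : V → Finset S.P) (x y z : S.P) : Prop :=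
  S.ty x = 0 ∧ S.ty y = 0 ∧ S.ty z = 0 ∧ x ≠ y ∧ x ≠ z ∧ y ≠ z ∧ New x w ∧ New y w ∧
    New z w ∧ Adm ∅ c (ins (0, 0) x (ins (1, 0) y (ins (0, 1) z w)))

/-- the conditions of the double value -/
def Ad2 {S : Sys} (c : Co S) (u v : V) (w : V → Finset S.P) (x y : S.P) : Prop :=
  S.ty x = 0 ∧ S.ty y = 0 ∧ x ≠ y ∧ New x w ∧ New y w ∧ Adm ∅ c (ins u x (ins v y w))

/-- LA0: admissible configurations -/
def SlAdm : Prop := ∀ (S : Sys) (a b v : S.T) (x : V → Finset S.P),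
  Adm ∅ (mkc a b v) x ↔ (toCg a b v x).Dj ∧ (toCg a b v x).C1 ∧ (toCg a b v x).C2

open Classical in
/-- LA1: the conditions on two primes, the others being fixed, are separated -/
def SlSep : Prop := ∀ (S : Sys) (c : Co S) (w : V → Finset S.P) (x : S.P),
  c.Ok ∅ → ∃ (P Q : S.P → Prop) (k2 k3 : S.P → ZMod 2), ∀ y z,
    Ad3 c w x y z ↔ P y ∧ Q z ∧ y ≠ z ∧ S.J y z = k2 y ∧ S.J y z = k3 z

open Classical in
/-- LA2: the same for two primes in opposite classes -/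
def SlSep2 : Prop := ∀ (S : Sys) (a b : S.T) (w : V → Finset S.P), S.l = 0 →
  (∀ t, t ≠ (1, 0) → t ≠ (0, 1) → w t = ∅) → ∃ (P Q : S.P → Prop) (k2 : S.P → ZMod 2),
    ∀ x y, Ad2 (mkc a b a) (1, 0) (0, 1) w x y ↔ P x ∧ Q y ∧ x ≠ y ∧
      S.ex (insert y (w (0, 1))) a x = 0 ∧ S.J y x = k2 y

section

variable {k : Type} [Field k] [NumberField k] (Fr : Frm k) (Rk : RxF k)

open Classical in
/-- the coefficient function -/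
noncomputable def RR (G : LDt k) (a b v : Fr.sys.T) (x : V → Finset Fr.sys.P) : ℝ :=
  if (a = 0 ∧ sid x 0 = ∅) ∨ (b = 0 ∧ sid x 1 = ∅) ∨ (a = b ∧ ∀ u, x u = ∅) then 0
  else Rf Fr Rk G (toCg a b v x)

/-- LT1: the differencing identity -/
def SlTR : Prop := ∀ (L : Type) [Field L] [NumberField L] [Algebra k L] (X : HX Fr L)
  (x x' : Fr.sys.P), x ≠ x' → X.M = {x, x'} → X.a = rep Fr (0, {x, x'}) →
  ∀ G : LDt k, SLoc Fr G → (∀ d, |G d| ≤ 1) → ∀ (a b v : Fr.sys.T) (w : V → Finset Fr.sys.P),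
  (∀ y z, t3 (mkc a b v) (RR Fr Rk G a b v) w x y z *
    t3 (mkc a b v) (RR Fr Rk G a b v) w x' y z = 0) ∨
  ∃ (pr : Fr.sys.P → Option X.PX) (h : Finset X.PX) (γ γ' : Fr.sys.P → HX.GX L)
    (c1 : Fr.sys.P → ℝ), (∀ y, |c1 y| ≤ 1) ∧ (Qof X).Gd h ∧ (∀ b' ∈ h, X.shX b' ∈ sid w 1) ∧
    ∀ y z, Ad3 (mkc a b v) w x y z → Ad3 (mkc a b v) w x' y z →
      ∃ Py Pz, pr y = some Py ∧ pr z = some Pz ∧ X.shX Py = y ∧ X.shX Pz = z ∧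
        γ y ∈ (Qof X).B (insert (X.cjX Py) h) ∧ γ' y ∈ (Qof X).B (insert Py h) ∧
        (Qof X).sy (γ' y) Pz = (Qof X).sy (γ y) Pz + Fr.sys.J y z ∧
        t3 (mkc a b v) (RR Fr Rk G a b v) w x y z * t3 (mkc a b v) (RR Fr Rk G a b v) w x' y z =
          c1 y * ((sg ((Qof X).sy (γ y) Pz) : ℤ) : ℝ)

/-- LT2: the bilinear estimate for two values -/
def SlBT : Prop := ∀ G : LDt k, SLoc Fr G → (∀ d, |G d| ≤ 1) → ∀ a b v : Fr.sys.T,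
  BT (mkc a b v) (RR Fr Rk G a b v)

/-- a square root modulo a prime -/
def IsRt (P : HeightOneSpectrum (𝓞 k)) (r a : kˣ) : Prop :=
  ord P (r : k) = 0 ∧ ((a : k) = r ^ 2 ∨ 0 < ord P ((a : k) - r ^ 2))

/-- LQ0: second bits over `(a, Y)`, `Y` a product of two prime elements, `-1` a square -/
def SlQ0 : Prop := IsSquare (-1 : k) → ∀ (A : Finset Fr.sys.P) (ua : Fr.sys.T)
  (q q' : Fr.sys.P), q ≠ q' → q ∉ A → q' ∉ A → Fr.sys.ty q = Fr.sys.ty q' →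
  ∀ g : Gm k → ZMod 2, IsF (rep Fr (ua, A)) (rep Fr (0, {q, q'})) g →
  (∀ p, g (Rk.tau (Fr.pl p)) = 0) → ∀ c : kˣ, (∀ v ∈ pls Fr.S, ∀ σ ∈ DecP v, g σ = chi (c : k) σ) →
  ∀ r r' : kˣ, IsRt (Fr.pl q) r (rep Fr (ua, A)) → IsRt (Fr.pl q') r' (rep Fr (ua, A)) →
    hS Fr c (rep Fr (ua, A)) + ∑ p ∈ A, g (Rk.phi (Fr.pl p)) =
      qr (r : k) (Fr.pl q) + qr (r' : k) (Fr.pl q')

/-- LQ1: changing `b` by a local square at `S` -/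
def SlTrB : Prop := ∀ (G : LDt k), SLoc Fr G → ∀ (a b Y κ : kˣ) (f g : Gm k → ZMod 2),
  IsF a b f → IsF a Y g → (∀ v ∈ pls Fr.S, LocP v (Y : k)) →
  ∃ c : kˣ, (∀ v ∈ pls Fr.S, ∀ σ ∈ DecP v, g σ = chi (c : k) σ) ∧
    Gh Fr G κ a (b * Y) (fun σ => f σ + g σ) =
      Gh Fr G κ a b f * ((sg (hS Fr c κ) : ℤ) : ℝ)

open Classical in
/-- LQ2: the values of the coefficient function for two opposite classes -/
def SlQU : Prop := IsSquare (-1 : k) → ∀ G : LDt k, SLoc Fr G → (∀ d, |G d| ≤ 1) →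
  ∀ (a b : Fr.sys.T) (w : V → Finset Fr.sys.P), (∀ t, t ≠ (1, 0) → t ≠ (0, 1) → w t = ∅) →
  ∃ c1 : Fr.sys.P → ℝ, (∀ y, |c1 y| ≤ 1) ∧ ∀ x y, Ad2 (mkc a b a) (1, 0) (0, 1) w x y →
    ∀ r : kˣ, IsRt (Fr.pl x) r (rep Fr (a, insert y (w (0, 1)))) →
      t2 (mkc a b a) (RR Fr Rk G a b a) (1, 0) (0, 1) w x y =
        c1 y * ((sg (qr (r : k) (Fr.pl x)) : ℤ) : ℝ)

open Classical in
/-- the quartic kernel: `1` at fourth powers, `-1` at the other squares, `0` else -/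
noncomputable def qk (P : HeightOneSpectrum (𝓞 k)) (u : 𝓞 k) : ℤ :=
  if h : ∃ r : 𝓞 k, r ∉ P.asIdeal ∧ u - r ^ 2 ∈ P.asIdeal then sg (qr (h.choose : k) P) else 0

variable (k) in
/-- LQ3: properties of the quartic kernel -/
def SlQK : Prop := IsSquare (-1 : k) → ∀ P : HeightOneSpectrum (𝓞 k), ord P (2 : k) = 0 →
  (∀ u : 𝓞 k, |qk P u| ≤ 1) ∧ (∀ u u' : 𝓞 k, u - u' ∈ P.asIdeal → qk P u = qk P u') ∧
  (∀ u r : 𝓞 k, r ∉ P.asIdeal → u - r ^ 2 ∈ P.asIdeal → qk P u = sg (qr (r : k) P)) ∧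
  (∀ u : 𝓞 k, (¬ ∃ r : 𝓞 k, r ∉ P.asIdeal ∧ u - r ^ 2 ∈ P.asIdeal) → qk P u = 0) ∧
  ∀ (s : Finset (𝓞 k)), (∀ x ∈ s, ∀ y ∈ s, x - y ∈ P.asIdeal → x = y) →
    s.card = nrm P → ∑ x ∈ s, qk P x = 0

/-- LQ4: the kernels are orthogonal over cubes -/
def SlQO : Prop := IsSquare (-1 : k) → ∀ (c : ℕ) (L : Lat (𝓞 k) (Pool.Agent.H32.MQ.dg k) c)
  (p q : Fr.sys.P), p ≠ q → ∀ b d : 𝓞 k, b ∉ (Fr.pl p).asIdeal → d ∉ (Fr.pl q).asIdeal →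
  ∀ u, ∑ x ∈ cube L u (nrm (Fr.pl p) * nrm (Fr.pl q)),
    qk (Fr.pl p) (b * x) * qk (Fr.pl q) (d * x) = 0

/-- LQ5: small representatives of the prime elements modulo fourth powers -/
def SlSm : Prop := ∃ Φ : Finset kˣ, ∀ p : Fr.sys.P, ∃ (t : 𝓞 k) (φ : kˣ) (v : kˣ), φ ∈ Φ ∧
  v ∈ US Fr.S ∧ t ≠ 0 ∧ Pool.Agent.H32.MQ.sz t ^ Pool.Agent.H32.MQ.dg k ≤ nrm (Fr.pl p) ∧
  ((Fr.pi p : kˣ) : k) = (t : k) * φ * v ^ 4

/-- LQ6: the bilinear estimate for two opposite classes -/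
def SlBQ : Prop := IsSquare (-1 : k) → ∀ G : LDt k, SLoc Fr G → (∀ d, |G d| ≤ 1) →
  ∀ a b : Fr.sys.T, BQ (mkc a b a) (RR Fr Rk G a b a) (1, 0) (0, 1)

/-- LL: the laws -/
def SlLaw : Prop := ∀ G : LDt k, LG Fr G → ∃ Θ : Fr.sys.T → Fr.sys.T → Fr.sys.T → Fr.sys.T → ℝ,
  Law (RR Fr Rk G) Θ ∧ (∀ a b m n, 0 ≤ Θ a b m n) ∧
  ∀ (A B : Finset Fr.sys.P) (ua ub : Fr.sys.T), Disjoint A B →
    (⟨∅, A, ∅, B, ua, ub, 0⟩ : Cg Fr.sys).C1 →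
    (∃ f, IsL Fr Rk (rep Fr (ua, A)) (rep Fr (ub, B)) ∅ f ∧
      ∃ y z : Fr.sys.T, G (dat (rep Fr (ua, A)) (rep Fr (ub, B))
        fun σ => f σ + chi (cl Fr y z : k) σ) ≠ 0) →
      0 < Θ ua ub (Fr.sys.tys A) (Fr.sys.tys B)

end

/-- LQ7: the basic large sieve for orthogonal kernels -/
def SlLS : Prop := ∀ n : ℕ, 1 ≤ n → ∃ C : ℝ, 0 < C ∧ ∀ (A : Type) [CommRing A] (c : ℕ)
  (L : Lat A n c) (ι : Type) (I : Finset ι) (K : ι → A → ℤ) (q : ι → ℕ) (E : ℝ), 1 ≤ E →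
  (∀ i ∈ I, 1 ≤ q i ∧ (q i : ℝ) ≤ E) → (∀ i ∈ I, ∀ x, |K i x| ≤ 1) →
  (∀ i ∈ I, ∀ j ∈ I, i ≠ j → ∀ u, ∑ x ∈ cube L u (q i * q j), K i x * K j x = 0) →
  ∀ (R : ℕ) (α : ι → ℝ) (β : A → ℝ), 1 ≤ R → (∀ i, |α i| ≤ 1) → (∀ x, |β x| ≤ 1) →
    |∑ i ∈ I, ∑ x ∈ bxA L R, α i * β x * K i x| ≤
      C * ((I.card : ℝ) ^ (1 / 2 : ℝ) * (R : ℝ) ^ n +
        (I.card : ℝ) * E * (R : ℝ) ^ ((n : ℝ) - 1 / 2))

end Pool.Agent.D8
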