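import Pool.Agent.D8.CDefs
import Pool.Agent.D8.LStm
import Pool.Agent.D8.ARp
import Pool.Agent.H98.MF.C.Lin

/-!
# Malle's conjecture for the dihedral group of order 16 over number fields, row LW: the laws of
the coefficient function
-/

set_option autoImplicit false

open scoped BigOperators
open NumberField IsDedekindDomain

namespace Pool.Agent.D8

open Pool.Agent.H98.MF
open Pool.Agent.H98.MK (sg)
open Pool.Agent.H32.MQ (El rep)

section

variable {k : Type} [Field k] [NumberField k] (Fr : Frm k) (Rk : RxF k)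

private theorem clw_eq (G : LDt k) (a b v : Fr.sys.T) (x : V → Finset Fr.sys.P)
    (h : ∃ u, (x u).Nonempty) : RG Fr Rk G a b v x = RR Fr Rk G a b v x := by
  classical
  obtain ⟨u, hu⟩ := h
  have h1 : ¬ (a = b ∧ ∀ u, x u = ∅) := by
    rintro ⟨-, h2⟩
    rw [h2 u] at hu
    exact Finset.not_nonempty_empty hu
  unfold RG RR
  by_cases h2 : (a = 0 ∧ sid x 0 = ∅) ∨ (b = 0 ∧ sid x 1 = ∅)
  · rw [if_pos h2, if_pos (h2.elim (fun h => Or.inl h) fun h => Or.inr (Or.inl h))]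
  · rw [if_neg h2, if_neg (fun h => h.elim (fun h => h2 (Or.inl h)) fun h =>
      h.elim (fun h => h2 (Or.inr h)) h1)]
    rfl

private theorem clw_ins {S : Sys} (u : V) (p : S.P) (w : V → Finset S.P) :
    (ins u p w u).Nonempty := by
  classical
  unfold ins
  rw [Function.update_self]
  exact ⟨p, Finset.mem_insert_self _ _⟩

private theorem clw_t3 (G : LDt k) (a b v : Fr.sys.T) (c : Co Fr.sys)
    (w : V → Finset Fr.sys.P) (x y z : Fr.sys.P) :
    t3 c (RG Fr Rk G a b v) w x y z = t3 c (RR Fr Rk G a b v) w x y z := by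
  unfold t3
  split_ifs
  · exact clw_eq Fr Rk G a b v _ ⟨(0, 0), clw_ins _ _ _⟩
  · rfl

private theorem clw_t2 (G : LDt k) (a b v : Fr.sys.T) (c : Co Fr.sys) (u u' : V)
    (w : V → Finset Fr.sys.P) (x y : Fr.sys.P) :
    t2 c (RG Fr Rk G a b v) u u' w x y = t2 c (RR Fr Rk G a b v) u u' w x y := by
  unfold t2
  split_ifs
  · exact clw_eq Fr Rk G a b v _ ⟨u, clw_ins _ _ _⟩
  · rfl

private theorem clw_BT (G : LDt k) (a b v : Fr.sys.T) (c : Co Fr.sys)
    (h : BT c (RR Fr Rk G a b v)) : BT c (RG Fr Rk G a b v) := by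
  obtain ⟨C, A, η, hA, hη, h1⟩ := h
  refine ⟨C, A, η, hA, hη, fun w x x' hx β γ hβ hγ Y Z hY hZ => ?_⟩
  have h2 := h1 w x x' hx β γ hβ hγ Y Z hY hZ
  simp only [← clw_t3] at h2
  exact h2

private theorem clw_BQ (G : LDt k) (a b v : Fr.sys.T) (c : Co Fr.sys) (u u' : V)
    (h : BQ c (RR Fr Rk G a b v) u u') : BQ c (RG Fr Rk G a b v) u u' := by
  obtain ⟨C, A, η, hA, hη, h1⟩ := h
  refine ⟨C, A, η, hA, hη, fun w α β hα hβ hw X Y hX hY => ?_⟩
  have h2 := h1 w α β hα hβ hw X Y hX hY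
  simp only [← clw_t2] at h2
  exact h2

private theorem clw_pat {S : Sys} (x : V → Finset S.P) (u : V) (h : u ∈ pat x) :
    (x u).Nonempty := by
  classical
  unfold pat at h
  exact (Finset.mem_filter.1 h).2

/-- the product of the symbols of a solvable pair -/
private theorem clw_hq {S : Sys} (A B : Finset S.P) (a b : S.T) (hAB : Disjoint A B)
    (h1 : ∀ p ∈ A, S.ex B b p = 0) (h2 : ∀ p ∈ B, S.ex A a p = 0) :
    hq a b (S.tys A) (S.tys B) = 0 := by
  have e1 : ∑ p ∈ A, (∑ q ∈ B, S.J q p + b ⬝ᵥ S.ty p) = 0 :=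
    Finset.sum_eq_zero fun p hp => h1 p hp
  have e2 : ∑ q ∈ B, (∑ p ∈ A, S.J p q + a ⬝ᵥ S.ty q) = 0 :=
    Finset.sum_eq_zero fun q hq => h2 q hq
  rw [Finset.sum_add_distrib] at e1 e2
  have e3 : ∑ p ∈ A, b ⬝ᵥ S.ty p = b ⬝ᵥ S.tys A := by
    unfold Sys.tys
    rw [dotProduct_sum]
  have e4 : ∑ q ∈ B, a ⬝ᵥ S.ty q = a ⬝ᵥ S.tys B := by
    unfold Sys.tys
    rw [dotProduct_sum]
  have e5 : (S.l ⬝ᵥ S.tys A) * (S.l ⬝ᵥ S.tys B) =
      ∑ p ∈ A, ∑ q ∈ B, S.J q p + ∑ q ∈ B, ∑ p ∈ A, S.J p q := by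
    have e6 : S.l ⬝ᵥ S.tys A = ∑ p ∈ A, S.l ⬝ᵥ S.ty p := by
      unfold Sys.tys
      rw [dotProduct_sum]
    have e7 : S.l ⬝ᵥ S.tys B = ∑ q ∈ B, S.l ⬝ᵥ S.ty q := by
      unfold Sys.tys
      rw [dotProduct_sum]
    rw [e6, e7, Finset.sum_mul_sum, Finset.sum_comm (s := B) (t := A), ← Finset.sum_add_distrib]
    refine Finset.sum_congr rfl fun p hp => ?_
    rw [← Finset.sum_add_distrib]
    refine Finset.sum_congr rfl fun q hq => ?_
    have hne : q ≠ p := by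
      rintro rfl
      exact Finset.disjoint_left.1 hAB hp hq
    rw [S.recip q p hne, mul_comm]
  unfold hq
  rw [e5, ← e3, ← e4]
  linear_combination e1 + e2

/-- the laws of the coefficient function -/
theorem cLaw (hL : SlLaw Fr Rk) (hC1 : ScC1 Fr Rk) (hb : SaRb Fr Rk) (hSl : SaSl k) :
    ScLaw Fr Rk := by
  classical
  have _ := hC1
  intro G hG
  obtain ⟨Θ, hΘ, hnn, hpos⟩ := hL G hG
  have hG1 : ∀ d, |G d| ≤ 1 := fun d => by
    rw [abs_of_nonneg (hG.nn d)]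
    exact hG.le d
  refine ⟨Θ, ⟨?_, hΘ.th, ?_, ?_, ?_, ?_, ?_, ?_, ?_⟩, hnn, ?_⟩
  · intro a b v x
    unfold RG
    split_ifs
    · rw [abs_zero]
      exact zero_le_one
    · exact hb G hG1 _
  · intro b v x hx
    unfold RG
    rw [if_pos (Or.inl ⟨rfl, hx⟩)]
  · intro a v x hx
    unfold RG
    rw [if_pos (Or.inr ⟨rfl, hx⟩)]
  · intro a b x hx hp
    rw [clw_eq Fr Rk G a b 0 x ⟨(0, 0), clw_pat x _ (by
      rw [hp]
      exact Finset.mem_insert_self _ _)⟩]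
    exact hΘ.main0 a b x hx hp
  · intro a b x hx hp
    rw [clw_eq Fr Rk G a b _ x ⟨(0, 1), clw_pat x _ (by
      rw [hp]
      exact Finset.mem_insert_self _ _)⟩]
    exact hΘ.main1 a b x hx hp
  · intro a b v
    exact clw_BT Fr Rk G a b v _ (hΘ.bt a b v)
  · intro hl a b
    rcases hΘ.bq0 hl a b with h | h
    · exact Or.inl (clw_BQ Fr Rk G a b b _ _ _ h)
    · exact Or.inr (clw_BQ Fr Rk G a b b _ _ _ h)
  · intro hl a b
    rcases hΘ.bq1 hl a b with h | h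
    · exact Or.inl (clw_BQ Fr Rk G a b a _ _ _ h)
    · exact Or.inr (clw_BQ Fr Rk G a b a _ _ _ h)
  · intro A B ua ub hP
    obtain ⟨hAB, f, hf, hyz⟩ := hP
    have hs : Slv (rep Fr (ua, A)) (rep Fr (ub, B)) := (hSl _ _).1 ⟨f, hf.1⟩
    have hDj : (⟨∅, A, ∅, B, ua, ub, 0⟩ : Cg Fr.sys).Dj := by
      refine ⟨Finset.disjoint_empty_left _, Finset.disjoint_empty_left _, ?_⟩
      show Disjoint (∅ ∪ A) (∅ ∪ B)
      rw [Finset.empty_union, Finset.empty_union]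
      exact hAB
    have hs' : Slv ((⟨∅, A, ∅, B, ua, ub, 0⟩ : Cg Fr.sys).ea (Fr := Fr))
        (⟨∅, A, ∅, B, ua, ub, 0⟩ : Cg Fr.sys).eb := by
      show Slv (rep Fr (ua, ∅ ∪ A)) (rep Fr (ub, ∅ ∪ B))
      rw [Finset.empty_union, Finset.empty_union]
      exact hs
    have hC := arp_C1 (Pool.Agent.H98.MF.B.lin k) _ hDj hs'
    refine ⟨hpos A B ua ub hAB hC ⟨f, hf, hyz⟩, ?_⟩
    obtain ⟨h1, h2⟩ := hC
    refine clw_hq A B ua ub hAB (fun p hp => ?_) fun p hp => ?_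
    · have h3 := h1 p (by
        show p ∈ ∅ ∪ A
        rw [Finset.empty_union]
        exact hp)
      have h4 : Fr.sys.ex (∅ ∪ B) ub p = 0 := h3
      rwa [Finset.empty_union] at h4
    · have h3 := h2 p (by
        show p ∈ ∅ ∪ B
        rw [Finset.empty_union]
        exact hp)
      have h4 : Fr.sys.ex (∅ ∪ A) ua p = 0 := h3
      rwa [Finset.empty_union] at h4

end

end Pool.Agent.D8
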