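import Pool.Agent.D8.CDefs
import Pool.Agent.H98.MF.L.KIn
import Pool.Agent.H98.MF.ChiM

/-!
# Malle's conjecture for the dihedral group of order 16 over number fields, part C: a homomorphism
gives a solvable pair
-/

set_option autoImplicit false

open scoped BigOperators
open NumberField IsDedekindDomain

namespace Pool.Agent.D8

open Pool.Agent.H98.MF
open Pool.Agent.H32.MQ (El rep)

section

variable {k : Type} [Field k] [NumberField k] (Fr : Frm k) (Rk : RxF k)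

theorem cpg_cl00 : cl Fr 0 0 = 1 := by
  unfold cl
  simp

theorem cpg_tw_one (ρ : Gm k →* E8) : tw ρ 1 = ρ := by
  apply MonoidHom.ext
  intro σ
  rw [tw_apply]
  have h : chi ((1 : kˣ) : k) σ = 0 := Pool.Agent.H98.MF.M6a.chi_one σ
  rw [h]
  have h2 : E8.zz 0 = 1 := by decide
  rw [h2, mul_one]

/-- an element has the same character on the decomposition groups as one of the `cl y z` -/
theorem cpg_gen (t : kˣ) : ∃ y z : Fr.sys.T, ∀ v ∈ pls Fr.S, ∀ σ ∈ DecP v,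
    chi (t : k) σ = chi (cl Fr y z : k) σ := by
  obtain ⟨y, z, h⟩ := Fr.gen fun _ => t
  refine ⟨y, z, fun v hv σ hσ => ?_⟩
  have h1 := ((kin k).one v (t * (∏ j, Fr.u j ^ (y j).val) * ∏ j, Fr.w j ^ (z j).val)).2 (h v hv) σ hσ
  rw [mul_assoc, Pool.Agent.H98.MF.M6a.chi_mul] at h1
  have h2 : ∀ p q : ZMod 2, p + q = 0 → p = q := by decide
  exact h2 _ _ h1

/-- C9a: a homomorphism gives a solvable pair -/
theorem cPG (h1 : ScDis Fr Rk) (h2 : SaSl k) (h3 : SaNor Fr Rk) (h4 : SaKu k) (h5 : SaGH Fr)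
    (h6 : SaGHv Fr) : ScPG Fr Rk := by
  classical
  intro H hH ρ hρ hHρ hT
  obtain ⟨A, B, c, ua, ub, hOv, hd, -, -⟩ := h1.2 ρ hρ hT
  refine ⟨A, B, ua, ub, hd, ?_⟩
  have hf0 : IsF (rep Fr (ua, A)) (rep Fr (ub, B)) fun σ => (ρ σ).pf := by
    refine ⟨hρ.2.comp E8.pf, fun σ τ => ?_⟩
    show (ρ (σ * τ)).pf = _
    rw [map_mul, E8.pf_mul, (hOv σ).1, (hOv τ).2]
  obtain ⟨f, hf⟩ := h3 _ _ ((h2 _ _).1 ⟨_, hf0⟩)
  obtain ⟨t, ht⟩ := (h4 _ _ f _ hf.1).1 hf0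
  obtain ⟨y, z, hyz⟩ := cpg_gen Fr t
  refine ⟨f, hf, y, z, ?_⟩
  have e1 : GH Fr H (dat (rep Fr (ua, A)) (rep Fr (ub, B))
      fun σ => f σ + chi (cl Fr y z : k) σ) =
      GH Fr H (dat (rep Fr (ua, A)) (rep Fr (ub, B)) fun σ => (ρ σ).pf) := by
    refine (h5 H hH).loc _ _ fun v hv σ hσ => ?_
    have e2 : f σ + chi (cl Fr y z : k) σ = (ρ σ).pf := by
      rw [← hyz v hv σ hσ, ← ht σ]
    show (_, _, f σ + chi (cl Fr y z : k) σ) = (_, _, (ρ σ).pf)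
    rw [e2]
  rw [e1, h6 H hH _ _ ρ hρ hOv]
  apply ne_of_gt
  refine mul_pos (by positivity) ?_
  have hnn : ∀ y z : Fr.sys.T, (0 : ℝ) ≤ if H (tw ρ (cl Fr y z)) then 1 else 0 := by
    intro y z
    split_ifs
    · exact zero_le_one
    · exact le_rfl
  refine Finset.sum_pos' (fun y _ => Finset.sum_nonneg fun z _ => hnn y z)
    ⟨0, Finset.mem_univ _, Finset.sum_pos' (fun z _ => hnn 0 z) ⟨0, Finset.mem_univ _, ?_⟩⟩
  rw [cpg_cl00, cpg_tw_one, if_pos hHρ]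
  exact one_pos

end

end Pool.Agent.D8
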