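import Pool.Agent.D8.CDefs
import Pool.Agent.H98.MF.SCntSqf
import Pool.Agent.H98.MF.SChrSqf

/-!
# Malle's conjecture for the dihedral group of order 16 over number fields, row C5: the count for
one pair
-/

set_option autoImplicit false

open scoped BigOperators Topology
open NumberField IsDedekindDomain Filter

namespace Pool.Agent.D8

open Pool.Agent.H98.MK (sg)
open Pool.Agent.H98.MF
open Pool.Agent.H32.MQ (El rep DPole fsz)

section

variable {k : Type} [Field k] [NumberField k] (Fr : Frm k) (Rk : RxF k)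

/-- the average of a predicate is between zero and the average of the full predicate -/
private theorem cper_GH (H : (Gm k →* E8) → Prop) (d : Gm k → ZMod 2 × ZMod 2 × ZMod 2) :
    0 ≤ GH Fr H d ∧ GH Fr H d ≤ GH Fr (fun _ => True) d := by
  classical
  unfold GH
  by_cases h : ∃ ρ ∈ Hs k, ∀ v ∈ pls Fr.S, ∀ σ ∈ DecP v,
      ((ρ σ).pa, (ρ σ).pb, (ρ σ).pf) = d σ
  · rw [dif_pos h, dif_pos h]
    have h4 : (0 : ℝ) ≤ 1 / 4 ^ Fr.sys.m := by positivity
    constructor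
    · refine mul_nonneg h4 (Finset.sum_nonneg fun y _ => Finset.sum_nonneg fun z _ => ?_)
      split_ifs
      · exact zero_le_one
      · exact le_rfl
    · refine mul_le_mul_of_nonneg_left (Finset.sum_le_sum fun y _ =>
        Finset.sum_le_sum fun z _ => ?_) h4
      rw [if_pos trivial]
      split_ifs
      · exact le_rfl
      · exact zero_le_one
  · rw [dif_neg h, dif_neg h]
    exact ⟨le_rfl, le_rfl⟩

private theorem cper_NG (G G' : LDt k) (hG : ∀ d, 0 ≤ G d ∧ G d ≤ G' d) (a b : kˣ)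
    (W : Finset Fr.sys.P) : 0 ≤ NG Fr Rk G a b W ∧ NG Fr Rk G a b W ≤ NG Fr Rk G' a b W := by
  classical
  unfold NG
  by_cases h : ∃ f, IsL Fr Rk a b ∅ f
  · rw [dif_pos h, dif_pos h]
    have h2 : (0 : ℝ) ≤ 2 ^ W.card := by positivity
    constructor
    · refine mul_nonneg h2 (Finset.sum_nonneg fun y _ => Finset.sum_nonneg fun r _ => ?_)
      split_ifs
      · exact (hG _).1
      · exact le_rfl
    · refine mul_le_mul_of_nonneg_left (Finset.sum_le_sum fun y _ =>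
        Finset.sum_le_sum fun r _ => ?_) h2
      split_ifs
      · exact (hG _).2
      · exact le_rfl
  · rw [dif_neg h, dif_neg h]
    exact ⟨le_rfl, le_rfl⟩

end

/-- C5: the count for one pair -/
theorem cPer {k : Type} [Field k] [NumberField k] (Fr : Frm k) (Rk : RxF k)
    (h : SaCnt Fr Rk) : ScPer Fr Rk := by
  classical
  obtain ⟨κ0, C1, hκ0, h1⟩ := cnt_sqf Fr.sys
  obtain ⟨C2, hC2, h2⟩ := chr_sqf Fr.sys
  set n : ℝ := (((Finset.univ : Finset Fr.sys.T).erase 0).card : ℝ) with hn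
  refine ⟨2 ^ Fr.sys.m * κ0, 2 ^ Fr.sys.m * (n * C2 + |C1|), by positivity, by positivity, ?_⟩
  intro H hH z hz t ht
  obtain ⟨-, hc⟩ := h H hH z.1.1 z.1.2 z.2.1 z.2.2 t hz.dj hz.na hz.nb hz.nab ht
  have ht0 : 0 ≤ t := by linarith
  have htp : 0 ≤ t ^ (1 - Fr.sys.dl) := Real.rpow_nonneg ht0 _
  set W : Finset Fr.sys.P := z.1.1 ∪ z.1.2 with hW
  set N : ℝ := NGz Fr Rk (GH Fr H) z with hN
  set N' : ℝ := NGz Fr Rk (GH Fr fun _ => True) z with hN'
  have hNN := cper_NG Fr Rk (GH Fr H) (GH Fr fun _ => True) (cper_GH Fr H) (pe z) (pf z) W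
  have hN0 : 0 ≤ N := hNN.1
  have hNle : N ≤ N' := hNN.2
  have hN'0 : 0 ≤ N' := hN0.trans hNle
  have hth : ∏ p ∈ W, th Fr p = Fr.sys.hs W := rfl
  have htg : ∏ p ∈ W, tg Fr p = ∏ p ∈ W, (1 + 1 / (Fr.sys.N p : ℝ))⁻¹ := rfl
  have hhs : 0 ≤ Fr.sys.hs W := le_trans zero_le_one (Fr.sys.one_le_hs W)
  set c : ℝ := (((Fr.sys.bx t).filter fun c => Disjoint c W).card : ℝ) with hcdef
  have hcnt : |c - κ0 * (∏ p ∈ W, tg Fr p) * t| ≤
      |C1| * Fr.sys.hs W * t ^ (1 - Fr.sys.dl) := by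
    rw [htg]
    refine (h1 W t ht).trans ?_
    exact mul_le_mul_of_nonneg_right (mul_le_mul_of_nonneg_right (le_abs_self C1) hhs) htp
  have hchr : ∑ κ ∈ (Finset.univ : Finset Fr.sys.T).erase 0,
      |∑ c ∈ (Fr.sys.bx t).filter fun c => Disjoint c W, (Fr.sys.ps κ c : ℝ)| ≤
        n * (C2 * Fr.sys.hs W * t ^ (1 - Fr.sys.dl)) := by
    rw [hn, ← nsmul_eq_mul]
    refine Finset.sum_le_card_nsmul _ _ _ fun κ hκ => ?_
    have hκ0 : κ ≠ 0 := (Finset.mem_erase.1 hκ).1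
    have e1 := h2 ∅ W κ (Or.inr hκ0) t ht
    have e2 : (Fr.sys.nm (∅ : Finset Fr.sys.P) : ℝ) ^ Fr.sys.A = 1 := by
      have e3 : Fr.sys.nm (∅ : Finset Fr.sys.P) = 1 := by
        unfold Pre.nm
        exact Finset.prod_empty
      rw [e3, Nat.cast_one, Real.one_rpow]
    rw [e2, mul_one] at e1
    have e4 : ∑ x ∈ Fr.sys.bx t, (if Disjoint x (∅ ∪ W)
        then ((sg (Fr.sys.JJ x ∅ + κ ⬝ᵥ Fr.sys.tys x) : ℤ) : ℝ) else 0) =
        ∑ c ∈ (Fr.sys.bx t).filter fun c => Disjoint c W, (Fr.sys.ps κ c : ℝ) := by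
      rw [Finset.sum_filter]
      refine Finset.sum_congr rfl fun x _ => ?_
      rw [Finset.empty_union, Fr.sys.JJ_empty_right, zero_add]
      rfl
    rw [e4] at e1
    exact e1
  have hm : (0 : ℝ) ≤ 2 ^ Fr.sys.m := by positivity
  have hc' : |((Cs Fr Rk H z.1.1 z.1.2 z.2.1 z.2.2 t).ncard : ℝ) - 2 ^ Fr.sys.m * N * c| ≤
      2 ^ Fr.sys.m * N' * (n * (C2 * Fr.sys.hs W * t ^ (1 - Fr.sys.dl))) :=
    hc.trans (mul_le_mul_of_nonneg_left hchr (mul_nonneg hm hN'0))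
  have hsplit : ((Cs Fr Rk H z.1.1 z.1.2 z.2.1 z.2.2 t).ncard : ℝ) -
      2 ^ Fr.sys.m * κ0 * (N * ∏ p ∈ W, tg Fr p) * t =
      (((Cs Fr Rk H z.1.1 z.1.2 z.2.1 z.2.2 t).ncard : ℝ) - 2 ^ Fr.sys.m * N * c) +
        2 ^ Fr.sys.m * N * (c - κ0 * (∏ p ∈ W, tg Fr p) * t) := by ring
  rw [hsplit]
  refine (abs_add_le _ _).trans ?_
  have h5 : |2 ^ Fr.sys.m * N * (c - κ0 * (∏ p ∈ W, tg Fr p) * t)| ≤
      2 ^ Fr.sys.m * N' * (|C1| * Fr.sys.hs W * t ^ (1 - Fr.sys.dl)) := by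
    rw [abs_mul, abs_of_nonneg (mul_nonneg hm hN0)]
    exact mul_le_mul (mul_le_mul_of_nonneg_left hNle hm) hcnt (abs_nonneg _)
      (mul_nonneg hm hN'0)
  refine (add_le_add hc' h5).trans (le_of_eq ?_)
  rw [hth]
  ring

end Pool.Agent.D8
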