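import Pool.Agent.D8.CDefs

/-!
# Malle's conjecture for the dihedral group of order 16 over number fields, part C: the double pole
of the Dirichlet series of the pairs
-/

set_option autoImplicit false

open scoped BigOperators Topology
open NumberField IsDedekindDomain Filter

namespace Pool.Agent.D8

open Pool.Agent.H98.MK (sg)
open Pool.Agent.H98.MF
open Pool.Agent.H32.MQ (El rep DPole fsz)

section

variable {k : Type} [Field k] [NumberField k] (Fr : Frm k) (Rk : RxF k)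

theorem cpol_nq {S : Sys} (z : Pq S) : 1 ≤ nq z := by
  unfold nq
  exact Nat.mul_pos (S.one_le_nm z.1.1) (S.one_le_nm z.1.2)

theorem cpol_NG {G : LDt k} (hG : ∀ d, 0 ≤ G d) (a b : kˣ) (W : Finset Fr.sys.P) :
    0 ≤ NG Fr Rk G a b W := by
  unfold NG
  split_ifs with h
  · refine mul_nonneg (by positivity) (Finset.sum_nonneg fun y _ => Finset.sum_nonneg fun r _ => ?_)
    split_ifs
    · exact hG _
    · exact le_rfl
  · exact le_rfl

theorem cpol_bz {B : ℝ} {τ : Fr.sys.P → ℝ} (hτ : Tk Fr.sys B τ) {G : LDt k} (hG : ∀ d, 0 ≤ G d)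
    (z : Pq Fr.sys) : 0 ≤ bz Fr Rk τ G z := by
  unfold bz
  split_ifs
  · exact div_nonneg (mul_nonneg (cpol_NG Fr Rk hG _ _ _)
      (Finset.prod_nonneg fun p _ => (hτ p).1)) (Nat.cast_nonneg _)
  · exact le_rfl

theorem cpol_sg (c : ZMod 2) : (0 : ℝ) ≤ 1 + ((sg c : ℤ) : ℝ) := by
  unfold Pool.Agent.H98.MK.sg
  split_ifs <;> norm_num

theorem cpol_lim {f g : ℝ → ℝ} {c K M : ℝ} (hM : ∀ σ : ℝ, 0 < σ → σ ≤ 1 → |f σ - K * g σ| ≤ M)
    (hg : Tendsto (fun σ : ℝ => σ ^ 2 * g σ) (𝓝[>] 0) (𝓝 c)) :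
    Tendsto (fun σ : ℝ => σ ^ 2 * f σ) (𝓝[>] 0) (𝓝 (K * c)) := by
  have h1 : Tendsto (fun σ : ℝ => K * (σ ^ 2 * g σ)) (𝓝[>] 0) (𝓝 (K * c)) := hg.const_mul K
  have h2 : Tendsto (fun σ : ℝ => σ ^ 2 * (f σ - K * g σ)) (𝓝[>] 0) (𝓝 0) := by
    have h3 : Tendsto (fun σ : ℝ => σ ^ 2 * M) (𝓝[>] 0) (𝓝 0) := by
      have h4 : Tendsto (fun σ : ℝ => σ ^ 2 * M) (𝓝 0) (𝓝 ((0 : ℝ) ^ 2 * M)) :=
        ((continuous_pow 2).mul continuous_const).tendsto 0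
      rw [zero_pow two_ne_zero, zero_mul] at h4
      exact h4.mono_left nhdsWithin_le_nhds
    refine squeeze_zero_norm' ?_ h3
    have h5 : Set.Ioc (0 : ℝ) 1 ∈ 𝓝[>] (0 : ℝ) := Ioc_mem_nhdsGT one_pos
    filter_upwards [h5] with σ hσ
    rw [Real.norm_eq_abs, abs_mul, abs_of_nonneg (sq_nonneg σ)]
    exact mul_le_mul_of_nonneg_left (hM σ hσ.1 hσ.2) (sq_nonneg σ)
  have h6 := h1.add h2
  rw [add_zero] at h6
  refine h6.congr fun σ => ?_
  ring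

/-- C8: the double pole -/
theorem cPol (h1 : ScLaw Fr Rk) (h2 : SD8L) (h3 : ScSer Fr Rk) : ScPol Fr Rk := by
  intro B τ hτ G hG
  obtain ⟨Θ, hL, hΘ, hP⟩ := h1 G hG
  obtain ⟨c0, hc0, hlim⟩ := h2 Fr.sys B τ hτ
  have hlim' := hlim (RG Fr Rk G) Θ hL
  have hS := h3 B τ hτ G hG
  refine ⟨2 ^ Fr.sys.m * (c0 * ∑ a : Fr.sys.T, ∑ b : Fr.sys.T, ∑ k : Fr.sys.T, ∑ m : Fr.sys.T,
    Θ a b k m * (1 + ((sg (hq a b k m) : ℤ) : ℝ))), ⟨cpol_bz Fr Rk hτ hG.nn, ?_, ?_⟩, ?_⟩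
  · intro σ hσ
    by_cases h : σ ≤ 1
    · exact (hS σ hσ h).1
    · refine Summable.of_nonneg_of_le (fun z => ?_) (fun z => ?_) (hS 1 one_pos le_rfl).1
      · exact mul_nonneg (cpol_bz Fr Rk hτ hG.nn z) (Real.rpow_nonneg (Nat.cast_nonneg _) _)
      · refine mul_le_mul_of_nonneg_left ?_ (cpol_bz Fr Rk hτ hG.nn z)
        exact Real.rpow_le_rpow_of_exponent_le (by exact_mod_cast cpol_nq z)
          (by linarith [not_le.1 h])
  · exact cpol_lim (fun σ hσ hσ1 => (hS σ hσ hσ1).2) hlim'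
  · rintro ⟨A, B', ua, ub, hp⟩
    obtain ⟨h5, h6⟩ := hP A B' ua ub hp
    refine mul_pos (by positivity) (mul_pos hc0 ?_)
    have hnn : ∀ a b k m : Fr.sys.T, 0 ≤ Θ a b k m * (1 + ((sg (hq a b k m) : ℤ) : ℝ)) :=
      fun a b k m => mul_nonneg (hΘ a b k m) (cpol_sg _)
    refine Finset.sum_pos' (fun a _ => Finset.sum_nonneg fun b _ => Finset.sum_nonneg fun k _ =>
      Finset.sum_nonneg fun m _ => hnn a b k m) ⟨ua, Finset.mem_univ _, ?_⟩
    refine Finset.sum_pos' (fun b _ => Finset.sum_nonneg fun k _ =>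
      Finset.sum_nonneg fun m _ => hnn ua b k m) ⟨ub, Finset.mem_univ _, ?_⟩
    refine Finset.sum_pos' (fun k _ =>
      Finset.sum_nonneg fun m _ => hnn ua ub k m) ⟨Fr.sys.tys A, Finset.mem_univ _, ?_⟩
    refine Finset.sum_pos' (fun m _ => hnn ua ub (Fr.sys.tys A) m)
      ⟨Fr.sys.tys B', Finset.mem_univ _, ?_⟩
    rw [h6]
    have h7 : (1 : ℝ) + ((sg 0 : ℤ) : ℝ) = 2 := by
      unfold Pool.Agent.H98.MK.sg
      norm_num
    rw [h7]
    exact mul_pos h5 two_pos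

end

end Pool.Agent.D8
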