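import Pool.Agent.D8.CDefs
import Pool.Agent.D8.AObF

/-!
# Malle's conjecture for the dihedral group of order 16 over number fields, row C3: the part at
`S` takes finitely many values and is a local function
-/

set_option autoImplicit false

open scoped BigOperators Topology
open NumberField IsDedekindDomain Filter

namespace Pool.Agent.D8

open Pool.Agent.H98.MK (sg)
open Pool.Agent.H98.MF

/-! ### bits -/

theorem cqf_bits {g g' : E8} (h1 : g.pa = g'.pa) (h2 : g.pb = g'.pb) (h3 : g.pf = g'.pf)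
    (h4 : g.ph = g'.ph) : g = g' := by
  rw [← E8.mk4_bits g, ← E8.mk4_bits g', h1, h2, h3, h4]

theorem cqf_ph (g : E8) (x : ZMod 2) : (g * E8.zz x).ph = g.ph + x := by
  revert g x; decide

theorem cqf_zz : ∀ a b f h h' : ZMod 2,
    E8.mk4 a b f h' = E8.mk4 a b f h * E8.zz (h + h') := by
  decide

theorem cqf_zz' {g g' : E8} (h1 : g.pa = g'.pa) (h2 : g.pb = g'.pb) (h3 : g.pf = g'.pf) :
    g' = g * E8.zz (g.ph + g'.ph) := by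
  have h := cqf_zz g.pa g.pb g.pf g.ph g'.ph
  rw [E8.mk4_bits] at h
  rw [← h, h1, h2, h3, E8.mk4_bits]

theorem cqf_phadd {g1 g2 g1' g2' : E8} (ha : g1.pa = g1'.pa) (hb : g1.pb = g1'.pb)
    (hf : g1.pf = g1'.pf) (ha' : g2.pa = g2'.pa) (hb' : g2.pb = g2'.pb)
    (hf' : g2.pf = g2'.pf) :
    (g1 * g2).ph + (g1' * g2').ph = (g1.ph + g1'.ph) + (g2.ph + g2'.ph) := by
  have e1 := cqf_zz' ha hb hf
  have e2 := cqf_zz' ha' hb' hf'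
  obtain ⟨x, hx⟩ : ∃ x, x = g1.ph + g1'.ph := ⟨_, rfl⟩
  obtain ⟨y, hy⟩ : ∃ y, y = g2.ph + g2'.ph := ⟨_, rfl⟩
  rw [← hx] at e1
  rw [← hy] at e2
  have e3 : g1' * g2' = (g1 * g2) * E8.zz (x + y) := by
    rw [e1, e2, E8.zz_add]
    calc g1 * E8.zz x * (g2 * E8.zz y) = g1 * (E8.zz x * g2) * E8.zz y := by
          simp only [mul_assoc]
      _ = g1 * (g2 * E8.zz x) * E8.zz y := by rw [E8.zz_comm]
      _ = g1 * g2 * (E8.zz x * E8.zz y) := by simp only [mul_assoc]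
  have key : ∀ a b : ZMod 2, a + (a + b) = b := by decide
  rw [e3, cqf_ph, ← hx, ← hy, key]

theorem cqf_fin {A : Type} (s : Set A) (q : A → ℕ) {I : Type} [Finite I] (R : A → I → Prop)
    (h1 : ∀ a ∈ s, ∃ i, R a i) (h2 : ∀ i, {n | ∃ a ∈ s, R a i ∧ q a = n}.Finite) :
    {n | ∃ a ∈ s, q a = n}.Finite := by
  refine (Set.finite_iUnion h2).subset ?_
  rintro n ⟨a, ha, rfl⟩
  obtain ⟨i, hi⟩ := h1 a ha
  exact Set.mem_iUnion.2 ⟨i, a, ha, hi, rfl⟩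

section

variable {k : Type} [Field k] [NumberField k] (Fr : Frm k) (Rk : RxF k)

/-- agreement at the places of `S` -/
def Cqa (f f' : Gm k → ZMod 2) : Prop := ∀ v ∈ pls Fr.S, ∀ σ ∈ DecP v, f σ = f' σ

/-- local characters -/
theorem cqf_chi {h : Gm k → ZMod 2} (hc : IsLocallyConstant h)
    (ha : ∀ v ∈ pls Fr.S, ∀ σ ∈ DecP v, ∀ τ ∈ DecP v, h (σ * τ) = h σ + h τ) :
    ∃ i : Fr.sys.T × Fr.sys.T, Cqa Fr h (chi (cl Fr i.1 i.2 : k)) := by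
  classical
  have h1 : ∀ v : Pl k, ∃ c : kˣ, v ∈ pls Fr.S → ∀ σ ∈ DecP v, h σ = chi (c : k) σ := by
    intro v
    by_cases hv : v ∈ pls Fr.S
    · obtain ⟨c, hc'⟩ := (kin k).two v h hc (ha v hv)
      exact ⟨c, fun _ => hc'⟩
    · exact ⟨1, fun h => absurd h hv⟩
  choose c hc' using h1
  obtain ⟨y, z, hyz⟩ := Fr.gen c
  refine ⟨(y, z), fun v hv σ hσ => ?_⟩
  have h2 := ((kin k).one v _).2 (hyz v hv) σ hσ
  have e : c v * (∏ j, Fr.u j ^ (y j).val) * (∏ j, Fr.w j ^ (z j).val) = c v * cl Fr y z := by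
    rw [cl, mul_assoc]
  rw [e, aob_chi_mul] at h2
  have key : ∀ a b : ZMod 2, a + b = 0 → a = b := by decide
  rw [hc' v hv σ hσ]
  exact key _ _ h2

theorem cqf_loc {ρ ρ' : Gm k →* E8} (h : ρ ∈ Hs k) (h' : ρ' ∈ Hs k)
    (hh : ∀ v ∈ pls Fr.S, ∀ σ ∈ DecP v, ρ σ = ρ' σ) : qE Fr Rk ρ = qE Fr Rk ρ' := by
  unfold qE
  refine Finset.prod_congr rfl fun P hP => ?_
  have h1 := Rk.loc E8 ρ ρ' ⊥ h.2 h'.2 h.1 h'.1 P
    (hh (Sum.inl P) (by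
      unfold pls
      exact Finset.inl_mem_disjSum.2 hP))
  rw [MonoidHom.comap_bot, MonoidHom.comap_bot] at h1
  rw [h1]

theorem cqf_lc {ρ : Gm k →* E8} (h : ρ ∈ Hs k) (f : E8 → ZMod 2) :
    IsLocallyConstant fun σ => f (ρ σ) := h.2.comp f

theorem cqf_lc2 {ρ ρ' : Gm k →* E8} (h : ρ ∈ Hs k) (h' : ρ' ∈ Hs k) (f : E8 → ZMod 2) :
    IsLocallyConstant fun σ => f (ρ σ) + f (ρ' σ) :=
  (cqf_lc h f).comp₂ (cqf_lc h' f) (fun a b => a + b)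

/-- equal first three bits -/
theorem cqf_3 {ρ₀ : Gm k →* E8} (h0 : ρ₀ ∈ Hs k) :
    {n | ∃ ρ ∈ {ρ : Gm k →* E8 | ρ ∈ Hs k ∧ Cqa Fr (fun σ => (ρ σ).pa) (fun σ => (ρ₀ σ).pa) ∧
      Cqa Fr (fun σ => (ρ σ).pb) (fun σ => (ρ₀ σ).pb) ∧
      Cqa Fr (fun σ => (ρ σ).pf) (fun σ => (ρ₀ σ).pf)}, qE Fr Rk ρ = n}.Finite := by
  refine cqf_fin _ _ (fun ρ (i : Fr.sys.T × Fr.sys.T) =>
    Cqa Fr (fun σ => (ρ σ).ph + (ρ₀ σ).ph) (chi (cl Fr i.1 i.2 : k))) ?_ ?_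
  · rintro ρ ⟨h, ha, hb, hf⟩
    refine cqf_chi Fr (cqf_lc2 h h0 E8.ph) fun v hv σ hσ τ hτ => ?_
    rw [map_mul, map_mul]
    exact cqf_phadd (ha v hv σ hσ) (hb v hv σ hσ) (hf v hv σ hσ) (ha v hv τ hτ) (hb v hv τ hτ)
      (hf v hv τ hτ)
  · intro i
    refine Set.Subsingleton.finite ?_
    rintro n ⟨ρ, ⟨h, ha, hb, hf⟩, hi, rfl⟩ n' ⟨ρ', ⟨h', ha', hb', hf'⟩, hi', rfl⟩
    refine cqf_loc Fr Rk h h' fun v hv σ hσ => ?_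
    have key : ∀ a b c d : ZMod 2, a + c = d → b + c = d → a = b := by decide
    exact cqf_bits ((ha v hv σ hσ).trans (ha' v hv σ hσ).symm)
      ((hb v hv σ hσ).trans (hb' v hv σ hσ).symm) ((hf v hv σ hσ).trans (hf' v hv σ hσ).symm)
      (key _ _ _ _ (hi v hv σ hσ) (hi' v hv σ hσ))

/-- equal characters -/
theorem cqf_2 {ρ₀ : Gm k →* E8} (h0 : ρ₀ ∈ Hs k) :
    {n | ∃ ρ ∈ {ρ : Gm k →* E8 | ρ ∈ Hs k ∧ Cqa Fr (fun σ => (ρ σ).pa) (fun σ => (ρ₀ σ).pa) ∧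
      Cqa Fr (fun σ => (ρ σ).pb) (fun σ => (ρ₀ σ).pb)}, qE Fr Rk ρ = n}.Finite := by
  refine cqf_fin _ _ (fun ρ (i : Fr.sys.T × Fr.sys.T) =>
    Cqa Fr (fun σ => (ρ σ).pf + (ρ₀ σ).pf) (chi (cl Fr i.1 i.2 : k))) ?_ ?_
  · rintro ρ ⟨h, ha, hb⟩
    refine cqf_chi Fr (cqf_lc2 h h0 E8.pf) fun v hv σ hσ τ hτ => ?_
    rw [map_mul, map_mul, E8.pf_mul, E8.pf_mul]
    have e1 : (ρ σ).pa = (ρ₀ σ).pa := ha v hv σ hσ
    have e2 : (ρ τ).pb = (ρ₀ τ).pb := hb v hv τ hτ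
    rw [e1, e2]
    have key : ∀ a b c d e : ZMod 2, a + b + e + (c + d + e) = a + c + (b + d) := by decide
    exact key _ _ _ _ _
  · intro i
    by_cases hne : ∃ ρ₁ : Gm k →* E8, (ρ₁ ∈ Hs k ∧
        Cqa Fr (fun σ => (ρ₁ σ).pa) (fun σ => (ρ₀ σ).pa) ∧
        Cqa Fr (fun σ => (ρ₁ σ).pb) (fun σ => (ρ₀ σ).pb)) ∧
        Cqa Fr (fun σ => (ρ₁ σ).pf + (ρ₀ σ).pf) (chi (cl Fr i.1 i.2 : k))
    · obtain ⟨ρ₁, ⟨h1, ha1, hb1⟩, hi1⟩ := hne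
      refine (cqf_3 Fr Rk h1).subset ?_
      rintro n ⟨ρ, ⟨h, ha, hb⟩, hi, rfl⟩
      have key : ∀ a b c d : ZMod 2, a + c = d → b + c = d → a = b := by decide
      exact ⟨ρ, ⟨h, fun v hv σ hσ => (ha v hv σ hσ).trans (ha1 v hv σ hσ).symm,
        fun v hv σ hσ => (hb v hv σ hσ).trans (hb1 v hv σ hσ).symm,
        fun v hv σ hσ => key _ _ _ _ (hi v hv σ hσ) (hi1 v hv σ hσ)⟩, rfl⟩
    · refine Set.finite_empty.subset ?_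
      rintro n ⟨ρ, h, hi, -⟩
      exact hne ⟨ρ, h, hi⟩

theorem cqf_1 : {n | ∃ ρ ∈ Hs k, qE Fr Rk ρ = n}.Finite := by
  refine cqf_fin (Hs k) _ (fun ρ (i : (Fr.sys.T × Fr.sys.T) × (Fr.sys.T × Fr.sys.T)) =>
    Cqa Fr (fun σ => (ρ σ).pa) (chi (cl Fr i.1.1 i.1.2 : k)) ∧
    Cqa Fr (fun σ => (ρ σ).pb) (chi (cl Fr i.2.1 i.2.2 : k))) ?_ ?_
  · intro ρ h
    obtain ⟨i, hi⟩ := cqf_chi Fr (cqf_lc h E8.pa) fun v _ σ _ τ _ => by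
      rw [map_mul, E8.pa_mul]
    obtain ⟨j, hj⟩ := cqf_chi Fr (cqf_lc h E8.pb) fun v _ σ _ τ _ => by
      rw [map_mul, E8.pb_mul]
    exact ⟨(i, j), hi, hj⟩
  · intro i
    by_cases hne : ∃ ρ₁ ∈ Hs k, Cqa Fr (fun σ => (ρ₁ σ).pa) (chi (cl Fr i.1.1 i.1.2 : k)) ∧
        Cqa Fr (fun σ => (ρ₁ σ).pb) (chi (cl Fr i.2.1 i.2.2 : k))
    · obtain ⟨ρ₁, h1, ha1, hb1⟩ := hne
      refine (cqf_2 Fr Rk h1).subset ?_
      rintro n ⟨ρ, h, ⟨ha, hb⟩, rfl⟩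
      exact ⟨ρ, ⟨h, fun v hv σ hσ => (ha v hv σ hσ).trans (ha1 v hv σ hσ).symm,
        fun v hv σ hσ => (hb v hv σ hσ).trans (hb1 v hv σ hσ).symm⟩, rfl⟩
    · refine Set.finite_empty.subset ?_
      rintro n ⟨ρ, h, hi, -⟩
      exact hne ⟨ρ, h, hi⟩

theorem cQf : ScQf Fr Rk := by
  refine ⟨cqf_1 Fr Rk, fun H hH q ρ h ρ' h' hh => ?_⟩
  show H ρ ∧ qE Fr Rk ρ = q ↔ H ρ' ∧ qE Fr Rk ρ' = q
  rw [hH ρ h ρ' h' hh, cqf_loc Fr Rk h h' hh]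

end

end Pool.Agent.D8
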