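import Pool.Agent.D8.CDefs
import Pool.Agent.H32.MQ.HBase

/-!
# The dihedral group of order 16 over a number field: the Dirichlet series of the pairs (row C7)
-/

set_option autoImplicit false

open scoped BigOperators Topology
open NumberField IsDedekindDomain Filter

namespace Pool.Agent.D8

open Pool.Agent.H98.MK (sg)
open Pool.Agent.H98.MF
open Pool.Agent.H32.MQ (El rep)

/-! ### families of four disjoint sets -/

section

variable {S : Sys}

/-- the configuration with given classes -/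
private noncomputable def cs_mk (A B x y : Finset S.P) : V → Finset S.P := fun u =>
  if u.1 = 0 then (if u.2 = 0 then A \ x else x) else (if u.2 = 0 then B \ y else y)

private theorem cs_ne : (1 : ZMod 2) ≠ 0 := by decide

private theorem cs_00 (A B x y : Finset S.P) : cs_mk A B x y (0, 0) = A \ x := by
  unfold cs_mk
  rw [if_pos rfl, if_pos rfl]

private theorem cs_01 (A B x y : Finset S.P) : cs_mk A B x y (0, 1) = x := by
  unfold cs_mk
  rw [if_pos rfl, if_neg cs_ne]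

private theorem cs_10 (A B x y : Finset S.P) : cs_mk A B x y (1, 0) = B \ y := by
  unfold cs_mk
  rw [if_neg cs_ne, if_pos rfl]

private theorem cs_11 (A B x y : Finset S.P) : cs_mk A B x y (1, 1) = y := by
  unfold cs_mk
  rw [if_neg cs_ne, if_neg cs_ne]

private theorem cs_all (Q : V → Prop) (h1 : Q (0, 0)) (h2 : Q (0, 1)) (h3 : Q (1, 0))
    (h4 : Q (1, 1)) (u : V) : Q u := by
  have h : ∀ u : V, u = (0, 0) ∨ u = (0, 1) ∨ u = (1, 0) ∨ u = (1, 1) := by decide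
  rcases h u with h | h | h | h
  · rw [h]
    exact h1
  · rw [h]
    exact h2
  · rw [h]
    exact h3
  · rw [h]
    exact h4

private theorem cs_sid0 {A B x y : Finset S.P} (hx : x ⊆ A) :
    sid (cs_mk A B x y) 0 = A := by
  unfold sid
  rw [cs_00, cs_01]
  exact Finset.sdiff_union_of_subset hx

private theorem cs_sid1 {A B x y : Finset S.P} (hy : y ⊆ B) :
    sid (cs_mk A B x y) 1 = B := by
  unfold sid
  rw [cs_10, cs_11]
  exact Finset.sdiff_union_of_subset hy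

private theorem cs_dj {A B x y : Finset S.P} (hx : x ⊆ A) (hy : y ⊆ B) (hd : Disjoint A B) :
    S.Dj (cs_mk A B x y) := by
  have hxx : Disjoint (A \ x) x := Finset.sdiff_disjoint
  have hyy : Disjoint (B \ y) y := Finset.sdiff_disjoint
  have ha : A \ x ⊆ A := Finset.sdiff_subset
  have hb : B \ y ⊆ B := Finset.sdiff_subset
  intro u
  revert u
  refine cs_all _ ?_ ?_ ?_ ?_
  · intro v
    revert v
    refine cs_all _ ?_ ?_ ?_ ?_
    · intro h
      exact absurd rfl h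
    · intro _
      rw [cs_00, cs_01]
      exact hxx
    · intro _
      rw [cs_00, cs_10]
      exact hd.mono ha hb
    · intro _
      rw [cs_00, cs_11]
      exact hd.mono ha hy
  · intro v
    revert v
    refine cs_all _ ?_ ?_ ?_ ?_
    · intro _
      rw [cs_01, cs_00]
      exact hxx.symm
    · intro h
      exact absurd rfl h
    · intro _
      rw [cs_01, cs_10]
      exact hd.mono hx hb
    · intro _
      rw [cs_01, cs_11]
      exact hd.mono hx hy
  · intro v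
    revert v
    refine cs_all _ ?_ ?_ ?_ ?_
    · intro _
      rw [cs_10, cs_00]
      exact (hd.mono ha hb).symm
    · intro _
      rw [cs_10, cs_01]
      exact (hd.mono hx hb).symm
    · intro h
      exact absurd rfl h
    · intro _
      rw [cs_10, cs_11]
      exact hyy
  · intro v
    revert v
    refine cs_all _ ?_ ?_ ?_ ?_
    · intro _
      rw [cs_11, cs_00]
      exact (hd.mono ha hy).symm
    · intro _
      rw [cs_11, cs_01]
      exact (hd.mono hx hy).symm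
    · intro _
      rw [cs_11, cs_10]
      exact hyy.symm
    · intro h
      exact absurd rfl h

private theorem cs_dj' {A B x y : Finset S.P} (hx : x ⊆ A) (hy : y ⊆ B)
    (h : S.Dj (cs_mk A B x y)) : Disjoint A B := by
  have e1 : A = A \ x ∪ x := (Finset.sdiff_union_of_subset hx).symm
  have e2 : B = B \ y ∪ y := (Finset.sdiff_union_of_subset hy).symm
  have h1 := h (0, 0) (1, 0) (by decide)
  have h2 := h (0, 0) (1, 1) (by decide)
  have h3 := h (0, 1) (1, 0) (by decide)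
  have h4 := h (0, 1) (1, 1) (by decide)
  rw [cs_00, cs_10] at h1
  rw [cs_00, cs_11] at h2
  rw [cs_01, cs_10] at h3
  rw [cs_01, cs_11] at h4
  rw [e1, e2, Finset.disjoint_union_left, Finset.disjoint_union_right,
    Finset.disjoint_union_right]
  exact ⟨⟨h1, h2⟩, h3, h4⟩

private theorem cs_adm {A B x y : Finset S.P} (a b v : S.T) (hx : x ⊆ A) (hy : y ⊆ B)
    (hd : Disjoint A B) : Adm ∅ (mkc a b v) (cs_mk A B x y) ↔
      (⟨x, A \ x, y, B \ y, a, b, v⟩ : Cg S).C1 ∧ (⟨x, A \ x, y, B \ y, a, b, v⟩ : Cg S).C2 := by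
  have s0 : sid (cs_mk A B x y) 0 = A := cs_sid0 hx
  have s1 : sid (cs_mk A B x y) 1 = B := cs_sid1 hy
  have k0 : knd (cs_mk A B x y) 0 = A \ x ∪ B \ y := by
    unfold knd
    rw [cs_00, cs_10]
  have k1 : knd (cs_mk A B x y) 1 = x ∪ y := by
    unfold knd
    rw [cs_01, cs_11]
  have eA : x ∪ A \ x = A := Finset.union_sdiff_of_subset hx
  have eB : y ∪ B \ y = B := Finset.union_sdiff_of_subset hy
  have f0 : (mkc a b v : Co S).f 0 = (a, ∅) := by
    show (if (0 : ZMod 2) = 0 then ((a, ∅) : El S) else (b, ∅)) = _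
    rw [if_pos rfl]
  have f1 : (mkc a b v : Co S).f 1 = (b, ∅) := by
    show (if (1 : ZMod 2) = 0 then ((a, ∅) : El S) else (b, ∅)) = _
    rw [if_neg cs_ne]
  have g0 : (mkc a b v : Co S).g 0 = (S.l + a + b + v, ∅) := by
    show (if (0 : ZMod 2) = 0 then ((S.l + a + b + v, ∅) : El S) else (v, ∅)) = _
    rw [if_pos rfl]
  have g1 : (mkc a b v : Co S).g 1 = (v, ∅) := by
    show (if (1 : ZMod 2) = 0 then ((S.l + a + b + v, ∅) : El S) else (v, ∅)) = _
    rw [if_neg cs_ne]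
  have z1 : (0 : ZMod 2) + 1 = 1 := rfl
  have z2 : (1 : ZMod 2) + 1 = 0 := rfl
  constructor
  · intro h
    have h00 := h.cnd (0, 0)
    have h01 := h.cnd (0, 1)
    have h10 := h.cnd (1, 0)
    have h11 := h.cnd (1, 1)
    simp only [cs_00, cs_01, cs_10, cs_11, z1, z2, s0, s1, k0, k1, f0, f1, g0, g1,
      Finset.union_empty] at h00 h01 h10 h11
    refine ⟨⟨?_, ?_⟩, ?_, ?_⟩
    · show ∀ p ∈ x ∪ A \ x, S.ex (y ∪ B \ y) b p = 0
      rw [eB]
      intro p hp
      rcases Finset.mem_union.1 hp with hp | hp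
      · exact (h01 p hp).1
      · exact (h00 p hp).1
    · show ∀ p ∈ y ∪ B \ y, S.ex (x ∪ A \ x) a p = 0
      rw [eA]
      intro p hp
      rcases Finset.mem_union.1 hp with hp | hp
      · exact (h11 p hp).1
      · exact (h10 p hp).1
    · show ∀ p ∈ x ∪ y, S.ex (A \ x ∪ B \ y) (S.l + a + b + v) p = 0
      intro p hp
      rcases Finset.mem_union.1 hp with hp | hp
      · exact (h01 p hp).2
      · exact (h11 p hp).2
    · show ∀ p ∈ A \ x ∪ B \ y, S.ex (x ∪ y) v p = 0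
      intro p hp
      rcases Finset.mem_union.1 hp with hp | hp
      · exact (h00 p hp).2
      · exact (h10 p hp).2
  · rintro ⟨⟨h1, h2⟩, h3, h4⟩
    have h1' : ∀ p ∈ x ∪ A \ x, S.ex (y ∪ B \ y) b p = 0 := h1
    have h2' : ∀ p ∈ y ∪ B \ y, S.ex (x ∪ A \ x) a p = 0 := h2
    have h3' : ∀ p ∈ x ∪ y, S.ex (A \ x ∪ B \ y) (S.l + a + b + v) p = 0 := h3
    have h4' : ∀ p ∈ A \ x ∪ B \ y, S.ex (x ∪ y) v p = 0 := h4
    rw [eB] at h1'
    rw [eA] at h2'
    refine ⟨cs_dj hx hy hd, fun u => Finset.disjoint_empty_right _, ?_⟩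
    refine cs_all _ ?_ ?_ ?_ ?_
    · intro p hp
      simp only [cs_00] at hp
      simp only [z1, s1, k1, f1, g1, Finset.union_empty]
      exact ⟨h1' p (Finset.mem_union_right _ hp), h4' p (Finset.mem_union_left _ hp)⟩
    · intro p hp
      simp only [cs_01] at hp
      simp only [z1, z2, s1, k0, f1, g0, Finset.union_empty]
      exact ⟨h1' p (Finset.mem_union_left _ hp), h3' p (Finset.mem_union_left _ hp)⟩
    · intro p hp
      simp only [cs_10] at hp
      simp only [z1, z2, s0, k1, f0, g1, Finset.union_empty]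
      exact ⟨h2' p (Finset.mem_union_right _ hp), h4' p (Finset.mem_union_right _ hp)⟩
    · intro p hp
      simp only [cs_11] at hp
      simp only [z2, s0, k0, f0, g0, Finset.union_empty]
      exact ⟨h2' p (Finset.mem_union_left _ hp), h3' p (Finset.mem_union_right _ hp)⟩

private theorem cs_prod {A B x y : Finset S.P} (hx : x ⊆ A) (hy : y ⊆ B) (hd : Disjoint A B)
    (F : S.P → ℝ) : ∏ u, ∏ p ∈ cs_mk A B x y u, F p = ∏ p ∈ A ∪ B, F p := by
  have h2 : ∀ g : ZMod 2 → ℝ, ∏ i, g i = g 0 * g 1 := fun g => Fin.prod_univ_two g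
  rw [Fintype.prod_prod_type, h2, h2, h2, cs_00, cs_01, cs_10, cs_11, Finset.prod_sdiff hx,
    Finset.prod_sdiff hy, Finset.prod_union hd]

private theorem cs_hs (f : (V → Finset S.P) → ℝ) (hf : Summable f)
    (h0 : ∀ x, ¬ S.Dj x → f x = 0) :
    HasSum (fun z : Finset S.P × Finset S.P =>
      ∑ x ∈ z.1.powerset, ∑ y ∈ z.2.powerset, f (cs_mk z.1 z.2 x y)) (∑' x, f x) := by
  let i : (Σ z : Finset S.P × Finset S.P,
      ((z.1.powerset ×ˢ z.2.powerset : Finset (Finset S.P × Finset S.P)) :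
        Set (Finset S.P × Finset S.P))) → (V → Finset S.P) :=
    fun s => cs_mk s.1.1 s.1.2 s.2.1.1 s.2.1.2
  have hi : Function.Injective i := by
    rintro ⟨⟨A, B⟩, ⟨⟨x, y⟩, hxy⟩⟩ ⟨⟨A', B'⟩, ⟨⟨x', y'⟩, hxy'⟩⟩ h
    have hxy1 := Finset.mem_product.1 (Finset.mem_coe.1 hxy)
    have hxy2 := Finset.mem_product.1 (Finset.mem_coe.1 hxy')
    have hx : x ⊆ A := Finset.mem_powerset.1 hxy1.1
    have hy : y ⊆ B := Finset.mem_powerset.1 hxy1.2
    have hx' : x' ⊆ A' := Finset.mem_powerset.1 hxy2.1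
    have hy' : y' ⊆ B' := Finset.mem_powerset.1 hxy2.2
    have h1 : cs_mk A B x y = cs_mk A' B' x' y' := h
    have h01 := congrFun h1 (0, 1)
    have h11 := congrFun h1 (1, 1)
    rw [cs_01, cs_01] at h01
    rw [cs_11, cs_11] at h11
    have hA : A = A' := by rw [← cs_sid0 (B := B) (y := y) hx, h1, cs_sid0 hx']
    have hB : B = B' := by rw [← cs_sid1 (A := A) (x := x) hy, h1, cs_sid1 hy']
    subst hA hB h01 h11
    rfl
  have h1 : ∀ x, x ∉ Set.range i → f x = 0 := by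
    intro x hx
    by_contra h
    have hd : S.Dj x := by
      by_contra hd
      exact h (h0 x hd)
    refine hx ⟨⟨(x (0, 0) ∪ x (0, 1), x (1, 0) ∪ x (1, 1)), ⟨(x (0, 1), x (1, 1)), ?_⟩⟩, ?_⟩
    · rw [Finset.mem_coe, Finset.mem_product]
      exact ⟨Finset.mem_powerset.2 Finset.subset_union_right,
        Finset.mem_powerset.2 Finset.subset_union_right⟩
    · show cs_mk (x (0, 0) ∪ x (0, 1)) (x (1, 0) ∪ x (1, 1)) (x (0, 1)) (x (1, 1)) = x
      funext u
      revert u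
      refine cs_all _ ?_ ?_ ?_ ?_
      · rw [cs_00]
        exact Finset.union_sdiff_cancel_right (hd (0, 0) (0, 1) (by decide))
      · rw [cs_01]
      · rw [cs_10]
        exact Finset.union_sdiff_cancel_right (hd (1, 0) (1, 1) (by decide))
      · rw [cs_11]
  have h2 := (hi.hasSum_iff h1).2 hf.hasSum
  refine h2.sigma fun z => ?_
  have h3 := Finset.hasSum (z.1.powerset ×ˢ z.2.powerset)
    (fun w : Finset S.P × Finset S.P => f (cs_mk z.1 z.2 w.1 w.2))
  rw [Finset.sum_product] at h3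
  exact h3

end

private theorem cs_fin {α β : Type} [Fintype β] (f : α × β → ℝ) (g : β → ℝ)
    (h : ∀ b, HasSum (fun a => f (a, b)) (g b)) : HasSum f (∑ b, g b) := by
  classical
  have h1 : ∀ b, HasSum (fun z : α × β => if z.2 = b then f z else 0) (g b) := by
    intro b
    have hi : Function.Injective (fun a : α => (a, b)) := fun a a' h => congrArg Prod.fst h
    refine (hi.hasSum_iff ?_).1 ?_
    · intro z hz
      refine if_neg fun hb => hz ⟨z.1, ?_⟩
      rw [← hb]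
    · have e : ((fun z : α × β => if z.2 = b then f z else 0) ∘ fun a : α => (a, b)) =
          fun a => f (a, b) := by
        funext a
        exact if_pos rfl
      rw [e]
      exact h b
  have h2 := hasSum_sum (s := Finset.univ) fun b (_ : b ∈ Finset.univ) => h1 b
  have e : (fun z : α × β => ∑ b, if z.2 = b then f z else 0) = f := by
    funext z
    rw [Finset.sum_ite_eq, if_pos (Finset.mem_univ _)]
  rw [e] at h2
  exact h2

section

variable {k : Type} [Field k] [NumberField k] {Fr : Frm k}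

private theorem cs_rep0 : rep Fr (0, ∅) = 1 := by
  unfold rep
  rw [Finset.prod_empty, mul_one]
  refine Finset.prod_eq_one fun j _ => ?_
  show Fr.u j ^ ((0 : Fr.sys.T) j).val = 1
  rw [Pi.zero_apply, ZMod.val_zero, pow_zero]

private theorem cs_sq {c : El Fr.sys} (h : IsSquare (rep Fr c)) : c = (0, ∅) := by
  apply Pool.Agent.H32.MQ.h_coU Fr
  rw [cs_rep0, mul_one]
  exact h

private theorem cs_ok (a b v : Fr.sys.T) : (mkc a b v : Co Fr.sys).Ok ∅ := by
  refine ⟨fun i => ?_, fun j => ?_, ?_⟩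
  · show (if i = 0 then ((a, ∅) : El Fr.sys) else (b, ∅)).2 ⊆ ∅
    split_ifs
    · exact Finset.Subset.refl _
    · exact Finset.Subset.refl _
  · show (if j = 0 then ((Fr.sys.l + a + b + v, ∅) : El Fr.sys) else (v, ∅)).2 ⊆ ∅
    split_ifs
    · exact Finset.Subset.refl _
    · exact Finset.Subset.refl _
  · have h0 : ∀ t : Fr.sys.T, t + t = 0 := fun t => by
      funext j
      exact CharTwo.add_self_eq_zero _
    show ((a + b + (Fr.sys.l + a + b + v + v), _) : El Fr.sys) = _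
    apply Prod.ext
    · show a + b + (Fr.sys.l + a + b + v + v) = Fr.sys.l
      have h1 := h0 a
      have h2 := h0 b
      have h3 := h0 v
      linear_combination h1 + h2 + h3
    · show symmDiff (symmDiff (∅ : Finset Fr.sys.P) ∅) (symmDiff ∅ ∅) = ∅
      simp

/-! ### the terms -/

variable (Rk : RxF k) (τ : Fr.sys.P → ℝ) (G : LDt k) (σ : ℝ)

/-- the term of a configuration -/
private noncomputable def cs_f (a b v : Fr.sys.T) (x : V → Finset Fr.sys.P) : ℝ :=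
  ms τ ∅ (mkc a b v) (1 + σ) x * RG Fr Rk G a b v x

/-- the sum of the terms over a pair -/
private noncomputable def cs_D (z : Pq Fr.sys) : ℝ :=
  ∑ v : Fr.sys.T, ∑ x ∈ z.1.1.powerset, ∑ y ∈ z.1.2.powerset,
    cs_f Rk τ G σ z.2.1 z.2.2 v (cs_mk z.1.1 z.1.2 x y)

variable {Rk τ G σ}

private theorem cs_ms0 (hτ : ∀ p, 0 ≤ τ p) (a b v : Fr.sys.T) (x : V → Finset Fr.sys.P) :
    0 ≤ ms τ ∅ (mkc a b v) (1 + σ) x := by
  unfold ms
  split_ifs
  · refine Finset.prod_nonneg fun u _ => Finset.prod_nonneg fun p _ => ?_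
    exact mul_nonneg (mul_nonneg zero_le_two (hτ p)) (Real.rpow_nonneg (Nat.cast_nonneg _) _)
  · exact le_refl 0

private theorem cs_RG (hb : ∀ c : Cg Fr.sys, |Rf Fr Rk G c| ≤ 1) (a b v : Fr.sys.T)
    (x : V → Finset Fr.sys.P) : |RG Fr Rk G a b v x| ≤ 1 := by
  unfold RG
  split_ifs
  · rw [abs_zero]
    exact zero_le_one
  · exact hb _

private theorem cs_fb (hτ : ∀ p, 0 ≤ τ p) (hb : ∀ c : Cg Fr.sys, |Rf Fr Rk G c| ≤ 1)
    (a b v : Fr.sys.T) (x : V → Finset Fr.sys.P) :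
    |cs_f Rk τ G σ a b v x| ≤ ms τ ∅ (mkc a b v) (1 + σ) x := by
  unfold cs_f
  rw [abs_mul, abs_of_nonneg (cs_ms0 hτ a b v x)]
  exact mul_le_of_le_one_right (cs_ms0 hτ a b v x) (cs_RG hb a b v x)

private theorem cs_ndj {a b v : Fr.sys.T} {x : V → Finset Fr.sys.P} (h : ¬ Fr.sys.Dj x) :
    cs_f Rk τ G σ a b v x = 0 := by
  unfold cs_f ms
  rw [if_neg (fun h1 => h h1.dj), zero_mul]

private theorem cs_hD (hτ : ∀ p, 0 ≤ τ p) (hb : ∀ c : Cg Fr.sys, |Rf Fr Rk G c| ≤ 1)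
    (hm : ∀ a b v : Fr.sys.T, Summable fun x => ms τ ∅ (mkc a b v) (1 + σ) x) :
    HasSum (cs_D Rk τ G σ) (FD τ (RG Fr Rk G) (1 + σ)) := by
  have h1 : ∀ a b v : Fr.sys.T, Summable (cs_f Rk τ G σ a b v) := fun a b v =>
    Summable.of_norm_bounded (hm a b v) fun x => cs_fb hτ hb a b v x
  have h2 : ∀ a b v : Fr.sys.T, HasSum (fun w : Finset Fr.sys.P × Finset Fr.sys.P =>
      ∑ x ∈ w.1.powerset, ∑ y ∈ w.2.powerset, cs_f Rk τ G σ a b v (cs_mk w.1 w.2 x y))
        (∑' x, cs_f Rk τ G σ a b v x) := fun a b v =>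
    cs_hs (cs_f Rk τ G σ a b v) (h1 a b v) fun x hx => cs_ndj hx
  have h3 : ∀ ab : Fr.sys.T × Fr.sys.T,
      HasSum (fun w : Finset Fr.sys.P × Finset Fr.sys.P => cs_D Rk τ G σ (w, ab))
        (∑ v, ∑' x, cs_f Rk τ G σ ab.1 ab.2 v x) := by
    intro ab
    have h4 := hasSum_sum (s := (Finset.univ : Finset Fr.sys.T))
      fun v (_ : v ∈ (Finset.univ : Finset Fr.sys.T)) => h2 ab.1 ab.2 v
    exact h4
  have h5 := cs_fin (cs_D Rk τ G σ) (fun ab : Fr.sys.T × Fr.sys.T =>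
    ∑ v, ∑' x, cs_f Rk τ G σ ab.1 ab.2 v x) h3
  have h6 : (∑ ab : Fr.sys.T × Fr.sys.T, ∑ v, ∑' x, cs_f Rk τ G σ ab.1 ab.2 v x) =
      FD τ (RG Fr Rk G) (1 + σ) := by
    rw [Fintype.sum_prod_type]
    rfl
  rw [h6] at h5
  exact h5

private theorem cs_deg {z : Pq Fr.sys} (h : (z.2.1 = 0 ∧ z.1.1 = ∅) ∨ (z.2.2 = 0 ∧ z.1.2 = ∅)) :
    cs_D Rk τ G σ z = 0 := by
  unfold cs_D
  refine Finset.sum_eq_zero fun v _ => Finset.sum_eq_zero fun x hx =>
    Finset.sum_eq_zero fun y hy => ?_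
  unfold cs_f RG
  rw [cs_sid0 (Finset.mem_powerset.1 hx), cs_sid1 (Finset.mem_powerset.1 hy), if_pos h, mul_zero]

private theorem cs_dis {z : Pq Fr.sys} (h : ¬ Disjoint z.1.1 z.1.2) :
    cs_D Rk τ G σ z = 0 := by
  unfold cs_D
  refine Finset.sum_eq_zero fun v _ => Finset.sum_eq_zero fun x hx =>
    Finset.sum_eq_zero fun y hy => ?_
  exact cs_ndj fun h1 => h (cs_dj' (Finset.mem_powerset.1 hx) (Finset.mem_powerset.1 hy) h1)

/-- the main identity at a nondegenerate pair -/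
private theorem cs_nd (hG : LG Fr G) (h1 : SaNG Fr Rk) (h3 : ScC1 Fr Rk) {z : Pq Fr.sys}
    (hz : Nd z) : bz Fr Rk τ G z * (nq z : ℝ) ^ (-σ) = 2 ^ Fr.sys.m * cs_D Rk τ G σ z := by
  classical
  have hG1 : ∀ d, |G d| ≤ 1 := fun d => abs_le.2 ⟨by linarith [hG.nn d], hG.le d⟩
  have hdeg : ¬ ((z.2.1 = 0 ∧ z.1.1 = ∅) ∨ (z.2.2 = 0 ∧ z.1.2 = ∅)) := by
    rintro (⟨ha, hb⟩ | ⟨ha, hb⟩)
    · apply hz.na
      unfold pe
      rw [ha, hb, cs_rep0]
      exact IsSquare.one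
    · apply hz.nb
      unfold pf
      rw [ha, hb, cs_rep0]
      exact IsSquare.one
  have e1 : NGz Fr Rk G z = 2 ^ (Fr.sys.m + (z.1.1 ∪ z.1.2).card) * ∑ uv : Fr.sys.T,
      ∑ x1 ∈ z.1.1.powerset, ∑ x3 ∈ z.1.2.powerset,
      (if (⟨x1, z.1.1 \ x1, x3, z.1.2 \ x3, z.2.1, z.2.2, uv⟩ : Cg Fr.sys).C2 then
        Rf Fr Rk G ⟨x1, z.1.1 \ x1, x3, z.1.2 \ x3, z.2.1, z.2.2, uv⟩ else 0) :=
    h1 G hG.loc hG1 z.1.1 z.1.2 z.2.1 z.2.2 hz.dj
  have e2 : cs_D Rk τ G σ z = (∏ p ∈ z.1.1 ∪ z.1.2, (2 * τ p * (Fr.sys.N p : ℝ) ^ (-(1 + σ)))) *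
      ∑ uv : Fr.sys.T, ∑ x1 ∈ z.1.1.powerset, ∑ x3 ∈ z.1.2.powerset,
      (if (⟨x1, z.1.1 \ x1, x3, z.1.2 \ x3, z.2.1, z.2.2, uv⟩ : Cg Fr.sys).C2 then
        Rf Fr Rk G ⟨x1, z.1.1 \ x1, x3, z.1.2 \ x3, z.2.1, z.2.2, uv⟩ else 0) := by
    unfold cs_D
    rw [Finset.mul_sum]
    refine Finset.sum_congr rfl fun v _ => ?_
    rw [Finset.mul_sum]
    refine Finset.sum_congr rfl fun x hx => ?_
    rw [Finset.mul_sum]
    refine Finset.sum_congr rfl fun y hy => ?_
    have hx' := Finset.mem_powerset.1 hx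
    have hy' := Finset.mem_powerset.1 hy
    unfold cs_f RG ms
    rw [cs_sid0 hx', cs_sid1 hy', if_neg hdeg, cs_prod hx' hy' hz.dj, cs_00, cs_01, cs_10, cs_11]
    by_cases hc2 : (⟨x, z.1.1 \ x, y, z.1.2 \ y, z.2.1, z.2.2, v⟩ : Cg Fr.sys).C2
    · rw [if_pos hc2]
      by_cases hc1 : (⟨x, z.1.1 \ x, y, z.1.2 \ y, z.2.1, z.2.2, v⟩ : Cg Fr.sys).C1
      · rw [if_pos ((cs_adm _ _ _ hx' hy' hz.dj).2 ⟨hc1, hc2⟩)]
      · rw [if_neg fun h => hc1 ((cs_adm _ _ _ hx' hy' hz.dj).1 h).1]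
        have h0 : Rf Fr Rk G ⟨x, z.1.1 \ x, y, z.1.2 \ y, z.2.1, z.2.2, v⟩ = 0 := by
          by_contra h
          refine hc1 (h3 G _ ⟨?_, ?_, ?_⟩ h)
          · exact Finset.sdiff_disjoint.symm
          · exact Finset.sdiff_disjoint.symm
          · show Disjoint (x ∪ z.1.1 \ x) (y ∪ z.1.2 \ y)
            rw [Finset.union_sdiff_of_subset hx', Finset.union_sdiff_of_subset hy']
            exact hz.dj
        rw [h0, mul_zero, mul_zero]
    · rw [if_neg hc2, if_neg fun h => hc2 ((cs_adm _ _ _ hx' hy' hz.dj).1 h).2, zero_mul,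
        mul_zero]
  have e3 : ∏ p ∈ z.1.1 ∪ z.1.2, (2 * τ p * (Fr.sys.N p : ℝ) ^ (-(1 + σ))) =
      2 ^ (z.1.1 ∪ z.1.2).card * (∏ p ∈ z.1.1 ∪ z.1.2, τ p) * (nq z : ℝ) ^ (-(1 + σ)) := by
    rw [Finset.prod_mul_distrib, Finset.prod_mul_distrib, Finset.prod_const,
      Real.finsetProd_rpow _ _ fun p _ => Nat.cast_nonneg _]
    congr 2
    unfold nq Pre.nm
    rw [Finset.prod_union hz.dj, Nat.cast_mul, Nat.cast_prod, Nat.cast_prod]
  have hn : (0 : ℝ) < nq z := by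
    have h4 := Fr.sys.one_le_nm z.1.1
    have h5 := Fr.sys.one_le_nm z.1.2
    have h6 : 0 < nq z := Nat.mul_pos h4 h5
    exact_mod_cast h6
  have e4 : (nq z : ℝ) ^ (-(1 + σ)) = (nq z : ℝ)⁻¹ * (nq z : ℝ) ^ (-σ) := by
    rw [neg_add, Real.rpow_add hn, Real.rpow_neg_one]
  unfold bz
  rw [if_pos hz, e1, e2, e3, e4, pow_add, div_eq_mul_inv]
  ring

/-- the remaining pairs -/
private theorem cs_rem {z : Pq Fr.sys} (hz : ¬ Nd z) (h : ¬ (z.1 = (∅, ∅) ∧ z.2.1 = z.2.2)) :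
    cs_D Rk τ G σ z = 0 := by
  by_cases hd : Disjoint z.1.1 z.1.2
  · by_cases ha : IsSquare (pe z)
    · apply cs_deg
      left
      have h1 := cs_sq ha
      exact ⟨congrArg Prod.fst h1, congrArg Prod.snd h1⟩
    · by_cases hb : IsSquare (pf z)
      · apply cs_deg
        right
        have h1 := cs_sq hb
        exact ⟨congrArg Prod.fst h1, congrArg Prod.snd h1⟩
      · by_cases hab : IsSquare (pe z * pf z)
        · exfalso
          have h1 := Pool.Agent.H32.MQ.h_coU Fr _ _ hab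
          have h2 : z.2.1 = z.2.2 := congrArg Prod.fst h1
          have h3 : z.1.1 = z.1.2 := congrArg Prod.snd h1
          have h4 : z.1.1 = ∅ := by
            rw [← h3] at hd
            exact Finset.disjoint_self_iff_empty _ |>.1 hd
          exact h ⟨Prod.ext h4 (h3 ▸ h4), h2⟩
        · exact absurd ⟨hd, ha, hb, hab⟩ hz
  · exact cs_dis hd

private theorem cs_exc (hb : ∀ c : Cg Fr.sys, |Rf Fr Rk G c| ≤ 1) {z : Pq Fr.sys}
    (h : z.1 = (∅, ∅) ∧ z.2.1 = z.2.2) :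
    |bz Fr Rk τ G z * (nq z : ℝ) ^ (-σ) - 2 ^ Fr.sys.m * cs_D Rk τ G σ z| ≤ 4 ^ Fr.sys.m := by
  classical
  obtain ⟨h1, h2⟩ := h
  have hA : z.1.1 = ∅ := congrArg Prod.fst h1
  have hB : z.1.2 = ∅ := congrArg Prod.snd h1
  have hz : ¬ Nd z := by
    intro hz
    apply hz.nab
    unfold pe pf
    rw [hA, hB, h2]
    exact ⟨_, rfl⟩
  have hT : (Finset.univ : Finset Fr.sys.T).card = 2 ^ Fr.sys.m := by
    rw [Finset.card_univ, Fintype.card_fun, ZMod.card, Fintype.card_fin]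
  have hD : |cs_D Rk τ G σ z| ≤ 2 ^ Fr.sys.m := by
    unfold cs_D
    rw [hA, hB, Finset.powerset_empty]
    refine (Finset.abs_sum_le_sum_abs _ _).trans ?_
    have h3 : ∀ v ∈ (Finset.univ : Finset Fr.sys.T),
        |∑ x ∈ ({∅} : Finset (Finset Fr.sys.P)), ∑ y ∈ ({∅} : Finset (Finset Fr.sys.P)),
          cs_f Rk τ G σ z.2.1 z.2.2 v (cs_mk ∅ ∅ x y)| ≤ 1 := by
      intro v _
      rw [Finset.sum_singleton, Finset.sum_singleton]
      unfold cs_f ms
      have h4 := cs_RG hb z.2.1 z.2.2 v (cs_mk ∅ ∅ ∅ ∅)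
      rw [abs_mul]
      split_ifs
      · rw [cs_prod (Finset.Subset.refl _) (Finset.Subset.refl _) (Finset.disjoint_empty_right _),
          Finset.empty_union, Finset.prod_empty, abs_one, one_mul]
        exact h4
      · rw [abs_zero, zero_mul]
        exact zero_le_one
    refine (Finset.sum_le_sum h3).trans (le_of_eq ?_)
    rw [Finset.sum_const, hT, nsmul_eq_mul, mul_one, Nat.cast_pow, Nat.cast_ofNat]
  have e0 : bz Fr Rk τ G z = 0 := by
    unfold bz
    exact if_neg hz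
  rw [e0, zero_mul, zero_sub, abs_neg, abs_mul, abs_of_nonneg (pow_nonneg zero_le_two _)]
  have e4 : (4 : ℝ) ^ Fr.sys.m = 2 ^ Fr.sys.m * 2 ^ Fr.sys.m := by
    rw [← mul_pow]
    norm_num
  rw [e4]
  exact mul_le_mul_of_nonneg_left hD (pow_nonneg zero_le_two _)

theorem cSer (Fr : Frm k) (Rk : RxF k) (h1 : SaNG Fr Rk) (h2 : SaRb Fr Rk) (h3 : ScC1 Fr Rk)
    (h4 : SUD) : ScSer Fr Rk := by
  classical
  intro B τ hτ G hG σ hσ hσ1
  have hG1 : ∀ d, |G d| ≤ 1 := fun d => abs_le.2 ⟨by linarith [hG.nn d], hG.le d⟩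
  have hb : ∀ c : Cg Fr.sys, |Rf Fr Rk G c| ≤ 1 := h2 G hG1
  have hτ0 : ∀ p, 0 ≤ τ p := fun p => (hτ p).1
  obtain ⟨C, hC, hC1⟩ := h4 Fr.sys B 1 one_pos
  have hm : ∀ a b v : Fr.sys.T, Summable fun x => ms τ ∅ (mkc a b v) (1 + σ) x :=
    fun a b v => (hC1 τ ∅ (mkc a b v) hτ (cs_ok a b v) σ hσ hσ1).1
  have hD := (cs_hD (G := G) (Rk := Rk) hτ0 hb hm).mul_left ((2 : ℝ) ^ Fr.sys.m)
  set E : Pq Fr.sys → ℝ := fun z =>
    bz Fr Rk τ G z * (nq z : ℝ) ^ (-σ) - 2 ^ Fr.sys.m * cs_D Rk τ G σ z with hE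
  let F : Finset (Pq Fr.sys) := Finset.univ.image fun u : Fr.sys.T => ((∅, ∅), (u, u))
  have hF : ∀ z, z ∉ F → E z = 0 := by
    intro z hz
    have hz1 : ¬ (z.1 = (∅, ∅) ∧ z.2.1 = z.2.2) := by
      rintro ⟨ha, hb⟩
      apply hz
      rw [Finset.mem_image]
      exact ⟨z.2.1, Finset.mem_univ _, Prod.ext ha.symm (Prod.ext rfl hb)⟩
    by_cases hn : Nd z
    · simp only [hE]
      rw [cs_nd hG h1 h3 hn, sub_self]
    · simp only [hE]
      have e0 : bz Fr Rk τ G z = 0 := by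
        unfold bz
        exact if_neg hn
      rw [e0, cs_rem hn hz1, zero_mul, mul_zero, sub_self]
  have hEs : HasSum E (∑ z ∈ F, E z) := hasSum_sum_of_ne_finset_zero hF
  have hS := hEs.add hD
  have e1 : (fun z => E z + 2 ^ Fr.sys.m * cs_D Rk τ G σ z) =
      fun z : Pq Fr.sys => bz Fr Rk τ G z * (nq z : ℝ) ^ (-σ) := by
    funext z
    simp only [hE]
    ring
  rw [e1] at hS
  refine ⟨hS.summable, ?_⟩
  rw [hS.tsum_eq, add_sub_cancel_right]
  have hF1 : ∀ z ∈ F, |E z| ≤ 4 ^ Fr.sys.m := by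
    intro z hz
    obtain ⟨u, _, rfl⟩ := Finset.mem_image.1 hz
    exact cs_exc hb ⟨rfl, rfl⟩
  have hFc : (F.card : ℝ) ≤ 2 ^ Fr.sys.m := by
    have h5 : F.card ≤ (Finset.univ : Finset Fr.sys.T).card := Finset.card_image_le
    rw [Finset.card_univ, Fintype.card_fun, ZMod.card, Fintype.card_fin] at h5
    exact_mod_cast h5
  calc |∑ z ∈ F, E z| ≤ ∑ z ∈ F, |E z| := Finset.abs_sum_le_sum_abs _ _
    _ ≤ ∑ _z ∈ F, (4 : ℝ) ^ Fr.sys.m := Finset.sum_le_sum hF1
    _ = F.card * 4 ^ Fr.sys.m := by rw [Finset.sum_const, nsmul_eq_mul]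
    _ ≤ 2 ^ Fr.sys.m * 4 ^ Fr.sys.m :=
      mul_le_mul_of_nonneg_right hFc (pow_nonneg (by norm_num) _)
    _ = 8 ^ Fr.sys.m := by
      rw [← mul_pow]
      norm_num
    _ ≤ 16 ^ Fr.sys.m := pow_le_pow_left₀ (by norm_num) (by norm_num) _
    _ ≤ 16 ^ (Fr.sys.m + 1) := pow_le_pow_right₀ (by norm_num) (Nat.le_succ _)

end

end Pool.Agent.D8
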