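import Pool.Agent.D8.LEnd
import Pool.Agent.D8.BEnd
import Pool.Agent.D8.CFrm
import Pool.Agent.D8.CDec
import Pool.Agent.D8.CPer
import Pool.Agent.D8.CPol
import Pool.Agent.D8.CSer
import Pool.Agent.D8.CKar
import Pool.Agent.D8.CQf
import Pool.Agent.D8.CPG
import Pool.Agent.D8.CFix
import Pool.Agent.D8.CEx
import Pool.Agent.D8.CAR
import Pool.Agent.D8.CBd
import Pool.Agent.D8.CHom
import Pool.Agent.D8.CEndD
import Pool.Agent.H32.MQ.TEnd

/-!
# Malle's conjecture for the regular representation of the dihedral group of order 16 over every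
number field
-/

set_option autoImplicit false

open scoped BigOperators
open NumberField IsDedekindDomain

namespace Pool.Agent.D8

open Pool.Agent.H98.MF

section

variable {k : Type} [Field k] [NumberField k] (Fr : Frm k) (Rk : RxF k)

theorem end_ser : ScSer Fr Rk :=
  cSer Fr Rk (end_NG Fr Rk) (end_rb Fr Rk) (cC1 Fr Rk (end_sl k)) end_UD

theorem end_pol : ScPol Fr Rk := cPol Fr Rk (end_law Fr Rk) end_D8L (end_ser Fr Rk)

theorem end_dec : ScDec Fr Rk :=
  cDec Fr Rk (cDis Fr Rk) (cQ1 Fr Rk) (end_cnt Fr Rk) (cQf Fr Rk)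

theorem end_PG : ScPG Fr Rk :=
  cPG Fr Rk (cDis Fr Rk) (end_sl k) (end_nor Fr Rk) (aku k) (aGH Fr) (aGHv Fr)

theorem end_fix : ScFix Fr Rk :=
  cFix Fr Rk (end_dec Fr Rk) (cPer Fr Rk (end_cnt Fr Rk)) (end_pol Fr Rk)
    (cKar Pool.Agent.H32.MQ.stmKar) (cQf Fr Rk) (aGH Fr) (end_PG Fr Rk) (cQ1 Fr Rk)

theorem end_ex : ScEx Fr Rk := cEx Fr Rk (end_pol Fr Rk) (end_obG k) (end_obN k)

theorem end_bd : ScBd Fr Rk := cBd Fr Rk (end_U0 Fr Rk) end_UD

end

/-- the number of homomorphisms -/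
theorem end_hom (k : Type) [Field k] [NumberField k] : ScHom k := by
  obtain ⟨Rk⟩ := arx k
  obtain ⟨Fr, -⟩ := cFrm k ∅
  exact cHom k Fr Rk (cFrm k) (fun Fr' => end_fix Fr' Rk) (end_ex Fr Rk) (cAR Fr Rk)
    (end_bd Fr Rk)

/-- Malle's conjecture for the regular representation of the dihedral group of order 16 over every
number field -/
theorem malle_D8 (k : Type) [Field k] [NumberField k] :
    Pool.Agent.H32.MZ.MalleK k Pool.Agent.H32.MZ.D8 := cEndD k (end_hom k)

end Pool.Agent.D8
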