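import Pool.Agent.H32.MQ.Qd
import Pool.Agent.H98.MF.SBoxSym
import Pool.Agent.H98.MF.SClassSum

/-!
# Malle's conjecture for the dihedral group of order 16 over number fields: definitions of the
analytic part (note 5262, part B)

`S` is the system of primes of the base field, `M` a finite set of exceptional primes, `τ` a
weight on the primes close to `1`.
-/

set_option autoImplicit false

open scoped BigOperators Topology
open Filter

namespace Pool.Agent.D8

open Pool.Agent.H98.MK (sg)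
open Pool.Agent.H98.MF
open Pool.Agent.H32.MQ (El pw)

/-! ### families of sets of primes -/

/-- pairwise disjoint -/
def DjP {P ι : Type} (x : ι → Finset P) : Prop := ∀ i j, i ≠ j → Disjoint (x i) (x j)

open Classical in
/-- the merged family -/
noncomputable def mrg {P ι κ : Type} [Fintype ι] (π : ι → κ) (y : ι → Finset P) (k : κ) :
    Finset P := (Finset.univ.filter fun t => π t = k).biUnion y

open Classical in
/-- the nonempty variables -/
noncomputable def pat {P ι : Type} [Fintype ι] (x : ι → Finset P) : Finset ι :=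
  Finset.univ.filter fun u => (x u).Nonempty

section Kernel

variable (S : Sys) {ι : Type}

/-- weights close to `1` -/
def Tk (B : ℝ) (τ : S.P → ℝ) : Prop :=
  ∀ p, 0 ≤ τ p ∧ |τ p - 1| ≤ B * (S.N p : ℝ) ^ (-(1 / 2) : ℝ)

/-- the loss of a set of primes -/
noncomputable def ls (x : Finset S.P) : ℝ := Real.exp (∑ p ∈ x, 2 / (S.N p : ℝ))

open Classical in
/-- the large variables -/
noncomputable def lrg [Fintype ι] (J : ℕ) (x : ι → Finset S.P) : Finset ι :=
  Finset.univ.filter fun u => 2 ^ J < S.nm (x u)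

/-- the variables of a sum: exceptional primes `M`, characters `c`, conditions `e`, excluded
primes `w` -/
structure Vd (ι : Type) where
  M : Finset S.P
  c : ι → El S
  e : ι → El S
  w : ι → Finset S.P

/-- consistency of the data -/
structure Vd.Ok {S : Sys} {ι : Type} (D : Vd S ι) : Prop where
  c_sub : ∀ u, (D.c u).2 ⊆ D.M
  e_sub : ∀ u, (D.e u).2 ⊆ D.M
  M_sub : ∀ u, D.M ⊆ D.w u

open Classical in
/-- the weight `κ τ (1 + χ_e) / 2` outside `w` -/
noncomputable def hh (τ : S.P → ℝ) (κ : ℝ) (e : El S) (w : Finset S.P) (p : S.P) : ℝ :=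
  if p ∈ w then 0 else κ * τ p * ((1 + ((sg (S.ex e.2 e.1 p) : ℤ) : ℝ)) / 2)

/-- the exponent of the sign of a tuple -/
def KE {S : Sys} [Fintype ι] (φ : ι → ι → ZMod 2) (D : Vd S ι) (x : ι → Finset S.P) : ZMod 2 :=
  ∑ u, ∑ v, φ u v * S.JJ (x u) (x v) + ∑ u, ∑ p ∈ x u, S.ex (D.c u).2 (D.c u).1 p

open Classical in
/-- the term of a tuple; `Φ` is a function of the pattern -/
noncomputable def Kt {S : Sys} [Fintype ι] (τ : S.P → ℝ) (κ s : ℝ) (φ : ι → ι → ZMod 2)
    (D : Vd S ι) (Φ : Finset ι → ℝ) (x : ι → Finset S.P) : ℝ :=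
  if S.Dj x then Φ (pat x) * ((sg (KE φ D x) : ℤ) : ℝ) *
    ∏ u, ∏ p ∈ x u, (hh S τ κ (D.e u) (D.w u) p * (S.N p : ℝ) ^ (-s)) else 0

/-- the sum over all tuples -/
noncomputable def FK {S : Sys} [Fintype ι] (τ : S.P → ℝ) (κ s : ℝ) (φ : ι → ι → ZMod 2)
    (D : Vd S ι) (Φ : Finset ι → ℝ) : ℝ := ∑' x : ι → Finset S.P, Kt τ κ s φ D Φ x

/-- linked variables -/
def Lk (φ : ι → ι → ZMod 2) (u v : ι) : Prop := φ u v + φ v u = 1

/-- sets of unlinked variables -/
def Ind (φ : ι → ι → ZMod 2) (U : Finset ι) : Prop := ∀ u ∈ U, ∀ v ∈ U, ¬ Lk φ u v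

end Kernel

/-! ### the configurations -/

/-- the classes of primes `(side, kind)`: the sides are the primes of `a` (`0`) and of `b` (`1`),
the primes of `v` have kind `1`, those of `v' = -ab/v` kind `0`. In the notation of part A:
`(0,1) = A1`, `(0,0) = A2`, `(1,1) = B1`, `(1,0) = B2` -/
abbrev V : Type := ZMod 2 × ZMod 2

section Conf

variable (S : Sys)

/-- the coefficients: `f` for the sides (`a`, `b`), `g` for the kinds (`v'`, `v`) -/
structure Co where
  f : ZMod 2 → El S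
  g : ZMod 2 → El S

variable {S}

/-- the product of two classes -/
noncomputable def ad (c d : El S) : El S := (c.1 + d.1, symmDiff c.2 d.2)

open Classical in
/-- a multiple of a class -/
noncomputable def sm (t : ZMod 2) (c : El S) : El S := if t = 0 then (0, ∅) else c

/-- consistency of the coefficients: `a b v v' = -1` -/
structure Co.Ok (M : Finset S.P) (c : Co S) : Prop where
  f_sub : ∀ i, (c.f i).2 ⊆ M
  g_sub : ∀ j, (c.g j).2 ⊆ M
  rel : ad (ad (c.f 0) (c.f 1)) (ad (c.g 0) (c.g 1)) = (S.l, ∅)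

/-- the primes of a side -/
noncomputable def sid (x : V → Finset S.P) (i : ZMod 2) : Finset S.P := x (i, 0) ∪ x (i, 1)

/-- the primes of a kind -/
noncomputable def knd (x : V → Finset S.P) (j : ZMod 2) : Finset S.P := x (0, j) ∪ x (1, j)

/-- the conditions: at a prime of a side the element of the other side is a square, at a prime
of a kind the element of the other kind is a square -/
def Cnd (c : Co S) (x : V → Finset S.P) : Prop := ∀ u : V, ∀ p ∈ x u,
  S.ex (sid x (u.1 + 1) ∪ (c.f (u.1 + 1)).2) (c.f (u.1 + 1)).1 p = 0 ∧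
  S.ex (knd x (u.2 + 1) ∪ (c.g (u.2 + 1)).2) (c.g (u.2 + 1)).1 p = 0

/-- admissible configurations -/
structure Adm (M : Finset S.P) (c : Co S) (x : V → Finset S.P) : Prop where
  dj : S.Dj x
  dM : ∀ u, Disjoint (x u) M
  cnd : Cnd c x

open Classical in
/-- the mass of a configuration -/
noncomputable def ms (τ : S.P → ℝ) (M : Finset S.P) (c : Co S) (s : ℝ) (x : V → Finset S.P) :
    ℝ := if Adm M c x then ∏ u, ∏ p ∈ x u, (2 * τ p * (S.N p : ℝ) ^ (-s)) else 0

open Classical in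
/-- the mass of the configurations prime to `w`, weighted by a function of the pattern -/
noncomputable def MS (τ : S.P → ℝ) (M : Finset S.P) (c : Co S) (w : V → Finset S.P)
    (Φ : Finset V → ℝ) (s : ℝ) : ℝ :=
  ∑' x : V → Finset S.P, if ∀ u, Disjoint (x u) (w u) then Φ (pat x) * ms τ M c s x else 0

/-! ### sixteen types -/

/-- the exponents of the sixteen types (class, exponents of the two characters) -/
def φ16 (u v : V × V) : ZMod 2 := u.2.1 * (u.1.1 + v.1.1) + u.2.2 * (u.1.2 + v.1.2)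

/-- the data of the sixteen types -/
noncomputable def D16 (M : Finset S.P) (c : Co S) (w : V → Finset S.P) : Vd S (V × V) where
  M := M
  c := fun u => ad (sm u.2.1 (c.f (u.1.1 + 1))) (sm u.2.2 (c.g (u.1.2 + 1)))
  e := fun _ => (0, ∅)
  w := fun u => w u.1

/-! ### two classes -/

/-- the exponents for two classes: types (variable, exponent of the linking character) -/
def φ4 (s t : V) : ZMod 2 := s.2 * (s.1 + t.1)

open Classical in
/-- the linking character at the primes of the class `u`, the other class being `v` -/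
noncomputable def lkc (c : Co S) (u v : V) : El S :=
  if v.1 = u.1 then c.g (u.2 + 1) else c.f (u.1 + 1)

open Classical in
/-- the other condition at the primes of the class `u`, the other class being `v` -/
noncomputable def exc (c : Co S) (u v : V) : El S :=
  if v.1 = u.1 then c.f (u.1 + 1)
  else if v.2 = u.2 then c.g (u.2 + 1)
  else ad (c.f (u.1 + 1)) (c.g (u.2 + 1))

/-- the data of the four types of two classes `u`, `v` with extra characters `ψ 0`, `ψ 1` -/
noncomputable def D4 (M : Finset S.P) (c : Co S) (w : V → Finset S.P) (u v : V)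
    (ψ : ZMod 2 → El S) : Vd S V where
  M := M
  c := fun t => ad (sm t.2 (if t.1 = 0 then lkc c u v else lkc c v u)) (ψ t.1)
  e := fun t => if t.1 = 0 then exc c u v else exc c v u
  w := fun t => if t.1 = 0 then w u else w v

/-- both variables occur -/
noncomputable def Φ4 (U : Finset V) : ℝ := by
  classical
  exact if U.image Prod.fst = Finset.univ then 1 else 0

/-! ### the fixed part: no exceptional primes -/

/-- the coefficients with given classes of `a`, `b`, `v` -/
noncomputable def mkc (a b v : S.T) : Co S where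
  f := fun i => if i = 0 then (a, ∅) else (b, ∅)
  g := fun j => if j = 0 then (S.l + a + b + v, ∅) else (v, ∅)

variable (S)

open Classical in
/-- the primes with trivial label and norm between `exp (σ ^ (-a))` and `exp (σ ^ (-b))` -/
noncomputable def win (a b σ : ℝ) : Finset S.P :=
  (S.pr (Real.exp (σ ^ (-b)))).filter fun p => S.ty p = 0 ∧ Real.exp (σ ^ (-a)) < S.N p

/-- the first window -/
noncomputable def W1 (σ : ℝ) : Finset S.P := win S (1 / 100000) (1 / 10000) σ

/-- the second window -/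
noncomputable def W2 (σ : ℝ) : Finset S.P := win S (1 / 1000) (1 / 100) σ

variable {S}

open Classical in
/-- add a prime to a class -/
noncomputable def ins (u : V) (p : S.P) (w : V → Finset S.P) : V → Finset S.P :=
  Function.update w u (insert p (w u))

/-- the prime does not occur -/
def New (p : S.P) (w : V → Finset S.P) : Prop := ∀ u, p ∉ w u

open Classical in
/-- the value with primes `x`, `y`, `z` added to the classes `(0,0)`, `(1,0)`, `(0,1)` -/
noncomputable def t3 (c : Co S) (R : (V → Finset S.P) → ℝ) (w : V → Finset S.P) (x y z : S.P) :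
    ℝ :=
  if S.ty x = 0 ∧ S.ty y = 0 ∧ S.ty z = 0 ∧ x ≠ y ∧ x ≠ z ∧ y ≠ z ∧ New x w ∧ New y w ∧
      New z w ∧ Adm ∅ c (ins (0, 0) x (ins (1, 0) y (ins (0, 1) z w)))
    then R (ins (0, 0) x (ins (1, 0) y (ins (0, 1) z w))) else 0

open Classical in
/-- the value with primes `x`, `y` added to the classes `u`, `v` -/
noncomputable def t2 (c : Co S) (R : (V → Finset S.P) → ℝ) (u v : V) (w : V → Finset S.P)
    (x y : S.P) : ℝ :=
  if S.ty x = 0 ∧ S.ty y = 0 ∧ x ≠ y ∧ New x w ∧ New y w ∧ Adm ∅ c (ins u x (ins v y w))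
    then R (ins u x (ins v y w)) else 0

/-- bilinear estimate for two values of `x` -/
def BT (c : Co S) (R : (V → Finset S.P) → ℝ) : Prop :=
  ∃ C A η : ℝ, 0 ≤ A ∧ 0 < η ∧ ∀ (w : V → Finset S.P) (x x' : S.P), x ≠ x' →
    ∀ β γ : S.P → ℝ, (∀ p, |β p| ≤ 1) → (∀ p, |γ p| ≤ 1) → ∀ Y Z : ℝ, 1 ≤ Y → 1 ≤ Z →
    |∑ y ∈ S.pr Y, ∑ z ∈ S.pr Z, β y * γ z * (t3 c R w x y z * t3 c R w x' y z)| ≤
      C * ((S.N x : ℝ) * S.N x') ^ A * (Y * Z) * min Y Z ^ (-η)

/-- trilinear estimate -/
def TR (c : Co S) (R : (V → Finset S.P) → ℝ) : Prop :=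
  ∃ C A η : ℝ, 0 ≤ A ∧ 0 < η ∧ ∀ (w : V → Finset S.P) (α β γ : S.P → ℝ), (∀ p, |α p| ≤ 1) →
    (∀ p, |β p| ≤ 1) → (∀ p, |γ p| ≤ 1) → ∀ X Y Z : ℝ, 1 ≤ X → 1 ≤ Y → 1 ≤ Z →
    |∑ x ∈ S.pr X, ∑ y ∈ S.pr Y, ∑ z ∈ S.pr Z, α x * β y * γ z * t3 c R w x y z| ≤
      C * (X * Y * Z) * (X ^ (-(1 / 2) : ℝ) + X ^ A * min Y Z ^ (-η))

/-- bilinear estimate for the quartic symbols -/
def BQ (c : Co S) (R : (V → Finset S.P) → ℝ) (u v : V) : Prop :=
  ∃ C A η : ℝ, 0 ≤ A ∧ 0 < η ∧ ∀ (w : V → Finset S.P) (α β : S.P → ℝ), (∀ p, |α p| ≤ 1) →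
    (∀ p, |β p| ≤ 1) → (∀ t, t ≠ u → t ≠ v → w t = ∅) → ∀ X Y : ℝ, 1 ≤ X → 1 ≤ Y →
    |∑ x ∈ S.pr X, ∑ y ∈ S.pr Y, α x * β y * t2 c R u v w x y| ≤
      C * (X * Y) * (X ^ (-(1 / 2) : ℝ) + X ^ A * Y ^ (-η))

/-- the product of the symbols `(a, b)` at the exceptional and the real places, as a function of
the unit coordinates `a`, `b` and the types `k`, `m` of the primes of `a` and of `b` -/
def hq (a b k m : S.T) : ZMod 2 := (S.l ⬝ᵥ k) * (S.l ⬝ᵥ m) + b ⬝ᵥ k + a ⬝ᵥ m

/-- the laws of the coefficient function -/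
structure Law (R : S.T → S.T → S.T → (V → Finset S.P) → ℝ) (Θ : S.T → S.T → S.T → S.T → ℝ) :
    Prop where
  bd : ∀ a b v x, |R a b v x| ≤ 1
  th : ∀ a b k m, |Θ a b k m| ≤ 1
  deg0 : ∀ b v x, sid x 0 = ∅ → R 0 b v x = 0
  deg1 : ∀ a v x, sid x 1 = ∅ → R a 0 v x = 0
  main0 : ∀ a b x, Adm ∅ (mkc a b 0) x → pat x = {(0, 0), (1, 0)} →
    R a b 0 x = Θ a b (S.tys (x (0, 0))) (S.tys (x (1, 0)))
  main1 : ∀ a b x, Adm ∅ (mkc a b (S.l + a + b)) x → pat x = {(0, 1), (1, 1)} →
    R a b (S.l + a + b) x = Θ a b (S.tys (x (0, 1))) (S.tys (x (1, 1)))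
  bt : ∀ a b v, BT (mkc a b v) (R a b v)
  bq0 : S.l = 0 → ∀ a b, BQ (mkc a b b) (R a b b) (0, 0) (1, 1) ∨
    BQ (mkc a b b) (R a b b) (1, 1) (0, 0)
  bq1 : S.l = 0 → ∀ a b, BQ (mkc a b a) (R a b a) (0, 1) (1, 0) ∨
    BQ (mkc a b a) (R a b a) (1, 0) (0, 1)

/-- the Dirichlet series of the pairs `(a, b)` -/
noncomputable def FD (τ : S.P → ℝ) (R : S.T → S.T → S.T → (V → Finset S.P) → ℝ) (s : ℝ) : ℝ :=
  ∑ a : S.T, ∑ b : S.T, ∑ v : S.T, ∑' x : V → Finset S.P,
    ms τ ∅ (mkc a b v) s x * R a b v x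

end Conf

end Pool.Agent.D8
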