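import Pool.Agent.D8.LStm

/-!
# The dihedral group of order 16 over a number field, row LA0: admissible configurations in the
two notations
-/

set_option autoImplicit false

open scoped BigOperators

namespace Pool.Agent.D8

open Pool.Agent.H98.MF
open Pool.Agent.H98.MK (sg)
open Pool.Agent.H32.MQ (El)

theorem lad_V {Q : V → Prop} : (∀ u, Q u) ↔ Q (0, 1) ∧ Q (0, 0) ∧ Q (1, 1) ∧ Q (1, 0) := by
  have h01 : ∀ z : ZMod 2, z = 0 ∨ z = 1 := by decide
  constructor
  · intro h
    exact ⟨h _, h _, h _, h _⟩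
  · rintro ⟨h1, h2, h3, h4⟩ ⟨i, j⟩
    rcases h01 i with rfl | rfl <;> rcases h01 j with rfl | rfl <;> assumption

section

variable {S : Sys}

theorem lad_f0 (a b v : S.T) : (mkc a b v).f 0 = (a, ∅) := by simp [mkc]

theorem lad_f1 (a b v : S.T) : (mkc a b v).f 1 = (b, ∅) := by simp [mkc]

theorem lad_g0 (a b v : S.T) : (mkc a b v).g 0 = (S.l + a + b + v, ∅) := by simp [mkc]

theorem lad_g1 (a b v : S.T) : (mkc a b v).g 1 = (v, ∅) := by simp [mkc]

theorem lad_dj (a b v : S.T) (x : V → Finset S.P) : S.Dj x ↔ (toCg a b v x).Dj := by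
  unfold Cg.Dj toCg
  simp only
  constructor
  · intro h
    refine ⟨h _ _ (by decide), h _ _ (by decide), ?_⟩
    rw [Finset.disjoint_union_left, Finset.disjoint_union_right, Finset.disjoint_union_right]
    exact ⟨⟨h _ _ (by decide), h _ _ (by decide)⟩, h _ _ (by decide), h _ _ (by decide)⟩
  · rintro ⟨h1, h2, h3⟩
    rw [Finset.disjoint_union_left, Finset.disjoint_union_right,
      Finset.disjoint_union_right] at h3
    obtain ⟨⟨h4, h5⟩, h6, h7⟩ := h3
    have h01 : ∀ z : ZMod 2, z = 0 ∨ z = 1 := by decide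
    rintro ⟨i, j⟩ ⟨i', j'⟩ hne
    rcases h01 i with rfl | rfl <;> rcases h01 j with rfl | rfl <;>
      rcases h01 i' with rfl | rfl <;> rcases h01 j' with rfl | rfl <;>
      first
      | exact absurd rfl hne
      | assumption
      | exact Disjoint.symm (by assumption)

theorem lad_cnd (a b v : S.T) (x : V → Finset S.P) :
    Cnd (mkc a b v) x ↔ (toCg a b v x).C1 ∧ (toCg a b v x).C2 := by
  have e1 : (1 + 1 : ZMod 2) = 0 := by decide
  have e0 : (0 + 1 : ZMod 2) = 1 := by decide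
  unfold Cnd Cg.C1 Cg.C2 toCg
  rw [lad_V]
  simp only [e0, e1, lad_f0, lad_f1, lad_g0, lad_g1, Finset.union_empty, sid, knd]
  rw [Finset.union_comm (x (1, 0)) (x (1, 1)), Finset.union_comm (x (0, 0)) (x (0, 1))]
  simp only [Finset.mem_union]
  constructor
  · rintro ⟨h1, h2, h3, h4⟩
    refine ⟨⟨?_, ?_⟩, ?_, ?_⟩
    · rintro p (hp | hp)
      · exact (h1 p hp).1
      · exact (h2 p hp).1
    · rintro p (hp | hp)
      · exact (h3 p hp).1
      · exact (h4 p hp).1
    · rintro p (hp | hp)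
      · exact (h1 p hp).2
      · exact (h3 p hp).2
    · rintro p (hp | hp)
      · exact (h2 p hp).2
      · exact (h4 p hp).2
  · rintro ⟨⟨h1, h2⟩, h3, h4⟩
    exact ⟨fun p hp => ⟨h1 p (Or.inl hp), h3 p (Or.inl hp)⟩,
      fun p hp => ⟨h1 p (Or.inr hp), h4 p (Or.inl hp)⟩,
      fun p hp => ⟨h2 p (Or.inl hp), h3 p (Or.inr hp)⟩,
      fun p hp => ⟨h2 p (Or.inr hp), h4 p (Or.inr hp)⟩⟩

end

theorem lAdm : SlAdm := by
  intro S a b v x
  constructor
  · intro h
    exact ⟨(lad_dj a b v x).1 h.dj, (lad_cnd a b v x).1 h.cnd⟩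
  · rintro ⟨h1, h2⟩
    exact ⟨(lad_dj a b v x).2 h1, fun u => Finset.disjoint_empty_right _,
      (lad_cnd a b v x).2 h2⟩

end Pool.Agent.D8
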