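import Pool.Agent.D8.LBQb

/-!
# The dihedral group of order 16 over a number field, row LQ6: the bilinear estimate for two
opposite classes
-/

set_option autoImplicit false

open scoped BigOperators
open NumberField IsDedekindDomain

namespace Pool.Agent.D8

open Pool.Agent.H98.MF
open Pool.Agent.H98.MK (sg)
open Pool.Agent.H32.MQ (El rep co h_repO h_repQ hb_two hb_notMem sz dg kco sz_coord)
open Pool.Agent.H32.MA.AB (Lat cube bxA mem_bxA)

section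

variable {k : Type} [Field k] [NumberField k] (Fr : Frm k) (Rk : RxF k)

/-- the bilinear estimate for two opposite classes -/
theorem lBQ (hU : SlQU Fr Rk) (hK : SlQK k) (hO : SlQO Fr) (hS : SlSm Fr) (hL : SlLS)
    (h2 : SlSep2) : SlBQ Fr Rk := by
  classical
  intro hi G hG hG1 a b
  obtain ⟨Φ, hΦ⟩ := hS
  choose t φ v hφ hv ht0 hts htp using hΦ
  obtain ⟨c, L, hLe⟩ := lbq_lat (k := k)
  have hn : 1 ≤ dg k := by
    unfold dg
    rw [RingOfIntegers.rank]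
    exact Nat.one_le_iff_ne_zero.2 Module.finrank_pos.ne'
  have hn0 : (0 : ℝ) < (dg k : ℝ) := by exact_mod_cast hn
  obtain ⟨C, hC, HL⟩ := hL (dg k) hn
  obtain ⟨C2, hC2, hcard⟩ := CS.card_pr_le Fr.sys
  set Exc : Finset Fr.sys.P := Φ.biUnion fun f =>
    ((Pool.Agent.H98.MF.B.ord_finite (f : k) f.ne_zero).preimage Fr.pl_inj.injOn).toFinset
    with hExc
  have hexc : ∀ x, x ∉ Exc → ∀ f ∈ Φ, ord (Fr.pl x) (f : k) = 0 := by
    intro x hx f hf
    by_contra h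
    apply hx
    rw [hExc, Finset.mem_biUnion]
    refine ⟨f, hf, ?_⟩
    rw [Set.Finite.mem_toFinset]
    exact h
  refine ⟨C2 * (Φ.card * C + Exc.card), 1, 1 / (2 * (dg k : ℝ)), zero_le_one, by positivity, ?_⟩
  intro w α β hα hβ hw X Y hX hY
  obtain ⟨c1, hc1, hU1⟩ := hU hi G hG hG1 a b w hw
  have hw' : ∀ t : V, t ≠ (1, 0) → t ≠ (0, 1) → w t = ∅ := hw
  obtain ⟨P, Q, k2, hE⟩ := h2 Fr.sys a b w (lbq_l0 Fr hi) hw'
  choose d m hd hm using fun f : kˣ => lbq_den (rep Fr (a, w (0, 1)) * f)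
  set T : Fr.sys.P → Fr.sys.P → ℝ := fun x y =>
    t2 (mkc a b a) (RR Fr Rk G a b a) (1, 0) (0, 1) w x y with hT
  have hTb : ∀ x y, |T x y| ≤ 1 := lbq_bd Fr Rk hi G a b w c1 hc1 hU1
    fun x y h => ((hE x y).1 h).2.2.2.1
  set A1 := w (0, 1) with hA1
  have hTf : ∀ x y, x ∉ A1 → x ∉ Exc → T x y =
      (if P x then 1 else 0) * ((if Q y ∧ y ∉ w (0, 1) then 1 else 0) * c1 y) *
      ((1 + ((sg (Fr.sys.ex (w (0, 1)) a x) : ℤ) : ℝ) * ((sg (k2 y) : ℤ) : ℝ)) / 2) *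
      ((qk (Fr.pl x) (d (φ y) * t y) : ℤ) : ℝ) := fun x y hx hx' =>
    lbq_form Fr Rk hK hi G a b w c1 hU1 P Q k2 hE x y (t y) (d (φ y)) (φ y) (v y) (m (φ y))
      (hv y) (htp y) (hd (φ y)) (hm (φ y)) hx (hexc x hx' (φ y) (hφ y))
  have hX0 : 0 < X := by linarith
  have hY0 : 0 < Y := by linarith
  set I : Finset Fr.sys.P := (Fr.sys.pr X).filter fun x => x ∉ A1 ∧ x ∉ Exc with hI
  set J : kˣ → Finset Fr.sys.P := fun f => (Fr.sys.pr Y).filter fun y => φ y = f with hJ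
  set B : ℝ := C * C2 * (X * Y) * (X ^ (-(1 / 2) : ℝ) + X * Y ^ (-(1 / (2 * (dg k : ℝ)))))
    with hB
  -- injectivity of the small representatives
  have hinj : ∀ f : kˣ, Set.InjOn t (J f) := by
    intro f y hy y' hy' h
    have h1 : φ y = f := (Finset.mem_filter.1 (Finset.mem_coe.1 hy)).2
    have h3 : φ y' = f := (Finset.mem_filter.1 (Finset.mem_coe.1 hy')).2
    by_contra hne
    have e1 := congrArg (ord (Fr.pl y)) (htp y)
    have e2 := congrArg (ord (Fr.pl y)) (htp y')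
    have ht : (t y : k) ≠ 0 := Pool.Agent.H32.MQ.bd_ne' (ht0 y)
    have hvo : ∀ z, ord (Fr.pl y) (v z : k) = 0 := fun z =>
      Pool.Agent.H98.MF.B.mem_US.1 (hv z) _ (hb_notMem Fr y)
    rw [Fr.pi_self, ord_mul _ (mul_ne_zero ht (Units.ne_zero _)) (pow_ne_zero 4 (Units.ne_zero _)),
      ord_pow, hvo] at e1
    rw [Fr.pi_other y' y hne, ← h, h3, ← h1,
      ord_mul _ (mul_ne_zero ht (Units.ne_zero _)) (pow_ne_zero 4 (Units.ne_zero _)),
      ord_pow, hvo] at e2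
    push_cast at e1 e2
    omega
  -- the weights
  set a0 : Fr.sys.P → ℝ := fun x => α x * (if P x then 1 else 0) with ha0
  set a1 : Fr.sys.P → ℝ := fun x => α x * (if P x then 1 else 0) *
    ((sg (Fr.sys.ex (w (0, 1)) a x) : ℤ) : ℝ) with ha1
  set b0 : Fr.sys.P → ℝ := fun y => β y * ((if Q y ∧ y ∉ w (0, 1) then 1 else 0) * c1 y)
    with hb0
  set b1 : Fr.sys.P → ℝ := fun y => β y * ((if Q y ∧ y ∉ w (0, 1) then 1 else 0) * c1 y) *
    ((sg (k2 y) : ℤ) : ℝ) with hb1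
  have hmul1 : ∀ p q : ℝ, |p| ≤ 1 → |q| ≤ 1 → |p * q| ≤ 1 := by
    intro p q hp hq
    rw [abs_mul]
    exact mul_le_one₀ hp (abs_nonneg _) hq
  have hit : ∀ (p : Prop) [Decidable p], |(if p then (1 : ℝ) else 0)| ≤ 1 := by
    intro p _
    split_ifs
    · rw [abs_one]
    · rw [abs_zero]
      exact zero_le_one
  have ha0' : ∀ x, |a0 x| ≤ 1 := fun x => hmul1 _ _ (hα x) (hit _)
  have ha1' : ∀ x, |a1 x| ≤ 1 := fun x => hmul1 _ _ (ha0' x) (abs_sgr _).le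
  have hb0' : ∀ y, |b0 y| ≤ 1 := fun y => hmul1 _ _ (hβ y) (hmul1 _ _ (hit _) (hc1 y))
  have hb1' : ∀ y, |b1 y| ≤ 1 := fun y => hmul1 _ _ (hb0' y) (abs_sgr _).le
  have hdn : ∀ f ∈ Φ, ∀ x ∈ I, d f ∉ (Fr.pl x).asIdeal := by
    intro f hf x hx
    have h1 := (Finset.mem_filter.1 hx).2
    have h4 : ord (Fr.pl x) ((rep Fr (a, w (0, 1)) * f : kˣ) : k) = 0 := by
      rw [Units.val_mul, ord_mul _ (Units.ne_zero _) (Units.ne_zero _),
        h_repO Fr (a, w (0, 1)) x, if_neg h1.1, hexc x h1.2 f hf, add_zero]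
    have h5 := hm f (Fr.pl x) h4
    have h6 : ((d f : 𝓞 k) : k) ≠ 0 := by
      rw [hd f]
      exact mul_ne_zero (Units.ne_zero _) (pow_ne_zero 4 (Units.ne_zero _))
    refine lbq_notMem (Fr.pl x) (d f) h6 ?_
    rw [hd f, ord_mul _ (Units.ne_zero _) (pow_ne_zero 4 (Units.ne_zero _)), h4, ord_pow, h5]
    rfl
  have hone : ∀ f ∈ Φ, ∀ a' b' : Fr.sys.P → ℝ, (∀ x, |a' x| ≤ 1) → (∀ y, |b' y| ≤ 1) →
      |∑ x ∈ I, ∑ y ∈ J f, a' x * b' y * ((qk (Fr.pl x) (d f * t y) : ℤ) : ℝ)| ≤ B :=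
    fun f hf a' b' ha' hb' =>
    lbq_one Fr hK hO hi L hLe hn C hC
      (fun ι I' K q E h1 h3 h4 h5 R α' β' h6 h7 h8 =>
        HL (𝓞 k) c L ι I' K q E h1 h3 h4 h5 R α' β' h6 h7 h8)
      C2 hC2 hcard X Y hX hY I (J f) (Finset.filter_subset _ _) (Finset.filter_subset _ _)
      (d f) (hdn f hf) t (hinj f) hts a' b' ha' hb'
  -- the main part
  have hmain : |∑ x ∈ I, ∑ y ∈ Fr.sys.pr Y, α x * β y * T x y| ≤ Φ.card * B := by
    have e1 : ∀ x ∈ I, ∑ y ∈ Fr.sys.pr Y, α x * β y * T x y = ∑ f ∈ Φ, ∑ y ∈ J f,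
        (1 / 2 * (a0 x * b0 y * ((qk (Fr.pl x) (d f * t y) : ℤ) : ℝ)) +
          1 / 2 * (a1 x * b1 y * ((qk (Fr.pl x) (d f * t y) : ℤ) : ℝ))) := by
      intro x hx
      have h1 := (Finset.mem_filter.1 hx).2
      rw [← Finset.sum_fiberwise_of_maps_to (s := Fr.sys.pr Y) (t := Φ) (g := φ)
        (fun y _ => hφ y)]
      refine Finset.sum_congr rfl fun f _ => Finset.sum_congr rfl fun y hy => ?_
      have h3 : φ y = f := (Finset.mem_filter.1 hy).2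
      rw [hTf x y h1.1 h1.2, h3]
      simp only [ha0, ha1, hb0, hb1]
      ring
    rw [Finset.sum_congr rfl e1, Finset.sum_comm]
    calc |∑ f ∈ Φ, ∑ x ∈ I, ∑ y ∈ J f,
          (1 / 2 * (a0 x * b0 y * ((qk (Fr.pl x) (d f * t y) : ℤ) : ℝ)) +
            1 / 2 * (a1 x * b1 y * ((qk (Fr.pl x) (d f * t y) : ℤ) : ℝ)))|
        ≤ ∑ f ∈ Φ, |∑ x ∈ I, ∑ y ∈ J f,
          (1 / 2 * (a0 x * b0 y * ((qk (Fr.pl x) (d f * t y) : ℤ) : ℝ)) +
            1 / 2 * (a1 x * b1 y * ((qk (Fr.pl x) (d f * t y) : ℤ) : ℝ)))| :=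
          Finset.abs_sum_le_sum_abs _ _
      _ ≤ ∑ _f ∈ Φ, B := by
          refine Finset.sum_le_sum fun f hf => ?_
          have e2 : ∑ x ∈ I, ∑ y ∈ J f,
              (1 / 2 * (a0 x * b0 y * ((qk (Fr.pl x) (d f * t y) : ℤ) : ℝ)) +
                1 / 2 * (a1 x * b1 y * ((qk (Fr.pl x) (d f * t y) : ℤ) : ℝ))) =
              1 / 2 * (∑ x ∈ I, ∑ y ∈ J f, a0 x * b0 y *
                ((qk (Fr.pl x) (d f * t y) : ℤ) : ℝ)) +
              1 / 2 * (∑ x ∈ I, ∑ y ∈ J f, a1 x * b1 y *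
                ((qk (Fr.pl x) (d f * t y) : ℤ) : ℝ)) := by
            simp only [Finset.sum_add_distrib, Finset.mul_sum]
          rw [e2]
          have p1 := hone f hf a0 b0 ha0' hb0'
          have p2 := hone f hf a1 b1 ha1' hb1'
          refine (abs_add_le _ _).trans ?_
          rw [abs_mul, abs_mul, abs_of_pos (by norm_num : (0 : ℝ) < 1 / 2)]
          linarith
      _ = Φ.card * B := by rw [Finset.sum_const, nsmul_eq_mul]
  -- the exceptional part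
  have hrest : |∑ x ∈ (Fr.sys.pr X).filter (fun x => ¬ (x ∉ A1 ∧ x ∉ Exc)),
      ∑ y ∈ Fr.sys.pr Y, α x * β y * T x y| ≤ Exc.card * (C2 * Y) := by
    have hTA : ∀ x y, x ∈ A1 → T x y = 0 := by
      intro x y hx
      apply lbq_t2_zero
      rintro ⟨-, -, -, h, -, -⟩
      exact h (0, 1) hx
    have hb : ∀ x ∈ (Fr.sys.pr X).filter (fun x => ¬ (x ∉ A1 ∧ x ∉ Exc)),
        |∑ y ∈ Fr.sys.pr Y, α x * β y * T x y| ≤ if x ∈ Exc then C2 * Y else 0 := by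
      intro x hx
      have h1 := (Finset.mem_filter.1 hx).2
      split_ifs with h
      · calc |∑ y ∈ Fr.sys.pr Y, α x * β y * T x y|
            ≤ ∑ y ∈ Fr.sys.pr Y, |α x * β y * T x y| := Finset.abs_sum_le_sum_abs _ _
          _ ≤ ∑ _y ∈ Fr.sys.pr Y, (1 : ℝ) := Finset.sum_le_sum fun y _ =>
              hmul1 _ _ (hmul1 _ _ (hα x) (hβ y)) (hTb x y)
          _ = ((Fr.sys.pr Y).card : ℝ) := by rw [Finset.sum_const, nsmul_eq_mul, mul_one]
          _ ≤ C2 * Y := hcard Y hY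
      · have h3 : x ∈ A1 := by
          by_contra h4
          exact h1 ⟨h4, h⟩
        rw [Finset.sum_eq_zero fun y _ => by rw [hTA x y h3, mul_zero], abs_zero]
    calc _ ≤ ∑ x ∈ (Fr.sys.pr X).filter (fun x => ¬ (x ∉ A1 ∧ x ∉ Exc)),
          |∑ y ∈ Fr.sys.pr Y, α x * β y * T x y| := Finset.abs_sum_le_sum_abs _ _
      _ ≤ ∑ x ∈ (Fr.sys.pr X).filter (fun x => ¬ (x ∉ A1 ∧ x ∉ Exc)),
          (if x ∈ Exc then C2 * Y else 0) := Finset.sum_le_sum hb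
      _ = ∑ x ∈ ((Fr.sys.pr X).filter (fun x => ¬ (x ∉ A1 ∧ x ∉ Exc))).filter
          (fun x => x ∈ Exc), C2 * Y := (Finset.sum_filter _ _).symm
      _ ≤ ∑ _x ∈ Exc, C2 * Y := by
          refine Finset.sum_le_sum_of_subset_of_nonneg (fun x hx => (Finset.mem_filter.1 hx).2)
            fun _ _ _ => by positivity
      _ = _ := by rw [Finset.sum_const, nsmul_eq_mul]
  -- the conclusion
  have hsplit : ∑ x ∈ Fr.sys.pr X, ∑ y ∈ Fr.sys.pr Y, α x * β y * T x y =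
      ∑ x ∈ I, ∑ y ∈ Fr.sys.pr Y, α x * β y * T x y +
      ∑ x ∈ (Fr.sys.pr X).filter (fun x => ¬ (x ∉ A1 ∧ x ∉ Exc)),
        ∑ y ∈ Fr.sys.pr Y, α x * β y * T x y :=
    (Finset.sum_filter_add_sum_filter_not _ _ _).symm
  show |∑ x ∈ Fr.sys.pr X, ∑ y ∈ Fr.sys.pr Y, α x * β y * T x y| ≤ _
  rw [hsplit, Real.rpow_one]
  refine (abs_add_le _ _).trans ((add_le_add hmain hrest).trans ?_)
  have hXh : 1 ≤ X * X ^ (-(1 / 2) : ℝ) := by
    have h4 : X * X ^ (-(1 / 2) : ℝ) = X ^ (1 / 2 : ℝ) := by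
      have := Real.rpow_add hX0 1 (-(1 / 2))
      rw [Real.rpow_one] at this
      rw [← this]
      norm_num
    rw [h4]
    exact Real.one_le_rpow hX (by norm_num)
  have hYp : 0 ≤ Y ^ (-(1 / (2 * (dg k : ℝ)))) := Real.rpow_nonneg hY0.le _
  have hXp : 0 ≤ X ^ (-(1 / 2) : ℝ) := Real.rpow_nonneg hX0.le _
  have hE1 : (Exc.card : ℝ) * (C2 * Y) ≤ Exc.card * (C2 * ((X * Y) *
      (X ^ (-(1 / 2) : ℝ) + X * Y ^ (-(1 / (2 * (dg k : ℝ))))))) := by
    refine mul_le_mul_of_nonneg_left (mul_le_mul_of_nonneg_left ?_ (by linarith))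
      (Nat.cast_nonneg _)
    calc Y = 1 * Y := (one_mul Y).symm
      _ ≤ (X * X ^ (-(1 / 2) : ℝ)) * Y := mul_le_mul_of_nonneg_right hXh hY0.le
      _ ≤ (X * X ^ (-(1 / 2) : ℝ)) * Y + (X * Y) * (X * Y ^ (-(1 / (2 * (dg k : ℝ))))) :=
          le_add_of_nonneg_right (by positivity)
      _ = _ := by ring
  calc (Φ.card : ℝ) * B + Exc.card * (C2 * Y) ≤ Φ.card * B + Exc.card * (C2 * ((X * Y) *
      (X ^ (-(1 / 2) : ℝ) + X * Y ^ (-(1 / (2 * (dg k : ℝ))))))) := by linarith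
    _ = _ := by
        rw [hB]
        ring

end

end Pool.Agent.D8
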