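import Pool.Agent.D8.LStm
import Pool.Agent.D8.ARs
import Pool.Agent.H32.MQ.IBd
import Pool.Agent.H32.MQ.ISz

/-!
# The dihedral group of order 16 over a number field, row LQ6: preparations

The values for two opposite classes are a kernel at a small representative, the weights being
separated.
-/

set_option autoImplicit false

open scoped BigOperators
open NumberField IsDedekindDomain

namespace Pool.Agent.D8

open Pool.Agent.H98.MF
open Pool.Agent.H98.MK (sg)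
open Pool.Agent.H32.MQ (El rep co h_repO h_repQ hb_two hb_notMem bd_den bd_int bd_ne bd_ne' SzSt
  sz dg kco sz_coord szSt)
open Pool.Agent.H32.MA.AB (Lat cube bxA mem_bxA)

section

variable {k : Type} [Field k] [NumberField k] (Fr : Frm k)

theorem lbq_l0 (hi : IsSquare (-1 : k)) : Fr.sys.l = 0 := by
  obtain ⟨s, hs⟩ := arp_neg_one Fr
  obtain ⟨i, hi⟩ := hi
  have hi0 : i ≠ 0 := by
    rintro rfl
    rw [mul_zero] at hi
    exact neg_ne_zero.2 one_ne_zero hi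
  apply Fr.u_ind
  refine ⟨s * (Units.mk0 i hi0)⁻¹, ?_⟩
  have h1 : (Units.mk0 i hi0 : kˣ) * Units.mk0 i hi0 = -1 := by
    apply Units.ext
    rw [Units.val_mul, Units.val_neg, Units.val_one]
    exact hi.symm
  have h2 : s * (Units.mk0 i hi0)⁻¹ * (s * (Units.mk0 i hi0)⁻¹) =
      (s * s) * (Units.mk0 i hi0 * Units.mk0 i hi0)⁻¹ := by
    rw [mul_inv]
    exact mul_mul_mul_comm _ _ _ _
  rw [h2, ← hs, h1]
  have h3 : (-1 : kˣ)⁻¹ = -1 := by
    rw [inv_neg, inv_one]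
  rw [h3, mul_comm (-1 : kˣ) (∏ j, Fr.u j ^ (Fr.sys.l j).val), mul_assoc, neg_mul_neg, mul_one,
    mul_one]

/-- an integer with exponent zero -/
theorem lbq_notMem (P : HeightOneSpectrum (𝓞 k)) (a : 𝓞 k) (ha : (a : k) ≠ 0)
    (h : ord P (a : k) = 0) : a ∉ P.asIdeal := by
  intro h1
  have h2 := (le_ord_iff P a 1).2 (by rwa [pow_one])
  rcases h2 with h2 | h2
  · exact ha (by rw [h2]; exact map_zero (algebraMap (𝓞 k) k))
  · rw [h] at h2
    norm_num at h2

theorem lbq_ord (P : HeightOneSpectrum (𝓞 k)) (a : 𝓞 k) (h : a ∉ P.asIdeal) :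
    (a : k) ≠ 0 ∧ ord P (a : k) = 0 := by
  have h1 : ¬ (a = 0 ∨ ((1 : ℕ) : ℤ) ≤ ord P (a : k)) := by
    rw [le_ord_iff, pow_one]
    exact h
  rw [not_or] at h1
  have h2 := ord_int_nonneg P a
  refine ⟨bd_ne' h1.1, ?_⟩
  have h3 := h1.2
  push_cast at h3
  omega

/-- a square root modulo a prime -/
theorem lbq_root (P : HeightOneSpectrum (𝓞 k)) (e : kˣ) (he : ord P (e : k) = 0)
    (h : qr (e : k) P = 0) : ∃ r : kˣ, IsRt P r e := by
  rw [qr_eq_zero] at h
  obtain ⟨c, hc⟩ := h 1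
  rw [Nat.cast_one] at hc
  have hc0 : c ≠ 0 := by
    rintro rfl
    rcases hc with hc | hc
    · rw [zero_pow two_ne_zero, mul_zero] at hc
      exact zero_ne_one hc
    · rw [zero_pow two_ne_zero, mul_zero, zero_sub, ord_neg, ord_one] at hc
      omega
  have hord : ord P c = 0 := by
    have h1 : ord P ((e : k) * c ^ 2) = 0 := by
      rcases hc with hc | hc
      · rw [hc, ord_one]
      · have h3 := (ord_add_eq P (a := (1 : k)) (b := (e : k) * c ^ 2 - 1) one_ne_zero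
          (Or.inr (by rw [ord_one]; omega))).2
        rw [add_sub_cancel, ord_one] at h3
        exact h3
    rw [ord_mul P e.ne_zero (pow_ne_zero 2 hc0), ord_pow, he] at h1
    push_cast at h1
    omega
  refine ⟨(Units.mk0 c hc0)⁻¹, ?_, ?_⟩
  · rw [Units.val_inv_eq_inv_val, ord_inv]
    show - ord P c = 0
    rw [hord, neg_zero]
  · rw [Units.val_inv_eq_inv_val]
    show (e : k) = c⁻¹ ^ 2 ∨ 0 < ord P ((e : k) - c⁻¹ ^ 2)
    rcases hc with hc | hc
    · left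
      field_simp
      exact hc
    · by_cases h0 : (e : k) = c⁻¹ ^ 2
      · exact Or.inl h0
      right
      have h3 : (e : k) - c⁻¹ ^ 2 = (e * c ^ 2 - 1) * c⁻¹ ^ 2 := by field_simp
      have h4 : (e : k) * c ^ 2 - 1 ≠ 0 := by
        intro h5
        rw [h5, zero_mul] at h3
        exact h0 (sub_eq_zero.1 h3)
      rw [h3, ord_mul P h4 (pow_ne_zero 2 (inv_ne_zero hc0)), ord_pow, ord_inv, hord]
      omega

/-- quadratic characters of elements which differ by a square -/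
theorem lbq_qr_sq (P : HeightOneSpectrum (𝓞 k)) (a : k) {c : k} (hc : c ≠ 0) :
    qr (a * c ^ 2) P = qr a P := by
  unfold qr
  by_cases h : LocSq P a
  · rw [if_pos h, if_pos ((locSq_mul_sq P hc a).2 h)]
  · rw [if_neg h, if_neg (fun h1 => h ((locSq_mul_sq P hc a).1 h1))]

/-- the kernel at a local square -/
theorem lbq_ker (hK : SlQK k) (hi : IsSquare (-1 : k)) (P : HeightOneSpectrum (𝓞 k))
    (h2 : ord P (2 : k) = 0) (e ρ : kˣ) (u : 𝓞 k) (he : ord P (e : k) = 0)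
    (hρ : ord P (ρ : k) = 0) (hu : (u : k) = e * ρ ^ 4) (hq : qr (e : k) P = 0) :
    ∃ r : kˣ, IsRt P r e ∧ qk P u = sg (qr (r : k) P) := by
  obtain ⟨-, -, h3, -, -⟩ := hK hi P h2
  have hρ0 : (ρ : k) ≠ 0 := ρ.ne_zero
  have hu0 : (u : k) ≠ 0 := by
    rw [hu]
    exact mul_ne_zero e.ne_zero (pow_ne_zero 4 hρ0)
  have huo : ord P (u : k) = 0 := by
    rw [hu, ord_mul P e.ne_zero (pow_ne_zero 4 hρ0), ord_pow, he, hρ]
    rfl
  have hun : u ∉ P.asIdeal := lbq_notMem P u hu0 huo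
  have hqu : qr (u : k) P = 0 := by
    rw [hu, show (e : k) * ρ ^ 4 = e * (ρ ^ 2) ^ 2 by ring, lbq_qr_sq P _ (pow_ne_zero 2 hρ0)]
    exact hq
  obtain ⟨c, hc⟩ := (qr_int h2 u hun).1 hqu
  have hcn : c ∉ P.asIdeal := by
    intro h
    apply hun
    have e1 : u = (u - c ^ 2) + c ^ 2 := by ring
    rw [e1]
    exact P.asIdeal.add_mem hc (by rw [pow_two]; exact P.asIdeal.mul_mem_left c h)
  obtain ⟨hc0, hco⟩ := lbq_ord P c hcn
  refine ⟨Units.mk0 (c : k) hc0 * (ρ ^ 2)⁻¹, ⟨?_, ?_⟩, ?_⟩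
  · rw [Units.val_mul, ord_mul P (Units.ne_zero _) (Units.ne_zero _), Units.val_mk0, hco,
      Units.val_inv_eq_inv_val, ord_inv, Units.val_pow_eq_pow_val, ord_pow, hρ]
    rfl
  · have e2 : ((Units.mk0 (c : k) hc0 * (ρ ^ 2)⁻¹ : kˣ) : k) = (c : k) * ((ρ : k) ^ 2)⁻¹ := by
      rw [Units.val_mul, Units.val_mk0, Units.val_inv_eq_inv_val, Units.val_pow_eq_pow_val]
    rw [e2]
    have e3 : (e : k) - ((c : k) * ((ρ : k) ^ 2)⁻¹) ^ 2 = ((u : k) - (c : k) ^ 2) * (ρ⁻¹ : k) ^ 4 := by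
      rw [hu]
      field_simp
    by_cases h0 : (u : k) - (c : k) ^ 2 = 0
    · left
      rw [h0, zero_mul] at e3
      exact sub_eq_zero.1 e3
    · right
      rw [e3, ord_mul P h0 (pow_ne_zero 4 (inv_ne_zero hρ0)), ord_pow, ord_inv, hρ]
      have e4 := (le_ord_iff P (u - c ^ 2) 1).2 (by rwa [pow_one])
      have e5 : ((u - c ^ 2 : 𝓞 k) : k) = (u : k) - (c : k) ^ 2 := by
        push_cast
        rfl
      rcases e4 with e4 | e4
      · exfalso
        apply h0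
        rw [← e5, e4]
        exact map_zero (algebraMap (𝓞 k) k)
      · rw [e5] at e4
        push_cast at e4
        omega
  · rw [h3 u c hcn hc]
    congr 1
    have e2 : ((Units.mk0 (c : k) hc0 * (ρ ^ 2)⁻¹ : kˣ) : k) = (c : k) * ((ρ : k)⁻¹) ^ 2 := by
      rw [Units.val_mul, Units.val_mk0, Units.val_inv_eq_inv_val, Units.val_pow_eq_pow_val,
        inv_pow]
    rw [e2, lbq_qr_sq P _ (inv_ne_zero hρ0)]

/-- the kernel vanishes if the element is not a local square -/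
theorem lbq_ker0 (hK : SlQK k) (hi : IsSquare (-1 : k)) (P : HeightOneSpectrum (𝓞 k))
    (h2 : ord P (2 : k) = 0) (e ρ : kˣ) (u : 𝓞 k) (he : ord P (e : k) = 0)
    (hρ : ord P (ρ : k) = 0) (hu : (u : k) = e * ρ ^ 4) (hq : qr (e : k) P ≠ 0) :
    qk P u = 0 := by
  obtain ⟨-, -, -, h4, -⟩ := hK hi P h2
  have hρ0 : (ρ : k) ≠ 0 := ρ.ne_zero
  have hu0 : (u : k) ≠ 0 := by
    rw [hu]
    exact mul_ne_zero e.ne_zero (pow_ne_zero 4 hρ0)
  have huo : ord P (u : k) = 0 := by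
    rw [hu, ord_mul P e.ne_zero (pow_ne_zero 4 hρ0), ord_pow, he, hρ]
    rfl
  have hun : u ∉ P.asIdeal := lbq_notMem P u hu0 huo
  apply h4
  rintro ⟨r, -, hr⟩
  apply hq
  have h5 := (qr_int h2 u hun).2 ⟨r, hr⟩
  rwa [hu, show (e : k) * ρ ^ 4 = e * (ρ ^ 2) ^ 2 by ring,
    lbq_qr_sq P _ (pow_ne_zero 2 hρ0)] at h5

/-- the kernel vanishes at the elements of the prime -/
theorem lbq_kerm (hK : SlQK k) (hi : IsSquare (-1 : k)) (P : HeightOneSpectrum (𝓞 k))
    (h2 : ord P (2 : k) = 0) (u : 𝓞 k) (hu : u ∈ P.asIdeal) : qk P u = 0 := by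
  obtain ⟨-, -, -, h4, -⟩ := hK hi P h2
  apply h4
  rintro ⟨r, hr, hr'⟩
  apply hr
  have e1 : r ^ 2 = u - (u - r ^ 2) := by ring
  have e2 : r ^ 2 ∈ P.asIdeal := by
    rw [e1]
    exact P.asIdeal.sub_mem hu hr'
  exact P.isPrime.mem_of_pow_mem 2 e2

/-- clearing denominators by a fourth power -/
theorem lbq_den (z : kˣ) : ∃ (d : 𝓞 k) (m : kˣ), (d : k) = z * m ^ 4 ∧
    ∀ P : HeightOneSpectrum (𝓞 k), ord P (z : k) = 0 → ord P (m : k) = 0 := by
  obtain ⟨m, hm, hm'⟩ := bd_den (B.ord_finite (z : k) z.ne_zero).toFinset z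
  have h0 : ∀ P : HeightOneSpectrum (𝓞 k), ord P (z : k) = 0 → ord P (m : k) = 0 := by
    intro P hP
    apply hm
    rw [Set.Finite.mem_toFinset]
    intro h
    exact h hP
  have hne : (z : k) * (m : k) ^ 4 ≠ 0 := mul_ne_zero z.ne_zero (pow_ne_zero 4 m.ne_zero)
  obtain ⟨d, hd⟩ := bd_int hne fun P => by
    rw [ord_mul P z.ne_zero (pow_ne_zero 4 m.ne_zero), ord_pow]
    by_cases hP : ord P (z : k) = 0
    · rw [hP, h0 P hP]
      norm_num
    · have h1 := hm' P (by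
        rw [Set.Finite.mem_toFinset]
        exact hP)
      push_cast
      linarith [h1.1, h1.2]
  exact ⟨d, m, hd, h0⟩

open Classical in
/-- the representative with one more prime -/
theorem lbq_rep (a : Fr.sys.T) (A : Finset Fr.sys.P) (y : Fr.sys.P) (hy : y ∉ A) :
    rep Fr (a, insert y A) = rep Fr (a, A) * Fr.pi y := by
  unfold rep
  show (∏ j, Fr.u j ^ (a j).val) * ∏ p ∈ insert y A, Fr.pi p =
    (∏ j, Fr.u j ^ (a j).val) * (∏ p ∈ A, Fr.pi p) * Fr.pi y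
  rw [Finset.prod_insert hy, mul_comm (Fr.pi y), mul_assoc]

/-- the lattice of the integers -/
theorem lbq_lat : ∃ (c : ℕ) (L : Lat (𝓞 k) (dg k) c), ∀ x i, L.e x i = (kco k).repr x i := by
  obtain ⟨C, hC, h1, h2, h3⟩ := szSt k
  have hs : ∀ (x : 𝓞 k) (R : ℕ), (∀ i, |(kco k).equivFun x i| ≤ (R : ℤ)) → sz x ≤ R := by
    intro x R h
    refine Finset.sup_le fun i _ => ?_
    have h4 := h i
    rw [Module.Basis.equivFun_apply, Int.abs_eq_natAbs] at h4
    exact_mod_cast h4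
  have hc : ∀ (x : 𝓞 k) i, |(kco k).equivFun x i| ≤ (sz x : ℤ) := by
    intro x i
    rw [Module.Basis.equivFun_apply, Int.abs_eq_natAbs]
    exact_mod_cast sz_coord x i
  refine ⟨C, ⟨(kco k).equivFun.toAddEquiv, fun x => (Algebra.norm ℤ x).natAbs, hC, ?_, ?_, ?_, ?_,
    ?_⟩, fun x i => rfl⟩
  · intro i
    refine (hc 1 i).trans ?_
    exact_mod_cast h1
  · intro x y R S hx hy i
    refine (hc (x * y) i).trans ?_
    have h5 := (h2 x y).trans (Nat.mul_le_mul (Nat.mul_le_mul_left C (hs x R hx)) (hs y S hy))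
    exact_mod_cast h5
  · intro x y
    rw [map_mul, Int.natAbs_mul]
  · intro x hx
    exact Nat.one_le_iff_ne_zero.2 (Int.natAbs_ne_zero.2 (Algebra.norm_ne_zero_iff.2 hx))
  · intro x R hx
    exact (h3 x).trans (Nat.mul_le_mul_left C (Nat.pow_le_pow_left (hs x R hx) _))

end

end Pool.Agent.D8
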