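import Pool.Agent.D8.LBQa
import Pool.Agent.D8.BCS

/-!
# The dihedral group of order 16 over a number field, row LQ6: the sums

The double sum over small representatives and the separation of the weights.
-/

set_option autoImplicit false

open scoped BigOperators
open NumberField IsDedekindDomain

namespace Pool.Agent.D8

open Pool.Agent.H98.MF
open Pool.Agent.H98.MK (sg)
open Pool.Agent.H32.MQ (El rep co h_repO h_repQ hb_two hb_notMem sz dg kco sz_coord)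
open Pool.Agent.H32.MA.AB (Lat cube bxA mem_bxA)

section

variable {k : Type} [Field k] [NumberField k] (Fr : Frm k) (Rk : RxF k)

theorem lbq_t2_zero {S : Sys} (c : Co S) (R : (V → Finset S.P) → ℝ) (u v : V)
    (w : V → Finset S.P) (x y : S.P) (h : ¬ Ad2 c u v w x y) : t2 c R u v w x y = 0 := by
  unfold t2
  exact if_neg h

/-- the values are bounded -/
theorem lbq_bd (hi : IsSquare (-1 : k)) (G : LDt k) (a b : Fr.sys.T)
    (w : V → Finset Fr.sys.P) (c1 : Fr.sys.P → ℝ) (hc1 : ∀ y, |c1 y| ≤ 1)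
    (hU : ∀ x y, Ad2 (mkc a b a) (1, 0) (0, 1) w x y →
      ∀ r : kˣ, IsRt (Fr.pl x) r (rep Fr (a, insert y (w (0, 1)))) →
      t2 (mkc a b a) (RR Fr Rk G a b a) (1, 0) (0, 1) w x y =
        c1 y * ((sg (qr (r : k) (Fr.pl x)) : ℤ) : ℝ))
    (hE : ∀ x y, Ad2 (mkc a b a) (1, 0) (0, 1) w x y → Fr.sys.ex (insert y (w (0, 1))) a x = 0)
    (x y : Fr.sys.P) : |t2 (mkc a b a) (RR Fr Rk G a b a) (1, 0) (0, 1) w x y| ≤ 1 := by
  classical
  have _ := hi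
  by_cases h : Ad2 (mkc a b a) (1, 0) (0, 1) w x y
  · obtain ⟨-, -, hxy, hxw, -, -⟩ := id h
    have hx : x ∉ insert y (w (0, 1)) := by
      rw [Finset.mem_insert, not_or]
      exact ⟨hxy, hxw (0, 1)⟩
    have ho : ord (Fr.pl x) (rep Fr (a, insert y (w (0, 1))) : k) = 0 := by
      rw [h_repO Fr (a, insert y (w (0, 1))) x, if_neg hx]
    have hq : qr (rep Fr (a, insert y (w (0, 1))) : k) (Fr.pl x) = 0 := by
      have h1 := h_repQ Fr (a, insert y (w (0, 1))) x hx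
      rw [h1]
      exact hE x y h
    obtain ⟨r, hr⟩ := lbq_root (Fr.pl x) _ ho hq
    rw [hU x y h r hr, abs_mul, abs_sgr, mul_one]
    exact hc1 y
  · rw [lbq_t2_zero _ _ _ _ _ _ _ h, abs_zero]
    exact zero_le_one

open Classical in
/-- the values as a kernel at a small representative -/
theorem lbq_form (hK : SlQK k) (hi : IsSquare (-1 : k)) (G : LDt k) (a b : Fr.sys.T)
    (w : V → Finset Fr.sys.P) (c1 : Fr.sys.P → ℝ)
    (hU : ∀ x y, Ad2 (mkc a b a) (1, 0) (0, 1) w x y →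
      ∀ r : kˣ, IsRt (Fr.pl x) r (rep Fr (a, insert y (w (0, 1)))) →
      t2 (mkc a b a) (RR Fr Rk G a b a) (1, 0) (0, 1) w x y =
        c1 y * ((sg (qr (r : k) (Fr.pl x)) : ℤ) : ℝ))
    (P Q : Fr.sys.P → Prop) (k2 : Fr.sys.P → ZMod 2)
    (hE : ∀ x y, Ad2 (mkc a b a) (1, 0) (0, 1) w x y ↔ P x ∧ Q y ∧ x ≠ y ∧
      Fr.sys.ex (insert y (w (0, 1))) a x = 0 ∧ Fr.sys.J y x = k2 y)
    (x y : Fr.sys.P) (t d : 𝓞 k) (φ v m : kˣ) (hv : v ∈ US Fr.S)
    (htp : ((Fr.pi y : kˣ) : k) = (t : k) * φ * v ^ 4)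
    (hd : (d : k) = (rep Fr (a, w (0, 1)) * φ : kˣ) * m ^ 4)
    (hm : ∀ R : HeightOneSpectrum (𝓞 k), ord R ((rep Fr (a, w (0, 1)) * φ : kˣ) : k) = 0 →
      ord R (m : k) = 0)
    (hx : x ∉ w (0, 1)) (hxφ : ord (Fr.pl x) (φ : k) = 0) :
    t2 (mkc a b a) (RR Fr Rk G a b a) (1, 0) (0, 1) w x y =
      (if P x then 1 else 0) * ((if Q y ∧ y ∉ w (0, 1) then 1 else 0) * c1 y) *
      ((1 + ((sg (Fr.sys.ex (w (0, 1)) a x) : ℤ) : ℝ) * ((sg (k2 y) : ℤ) : ℝ)) / 2) *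
      ((qk (Fr.pl x) (d * t) : ℤ) : ℝ) := by
  have hb0 : ord (Fr.pl x) (rep Fr (a, w (0, 1)) : k) = 0 := by
    rw [h_repO Fr (a, w (0, 1)) x, if_neg hx]
  have hbφ : ord (Fr.pl x) ((rep Fr (a, w (0, 1)) * φ : kˣ) : k) = 0 := by
    rw [Units.val_mul, ord_mul _ (Units.ne_zero _) (Units.ne_zero _), hb0, hxφ, add_zero]
  have hmx := hm (Fr.pl x) hbφ
  have hvx : ord (Fr.pl x) (v : k) = 0 :=
    Pool.Agent.H98.MF.B.mem_US.1 hv _ (hb_notMem Fr x)
  by_cases hy : y ∈ w (0, 1)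
  · rw [lbq_t2_zero, if_neg (fun h : Q y ∧ y ∉ w (0, 1) => h.2 hy)]
    · ring
    · rintro ⟨-, -, -, -, h, -⟩
      exact h (0, 1) hy
  by_cases hxy : x = y
  · subst hxy
    have ht0 : (t : k) ≠ 0 := by
      intro h
      rw [h, zero_mul, zero_mul] at htp
      exact (Units.ne_zero _) htp
    have hto : ord (Fr.pl x) (t : k) = 1 := by
      have h1 := congrArg (ord (Fr.pl x)) htp
      rw [Fr.pi_self, ord_mul _ (mul_ne_zero ht0 φ.ne_zero) (pow_ne_zero 4 v.ne_zero),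
        ord_mul _ ht0 φ.ne_zero, ord_pow, hxφ, hvx] at h1
      push_cast at h1
      omega
    have htm : t ∈ (Fr.pl x).asIdeal := by
      have h2 := (le_ord_iff (Fr.pl x) t 1).1 (Or.inr (by rw [hto]; norm_num))
      rwa [pow_one] at h2
    rw [lbq_t2_zero, lbq_kerm hK hi (Fr.pl x) (hb_two Fr x) (d * t)
      ((Fr.pl x).asIdeal.mul_mem_left d htm)]
    · push_cast
      ring
    · rintro ⟨-, -, h, -⟩
      exact h rfl
  -- the main case
  have hxi : x ∉ insert y (w (0, 1)) := by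
    rw [Finset.mem_insert, not_or]
    exact ⟨hxy, hx⟩
  have he : ord (Fr.pl x) (rep Fr (a, insert y (w (0, 1))) : k) = 0 := by
    rw [h_repO Fr (a, insert y (w (0, 1))) x, if_neg hxi]
  have hρ : ord (Fr.pl x) ((m * v⁻¹ : kˣ) : k) = 0 := by
    rw [Units.val_mul, ord_mul _ (Units.ne_zero _) (Units.ne_zero _), hmx,
      Units.val_inv_eq_inv_val, ord_inv, hvx]
    rfl
  have hu : ((d * t : 𝓞 k) : k) = (rep Fr (a, insert y (w (0, 1))) : kˣ) *
      ((m * v⁻¹ : kˣ) : k) ^ 4 := by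
    have h1 : ((d * t : 𝓞 k) : k) = (d : k) * t := by
      push_cast
      rfl
    rw [h1, hd, lbq_rep Fr a _ y hy, Units.val_mul, Units.val_mul, Units.val_mul, htp,
      Units.val_inv_eq_inv_val]
    have hv0 : (v : k) ≠ 0 := v.ne_zero
    field_simp
  have hqe : qr (rep Fr (a, insert y (w (0, 1))) : k) (Fr.pl x) =
      Fr.sys.ex (insert y (w (0, 1))) a x := h_repQ Fr (a, insert y (w (0, 1))) x hxi
  by_cases hex : Fr.sys.ex (insert y (w (0, 1))) a x = 0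
  · rw [hex] at hqe
    obtain ⟨r, hr, hrq⟩ := lbq_ker hK hi (Fr.pl x) (hb_two Fr x) _ _ (d * t) he hρ hu hqe
    have hJ : Fr.sys.J y x = Fr.sys.ex (w (0, 1)) a x := by
      have h1 : Fr.sys.ex (insert y (w (0, 1))) a x =
          Fr.sys.J y x + Fr.sys.ex (w (0, 1)) a x := by
        unfold Sys.ex
        rw [Finset.sum_insert hy, add_assoc]
      rw [h1] at hex
      have h2 : ∀ p q : ZMod 2, p + q = 0 → p = q := by decide
      exact h2 _ _ hex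
    have hsg : ∀ p : ZMod 2, ((sg p : ℤ) : ℝ) * ((sg p : ℤ) : ℝ) = 1 := by
      intro p
      have h1 : ∀ p : ZMod 2, sg p * sg p = 1 := by decide
      have h2 := h1 p
      exact_mod_cast h2
    have hsg' : ∀ p q : ZMod 2, p ≠ q → ((sg p : ℤ) : ℝ) * ((sg q : ℤ) : ℝ) = -1 := by
      intro p q hpq
      have h1 : ∀ p q : ZMod 2, p ≠ q → sg p * sg q = -1 := by decide
      have h2 := h1 p q hpq
      exact_mod_cast h2
    by_cases hP : P x
    · by_cases hQ : Q y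
      · by_cases hk : Fr.sys.J y x = k2 y
        · have hA := (hE x y).2 ⟨hP, hQ, hxy, hex, hk⟩
          rw [hU x y hA r hr, if_pos hP, if_pos ⟨hQ, hy⟩, hrq, ← hk, hJ, hsg]
          ring
        · rw [lbq_t2_zero, if_pos hP, if_pos ⟨hQ, hy⟩]
          · rw [hJ] at hk
            rw [hsg' _ _ hk]
            ring
          · intro h
            exact hk ((hE x y).1 h).2.2.2.2
      · rw [lbq_t2_zero, if_neg (fun h : Q y ∧ y ∉ w (0, 1) => hQ h.1)]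
        · ring
        · intro h
          exact hQ ((hE x y).1 h).2.1
    · rw [lbq_t2_zero, if_neg hP]
      · ring
      · intro h
        exact hP ((hE x y).1 h).1
  · rw [lbq_t2_zero, lbq_ker0 hK hi (Fr.pl x) (hb_two Fr x) _ _ (d * t) he hρ hu
      (by rw [hqe]; exact hex)]
    · push_cast
      ring
    · intro h
      exact hex ((hE x y).1 h).2.2.2.1

open Classical in
/-- the double sum for one class of representatives -/
theorem lbq_one (hK : SlQK k) (hO : SlQO Fr) (hi : IsSquare (-1 : k)) {c : ℕ}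
    (L : Lat (𝓞 k) (dg k) c) (hLe : ∀ x i, L.e x i = (kco k).repr x i) (hn : 1 ≤ dg k) (C : ℝ)
    (hC : 0 < C)
    (HL : ∀ (ι : Type) (I : Finset ι) (K : ι → 𝓞 k → ℤ) (q : ι → ℕ) (E : ℝ), 1 ≤ E →
      (∀ i ∈ I, 1 ≤ q i ∧ (q i : ℝ) ≤ E) → (∀ i ∈ I, ∀ x, |K i x| ≤ 1) →
      (∀ i ∈ I, ∀ j ∈ I, i ≠ j → ∀ u, ∑ x ∈ cube L u (q i * q j), K i x * K j x = 0) →
      ∀ (R : ℕ) (α : ι → ℝ) (β : 𝓞 k → ℝ), 1 ≤ R → (∀ i, |α i| ≤ 1) → (∀ x, |β x| ≤ 1) →
        |∑ i ∈ I, ∑ x ∈ bxA L R, α i * β x * K i x| ≤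
          C * ((I.card : ℝ) ^ (1 / 2 : ℝ) * (R : ℝ) ^ (dg k) +
            (I.card : ℝ) * E * (R : ℝ) ^ (((dg k : ℕ) : ℝ) - 1 / 2)))
    (C2 : ℝ) (hC2 : 1 ≤ C2) (hcard : ∀ X : ℝ, 1 ≤ X → ((Fr.sys.pr X).card : ℝ) ≤ C2 * X)
    (X Y : ℝ) (hX : 1 ≤ X) (hY : 1 ≤ Y) (I J : Finset Fr.sys.P) (hI : I ⊆ Fr.sys.pr X)
    (hJ : J ⊆ Fr.sys.pr Y) (d : 𝓞 k) (hd : ∀ x ∈ I, d ∉ (Fr.pl x).asIdeal)
    (t : Fr.sys.P → 𝓞 k) (ht : Set.InjOn t J)
    (hts : ∀ y, sz (t y) ^ dg k ≤ nrm (Fr.pl y)) (a' b' : Fr.sys.P → ℝ)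
    (ha' : ∀ x, |a' x| ≤ 1) (hb' : ∀ y, |b' y| ≤ 1) :
    |∑ x ∈ I, ∑ y ∈ J, a' x * b' y * ((qk (Fr.pl x) (d * t y) : ℤ) : ℝ)| ≤
      C * C2 * (X * Y) * (X ^ (-(1 / 2) : ℝ) + X * Y ^ (-(1 / (2 * (dg k : ℝ))))) := by
  have hn0 : (0 : ℝ) < (dg k : ℝ) := by exact_mod_cast hn
  have hY0 : 0 < Y := by linarith
  have hX0 : 0 < X := by linarith
  set R : ℕ := ⌊Y ^ (1 / (dg k : ℝ))⌋₊ with hR
  have hYn : 1 ≤ Y ^ (1 / (dg k : ℝ)) := Real.one_le_rpow hY (by positivity)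
  have hR1 : 1 ≤ R := Nat.le_floor (by rw [Nat.cast_one]; exact hYn)
  have hRle : (R : ℝ) ≤ Y ^ (1 / (dg k : ℝ)) := Nat.floor_le (by linarith)
  have hR0 : (0 : ℝ) ≤ R := Nat.cast_nonneg _
  have hRn : (R : ℝ) ^ (dg k) ≤ Y := by
    calc (R : ℝ) ^ (dg k) ≤ (Y ^ (1 / (dg k : ℝ))) ^ (dg k) := pow_le_pow_left₀ hR0 hRle _
      _ = Y := by
        rw [← Real.rpow_natCast, ← Real.rpow_mul hY0.le, one_div_mul_cancel hn0.ne',
          Real.rpow_one]
  have hRn2 : (R : ℝ) ^ (((dg k : ℕ) : ℝ) - 1 / 2) ≤ Y * Y ^ (-(1 / (2 * (dg k : ℝ)))) := by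
    have hexp : (0 : ℝ) ≤ ((dg k : ℕ) : ℝ) - 1 / 2 := by
      have : (1 : ℝ) ≤ (dg k : ℝ) := by exact_mod_cast hn
      linarith
    calc (R : ℝ) ^ (((dg k : ℕ) : ℝ) - 1 / 2)
        ≤ (Y ^ (1 / (dg k : ℝ))) ^ (((dg k : ℕ) : ℝ) - 1 / 2) :=
          Real.rpow_le_rpow hR0 hRle hexp
      _ = Y ^ (1 + -(1 / (2 * (dg k : ℝ)))) := by
          rw [← Real.rpow_mul hY0.le]
          congr 1
          field_simp
          ring
      _ = Y * Y ^ (-(1 / (2 * (dg k : ℝ)))) := by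
          rw [Real.rpow_add hY0, Real.rpow_one]
  -- small representatives are in the box
  have hbox : ∀ y ∈ J, t y ∈ bxA L R := by
    intro y hy
    rw [mem_bxA]
    intro i
    have h1 : (sz (t y) : ℝ) ≤ Y ^ (1 / (dg k : ℝ)) := by
      have h2 : ((sz (t y) : ℝ)) ^ (dg k) ≤ Y := by
        have h3 := hts y
        rw [← Fr.N_eq] at h3
        have h4 := (Fr.sys.mem_pr hY0.le).1 (hJ hy)
        refine le_trans ?_ h4
        exact_mod_cast h3
      calc (sz (t y) : ℝ) = ((sz (t y) : ℝ) ^ (dg k)) ^ (1 / (dg k : ℝ)) := by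
            rw [← Real.rpow_natCast, ← Real.rpow_mul (Nat.cast_nonneg _),
              mul_one_div_cancel hn0.ne', Real.rpow_one]
        _ ≤ _ := Real.rpow_le_rpow (by positivity) h2 (by positivity)
    have h5 : sz (t y) ≤ R := Nat.le_floor h1
    rw [hLe, Int.abs_eq_natAbs]
    exact_mod_cast (sz_coord (t y) i).trans h5
  set β : 𝓞 k → ℝ := fun z => ∑ y ∈ J, if t y = z then b' y else 0 with hβ
  have hβ1 : ∀ z, |β z| ≤ 1 := by
    intro z
    simp only [hβ]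
    by_cases h : ∃ y ∈ J, t y = z
    · obtain ⟨y0, hy0, hyz⟩ := h
      rw [Finset.sum_eq_single y0]
      · rw [if_pos hyz]
        exact hb' y0
      · intro y hy hne
        rw [if_neg]
        intro h
        exact hne (ht (Finset.mem_coe.2 hy) (Finset.mem_coe.2 hy0) (h.trans hyz.symm))
      · intro h
        exact absurd hy0 h
    · rw [Finset.sum_eq_zero]
      · rw [abs_zero]
        exact zero_le_one
      · intro y hy
        rw [if_neg fun h1 => h ⟨y, hy, h1⟩]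
  have hsum : ∀ x, ∑ z ∈ bxA L R, a' x * β z * ((qk (Fr.pl x) (d * z) : ℤ) : ℝ) =
      ∑ y ∈ J, a' x * b' y * ((qk (Fr.pl x) (d * t y) : ℤ) : ℝ) := by
    intro x
    have h1 : ∀ z ∈ bxA L R, a' x * β z * ((qk (Fr.pl x) (d * z) : ℤ) : ℝ) =
        ∑ y ∈ J, if t y = z then a' x * b' y * ((qk (Fr.pl x) (d * t y) : ℤ) : ℝ) else 0 := by
      intro z _
      simp only [hβ]
      rw [Finset.mul_sum, Finset.sum_mul]
      refine Finset.sum_congr rfl fun y _ => ?_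
      split_ifs with h
      · rw [h]
      · ring
    rw [Finset.sum_congr rfl h1, Finset.sum_comm]
    refine Finset.sum_congr rfl fun y hy => ?_
    rw [Finset.sum_ite_eq, if_pos (hbox y hy)]
  have hN1 : ∀ x, 1 ≤ nrm (Fr.pl x) := fun x => by
    rw [← Fr.N_eq]
    exact Fr.sys.one_le_N x
  have hmain := HL Fr.sys.P I (fun x z => qk (Fr.pl x) (d * z)) (fun x => nrm (Fr.pl x)) X hX
    (fun x hx => ⟨hN1 x, by
      rw [← Fr.N_eq]
      exact (Fr.sys.mem_pr hX0.le).1 (hI hx)⟩)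
    (fun x _ z => (hK hi (Fr.pl x) (hb_two Fr x)).1 _)
    (fun x hx y hy hxy u => hO hi c L x y hxy d d (hd x hx) (hd y hy) u)
    R a' β hR1 ha' hβ1
  rw [Finset.sum_congr rfl fun x _ => hsum x] at hmain
  refine hmain.trans ?_
  have hIc : (I.card : ℝ) ≤ C2 * X :=
    le_trans (by exact_mod_cast Finset.card_le_card hI) (hcard X hX)
  have hI2 : (I.card : ℝ) ^ (1 / 2 : ℝ) ≤ C2 * (X * X ^ (-(1 / 2) : ℝ)) := by
    have h1 : (I.card : ℝ) ^ (1 / 2 : ℝ) ≤ (C2 * X) ^ (1 / 2 : ℝ) :=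
      Real.rpow_le_rpow (Nat.cast_nonneg _) hIc (by norm_num)
    have h2 : (C2 * X) ^ (1 / 2 : ℝ) = C2 ^ (1 / 2 : ℝ) * X ^ (1 / 2 : ℝ) :=
      Real.mul_rpow (by linarith) hX0.le
    have h3 : C2 ^ (1 / 2 : ℝ) ≤ C2 := by
      have := Real.rpow_le_rpow_of_exponent_le hC2 (show (1 / 2 : ℝ) ≤ 1 by norm_num)
      rwa [Real.rpow_one] at this
    have h4 : X * X ^ (-(1 / 2) : ℝ) = X ^ (1 / 2 : ℝ) := by
      have := Real.rpow_add hX0 1 (-(1 / 2))
      rw [Real.rpow_one] at this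
      rw [← this]
      norm_num
    rw [h4]
    rw [h2] at h1
    exact h1.trans (mul_le_mul_of_nonneg_right h3 (Real.rpow_nonneg hX0.le _))
  have hXp : 0 ≤ X ^ (-(1 / 2) : ℝ) := Real.rpow_nonneg hX0.le _
  have hYp : 0 ≤ Y ^ (-(1 / (2 * (dg k : ℝ)))) := Real.rpow_nonneg hY0.le _
  calc C * ((I.card : ℝ) ^ (1 / 2 : ℝ) * (R : ℝ) ^ (dg k) +
        (I.card : ℝ) * X * (R : ℝ) ^ (((dg k : ℕ) : ℝ) - 1 / 2))
      ≤ C * (C2 * (X * X ^ (-(1 / 2) : ℝ)) * Y +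
        (C2 * X) * X * (Y * Y ^ (-(1 / (2 * (dg k : ℝ)))))) := by
        refine mul_le_mul_of_nonneg_left (add_le_add ?_ ?_) hC.le
        · exact mul_le_mul hI2 hRn (by positivity) (by positivity)
        · exact mul_le_mul (mul_le_mul_of_nonneg_right hIc hX0.le) hRn2
            (Real.rpow_nonneg hR0 _) (by positivity)
    _ = _ := by ring

end

end Pool.Agent.D8
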