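import Pool.Agent.D8.LBTa

/-!
# The dihedral group of order 16 over a number field: the bilinear estimate for two values
(row LT2)
-/

set_option autoImplicit false

open scoped BigOperators
open NumberField IsDedekindDomain

namespace Pool.Agent.D8

open Pool.Agent.H98.MF
open Pool.Agent.H98.MK (sg)
open Pool.Agent.H32.MQ (El rep co HX Qof BFMain Qd)

section aux

theorem lbt_cases (t : ZMod 2) : t = 0 ∨ t = 1 := by
  revert t
  decide

theorem lbt_sg_abs (t : ZMod 2) : |((sg t : ℤ) : ℝ)| = 1 := by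
  rcases lbt_cases t with h | h
  · rw [h, sg_zero]
    norm_num
  · rw [h, sg_one]
    norm_num

theorem lbt_ok {S : Sys} (a b v : S.T) : (mkc a b v).Ok ∅ := by
  refine ⟨fun i => ?_, fun j => ?_, ?_⟩
  · unfold mkc
    dsimp only
    split_ifs
    · exact Finset.Subset.refl _
    · exact Finset.Subset.refl _
  · unfold mkc
    dsimp only
    split_ifs
    · exact Finset.Subset.refl _
    · exact Finset.Subset.refl _
  · unfold mkc ad
    dsimp only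
    rw [if_pos rfl, if_neg one_ne_zero, if_pos rfl, if_neg one_ne_zero]
    refine Prod.ext ?_ ?_
    · funext i
      show a i + b i + (S.l i + a i + b i + v i + v i) = S.l i
      have h : ∀ p q r t : ZMod 2, p + q + (r + p + q + t + t) = r := by decide
      exact h _ _ _ _
    · simp

theorem lbt_t3 {S : Sys} (c : Co S) (R : (V → Finset S.P) → ℝ) (w : V → Finset S.P)
    (x y z : S.P) (h : ¬ Ad3 c w x y z) : t3 c R w x y z = 0 := by
  unfold t3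
  exact if_neg h

/-- the sum of four terms -/
theorem lbt_four {ι κ : Type} (s : Finset ι) (t : Finset κ) (F F1 F2 F3 F4 : ι → κ → ℝ) (D : ℝ)
    (hF : ∀ y ∈ s, ∀ z ∈ t, F y z = (1 / 4) * (F1 y z + F2 y z + F3 y z + F4 y z))
    (h1 : |∑ y ∈ s, ∑ z ∈ t, F1 y z| ≤ D) (h2 : |∑ y ∈ s, ∑ z ∈ t, F2 y z| ≤ D)
    (h3 : |∑ y ∈ s, ∑ z ∈ t, F3 y z| ≤ D) (h4 : |∑ y ∈ s, ∑ z ∈ t, F4 y z| ≤ D) :
    |∑ y ∈ s, ∑ z ∈ t, F y z| ≤ D := by
  have e : ∑ y ∈ s, ∑ z ∈ t, F y z = (1 / 4) * (∑ y ∈ s, ∑ z ∈ t, F1 y z +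
      ∑ y ∈ s, ∑ z ∈ t, F2 y z + ∑ y ∈ s, ∑ z ∈ t, F3 y z + ∑ y ∈ s, ∑ z ∈ t, F4 y z) := by
    rw [← Finset.sum_add_distrib, ← Finset.sum_add_distrib, ← Finset.sum_add_distrib,
      Finset.mul_sum]
    refine Finset.sum_congr rfl fun y hy => ?_
    rw [← Finset.sum_add_distrib, ← Finset.sum_add_distrib, ← Finset.sum_add_distrib,
      Finset.mul_sum]
    exact Finset.sum_congr rfl fun z hz => hF y hy z hz
  rw [e]
  rw [abs_le] at *
  constructor <;> linarith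

end aux

section

variable {k : Type} [Field k] [NumberField k] (Fr : Frm k) (Rk : RxF k)

/-- LT2: the bilinear estimate for two values -/
theorem lBT (hT : SlTR Fr Rk) (hB : BFMain Fr) (hs : SlSep) : SlBT Fr Rk := by
  classical
  intro G hG hG1 a b v
  obtain ⟨C, A, η, hC, hA, hη, hBF⟩ := hB
  refine ⟨C, A, η, hA, hη, ?_⟩
  intro w x x' hxx β γ hβ hγ Y Z hY hZ
  obtain ⟨L, i1, i2, i3, X, hXM, hXa⟩ := lbt_ext Fr x x'
  have hpos : 0 ≤ C * ((Fr.sys.N x : ℝ) * Fr.sys.N x') ^ A * (Y * Z) * min Y Z ^ (-η) := by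
    have h1 : 0 ≤ min Y Z := le_min (by linarith) (by linarith)
    have h2 : 0 ≤ Y * Z := mul_nonneg (by linarith) (by linarith)
    exact mul_nonneg (mul_nonneg (mul_nonneg hC.le (Real.rpow_nonneg (by positivity) _)) h2)
      (Real.rpow_nonneg h1 _)
  obtain ⟨c, hc⟩ : ∃ c, c = mkc a b v := ⟨_, rfl⟩
  obtain ⟨R, hR⟩ : ∃ R, R = RR Fr Rk G a b v := ⟨_, rfl⟩
  have hcok : c.Ok ∅ := hc ▸ lbt_ok a b v
  have hT' := hT L X x x' hxx hXM hXa G hG hG1 a b v w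
  rw [← hc, ← hR] at hT' ⊢
  rcases hT' with h0 | ⟨pr, h, γg, γ', c1, hc1, hgd, hsid, hval⟩
  · have h1 : ∑ y ∈ Fr.sys.pr Y, ∑ z ∈ Fr.sys.pr Z,
        β y * γ z * (t3 c R w x y z * t3 c R w x' y z) = 0 :=
      Finset.sum_eq_zero fun y _ => Finset.sum_eq_zero fun z _ => by rw [h0, mul_zero]
    rw [h1, abs_zero]
    exact hpos
  obtain ⟨Bo, hBo⟩ : ∃ Bo : Fr.sys.P → Fr.sys.P → Prop,
      ∀ y z, Bo y z ↔ Ad3 c w x y z ∧ Ad3 c w x' y z := ⟨_, fun _ _ => Iff.rfl⟩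
  have ht0 : ∀ y z, ¬ Bo y z → t3 c R w x y z * t3 c R w x' y z = 0 := by
    intro y z hyz
    rw [hBo, not_and_or] at hyz
    rcases hyz with h1 | h1
    · rw [lbt_t3 c R w x y z h1, zero_mul]
    · rw [lbt_t3 c R w x' y z h1, mul_zero]
  by_cases hne : ∃ y z, Bo y z
  swap
  · have h1 : ∑ y ∈ Fr.sys.pr Y, ∑ z ∈ Fr.sys.pr Z,
        β y * γ z * (t3 c R w x y z * t3 c R w x' y z) = 0 :=
      Finset.sum_eq_zero fun y _ => Finset.sum_eq_zero fun z _ => by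
        rw [ht0 y z fun h => hne ⟨y, z, h⟩, mul_zero]
    rw [h1, abs_zero]
    exact hpos
  obtain ⟨P0⟩ : Nonempty X.PX := by
    obtain ⟨y, z, hyz⟩ := hne
    rw [hBo] at hyz
    obtain ⟨Py, _⟩ := hval y z hyz.1 hyz.2
    exact ⟨Py⟩
  obtain ⟨ρ, hρ⟩ : ∃ ρ : Fr.sys.P → X.PX, ∀ y, ρ y = (pr y).getD P0 := ⟨_, fun _ => rfl⟩
  obtain ⟨Ay, hAy⟩ : ∃ Ay : Fr.sys.P → Prop, ∀ y, Ay y ↔ ∃ z, Bo y z := ⟨_, fun _ => Iff.rfl⟩
  obtain ⟨Bz, hBz⟩ : ∃ Bz : Fr.sys.P → Prop, ∀ z, Bz z ↔ ∃ y, Bo y z := ⟨_, fun _ => Iff.rfl⟩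
  -- the facts on good pairs
  have hv : ∀ y z, Bo y z → X.shX (ρ y) = y ∧ X.shX (ρ z) = z ∧
      γg y ∈ (Qof X).B (insert (X.cjX (ρ y)) h) ∧
      t3 c R w x y z * t3 c R w x' y z = c1 y * ((sg ((Qof X).sy (γg y) (ρ z)) : ℤ) : ℝ) := by
    intro y z hyz
    rw [hBo] at hyz
    obtain ⟨Py, Pz, h1, h2, h3, h4, h5, _, _, h8⟩ := hval y z hyz.1 hyz.2
    have e1 : ρ y = Py := by rw [hρ, h1, Option.getD_some]
    have e2 : ρ z = Pz := by rw [hρ, h2, Option.getD_some]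
    rw [e1, e2]
    exact ⟨h3, h4, h5, h8⟩
  have hnew : ∀ y, New y w → ∀ b' ∈ h, X.shX b' ≠ y := by
    intro y hy b' hb' h1
    have h2 := hsid b' hb'
    rw [h1] at h2
    unfold sid at h2
    rcases Finset.mem_union.1 h2 with h3 | h3
    · exact hy _ h3
    · exact hy _ h3
  have hyh : ∀ y, Ay y → ∀ b' ∈ h, X.shX b' ≠ y := by
    intro y hy
    obtain ⟨z, hz⟩ := (hAy y).1 hy
    rw [hBo] at hz
    obtain ⟨_, _, _, _, _, _, _, h8, _⟩ := hz.1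
    exact hnew y h8
  have hzh : ∀ z, Bz z → ∀ b' ∈ h, X.shX b' ≠ z := by
    intro z hz
    obtain ⟨y, hy⟩ := (hBz z).1 hz
    rw [hBo] at hy
    obtain ⟨_, _, _, _, _, _, _, _, h9, _⟩ := hy.1
    exact hnew z h9
  have hsh1 : ∀ y, Ay y → X.shX (ρ y) = y := fun y hy => by
    obtain ⟨z, hz⟩ := (hAy y).1 hy
    exact (hv y z hz).1
  have hsh2 : ∀ z, Bz z → X.shX (ρ z) = z := fun z hz => by
    obtain ⟨y, hy⟩ := (hBz z).1 hz
    exact (hv y z hy).2.1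
  have hmem : ∀ y, Ay y → γg y ∈ (Qof X).B (insert (X.cjX (ρ y)) h) := fun y hy => by
    obtain ⟨z, hz⟩ := (hAy y).1 hy
    exact (hv y z hz).2.2.1
  have hg2 : ∀ y, ∃ γ2 : HX.GX L, Ay y → γ2 ∈ (Qof X).B (insert (ρ y) h) ∧
      ∀ z, Bz z → y ≠ z → (Qof X).sy γ2 (ρ z) = (Qof X).sy (γg y) (ρ z) + Fr.sys.J y z := by
    intro y
    by_cases hy : Ay y
    · obtain ⟨γ2, h1, h2⟩ := lbt_gam X h (ρ y) (γg y) (hmem y hy) (by
        rw [hsh1 y hy]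
        exact hyh y hy)
      refine ⟨γ2, fun _ => ⟨h1, fun z hz hyz => ?_⟩⟩
      have h3 := h2 (ρ z) (by
        rw [hsh1 y hy, hsh2 z hz]
        exact fun h => hyz h.symm) (by
        rw [hsh2 z hz]
        exact hzh z hz)
      rw [hsh1 y hy, hsh2 z hz] at h3
      exact h3
    · exact ⟨γg y, fun h => absurd h hy⟩
  choose γ2 hγ2 using hg2
  obtain ⟨P, Q, k2, k3, hS⟩ := hs Fr.sys c w x hcok
  obtain ⟨P', Q', k2', k3', hS'⟩ := hs Fr.sys c w x' hcok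
  have hboth : ∀ y z, Ay y → Bz z → y ≠ z → (Bo y z ↔
      (Fr.sys.J y z = k2 y ∧ Fr.sys.J y z = k3 z)) := by
    intro y z hy hz hyz
    constructor
    · intro h1
      rw [hBo] at h1
      exact ((hS y z).1 h1.1).2.2.2
    · rintro ⟨h1, h2⟩
      obtain ⟨z1, hz1⟩ := (hAy y).1 hy
      obtain ⟨y1, hy1⟩ := (hBz z).1 hz
      rw [hBo] at hz1 hy1
      obtain ⟨p1, _, _, p4, _⟩ := (hS y z1).1 hz1.1
      obtain ⟨p1', _, _, p4', _⟩ := (hS' y z1).1 hz1.2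
      obtain ⟨_, q2, _, _, q5⟩ := (hS y1 z).1 hy1.1
      obtain ⟨_, q2', _, _, q5'⟩ := (hS' y1 z).1 hy1.2
      rw [hBo]
      refine ⟨(hS y z).2 ⟨p1, q2, hyz, h1, h2⟩, (hS' y z).2 ⟨p1', q2', hyz, ?_, ?_⟩⟩
      · rw [h1, ← p4, p4']
      · rw [h2, ← q5, q5']
  -- restriction to good primes
  have hres : ∑ y ∈ Fr.sys.pr Y, ∑ z ∈ Fr.sys.pr Z,
      β y * γ z * (t3 c R w x y z * t3 c R w x' y z) =
      ∑ y ∈ (Fr.sys.pr Y).filter Ay, ∑ z ∈ (Fr.sys.pr Z).filter Bz,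
        β y * γ z * (t3 c R w x y z * t3 c R w x' y z) := by
    rw [← Finset.sum_filter_of_ne (p := Ay)]
    · refine Finset.sum_congr rfl fun y _ => ?_
      rw [← Finset.sum_filter_of_ne (p := Bz)]
      intro z _ hz
      by_contra h1
      apply hz
      rw [ht0 y z fun h2 => h1 ((hBz z).2 ⟨y, h2⟩), mul_zero]
    · intro y _ hy
      by_contra h1
      apply hy
      refine Finset.sum_eq_zero fun z _ => ?_
      rw [ht0 y z fun h2 => h1 ((hAy y).2 ⟨z, h2⟩), mul_zero]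
  rw [hres]
  have hM : ((Fr.sys.nm (Qof X).M : ℕ) : ℝ) = (Fr.sys.N x : ℝ) * Fr.sys.N x' := by
    have h1 : (Qof X).M = {x, x'} := hXM
    rw [h1]
    unfold Pre.nm
    rw [Finset.prod_pair hxx, Nat.cast_mul]
  have habs : ∀ p q : ℝ, |p| ≤ 1 → |q| ≤ 1 → |p * q| ≤ 1 := by
    intro p q hp hq
    rw [abs_mul]
    exact mul_le_one₀ hp (abs_nonneg _) hq
  have hsgl : ∀ t : ZMod 2, |((sg t : ℤ) : ℝ)| ≤ 1 := fun t => (lbt_sg_abs t).le
  have hshd1 : ∀ y, (∀ b' ∈ h, X.shX b' ≠ y) → y ∉ (Qof X).shd h := by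
    intro y hy h1
    obtain ⟨b', hb', h2⟩ := Finset.mem_image.1 h1
    exact hy b' hb' h2
  have T := fun (σy : Fr.sys.P → X.PX) (hσy : ∀ y, Ay y → X.shX (σy y) = y)
      (γf : Fr.sys.P → HX.GX L) (hγf : ∀ y, Ay y → γf y ∈ (Qof X).B (insert (σy y) h))
      (u u' : Fr.sys.P → ℝ) (hu : ∀ y, |u y| ≤ 1) (hu' : ∀ y, |u' y| ≤ 1) =>
    lbt_pts (Qof X) (hBF L X) h hgd Ay Bz σy ρ γf hσy hsh2 hγf
      (fun y hy => hshd1 y (hyh y hy)) (fun z hz => hshd1 z (hzh z hz)) u u' hu hu' Y Z hY hZ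
  rw [hM] at T
  have hcjsh : ∀ y, Ay y → X.shX (X.cjX (ρ y)) = y := fun y hy => by
    have h1 : X.shX (X.cjX (ρ y)) = X.shX (ρ y) := (Qof X).sh_cj (ρ y)
    rw [h1]
    exact hsh1 y hy
  refine lbt_four _ _ _ _ _ _ _ _ ?_
    (T (fun y => X.cjX (ρ y)) hcjsh γg hmem (fun y => β y * c1 y) γ
      (fun y => habs _ _ (hβ y) (hc1 y)) hγ)
    (T (fun y => X.cjX (ρ y)) hcjsh γg hmem (fun y => β y * c1 y * ((sg (k2 y) : ℤ) : ℝ))
      (fun z => γ z * ((sg (k3 z) : ℤ) : ℝ))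
      (fun y => habs _ _ (habs _ _ (hβ y) (hc1 y)) (hsgl _)) (fun z => habs _ _ (hγ z) (hsgl _)))
    (T ρ hsh1 γ2 (fun y hy => (hγ2 y hy).1) (fun y => β y * c1 y * ((sg (k2 y) : ℤ) : ℝ)) γ
      (fun y => habs _ _ (habs _ _ (hβ y) (hc1 y)) (hsgl _)) hγ)
    (T ρ hsh1 γ2 (fun y hy => (hγ2 y hy).1) (fun y => β y * c1 y)
      (fun z => γ z * ((sg (k3 z) : ℤ) : ℝ))
      (fun y => habs _ _ (hβ y) (hc1 y)) (fun z => habs _ _ (hγ z) (hsgl _)))
  intro y hy z hz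
  have hy' := (Finset.mem_filter.1 hy).2
  have hz' := (Finset.mem_filter.1 hz).2
  by_cases hyz : y = z
  · have h1 : ¬ Bo y z := by
      rw [hBo]
      rintro ⟨⟨_, _, _, _, _, h6, _⟩, _⟩
      exact h6 hyz
    rw [ht0 y z h1]
    simp only [hyz, ne_eq, not_true_eq_false, if_false]
    ring
  · simp only [ne_eq, hyz, not_false_eq_true, if_true]
    rw [(hγ2 y hy').2 z hz' hyz, sg_add, Int.cast_mul]
    have hb := hboth y z hy' hz' hyz
    rcases lbt_cases (Fr.sys.J y z) with h1 | h1 <;> rcases lbt_cases (k2 y) with h2 | h2 <;>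
      rcases lbt_cases (k3 z) with h3 | h3 <;> rw [h1, h2, h3] at hb <;> rw [h1, h2, h3]
    · rw [(hv y z (hb.2 ⟨rfl, rfl⟩)).2.2.2, sg_zero]
      push_cast
      ring
    · rw [ht0 y z (fun h4 => absurd (hb.1 h4).2 (by decide)), sg_zero, sg_one]
      push_cast
      ring
    · rw [ht0 y z (fun h4 => absurd (hb.1 h4).1 (by decide)), sg_zero, sg_one]
      push_cast
      ring
    · rw [ht0 y z (fun h4 => absurd (hb.1 h4).1 (by decide)), sg_zero, sg_one]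
      push_cast
      ring
    · rw [ht0 y z (fun h4 => absurd (hb.1 h4).1 (by decide)), sg_zero, sg_one]
      push_cast
      ring
    · rw [ht0 y z (fun h4 => absurd (hb.1 h4).1 (by decide)), sg_zero, sg_one]
      push_cast
      ring
    · rw [ht0 y z (fun h4 => absurd (hb.1 h4).2 (by decide)), sg_zero, sg_one]
      push_cast
      ring
    · rw [(hv y z (hb.2 ⟨rfl, rfl⟩)).2.2.2, sg_one]
      push_cast
      ring

end

end Pool.Agent.D8
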