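import Pool.Agent.D8.LStm
import Pool.Agent.H32.MQ.ICl

/-!
# The dihedral group of order 16 over a number field: the bilinear estimate for two values,
preparations (row LT2)
-/

set_option autoImplicit false

open scoped BigOperators
open NumberField IsDedekindDomain

namespace Pool.Agent.D8

open Pool.Agent.H98.MF
open Pool.Agent.H98.MK (sg)
open Pool.Agent.H32.MQ (El rep co HX Qof BFMain Qd)

/-! ### points in place of good sets -/

section pts

variable {S : Sys} (Q : Qd S)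

theorem lbt_shd_single (b : Q.P) : Q.shd {b} = {Q.sh b} := by
  classical
  unfold Qd.shd
  exact Finset.image_singleton _ _

theorem lbt_mem_gb (b : Q.P) (X : ℝ) : ({b} : Finset Q.P) ∈ Q.gb X ↔ (S.N (Q.sh b) : ℝ) ≤ X := by
  rw [Q.mem_gb]
  unfold Qd.nq
  rw [lbt_shd_single]
  unfold Pre.nm
  rw [Finset.prod_singleton]
  constructor
  · exact fun h => h.2
  · intro h
    refine ⟨?_, h⟩
    intro a ha c hc _
    rw [Finset.mem_singleton.1 ha, Finset.mem_singleton.1 hc]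

open Classical in
theorem lbt_sum_gb (A : S.P → Prop) (ρ : S.P → Q.P) (hρ : ∀ y, A y → Q.sh (ρ y) = y)
    (F : Finset Q.P → ℝ) (hF : ∀ g, (∀ y, A y → g ≠ {ρ y}) → F g = 0) (Y : ℝ) (hY : 1 ≤ Y) :
    ∑ g ∈ Q.gb Y, F g = ∑ y ∈ (S.pr Y).filter A, F {ρ y} := by
  have hinj : Set.InjOn (fun y => ({ρ y} : Finset Q.P)) ((S.pr Y).filter A : Finset S.P) := by
    intro y hy y' hy' h
    have h1 : ρ y = ρ y' := Finset.singleton_injective h
    rw [← hρ y (Finset.mem_filter.1 (Finset.mem_coe.1 hy)).2,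
      ← hρ y' (Finset.mem_filter.1 (Finset.mem_coe.1 hy')).2, h1]
  rw [← Finset.sum_image (f := F) hinj]
  symm
  refine Finset.sum_subset ?_ ?_
  · intro g hg
    obtain ⟨y, hy, rfl⟩ := Finset.mem_image.1 hg
    obtain ⟨hy1, hy2⟩ := Finset.mem_filter.1 hy
    rw [lbt_mem_gb, hρ y hy2]
    exact (S.mem_pr (by linarith)).1 hy1
  · intro g hg hg'
    refine hF g fun y hy h => hg' ?_
    subst h
    rw [lbt_mem_gb, hρ y hy] at hg
    exact Finset.mem_image.2 ⟨y, Finset.mem_filter.2 ⟨(S.mem_pr (by linarith)).2 hg, hy⟩, rfl⟩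

open Classical in
/-- the bilinear estimate for points -/
theorem lbt_pts {C A η : ℝ} (hBF : Q.BF C A η) (h : Finset Q.P) (hh : Q.Gd h)
    (Ay Bz : S.P → Prop) (ρ σ : S.P → Q.P) (γf : S.P → Q.G)
    (hρ : ∀ y, Ay y → Q.sh (ρ y) = y) (hσ : ∀ z, Bz z → Q.sh (σ z) = z)
    (hγ : ∀ y, Ay y → γf y ∈ Q.B (insert (ρ y) h))
    (hyh : ∀ y, Ay y → y ∉ Q.shd h) (hzh : ∀ z, Bz z → z ∉ Q.shd h) (u w : S.P → ℝ)
    (hu : ∀ y, |u y| ≤ 1) (hw : ∀ z, |w z| ≤ 1) (Y Z : ℝ) (hY : 1 ≤ Y) (hZ : 1 ≤ Z) :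
    |∑ y ∈ (S.pr Y).filter Ay, ∑ z ∈ (S.pr Z).filter Bz,
      (if y ≠ z then u y * w z * ((sg (Q.sy (γf y) (σ z)) : ℤ) : ℝ) else 0)| ≤
      C * (S.nm Q.M : ℝ) ^ A * (Y * Z) * min Y Z ^ (-η) := by
  obtain ⟨a, ha⟩ : ∃ a : Finset Q.P → Q.G → ℝ, ∀ g γ, a g γ =
      if hg : ∃ y, Ay y ∧ g = {ρ y} ∧ γ = γf y then u hg.choose else 0 := ⟨_, fun _ _ => rfl⟩
  obtain ⟨b, hb⟩ : ∃ b : Finset Q.P → ℝ, ∀ e, b e =
      if he : ∃ z, Bz z ∧ e = {σ z} then w he.choose else 0 := ⟨_, fun _ => rfl⟩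
  have ha1 : ∀ g γ, |a g γ| ≤ 1 := by
    intro g γ
    rw [ha]
    split_ifs
    · exact hu _
    · rw [abs_zero]
      exact zero_le_one
  have hb1 : ∀ e, |b e| ≤ 1 := by
    intro e
    rw [hb]
    split_ifs
    · exact hw _
    · rw [abs_zero]
      exact zero_le_one
  have ha2 : ∀ y, Ay y → ∀ γ, a {ρ y} γ = if γ = γf y then u y else 0 := by
    intro y hy γ
    have huniq : ∀ y', Ay y' → ({ρ y} : Finset Q.P) = {ρ y'} → y' = y := by
      intro y' hy' h1
      rw [← hρ y hy, ← hρ y' hy', Finset.singleton_injective h1]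
    rw [ha]
    by_cases h1 : γ = γf y
    · have h2 : ∃ y', Ay y' ∧ ({ρ y} : Finset Q.P) = {ρ y'} ∧ γ = γf y' := ⟨y, hy, rfl, h1⟩
      rw [dif_pos h2, if_pos h1, huniq _ h2.choose_spec.1 h2.choose_spec.2.1]
    · rw [if_neg h1, dif_neg]
      rintro ⟨y', hy', h2, h3⟩
      rw [huniq y' hy' h2] at h3
      exact h1 h3
  have ha3 : ∀ g γ, (∀ y, Ay y → g ≠ {ρ y}) → a g γ = 0 := by
    intro g γ hg
    rw [ha, dif_neg]
    rintro ⟨y, hy, h1, _⟩
    exact hg y hy h1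
  have hb2 : ∀ z, Bz z → b {σ z} = w z := by
    intro z hz
    have h2 : ∃ z', Bz z' ∧ ({σ z} : Finset Q.P) = {σ z'} := ⟨z, hz, rfl⟩
    rw [hb, dif_pos h2]
    have h3 := h2.choose_spec
    have h4 : σ z = σ h2.choose := Finset.singleton_injective h3.2
    have h5 : h2.choose = z :=
      (hσ _ h3.1).symm.trans ((congrArg Q.sh h4).symm.trans (hσ z hz))
    exact congrArg w h5
  have hb3 : ∀ e, (∀ z, Bz z → e ≠ {σ z}) → b e = 0 := by
    intro e he
    rw [hb, dif_neg]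
    rintro ⟨z, hz, h1⟩
    exact he z hz h1
  have hmain := hBF h hh a b ha1 hb1 Y Z hY hZ
  have hshd : ∀ b', Q.shd {b'} = {Q.sh b'} := lbt_shd_single Q
  rw [lbt_sum_gb Q Ay ρ hρ _ (fun g hg => Finset.sum_eq_zero fun e _ => by
    split_ifs
    · exact Finset.sum_eq_zero fun γ _ => by rw [ha3 g γ hg, zero_mul, zero_mul]
    · rfl) Y hY] at hmain
  refine le_trans (le_of_eq ?_) hmain
  congr 1
  refine Finset.sum_congr rfl fun y hy => ?_
  have hy' := (Finset.mem_filter.1 hy).2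
  rw [lbt_sum_gb Q Bz σ hσ _ (fun e he => by
    split_ifs
    · exact Finset.sum_eq_zero fun γ _ => by rw [hb3 e he, mul_zero, zero_mul]
    · rfl) Z hZ]
  refine Finset.sum_congr rfl fun z hz => ?_
  have hz' := (Finset.mem_filter.1 hz).2
  have hcond : (Disjoint (Q.shd {ρ y}) (Q.shd h) ∧
      Disjoint (Q.shd {σ z}) (Q.shd {ρ y} ∪ Q.shd h)) ↔ y ≠ z := by
    rw [hshd, hshd, hρ y hy', hσ z hz', Finset.disjoint_singleton_left,
      Finset.disjoint_singleton_left, Finset.mem_union, Finset.mem_singleton]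
    constructor
    · rintro ⟨_, h2⟩ rfl
      exact h2 (Or.inl rfl)
    · intro h1
      refine ⟨hyh y hy', ?_⟩
      rintro (h2 | h2)
      · exact h1 h2.symm
      · exact hzh z hz' h2
  refine (if_congr hcond ?_ rfl).symm
  have h1 : ({ρ y} ∪ h : Finset Q.P) = insert (ρ y) h := rfl
  rw [Finset.sum_eq_single (γf y)]
  · rw [ha2 y hy', if_pos rfl, hb2 z hz', Finset.sum_singleton]
  · intro γ _ hγ'
    rw [ha2 y hy', if_neg hγ', zero_mul, zero_mul]
  · intro h2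
    exact absurd (h1 ▸ hγ y hy') h2

end pts

/-! ### the quadratic extension -/

section ext

variable {k : Type} [Field k] [NumberField k] (Fr : Frm k)

/-- a quadratic extension with a square root of `a` -/
theorem lbt_quad {a : k} (ha : ¬ IsSquare a) : ∃ (L : Type) (_ : Field L)
    (_ : NumberField L) (_ : Algebra k L) (s : L), s ^ 2 = algebraMap k L a ∧
      Module.finrank k L = 2 := by
  have hirr : Irreducible (Polynomial.X ^ 2 - Polynomial.C a) := by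
    apply X_pow_sub_C_irreducible_of_prime Nat.prime_two
    intro b hb
    exact ha ⟨b, by rw [← hb, pow_two]⟩
  have : Fact (Irreducible (Polynomial.X ^ 2 - Polynomial.C a)) := ⟨hirr⟩
  have hfin : Module.Finite k (AdjoinRoot (Polynomial.X ^ 2 - Polynomial.C a)) :=
    (AdjoinRoot.powerBasis hirr.ne_zero).finite
  refine ⟨AdjoinRoot (Polynomial.X ^ 2 - Polynomial.C a), inferInstance,
    NumberField.of_module_finite k _, inferInstance, AdjoinRoot.root _, ?_, ?_⟩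
  · have h := AdjoinRoot.eval₂_root (Polynomial.X ^ 2 - Polynomial.C a)
    rw [Polynomial.eval₂_sub, Polynomial.eval₂_pow, Polynomial.eval₂_X, Polynomial.eval₂_C,
      sub_eq_zero] at h
    exact h
  · rw [(AdjoinRoot.powerBasis hirr.ne_zero).finrank, AdjoinRoot.powerBasis_dim,
      Polynomial.natDegree_X_pow_sub_C]

open Classical in
theorem lbt_ext (x x' : Fr.sys.P) : ∃ (L : Type) (_ : Field L) (_ : NumberField L)
    (_ : Algebra k L) (X : HX Fr L), X.M = {x, x'} ∧ X.a = rep Fr (0, {x, x'}) := by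
  have hns : ¬ IsSquare (rep Fr ((0, {x, x'}) : El Fr.sys) : k) := by
    rintro ⟨r, hr⟩
    have h1 := Pool.Agent.H32.MQ.h_repO Fr ((0, {x, x'}) : El Fr.sys) x
    rw [if_pos (Finset.mem_insert_self _ _), hr] at h1
    have hr0 : r ≠ 0 := by
      rintro rfl
      rw [mul_zero] at hr
      exact (Units.ne_zero _) hr
    rw [Pool.Agent.H98.MF.B.ord_mul _ hr0 hr0] at h1
    omega
  obtain ⟨L, i1, i2, i3, s, hs, hd⟩ := lbt_quad hns
  refine ⟨L, i1, i2, i3, ⟨rep Fr (0, {x, x'}), s, ⟨hd, hs, ?_⟩, 1, {x, x'}, ?_, ?_⟩, rfl, rfl⟩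
  · rintro ⟨r, hr⟩
    exact hns ⟨(r : k), by rw [← Units.val_mul, ← hr]⟩
  · intro p hp
    have h1 := Pool.Agent.H32.MQ.h_repO Fr ((0, {x, x'}) : El Fr.sys) p
    rw [if_neg hp] at h1
    rw [h1]
    exact Even.zero
  · intro p _ Q _
    have h1 : ord Q ((1 : Lˣ) : L) = 0 := by
      rw [Units.val_one]
      have h2 := Pool.Agent.H98.MF.B.ord_mul Q (one_ne_zero (α := L)) (one_ne_zero (α := L))
      rw [mul_one] at h2
      omega
    rw [h1]
    exact Even.zero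

theorem lbt_odd (t : ℤ) : Odd (t + 1) ↔ ¬ Odd t := by
  constructor
  · rintro ⟨a, ha⟩ ⟨b, hb⟩
    omega
  · intro h
    rcases Int.even_or_odd t with h1 | h1
    · exact h1.add_one
    · exact absurd h1 h

variable {Fr} {L : Type} [Field L] [NumberField L] [Algebra k L] (X : HX Fr L)

/-- multiplying a class by a prime element of `k` moves a prime to its conjugate -/
theorem lbt_gam (h : Finset X.PX) (Py : X.PX) (γ : HX.GX L)
    (hγ : γ ∈ (Qof X).B (insert (X.cjX Py) h)) (hyh : ∀ b ∈ h, X.shX b ≠ X.shX Py) :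
    ∃ γ'' ∈ (Qof X).B (insert Py h), ∀ Pz : X.PX, X.shX Pz ≠ X.shX Py →
      (∀ b ∈ h, X.shX b ≠ X.shX Pz) →
      (Qof X).sy γ'' Pz = (Qof X).sy γ Pz + Fr.sys.J (X.shX Py) (X.shX Pz) := by
  obtain ⟨c1, c2, _⟩ := Pool.Agent.H32.MQ.clSt X
  obtain ⟨g1, hg1⟩ : ∃ g1 : Finset X.PX, g1 = (insert (X.cjX Py) h : Finset (Qof X).P) := ⟨_, rfl⟩
  obtain ⟨g2, hg2⟩ : ∃ g2 : Finset X.PX, g2 = (insert Py h : Finset (Qof X).P) := ⟨_, rfl⟩
  have m1 : ∀ b : X.PX, b ∈ g1 ↔ b = X.cjX Py ∨ b ∈ h := fun b => by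
    rw [hg1]
    exact Finset.mem_insert (α := (Qof X).P)
  have m2 : ∀ b : X.PX, b ∈ g2 ↔ b = Py ∨ b ∈ h := fun b => by
    rw [hg2]
    exact Finset.mem_insert (α := (Qof X).P)
  rw [← hg1] at hγ
  rw [← hg2]
  obtain ⟨x, hx, hodd⟩ := (c2 _ _).1 hγ
  have hshc : X.shX (X.cjX Py) = X.shX Py := (Qof X).sh_cj Py
  have hcne : X.cjX Py ≠ Py := (Qof X).cj_ne Py
  set c : Lˣ := Units.map ((algebraMap k L : k →+* L) : k →* L) (Fr.pi (X.shX Py)) with hc
  have hcv : (c : L) = algebraMap k L (Fr.pi (X.shX Py) : k) := rfl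
  have hordc : ∀ (p : Fr.sys.P) (Q : HeightOneSpectrum (𝓞 L)), p ∉ X.M → Over (Fr.pl p) Q →
      ord Q (c : L) = ord (Fr.pl p) (Fr.pi (X.shX Py) : k) := fun p Q hp hQ => by
    rw [hcv]
    exact (Pool.Agent.H32.MQ.h_ord X p Q hp hQ).2 _
  have hordx : ∀ Q : HeightOneSpectrum (𝓞 L), ord Q ((x * c : Lˣ) : L) =
      ord Q (x : L) + ord Q (c : L) := fun Q => by
    rw [Units.val_mul]
    exact Pool.Agent.H98.MF.B.ord_mul Q x.ne_zero c.ne_zero
  have hsh : ∀ (b : X.PX) (p : Fr.sys.P), Over (Fr.pl p) b.1 → X.shX b = p := fun b p hb =>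
    X.shX_eq b hb
  refine ⟨((x * c : Lˣ) : HX.GX L), (c2 _ _).2 ⟨x * c, rfl, ?_⟩, ?_⟩
  · rintro ⟨Q, p, hp, hQ⟩
    show Odd (ord Q ((x * c : Lˣ) : L)) ↔ ∃ b ∈ g2, b.1 = Q
    have h1 := hodd ⟨Q, p, hp, hQ⟩
    change Odd (ord Q (x : L)) ↔ ∃ b ∈ g1, b.1 = Q at h1
    rw [hordx, hordc p Q hp hQ]
    by_cases hpy : p = X.shX Py
    · subst hpy
      rw [Fr.pi_self, lbt_odd, h1]
      rcases Pool.Agent.H98.MF.B.qe_over X.qe X.sig X.sig_α (X.shX_over Py) hQ with h2 | h2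
      · constructor
        · intro _
          exact ⟨Py, (m2 _).2 (Or.inl rfl), h2.symm⟩
        · rintro _ ⟨b, hb, hbQ⟩
          have hb' : b = Py := Subtype.ext (hbQ.trans h2)
          rcases (m1 _).1 hb with h3 | h3
          · exact hcne (h3.symm.trans hb')
          · exact hyh b h3 (congrArg X.shX hb')
      · constructor
        · intro h3
          exact absurd ⟨X.cjX Py, (m1 _).2 (Or.inl rfl), h2.symm⟩ h3
        · rintro ⟨b, hb, hbQ⟩ _
          have hb' : b = X.cjX Py := Subtype.ext (hbQ.trans h2)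
          rcases (m2 _).1 hb with h3 | h3
          · exact hcne (hb'.symm.trans h3)
          · exact hyh b h3 ((congrArg X.shX hb').trans hshc)
    · rw [Fr.pi_other _ _ hpy, add_zero, h1]
      have hQsh : ∀ b : X.PX, b.1 = Q → X.shX b = p := fun b hb => hsh b p (hb ▸ hQ)
      constructor
      · rintro ⟨b, hb, hbQ⟩
        rcases (m1 _).1 hb with h3 | h3
        · exact absurd ((hQsh b hbQ).symm.trans ((congrArg X.shX h3).trans hshc)) hpy
        · exact ⟨b, (m2 _).2 (Or.inr h3), hbQ⟩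
      · rintro ⟨b, hb, hbQ⟩
        rcases (m2 _).1 hb with h3 | h3
        · exact absurd ((hQsh b hbQ).symm.trans (congrArg X.shX h3)) hpy
        · exact ⟨b, (m1 _).2 (Or.inr h3), hbQ⟩
  · intro Pz hzy hzh
    have hM := X.shX_not Pz
    have hO := X.shX_over Pz
    have hex : Even (ord Pz.1 (x : L)) := by
      rw [← Int.not_odd_iff_even]
      intro h1
      obtain ⟨b, hb, hbz⟩ := (hodd ⟨Pz.1, Pz.2.1⟩).1 h1
      have hb' : b = Pz := Subtype.ext hbz
      rcases (m1 _).1 hb with h3 | h3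
      · exact hzy ((congrArg X.shX hb').symm.trans ((congrArg X.shX h3).trans hshc))
      · exact hzh b h3 (congrArg X.shX hb')
    have hec0 : ord Pz.1 (c : L) = 0 := by
      rw [hordc _ _ hM hO, Fr.pi_other _ _ hzy]
    have hec : Even (ord Pz.1 (c : L)) := by
      rw [hec0]
      exact Even.zero
    have hexc : Even (ord Pz.1 ((x * c : Lˣ) : L)) := by
      rw [hordx, hec0, add_zero]
      exact hex
    rw [c1 (x * c) Pz hexc, ← hx, c1 x Pz hex, Units.val_mul,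
      qr_mul (Pool.Agent.H32.MQ.h_ord X _ _ hM hO).1 x.ne_zero c.ne_zero hex hec,
      Fr.J_eq _ _ (fun h => hzy h.symm)]
    congr 1
    rw [hcv]
    refine Pool.Agent.H32.MQ.h_qm X _ Pz ?_
    rw [Fr.pi_other _ _ hzy]
    exact Even.zero

end ext

end Pool.Agent.D8
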