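import Pool.Agent.D8.LStm
import Pool.Agent.H32.MA.AbsL

/-!
# The dihedral group of order 16 over a number field, row LQ7: the basic large sieve for
orthogonal kernels
-/

set_option autoImplicit false

open scoped BigOperators

namespace Pool.Agent.D8

open Pool.Agent.H32.MA.AB (Lat cube bxA card_bxA inc)

section

variable {A : Type} [CommRing A] {n c : ℕ} {L : Lat A n c} {ι : Type} {I : Finset ι}
  {K : ι → A → ℤ} {q : ι → ℕ} {E : ℝ}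

theorem lls_off (hq : ∀ i ∈ I, 1 ≤ q i ∧ (q i : ℝ) ≤ E) (hK : ∀ i ∈ I, ∀ x, |K i x| ≤ 1)
    (ho : ∀ i ∈ I, ∀ j ∈ I, i ≠ j → ∀ u, ∑ x ∈ cube L u (q i * q j), K i x * K j x = 0)
    {i j : ι} (hi : i ∈ I) (hj : j ∈ I) (hij : i ≠ j) (R : ℕ) :
    |∑ x ∈ bxA L R, ((K i x : ℤ) : ℝ) * K j x| ≤ n * (2 * R + 1 : ℝ) ^ (n - 1) * E ^ 2 := by
  have hq1 : 1 ≤ q i * q j := Nat.mul_pos (hq i hi).1 (hq j hj).1
  have h1 := inc L (fun x => K i x * K j x) (q i * q j) hq1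
    (fun x => by
      rw [abs_mul]
      exact mul_le_one₀ (hK i hi x) (abs_nonneg _) (hK j hj x))
    (fun u => ho i hi j hj hij u) R
  have h2 : (∑ x ∈ bxA L R, ((K i x : ℤ) : ℝ) * K j x) =
      ∑ x ∈ bxA L R, ((K i x * K j x : ℤ) : ℝ) := by
    push_cast
    rfl
  rw [h2]
  refine h1.trans (mul_le_mul_of_nonneg_left ?_ (by positivity))
  push_cast
  rw [sq]
  exact mul_le_mul (hq i hi).2 (hq j hj).2 (Nat.cast_nonneg _)
    ((Nat.cast_nonneg _).trans (hq i hi).2)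

theorem lls_diag (hK : ∀ i ∈ I, ∀ x, |K i x| ≤ 1) {i : ι} (hi : i ∈ I) (R : ℕ) :
    |∑ x ∈ bxA L R, ((K i x : ℤ) : ℝ) * K i x| ≤ (2 * R + 1 : ℝ) ^ n := by
  refine (Finset.abs_sum_le_sum_abs _ _).trans ?_
  have h1 : ∀ x ∈ bxA L R, |((K i x : ℤ) : ℝ) * K i x| ≤ 1 := by
    intro x _
    rw [abs_mul]
    have h2 : |((K i x : ℤ) : ℝ)| ≤ 1 := by
      rw [← Int.cast_abs]
      exact_mod_cast hK i hi x
    exact mul_le_one₀ h2 (abs_nonneg _) h2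
  refine (Finset.sum_le_card_nsmul _ _ 1 h1).trans ?_
  rw [nsmul_eq_mul, mul_one, card_bxA]
  push_cast
  exact le_rfl

/-- the mean square of a sum of kernels with coefficients at most one -/
theorem lls_sq (hq : ∀ i ∈ I, 1 ≤ q i ∧ (q i : ℝ) ≤ E) (hK : ∀ i ∈ I, ∀ x, |K i x| ≤ 1)
    (ho : ∀ i ∈ I, ∀ j ∈ I, i ≠ j → ∀ u, ∑ x ∈ cube L u (q i * q j), K i x * K j x = 0)
    (R : ℕ) (a : ι → ℝ) (ha : ∀ i, |a i| ≤ 1) :
    ∑ x ∈ bxA L R, (∑ i ∈ I, a i * K i x) ^ 2 ≤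
      (I.card : ℝ) * (2 * R + 1 : ℝ) ^ n +
        (I.card : ℝ) ^ 2 * (n * (2 * R + 1 : ℝ) ^ (n - 1) * E ^ 2) := by
  classical
  have e1 : ∑ x ∈ bxA L R, (∑ i ∈ I, a i * K i x) ^ 2 =
      ∑ i ∈ I, ∑ j ∈ I, a i * a j * ∑ x ∈ bxA L R, ((K i x : ℤ) : ℝ) * K j x := by
    have h1 : ∀ x ∈ bxA L R, (∑ i ∈ I, a i * K i x) ^ 2 =
        ∑ i ∈ I, ∑ j ∈ I, a i * a j * (((K i x : ℤ) : ℝ) * K j x) := by
      intro x _
      rw [sq, Finset.sum_mul_sum]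
      refine Finset.sum_congr rfl fun i _ => Finset.sum_congr rfl fun j _ => ?_
      ring
    rw [Finset.sum_congr rfl h1, Finset.sum_comm]
    refine Finset.sum_congr rfl fun i _ => ?_
    rw [Finset.sum_comm]
    exact Finset.sum_congr rfl fun j _ => (Finset.mul_sum _ _ _).symm
  rw [e1]
  set D : ℝ := n * (2 * R + 1 : ℝ) ^ (n - 1) * E ^ 2 with hD
  have hD0 : 0 ≤ D := by positivity
  have e2 : ∀ i ∈ I, ∀ j ∈ I, a i * a j * ∑ x ∈ bxA L R, ((K i x : ℤ) : ℝ) * K j x ≤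
      (if i = j then (2 * R + 1 : ℝ) ^ n else 0) + D := by
    intro i hi j hj
    refine (le_abs_self _).trans ?_
    rw [abs_mul, abs_mul]
    have h0 : |a i| * |a j| ≤ 1 := mul_le_one₀ (ha i) (abs_nonneg _) (ha j)
    have h1 : |a i| * |a j| * |∑ x ∈ bxA L R, ((K i x : ℤ) : ℝ) * K j x| ≤
        |∑ x ∈ bxA L R, ((K i x : ℤ) : ℝ) * K j x| :=
      mul_le_of_le_one_left (abs_nonneg _) h0
    refine h1.trans ?_
    by_cases hij : i = j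
    · subst hij
      rw [if_pos rfl]
      have h2 := lls_diag (L := L) hK hi R
      linarith
    · rw [if_neg hij, zero_add]
      exact lls_off hq hK ho hi hj hij R
  refine (Finset.sum_le_sum fun i hi => Finset.sum_le_sum fun j hj => e2 i hi j hj).trans ?_
  have e3 : ∀ i ∈ I, ∑ j ∈ I, ((if i = j then (2 * R + 1 : ℝ) ^ n else 0) + D) =
      (2 * R + 1 : ℝ) ^ n + I.card * D := by
    intro i hi
    rw [Finset.sum_add_distrib, Finset.sum_ite_eq, if_pos hi, Finset.sum_const, nsmul_eq_mul]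
  rw [Finset.sum_congr rfl e3, Finset.sum_const, nsmul_eq_mul]
  refine le_of_eq ?_
  ring

end

/-- LQ7: the basic large sieve for orthogonal kernels -/
theorem lLS : SlLS := by
  intro n hn
  obtain ⟨m, rfl⟩ : ∃ m, n = m + 1 := ⟨n - 1, by omega⟩
  refine ⟨3 ^ (m + 1) * ((m + 1 : ℕ) : ℝ), by positivity, ?_⟩
  intro A _ c L ι I K q E hE hq hK ho R α β hR hα hβ
  have hRr : (1 : ℝ) ≤ R := by exact_mod_cast hR
  have hm1 : (1 : ℝ) ≤ ((m + 1 : ℕ) : ℝ) := by exact_mod_cast hn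
  have h1 : ∑ i ∈ I, ∑ x ∈ bxA L R, α i * β x * K i x =
      ∑ x ∈ bxA L R, β x * ∑ i ∈ I, α i * K i x := by
    rw [Finset.sum_comm]
    refine Finset.sum_congr rfl fun x _ => ?_
    rw [Finset.mul_sum]
    refine Finset.sum_congr rfl fun i _ => ?_
    ring
  rw [h1]
  have h2 : (∑ x ∈ bxA L R, β x * ∑ i ∈ I, α i * K i x) ^ 2 ≤
      (∑ x ∈ bxA L R, β x ^ 2) * ∑ x ∈ bxA L R, (∑ i ∈ I, α i * K i x) ^ 2 :=
    Finset.sum_mul_sq_le_sq_mul_sq _ _ _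
  have h3 : ∑ x ∈ bxA L R, β x ^ 2 ≤ (2 * R + 1 : ℝ) ^ (m + 1) := by
    have h4 : ∀ x ∈ bxA L R, β x ^ 2 ≤ 1 := by
      intro x _
      rw [← sq_abs]
      exact pow_le_one₀ (abs_nonneg _) (hβ x)
    refine (Finset.sum_le_card_nsmul _ _ 1 h4).trans ?_
    rw [nsmul_eq_mul, mul_one, card_bxA]
    push_cast
    exact le_rfl
  have h5 := lls_sq hq hK ho R α hα
  rw [Nat.add_sub_cancel] at h5
  have hN : (2 * R + 1 : ℝ) ≤ 3 * R := by linarith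
  have hN0 : (0 : ℝ) ≤ 2 * R + 1 := by linarith
  have hp1 : (2 * R + 1 : ℝ) ^ (m + 1) ≤ 3 ^ (m + 1) * (R : ℝ) ^ (m + 1) := by
    rw [← mul_pow]
    exact pow_le_pow_left₀ hN0 hN _
  have hp2 : (2 * R + 1 : ℝ) ^ m ≤ 3 ^ (m + 1) * (R : ℝ) ^ m := by
    refine (pow_le_pow_left₀ hN0 hN m).trans ?_
    rw [mul_pow]
    refine mul_le_mul_of_nonneg_right ?_ (by positivity)
    exact pow_le_pow_right₀ (by norm_num) (by omega)
  set a1 : ℝ := (I.card : ℝ) ^ (1 / 2 : ℝ) * (R : ℝ) ^ (m + 1) with ha1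
  set a2 : ℝ := (I.card : ℝ) * E * (R : ℝ) ^ (((m + 1 : ℕ) : ℝ) - 1 / 2) with ha2
  have ha10 : 0 ≤ a1 := by positivity
  have ha20 : 0 ≤ a2 := by positivity
  have hs1 : a1 ^ 2 = (I.card : ℝ) * ((R : ℝ) ^ (m + 1)) ^ 2 := by
    rw [ha1, mul_pow, ← Real.rpow_natCast, ← Real.rpow_mul (Nat.cast_nonneg _)]
    norm_num
  have hs2 : a2 ^ 2 = (I.card : ℝ) ^ 2 * E ^ 2 * ((R : ℝ) ^ (m + 1) * (R : ℝ) ^ m) := by
    have h6 : ((R : ℝ) ^ (((m + 1 : ℕ) : ℝ) - 1 / 2)) ^ 2 = (R : ℝ) ^ (m + 1) * (R : ℝ) ^ m := by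
      rw [← Real.rpow_natCast, ← Real.rpow_mul (Nat.cast_nonneg _), ← pow_add,
        ← Real.rpow_natCast]
      congr 1
      push_cast
      ring
    rw [ha2, mul_pow, mul_pow, h6]
  have hfin : (∑ x ∈ bxA L R, β x * ∑ i ∈ I, α i * K i x) ^ 2 ≤
      (3 ^ (m + 1) * ((m + 1 : ℕ) : ℝ) * (a1 + a2)) ^ 2 := by
    have h7 : (∑ x ∈ bxA L R, β x * ∑ i ∈ I, α i * K i x) ^ 2 ≤
        (3 ^ (m + 1) * (R : ℝ) ^ (m + 1)) * ((I.card : ℝ) * (3 ^ (m + 1) * (R : ℝ) ^ (m + 1)) +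
        (I.card : ℝ) ^ 2 * (((m + 1 : ℕ) : ℝ) * (3 ^ (m + 1) * (R : ℝ) ^ m) * E ^ 2)) := by
      have h77 : (0 : ℝ) ≤ 3 ^ (m + 1) * (R : ℝ) ^ (m + 1) := by positivity
      refine h2.trans (mul_le_mul (h3.trans hp1) (h5.trans ?_)
        (Finset.sum_nonneg fun x _ => sq_nonneg _) h77)
      refine add_le_add (mul_le_mul_of_nonneg_left hp1 (Nat.cast_nonneg _)) ?_
      refine mul_le_mul_of_nonneg_left ?_ (by positivity)
      refine mul_le_mul_of_nonneg_right ?_ (by positivity)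
      exact mul_le_mul_of_nonneg_left hp2 (by positivity)
    have h8 : (3 ^ (m + 1) * (R : ℝ) ^ (m + 1)) * ((I.card : ℝ) * (3 ^ (m + 1) *
        (R : ℝ) ^ (m + 1)) + (I.card : ℝ) ^ 2 * (((m + 1 : ℕ) : ℝ) *
        (3 ^ (m + 1) * (R : ℝ) ^ m) * E ^ 2)) =
        (3 ^ (m + 1)) ^ 2 * (a1 ^ 2 + ((m + 1 : ℕ) : ℝ) * a2 ^ 2) := by
      rw [hs1, hs2]
      ring
    rw [h8] at h7
    refine h7.trans ?_
    have h15 : (3 ^ (m + 1) * ((m + 1 : ℕ) : ℝ) * (a1 + a2)) ^ 2 =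
        (3 ^ (m + 1)) ^ 2 * (((m + 1 : ℕ) : ℝ) ^ 2 * (a1 + a2) ^ 2) := by ring
    have h16 : (0 : ℝ) ≤ (3 ^ (m + 1)) ^ 2 := by positivity
    rw [h15]
    refine mul_le_mul_of_nonneg_left ?_ h16
    have h9 : 0 ≤ a1 * a2 := mul_nonneg ha10 ha20
    have h10 : ((m + 1 : ℕ) : ℝ) ≤ ((m + 1 : ℕ) : ℝ) ^ 2 := by nlinarith
    have h11 : (1 : ℝ) ≤ ((m + 1 : ℕ) : ℝ) ^ 2 := by nlinarith
    have h12 : a1 ^ 2 ≤ ((m + 1 : ℕ) : ℝ) ^ 2 * a1 ^ 2 :=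
      le_mul_of_one_le_left (sq_nonneg a1) h11
    have h13 : ((m + 1 : ℕ) : ℝ) * a2 ^ 2 ≤ ((m + 1 : ℕ) : ℝ) ^ 2 * a2 ^ 2 :=
      mul_le_mul_of_nonneg_right h10 (sq_nonneg _)
    have h14 : 0 ≤ ((m + 1 : ℕ) : ℝ) ^ 2 * (a1 * a2) := by positivity
    nlinarith
  have hb : 0 ≤ 3 ^ (m + 1) * ((m + 1 : ℕ) : ℝ) * (a1 + a2) := by positivity
  exact abs_le_of_sq_le_sq hfin hb

end Pool.Agent.D8
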