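import Pool.Agent.D8.LQ0a
import Pool.Agent.D8.ARs

/-!
# The dihedral group of order 16 over a number field, row LQ0: second bits over `(a, Y)`,
`Y` a product of two prime elements, `-1` a square
-/

set_option autoImplicit false
set_option linter.unusedSectionVars false

open scoped BigOperators
open NumberField IsDedekindDomain

namespace Pool.Agent.D8

open Pool.Agent.H98.MF
open Pool.Agent.H98.MK (sg)
open Pool.Agent.H32.MQ (El rep co h_repO h_repQ hb_two hb_notMem)

section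

variable {k : Type} [Field k] [NumberField k] (Fr : Frm k) (Rk : RxF k)

theorem lq0_mem (hl : LIn k) (v : Pl k) (a : kˣ) : a ∈ LS v ↔ LocP v (a : k) := hl.memLS v a

theorem lq0_zero (hl : LIn k) (v : Pl k) (x y : kˣ) (h : LocP v (y : k)) :
    hv v (x : k) (y : k) = 0 := by
  rw [hl.symm v x y]
  exact (hl.nd v y).2 h x

theorem lq0_congr (hl : LIn k) (v : Pl k) (x y z : kˣ) (h : LocP v ((y * z : kˣ) : k)) :
    hv v (x : k) (y : k) = hv v (x : k) (z : k) := by
  have h1 := lq0_zero hl v x (y * z) h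
  rw [hl.mulR] at h1
  exact arp_add_self _ _ h1

theorem lq0_rep (q q' : Fr.sys.P) (h : q ≠ q') :
    rep Fr ((0 : Fr.sys.T), ({q, q'} : Finset Fr.sys.P)) = Fr.pi q * Fr.pi q' := by
  unfold rep
  have h1 : (∏ j, Fr.u j ^ (((0 : Fr.sys.T), ({q, q'} : Finset Fr.sys.P)).1 j).val) = 1 := by
    refine Finset.prod_eq_one fun j _ => ?_
    show Fr.u j ^ (0 : ZMod 2).val = 1
    rw [ZMod.val_zero, pow_zero]
  rw [h1, one_mul]
  exact Finset.prod_pair h

/-- the product of two prime elements of the same type is a local square at the frame -/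
theorem lq0_locS (hl : LIn k) (q q' : Fr.sys.P) (h : q ≠ q') (hty : Fr.sys.ty q = Fr.sys.ty q')
    (v : Pl k) (hv' : v ∈ pls Fr.S) :
    LocP v (rep Fr ((0 : Fr.sys.T), ({q, q'} : Finset Fr.sys.P)) : k) := by
  rw [← lq0_mem hl, lq0_rep Fr q q' h]
  have h1 := (lq0_mem hl v _).2 (Fr.loc q v hv')
  have h2 := (lq0_mem hl v _).2 (Fr.loc q' v hv')
  rw [← hty] at h2
  have h3 := (LS v).mul_mem h1 h2
  have h4 := (LS v).inv_mem (Pool.Agent.H98.MF.B.sq_mem_LS v
    (∏ j, Fr.w j ^ (Fr.sys.ty q j).val))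
  have h5 := (LS v).mul_mem h3 h4
  have e : ∀ a b w : kˣ, (a * w) * (b * w) * (w ^ 2)⁻¹ = a * b := by
    intro a b w
    rw [mul_mul_mul_comm, ← pow_two w, mul_inv_cancel_right]
  rwa [e] at h5

/-- LQ0 -/
theorem lQ0 (hl : LIn k) (hTh : SaTh k) (hRep : SaRep k) (hKu : SaKu k) (hSl : SaSl k)
    (hOb : SaOb k) (hObH : SaObH k) (hObF : SaObF k) (hObN : SaObN k) (hObS : SaObS k)
    (hRec : RecSt k) : SlQ0 Fr Rk := by
  classical
  intro hi A ua q q' hqq hqA hqA' hty g hg hgτ c hc r r' hr hr'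
  set a := rep Fr (ua, A) with ha
  set Y := rep Fr ((0 : Fr.sys.T), ({q, q'} : Finset Fr.sys.P)) with hY
  obtain ⟨i, hii⟩ := id hi
  have hi2 : i ^ 2 = -1 := by rw [pow_two, ← hii]
  have hi0 : i ≠ 0 := by
    rintro rfl
    rw [zero_pow two_ne_zero] at hi2
    norm_num at hi2
  set I : kˣ := Units.mk0 i hi0 with hI
  have hI2 : I ^ 2 = -1 := by
    apply Units.ext
    rw [Units.val_pow_eq_pow_val, Units.val_neg, Units.val_one]
    exact hi2
  have hYS : ∀ v ∈ pls Fr.S, LocP v (Y : k) := fun v hv' => lq0_locS Fr hl q q' hqq hty v hv'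
  -- exponents
  have hoa : ∀ p, ord (Fr.pl p) (a : k) = if p ∈ A then 1 else 0 := fun p => h_repO Fr (ua, A) p
  have hoY : ∀ p, ord (Fr.pl p) (Y : k) = if p ∈ ({q, q'} : Finset Fr.sys.P) then 1 else 0 :=
    fun p => h_repO Fr ((0 : Fr.sys.T), ({q, q'} : Finset Fr.sys.P)) p
  have h2 : ∀ p : Fr.sys.P, ord (Fr.pl p) (2 : k) = 0 := fun p => hb_two Fr p
  -- the minus sign is irrelevant
  have hsg : ∀ (v : Pl k) (x : kˣ), hv v (x : k) (-(a * Y) : k) = hv v (x : k) ((a * Y : kˣ) : k) := by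
    intro v x
    have e := lq0_congr hl v x (-(a * Y)) (a * Y) (by
      have e1 : -(a * Y) * (a * Y) = (I * (a * Y)) ^ 2 := by
        rw [mul_pow, hI2, neg_mul, neg_mul, one_mul, ← pow_two]
      rw [e1]
      exact Pool.Agent.H98.MF.B.LocP_sq v _)
    rw [← e, Units.val_neg, Units.val_mul]
  -- the representation
  obtain ⟨x, y, hxy⟩ := hRep a Y ((hSl a Y).1 ⟨g, hg⟩)
  obtain ⟨f, hth, hf⟩ := hTh a Y (x : k) y hxy
  obtain ⟨t, ht⟩ := (hKu a Y f g hf).1 hg
  have hgf : g = fun σ => f σ + chi (t : k) σ := funext ht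
  -- the obstruction
  set two : kˣ := Units.mk0 (2 : k) two_ne_zero with htwo
  have hob : ∀ v : Pl k, ob v a Y g = hv v (two : k) (Y : k) +
      hv v ((two * x * t : kˣ) : k) ((a * Y : kˣ) : k) := by
    intro v
    have e := hOb a Y x t y f hxy hth v
    rw [← hgf] at e
    rw [e]
    have e2 := hsg v (two * x * t)
    rw [← e2]
    rw [Units.val_mul, Units.val_mul]
    rfl
  -- the frame
  have hS1 : ∀ v ∈ pls Fr.S, hv v (c : k) (a : k) = ob v a Y g := by
    intro v hv'
    rw [hObH a Y c v g hg (Or.inr (hYS v hv')) (fun σ hσ => hc v hv' σ hσ), hsg, hl.mulR,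
      lq0_zero hl v c Y (hYS v hv'), add_zero]
  have hS2 : hS Fr c a = ∑ v ∈ pls Fr.S, ob v a Y g := by
    unfold hS
    exact Finset.sum_congr rfl hS1
  -- the primes of `A`
  have hA1 : ∀ p ∈ A, g (Rk.phi (Fr.pl p)) = ob (Sum.inl (Fr.pl p)) a Y g := by
    intro p hp
    have hpq : p ∉ ({q, q'} : Finset Fr.sys.P) := by
      intro h
      rcases Finset.mem_insert.1 h with h | h
      · exact hqA (h ▸ hp)
      · exact hqA' ((Finset.mem_singleton.1 h) ▸ hp)
    refine (hObF Fr Rk a Y g hg p ?_ (hgτ p)).symm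
    rw [hoa, hoY, if_pos hp, if_neg hpq]
    decide
  -- the sum over all places
  set B : Finset Fr.sys.P := A ∪ {q, q'} with hB
  have hsum : ∑ v ∈ pls (Fr.S ∪ B.image Fr.pl), ob v a Y g = 0 := by
    refine hObS a Y g hg _ fun P hP => ?_
    rw [Finset.mem_union, not_or] at hP
    obtain ⟨p, rfl⟩ := (Fr.pl_iff P).2 hP.1
    have hp : p ∉ B := fun hp => hP.2 (Finset.mem_image_of_mem _ hp)
    rw [hB, Finset.mem_union, not_or] at hp
    refine hObN Fr Rk a Y g hg p ?_ ?_ (hgτ p)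
    · rw [hoa, if_neg hp.1]
      exact Even.zero
    · rw [hoY, if_neg hp.2]
      exact Even.zero
  have hdis : Disjoint Fr.S (B.image Fr.pl) := by
    rw [Finset.disjoint_right]
    intro P hP
    obtain ⟨p, -, rfl⟩ := Finset.mem_image.1 hP
    exact (Fr.pl_iff _).1 ⟨p, rfl⟩
  have hsum2 : ∑ v ∈ pls (Fr.S ∪ B.image Fr.pl), ob v a Y g =
      ∑ v ∈ pls Fr.S, ob v a Y g + ∑ p ∈ B, ob (Sum.inl (Fr.pl p)) a Y g := by
    unfold pls
    rw [Finset.sum_disjSum, Finset.sum_disjSum, Finset.sum_union hdis,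
      Finset.sum_image fun p _ q _ hpq => Fr.pl_inj hpq]
    ring
  have hdA : Disjoint A {q, q'} := by
    rw [Finset.disjoint_right]
    intro p hp
    rcases Finset.mem_insert.1 hp with h | h
    · exact h ▸ hqA
    · exact (Finset.mem_singleton.1 h) ▸ hqA'
  rw [hsum2, hB, Finset.sum_union hdA, Finset.sum_pair hqq] at hsum
  have hmain : hS Fr c a + ∑ p ∈ A, g (Rk.phi (Fr.pl p)) =
      ob (Sum.inl (Fr.pl q)) a Y g + ob (Sum.inl (Fr.pl q')) a Y g := by
    rw [hS2, Finset.sum_congr rfl hA1]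
    have h : ∀ x y z w : ZMod 2, x + (y + (z + w)) = 0 → x + y = z + w := by decide
    exact h _ _ _ _ hsum
  rw [hmain]
  -- the obstruction at the two primes
  have hq1 : ∀ (p : Fr.sys.P), p ∈ ({q, q'} : Finset Fr.sys.P) → ∀ s : kˣ, IsRt (Fr.pl p) s a →
      ob (Sum.inl (Fr.pl p)) a Y g = qr (s : k) (Fr.pl p) + hs (Fr.pl p) (t : k) (Y : k) := by
    intro p hp s hs'
    have hpA : p ∉ A := Finset.disjoint_right.1 hdA hp
    have ha0 : ord (Fr.pl p) (a : k) = 0 := by rw [hoa, if_neg hpA]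
    have hY1 : ord (Fr.pl p) (Y : k) = 1 := by rw [hoY, if_pos hp]
    obtain ⟨hx0, hxr⟩ := lq0_root (h2 p) hi hxy ha0 hY1 hs'
    have hla : LocP (Sum.inl (Fr.pl p) : Pl k) (a : k) := by
      show LocSq (Fr.pl p) (a : k)
      have e1 : qr (a : k) (Fr.pl p) = qr ((s : k) ^ 2) (Fr.pl p) := by
        refine lq0_qr (h2 p) a.ne_zero (pow_ne_zero 2 s.ne_zero) ?_ ?_
        · rw [ord_pow, hs'.1]
          ring
        · rcases hs'.2 with h | h
          · exact Or.inl h
          · exact Or.inr h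
      rw [← qr_eq_zero, e1, qr_eq_zero]
      exact locSq_sq _ s.ne_zero
    rw [hob]
    have e2 : hv (Sum.inl (Fr.pl p)) (two : k) (Y : k) = qr (two : k) (Fr.pl p) := by
      have e := hl.unt (Fr.pl p) (h2 p) two Y (h2 p)
      rw [hY1, Int.cast_one, one_mul] at e
      exact e
    have e3 : hv (Sum.inl (Fr.pl p)) (x : k) (Y : k) = qr (x : k) (Fr.pl p) := by
      have e := hl.unt (Fr.pl p) (h2 p) x Y hx0
      rw [hY1, Int.cast_one, one_mul] at e
      exact e
    have e4 : hv (Sum.inl (Fr.pl p)) ((two * x * t : kˣ) : k) ((a * Y : kˣ) : k) =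
        hv (Sum.inl (Fr.pl p)) (two : k) (Y : k) + hv (Sum.inl (Fr.pl p)) (x : k) (Y : k) +
          hv (Sum.inl (Fr.pl p)) (t : k) (Y : k) := by
      rw [hl.mulR, lq0_zero hl _ _ a hla, zero_add, arp_hv_mul hl, arp_hv_mul hl]
    rw [e4, e3, e2, hxr]
    have h : ∀ x y z : ZMod 2, x + (x + y + z) = y + z := by decide
    exact h _ _ _
  rw [hq1 q (Finset.mem_insert_self _ _) r hr,
    hq1 q' (Finset.mem_insert_of_mem (Finset.mem_singleton_self _)) r' hr']
  -- the product formula for `(t, Y)`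
  have hloc : ∀ p : Fr.sys.P, p ∉ ({q, q'} : Finset Fr.sys.P) →
      hs (Fr.pl p) (t : k) (Y : k) = 0 := by
    intro p hp
    by_cases hYl : LocSq (Fr.pl p) (Y : k)
    · exact lq0_zero hl (Sum.inl (Fr.pl p)) t Y hYl
    · have hY0 : ord (Fr.pl p) (Y : k) = 0 := by rw [hoY, if_neg hp]
      have hqY : qr (Y : k) (Fr.pl p) ≠ 0 := fun h => hYl ((qr_eq_zero _).1 h)
      have hpA : p ∉ A := by
        intro hpA
        apply hqY
        have e1 := ((hSl a Y).1 ⟨g, hg⟩) (Sum.inl (Fr.pl p))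
        rw [hl.symm] at e1
        have e2 := hl.unt (Fr.pl p) (h2 p) Y a hY0
        rw [hoa, if_pos hpA, Int.cast_one, one_mul] at e2
        exact e2.symm.trans e1
      have ha0 : ord (Fr.pl p) (a : k) = 0 := by rw [hoa, if_neg hpA]
      obtain ⟨hx0, hy0⟩ := lq0_aniso (h2 p) hxy ha0 hY0 hYl
      have hT := Rk.tf (Fr.pl p) (h2 p)
      have hf0 := lq0_tau (h2 p) hT hxy hf hth ha0 hY0 (Or.inr hx0) hy0
      have ht0 : chi (t : k) (Rk.tau (Fr.pl p)) = 0 := by
        have e := ht (Rk.tau (Fr.pl p))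
        rw [hgτ p, hf0, zero_add] at e
        exact e.symm
      have hte : Even (ord (Fr.pl p) (t : k)) := by
        by_contra hodd
        rw [Int.not_even_iff_odd] at hodd
        rw [hT.chi1 (t : k) hodd] at ht0
        exact absurd ht0 (by decide)
      have e3 : hs (Fr.pl p) (t : k) (Y : k) = hs (Fr.pl p) (Y : k) (t : k) :=
        hl.symm (Sum.inl (Fr.pl p)) t Y
      rw [e3, hl.unt (Fr.pl p) (h2 p) Y t hY0]
      have e4 : ((ord (Fr.pl p) (t : k) : ℤ) : ZMod 2) = 0 := by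
        rw [ZMod.intCast_zmod_eq_zero_iff_dvd]
        exact hte.two_dvd
      rw [e4, zero_mul]
  set T : Finset (HeightOneSpectrum (𝓞 k)) := Fr.S ∪
    ((Pool.Agent.H98.MF.B.ord_finite (t : k) t.ne_zero).toFinset ∪
      (Pool.Agent.H98.MF.B.ord_finite (Y : k) Y.ne_zero).toFinset) with hTdef
  have htU : t ∈ US T := by
    rw [Pool.Agent.H98.MF.B.mem_US]
    intro Q hQ
    by_contra h
    apply hQ
    rw [hTdef, Finset.mem_union, Finset.mem_union, Set.Finite.mem_toFinset]
    exact Or.inr (Or.inl h)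
  have hYU : Y ∈ US T := by
    rw [Pool.Agent.H98.MF.B.mem_US]
    intro Q hQ
    by_contra h
    apply hQ
    rw [hTdef, Finset.mem_union, Finset.mem_union, Set.Finite.mem_toFinset,
      Set.Finite.mem_toFinset]
    exact Or.inr (Or.inr h)
  have hprod := hRec T (fun P hP => Finset.mem_union_left _ (Fr.adm.two P hP)) t htU Y hYU
  unfold pls at hprod
  rw [Finset.sum_disjSum] at hprod
  have hreal : ∑ φ : k →+* ℝ, hv (Sum.inr φ : Pl k) (t : k) (Y : k) = 0 := by
    refine Finset.sum_eq_zero fun φ _ => lq0_zero hl _ t Y (hYS _ ?_)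
    unfold pls
    rw [Finset.inr_mem_disjSum]
    exact Finset.mem_univ φ
  rw [hreal, add_zero] at hprod
  have hsub : ({Fr.pl q, Fr.pl q'} : Finset (HeightOneSpectrum (𝓞 k))) ⊆ T := by
    intro P hP
    rw [hTdef, Finset.mem_union, Finset.mem_union, Set.Finite.mem_toFinset,
      Set.Finite.mem_toFinset]
    refine Or.inr (Or.inr ?_)
    show ord P (Y : k) ≠ 0
    rcases Finset.mem_insert.1 hP with h | h
    · rw [h, hoY, if_pos (Finset.mem_insert_self _ _)]
      decide
    · rw [Finset.mem_singleton.1 h, hoY,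
        if_pos (Finset.mem_insert_of_mem (Finset.mem_singleton_self _))]
      decide
  have hpair : ∑ P ∈ T, hv (Sum.inl P : Pl k) (t : k) (Y : k) =
      hs (Fr.pl q) (t : k) (Y : k) + hs (Fr.pl q') (t : k) (Y : k) := by
    rw [← Finset.sum_subset hsub, Finset.sum_pair (fun h => hqq (Fr.pl_inj h))]
    · rfl
    · intro P _ hP
      by_cases hPS : P ∈ Fr.S
      · refine lq0_zero hl _ t Y (hYS _ ?_)
        unfold pls
        rw [Finset.inl_mem_disjSum]
        exact hPS
      · obtain ⟨p, rfl⟩ := (Fr.pl_iff P).2 hPS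
        refine hloc p fun hp => hP ?_
        rcases Finset.mem_insert.1 hp with h | h
        · rw [h]
          exact Finset.mem_insert_self _ _
        · rw [Finset.mem_singleton.1 h]
          exact Finset.mem_insert_of_mem (Finset.mem_singleton_self _)
  rw [hpair] at hprod
  have hfin : ∀ x y z w : ZMod 2, z + w = 0 → x + z + (y + w) = x + y := by decide
  exact hfin _ _ _ _ hprod

end

end Pool.Agent.D8
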