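import Pool.Agent.D8.LStm
import Pool.Agent.H98.MF.L.Odd

/-!
# The dihedral group of order 16 over a number field: the quartic kernel (LQ3)
-/

set_option autoImplicit false

open scoped BigOperators
open NumberField IsDedekindDomain

namespace Pool.Agent.D8

open Pool.Agent.H98.MF
open Pool.Agent.H98.MK (sg)

section

variable {F : Type} [Field F] [Fintype F] [DecidableEq F]

open Classical in
/-- the kernel on the residue field -/
noncomputable def lqkT (w : F) : ℤ :=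
  if h : ∃ r : F, r ≠ 0 ∧ w = r ^ 2 then quadraticChar F h.choose else 0

theorem lqk_qc_neg (h1 : IsSquare (-1 : F)) (r : F) :
    quadraticChar F (-r) = quadraticChar F r := by
  have h2 : quadraticChar F (-1) = 1 := (quadraticChar_one_iff_isSquare (neg_ne_zero.2 one_ne_zero)).2 h1
  rw [← neg_one_mul, map_mul, h2, one_mul]

theorem lqk_qc_sq (h1 : IsSquare (-1 : F)) {r r' : F} (h : r ^ 2 = r' ^ 2) :
    quadraticChar F r = quadraticChar F r' := by
  rcases sq_eq_sq_iff_eq_or_eq_neg.1 h with h | h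
  · rw [h]
  · rw [h, lqk_qc_neg h1]

theorem lqkT_sq (h1 : IsSquare (-1 : F)) {r : F} (hr : r ≠ 0) :
    lqkT (r ^ 2) = quadraticChar F r := by
  have h : ∃ r' : F, r' ≠ 0 ∧ r ^ 2 = r' ^ 2 := ⟨r, hr, rfl⟩
  unfold lqkT
  rw [dif_pos h]
  exact lqk_qc_sq h1 h.choose_spec.2.symm

theorem lqkT_not {w : F} (h : ¬ ∃ r : F, r ≠ 0 ∧ w = r ^ 2) : lqkT w = 0 := by
  unfold lqkT
  rw [dif_neg h]

theorem lqkT_sum (hF : ringChar F ≠ 2) (h1 : IsSquare (-1 : F)) : ∑ w : F, lqkT w = 0 := by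
  obtain ⟨n, hn⟩ := FiniteField.exists_nonsquare hF
  have hn0 : n ≠ 0 := by
    rintro rfl
    exact hn (IsSquare.zero)
  have hn1 : quadraticChar F n = -1 := quadraticChar_neg_one_iff_not_isSquare.2 hn
  have hT : ∀ w : F, lqkT (n ^ 2 * w) = -lqkT w := by
    intro w
    by_cases h : ∃ r : F, r ≠ 0 ∧ w = r ^ 2
    · obtain ⟨r, hr, rfl⟩ := h
      rw [← mul_pow, lqkT_sq h1 hr, lqkT_sq h1 (mul_ne_zero hn0 hr), map_mul, hn1]
      ring
    · rw [lqkT_not h, lqkT_not, neg_zero]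
      rintro ⟨r, hr, hrw⟩
      refine h ⟨r * n⁻¹, mul_ne_zero hr (inv_ne_zero hn0), ?_⟩
      have h3 : w = n⁻¹ ^ 2 * (n ^ 2 * w) := by
        field_simp
      rw [h3, hrw]
      ring
  have h2 : ∑ w : F, lqkT (n ^ 2 * w) = ∑ w : F, lqkT w :=
    Fintype.sum_equiv (Equiv.mulLeft₀ (n ^ 2) (pow_ne_zero 2 hn0)) _ _ fun w => rfl
  rw [Finset.sum_congr rfl fun w _ => hT w, Finset.sum_neg_distrib] at h2
  linarith

end

variable (k : Type) [Field k] [NumberField k]

/-- LQ3: the quartic kernel -/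
theorem lQK : SlQK k := by
  classical
  intro hi P h2
  have hmax : P.asIdeal.IsMaximal := P.isMaximal
  let _ : Field (𝓞 k ⧸ P.asIdeal) := Ideal.Quotient.field P.asIdeal
  have hfin : Finite (𝓞 k ⧸ P.asIdeal) := Ideal.finiteQuotientOfFreeOfNeBot _ P.ne_bot
  let _ : Fintype (𝓞 k ⧸ P.asIdeal) := Fintype.ofFinite _
  have hcard : nrm P = Fintype.card (𝓞 k ⧸ P.asIdeal) := by
    unfold nrm
    rw [Ideal.absNorm_apply, Submodule.cardQuot_apply, Nat.card_eq_fintype_card]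
  have hmem2 : (2 : 𝓞 k) ∉ P.asIdeal := by
    intro h
    have h3 := (le_ord_iff P (2 : 𝓞 k) 1).2 (by rwa [pow_one])
    rcases h3 with h3 | h3
    · exact two_ne_zero h3
    · have e : ((2 : 𝓞 k) : k) = (2 : k) := by
        push_cast
        rfl
      rw [e, h2] at h3
      norm_num at h3
  have h2F : (2 : 𝓞 k ⧸ P.asIdeal) ≠ 0 := by
    intro h
    apply hmem2
    rw [← Ideal.Quotient.eq_zero_iff_mem]
    exact h
  have hchar : ringChar (𝓞 k ⧸ P.asIdeal) ≠ 2 := by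
    intro h
    apply h2F
    have h1 : ((ringChar (𝓞 k ⧸ P.asIdeal) : ℕ) : 𝓞 k ⧸ P.asIdeal) = 0 :=
      ringChar.Nat.cast_ringChar
    rw [h] at h1
    exact_mod_cast h1
  -- `-1` is a square in the residue field
  have hneg : IsSquare (-1 : 𝓞 k ⧸ P.asIdeal) := by
    obtain ⟨t, ht⟩ := hi
    have hint : IsIntegral ℤ t := by
      refine ⟨Polynomial.X ^ 2 + Polynomial.C 1, ?_, ?_⟩
      · exact Polynomial.monic_X_pow_add_C 1 two_ne_zero
      · rw [Polynomial.eval₂_add, Polynomial.eval₂_pow, Polynomial.eval₂_X,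
          Polynomial.eval₂_C, map_one, pow_two, ← ht]
        ring
    let t' : 𝓞 k := ⟨t, hint⟩
    have ht' : t' * t' = -1 := by
      apply RingOfIntegers.ext
      push_cast
      exact ht.symm
    refine ⟨Ideal.Quotient.mk P.asIdeal t', ?_⟩
    rw [← map_mul, ht', map_neg, map_one]
  have hmk0 : ∀ r : 𝓞 k, r ∉ P.asIdeal ↔ Ideal.Quotient.mk P.asIdeal r ≠ 0 := by
    intro r
    rw [Ne, Ideal.Quotient.eq_zero_iff_mem]
  have hmks : ∀ u r : 𝓞 k, u - r ^ 2 ∈ P.asIdeal ↔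
      Ideal.Quotient.mk P.asIdeal u = Ideal.Quotient.mk P.asIdeal r ^ 2 := by
    intro u r
    rw [← map_pow, Ideal.Quotient.eq]
  -- the residue symbol
  have hqr : ∀ r : 𝓞 k, r ∉ P.asIdeal →
      sg (qr (r : k) P) = quadraticChar (𝓞 k ⧸ P.asIdeal) (Ideal.Quotient.mk P.asIdeal r) := by
    intro r hr
    have h3 := qr_int h2 r hr
    have h4 : (∃ c : 𝓞 k, r - c ^ 2 ∈ P.asIdeal) ↔ IsSquare (Ideal.Quotient.mk P.asIdeal r) := by
      constructor
      · rintro ⟨c, hc⟩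
        refine ⟨Ideal.Quotient.mk _ c, ?_⟩
        rw [(hmks r c).1 hc, pow_two]
      · rintro ⟨c, hc⟩
        obtain ⟨c, rfl⟩ := Ideal.Quotient.mk_surjective c
        exact ⟨c, (hmks r c).2 (by rw [hc, pow_two])⟩
    rw [h4] at h3
    by_cases h5 : IsSquare (Ideal.Quotient.mk P.asIdeal r)
    · rw [h3.2 h5, (quadraticChar_one_iff_isSquare ((hmk0 r).1 hr)).2 h5]
      rfl
    · rw [quadraticChar_neg_one_iff_not_isSquare.2 h5]
      have h6 : qr (r : k) P = 1 := by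
        have h7 : qr (r : k) P ≠ 0 := fun h => h5 (h3.1 h)
        unfold qr at h7 ⊢
        split_ifs at h7 ⊢ with h8
        · exact absurd rfl h7
        · rfl
      rw [h6]
      rfl
  -- the kernel
  have hex : ∀ u : 𝓞 k, (∃ r : 𝓞 k, r ∉ P.asIdeal ∧ u - r ^ 2 ∈ P.asIdeal) ↔
      ∃ r : 𝓞 k ⧸ P.asIdeal, r ≠ 0 ∧ Ideal.Quotient.mk P.asIdeal u = r ^ 2 := by
    intro u
    constructor
    · rintro ⟨r, hr, hru⟩
      exact ⟨_, (hmk0 r).1 hr, (hmks u r).1 hru⟩
    · rintro ⟨r, hr, hru⟩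
      obtain ⟨r, rfl⟩ := Ideal.Quotient.mk_surjective r
      exact ⟨r, (hmk0 r).2 hr, (hmks u r).2 hru⟩
  have hqk : ∀ u : 𝓞 k, qk P u = lqkT (Ideal.Quotient.mk P.asIdeal u) := by
    intro u
    by_cases h : ∃ r : 𝓞 k, r ∉ P.asIdeal ∧ u - r ^ 2 ∈ P.asIdeal
    · unfold qk
      rw [dif_pos h, hqr _ h.choose_spec.1, (hmks _ _).1 h.choose_spec.2,
        lqkT_sq hneg ((hmk0 _).1 h.choose_spec.1)]
    · unfold qk
      rw [dif_neg h, lqkT_not]
      rwa [← hex]
  refine ⟨?_, ?_, ?_, ?_, ?_⟩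
  · intro u
    unfold qk
    split_ifs with h
    · unfold sg
      split_ifs <;> norm_num
    · norm_num
  · intro u u' huu
    rw [hqk, hqk, Ideal.Quotient.eq.2 huu]
  · intro u r hr hru
    rw [hqk, (hmks u r).1 hru, lqkT_sq hneg ((hmk0 r).1 hr), hqr r hr]
  · intro u hu
    rw [hqk, lqkT_not]
    rwa [← hex]
  · intro s hs hsc
    have hinj : Set.InjOn (Ideal.Quotient.mk P.asIdeal) (s : Set (𝓞 k)) := by
      intro x hx y hy hxy
      exact hs x hx y hy (Ideal.Quotient.eq.1 hxy)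
    have himg : s.image (Ideal.Quotient.mk P.asIdeal) = Finset.univ := by
      apply Finset.eq_univ_of_card
      rw [Finset.card_image_of_injOn hinj, hsc, hcard]
    calc ∑ x ∈ s, qk P x = ∑ x ∈ s, lqkT (Ideal.Quotient.mk P.asIdeal x) :=
          Finset.sum_congr rfl fun x _ => hqk x
      _ = ∑ w ∈ s.image (Ideal.Quotient.mk P.asIdeal), lqkT w :=
          (Finset.sum_image hinj).symm
      _ = 0 := by rw [himg, lqkT_sum hchar hneg]

end Pool.Agent.D8
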