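import Pool.Agent.D8.LStm

/-!
# The dihedral group of order 16 over a number field: orthogonality of the quartic kernels (LQ4)
-/

set_option autoImplicit false

open scoped BigOperators
open NumberField IsDedekindDomain

namespace Pool.Agent.D8

open Pool.Agent.H98.MF
open Pool.Agent.H98.MK (sg)
open Pool.Agent.H32.MA.AB (Lat cube bxA mem_cube)

section

variable {A : Type} [CommRing A] {n c : ℕ}

/-- the sum over a complete system of residues is invariant under translations -/
theorem lqo_shift (L : Lat A n c) (g : A → ℤ) (Q : ℕ) (hQ : 1 ≤ Q)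
    (hper : ∀ x y, g (x + Q * y) = g x) (z : A) (u : Fin n → ℤ) :
    ∑ x ∈ cube L u Q, g (x + z) = ∑ x ∈ cube L u Q, g x := by
  classical
  have hQ' : (0 : ℤ) < Q := by exact_mod_cast hQ
  have hcast : ∀ (y : A) (i : Fin n), L.e ((Q : A) * y) i = Q * L.e y i := by
    intro y i
    have h1 : (Q : A) * y = Q • y := (nsmul_eq_mul _ _).symm
    rw [h1, map_nsmul]
    simp
  let rp : A → A := fun x => L.e.symm fun i => u i + (L.e x i - u i) % Q
  have hrep_mem : ∀ x, rp x ∈ cube L u Q := by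
    intro x
    rw [mem_cube]
    intro i
    have h1 : L.e (rp x) i = u i + (L.e x i - u i) % Q := by
      show L.e (L.e.symm _) i = _
      rw [L.e.apply_symm_apply]
    rw [h1]
    have h2 := Int.emod_nonneg (L.e x i - u i) hQ'.ne'
    have h3 := Int.emod_lt_of_pos (L.e x i - u i) hQ'
    constructor <;> linarith
  have hrep : ∀ x, ∃ y, x = rp x + Q * y := by
    intro x
    refine ⟨L.e.symm fun i => (L.e x i - u i) / Q, ?_⟩
    apply L.e.injective
    funext i
    rw [map_add, Pi.add_apply, hcast]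
    show L.e x i = L.e (L.e.symm _) i + Q * L.e (L.e.symm _) i
    rw [L.e.apply_symm_apply, L.e.apply_symm_apply]
    have := Int.emod_add_mul_ediv (L.e x i - u i) Q
    linarith
  have huniq : ∀ x ∈ cube L u Q, ∀ y ∈ cube L u Q, (∃ z, x - y = Q * z) → x = y := by
    intro x hx y hy hz
    obtain ⟨z, hz⟩ := hz
    rw [mem_cube] at hx hy
    apply L.e.injective
    funext i
    have h1 : L.e x i - L.e y i = Q * L.e z i := by
      rw [← hcast, ← hz, map_sub, Pi.sub_apply]
    obtain ⟨h2, h3⟩ := hx i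
    obtain ⟨h4, h5⟩ := hy i
    have h6 : L.e z i = 0 := by
      by_contra hne
      rcases lt_or_gt_of_ne hne with h | h
      · nlinarith
      · nlinarith
    rw [h6] at h1
    linarith
  have hgrep : ∀ x, g (rp x) = g x := by
    intro x
    obtain ⟨y, hy⟩ := hrep x
    conv_rhs => rw [hy]
    exact (hper _ _).symm
  refine Finset.sum_bij' (fun x _ => rp (x + z)) (fun x _ => rp (x - z))
    (fun x _ => hrep_mem _) (fun x _ => hrep_mem _) ?_ ?_ ?_
  · intro x hx
    obtain ⟨a, ha⟩ := hrep (x + z)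
    obtain ⟨b, hb⟩ := hrep (rp (x + z) - z)
    refine huniq _ (hrep_mem _) x hx ⟨-(a + b), ?_⟩
    have h1 : rp (rp (x + z) - z) = rp (x + z) - z - Q * b := by
      rw [eq_sub_iff_add_eq]
      exact hb.symm
    have h2 : rp (x + z) = x + z - Q * a := by
      rw [eq_sub_iff_add_eq]
      exact ha.symm
    rw [h1, h2]
    ring
  · intro x hx
    obtain ⟨a, ha⟩ := hrep (x - z)
    obtain ⟨b, hb⟩ := hrep (rp (x - z) + z)
    refine huniq _ (hrep_mem _) x hx ⟨-(a + b), ?_⟩
    have h1 : rp (rp (x - z) + z) = rp (x - z) + z - Q * b := by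
      rw [eq_sub_iff_add_eq]
      exact hb.symm
    have h2 : rp (x - z) = x - z - Q * a := by
      rw [eq_sub_iff_add_eq]
      exact ha.symm
    rw [h1, h2]
    ring
  · intro x _
    exact (hgrep _).symm

end

section

variable {k : Type} [Field k] [NumberField k]

/-- representatives of the residues modulo `P` in `Q` -/
theorem lqo_rep (P Q : HeightOneSpectrum (𝓞 k)) (hPQ : P ≠ Q) :
    ∃ R : Finset (𝓞 k), (∀ z ∈ R, z ∈ Q.asIdeal) ∧
      (∀ x ∈ R, ∀ y ∈ R, x - y ∈ P.asIdeal → x = y) ∧ R.card = nrm P := by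
  classical
  have hfin : Finite (𝓞 k ⧸ P.asIdeal) := Ideal.finiteQuotientOfFreeOfNeBot _ P.ne_bot
  have : Fintype (𝓞 k ⧸ P.asIdeal) := Fintype.ofFinite _
  have hsup : P.asIdeal ⊔ Q.asIdeal = ⊤ := by
    refine Ideal.IsMaximal.coprime_of_ne P.isMaximal Q.isMaximal ?_
    intro h
    exact hPQ (HeightOneSpectrum.ext h)
  have hone : (1 : 𝓞 k) ∈ P.asIdeal ⊔ Q.asIdeal := by
    rw [hsup]
    exact Submodule.mem_top
  obtain ⟨s, hs, t, ht, hst⟩ := Submodule.mem_sup.1 hone
  have hsur : ∀ w : 𝓞 k ⧸ P.asIdeal, ∃ z : 𝓞 k, z ∈ Q.asIdeal ∧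
      Ideal.Quotient.mk P.asIdeal z = w := by
    intro w
    obtain ⟨y, rfl⟩ := Ideal.Quotient.mk_surjective w
    refine ⟨y * t, Q.asIdeal.mul_mem_left y ht, ?_⟩
    rw [Ideal.Quotient.eq]
    have h1 : y * t - y = -(y * s) := by
      have : t = 1 - s := by rw [← hst]; ring
      rw [this]
      ring
    rw [h1]
    exact P.asIdeal.neg_mem (P.asIdeal.mul_mem_left y hs)
  choose f hfQ hf using hsur
  have hinj : Function.Injective f := by
    intro a b hab
    rw [← hf a, ← hf b, hab]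
  refine ⟨Finset.univ.image f, ?_, ?_, ?_⟩
  · intro z hz
    obtain ⟨w, -, rfl⟩ := Finset.mem_image.1 hz
    exact hfQ w
  · intro x hx y hy hxy
    obtain ⟨w, -, rfl⟩ := Finset.mem_image.1 hx
    obtain ⟨w', -, rfl⟩ := Finset.mem_image.1 hy
    have h1 : w = w' := by
      rw [← hf w, ← hf w']
      exact Ideal.Quotient.eq.2 hxy
    rw [h1]
  · rw [Finset.card_image_of_injective _ hinj, Finset.card_univ]
    unfold nrm
    rw [Ideal.absNorm_apply, Submodule.cardQuot_apply, Nat.card_eq_fintype_card]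

open scoped nonZeroDivisors in
theorem lqo_ord_two (P : HeightOneSpectrum (𝓞 k)) : 0 ≤ ord P (2 : k) := by
  have h : FractionalIdeal.spanSingleton (𝓞 k)⁰ (2 : k) =
      ((Ideal.span {(2 : 𝓞 k)} : Ideal (𝓞 k)) : FractionalIdeal (𝓞 k)⁰ k) := by
    rw [FractionalIdeal.coeIdeal_span_singleton]
    congr 1
  unfold ord
  rw [h]
  exact FractionalIdeal.count_coe_nonneg k P _

theorem lqo_nrm_pos (P : HeightOneSpectrum (𝓞 k)) : 1 ≤ nrm P := by
  obtain ⟨h1, h2⟩ : P.asIdeal ≠ ⊥ ∧ True := ⟨P.ne_bot, trivial⟩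
  unfold nrm
  rw [Nat.one_le_iff_ne_zero]
  intro h
  exact h1 (Ideal.absNorm_eq_zero_iff.1 h)

variable (Fr : Frm k)

/-- LQ4: the kernels are orthogonal over cubes -/
theorem lQO (h : SlQK k) : SlQO Fr := by
  classical
  intro hi c L p q hpq b d hb hd u
  have h2 : ∀ r : Fr.sys.P, ord (Fr.pl r) (2 : k) = 0 := by
    intro r
    have hr : Fr.pl r ∉ Fr.S := (Fr.pl_iff _).1 ⟨r, rfl⟩
    have h1 : 0 ≤ ord (Fr.pl r) (2 : k) := lqo_ord_two (Fr.pl r)
    rcases h1.eq_or_lt with h | h
    · exact h.symm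
    · exact absurd (Fr.adm.two _ h) hr
  obtain ⟨-, hP2, -, -, hP5⟩ := h hi (Fr.pl p) (h2 p)
  obtain ⟨-, hQ2, -, -, -⟩ := h hi (Fr.pl q) (h2 q)
  obtain ⟨R, hR1, hR2, hR3⟩ := lqo_rep (Fr.pl p) (Fr.pl q) fun e => hpq (Fr.pl_inj e)
  set P := Fr.pl p with hP
  set Q := Fr.pl q with hQ
  set m := nrm P * nrm Q with hm
  have hm1 : 1 ≤ m := Nat.mul_pos (lqo_nrm_pos P) (lqo_nrm_pos Q)
  have hPm : ∀ y : 𝓞 k, (m : 𝓞 k) * y ∈ P.asIdeal := by
    intro y
    rw [hm]
    push_cast
    rw [mul_assoc]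
    exact P.asIdeal.mul_mem_right _ (Ideal.absNorm_mem P.asIdeal)
  have hQm : ∀ y : 𝓞 k, (m : 𝓞 k) * y ∈ Q.asIdeal := by
    intro y
    rw [hm]
    push_cast
    rw [mul_comm (nrm P : 𝓞 k), mul_assoc]
    exact Q.asIdeal.mul_mem_right _ (Ideal.absNorm_mem Q.asIdeal)
  have hsh : ∀ z : 𝓞 k, ∑ x ∈ cube L u m, qk P (b * (x + z)) * qk Q (d * (x + z)) =
      ∑ x ∈ cube L u m, qk P (b * x) * qk Q (d * x) := by
    intro z
    refine lqo_shift L (fun x => qk P (b * x) * qk Q (d * x)) m hm1 ?_ z u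
    intro x y
    have e1 : qk P (b * (x + m * y)) = qk P (b * x) := by
      refine hP2 _ _ ?_
      have : b * (x + m * y) - b * x = b * (m * y) := by ring
      rw [this]
      exact P.asIdeal.mul_mem_left _ (hPm y)
    have e2 : qk Q (d * (x + m * y)) = qk Q (d * x) := by
      refine hQ2 _ _ ?_
      have : d * (x + m * y) - d * x = d * (m * y) := by ring
      rw [this]
      exact Q.asIdeal.mul_mem_left _ (hQm y)
    show qk P (b * (x + m * y)) * qk Q (d * (x + m * y)) = qk P (b * x) * qk Q (d * x)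
    rw [e1, e2]
  have hin : ∀ x : 𝓞 k, ∑ z ∈ R, qk P (b * (x + z)) = 0 := by
    intro x
    have hinj : Set.InjOn (fun z => b * (x + z)) (R : Set (𝓞 k)) := by
      intro z hz z' hz' hzz
      refine hR2 z hz z' hz' ?_
      have h3 : b * (x + z) = b * (x + z') := hzz
      have hb0 : b ≠ 0 := fun h0 => hb (h0 ▸ P.asIdeal.zero_mem)
      have h4 := mul_left_cancel₀ hb0 h3
      have h5 : z = z' := by linear_combination h4
      rw [h5, sub_self]
      exact P.asIdeal.zero_mem
    have h3 := hP5 (R.image fun z => b * (x + z)) ?_ ?_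
    · rw [Finset.sum_image hinj] at h3
      exact h3
    · intro y hy y' hy' hyy
      obtain ⟨z, hz, rfl⟩ := Finset.mem_image.1 hy
      obtain ⟨z', hz', rfl⟩ := Finset.mem_image.1 hy'
      have h4 : b * (z - z') ∈ P.asIdeal := by
        have : b * (z - z') = b * (x + z) - b * (x + z') := by ring
        rw [this]
        exact hyy
      rcases P.isPrime.mem_or_mem h4 with h5 | h5
      · exact absurd h5 hb
      · rw [hR2 z hz z' hz' h5]
    · rw [Finset.card_image_of_injOn hinj, hR3]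
  have hsum : (R.card : ℤ) * ∑ x ∈ cube L u m, qk P (b * x) * qk Q (d * x) = 0 := by
    calc (R.card : ℤ) * ∑ x ∈ cube L u m, qk P (b * x) * qk Q (d * x)
        = ∑ z ∈ R, ∑ x ∈ cube L u m, qk P (b * (x + z)) * qk Q (d * (x + z)) := by
          rw [Finset.sum_congr rfl fun z _ => hsh z, Finset.sum_const, nsmul_eq_mul]
      _ = ∑ x ∈ cube L u m, ∑ z ∈ R, qk P (b * (x + z)) * qk Q (d * (x + z)) :=
          Finset.sum_comm
      _ = ∑ x ∈ cube L u m, (∑ z ∈ R, qk P (b * (x + z))) * qk Q (d * x) := by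
          refine Finset.sum_congr rfl fun x _ => ?_
          rw [Finset.sum_mul]
          refine Finset.sum_congr rfl fun z hz => ?_
          have e2 : qk Q (d * (x + z)) = qk Q (d * x) := by
            refine hQ2 _ _ ?_
            have : d * (x + z) - d * x = d * z := by ring
            rw [this]
            exact Q.asIdeal.mul_mem_left _ (hR1 z hz)
          rw [e2]
      _ = 0 := by
          refine Finset.sum_eq_zero fun x _ => ?_
          rw [hin x, zero_mul]
  have hcard : (R.card : ℤ) ≠ 0 := by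
    rw [hR3]
    exact_mod_cast Nat.one_le_iff_ne_zero.1 (lqo_nrm_pos P)
  exact (mul_eq_zero.1 hsum).resolve_left hcard

end

end Pool.Agent.D8
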