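import Pool.Agent.D8.LQUa

/-!
# The dihedral group of order 16 over a number field, row LQ2: the values of the coefficient
function for two opposite classes, second part
-/

set_option autoImplicit false

open scoped BigOperators
open NumberField IsDedekindDomain

namespace Pool.Agent.D8

open Pool.Agent.H98.MF
open Pool.Agent.H98.MK (sg)
open Pool.Agent.H32.MQ (El rep co h_repO h_repQ hb_two hb_notMem hb_qr_sq)

section

variable {k : Type} [Field k] [NumberField k] (Fr : Frm k)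

/-! ### the values -/

/-- the configuration with two opposite classes -/
def qc {S : Sys} (a b : S.T) (A B : Finset S.P) : Cg S := ⟨A, ∅, ∅, B, a, b, a⟩

theorem qc_ea (a b : Fr.sys.T) (A B : Finset Fr.sys.P) :
    (qc a b A B).ea (Fr := Fr) = rep Fr (a, A) := by
  unfold Cg.ea qc
  rw [Finset.union_empty]

theorem qc_ee (a b : Fr.sys.T) (A B : Finset Fr.sys.P) :
    (qc a b A B).ee (Fr := Fr) = rep Fr (a, A) := by
  unfold Cg.ee qc
  rw [Finset.union_empty]

theorem qc_eb (a b : Fr.sys.T) (A B : Finset Fr.sys.P) :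
    (qc a b A B).eb (Fr := Fr) = rep Fr (b, B) := by
  unfold Cg.eb qc
  rw [Finset.empty_union]

variable (Rk : RxF k)

theorem qu_rf (hF : SaObF k) (hi : SaRi Fr Rk) {G : LDt k} (hG : SLoc Fr G) (a b : Fr.sys.T)
    {A B : Finset Fr.sys.P} (hD : (qc a b A B).Dj) (hC2 : (qc a b A B).C2)
    {f : Gm k → ZMod 2} (hf : IsL Fr Rk (rep Fr (a, A)) (rep Fr (b, B)) ∅ f) :
    Rf Fr Rk G (qc a b A B) = Gh Fr G (rep Fr (a, A)) (rep Fr (a, A)) (rep Fr (b, B)) f *
      ((sg (∑ p ∈ A, f (Rk.phi (Fr.pl p))) : ℤ) : ℝ) := by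
  classical
  have h1 := hi G hG (qc a b A B) f hD hC2 (by
    rw [qc_ea, qc_eb]
    exact ⟨hf.1, fun p _ => hf.2 p (Finset.notMem_empty p)⟩)
  rw [qc_ea, qc_eb, qc_ee] at h1
  rw [h1]
  have h2 : (qc a b A B).x1 ∪ (qc a b A B).x3 = A := Finset.union_empty A
  rw [h2]
  congr 3
  refine Finset.sum_congr rfl fun p hp => ?_
  have hpB : p ∉ B := by
    have h3 := hD.2.2
    unfold qc at h3
    rw [Finset.union_empty, Finset.empty_union] at h3
    exact Finset.disjoint_left.1 h3 hp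
  refine hF Fr Rk _ _ f hf.1 p ?_ (hf.2 p (Finset.notMem_empty p))
  have o1 := h_repO Fr (a, A) p
  have o2 := h_repO Fr (b, B) p
  rw [o1, o2, if_pos (show p ∈ (a, A).2 from hp), if_neg (show p ∉ (b, B).2 from hpB)]
  exact odd_one

theorem qu_Gh {a b b' : kˣ} (hb : ∀ σ : Gm k, chi (b : k) σ = chi (b' : k) σ) (G : LDt k)
    (κ : kˣ) (f : Gm k → ZMod 2) : Gh Fr G κ a b f = Gh Fr G κ a b' f := by
  unfold Gh
  have h : ∀ g : Gm k → ZMod 2, dat a b g = dat a b' g := fun g => by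
    unfold dat
    funext σ
    rw [hb σ]
  simp only [h]

theorem qu_two (h0 : SlQ0 Fr Rk) (hB : SlTrB Fr) (hF : SaObF k)
    (hi : SaRi Fr Rk) (hN : SaNor Fr Rk) (hneg : IsSquare (-1 : k)) {G : LDt k}
    (hG : SLoc Fr G) {a b : Fr.sys.T} {A W : Finset Fr.sys.P} {x x' : Fr.sys.P} (h : x ≠ x')
    (hx : Fr.sys.ty x = 0) (hx' : Fr.sys.ty x' = 0) (hxW : x ∉ W) (hxW' : x' ∉ W)
    (hD : (qc a b A (insert x W)).Dj) (hD' : (qc a b A (insert x' W)).Dj)
    (hC : (qc a b A (insert x W)).C1) (hC' : (qc a b A (insert x' W)).C1)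
    (hC2 : (qc a b A (insert x W)).C2) (hC2' : (qc a b A (insert x' W)).C2)
    {r r' : kˣ} (hr : IsRt (Fr.pl x) r (rep Fr (a, A)))
    (hr' : IsRt (Fr.pl x') r' (rep Fr (a, A))) :
    Rf Fr Rk G (qc a b A (insert x W)) * ((sg (qr (r : k) (Fr.pl x)) : ℤ) : ℝ) =
      Rf Fr Rk G (qc a b A (insert x' W)) * ((sg (qr (r' : k) (Fr.pl x')) : ℤ) : ℝ) := by
  classical
  have dis : ∀ B : Finset Fr.sys.P, (qc a b A B).Dj → Disjoint A B := fun B hB' => by
    have h3 := hB'.2.2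
    unfold qc at h3
    rwa [Finset.union_empty, Finset.empty_union] at h3
  have hxA : x ∉ A := Finset.disjoint_right.1 (dis _ hD) (Finset.mem_insert_self x W)
  have hxA' : x' ∉ A := Finset.disjoint_right.1 (dis _ hD') (Finset.mem_insert_self x' W)
  have toQ : ∀ B : Finset Fr.sys.P, (qc a b A B).C1 → QC Fr a b A B := fun B hB' => by
    unfold qc Cg.C1 at hB'
    rw [Finset.union_empty, Finset.empty_union] at hB'
    exact hB'
  have hs := qu_slv Fr h hx hx' hxW hxW' hxA hxA' (toQ _ hC) (toQ _ hC')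
  obtain ⟨g, hg⟩ := hN _ _ hs
  have hchi := fun σ => qu_chi Fr (b := b) h hxW hxW' σ
  have hchi' : ∀ σ : Gm k, chi (rep Fr (b, insert x W) : k) σ =
      chi (rep Fr (b, insert x' W) : k) σ + chi (rep Fr (0, {x, x'}) : k) σ := fun σ => by
    rw [hchi σ]
    have key : ∀ s t : ZMod 2, s = s + t + t := by decide
    exact key _ _
  by_cases hex : ∃ f, IsL Fr Rk (rep Fr (a, A)) (rep Fr (b, insert x W)) ∅ f
  · obtain ⟨f, hf⟩ := hex
    have hf' : IsL Fr Rk (rep Fr (a, A)) (rep Fr (b, insert x' W)) ∅ fun σ => f σ + g σ :=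
      ⟨qu_add hchi hf.1 hg.1, fun p hp => by
        show f (Rk.tau (Fr.pl p)) + g (Rk.tau (Fr.pl p)) = 0
        rw [hf.2 p hp, hg.2 p hp, add_zero]⟩
    rw [qu_rf Fr Rk hF hi hG a b hD hC2 hf, qu_rf Fr Rk hF hi hG a b hD' hC2' hf']
    obtain ⟨c, hc, hGh⟩ := hB G hG (rep Fr (a, A)) (rep Fr (b, insert x W))
      (rep Fr (0, {x, x'})) (rep Fr (a, A)) f g hf.1 hg.1 (qu_locY Fr h hx hx')
    have hq := h0 hneg A a x x' h hxA hxA' (hx.trans hx'.symm) g hg.1
      (fun p => hg.2 p (Finset.notMem_empty p)) c hc r r' hr hr'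
    have e1 : Gh Fr G (rep Fr (a, A)) (rep Fr (a, A)) (rep Fr (b, insert x' W))
        (fun σ => f σ + g σ) = Gh Fr G (rep Fr (a, A)) (rep Fr (a, A))
        (rep Fr (b, insert x W) * rep Fr (0, {x, x'})) (fun σ => f σ + g σ) :=
      qu_Gh Fr (fun σ => by rw [aob_chi_mul, hchi σ]) G _ _
    have e2 : ∑ p ∈ A, (f (Rk.phi (Fr.pl p)) + g (Rk.phi (Fr.pl p))) =
        ∑ p ∈ A, f (Rk.phi (Fr.pl p)) + ∑ p ∈ A, g (Rk.phi (Fr.pl p)) :=
      Finset.sum_add_distrib
    rw [e1, hGh, e2]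
    have key : ∀ s t u w v : ZMod 2, s + t = u + w → sg v * sg u = sg s * sg (v + t) * sg w := by
      decide
    have e3 := congrArg (Int.cast (R := ℝ))
      (key _ _ _ _ (∑ p ∈ A, f (Rk.phi (Fr.pl p))) hq)
    push_cast at e3
    linear_combination (Gh Fr G (rep Fr (a, A)) (rep Fr (a, A)) (rep Fr (b, insert x W)) f) * e3
  · have hex' : ¬ ∃ f, IsL Fr Rk (rep Fr (a, A)) (rep Fr (b, insert x' W)) ∅ f := by
      rintro ⟨f, hf⟩
      exact hex ⟨fun σ => f σ + g σ, qu_add hchi' hf.1 hg.1, fun p hp => by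
        show f (Rk.tau (Fr.pl p)) + g (Rk.tau (Fr.pl p)) = 0
        rw [hf.2 p hp, hg.2 p hp, add_zero]⟩
    have z1 : Rf Fr Rk G (qc a b A (insert x W)) = 0 := by
      unfold Rf
      rw [dif_neg]
      rwa [qc_ea, qc_eb]
    have z2 : Rf Fr Rk G (qc a b A (insert x' W)) = 0 := by
      unfold Rf
      rw [dif_neg]
      rwa [qc_ea, qc_eb]
    rw [z1, z2, zero_mul, zero_mul]

theorem qu_cg {a b : Fr.sys.T} {w : V → Finset Fr.sys.P}
    (hw : ∀ t, t ≠ (1, 0) → t ≠ (0, 1) → w t = ∅) (x y : Fr.sys.P) :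
    toCg a b a (ins (1, 0) x (ins (0, 1) y w)) =
      qc a b (insert y (w (0, 1))) (insert x (w (1, 0))) := by
  have n1 : ((0, 1) : V) ≠ (1, 0) := by decide
  have n2 : ((0, 0) : V) ≠ (1, 0) := by decide
  have n3 : ((0, 0) : V) ≠ (0, 1) := by decide
  have n4 : ((1, 1) : V) ≠ (1, 0) := by decide
  have n5 : ((1, 1) : V) ≠ (0, 1) := by decide
  unfold toCg qc ins
  rw [Function.update_of_ne n1, Function.update_self, Function.update_of_ne n2,
    Function.update_of_ne n3, Function.update_of_ne n4, Function.update_of_ne n5,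
    Function.update_self, Function.update_of_ne n1.symm, hw _ n2 n3, hw _ n4 n5]

open Classical in
/-- LQ2: the values of the coefficient function for two opposite classes -/
theorem lQU (hA : SlAdm) (h0 : SlQ0 Fr Rk) (hB : SlTrB Fr) (hF : SaObF k) (hi : SaRi Fr Rk)
    (hb : SaRb Fr Rk) (hN : SaNor Fr Rk) : SlQU Fr Rk := by
  intro hneg G hG hG1 a b w hw
  obtain ⟨A, hA'⟩ : ∃ A : Fr.sys.P → Finset Fr.sys.P, A = fun y => insert y (w (0, 1)) :=
    ⟨_, rfl⟩
  -- the value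
  have hval : ∀ x y, Ad2 (mkc a b a) (1, 0) (0, 1) w x y →
      t2 (mkc a b a) (RR Fr Rk G a b a) (1, 0) (0, 1) w x y =
        Rf Fr Rk G (qc a b (A y) (insert x (w (1, 0)))) := by
    intro x y had
    have had1 := had
    unfold Ad2 at had1
    unfold t2
    rw [if_pos had1]
    unfold RR
    rw [if_neg, qu_cg Fr hw, hA']
    have n1 : ((0, 1) : V) ≠ (1, 0) := by decide
    have m1 : y ∈ ins (1, 0) x (ins (0, 1) y w) (0, 1) := by
      unfold ins
      rw [Function.update_of_ne n1, Function.update_self]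
      exact Finset.mem_insert_self _ _
    have m2 : x ∈ ins (1, 0) x (ins (0, 1) y w) (1, 0) := by
      unfold ins
      rw [Function.update_self]
      exact Finset.mem_insert_self _ _
    rintro (⟨-, h1⟩ | ⟨-, h1⟩ | ⟨-, h1⟩)
    · unfold sid at h1
      exact Finset.notMem_empty y (h1 ▸ Finset.mem_union_right _ m1)
    · unfold sid at h1
      exact Finset.notMem_empty x (h1 ▸ Finset.mem_union_left _ m2)
    · exact Finset.notMem_empty x ((h1 (1, 0)) ▸ m2)
  -- the conditions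
  have hcond : ∀ x y, Ad2 (mkc a b a) (1, 0) (0, 1) w x y →
      Fr.sys.ty x = 0 ∧ x ∉ w (1, 0) ∧ (qc a b (A y) (insert x (w (1, 0)))).Dj ∧
        (qc a b (A y) (insert x (w (1, 0)))).C1 ∧ (qc a b (A y) (insert x (w (1, 0)))).C2 := by
    intro x y had
    have h1 := (hA Fr.sys a b a _).1 had.2.2.2.2.2
    rw [qu_cg Fr hw] at h1
    rw [hA']
    exact ⟨had.1, had.2.2.2.1 _, h1.1, h1.2.1, h1.2.2⟩
  refine ⟨fun y => if h : ∃ (x : Fr.sys.P) (r : kˣ), Ad2 (mkc a b a) (1, 0) (0, 1) w x y ∧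
      IsRt (Fr.pl x) r (rep Fr (a, A y)) then
        Rf Fr Rk G (qc a b (A y) (insert h.choose (w (1, 0)))) *
          ((sg (qr (h.choose_spec.choose : k) (Fr.pl h.choose)) : ℤ) : ℝ)
      else 0, fun y => ?_, fun x y had r hr => ?_⟩
  · show |dite _ _ _| ≤ 1
    split_ifs with h
    · rw [abs_mul, arp_sg_abs, mul_one]
      exact hb G hG1 _
    · rw [abs_zero]
      exact zero_le_one
  · have hr2 : IsRt (Fr.pl x) r (rep Fr (a, A y)) := by
      rw [hA']
      exact hr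
    have hex : ∃ (x : Fr.sys.P) (r : kˣ), Ad2 (mkc a b a) (1, 0) (0, 1) w x y ∧
        IsRt (Fr.pl x) r (rep Fr (a, A y)) := ⟨x, r, had, hr2⟩
    rw [hval x y had]
    show _ = dite _ _ _ * _
    rw [dif_pos hex]
    obtain ⟨had', hr'⟩ := hex.choose_spec.choose_spec
    have hsq : ((sg (qr (r : k) (Fr.pl x)) : ℤ) : ℝ) * ((sg (qr (r : k) (Fr.pl x)) : ℤ) : ℝ) = 1 := by
      have := congrArg (Int.cast (R := ℝ)) (arp_sg_self (qr (r : k) (Fr.pl x)))
      push_cast at this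
      exact this
    have key : ∀ (x1 : Fr.sys.P) (r1 : kˣ), Ad2 (mkc a b a) (1, 0) (0, 1) w x1 y →
        IsRt (Fr.pl x1) r1 (rep Fr (a, A y)) →
        Rf Fr Rk G (qc a b (A y) (insert x (w (1, 0)))) *
          ((sg (qr (r : k) (Fr.pl x)) : ℤ) : ℝ) =
        Rf Fr Rk G (qc a b (A y) (insert x1 (w (1, 0)))) *
          ((sg (qr (r1 : k) (Fr.pl x1)) : ℤ) : ℝ) := by
      intro x1 r1 had1 hr1
      by_cases hxx : x = x1
      · subst hxx
        rw [qu_root hneg (hb_two Fr x) hr2 hr1]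
      · obtain ⟨c1, c2, c3, c4, c5⟩ := hcond x y had
        obtain ⟨d1, d2, d3, d4, d5⟩ := hcond _ y had1
        exact qu_two Fr Rk h0 hB hF hi hN hneg hG hxx c1 d1 c2 d2 c3 d3 c4 d4 c5 d5 hr2 hr1
    rw [← key _ _ had' hr', mul_assoc, hsq, mul_one]

end

end Pool.Agent.D8
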