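import Pool.Agent.D8.LStm

/-!
# The dihedral group of order 16 over a number field: separation of the conditions (row LA1)
-/

set_option autoImplicit false
set_option linter.unusedSimpArgs false

open scoped BigOperators

namespace Pool.Agent.D8

open Pool.Agent.H98.MF
open Pool.Agent.H32.MQ (El)

private theorem ls_all {Q : ZMod 2 → Prop} : (∀ i, Q i) ↔ Q 0 ∧ Q 1 := by
  constructor
  · intro h
    exact ⟨h 0, h 1⟩
  · rintro ⟨h0, h1⟩ i
    have h : i = 0 ∨ i = 1 := by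
      revert i
      decide
    rcases h with h | h
    · rw [h]
      exact h0
    · rw [h]
      exact h1

private theorem ls_allV {Q : V → Prop} :
    (∀ u, Q u) ↔ Q (0, 0) ∧ Q (0, 1) ∧ Q (1, 0) ∧ Q (1, 1) := by
  rw [Prod.forall, ls_all]
  rw [ls_all, ls_all, and_assoc]

private theorem ls_01 : (0 : ZMod 2) + 1 = 1 := by decide
private theorem ls_11 : (1 : ZMod 2) + 1 = 0 := by decide

private theorem ls_cnd {S : Sys} (c : Co S) (hc : c.Ok ∅) (X : V → Finset S.P) :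
    Cnd c X ↔
      (∀ p ∈ X (0, 0), S.ex (X (1, 0) ∪ X (1, 1)) (c.f 1).1 p = 0 ∧
        S.ex (X (0, 1) ∪ X (1, 1)) (c.g 1).1 p = 0) ∧
      (∀ p ∈ X (0, 1), S.ex (X (1, 0) ∪ X (1, 1)) (c.f 1).1 p = 0 ∧
        S.ex (X (0, 0) ∪ X (1, 0)) (c.g 0).1 p = 0) ∧
      (∀ p ∈ X (1, 0), S.ex (X (0, 0) ∪ X (0, 1)) (c.f 0).1 p = 0 ∧
        S.ex (X (0, 1) ∪ X (1, 1)) (c.g 1).1 p = 0) ∧
      (∀ p ∈ X (1, 1), S.ex (X (0, 0) ∪ X (0, 1)) (c.f 0).1 p = 0 ∧
        S.ex (X (0, 0) ∪ X (1, 0)) (c.g 0).1 p = 0) := by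
  have hf : ∀ i, (c.f i).2 = ∅ := fun i => Finset.subset_empty.1 (hc.f_sub i)
  have hg : ∀ i, (c.g i).2 = ∅ := fun i => Finset.subset_empty.1 (hc.g_sub i)
  unfold Cnd
  rw [ls_allV]
  simp only [ls_01, ls_11, hf, hg, Finset.union_empty, sid, knd]

private theorem ls_ex {S : Sys} {q : S.P} {y : Finset S.P} (h : q ∉ y) (c : S.T) (p : S.P) :
    S.ex (insert q y) c p = S.J q p + S.ex y c p := by
  unfold Sys.ex
  rw [Finset.sum_insert h, add_assoc]

private theorem ls_sym {S : Sys} {p q : S.P} (h : p ≠ q) (hp : S.ty p = 0) :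
    S.J p q = S.J q p := by
  have h1 := S.recip p q h
  rw [hp, dotProduct_zero, zero_mul] at h1
  have h2 : ∀ a b : ZMod 2, a + b = 0 → a = b := by decide
  exact h2 _ _ h1

private theorem ls_dj {S : Sys} {w : V → Finset S.P} :
    S.Dj w ↔ Disjoint (w (0, 0)) (w (0, 1)) ∧ Disjoint (w (0, 0)) (w (1, 0)) ∧
      Disjoint (w (0, 0)) (w (1, 1)) ∧ Disjoint (w (0, 1)) (w (1, 0)) ∧
      Disjoint (w (0, 1)) (w (1, 1)) ∧ Disjoint (w (1, 0)) (w (1, 1)) := by
  constructor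
  · intro h
    exact ⟨h _ _ (by decide), h _ _ (by decide), h _ _ (by decide), h _ _ (by decide),
      h _ _ (by decide), h _ _ (by decide)⟩
  · rintro ⟨h1, h2, h3, h4, h5, h6⟩
    unfold Sys.Dj
    rw [ls_allV]
    refine ⟨?_, ?_, ?_, ?_⟩ <;> rw [ls_allV] <;> refine ⟨?_, ?_, ?_, ?_⟩ <;> intro hh
    all_goals first
      | exact absurd rfl hh
      | assumption
      | (apply Disjoint.symm; assumption)


/-- the values of the configuration with three new primes -/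
private theorem ls_X3 {S : Sys} (w : V → Finset S.P) (x y z : S.P) :
    ins (0, 0) x (ins (1, 0) y (ins (0, 1) z w)) (0, 0) = insert x (w (0, 0)) ∧
    ins (0, 0) x (ins (1, 0) y (ins (0, 1) z w)) (0, 1) = insert z (w (0, 1)) ∧
    ins (0, 0) x (ins (1, 0) y (ins (0, 1) z w)) (1, 0) = insert y (w (1, 0)) ∧
    ins (0, 0) x (ins (1, 0) y (ins (0, 1) z w)) (1, 1) = w (1, 1) := by
  unfold ins
  refine ⟨?_, ?_, ?_, ?_⟩
  · rw [Function.update_self, Function.update_of_ne (by decide), Function.update_of_ne (by decide)]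
  · rw [Function.update_of_ne (by decide), Function.update_of_ne (by decide),
      Function.update_self]
  · rw [Function.update_of_ne (by decide), Function.update_self,
      Function.update_of_ne (by decide)]
  · rw [Function.update_of_ne (by decide), Function.update_of_ne (by decide),
      Function.update_of_ne (by decide)]

/-- disjointness of the configuration with three new primes -/
private theorem ls_D3 {S : Sys} {w : V → Finset S.P} {x y z : S.P} (hxy : x ≠ y) (hxz : x ≠ z)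
    (hyz : y ≠ z) (hx : New x w) (hy : New y w) (hz : New z w) :
    S.Dj (ins (0, 0) x (ins (1, 0) y (ins (0, 1) z w))) ↔ S.Dj w := by
  obtain ⟨e1, e2, e3, e4⟩ := ls_X3 w x y z
  rw [ls_dj, ls_dj, e1, e2, e3, e4]
  simp only [Finset.disjoint_insert_left, Finset.disjoint_insert_right, Finset.mem_insert,
    hx (0, 0), hx (0, 1), hx (1, 0), hx (1, 1), hy (0, 0), hy (0, 1), hy (1, 0), hy (1, 1),
    hz (0, 0), hz (0, 1), hz (1, 0), hz (1, 1), hxy, hxz, hyz, hxy.symm, hxz.symm, hyz.symm,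
    not_false_eq_true, true_and, or_false, not_or, and_true, and_self, ne_eq, or_self]

/-- LA1: the conditions on two primes are separated -/
theorem lSep : SlSep := by
  intro S c w x hc
  refine ⟨fun y => S.ty x = 0 ∧ New x w ∧ S.Dj w ∧ S.ty y = 0 ∧ x ≠ y ∧ New y w ∧
      (∀ p ∈ insert x (w (0, 0)), S.ex (insert y (w (1, 0)) ∪ w (1, 1)) (c.f 1).1 p = 0) ∧
      (∀ p ∈ w (0, 1), S.ex (insert y (w (1, 0)) ∪ w (1, 1)) (c.f 1).1 p = 0 ∧
        S.ex (insert x (w (0, 0)) ∪ insert y (w (1, 0))) (c.g 0).1 p = 0) ∧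
      (∀ p ∈ w (1, 1), S.ex (insert x (w (0, 0)) ∪ insert y (w (1, 0))) (c.g 0).1 p = 0) ∧
      S.J x y + S.ex (w (0, 0) ∪ w (0, 1)) (c.f 0).1 y =
        S.ex (w (0, 1) ∪ w (1, 1)) (c.g 1).1 y,
    fun z => S.ty z = 0 ∧ x ≠ z ∧ New z w ∧
      (∀ p ∈ insert x (w (0, 0)), S.ex (insert z (w (0, 1)) ∪ w (1, 1)) (c.g 1).1 p = 0) ∧
      (∀ p ∈ w (1, 0), S.ex (insert x (w (0, 0)) ∪ insert z (w (0, 1))) (c.f 0).1 p = 0 ∧
        S.ex (insert z (w (0, 1)) ∪ w (1, 1)) (c.g 1).1 p = 0) ∧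
      (∀ p ∈ w (1, 1), S.ex (insert x (w (0, 0)) ∪ insert z (w (0, 1))) (c.f 0).1 p = 0) ∧
      S.J x z + S.ex (w (0, 0) ∪ w (1, 0)) (c.g 0).1 z =
        S.ex (w (1, 0) ∪ w (1, 1)) (c.f 1).1 z,
    fun y => S.ex (w (0, 1) ∪ w (1, 1)) (c.g 1).1 y,
    fun z => S.ex (w (1, 0) ∪ w (1, 1)) (c.f 1).1 z, ?_⟩
  intro y z
  by_cases hx : S.ty x = 0 ∧ New x w
  swap
  · constructor
    · rintro ⟨h1, -, -, -, -, -, h2, -⟩
      exact absurd ⟨h1, h2⟩ hx
    · rintro ⟨⟨h1, h2, -⟩, -⟩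
      exact absurd ⟨h1, h2⟩ hx
  by_cases hy : S.ty y = 0 ∧ New y w ∧ x ≠ y
  swap
  · constructor
    · rintro ⟨-, h1, -, h3, -, -, -, h2, -⟩
      exact absurd ⟨h1, h2, h3⟩ hy
    · rintro ⟨⟨-, -, -, h1, h2, h3, -⟩, -⟩
      exact absurd ⟨h1, h3, h2⟩ hy
  by_cases hz : S.ty z = 0 ∧ New z w ∧ x ≠ z
  swap
  · constructor
    · rintro ⟨-, -, h1, -, h3, -, -, -, h2, -⟩
      exact absurd ⟨h1, h2, h3⟩ hz
    · rintro ⟨-, ⟨h1, h2, h3, -⟩, -⟩
      exact absurd ⟨h1, h3, h2⟩ hz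
  by_cases hyz : y = z
  · constructor
    · rintro ⟨-, -, -, -, -, h1, -⟩
      exact absurd hyz h1
    · rintro ⟨-, -, h1, -⟩
      exact absurd hyz h1
  obtain ⟨hx0, hx1⟩ := hx
  obtain ⟨hy0, hy1, hxy⟩ := hy
  obtain ⟨hz0, hz1, hxz⟩ := hz
  have hA : Adm ∅ c (ins (0, 0) x (ins (1, 0) y (ins (0, 1) z w))) ↔
      S.Dj w ∧ Cnd c (ins (0, 0) x (ins (1, 0) y (ins (0, 1) z w))) := by
    constructor
    · intro h
      exact ⟨(ls_D3 hxy hxz hyz hx1 hy1 hz1).1 h.dj, h.cnd⟩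
    · intro h
      exact ⟨(ls_D3 hxy hxz hyz hx1 hy1 hz1).2 h.1, fun u => Finset.disjoint_empty_right _, h.2⟩
  have hJ : S.J z y = S.J y z := ls_sym (Ne.symm hyz) hz0
  unfold Ad3
  rw [hA, ls_cnd c hc]
  obtain ⟨e1, e2, e3, e4⟩ := ls_X3 w x y z
  rw [e1, e2, e3, e4]
  have hz01 : S.ex (insert y (w (1, 0)) ∪ w (1, 1)) (c.f 1).1 z =
      S.J y z + S.ex (w (1, 0) ∪ w (1, 1)) (c.f 1).1 z := by
    rw [Finset.insert_union, ls_ex]
    simp [hy1 (1, 0), hy1 (1, 1)]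
  have hz02 : S.ex (insert x (w (0, 0)) ∪ insert y (w (1, 0))) (c.g 0).1 z =
      S.J x z + (S.J y z + S.ex (w (0, 0) ∪ w (1, 0)) (c.g 0).1 z) := by
    rw [Finset.insert_union, Finset.union_insert, ls_ex, ls_ex]
    · simp [hy1 (1, 0), hy1 (0, 0)]
    · simp [hx1 (1, 0), hx1 (0, 0), hxy]
  have hy01 : S.ex (insert x (w (0, 0)) ∪ insert z (w (0, 1))) (c.f 0).1 y =
      S.J x y + (S.J y z + S.ex (w (0, 0) ∪ w (0, 1)) (c.f 0).1 y) := by
    rw [Finset.insert_union, Finset.union_insert, ls_ex, ls_ex, hJ]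
    · simp [hz1 (0, 1), hz1 (0, 0)]
    · simp [hx1 (0, 1), hx1 (0, 0), hxz]
  have hy02 : S.ex (insert z (w (0, 1)) ∪ w (1, 1)) (c.g 1).1 y =
      S.J y z + S.ex (w (0, 1) ∪ w (1, 1)) (c.g 1).1 y := by
    rw [Finset.insert_union, ls_ex, hJ]
    simp [hz1 (0, 1), hz1 (1, 1)]
  have k1 : ∀ a b : ZMod 2, a + b = 0 ↔ a = b := by decide
  have k2 : ∀ a b d : ZMod 2, a + (b + d) = 0 ↔ a + d = b := by decide
  constructor
  · rintro ⟨-, -, -, -, -, -, -, -, -, hD, h1, h2, h3, h4⟩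
    have hz3 := h2 z (Finset.mem_insert_self _ _)
    have hy3 := h3 y (Finset.mem_insert_self _ _)
    rw [hz01, hz02, k1, k2] at hz3
    rw [hy01, hy02, k2, k1] at hy3
    refine ⟨⟨hx0, hx1, hD, hy0, hxy, hy1, fun p hp => (h1 p hp).1,
      fun p hp => h2 p (Finset.mem_insert_of_mem hp), fun p hp => (h4 p hp).2, ?_⟩,
      ⟨hz0, hxz, hz1, fun p hp => (h1 p hp).2,
      fun p hp => h3 p (Finset.mem_insert_of_mem hp), fun p hp => (h4 p hp).1, ?_⟩,
      hyz, hy3.2, hz3.1⟩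
    · rw [hy3.1, hy3.2]
    · rw [hz3.2, hz3.1]
  · rintro ⟨⟨-, -, hD, -, -, -, a1, a2, a3, a4⟩, ⟨-, -, -, b1, b2, b3, b4⟩, -, hk2, hk3⟩
    refine ⟨hx0, hy0, hz0, hxy, hxz, hyz, hx1, hy1, hz1, hD, fun p hp => ⟨a1 p hp, b1 p hp⟩,
      ?_, ?_, fun p hp => ⟨b3 p hp, a3 p hp⟩⟩
    · intro p hp
      rcases Finset.mem_insert.1 hp with h | h
      · rw [h, hz01, hz02, k1, k2]
        exact ⟨hk3, by rw [b4, hk3]⟩
      · exact a2 p h
    · intro p hp
      rcases Finset.mem_insert.1 hp with h | h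
      · rw [h, hy01, hy02, k2, k1]
        exact ⟨by rw [a4, hk2], hk2⟩
      · exact b2 p h

private theorem ls_X2 {S : Sys} (w : V → Finset S.P) (x y : S.P) :
    ins (1, 0) x (ins (0, 1) y w) (0, 0) = w (0, 0) ∧
    ins (1, 0) x (ins (0, 1) y w) (0, 1) = insert y (w (0, 1)) ∧
    ins (1, 0) x (ins (0, 1) y w) (1, 0) = insert x (w (1, 0)) ∧
    ins (1, 0) x (ins (0, 1) y w) (1, 1) = w (1, 1) := by
  unfold ins
  refine ⟨?_, ?_, ?_, ?_⟩
  · rw [Function.update_of_ne (by decide), Function.update_of_ne (by decide)]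
  · rw [Function.update_of_ne (by decide), Function.update_self]
  · rw [Function.update_self, Function.update_of_ne (by decide)]
  · rw [Function.update_of_ne (by decide), Function.update_of_ne (by decide)]

private theorem ls_D2 {S : Sys} {w : V → Finset S.P} {x y : S.P} (hxy : x ≠ y)
    (hx : New x w) (hy : New y w) :
    S.Dj (ins (1, 0) x (ins (0, 1) y w)) ↔ S.Dj w := by
  obtain ⟨e1, e2, e3, e4⟩ := ls_X2 w x y
  rw [ls_dj, ls_dj, e1, e2, e3, e4]
  simp only [Finset.disjoint_insert_left, Finset.disjoint_insert_right, Finset.mem_insert,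
    hx (0, 0), hx (0, 1), hx (1, 0), hx (1, 1), hy (0, 0), hy (0, 1), hy (1, 0), hy (1, 1),
    hxy, hxy.symm, not_false_eq_true, true_and, or_false, not_or, and_true, and_self, ne_eq,
    or_self]

private theorem ls_mkc {S : Sys} (hl : S.l = 0) (a b : S.T) : (mkc a b a : Co S).Ok ∅ := by
  refine ⟨fun i => ?_, fun i => ?_, ?_⟩
  · show (if i = 0 then ((a, ∅) : El S) else (b, ∅)).2 ⊆ ∅
    split_ifs <;> exact subset_rfl
  · show (if i = 0 then ((S.l + a + b + a, ∅) : El S) else (a, ∅)).2 ⊆ ∅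
    split_ifs <;> exact subset_rfl
  · unfold mkc ad
    simp only [if_true, one_ne_zero, if_false, symmDiff_self, Finset.bot_eq_empty]
    refine Prod.ext ?_ ?_
    · funext i
      simp only [Pi.add_apply, hl, Pi.zero_apply]
      have h2 : ∀ s t : ZMod 2, s + t + (0 + s + t + s + s) = 0 := by decide
      exact h2 _ _
    · simp

/-- LA2: the same for two primes in opposite classes -/
theorem lSep2 : SlSep2 := by
  intro S a b w hl hw
  have w00 : w (0, 0) = ∅ := hw _ (by decide) (by decide)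
  have w11 : w (1, 1) = ∅ := hw _ (by decide) (by decide)
  refine ⟨fun x => S.ty x = 0 ∧ New x w ∧ S.Dj w ∧
      ∀ p ∈ w (0, 1), S.ex (insert x (w (1, 0))) b p = 0,
    fun y => S.ty y = 0 ∧ New y w ∧ ∀ p ∈ w (1, 0), S.ex (insert y (w (0, 1))) a p = 0,
    fun y => S.ex (w (1, 0)) b y, ?_⟩
  intro x y
  by_cases hx : S.ty x = 0 ∧ New x w
  swap
  · constructor
    · rintro ⟨h1, -, -, h2, -⟩
      exact absurd ⟨h1, h2⟩ hx
    · rintro ⟨⟨h1, h2, -⟩, -⟩
      exact absurd ⟨h1, h2⟩ hx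
  by_cases hy : S.ty y = 0 ∧ New y w
  swap
  · constructor
    · rintro ⟨-, h1, -, -, h2, -⟩
      exact absurd ⟨h1, h2⟩ hy
    · rintro ⟨-, ⟨h1, h2, -⟩, -⟩
      exact absurd ⟨h1, h2⟩ hy
  by_cases hxy : x = y
  · constructor
    · rintro ⟨-, -, h1, -⟩
      exact absurd hxy h1
    · rintro ⟨-, -, h1, -⟩
      exact absurd hxy h1
  obtain ⟨hx0, hx1⟩ := hx
  obtain ⟨hy0, hy1⟩ := hy
  have hA : Adm ∅ (mkc a b a) (ins (1, 0) x (ins (0, 1) y w)) ↔
      S.Dj w ∧ Cnd (mkc a b a) (ins (1, 0) x (ins (0, 1) y w)) := by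
    constructor
    · intro h
      exact ⟨(ls_D2 hxy hx1 hy1).1 h.dj, h.cnd⟩
    · intro h
      exact ⟨(ls_D2 hxy hx1 hy1).2 h.1, fun u => Finset.disjoint_empty_right _, h.2⟩
  have hJ : S.J x y = S.J y x := ls_sym hxy hx0
  have hg : S.l + a + b + a = b := by
    rw [hl]
    funext i
    simp only [Pi.add_apply, Pi.zero_apply]
    have h2 : ∀ s t : ZMod 2, 0 + s + t + s = t := by decide
    exact h2 _ _
  have f0 : ((mkc a b a : Co S).f 0).1 = a := by
    unfold mkc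
    simp
  have f1 : ((mkc a b a : Co S).f 1).1 = b := by
    unfold mkc
    simp
  have g0 : ((mkc a b a : Co S).g 0).1 = b := by
    unfold mkc
    simp only [if_true]
    exact hg
  have g1 : ((mkc a b a : Co S).g 1).1 = a := by
    unfold mkc
    simp
  unfold Ad2
  rw [hA, ls_cnd _ (ls_mkc hl a b)]
  obtain ⟨e1, e2, e3, e4⟩ := ls_X2 w x y
  rw [e1, e2, e3, e4, f0, f1, g0, g1, w00, w11, Finset.union_empty, Finset.union_empty,
    Finset.empty_union, Finset.empty_union]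
  have hy3 : S.ex (insert x (w (1, 0))) b y = S.J y x + S.ex (w (1, 0)) b y := by
    rw [ls_ex (hx1 (1, 0)), hJ]
  have k1 : ∀ a b : ZMod 2, a + b = 0 ↔ a = b := by decide
  constructor
  · rintro ⟨-, -, -, -, -, hD, -, h2, h3, -⟩
    have h4 := (h2 y (Finset.mem_insert_self _ _)).1
    rw [hy3, k1] at h4
    exact ⟨⟨hx0, hx1, hD, fun p hp => (h2 p (Finset.mem_insert_of_mem hp)).1⟩,
      ⟨hy0, hy1, fun p hp => (h3 p (Finset.mem_insert_of_mem hp)).1⟩, hxy,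
      (h3 x (Finset.mem_insert_self _ _)).1, h4⟩
  · rintro ⟨⟨-, -, hD, a1⟩, ⟨-, -, b1⟩, -, h3, h4⟩
    refine ⟨hx0, hy0, hxy, hx1, hy1, hD, fun p hp => absurd hp (Finset.notMem_empty p), ?_, ?_,
      fun p hp => absurd hp (Finset.notMem_empty p)⟩
    · intro p hp
      have h5 : S.ex (insert x (w (1, 0))) b p = 0 := by
        rcases Finset.mem_insert.1 hp with h | h
        · rw [h, hy3, k1]
          exact h4
        · exact a1 p h
      exact ⟨h5, h5⟩
    · intro p hp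
      have h5 : S.ex (insert y (w (0, 1))) a p = 0 := by
        rcases Finset.mem_insert.1 hp with h | h
        · rw [h]
          exact h3
        · exact b1 p h
      exact ⟨h5, h5⟩

end Pool.Agent.D8
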