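import Pool.Agent.D8.LStm
import Pool.Agent.H32.MQ.IBd

/-!
# The dihedral group of order 16 over a number field, row LQ5: small representatives of the prime
elements modulo fourth powers
-/

set_option autoImplicit false

open scoped BigOperators
open NumberField IsDedekindDomain

namespace Pool.Agent.D8

open Pool.Agent.H98.MF
open Pool.Agent.H32.MQ (SzSt PgSt sz dg bd_ne' bd_norm bd_ord_pi bd_notMem bd_cases)

section

variable {k : Type} [Field k] [NumberField k] (Fr : Frm k)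

/-- small elements of the primes with few cofactors -/
theorem lsm_exp (h1 : SzSt k) (h2 : PgSt k) : ∃ Ψ : Finset (Fr.sys.P →₀ ℕ), ∀ p : Fr.sys.P,
    ∃ x : 𝓞 k, x ≠ 0 ∧ sz x ^ dg k ≤ nrm (Fr.pl p) ∧ ∃ f ∈ Ψ, ∀ q,
      ord (Fr.pl q) (x : k) = f q + if q = p then 1 else 0 := by
  classical
  obtain ⟨C1, hC1, -, -, hN⟩ := id h1
  have hfin := Fr.sys.finite_nf (C1 : ℝ)
  refine ⟨hfin.toFinset, fun p => ?_⟩
  obtain ⟨x, hx0, hxp, hxs⟩ := h2 (Fr.pl p)
  have hxk : (x : k) ≠ 0 := bd_ne' hx0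
  refine ⟨x, hx0, hxs, ?_⟩
  -- the exponent at `p`
  have ho : ∀ Q : HeightOneSpectrum (𝓞 k), 0 ≤ ord Q (x : k) := fun Q => B.ord_alg_nonneg Q x
  have hp1 : 1 ≤ ord (Fr.pl p) (x : k) := by
    rw [B.le_ord_iff _ hxk]
    have e1 : (Fr.pl p).valuation k (x : k) = (Fr.pl p).intValuation x :=
      HeightOneSpectrum.valuation_of_algebraMap _ _
    rw [e1]
    have e2 := ((Fr.pl p).intValuation_le_pow_iff_mem x 1).2 (by rwa [pow_one])
    exact_mod_cast e2
  -- the cofactor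
  have hsup : {q : Fr.sys.P | (ord (Fr.pl q) (x : k) - if q = p then 1 else 0).toNat ≠
      0}.Finite := by
    refine ((B.ord_finite (x : k) hxk).preimage Fr.pl_inj.injOn).subset fun q hq => ?_
    show ord (Fr.pl q) (x : k) ≠ 0
    intro h
    refine hq ?_
    rw [h]
    split_ifs <;> rfl
  set f : Fr.sys.P →₀ ℕ := Finsupp.ofSupportFinite
    (fun q => (ord (Fr.pl q) (x : k) - if q = p then 1 else 0).toNat) hsup with hf
  have hfq : ∀ q, (f q : ℤ) = ord (Fr.pl q) (x : k) - if q = p then 1 else 0 := by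
    intro q
    have e1 : f q = (ord (Fr.pl q) (x : k) - if q = p then 1 else 0).toNat := rfl
    rw [e1, Int.toNat_of_nonneg]
    split_ifs with h
    · rw [h]
      linarith
    · linarith [ho (Fr.pl q)]
  have hfq' : ∀ q, (ord (Fr.pl q) (x : k)).toNat = f q + if q = p then 1 else 0 := by
    intro q
    have e1 := hfq q
    split_ifs at e1 ⊢ <;> omega
  -- the norm of the cofactor
  have hn1 : Fr.sys.nf f * Fr.sys.N p ≤ C1 * Fr.sys.N p := by
    have e1 := bd_norm hx0 ((insert p f.support).image Fr.pl)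
    rw [Finset.prod_image fun a _ b _ h => Fr.pl_inj h] at e1
    have e2 : ∏ q ∈ insert p f.support, nrm (Fr.pl q) ^ (ord (Fr.pl q) (x : k)).toNat =
        Fr.sys.nf f * Fr.sys.N p := by
      have e3 : ∀ q ∈ insert p f.support, nrm (Fr.pl q) ^ (ord (Fr.pl q) (x : k)).toNat =
          Fr.sys.N q ^ f q * (if q = p then Fr.sys.N q else 1) := by
        intro q _
        rw [hfq', ← Fr.N_eq, pow_add]
        split_ifs
        · rw [pow_one]
        · rw [pow_zero]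
      rw [Finset.prod_congr rfl e3, Finset.prod_mul_distrib, Finset.prod_ite_eq',
        if_pos (Finset.mem_insert_self _ _)]
      congr 1
      unfold Pre.nf Finsupp.prod
      refine (Finset.prod_subset (Finset.subset_insert _ _) fun q _ hq => ?_).symm
      rw [Finsupp.notMem_support_iff.1 hq, pow_zero]
    rw [e2] at e1
    have e4 : (Algebra.norm ℤ x).natAbs ≠ 0 := by
      rw [Int.natAbs_ne_zero]
      exact Algebra.norm_ne_zero_iff.2 hx0
    have e5 := Nat.le_of_dvd (Nat.pos_of_ne_zero e4) e1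
    have e6 : C1 * sz x ^ dg k ≤ C1 * Fr.sys.N p := by
      rw [Fr.N_eq]
      exact Nat.mul_le_mul_left _ hxs
    exact e5.trans ((hN x).trans e6)
  have hNp : 0 < Fr.sys.N p := Fr.sys.one_le_N p
  have hn2 : Fr.sys.nf f ≤ C1 := Nat.le_of_mul_le_mul_right hn1 hNp
  refine ⟨f, ?_, fun q => ?_⟩
  · rw [Set.Finite.mem_toFinset]
    show (Fr.sys.nf f : ℝ) ≤ C1
    exact_mod_cast hn2
  · rw [hfq q]
    ring

/-- units modulo fourth powers -/
theorem lsm_unit {y : kˣ} (hy : y ∈ US Fr.S) : ∃ c c' : Fr.sys.T, ∃ w ∈ US Fr.S,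
    y = (∏ j, Fr.u j ^ (c j).val)⁻¹ * ((∏ j, Fr.u j ^ (c' j).val)⁻¹) ^ 2 * w ^ 4 := by
  have key : ∀ y : kˣ, y ∈ US Fr.S → ∃ c : Fr.sys.T, ∃ w ∈ US Fr.S,
      y = (∏ j, Fr.u j ^ (c j).val)⁻¹ * w ^ 2 := by
    intro y hy
    obtain ⟨c, hc⟩ := Fr.u_gen y hy
    obtain ⟨w, hw, hw2⟩ := Subgroup.mem_map.1 hc
    refine ⟨c, w, hw, ?_⟩
    have e1 : w ^ 2 = y * ∏ j, Fr.u j ^ (c j).val := hw2
    rw [e1, mul_comm y, inv_mul_cancel_left]
  obtain ⟨c, w, hw, e1⟩ := key y hy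
  obtain ⟨c', w', hw', e2⟩ := key w hw
  refine ⟨c, c', w', hw', ?_⟩
  rw [e1, e2, mul_pow, ← pow_mul, mul_assoc]

theorem lSm (h : Pool.Agent.H32.MQ.PgSt k) (h0 : Pool.Agent.H32.MQ.SzSt k) : SlSm Fr := by
  classical
  obtain ⟨Ψ, hΨ⟩ := lsm_exp Fr h0 h
  set g : (Fr.sys.P →₀ ℕ) → kˣ := fun f => ∏ q ∈ f.support, Fr.pi q ^ f q with hg
  refine ⟨(Ψ ×ˢ ((Finset.univ : Finset Fr.sys.T) ×ˢ (Finset.univ : Finset Fr.sys.T))).image
    fun z => (g z.1)⁻¹ * ((∏ j, Fr.u j ^ (z.2.1 j).val)⁻¹ *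
      ((∏ j, Fr.u j ^ (z.2.2 j).val)⁻¹) ^ 2), fun p => ?_⟩
  obtain ⟨x, hx0, hxs, f, hf, hxf⟩ := hΨ p
  have hxk : (x : k) ≠ 0 := bd_ne' hx0
  set y : kˣ := Fr.pi p * g f * (Units.mk0 (x : k) hxk)⁻¹ with hy
  have hyU : y ∈ US Fr.S := by
    rw [B.mem_US]
    intro Q hQ
    rcases bd_cases Fr Q with h1 | ⟨q, rfl⟩
    · exact absurd h1 hQ
    · rw [hy, Units.val_mul, Units.val_mul, Units.val_inv_eq_inv_val, Units.val_mk0,
        B.ord_mul _ (mul_ne_zero (Units.ne_zero _) (Units.ne_zero _)) (inv_ne_zero hxk),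
        B.ord_mul _ (Units.ne_zero _) (Units.ne_zero _), B.ord_inv, hxf, hg]
      simp only
      rw [bd_ord_pi]
      by_cases hqp : q = p
      · rw [if_pos hqp, hqp, Fr.pi_self]
        ring
      · rw [if_neg hqp, Fr.pi_other p q hqp]
        ring
  obtain ⟨c, c', v, hv, he⟩ := lsm_unit Fr hyU
  refine ⟨x, (g f)⁻¹ * ((∏ j, Fr.u j ^ (c j).val)⁻¹ * ((∏ j, Fr.u j ^ (c' j).val)⁻¹) ^ 2), v,
    ?_, hv, hx0, hxs, ?_⟩
  · rw [Finset.mem_image]
    refine ⟨(f, c, c'), ?_, rfl⟩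
    rw [Finset.mem_product, Finset.mem_product]
    exact ⟨hf, Finset.mem_univ _, Finset.mem_univ _⟩
  · have e1 : Fr.pi p = Units.mk0 (x : k) hxk * ((g f)⁻¹ * ((∏ j, Fr.u j ^ (c j).val)⁻¹ *
        ((∏ j, Fr.u j ^ (c' j).val)⁻¹) ^ 2)) * v ^ 4 := by
      rw [hy] at he
      have e2 : Fr.pi p = Units.mk0 (x : k) hxk * (g f)⁻¹ *
          (Fr.pi p * g f * (Units.mk0 (x : k) hxk)⁻¹) := by
        have e4 : ∀ a b d : kˣ, a = b * d⁻¹ * (a * d * b⁻¹) := by
          intro a b d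
          rw [mul_comm (a * d) b⁻¹, ← mul_assoc (b * d⁻¹), mul_right_comm b, mul_inv_cancel,
            one_mul, mul_comm a d, inv_mul_cancel_left]
        exact e4 _ _ _
      rw [e2, he]
      simp only [mul_assoc]
    have e3 := congrArg (fun z : kˣ => (z : k)) e1
    simp only [Units.val_mul, Units.val_pow_eq_pow_val, Units.val_mk0] at e3 ⊢
    exact e3

end

end Pool.Agent.D8
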