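import Pool.Agent.D8.LStm
import Pool.Agent.D8.AR1
import Pool.Agent.D8.ARp
import Pool.Agent.D8.ANor

/-!
# The dihedral group of order 16 over a number field, row LT1: the configurations of the
differencing identity
-/

set_option autoImplicit false

open scoped BigOperators
open NumberField IsDedekindDomain

namespace Pool.Agent.D8

open Pool.Agent.H98.MF
open Pool.Agent.H98.MK (sg)
open Pool.Agent.H32.MQ (El rep co HX Qof)

section

variable {S : Sys}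

open Classical in
/-- the configuration with three new primes -/
noncomputable def ltrC (a b v : S.T) (w : V → Finset S.P) (x y z : S.P) : Cg S :=
  ⟨insert z (w (0, 1)), insert x (w (0, 0)), w (1, 1), insert y (w (1, 0)), a, b, v⟩

theorem ltr_toCg (a b v : S.T) (w : V → Finset S.P) (x y z : S.P) :
    toCg a b v (ins (0, 0) x (ins (1, 0) y (ins (0, 1) z w))) = ltrC a b v w x y z := by
  classical
  have h1 : ((0, 1) : V) ≠ (0, 0) := by decide
  have h2 : ((0, 1) : V) ≠ (1, 0) := by decide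
  have h3 : ((0, 0) : V) ≠ (1, 0) := by decide
  have h4 : ((0, 0) : V) ≠ (0, 1) := by decide
  have h5 : ((1, 1) : V) ≠ (0, 0) := by decide
  have h6 : ((1, 1) : V) ≠ (1, 0) := by decide
  have h7 : ((1, 1) : V) ≠ (0, 1) := by decide
  have h8 : ((1, 0) : V) ≠ (0, 0) := by decide
  have h9 : ((1, 0) : V) ≠ (0, 1) := by decide
  unfold toCg ltrC ins
  rw [Function.update_of_ne h1, Function.update_of_ne h2, Function.update_self,
    Function.update_self, Function.update_of_ne h3, Function.update_of_ne h4,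
    Function.update_of_ne h5, Function.update_of_ne h6, Function.update_of_ne h7,
    Function.update_of_ne h8, Function.update_self, Function.update_of_ne h9]

/-- a prime of trivial label does not change the label -/
theorem ltr_tys {p : S.P} (hp : S.ty p = 0) (s : Finset S.P) :
    (open Classical in S.tys (insert p s)) = S.tys s := by
  classical
  unfold Sys.tys
  by_cases h : p ∈ s
  · rw [Finset.insert_eq_of_mem h]
  · rw [Finset.sum_insert h, hp, zero_add]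

theorem ltr_ex {p : S.P} {s : Finset S.P} (hp : p ∉ s) (c : S.T) (q : S.P) :
    (open Classical in S.ex (insert p s) c q) = S.J p q + S.ex s c q := by
  classical
  unfold Sys.ex
  rw [Finset.sum_insert hp, add_assoc]

/-- the facts of an admissible triple -/
structure LtrA (a b v : S.T) (w : V → Finset S.P) (x y z : S.P) : Prop where
  tx : S.ty x = 0
  ty : S.ty y = 0
  tz : S.ty z = 0
  xy : x ≠ y
  xz : x ≠ z
  yz : y ≠ z
  nx : New x w
  ny : New y w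
  nz : New z w
  dj : (ltrC a b v w x y z).Dj
  c1 : (ltrC a b v w x y z).C1
  c2 : (ltrC a b v w x y z).C2

theorem ltr_ad3 (hA : SlAdm) {a b v : S.T} {w : V → Finset S.P} {x y z : S.P} :
    Ad3 (mkc a b v) w x y z ↔ LtrA a b v w x y z := by
  unfold Ad3
  rw [hA, ltr_toCg]
  constructor
  · rintro ⟨h1, h2, h3, h4, h5, h6, h7, h8, h9, h10, h11, h12⟩
    exact ⟨h1, h2, h3, h4, h5, h6, h7, h8, h9, h10, h11, h12⟩
  · rintro ⟨h1, h2, h3, h4, h5, h6, h7, h8, h9, h10, h11, h12⟩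
    exact ⟨h1, h2, h3, h4, h5, h6, h7, h8, h9, h10, h11, h12⟩

end

section

variable {k : Type} [Field k] [NumberField k] {Fr : Frm k} (Rk : RxF k)

/-- the value of a triple -/
theorem ltr_t3 (hA : SlAdm) (G : LDt k) {a b v : Fr.sys.T} {w : V → Finset Fr.sys.P}
    {x y z : Fr.sys.P} (h : LtrA a b v w x y z) :
    t3 (mkc a b v) (RR Fr Rk G a b v) w x y z = Rf Fr Rk G (ltrC a b v w x y z) := by
  classical
  have h1 := (ltr_ad3 hA).2 h
  unfold Ad3 at h1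
  unfold t3
  rw [if_pos h1]
  unfold RR
  have e0 := ltr_toCg a b v w x y z
  have e1 : ins (0, 0) x (ins (1, 0) y (ins (0, 1) z w)) (0, 1) = insert z (w (0, 1)) :=
    congrArg Cg.x1 e0
  have e2 : ins (0, 0) x (ins (1, 0) y (ins (0, 1) z w)) (1, 0) = insert y (w (1, 0)) :=
    congrArg Cg.x4 e0
  have n1 : (ins (0, 0) x (ins (1, 0) y (ins (0, 1) z w)) (0, 1)).Nonempty := by
    rw [e1]
    exact Finset.insert_nonempty _ _
  have n2 : (ins (0, 0) x (ins (1, 0) y (ins (0, 1) z w)) (1, 0)).Nonempty := by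
    rw [e2]
    exact Finset.insert_nonempty _ _
  rw [if_neg, e0]
  rintro (⟨-, h2⟩ | ⟨-, h2⟩ | ⟨-, h2⟩)
  · unfold sid at h2
    exact n1.ne_empty (Finset.union_eq_empty.1 h2).2
  · unfold sid at h2
    exact n2.ne_empty (Finset.union_eq_empty.1 h2).1
  · exact n1.ne_empty (h2 _)

theorem ltr_t30 (hA : SlAdm) (G : LDt k) {a b v : Fr.sys.T} {w : V → Finset Fr.sys.P}
    {x y z : Fr.sys.P} (h : ¬ LtrA a b v w x y z) :
    t3 (mkc a b v) (RR Fr Rk G a b v) w x y z = 0 := by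
  classical
  unfold t3
  rw [if_neg]
  exact fun h1 => h ((ltr_ad3 hA).1 h1)

end

section

variable {k : Type} [Field k] [NumberField k] (Fr : Frm k)

/-- the element `a` -/
noncomputable def ltrEa (a : Fr.sys.T) (w : V → Finset Fr.sys.P) (x z : Fr.sys.P) : kˣ :=
  rep Fr (a, insert z (w (0, 1)) ∪ insert x (w (0, 0)))

/-- the element `b` -/
noncomputable def ltrEb (b : Fr.sys.T) (w : V → Finset Fr.sys.P) (y : Fr.sys.P) : kˣ :=
  rep Fr (b, w (1, 1) ∪ insert y (w (1, 0)))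

/-- the element `e` -/
noncomputable def ltrEe (v : Fr.sys.T) (w : V → Finset Fr.sys.P) (z : Fr.sys.P) : kˣ :=
  rep Fr (v, insert z (w (0, 1)) ∪ w (1, 1))

variable {Fr}

theorem ltr_sqX {x x' : Fr.sys.P} (hx : x ≠ x') {s : Finset Fr.sys.P} (h : x ∉ s) (h' : x' ∉ s)
    (a : Fr.sys.T) :
    IsSquare (rep Fr (a, insert x s) * rep Fr (0, {x, x'}) * rep Fr (a, insert x' s)) := by
  classical
  have e1 := arp_rep_mul Fr a s x h
  have e2 := arp_rep_mul Fr a s x' h'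
  have e3 : rep Fr (0, {x, x'}) = rep Fr (0, {x'}) * rep Fr (0, {x}) :=
    arp_rep_mul Fr 0 {x'} x (by rw [Finset.mem_singleton]; exact hx)
  rw [e1, e2, e3]
  refine ⟨rep Fr (a, s) * rep Fr (0, {x}) * rep Fr (0, {x'}), ?_⟩
  ac_rfl

theorem ltr_sqE {x x' z : Fr.sys.P} {w : V → Finset Fr.sys.P} (hx : x ≠ x') (hn : New x w)
    (hn' : New x' w) (hz : x ≠ z) (hz' : x' ≠ z) (a : Fr.sys.T) :
    IsSquare (ltrEa Fr a w x z * rep Fr (0, {x, x'}) * ltrEa Fr a w x' z) := by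
  classical
  unfold ltrEa
  rw [Finset.union_insert, Finset.union_insert]
  refine ltr_sqX hx ?_ ?_ a
  · rw [Finset.mem_union, Finset.mem_insert]
    rintro ((h | h) | h)
    · exact hz h
    · exact hn _ h
    · exact hn _ h
  · rw [Finset.mem_union, Finset.mem_insert]
    rintro ((h | h) | h)
    · exact hz' h
    · exact hn' _ h
    · exact hn' _ h

theorem ltr_locsq {u : kˣ} (h : IsSquare u) (v : Pl k) : LocP v (u : k) := by
  obtain ⟨t, rfl⟩ := h
  exact ar1_self v t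

/-- the product of two primes of trivial label is a local square at `S` -/
theorem ltr_locX {x x' : Fr.sys.P} (hx : Fr.sys.ty x = 0) (hx' : Fr.sys.ty x' = 0) {v : Pl k}
    (hv : v ∈ pls Fr.S) : LocP v (rep Fr (0, {x, x'}) : k) := by
  classical
  have h1 : Fr.sys.tys {x, x'} = Fr.sys.tys ∅ := by
    have e1 := ltr_tys hx {x'}
    have e2 := ltr_tys hx' (∅ : Finset Fr.sys.P)
    rw [e1]
    exact e2
  have h2 := ar1_lab (0 : Fr.sys.T) h1 hv
  rwa [ar1_ee, mul_one] at h2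

/-- the solvability of the pair `(X, b)` -/
theorem ltr_slvX {x x' z : Fr.sys.P} {w : V → Finset Fr.sys.P} (hx : x ≠ x') (hn : New x w)
    (hn' : New x' w) (hz : x ≠ z) (hz' : x' ≠ z) (a : Fr.sys.T) {e : kˣ}
    (h : Slv (ltrEa Fr a w x z) e) (h' : Slv (ltrEa Fr a w x' z) e) :
    Slv (rep Fr (0, {x, x'})) e := by
  intro v
  have h1 := (ar1_lin.nd v _).2 (ltr_locsq (ltr_sqE hx hn hn' hz hz' a) v) e
  rw [arp_hv_mul ar1_lin, arp_hv_mul ar1_lin, h v, h' v, zero_add, add_zero] at h1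
  exact h1

theorem ltr_labEa {x x' z z' : Fr.sys.P} (w : V → Finset Fr.sys.P) (a : Fr.sys.T)
    (hx : Fr.sys.ty x = 0) (hx' : Fr.sys.ty x' = 0) (hz : Fr.sys.ty z = 0)
    (hz' : Fr.sys.ty z' = 0) :
    Fr.sys.tys (insert z (w (0, 1)) ∪ insert x (w (0, 0))) =
      Fr.sys.tys (insert z' (w (0, 1)) ∪ insert x' (w (0, 0))) := by
  classical
  rw [Finset.union_insert, Finset.union_insert, Finset.insert_union, Finset.insert_union]
  have e1 := ltr_tys hx (insert z (w (0, 1) ∪ w (0, 0)))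
  have e2 := ltr_tys hz (w (0, 1) ∪ w (0, 0))
  have e3 := ltr_tys hx' (insert z' (w (0, 1) ∪ w (0, 0)))
  have e4 := ltr_tys hz' (w (0, 1) ∪ w (0, 0))
  exact (e1.trans e2).trans (e3.trans e4).symm

theorem ltr_labEb {y y' : Fr.sys.P} (w : V → Finset Fr.sys.P)
    (hy : Fr.sys.ty y = 0) (hy' : Fr.sys.ty y' = 0) :
    Fr.sys.tys (w (1, 1) ∪ insert y (w (1, 0))) =
      Fr.sys.tys (w (1, 1) ∪ insert y' (w (1, 0))) := by
  classical
  rw [Finset.union_insert, Finset.union_insert]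
  have e1 := ltr_tys hy (w (1, 1) ∪ w (1, 0))
  have e2 := ltr_tys hy' (w (1, 1) ∪ w (1, 0))
  exact e1.trans e2.symm

theorem ltr_labEe {z : Fr.sys.P} (w : V → Finset Fr.sys.P) (hz : Fr.sys.ty z = 0) :
    Fr.sys.tys (insert z (w (0, 1)) ∪ w (1, 1)) = Fr.sys.tys (w (0, 1) ∪ w (1, 1)) := by
  classical
  rw [Finset.insert_union]
  exact ltr_tys hz _

/-- the other pairs are solvable -/
theorem ltr_slv {a b v : Fr.sys.T} {w : V → Finset Fr.sys.P} {x y z y' z' : Fr.sys.P}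
    (h : LtrA a b v w x y z) (h' : LtrA a b v w x y' z')
    (hs : Slv (ltrEa Fr a w x z) (ltrEb Fr b w y)) :
    Slv (ltrEa Fr a w x z') (ltrEb Fr b w y') :=
  ar1_slv h'.c1.1 h'.c1.2 h'.dj.2.2 (ltr_labEa w a h.tx h'.tx h.tz h'.tz)
    (ltr_labEb w h.ty h'.ty) hs

theorem ltr_oddee {a b v : Fr.sys.T} {w : V → Finset Fr.sys.P} {x y z : Fr.sys.P}
    (h : LtrA a b v w x y z) {p : Fr.sys.P} (hp : p ∈ insert z (w (0, 1)) ∪ w (1, 1)) :
    Odd (ord (Fr.pl p) (ltrEa Fr a w x z : k) + ord (Fr.pl p) (ltrEb Fr b w y : k)) := by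
  have h1 := arp_ord (ltrC a b v w x y z) h.dj p hp
  rw [Units.val_neg, Pool.Agent.H98.MF.B.ord_neg, Units.val_mul,
    Pool.Agent.H98.MF.B.ord_mul _ (Units.ne_zero _) (Units.ne_zero _)] at h1
  have h2 : ord (Fr.pl p) (ltrEa Fr a w x z : k) + ord (Fr.pl p) (ltrEb Fr b w y : k) = 1 := h1
  rw [h2]
  exact odd_one

variable {Rk : RxF k}

theorem ltr_mono {a b : kˣ} {W : Finset Fr.sys.P} {f : Gm k → ZMod 2}
    (h : IsL Fr Rk a b ∅ f) : IsL Fr Rk a b W f :=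
  ⟨h.1, fun p _ => h.2 p (Finset.notMem_empty p)⟩

theorem ltr_Rf0 {G : LDt k} {c : Cg Fr.sys} (hSl : SaSl k) (h : Rf Fr Rk G c ≠ 0) :
    Slv (c.ea (Fr := Fr)) c.eb := by
  classical
  by_contra h1
  apply h
  unfold Rf
  rw [dif_neg]
  rintro ⟨f, hf⟩
  exact h1 ((hSl _ _).1 ⟨f, hf.1⟩)

/-- the sum of two second bits -/
theorem ltr_isL {x x' z : Fr.sys.P} {w : V → Finset Fr.sys.P} (hx : x ≠ x') (hn : New x w)
    (hn' : New x' w) (hz : x ≠ z) (hz' : x' ≠ z) (a : Fr.sys.T) {e : kˣ}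
    {f g : Gm k → ZMod 2} (hf : IsL Fr Rk (ltrEa Fr a w x z) e ∅ f)
    (hg : IsL Fr Rk (rep Fr (0, {x, x'})) e ∅ g) :
    IsL Fr Rk (ltrEa Fr a w x' z) e ∅ fun σ => f σ + g σ := by
  have h1 : ∀ σ : Gm k, chi (ltrEa Fr a w x' z : k) σ =
      chi (ltrEa Fr a w x z : k) σ + chi (rep Fr (0, {x, x'}) : k) σ := by
    intro σ
    rw [← CrdAux.chi_mul]
    exact (an_chi_sq (ltr_sqE hx hn hn' hz hz' a) σ).symm
  refine ⟨⟨hf.1.lc.add hg.1.lc, fun σ τ => ?_⟩, fun p hp => ?_⟩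
  · show f (σ * τ) + g (σ * τ) = f σ + g σ + (f τ + g τ) + _
    rw [hf.1.hom, hg.1.hom, h1]
    ring
  · show f _ + g _ = 0
    rw [hf.2 p hp, hg.2 p hp, add_zero]

/-- the product of the two values -/
theorem ltr_R (hGT : SaGhT Fr) (hObF : SaObF k) (hRi : SaRi Fr Rk) {G : LDt k} (hG : SLoc Fr G)
    {a b v : Fr.sys.T} {w : V → Finset Fr.sys.P} {x x' y z : Fr.sys.P} (hxx : x ≠ x')
    (hx : LtrA a b v w x y z) (hx' : LtrA a b v w x' y z) {f g : Gm k → ZMod 2}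
    (hf : IsL Fr Rk (ltrEa Fr a w x z) (ltrEb Fr b w y) ∅ f)
    (hg : IsL Fr Rk (rep Fr (0, {x, x'})) (ltrEb Fr b w y) ∅ g) {c : kˣ}
    (hc : ∀ v ∈ pls Fr.S, ∀ σ ∈ DecP v, g σ = chi (c : k) σ) :
    Rf Fr Rk G (ltrC a b v w x y z) * Rf Fr Rk G (ltrC a b v w x' y z) =
      Gh Fr G (ltrEe Fr v w z) (ltrEa Fr a w x z) (ltrEb Fr b w y) f ^ 2 *
        ((sg (hS Fr c (ltrEe Fr v w z) +
          ∑ p ∈ insert z (w (0, 1)) ∪ w (1, 1), g (Rk.phi (Fr.pl p))) : ℤ) : ℝ) := by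
  have hf' := ltr_isL hxx hx.nx hx'.nx hx.xz hx'.xz a hf hg
  have h1 : Rf Fr Rk G (ltrC a b v w x y z) = Gh Fr G (ltrEe Fr v w z) (ltrEa Fr a w x z)
      (ltrEb Fr b w y) f * ((sg (∑ p ∈ insert z (w (0, 1)) ∪ w (1, 1),
        ob (Sum.inl (Fr.pl p)) (ltrEa Fr a w x z) (ltrEb Fr b w y) f) : ℤ) : ℝ) :=
    hRi G hG (ltrC a b v w x y z) f hx.dj hx.c2 (ltr_mono hf)
  have h2 : Rf Fr Rk G (ltrC a b v w x' y z) = Gh Fr G (ltrEe Fr v w z) (ltrEa Fr a w x' z)
      (ltrEb Fr b w y) (fun σ => f σ + g σ) * ((sg (∑ p ∈ insert z (w (0, 1)) ∪ w (1, 1),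
        ob (Sum.inl (Fr.pl p)) (ltrEa Fr a w x' z) (ltrEb Fr b w y)
          fun σ => f σ + g σ) : ℤ) : ℝ) :=
    hRi G hG (ltrC a b v w x' y z) _ hx'.dj hx'.c2 (ltr_mono hf')
  have o1 : ∀ p ∈ insert z (w (0, 1)) ∪ w (1, 1),
      ob (Sum.inl (Fr.pl p)) (ltrEa Fr a w x z) (ltrEb Fr b w y) f = f (Rk.phi (Fr.pl p)) :=
    fun p hp => hObF Fr Rk _ _ f hf.1 p (ltr_oddee hx hp) (hf.2 p (Finset.notMem_empty p))
  have o2 : ∀ p ∈ insert z (w (0, 1)) ∪ w (1, 1),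
      ob (Sum.inl (Fr.pl p)) (ltrEa Fr a w x' z) (ltrEb Fr b w y) (fun σ => f σ + g σ) =
        f (Rk.phi (Fr.pl p)) + g (Rk.phi (Fr.pl p)) :=
    fun p hp => hObF Fr Rk _ _ _ hf'.1 p (ltr_oddee hx' hp) (hf'.2 p (Finset.notMem_empty p))
  have h3 : Gh Fr G (ltrEe Fr v w z) (ltrEa Fr a w x' z) (ltrEb Fr b w y)
      (fun σ => f σ + g σ) = Gh Fr G (ltrEe Fr v w z) (ltrEa Fr a w x z) (ltrEb Fr b w y)
        (fun σ => f σ + chi (c : k) σ) :=
    ar1_gh hG _ (fun v hv => ar1_lab a (ltr_labEa w a hx'.tx hx.tx hx.tz hx.tz) hv)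
      (fun v _ => ar1_self v _) fun v hv σ hσ => by rw [hc v hv σ hσ]
  rw [h1, h2, Finset.sum_congr rfl o1, Finset.sum_congr rfl o2, h3,
    hGT G hG _ _ _ c f, Finset.sum_add_distrib]
  generalize Gh Fr G (ltrEe Fr v w z) (ltrEa Fr a w x z) (ltrEb Fr b w y) f = g0
  generalize hS Fr c (ltrEe Fr v w z) = s0
  generalize ∑ p ∈ insert z (w (0, 1)) ∪ w (1, 1), f (Rk.phi (Fr.pl p)) = s1
  generalize ∑ p ∈ insert z (w (0, 1)) ∪ w (1, 1), g (Rk.phi (Fr.pl p)) = s2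
  have e1 : sg s1 * (sg s0 * sg (s1 + s2)) = sg (s0 + s2) := by
    revert s0 s1 s2
    decide
  rw [← e1]
  push_cast
  ring

end

end Pool.Agent.D8
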