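import Pool.Agent.D8.LTRa
import Pool.Agent.D8.LTRb

/-!
# The dihedral group of order 16 over a number field, row LT1: the differencing identity
-/

set_option autoImplicit false

open scoped BigOperators
open NumberField IsDedekindDomain

namespace Pool.Agent.D8

open Pool.Agent.H98.MF
open Pool.Agent.H98.MK (sg)
open Pool.Agent.H32.MQ (El rep co HX Qof)

section

variable {k : Type} [Field k] [NumberField k] {Fr : Frm k} {Rk : RxF k}

/-- the transform is bounded, squared -/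
theorem ltr_sq_le {u : ℝ} (h : |u| ≤ 1) : |u ^ 2| ≤ 1 := by
  rw [abs_pow]
  exact pow_le_one₀ (abs_nonneg u) h

theorem ltr_z2 (x y z : ZMod 2) (h1 : x + z = 0) (h2 : y + z = 0) : x + y = 0 := by
  revert x y z; decide

/-- the product of the two primes is a local square at the primes of `e` and of `b` -/
theorem ltr_locSq {a b v : Fr.sys.T} {w : V → Finset Fr.sys.P} {x x' y z : Fr.sys.P}
    (hx : LtrA a b v w x y z) (hx' : LtrA a b v w x' y z) (hxx : x ≠ x') {p : Fr.sys.P}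
    (hp : p = y ∨ p = z) : LocSq (Fr.pl p) (rep Fr (0, {x, x'}) : k) := by
  classical
  have hpx : p ≠ x := by
    rcases hp with rfl | rfl
    · exact hx.xy.symm
    · exact hx.xz.symm
  have hpx' : p ≠ x' := by
    rcases hp with rfl | rfl
    · exact hx'.xy.symm
    · exact hx'.xz.symm
  have hns : p ∉ ({x, x'} : Finset Fr.sys.P) := by
    rw [Finset.mem_insert, Finset.mem_singleton]
    rintro (h | h)
    · exact hpx h
    · exact hpx' h
  rw [← qr_eq_zero, Pool.Agent.H32.MQ.h_repQ Fr (0, {x, x'}) p hns]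
  show Fr.sys.ex {x, x'} 0 p = 0
  have e0 : Fr.sys.ex {x, x'} 0 p = Fr.sys.J x p + Fr.sys.J x' p := by
    unfold Sys.ex
    rw [Finset.sum_pair hxx, zero_dotProduct, add_zero]
  rw [e0]
  rcases hp with rfl | rfl
  · have h1 : Fr.sys.ex (insert z (w (0, 1)) ∪ insert x (w (0, 0))) a p = 0 :=
      hx.c1.2 p (Finset.mem_union_right _ (Finset.mem_insert_self _ _))
    have h2 : Fr.sys.ex (insert z (w (0, 1)) ∪ insert x' (w (0, 0))) a p = 0 :=
      hx'.c1.2 p (Finset.mem_union_right _ (Finset.mem_insert_self _ _))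
    rw [Finset.union_insert] at h1 h2
    have n1 : x ∉ insert z (w (0, 1)) ∪ w (0, 0) := by
      rw [Finset.mem_union, Finset.mem_insert]
      rintro ((h | h) | h)
      · exact hx.xz h
      · exact hx.nx _ h
      · exact hx.nx _ h
    have n2 : x' ∉ insert z (w (0, 1)) ∪ w (0, 0) := by
      rw [Finset.mem_union, Finset.mem_insert]
      rintro ((h | h) | h)
      · exact hx'.xz h
      · exact hx'.nx _ h
      · exact hx'.nx _ h
    have e1 := ltr_ex n1 a p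
    have e2 := ltr_ex n2 a p
    exact ltr_z2 _ _ _ (e1.symm.trans h1) (e2.symm.trans h2)
  · have h1 : Fr.sys.ex (insert x (w (0, 0)) ∪ insert y (w (1, 0))) (Fr.sys.l + a + b + v) p =
        0 := hx.c2.1 p (Finset.mem_union_left _ (Finset.mem_insert_self _ _))
    have h2 : Fr.sys.ex (insert x' (w (0, 0)) ∪ insert y (w (1, 0))) (Fr.sys.l + a + b + v) p =
        0 := hx'.c2.1 p (Finset.mem_union_left _ (Finset.mem_insert_self _ _))
    rw [Finset.insert_union] at h1 h2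
    have n1 : x ∉ w (0, 0) ∪ insert y (w (1, 0)) := by
      rw [Finset.mem_union, Finset.mem_insert]
      rintro (h | h | h)
      · exact hx.nx _ h
      · exact hx.xy h
      · exact hx.nx _ h
    have n2 : x' ∉ w (0, 0) ∪ insert y (w (1, 0)) := by
      rw [Finset.mem_union, Finset.mem_insert]
      rintro (h | h | h)
      · exact hx'.nx _ h
      · exact hx'.xy h
      · exact hx'.nx _ h
    have e1 := ltr_ex n1 (Fr.sys.l + a + b + v) p
    have e2 := ltr_ex n2 (Fr.sys.l + a + b + v) p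
    exact ltr_z2 _ _ _ (e1.symm.trans h1) (e2.symm.trans h2)

/-- LT1: the differencing identity -/
theorem lTR (hA : SlAdm) (hFro : ∀ (L : Type) [Field L] [NumberField L] [Algebra k L],
    SaFro Fr Rk L) (hGT : SaGhT Fr) (hGB : SaGhB Fr) (hG2 : SaGh2 Fr) (hObF : SaObF k)
    (hRi : SaRi Fr Rk) (hSl : SaSl k) (hNor : SaNor Fr Rk) : SlTR Fr Rk := by
  classical
  intro L _ _ _ X x x' hxx hM hXa G hG hG1 a b v w
  by_cases hz : ∀ y z, t3 (mkc a b v) (RR Fr Rk G a b v) w x y z *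
    t3 (mkc a b v) (RR Fr Rk G a b v) w x' y z = 0
  · exact Or.inl hz
  right
  push Not at hz
  obtain ⟨y0, z0, h0⟩ := hz
  have hx0 : LtrA a b v w x y0 z0 := by
    by_contra h
    exact h0 (by rw [ltr_t30 Rk hA G h, zero_mul])
  have hx0' : LtrA a b v w x' y0 z0 := by
    by_contra h
    exact h0 (by rw [ltr_t30 Rk hA G h, mul_zero])
  rw [ltr_t3 Rk hA G hx0, ltr_t3 Rk hA G hx0'] at h0
  have hs0 : Slv (ltrEa Fr a w x z0) (ltrEb Fr b w y0) := ltr_Rf0 hSl (left_ne_zero_of_mul h0)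
  have hs0' : Slv (ltrEa Fr a w x' z0) (ltrEb Fr b w y0) :=
    ltr_Rf0 hSl (right_ne_zero_of_mul h0)
  obtain ⟨f0, hf0⟩ := hNor _ _ hs0
  set G2 : ℝ := Gh Fr G (ltrEe Fr v w z0) (ltrEa Fr a w x z0) (ltrEb Fr b w y0) f0 ^ 2 with hG2d
  have hG2le : |G2| ≤ 1 := ltr_sq_le (hGB G hG1 _ _ _ _)
  obtain ⟨pr, hpr, hprE, hFr⟩ := hFro L X X.qe.ns
  have key : ∀ y, ∃ (γ γ' : HX.GX L) (c : ℝ), |c| ≤ 1 ∧ ∀ z, LtrA a b v w x y z →
      LtrA a b v w x' y z → ∃ Py Pz, pr y = some Py ∧ pr z = some Pz ∧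
        γ ∈ (Qof X).B (insert (X.cjX Py) (ltrH X pr (sid w 1))) ∧
        γ' ∈ (Qof X).B (insert Py (ltrH X pr (sid w 1))) ∧
        (Qof X).sy γ' Pz = (Qof X).sy γ Pz + Fr.sys.J y z ∧
        Rf Fr Rk G (ltrC a b v w x y z) * Rf Fr Rk G (ltrC a b v w x' y z) =
          c * ((sg ((Qof X).sy γ Pz) : ℤ) : ℝ) := by
    intro y
    by_cases hy : ∃ z, LtrA a b v w x y z ∧ LtrA a b v w x' y z
    swap
    · refine ⟨1, 1, 0, by norm_num, fun z h h' => absurd ⟨z, h, h'⟩ hy⟩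
    obtain ⟨z1, h1, h1'⟩ := hy
    have hs1 := ltr_slv hx0 h1 hs0
    have hs1' := ltr_slv hx0' h1' hs0'
    have hsX := ltr_slvX hxx h1.nx h1'.nx h1.xz h1'.xz a hs1 hs1'
    obtain ⟨g, hg⟩ := hNor _ _ hsX
    have hgX : IsF X.a (ltrEb Fr b w y) g := by
      rw [hXa]
      exact hg.1
    obtain ⟨γ, -, hγ, hγv⟩ := hFr (ltrEb Fr b w y) g hgX
      fun p => hg.2 p (Finset.notMem_empty p)
    obtain ⟨u1, u2, hu⟩ := ar1_one Fr (g := g) fun v' hv' => by
      refine (kin k).two v' g hg.1.lc fun σ hσ τ hτ => ?_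
      rw [hg.1.hom, ((kin k).one v' _).2 (ltr_locX h1.tx h1'.tx hv') σ hσ, zero_mul, add_zero]
    have hyM : y ∉ X.M := by
      rw [hM, Finset.mem_insert, Finset.mem_singleton]
      rintro (h | h)
      · exact h1.xy h.symm
      · exact h1'.xy h.symm
    have hly : LocSq (Fr.pl y) (X.a : k) := by
      rw [hXa]
      exact ltr_locSq h1 h1' hxx (Or.inl rfl)
    obtain ⟨Py, hPy⟩ := hprE y hyM hly
    have hyB : y ∉ sid w 1 := by
      unfold sid
      rw [Finset.mem_union]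
      rintro (h | h)
      · exact h1.ny _ h
      · exact h1.ny _ h
    have hbb : ∀ p, Odd (ord (Fr.pl p) (ltrEb Fr b w y : k)) ↔ p = y ∨ p ∈ sid w 1 := by
      intro p
      unfold ltrEb sid
      rw [ltr_oddrep]
      simp only [Finset.mem_union, Finset.mem_insert]
      tauto
    refine ⟨((γ : Lˣ) : HX.GX L), ((γ * ltrU Fr L y : Lˣ) : HX.GX L),
      G2 * ((sg (hS Fr (cl Fr u1 u2) (rep Fr (v, w (0, 1) ∪ w (1, 1))) +
        ∑ p ∈ w (0, 1) ∪ w (1, 1), g (Rk.phi (Fr.pl p))) : ℤ) : ℝ), ?_, fun z h h' => ?_⟩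
    · rw [abs_mul, afo_sg_abs, mul_one]
      exact hG2le
    have hzM : z ∉ X.M := by
      rw [hM, Finset.mem_insert, Finset.mem_singleton]
      rintro (h2 | h2)
      · exact h.xz h2.symm
      · exact h'.xz h2.symm
    have hlz : LocSq (Fr.pl z) (X.a : k) := by
      rw [hXa]
      exact ltr_locSq h h' hxx (Or.inr rfl)
    obtain ⟨Pz, hPz⟩ := hprE z hzM hlz
    have hzB : z ∉ sid w 1 := by
      unfold sid
      rw [Finset.mem_union]
      rintro (h2 | h2)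
      · exact h.nz _ h2
      · exact h.nz _ h2
    refine ⟨Py, Pz, hPy, hPz, ltr_mem X hPy hbb hγ, ltr_mem' X hpr hPy hyB hbb hγ,
      ltr_symb X hpr hPy hbb hγ hPz h.yz.symm hzB, ?_⟩
    obtain ⟨f, hf⟩ := hNor _ _ (ltr_slv hx0 h hs0)
    rw [ltr_R hGT hObF hRi hG hxx h h' hf hg hu]
    have e1 : Gh Fr G (ltrEe Fr v w z) (ltrEa Fr a w x z) (ltrEb Fr b w y) f ^ 2 = G2 :=
      hG2 G hG _ _ _ _ _ _ f f0
        (fun v' hv' => ar1_lab v ((ltr_labEe w h.tz).trans (ltr_labEe w hx0.tz).symm) hv')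
        (fun v' hv' => ar1_lab a (ltr_labEa w a h.tx h.tx h.tz hx0.tz) hv')
        (fun v' hv' => ar1_lab b (ltr_labEb w h.ty hx0.ty) hv') hf.1 hf0.1
    have e2 : hS Fr (cl Fr u1 u2) (ltrEe Fr v w z) =
        hS Fr (cl Fr u1 u2) (rep Fr (v, w (0, 1) ∪ w (1, 1))) :=
      ar1_hS (fun v' hv' => ar1_lab v (ltr_labEe w h.tz) hv') _
    have e3 : ∑ p ∈ insert z (w (0, 1)) ∪ w (1, 1), g (Rk.phi (Fr.pl p)) =
        g (Rk.phi (Fr.pl z)) + ∑ p ∈ w (0, 1) ∪ w (1, 1), g (Rk.phi (Fr.pl p)) := by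
      rw [Finset.insert_union, Finset.sum_insert]
      rw [Finset.mem_union]
      rintro (h2 | h2)
      · exact h.nz _ h2
      · exact h.nz _ h2
    rw [e1, e2, e3, hγv z Pz hPz, ltr_sy]
    generalize hS Fr (cl Fr u1 u2) (rep Fr (v, w (0, 1) ∪ w (1, 1))) = s0
    generalize ∑ p ∈ w (0, 1) ∪ w (1, 1), g (Rk.phi (Fr.pl p)) = s1
    generalize qr (γ : L) Pz.1 = s2
    have e4 : sg (s0 + (s2 + s1)) = sg (s0 + s1) * sg s2 := by
      revert s0 s1 s2
      decide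
    rw [e4]
    push_cast
    ring
  choose γ γ' c1 hc1 hk using key
  refine ⟨pr, ltrH X pr (sid w 1), γ, γ', c1, hc1, ltr_gd X hpr _,
    fun b' hb' => ltr_sh X hpr hb', fun y z h h' => ?_⟩
  have h2 := (ltr_ad3 hA).1 h
  have h2' := (ltr_ad3 hA).1 h'
  obtain ⟨Py, Pz, h3, h4, h5, h6, h7, h8⟩ := hk y z h2 h2'
  refine ⟨Py, Pz, h3, h4, hpr y Py h3, hpr z Pz h4, h5, h6, h7, ?_⟩
  rw [ltr_t3 Rk hA G h2, ltr_t3 Rk hA G h2', h8]

end

end Pool.Agent.D8
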