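import Pool.Agent.D8.LStm
import Pool.Agent.D8.AR1

/-!
# The dihedral group of order 16 over a number field, row LQ1: changing `b` by a local square
-/

set_option autoImplicit false

open scoped BigOperators
open NumberField IsDedekindDomain

namespace Pool.Agent.D8

open Pool.Agent.H98.MF
open Pool.Agent.H98.MK (sg)

/-- LQ1: changing `b` by a local square at `S` -/
theorem lTrB {k : Type} [Field k] [NumberField k] (Fr : Frm k) : SlTrB Fr := by
  intro G hG1 a b Y κ f g hf hg hY
  obtain ⟨y, z, hc⟩ := ar1_one Fr (g := g) fun v hv => by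
    refine (kin k).two v g hg.lc fun σ hσ τ hτ => ?_
    rw [hg.hom, ((kin k).one v Y).2 (hY v hv) τ hτ, mul_zero, add_zero]
  refine ⟨cl Fr y z, hc, ?_⟩
  rw [← aghT Fr G hG1]
  refine ar1_gh hG1 κ (fun v _ => ar1_self v a) (fun v hv => ?_) fun v hv σ hσ => ?_
  · refine ((kin k).one v (b * Y * b)).1 fun σ hσ => ?_
    rw [CrdAux.chi_mul, CrdAux.chi_mul, ((kin k).one v Y).2 (hY v hv) σ hσ, add_zero]
    exact CrdAux.add_self _
  · rw [hc v hv σ hσ]

end Pool.Agent.D8
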