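import Pool.Agent.D8.NStm
import Pool.Agent.H98.MF.NEnd

/-!
# Row NC1: the coefficients with exceptional primes, and frames with more primes
-/

set_option autoImplicit false

open scoped BigOperators Pointwise
open NumberField IsDedekindDomain

namespace Pool.Agent.D8

open Pool.Agent.H98.MF
open Pool.Agent.H98.MK (sg)
open Pool.Agent.H32.MQ (El rep co)

/-! ### the coefficients -/

theorem nex_two {S : Sys} (x : S.T) : x + x = 0 := by
  funext i
  exact CharTwo.add_self_eq_zero _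

/-- these coefficients are consistent -/
theorem nOk : SnOk := by
  classical
  intro S M a b v ha hb hv
  have hs : ∀ x y : Finset S.P, x ⊆ M → y ⊆ M → symmDiff x y ⊆ M := by
    intro x y hx hy p hp
    rcases Finset.mem_symmDiff.1 hp with h | h
    · exact hx h.1
    · exact hy h.1
  refine ⟨fun i => ?_, fun j => ?_, ?_⟩
  · show (if i = 0 then a else b).2 ⊆ M
    split_ifs
    · exact ha
    · exact hb
  · show (if j = 0 then ad (ad (S.l, ∅) (ad a b)) v else v).2 ⊆ M
    split_ifs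
    · exact hs _ _ (hs _ _ (Finset.empty_subset M) (hs _ _ ha hb)) hv
    · exact hv
  · have hne : ¬ (1 : ZMod 2) = 0 := by decide
    have h0 : (mkM a b v).f 0 = a := by
      show (if (0 : ZMod 2) = 0 then a else b) = a
      exact if_pos rfl
    have h1 : (mkM a b v).f 1 = b := by
      show (if (1 : ZMod 2) = 0 then a else b) = b
      exact if_neg hne
    have h2 : (mkM a b v).g 0 = ad (ad (S.l, ∅) (ad a b)) v := by
      show (if (0 : ZMod 2) = 0 then ad (ad (S.l, ∅) (ad a b)) v else v) = _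
      exact if_pos rfl
    have h3 : (mkM a b v).g 1 = v := by
      show (if (1 : ZMod 2) = 0 then ad (ad (S.l, ∅) (ad a b)) v else v) = _
      exact if_neg hne
    rw [h0, h1, h2, h3]
    unfold ad
    refine Prod.ext ?_ ?_
    · show a.1 + b.1 + (S.l + (a.1 + b.1) + v.1 + v.1) = S.l
      have e1 := nex_two v.1
      have e2 := nex_two (a.1 + b.1)
      calc a.1 + b.1 + (S.l + (a.1 + b.1) + v.1 + v.1)
          = S.l + ((a.1 + b.1) + (a.1 + b.1)) + (v.1 + v.1) := by abel
        _ = S.l := by rw [e1, e2, add_zero, add_zero]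
    · show symmDiff (symmDiff a.2 b.2)
        (symmDiff (symmDiff (symmDiff ∅ (symmDiff a.2 b.2)) v.2) v.2) = ∅
      have e0 : symmDiff (∅ : Finset S.P) (symmDiff a.2 b.2) = symmDiff a.2 b.2 :=
        bot_symmDiff _
      have e1 : symmDiff (symmDiff (symmDiff a.2 b.2) v.2) v.2 = symmDiff a.2 b.2 :=
        symmDiff_symmDiff_cancel_right _ _
      rw [e0, e1]
      exact symmDiff_self _

/-! ### the number of units -/

section

variable {k : Type} [Field k] [NumberField k]

/-- the class of `(y, z)` -/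
noncomputable def nexCl (Fr : Frm k) (y z : Fr.sys.T) : kˣ :=
  (∏ j, Fr.u j ^ (y j).val) * ∏ j, Fr.w j ^ (z j).val

theorem nexCl_mul (Fr : Frm k) (y z y' z' : Fr.sys.T) :
    ∃ t : kˣ, nexCl Fr y z * nexCl Fr y' z' = nexCl Fr (y + y') (z + z') * t ^ 2 := by
  obtain ⟨t1, h1⟩ := NFrm_prod_add Fr.u y y'
  obtain ⟨t2, h2⟩ := NFrm_prod_add Fr.w z z'
  refine ⟨t1 * t2, ?_⟩
  unfold nexCl
  rw [mul_mul_mul_comm, h1, h2, mul_pow, mul_mul_mul_comm]

/-- the number `m` of a frame -/
theorem nex_m (Fr : Frm k) : Fr.sys.m = mS Fr.S := by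
  classical
  have hL : LIn k := B.lin k
  have hidx : (KS Fr.S).index = 2 ^ (2 * mS Fr.S) := B.ci k (B.lin k) Fr.S Fr.adm
  have hfin : Finite (kˣ ⧸ KS Fr.S) := by
    refine Nat.finite_of_card_ne_zero ?_
    show (KS Fr.S).index ≠ 0
    rw [hidx]
    positivity
  let f : Fr.sys.T × Fr.sys.T → kˣ ⧸ KS Fr.S := fun p => QuotientGroup.mk (nexCl Fr p.1 p.2)
  have hinj : Function.Injective f := by
    rintro ⟨y, z⟩ ⟨y', z'⟩ h
    have h1 : (nexCl Fr y z)⁻¹ * nexCl Fr y' z' ∈ KS Fr.S := QuotientGroup.eq.1 h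
    have h2 : nexCl Fr y z * nexCl Fr y' z' ∈ KS Fr.S := by
      have h3 : nexCl Fr y z * nexCl Fr y' z' =
          nexCl Fr y z ^ 2 * ((nexCl Fr y z)⁻¹ * nexCl Fr y' z') := by
        rw [pow_two, mul_assoc, mul_inv_cancel_left]
      rw [h3]
      exact mul_mem (B.sq_mem_KS Fr.S _) h1
    obtain ⟨t, ht⟩ := nexCl_mul Fr y z y' z'
    rw [ht] at h2
    have h4 : nexCl Fr (y + y') (z + z') ∈ KS Fr.S := by
      have h5 := mul_mem h2 (inv_mem (B.sq_mem_KS Fr.S t))
      rwa [mul_inv_cancel_right] at h5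
    obtain ⟨h6, h7⟩ := Fr.ind (y + y') (z + z') fun v hv => by
      rw [← hL.memLS v]
      exact B.mem_KS.1 h4 v hv
    have h8 : ∀ a b : Fr.sys.T, a + b = 0 → a = b := by
      intro a b hab
      funext i
      have h9 := congrFun hab i
      have h10 : a i = - b i := eq_neg_of_add_eq_zero_left h9
      rw [h10, ZMod.neg_eq_self_mod_two]
    rw [h8 _ _ h6, h8 _ _ h7]
  have hsurj : Function.Surjective f := by
    intro q
    obtain ⟨x, rfl⟩ := QuotientGroup.mk_surjective q
    obtain ⟨y, z, h⟩ := Fr.gen fun _ => x⁻¹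
    refine ⟨(y, z), ?_⟩
    refine (QuotientGroup.eq.2 ?_).symm
    refine B.mem_KS.2 fun v hv => ?_
    rw [hL.memLS v]
    have h1 := h v hv
    rw [mul_assoc] at h1
    exact h1
  have hcard : Nat.card (Fr.sys.T × Fr.sys.T) = Nat.card (kˣ ⧸ KS Fr.S) :=
    Nat.card_congr (Equiv.ofBijective f ⟨hinj, hsurj⟩)
  have h1 : Nat.card (kˣ ⧸ KS Fr.S) = 2 ^ (2 * mS Fr.S) := hidx
  rw [h1, Nat.card_prod, Nat.card_fun] at hcard
  simp only [Nat.card_eq_fintype_card, ZMod.card, Fintype.card_fin] at hcard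
  have h2 : (2 : ℕ) ^ (2 * Fr.sys.m) = 2 ^ (2 * mS Fr.S) := by
    rw [← hcard]
    ring
  have h3 := Nat.pow_right_injective (le_refl 2) h2
  omega

/-- frames exist for every admissible set -/
theorem nex_frm {S : Finset (HeightOneSpectrum (𝓞 k))} (hS : Pool.Agent.H98.MF.Adm S) :
    ∃ Fr : Frm k, Fr.S = S := by
  classical
  have hL : LIn k := B.lin k
  have hi : CISt k := B.ci k (B.lin k)
  have hr : RecSt k := B.recSt (nin k)
  obtain ⟨F⟩ := B.frSt (nin k) S hS
  obtain ⟨κ, C, A, δ, a1, a2, a3, a4, a5, a6, a7⟩ := exists_sysK hL hr hS F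
  have hinj : Function.Injective
      (fun p : (mkSys hL hr hS F κ C A δ a1 a2 a3 a4 a5 a6 a7).P =>
        (p.1 : HeightOneSpectrum (𝓞 k))) := fun p q h => Subtype.ext h
  refine ⟨{ S := S, adm := hS, sys := mkSys hL hr hS F κ C A δ a1 a2 a3 a4 a5 a6 a7,
            pl := fun p => p.1, pl_inj := hinj, pl_iff := ?_, N_eq := fun p => rfl,
            u := F.u, w := F.w, pi := F.ppi, u_mem := F.u_mem, u_gen := F.u_gen,
            u_ind := F.u_ind, pi_self := F.ord_self,
            pi_other := fun p q hne => F.ord_other p q.1 q.2 fun h => hne (Subtype.ext h),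
            ty_eq := fun p j => rfl, J_eq := fun p q _ => rfl,
            lam_eq := fun p => (B.qr_neg_one hL hS F p).symm,
            loc := ?_, gen := ?_, ind := ?_, hch := ?_ }, rfl⟩
  · intro P
    constructor
    · rintro ⟨p, rfl⟩
      exact p.2
    · intro hP
      exact ⟨⟨P, hP⟩, rfl⟩
  · intro p v hv
    rw [← hL.memLS v]
    have e1 : F.ppi p * ∏ j, F.w j ^ (B.tyF F p j).val =
        (F.ppi p / ∏ j, F.w j ^ (B.tyF F p j).val) * (∏ j, F.w j ^ (B.tyF F p j).val) ^ 2 := by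
      rw [pow_two, ← mul_assoc, div_mul_cancel]
    have e2 : F.ppi p * ∏ j, F.w j ^ (B.tyF F p j).val ∈ LS v := by
      rw [e1]
      exact mul_mem (F.loc p v hv) (B.sq_mem_LS v _)
    exact e2
  · intro c
    obtain ⟨x, hx⟩ := hL.weak (pls S) c
    obtain ⟨y, z, hyz⟩ := gen_of hL hi hr hS F x
    refine ⟨y, z, fun v hv => ?_⟩
    rw [← hL.memLS v]
    have e1 : c v * (∏ j, F.u j ^ (y j).val) * ∏ j, F.w j ^ (z j).val =
        (x / c v)⁻¹ * (x * clF F y z) := by
      unfold clF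
      have e0 : ∀ c x A B : kˣ, c * A * B = (x / c)⁻¹ * (x * (A * B)) := by
        intro c x A B
        rw [inv_div, div_eq_mul_inv, mul_assoc, mul_assoc, inv_mul_cancel_left]
      exact e0 _ _ _ _
    have e2 : c v * (∏ j, F.u j ^ (y j).val) * ∏ j, F.w j ^ (z j).val ∈ LS v := by
      rw [e1]
      exact mul_mem (inv_mem (hx v hv)) (B.mem_KS.1 hyz v hv)
    exact e2
  · intro y z h
    refine ind_of hL hr hS F y z (B.mem_KS.2 fun v hv => ?_)
    rw [hL.memLS v]
    exact h v hv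
  · exact B.cheb _ _ hinj fun p => rfl

/-- admissibility is preserved by adding primes -/
theorem nex_adm {S S' : Finset (HeightOneSpectrum (𝓞 k))} (hS : Pool.Agent.H98.MF.Adm S)
    (h : S ⊆ S') : Pool.Agent.H98.MF.Adm S' := by
  refine ⟨fun P hP => h (hS.two P hP), fun P hP => ?_⟩
  obtain ⟨a, ha, h1, h2⟩ := hS.prS P fun hP' => hP (h hP')
  exact ⟨a, ha, h1, fun Q hQ hne => h2 Q (fun hQ' => hQ (h hQ')) hne⟩

/-- frames with more primes exist -/
theorem nEx (Fr : Frm k) : SnEx Fr := by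
  classical
  intro e
  have hadm : Pool.Agent.H98.MF.Adm (Fr.S ∪ e.image Fr.pl) :=
    nex_adm Fr.adm Finset.subset_union_left
  obtain ⟨Fr', hFr'⟩ := nex_frm hadm
  have hd : Disjoint Fr.S (e.image Fr.pl) := by
    rw [Finset.disjoint_left]
    intro P hP hP'
    obtain ⟨p, _, rfl⟩ := Finset.mem_image.1 hP'
    exact (Fr.pl_iff (Fr.pl p)).1 ⟨p, rfl⟩ hP
  have hc : (Fr.S ∪ e.image Fr.pl).card = Fr.S.card + e.card := by
    rw [Finset.card_union_of_disjoint hd, Finset.card_image_of_injective _ Fr.pl_inj]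
  refine ⟨Fr', hFr', ?_⟩
  · rw [nex_m Fr', nex_m Fr, hFr']
    unfold mS
    rw [hc]
    omega

end

end Pool.Agent.D8
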