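import Pool.Agent.D8.LStm
import Pool.Agent.H32.MZ.KDefs

/-!
# The dihedral group of order 16 over a number field: statements of the number-field part of the
assembly

Discriminants, change of the frame, the uniform bound, positivity, and the permutation group.
-/

set_option autoImplicit false

open scoped BigOperators Topology
open NumberField IsDedekindDomain Filter

namespace Pool.Agent.D8

open Pool.Agent.H98.MF
open Pool.Agent.H98.MK (sg)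
open Pool.Agent.H32.MQ (El rep co)

/-- the exponent of the discriminant of the regular representation -/
noncomputable def xe (g : E8) : ℕ := 16 - 16 / orderOf g

section

variable {k : Type} [Field k] [NumberField k] (Fr : Frm k) (Rk : RxF k)

open Classical in
/-- the primes outside `S` where the tame generator satisfies a condition -/
noncomputable def trs (Q : E8 → Prop) (ρ : Gm k →* E8) : Finset Fr.sys.P :=
  if h : {p | Q (ρ (Rk.tau (Fr.pl p)))}.Finite then h.toFinset else ∅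

/-- the part of the discriminant at `S` -/
noncomputable def dS (ρ : Gm k →* E8) : ℕ := ∏ P ∈ Fr.S, nrm P ^ Rk.rex P ρ.ker

/-- the homomorphisms that satisfy `H`, with inertia of order at most two outside `S`, and with
ramified primes of norm product at most `t` outside `S` -/
def ZC (H : (Gm k →* E8) → Prop) (t : ℝ) : Set (Gm k →* E8) :=
  {ρ | ρ ∈ Hs k ∧ H ρ ∧ (∀ p, ρ (Rk.tau (Fr.pl p)) ^ 2 = 1) ∧
    (Fr.sys.nm (trs Fr Rk (fun g => g ≠ 1) ρ) : ℝ) ≤ t}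

/-! ### rows NA: discriminants -/

/-- NA1: finitely many ramified primes, and the discriminant -/
def SnDisc : Prop := ∀ ρ ∈ Hs k, (∀ Q : E8 → Prop, ¬ Q 1 →
    {p | Q (ρ (Rk.tau (Fr.pl p)))}.Finite) ∧
  rdN (fld k ρ.ker) = dS Fr Rk ρ *
    ∏ p ∈ trs Fr Rk (fun g => g ≠ 1) ρ, Fr.sys.N p ^ xe (ρ (Rk.tau (Fr.pl p)))

/-- NA2: the values of the exponent -/
def SnXe : Prop := ∀ g : E8, (g = 1 → xe g = 0) ∧ (g ≠ 1 → g ^ 2 = 1 → xe g = 8) ∧
  (g ^ 2 ≠ 1 → 12 ≤ xe g)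

/-- NA3: the part at `S` is local and takes finitely many values -/
def SnFin : Prop := (∀ q : ℕ, HLoc Fr fun ρ => dS Fr Rk ρ = q) ∧ (dS Fr Rk '' Hs k).Finite ∧
  ∀ ρ ∈ Hs k, 1 ≤ dS Fr Rk ρ

/-- NA4: conditions at the tame generators in `S` are local -/
def SnLoc : Prop := ∀ (T : Finset (HeightOneSpectrum (𝓞 k))), T ⊆ Fr.S →
  (∀ P ∈ T, ord P (2 : k) = 0) → ∀ (Q : (HeightOneSpectrum (𝓞 k) → E8) → Prop),
  HLoc Fr fun ρ => Q fun P => by
    classical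
    exact if P ∈ T then ρ (Rk.tau P) else 1

/-! ### rows NB: counting with a fixed frame -/

open Classical in
/-- NB1: decomposition by the ramified primes of the two quadratic characters -/
def SnPart : Prop := ∀ (H : (Gm k →* E8) → Prop) (t : ℝ), 1 ≤ t →
  (∀ (A B : Finset Fr.sys.P) (ua ub : Fr.sys.T) (t' : ℝ), Disjoint A B → 1 ≤ t' →
    (Cs Fr Rk H A B ua ub t').Finite) →
  (ZC Fr Rk H t).Finite ∧ (ZC Fr Rk H t).ncard =
    ∑ A ∈ Fr.sys.bx t, ∑ B ∈ Fr.sys.bx t, ∑ ua : Fr.sys.T, ∑ ub : Fr.sys.T,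
      (if Disjoint A B ∧ ((Fr.sys.nm A * Fr.sys.nm B : ℕ) : ℝ) ≤ t
        then (Cs Fr Rk H A B ua ub (t / (Fr.sys.nm A * Fr.sys.nm B : ℕ))).ncard else 0)

/-- NB2: no surjective homomorphisms over degenerate pairs -/
def SnDeg : Prop := (∀ c : El Fr.sys, IsSquare (rep Fr c) ↔ c = (0, ∅)) ∧
  (∀ (A B : Finset Fr.sys.P) (ua ub : Fr.sys.T), Disjoint A B →
    (IsSquare (rep Fr (ua, A) * rep Fr (ub, B)) ↔ ua = ub ∧ A = ∅ ∧ B = ∅)) ∧
  ∀ (H : (Gm k →* E8) → Prop) (A B : Finset Fr.sys.P) (ua ub : Fr.sys.T) (t : ℝ),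
    (IsSquare (rep Fr (ua, A)) ∨ IsSquare (rep Fr (ub, B)) ∨
      IsSquare (rep Fr (ua, A) * rep Fr (ub, B))) → Cs Fr Rk H A B ua ub t = ∅

/-- the configuration with given parts -/
def spl {P : Type} (x1 x2 x3 x4 : Finset P) (u : V) : Finset P :=
  if u = (0, 1) then x1 else if u = (0, 0) then x2 else if u = (1, 1) then x3 else x4

open Classical in
/-- NB3: the number `NG` in terms of the coefficient function -/
def SnNG : Prop := ∀ G : LDt k, SLoc Fr G → (∀ d, |G d| ≤ 1) → ∀ (A B : Finset Fr.sys.P)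
  (ua ub : Fr.sys.T), Disjoint A B → ¬ IsSquare (rep Fr (ua, A)) →
  ¬ IsSquare (rep Fr (ub, B)) → ¬ IsSquare (rep Fr (ua, A) * rep Fr (ub, B)) →
  NG Fr Rk G (rep Fr (ua, A)) (rep Fr (ub, B)) (A ∪ B) =
    2 ^ (Fr.sys.m + (A ∪ B).card) * ∑ uv : Fr.sys.T, ∑ x1 ∈ A.powerset, ∑ x3 ∈ B.powerset,
      (if Adm ∅ (mkc ua ub uv) (spl x1 (A \ x1) x3 (B \ x3)) then
        RR Fr Rk G ua ub uv (spl x1 (A \ x1) x3 (B \ x3)) else 0)

open Classical in
/-- the number `NG` of a pair, zero for degenerate pairs -/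
noncomputable def aNG (G : LDt k) (ua ub : Fr.sys.T) (z : Finset Fr.sys.P × Finset Fr.sys.P) :
    ℝ :=
  if Disjoint z.1 z.2 ∧ ¬ IsSquare (rep Fr (ua, z.1)) ∧ ¬ IsSquare (rep Fr (ub, z.2)) ∧
      ¬ IsSquare (rep Fr (ua, z.1) * rep Fr (ub, z.2))
    then NG Fr Rk G (rep Fr (ua, z.1)) (rep Fr (ub, z.2)) (z.1 ∪ z.2) else 0

open Classical in
/-- NB5: the Dirichlet series of the pairs -/
def SnFD : Prop := ∀ G : LDt k, SLoc Fr G → (∀ d, |G d| ≤ 1) → ∀ (B : ℝ) (τ : Fr.sys.P → ℝ)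
  (s : ℝ), Tk Fr.sys B τ → (∀ a b v : Fr.sys.T, Summable fun x : V → Finset Fr.sys.P =>
      ms τ ∅ (mkc a b v) s x) →
  (∀ ua ub : Fr.sys.T, Summable fun z : Finset Fr.sys.P × Finset Fr.sys.P =>
    aNG Fr Rk G ua ub z * ((∏ p ∈ z.1, τ p * (Fr.sys.N p : ℝ) ^ (-s)) *
      ∏ p ∈ z.2, τ p * (Fr.sys.N p : ℝ) ^ (-s))) ∧
  ∑ ua : Fr.sys.T, ∑ ub : Fr.sys.T, ∑' z : Finset Fr.sys.P × Finset Fr.sys.P,
    aNG Fr Rk G ua ub z * ((∏ p ∈ z.1, τ p * (Fr.sys.N p : ℝ) ^ (-s)) *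
      ∏ p ∈ z.2, τ p * (Fr.sys.N p : ℝ) ^ (-s)) = 2 ^ Fr.sys.m * FD τ (RR Fr Rk G) s

/-- NB4: the numbers `NG` are nonnegative and monotone -/
def SnNN : Prop := ∀ (G G' : LDt k) (a b : kˣ) (W : Finset Fr.sys.P), (∀ d, 0 ≤ G d) →
  (∀ d, G d ≤ G' d) → 0 ≤ NG Fr Rk G a b W ∧ NG Fr Rk G a b W ≤ NG Fr Rk G' a b W

/-! ### rows NC: the frame with more primes -/

/-- the coefficients with given classes of `a`, `b`, `v` -/
noncomputable def mkM {S : Sys} (a b v : El S) : Co S where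
  f := fun i => if i = 0 then a else b
  g := fun j => if j = 0 then ad (ad (S.l, ∅) (ad a b)) v else v

end

open Classical in
/-- NC0: these coefficients are consistent -/
def SnOk : Prop := ∀ (S : Sys) (M : Finset S.P) (a b v : El S), a.2 ⊆ M → b.2 ⊆ M → v.2 ⊆ M →
  (mkM a b v).Ok M

open Classical in
/-- the classes with exponents in `M` -/
noncomputable def elsM {S : Sys} (M : Finset S.P) : Finset (El S) :=
  Finset.univ ×ˢ M.powerset

section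

variable {k : Type} [Field k] [NumberField k]

open Classical in
/-- NC1: frames with more primes exist -/
def SnEx (Fr : Frm k) : Prop := ∀ e : Finset Fr.sys.P, ∃ Fr' : Frm k,
  Fr'.S = Fr.S ∪ e.image Fr.pl ∧ Fr'.sys.m = Fr.sys.m + e.card

open Classical in
/-- NC2: the masses of the configurations in the two frames -/
def SnMv (Fr Fr' : Frm k) : Prop := ∀ e : Finset Fr.sys.P, Fr'.S = Fr.S ∪ e.image Fr.pl →
  ∀ s : ℝ, (∀ c : Co Fr.sys, c.Ok e → Summable fun x : V → Finset Fr.sys.P =>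
      ms (fun _ => 1) e c s x) →
    (∀ a b v : Fr'.sys.T, Summable fun x : V → Finset Fr'.sys.P =>
      ms (fun _ => 1) ∅ (mkc a b v) s x) ∧
    ∑ a : Fr'.sys.T, ∑ b : Fr'.sys.T, ∑ v : Fr'.sys.T,
      ∑' x : V → Finset Fr'.sys.P, ms (fun _ => 1) ∅ (mkc a b v) s x =
    ∑ a ∈ elsM e, ∑ b ∈ elsM e, ∑ v ∈ elsM e,
      ∑' x : V → Finset Fr.sys.P, ms (fun _ => 1) e (mkM a b v) s x

open Classical in
/-- NC3: the primes with inertia of order four or eight in the base frame -/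
def SnCh (Fr Fr' : Frm k) (Rk : RxF k) : Prop := ∀ e : Finset Fr.sys.P,
  Fr'.S = Fr.S ∪ e.image Fr.pl → ∀ ρ ∈ Hs k, trs Fr Rk (fun g => g ^ 2 ≠ 1) ρ = e →
  (∀ p, ρ (Rk.tau (Fr'.pl p)) ^ 2 = 1) ∧
  rdN (fld k ρ.ker) = dS Fr' Rk ρ * Fr'.sys.nm (trs Fr' Rk (fun g => g ≠ 1) ρ) ^ 8 ∧
  Fr.sys.nm e ^ 12 ∣ dS Fr' Rk ρ

/-- NC4: the uniform bound for a fixed frame -/
def SnU0 : Prop := ∃ C : ℝ, 0 < C ∧ ∀ (Fr : Frm k) (Rk : RxF k) (t σ : ℝ), 1 ≤ t → 0 < σ →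
  σ ≤ 1 → (∀ a b v : Fr.sys.T, Summable fun x : V → Finset Fr.sys.P =>
      ms (fun _ => 1) ∅ (mkc a b v) (1 + σ) x) →
    (ZC Fr Rk (fun _ => True) t).Finite ∧
    ((ZC Fr Rk (fun _ => True) t).ncard : ℝ) ≤ C * 8 ^ Fr.sys.m * t ^ (1 + σ) *
      ∑ a : Fr.sys.T, ∑ b : Fr.sys.T, ∑ v : Fr.sys.T,
        ∑' x : V → Finset Fr.sys.P, ms (fun _ => 1) ∅ (mkc a b v) (1 + σ) x

/-! ### rows ND: positivity -/

open Classical in
/-- ND1: the trivial local data -/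
noncomputable def G0 (Fr : Frm k) : LDt k := fun d =>
  if ∀ v ∈ pls Fr.S, ∀ σ ∈ DecP v, d σ = (0, 0, 0) then 1 else 0

/-- ND1: the trivial local data are allowed -/
def SnG0 (Fr : Frm k) : Prop := LG Fr (G0 Fr)

/-- ND2: the sum of the main terms is positive -/
def SnPos (Fr : Frm k) (Rk : RxF k) : Prop := ∀ (G : LDt k)
  (Θ : Fr.sys.T → Fr.sys.T → Fr.sys.T → Fr.sys.T → ℝ), LG Fr G →
  (∀ a b m n, 0 ≤ Θ a b m n) →
  (∀ (A B : Finset Fr.sys.P) (ua ub : Fr.sys.T), Disjoint A B →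
    (⟨∅, A, ∅, B, ua, ub, 0⟩ : Cg Fr.sys).C1 →
    (∃ f, IsL Fr Rk (rep Fr (ua, A)) (rep Fr (ub, B)) ∅ f ∧
      ∃ y z : Fr.sys.T, G (dat (rep Fr (ua, A)) (rep Fr (ub, B))
        fun σ => f σ + chi (cl Fr y z : k) σ) ≠ 0) →
      0 < Θ ua ub (Fr.sys.tys A) (Fr.sys.tys B)) →
  (G = G0 Fr ∨ ∃ H : (Gm k →* E8) → Prop, HLoc Fr H ∧ G = GH Fr H ∧
    ∃ ρ ∈ Hs k, H ρ ∧ ∀ p, ρ (Rk.tau (Fr.pl p)) ^ 2 = 1) →
  0 < ∑ a : Fr.sys.T, ∑ b : Fr.sys.T, ∑ m : Fr.sys.T, ∑ n : Fr.sys.T,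
    Θ a b m n * (1 + ((sg (hq a b m n) : ℤ) : ℝ))

variable (k) in
/-- ND3: there are surjective homomorphisms -/
def SnHs : Prop := (Hs k).Nonempty

/-! ### rows NE: the permutation group -/

open Pool.Agent.H32.MA (mInd bM)
open Pool.Agent.H32.MZ (MalleK)

variable (k) in
/-- NE1: the permutation group -/
def SnPerm : Prop := MulAction.IsPretransitive Pool.Agent.H32.MZ.D8 (Fin 16) ∧
  mInd Pool.Agent.H32.MZ.D8 = 8 ∧ bM k Pool.Agent.H32.MZ.D8 = 3 ∧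
  ∃ pr : E8 →* Equiv.Perm (Fin 16), Function.Injective pr ∧
    pr.range = Pool.Agent.H32.MZ.D8 ∧ ∀ g i, pr g i = i → g = 1

variable (k) in
/-- the asymptotic formula for the number of homomorphisms -/
def SnAsy : Prop := ∃ c : ℝ, 0 < c ∧ Tendsto (fun X : ℝ =>
  (({ρ : Gm k →* E8 | ρ ∈ Hs k ∧ (rdN (fld k ρ.ker) : ℝ) ≤ X}.ncard : ℕ) : ℝ) /
    (X ^ (1 / 8 : ℝ) * Real.log X ^ 2)) atTop (𝓝 c)

variable (k) in
/-- NE2: the final statement -/
def SnFinal : Prop := SnAsy k → MalleK k Pool.Agent.H32.MZ.D8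

end

end Pool.Agent.D8
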