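import Pool.Agent.D8.UStm
import Pool.Agent.D8.CDis
import Pool.Agent.D8.NStm

/-!
# Malle's conjecture for the dihedral group of order 16 over number fields, row U3: change of the
frame and the uniform bound in terms of the mass
-/

set_option autoImplicit false

open scoped BigOperators
open NumberField IsDedekindDomain

namespace Pool.Agent.D8

open Pool.Agent.H98.MF
open Pool.Agent.H98.ML (norb)
open Pool.Agent.H32.MQ (El rep)

private theorem uch_norb (g : E8) (h : g ^ 2 ≠ 1) : norb (⊥ : Subgroup E8) g ≤ 4 := by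
  rw [cd_norb]
  have h3 := (Subgroup.zpowers g).card_mul_index
  rw [Nat.card_zpowers, cd_card] at h3
  by_contra hc
  push Not at hc
  have h4 : orderOf g * 5 ≤ orderOf g * (Subgroup.zpowers g).index :=
    Nat.mul_le_mul_left _ hc
  have h5 : orderOf g ≤ 3 := by omega
  apply h
  rw [← orderOf_dvd_iff_pow_eq_one]
  generalize orderOf g = o at h3 h5 ⊢
  interval_cases o
  · omega
  · exact one_dvd 2
  · exact dvd_refl 2
  · omega

private theorem uch_nrm_pos {k : Type} [Field k] [NumberField k]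
    (P : HeightOneSpectrum (𝓞 k)) : 1 ≤ nrm P := by
  unfold nrm
  rw [Nat.one_le_iff_ne_zero]
  intro h
  exact P.ne_bot (Ideal.absNorm_eq_zero_iff.1 h)

/-- U3: the homomorphisms with inertia of order larger than two exactly at `R` -/
theorem uCh {k : Type} [Field k] [NumberField k] (Fr Fr' : Frm k) (Rk : RxF k) :
    SuCh Fr Fr' Rk := by
  classical
  intro R hS X ρ hρ
  obtain ⟨h1, h2, -⟩ := hρ
  have hmem : ∀ p, p ∈ R ↔ ρ (Rk.tau (Fr.pl p)) ^ 2 ≠ 1 := by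
    intro p
    rw [← Finset.mem_coe, ← h2]
    exact Iff.rfl
  constructor
  · intro p'
    have h3 : Fr'.pl p' ∉ Fr'.S := Pool.Agent.H32.MQ.hb_notMem Fr' p'
    rw [hS, Finset.mem_union, not_or] at h3
    obtain ⟨p, hp⟩ := (Fr.pl_iff _).2 h3.1
    rw [← hp]
    by_contra hc
    apply h3.2
    rw [← hp]
    exact Finset.mem_image_of_mem _ ((hmem p).2 hc)
  · unfold qE
    have hdj : Disjoint Fr.S (R.image Fr.pl) := by
      rw [Finset.disjoint_left]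
      intro P hP hP'
      obtain ⟨p, -, rfl⟩ := Finset.mem_image.1 hP'
      exact Pool.Agent.H32.MQ.hb_notMem Fr p hP
    have hS' : ∏ P ∈ Fr'.S, nrm P ^ Rk.rex P ρ.ker =
        (∏ P ∈ Fr.S, nrm P ^ Rk.rex P ρ.ker) *
          ∏ p ∈ R, nrm (Fr.pl p) ^ Rk.rex (Fr.pl p) ρ.ker := by
      rw [hS, Finset.prod_union hdj, Finset.prod_image fun x _ y _ h => Fr.pl_inj h]
    rw [hS']
    have h5 : 1 ≤ ∏ P ∈ Fr.S, nrm P ^ Rk.rex P ρ.ker :=
      Finset.one_le_prod' fun P _ => Nat.one_le_pow _ _ (uch_nrm_pos P)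
    have h6 : Fr.sys.nm R ^ 12 ≤ ∏ p ∈ R, nrm (Fr.pl p) ^ Rk.rex (Fr.pl p) ρ.ker := by
      unfold Pre.nm
      rw [← Finset.prod_pow]
      refine Finset.prod_le_prod' fun p hp => ?_
      rw [Fr.N_eq]
      refine Nat.pow_le_pow_right (uch_nrm_pos _) ?_
      have h7 := cd_rex Fr Rk h1 p
      have h8 := uch_norb _ ((hmem p).1 hp)
      omega
    calc Fr.sys.nm R ^ 12 = 1 * Fr.sys.nm R ^ 12 := (one_mul _).symm
      _ ≤ _ := Nat.mul_le_mul h5 h6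

/-- U3: the uniform bound in terms of the mass -/
theorem cU0 {k : Type} [Field k] [NumberField k] (Fr : Frm k) (Rk : RxF k) (hF : SuFix k)
    (hM : ∀ Fr', SuMv Fr Fr') (hC : ∀ Fr', SuCh Fr Fr' Rk) (hE : SnEx Fr) : ScU0 Fr Rk := by
  classical
  obtain ⟨C, hC0, hF⟩ := hF
  refine ⟨C * 8 ^ Fr.sys.m, by positivity, ?_⟩
  intro R X hX
  obtain ⟨Fr', hS, hm⟩ := hE R
  have hn1 : 1 ≤ Fr.sys.nm R := Fr.sys.one_le_nm R
  have hn0 : (0 : ℝ) < Fr.sys.nm R := by exact_mod_cast hn1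
  have hq : 1 ≤ Fr.sys.nm R ^ 12 := Nat.one_le_pow _ _ hn1
  obtain ⟨hfin, hle⟩ := hF Fr' Rk (Fr.sys.nm R ^ 12) X hq hX
  have hsub : AR Fr Rk R X ⊆ {ρ : Gm k →* E8 | ρ ∈ Hs k ∧ Tm Fr' Rk ρ ∧
      Fr.sys.nm R ^ 12 ≤ qE Fr' Rk ρ ∧ (dN ρ : ℝ) ≤ X} := by
    intro ρ hρ
    obtain ⟨e1, e2⟩ := hC Fr' R hS X ρ hρ
    exact ⟨hρ.1, e1, e2, hρ.2.2⟩
  refine ⟨hfin.subset hsub, ?_⟩
  have h1 : ((AR Fr Rk R X).ncard : ℝ) ≤ ({ρ : Gm k →* E8 | ρ ∈ Hs k ∧ Tm Fr' Rk ρ ∧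
      Fr.sys.nm R ^ 12 ≤ qE Fr' Rk ρ ∧ (dN ρ : ℝ) ≤ X}.ncard : ℝ) := by
    exact_mod_cast Set.ncard_le_ncard hsub hfin
  refine (h1.trans hle).trans ?_
  rw [hM Fr' R hS (X ^ (1 / 8 : ℝ)), hm]
  have hsum : 0 ≤ ∑ ca ∈ elM R, ∑ cb ∈ elM R, ∑ cv ∈ elM R, ∑' x : V → Finset Fr.sys.P,
      (if (nx x : ℝ) ≤ X ^ (1 / 8 : ℝ) then ms (fun _ => 1) R (mkC ca cb cv) 1 x else 0) := by
    refine Finset.sum_nonneg fun ca _ => Finset.sum_nonneg fun cb _ =>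
      Finset.sum_nonneg fun cv _ => tsum_nonneg fun x => ?_
    split_ifs
    · unfold ms
      split_ifs
      · exact Finset.prod_nonneg fun u _ => Finset.prod_nonneg fun p _ =>
          mul_nonneg (by norm_num) (Real.rpow_nonneg (Nat.cast_nonneg _) _)
      · exact le_rfl
    · exact le_rfl
  refine mul_le_mul_of_nonneg_right ?_ hsum
  have hX0 : 0 ≤ X := by linarith
  have h2 : (X / ((Fr.sys.nm R ^ 12 : ℕ) : ℝ)) ^ (1 / 8 : ℝ) =
      X ^ (1 / 8 : ℝ) * (Fr.sys.nm R : ℝ) ^ (-(3 / 2) : ℝ) := by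
    rw [Nat.cast_pow, Real.div_rpow hX0 (by positivity), ← Real.rpow_natCast _ 12,
      ← Real.rpow_mul hn0.le, div_eq_mul_inv, ← Real.rpow_neg hn0.le]
    norm_num
  rw [h2]
  have h3 : (8 : ℝ) ^ (Fr.sys.m + R.card) ≤ 8 ^ Fr.sys.m * 16 ^ R.card := by
    rw [pow_add]
    exact mul_le_mul_of_nonneg_left (pow_le_pow_left₀ (by norm_num) (by norm_num) _)
      (by positivity)
  have h4 : 0 ≤ X ^ (1 / 8 : ℝ) * (Fr.sys.nm R : ℝ) ^ (-(3 / 2) : ℝ) :=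
    mul_nonneg (Real.rpow_nonneg hX0 _) (Real.rpow_nonneg hn0.le _)
  calc C * 8 ^ (Fr.sys.m + R.card) * (X ^ (1 / 8 : ℝ) * (Fr.sys.nm R : ℝ) ^ (-(3 / 2) : ℝ))
      ≤ C * (8 ^ Fr.sys.m * 16 ^ R.card) *
          (X ^ (1 / 8 : ℝ) * (Fr.sys.nm R : ℝ) ^ (-(3 / 2) : ℝ)) :=
        mul_le_mul_of_nonneg_right (mul_le_mul_of_nonneg_left h3 hC0) h4
    _ = _ := by ring

end Pool.Agent.D8
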