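import Pool.Agent.D8.UFixA
import Pool.Agent.D8.LStm

/-!
# The dihedral group of order 16 over a number field: pairs and configurations
-/

set_option autoImplicit false

open scoped BigOperators
open NumberField IsDedekindDomain

namespace Pool.Agent.D8

open Pool.Agent.H98.MF
open Pool.Agent.H98.MK (sg)
open Pool.Agent.H32.MQ (El rep)

section

variable {S : Sys}

/-- the family of the four classes -/
def ufbF (x1 x2 x3 x4 : Finset S.P) : V → Finset S.P := fun u =>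
  if u = (0, 1) then x1 else if u = (0, 0) then x2 else if u = (1, 1) then x3 else x4

theorem ufbF1 (x1 x2 x3 x4 : Finset S.P) : ufbF x1 x2 x3 x4 (0, 1) = x1 := by
  simp [ufbF]

theorem ufbF2 (x1 x2 x3 x4 : Finset S.P) : ufbF x1 x2 x3 x4 (0, 0) = x2 := by
  simp [ufbF]

theorem ufbF3 (x1 x2 x3 x4 : Finset S.P) : ufbF x1 x2 x3 x4 (1, 1) = x3 := by
  simp [ufbF]

theorem ufbF4 (x1 x2 x3 x4 : Finset S.P) : ufbF x1 x2 x3 x4 (1, 0) = x4 := by
  simp [ufbF]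

theorem ufb_prod {M : Type} [CommMonoid M] (f : V → M) :
    ∏ u, f u = f (0, 1) * f (0, 0) * (f (1, 1) * f (1, 0)) := by
  have e : ∀ g : ZMod 2 → M, ∏ i, g i = g 0 * g 1 := fun g => Fin.prod_univ_two g
  rw [Fintype.prod_prod_type, e, e, e, mul_comm (f (0, 0)), mul_comm (f (1, 0))]

theorem ufb_w (x : Finset S.P) :
    ∏ p ∈ x, (2 * (1 : ℝ) * (S.N p : ℝ) ^ (-(1 : ℝ))) = 2 ^ x.card / (S.nm x : ℝ) := by
  have h : ∀ p ∈ x, (2 * (1 : ℝ) * (S.N p : ℝ) ^ (-(1 : ℝ))) = 2 / (S.N p : ℝ) := by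
    intro p _
    rw [Real.rpow_neg_one]
    ring
  rw [Finset.prod_congr rfl h, Finset.prod_div_distrib, Finset.prod_const]
  congr 1
  unfold Pre.nm
  push_cast
  rfl

theorem ufb_sd {A x : Finset S.P} (h : x ⊆ A) : S.nm x * S.nm (A \ x) = S.nm A := by
  rw [← S.nm_union Finset.disjoint_sdiff, Finset.union_sdiff_of_subset h]

theorem ufb_cd {A x : Finset S.P} (h : x ⊆ A) : x.card + (A \ x).card = A.card := by
  have h1 := Finset.card_sdiff_add_card_eq_card h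
  omega

theorem ufb_nx {A B x1 x3 : Finset S.P} (h1 : x1 ⊆ A) (h3 : x3 ⊆ B) :
    nx (ufbF x1 (A \ x1) x3 (B \ x3)) = S.nm A * S.nm B := by
  unfold nx
  rw [ufb_prod, ufbF1, ufbF2, ufbF3, ufbF4, ufb_sd h1, ufb_sd h3]

open Classical in
theorem ufb_ms (hA : SlAdm) {A B x1 x3 : Finset S.P} (a b v : S.T) (hd : Disjoint A B)
    (h1 : x1 ⊆ A) (h3 : x3 ⊆ B) :
    ms (fun _ => 1) ∅ (mkc a b v) 1 (ufbF x1 (A \ x1) x3 (B \ x3)) =
      2 ^ (A ∪ B).card / ((S.nm A * S.nm B : ℕ) : ℝ) *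
        (if (⟨x1, A \ x1, x3, B \ x3, a, b, v⟩ : Cg S).C1 ∧
          (⟨x1, A \ x1, x3, B \ x3, a, b, v⟩ : Cg S).C2 then (1 : ℝ) else 0) := by
  have e : toCg a b v (ufbF x1 (A \ x1) x3 (B \ x3)) =
      (⟨x1, A \ x1, x3, B \ x3, a, b, v⟩ : Cg S) := by
    unfold toCg
    rw [ufbF1, ufbF2, ufbF3, ufbF4]
  have hj : (⟨x1, A \ x1, x3, B \ x3, a, b, v⟩ : Cg S).Dj := by
    refine ⟨Finset.disjoint_sdiff, Finset.disjoint_sdiff, ?_⟩
    simp only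
    rw [Finset.union_sdiff_of_subset h1, Finset.union_sdiff_of_subset h3]
    exact hd
  have hi := hA S a b v (ufbF x1 (A \ x1) x3 (B \ x3))
  rw [e] at hi
  unfold ms
  by_cases hc : (⟨x1, A \ x1, x3, B \ x3, a, b, v⟩ : Cg S).C1 ∧
      (⟨x1, A \ x1, x3, B \ x3, a, b, v⟩ : Cg S).C2
  · rw [if_pos (hi.2 ⟨hj, hc⟩), if_pos hc, mul_one, ufb_prod, ufbF1, ufbF2, ufbF3, ufbF4,
      ufb_w, ufb_w, ufb_w, ufb_w, Finset.card_union_of_disjoint hd, ← ufb_cd h1, ← ufb_cd h3,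
      ← ufb_sd h1, ← ufb_sd h3]
    push_cast
    have n1 := S.nm_posr x1
    have n2 := S.nm_posr (A \ x1)
    have n3 := S.nm_posr x3
    have n4 := S.nm_posr (B \ x3)
    rw [pow_add, pow_add, pow_add]
    field_simp
  · rw [if_neg (fun h => hc (hi.1 h).2), if_neg hc, mul_zero]

open Classical in
theorem ufb_nn (a b v : S.T) (x : V → Finset S.P) :
    0 ≤ ms (fun _ => 1) ∅ (mkc a b v) 1 x := by
  unfold ms
  split_ifs
  · exact Finset.prod_nonneg fun u _ => Finset.prod_nonneg fun p _ => by positivity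
  · exact le_rfl

theorem ufb_le (x : V → Finset S.P) (u : V) : S.nm (x u) ≤ nx x := by
  unfold nx
  exact Nat.le_of_dvd (Finset.prod_pos fun v _ => S.nm_pos _)
    (Finset.dvd_prod_of_mem (fun u => S.nm (x u)) (Finset.mem_univ u))

open Classical in
theorem ufb_tsum (Y : ℝ) (a b v : S.T) :
    ∑' x : V → Finset S.P, (if (nx x : ℝ) ≤ Y then ms (fun _ => 1) ∅ (mkc a b v) 1 x else 0) =
    ∑ x ∈ Fintype.piFinset (fun _ : V => S.bx Y),
      (if (nx x : ℝ) ≤ Y then ms (fun _ => 1) ∅ (mkc a b v) 1 x else 0) := by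
  refine tsum_eq_sum fun x hx => if_neg fun h => hx ?_
  rw [Fintype.mem_piFinset]
  intro u
  rw [S.mem_bx]
  exact (by exact_mod_cast ufb_le x u : (S.nm (x u) : ℝ) ≤ nx x).trans h

open Classical in
/-- the sum over the pairs is at most the sum over the configurations -/
theorem ufb_main (hA : SlAdm) (Y : ℝ) (F : Finset (Pq S))
    (hF : ∀ z ∈ F, Disjoint z.1.1 z.1.2 ∧ (nq z : ℝ) ≤ Y) :
    ∑ z ∈ F, 2 ^ (z.1.1 ∪ z.1.2).card / (nq z : ℝ) *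
      (∑ uv : S.T, ∑ x1 ∈ z.1.1.powerset, ∑ x3 ∈ z.1.2.powerset,
        (if (⟨x1, z.1.1 \ x1, x3, z.1.2 \ x3, z.2.1, z.2.2, uv⟩ : Cg S).C1 ∧
          (⟨x1, z.1.1 \ x1, x3, z.1.2 \ x3, z.2.1, z.2.2, uv⟩ : Cg S).C2 then (1 : ℝ)
          else 0)) ≤
    ∑ a : S.T, ∑ b : S.T, ∑ v : S.T, ∑' x : V → Finset S.P,
      (if (nx x : ℝ) ≤ Y then ms (fun _ => 1) ∅ (mkc a b v) 1 x else 0) := by
  obtain ⟨g, hg⟩ : ∃ g : S.T × S.T × S.T × (V → Finset S.P) → ℝ, g = fun r =>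
      (if (nx r.2.2.2 : ℝ) ≤ Y then ms (fun _ => 1) ∅ (mkc r.1 r.2.1 r.2.2.1) 1 r.2.2.2
        else 0) := ⟨_, rfl⟩
  obtain ⟨e, he⟩ : ∃ e : (Σ _ : Pq S, S.T × (Finset S.P × Finset S.P)) →
      S.T × S.T × S.T × (V → Finset S.P), e = fun s =>
      (s.1.2.1, s.1.2.2, s.2.1,
        ufbF s.2.2.1 (s.1.1.1 \ s.2.2.1) s.2.2.2 (s.1.1.2 \ s.2.2.2)) := ⟨_, rfl⟩
  obtain ⟨I, hI⟩ : ∃ I : Finset (Σ _ : Pq S, S.T × (Finset S.P × Finset S.P)),
      I = F.sigma fun z => (Finset.univ : Finset S.T) ×ˢ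
        (z.1.1.powerset ×ˢ z.1.2.powerset) := ⟨_, rfl⟩
  have hmem : ∀ s ∈ I, s.1 ∈ F ∧ s.2.2.1 ⊆ s.1.1.1 ∧ s.2.2.2 ⊆ s.1.1.2 := by
    intro s hs
    rw [hI, Finset.mem_sigma, Finset.mem_product, Finset.mem_product, Finset.mem_powerset,
      Finset.mem_powerset] at hs
    exact ⟨hs.1, hs.2.2.1, hs.2.2.2⟩
  have hL : ∑ z ∈ F, 2 ^ (z.1.1 ∪ z.1.2).card / (nq z : ℝ) *
      (∑ uv : S.T, ∑ x1 ∈ z.1.1.powerset, ∑ x3 ∈ z.1.2.powerset,
        (if (⟨x1, z.1.1 \ x1, x3, z.1.2 \ x3, z.2.1, z.2.2, uv⟩ : Cg S).C1 ∧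
          (⟨x1, z.1.1 \ x1, x3, z.1.2 \ x3, z.2.1, z.2.2, uv⟩ : Cg S).C2 then (1 : ℝ)
          else 0)) = ∑ s ∈ I, g (e s) := by
    rw [hI, Finset.sum_sigma]
    refine Finset.sum_congr rfl fun z hz => ?_
    rw [Finset.sum_product, Finset.mul_sum]
    refine Finset.sum_congr rfl fun uv _ => ?_
    rw [Finset.sum_product, Finset.mul_sum]
    refine Finset.sum_congr rfl fun x1 h1 => ?_
    rw [Finset.mul_sum]
    refine Finset.sum_congr rfl fun x3 h3 => ?_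
    rw [Finset.mem_powerset] at h1 h3
    obtain ⟨hz1, hz2⟩ := hF z hz
    rw [hg, he]
    simp only
    rw [ufb_nx h1 h3, if_pos (show ((S.nm z.1.1 * S.nm z.1.2 : ℕ) : ℝ) ≤ Y from hz2),
      ufb_ms hA z.2.1 z.2.2 uv hz1 h1 h3]
    rfl
  have hR : ∑ a : S.T, ∑ b : S.T, ∑ v : S.T, ∑' x : V → Finset S.P,
      (if (nx x : ℝ) ≤ Y then ms (fun _ => 1) ∅ (mkc a b v) 1 x else 0) =
      ∑ r ∈ (Finset.univ : Finset S.T) ×ˢ ((Finset.univ : Finset S.T) ×ˢ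
        ((Finset.univ : Finset S.T) ×ˢ Fintype.piFinset (fun _ : V => S.bx Y))), g r := by
    rw [Finset.sum_product]
    refine Finset.sum_congr rfl fun a _ => ?_
    rw [Finset.sum_product]
    refine Finset.sum_congr rfl fun b _ => ?_
    rw [Finset.sum_product]
    refine Finset.sum_congr rfl fun v _ => ?_
    rw [ufb_tsum, hg]
  have hinj : Set.InjOn e (I : Set (Σ _ : Pq S, S.T × (Finset S.P × Finset S.P))) := by
    rintro ⟨⟨⟨A, B⟩, a, b⟩, v, x1, x3⟩ hs ⟨⟨⟨A', B'⟩, a', b'⟩, v', x1', x3'⟩ hs' h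
    obtain ⟨-, s1, s3⟩ := hmem _ (Finset.mem_coe.1 hs)
    obtain ⟨-, s1', s3'⟩ := hmem _ (Finset.mem_coe.1 hs')
    simp only at s1 s3 s1' s3'
    rw [he] at h
    simp only [Prod.mk.injEq] at h
    obtain ⟨rfl, rfl, rfl, hf⟩ := h
    have f1 := congrFun hf (0, 1)
    have f2 := congrFun hf (0, 0)
    have f3 := congrFun hf (1, 1)
    have f4 := congrFun hf (1, 0)
    rw [ufbF1, ufbF1] at f1
    rw [ufbF2, ufbF2] at f2
    rw [ufbF3, ufbF3] at f3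
    rw [ufbF4, ufbF4] at f4
    subst f1 f3
    have hAA : A = A' := by
      rw [← Finset.union_sdiff_of_subset s1, f2, Finset.union_sdiff_of_subset s1']
    have hBB : B = B' := by
      rw [← Finset.union_sdiff_of_subset s3, f4, Finset.union_sdiff_of_subset s3']
    subst hAA hBB
    rfl
  rw [hL, hR, ← Finset.sum_image hinj]
  refine Finset.sum_le_sum_of_subset_of_nonneg ?_ fun r _ _ => ?_
  · intro r hr
    obtain ⟨s, hs, rfl⟩ := Finset.mem_image.1 hr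
    obtain ⟨hz, s1, s3⟩ := hmem s hs
    obtain ⟨-, hz2⟩ := hF _ hz
    rw [he, Finset.mem_product, Finset.mem_product, Finset.mem_product, Fintype.mem_piFinset]
    refine ⟨Finset.mem_univ _, Finset.mem_univ _, Finset.mem_univ _, fun u => ?_⟩
    rw [S.mem_bx]
    have h1 := ufb_le (ufbF s.2.2.1 (s.1.1.1 \ s.2.2.1) s.2.2.2 (s.1.1.2 \ s.2.2.2)) u
    rw [ufb_nx s1 s3] at h1
    exact (by exact_mod_cast h1 : (_ : ℝ) ≤ ((S.nm s.1.1.1 * S.nm s.1.1.2 : ℕ) : ℝ)).trans hz2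
  · rw [hg]
    simp only
    split_ifs
    · exact ufb_nn _ _ _ _
    · exact le_rfl

end

end Pool.Agent.D8
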