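import Pool.Agent.D8.UFixA
import Pool.Agent.D8.UFixB
import Pool.Agent.H98.MF.C.H0

/-!
# The dihedral group of order 16 over a number field, row U1: the uniform bound in a fixed frame
-/

set_option autoImplicit false

open scoped BigOperators
open NumberField IsDedekindDomain

namespace Pool.Agent.D8

open Pool.Agent.H98.MF
open Pool.Agent.H98.MK (sg)
open Pool.Agent.H32.MQ (El rep fsz)

section

variable {k : Type} [Field k] [NumberField k]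

theorem ufix_chi_sq (x : kˣ) (h : IsSquare x) (σ : Gm k) : chi (x : k) σ = 0 := by
  obtain ⟨y, rfl⟩ := h
  rw [Units.val_mul, ← pow_two]
  exact Pool.Agent.H98.MF.B.chi_sq _ σ

/-- the elements of a pair of a surjective homomorphism are not squares -/
theorem ufix_nsq {ρ : Gm k →* E8} (hρ : ρ ∈ Hs k) {a b : kˣ} (ho : Ov a b ρ) :
    ¬ IsSquare a ∧ ¬ IsSquare b ∧ ¬ IsSquare (a * b) := by
  refine ⟨fun h => ?_, fun h => ?_, fun h => ?_⟩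
  · obtain ⟨σ, hσ⟩ := hρ.1 ⟨0, 1⟩
    have h1 := (ho σ).1
    rw [ufix_chi_sq a h, hσ] at h1
    revert h1; decide
  · obtain ⟨σ, hσ⟩ := hρ.1 ⟨1, 0⟩
    have h1 := (ho σ).2
    rw [ufix_chi_sq b h, hσ] at h1
    revert h1; decide
  · obtain ⟨σ, hσ⟩ := hρ.1 ⟨0, 1⟩
    have h1 := (ho σ).1
    have h2 := (ho σ).2
    have h3 := Pool.Agent.H98.MF.B.chi_mul_units a b σ
    rw [ufix_chi_sq _ h, ← h1, ← h2, hσ] at h3
    revert h3; decide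

variable (Fr : Frm k) (Rk : RxF k)

/-- the weights are nonnegative -/
theorem ufix_NG0 (G : LDt k) (hG : ∀ d, 0 ≤ G d) (a b : kˣ) (W : Finset Fr.sys.P) :
    0 ≤ NG Fr Rk G a b W := by
  unfold NG
  split_ifs with h
  · refine mul_nonneg (by positivity) (Finset.sum_nonneg fun y _ => Finset.sum_nonneg
      fun r _ => ?_)
    split_ifs
    · exact hG _
    · exact le_rfl
  · exact le_rfl

open Classical in
/-- the weight is at most the number of configurations -/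
theorem ufix_NG (hNG : SaNG Fr Rk) (hb : SaRb Fr Rk) (hC1 : ScC1 Fr Rk) (G : LDt k)
    (hl : SLoc Fr G) (hG : ∀ d, |G d| ≤ 1) (A B : Finset Fr.sys.P) (ua ub : Fr.sys.T)
    (hd : Disjoint A B) :
    NG Fr Rk G (rep Fr (ua, A)) (rep Fr (ub, B)) (A ∪ B) ≤
      2 ^ (Fr.sys.m + (A ∪ B).card) * ∑ uv : Fr.sys.T, ∑ x1 ∈ A.powerset, ∑ x3 ∈ B.powerset,
        (if (⟨x1, A \ x1, x3, B \ x3, ua, ub, uv⟩ : Cg Fr.sys).C1 ∧
          (⟨x1, A \ x1, x3, B \ x3, ua, ub, uv⟩ : Cg Fr.sys).C2 then (1 : ℝ) else 0) := by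
  rw [hNG G hl hG A B ua ub hd]
  refine mul_le_mul_of_nonneg_left ?_ (by positivity)
  refine Finset.sum_le_sum fun uv _ => Finset.sum_le_sum fun x1 h1 =>
    Finset.sum_le_sum fun x3 h3 => ?_
  rw [Finset.mem_powerset] at h1 h3
  obtain ⟨c, hc⟩ : ∃ c : Cg Fr.sys, c = ⟨x1, A \ x1, x3, B \ x3, ua, ub, uv⟩ := ⟨_, rfl⟩
  have hj : c.Dj := by
    rw [hc]
    refine ⟨Finset.disjoint_sdiff, Finset.disjoint_sdiff, ?_⟩
    simp only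
    rw [Finset.union_sdiff_of_subset h1, Finset.union_sdiff_of_subset h3]
    exact hd
  rw [← hc]
  by_cases h2 : c.C2
  · rw [if_pos h2]
    by_cases h0 : Rf Fr Rk G c = 0
    · rw [h0]
      split_ifs <;> norm_num
    · rw [if_pos ⟨hC1 G c hj h0, h2⟩]
      exact (le_abs_self _).trans (hb G hG c)
  · rw [if_neg h2]
    split_ifs <;> norm_num

open Classical in
/-- the number of homomorphisms over a pair -/
theorem ufix_Cs (hcnt : SaCnt Fr Rk) (hNG : SaNG Fr Rk) (hGH : SaGH Fr) (hb : SaRb Fr Rk)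
    (hC1 : ScC1 Fr Rk) {C : ℝ} (hC : 0 ≤ C)
    (hbx : ∀ t : ℝ, 1 ≤ t → ((Fr.sys.bx t).card : ℝ) ≤ C * t) (z : Pq Fr.sys) (hz : Nd z)
    (t : ℝ) (ht : (nq z : ℝ) ≤ t) :
    (Cs Fr Rk (fun _ => True) z.1.1 z.1.2 z.2.1 z.2.2 (t / nq z)).Finite ∧
    ((Cs Fr Rk (fun _ => True) z.1.1 z.1.2 z.2.1 z.2.2 (t / nq z)).ncard : ℝ) ≤
      C * 8 ^ Fr.sys.m * t * (2 ^ (z.1.1 ∪ z.1.2).card / (nq z : ℝ) *
      (∑ uv : Fr.sys.T, ∑ x1 ∈ z.1.1.powerset, ∑ x3 ∈ z.1.2.powerset,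
        (if (⟨x1, z.1.1 \ x1, x3, z.1.2 \ x3, z.2.1, z.2.2, uv⟩ : Cg Fr.sys).C1 ∧
          (⟨x1, z.1.1 \ x1, x3, z.1.2 \ x3, z.2.1, z.2.2, uv⟩ : Cg Fr.sys).C2 then (1 : ℝ)
          else 0))) := by
  have hn1 : 1 ≤ nq z := Nat.mul_pos (Fr.sys.nm_pos _) (Fr.sys.nm_pos _)
  have hn : (0 : ℝ) < nq z := by exact_mod_cast hn1
  have ht1 : 1 ≤ t / nq z := by rwa [le_div_iff₀ hn, one_mul]
  have hH : HLoc Fr fun _ : Gm k →* E8 => True := fun _ _ _ _ _ => Iff.rfl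
  obtain ⟨hf, hc⟩ := hcnt _ hH z.1.1 z.1.2 z.2.1 z.2.2 (t / nq z) hz.dj hz.na hz.nb hz.nab ht1
  refine ⟨hf, ?_⟩
  have hLG := hGH _ hH
  obtain ⟨g, hg⟩ : ∃ g : ℝ, g = NG Fr Rk (GH Fr fun _ => True) (rep Fr (z.2.1, z.1.1))
      (rep Fr (z.2.2, z.1.2)) (z.1.1 ∪ z.1.2) := ⟨_, rfl⟩
  have hg0 : 0 ≤ g := by
    rw [hg]
    exact ufix_NG0 Fr Rk _ hLG.nn _ _ _
  have hgN := ufix_NG Fr Rk hNG hb hC1 (GH Fr fun _ => True) hLG.loc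
    (fun d => by rw [abs_of_nonneg (hLG.nn d)]; exact hLG.le d) z.1.1 z.1.2 z.2.1 z.2.2 hz.dj
  rw [← hg] at hc hgN
  obtain ⟨N, hN⟩ : ∃ N : ℝ, N = ∑ uv : Fr.sys.T, ∑ x1 ∈ z.1.1.powerset,
      ∑ x3 ∈ z.1.2.powerset,
        (if (⟨x1, z.1.1 \ x1, x3, z.1.2 \ x3, z.2.1, z.2.2, uv⟩ : Cg Fr.sys).C1 ∧
          (⟨x1, z.1.1 \ x1, x3, z.1.2 \ x3, z.2.1, z.2.2, uv⟩ : Cg Fr.sys).C2 then (1 : ℝ)
          else 0) := ⟨_, rfl⟩
  rw [← hN] at hgN ⊢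
  obtain ⟨K, hK⟩ : ∃ K : ℝ, K = (((Fr.sys.bx (t / nq z)).filter fun c =>
    Disjoint c (z.1.1 ∪ z.1.2)).card : ℝ) := ⟨_, rfl⟩
  have hK0 : 0 ≤ K := by rw [hK]; exact Nat.cast_nonneg _
  have hK1 : K ≤ C * (t / nq z) := by
    refine le_trans ?_ (hbx _ ht1)
    rw [hK]
    exact_mod_cast Finset.card_filter_le _ _
  have hs : ∑ κ ∈ (Finset.univ : Finset Fr.sys.T).erase 0,
      |∑ c ∈ (Fr.sys.bx (t / nq z)).filter fun c => Disjoint c (z.1.1 ∪ z.1.2),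
        (Fr.sys.ps κ c : ℝ)| ≤ (2 ^ Fr.sys.m - 1) * K := by
    have h1 : ∀ κ ∈ (Finset.univ : Finset Fr.sys.T).erase 0,
        |∑ c ∈ (Fr.sys.bx (t / nq z)).filter fun c => Disjoint c (z.1.1 ∪ z.1.2),
          (Fr.sys.ps κ c : ℝ)| ≤ K := by
      intro κ _
      refine (Finset.abs_sum_le_sum_abs _ _).trans ?_
      rw [Finset.sum_congr rfl fun c _ => Fr.sys.abs_ps κ c, Finset.sum_const, nsmul_eq_mul,
        mul_one, hK]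
    refine (Finset.sum_le_sum h1).trans (le_of_eq ?_)
    rw [Finset.sum_const, Finset.card_erase_of_mem (Finset.mem_univ _), Finset.card_univ,
      nsmul_eq_mul]
    have h2 : Fintype.card Fr.sys.T = 2 ^ Fr.sys.m := by
      simp [Sys.T, ZMod.card]
    rw [h2, Nat.cast_sub Nat.one_le_two_pow]
    push_cast
    ring
  rw [← hK] at hc
  have h1 := (abs_le.1 hc).2
  have hm : (1 : ℝ) ≤ 2 ^ Fr.sys.m := one_le_pow₀ (by norm_num)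
  have h2 : ((Cs Fr Rk (fun _ => True) z.1.1 z.1.2 z.2.1 z.2.2 (t / nq z)).ncard : ℝ) ≤
      2 ^ Fr.sys.m * g * (2 ^ Fr.sys.m * K) := by
    have h3 := mul_le_mul_of_nonneg_left hs (mul_nonneg (by positivity : (0 : ℝ) ≤
      2 ^ Fr.sys.m) hg0)
    nlinarith
  refine h2.trans ?_
  have h3 : 2 ^ Fr.sys.m * g * (2 ^ Fr.sys.m * K) ≤
      2 ^ Fr.sys.m * (2 ^ (Fr.sys.m + (z.1.1 ∪ z.1.2).card) * N) *
        (2 ^ Fr.sys.m * (C * (t / nq z))) := by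
    refine mul_le_mul (mul_le_mul_of_nonneg_left hgN (by positivity))
      (mul_le_mul_of_nonneg_left hK1 (by positivity)) (by positivity) ?_
    exact mul_nonneg (by positivity) (hg0.trans hgN)
  refine h3.trans (le_of_eq ?_)
  have h8 : (8 : ℝ) ^ Fr.sys.m = 2 ^ Fr.sys.m * 2 ^ Fr.sys.m * 2 ^ Fr.sys.m := by
    rw [← mul_pow, ← mul_pow]
    norm_num
  rw [h8, pow_add]
  ring

/-- every homomorphism belongs to a pair -/
theorem ufix_mem (hd : ScDis Fr Rk) (q : ℕ) (hq : 1 ≤ q) (X : ℝ) (hX : 1 ≤ X)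
    {ρ : Gm k →* E8} (hρ : ρ ∈ Hs k) (hT : Tm Fr Rk ρ) (hqE : q ≤ qE Fr Rk ρ)
    (hdX : (dN ρ : ℝ) ≤ X) : ∃ z : Pq Fr.sys, Nd z ∧ (nq z : ℝ) ≤ (X / q) ^ (1 / 8 : ℝ) ∧
      ρ ∈ Cs Fr Rk (fun _ => True) z.1.1 z.1.2 z.2.1 z.2.2 ((X / q) ^ (1 / 8 : ℝ) / nq z) := by
  obtain ⟨A, B, c, ua, ub, ho, hj, hj', hτ⟩ := hd.2 ρ hρ hT
  obtain ⟨-, hdN⟩ := hd.1 ρ hρ A B c ua ub ho hj hj' hτ
  obtain ⟨n1, n2, n3⟩ := ufix_nsq hρ ho
  have hq0 : (0 : ℝ) < q := by exact_mod_cast hq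
  have hc0 := Fr.sys.nm_posr c
  have hA0 := Fr.sys.nm_posr A
  have hB0 := Fr.sys.nm_posr B
  have hc1 := Fr.sys.one_le_nmr c
  have h1 : ((Fr.sys.nm A * Fr.sys.nm B * Fr.sys.nm c : ℝ)) ^ 8 ≤ X / q := by
    rw [le_div_iff₀ hq0]
    refine le_trans ?_ hdX
    rw [hdN]
    push_cast
    rw [mul_comm]
    exact mul_le_mul_of_nonneg_right (by exact_mod_cast hqE) (by positivity)
  have h2 : (Fr.sys.nm A * Fr.sys.nm B * Fr.sys.nm c : ℝ) ≤ (X / q) ^ (1 / 8 : ℝ) := by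
    have h3 := Real.rpow_le_rpow (by positivity) h1 (by norm_num : (0 : ℝ) ≤ 1 / 8)
    rwa [← Real.rpow_natCast, ← Real.rpow_mul (by positivity),
      show ((8 : ℕ) : ℝ) * (1 / 8) = 1 by norm_num, Real.rpow_one] at h3
  have hnq : (nq (S := Fr.sys) ((A, B), (ua, ub)) : ℝ) = Fr.sys.nm A * Fr.sys.nm B := by
    unfold nq
    push_cast
    rfl
  refine ⟨((A, B), (ua, ub)), ⟨hj, n1, n2, n3⟩, ?_, hρ, ho, trivial, c, ?_, hj', hτ⟩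
  · rw [hnq]
    refine le_trans ?_ h2
    exact le_mul_of_one_le_right (by positivity) hc1
  · rw [Fr.sys.mem_bx, hnq, le_div_iff₀ (by positivity)]
    linarith

end

open Classical in
/-- U1: the uniform bound in a fixed frame -/
theorem uFix (k : Type) [Field k] [NumberField k]
    (hd : ∀ (Fr : Frm k) (Rk : RxF k), ScDis Fr Rk)
    (hcnt : ∀ (Fr : Frm k) (Rk : RxF k), SaCnt Fr Rk)
    (hNG : ∀ (Fr : Frm k) (Rk : RxF k), SaNG Fr Rk) (hGH : ∀ Fr : Frm k, SaGH Fr)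
    (hb : ∀ (Fr : Frm k) (Rk : RxF k), SaRb Fr Rk)
    (hC1 : ∀ (Fr : Frm k) (Rk : RxF k), ScC1 Fr Rk) (hA : SlAdm) : SuFix k := by
  obtain ⟨C, hC, hbx⟩ := ufa_bx k
  refine ⟨C, hC, fun Fr Rk q X hq hX => ?_⟩
  obtain ⟨t, ht⟩ : ∃ t : ℝ, t = (X / q) ^ (1 / 8 : ℝ) := ⟨_, rfl⟩
  obtain ⟨T0, hT0⟩ : ∃ T0 : Set (Gm k →* E8), T0 =
    {ρ : Gm k →* E8 | ρ ∈ Hs k ∧ Tm Fr Rk ρ ∧ q ≤ qE Fr Rk ρ ∧ (dN ρ : ℝ) ≤ X} := ⟨_, rfl⟩
  have hq1 : (1 : ℝ) ≤ q := by exact_mod_cast hq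
  have ht0 : 0 ≤ t := by rw [ht]; positivity
  have htX : t ≤ X ^ (1 / 8 : ℝ) := by
    rw [ht]
    exact Real.rpow_le_rpow (by positivity) (div_le_self (by linarith) hq1) (by norm_num)
  obtain ⟨F, hF⟩ : ∃ F : Finset (Pq Fr.sys), F = (fsz (fin_nq Fr) t).filter fun z => Nd z :=
    ⟨_, rfl⟩
  have hmF : ∀ z, z ∈ F ↔ (nq z : ℝ) ≤ t ∧ Nd z := by
    intro z
    rw [hF, Finset.mem_filter]
    refine and_congr_left fun _ => ?_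
    unfold fsz
    rw [Set.Finite.mem_toFinset]
    exact Nat.le_floor_iff ht0
  have hC' : ∀ z ∈ F, _ := fun z hz => ufix_Cs Fr Rk (hcnt Fr Rk) (hNG Fr Rk) (hGH Fr)
    (hb Fr Rk) (hC1 Fr Rk) hC (fun t ht => hbx Fr t ht) z ((hmF z).1 hz).2 t ((hmF z).1 hz).1
  have hsub : T0 ⊆ ⋃ z ∈ F, Cs Fr Rk (fun _ => True) z.1.1 z.1.2 z.2.1 z.2.2 (t / nq z) := by
    intro ρ hρ
    rw [hT0] at hρ
    obtain ⟨h1, h2, h3, h4⟩ := hρ
    obtain ⟨z, hz, hz1, hz2⟩ := ufix_mem Fr Rk (hd Fr Rk) q hq X hX h1 h2 h3 h4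
    rw [← ht] at hz1 hz2
    exact Set.mem_biUnion (Finset.mem_coe.2 ((hmF z).2 ⟨hz1, hz⟩)) hz2
  have hfin : (⋃ z ∈ F, Cs Fr Rk (fun _ => True) z.1.1 z.1.2 z.2.1 z.2.2
      (t / nq z)).Finite := by
    refine Set.Finite.biUnion (Finset.finite_toSet F) fun z hz => (hC' z hz).1
  rw [← hT0, ← ht]
  refine ⟨hfin.subset hsub, ?_⟩
  have h1 : (T0.ncard : ℝ) ≤ ∑ z ∈ F,
      ((Cs Fr Rk (fun _ => True) z.1.1 z.1.2 z.2.1 z.2.2 (t / nq z)).ncard : ℝ) := by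
    have h2 := (Set.ncard_le_ncard hsub hfin).trans (Finset.set_ncard_biUnion_le F _)
    exact_mod_cast h2
  refine h1.trans ((Finset.sum_le_sum fun z hz => (hC' z hz).2).trans ?_)
  rw [← Finset.mul_sum]
  refine mul_le_mul_of_nonneg_left ?_ (by positivity)
  exact ufb_main hA (X ^ (1 / 8 : ℝ)) F fun z hz =>
    ⟨((hmF z).1 hz).2.dj, ((hmF z).1 hz).1.trans htX⟩

end Pool.Agent.D8
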