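import Pool.Agent.D8.UMvA

/-!
# The dihedral group of order 16 over a number field: the masses in two frames (SuOk, SuMv)
-/

set_option autoImplicit false

open scoped BigOperators
open NumberField IsDedekindDomain

namespace Pool.Agent.D8

open Pool.Agent.H98.MF
open Pool.Agent.H98.MK (sg)
open Pool.Agent.H32.MQ (El rep co odp mem_odp h_co h_coU h_repO h_repQ hb_qr_sq)

section

variable {k : Type} [Field k] [NumberField k] {Fr Fr' : Frm k}

namespace Emb

variable {R : Finset Fr.sys.P} (E : Emb Fr Fr' R)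

/-- the image of a family -/
noncomputable def mp (x : V → Finset Fr'.sys.P) : V → Finset Fr.sys.P := fun u => E.im (x u)

theorem mp_inj : Function.Injective E.mp := by
  intro x y h
  funext u
  have h1 : E.im (x u) = E.im (y u) := congrFun h u
  exact Finset.image_injective E.inj h1

theorem im_union (A B : Finset Fr'.sys.P) : E.im (A ∪ B) = E.im A ∪ E.im B := by
  unfold im
  exact Finset.image_union _ _

theorem mp_sid (x : V → Finset Fr'.sys.P) (i : ZMod 2) : sid (E.mp x) i = E.im (sid x i) :=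
  (E.im_union _ _).symm

theorem mp_knd (x : V → Finset Fr'.sys.P) (i : ZMod 2) : knd (E.mp x) i = E.im (knd x i) :=
  (E.im_union _ _).symm

theorem mp_nx (x : V → Finset Fr'.sys.P) : nx (E.mp x) = nx x := by
  unfold nx
  refine Finset.prod_congr rfl fun u _ => ?_
  unfold mp im Pre.nm
  rw [Finset.prod_image fun a _ b _ h => E.inj h]
  exact Finset.prod_congr rfl fun p _ => E.N p

theorem mp_W (x : V → Finset Fr'.sys.P) :
    ∏ u, ∏ p ∈ E.mp x u, (2 * (1 : ℝ) * (Fr.sys.N p : ℝ) ^ (-(1 : ℝ))) =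
      ∏ u, ∏ p ∈ x u, (2 * (1 : ℝ) * (Fr'.sys.N p : ℝ) ^ (-(1 : ℝ))) := by
  refine Finset.prod_congr rfl fun u _ => ?_
  unfold mp im
  rw [Finset.prod_image fun a _ b _ h => E.inj h]
  exact Finset.prod_congr rfl fun p _ => by rw [E.N p]

theorem mp_dj (x : V → Finset Fr'.sys.P) : Fr.sys.Dj (E.mp x) ↔ Fr'.sys.Dj x := by
  constructor
  · intro h u v huv
    rw [Finset.disjoint_left]
    intro p hp hp'
    exact Finset.disjoint_left.1 (h u v huv) (E.mem_im.2 hp) (E.mem_im.2 hp')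
  · intro h u v huv
    rw [Finset.disjoint_left]
    intro p hp hp'
    obtain ⟨p', rfl⟩ := (E.rng p).1 (E.im_notR hp)
    exact Finset.disjoint_left.1 (h u v huv) (E.mem_im.1 hp) (E.mem_im.1 hp')

/-- the coefficients of the first frame -/
noncomputable def cf (x : V → Finset Fr'.sys.P) (a b v : Fr'.sys.T) : Co Fr.sys :=
  mkC (E.phi (sid x 0) a) (E.phi (sid x 1) b) (E.phi (knd x 1) v)

theorem cf_ok (x : V → Finset Fr'.sys.P) (a b v : Fr'.sys.T) : (E.cf x a b v).Ok R :=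
  uOk Fr.sys R _ _ _ (E.phi_sub _ _) (E.phi_sub _ _) (E.phi_sub _ _)

theorem cf_f0 (x : V → Finset Fr'.sys.P) (a b v : Fr'.sys.T) :
    (E.cf x a b v).f 0 = E.phi (sid x 0) a := by simp [cf, mkC]

theorem cf_f1 (x : V → Finset Fr'.sys.P) (a b v : Fr'.sys.T) :
    (E.cf x a b v).f 1 = E.phi (sid x 1) b := by simp [cf, mkC]

theorem cf_g0 (x : V → Finset Fr'.sys.P) (a b v : Fr'.sys.T) :
    (E.cf x a b v).g 0 = ad (Fr.sys.l, ∅) (ad (E.phi (sid x 0) a) (ad (E.phi (sid x 1) b)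
      (E.phi (knd x 1) v))) := by simp [cf, mkC]

theorem cf_g1 (x : V → Finset Fr'.sys.P) (a b v : Fr'.sys.T) :
    (E.cf x a b v).g 1 = E.phi (knd x 1) v := by simp [cf, mkC]

theorem relF (x : V → Finset Fr'.sys.P) (a b v : Fr'.sys.T) (i : ZMod 2) :
    URel Fr Fr' (((E.cf x a b v).f i).1, ((E.cf x a b v).f i).2 ∪ E.im (sid x i))
      (((mkc a b v).f i).1, sid x i) := by
  rcases zm2 i with rfl | rfl
  · rw [E.cf_f0]
    have h : ((mkc a b v).f 0).1 = a := by simp [mkc]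
    rw [h]
    exact E.rel _ _
  · rw [E.cf_f1]
    have h : ((mkc a b v).f 1).1 = b := by simp [mkc]
    rw [h]
    exact E.rel _ _

theorem um_bool {p q r s : Prop} (h1 : ¬ (p ∧ q)) (h2 : ¬ (p ∧ r)) (h3 : ¬ (p ∧ s))
    (h4 : ¬ (q ∧ r)) (h5 : ¬ (q ∧ s)) (h6 : ¬ (r ∧ s)) :
    ((p ∨ q) ∧ ¬ ((r ∨ s) ∧ ¬ (q ∨ s) ∨ (q ∨ s) ∧ ¬ (r ∨ s)) ∨
      ((r ∨ s) ∧ ¬ (q ∨ s) ∨ (q ∨ s) ∧ ¬ (r ∨ s)) ∧ ¬ (p ∨ q)) ↔ (p ∨ r) := by
  tauto

theorem symm_knd {x : V → Finset Fr'.sys.P} (hx : Fr'.sys.Dj x) :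
    symmDiff (sid x 0) (symmDiff (sid x 1) (knd x 1)) = knd x 0 := by
  ext p
  have hd : ∀ u v : V, u ≠ v → ¬ (p ∈ x u ∧ p ∈ x v) := fun u v huv h =>
    Finset.disjoint_left.1 (hx u v huv) h.1 h.2
  unfold sid knd
  simp only [Finset.mem_symmDiff, Finset.mem_union]
  exact um_bool (hd (0, 0) (0, 1) (by decide)) (hd (0, 0) (1, 0) (by decide))
    (hd (0, 0) (1, 1) (by decide)) (hd (0, 1) (1, 0) (by decide)) (hd (0, 1) (1, 1) (by decide))
    (hd (1, 0) (1, 1) (by decide))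

theorem symm_im {cA cB cW : Finset Fr.sys.P} (hA : cA ⊆ R) (hB : cB ⊆ R) (hW : cW ⊆ R)
    (A B W : Finset Fr'.sys.P) : symmDiff (cA ∪ E.im A) (symmDiff (cB ∪ E.im B)
      (cW ∪ E.im W)) = symmDiff cA (symmDiff cB cW) ∪ E.im (symmDiff A (symmDiff B W)) := by
  ext p
  simp only [Finset.mem_symmDiff, Finset.mem_union]
  by_cases hp : p ∈ R
  · have h1 : ∀ C : Finset Fr'.sys.P, p ∉ E.im C := fun C h => E.im_notR h hp
    simp only [h1, or_false]
  · obtain ⟨p', rfl⟩ := (E.rng p).1 hp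
    have h1 : E.i p' ∉ cA := fun h => hp (hA h)
    have h2 : E.i p' ∉ cB := fun h => hp (hB h)
    have h3 : E.i p' ∉ cW := fun h => hp (hW h)
    simp only [h1, h2, h3, false_or, E.mem_im, Finset.mem_symmDiff, false_and, or_self]

theorem relG {x : V → Finset Fr'.sys.P} (hx : Fr'.sys.Dj x) (a b v : Fr'.sys.T)
    (i : ZMod 2) :
    URel Fr Fr' (((E.cf x a b v).g i).1, ((E.cf x a b v).g i).2 ∪ E.im (knd x i))
      (((mkc a b v).g i).1, knd x i) := by
  rcases zm2 i with rfl | rfl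
  · have h := um_rel_ad (um_rel_l Fr Fr') (um_rel_ad (E.rel (sid x 0) a)
      (um_rel_ad (E.rel (sid x 1) b) (E.rel (knd x 1) v)))
    rw [E.cf_g0]
    have h0 : ((mkc a b v).g 0).1 = Fr'.sys.l + a + b + v := by simp [mkc]
    rw [h0]
    have e1 : ad (Fr'.sys.l, ∅) (ad (a, sid x 0) (ad (b, sid x 1) (v, knd x 1))) =
        (Fr'.sys.l + a + b + v, knd x 0) := by
      unfold ad
      refine Prod.ext ?_ ?_
      · dsimp only
        rw [add_assoc, add_assoc]
      · dsimp only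
        rw [symm_knd hx]
        exact bot_symmDiff _
    have e2 : ad (Fr.sys.l, ∅) (ad ((E.phi (sid x 0) a).1, (E.phi (sid x 0) a).2 ∪
        E.im (sid x 0)) (ad ((E.phi (sid x 1) b).1, (E.phi (sid x 1) b).2 ∪ E.im (sid x 1))
          ((E.phi (knd x 1) v).1, (E.phi (knd x 1) v).2 ∪ E.im (knd x 1)))) =
        ((ad (Fr.sys.l, ∅) (ad (E.phi (sid x 0) a) (ad (E.phi (sid x 1) b)
          (E.phi (knd x 1) v)))).1, (ad (Fr.sys.l, ∅) (ad (E.phi (sid x 0) a)
          (ad (E.phi (sid x 1) b) (E.phi (knd x 1) v)))).2 ∪ E.im (knd x 0)) := by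
      unfold ad
      refine Prod.ext rfl ?_
      dsimp only
      rw [E.symm_im (E.phi_sub _ _) (E.phi_sub _ _) (E.phi_sub _ _), symm_knd hx]
      have e3 : ∀ Z : Finset Fr.sys.P, symmDiff ∅ Z = Z := fun Z => bot_symmDiff _
      rw [e3, e3]
    rw [e1, e2] at h
    exact h
  · rw [E.cf_g1]
    have h : ((mkc a b v).g 1).1 = v := by simp [mkc]
    rw [h]
    exact E.rel _ _

theorem not_sid {x : V → Finset Fr'.sys.P} (hx : Fr'.sys.Dj x) {u : V} {p : Fr'.sys.P}
    (hp : p ∈ x u) : p ∉ sid x (u.1 + 1) := by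
  have h1 : ∀ (u : V) (j : ZMod 2), u ≠ (u.1 + 1, j) := by decide
  unfold sid
  rw [Finset.mem_union]
  rintro (h | h)
  · exact Finset.disjoint_left.1 (hx u _ (h1 u 0)) hp h
  · exact Finset.disjoint_left.1 (hx u _ (h1 u 1)) hp h

theorem not_knd {x : V → Finset Fr'.sys.P} (hx : Fr'.sys.Dj x) {u : V} {p : Fr'.sys.P}
    (hp : p ∈ x u) : p ∉ knd x (u.2 + 1) := by
  have h1 : ∀ (u : V) (j : ZMod 2), u ≠ (j, u.2 + 1) := by decide
  unfold knd
  rw [Finset.mem_union]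
  rintro (h | h)
  · exact Finset.disjoint_left.1 (hx u _ (h1 u 0)) hp h
  · exact Finset.disjoint_left.1 (hx u _ (h1 u 1)) hp h

theorem mkc_f2 {S : Sys} (a b v : S.T) (i : ZMod 2) : ((mkc a b v).f i).2 = ∅ := by
  unfold mkc
  dsimp only
  split_ifs <;> rfl

theorem mkc_g2 {S : Sys} (a b v : S.T) (i : ZMod 2) : ((mkc a b v).g i).2 = ∅ := by
  unfold mkc
  dsimp only
  split_ifs <;> rfl

theorem ex_iff {x : V → Finset Fr'.sys.P} (hx : Fr'.sys.Dj x) (a b v : Fr'.sys.T) {u : V}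
    {p : Fr'.sys.P} (hp : p ∈ x u) :
    (Fr.sys.ex (sid (E.mp x) (u.1 + 1) ∪ ((E.cf x a b v).f (u.1 + 1)).2)
        ((E.cf x a b v).f (u.1 + 1)).1 (E.i p) =
      Fr'.sys.ex (sid x (u.1 + 1) ∪ ((mkc a b v).f (u.1 + 1)).2)
        ((mkc a b v).f (u.1 + 1)).1 p) ∧
    (Fr.sys.ex (knd (E.mp x) (u.2 + 1) ∪ ((E.cf x a b v).g (u.2 + 1)).2)
        ((E.cf x a b v).g (u.2 + 1)).1 (E.i p) =
      Fr'.sys.ex (knd x (u.2 + 1) ∪ ((mkc a b v).g (u.2 + 1)).2)
        ((mkc a b v).g (u.2 + 1)).1 p) := by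
  have hs := not_sid hx hp
  have hk := not_knd hx hp
  constructor
  · rw [mkc_f2, Finset.union_empty, Finset.union_comm, E.mp_sid]
    refine um_ex (E.relF x a b v (u.1 + 1)) ?_ hs (E.pl p)
    show E.i p ∉ ((E.cf x a b v).f (u.1 + 1)).2 ∪ E.im (sid x (u.1 + 1))
    rw [Finset.mem_union, E.mem_im]
    rintro (h | h)
    · exact E.notR p ((E.cf_ok x a b v).f_sub _ h)
    · exact hs h
  · rw [mkc_g2, Finset.union_empty, Finset.union_comm, E.mp_knd]
    refine um_ex (E.relG hx a b v (u.2 + 1)) ?_ hk (E.pl p)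
    show E.i p ∉ ((E.cf x a b v).g (u.2 + 1)).2 ∪ E.im (knd x (u.2 + 1))
    rw [Finset.mem_union, E.mem_im]
    rintro (h | h)
    · exact E.notR p ((E.cf_ok x a b v).g_sub _ h)
    · exact hk h

theorem adm_iff (x : V → Finset Fr'.sys.P) (a b v : Fr'.sys.T) :
    Adm R (E.cf x a b v) (E.mp x) ↔ Adm ∅ (mkc a b v) x := by
  constructor
  · intro h
    have hx : Fr'.sys.Dj x := (E.mp_dj x).1 h.dj
    refine ⟨hx, fun u => Finset.disjoint_empty_right _, fun u p hp => ?_⟩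
    obtain ⟨h1, h2⟩ := E.ex_iff hx a b v hp
    have h3 := h.cnd u (E.i p) (E.mem_im.2 hp)
    rw [h1, h2] at h3
    exact h3
  · intro h
    have hx := h.dj
    refine ⟨(E.mp_dj x).2 hx, fun u => ?_, fun u p hp => ?_⟩
    · rw [Finset.disjoint_left]
      intro p hp
      exact E.im_notR hp
    · obtain ⟨p', rfl⟩ := (E.rng p).1 (E.im_notR hp)
      have hp' : p' ∈ x u := E.mem_im.1 hp
      obtain ⟨h1, h2⟩ := E.ex_iff hx a b v hp'
      rw [h1, h2]
      exact h.cnd u p' hp'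

theorem ms_eq (x : V → Finset Fr'.sys.P) (a b v : Fr'.sys.T) :
    ms (fun _ => 1) R (E.cf x a b v) 1 (E.mp x) = ms (fun _ => 1) ∅ (mkc a b v) 1 x := by
  unfold ms
  by_cases h : Adm ∅ (mkc a b v) x
  · rw [if_pos h, if_pos ((E.adm_iff x a b v).2 h)]
    exact E.mp_W x
  · rw [if_neg h, if_neg fun h' => h ((E.adm_iff x a b v).1 h')]

end Emb

theorem um_fin (S : Sys) (Y : ℝ) : {x : V → Finset S.P | (nx x : ℝ) ≤ Y}.Finite := by
  classical
  refine Set.Finite.subset (Finset.finite_toSet (Fintype.piFinset fun _ : V => S.bx Y)) ?_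
  intro x hx
  rw [Finset.mem_coe, Fintype.mem_piFinset]
  intro u
  rw [S.mem_bx]
  refine le_trans ?_ hx
  have h1 : S.nm (x u) ≤ nx x := by
    unfold nx
    exact Finset.single_le_prod' (f := fun u => S.nm (x u)) (fun v _ => S.one_le_nm _)
      (Finset.mem_univ u)
  exact_mod_cast h1

open Classical in
theorem um_summ (S : Sys) (Y : ℝ) (F : (V → Finset S.P) → ℝ) :
    Summable fun x : V → Finset S.P => if (nx x : ℝ) ≤ Y then F x else 0 := by
  refine summable_of_hasFiniteSupport ((um_fin S Y).subset fun x hx => ?_)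
  by_contra h
  exact hx (if_neg h)

theorem um_swap {α β γ X : Type} (s : Finset α) (t : Finset β) (r : Finset γ)
    (F : α → β → γ → X → ℝ) (h : ∀ a b c, Summable (F a b c)) :
    ∑ a ∈ s, ∑ b ∈ t, ∑ c ∈ r, ∑' x, F a b c x = ∑' x, ∑ a ∈ s, ∑ b ∈ t, ∑ c ∈ r, F a b c x := by
  rw [Summable.tsum_finsetSum fun a _ => summable_sum fun b _ => summable_sum fun c _ => h a b c]
  refine Finset.sum_congr rfl fun a _ => ?_
  rw [Summable.tsum_finsetSum fun b _ => summable_sum fun c _ => h a b c]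
  refine Finset.sum_congr rfl fun b _ => ?_
  rw [Summable.tsum_finsetSum fun c _ => h a b c]

end

/-- U2: the masses in two frames. -/
theorem uMv {k : Type} [Field k] [NumberField k] (Fr Fr' : Frm k) : SuMv Fr Fr' := by
  classical
  intro R hS Y
  have hS' : ∀ P, P ∈ Fr'.S ↔ P ∈ Fr.S ∨ ∃ p ∈ R, Fr.pl p = P := by
    intro P
    rw [hS, Finset.mem_union, Finset.mem_image]
  obtain ⟨E⟩ := um_emb R hS'
  have h1 : ∀ c : Co Fr.sys, ∑' x : V → Finset Fr.sys.P,
      (if (nx x : ℝ) ≤ Y then ms (fun _ => 1) R c 1 x else 0) =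
      ∑' x : V → Finset Fr'.sys.P,
        (if (nx x : ℝ) ≤ Y then ms (fun _ => 1) R c 1 (E.mp x) else 0) := by
    intro c
    have h2 := E.mp_inj.tsum_eq (f := fun x : V → Finset Fr.sys.P =>
      (if (nx x : ℝ) ≤ Y then ms (fun _ => 1) R c 1 x else 0 : ℝ)) ?_
    · rw [← h2]
      refine tsum_congr fun x => ?_
      rw [E.mp_nx]
    · intro x hx
      rw [Function.mem_support] at hx
      have h3 : Adm R c x := by
        by_contra h4
        apply hx
        have h5 : ms (fun _ => 1) R c 1 x = 0 := by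
          unfold ms
          exact if_neg h4
        rw [h5, ite_self]
      have h6 : ∀ u, ∃ A : Finset Fr'.sys.P, E.im A = x u := by
        intro u
        refine ⟨(x u).preimage E.i E.inj.injOn, ?_⟩
        ext p
        constructor
        · intro hp
          obtain ⟨p', rfl⟩ := (E.rng p).1 (E.im_notR hp)
          rw [E.mem_im, Finset.mem_preimage] at hp
          exact hp
        · intro hp
          obtain ⟨p', rfl⟩ := (E.rng p).1 (Finset.disjoint_left.1 (h3.dM u) hp)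
          rw [E.mem_im, Finset.mem_preimage]
          exact hp
      choose A hA using h6
      exact ⟨A, funext hA⟩
  simp only [h1]
  rw [um_swap _ _ _ _ fun a b v => um_summ Fr'.sys Y _,
    um_swap _ _ _ _ fun a b v => um_summ Fr'.sys Y _]
  refine tsum_congr fun x => ?_
  have h2 : ∑ ca ∈ elM R, ∑ cb ∈ elM R, ∑ cv ∈ elM R,
      (if (nx x : ℝ) ≤ Y then ms (fun _ => 1) R (mkC ca cb cv) 1 (E.mp x) else 0 : ℝ) =
      ∑ a : Fr'.sys.T, ∑ b : Fr'.sys.T, ∑ v : Fr'.sys.T,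
        (if (nx x : ℝ) ≤ Y then ms (fun _ => 1) R (E.cf x a b v) 1 (E.mp x) else 0) := by
    rw [E.sum_phi (sid x 0)]
    refine Finset.sum_congr rfl fun a _ => ?_
    rw [E.sum_phi (sid x 1)]
    refine Finset.sum_congr rfl fun b _ => ?_
    rw [E.sum_phi (knd x 1)]
    rfl
  rw [h2]
  refine Finset.sum_congr rfl fun a _ => Finset.sum_congr rfl fun b _ =>
    Finset.sum_congr rfl fun v _ => ?_
  rw [E.ms_eq]

end Pool.Agent.D8
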