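import Pool.Agent.D8.ACnt
import Pool.Agent.D8.AFro
import Pool.Agent.D8.AGH
import Pool.Agent.D8.ANG
import Pool.Agent.D8.AR1
import Pool.Agent.D8.ARs
import Pool.Agent.D8.ARp
import Pool.Agent.D8.ARx
import Pool.Agent.D8.AKum
import Pool.Agent.D8.AOb
import Pool.Agent.D8.AObF
import Pool.Agent.D8.AObN
import Pool.Agent.D8.AOrt
import Pool.Agent.D8.ACoc
import Pool.Agent.D8.ATh
import Pool.Agent.D8.ATriv
import Pool.Agent.D8.LBQ
import Pool.Agent.D8.LBT
import Pool.Agent.D8.LLaw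
import Pool.Agent.D8.LQ0
import Pool.Agent.D8.LQU
import Pool.Agent.D8.LQO
import Pool.Agent.D8.LQK
import Pool.Agent.D8.LSm
import Pool.Agent.D8.LSep
import Pool.Agent.D8.LTR
import Pool.Agent.D8.LTrB
import Pool.Agent.D8.LLS
import Pool.Agent.D8.LAdm
import Pool.Agent.D8.CLaw
import Pool.Agent.D8.CC1
import Pool.Agent.D8.CDis
import Pool.Agent.D8.UFix
import Pool.Agent.D8.UMv
import Pool.Agent.D8.UCh
import Pool.Agent.D8.NEx
import Pool.Agent.H32.MQ.BMain
import Pool.Agent.H32.MQ.IPg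
import Pool.Agent.H32.MQ.ISz

/-!
# The dihedral group of order 16 over a number field: the algebraic part without hypotheses
-/

set_option autoImplicit false

open scoped BigOperators
open NumberField IsDedekindDomain

namespace Pool.Agent.D8

open Pool.Agent.H98.MF

section

variable (k : Type) [Field k] [NumberField k]

theorem end_triv : SaTriv k := atriv k (ath k) (acoc k)

theorem end_sl : SaSl k := asl k (ath k)

theorem end_ob : SaOb k := aob k (end_triv k)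

theorem end_obT : SaObT k := aobT k (ath k) (arep k) (aku k) (end_sl k) (end_ob k)

theorem end_obG : SaObG k := aobG k (ath k) (arep k) (aku k) (end_sl k) (end_triv k)

theorem end_obS : SaObS k := aobS k (ath k) (arep k) (aku k) (end_sl k) (end_ob k)

theorem end_obF : SaObF k := aobF k (achr k) (aobH k)

theorem end_obN : SaObN k :=
  aobN k (ath k) (arep k) (aku k) (end_sl k) (end_ob k) (achr k) (aobH k)

end

section

variable {k : Type} [Field k] [NumberField k] (Fr : Frm k) (Rk : RxF k)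

theorem end_nor : SaNor Fr Rk := anor Fr Rk (end_sl k) (aku k)

theorem end_tor : SaTor Fr Rk := ator Fr Rk (aku k) (akui k)

theorem end_rb : SaRb Fr Rk := arb Fr Rk (aghB Fr)

theorem end_ri : SaRi Fr Rk :=
  ari Fr Rk (B.lin k) (end_sl k) (end_nor Fr Rk) (end_tor Fr Rk) (aghT Fr) (end_obT k)
    (aortU Fr) (aortP Fr)

theorem end_rs : SaRs Fr Rk := ars Fr Rk (B.lin k) (end_obT k) (end_obN k) (end_obS k)

theorem end_r1 : SaR1 Fr Rk := ar1 Fr Rk (aghT Fr) (end_nor Fr Rk) (end_sl k)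

theorem end_NG : SaNG Fr Rk :=
  ang Fr Rk (afou Fr) (aortU Fr) (aortP Fr) (end_sl k) (end_obT k)

theorem end_cnt : SaCnt Fr Rk :=
  acnt Fr Rk (aGH Fr) (aGHv Fr) (end_tor Fr Rk) (end_nor Fr Rk) (end_sl k) (end_obG k) (end_obN k)

theorem end_TR : SlTR Fr Rk :=
  lTR lAdm (fun L _ _ _ => afro Fr Rk L (ath k) (aku k) (end_sl k) (arep k)) (aghT Fr)
    (aghB Fr) (agh2 Fr (aghT Fr)) (end_obF k) (end_ri Fr Rk) (end_sl k) (end_nor Fr Rk)

theorem end_BT : SlBT Fr Rk :=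
  lBT Fr Rk (end_TR Fr Rk) (Pool.Agent.H32.MQ.bf_main Fr) lSep

theorem end_Q0 : SlQ0 Fr Rk :=
  lQ0 Fr Rk (B.lin k) (ath k) (arep k) (aku k) (end_sl k) (end_ob k) (aobH k) (end_obF k)
    (end_obN k) (end_obS k) (B.recSt (nin k))

theorem end_QU : SlQU Fr Rk :=
  lQU Fr Rk lAdm (end_Q0 Fr Rk) (lTrB Fr) (end_obF k) (end_ri Fr Rk) (end_rb Fr Rk)
    (end_nor Fr Rk)

theorem end_BQ : SlBQ Fr Rk :=
  lBQ Fr Rk (end_QU Fr Rk) (lQK k) (lQO Fr (lQK k))
    (lSm Fr (Pool.Agent.H32.MQ.pgSt k) (Pool.Agent.H32.MQ.szSt k)) lLS lSep2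

/-- the law for the coefficient function -/
theorem end_slLaw : SlLaw Fr Rk :=
  lLaw Fr Rk (end_rb Fr Rk) (end_rs Fr Rk) (end_r1 Fr Rk) lAdm (end_BT Fr Rk) (end_BQ Fr Rk)

/-- the law for the coefficient function, in the form used in part C -/
theorem end_law : ScLaw Fr Rk :=
  cLaw Fr Rk (end_slLaw Fr Rk) (cC1 Fr Rk (end_sl k)) (end_rb Fr Rk) (end_sl k)

/-- the uniform bound -/
theorem end_U0 : ScU0 Fr Rk :=
  cU0 Fr Rk
    (uFix k (fun Fr Rk => cDis Fr Rk) (fun Fr Rk => end_cnt Fr Rk) (fun Fr Rk => end_NG Fr Rk)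
      (fun Fr => aGH Fr) (fun Fr Rk => end_rb Fr Rk) (fun Fr Rk => cC1 Fr Rk (end_sl k)) lAdm)
    (fun Fr' => uMv Fr Fr') (fun Fr' => uCh Fr Fr' Rk) (nEx Fr)

end

end Pool.Agent.D8
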