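import Pool.Agent.D8.LStm
import Pool.Agent.D8.AR1
import Pool.Agent.D8.ARs
import Pool.Agent.D8.AFou

/-!
# The dihedral group of order 16 over a number field: the laws of the coefficient function
(row LLaw)
-/

set_option autoImplicit false

open scoped BigOperators
open NumberField IsDedekindDomain

namespace Pool.Agent.D8

open Pool.Agent.H98.MF
open Pool.Agent.H98.MK (sg)
open Pool.Agent.H32.MQ (El rep co)

section Gen

variable {S : Sys}

open Classical in
theorem ll_ins_same (u : V) (p : S.P) (w : V → Finset S.P) : ins u p w u = insert p (w u) := by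
  unfold ins
  exact Function.update_self _ _ _

theorem ll_ins_ne {u t : V} (h : t ≠ u) (p : S.P) (w : V → Finset S.P) :
    ins u p w t = w t := by
  unfold ins
  exact Function.update_of_ne h _ _

/-- the family with the two classes exchanged -/
def ll_w (w : V → Finset S.P) : V → Finset S.P := fun t =>
  if t = (1, 0) then w (1, 1) else if t = (0, 1) then w (0, 0) else ∅

theorem ll_w10 (w : V → Finset S.P) : ll_w w (1, 0) = w (1, 1) := by
  unfold ll_w
  rw [if_pos rfl]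

theorem ll_w01 (w : V → Finset S.P) : ll_w w (0, 1) = w (0, 0) := by
  unfold ll_w
  rw [if_neg (by decide), if_pos rfl]

theorem ll_w0 (w : V → Finset S.P) (t : V) (h : t ≠ (1, 0)) (h' : t ≠ (0, 1)) :
    ll_w w t = ∅ := by
  unfold ll_w
  rw [if_neg h, if_neg h']

theorem ll_new (w : V → Finset S.P) (hw : ∀ t, t ≠ (1, 1) → t ≠ (0, 0) → w t = ∅) (p : S.P) :
    New p (ll_w w) ↔ New p w := by
  unfold New
  constructor
  · intro h u
    by_cases h1 : u = (1, 1)
    · rw [h1]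
      have := h (1, 0)
      rwa [ll_w10] at this
    · by_cases h2 : u = (0, 0)
      · rw [h2]
        have := h (0, 1)
        rwa [ll_w01] at this
      · rw [hw u h1 h2]
        exact Finset.notMem_empty p
  · intro h u
    by_cases h1 : u = (1, 0)
    · rw [h1, ll_w10]
      exact h _
    · by_cases h2 : u = (0, 1)
      · rw [h2, ll_w01]
        exact h _
      · rw [ll_w0 w u h1 h2]
        exact Finset.notMem_empty p

open Classical in
theorem ll_cg1 (a b v : S.T) (x y : S.P) (w : V → Finset S.P)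
    (hw : ∀ t, t ≠ (1, 1) → t ≠ (0, 0) → w t = ∅) :
    toCg a b v (ins (1, 1) x (ins (0, 0) y w)) =
      ⟨∅, insert y (w (0, 0)), insert x (w (1, 1)), ∅, a, b, v⟩ := by
  unfold toCg
  rw [ll_ins_ne (by decide), ll_ins_ne (by decide), hw (0, 1) (by decide) (by decide),
    ll_ins_ne (t := (0, 0)) (by decide), ll_ins_same, ll_ins_same (1, 1), ll_ins_ne (by decide),
    ll_ins_ne (t := (1, 0)) (by decide), ll_ins_ne (by decide),
    hw (1, 0) (by decide) (by decide)]

open Classical in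
theorem ll_cg2 (a b v : S.T) (x y : S.P) (w : V → Finset S.P) :
    toCg a b v (ins (1, 0) x (ins (0, 1) y (ll_w w))) =
      ⟨insert y (w (0, 0)), ∅, ∅, insert x (w (1, 1)), a, b, v⟩ := by
  unfold toCg
  rw [ll_ins_ne (t := (0, 1)) (by decide), ll_ins_same, ll_w01,
    ll_ins_ne (t := (0, 0)) (by decide), ll_ins_ne (t := (0, 0)) (by decide),
    ll_w0 w (0, 0) (by decide) (by decide),
    ll_ins_ne (t := (1, 1)) (by decide), ll_ins_ne (t := (1, 1)) (by decide),
    ll_w0 w (1, 1) (by decide) (by decide), ll_ins_same, ll_ins_ne (t := (1, 0)) (by decide),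
    ll_w10]

theorem ll_two (a : S.T) : a + a = 0 := by
  funext j
  exact CharTwo.add_self_eq_zero _

theorem ll_dj (A B : Finset S.P) (a b v v' : S.T) :
    ((⟨∅, A, B, ∅, a, b, v⟩ : Cg S).Dj ↔ (⟨A, ∅, ∅, B, a, b, v'⟩ : Cg S).Dj) := by
  unfold Cg.Dj
  simp only [Finset.empty_union, Finset.union_empty, Finset.disjoint_empty_left,
    Finset.disjoint_empty_right, true_and]

theorem ll_c1 (A B : Finset S.P) (a b v v' : S.T) :
    ((⟨∅, A, B, ∅, a, b, v⟩ : Cg S).C1 ↔ (⟨A, ∅, ∅, B, a, b, v'⟩ : Cg S).C1) := by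
  unfold Cg.C1
  simp only [Finset.empty_union, Finset.union_empty]

theorem ll_c2 (hl : S.l = 0) (A B : Finset S.P) (a b : S.T) :
    ((⟨∅, A, B, ∅, a, b, b⟩ : Cg S).C2 ↔ (⟨A, ∅, ∅, B, a, b, a⟩ : Cg S).C2) := by
  unfold Cg.C2
  simp only [Finset.empty_union, Finset.union_empty]
  rw [hl, zero_add, add_assoc a b b, ll_two, add_zero, add_right_comm a b a, ll_two, zero_add]
  exact and_comm

theorem ll_adm (hA : SlAdm) (hl : S.l = 0) (a b : S.T) (x y : S.P) (w : V → Finset S.P)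
    (hw : ∀ t, t ≠ (1, 1) → t ≠ (0, 0) → w t = ∅) :
    Adm ∅ (mkc a b a) (ins (1, 0) x (ins (0, 1) y (ll_w w))) ↔
      Adm ∅ (mkc a b b) (ins (1, 1) x (ins (0, 0) y w)) := by
  rw [hA, hA, ll_cg1 a b b x y w hw, ll_cg2, ← ll_dj _ _ _ _ b, ← ll_c1 _ _ _ _ b,
    ← ll_c2 hl]

end Gen

section

variable {k : Type} [Field k] [NumberField k] (Fr : Frm k) (Rk : RxF k)

theorem ll_sq (hl : Fr.sys.l = 0) : IsSquare (-1 : k) := by
  obtain ⟨s, hs⟩ := arp_neg_one Fr
  rw [hl] at hs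
  have h1 : (∏ j, Fr.u j ^ ((0 : Fr.sys.T) j).val) = 1 := by
    refine Finset.prod_eq_one fun j _ => ?_
    rw [Pi.zero_apply, ZMod.val_zero, pow_zero]
  have h2 : (∏ j, Fr.u j ^ ((0 : Fin Fr.sys.m → ZMod 2) j).val) = 1 := h1
  rw [h2, mul_one] at hs
  refine ⟨(s : k), ?_⟩
  have := congrArg (fun u : kˣ => (u : k)) hs
  simpa using this

theorem ll_Gh (G : LDt k) (hG : ∀ d, 0 ≤ G d) (a b : kˣ) (f : Gm k → ZMod 2) :
    0 ≤ Gh Fr G 1 a b f := by
  unfold Gh
  refine mul_nonneg (by positivity) (Finset.sum_nonneg fun y _ => Finset.sum_nonneg fun z _ => ?_)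
  have h1 : hS Fr (cl Fr y z) 1 = 0 := by
    rw [afo_hS_comm]
    exact afo_one (fun x => hS Fr x (cl Fr y z)) (fun p q => afo_hS_mul Fr (cl Fr y z) p q)
  rw [h1]
  have h2 : sg 0 = 1 := by decide
  rw [h2, Int.cast_one, mul_one]
  exact hG _

theorem ll_Rf (G : LDt k) (hG : LG Fr G) (A B : Finset Fr.sys.P) (ua ub : Fr.sys.T) :
    0 ≤ Rf Fr Rk G ⟨∅, A, ∅, B, ua, ub, 0⟩ := by
  by_cases h : ∃ f, IsL Fr Rk (rep Fr (ua, A)) (rep Fr (ub, B)) ∅ f
  · obtain ⟨f, hf⟩ := h
    rw [ar1_Rf Rk (aghT Fr) hG.loc A B ua ub hf]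
    exact ll_Gh Fr G hG.nn _ _ _
  · rw [ar1_Rf0 Rk G A B ua ub h]

theorem ll_RR (G : LDt k) (a b v : Fr.sys.T) (x : V → Finset Fr.sys.P)
    (h0 : (sid x 0).Nonempty) (h1 : (sid x 1).Nonempty) :
    RR Fr Rk G a b v x = Rf Fr Rk G (toCg a b v x) := by
  unfold RR
  rw [if_neg]
  rintro (⟨_, h⟩ | ⟨_, h⟩ | ⟨_, h⟩)
  · rw [h] at h0
    exact Finset.not_nonempty_empty h0
  · rw [h] at h1
    exact Finset.not_nonempty_empty h1
  · unfold sid at h0
    rw [h, h, Finset.empty_union] at h0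
    exact Finset.not_nonempty_empty h0

theorem ll_bd (hb : SaRb Fr Rk) (G : LDt k) (hG : ∀ d, |G d| ≤ 1) (a b v : Fr.sys.T)
    (x : V → Finset Fr.sys.P) : |RR Fr Rk G a b v x| ≤ 1 := by
  unfold RR
  split_ifs
  · rw [abs_zero]
    exact zero_le_one
  · exact hb G hG _

theorem ll_pat {x : V → Finset Fr.sys.P} {u v : V} (h : pat x = {u, v}) :
    (x u).Nonempty ∧ (x v).Nonempty ∧ ∀ t, t ≠ u → t ≠ v → x t = ∅ := by
  have h1 : ∀ t, (x t).Nonempty ↔ t = u ∨ t = v := by
    intro t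
    have h2 : t ∈ pat x ↔ (x t).Nonempty := by
      unfold pat
      simp
    rw [← h2, h, Finset.mem_insert, Finset.mem_singleton]
  refine ⟨(h1 u).2 (Or.inl rfl), (h1 v).2 (Or.inr rfl), fun t hu hv => ?_⟩
  by_contra h3
  rcases (h1 t).1 (Finset.nonempty_iff_ne_empty.2 h3) with h4 | h4
  · exact hu h4
  · exact hv h4

theorem ll_sw (hs : SaRs Fr Rk) (hA : SlAdm) (G : LDt k) (hG : LG Fr G) (hl : Fr.sys.l = 0)
    (a b : Fr.sys.T) (w : V → Finset Fr.sys.P)
    (hw : ∀ t, t ≠ (1, 1) → t ≠ (0, 0) → w t = ∅) (x y : Fr.sys.P) :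
    t2 (mkc a b b) (RR Fr Rk G a b b) (1, 1) (0, 0) w x y =
      t2 (mkc a b a) (RR Fr Rk G a b a) (1, 0) (0, 1) (ll_w w) x y := by
  classical
  have e1 := ll_cg1 a b b x y w hw
  have e2 := ll_cg2 a b a x y w
  have e3 := ll_adm hA hl a b x y w hw
  have key : Adm ∅ (mkc a b b) (ins (1, 1) x (ins (0, 0) y w)) →
      RR Fr Rk G a b b (ins (1, 1) x (ins (0, 0) y w)) =
        RR Fr Rk G a b a (ins (1, 0) x (ins (0, 1) y (ll_w w))) := by
    intro h
    have h1 := (hA _ a b b _).1 h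
    have h2 := (hA _ a b a _).1 (e3.2 h)
    rw [e1] at h1
    rw [e2] at h2
    rw [ll_RR, ll_RR, e1, e2]
    · have h3 := hs G hG _ h1.1 h1.2.1 h1.2.2
      rw [← h3]
      have h4 : Fr.sys.l + a + b + b = a := by
        rw [hl, zero_add, add_assoc, ll_two, add_zero]
      show Rf Fr Rk G ⟨insert y (w (0, 0)), ∅, ∅, insert x (w (1, 1)), a, b,
        Fr.sys.l + a + b + b⟩ = _
      rw [h4]
    · unfold sid
      rw [ll_ins_ne (t := (0, 1)) (by decide), ll_ins_same]
      exact ⟨y, Finset.mem_union_right _ (Finset.mem_insert_self _ _)⟩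
    · unfold sid
      rw [ll_ins_same]
      exact ⟨x, Finset.mem_union_left _ (Finset.mem_insert_self _ _)⟩
    · unfold sid
      rw [ll_ins_ne (t := (0, 0)) (by decide), ll_ins_same]
      exact ⟨y, Finset.mem_union_left _ (Finset.mem_insert_self _ _)⟩
    · unfold sid
      rw [ll_ins_same]
      exact ⟨x, Finset.mem_union_right _ (Finset.mem_insert_self _ _)⟩
  unfold t2
  by_cases h : Fr.sys.ty x = 0 ∧ Fr.sys.ty y = 0 ∧ x ≠ y ∧ New x w ∧ New y w ∧
      Adm ∅ (mkc a b b) (ins (1, 1) x (ins (0, 0) y w))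
  · obtain ⟨g1, g2, g3, g4, g5, g6⟩ := h
    rw [if_pos ⟨g1, g2, g3, g4, g5, g6⟩,
      if_pos ⟨g1, g2, g3, (ll_new w hw x).2 g4, (ll_new w hw y).2 g5, e3.2 g6⟩]
    exact key g6
  · rw [if_neg h, if_neg]
    rintro ⟨g1, g2, g3, g4, g5, g6⟩
    exact h ⟨g1, g2, g3, (ll_new w hw x).1 g4, (ll_new w hw y).1 g5, e3.1 g6⟩

/-- LL: the laws -/
theorem lLaw (hb : SaRb Fr Rk) (hs : SaRs Fr Rk) (h1 : SaR1 Fr Rk) (hA : SlAdm)
    (hT : SlBT Fr Rk) (hQ : SlBQ Fr Rk) : SlLaw Fr Rk := by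
  classical
  intro G hG
  have hG1 : ∀ d, |G d| ≤ 1 := fun d => abs_le.2 ⟨by linarith [hG.nn d], hG.le d⟩
  obtain ⟨θ, hθ⟩ := h1 G hG.loc
  have hv : ∀ (A B : Finset Fr.sys.P) (ua ub : Fr.sys.T), Disjoint A B →
      (⟨∅, A, ∅, B, ua, ub, 0⟩ : Cg Fr.sys).C1 →
      Rf Fr Rk G ⟨∅, A, ∅, B, ua, ub, 0⟩ =
        max 0 (min 1 (θ ua ub (Fr.sys.tys A) (Fr.sys.tys B))) := by
    intro A B ua ub hAB hC
    have g1 := (hθ A B ua ub hAB hC).1
    have g2 := ll_Rf Fr Rk G hG A B ua ub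
    have g3 := (abs_le.1 (hb G hG1 (⟨∅, A, ∅, B, ua, ub, 0⟩ : Cg Fr.sys))).2
    rw [← g1, min_eq_right g3, max_eq_right g2]
  refine ⟨fun a b m n => max 0 (min 1 (θ a b m n)), ?_, fun a b m n => le_max_left _ _, ?_⟩
  · constructor
    · exact ll_bd Fr Rk hb G hG1
    · intro a b m n
      rw [abs_of_nonneg (le_max_left _ _)]
      exact max_le zero_le_one (min_le_left _ _)
    · intro b v x h
      unfold RR
      rw [if_pos (Or.inl ⟨rfl, h⟩)]
    · intro a v x h
      unfold RR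
      rw [if_pos (Or.inr (Or.inl ⟨rfl, h⟩))]
    · intro a b x hx hp
      obtain ⟨p1, p2, p3⟩ := ll_pat Fr hp
      have q1 := p3 (0, 1) (by decide) (by decide)
      have q2 := p3 (1, 1) (by decide) (by decide)
      obtain ⟨d1, d2, d3⟩ := (hA _ a b 0 x).1 hx
      have e : toCg a b 0 x = ⟨∅, x (0, 0), ∅, x (1, 0), a, b, 0⟩ := by
        unfold toCg
        rw [q1, q2]
      rw [e] at d1 d2
      rw [ll_RR, e]
      · refine hv _ _ _ _ ?_ d2
        have := d1.2.2
        dsimp only at this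
        rwa [Finset.empty_union, Finset.empty_union] at this
      · unfold sid
        exact p1.mono Finset.subset_union_left
      · unfold sid
        exact p2.mono Finset.subset_union_left
    · intro a b x hx hp
      obtain ⟨p1, p2, p3⟩ := ll_pat Fr hp
      have q1 := p3 (0, 0) (by decide) (by decide)
      have q2 := p3 (1, 0) (by decide) (by decide)
      obtain ⟨d1, d2, d3⟩ := (hA _ a b _ x).1 hx
      have e : toCg a b (Fr.sys.l + a + b) x =
          ⟨x (0, 1), ∅, x (1, 1), ∅, a, b, Fr.sys.l + a + b⟩ := by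
        unfold toCg
        rw [q1, q2]
      rw [e] at d1 d2 d3
      have h3 := hs G hG _ d1 d2 d3
      dsimp only at h3
      rw [ll_RR, e, ← h3, ll_two]
      · refine hv _ _ _ _ ?_ ?_
        · have := d1.2.2
          dsimp only at this
          rwa [Finset.union_empty, Finset.union_empty] at this
        · unfold Cg.C1 at d2 ⊢
          simp only [Finset.empty_union, Finset.union_empty] at d2 ⊢
          exact d2
      · unfold sid
        exact p1.mono Finset.subset_union_right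
      · unfold sid
        exact p2.mono Finset.subset_union_right
    · exact hT G hG.loc hG1
    · intro hl a b
      right
      obtain ⟨C, A, η, h0, h1, h⟩ := hQ (ll_sq Fr hl) G hG.loc hG1 a b
      refine ⟨C, A, η, h0, h1, fun w α β hα hβ hw X Y hX hY => ?_⟩
      have h2 := h (ll_w w) α β hα hβ (fun t ht ht' => ll_w0 w t ht ht') X Y hX hY
      have h3 : ∀ x y, t2 (mkc a b b) (RR Fr Rk G a b b) (1, 1) (0, 0) w x y =
          t2 (mkc a b a) (RR Fr Rk G a b a) (1, 0) (0, 1) (ll_w w) x y :=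
        ll_sw Fr Rk hs hA G hG hl a b w hw
      simp only [h3]
      exact h2
    · intro hl a b
      exact Or.inr (hQ (ll_sq Fr hl) G hG.loc hG1 a b)
  · intro A B ua ub hAB hC hf
    have g := (hθ A B ua ub hAB hC).2 hf hG.nn
    exact lt_max_of_lt_right (lt_min one_pos g)

end

end Pool.Agent.D8
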