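import Pool.Agent.D8.LStm
import Pool.Agent.D8.AObNa
import Pool.Agent.D8.AFroA

/-!
# The dihedral group of order 16 over a number field, row LQ0: local lemmas
-/

set_option autoImplicit false
set_option linter.unusedSectionVars false

open scoped BigOperators
open NumberField IsDedekindDomain

namespace Pool.Agent.D8

open Pool.Agent.H98.MF
open Pool.Agent.H98.MK (sg)

section

variable {k : Type} [Field k] [NumberField k]

/-- denominators prime to `P` -/
theorem lq0_den (P : HeightOneSpectrum (𝓞 k)) (x : k) (hx : x = 0 ∨ 0 ≤ ord P x) :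
    ∃ m n : 𝓞 k, m ∉ P.asIdeal ∧ x * (m : k) = (n : k) := by
  have h1 : P.valuation k x ≤ 1 := by
    have h2 := (le_ord_iff_valuation P x 0).1 hx
    rwa [neg_zero, WithZero.exp_zero] at h2
  obtain ⟨n, d, hd⟩ := HeightOneSpectrum.exists_primeCompl_mul_eq_of_integer P x h1
  exact ⟨d, n, d.2, hd⟩

theorem lq0_notMem {P : HeightOneSpectrum (𝓞 k)} {a : 𝓞 k} (ha : (a : k) ≠ 0)
    (h : ord P (a : k) = 0) : a ∉ P.asIdeal := by
  intro h1
  have h2 := (le_ord_iff P a 1).2 (by rw [pow_one]; exact h1)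
  rcases h2 with h2 | h2
  · apply ha
    rw [h2]
    rfl
  · rw [h] at h2
    norm_num at h2

theorem lq0_ord {P : HeightOneSpectrum (𝓞 k)} {a : 𝓞 k} (h : a ∉ P.asIdeal) :
    (a : k) ≠ 0 ∧ ord P (a : k) = 0 := by
  have h1 : (a : k) ≠ 0 := by
    intro h0
    apply h
    have h2 : a = 0 := RingOfIntegers.ext (by rw [h0]; rfl)
    rw [h2]
    exact P.asIdeal.zero_mem
  refine ⟨h1, ?_⟩
  have h2 := ord_int_nonneg P a
  by_contra h3
  apply h
  have h4 := (le_ord_iff P a 1).1 (Or.inr (by push_cast; omega))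
  rwa [pow_one] at h4

/-- a tame generator fixes a square root of a unit of a quadratic extension -/
theorem lq0_tau {P : HeightOneSpectrum (𝓞 k)} (h2 : ord P (2 : k) = 0) {τ φ : Gm k}
    (hT : TF P τ φ) {a b : kˣ} {x y : k} (hab : (a : k) = x ^ 2 - b * y ^ 2)
    {f : Gm k → ZMod 2} (hf : IsF a b f) (hth : IsTh b x y f) (ha : ord P (a : k) = 0)
    (hb : ord P (b : k) = 0) (hx : x = 0 ∨ 0 ≤ ord P x) (hy : y = 0 ∨ 0 ≤ ord P y) :
    f τ = 0 := by
  obtain ⟨θ, θ', hθ, hθ', h0, h1⟩ := hth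
  obtain ⟨m1, x1, hm1, hx1⟩ := lq0_den P x hx
  obtain ⟨m2, y1, hm2, hy1⟩ := lq0_den P y hy
  obtain ⟨m3, b1, hm3, hb1⟩ := lq0_den P (b : k) (Or.inr hb.ge)
  obtain ⟨m4, a1, hm4, ha1⟩ := lq0_den P (a : k) (Or.inr ha.ge)
  have hpr := P.isPrime
  set s : Om k := Pool.Agent.H98.MF.sq (b : k) with hs
  have hs2 : s ^ 2 = algebraMap k (Om k) (b : k) := sq_sq _
  set m : 𝓞 k := m1 * m2 * m3 with hm
  have hmk : (m : k) = (m1 : k) * (m2 : k) * (m3 : k) := rfl
  have hmP : m ∉ P.asIdeal := by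
    intro h
    rcases hpr.mem_or_mem h with h | h
    · rcases hpr.mem_or_mem h with h | h
      · exact hm1 h
      · exact hm2 h
    · exact hm3 h
  let c : k → Om k := algebraMap k (Om k)
  have hcI : ∀ z : 𝓞 k, IsIntegral ℤ (c (z : k)) := fun z =>
    (RingOfIntegers.isIntegral_coe z).map (algebraMap k (Om k)).toIntAlgHom
  -- integrality of the square
  have hI1 : IsIntegral ℤ (c (m : k) ^ 2 * c x) := by
    have e : c (m : k) ^ 2 * c x = c ((m * m2 * m3 * x1 : 𝓞 k) : k) := by
      have e1 : ((m * m2 * m3 * x1 : 𝓞 k) : k) = (m : k) ^ 2 * x := by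
        have e2 : ((m * m2 * m3 * x1 : 𝓞 k) : k) = (m : k) * (m2 : k) * (m3 : k) * (x1 : k) := rfl
        rw [e2, ← hx1, hmk]
        ring
      rw [e1]
      simp only [c, map_mul, map_pow]
    rw [e]
    exact hcI _
  have hI2 : IsIntegral ℤ (c (m : k) ^ 2 * c y * s) := by
    apply IsIntegral.of_pow two_pos
    have e : (c (m : k) ^ 2 * c y * s) ^ 2 =
        c (((m * m1 * y1) ^ 2 * m3 * b1 : 𝓞 k) : k) := by
      have e1 : (((m * m1 * y1) ^ 2 * m3 * b1 : 𝓞 k) : k) =
          ((m : k) ^ 2 * y) ^ 2 * (b : k) := by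
        have e2 : (((m * m1 * y1) ^ 2 * m3 * b1 : 𝓞 k) : k) =
            ((m : k) * (m1 : k) * (y1 : k)) ^ 2 * (m3 : k) * (b1 : k) := rfl
        rw [e2, ← hy1, ← hb1, hmk]
        ring
      rw [e1, mul_pow, hs2]
      simp only [c, map_mul, map_pow]
    rw [e]
    exact hcI _
  have hZ : IsIntegral ℤ (c (m : k) * θ) := by
    apply IsIntegral.of_pow two_pos
    have e : (c (m : k) * θ) ^ 2 = c (m : k) ^ 2 * c x + c (m : k) ^ 2 * c y * s := by
      rw [mul_pow, hθ]
      show c (m : k) ^ 2 * (c x + c y * s) = _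
      ring
    rw [e]
    exact hI1.add hI2
  have hZ' : IsIntegral ℤ (c (m : k) * θ') := by
    apply IsIntegral.of_pow two_pos
    have e : (c (m : k) * θ') ^ 2 = c (m : k) ^ 2 * c x - c (m : k) ^ 2 * c y * s := by
      rw [mul_pow, hθ']
      show c (m : k) ^ 2 * (c x - c y * s) = _
      ring
    rw [e]
    exact hI1.sub hI2
  let Z : 𝓞 (Om k) := ⟨c (m : k) * θ, hZ⟩
  let Z' : 𝓞 (Om k) := ⟨c (m : k) * θ', hZ'⟩
  have hso0 : (so 0 : Om k) = 1 := if_pos rfl
  have hTw : Two2 Z := by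
    refine obn_two2 hf b Z fun σ hσb hσf _ => ?_
    apply RingOfIntegers.ext
    show σ (c (m : k) * θ) = c (m : k) * θ
    rw [map_mul, AlgEquiv.commutes, h0 σ hσb, hσf, hso0, one_mul]
  have hτb : chi (b : k) τ = 0 := (hT.chi0 (b : k) b.ne_zero (by rw [hb]; exact Even.zero)).1
  have hτθ := h0 τ hτb
  by_contra hne
  have hf1 : f τ = 1 := by
    have h : ∀ z : ZMod 2, z ≠ 0 → z = 1 := by decide
    exact h _ hne
  have hτZ : τ • Z = -Z := by
    apply RingOfIntegers.ext
    show τ (c (m : k) * θ) = -(c (m : k) * θ)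
    rw [map_mul, AlgEquiv.commutes, hτθ, hf1]
    unfold so
    rw [if_neg (by decide)]
    ring
  have h3 := hT.ine Z hTw
  rw [hτZ] at h3
  have htp := top_prime P
  have h4 : 2 * Z ∈ top P := by
    have e : 2 * Z = -(-Z - Z) := by ring
    rw [e]
    exact (top P).neg_mem h3
  have h5 : Z ∈ top P := by
    rcases htp.mem_or_mem h4 with h | h
    · exfalso
      apply afr_two h2
      rw [← top_comap P, Ideal.mem_comap, map_ofNat]
      exact h
    · exact h
  have h6 : algebraMap (𝓞 k) (𝓞 (Om k)) (m ^ 4 * a1) ∈ top P := by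
    have e : algebraMap (𝓞 k) (𝓞 (Om k)) (m ^ 4 * a1) =
        Z * (Z * Z' ^ 2 * algebraMap (𝓞 k) (𝓞 (Om k)) m4) := by
      apply RingOfIntegers.ext
      show c ((m ^ 4 * a1 : 𝓞 k) : k) = (c (m : k) * θ) * ((c (m : k) * θ) *
        (c (m : k) * θ') ^ 2 * c (m4 : k))
      have e1 : (c (m : k) * θ) * ((c (m : k) * θ) * (c (m : k) * θ') ^ 2 * c (m4 : k)) =
          c (m : k) ^ 4 * (θ ^ 2 * θ' ^ 2) * c (m4 : k) := by ring
      have e2 : θ ^ 2 * θ' ^ 2 = c (a : k) := by
        rw [hθ, hθ']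
        have e3 : (algebraMap k (Om k) x + algebraMap k (Om k) y * s) *
            (algebraMap k (Om k) x - algebraMap k (Om k) y * s) =
            algebraMap k (Om k) x ^ 2 - s ^ 2 * algebraMap k (Om k) y ^ 2 := by ring
        rw [e3, hs2, hab]
        simp only [c, map_sub, map_mul, map_pow]
      have e4 : ((m ^ 4 * a1 : 𝓞 k) : k) = (m : k) ^ 4 * (a1 : k) := rfl
      rw [e1, e2, e4, ← ha1]
      simp only [c, map_mul, map_pow]
      ring
    rw [e]
    exact (top P).mul_mem_right _ h5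
  rw [← Ideal.mem_comap, top_comap] at h6
  rcases hpr.mem_or_mem h6 with h | h
  · exact hmP (hpr.mem_of_pow_mem _ h)
  · have h7 : (a1 : k) ≠ 0 := by
      rw [← ha1]
      exact mul_ne_zero a.ne_zero (lq0_ord hm4).1
    refine lq0_notMem h7 ?_ h
    rw [← ha1, ord_mul P a.ne_zero (lq0_ord hm4).1, ha, (lq0_ord hm4).2, add_zero]

/-- anisotropy at an inert prime -/
theorem lq0_aniso {P : HeightOneSpectrum (𝓞 k)} (h2 : ord P (2 : k) = 0) {a b x : kˣ} {y : k}
    (hab : (a : k) = (x : k) ^ 2 - b * y ^ 2) (ha : ord P (a : k) = 0)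
    (hb : ord P (b : k) = 0) (hn : ¬ LocSq P (b : k)) :
    0 ≤ ord P (x : k) ∧ (y = 0 ∨ 0 ≤ ord P y) := by
  by_cases hy : y = 0
  · refine ⟨?_, Or.inl hy⟩
    rw [hy, zero_pow two_ne_zero, mul_zero, sub_zero] at hab
    rw [hab, ord_pow] at ha
    push_cast at ha
    omega
  · have hby : -((b : k) * y ^ 2) ≠ 0 := neg_ne_zero.2 (mul_ne_zero b.ne_zero (pow_ne_zero 2 hy))
    have hx2 : (x : k) ^ 2 ≠ 0 := pow_ne_zero 2 x.ne_zero
    have e1 : ord P ((x : k) ^ 2) = 2 * ord P (x : k) := by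
      rw [ord_pow]
      push_cast
      ring
    have e2 : ord P (-((b : k) * y ^ 2)) = 2 * ord P y := by
      rw [ord_neg, ord_mul P b.ne_zero (pow_ne_zero 2 hy), hb, ord_pow]
      push_cast
      ring
    have hab' : (a : k) = (x : k) ^ 2 + -((b : k) * y ^ 2) := by rw [hab]; ring
    rcases lt_trichotomy (ord P (x : k)) (ord P y) with h | h | h
    · have h3 := (ord_add_eq P (a := (x : k) ^ 2) (b := -((b : k) * y ^ 2)) hx2
        (Or.inr (by rw [e1, e2]; omega))).2
      rw [← hab', ha, e1] at h3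
      exact ⟨by omega, Or.inr (by omega)⟩
    · by_contra hneg
      have hneg' : ord P y < 0 := by
        by_contra h4
        exact hneg ⟨by omega, Or.inr (by omega)⟩
      apply hn
      apply locSq_of_prec P (y * (x : k)⁻¹)
      right
      rw [h2]
      have e3 : (b : k) * (y * (x : k)⁻¹) ^ 2 - 1 = -((a : k) * ((x : k)⁻¹) ^ 2) := by
        rw [hab]
        have := x.ne_zero
        field_simp
        ring
      rw [e3, ord_neg, ord_mul P a.ne_zero (pow_ne_zero 2 (inv_ne_zero x.ne_zero)), ha, ord_pow,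
        ord_inv]
      push_cast
      omega
    · have h3 := (ord_add_eq P (a := -((b : k) * y ^ 2)) (b := (x : k) ^ 2) hby
        (Or.inr (by rw [e1, e2]; omega))).2
      rw [add_comm, ← hab', ha, e2] at h3
      exact ⟨by omega, Or.inr (by omega)⟩

/-- the symbol depends on the residue class -/
theorem lq0_qr {P : HeightOneSpectrum (𝓞 k)} (h2 : ord P (2 : k) = 0) {u w : k} (hu : u ≠ 0)
    (hw : w ≠ 0) (hw0 : ord P w = 0) (h : u = w ∨ 1 ≤ ord P (u - w)) : qr u P = qr w P := by
  rcases h with h | h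
  · rw [h]
  · have h1 : LocSq P (u * w⁻¹) := by
      apply locSq_of_prec P 1
      by_cases h0 : u = w
      · left
        rw [h0, mul_inv_cancel₀ hw]
        norm_num
      · right
        rw [h2]
        have e : u * w⁻¹ * 1 ^ 2 - 1 = (u - w) * w⁻¹ := by
          field_simp
        rw [e, ord_mul P (sub_ne_zero.2 h0) (inv_ne_zero hw), ord_inv, hw0]
        omega
    have h3 := h1.mul_iff w
    have e : u * w⁻¹ * w = u := by field_simp
    rw [e] at h3
    unfold qr
    by_cases h4 : LocSq P w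
    · rw [if_pos h4, if_pos (h3.2 h4)]
    · rw [if_neg h4, if_neg (fun h5 => h4 (h3.1 h5))]

/-- the symbol of the rational part at a ramified prime -/
theorem lq0_root {P : HeightOneSpectrum (𝓞 k)} (h2 : ord P (2 : k) = 0) (hi : IsSquare (-1 : k))
    {a b x r : kˣ} {y : k} (hab : (a : k) = (x : k) ^ 2 - b * y ^ 2) (ha : ord P (a : k) = 0)
    (hb : ord P (b : k) = 1) (hr : IsRt P r a) :
    ord P (x : k) = 0 ∧ qr (x : k) P = qr (r : k) P := by
  obtain ⟨hr0, hr1⟩ := hr
  have hkey : ord P (x : k) = 0 ∧ (y = 0 ∨ 0 ≤ ord P y) := by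
    by_cases hy : y = 0
    · refine ⟨?_, Or.inl hy⟩
      rw [hy, zero_pow two_ne_zero, mul_zero, sub_zero] at hab
      rw [hab, ord_pow] at ha
      push_cast at ha
      omega
    · have hby : -((b : k) * y ^ 2) ≠ 0 :=
        neg_ne_zero.2 (mul_ne_zero b.ne_zero (pow_ne_zero 2 hy))
      have hx2 : (x : k) ^ 2 ≠ 0 := pow_ne_zero 2 x.ne_zero
      have e1 : ord P ((x : k) ^ 2) = 2 * ord P (x : k) := by
        rw [ord_pow]
        push_cast
        ring
      have e2 : ord P (-((b : k) * y ^ 2)) = 1 + 2 * ord P y := by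
        rw [ord_neg, ord_mul P b.ne_zero (pow_ne_zero 2 hy), hb, ord_pow]
        push_cast
        ring
      have hab' : (a : k) = (x : k) ^ 2 + -((b : k) * y ^ 2) := by rw [hab]; ring
      rcases lt_or_ge (2 * ord P (x : k)) (1 + 2 * ord P y) with h | h
      · have h3 := (ord_add_eq P (a := (x : k) ^ 2) (b := -((b : k) * y ^ 2)) hx2
          (Or.inr (by rw [e1, e2]; omega))).2
        rw [← hab', ha, e1] at h3
        exact ⟨by omega, Or.inr (by omega)⟩
      · have h3 := (ord_add_eq P (a := -((b : k) * y ^ 2)) (b := (x : k) ^ 2) hby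
          (Or.inr (by rw [e1, e2]; omega))).2
        rw [add_comm, ← hab', ha, e2] at h3
        omega
  refine ⟨hkey.1, ?_⟩
  obtain ⟨i, hi'⟩ := hi
  have hi2 : i ^ 2 = -1 := by rw [pow_two, ← hi']
  have hi0 : i ≠ 0 := by
    rintro rfl
    rw [zero_pow two_ne_zero] at hi2
    norm_num at hi2
  -- the difference of the squares
  have hd : ((x : k) - r) * (x + r) = 0 ∨ 1 ≤ ord P (((x : k) - r) * (x + r)) := by
    have e : ((x : k) - r) * (x + r) = ((a : k) - r ^ 2) + (b : k) * y ^ 2 := by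
      rw [hab]
      ring
    rw [e]
    apply le_ord_add P 1
    · rcases hr1 with h | h
      · left
        rw [h, sub_self]
      · right
        omega
    · rcases hkey.2 with h | h
      · left
        rw [h]
        ring
      · by_cases hy : y = 0
        · left
          rw [hy]
          ring
        · right
          rw [ord_mul P b.ne_zero (pow_ne_zero 2 hy), hb, ord_pow]
          push_cast
          omega
  by_cases h1 : (x : k) = r
  · rw [h1]
  · have hneg : qr (-(r : k)) P = qr (r : k) P := by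
      have e : -(r : k) = (r : k) * i ^ 2 := by rw [hi2]; ring
      unfold qr
      rw [e, locSq_mul_sq P hi0]
    by_cases h3 : (x : k) = -r
    · rw [h3, hneg]
    · have h1' : (x : k) - r ≠ 0 := sub_ne_zero.2 h1
      have h3' : (x : k) + r ≠ 0 := fun h => h3 (eq_neg_of_add_eq_zero_left h)
      have h4 := hd.resolve_left (mul_ne_zero h1' h3')
      rw [ord_mul P h1' h3'] at h4
      by_cases h5 : 1 ≤ ord P ((x : k) - r)
      · exact lq0_qr h2 x.ne_zero r.ne_zero hr0 (Or.inr h5)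
      · have h6 : 1 ≤ ord P ((x : k) - -r) := by
          rw [sub_neg_eq_add]
          omega
        rw [← hneg]
        refine lq0_qr h2 x.ne_zero (neg_ne_zero.2 r.ne_zero) ?_ (Or.inr h6)
        rw [ord_neg]
        exact hr0

end

end Pool.Agent.D8
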