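import Pool.Agent.D8.LStm
import Pool.Agent.D8.ARs
import Pool.Agent.D8.ANor
import Pool.Agent.D8.AObF

/-!
# The dihedral group of order 16 over a number field, row LQ2: the values of the coefficient
function for two opposite classes
-/

set_option autoImplicit false

open scoped BigOperators
open NumberField IsDedekindDomain

namespace Pool.Agent.D8

open Pool.Agent.H98.MF
open Pool.Agent.H98.MK (sg)
open Pool.Agent.H32.MQ (El rep co h_repO h_repQ hb_two hb_notMem hb_qr_sq)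

/-! ### square roots modulo a prime -/

section

variable {k : Type} [Field k] [NumberField k]

theorem qu_close {P : HeightOneSpectrum (𝓞 k)} (h2 : ord P (2 : k) = 0) {u v : k} (hu0 : u ≠ 0)
    (hv0 : v ≠ 0) (hu : ord P u = 0) (hv : ord P v = 0) (h : u - v = 0 ∨ 1 ≤ ord P (u - v)) :
    qr u P = qr v P := by
  have h3 : LocSq P (1 + (u - v) / v) := by
    refine locSq_one_add P ?_
    rcases h with h | h
    · left
      rw [h, zero_div]
    · by_cases h0 : u - v = 0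
      · left
        rw [h0, zero_div]
      · right
        rw [ord_div P h0 hv0, hv, h2]
        linarith
  have h4 : LocSq P (u * v) := by
    have h5 : u * v = (1 + (u - v) / v) * v ^ 2 := by
      field_simp
      ring
    rw [h5, locSq_mul_sq P hv0]
    exact h3
  have h6 := qr_mul h2 hu0 hv0 (by rw [hu]; exact Even.zero) (by rw [hv]; exact Even.zero)
  rw [(qr_eq_zero (u * v)).2 h4] at h6
  exact arp_add_self _ _ h6.symm

theorem qu_root (hneg : IsSquare (-1 : k)) {P : HeightOneSpectrum (𝓞 k)}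
    (h2 : ord P (2 : k) = 0) {r s a : kˣ} (hr : IsRt P r a) (hs : IsRt P s a) :
    qr (r : k) P = qr (s : k) P := by
  have hr1 : (a : k) - r ^ 2 = 0 ∨ 1 ≤ ord P ((a : k) - r ^ 2) :=
    hr.2.imp (fun h => by rw [h, sub_self]) fun h => h
  have hs1 : (a : k) - s ^ 2 = 0 ∨ 1 ≤ ord P ((a : k) - s ^ 2) :=
    hs.2.imp (fun h => by rw [h, sub_self]) fun h => h
  have hr2 : -((a : k) - r ^ 2) = 0 ∨ 1 ≤ ord P (-((a : k) - r ^ 2)) := by
    rw [neg_eq_zero, ord_neg]
    exact hr1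
  have h3 := le_ord_add P 1 hr2 hs1
  have e1 : -((a : k) - r ^ 2) + ((a : k) - s ^ 2) = ((r : k) - s) * (r + s) := by ring
  rw [e1] at h3
  have r0 : (r : k) = 0 ∨ 0 ≤ ord P (r : k) := Or.inr hr.1.ge
  have s0 : (s : k) = 0 ∨ 0 ≤ ord P (s : k) := Or.inr hs.1.ge
  have s1 : -(s : k) = 0 ∨ 0 ≤ ord P (-(s : k)) := Or.inr (by rw [ord_neg]; exact hs.1.ge)
  have h4 := le_ord_add P 0 r0 s1
  have h5 := le_ord_add P 0 r0 s0
  rw [← sub_eq_add_neg] at h4
  have h6 : ((r : k) - s = 0 ∨ 1 ≤ ord P ((r : k) - s)) ∨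
      ((r : k) + s = 0 ∨ 1 ≤ ord P ((r : k) + s)) := by
    by_cases g1 : (r : k) - s = 0
    · exact Or.inl (Or.inl g1)
    by_cases g2 : (r : k) + s = 0
    · exact Or.inr (Or.inl g2)
    have g3 := h4.resolve_left g1
    have g4 := h5.resolve_left g2
    have g5 := h3.resolve_left (mul_ne_zero g1 g2)
    rw [ord_mul P g1 g2] at g5
    by_cases g6 : 1 ≤ ord P ((r : k) - s)
    · exact Or.inl (Or.inr g6)
    · exact Or.inr (Or.inr (by omega))
  rcases h6 with h6 | h6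
  · exact qu_close h2 r.ne_zero s.ne_zero hr.1 hs.1 h6
  · have h7 : (r : k) - -(s : k) = 0 ∨ 1 ≤ ord P ((r : k) - -(s : k)) := by
      rw [sub_neg_eq_add]
      exact h6
    have h8 := qu_close h2 r.ne_zero (neg_ne_zero.2 s.ne_zero) hr.1
      (by rw [ord_neg]; exact hs.1) h7
    obtain ⟨i, hi⟩ := hneg
    have h9 : -(s : k) = (s : k) * i ^ 2 := by
      rw [pow_two, ← hi]
      ring
    have hi0 : i ≠ 0 := by
      rintro rfl
      rw [mul_zero] at hi
      exact (neg_ne_zero.2 one_ne_zero) hi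
    rw [h8]
    unfold qr
    rw [h9]
    by_cases h10 : LocSq P (s : k)
    · rw [if_pos h10, if_pos ((locSq_mul_sq P hi0 _).2 h10)]
    · rw [if_neg h10, if_neg fun h => h10 ((locSq_mul_sq P hi0 _).1 h)]

end

section

variable {k : Type} [Field k] [NumberField k] (Fr : Frm k)

/-! ### the product of two prime elements -/

theorem qu_Y {x x' : Fr.sys.P} (h : x ≠ x') :
    rep Fr (0, {x, x'}) = rep Fr (0, {x}) * rep Fr (0, {x'}) := by
  classical
  rw [arp_rep_mul Fr 0 {x'} x (by rw [Finset.mem_singleton]; exact h), mul_comm]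

theorem qu_locPi {x : Fr.sys.P} (h : Fr.sys.ty x = 0) :
    ∀ v ∈ pls Fr.S, LocP v (rep Fr (0, {x}) : k) := by
  intro v hv'
  have h1 := Fr.loc x v hv'
  have h2 : ∀ z : Fin Fr.sys.m → kˣ, ∏ j, z j ^ ((0 : Fr.sys.T) j).val = 1 := fun z => by
    refine Finset.prod_eq_one fun j _ => ?_
    rw [Pi.zero_apply, ZMod.val_zero, pow_zero]
  rw [h, h2, mul_one] at h1
  have h3 : rep Fr (0, {x}) = Fr.pi x := by
    unfold rep
    show (∏ j, Fr.u j ^ ((0 : Fr.sys.T) j).val) * ∏ p ∈ {x}, Fr.pi p = Fr.pi x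
    rw [h2, one_mul, Finset.prod_singleton]
  rw [h3]
  exact h1

theorem qu_locY {x x' : Fr.sys.P} (h : x ≠ x') (hx : Fr.sys.ty x = 0)
    (hx' : Fr.sys.ty x' = 0) : ∀ v ∈ pls Fr.S, LocP v (rep Fr (0, {x, x'}) : k) := by
  intro v hv'
  rw [qu_Y Fr h, ← (kin k).one]
  intro σ hσ
  rw [aob_chi_mul, ((kin k).one v _).2 (qu_locPi Fr hx v hv') σ hσ,
    ((kin k).one v _).2 (qu_locPi Fr hx' v hv') σ hσ, add_zero]

/-- the first conditions for the pair `(rep (a, A), rep (b, B))` -/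
def QC (a b : Fr.sys.T) (A B : Finset Fr.sys.P) : Prop :=
  (∀ p ∈ A, Fr.sys.ex B b p = 0) ∧ ∀ p ∈ B, Fr.sys.ex A a p = 0

theorem qu_slv {a b : Fr.sys.T} {A W : Finset Fr.sys.P} {x x' : Fr.sys.P} (h : x ≠ x')
    (hx : Fr.sys.ty x = 0) (hx' : Fr.sys.ty x' = 0) (hxW : x ∉ W) (hxW' : x' ∉ W)
    (hxA : x ∉ A) (hxA' : x' ∉ A) (hC : QC Fr a b A (insert x W))
    (hC' : QC Fr a b A (insert x' W)) : Slv (rep Fr (a, A)) (rep Fr (0, {x, x'})) := by
  classical
  have hk := Pool.Agent.H98.MF.B.lin k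
  intro v
  by_cases hv' : v ∈ pls Fr.S
  · rw [hk.symm]
    exact (hk.nd v _).2 (qu_locY Fr h hx hx' v hv') _
  rcases v with P | φ
  swap
  · exact absurd (Pool.Agent.H98.MF.B.inr_mem_pls Fr.S φ) hv'
  rw [Pool.Agent.H98.MF.B.inl_mem_pls] at hv'
  obtain ⟨p, rfl⟩ := (Fr.pl_iff P).2 hv'
  show hs (Fr.pl p) (rep Fr (a, A) : k) (rep Fr (0, {x, x'}) : k) = 0
  have oa := h_repO Fr (a, A) p
  have oY := h_repO Fr (0, {x, x'}) p
  by_cases hpA : p ∈ A
  · have hpY : p ∉ ({x, x'} : Finset Fr.sys.P) := by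
      rw [Finset.mem_insert, Finset.mem_singleton]
      rintro (rfl | rfl)
      · exact hxA hpA
      · exact hxA' hpA
    have e1 := hk.symm (Sum.inl (Fr.pl p)) (rep Fr (a, A)) (rep Fr (0, {x, x'}))
    have e2 := hk.unt (Fr.pl p) (hb_two Fr p) (rep Fr (0, {x, x'})) (rep Fr (a, A)) (by
      rw [oY]
      exact if_neg hpY)
    have e3 : hs (Fr.pl p) (rep Fr (a, A) : k) (rep Fr (0, {x, x'}) : k) =
        hs (Fr.pl p) (rep Fr (0, {x, x'}) : k) (rep Fr (a, A) : k) := e1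
    rw [e3, e2, h_repQ Fr (0, {x, x'}) p hpY]
    have c1 := hC.1 p hpA
    have c2 := hC'.1 p hpA
    have e4 : Fr.sys.ex {x, x'} 0 p = 0 := by
      unfold Sys.ex at c1 c2 ⊢
      rw [Finset.sum_insert hxW] at c1
      rw [Finset.sum_insert hxW'] at c2
      rw [Finset.sum_insert (by rw [Finset.mem_singleton]; exact h), Finset.sum_singleton,
        zero_dotProduct, add_zero]
      have key : ∀ s t u w : ZMod 2, s + u + w = 0 → t + u + w = 0 → s + t = 0 := by decide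
      exact key _ _ _ _ c1 c2
    have e5 : Fr.sys.ex ((0 : Fr.sys.T), ({x, x'} : Finset Fr.sys.P)).2
        ((0 : Fr.sys.T), ({x, x'} : Finset Fr.sys.P)).1 p = 0 := e4
    rw [e5, mul_zero]
  · have e2 := hk.unt (Fr.pl p) (hb_two Fr p) (rep Fr (a, A)) (rep Fr (0, {x, x'})) (by
      rw [oa]
      exact if_neg hpA)
    rw [e2, oY]
    by_cases hpY : p ∈ ({x, x'} : Finset Fr.sys.P)
    · have e3 : qr (rep Fr (a, A) : k) (Fr.pl p) = 0 := by
        rw [h_repQ Fr (a, A) p hpA]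
        rcases Finset.mem_insert.1 hpY with rfl | h1
        · exact hC.2 p (Finset.mem_insert_self _ _)
        · rw [Finset.mem_singleton] at h1
          subst h1
          exact hC'.2 p (Finset.mem_insert_self _ _)
      rw [e3, mul_zero]
    · have e4 : p ∉ ((0 : Fr.sys.T), ({x, x'} : Finset Fr.sys.P)).2 := hpY
      rw [if_neg e4, Int.cast_zero, zero_mul]

theorem qu_chi {b : Fr.sys.T} {W : Finset Fr.sys.P} {x x' : Fr.sys.P} (h : x ≠ x')
    (hxW : x ∉ W) (hxW' : x' ∉ W) (σ : Gm k) :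
    chi (rep Fr (b, insert x' W) : k) σ =
      chi (rep Fr (b, insert x W) : k) σ + chi (rep Fr (0, {x, x'}) : k) σ := by
  rw [arp_rep_mul Fr b W x hxW, arp_rep_mul Fr b W x' hxW', qu_Y Fr h, aob_chi_mul,
    aob_chi_mul, aob_chi_mul]
  have key : ∀ s t u : ZMod 2, s + t = s + u + (u + t) := by decide
  exact key _ _ _

omit [NumberField k] in
theorem qu_add {a b b' Y : kˣ} (hb : ∀ σ : Gm k, chi (b' : k) σ = chi (b : k) σ + chi (Y : k) σ)
    {f g : Gm k → ZMod 2} (hf : IsF a b f) (hg : IsF a Y g) : IsF a b' fun σ => f σ + g σ where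
  lc := (hf.lc.prodMk hg.lc).comp fun t : ZMod 2 × ZMod 2 => t.1 + t.2
  hom σ τ := by
    show f (σ * τ) + g (σ * τ) = f σ + g σ + (f τ + g τ) + chi (a : k) σ * chi (b' : k) τ
    rw [hf.hom, hg.hom, hb]
    ring

end

end Pool.Agent.D8
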