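import Pool.Agent.D8.AStm
import Pool.Agent.H32.MQ.HMain

/-!
# The dihedral group of order 16 over a number field, row LT1: the classes of the differencing
identity
-/

set_option autoImplicit false

open scoped BigOperators
open NumberField IsDedekindDomain

namespace Pool.Agent.D8

open Pool.Agent.H98.MF
open Pool.Agent.H98.MK (sg)
open Pool.Agent.H32.MQ (El rep co HX Qof)

section

variable {k : Type} [Field k] [NumberField k] {Fr : Frm k} {L : Type} [Field L] [NumberField L]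
  [Algebra k L] (X : HX Fr L)

open Classical in
/-- the conjugates of the chosen primes above a set -/
noncomputable def ltrH (pr : Fr.sys.P → Option X.PX) (B : Finset Fr.sys.P) : Finset X.PX :=
  B.biUnion fun p => ((pr p).map X.cjX).toFinset

theorem mem_ltrH {pr : Fr.sys.P → Option X.PX} {B : Finset Fr.sys.P} {b : X.PX} :
    b ∈ ltrH X pr B ↔ ∃ p ∈ B, ∃ P, pr p = some P ∧ X.cjX P = b := by
  classical
  unfold ltrH
  simp only [Finset.mem_biUnion, Option.mem_toFinset, Option.mem_def, Option.map_eq_some_iff]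

theorem ltr_shcj (b : X.PX) : X.shX (X.cjX b) = X.shX b :=
  X.shX_eq _ ((X.shX_over b).cj X.sig)

theorem ltr_cjne (b : X.PX) : X.cjX b ≠ b := fun h => b.2.2 (congrArg Subtype.val h)

theorem ltr_gd {pr : Fr.sys.P → Option X.PX} (hpr : ∀ p b, pr p = some b → X.shX b = p)
    (B : Finset Fr.sys.P) : (Qof X).Gd (ltrH X pr B) := by
  intro a ha b hb hab
  obtain ⟨p, -, P, hP, rfl⟩ := (mem_ltrH X).1 ha
  obtain ⟨q, -, Q, hQ, rfl⟩ := (mem_ltrH X).1 hb
  have h1 : X.shX (X.cjX P) = X.shX (X.cjX Q) := hab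
  rw [ltr_shcj, ltr_shcj, hpr p P hP, hpr q Q hQ] at h1
  rw [h1, hQ] at hP
  rw [Option.some.inj hP]

theorem ltr_sh {pr : Fr.sys.P → Option X.PX} (hpr : ∀ p b, pr p = some b → X.shX b = p)
    {B : Finset Fr.sys.P} {b : X.PX} (hb : b ∈ ltrH X pr B) : X.shX b ∈ B := by
  obtain ⟨p, hp, P, hP, rfl⟩ := (mem_ltrH X).1 hb
  rw [ltr_shcj, hpr p P hP]
  exact hp

/-- membership in the classes with given odd exponents -/
theorem ltr_memB (g : Finset X.PX) (γ : Lˣ) (h : ∀ Q : HeightOneSpectrum (𝓞 L), X.Out Q →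
    (Odd (ord Q (γ : L)) ↔ ∃ b ∈ g, b.1 = Q)) : ((γ : Lˣ) : HX.GX L) ∈ (Qof X).B g := by
  refine (Pool.Agent.H32.MQ.hi_mem X (Pool.Agent.H32.MQ.h_cardB X)).2 fun Q hQ => ?_
  rw [← h Q hQ]
  obtain ⟨y, hy⟩ := HX.out_mk γ
  rw [hy, Units.val_mul, Units.val_pow_eq_pow_val, Pool.Agent.H98.MF.B.ord_mul _ γ.ne_zero
    (pow_ne_zero 2 y.ne_zero), Pool.Agent.H98.MF.B.ord_pow, Int.odd_add]
  have h1 : Even (((2 : ℕ) : ℤ) * ord Q (y : L)) := ⟨ord Q (y : L), by push_cast; ring⟩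
  exact ⟨fun h2 => h2.2 h1, fun h2 => ⟨fun _ => h1, fun _ => h2⟩⟩

/-- the symbols of a class -/
theorem ltr_sy (γ : Lˣ) (P : X.PX) : (Qof X).sy ((γ : Lˣ) : HX.GX L) P = qr (γ : L) P.1 := by
  show qr ((HX.out ((γ : Lˣ) : HX.GX L) : Lˣ) : L) P.1 = _
  refine Pool.Agent.H32.MQ.hb_qr_sq ?_ P.1
  obtain ⟨y, hy⟩ := HX.out_mk γ
  refine ⟨γ * y, ?_⟩
  rw [hy, pow_two]
  ac_rfl

/-- parity of the exponents of the representatives -/
theorem ltr_oddrep (c : El Fr.sys) (p : Fr.sys.P) :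
    Odd (ord (Fr.pl p) (rep Fr c : k)) ↔ p ∈ c.2 := by
  classical
  rw [Pool.Agent.H32.MQ.h_repO Fr c p]
  split_ifs with h
  · exact ⟨fun _ => h, fun _ => odd_one⟩
  · exact ⟨fun h1 => absurd h1 (by decide), fun h1 => absurd h1 h⟩

section Pat

variable {pr : Fr.sys.P → Option X.PX} (hpr : ∀ p b, pr p = some b → X.shX b = p)
  {B : Finset Fr.sys.P} {y : Fr.sys.P} {Py : X.PX} (hPy : pr y = some Py) (hyB : y ∉ B)
  {ub : Fr.sys.T} {bb : kˣ} (hbb : ∀ p, Odd (ord (Fr.pl p) (bb : k)) ↔ p = y ∨ p ∈ B) {γ : Lˣ}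
  (hγ : ∀ Q : HeightOneSpectrum (𝓞 L), X.Out Q →
    (Odd (ord Q (γ : L)) ↔ ∃ (p : Fr.sys.P) (P : X.PX), pr p = some P ∧
      Odd (ord (Fr.pl p) (bb : k)) ∧ Q = (X.cjX P).1))

include hPy hbb hγ in
open Classical in
/-- the odd exponents of the element attached to a second bit -/
theorem ltr_pat (Q : HeightOneSpectrum (𝓞 L)) (hQ : X.Out Q) :
    Odd (ord Q (γ : L)) ↔ ∃ b ∈ insert (X.cjX Py) (ltrH X pr B), b.1 = Q := by
  rw [hγ Q hQ]
  constructor
  · rintro ⟨p, P, hP, hp, rfl⟩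
    refine ⟨X.cjX P, ?_, rfl⟩
    rcases (hbb p).1 hp with rfl | hp
    · rw [hPy] at hP
      rw [Option.some.inj hP]
      exact Finset.mem_insert_self _ _
    · exact Finset.mem_insert_of_mem ((mem_ltrH X).2 ⟨p, hp, P, hP, rfl⟩)
  · rintro ⟨b, hb, rfl⟩
    rcases Finset.mem_insert.1 hb with rfl | hb
    · exact ⟨y, Py, hPy, (hbb y).2 (Or.inl rfl), rfl⟩
    · obtain ⟨p, hp, P, hP, rfl⟩ := (mem_ltrH X).1 hb
      exact ⟨p, P, hP, (hbb p).2 (Or.inr hp), rfl⟩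

include hPy hbb hγ in
open Classical in
theorem ltr_mem : ((γ : Lˣ) : HX.GX L) ∈ (Qof X).B (insert (X.cjX Py) (ltrH X pr B)) := by
  refine ltr_memB X _ γ fun Q hQ => (ltr_pat X hPy hbb hγ Q hQ).trans ?_
  exact exists_congr fun b => and_congr_left fun _ =>
    Finset.mem_insert.trans (Finset.mem_insert (α := (Qof X).P)).symm

/-- the element `π_y` in the large field -/
noncomputable def ltrU (Fr : Frm k) (L : Type) [Field L] [NumberField L] [Algebra k L]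
    (y : Fr.sys.P) : Lˣ := Units.map (algebraMap k L : k →* L) (Fr.pi y)

theorem ltrU_val (y : Fr.sys.P) : ((ltrU Fr L y : Lˣ) : L) = algebraMap k L (Fr.pi y : k) := rfl

open Classical in
theorem ltrU_ord (y p : Fr.sys.P) (hp : p ∉ X.M) (Q : HeightOneSpectrum (𝓞 L))
    (hQ : Over (Fr.pl p) Q) : ord Q ((ltrU Fr L y : Lˣ) : L) = if p = y then 1 else 0 := by
  rw [ltrU_val, (Pool.Agent.H32.MQ.h_ord X p Q hp hQ).2]
  split_ifs with h
  · rw [h]
    exact Fr.pi_self y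
  · exact Fr.pi_other y p h

include hpr hPy hyB hbb hγ in
open Classical in
/-- the odd exponents after multiplication by `π_y` -/
theorem ltr_pat' (Q : HeightOneSpectrum (𝓞 L)) (hQ : X.Out Q) :
    Odd (ord Q ((γ * ltrU Fr L y : Lˣ) : L)) ↔ ∃ b ∈ insert Py (ltrH X pr B), b.1 = Q := by
  obtain ⟨p, hp, hpQ⟩ := hQ
  have h1 := ltr_pat X hPy hbb hγ Q ⟨p, hp, hpQ⟩
  have h2 := ltrU_ord X y p hp Q hpQ
  rw [Units.val_mul, Pool.Agent.H98.MF.B.ord_mul _ γ.ne_zero (ltrU Fr L y).ne_zero, h2]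
  have hsh : ∀ b : X.PX, b.1 = Q → X.shX b = p := fun b hb => X.shX_eq b (hb ▸ hpQ)
  by_cases hpy : p = y
  · subst hpy
    rw [if_pos rfl, Int.odd_add]
    have e1 : ¬ Even (1 : ℤ) := by decide
    have h3 : X.shX Py = p := hpr p Py hPy
    have h4 : ∀ b ∈ ltrH X pr B, b.1 ≠ Q := fun b hb hbQ => hyB (by
      rw [← hsh b hbQ]
      exact ltr_sh X hpr hb)
    rw [h1]
    have h5 : Q = Py.1 ∨ Q = (X.cjX Py).1 :=
      Pool.Agent.H98.MF.B.qe_over X.qe X.sig X.sig_α (h3 ▸ X.shX_over Py) hpQ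
    constructor
    · intro h6
      rcases h5 with h5 | h5
      · exact ⟨Py, Finset.mem_insert_self _ _, h5.symm⟩
      · exact absurd (h6.1 ⟨X.cjX Py, Finset.mem_insert_self _ _, h5.symm⟩) e1
    · rintro ⟨b, hb, hbQ⟩
      rcases Finset.mem_insert.1 hb with rfl | hb
      · refine ⟨fun h6 => ?_, fun h6 => absurd h6 e1⟩
        obtain ⟨b', hb', hbQ'⟩ := h6
        rcases Finset.mem_insert.1 hb' with rfl | hb'
        · exact absurd (Subtype.ext (hbQ'.trans hbQ.symm)) (ltr_cjne X b)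
        · exact absurd hbQ' (h4 b' hb')
      · exact absurd hbQ (h4 b hb)
  · rw [if_neg hpy, add_zero, h1]
    constructor
    · rintro ⟨b, hb, hbQ⟩
      rcases Finset.mem_insert.1 hb with rfl | hb
      · exact absurd (by rw [← hsh _ hbQ, ltr_shcj, hpr y Py hPy]) hpy
      · exact ⟨b, Finset.mem_insert_of_mem hb, hbQ⟩
    · rintro ⟨b, hb, hbQ⟩
      rcases Finset.mem_insert.1 hb with rfl | hb
      · exact absurd (by rw [← hsh _ hbQ, hpr y b hPy]) hpy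
      · exact ⟨b, Finset.mem_insert_of_mem hb, hbQ⟩

include hpr hPy hyB hbb hγ in
open Classical in
theorem ltr_mem' : ((γ * ltrU Fr L y : Lˣ) : HX.GX L) ∈
    (Qof X).B (insert Py (ltrH X pr B)) := by
  refine ltr_memB X _ _ fun Q hQ => (ltr_pat' X hpr hPy hyB hbb hγ Q hQ).trans ?_
  exact exists_congr fun b => and_congr_left fun _ =>
    Finset.mem_insert.trans (Finset.mem_insert (α := (Qof X).P)).symm

include hpr hPy hbb hγ in
/-- the symbols after multiplication by `π_y` -/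
theorem ltr_symb {z : Fr.sys.P} {Pz : X.PX} (hPz : pr z = some Pz) (hzy : z ≠ y) (hzB : z ∉ B) :
    (Qof X).sy ((γ * ltrU Fr L y : Lˣ) : HX.GX L) Pz =
      (Qof X).sy ((γ : Lˣ) : HX.GX L) Pz + Fr.sys.J y z := by
  classical
  have hz : X.shX Pz = z := hpr z Pz hPz
  have hzM : z ∉ X.M := hz ▸ X.shX_not Pz
  have hov : Over (Fr.pl z) Pz.1 := hz ▸ X.shX_over Pz
  have e1 : Even (ord Pz.1 (γ : L)) := by
    rw [← Int.not_odd_iff_even, ltr_pat X hPy hbb hγ Pz.1 ⟨z, hzM, hov⟩]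
    rintro ⟨b, hb, hbQ⟩
    have h1 : b = Pz := Subtype.ext hbQ
    rcases Finset.mem_insert.1 hb with h2 | h2
    · apply hzy
      rw [← hz, ← h1, h2, ltr_shcj, hpr y Py hPy]
    · apply hzB
      rw [← hz, ← h1]
      exact ltr_sh X hpr h2
  have e2 : ord Pz.1 ((ltrU Fr L y : Lˣ) : L) = 0 := by
    rw [ltrU_ord X y z hzM Pz.1 hov, if_neg hzy]
  have e3 : Even (ord Pz.1 ((ltrU Fr L y : Lˣ) : L)) := by
    rw [e2]
    exact Even.zero
  rw [ltr_sy, ltr_sy, Units.val_mul, Pool.Agent.H98.MF.qr_mul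
    (Pool.Agent.H32.MQ.h_ord X z Pz.1 hzM hov).1 γ.ne_zero (ltrU Fr L y).ne_zero e1 e3]
  congr 1
  have h3 := Pool.Agent.H32.MQ.h_qm X (Fr.pi y) Pz (by
    rw [hz, Fr.pi_other y z hzy]
    exact Even.zero)
  rw [ltrU_val, h3, hz]
  exact (Fr.J_eq y z (Ne.symm hzy)).symm

end Pat

end

end Pool.Agent.D8
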