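import Pool.Agent.D8.UStm
import Mathlib.NumberTheory.NumberField.Ideal.Asymptotics

/-!
# The dihedral group of order 16 over a number field: sets of primes of small norm
-/

set_option autoImplicit false

open scoped BigOperators
open NumberField IsDedekindDomain

namespace Pool.Agent.D8

open Pool.Agent.H98.MF
open Pool.Agent.H98.MK (sg)
open Pool.Agent.H32.MQ (El rep)

/-- the ideals of norm at most `X` -/
theorem ufa_finite (k : Type) [Field k] [NumberField k] (X : ℝ) :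
    Finite {I : Ideal (𝓞 k) // (Ideal.absNorm I : ℝ) ≤ X} := by
  have h := Ideal.finite_setOfPred_absNorm_le (S := 𝓞 k) ⌊X⌋₊
  rcases lt_or_ge X 0 with hX | hX
  · have : IsEmpty {I : Ideal (𝓞 k) // (Ideal.absNorm I : ℝ) ≤ X} := ⟨fun I => by
      have h1 : (0 : ℝ) ≤ Ideal.absNorm I.1 := Nat.cast_nonneg _
      have h2 := I.2
      linarith⟩
    infer_instance
  · refine Set.Finite.subset h ?_
    intro I hI
    have h1 : (Ideal.absNorm I : ℝ) ≤ X := hI
    exact Nat.le_floor h1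

/-- the number of ideals of norm at most `X` -/
theorem ufa_count (k : Type) [Field k] [NumberField k] : ∃ C : ℝ, 0 ≤ C ∧ ∀ X : ℝ, 1 ≤ X →
    (Nat.card {I : Ideal (𝓞 k) // (Ideal.absNorm I : ℝ) ≤ X} : ℝ) ≤ C * X := by
  have h := NumberField.Ideal.tendsto_norm_le_div_atTop k
  obtain ⟨c, hc⟩ : ∃ c : ℝ, Filter.Tendsto (fun s : ℝ =>
      (Nat.card {I : Ideal (𝓞 k) // (Ideal.absNorm I : ℝ) ≤ s} : ℝ) / s) Filter.atTop
      (nhds c) := ⟨_, h⟩
  obtain ⟨s0, hs0⟩ := Filter.eventually_atTop.1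
    (hc.eventually (gt_mem_nhds (lt_add_one c)))
  obtain ⟨s1, hs1⟩ : ∃ s1 : ℝ, s1 = max s0 1 := ⟨_, rfl⟩
  obtain ⟨D, hD⟩ : ∃ D : ℝ, D = (Nat.card {I : Ideal (𝓞 k) // (Ideal.absNorm I : ℝ) ≤ s1} : ℝ) :=
    ⟨_, rfl⟩
  have hD0 : 0 ≤ D := by rw [hD]; exact Nat.cast_nonneg _
  refine ⟨max (c + 1) D, le_max_of_le_right hD0, fun X hX => ?_⟩
  rcases le_or_gt s1 X with h1 | h1
  · have h2 := hs0 X ((le_max_left s0 1).trans (hs1 ▸ h1))
    have h3 : (Nat.card {I : Ideal (𝓞 k) // (Ideal.absNorm I : ℝ) ≤ X} : ℝ) < (c + 1) * X := by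
      rwa [div_lt_iff₀ (by linarith)] at h2
    exact h3.le.trans (mul_le_mul_of_nonneg_right (le_max_left _ _) (by linarith))
  · have hfin := ufa_finite k s1
    have h2 : Nat.card {I : Ideal (𝓞 k) // (Ideal.absNorm I : ℝ) ≤ X} ≤
        Nat.card {I : Ideal (𝓞 k) // (Ideal.absNorm I : ℝ) ≤ s1} :=
      Nat.card_le_card_of_injective
        (fun I => (⟨I.1, I.2.trans h1.le⟩ : {I : Ideal (𝓞 k) // (Ideal.absNorm I : ℝ) ≤ s1}))
        fun I J hIJ => Subtype.ext (by simpa using hIJ)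
    have h3 : (Nat.card {I : Ideal (𝓞 k) // (Ideal.absNorm I : ℝ) ≤ X} : ℝ) ≤ D := by
      rw [hD]
      exact_mod_cast h2
    calc (Nat.card {I : Ideal (𝓞 k) // (Ideal.absNorm I : ℝ) ≤ X} : ℝ) ≤ D := h3
      _ = D * 1 := by ring
      _ ≤ max (c + 1) D * X :=
        mul_le_mul (le_max_right _ _) hX (by norm_num) (le_max_of_le_right hD0)

section

variable {k : Type} [Field k] [NumberField k] (Fr : Frm k)

/-- the ideal of a set of primes -/
noncomputable def ufaI (x : Finset Fr.sys.P) : Ideal (𝓞 k) := ∏ p ∈ x, (Fr.pl p).asIdeal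

theorem ufa_norm (x : Finset Fr.sys.P) : Ideal.absNorm (ufaI Fr x) = Fr.sys.nm x := by
  unfold ufaI Pre.nm
  rw [map_prod]
  refine Finset.prod_congr rfl fun p _ => ?_
  rw [Fr.N_eq]
  rfl

theorem ufa_mem {x : Finset Fr.sys.P} {p : Fr.sys.P} :
    (Fr.pl p).asIdeal ∣ ufaI Fr x ↔ p ∈ x := by
  constructor
  · intro h
    unfold ufaI at h
    obtain ⟨q, hq, hd⟩ := ((Ideal.prime_iff_isPrime (Fr.pl p).ne_bot).2
      (Fr.pl p).isPrime).exists_mem_finset_dvd h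
    have h1 : (Fr.pl q).asIdeal ≤ (Fr.pl p).asIdeal := Ideal.le_of_dvd hd
    have h2 : (Fr.pl q).asIdeal = (Fr.pl p).asIdeal :=
      ((Fr.pl q).isMaximal).eq_of_le (Fr.pl p).isPrime.ne_top h1
    have h3 : q = p := Fr.pl_inj (HeightOneSpectrum.ext h2)
    exact h3 ▸ hq
  · intro h
    exact Finset.dvd_prod_of_mem _ h

theorem ufa_inj : Function.Injective (ufaI Fr) := by
  intro x y h
  ext p
  rw [← ufa_mem Fr, h, ufa_mem Fr]

end

/-- the number of sets of primes of norm at most `t`, uniformly in the frame -/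
theorem ufa_bx (k : Type) [Field k] [NumberField k] : ∃ C : ℝ, 0 ≤ C ∧
    ∀ (Fr : Frm k) (t : ℝ), 1 ≤ t → ((Fr.sys.bx t).card : ℝ) ≤ C * t := by
  obtain ⟨C, hC, h⟩ := ufa_count k
  refine ⟨C, hC, fun Fr t ht => ?_⟩
  have hfin := ufa_finite k t
  have h1 : (Fr.sys.bx t).card ≤ Nat.card {I : Ideal (𝓞 k) // (Ideal.absNorm I : ℝ) ≤ t} := by
    have e : (Fr.sys.bx t).card = Nat.card (Fr.sys.bx t) := by simp
    rw [e]
    exact Nat.card_le_card_of_injective
      (fun x : Fr.sys.bx t => (⟨ufaI Fr x.1, by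
        rw [ufa_norm]
        exact Fr.sys.mem_bx.1 x.2⟩ : {I : Ideal (𝓞 k) // (Ideal.absNorm I : ℝ) ≤ t}))
      fun x y hxy => Subtype.ext (ufa_inj Fr (by simpa using hxy))
  exact (by exact_mod_cast h1 : ((Fr.sys.bx t).card : ℝ) ≤ _).trans (h t ht)

end Pool.Agent.D8
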