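import Pool.Agent.D8.UStm
import Pool.Agent.D8.ARs

/-!
# The dihedral group of order 16 over a number field: the classes in two frames (SuOk)
-/

set_option autoImplicit false

open scoped BigOperators
open NumberField IsDedekindDomain

namespace Pool.Agent.D8

open Pool.Agent.H98.MF
open Pool.Agent.H98.MK (sg)
open Pool.Agent.H32.MQ (El rep co odp mem_odp h_co h_coU h_repO h_repQ hb_qr_sq)

/-! ### consistency -/

theorem um_T (l a b v : ZMod 2) : a + b + (l + (a + (b + v)) + v) = l := by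
  revert l a b v
  decide

theorem uOk : SuOk := by
  intro S M a b v ha hb hv
  refine ⟨fun i => ?_, fun j => ?_, ?_⟩
  · unfold mkC
    dsimp only
    split_ifs
    · exact ha
    · exact hb
  · unfold mkC
    dsimp only
    split_ifs
    · intro p hp
      unfold ad at hp
      simp only [Finset.mem_symmDiff, Finset.notMem_empty, false_and, false_or, not_false_eq_true,
        and_true] at hp
      rcases hp with ⟨h, -⟩ | ⟨⟨h, -⟩ | ⟨h, -⟩, -⟩
      · exact ha h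
      · exact hb h
      · exact hv h
    · exact hv
  · have e0 : (mkC a b v).f 0 = a := by simp [mkC]
    have e1 : (mkC a b v).f 1 = b := by simp [mkC]
    have e2 : (mkC a b v).g 0 = ad (S.l, ∅) (ad a (ad b v)) := by simp [mkC]
    have e3 : (mkC a b v).g 1 = v := by simp [mkC]
    rw [e0, e1, e2, e3]
    unfold ad
    refine Prod.ext ?_ ?_
    · dsimp only
      funext i
      simp only [Pi.add_apply]
      exact um_T _ _ _ _
    · dsimp only
      ext p
      simp only [Finset.mem_symmDiff, Finset.notMem_empty]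
      tauto

/-! ### squares -/

section

variable {k : Type} [Field k] [NumberField k]

/-- The same class modulo squares. -/
def URel (Fr Fr' : Frm k) (c : El Fr.sys) (c' : El Fr'.sys) : Prop :=
  IsSquare (rep Fr c * rep Fr' c')

theorem um_prod_symm {ι : Type} [DecidableEq ι] (f : ι → kˣ) (s t : Finset ι) :
    (∏ p ∈ s, f p) * ∏ p ∈ t, f p = (∏ p ∈ symmDiff s t, f p) * (∏ p ∈ s ∩ t, f p) ^ 2 := by
  have h1 : (∏ p ∈ s ∪ t, f p) * ∏ p ∈ s ∩ t, f p = (∏ p ∈ s, f p) * ∏ p ∈ t, f p :=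
    Finset.prod_union_inter
  have h2 : symmDiff s t ∪ s ∩ t = s ∪ t := by
    ext p
    simp only [Finset.mem_union, Finset.mem_symmDiff, Finset.mem_inter]
    tauto
  have h3 : Disjoint (symmDiff s t) (s ∩ t) := by
    rw [Finset.disjoint_left]
    intro p hp hp'
    simp only [Finset.mem_symmDiff, Finset.mem_inter] at hp hp'
    tauto
  rw [← h1, ← h2, Finset.prod_union h3, pow_two, mul_assoc]

theorem um_rep_ad (Fr : Frm k) (c d : El Fr.sys) :
    IsSquare (rep Fr c * rep Fr d * rep Fr (ad c d)) := by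
  obtain ⟨t, ht⟩ := NFrm_prod_add Fr.u c.1 d.1
  have h2 := um_prod_symm Fr.pi c.2 d.2
  unfold rep ad
  dsimp only
  refine ⟨(∏ j, Fr.u j ^ ((c.1 + d.1) j).val) * t *
    ((∏ p ∈ symmDiff c.2 d.2, Fr.pi p) * (∏ p ∈ c.2 ∩ d.2, Fr.pi p)), ?_⟩
  calc (∏ j, Fr.u j ^ (c.1 j).val) * (∏ p ∈ c.2, Fr.pi p) *
        ((∏ j, Fr.u j ^ (d.1 j).val) * ∏ p ∈ d.2, Fr.pi p) *
        ((∏ j, Fr.u j ^ ((c.1 + d.1) j).val) * ∏ p ∈ symmDiff c.2 d.2, Fr.pi p)
      = ((∏ j, Fr.u j ^ (c.1 j).val) * (∏ j, Fr.u j ^ (d.1 j).val)) *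
        ((∏ p ∈ c.2, Fr.pi p) * ∏ p ∈ d.2, Fr.pi p) *
        ((∏ j, Fr.u j ^ ((c.1 + d.1) j).val) * ∏ p ∈ symmDiff c.2 d.2, Fr.pi p) := by
        rw [mul_mul_mul_comm (∏ j, Fr.u j ^ (c.1 j).val) (∏ p ∈ c.2, Fr.pi p)
          (∏ j, Fr.u j ^ (d.1 j).val) (∏ p ∈ d.2, Fr.pi p)]
    _ = _ := by
        rw [ht, h2, pow_two, pow_two]
        have e : ∀ x t D I : kˣ, x * (t * t) * (D * (I * I)) * (x * D) =
            x * t * (D * I) * (x * t * (D * I)) := by
          intro x t D I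
          have h : ((x * (t * t) * (D * (I * I)) * (x * D) : kˣ) : k) =
              ((x * t * (D * I) * (x * t * (D * I)) : kˣ) : k) := by
            push_cast
            ring
          exact Units.ext h
        exact e _ _ _ _

theorem um_sq4 {x y z w a b : kˣ} (h1 : IsSquare (x * y * z))
    (h2 : IsSquare (a * b * w)) (h3 : IsSquare (x * a)) (h4 : IsSquare (y * b)) :
    IsSquare (z * w) := by
  obtain ⟨s1, hs1⟩ := h1
  obtain ⟨s2, hs2⟩ := h2
  obtain ⟨s3, hs3⟩ := h3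
  obtain ⟨s4, hs4⟩ := h4
  refine ⟨s1 * s2 * (s3 * s4)⁻¹, ?_⟩
  have e1 : z * w * ((x * a) * (y * b)) = (x * y * z) * (a * b * w) := by
    apply Units.ext
    push_cast
    ring
  rw [hs1, hs2, hs3, hs4] at e1
  have e2 : z * w = s1 * s1 * (s2 * s2) * (s3 * s3 * (s4 * s4))⁻¹ :=
    eq_mul_inv_of_mul_eq e1
  rw [e2]
  have e3 : ∀ p q r t : kˣ, p * p * (q * q) * (r * r * (t * t))⁻¹ =
      p * q * (r * t)⁻¹ * (p * q * (r * t)⁻¹) := by
    intro p q r t
    rw [mul_mul_mul_comm p p q q, mul_mul_mul_comm r r t t, mul_inv]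
    exact mul_mul_mul_comm _ _ _ _
  exact e3 _ _ _ _

theorem um_rel_ad {Fr Fr' : Frm k} {c d : El Fr.sys} {c' d' : El Fr'.sys}
    (h : URel Fr Fr' c c') (h' : URel Fr Fr' d d') : URel Fr Fr' (ad c d) (ad c' d') :=
  um_sq4 (um_rep_ad Fr c d) (um_rep_ad Fr' c' d') h h'

theorem um_rel_l (Fr Fr' : Frm k) : URel Fr Fr' (Fr.sys.l, ∅) (Fr'.sys.l, ∅) := by
  obtain ⟨s, hs⟩ := arp_neg_one Fr
  obtain ⟨t, ht⟩ := arp_neg_one Fr'
  unfold URel rep
  dsimp only
  rw [Finset.prod_empty, Finset.prod_empty, mul_one, mul_one]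
  refine ⟨s * t, ?_⟩
  have e : (∏ j, Fr.u j ^ (Fr.sys.l j).val) * ∏ j, Fr'.u j ^ (Fr'.sys.l j).val =
      ((-1 : kˣ) * ∏ j, Fr.u j ^ (Fr.sys.l j).val) *
        ((-1 : kˣ) * ∏ j, Fr'.u j ^ (Fr'.sys.l j).val) := by
    rw [mul_mul_mul_comm, neg_one_mul, neg_neg, one_mul]
  rw [e, hs, ht]
  exact mul_mul_mul_comm _ _ _ _

theorem um_ex {Fr Fr' : Frm k} {c : El Fr.sys} {c' : El Fr'.sys} (h : URel Fr Fr' c c')
    {p : Fr.sys.P} {p' : Fr'.sys.P} (hp : p ∉ c.2) (hp' : p' ∉ c'.2)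
    (hpl : Fr.pl p = Fr'.pl p') : Fr.sys.ex c.2 c.1 p = Fr'.sys.ex c'.2 c'.1 p' := by
  rw [← h_repQ Fr c p hp, ← h_repQ Fr' c' p' hp', ← hpl]
  exact hb_qr_sq h (Fr.pl p)

end

/-! ### the two frames -/

section

variable {k : Type} [Field k] [NumberField k] {Fr Fr' : Frm k}

/-- the primes of the second frame -/
structure Emb (Fr Fr' : Frm k) (R : Finset Fr.sys.P) where
  i : Fr'.sys.P → Fr.sys.P
  pl : ∀ p', Fr.pl (i p') = Fr'.pl p'
  rng : ∀ p, p ∉ R ↔ ∃ p', i p' = p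

theorem um_emb (R : Finset Fr.sys.P) (h : ∀ P, P ∈ Fr'.S ↔ P ∈ Fr.S ∨ ∃ p ∈ R, Fr.pl p = P) :
    Nonempty (Emb Fr Fr' R) := by
  have h1 : ∀ p' : Fr'.sys.P, ∃ p, Fr.pl p = Fr'.pl p' := by
    intro p'
    apply (Fr.pl_iff _).2
    intro h2
    exact (Fr'.pl_iff _).1 ⟨p', rfl⟩ ((h _).2 (Or.inl h2))
  choose i hi using h1
  refine ⟨⟨i, hi, fun p => ⟨fun hp => ?_, ?_⟩⟩⟩
  · have h2 : Fr.pl p ∉ Fr'.S := by
      intro h3
      rcases (h _).1 h3 with h4 | ⟨q, hq, h4⟩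
      · exact (Fr.pl_iff _).1 ⟨p, rfl⟩ h4
      · exact hp (Fr.pl_inj h4 ▸ hq)
    obtain ⟨p', hp'⟩ := (Fr'.pl_iff _).2 h2
    exact ⟨p', Fr.pl_inj ((hi p').trans hp')⟩
  · rintro ⟨p', rfl⟩ hp
    have h2 : Fr'.pl p' ∈ Fr'.S := (h _).2 (Or.inr ⟨i p', hp, hi p'⟩)
    exact (Fr'.pl_iff _).1 ⟨p', rfl⟩ h2

namespace Emb

variable {R : Finset Fr.sys.P} (E : Emb Fr Fr' R)

theorem inj : Function.Injective E.i := by
  intro a b h
  apply Fr'.pl_inj
  rw [← E.pl, ← E.pl, h]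

theorem notR (p' : Fr'.sys.P) : E.i p' ∉ R := (E.rng _).2 ⟨p', rfl⟩

theorem N (p' : Fr'.sys.P) : Fr.sys.N (E.i p') = Fr'.sys.N p' := by
  rw [Fr.N_eq, Fr'.N_eq, E.pl]

/-- the image of a set of primes -/
noncomputable def im (A : Finset Fr'.sys.P) : Finset Fr.sys.P := A.image E.i

theorem mem_im {A : Finset Fr'.sys.P} {p' : Fr'.sys.P} : E.i p' ∈ E.im A ↔ p' ∈ A := by
  unfold im
  rw [Finset.mem_image]
  constructor
  · rintro ⟨q, hq, h⟩
    rwa [← E.inj h]
  · intro h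
    exact ⟨p', h, rfl⟩

theorem im_notR {A : Finset Fr'.sys.P} {p : Fr.sys.P} (h : p ∈ E.im A) : p ∉ R := by
  unfold im at h
  rw [Finset.mem_image] at h
  obtain ⟨q, -, rfl⟩ := h
  exact E.notR q

/-- the class of the first frame -/
noncomputable def phi (_ : Emb Fr Fr' R) (A : Finset Fr'.sys.P) (a : Fr'.sys.T) : El Fr.sys :=
  ((co Fr (rep Fr' (a, A))).1, odp Fr (rep Fr' (a, A)) ∩ R)

theorem odp_eq (A : Finset Fr'.sys.P) (a : Fr'.sys.T) :
    odp Fr (rep Fr' (a, A)) = (E.phi A a).2 ∪ E.im A := by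
  ext p
  rw [Finset.mem_union]
  by_cases hp : p ∈ R
  · constructor
    · intro h
      left
      exact Finset.mem_inter.2 ⟨h, hp⟩
    · rintro (h | h)
      · exact (Finset.mem_inter.1 h).1
      · exact absurd hp (E.im_notR h)
  · obtain ⟨p', rfl⟩ := (E.rng p).1 hp
    rw [mem_odp, E.pl, h_repO Fr' (a, A) p', E.mem_im]
    have h1 : E.i p' ∉ (E.phi A a).2 := fun h => hp (Finset.mem_inter.1 h).2
    by_cases h2 : p' ∈ A
    · simp [h2]
    · simp [h2, h1]

theorem co_eq (A : Finset Fr'.sys.P) (a : Fr'.sys.T) :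
    co Fr (rep Fr' (a, A)) = ((E.phi A a).1, (E.phi A a).2 ∪ E.im A) := by
  refine Prod.ext rfl ?_
  exact E.odp_eq A a

theorem rel (A : Finset Fr'.sys.P) (a : Fr'.sys.T) :
    URel Fr Fr' ((E.phi A a).1, (E.phi A a).2 ∪ E.im A) (a, A) := by
  have h := h_co Fr (rep Fr' (a, A))
  rw [E.co_eq, mul_comm] at h
  exact h

theorem phi_sub (A : Finset Fr'.sys.P) (a : Fr'.sys.T) : (E.phi A a).2 ⊆ R :=
  Finset.inter_subset_right

theorem sum_phi (A : Finset Fr'.sys.P) (F : El Fr.sys → ℝ) :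
    ∑ c ∈ elM R, F c = ∑ a : Fr'.sys.T, F (E.phi A a) := by
  symm
  refine Finset.sum_nbij (E.phi A) ?_ ?_ ?_ fun a _ => rfl
  · intro a _
    unfold elM
    rw [Finset.mem_product]
    exact ⟨Finset.mem_univ _, Finset.mem_powerset.2 (E.phi_sub A a)⟩
  · intro a _ b _ h
    have h1 := E.rel A a
    have h2 := E.rel A b
    have h3 : E.phi A a = E.phi A b := h
    rw [h3] at h1
    obtain ⟨s, hs⟩ := h1
    obtain ⟨t, ht⟩ := h2
    have h4 : IsSquare (rep Fr' (a, A) * rep Fr' (b, A)) := by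
      refine ⟨s * t * (rep Fr ((E.phi A b).1, (E.phi A b).2 ∪ E.im A))⁻¹, ?_⟩
      have e1 : rep Fr' (a, A) * rep Fr' (b, A) *
          (rep Fr ((E.phi A b).1, (E.phi A b).2 ∪ E.im A) *
            rep Fr ((E.phi A b).1, (E.phi A b).2 ∪ E.im A)) = s * s * (t * t) := by
        rw [← hs, ← ht]
        apply Units.ext
        push_cast
        ring
      rw [eq_mul_inv_of_mul_eq e1, mul_inv]
      have e3 : ∀ p q r : kˣ, p * p * (q * q) * (r * r) = p * q * r * (p * q * r) := by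
        intro p q r
        rw [mul_mul_mul_comm p p q q]
        exact mul_mul_mul_comm _ _ _ _
      exact e3 _ _ _
    exact congrArg Prod.fst (h_coU Fr' (a, A) (b, A) h4)
  · intro c hc
    have hc2 : c.2 ⊆ R := by
      have h1 := (Finset.mem_product.1 (show c ∈ Finset.univ ×ˢ R.powerset from hc)).2
      exact Finset.mem_powerset.1 h1
    set z : kˣ := rep Fr (c.1, c.2 ∪ E.im A) with hz
    have h1 : odp Fr' z = A := by
      ext p'
      rw [mem_odp, ← E.pl, hz, h_repO Fr _ (E.i p')]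
      have h2 : E.i p' ∉ c.2 := fun h => E.notR p' (hc2 h)
      by_cases h3 : p' ∈ A
      · simp [h3, E.mem_im]
      · simp [h3, h2, E.mem_im]
    have h2 : co Fr' z = ((co Fr' z).1, A) := Prod.ext rfl h1
    have h3 := h_co Fr' z
    rw [h2] at h3
    refine ⟨(co Fr' z).1, Finset.mem_coe.2 (Finset.mem_univ _), ?_⟩
    have h4 := E.rel A (co Fr' z).1
    have h5 : IsSquare (rep Fr (c.1, c.2 ∪ E.im A) *
        rep Fr ((E.phi A (co Fr' z).1).1, (E.phi A (co Fr' z).1).2 ∪ E.im A)) := by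
      obtain ⟨s, hs⟩ := h3
      obtain ⟨t, ht⟩ := h4
      refine ⟨s * t * (rep Fr' ((co Fr' z).1, A))⁻¹, ?_⟩
      have e1 : z * rep Fr ((E.phi A (co Fr' z).1).1, (E.phi A (co Fr' z).1).2 ∪ E.im A) *
          (rep Fr' ((co Fr' z).1, A) * rep Fr' ((co Fr' z).1, A)) = s * s * (t * t) := by
        rw [← hs, ← ht]
        apply Units.ext
        push_cast
        ring
      rw [← hz, eq_mul_inv_of_mul_eq e1, mul_inv]
      have e3 : ∀ p q r : kˣ, p * p * (q * q) * (r * r) = p * q * r * (p * q * r) := by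
        intro p q r
        rw [mul_mul_mul_comm p p q q]
        exact mul_mul_mul_comm _ _ _ _
      exact e3 _ _ _
    have h6 := h_coU Fr _ _ h5
    rw [Prod.mk.injEq] at h6
    obtain ⟨h7, h8⟩ := h6
    refine Prod.ext h7.symm ?_
    ext p
    by_cases hp : p ∈ R
    · have h9 : p ∉ E.im A := fun h => E.im_notR h hp
      have h10 := Finset.ext_iff.1 h8 p
      rw [Finset.mem_union, Finset.mem_union] at h10
      tauto
    · have h9 : p ∉ c.2 := fun h => hp (hc2 h)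
      have h10 : p ∉ (E.phi A (co Fr' z).1).2 := fun h => hp (E.phi_sub A _ h)
      tauto

end Emb

end

end Pool.Agent.D8
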