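import Pool.Agent.D8.CDefs

/-!
# The dihedral group of order 16 over a number field: statements for the uniform bound
-/

set_option autoImplicit false

open scoped BigOperators
open NumberField IsDedekindDomain

namespace Pool.Agent.D8

open Pool.Agent.H98.MF
open Pool.Agent.H98.MK (sg)
open Pool.Agent.H32.MQ (El rep)

/-- U0: consistency of the coefficients -/
def SuOk : Prop := ∀ (S : Sys) (M : Finset S.P) (a b v : El S), a.2 ⊆ M → b.2 ⊆ M → v.2 ⊆ M →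
  (mkC a b v).Ok M

section

variable (k : Type) [Field k] [NumberField k]

open Classical in
/-- U1: the bound for a fixed frame, the constant depends on the field only -/
def SuFix : Prop := ∃ C : ℝ, 0 ≤ C ∧ ∀ (Fr : Frm k) (Rk : RxF k) (q : ℕ) (X : ℝ), 1 ≤ q →
  1 ≤ X → {ρ : Gm k →* E8 | ρ ∈ Hs k ∧ Tm Fr Rk ρ ∧ q ≤ qE Fr Rk ρ ∧ (dN ρ : ℝ) ≤ X}.Finite ∧
  ({ρ : Gm k →* E8 | ρ ∈ Hs k ∧ Tm Fr Rk ρ ∧ q ≤ qE Fr Rk ρ ∧ (dN ρ : ℝ) ≤ X}.ncard : ℝ) ≤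
    C * 8 ^ Fr.sys.m * (X / q) ^ (1 / 8 : ℝ) *
      ∑ a : Fr.sys.T, ∑ b : Fr.sys.T, ∑ v : Fr.sys.T, ∑' x : V → Finset Fr.sys.P,
        (if (nx x : ℝ) ≤ X ^ (1 / 8 : ℝ) then ms (fun _ => 1) ∅ (mkc a b v) 1 x else 0)

end

section

variable {k : Type} [Field k] [NumberField k] (Fr Fr' : Frm k) (Rk : RxF k)

open Classical in
/-- U2: the masses of the configurations in two frames -/
def SuMv : Prop := ∀ (R : Finset Fr.sys.P), Fr'.S = Fr.S ∪ R.image Fr.pl → ∀ Y : ℝ,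
  ∑ a : Fr'.sys.T, ∑ b : Fr'.sys.T, ∑ v : Fr'.sys.T, ∑' x : V → Finset Fr'.sys.P,
      (if (nx x : ℝ) ≤ Y then ms (fun _ => 1) ∅ (mkc a b v) 1 x else 0) =
    ∑ ca ∈ elM R, ∑ cb ∈ elM R, ∑ cv ∈ elM R, ∑' x : V → Finset Fr.sys.P,
      (if (nx x : ℝ) ≤ Y then ms (fun _ => 1) R (mkC ca cb cv) 1 x else 0)

open Classical in
/-- U3: the homomorphisms with inertia of order larger than two exactly at `R` -/
def SuCh : Prop := ∀ (R : Finset Fr.sys.P), Fr'.S = Fr.S ∪ R.image Fr.pl → ∀ X : ℝ,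
  ∀ ρ ∈ AR Fr Rk R X, Tm Fr' Rk ρ ∧ Fr.sys.nm R ^ 12 ≤ qE Fr' Rk ρ

end

end Pool.Agent.D8
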